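import Pool.Agent.T2H83.GR.Stm3

set_option autoImplicit false

/-! # CRT: growth of the face numbers of the cross polytope -/

namespace Pool.Agent.T2H83.GR

namespace PkgCRT

/-- natural number version of `XX` -/
def YY (d t : ℕ) : ℕ := d.choose t * 2 ^ t

theorem YY_succ (d t : ℕ) : YY d (t + 1) * (t + 1) = YY d t * (2 * (d - t)) := by
  have e := Nat.choose_succ_right_eq d t
  unfold YY
  calc d.choose (t + 1) * 2 ^ (t + 1) * (t + 1)
      = (d.choose (t + 1) * (t + 1)) * 2 ^ (t + 1) := by ring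
    _ = d.choose t * (d - t) * 2 ^ (t + 1) := by rw [e]
    _ = d.choose t * 2 ^ t * (2 * (d - t)) := by ring

theorem step {d n m t : ℕ} (h : (m + 2) * n ≤ 2 * d + 2) (ht : t + 1 ≤ n) :
    m * YY d t ≤ YY d (t + 1) := by
  refine Nat.le_of_mul_le_mul_right ?_ (Nat.succ_pos t)
  have h1 : m * (t + 1) ≤ 2 * (d - t) := by
    have h2 : m * (t + 1) ≤ m * n := Nat.mul_le_mul_left m ht
    have h3 : (m + 2) * n = m * n + 2 * n := by ring
    omega
  calc m * YY d t * (t + 1) = YY d t * (m * (t + 1)) := by ring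
    _ ≤ YY d t * (2 * (d - t)) := Nat.mul_le_mul_left _ h1
    _ = YY d (t + 1) * (t + 1) := (YY_succ d t).symm

theorem steps {d n m t : ℕ} (h : (m + 2) * n ≤ 2 * d + 2) : ∀ k : ℕ, t + k ≤ n →
    m ^ k * YY d t ≤ YY d (t + k)
  | 0, _ => by simp
  | k + 1, hk => by
    have ih := steps (t := t) h k (by omega)
    calc m ^ (k + 1) * YY d t = m * (m ^ k * YY d t) := by ring
      _ ≤ m * YY d (t + k) := Nat.mul_le_mul_left _ ih
      _ ≤ YY d (t + k + 1) := step h (by omega)

end PkgCRT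

open PkgCRT in
theorem pCRT : S_CRT := by
  intro d j r m hj hr hm h
  have hn : 1 ≤ r * j := Nat.mul_pos hr hj
  have hm2 : 2 ≤ m := by
    by_contra hlt
    have hcase : m = 0 ∨ m = 1 := by omega
    rcases hcase with h0 | h1
    · subst h0
      rw [zero_pow (by omega)] at hm
      omega
    · subst h1
      rw [one_pow] at hm
      omega
  have h4 : 4 * (r * j) ≤ (m + 2) * (r * j) := Nat.mul_le_mul_right _ (by omega)
  have hle : r * j ≤ d := by omega
  refine ⟨hle, ?_⟩
  have hrj : r * (j - 1) + r = r * j := by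
    obtain ⟨i, rfl⟩ : ∃ i, j = i + 1 := ⟨j - 1, by omega⟩
    simp [Nat.mul_add]
  have h5 : m ^ r * YY d (r * (j - 1)) ≤ YY d (r * (j - 1) + r) := steps h r (by omega)
  rw [hrj] at h5
  have hpos : 0 < YY d (r * (j - 1)) := by
    unfold YY
    exact Nat.mul_pos (Nat.choose_pos (by omega)) (by positivity)
  have h6 : 2 * d * YY d (r * (j - 1)) < YY d (r * j) :=
    lt_of_lt_of_le (Nat.mul_lt_mul_of_pos_right hm hpos) h5
  have h7 : ((2 * d * YY d (r * (j - 1)) : ℕ) : ℝ) < ((YY d (r * j) : ℕ) : ℝ) := by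
    exact_mod_cast h6
  unfold YY at h7
  unfold XX
  push_cast at h7
  exact h7

end Pool.Agent.T2H83.GR
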