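import Pool.Agent.T2H83.GR.Stm2

set_option autoImplicit false

namespace Pool.Agent.T2H83.GR

open Finset PowerSeries

namespace PkgHOM

lemma coeff_pow_lin (m k : ℕ) :
    coeff k ((1 + 2 * (X : ℝ⟦X⟧)) ^ m) = (m.choose k : ℝ) * 2 ^ k := by
  rw [add_comm, add_pow, map_sum]
  have h : ∀ i ∈ range (m + 1), coeff k ((2 * (X : ℝ⟦X⟧)) ^ i * 1 ^ (m - i) * (m.choose i : ℝ⟦X⟧)) =
      if k = i then (m.choose k : ℝ) * 2 ^ k else 0 := by
    intro i _
    have e : (2 * (X : ℝ⟦X⟧)) ^ i * 1 ^ (m - i) * (m.choose i : ℝ⟦X⟧) =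
        C ((m.choose i : ℝ) * 2 ^ i) * X ^ i := by
      rw [one_pow, mul_one, mul_pow, map_mul, map_pow, map_natCast]
      have : (C (2 : ℝ) : ℝ⟦X⟧) = 2 := map_ofNat _ 2
      rw [this]
      ring
    rw [e, coeff_C_mul, coeff_X_pow]
    split_ifs with h1
    · rw [h1, mul_one]
    · rw [mul_zero]
  rw [Finset.sum_congr rfl h, Finset.sum_ite_eq]
  split_ifs with h1
  · rfl
  · have : m < k := by
      rw [Finset.mem_range] at h1
      omega
    rw [Nat.choose_eq_zero_of_lt this]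
    simp

lemma cE_ne (hSER : S_SER) : constantCoeff cE ≠ 0 := by
  have h := congrArg constantCoeff hSER.2.2.1
  simp only [map_add, map_mul, constantCoeff_X, zero_mul, mul_zero, add_zero, map_one] at h
  rw [h]
  exact one_ne_zero

/-- the identity of power series -/
lemma key (hSER : S_SER) (d : ℕ) (b γ : ℕ → ℝ)
    (h : ∑ n ∈ range (d + 1), Polynomial.C (b n) * Polynomial.X ^ n = Phi d γ) :
    ∑ n ∈ range (d + 1), C (b n) * ((X * qS) ^ n * cE ^ (d - n)) =
      ∑ i ∈ range (d / 2 + 1), C (γ i) * (X ^ i * (1 + 2 * X) ^ (d - i)) := by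
  have hB : cE * cE⁻¹ = 1 := PowerSeries.mul_inv_cancel _ (cE_ne hSER)
  set t : ℝ⟦X⟧ := (X * qS) * cE⁻¹ with ht
  have hBt : cE * t = X * qS := by
    rw [ht]
    calc cE * (X * qS * cE⁻¹) = (X * qS) * (cE * cE⁻¹) := by ring
      _ = X * qS := by rw [hB, mul_one]
  clear_value t
  have h1 := congrArg (Polynomial.eval₂ (C (R := ℝ)) t) h
  unfold Phi at h1
  simp only [Polynomial.eval₂_finsetSum, Polynomial.eval₂_mul, Polynomial.eval₂_pow,
    Polynomial.eval₂_C, Polynomial.eval₂_X, Polynomial.eval₂_add, Polynomial.eval₂_one,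
    Polynomial.eval₂_ofNat] at h1
  have h2 := congrArg (fun z => cE ^ d * z) h1
  simp only [Finset.mul_sum] at h2
  have h3 : ∀ n ∈ range (d + 1), cE ^ d * (C (b n) * t ^ n) =
      C (b n) * ((X * qS) ^ n * cE ^ (d - n)) := by
    intro n hn
    have hn' : n ≤ d := by
      have := Finset.mem_range.1 hn
      omega
    have e : cE ^ d = cE ^ (d - n) * cE ^ n := by
      rw [← pow_add]
      congr 1
      omega
    rw [e, ← hBt, mul_pow]
    ring
  have h4 : ∀ i ∈ range (d / 2 + 1), cE ^ d * (C (γ i) * (t + t ^ 2) ^ i * (1 + 2 * t) ^ (d - 2 * i)) =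
      C (γ i) * (X ^ i * (1 + 2 * X) ^ (d - i)) := by
    intro i hi
    have hi' : 2 * i ≤ d := by
      have := Finset.mem_range.1 hi
      omega
    have e : cE ^ d = (cE ^ 2) ^ i * cE ^ (d - 2 * i) := by
      rw [← pow_mul, ← pow_add]
      congr 1
      omega
    have e1 : cE ^ 2 * (t + t ^ 2) = X * (1 + 2 * X) := by
      rw [← hSER.2.2.2.1, ← hBt]
      ring
    have e2 : cE * (1 + 2 * t) = 1 + 2 * X := by
      rw [← hSER.2.2.1, ← hBt]
      ring
    calc cE ^ d * (C (γ i) * (t + t ^ 2) ^ i * (1 + 2 * t) ^ (d - 2 * i))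
        = C (γ i) * ((cE ^ 2 * (t + t ^ 2)) ^ i * (cE * (1 + 2 * t)) ^ (d - 2 * i)) := by
          rw [e, mul_pow (cE ^ 2) (t + t ^ 2) i, mul_pow cE (1 + 2 * t) (d - 2 * i)]
          generalize (t + t ^ 2) ^ i = P1
          generalize (1 + 2 * t) ^ (d - 2 * i) = P2
          generalize (cE ^ 2) ^ i = P3
          generalize cE ^ (d - 2 * i) = P4
          ring
      _ = C (γ i) * (X ^ i * (1 + 2 * X) ^ (d - i)) := by
          rw [e1, e2, mul_pow, mul_assoc, ← pow_add]
          congr 4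
          omega
  rw [Finset.sum_congr rfl h3, Finset.sum_congr rfl h4] at h2
  exact h2

end PkgHOM

open PkgHOM in
theorem pHOM (hSER : S_SER) : S_HOM := by
  intro d b γ h j hj
  have h1 := congrArg (coeff (2 * j)) (key hSER d b γ h)
  rw [map_sum, map_sum] at h1
  have h2 : ∀ i ∈ range (d / 2 + 1), coeff (2 * j) (C (γ i) * (X ^ i * (1 + 2 * X) ^ (d - i))) =
      if i ≤ 2 * j then γ i * ((d - i).choose (2 * j - i) : ℝ) * 2 ^ (2 * j - i) else 0 := by
    intro i _
    rw [coeff_C_mul, coeff_X_pow_mul']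
    split_ifs with h3
    · rw [coeff_pow_lin, mul_assoc]
    · rw [mul_zero]
  have h3 : ∀ n ∈ range (d + 1), coeff (2 * j) (C (b n) * ((X * qS) ^ n * cE ^ (d - n))) =
      if n ≤ 2 * j then b n * coeff (2 * j - n) (qS ^ n * cE ^ (d - n)) else 0 := by
    intro n _
    rw [coeff_C_mul, mul_pow, mul_assoc, coeff_X_pow_mul']
    split_ifs with h3
    · rfl
    · rw [mul_zero]
  rw [Finset.sum_congr rfl h2, Finset.sum_congr rfl h3] at h1
  unfold Mat
  rw [← h1]
  symm
  rw [← Finset.sum_filter]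
  refine Finset.sum_congr ?_ fun _ _ => rfl
  ext n
  simp only [Finset.mem_filter, Finset.mem_range]
  omega

end Pool.Agent.T2H83.GR
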