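import Pool.Agent.T2H83.GR.Stm2

set_option autoImplicit false

namespace Pool.Agent.T2H83.GR

open Finset PowerSeries

namespace PkgPSJ

lemma alt (M : ℕ) : ∀ u : ℕ → ℝ, (∀ a ≤ M, 0 ≤ u a) → (∀ a < M, u (a + 1) ≤ u a) →
    0 ≤ ∑ a ∈ range (M + 1), (-1 : ℝ) ^ a * u a ∧ ∑ a ∈ range (M + 1), (-1 : ℝ) ^ a * u a ≤ u 0 := by
  induction M with
  | zero =>
    intro u h0 _
    simp only [zero_add, range_one, sum_singleton, pow_zero, one_mul, le_refl, and_true]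
    exact h0 0 le_rfl
  | succ M ih =>
    intro u h0 h1
    rw [Finset.sum_range_succ']
    have h := ih (fun a => u (a + 1)) (fun a ha => h0 (a + 1) (by omega))
      (fun a ha => h1 (a + 1) (by omega))
    have e : ∑ a ∈ range (M + 1), (-1 : ℝ) ^ (a + 1) * u (a + 1) =
        - ∑ a ∈ range (M + 1), (-1 : ℝ) ^ a * u (a + 1) := by
      rw [← Finset.sum_neg_distrib]
      exact Finset.sum_congr rfl fun a _ => by ring
    rw [e]
    have h2 := h1 0 (by omega)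
    have h3 := h.1
    have h4 := h.2
    simp only [pow_zero, one_mul, zero_add] at *
    constructor <;> linarith

lemma alt1 (M : ℕ) (u : ℕ → ℝ) (h0 : ∀ a ≤ M + 1, 0 ≤ u a) (h1 : ∀ a < M + 1, u (a + 1) ≤ u a) :
    u 0 - u 1 ≤ ∑ a ∈ range (M + 2), (-1 : ℝ) ^ a * u a := by
  rw [Finset.sum_range_succ']
  have h := alt M (fun a => u (a + 1)) (fun a ha => h0 (a + 1) (by omega))
    (fun a ha => h1 (a + 1) (by omega))
  have e : ∑ a ∈ range (M + 1), (-1 : ℝ) ^ (a + 1) * u (a + 1) =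
      - ∑ a ∈ range (M + 1), (-1 : ℝ) ^ a * u (a + 1) := by
    rw [← Finset.sum_neg_distrib]
    exact Finset.sum_congr rfl fun a _ => by ring
  rw [e]
  have h4 := h.2
  simp only [pow_zero, one_mul, zero_add] at *
  linarith

lemma TT_zero (e : ℝ) : TT e 0 = 1 := by simp [TT]

lemma TT_succ (e : ℝ) (a : ℕ) : TT e (a + 1) = TT e a * (2 * (e + 2 * ((a : ℝ) + 1)) / ((a : ℝ) + 1)) := by
  unfold TT
  rw [Finset.prod_range_succ]

lemma TT_nonneg (e : ℝ) (he : 0 ≤ e) (a : ℕ) : 0 ≤ TT e a := by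
  unfold TT
  refine Finset.prod_nonneg fun i _ => ?_
  positivity

lemma two (d : ℕ) (b : ℕ → ℝ)
    (hb : ∀ n < d, 2 * ((d : ℝ) - n) * b n ≤ (n + 1) * b (n + 1)) (n : ℕ) (hn : n + 2 ≤ d) :
    4 * ((d : ℝ) - n) * ((d : ℝ) - n - 1) * b n ≤ ((n : ℝ) + 1) * (n + 2) * b (n + 2) := by
  have h1 := hb n (by omega)
  have h2 := hb (n + 1) (by omega)
  have h3 : ((n : ℝ) + 2) ≤ d := by exact_mod_cast hn
  have h4 := mul_le_mul_of_nonneg_left h1 (a := 2 * ((d : ℝ) - n - 1)) (by linarith)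
  have h5 := mul_le_mul_of_nonneg_left h2 (a := ((n : ℝ) + 1)) (by positivity)
  have e1 : b (n + 1 + 1) = b (n + 2) := rfl
  rw [e1] at h5
  push_cast at h5
  nlinarith

lemma step (d j : ℕ) (b : ℕ → ℝ) (hj : 2 * j ^ 2 + j ≤ d + 1) (hd : 2 * j ≤ d)
    (hb0 : ∀ n ≤ d, 0 ≤ b n)
    (hb : ∀ n < d, 2 * ((d : ℝ) - n) * b n ≤ (n + 1) * b (n + 1))
    (n a : ℕ) (hn : n + 2 ≤ 2 * j) :
    b n * (2 * ((d : ℝ) - n)) ≤ ((a : ℝ) + 1) * b (n + 2) := by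
  have h1 := two d b hb n (by omega)
  have hjR : 2 * (j : ℝ) ^ 2 + j ≤ d + 1 := by exact_mod_cast hj
  have hdR : 2 * (j : ℝ) ≤ d := by exact_mod_cast hd
  have hnR : (n : ℝ) + 2 ≤ 2 * j := by exact_mod_cast hn
  have hn0 : (0 : ℝ) ≤ n := Nat.cast_nonneg n
  have ha0 : (0 : ℝ) ≤ a := Nat.cast_nonneg a
  have hb2 : 0 ≤ b (n + 2) := hb0 _ (by omega)
  have hpos : 0 < (d : ℝ) - n - 1 := by linarith
  -- (n+1)(n+2) ≤ 2 (d - n - 1)
  have h2 : ((n : ℝ) + 1) * (n + 2) ≤ 2 * ((d : ℝ) - n - 1) := by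
    have h3 : ((n : ℝ) + 1) * (n + 2) ≤ (2 * j - 1) * (2 * j) := by
      apply mul_le_mul
      · linarith
      · exact hnR
      · linarith
      · linarith
    nlinarith
  have h3 : ((n : ℝ) + 1) * (n + 2) ≤ 2 * ((a : ℝ) + 1) * ((d : ℝ) - n - 1) := by
    nlinarith
  have h4 := mul_le_mul_of_nonneg_right h3 hb2
  have h5 : ((d : ℝ) - n - 1) * (b n * (2 * ((d : ℝ) - n))) ≤
      ((d : ℝ) - n - 1) * (((a : ℝ) + 1) * b (n + 2)) := by
    nlinarith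
  exact le_of_mul_le_mul_left h5 hpos

/-- the terms -/
noncomputable def uu (d j : ℕ) (b : ℕ → ℝ) (s a : ℕ) : ℝ :=
  b (s - 2 * a) * coeff (2 * j - s) (qS ^ (s - 2 * a)) * TT ((d - s : ℕ) : ℝ) a

lemma uu_nonneg (hQ : S_QCO) (d j : ℕ) (b : ℕ → ℝ) (hd : 2 * j ≤ d) (hb0 : ∀ n ≤ d, 0 ≤ b n)
    (s a : ℕ) (hs : s ≤ 2 * j) : 0 ≤ uu d j b s a := by
  unfold uu
  exact mul_nonneg (mul_nonneg (hb0 _ (by omega)) (hQ.1 _ _)) (TT_nonneg _ (Nat.cast_nonneg _) _)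

lemma uu_dec (hQ : S_QCO) (d j : ℕ) (b : ℕ → ℝ) (hj : 2 * j ^ 2 + j ≤ d + 1) (hd : 2 * j ≤ d)
    (hb0 : ∀ n ≤ d, 0 ≤ b n)
    (hb : ∀ n < d, 2 * ((d : ℝ) - n) * b n ≤ (n + 1) * b (n + 1))
    (s a : ℕ) (hs : s ≤ 2 * j) (ha : a < s / 2) : uu d j b s (a + 1) ≤ uu d j b s a := by
  obtain ⟨n, hn⟩ : ∃ n, s = n + 2 * (a + 1) := ⟨s - 2 * (a + 1), by omega⟩
  have e1 : s - 2 * (a + 1) = n := by omega
  have e2 : s - 2 * a = n + 2 := by omega
  have e3 : ((d - s : ℕ) : ℝ) + 2 * ((a : ℝ) + 1) = (d : ℝ) - n := by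
    rw [Nat.cast_sub (by omega), hn]
    push_cast
    ring
  unfold uu
  rw [e1, e2, TT_succ, e3]
  have h1 := step d j b hj hd hb0 hb n a (by omega)
  have h2 : b n * (2 * ((d : ℝ) - n) / ((a : ℝ) + 1)) ≤ b (n + 2) := by
    rw [mul_div_assoc', div_le_iff₀ (by positivity)]
    linarith
  have hT := TT_nonneg ((d - s : ℕ) : ℝ) (Nat.cast_nonneg _) a
  have hc0 := hQ.1 n (2 * j - s)
  have hc1 := hQ.2.1 n (2 * j - s)
  have hbn := hb0 n (by omega)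
  have hbn2 := hb0 (n + 2) (by omega)
  calc b n * coeff (2 * j - s) (qS ^ n) * (TT ((d - s : ℕ) : ℝ) a * (2 * ((d : ℝ) - n) / ((a : ℝ) + 1)))
      = (b n * (2 * ((d : ℝ) - n) / ((a : ℝ) + 1))) * coeff (2 * j - s) (qS ^ n) *
          TT ((d - s : ℕ) : ℝ) a := by ring
    _ ≤ b (n + 2) * coeff (2 * j - s) (qS ^ (n + 2)) * TT ((d - s : ℕ) : ℝ) a := by
        refine mul_le_mul_of_nonneg_right ?_ hT
        exact mul_le_mul h2 hc1 hc0 hbn2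

end PkgPSJ

open PkgPSJ in
theorem pPSJ (hQCO : S_QCO) : S_PSJ := by
  intro d j b hj hd hb0 hb
  have hin : ∀ s ≤ 2 * j, 0 ≤ ∑ a ∈ range (s / 2 + 1), (-1 : ℝ) ^ a * uu d j b s a := by
    intro s hs
    exact (alt (s / 2) (uu d j b s) (fun a _ => uu_nonneg hQCO d j b hd hb0 s a hs)
      (fun a ha => uu_dec hQCO d j b hj hd hb0 hb s a hs ha)).1
  show ((d : ℝ) + 1 - 2 * j ^ 2 - j) * b (2 * j) ≤ ((d : ℝ) + 1 - 2 * j) *
    ∑ s ∈ range (2 * j + 1), ∑ a ∈ range (s / 2 + 1), (-1) ^ a * uu d j b s a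
  have hdR : 2 * (j : ℝ) ≤ d := by exact_mod_cast hd
  have h0 : ∑ a ∈ range (2 * j / 2 + 1), (-1 : ℝ) ^ a * uu d j b (2 * j) a ≤
      ∑ s ∈ range (2 * j + 1), ∑ a ∈ range (s / 2 + 1), (-1 : ℝ) ^ a * uu d j b s a := by
    refine Finset.single_le_sum (f := fun s => ∑ a ∈ range (s / 2 + 1), (-1 : ℝ) ^ a * uu d j b s a)
      (fun s hs => ?_) (Finset.self_mem_range_succ (2 * j))
    exact hin s (by have := Finset.mem_range.1 hs; omega)
  refine le_trans ?_ (mul_le_mul_of_nonneg_left h0 (by linarith))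
  have e2 : 2 * j / 2 = j := by omega
  rw [e2]
  rcases Nat.eq_zero_or_pos j with rfl | hjp
  · have h1 : uu d 0 b 0 0 = b 0 := by
      unfold uu
      simp [TT_zero]
    simp [h1]
  · obtain ⟨M, rfl⟩ : ∃ M, j = M + 1 := ⟨j - 1, by omega⟩
    have h1 := alt1 M (uu d (M + 1) b (2 * (M + 1)))
      (fun a _ => uu_nonneg hQCO d (M + 1) b hd hb0 _ a le_rfl)
      (fun a ha => uu_dec hQCO d (M + 1) b hj hd hb0 hb _ a le_rfl (by omega))
    refine le_trans ?_ (mul_le_mul_of_nonneg_left h1 (by linarith))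
    have u0 : uu d (M + 1) b (2 * (M + 1)) 0 = b (2 * (M + 1)) := by
      unfold uu
      rw [Nat.sub_self, hQCO.2.2, TT_zero]
      simp
    have e3 : 2 * (M + 1) - 2 * 1 = 2 * M := by omega
    have u1 : uu d (M + 1) b (2 * (M + 1)) 1 = b (2 * M) * (2 * ((d : ℝ) - 2 * M)) := by
      unfold uu
      rw [Nat.sub_self, hQCO.2.2, show TT ((d - 2 * (M + 1) : ℕ) : ℝ) 1 =
        TT ((d - 2 * (M + 1) : ℕ) : ℝ) 0 * (2 * (((d - 2 * (M + 1) : ℕ) : ℝ) +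
          2 * (((0 : ℕ) : ℝ) + 1)) / (((0 : ℕ) : ℝ) + 1)) from TT_succ _ 0, TT_zero, e3,
        Nat.cast_sub hd]
      push_cast
      ring
    rw [u0, u1]
    have h3 := two d b hb (2 * M) (by omega)
    have e4 : b (2 * M + 2) = b (2 * (M + 1)) := by congr 1
    rw [e4] at h3
    push_cast at h3 ⊢
    nlinarith

end Pool.Agent.T2H83.GR
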