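import Pool.Agent.T2H83.GR.Stm3
import Pool.Agent.T2H83.GR.PSJ

set_option autoImplicit false

namespace Pool.Agent.T2H83.GR

open Finset PowerSeries

namespace PkgPSK

open PkgPSJ

lemma uu_nonneg (hQ : S_QCO) (d j : ℕ) (b : ℕ → ℝ) (hb0 : ∀ n, 0 ≤ b n)
    (s a : ℕ) : 0 ≤ uu d j b s a := by
  unfold uu
  exact mul_nonneg (mul_nonneg (hb0 _) (hQ.1 _ _)) (TT_nonneg _ (Nat.cast_nonneg _) _)

lemma uu_dec (hQ : S_QCO) (d j : ℕ) (b : ℕ → ℝ) (hd : 2 * j ≤ d)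
    (hb0 : ∀ n, 0 ≤ b n)
    (hb : ∀ n, n + 2 ≤ 2 * j → 2 * ((d : ℝ) - n) * b n ≤ b (n + 2))
    (s a : ℕ) (hs : s ≤ 2 * j) (ha : a < s / 2) : uu d j b s (a + 1) ≤ uu d j b s a := by
  obtain ⟨n, hn⟩ : ∃ n, s = n + 2 * (a + 1) := ⟨s - 2 * (a + 1), by omega⟩
  have e1 : s - 2 * (a + 1) = n := by omega
  have e2 : s - 2 * a = n + 2 := by omega
  have e3 : ((d - s : ℕ) : ℝ) + 2 * ((a : ℝ) + 1) = (d : ℝ) - n := by
    rw [Nat.cast_sub (by omega), hn]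
    push_cast
    ring
  unfold uu
  rw [e1, e2, TT_succ, e3]
  have h1 := hb n (by omega)
  have hbn := hb0 n
  have hbn2 := hb0 (n + 2)
  have h2 : b n * (2 * ((d : ℝ) - n) / ((a : ℝ) + 1)) ≤ b (n + 2) := by
    rw [mul_div_assoc', div_le_iff₀ (by positivity)]
    have ha0 : (0 : ℝ) ≤ a := Nat.cast_nonneg a
    nlinarith [mul_nonneg ha0 hbn2]
  have hT := TT_nonneg ((d - s : ℕ) : ℝ) (Nat.cast_nonneg _) a
  have hc0 := hQ.1 n (2 * j - s)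
  have hc1 := hQ.2.1 n (2 * j - s)
  calc b n * coeff (2 * j - s) (qS ^ n) * (TT ((d - s : ℕ) : ℝ) a * (2 * ((d : ℝ) - n) / ((a : ℝ) + 1)))
      = (b n * (2 * ((d : ℝ) - n) / ((a : ℝ) + 1))) * coeff (2 * j - s) (qS ^ n) *
          TT ((d - s : ℕ) : ℝ) a := by ring
    _ ≤ b (n + 2) * coeff (2 * j - s) (qS ^ (n + 2)) * TT ((d - s : ℕ) : ℝ) a := by
        refine mul_le_mul_of_nonneg_right ?_ hT
        exact mul_le_mul h2 hc1 hc0 hbn2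

end PkgPSK

open PkgPSJ PkgPSK in
theorem pPSK (hQCO : S_QCO) : S_PSK := by
  intro d j b hjp hd hb0 hb
  have hin : ∀ s ≤ 2 * j, 0 ≤ ∑ a ∈ range (s / 2 + 1), (-1 : ℝ) ^ a * uu d j b s a := by
    intro s hs
    exact (alt (s / 2) (uu d j b s) (fun a _ => PkgPSK.uu_nonneg hQCO d j b hb0 s a)
      (fun a ha => PkgPSK.uu_dec hQCO d j b hd hb0 hb s a hs ha)).1
  show b (2 * j) - 2 * ((d : ℝ) - 2 * j + 2) * b (2 * j - 2) ≤
    ∑ s ∈ range (2 * j + 1), ∑ a ∈ range (s / 2 + 1), (-1) ^ a * uu d j b s a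
  have h0 : ∑ a ∈ range (2 * j / 2 + 1), (-1 : ℝ) ^ a * uu d j b (2 * j) a ≤
      ∑ s ∈ range (2 * j + 1), ∑ a ∈ range (s / 2 + 1), (-1 : ℝ) ^ a * uu d j b s a := by
    refine Finset.single_le_sum (f := fun s => ∑ a ∈ range (s / 2 + 1), (-1 : ℝ) ^ a * uu d j b s a)
      (fun s hs => ?_) (Finset.self_mem_range_succ (2 * j))
    exact hin s (by have := Finset.mem_range.1 hs; omega)
  refine le_trans ?_ h0
  have e2 : 2 * j / 2 = j := by omega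
  rw [e2]
  obtain ⟨M, rfl⟩ : ∃ M, j = M + 1 := ⟨j - 1, by omega⟩
  have h1 := alt1 M (uu d (M + 1) b (2 * (M + 1)))
    (fun a _ => PkgPSK.uu_nonneg hQCO d (M + 1) b hb0 _ a)
    (fun a ha => PkgPSK.uu_dec hQCO d (M + 1) b hd hb0 hb _ a le_rfl (by omega))
  refine le_trans ?_ h1
  have u0 : uu d (M + 1) b (2 * (M + 1)) 0 = b (2 * (M + 1)) := by
    unfold uu
    rw [Nat.sub_self, hQCO.2.2, TT_zero]
    simp
  have e3 : 2 * (M + 1) - 2 * 1 = 2 * M := by omega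
  have e4 : 2 * (M + 1) - 2 = 2 * M := by omega
  have u1 : uu d (M + 1) b (2 * (M + 1)) 1 = b (2 * M) * (2 * ((d : ℝ) - 2 * M)) := by
    unfold uu
    rw [Nat.sub_self, hQCO.2.2, show TT ((d - 2 * (M + 1) : ℕ) : ℝ) 1 =
      TT ((d - 2 * (M + 1) : ℕ) : ℝ) 0 * (2 * (((d - 2 * (M + 1) : ℕ) : ℝ) +
        2 * (((0 : ℕ) : ℝ) + 1)) / (((0 : ℕ) : ℝ) + 1)) from TT_succ _ 0, TT_zero, e3,
      Nat.cast_sub hd]
    push_cast
    ring
  rw [u0, u1, e4]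
  apply le_of_eq
  push_cast
  ring

end Pool.Agent.T2H83.GR
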