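import Pool.Agent.T2H83.GR.Stm2

/-! Package QCO of project GR2 (helper83), by helper94. -/

set_option autoImplicit false

namespace Pool.Agent.T2H83.GR

open Finset PowerSeries

namespace PkgQCO

/-- all coefficients are nonnegative -/
def NN (f : ℝ⟦X⟧) : Prop := ∀ l, 0 ≤ coeff l f

lemma nn_one : NN 1 := by
  intro l
  rw [coeff_one]
  split_ifs <;> norm_num

lemma nn_X : NN X := by
  intro l
  rw [coeff_X]
  split_ifs <;> norm_num

lemma nn_add {f g : ℝ⟦X⟧} (hf : NN f) (hg : NN g) : NN (f + g) := by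
  intro l
  rw [map_add]
  exact add_nonneg (hf l) (hg l)

lemma nn_mul {f g : ℝ⟦X⟧} (hf : NN f) (hg : NN g) : NN (f * g) := by
  intro l
  rw [coeff_mul]
  exact Finset.sum_nonneg fun p _ => mul_nonneg (hf _) (hg _)

lemma nn_pow {f : ℝ⟦X⟧} (hf : NN f) (n : ℕ) : NN (f ^ n) := by
  induction n with
  | zero => rw [pow_zero]; exact nn_one
  | succ n ih => rw [pow_succ]; exact nn_mul ih hf

lemma nn_K : NN (expand 2 two_ne_zero cS) := by
  intro l
  rw [coeff_expand]
  split_ifs
  · rw [cS, coeff_mk]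
    exact Nat.cast_nonneg _
  · exact le_rfl

lemma nn_q : NN qS := nn_add nn_one (nn_mul nn_X nn_K)

end PkgQCO

open PkgQCO in
theorem pQCO : S_QCO := by
  refine ⟨fun n l => nn_pow nn_q n l, fun n l => ?_, fun n => ?_⟩
  · have h1 : qS ^ (n + 2) = qS ^ n + qS ^ n * (X * expand 2 two_ne_zero cS +
        (X * expand 2 two_ne_zero cS + (X * expand 2 two_ne_zero cS) ^ 2)) := by
      rw [pow_add]
      have h2 : qS ^ 2 = 1 + (X * expand 2 two_ne_zero cS +
        (X * expand 2 two_ne_zero cS + (X * expand 2 two_ne_zero cS) ^ 2)) := by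
        rw [qS]
        ring
      rw [h2]
      ring
    rw [h1, map_add]
    have hXK := nn_mul nn_X nn_K
    have := nn_mul (nn_pow nn_q n) (nn_add hXK (nn_add hXK (nn_pow hXK 2))) l
    linarith
  · rw [coeff_zero_eq_constantCoeff, map_pow, qS, map_add, map_mul, constantCoeff_X, zero_mul,
      add_zero, map_one, one_pow]

end Pool.Agent.T2H83.GR
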