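import Pool.Agent.T2H83.GR.Stm2

set_option autoImplicit false

/-!
# Package REO of project GR2 (`MP_19e880_co`)
-/

namespace Pool.Agent.T2H83.GR

open Finset PowerSeries

namespace PkgREO

theorem coeff_mul_expand (f g : ℝ⟦X⟧) (N : ℕ) :
    coeff N (f * expand 2 two_ne_zero g) =
      ∑ a ∈ range (N / 2 + 1), coeff (N - 2 * a) f * coeff a g := by
  rw [PowerSeries.coeff_mul]
  have h1 : ∀ p ∈ antidiagonal N, coeff p.1 f * coeff p.2 (expand 2 two_ne_zero g) =
      if 2 ∣ p.2 then coeff p.1 f * coeff (p.2 / 2) g else 0 := by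
    intro p _
    rw [coeff_expand]
    split_ifs <;> simp
  rw [Finset.sum_congr rfl h1, ← Finset.sum_filter]
  refine Finset.sum_bij' (fun p _ => p.2 / 2) (fun a _ => (N - 2 * a, 2 * a)) ?_ ?_ ?_ ?_ ?_
  · rintro ⟨x, y⟩ hp
    rw [Finset.mem_filter, HasAntidiagonal.mem_antidiagonal] at hp
    obtain ⟨h1, c, h2⟩ := hp
    dsimp only at h1 h2
    rw [Finset.mem_range]
    dsimp only
    omega
  · intro a ha
    rw [Finset.mem_range] at ha
    rw [Finset.mem_filter, HasAntidiagonal.mem_antidiagonal]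
    dsimp only
    refine ⟨by omega, dvd_mul_right _ _⟩
  · rintro ⟨x, y⟩ hp
    rw [Finset.mem_filter, HasAntidiagonal.mem_antidiagonal] at hp
    obtain ⟨h1, c, h2⟩ := hp
    dsimp only at h1 h2
    refine Prod.ext ?_ ?_
    · dsimp only; omega
    · dsimp only; omega
  · intro a ha
    dsimp only
    omega
  · rintro ⟨x, y⟩ hp
    rw [Finset.mem_filter, HasAntidiagonal.mem_antidiagonal] at hp
    obtain ⟨h1, c, h2⟩ := hp
    dsimp only at h1 h2
    have e1 : N - 2 * (y / 2) = x := by omega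
    dsimp only
    rw [e1]

end PkgREO

open PkgREO in
theorem pREO (hSER : S_SER) : S_REO := by
  obtain ⟨_, _, _, _, h5⟩ := hSER
  intro d j hjd b
  have step : ∀ n ∈ range (2 * j + 1), b n * coeff (2 * j - n) (qS ^ n * cE ^ (d - n)) =
      ∑ a ∈ range ((2 * j - n) / 2 + 1),
        (-1) ^ a * (b n * coeff (2 * j - n - 2 * a) (qS ^ n) * TT ((d - (n + 2 * a) : ℕ) : ℝ) a) := by
    intro n hn
    rw [Finset.mem_range] at hn
    have e : cE ^ (d - n) = expand 2 two_ne_zero (c0 ^ (d - n)) := by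
      unfold cE; rw [map_pow]
    rw [e, coeff_mul_expand, Finset.mul_sum]
    refine Finset.sum_congr rfl fun a ha => ?_
    rw [Finset.mem_range] at ha
    have e2 : d - n = (d - (n + 2 * a)) + 2 * a := by omega
    have e3 : coeff a (c0 ^ (d - n)) = (-1) ^ a * TT ((d - (n + 2 * a) : ℕ) : ℝ) a := by
      conv_lhs => rw [e2]
      exact h5 _ _
    rw [e3]
    ring
  rw [Finset.sum_congr rfl step, Finset.sum_sigma', Finset.sum_sigma']
  refine Finset.sum_bij' (fun p _ => ⟨p.1 + 2 * p.2, p.2⟩) (fun p _ => ⟨p.1 - 2 * p.2, p.2⟩)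
    ?_ ?_ ?_ ?_ ?_
  · rintro ⟨n, a⟩ hp
    simp only [Finset.mem_sigma, Finset.mem_range] at hp ⊢
    omega
  · rintro ⟨s, a⟩ hp
    simp only [Finset.mem_sigma, Finset.mem_range] at hp ⊢
    omega
  · rintro ⟨n, a⟩ hp
    simp
  · rintro ⟨s, a⟩ hp
    simp only [Finset.mem_sigma, Finset.mem_range] at hp
    have : s - 2 * a + 2 * a = s := by omega
    simp [this]
  · rintro ⟨n, a⟩ hp
    simp only [Finset.mem_sigma, Finset.mem_range] at hp
    have e1 : n + 2 * a - 2 * a = n := by omega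
    have e2 : 2 * j - n - 2 * a = 2 * j - (n + 2 * a) := by omega
    simp only [e1, e2]

end Pool.Agent.T2H83.GR
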