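import Pool.Agent.T2H83.GR.Stm3

set_option autoImplicit false

namespace Pool.Agent.T2H83.GR

open Finset

namespace PkgRTN

lemma XX_nonneg (d t : ℕ) : 0 ≤ XX d t := by unfold XX; positivity

lemma XX_pos (d t : ℕ) (h : t ≤ d) : 0 < XX d t := by
  unfold XX
  have : 0 < d.choose t := Nat.choose_pos h
  positivity

lemma gp_rec (k n : ℕ) : (gp (k + 2)).coeff (n + 1) =
    2 * (gp (k + 1)).coeff n + (gp k).coeff n := by
  have h : gp (k + 2) = Polynomial.X * (2 * gp (k + 1) + gp k) := by rw [gp]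
  rw [h, Polynomial.coeff_X_mul, Polynomial.coeff_add]
  congr 1
  have h2 : (2 : Polynomial ℝ) * gp (k + 1) = Polynomial.C 2 * gp (k + 1) := by
    rw [map_ofNat]
  rw [h2, Polynomial.coeff_C_mul]

lemma gp_rec0 (k : ℕ) : (gp (k + 2)).coeff 0 = 0 := by
  have h : gp (k + 2) = Polynomial.X * (2 * gp (k + 1) + gp k) := by rw [gp]
  rw [h]
  simp

lemma gp_nonneg : ∀ k n : ℕ, 0 ≤ (gp k).coeff n ∧ 0 ≤ (gp (k + 1)).coeff n := by
  intro k
  induction k with
  | zero =>
    intro n
    constructor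
    · rw [gp, Polynomial.coeff_one]
      split_ifs <;> norm_num
    · rw [gp, Polynomial.coeff_X]
      split_ifs <;> norm_num
  | succ k ih =>
    intro n
    refine ⟨(ih n).2, ?_⟩
    cases n with
    | zero => rw [gp_rec0]
    | succ n =>
      rw [gp_rec]
      have h1 := ih n
      linarith [h1.1, h1.2]

lemma gp_zero : ∀ n k : ℕ, 2 * n < k → (gp k).coeff n = 0 := by
  intro n
  induction n with
  | zero =>
    intro k hk
    match k, hk with
    | 1, _ => rw [gp]; simp
    | k + 2, _ => exact gp_rec0 k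
  | succ n ih =>
    intro k hk
    match k, hk with
    | k + 2, hk =>
      rw [gp_rec, ih (k + 1) (by omega), ih k (by omega)]
      norm_num

lemma step (hXLC : S_XLC) (d r : ℕ) (b : ℕ → ℝ) (hb : ∀ n, 0 ≤ b n)
    (H : ∀ n, r * (n + 1) ≤ d → XX d (r * (n + 1)) * b n ≤ XX d (r * n) * b (n + 1)) :
    (∀ n, 0 ≤ GG d b n) ∧ ∀ n, 2 * r * (n + 1) ≤ d → 1 ≤ r →
      XX d (2 * r * (n + 1)) * GG d b n ≤ XX d (2 * r * n) * GG d b (n + 1) := by
  refine ⟨fun n => Finset.sum_nonneg fun k _ => mul_nonneg (hb k) (gp_nonneg k n).1, ?_⟩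
  intro n hn hr
  have hnd : 2 * (n + 1) ≤ d := by
    have : 1 * (2 * (n + 1)) ≤ r * (2 * (n + 1)) := Nat.mul_le_mul_right _ hr
    have h2 : 2 * r * (n + 1) = r * (2 * (n + 1)) := by ring
    omega
  have key : ∀ k, k ≤ 2 * n → XX d (2 * r * (n + 1)) * b k ≤ XX d (2 * r * n) * b (k + 2) := by
    intro k hk
    have hrk2 : r * (k + 2) ≤ d := by
      have : r * (k + 2) ≤ r * (2 * n + 2) := Nat.mul_le_mul_left _ (by omega)
      have h2 : 2 * r * (n + 1) = r * (2 * n + 2) := by ring
      omega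
    have hrk1 : r * (k + 1) ≤ d := le_trans (Nat.mul_le_mul_left _ (by omega)) hrk2
    have hrk : r * k ≤ d := le_trans (Nat.mul_le_mul_left _ (by omega)) hrk2
    have h1 := H k hrk1
    have h2 := H (k + 1) hrk2
    have p1 := XX_pos d _ hrk1
    have p0 := XX_pos d _ hrk
    have p2 := XX_nonneg d (r * (k + 2))
    have h3 : XX d (r * (k + 2)) * b k ≤ XX d (r * k) * b (k + 2) := by
      have h4 : XX d (r * (k + 1)) * (XX d (r * (k + 2)) * b k) ≤
          XX d (r * (k + 1)) * (XX d (r * k) * b (k + 2)) := by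
        calc XX d (r * (k + 1)) * (XX d (r * (k + 2)) * b k)
            = XX d (r * (k + 2)) * (XX d (r * (k + 1)) * b k) := by ring
          _ ≤ XX d (r * (k + 2)) * (XX d (r * k) * b (k + 1)) :=
              mul_le_mul_of_nonneg_left h1 p2
          _ = XX d (r * k) * (XX d (r * (k + 1 + 1)) * b (k + 1)) := by
              rw [show k + 1 + 1 = k + 2 from rfl]; ring
          _ ≤ XX d (r * k) * (XX d (r * (k + 1)) * b (k + 1 + 1)) :=
              mul_le_mul_of_nonneg_left h2 p0.le
          _ = XX d (r * (k + 1)) * (XX d (r * k) * b (k + 2)) := by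
              rw [show k + 1 + 1 = k + 2 from rfl]; ring
      exact le_of_mul_le_mul_left h4 p1
    have h5 := hXLC d (r * k) (2 * r * n) (2 * r) (by
      calc r * k ≤ r * (2 * n) := Nat.mul_le_mul_left _ hk
        _ = 2 * r * n := by ring)
    have e1 : 2 * r * n + 2 * r = 2 * r * (n + 1) := by ring
    have e2 : r * k + 2 * r = r * (k + 2) := by ring
    rw [e1, e2] at h5
    have h6 : XX d (r * k) * (XX d (2 * r * (n + 1)) * b k) ≤
        XX d (r * k) * (XX d (2 * r * n) * b (k + 2)) := by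
      calc XX d (r * k) * (XX d (2 * r * (n + 1)) * b k)
          = (XX d (2 * r * (n + 1)) * XX d (r * k)) * b k := by ring
        _ ≤ (XX d (2 * r * n) * XX d (r * (k + 2))) * b k :=
            mul_le_mul_of_nonneg_right h5 (hb k)
        _ = XX d (2 * r * n) * (XX d (r * (k + 2)) * b k) := by ring
        _ ≤ XX d (2 * r * n) * (XX d (r * k) * b (k + 2)) :=
            mul_le_mul_of_nonneg_left h3 (XX_nonneg _ _)
        _ = XX d (r * k) * (XX d (2 * r * n) * b (k + 2)) := by ring
    exact le_of_mul_le_mul_left h6 p0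
  -- the sums
  have hG : GG d b n = ∑ k ∈ range (2 * n + 1), b k * (gp k).coeff n := by
    unfold GG
    symm
    apply Finset.sum_subset
    · apply Finset.range_subset_range.2; omega
    · intro k _ hk
      rw [Finset.mem_range, not_lt] at hk
      rw [gp_zero n k (by omega), mul_zero]
  rw [hG, Finset.mul_sum]
  have hS : ∑ k ∈ range (2 * n + 1), XX d (2 * r * (n + 1)) * (b k * (gp k).coeff n) ≤
      ∑ k ∈ range (2 * n + 1), XX d (2 * r * n) * (b (k + 2) * (gp (k + 2)).coeff (n + 1)) := by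
    apply Finset.sum_le_sum
    intro k hk
    rw [Finset.mem_range] at hk
    have h1 := key k (by omega)
    have g0 := (gp_nonneg k n).1
    have g1 := (gp_nonneg k n).2
    have g2 : (gp k).coeff n ≤ (gp (k + 2)).coeff (n + 1) := by
      rw [gp_rec]; linarith
    calc XX d (2 * r * (n + 1)) * (b k * (gp k).coeff n)
        = (XX d (2 * r * (n + 1)) * b k) * (gp k).coeff n := by ring
      _ ≤ (XX d (2 * r * n) * b (k + 2)) * (gp k).coeff n := mul_le_mul_of_nonneg_right h1 g0
      _ ≤ (XX d (2 * r * n) * b (k + 2)) * (gp (k + 2)).coeff (n + 1) :=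
          mul_le_mul_of_nonneg_left g2 (mul_nonneg (XX_nonneg _ _) (hb _))
      _ = _ := by ring
  refine hS.trans ?_
  rw [← Finset.mul_sum]
  apply mul_le_mul_of_nonneg_left _ (XX_nonneg _ _)
  set F : ℕ → ℝ := fun k => b k * (gp k).coeff (n + 1) with hF
  have hF0 : ∀ k, 0 ≤ F k := fun k => mul_nonneg (hb k) (gp_nonneg k (n + 1)).1
  have h1 : ∑ k ∈ range (2 * n + 1), F (k + 2) ≤ ∑ k ∈ range (2 * n + 3), F k := by
    rw [Finset.sum_range_succ' F (2 * n + 2), Finset.sum_range_succ' (fun k => F (k + 1)) (2 * n + 1)]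
    have := hF0 0
    have := hF0 (0 + 1)
    have e : ∑ k ∈ range (2 * n + 1), F (k + 2) = ∑ k ∈ range (2 * n + 1), F (k + 1 + 1) := rfl
    rw [e]
    linarith
  have h2 : ∑ k ∈ range (2 * n + 3), F k ≤ ∑ k ∈ range (d + 1), F k := by
    apply Finset.sum_le_sum_of_subset_of_nonneg
    · apply Finset.range_subset_range.2; omega
    · intro k _ _; exact hF0 k
  exact h1.trans h2

end PkgRTN

open PkgRTN in
theorem pRTN (hXLC : S_XLC) : S_RTN := by
  intro d b hb hH M
  induction M with
  | zero =>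
    refine ⟨fun n => by simpa using hb n, fun n hn => ?_⟩
    simp only [pow_zero, one_mul, Function.iterate_zero, id_eq] at hn ⊢
    exact hH n (by omega)
  | succ M ih =>
    obtain ⟨h1, h2⟩ := ih
    obtain ⟨s1, s2⟩ := step hXLC d (2 ^ M) ((GG d)^[M] b) h1 h2
    rw [Function.iterate_succ_apply']
    refine ⟨s1, fun n hn => ?_⟩
    have e : 2 ^ (M + 1) = 2 * 2 ^ M := by ring
    rw [e] at hn ⊢
    exact s2 n hn Nat.one_le_two_pow

end Pool.Agent.T2H83.GR
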