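import Pool.Agent.T2H83.GR.Stm2

set_option autoImplicit false

/-!
Package SER of project GR2 (helper83), MP_19e880_co: facts on the series. Written by helper55.
-/

namespace Pool.Agent.T2H83.GR

open Finset PowerSeries

namespace PkgSER

lemma h1 : cS = 1 + X * cS ^ 2 := by
  ext n
  cases n with
  | zero => simp [cS]
  | succ n =>
    have h2 : coeff (n + 1) cS = (catalan (n + 1) : ℝ) := by simp [cS]
    rw [h2, map_add, coeff_one, if_neg n.succ_ne_zero, zero_add, coeff_succ_X_mul, sq, coeff_mul,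
      catalan_succ']
    push_cast
    refine Finset.sum_congr rfl fun p _ => ?_
    simp [cS]

lemma h1E : expand 2 two_ne_zero cS = 1 + X ^ 2 * (expand 2 two_ne_zero cS) ^ 2 := by
  have h := congrArg (fun f => expand 2 two_ne_zero f) h1
  simp only [map_add, map_mul, map_pow, map_one, expand_X] at h
  exact h

lemma h2 : c0 ^ 2 = 1 - 4 * X := by
  unfold c0
  linear_combination (-4 * X) * h1

lemma hcE : cE = 1 - 2 * X ^ 2 * expand 2 two_ne_zero cS := by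
  unfold cE c0
  rw [map_sub, map_one, map_mul, map_mul, expand_X]
  have : expand 2 two_ne_zero (2 : ℝ⟦X⟧) = 2 := map_ofNat _ 2
  rw [this]

lemma h3 : cE + 2 * (X * qS) = 1 + 2 * X := by
  rw [hcE]
  unfold qS
  ring

lemma h4 : (X * qS) * (X * qS + cE) = X * (1 + 2 * X) := by
  rw [hcE]
  unfold qS
  linear_combination (X ^ 2 : ℝ⟦X⟧) * h1E

lemma const : constantCoeff c0 = 1 := by
  unfold c0
  simp

lemma hD : c0 * d⁄dX ℝ c0 = -2 := by
  have h := congrArg (fun f => d⁄dX ℝ f) h2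
  simp only [derivative_pow] at h
  have h5 : d⁄dX ℝ (1 - 4 * X : ℝ⟦X⟧) = -4 := by
    rw [map_sub, derivative_one, Derivation.leibniz, derivative_X]
    have h6 : d⁄dX ℝ (4 : ℝ⟦X⟧) = 0 := by
      have h7 : (4 : ℝ⟦X⟧) = C (4 : ℝ) := (map_ofNat (C : ℝ →+* ℝ⟦X⟧) 4).symm
      rw [h7, derivative_C]
    rw [h6]
    simp
  rw [h5] at h
  have h8 : (2 : ℝ⟦X⟧) * (c0 * d⁄dX ℝ c0) = 2 * (-2) := by
    have h9 : ((2 : ℕ) : ℝ⟦X⟧) * c0 ^ (2 - 1) * d⁄dX ℝ c0 = -4 := h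
    rw [show (2 - 1 : ℕ) = 1 from rfl, pow_one] at h9
    push_cast at h9
    linear_combination h9
  exact mul_left_cancel₀ (by
    intro h10
    have h11 := congrArg (coeff 0) h10
    have h12 : (2 : ℝ⟦X⟧) = C (2 : ℝ) := (map_ofNat (C : ℝ →+* ℝ⟦X⟧) 2).symm
    rw [h12] at h11
    simp at h11) h8

lemma hDm (m : ℕ) : d⁄dX ℝ (c0 ^ (m + 2)) = C (-2 * ((m : ℝ) + 2)) * c0 ^ m := by
  rw [derivative_pow]
  have h9 : (C (-2 * ((m : ℝ) + 2)) : ℝ⟦X⟧) = (-2) * ((m + 2 : ℕ) : ℝ⟦X⟧) := by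
    rw [map_mul]
    have e0 : (C (2 : ℝ) : ℝ⟦X⟧) = 2 := map_ofNat (C : ℝ →+* ℝ⟦X⟧) 2
    have e1 : (C (-2 : ℝ) : ℝ⟦X⟧) = -2 := by rw [map_neg, e0]
    have e2 : (C ((m : ℝ) + 2) : ℝ⟦X⟧) = ((m + 2 : ℕ) : ℝ⟦X⟧) := by
      rw [map_add, e0]
      push_cast
      rw [map_natCast]
    rw [e1, e2]
  rw [h9, show m + 2 - 1 = m + 1 by omega, pow_succ]
  linear_combination (((m + 2 : ℕ) : ℝ⟦X⟧) * c0 ^ m) * hD

lemma h5 (e a : ℕ) : coeff a (c0 ^ (e + 2 * a)) = (-1) ^ a * TT e a := by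
  induction a with
  | zero =>
    rw [mul_zero, add_zero, coeff_zero_eq_constantCoeff_apply, map_pow, const]
    simp [TT]
  | succ a ih =>
    have h := congrArg (coeff a) (hDm (e + 2 * a))
    rw [coeff_derivative, coeff_C_mul, ih] at h
    have h6 : e + 2 * (a + 1) = e + 2 * a + 2 := by ring
    have h7 : TT e (a + 1) = TT e a * (2 * ((e : ℝ) + 2 * ((a : ℝ) + 1)) / ((a : ℝ) + 1)) := by
      unfold TT
      rw [prod_range_succ]
    have h8 : ((a : ℝ) + 1) ≠ 0 := by positivity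
    rw [h6, h7]
    have h9 : coeff (a + 1) (c0 ^ (e + 2 * a + 2)) =
        (-2 * (((e + 2 * a : ℕ) : ℝ) + 2) * ((-1) ^ a * TT e a)) / ((a : ℝ) + 1) := by
      rw [eq_div_iff h8]
      exact h
    rw [h9]
    push_cast
    field_simp
    ring

end PkgSER

theorem pSER : S_SER := ⟨PkgSER.h1, PkgSER.h2, PkgSER.h3, PkgSER.h4, PkgSER.h5⟩

end Pool.Agent.T2H83.GR
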