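import Pool.Agent.T2H83.GR.Stm3

set_option autoImplicit false

/-! # XLC: log-concavity of the face numbers of the cross polytope -/

namespace Pool.Agent.T2H83.GR

namespace PkgXLC

theorem nat_lc (d s' s : ℕ) (h : s' ≤ s) : ∀ t : ℕ,
    d.choose (s + t) * d.choose s' ≤ d.choose s * d.choose (s' + t)
  | 0 => by simp
  | t + 1 => by
    have ih := nat_lc d s' s h t
    have e1 := Nat.choose_succ_right_eq d (s + t)
    have e2 := Nat.choose_succ_right_eq d (s' + t)
    have pos : 0 < (s + t + 1) * (s' + t + 1) := by positivity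
    refine Nat.le_of_mul_le_mul_right ?_ pos
    calc d.choose (s + t + 1) * d.choose s' * ((s + t + 1) * (s' + t + 1))
        = (d.choose (s + t + 1) * (s + t + 1)) * d.choose s' * (s' + t + 1) := by ring
      _ = (d.choose (s + t) * d.choose s') * ((d - (s + t)) * (s' + t + 1)) := by
          rw [e1]; ring
      _ ≤ (d.choose s * d.choose (s' + t)) * ((d - (s' + t)) * (s + t + 1)) :=
          Nat.mul_le_mul ih (Nat.mul_le_mul (by omega) (by omega))
      _ = d.choose s * (d.choose (s' + t) * (d - (s' + t))) * (s + t + 1) := by ring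
      _ = d.choose s * (d.choose (s' + t + 1) * (s' + t + 1)) * (s + t + 1) := by rw [e2]
      _ = d.choose s * d.choose (s' + t + 1) * ((s + t + 1) * (s' + t + 1)) := by ring

end PkgXLC

theorem pXLC : S_XLC := by
  intro d s' s t h
  have h1 := PkgXLC.nat_lc d s' s h t
  have h2 : ((d.choose (s + t) * d.choose s' : ℕ) : ℝ) ≤
      ((d.choose s * d.choose (s' + t) : ℕ) : ℝ) := by exact_mod_cast h1
  unfold XX
  have h3 : (0 : ℝ) ≤ 2 ^ (s + t + s') := by positivity
  calc ((d.choose (s + t) : ℕ) : ℝ) * 2 ^ (s + t) * (((d.choose s' : ℕ) : ℝ) * 2 ^ s')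
      = ((d.choose (s + t) * d.choose s' : ℕ) : ℝ) * 2 ^ (s + t + s') := by
        push_cast; ring
    _ ≤ ((d.choose s * d.choose (s' + t) : ℕ) : ℝ) * 2 ^ (s + t + s') :=
        mul_le_mul_of_nonneg_right h2 h3
    _ = ((d.choose s : ℕ) : ℝ) * 2 ^ s * (((d.choose (s' + t) : ℕ) : ℝ) * 2 ^ (s' + t)) := by
        push_cast; ring

end Pool.Agent.T2H83.GR
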