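import Pool.Agent.T2H83.GR.Stm4

set_option autoImplicit false

/-!
Package HM0 of project GR (helper83), MP_19e880_co. Written by helper24 (after HOM by helper18).
-/

namespace Pool.Agent.T2H83.GR

open Finset PowerSeries

namespace PkgHM0

lemma c0_ne (hSR0 : S_SR0) : constantCoeff c0 ≠ 0 := by
  have h := congrArg constantCoeff hSR0.1
  simp only [map_add, map_mul, constantCoeff_X, zero_mul, mul_zero, add_zero, map_one] at h
  rw [h]
  exact one_ne_zero

/-- the identity of power series -/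
lemma key (hSR0 : S_SR0) (d : ℕ) (b γ : ℕ → ℝ)
    (h : ∑ n ∈ range (d + 1), Polynomial.C (b n) * Polynomial.X ^ n = Phi d γ) :
    ∑ n ∈ range (d + 1), C (b n) * ((X * cS) ^ n * c0 ^ (d - n)) =
      ∑ i ∈ range (d / 2 + 1), C (γ i) * X ^ i := by
  have hB : c0 * c0⁻¹ = 1 := PowerSeries.mul_inv_cancel _ (c0_ne hSR0)
  set t : ℝ⟦X⟧ := (X * cS) * c0⁻¹ with ht
  have hBt : c0 * t = X * cS := by
    rw [ht]
    calc c0 * (X * cS * c0⁻¹) = (X * cS) * (c0 * c0⁻¹) := by ring
      _ = X * cS := by rw [hB, mul_one]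
  clear_value t
  have h1 := congrArg (Polynomial.eval₂ (C (R := ℝ)) t) h
  unfold Phi at h1
  simp only [Polynomial.eval₂_finsetSum, Polynomial.eval₂_mul, Polynomial.eval₂_pow,
    Polynomial.eval₂_C, Polynomial.eval₂_X, Polynomial.eval₂_add, Polynomial.eval₂_one,
    Polynomial.eval₂_ofNat] at h1
  have h2 := congrArg (fun z => c0 ^ d * z) h1
  simp only [Finset.mul_sum] at h2
  have h3 : ∀ n ∈ range (d + 1), c0 ^ d * (C (b n) * t ^ n) =
      C (b n) * ((X * cS) ^ n * c0 ^ (d - n)) := by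
    intro n hn
    have hn' : n ≤ d := by
      have := Finset.mem_range.1 hn
      omega
    have e : c0 ^ d = c0 ^ (d - n) * c0 ^ n := by
      rw [← pow_add]
      congr 1
      omega
    rw [e, ← hBt, mul_pow]
    ring
  have h4 : ∀ i ∈ range (d / 2 + 1), c0 ^ d * (C (γ i) * (t + t ^ 2) ^ i * (1 + 2 * t) ^ (d - 2 * i)) =
      C (γ i) * X ^ i := by
    intro i hi
    have hi' : 2 * i ≤ d := by
      have := Finset.mem_range.1 hi
      omega
    have e : c0 ^ d = (c0 ^ 2) ^ i * c0 ^ (d - 2 * i) := by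
      rw [← pow_mul, ← pow_add]
      congr 1
      omega
    have e1 : c0 ^ 2 * (t + t ^ 2) = X := by
      have h6 := hSR0.2.1
      rw [← hBt] at h6
      linear_combination h6
    have e2 : c0 * (1 + 2 * t) = 1 := by
      have h6 := hSR0.1
      rw [← hBt] at h6
      linear_combination h6
    calc c0 ^ d * (C (γ i) * (t + t ^ 2) ^ i * (1 + 2 * t) ^ (d - 2 * i))
        = C (γ i) * ((c0 ^ 2 * (t + t ^ 2)) ^ i * (c0 * (1 + 2 * t)) ^ (d - 2 * i)) := by
          rw [e, mul_pow (c0 ^ 2) (t + t ^ 2) i, mul_pow c0 (1 + 2 * t) (d - 2 * i)]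
          generalize (t + t ^ 2) ^ i = P1
          generalize (1 + 2 * t) ^ (d - 2 * i) = P2
          generalize (c0 ^ 2) ^ i = P3
          generalize c0 ^ (d - 2 * i) = P4
          ring
      _ = C (γ i) * X ^ i := by
          rw [e1, e2, one_pow, mul_one]
  rw [Finset.sum_congr rfl h3, Finset.sum_congr rfl h4] at h2
  exact h2

end PkgHM0

open PkgHM0 in
theorem pHM0 (hSR0 : S_SR0) : S_HM0 := by
  intro d b γ h j hj
  have h1 := congrArg (coeff j) (key hSR0 d b γ h)
  rw [map_sum, map_sum] at h1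
  have h2 : ∀ i ∈ range (d / 2 + 1), coeff j (C (γ i) * (X : ℝ⟦X⟧) ^ i) = if j = i then γ i else 0 := by
    intro i _
    rw [coeff_C_mul, coeff_X_pow]
    split_ifs <;> simp
  have h3 : ∀ n ∈ range (d + 1), coeff j (C (b n) * ((X * cS) ^ n * c0 ^ (d - n))) =
      if n ≤ j then b n * coeff (j - n) (cS ^ n * c0 ^ (d - n)) else 0 := by
    intro n _
    rw [coeff_C_mul, mul_pow, mul_assoc, coeff_X_pow_mul']
    split_ifs with h3
    · rfl
    · rw [mul_zero]
  rw [Finset.sum_congr rfl h2, Finset.sum_congr rfl h3, Finset.sum_ite_eq,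
    if_pos (Finset.mem_range.2 (by omega))] at h1
  rw [← h1, ← Finset.sum_filter]
  refine Finset.sum_congr ?_ fun _ _ => rfl
  ext n
  simp only [Finset.mem_filter, Finset.mem_range]
  omega

end Pool.Agent.T2H83.GR
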