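import Pool.Agent.T2H83.GR.Stm4
import Pool.Agent.T2H83.GR.PSJ

set_option autoImplicit false

namespace Pool.Agent.T2H83.GR

open Finset PowerSeries

namespace PkgPS0

lemma T0_zero (e : ℝ) : T0 e 0 = 1 := by simp [T0]

lemma T0_nonneg (e : ℝ) (a : ℕ) (he : 2 * (a : ℝ) ≤ e) : 0 ≤ T0 e a := by
  unfold T0
  refine Finset.prod_nonneg fun i hi => ?_
  have h1 : (i : ℝ) ≤ a := by exact_mod_cast (Finset.mem_range.1 hi).le
  have h2 : 0 ≤ e - 2 * i := by linarith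
  positivity

lemma T0_eq (e : ℝ) (a : ℕ) :
    T0 e a = (∏ i ∈ range a, 2 * (e - 2 * (i : ℝ))) / ∏ i ∈ range a, ((i : ℝ) + 1) := by
  unfold T0
  rw [Finset.prod_div_distrib]

lemma T0_step (e : ℝ) (a : ℕ) (he : 2 * (a : ℝ) ≤ e) :
    T0 (e + 1) (a + 1) ≤ 2 * (e + 1) * T0 e a := by
  have hN : ∏ i ∈ range a, 2 * (e + 1 - 2 * (((i + 1 : ℕ)) : ℝ)) ≤ ∏ i ∈ range a, 2 * (e - 2 * (i : ℝ)) := by
    refine Finset.prod_le_prod (fun i hi => ?_) (fun i hi => ?_)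
    · have h1 : (i : ℝ) + 1 ≤ a := by exact_mod_cast (Finset.mem_range.1 hi)
      push_cast
      linarith
    · push_cast
      linarith
  have hN0 : 0 ≤ ∏ i ∈ range a, 2 * (e + 1 - 2 * (((i + 1 : ℕ)) : ℝ)) := by
    refine Finset.prod_nonneg fun i hi => ?_
    have h1 : (i : ℝ) + 1 ≤ a := by exact_mod_cast (Finset.mem_range.1 hi)
    push_cast
    linarith
  have hD : 0 < ∏ i ∈ range a, ((i : ℝ) + 1) := Finset.prod_pos fun i _ => by positivity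
  have ha0 : (0 : ℝ) ≤ a := Nat.cast_nonneg a
  have he0 : 0 ≤ e := by linarith
  rw [T0_eq, T0_eq, Finset.prod_range_succ', Finset.prod_range_succ (fun i : ℕ => ((i : ℝ) + 1))]
  rw [mul_div_assoc', div_le_div_iff₀ (by positivity) hD]
  have e0 : 2 * (e + 1 - 2 * ((0 : ℕ) : ℝ)) = 2 * (e + 1) := by simp
  rw [e0]
  set N1 := ∏ i ∈ range a, 2 * (e + 1 - 2 * (((i + 1 : ℕ)) : ℝ)) with hN1
  set N2 := ∏ i ∈ range a, 2 * (e - 2 * (i : ℝ)) with hN2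
  set D := ∏ i ∈ range a, ((i : ℝ) + 1) with hDD
  have h2 : N1 ≤ N2 * ((a : ℝ) + 1) := by nlinarith
  have h3 : 0 ≤ 2 * (e + 1) * D := by positivity
  calc N1 * (2 * (e + 1)) * D = N1 * (2 * (e + 1) * D) := by ring
    _ ≤ N2 * ((a : ℝ) + 1) * (2 * (e + 1) * D) := mul_le_mul_of_nonneg_right h2 h3
    _ = 2 * (e + 1) * N2 * (D * ((a : ℝ) + 1)) := by ring

/-- the terms -/
noncomputable def uu (d j : ℕ) (b : ℕ → ℝ) (s a : ℕ) : ℝ :=
  b (s - a) * coeff (j - s) (cS ^ (s - a)) * T0 ((d - s + a : ℕ) : ℝ) a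

lemma cast_ge (d j s a : ℕ) (hd : 2 * j ≤ d) (hs : s ≤ j) (ha : a ≤ s) :
    2 * (a : ℝ) ≤ ((d - s + a : ℕ) : ℝ) := by
  have h : 2 * a ≤ d - s + a := by omega
  exact_mod_cast h

lemma uu_nonneg (hS : S_SR0) (d j : ℕ) (b : ℕ → ℝ) (hd : 2 * j ≤ d) (hb0 : ∀ n, 0 ≤ b n)
    (s a : ℕ) (hs : s ≤ j) (ha : a ≤ s) : 0 ≤ uu d j b s a := by
  unfold uu
  exact mul_nonneg (mul_nonneg (hb0 _) (hS.2.2.2.1 _ _)) (T0_nonneg _ _ (cast_ge d j s a hd hs ha))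

lemma uu_dec (hS : S_SR0) (d j : ℕ) (b : ℕ → ℝ) (hd : 2 * j ≤ d)
    (hb0 : ∀ n, 0 ≤ b n)
    (hb : ∀ n < j, 2 * ((d : ℝ) - n) * b n ≤ b (n + 1))
    (s a : ℕ) (hs : s ≤ j) (ha : a < s) : uu d j b s (a + 1) ≤ uu d j b s a := by
  obtain ⟨n, hn⟩ : ∃ n, s = n + (a + 1) := ⟨s - (a + 1), by omega⟩
  have e1 : s - (a + 1) = n := by omega
  have e2 : s - a = n + 1 := by omega
  have e3 : ((d - s + (a + 1) : ℕ) : ℝ) = ((d - s + a : ℕ) : ℝ) + 1 := by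
    push_cast
    ring
  have e4 : ((d - s + a : ℕ) : ℝ) + 1 = (d : ℝ) - n := by
    have h : d - s + a + 1 + n = d := by omega
    have h2 : ((d - s + a : ℕ) : ℝ) + 1 + n = d := by exact_mod_cast h
    linarith
  have hge := cast_ge d j s a hd hs ha.le
  have hT := T0_nonneg _ _ hge
  have hstep := T0_step _ _ hge
  unfold uu
  rw [e1, e2, e3]
  set E := ((d - s + a : ℕ) : ℝ) with hE
  have hc0 := hS.2.2.2.1 n (j - s)
  have hc1 := hS.2.2.2.2.1 n (j - s)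
  have hbn := hb0 n
  have hbn2 := hb0 (n + 1)
  have h1 := hb n (by omega)
  calc b n * coeff (j - s) (cS ^ n) * T0 (E + 1) (a + 1)
      ≤ b n * coeff (j - s) (cS ^ n) * (2 * (E + 1) * T0 E a) :=
        mul_le_mul_of_nonneg_left hstep (mul_nonneg hbn hc0)
    _ = (2 * ((d : ℝ) - n) * b n) * coeff (j - s) (cS ^ n) * T0 E a := by rw [e4]; ring
    _ ≤ b (n + 1) * coeff (j - s) (cS ^ (n + 1)) * T0 E a := by
        refine mul_le_mul_of_nonneg_right ?_ hT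
        exact mul_le_mul h1 hc1 hc0 hbn2

end PkgPS0

open PkgPS0 in
theorem pPS0 (hSR0 : S_SR0) : S_PS0 := by
  intro d j b hj1 hd hb0 hb
  have hin : ∀ s ≤ j, 0 ≤ ∑ a ∈ range (s + 1), (-1 : ℝ) ^ a * uu d j b s a := by
    intro s hs
    exact (PkgPSJ.alt s (uu d j b s) (fun a ha => uu_nonneg hSR0 d j b hd hb0 s a hs ha)
      (fun a ha => uu_dec hSR0 d j b hd hb0 hb s a hs ha)).1
  show b j - 2 * ((d : ℝ) - j + 1) * b (j - 1) ≤
    ∑ s ∈ range (j + 1), ∑ a ∈ range (s + 1), (-1) ^ a * uu d j b s a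
  have h0 : ∑ a ∈ range (j + 1), (-1 : ℝ) ^ a * uu d j b j a ≤
      ∑ s ∈ range (j + 1), ∑ a ∈ range (s + 1), (-1 : ℝ) ^ a * uu d j b s a := by
    refine Finset.single_le_sum (f := fun s => ∑ a ∈ range (s + 1), (-1 : ℝ) ^ a * uu d j b s a)
      (fun s hs => ?_) (Finset.self_mem_range_succ j)
    exact hin s (by have := Finset.mem_range.1 hs; omega)
  refine le_trans ?_ h0
  obtain ⟨M, rfl⟩ : ∃ M, j = M + 1 := ⟨j - 1, by omega⟩
  have h1 := PkgPSJ.alt1 M (uu d (M + 1) b (M + 1))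
    (fun a ha => uu_nonneg hSR0 d (M + 1) b hd hb0 _ a le_rfl ha)
    (fun a ha => uu_dec hSR0 d (M + 1) b hd hb0 hb _ a le_rfl ha)
  refine le_trans ?_ h1
  have u0 : uu d (M + 1) b (M + 1) 0 = b (M + 1) := by
    unfold uu
    rw [Nat.sub_self, hSR0.2.2.2.2.2, T0_zero]
    simp
  have e3 : M + 1 - 1 = M := by omega
  have e4 : ((d - (M + 1) + 1 : ℕ) : ℝ) = (d : ℝ) - M := by
    have h : d - (M + 1) + 1 + M = d := by omega
    have h2 : ((d - (M + 1) + 1 : ℕ) : ℝ) + M = d := by exact_mod_cast h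
    linarith
  have u1 : uu d (M + 1) b (M + 1) 1 = b M * (2 * ((d : ℝ) - M)) := by
    unfold uu
    rw [Nat.sub_self, hSR0.2.2.2.2.2, e4, e3]
    simp [T0]
  rw [u0, u1, e3]
  push_cast
  apply le_of_eq
  ring

end Pool.Agent.T2H83.GR
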