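import Pool.Agent.T2H83.GR.Stm4

set_option autoImplicit false

/-!
# Package RO0 of project GR (`MP_19e880_co`)
-/

namespace Pool.Agent.T2H83.GR

open Finset PowerSeries

namespace PkgRO0

theorem coeff_mul_range (f g : ℝ⟦X⟧) (N : ℕ) :
    coeff N (f * g) = ∑ a ∈ range (N + 1), coeff (N - a) f * coeff a g := by
  rw [PowerSeries.coeff_mul]
  refine Finset.sum_bij' (fun p _ => p.2) (fun a _ => (N - a, a)) ?_ ?_ ?_ ?_ ?_
  · rintro ⟨x, y⟩ hp
    rw [HasAntidiagonal.mem_antidiagonal] at hp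
    dsimp only at hp
    rw [Finset.mem_range]
    dsimp only
    omega
  · intro a ha
    rw [Finset.mem_range] at ha
    rw [HasAntidiagonal.mem_antidiagonal]
    dsimp only
    omega
  · rintro ⟨x, y⟩ hp
    rw [HasAntidiagonal.mem_antidiagonal] at hp
    dsimp only at hp
    refine Prod.ext ?_ ?_
    · dsimp only; omega
    · dsimp only
  · intro a ha
    dsimp only
  · rintro ⟨x, y⟩ hp
    rw [HasAntidiagonal.mem_antidiagonal] at hp
    dsimp only at hp
    have e1 : N - y = x := by omega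
    dsimp only
    rw [e1]

end PkgRO0

open PkgRO0 in
theorem pRO0 (hSR0 : S_SR0) : S_RO0 := by
  obtain ⟨_, _, h3, _, _, _⟩ := hSR0
  intro d j hjd b
  have step : ∀ n ∈ range (j + 1), b n * coeff (j - n) (cS ^ n * c0 ^ (d - n)) =
      ∑ a ∈ range (j - n + 1),
        (-1) ^ a * (b n * coeff (j - n - a) (cS ^ n) * T0 ((d - n : ℕ) : ℝ) a) := by
    intro n hn
    rw [coeff_mul_range, Finset.mul_sum]
    refine Finset.sum_congr rfl fun a ha => ?_
    rw [h3]
    ring
  rw [Finset.sum_congr rfl step, Finset.sum_sigma', Finset.sum_sigma']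
  refine Finset.sum_bij' (fun p _ => ⟨p.1 + p.2, p.2⟩) (fun p _ => ⟨p.1 - p.2, p.2⟩)
    ?_ ?_ ?_ ?_ ?_
  · rintro ⟨n, a⟩ hp
    simp only [Finset.mem_sigma, Finset.mem_range] at hp ⊢
    omega
  · rintro ⟨s, a⟩ hp
    simp only [Finset.mem_sigma, Finset.mem_range] at hp ⊢
    omega
  · rintro ⟨n, a⟩ hp
    simp
  · rintro ⟨s, a⟩ hp
    simp only [Finset.mem_sigma, Finset.mem_range] at hp
    have : s - a + a = s := by omega
    simp [this]
  · rintro ⟨n, a⟩ hp
    simp only [Finset.mem_sigma, Finset.mem_range] at hp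
    have e1 : n + a - a = n := by omega
    have e2 : j - n - a = j - (n + a) := by omega
    have e3 : d - (n + a) + a = d - n := by omega
    simp only [e1, e2, e3]

end Pool.Agent.T2H83.GR
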