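import Pool.Agent.T2H83.GR.Stm4

set_option autoImplicit false

/-!
Package SR0 of project GR (helper83), MP_19e880_co. Written by helper24 (after SER, QCO by helper55, helper94).
-/

namespace Pool.Agent.T2H83.GR

open Finset PowerSeries

namespace PkgSR0

lemma h1 : cS = 1 + X * cS ^ 2 := by
  ext n
  cases n with
  | zero => simp [cS]
  | succ n =>
    have h2 : coeff (n + 1) cS = (catalan (n + 1) : ℝ) := by simp [cS]
    rw [h2, map_add, coeff_one, if_neg n.succ_ne_zero, zero_add, coeff_succ_X_mul, sq, coeff_mul,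
      catalan_succ']
    push_cast
    refine Finset.sum_congr rfl fun p _ => ?_
    simp [cS]

lemma h2 : c0 ^ 2 = 1 - 4 * X := by
  unfold c0
  linear_combination (-4 * X) * h1

lemma p1 : c0 + 2 * (X * cS) = 1 := by
  unfold c0
  ring

lemma p2 : (X * cS) * (X * cS + c0) = X := by
  unfold c0
  linear_combination (X : ℝ⟦X⟧) * h1

lemma const : constantCoeff c0 = 1 := by
  unfold c0
  simp

lemma hD : c0 * d⁄dX ℝ c0 = -2 := by
  have h := congrArg (fun f => d⁄dX ℝ f) h2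
  simp only [derivative_pow] at h
  have h5 : d⁄dX ℝ (1 - 4 * X : ℝ⟦X⟧) = -4 := by
    rw [map_sub, derivative_one, Derivation.leibniz, derivative_X]
    have h6 : d⁄dX ℝ (4 : ℝ⟦X⟧) = 0 := by
      have h7 : (4 : ℝ⟦X⟧) = C (4 : ℝ) := (map_ofNat (C : ℝ →+* ℝ⟦X⟧) 4).symm
      rw [h7, derivative_C]
    rw [h6]
    simp
  rw [h5] at h
  have h8 : (2 : ℝ⟦X⟧) * (c0 * d⁄dX ℝ c0) = 2 * (-2) := by
    have h9 : ((2 : ℕ) : ℝ⟦X⟧) * c0 ^ (2 - 1) * d⁄dX ℝ c0 = -4 := h
    rw [show (2 - 1 : ℕ) = 1 from rfl, pow_one] at h9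
    push_cast at h9
    linear_combination h9
  exact mul_left_cancel₀ (by
    intro h10
    have h11 := congrArg (coeff 0) h10
    have h12 : (2 : ℝ⟦X⟧) = C (2 : ℝ) := (map_ofNat (C : ℝ →+* ℝ⟦X⟧) 2).symm
    rw [h12] at h11
    simp at h11) h8

lemma hDe (e : ℕ) : (1 - 4 * X) * d⁄dX ℝ (c0 ^ e) = C (-2 * (e : ℝ)) * c0 ^ e := by
  rw [← h2]
  cases e with
  | zero => simp
  | succ m =>
    rw [derivative_pow, show m + 1 - 1 = m by omega]
    have h9 : (C (-2 * ((m + 1 : ℕ) : ℝ)) : ℝ⟦X⟧) = (-2) * ((m + 1 : ℕ) : ℝ⟦X⟧) := by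
      rw [map_mul, map_natCast]
      have e0 : (C (2 : ℝ) : ℝ⟦X⟧) = 2 := map_ofNat _ 2
      rw [map_neg, e0]
    rw [h9, pow_succ]
    linear_combination (((m + 1 : ℕ) : ℝ⟦X⟧) * c0 ^ m * c0) * hD

lemma p3 (e a : ℕ) : coeff a (c0 ^ e) = (-1) ^ a * T0 e a := by
  induction a with
  | zero =>
    rw [coeff_zero_eq_constantCoeff_apply, map_pow, const]
    simp [T0]
  | succ a ih =>
    have h := congrArg (coeff a) (hDe e)
    have h4 : (1 - 4 * X : ℝ⟦X⟧) * d⁄dX ℝ (c0 ^ e) = d⁄dX ℝ (c0 ^ e) - C (4 : ℝ) * (X * d⁄dX ℝ (c0 ^ e)) := by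
      have e0 : (C (4 : ℝ) : ℝ⟦X⟧) = 4 := map_ofNat _ 4
      rw [e0]
      ring
    have h5 : coeff a (X * d⁄dX ℝ (c0 ^ e)) = (a : ℝ) * coeff a (c0 ^ e) := by
      cases a with
      | zero => simp
      | succ b =>
        rw [coeff_succ_X_mul, coeff_derivative]
        push_cast
        ring
    rw [h4, map_sub, coeff_C_mul, coeff_C_mul, h5, coeff_derivative, ih] at h
    have h7 : T0 e (a + 1) = T0 e a * (2 * ((e : ℝ) - 2 * (a : ℝ)) / ((a : ℝ) + 1)) := by
      unfold T0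
      rw [prod_range_succ]
    have h8 : ((a : ℝ) + 1) ≠ 0 := by positivity
    have h9 : coeff (a + 1) (c0 ^ e) =
        (4 * ((a : ℝ) * ((-1) ^ a * T0 e a)) + -2 * (e : ℝ) * ((-1) ^ a * T0 e a)) / ((a : ℝ) + 1) := by
      rw [eq_div_iff h8]
      linarith
    rw [h9, h7]
    field_simp
    ring

/-- all coefficients are nonnegative -/
def NN (f : ℝ⟦X⟧) : Prop := ∀ l, 0 ≤ coeff l f

lemma nn_one : NN 1 := by
  intro l
  rw [coeff_one]
  split_ifs <;> norm_num

lemma nn_X : NN X := by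
  intro l
  rw [coeff_X]
  split_ifs <;> norm_num

lemma nn_add {f g : ℝ⟦X⟧} (hf : NN f) (hg : NN g) : NN (f + g) := by
  intro l
  rw [map_add]
  exact add_nonneg (hf l) (hg l)

lemma nn_mul {f g : ℝ⟦X⟧} (hf : NN f) (hg : NN g) : NN (f * g) := by
  intro l
  rw [coeff_mul]
  exact Finset.sum_nonneg fun p _ => mul_nonneg (hf _) (hg _)

lemma nn_pow {f : ℝ⟦X⟧} (hf : NN f) (n : ℕ) : NN (f ^ n) := by
  induction n with
  | zero => rw [pow_zero]; exact nn_one
  | succ n ih => rw [pow_succ]; exact nn_mul ih hf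

lemma nn_S : NN cS := by
  intro l
  rw [cS, coeff_mk]
  exact Nat.cast_nonneg _

end PkgSR0

open PkgSR0 in
theorem pSR0 : S_SR0 := by
  refine ⟨p1, p2, p3, fun n l => nn_pow nn_S n l, fun n l => ?_, fun n => ?_⟩
  · have h : cS ^ (n + 1) = cS ^ n + cS ^ n * (X * cS ^ 2) := by
      rw [pow_succ]
      linear_combination (cS ^ n) * h1
    rw [h, map_add]
    have := nn_mul (nn_pow nn_S n) (nn_mul nn_X (nn_pow nn_S 2)) l
    linarith
  · have h : constantCoeff cS = 1 := by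
      have h3 := congrArg constantCoeff h1
      simp only [map_add, map_one, map_mul, constantCoeff_X, zero_mul, add_zero] at h3
      exact h3
    rw [coeff_zero_eq_constantCoeff_apply, map_pow, h, one_pow]

end Pool.Agent.T2H83.GR
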