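import Pool.Agent.T2H83.GR.Stm

set_option autoImplicit false

/-!
# Package CFN: the coefficients of `Phi`
-/

namespace Pool.Agent.T2H83.GR

open Finset Polynomial Pool.Agent.T2H44.RS

namespace PkgCFN

theorem pow1 (i : ℕ) : ((X : ℝ[X]) + X ^ 2) ^ i = ∑ a ∈ range (i + 1), C (i.choose a : ℝ) * X ^ (i + a) := by
  have h : (X : ℝ[X]) + X ^ 2 = X * (X + 1) := by ring
  rw [h, mul_pow, add_pow, Finset.mul_sum]
  refine Finset.sum_congr rfl fun a _ => ?_
  rw [one_pow, mul_one, C_eq_natCast, pow_add]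
  ring

theorem coeff2 (e n : ℕ) : ((1 + 2 * X : ℝ[X]) ^ e).coeff n = (e.choose n : ℝ) * 2 ^ n := by
  have h : (1 + 2 * X : ℝ[X]) = C 2 * X + 1 := by
    rw [add_comm]
    congr 1
  rw [h, add_pow]
  simp only [one_pow, mul_one, mul_pow, finsetSum_coeff]
  have h2 : ∀ b : ℕ, ((C 2 : ℝ[X]) ^ b * X ^ b * ((e.choose b : ℕ) : ℝ[X])).coeff n =
      if n = b then (e.choose b : ℝ) * 2 ^ b else 0 := by
    intro b
    rw [← C_eq_natCast, ← C_pow, mul_comm, ← mul_assoc, ← C_mul, coeff_C_mul_X_pow]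
  rw [Finset.sum_congr rfl fun b _ => h2 b, Finset.sum_ite_eq]
  split_ifs with hb
  · rfl
  · rw [mem_range, not_lt] at hb
    rw [Nat.choose_eq_zero_of_lt (by omega)]
    simp

end PkgCFN

open PkgCFN in
theorem pCFN : S_CFN := by
  intro d γ n
  unfold Phi
  rw [finsetSum_coeff]
  refine Finset.sum_congr rfl fun i _ => ?_
  rw [mul_assoc, coeff_C_mul]
  congr 1
  rw [pow1, Finset.sum_mul, finsetSum_coeff]
  unfold cfn
  push_cast
  refine Finset.sum_congr rfl fun a _ => ?_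
  have h : C (i.choose a : ℝ) * (X : ℝ[X]) ^ (i + a) * (1 + 2 * X) ^ (d - 2 * i) =
      C (i.choose a : ℝ) * ((1 + 2 * X) ^ (d - 2 * i) * X ^ (i + a)) := by ring
  rw [h, coeff_C_mul, coeff_mul_X_pow']
  split_ifs with hn
  · rw [coeff2]
    ring
  · ring

end Pool.Agent.T2H83.GR
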