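import Pool.Agent.T2H83.GR.Stm
import Pool.Agent.T2H44.RS.C1

set_option autoImplicit false

/-!
# Links, and the inequality of Davis and Okun summed over all links of rank four
-/

namespace Pool.Agent.T2H83.GR

open Finset Pool.Agent.T2H44.RS

/-- the link of the face `σ` -/
def lk (Δ : Cx) (σ : Finset ℕ) : Cx := Δ.filter fun τ => Disjoint σ τ ∧ σ ∪ τ ∈ Δ

/-- the inequality `f₁ - 5 f₀ + 16 ≥ 0` for the links of the faces with `d - 4` vertices -/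
def DavisOkun (d : ℕ) (Δ : Cx) : Prop :=
  ∀ σ ∈ Δ, σ.card + 4 = d → 5 * nf 1 (lk Δ σ) ≤ nf 2 (lk Δ σ) + 16

theorem nf_lk {Δ : Cx} (hd : ∀ σ ∈ Δ, ∀ τ : Finset ℕ, τ ⊆ σ → τ ∈ Δ) (σ : Finset ℕ) (k : ℕ) :
    nf k (lk Δ σ) = up (σ.card + k) Δ σ := by
  unfold nf lk up
  rw [filter_filter]
  refine card_nbij' (fun τ => σ ∪ τ) (fun ρ => ρ \ σ) ?_ ?_ ?_ ?_
  · intro τ hτ
    rw [mem_coe, mem_filter] at hτ
    rw [mem_coe, mem_filter]
    exact ⟨hτ.2.1.2, by rw [card_union_of_disjoint hτ.2.1.1, hτ.2.2], subset_union_left⟩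
  · intro ρ hρ
    rw [mem_coe, mem_filter] at hρ
    rw [mem_coe, mem_filter]
    refine ⟨hd ρ hρ.1 _ sdiff_subset, ⟨disjoint_sdiff, ?_⟩, ?_⟩
    · rw [union_sdiff_of_subset hρ.2.2]; exact hρ.1
    · have := card_sdiff_add_card_eq_card hρ.2.2
      change (ρ \ σ).card = k
      omega
  · intro τ hτ
    rw [mem_coe, mem_filter] at hτ
    change (σ ∪ τ) \ σ = τ
    rw [union_sdiff_left]
    exact sdiff_eq_self_of_disjoint hτ.2.1.1.symm
  · intro ρ hρ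
    rw [mem_coe, mem_filter] at hρ
    exact union_sdiff_of_subset hρ.2.2

theorem sum_up_gen {Δ : Cx} (hd : ∀ σ ∈ Δ, ∀ τ : Finset ℕ, τ ⊆ σ → τ ∈ Δ) (n i : ℕ) :
    ∑ σ ∈ Δ.filter (fun σ => σ.card = n), up i Δ σ = i.choose n * nf i Δ := by
  have h1 := sum_card_bipartiteAbove_eq_sum_card_bipartiteBelow (s := Δ.filter fun σ => σ.card = n)
    (t := Δ.filter fun σ => σ.card = i) (fun σ ρ => σ ⊆ ρ)
  have h2 : ∀ σ ∈ Δ.filter (fun σ => σ.card = n), up i Δ σ =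
      (bipartiteAbove (fun σ ρ : Finset ℕ => σ ⊆ ρ) (Δ.filter fun σ => σ.card = i) σ).card := by
    intro σ _
    unfold up bipartiteAbove
    rw [filter_filter]
  rw [sum_congr rfl h2, h1]
  have h3 : ∀ ρ ∈ Δ.filter (fun σ => σ.card = i),
      (bipartiteBelow (fun σ ρ : Finset ℕ => σ ⊆ ρ) (Δ.filter fun σ => σ.card = n) ρ).card =
        i.choose n := by
    intro ρ hρ
    rw [mem_filter] at hρ
    have h4 : bipartiteBelow (fun σ ρ : Finset ℕ => σ ⊆ ρ) (Δ.filter fun σ => σ.card = n) ρ =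
        powersetCard n ρ := by
      ext σ
      unfold bipartiteBelow
      rw [mem_filter, mem_filter, mem_powersetCard]
      exact ⟨fun h => ⟨h.2, h.1.2⟩, fun h => ⟨⟨hd ρ hρ.1 σ h.1, h.2⟩, h.1⟩⟩
    rw [h4, card_powersetCard, hρ.2]
  rw [sum_congr rfl h3, sum_const, smul_eq_mul, mul_comm]
  rfl

theorem davisOkun_sum {d : ℕ} {Δ : Cx} (hd : ∀ σ ∈ Δ, ∀ τ : Finset ℕ, τ ⊆ σ → τ ∈ Δ) (h4 : 4 ≤ d)
    (h : DavisOkun d Δ) :
    5 * (d - 3) * nf (d - 3) Δ ≤ (d - 2).choose 2 * nf (d - 2) Δ + 16 * nf (d - 4) Δ := by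
  obtain ⟨n, rfl⟩ : ∃ n, d = n + 4 := ⟨d - 4, by omega⟩
  have e1 : n + 4 - 3 = n + 1 := by omega
  have e2 : n + 4 - 2 = n + 2 := by omega
  have e3 : n + 4 - 4 = n := by omega
  rw [e1, e2, e3]
  have h1 : ∑ σ ∈ Δ.filter (fun σ => σ.card = n), 5 * up (n + 1) Δ σ ≤
      ∑ σ ∈ Δ.filter (fun σ => σ.card = n), (up (n + 2) Δ σ + 16) := by
    refine sum_le_sum fun σ hσ => ?_
    rw [mem_filter] at hσ
    have h2 := h σ hσ.1 (by rw [hσ.2])
    rw [nf_lk hd, nf_lk hd, hσ.2] at h2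
    exact h2
  rw [← mul_sum, sum_add_distrib, sum_up_gen hd, sum_up_gen hd, sum_const, smul_eq_mul] at h1
  have h5 : (n + 1).choose n = n + 1 := by
    rw [Nat.choose_symm_of_eq_add (by rfl : n + 1 = n + 1), Nat.choose_one_right]
  have h6 : (n + 2).choose n = (n + 2).choose 2 :=
    Nat.choose_symm_of_eq_add (by rfl : n + 2 = n + 2)
  rw [h5, h6] at h1
  have h7 : (Δ.filter fun σ => σ.card = n).card = nf n Δ := rfl
  rw [h7] at h1
  linarith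

end Pool.Agent.T2H83.GR
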