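import Pool.Agent.T2H44.RS.Defs

set_option autoImplicit false

/-!
# Rounds of edge subdivisions: definitions

`MP_19e880_co`, project GR. Complexes are finite families of finite sets of natural numbers
(`Pool.Agent.T2H44.RS.Cx`; `IsPure`, `IsEul`, `IsFlag`, `edges`, `fresh`, `sub`, `nf`, `IsGamma` are defined in
`Pool/Agent/T2H44/RS/Defs.lean`).
-/

namespace Pool.Agent.T2H83.GR

open Finset Polynomial Pool.Agent.T2H44.RS

/-- `Δ'` is obtained from `Δ` by one round of edge subdivisions: all the edges of `Δ` are subdivided, once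
each, one after the other, in some order (the new edges are not subdivided in this round). -/
def Round (Δ Δ' : Cx) : Prop :=
  ∃ l : List (Finset ℕ), l.Nodup ∧ (∀ e, e ∈ l ↔ e ∈ edges Δ) ∧ Δ' = l.foldl sub Δ

/-- `N` rounds -/
def Rounds : ℕ → Cx → Cx → Prop
  | 0, Δ, Δ' => Δ' = Δ
  | N + 1, Δ, Δ'' => ∃ Δ', Rounds N Δ Δ' ∧ Round Δ' Δ''

/-- the face polynomial of the interior of the subdivision of a simplex with `n` vertices:
`1, X, X + 2 X^2, 3 X^2 + 4 X^3, ...` -/
noncomputable def gp : ℕ → ℝ[X]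
  | 0 => 1
  | 1 => X
  | n + 2 => X * (2 * gp (n + 1) + gp n)

/-- the face polynomial -/
noncomputable def fp (Δ : Cx) : ℝ[X] := ∑ σ ∈ Δ, X ^ σ.card

/-- `∑ γ_i (X + X^2)^i (1 + 2 X)^(d - 2 i)` -/
noncomputable def Phi (d : ℕ) (γ : ℕ → ℝ) : ℝ[X] :=
  ∑ i ∈ range (d / 2 + 1), C (γ i) * (X + X ^ 2) ^ i * (1 + 2 * X) ^ (d - 2 * i)

/-- the change of the `γ`-vector in one round -/
def Mat (d : ℕ) (γ : ℕ → ℝ) (j : ℕ) : ℝ :=
  ∑ i ∈ range (d / 2 + 1),
    if i ≤ 2 * j then γ i * ((d - i).choose (2 * j - i) : ℝ) * 2 ^ (2 * j - i) else 0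

/-- the coefficient of `X^n` in `(X + X^2)^i (1 + 2 X)^(d - 2 i)` -/
def cfn (d i n : ℕ) : ℕ :=
  ∑ a ∈ range (i + 1),
    if i + a ≤ n then i.choose a * (d - 2 * i).choose (n - (i + a)) * 2 ^ (n - (i + a)) else 0

/-- the change of the coefficients of the face polynomial in one round -/
noncomputable def GG (d : ℕ) (a : ℕ → ℝ) (n : ℕ) : ℝ := ∑ k ∈ range (d + 1), a k * (gp k).coeff n

/-- the `γ`-vector of the cross polytope -/
def e0 (i : ℕ) : ℝ := if i = 0 then 1 else 0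

end Pool.Agent.T2H83.GR
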