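import Pool.Agent.T2H83.GR.Stm
import Pool.Agent.T2H44.RS.DS
import Pool.Agent.T2H44.RS.C3

set_option autoImplicit false

namespace Pool.Agent.T2H83.GR

open Finset Polynomial Pool.Agent.T2H44.RS Filter Topology

namespace PkgFIN

theorem nf_zero_pure {d : ℕ} {Δ : Cx} (h : IsPure d Δ) : nf 0 Δ = 1 := by
  unfold nf
  rw [Finset.card_eq_one]
  refine ⟨∅, ?_⟩
  ext σ
  rw [Finset.mem_filter, Finset.mem_singleton, Finset.card_eq_zero]
  exact ⟨fun h => h.2, fun h' => ⟨h' ▸ h.empty_mem, h'⟩⟩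

/-- `γ_0 = 1` -/
theorem gamma_zero {d : ℕ} {Δ : Cx} (h : IsPure d Δ) {γ : ℕ → ℤ} (hγ : IsGamma d Δ γ) :
    γ 0 = 1 := by
  have h1 := congrArg (Polynomial.eval 0) hγ
  rw [Polynomial.eval_finsetSum, Polynomial.eval_finsetSum,
    Finset.sum_eq_single_of_mem 0 (Finset.mem_range.2 (by omega)),
    Finset.sum_eq_single_of_mem 0 (Finset.mem_range.2 (by omega))] at h1
  · simp [nf_zero_pure h] at h1
    exact h1.symm
  · intro i _ hi
    simp [hi]
  · intro i _ hi
    simp [hi]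

theorem GG_smul (d : ℕ) (t : ℝ) (a : ℕ → ℝ) : GG d (fun i => t * a i) = fun i => t * GG d a i := by
  funext j
  unfold GG
  rw [Finset.mul_sum]
  apply Finset.sum_congr rfl
  intro i _
  ring

theorem GG_iter_smul (d : ℕ) (t : ℝ) (a : ℕ → ℝ) (N : ℕ) :
    (GG d)^[N] (fun i => t * a i) = fun i => t * (GG d)^[N] a i := by
  induction N with
  | zero => rfl
  | succ N ih => rw [Function.iterate_succ_apply', Function.iterate_succ_apply', ih, GG_smul]

end PkgFIN

open PkgFIN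

theorem pFIN (hPOS : S_POS) (hFRN : S_FRN) (hPRS : S_PRS) : S_FIN := by
  intro d hd
  obtain ⟨ρ, c, hρ, hc, hpos⟩ := hPOS d hd
  have hex : ∀ i, ∃ N₀ : ℕ, (1 ≤ i → i ≤ d / 2 → ∀ a : ℕ → ℝ, a d = 1 →
      (∀ n ≤ d, 0 ≤ a n ∧ a n ≤ 2 ^ d) → ∀ N ≥ N₀,
      0 < ∑ n ∈ range (d + 1), c i n * ((GG d)^[N] a n / (2 ^ (d - 1)) ^ N)) := by
    intro i
    by_cases hi : 1 ≤ i ∧ i ≤ d / 2
    · have hL := hpos i hi.1 hi.2
      set L := ∑ n ∈ range (d + 1), c i n * ρ n with hLd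
      set A : ℝ := ∑ n ∈ range (d + 1), |c i n| with hA
      have hA0 : 0 ≤ A := Finset.sum_nonneg fun n _ => abs_nonneg _
      obtain ⟨N₀, hN₀⟩ := hρ (L / (2 * (A + 1))) (by positivity)
      refine ⟨N₀, fun _ _ a ha hab N hN => ?_⟩
      have h1 := hN₀ a ha hab N hN
      have h13 : |∑ n ∈ range (d + 1), c i n * ((GG d)^[N] a n / (2 ^ (d - 1)) ^ N) -
          ∑ n ∈ range (d + 1), c i n * ρ n| ≤ A * (L / (2 * (A + 1))) := by
        rw [← Finset.sum_sub_distrib, hA, Finset.sum_mul]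
        refine (Finset.abs_sum_le_sum_abs _ _).trans (Finset.sum_le_sum fun n hn => ?_)
        rw [← mul_sub, abs_mul]
        apply mul_le_mul_of_nonneg_left _ (abs_nonneg _)
        exact (h1 n (by simpa [Nat.lt_succ_iff] using hn)).le
      have h14 : A * (L / (2 * (A + 1))) ≤ L / 2 := by
        have h15 : A * (L / (2 * (A + 1))) = (A / (A + 1)) * (L / 2) := by
          field_simp
        rw [h15]
        have h16 : A / (A + 1) ≤ 1 := by
          rw [div_le_one (by positivity)]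
          linarith
        calc (A / (A + 1)) * (L / 2) ≤ 1 * (L / 2) := mul_le_mul_of_nonneg_right h16 (by positivity)
          _ = L / 2 := one_mul _
      have h17 := (abs_le.1 (h13.trans h14)).1
      linarith
    · exact ⟨0, fun h1 h2 => absurd ⟨h1, h2⟩ hi⟩
  choose N0 hN0 using hex
  refine ⟨(range (d / 2 + 1)).sup N0, ?_⟩
  intro Δ Δ' N hN hP hE hR γ hγ i hi
  obtain ⟨hP', hE', _⟩ := hPRS.2.1 d Δ Δ' N hP hR
  by_cases hi0 : i = 0
  · rw [hi0, gamma_zero hP' hγ]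
    exact one_pos
  have hi1 : 1 ≤ i := Nat.one_le_iff_ne_zero.2 hi0
  have hNi : N0 i ≤ N := (Finset.le_sup (f := N0) (by simp [Nat.lt_succ_iff, hi])).trans hN
  have hfd : (0 : ℝ) < nf d Δ := by
    have := one_le_nf hP (le_refl d)
    exact_mod_cast this
  set a : ℕ → ℝ := fun n => (nf n Δ : ℝ) / nf d Δ with ha
  have had : a d = 1 := by
    simp only [ha]
    exact div_self hfd.ne'
  have hab : ∀ n ≤ d, 0 ≤ a n ∧ a n ≤ 2 ^ d := by
    intro n _
    refine ⟨by simp only [ha]; positivity, ?_⟩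
    simp only [ha]
    rw [div_le_iff₀ hfd]
    have := nf_le hP n
    exact_mod_cast this
  have h1 := hN0 i hi1 hi a had hab N hNi
  have h2 : (fun k => (nf k Δ : ℝ)) = fun k => (nf d Δ : ℝ) * a k := by
    funext k
    simp only [ha]
    field_simp
  have hg := gamma_real hγ
  have h3 := hc (fun n => (nf n Δ' : ℝ)) (fun i => (γ i : ℝ)) hg i hi
  have h4 : (γ i : ℝ) = (nf d Δ : ℝ) * (2 ^ (d - 1)) ^ N *
      ∑ n ∈ range (d + 1), c i n * ((GG d)^[N] a n / (2 ^ (d - 1)) ^ N) := by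
    rw [h3, Finset.mul_sum]
    apply Finset.sum_congr rfl
    intro n hn
    have hnd : n ≤ d := by simpa [Nat.lt_succ_iff] using hn
    rw [hFRN d Δ Δ' N hP hR n hnd, h2, GG_iter_smul]
    have hl : ((2 : ℝ) ^ (d - 1)) ^ N ≠ 0 := by positivity
    field_simp
  have h5 : (0 : ℝ) < γ i := by
    rw [h4]
    positivity
  exact_mod_cast h5

end Pool.Agent.T2H83.GR
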