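import Pool.Agent.T2H83.GR.Stm

set_option autoImplicit false

/-!
# Package FRN: face numbers after several rounds
-/

namespace Pool.Agent.T2H83.GR

open Finset Polynomial Pool.Agent.T2H44.RS Filter Topology

namespace PkgFRN

theorem coeff_fp (Δ : Cx) (n : ℕ) : (fp Δ).coeff n = nf n Δ := by
  unfold fp nf
  rw [finsetSum_coeff, Finset.card_filter]
  push_cast
  refine Finset.sum_congr rfl fun σ _ => ?_
  rw [coeff_X_pow]
  by_cases h : σ.card = n
  · rw [if_pos h, if_pos h.symm]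
  · rw [if_neg h, if_neg (fun hc => h hc.symm)]

theorem sum_gp (d : ℕ) (Δ : Cx) (h : ∀ σ ∈ Δ, σ.card ≤ d) (g : ℕ → ℝ) :
    ∑ σ ∈ Δ, g σ.card = ∑ k ∈ range (d + 1), (nf k Δ : ℝ) * g k := by
  have h1 : ∀ k, (nf k Δ : ℝ) * g k = ∑ σ ∈ Δ, if σ.card = k then g k else 0 := by
    intro k
    unfold nf
    rw [Finset.card_filter]
    push_cast
    rw [Finset.sum_mul]
    refine Finset.sum_congr rfl fun σ _ => ?_
    split_ifs <;> simp
  rw [Finset.sum_congr rfl fun k _ => h1 k, Finset.sum_comm]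
  refine Finset.sum_congr rfl fun σ hσ => ?_
  rw [Finset.sum_ite_eq, if_pos (mem_range.2 (Nat.lt_succ_of_le (h σ hσ)))]

end PkgFRN

theorem pFRN (hRND : S_RND) (hPRS : S_PRS) : S_FRN := by
  intro d Δ Δ' N hΔ
  induction N generalizing Δ' with
  | zero =>
    intro h n _
    have h' : Δ' = Δ := h
    rw [h']
    rfl
  | succ N ih =>
    rintro ⟨Δ₁, h1, h2⟩ n hn
    have hp := (hPRS.2.1 d Δ Δ₁ N hΔ h1).1
    have e1 := hRND d Δ₁ Δ' hp h2
    have e2 := congrArg (fun p => Polynomial.coeff p n) e1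
    simp only [PkgFRN.coeff_fp, finsetSum_coeff] at e2
    rw [e2, PkgFRN.sum_gp d Δ₁ hp.card_le (fun k => (gp k).coeff n),
      Function.iterate_succ_apply']
    unfold GG
    refine Finset.sum_congr rfl fun k hk => ?_
    rw [ih Δ₁ h1 k (by have := mem_range.1 hk; omega)]
    rfl

end Pool.Agent.T2H83.GR
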