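import Pool.Agent.T2H83.GR.Stm

set_option autoImplicit false

namespace Pool.Agent.T2H83.GR

open Finset Polynomial Pool.Agent.T2H44.RS Filter Topology

namespace PkgGAM

theorem reidx (d i : ℕ) (hi : i ≤ d / 2) (F : ℕ → ℝ) :
    ∑ l ∈ (range (d - i + 1)).filter (fun l => Even (i + l)), F l =
      ∑ j ∈ (range (d / 2 + 1)).filter (fun j => i ≤ 2 * j), F (2 * j - i) := by
  apply Finset.sum_nbij' (fun l => (i + l) / 2) (fun j => 2 * j - i)
  · intro l hl
    simp only [mem_filter, mem_range] at hl ⊢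
    obtain ⟨h1, h2⟩ := hl
    obtain ⟨r, hr⟩ := h2
    constructor <;> omega
  · intro j hj
    simp only [mem_filter, mem_range] at hj ⊢
    refine ⟨by omega, ?_⟩
    refine ⟨j, by omega⟩
  · intro l hl
    simp only [mem_filter, mem_range] at hl
    obtain ⟨h1, r, hr⟩ := hl
    omega
  · intro j hj
    simp only [mem_filter, mem_range] at hj
    omega
  · intro l hl
    simp only [mem_filter, mem_range] at hl
    obtain ⟨h1, r, hr⟩ := hl
    congr 1
    omega

theorem one (d i : ℕ) (hi : i ≤ d / 2) (s w : ℝ) :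
    (s ^ i * (w + 2 * s) ^ (d - i) + (-s) ^ i * (w + 2 * (-s)) ^ (d - i)) / 2 =
      ∑ j ∈ range (d / 2 + 1), if i ≤ 2 * j then
        ((d - i).choose (2 * j - i) : ℝ) * 2 ^ (2 * j - i) * ((s ^ 2) ^ j * w ^ (d - 2 * j)) else 0 := by
  rw [← Finset.sum_filter]
  have h0 : ∀ j ∈ (range (d / 2 + 1)).filter (fun j => i ≤ 2 * j),
      ((d - i).choose (2 * j - i) : ℝ) * 2 ^ (2 * j - i) * ((s ^ 2) ^ j * w ^ (d - 2 * j)) =
      (fun l => ((d - i).choose l : ℝ) * 2 ^ l * (s ^ (i + l) * w ^ (d - i - l))) (2 * j - i) := by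
    intro j hj
    simp only [mem_filter, mem_range] at hj
    simp only
    have e1 : i + (2 * j - i) = 2 * j := by omega
    have e2 : d - i - (2 * j - i) = d - 2 * j := by omega
    rw [e1, e2, pow_mul]
  rw [Finset.sum_congr rfl h0, ← reidx d i hi
    (fun l => ((d - i).choose l : ℝ) * 2 ^ l * (s ^ (i + l) * w ^ (d - i - l))), Finset.sum_filter]
  have h1 : ∀ t : ℝ, t ^ i * (w + 2 * t) ^ (d - i) =
      ∑ l ∈ range (d - i + 1), ((d - i).choose l : ℝ) * 2 ^ l * (t ^ (i + l) * w ^ (d - i - l)) := by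
    intro t
    rw [add_comm w, add_pow, Finset.mul_sum]
    apply Finset.sum_congr rfl
    intro l _
    rw [mul_pow, pow_add]
    ring
  rw [h1 s, h1 (-s), ← Finset.sum_add_distrib, Finset.sum_div]
  apply Finset.sum_congr rfl
  intro l _
  by_cases he : Even (i + l)
  · rw [if_pos he, he.neg_pow]
    ring
  · rw [if_neg he]
    rw [Nat.not_even_iff_odd] at he
    rw [he.neg_pow]
    ring

theorem ev (d : ℕ) (γ : ℕ → ℝ) (y : ℝ) : (Phi d γ).eval y =
    ∑ i ∈ range (d / 2 + 1), γ i * (y + y ^ 2) ^ i * (1 + 2 * y) ^ (d - 2 * i) := by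
  unfold Phi
  rw [eval_finsetSum]
  apply Finset.sum_congr rfl
  intro i _
  simp

end PkgGAM

open PkgGAM

theorem pGAM (hGEV : S_GEV) : S_GAM := by
  intro d b γ hb
  apply Polynomial.eq_of_infinite_eval_eq
  apply (Set.Ici_infinite (0 : ℝ)).mono
  intro x hx
  have hx0 : 0 ≤ x := hx
  show eval x _ = eval x _
  set s := √(x + x ^ 2) with hs
  have hs2 : s ^ 2 = x + x ^ 2 := Real.sq_sqrt (by positivity)
  have hP : ∀ y : ℝ, ∑ n ∈ range (d + 1), b n * y ^ n =
      ∑ i ∈ range (d / 2 + 1), γ i * (y + y ^ 2) ^ i * (1 + 2 * y) ^ (d - 2 * i) := by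
    intro y
    rw [← ev, ← hb, eval_finsetSum]
    apply Finset.sum_congr rfl
    intro n _
    simp
  have hL : eval x (∑ n ∈ range (d + 1), C (b n) * gp n) =
      (∑ n ∈ range (d + 1), b n * (x + s) ^ n + ∑ n ∈ range (d + 1), b n * (x - s) ^ n) / 2 := by
    rw [eval_finsetSum, ← Finset.sum_add_distrib, Finset.sum_div]
    apply Finset.sum_congr rfl
    intro n _
    rw [eval_mul, eval_C, hGEV x hx0 n, ← hs]
    ring
  have hterm : ∀ t : ℝ, t ^ 2 = x + x ^ 2 → ∀ i ∈ range (d / 2 + 1),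
      γ i * ((x + t) + (x + t) ^ 2) ^ i * (1 + 2 * (x + t)) ^ (d - 2 * i) =
      γ i * (t ^ i * ((1 + 2 * x) + 2 * t) ^ (d - i)) := by
    intro t ht i hi
    have hi' : i ≤ d / 2 := by simpa [Nat.lt_succ_iff] using hi
    have e1 : (x + t) + (x + t) ^ 2 = t * ((1 + 2 * x) + 2 * t) := by
      linear_combination (-1 : ℝ) * ht
    have e2 : 1 + 2 * (x + t) = (1 + 2 * x) + 2 * t := by ring
    have e3 : d - i = i + (d - 2 * i) := by omega
    rw [e1, e2, e3, mul_pow, pow_add]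
    ring
  rw [hL, hP, hP, Finset.sum_congr rfl (hterm s hs2)]
  have hxs : x - s = x + (-s) := by ring
  rw [hxs, Finset.sum_congr rfl (hterm (-s) (by rw [neg_sq]; exact hs2)), ← Finset.sum_add_distrib,
    Finset.sum_div, ev]
  have h2 : ∀ i ∈ range (d / 2 + 1),
      (γ i * (s ^ i * ((1 + 2 * x) + 2 * s) ^ (d - i)) +
        γ i * ((-s) ^ i * ((1 + 2 * x) + 2 * (-s)) ^ (d - i))) / 2 =
      ∑ j ∈ range (d / 2 + 1), (if i ≤ 2 * j then γ i * ((d - i).choose (2 * j - i) : ℝ) * 2 ^ (2 * j - i)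
        else 0) * ((s ^ 2) ^ j * (1 + 2 * x) ^ (d - 2 * j)) := by
    intro i hi
    have hi' : i ≤ d / 2 := by simpa [Nat.lt_succ_iff] using hi
    have h3 := one d i hi' s (1 + 2 * x)
    have h4 : (γ i * (s ^ i * ((1 + 2 * x) + 2 * s) ^ (d - i)) +
        γ i * ((-s) ^ i * ((1 + 2 * x) + 2 * (-s)) ^ (d - i))) / 2 =
        γ i * ((s ^ i * ((1 + 2 * x) + 2 * s) ^ (d - i) +
          (-s) ^ i * ((1 + 2 * x) + 2 * (-s)) ^ (d - i)) / 2) := by ring
    rw [h4, h3, Finset.mul_sum]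
    apply Finset.sum_congr rfl
    intro j _
    split_ifs
    · ring
    · ring
  rw [Finset.sum_congr rfl h2, Finset.sum_comm]
  apply Finset.sum_congr rfl
  intro j _
  rw [← Finset.sum_mul, hs2]
  unfold Mat
  ring

end Pool.Agent.T2H83.GR
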