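import Pool.Agent.T2H83.GR.Stm

set_option autoImplicit false

/-!
# Package GEV: evaluation of the polynomials `gp`
-/

namespace Pool.Agent.T2H83.GR

open Finset Polynomial Pool.Agent.T2H44.RS Filter Topology

theorem pGEV : S_GEV := by
  intro x hx n
  obtain ⟨s, hsdef⟩ : ∃ s, s = √(x + x ^ 2) := ⟨_, rfl⟩
  have hs : s ^ 2 = x + x ^ 2 := by
    rw [hsdef]
    exact Real.sq_sqrt (by positivity)
  rw [← hsdef]
  induction n using Nat.twoStepInduction with
  | zero =>
    show (1 : ℝ[X]).eval x = _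
    simp
  | one =>
    show (X : ℝ[X]).eval x = _
    simp
  | more n ih1 ih2 =>
    show (X * (2 * gp (n + 1) + gp n) : ℝ[X]).eval x = _
    rw [eval_mul, eval_add, eval_mul, ih1, ih2, eval_X]
    have h2 : (2 : ℝ[X]).eval x = 2 := eval_ofNat 2 x
    rw [h2]
    have hy : (x + s) ^ 2 = x * (2 * (x + s) + 1) := by linear_combination hs
    have hz : (x - s) ^ 2 = x * (2 * (x - s) + 1) := by linear_combination hs
    rw [pow_add (x + s) n 2, pow_add (x - s) n 2, hy, hz]
    ring

end Pool.Agent.T2H83.GR
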