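import Pool.Agent.T2H83.GR.Stm
import Pool.Agent.T2H44.RS.GL

set_option autoImplicit false

/-!
# Package INV: the `γ_i` are linear functions of the coefficients
-/

namespace Pool.Agent.T2H83.GR

open Finset Polynomial Pool.Agent.T2H44.RS Filter Topology

namespace PkgINV

theorem one (d i : ℕ) : ∃ c : ℕ → ℝ, ∀ (b γ : ℕ → ℝ),
    ∑ n ∈ range (d + 1), C (b n) * X ^ n = Phi d γ →
    i ≤ d / 2 → γ i = ∑ n ∈ range (d + 1), c n * b n := by
  induction i using Nat.strong_induction_on with
  | _ i ih =>
    choose c hc using ih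
    refine ⟨fun n => (if n = i then 1 else 0) -
      ∑ l ∈ (range i).attach, c l.1 (mem_range.1 l.2) n * PkgGL.cf d l.1 i, ?_⟩
    intro b γ h hi
    have h1 := PkgGL.coeff_rec d γ b h hi
    have h2 : ∑ l ∈ range i, γ l * PkgGL.cf d l i =
        ∑ l ∈ (range i).attach, (∑ n ∈ range (d + 1), c l.1 (mem_range.1 l.2) n * b n) *
          PkgGL.cf d l.1 i := by
      rw [← Finset.sum_attach]
      refine Finset.sum_congr rfl fun l _ => ?_
      have hl := mem_range.1 l.2
      rw [← hc l.1 hl b γ h (by omega)]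
    have h3 : γ i = b i - ∑ l ∈ range i, γ l * PkgGL.cf d l i := by linarith
    rw [h3, h2]
    simp only [sub_mul, Finset.sum_sub_distrib, ite_mul, one_mul, zero_mul]
    rw [Finset.sum_ite_eq', if_pos (mem_range.2 (by omega))]
    congr 1
    simp only [Finset.sum_mul]
    rw [Finset.sum_comm]
    refine Finset.sum_congr rfl fun n _ => Finset.sum_congr rfl fun l _ => ?_
    ring

end PkgINV

theorem pINV : S_INV := by
  intro d
  choose c hc using fun i => PkgINV.one d i
  exact ⟨c, fun b γ h i hi => hc i b γ h hi⟩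

end Pool.Agent.T2H83.GR
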