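import Pool.Agent.T2H83.GR.Stm

set_option autoImplicit false

/-!
# Package ITE: iteration
-/

namespace Pool.Agent.T2H83.GR

open Finset Polynomial Pool.Agent.T2H44.RS Filter Topology

namespace PkgITE

theorem deg_gp (k : ℕ) : (gp k).natDegree ≤ k := by
  induction k using Nat.twoStepInduction with
  | zero =>
    show (1 : ℝ[X]).natDegree ≤ 0
    simp
  | one =>
    show (X : ℝ[X]).natDegree ≤ 1
    simp
  | more n ih1 ih2 =>
    show (X * (2 * gp (n + 1) + gp n) : ℝ[X]).natDegree ≤ n + 2
    have h1 : (2 * gp (n + 1) : ℝ[X]).natDegree ≤ n + 1 := by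
      refine (natDegree_mul_le).trans ?_
      have : (2 : ℝ[X]).natDegree = 0 := natDegree_ofNat 2
      omega
    have h2 : (2 * gp (n + 1) + gp n : ℝ[X]).natDegree ≤ n + 1 :=
      (natDegree_add_le _ _).trans (max_le h1 (by omega))
    refine (natDegree_mul_le).trans ?_
    have h3 : (X : ℝ[X]).natDegree ≤ 1 := natDegree_X_le
    omega

theorem sum_GG (d : ℕ) (a : ℕ → ℝ) :
    ∑ n ∈ range (d + 1), C (GG d a n) * X ^ n = ∑ k ∈ range (d + 1), C (a k) * gp k := by
  unfold GG
  have h1 : ∀ n, C (∑ k ∈ range (d + 1), a k * (gp k).coeff n) * X ^ n =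
      ∑ k ∈ range (d + 1), C (a k) * (C ((gp k).coeff n) * X ^ n) := by
    intro n
    rw [map_sum, Finset.sum_mul]
    refine Finset.sum_congr rfl fun k _ => ?_
    rw [C_mul, mul_assoc]
  rw [Finset.sum_congr rfl fun n _ => h1 n, Finset.sum_comm]
  refine Finset.sum_congr rfl fun k hk => ?_
  rw [← Finset.mul_sum]
  congr 1
  have hk' := mem_range.1 hk
  exact ((gp k).as_sum_range_C_mul_X_pow' (lt_of_le_of_lt (deg_gp k) hk')).symm

end PkgITE

theorem pITE (hGAM : S_GAM) : S_ITE := by
  intro d b γ h N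
  induction N with
  | zero => exact h
  | succ N ih =>
    rw [Function.iterate_succ_apply', Function.iterate_succ_apply']
    rw [PkgITE.sum_GG]
    exact hGAM d _ _ ih

end Pool.Agent.T2H83.GR
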