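import Pool.Agent.T2H83.GR.Stm

/-! # Package LNK: faces of a flag Eulerian complex -/

set_option autoImplicit false

namespace Pool.Agent.T2H83.GR

open Finset Polynomial Pool.Agent.T2H44.RS

namespace PkgLNK

lemma exists_opp {d : ℕ} {Δ : Cx} (hP : IsPure d Δ) (hE : IsEul d Δ) {τ : Finset ℕ} (hτ : τ ∈ Δ)
    (hc : τ.card = d) {v : ℕ} (hv : v ∈ τ) :
    ∃ w, w ∉ τ ∧ insert w (τ.erase v) ∈ Δ := by
  have hd : 0 < d := by
    rw [← hc]
    exact card_pos.2 ⟨v, hv⟩
  have hρ : τ.erase v ∈ Δ := hP.down τ hτ _ (erase_subset _ _)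
  have hρc : (τ.erase v).card + 1 = d := by
    rw [card_erase_add_one hv, hc]
  have hne : τ.erase v ≠ τ := by
    intro h
    rw [h] at hρc
    omega
  have hsum := hE _ hρ
  obtain ⟨τ', hτ', hsub, hn1, hn2⟩ : ∃ τ' ∈ Δ, τ.erase v ⊆ τ' ∧ τ' ≠ τ.erase v ∧ τ' ≠ τ := by
    by_contra hcon
    push Not at hcon
    have hset : Δ.filter (fun τ' => τ.erase v ⊆ τ') = {τ.erase v, τ} := by
      ext τ'
      simp only [mem_filter, mem_insert, mem_singleton]
      constructor
      · rintro ⟨h1, h2⟩
        by_contra h3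
        push Not at h3
        exact h3.2 (hcon τ' h1 h2 h3.1)
      · rintro (rfl | rfl)
        · exact ⟨hρ, subset_rfl⟩
        · exact ⟨hτ, erase_subset _ _⟩
    rw [hset, sum_pair hne, hc] at hsum
    have h1 : (-1 : ℤ) ^ (τ.erase v).card = 0 := by linarith
    have h2 : (-1 : ℤ) ^ (τ.erase v).card ≠ 0 := pow_ne_zero _ (by norm_num)
    exact h2 h1
  have hcard' := hP.card_le τ' hτ'
  have hss : τ.erase v ⊂ τ' := Finset.ssubset_iff_subset_ne.2 ⟨hsub, fun h => hn1 h.symm⟩
  obtain ⟨w, hw, hwn⟩ := Finset.exists_of_ssubset hss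
  have heq : insert w (τ.erase v) = τ' := by
    refine eq_of_subset_of_card_le (insert_subset hw hsub) ?_
    rw [card_insert_of_notMem hwn]
    omega
  refine ⟨w, fun hwt => ?_, heq ▸ hτ'⟩
  have hwv : w = v := by
    by_contra h
    exact hwn (mem_erase.2 ⟨h, hwt⟩)
  rw [hwv, insert_erase hv] at heq
  exact hn2 heq.symm

lemma up_ge {d : ℕ} {Δ : Cx} (hP : IsPure d Δ) (hE : IsEul d Δ) (hF : IsFlag Δ) {n : ℕ}
    {σ : Finset ℕ} (hσ : σ ∈ Δ) (hσc : σ.card = n) :
    2 * (d - n) ≤ ((Δ.filter fun τ => τ.card = n + 1).filter fun τ => σ ⊆ τ).card := by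
  obtain ⟨τ, hτ, hστ, hτc⟩ := hP.facet σ hσ
  have hex : ∀ v, ∃ w, v ∈ τ → w ∉ τ ∧ insert w (τ.erase v) ∈ Δ := by
    intro v
    by_cases hv : v ∈ τ
    · obtain ⟨w, hw⟩ := exists_opp hP hE hτ hτc hv
      exact ⟨w, fun _ => hw⟩
    · exact ⟨0, fun h => absurd h hv⟩
  choose w hw using hex
  have hwinj : ∀ v ∈ τ, ∀ v' ∈ τ, w v = w v' → v = v' := by
    intro v hv v' hv' hww
    by_contra hne
    have hpair : ∀ a ∈ τ, ({w v, a} : Finset ℕ) ∈ Δ := by
      intro a ha
      by_cases hav : a = v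
      · refine hP.down _ (hw v' hv').2 _ ?_
        intro x hx
        simp only [mem_insert, mem_singleton] at hx
        rcases hx with rfl | rfl
        · rw [hww]
          exact mem_insert_self _ _
        · exact mem_insert_of_mem (mem_erase.2 ⟨by rw [hav]; exact hne, ha⟩)
      · refine hP.down _ (hw v hv).2 _ ?_
        intro x hx
        simp only [mem_insert, mem_singleton] at hx
        rcases hx with rfl | rfl
        · exact mem_insert_self _ _
        · exact mem_insert_of_mem (mem_erase.2 ⟨hav, ha⟩)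
    have hbig : insert (w v) τ ∈ Δ := by
      refine hF _ fun a ha b hb => ?_
      rcases mem_insert.1 ha with rfl | ha
      · rcases mem_insert.1 hb with rfl | hb
        · refine hP.down _ (hpair v hv) _ ?_
          intro x hx
          simp only [mem_insert, mem_singleton, or_self] at hx
          rw [hx]
          exact mem_insert_self _ _
        · exact hpair b hb
      · rcases mem_insert.1 hb with rfl | hb
        · rw [pair_comm]
          exact hpair a ha
        · refine hP.down τ hτ _ ?_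
          intro x hx
          simp only [mem_insert, mem_singleton] at hx
          rcases hx with rfl | rfl
          · exact ha
          · exact hb
    have h1 := hP.card_le _ hbig
    rw [card_insert_of_notMem (hw v hv).1] at h1
    omega
  have hA : ((τ \ σ).image fun v => insert v σ) ⊆
      (Δ.filter fun τ => τ.card = n + 1).filter fun τ => σ ⊆ τ := by
    intro ρ hρ
    obtain ⟨v, hv, rfl⟩ := mem_image.1 hρ
    obtain ⟨hvτ, hvσ⟩ := mem_sdiff.1 hv
    refine mem_filter.2 ⟨mem_filter.2 ⟨?_, ?_⟩, subset_insert _ _⟩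
    · exact hP.down τ hτ _ (insert_subset hvτ hστ)
    · rw [card_insert_of_notMem hvσ, hσc]
  have hB : ((τ \ σ).image fun v => insert (w v) σ) ⊆
      (Δ.filter fun τ => τ.card = n + 1).filter fun τ => σ ⊆ τ := by
    intro ρ hρ
    obtain ⟨v, hv, rfl⟩ := mem_image.1 hρ
    obtain ⟨hvτ, hvσ⟩ := mem_sdiff.1 hv
    refine mem_filter.2 ⟨mem_filter.2 ⟨?_, ?_⟩, subset_insert _ _⟩
    · refine hP.down _ (hw v hvτ).2 _ (insert_subset_insert _ ?_)
      intro x hx
      refine mem_erase.2 ⟨?_, hστ hx⟩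
      rintro rfl
      exact hvσ hx
    · rw [card_insert_of_notMem fun h => (hw v hvτ).1 (hστ h), hσc]
  have hdisj : Disjoint ((τ \ σ).image fun v => insert v σ)
      ((τ \ σ).image fun v => insert (w v) σ) := by
    rw [disjoint_left]
    intro ρ h1 h2
    obtain ⟨v, hv, rfl⟩ := mem_image.1 h1
    obtain ⟨v', hv', h3⟩ := mem_image.1 h2
    obtain ⟨hvτ, hvσ⟩ := mem_sdiff.1 hv
    obtain ⟨hvτ', -⟩ := mem_sdiff.1 hv'
    have h4 : v ∈ insert (w v') σ := by
      rw [h3]
      exact mem_insert_self _ _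
    rcases mem_insert.1 h4 with h5 | h5
    · exact (hw v' hvτ').1 (h5 ▸ hvτ)
    · exact hvσ h5
  have hcA : ((τ \ σ).image fun v => insert v σ).card = d - n := by
    rw [card_image_of_injOn, card_sdiff_of_subset hστ, hτc, hσc]
    intro v hv v' hv' h
    have hv2 := (mem_sdiff.1 (mem_coe.1 hv)).2
    have h4 : v ∈ insert v' σ := by
      have : insert v σ = insert v' σ := h
      rw [← this]
      exact mem_insert_self _ _
    rcases mem_insert.1 h4 with h5 | h5
    · exact h5
    · exact absurd h5 hv2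
  have hcB : ((τ \ σ).image fun v => insert (w v) σ).card = d - n := by
    rw [card_image_of_injOn, card_sdiff_of_subset hστ, hτc, hσc]
    intro v hv v' hv' h
    have hv1 := (mem_sdiff.1 (mem_coe.1 hv)).1
    have hv1' := (mem_sdiff.1 (mem_coe.1 hv')).1
    have h4 : w v ∈ insert (w v') σ := by
      have : insert (w v) σ = insert (w v') σ := h
      rw [← this]
      exact mem_insert_self _ _
    rcases mem_insert.1 h4 with h5 | h5
    · exact hwinj v hv1 v' hv1' h5
    · exact absurd (hστ h5) (hw v hv1).1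
  have h := card_le_card (union_subset hA hB)
  rw [card_union_of_disjoint hdisj, hcA, hcB] at h
  omega

end PkgLNK

theorem pLNK : S_LNK := by
  intro d Δ hP hE hF n hn
  unfold nf
  have h1 := Finset.sum_card_bipartiteAbove_eq_sum_card_bipartiteBelow
    (s := Δ.filter fun σ => σ.card = n) (t := Δ.filter fun τ => τ.card = n + 1)
    (fun σ τ => σ ⊆ τ)
  have h2 : (Δ.filter fun σ => σ.card = n).card * (2 * (d - n)) ≤
      ∑ σ ∈ Δ.filter fun σ => σ.card = n,
        (bipartiteAbove (fun σ τ => σ ⊆ τ) (Δ.filter fun τ => τ.card = n + 1) σ).card := by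
    rw [← smul_eq_mul]
    refine Finset.card_nsmul_le_sum _ _ _ fun σ hσ => ?_
    obtain ⟨h3, h4⟩ := mem_filter.1 hσ
    exact PkgLNK.up_ge hP hE hF h3 h4
  have h3 : ∑ τ ∈ Δ.filter fun τ => τ.card = n + 1,
        (bipartiteBelow (fun σ τ => σ ⊆ τ) (Δ.filter fun σ => σ.card = n) τ).card ≤
      (Δ.filter fun τ => τ.card = n + 1).card * (n + 1) := by
    rw [← smul_eq_mul]
    refine Finset.sum_le_card_nsmul _ _ _ fun τ hτ => ?_
    obtain ⟨-, h4⟩ := mem_filter.1 hτ
    have h5 : bipartiteBelow (fun σ τ => σ ⊆ τ) (Δ.filter fun σ => σ.card = n) τ ⊆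
        τ.powersetCard n := by
      intro σ hσ
      obtain ⟨h6, h7⟩ := mem_filter.1 hσ
      exact mem_powersetCard.2 ⟨h7, (mem_filter.1 h6).2⟩
    refine (card_le_card h5).trans ?_
    rw [card_powersetCard, h4, Nat.choose_succ_self_right]
  rw [h1] at h2
  calc 2 * (d - n) * (Δ.filter fun σ => σ.card = n).card
      = (Δ.filter fun σ => σ.card = n).card * (2 * (d - n)) := by ring
    _ ≤ (Δ.filter fun τ => τ.card = n + 1).card * (n + 1) := h2.trans h3
    _ = (n + 1) * (Δ.filter fun τ => τ.card = n + 1).card := by ring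

end Pool.Agent.T2H83.GR
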