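import Pool.Agent.T2H83.GR.Stm

/-! # Package LOW: growth of the gamma vectors of the cross polytope -/

set_option autoImplicit false

namespace Pool.Agent.T2H83.GR

open Finset Polynomial Pool.Agent.T2H44.RS

namespace PkgLOW

/-- the binomial coefficients of one parity -/
lemma half_sum (m i : ℕ) (hm : 1 ≤ m) :
    2 * ∑ l ∈ range (m + 1), (if (l + i) % 2 = 0 then (m.choose l : ℤ) else 0) = 2 ^ m := by
  have h1 : ∑ l ∈ range (m + 1), (-1 : ℤ) ^ l * (m.choose l : ℤ) = 0 :=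
    Int.alternating_sum_range_choose_of_ne (by omega)
  have h2 : ∑ l ∈ range (m + 1), (m.choose l : ℤ) = 2 ^ m := by
    exact_mod_cast Nat.sum_range_choose m
  have h3 : ∀ l : ℕ, 2 * (if (l + i) % 2 = 0 then (m.choose l : ℤ) else 0) =
      (m.choose l : ℤ) + (-1) ^ i * ((-1 : ℤ) ^ l * (m.choose l : ℤ)) := by
    intro l
    split_ifs with h
    · have h4 : (-1 : ℤ) ^ i * (-1) ^ l = 1 := by
        rw [← pow_add, add_comm]
        exact Even.neg_one_pow (Nat.even_iff.2 h)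
      linear_combination (-(m.choose l : ℤ)) * h4
    · have h4 : (-1 : ℤ) ^ i * (-1) ^ l = -1 := by
        rw [← pow_add, add_comm]
        exact Odd.neg_one_pow (Nat.odd_iff.2 (by omega))
      linear_combination (-(m.choose l : ℤ)) * h4
  rw [mul_sum, sum_congr rfl fun l _ => h3 l, sum_add_distrib, ← mul_sum, h1, h2]
  ring

lemma col_sum (d i : ℕ) (hd : 2 ≤ d) (hi : i ≤ d / 2) :
    2 * ∑ j ∈ range (d / 2 + 1), (if i ≤ 2 * j then ((d - i).choose (2 * j - i) : ℝ) else 0) =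
      2 ^ (d - i) := by
  have h := half_sum (d - i) i (by omega)
  have h2 : ∑ j ∈ range (d / 2 + 1), (if i ≤ 2 * j then ((d - i).choose (2 * j - i) : ℤ) else 0) =
      ∑ l ∈ range (d - i + 1), (if (l + i) % 2 = 0 then ((d - i).choose l : ℤ) else 0) := by
    rw [← sum_filter, ← sum_filter]
    refine sum_nbij' (fun j => 2 * j - i) (fun l => (l + i) / 2) ?_ ?_ ?_ ?_ ?_
    · intro j hj
      simp only [mem_filter, mem_range] at hj ⊢
      omega
    · intro l hl
      simp only [mem_filter, mem_range] at hl ⊢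
      omega
    · intro j hj
      simp only [mem_filter, mem_range] at hj
      omega
    · intro l hl
      simp only [mem_filter, mem_range] at hl
      omega
    · intro j hj
      rfl
  rw [← h2] at h
  have h3 := congrArg (fun z : ℤ => (z : ℝ)) h
  push_cast at h3
  exact h3

/-- the weight -/
noncomputable def ell (d : ℕ) (γ : ℕ → ℝ) : ℝ := ∑ i ∈ range (d / 2 + 1), γ i * 2 ^ (d - 2 * i)

lemma ell_Mat (d : ℕ) (hd : 2 ≤ d) (γ : ℕ → ℝ) : ell d (Mat d γ) = 2 ^ (d - 1) * ell d γ := by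
  unfold ell Mat
  rw [mul_sum]
  simp only [sum_mul]
  rw [sum_comm]
  refine sum_congr rfl fun i hi => ?_
  have hi' : i ≤ d / 2 := by
    have := mem_range.1 hi
    omega
  have h1 : ∀ j ∈ range (d / 2 + 1),
      (if i ≤ 2 * j then γ i * ((d - i).choose (2 * j - i) : ℝ) * 2 ^ (2 * j - i) else 0) *
        2 ^ (d - 2 * j) =
      γ i * 2 ^ (d - i) * (if i ≤ 2 * j then ((d - i).choose (2 * j - i) : ℝ) else 0) := by
    intro j hj
    have hj' : j ≤ d / 2 := by
      have := mem_range.1 hj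
      omega
    split_ifs with h
    · have h2 : (2 : ℝ) ^ (d - i) = 2 ^ (2 * j - i) * 2 ^ (d - 2 * j) := by
        rw [← pow_add]
        congr 1
        omega
      rw [h2]
      ring
    · simp
  rw [sum_congr rfl h1, ← mul_sum]
  have h2 := col_sum d i hd hi'
  have h3 : (2 : ℝ) ^ (d - i) * 2 ^ (d - i) = 2 * (2 ^ (d - 1) * 2 ^ (d - 2 * i)) := by
    rw [← pow_add, ← pow_add, ← pow_succ']
    congr 1
    omega
  linear_combination (γ i * 2 ^ (d - i) / 2) * h2 + (γ i / 2) * h3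

lemma Mat_nonneg (d : ℕ) (γ : ℕ → ℝ) (h : ∀ i, 0 ≤ γ i) (j : ℕ) : 0 ≤ Mat d γ j := by
  unfold Mat
  refine sum_nonneg fun i _ => ?_
  split_ifs
  · have := h i
    positivity
  · exact le_rfl

lemma Mat_ge (d : ℕ) (γ : ℕ → ℝ) (h : ∀ i, 0 ≤ γ i) {i j : ℕ} (hi : i ≤ d / 2) (hj : j ≤ d / 2)
    (hij : i ≤ 2 * j) : γ i ≤ Mat d γ j := by
  unfold Mat
  have h1 : (if i ≤ 2 * j then γ i * ((d - i).choose (2 * j - i) : ℝ) * 2 ^ (2 * j - i) else 0) ≤
      ∑ i ∈ range (d / 2 + 1),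
        if i ≤ 2 * j then γ i * ((d - i).choose (2 * j - i) : ℝ) * 2 ^ (2 * j - i) else 0 := by
    refine single_le_sum (f := fun i =>
      if i ≤ 2 * j then γ i * ((d - i).choose (2 * j - i) : ℝ) * 2 ^ (2 * j - i) else 0)
      (fun i _ => ?_) (mem_range.2 (by omega))
    split_ifs
    · have := h i
      positivity
    · exact le_rfl
  refine le_trans ?_ h1
  rw [if_pos hij]
  have h2 : (1 : ℝ) ≤ ((d - i).choose (2 * j - i) : ℝ) := by
    exact_mod_cast Nat.choose_pos (by omega)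
  have h3 : (1 : ℝ) ≤ 2 ^ (2 * j - i) := one_le_pow₀ (by norm_num)
  have h4 : (1 : ℝ) ≤ ((d - i).choose (2 * j - i) : ℝ) * 2 ^ (2 * j - i) :=
    one_le_mul_of_one_le_of_one_le h2 h3
  calc γ i = γ i * 1 := (mul_one _).symm
    _ ≤ γ i * (((d - i).choose (2 * j - i) : ℝ) * 2 ^ (2 * j - i)) :=
      mul_le_mul_of_nonneg_left h4 (h i)
    _ = _ := by ring

lemma Mat_zero (d : ℕ) (γ : ℕ → ℝ) : Mat d γ 0 = γ 0 := by
  unfold Mat
  rw [sum_eq_single 0]
  · simp
  · intro i _ hi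
    rw [if_neg (by omega)]
  · intro h
    exact absurd (mem_range.2 (by omega)) h

lemma g_nonneg (d N : ℕ) (i : ℕ) : 0 ≤ (Mat d)^[N] e0 i := by
  induction N generalizing i with
  | zero =>
    simp only [Function.iterate_zero, id_eq, e0]
    split_ifs <;> norm_num
  | succ N ih =>
    rw [Function.iterate_succ_apply']
    exact Mat_nonneg d _ ih i

lemma g_zero (d N : ℕ) : (Mat d)^[N] e0 0 = 1 := by
  induction N with
  | zero => simp [e0]
  | succ N ih => rw [Function.iterate_succ_apply', Mat_zero, ih]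

lemma g_ell (d : ℕ) (hd : 2 ≤ d) (N : ℕ) : ell d ((Mat d)^[N] e0) = 2 ^ ((d - 1) * N) * 2 ^ d := by
  induction N with
  | zero =>
    simp only [Function.iterate_zero, id_eq, mul_zero, pow_zero, one_mul, ell, e0]
    rw [sum_eq_single 0]
    · simp
    · intro i _ hi
      rw [if_neg hi, zero_mul]
    · intro h
      exact absurd (mem_range.2 (by omega)) h
  | succ N ih =>
    rw [Function.iterate_succ_apply', ell_Mat d hd, ih]
    ring

lemma g_step (d M k : ℕ) : ∀ i j, 1 ≤ i → i ≤ d / 2 → 1 ≤ j → j ≤ d / 2 → i ≤ j + k →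
    (Mat d)^[M] e0 i ≤ (Mat d)^[M + k + 1] e0 j := by
  induction k with
  | zero =>
    intro i j hi1 hi hj1 hj hij
    rw [Nat.add_zero, Function.iterate_succ_apply']
    exact Mat_ge d _ (g_nonneg d M) hi hj (by omega)
  | succ k ih =>
    intro i j hi1 hi hj1 hj hij
    rw [Function.iterate_succ_apply']
    by_cases h : i ≤ j + k
    · exact (ih i j hi1 hi hj1 hj h).trans (Mat_ge d _ (g_nonneg d _) hj hj (by omega))
    · exact (ih i (j + 1) hi1 hi (by omega) (by omega) (by omega)).trans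
        (Mat_ge d _ (g_nonneg d _) (by omega) hj (by omega))

end PkgLOW

theorem pLOW : S_LOW := by
  intro d hd N j hj1 hj
  have h1 := PkgLOW.g_ell d hd N
  unfold PkgLOW.ell at h1
  rw [sum_range_succ'] at h1
  simp only [mul_zero, Nat.sub_zero, PkgLOW.g_zero, one_mul] at h1
  have h2 : ∑ i ∈ range (d / 2), (Mat d)^[N] e0 (i + 1) * 2 ^ (d - 2 * (i + 1)) ≤
      ∑ i ∈ range (d / 2), (Mat d)^[N + d] e0 j * 2 ^ d := by
    refine sum_le_sum fun i hi => ?_
    have hi' := mem_range.1 hi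
    have h3 := PkgLOW.g_step d N (d - 1) (i + 1) j (by omega) (by omega) hj1 hj (by omega)
    rw [show N + (d - 1) + 1 = N + d by omega] at h3
    have h4 : (2 : ℝ) ^ (d - 2 * (i + 1)) ≤ 2 ^ d :=
      pow_le_pow_right₀ (by norm_num) (by omega)
    exact mul_le_mul h3 h4 (by positivity) (PkgLOW.g_nonneg d _ _)
  rw [sum_const, card_range, nsmul_eq_mul] at h2
  have h5 : ((d / 2 : ℕ) : ℝ) ≤ d := by
    exact_mod_cast Nat.div_le_self d 2
  have h6 := PkgLOW.g_nonneg d (N + d) j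
  have h7 : (0 : ℝ) < 2 ^ d := by positivity
  have h8 : ((d / 2 : ℕ) : ℝ) * ((Mat d)^[N + d] e0 j * 2 ^ d) ≤
      d * ((Mat d)^[N + d] e0 j * 2 ^ d) :=
    mul_le_mul_of_nonneg_right h5 (by positivity)
  have h9 : (2 ^ ((d - 1) * N) - 1) * (2 : ℝ) ^ d ≤ (d * (Mat d)^[N + d] e0 j) * 2 ^ d := by
    linarith
  exact le_of_mul_le_mul_right h9 h7

end Pool.Agent.T2H83.GR
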