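import Pool.Agent.T2H83.GR.Stm

set_option autoImplicit false
set_option linter.unusedSimpArgs false
set_option linter.unusedVariables false

/-!
# Package NUM: the numerical inequalities for `2 ≤ d ≤ 13` (generated by a computer program)
-/

namespace Pool.Agent.T2H83.GR

open Finset

namespace PkgNUM

theorem c2_0 (γ : ℕ → ℝ) : ∑ i ∈ range (2 / 2 + 1), γ i * (cfn 2 i 0 : ℝ) =
    1 * γ 0 + 0 * γ 1 := by
  have h : ((2 / 2 + 1 : ℕ)) = 2 := rfl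
  rw [h]
  simp only [sum_range_succ, sum_range_zero, show cfn 2 0 0 = 1 from by decide, show cfn 2 1 0 = 0 from by decide, Nat.cast_ofNat, Nat.cast_one, Nat.cast_zero]
  ring

theorem c2_1 (γ : ℕ → ℝ) : ∑ i ∈ range (2 / 2 + 1), γ i * (cfn 2 i 1 : ℝ) =
    4 * γ 0 + 1 * γ 1 := by
  have h : ((2 / 2 + 1 : ℕ)) = 2 := rfl
  rw [h]
  simp only [sum_range_succ, sum_range_zero, show cfn 2 0 1 = 4 from by decide, show cfn 2 1 1 = 1 from by decide, Nat.cast_ofNat, Nat.cast_one, Nat.cast_zero]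
  ring

theorem q2_0 (γ : ℕ → ℝ) (h0 : γ 0 = 1)
    (h : ∀ n < 2, 2 * (((2 : ℕ) : ℝ) - ((n : ℕ) : ℝ)) * ∑ i ∈ range (2 / 2 + 1), γ i * (cfn 2 i n : ℝ) ≤
      ((n : ℝ) + 1) * ∑ i ∈ range (2 / 2 + 1), γ i * (cfn 2 i (n + 1) : ℝ)) :
    0 ≤ 0 * γ 0 + 1 * γ 1 := by
  have h1 := h 0 (by norm_num)
  rw [show 0 + 1 = 1 from rfl, c2_0, c2_1] at h1
  norm_num [h0] at h1 ⊢
  linarith

theorem m2_0 (γ : ℕ → ℝ) : Mat 2 γ 0 = 1 * γ 0 + 0 * γ 1 := by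
  unfold Mat
  rw [show (2 / 2 + 1 : ℕ) = 2 from rfl]
  simp [sum_range_succ, Nat.choose]
  try ring

theorem m2_1 (γ : ℕ → ℝ) : Mat 2 γ 1 = 4 * γ 0 + 2 * γ 1 := by
  unfold Mat
  rw [show (2 / 2 + 1 : ℕ) = 2 from rfl]
  simp [sum_range_succ, Nat.choose]
  try ring

theorem main2 (γ : ℕ → ℝ) (h0 : γ 0 = 1)
    (h : ∀ n < 2, 2 * (((2 : ℕ) : ℝ) - ((n : ℕ) : ℝ)) * ∑ i ∈ range (2 / 2 + 1), γ i * (cfn 2 i n : ℝ) ≤
      ((n : ℝ) + 1) * ∑ i ∈ range (2 / 2 + 1), γ i * (cfn 2 i (n + 1) : ℝ)) :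
    ∀ j ≤ 2 / 2, ((2 : ℕ) ≤ 5 → 0 < Mat 2 γ j) ∧ 0 < Mat 2 (Mat 2 γ) j := by
  have k0 := q2_0 γ h0 h
  intro j hj
  have hj' : j ≤ 1 := hj
  clear hj h
  interval_cases j
  · refine ⟨fun _ => ?_, ?_⟩
    · rw [m2_0, h0]
      linarith []
    · rw [m2_0]
      simp only [m2_0, m2_1, h0]
      linarith []
  · refine ⟨fun _ => ?_, ?_⟩
    · rw [m2_1, h0]
      linarith [k0]
    · rw [m2_1]
      simp only [m2_0, m2_1, h0]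
      linarith [k0]

theorem c3_0 (γ : ℕ → ℝ) : ∑ i ∈ range (3 / 2 + 1), γ i * (cfn 3 i 0 : ℝ) =
    1 * γ 0 + 0 * γ 1 := by
  have h : ((3 / 2 + 1 : ℕ)) = 2 := rfl
  rw [h]
  simp only [sum_range_succ, sum_range_zero, show cfn 3 0 0 = 1 from by decide, show cfn 3 1 0 = 0 from by decide, Nat.cast_ofNat, Nat.cast_one, Nat.cast_zero]
  ring

theorem c3_1 (γ : ℕ → ℝ) : ∑ i ∈ range (3 / 2 + 1), γ i * (cfn 3 i 1 : ℝ) =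
    6 * γ 0 + 1 * γ 1 := by
  have h : ((3 / 2 + 1 : ℕ)) = 2 := rfl
  rw [h]
  simp only [sum_range_succ, sum_range_zero, show cfn 3 0 1 = 6 from by decide, show cfn 3 1 1 = 1 from by decide, Nat.cast_ofNat, Nat.cast_one, Nat.cast_zero]
  ring

theorem q3_0 (γ : ℕ → ℝ) (h0 : γ 0 = 1)
    (h : ∀ n < 3, 2 * (((3 : ℕ) : ℝ) - ((n : ℕ) : ℝ)) * ∑ i ∈ range (3 / 2 + 1), γ i * (cfn 3 i n : ℝ) ≤
      ((n : ℝ) + 1) * ∑ i ∈ range (3 / 2 + 1), γ i * (cfn 3 i (n + 1) : ℝ)) :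
    0 ≤ 0 * γ 0 + 1 * γ 1 := by
  have h1 := h 0 (by norm_num)
  rw [show 0 + 1 = 1 from rfl, c3_0, c3_1] at h1
  norm_num [h0] at h1 ⊢
  linarith

theorem m3_0 (γ : ℕ → ℝ) : Mat 3 γ 0 = 1 * γ 0 + 0 * γ 1 := by
  unfold Mat
  rw [show (3 / 2 + 1 : ℕ) = 2 from rfl]
  simp [sum_range_succ, Nat.choose]
  try ring

theorem m3_1 (γ : ℕ → ℝ) : Mat 3 γ 1 = 12 * γ 0 + 4 * γ 1 := by
  unfold Mat
  rw [show (3 / 2 + 1 : ℕ) = 2 from rfl]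
  simp [sum_range_succ, Nat.choose]
  try ring

theorem main3 (γ : ℕ → ℝ) (h0 : γ 0 = 1)
    (h : ∀ n < 3, 2 * (((3 : ℕ) : ℝ) - ((n : ℕ) : ℝ)) * ∑ i ∈ range (3 / 2 + 1), γ i * (cfn 3 i n : ℝ) ≤
      ((n : ℝ) + 1) * ∑ i ∈ range (3 / 2 + 1), γ i * (cfn 3 i (n + 1) : ℝ)) :
    ∀ j ≤ 3 / 2, ((3 : ℕ) ≤ 5 → 0 < Mat 3 γ j) ∧ 0 < Mat 3 (Mat 3 γ) j := by
  have k0 := q3_0 γ h0 h
  intro j hj
  have hj' : j ≤ 1 := hj
  clear hj h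
  interval_cases j
  · refine ⟨fun _ => ?_, ?_⟩
    · rw [m3_0, h0]
      linarith []
    · rw [m3_0]
      simp only [m3_0, m3_1, h0]
      linarith []
  · refine ⟨fun _ => ?_, ?_⟩
    · rw [m3_1, h0]
      linarith [k0]
    · rw [m3_1]
      simp only [m3_0, m3_1, h0]
      linarith [k0]

theorem c4_0 (γ : ℕ → ℝ) : ∑ i ∈ range (4 / 2 + 1), γ i * (cfn 4 i 0 : ℝ) =
    1 * γ 0 + 0 * γ 1 + 0 * γ 2 := by
  have h : ((4 / 2 + 1 : ℕ)) = 3 := rfl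
  rw [h]
  simp only [sum_range_succ, sum_range_zero, show cfn 4 0 0 = 1 from by decide, show cfn 4 1 0 = 0 from by decide, show cfn 4 2 0 = 0 from by decide, Nat.cast_ofNat, Nat.cast_one, Nat.cast_zero]
  ring

theorem c4_1 (γ : ℕ → ℝ) : ∑ i ∈ range (4 / 2 + 1), γ i * (cfn 4 i 1 : ℝ) =
    8 * γ 0 + 1 * γ 1 + 0 * γ 2 := by
  have h : ((4 / 2 + 1 : ℕ)) = 3 := rfl
  rw [h]
  simp only [sum_range_succ, sum_range_zero, show cfn 4 0 1 = 8 from by decide, show cfn 4 1 1 = 1 from by decide, show cfn 4 2 1 = 0 from by decide, Nat.cast_ofNat, Nat.cast_one, Nat.cast_zero]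
  ring

theorem c4_2 (γ : ℕ → ℝ) : ∑ i ∈ range (4 / 2 + 1), γ i * (cfn 4 i 2 : ℝ) =
    24 * γ 0 + 5 * γ 1 + 1 * γ 2 := by
  have h : ((4 / 2 + 1 : ℕ)) = 3 := rfl
  rw [h]
  simp only [sum_range_succ, sum_range_zero, show cfn 4 0 2 = 24 from by decide, show cfn 4 1 2 = 5 from by decide, show cfn 4 2 2 = 1 from by decide, Nat.cast_ofNat, Nat.cast_one, Nat.cast_zero]
  ring

theorem q4_0 (γ : ℕ → ℝ) (h0 : γ 0 = 1)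
    (h : ∀ n < 4, 2 * (((4 : ℕ) : ℝ) - ((n : ℕ) : ℝ)) * ∑ i ∈ range (4 / 2 + 1), γ i * (cfn 4 i n : ℝ) ≤
      ((n : ℝ) + 1) * ∑ i ∈ range (4 / 2 + 1), γ i * (cfn 4 i (n + 1) : ℝ)) :
    0 ≤ 0 * γ 0 + 1 * γ 1 + 0 * γ 2 := by
  have h1 := h 0 (by norm_num)
  rw [show 0 + 1 = 1 from rfl, c4_0, c4_1] at h1
  norm_num [h0] at h1 ⊢
  linarith

theorem q4_1 (γ : ℕ → ℝ) (h0 : γ 0 = 1)
    (h : ∀ n < 4, 2 * (((4 : ℕ) : ℝ) - ((n : ℕ) : ℝ)) * ∑ i ∈ range (4 / 2 + 1), γ i * (cfn 4 i n : ℝ) ≤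
      ((n : ℝ) + 1) * ∑ i ∈ range (4 / 2 + 1), γ i * (cfn 4 i (n + 1) : ℝ)) :
    0 ≤ 0 * γ 0 + 4 * γ 1 + 2 * γ 2 := by
  have h1 := h 1 (by norm_num)
  rw [show 1 + 1 = 2 from rfl, c4_1, c4_2] at h1
  norm_num [h0] at h1 ⊢
  linarith

theorem m4_0 (γ : ℕ → ℝ) : Mat 4 γ 0 = 1 * γ 0 + 0 * γ 1 + 0 * γ 2 := by
  unfold Mat
  rw [show (4 / 2 + 1 : ℕ) = 3 from rfl]
  simp [sum_range_succ, Nat.choose]
  try ring

theorem m4_1 (γ : ℕ → ℝ) : Mat 4 γ 1 = 24 * γ 0 + 6 * γ 1 + 1 * γ 2 := by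
  unfold Mat
  rw [show (4 / 2 + 1 : ℕ) = 3 from rfl]
  simp [sum_range_succ, Nat.choose]
  try ring

theorem m4_2 (γ : ℕ → ℝ) : Mat 4 γ 2 = 16 * γ 0 + 8 * γ 1 + 4 * γ 2 := by
  unfold Mat
  rw [show (4 / 2 + 1 : ℕ) = 3 from rfl]
  simp [sum_range_succ, Nat.choose]
  try ring

theorem main4 (γ : ℕ → ℝ) (h0 : γ 0 = 1)
    (h : ∀ n < 4, 2 * (((4 : ℕ) : ℝ) - ((n : ℕ) : ℝ)) * ∑ i ∈ range (4 / 2 + 1), γ i * (cfn 4 i n : ℝ) ≤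
      ((n : ℝ) + 1) * ∑ i ∈ range (4 / 2 + 1), γ i * (cfn 4 i (n + 1) : ℝ)) :
    ∀ j ≤ 4 / 2, ((4 : ℕ) ≤ 5 → 0 < Mat 4 γ j) ∧ 0 < Mat 4 (Mat 4 γ) j := by
  have k0 := q4_0 γ h0 h
  have k1 := q4_1 γ h0 h
  intro j hj
  have hj' : j ≤ 2 := hj
  clear hj h
  interval_cases j
  · refine ⟨fun _ => ?_, ?_⟩
    · rw [m4_0, h0]
      linarith []
    · rw [m4_0]
      simp only [m4_0, m4_1, m4_2, h0]
      linarith []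
  · refine ⟨fun _ => ?_, ?_⟩
    · rw [m4_1, h0]
      linarith [k0, k1]
    · rw [m4_1]
      simp only [m4_0, m4_1, m4_2, h0]
      linarith [k0, k1]
  · refine ⟨fun _ => ?_, ?_⟩
    · rw [m4_2, h0]
      linarith [k1]
    · rw [m4_2]
      simp only [m4_0, m4_1, m4_2, h0]
      linarith [k0, k1]

theorem c5_0 (γ : ℕ → ℝ) : ∑ i ∈ range (5 / 2 + 1), γ i * (cfn 5 i 0 : ℝ) =
    1 * γ 0 + 0 * γ 1 + 0 * γ 2 := by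
  have h : ((5 / 2 + 1 : ℕ)) = 3 := rfl
  rw [h]
  simp only [sum_range_succ, sum_range_zero, show cfn 5 0 0 = 1 from by decide, show cfn 5 1 0 = 0 from by decide, show cfn 5 2 0 = 0 from by decide, Nat.cast_ofNat, Nat.cast_one, Nat.cast_zero]
  ring

theorem c5_1 (γ : ℕ → ℝ) : ∑ i ∈ range (5 / 2 + 1), γ i * (cfn 5 i 1 : ℝ) =
    10 * γ 0 + 1 * γ 1 + 0 * γ 2 := by
  have h : ((5 / 2 + 1 : ℕ)) = 3 := rfl
  rw [h]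
  simp only [sum_range_succ, sum_range_zero, show cfn 5 0 1 = 10 from by decide, show cfn 5 1 1 = 1 from by decide, show cfn 5 2 1 = 0 from by decide, Nat.cast_ofNat, Nat.cast_one, Nat.cast_zero]
  ring

theorem c5_2 (γ : ℕ → ℝ) : ∑ i ∈ range (5 / 2 + 1), γ i * (cfn 5 i 2 : ℝ) =
    40 * γ 0 + 7 * γ 1 + 1 * γ 2 := by
  have h : ((5 / 2 + 1 : ℕ)) = 3 := rfl
  rw [h]
  simp only [sum_range_succ, sum_range_zero, show cfn 5 0 2 = 40 from by decide, show cfn 5 1 2 = 7 from by decide, show cfn 5 2 2 = 1 from by decide, Nat.cast_ofNat, Nat.cast_one, Nat.cast_zero]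
  ring

theorem c5_3 (γ : ℕ → ℝ) : ∑ i ∈ range (5 / 2 + 1), γ i * (cfn 5 i 3 : ℝ) =
    80 * γ 0 + 18 * γ 1 + 4 * γ 2 := by
  have h : ((5 / 2 + 1 : ℕ)) = 3 := rfl
  rw [h]
  simp only [sum_range_succ, sum_range_zero, show cfn 5 0 3 = 80 from by decide, show cfn 5 1 3 = 18 from by decide, show cfn 5 2 3 = 4 from by decide, Nat.cast_ofNat, Nat.cast_one, Nat.cast_zero]
  ring

theorem q5_0 (γ : ℕ → ℝ) (h0 : γ 0 = 1)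
    (h : ∀ n < 5, 2 * (((5 : ℕ) : ℝ) - ((n : ℕ) : ℝ)) * ∑ i ∈ range (5 / 2 + 1), γ i * (cfn 5 i n : ℝ) ≤
      ((n : ℝ) + 1) * ∑ i ∈ range (5 / 2 + 1), γ i * (cfn 5 i (n + 1) : ℝ)) :
    0 ≤ 0 * γ 0 + 1 * γ 1 + 0 * γ 2 := by
  have h1 := h 0 (by norm_num)
  rw [show 0 + 1 = 1 from rfl, c5_0, c5_1] at h1
  norm_num [h0] at h1 ⊢
  linarith

theorem q5_1 (γ : ℕ → ℝ) (h0 : γ 0 = 1)
    (h : ∀ n < 5, 2 * (((5 : ℕ) : ℝ) - ((n : ℕ) : ℝ)) * ∑ i ∈ range (5 / 2 + 1), γ i * (cfn 5 i n : ℝ) ≤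
      ((n : ℝ) + 1) * ∑ i ∈ range (5 / 2 + 1), γ i * (cfn 5 i (n + 1) : ℝ)) :
    0 ≤ 0 * γ 0 + 6 * γ 1 + 2 * γ 2 := by
  have h1 := h 1 (by norm_num)
  rw [show 1 + 1 = 2 from rfl, c5_1, c5_2] at h1
  norm_num [h0] at h1 ⊢
  linarith

theorem q5_2 (γ : ℕ → ℝ) (h0 : γ 0 = 1)
    (h : ∀ n < 5, 2 * (((5 : ℕ) : ℝ) - ((n : ℕ) : ℝ)) * ∑ i ∈ range (5 / 2 + 1), γ i * (cfn 5 i n : ℝ) ≤
      ((n : ℝ) + 1) * ∑ i ∈ range (5 / 2 + 1), γ i * (cfn 5 i (n + 1) : ℝ)) :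
    0 ≤ 0 * γ 0 + 12 * γ 1 + 6 * γ 2 := by
  have h1 := h 2 (by norm_num)
  rw [show 2 + 1 = 3 from rfl, c5_2, c5_3] at h1
  norm_num [h0] at h1 ⊢
  linarith

theorem m5_0 (γ : ℕ → ℝ) : Mat 5 γ 0 = 1 * γ 0 + 0 * γ 1 + 0 * γ 2 := by
  unfold Mat
  rw [show (5 / 2 + 1 : ℕ) = 3 from rfl]
  simp [sum_range_succ, Nat.choose]
  try ring

theorem m5_1 (γ : ℕ → ℝ) : Mat 5 γ 1 = 40 * γ 0 + 8 * γ 1 + 1 * γ 2 := by
  unfold Mat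
  rw [show (5 / 2 + 1 : ℕ) = 3 from rfl]
  simp [sum_range_succ, Nat.choose]
  try ring

theorem m5_2 (γ : ℕ → ℝ) : Mat 5 γ 2 = 80 * γ 0 + 32 * γ 1 + 12 * γ 2 := by
  unfold Mat
  rw [show (5 / 2 + 1 : ℕ) = 3 from rfl]
  simp [sum_range_succ, Nat.choose]
  try ring

theorem main5 (γ : ℕ → ℝ) (h0 : γ 0 = 1)
    (h : ∀ n < 5, 2 * (((5 : ℕ) : ℝ) - ((n : ℕ) : ℝ)) * ∑ i ∈ range (5 / 2 + 1), γ i * (cfn 5 i n : ℝ) ≤
      ((n : ℝ) + 1) * ∑ i ∈ range (5 / 2 + 1), γ i * (cfn 5 i (n + 1) : ℝ)) :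
    ∀ j ≤ 5 / 2, ((5 : ℕ) ≤ 5 → 0 < Mat 5 γ j) ∧ 0 < Mat 5 (Mat 5 γ) j := by
  have k0 := q5_0 γ h0 h
  have k1 := q5_1 γ h0 h
  have k2 := q5_2 γ h0 h
  intro j hj
  have hj' : j ≤ 2 := hj
  clear hj h
  interval_cases j
  · refine ⟨fun _ => ?_, ?_⟩
    · rw [m5_0, h0]
      linarith []
    · rw [m5_0]
      simp only [m5_0, m5_1, m5_2, h0]
      linarith []
  · refine ⟨fun _ => ?_, ?_⟩
    · rw [m5_1, h0]
      linarith [k0, k1]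
    · rw [m5_1]
      simp only [m5_0, m5_1, m5_2, h0]
      linarith [k0, k1]
  · refine ⟨fun _ => ?_, ?_⟩
    · rw [m5_2, h0]
      linarith [k1, k2]
    · rw [m5_2]
      simp only [m5_0, m5_1, m5_2, h0]
      linarith [k0, k1]

theorem c6_0 (γ : ℕ → ℝ) : ∑ i ∈ range (6 / 2 + 1), γ i * (cfn 6 i 0 : ℝ) =
    1 * γ 0 + 0 * γ 1 + 0 * γ 2 + 0 * γ 3 := by
  have h : ((6 / 2 + 1 : ℕ)) = 4 := rfl
  rw [h]
  simp only [sum_range_succ, sum_range_zero, show cfn 6 0 0 = 1 from by decide, show cfn 6 1 0 = 0 from by decide, show cfn 6 2 0 = 0 from by decide, show cfn 6 3 0 = 0 from by decide, Nat.cast_ofNat, Nat.cast_one, Nat.cast_zero]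
  ring

theorem c6_1 (γ : ℕ → ℝ) : ∑ i ∈ range (6 / 2 + 1), γ i * (cfn 6 i 1 : ℝ) =
    12 * γ 0 + 1 * γ 1 + 0 * γ 2 + 0 * γ 3 := by
  have h : ((6 / 2 + 1 : ℕ)) = 4 := rfl
  rw [h]
  simp only [sum_range_succ, sum_range_zero, show cfn 6 0 1 = 12 from by decide, show cfn 6 1 1 = 1 from by decide, show cfn 6 2 1 = 0 from by decide, show cfn 6 3 1 = 0 from by decide, Nat.cast_ofNat, Nat.cast_one, Nat.cast_zero]
  ring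

theorem c6_2 (γ : ℕ → ℝ) : ∑ i ∈ range (6 / 2 + 1), γ i * (cfn 6 i 2 : ℝ) =
    60 * γ 0 + 9 * γ 1 + 1 * γ 2 + 0 * γ 3 := by
  have h : ((6 / 2 + 1 : ℕ)) = 4 := rfl
  rw [h]
  simp only [sum_range_succ, sum_range_zero, show cfn 6 0 2 = 60 from by decide, show cfn 6 1 2 = 9 from by decide, show cfn 6 2 2 = 1 from by decide, show cfn 6 3 2 = 0 from by decide, Nat.cast_ofNat, Nat.cast_one, Nat.cast_zero]
  ring

theorem c6_3 (γ : ℕ → ℝ) : ∑ i ∈ range (6 / 2 + 1), γ i * (cfn 6 i 3 : ℝ) =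
    160 * γ 0 + 32 * γ 1 + 6 * γ 2 + 1 * γ 3 := by
  have h : ((6 / 2 + 1 : ℕ)) = 4 := rfl
  rw [h]
  simp only [sum_range_succ, sum_range_zero, show cfn 6 0 3 = 160 from by decide, show cfn 6 1 3 = 32 from by decide, show cfn 6 2 3 = 6 from by decide, show cfn 6 3 3 = 1 from by decide, Nat.cast_ofNat, Nat.cast_one, Nat.cast_zero]
  ring

theorem q6_0 (γ : ℕ → ℝ) (h0 : γ 0 = 1)
    (h : ∀ n < 6, 2 * (((6 : ℕ) : ℝ) - ((n : ℕ) : ℝ)) * ∑ i ∈ range (6 / 2 + 1), γ i * (cfn 6 i n : ℝ) ≤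
      ((n : ℝ) + 1) * ∑ i ∈ range (6 / 2 + 1), γ i * (cfn 6 i (n + 1) : ℝ)) :
    0 ≤ 0 * γ 0 + 1 * γ 1 + 0 * γ 2 + 0 * γ 3 := by
  have h1 := h 0 (by norm_num)
  rw [show 0 + 1 = 1 from rfl, c6_0, c6_1] at h1
  norm_num [h0] at h1 ⊢
  linarith

theorem q6_1 (γ : ℕ → ℝ) (h0 : γ 0 = 1)
    (h : ∀ n < 6, 2 * (((6 : ℕ) : ℝ) - ((n : ℕ) : ℝ)) * ∑ i ∈ range (6 / 2 + 1), γ i * (cfn 6 i n : ℝ) ≤
      ((n : ℝ) + 1) * ∑ i ∈ range (6 / 2 + 1), γ i * (cfn 6 i (n + 1) : ℝ)) :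
    0 ≤ 0 * γ 0 + 8 * γ 1 + 2 * γ 2 + 0 * γ 3 := by
  have h1 := h 1 (by norm_num)
  rw [show 1 + 1 = 2 from rfl, c6_1, c6_2] at h1
  norm_num [h0] at h1 ⊢
  linarith

theorem q6_2 (γ : ℕ → ℝ) (h0 : γ 0 = 1)
    (h : ∀ n < 6, 2 * (((6 : ℕ) : ℝ) - ((n : ℕ) : ℝ)) * ∑ i ∈ range (6 / 2 + 1), γ i * (cfn 6 i n : ℝ) ≤
      ((n : ℝ) + 1) * ∑ i ∈ range (6 / 2 + 1), γ i * (cfn 6 i (n + 1) : ℝ)) :
    0 ≤ 0 * γ 0 + 24 * γ 1 + 10 * γ 2 + 3 * γ 3 := by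
  have h1 := h 2 (by norm_num)
  rw [show 2 + 1 = 3 from rfl, c6_2, c6_3] at h1
  norm_num [h0] at h1 ⊢
  linarith

theorem m6_0 (γ : ℕ → ℝ) : Mat 6 γ 0 = 1 * γ 0 + 0 * γ 1 + 0 * γ 2 + 0 * γ 3 := by
  unfold Mat
  rw [show (6 / 2 + 1 : ℕ) = 4 from rfl]
  simp [sum_range_succ, Nat.choose]
  try ring

theorem m6_1 (γ : ℕ → ℝ) : Mat 6 γ 1 = 60 * γ 0 + 10 * γ 1 + 1 * γ 2 + 0 * γ 3 := by
  unfold Mat
  rw [show (6 / 2 + 1 : ℕ) = 4 from rfl]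
  simp [sum_range_succ, Nat.choose]
  try ring

theorem m6_2 (γ : ℕ → ℝ) : Mat 6 γ 2 = 240 * γ 0 + 80 * γ 1 + 24 * γ 2 + 6 * γ 3 := by
  unfold Mat
  rw [show (6 / 2 + 1 : ℕ) = 4 from rfl]
  simp [sum_range_succ, Nat.choose]
  try ring

theorem m6_3 (γ : ℕ → ℝ) : Mat 6 γ 3 = 64 * γ 0 + 32 * γ 1 + 16 * γ 2 + 8 * γ 3 := by
  unfold Mat
  rw [show (6 / 2 + 1 : ℕ) = 4 from rfl]
  simp [sum_range_succ, Nat.choose]
  try ring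

theorem main6 (γ : ℕ → ℝ) (h0 : γ 0 = 1)
    (h : ∀ n < 6, 2 * (((6 : ℕ) : ℝ) - ((n : ℕ) : ℝ)) * ∑ i ∈ range (6 / 2 + 1), γ i * (cfn 6 i n : ℝ) ≤
      ((n : ℝ) + 1) * ∑ i ∈ range (6 / 2 + 1), γ i * (cfn 6 i (n + 1) : ℝ)) :
    ∀ j ≤ 6 / 2, ((6 : ℕ) ≤ 5 → 0 < Mat 6 γ j) ∧ 0 < Mat 6 (Mat 6 γ) j := by
  have k0 := q6_0 γ h0 h
  have k1 := q6_1 γ h0 h
  have k2 := q6_2 γ h0 h
  intro j hj
  have hj' : j ≤ 3 := hj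
  clear hj h
  interval_cases j
  · refine ⟨fun h5 => absurd h5 (by norm_num), ?_⟩
    rw [m6_0]
    simp only [m6_0, m6_1, m6_2, m6_3, h0]
    linarith []
  · refine ⟨fun h5 => absurd h5 (by norm_num), ?_⟩
    rw [m6_1]
    simp only [m6_0, m6_1, m6_2, m6_3, h0]
    linarith [k0, k1, k2]
  · refine ⟨fun h5 => absurd h5 (by norm_num), ?_⟩
    rw [m6_2]
    simp only [m6_0, m6_1, m6_2, m6_3, h0]
    linarith [k0, k1, k2]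
  · refine ⟨fun h5 => absurd h5 (by norm_num), ?_⟩
    rw [m6_3]
    simp only [m6_0, m6_1, m6_2, m6_3, h0]
    linarith [k0, k1, k2]

theorem c7_0 (γ : ℕ → ℝ) : ∑ i ∈ range (7 / 2 + 1), γ i * (cfn 7 i 0 : ℝ) =
    1 * γ 0 + 0 * γ 1 + 0 * γ 2 + 0 * γ 3 := by
  have h : ((7 / 2 + 1 : ℕ)) = 4 := rfl
  rw [h]
  simp only [sum_range_succ, sum_range_zero, show cfn 7 0 0 = 1 from by decide, show cfn 7 1 0 = 0 from by decide, show cfn 7 2 0 = 0 from by decide, show cfn 7 3 0 = 0 from by decide, Nat.cast_ofNat, Nat.cast_one, Nat.cast_zero]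
  ring

theorem c7_1 (γ : ℕ → ℝ) : ∑ i ∈ range (7 / 2 + 1), γ i * (cfn 7 i 1 : ℝ) =
    14 * γ 0 + 1 * γ 1 + 0 * γ 2 + 0 * γ 3 := by
  have h : ((7 / 2 + 1 : ℕ)) = 4 := rfl
  rw [h]
  simp only [sum_range_succ, sum_range_zero, show cfn 7 0 1 = 14 from by decide, show cfn 7 1 1 = 1 from by decide, show cfn 7 2 1 = 0 from by decide, show cfn 7 3 1 = 0 from by decide, Nat.cast_ofNat, Nat.cast_one, Nat.cast_zero]
  ring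

theorem c7_2 (γ : ℕ → ℝ) : ∑ i ∈ range (7 / 2 + 1), γ i * (cfn 7 i 2 : ℝ) =
    84 * γ 0 + 11 * γ 1 + 1 * γ 2 + 0 * γ 3 := by
  have h : ((7 / 2 + 1 : ℕ)) = 4 := rfl
  rw [h]
  simp only [sum_range_succ, sum_range_zero, show cfn 7 0 2 = 84 from by decide, show cfn 7 1 2 = 11 from by decide, show cfn 7 2 2 = 1 from by decide, show cfn 7 3 2 = 0 from by decide, Nat.cast_ofNat, Nat.cast_one, Nat.cast_zero]
  ring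

theorem c7_3 (γ : ℕ → ℝ) : ∑ i ∈ range (7 / 2 + 1), γ i * (cfn 7 i 3 : ℝ) =
    280 * γ 0 + 50 * γ 1 + 8 * γ 2 + 1 * γ 3 := by
  have h : ((7 / 2 + 1 : ℕ)) = 4 := rfl
  rw [h]
  simp only [sum_range_succ, sum_range_zero, show cfn 7 0 3 = 280 from by decide, show cfn 7 1 3 = 50 from by decide, show cfn 7 2 3 = 8 from by decide, show cfn 7 3 3 = 1 from by decide, Nat.cast_ofNat, Nat.cast_one, Nat.cast_zero]
  ring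

theorem c7_4 (γ : ℕ → ℝ) : ∑ i ∈ range (7 / 2 + 1), γ i * (cfn 7 i 4 : ℝ) =
    560 * γ 0 + 120 * γ 1 + 25 * γ 2 + 5 * γ 3 := by
  have h : ((7 / 2 + 1 : ℕ)) = 4 := rfl
  rw [h]
  simp only [sum_range_succ, sum_range_zero, show cfn 7 0 4 = 560 from by decide, show cfn 7 1 4 = 120 from by decide, show cfn 7 2 4 = 25 from by decide, show cfn 7 3 4 = 5 from by decide, Nat.cast_ofNat, Nat.cast_one, Nat.cast_zero]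
  ring

theorem q7_0 (γ : ℕ → ℝ) (h0 : γ 0 = 1)
    (h : ∀ n < 7, 2 * (((7 : ℕ) : ℝ) - ((n : ℕ) : ℝ)) * ∑ i ∈ range (7 / 2 + 1), γ i * (cfn 7 i n : ℝ) ≤
      ((n : ℝ) + 1) * ∑ i ∈ range (7 / 2 + 1), γ i * (cfn 7 i (n + 1) : ℝ)) :
    0 ≤ 0 * γ 0 + 1 * γ 1 + 0 * γ 2 + 0 * γ 3 := by
  have h1 := h 0 (by norm_num)
  rw [show 0 + 1 = 1 from rfl, c7_0, c7_1] at h1
  norm_num [h0] at h1 ⊢
  linarith

theorem q7_1 (γ : ℕ → ℝ) (h0 : γ 0 = 1)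
    (h : ∀ n < 7, 2 * (((7 : ℕ) : ℝ) - ((n : ℕ) : ℝ)) * ∑ i ∈ range (7 / 2 + 1), γ i * (cfn 7 i n : ℝ) ≤
      ((n : ℝ) + 1) * ∑ i ∈ range (7 / 2 + 1), γ i * (cfn 7 i (n + 1) : ℝ)) :
    0 ≤ 0 * γ 0 + 10 * γ 1 + 2 * γ 2 + 0 * γ 3 := by
  have h1 := h 1 (by norm_num)
  rw [show 1 + 1 = 2 from rfl, c7_1, c7_2] at h1
  norm_num [h0] at h1 ⊢
  linarith

theorem q7_2 (γ : ℕ → ℝ) (h0 : γ 0 = 1)
    (h : ∀ n < 7, 2 * (((7 : ℕ) : ℝ) - ((n : ℕ) : ℝ)) * ∑ i ∈ range (7 / 2 + 1), γ i * (cfn 7 i n : ℝ) ≤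
      ((n : ℝ) + 1) * ∑ i ∈ range (7 / 2 + 1), γ i * (cfn 7 i (n + 1) : ℝ)) :
    0 ≤ 0 * γ 0 + 40 * γ 1 + 14 * γ 2 + 3 * γ 3 := by
  have h1 := h 2 (by norm_num)
  rw [show 2 + 1 = 3 from rfl, c7_2, c7_3] at h1
  norm_num [h0] at h1 ⊢
  linarith

theorem q7_3 (γ : ℕ → ℝ) (h0 : γ 0 = 1)
    (h : ∀ n < 7, 2 * (((7 : ℕ) : ℝ) - ((n : ℕ) : ℝ)) * ∑ i ∈ range (7 / 2 + 1), γ i * (cfn 7 i n : ℝ) ≤
      ((n : ℝ) + 1) * ∑ i ∈ range (7 / 2 + 1), γ i * (cfn 7 i (n + 1) : ℝ)) :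
    0 ≤ 0 * γ 0 + 80 * γ 1 + 36 * γ 2 + 12 * γ 3 := by
  have h1 := h 3 (by norm_num)
  rw [show 3 + 1 = 4 from rfl, c7_3, c7_4] at h1
  norm_num [h0] at h1 ⊢
  linarith

theorem m7_0 (γ : ℕ → ℝ) : Mat 7 γ 0 = 1 * γ 0 + 0 * γ 1 + 0 * γ 2 + 0 * γ 3 := by
  unfold Mat
  rw [show (7 / 2 + 1 : ℕ) = 4 from rfl]
  simp [sum_range_succ, Nat.choose]
  try ring

theorem m7_1 (γ : ℕ → ℝ) : Mat 7 γ 1 = 84 * γ 0 + 12 * γ 1 + 1 * γ 2 + 0 * γ 3 := by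
  unfold Mat
  rw [show (7 / 2 + 1 : ℕ) = 4 from rfl]
  simp [sum_range_succ, Nat.choose]
  try ring

theorem m7_2 (γ : ℕ → ℝ) : Mat 7 γ 2 = 560 * γ 0 + 160 * γ 1 + 40 * γ 2 + 8 * γ 3 := by
  unfold Mat
  rw [show (7 / 2 + 1 : ℕ) = 4 from rfl]
  simp [sum_range_succ, Nat.choose]
  try ring

theorem m7_3 (γ : ℕ → ℝ) : Mat 7 γ 3 = 448 * γ 0 + 192 * γ 1 + 80 * γ 2 + 32 * γ 3 := by
  unfold Mat
  rw [show (7 / 2 + 1 : ℕ) = 4 from rfl]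
  simp [sum_range_succ, Nat.choose]
  try ring

theorem main7 (γ : ℕ → ℝ) (h0 : γ 0 = 1)
    (h : ∀ n < 7, 2 * (((7 : ℕ) : ℝ) - ((n : ℕ) : ℝ)) * ∑ i ∈ range (7 / 2 + 1), γ i * (cfn 7 i n : ℝ) ≤
      ((n : ℝ) + 1) * ∑ i ∈ range (7 / 2 + 1), γ i * (cfn 7 i (n + 1) : ℝ)) :
    ∀ j ≤ 7 / 2, ((7 : ℕ) ≤ 5 → 0 < Mat 7 γ j) ∧ 0 < Mat 7 (Mat 7 γ) j := by
  have k0 := q7_0 γ h0 h
  have k1 := q7_1 γ h0 h
  have k2 := q7_2 γ h0 h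
  have k3 := q7_3 γ h0 h
  intro j hj
  have hj' : j ≤ 3 := hj
  clear hj h
  interval_cases j
  · refine ⟨fun h5 => absurd h5 (by norm_num), ?_⟩
    rw [m7_0]
    simp only [m7_0, m7_1, m7_2, m7_3, h0]
    linarith []
  · refine ⟨fun h5 => absurd h5 (by norm_num), ?_⟩
    rw [m7_1]
    simp only [m7_0, m7_1, m7_2, m7_3, h0]
    linarith [k0, k1, k2]
  · refine ⟨fun h5 => absurd h5 (by norm_num), ?_⟩
    rw [m7_2]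
    simp only [m7_0, m7_1, m7_2, m7_3, h0]
    linarith [k0, k2, k3]
  · refine ⟨fun h5 => absurd h5 (by norm_num), ?_⟩
    rw [m7_3]
    simp only [m7_0, m7_1, m7_2, m7_3, h0]
    linarith [k0, k2, k3]

theorem c8_0 (γ : ℕ → ℝ) : ∑ i ∈ range (8 / 2 + 1), γ i * (cfn 8 i 0 : ℝ) =
    1 * γ 0 + 0 * γ 1 + 0 * γ 2 + 0 * γ 3 + 0 * γ 4 := by
  have h : ((8 / 2 + 1 : ℕ)) = 5 := rfl
  rw [h]
  simp only [sum_range_succ, sum_range_zero, show cfn 8 0 0 = 1 from by decide, show cfn 8 1 0 = 0 from by decide, show cfn 8 2 0 = 0 from by decide, show cfn 8 3 0 = 0 from by decide, show cfn 8 4 0 = 0 from by decide, Nat.cast_ofNat, Nat.cast_one, Nat.cast_zero]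
  ring

theorem c8_1 (γ : ℕ → ℝ) : ∑ i ∈ range (8 / 2 + 1), γ i * (cfn 8 i 1 : ℝ) =
    16 * γ 0 + 1 * γ 1 + 0 * γ 2 + 0 * γ 3 + 0 * γ 4 := by
  have h : ((8 / 2 + 1 : ℕ)) = 5 := rfl
  rw [h]
  simp only [sum_range_succ, sum_range_zero, show cfn 8 0 1 = 16 from by decide, show cfn 8 1 1 = 1 from by decide, show cfn 8 2 1 = 0 from by decide, show cfn 8 3 1 = 0 from by decide, show cfn 8 4 1 = 0 from by decide, Nat.cast_ofNat, Nat.cast_one, Nat.cast_zero]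
  ring

theorem c8_2 (γ : ℕ → ℝ) : ∑ i ∈ range (8 / 2 + 1), γ i * (cfn 8 i 2 : ℝ) =
    112 * γ 0 + 13 * γ 1 + 1 * γ 2 + 0 * γ 3 + 0 * γ 4 := by
  have h : ((8 / 2 + 1 : ℕ)) = 5 := rfl
  rw [h]
  simp only [sum_range_succ, sum_range_zero, show cfn 8 0 2 = 112 from by decide, show cfn 8 1 2 = 13 from by decide, show cfn 8 2 2 = 1 from by decide, show cfn 8 3 2 = 0 from by decide, show cfn 8 4 2 = 0 from by decide, Nat.cast_ofNat, Nat.cast_one, Nat.cast_zero]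
  ring

theorem c8_3 (γ : ℕ → ℝ) : ∑ i ∈ range (8 / 2 + 1), γ i * (cfn 8 i 3 : ℝ) =
    448 * γ 0 + 72 * γ 1 + 10 * γ 2 + 1 * γ 3 + 0 * γ 4 := by
  have h : ((8 / 2 + 1 : ℕ)) = 5 := rfl
  rw [h]
  simp only [sum_range_succ, sum_range_zero, show cfn 8 0 3 = 448 from by decide, show cfn 8 1 3 = 72 from by decide, show cfn 8 2 3 = 10 from by decide, show cfn 8 3 3 = 1 from by decide, show cfn 8 4 3 = 0 from by decide, Nat.cast_ofNat, Nat.cast_one, Nat.cast_zero]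
  ring

theorem c8_4 (γ : ℕ → ℝ) : ∑ i ∈ range (8 / 2 + 1), γ i * (cfn 8 i 4 : ℝ) =
    1120 * γ 0 + 220 * γ 1 + 41 * γ 2 + 7 * γ 3 + 1 * γ 4 := by
  have h : ((8 / 2 + 1 : ℕ)) = 5 := rfl
  rw [h]
  simp only [sum_range_succ, sum_range_zero, show cfn 8 0 4 = 1120 from by decide, show cfn 8 1 4 = 220 from by decide, show cfn 8 2 4 = 41 from by decide, show cfn 8 3 4 = 7 from by decide, show cfn 8 4 4 = 1 from by decide, Nat.cast_ofNat, Nat.cast_one, Nat.cast_zero]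
  ring

theorem c8_5 (γ : ℕ → ℝ) : ∑ i ∈ range (8 / 2 + 1), γ i * (cfn 8 i 5 : ℝ) =
    1792 * γ 0 + 400 * γ 1 + 88 * γ 2 + 19 * γ 3 + 4 * γ 4 := by
  have h : ((8 / 2 + 1 : ℕ)) = 5 := rfl
  rw [h]
  simp only [sum_range_succ, sum_range_zero, show cfn 8 0 5 = 1792 from by decide, show cfn 8 1 5 = 400 from by decide, show cfn 8 2 5 = 88 from by decide, show cfn 8 3 5 = 19 from by decide, show cfn 8 4 5 = 4 from by decide, Nat.cast_ofNat, Nat.cast_one, Nat.cast_zero]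
  ring

theorem q8_0 (γ : ℕ → ℝ) (h0 : γ 0 = 1)
    (h : ∀ n < 8, 2 * (((8 : ℕ) : ℝ) - ((n : ℕ) : ℝ)) * ∑ i ∈ range (8 / 2 + 1), γ i * (cfn 8 i n : ℝ) ≤
      ((n : ℝ) + 1) * ∑ i ∈ range (8 / 2 + 1), γ i * (cfn 8 i (n + 1) : ℝ)) :
    0 ≤ 0 * γ 0 + 1 * γ 1 + 0 * γ 2 + 0 * γ 3 + 0 * γ 4 := by
  have h1 := h 0 (by norm_num)
  rw [show 0 + 1 = 1 from rfl, c8_0, c8_1] at h1
  norm_num [h0] at h1 ⊢
  linarith

theorem q8_1 (γ : ℕ → ℝ) (h0 : γ 0 = 1)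
    (h : ∀ n < 8, 2 * (((8 : ℕ) : ℝ) - ((n : ℕ) : ℝ)) * ∑ i ∈ range (8 / 2 + 1), γ i * (cfn 8 i n : ℝ) ≤
      ((n : ℝ) + 1) * ∑ i ∈ range (8 / 2 + 1), γ i * (cfn 8 i (n + 1) : ℝ)) :
    0 ≤ 0 * γ 0 + 12 * γ 1 + 2 * γ 2 + 0 * γ 3 + 0 * γ 4 := by
  have h1 := h 1 (by norm_num)
  rw [show 1 + 1 = 2 from rfl, c8_1, c8_2] at h1
  norm_num [h0] at h1 ⊢
  linarith

theorem q8_2 (γ : ℕ → ℝ) (h0 : γ 0 = 1)
    (h : ∀ n < 8, 2 * (((8 : ℕ) : ℝ) - ((n : ℕ) : ℝ)) * ∑ i ∈ range (8 / 2 + 1), γ i * (cfn 8 i n : ℝ) ≤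
      ((n : ℝ) + 1) * ∑ i ∈ range (8 / 2 + 1), γ i * (cfn 8 i (n + 1) : ℝ)) :
    0 ≤ 0 * γ 0 + 60 * γ 1 + 18 * γ 2 + 3 * γ 3 + 0 * γ 4 := by
  have h1 := h 2 (by norm_num)
  rw [show 2 + 1 = 3 from rfl, c8_2, c8_3] at h1
  norm_num [h0] at h1 ⊢
  linarith

theorem q8_3 (γ : ℕ → ℝ) (h0 : γ 0 = 1)
    (h : ∀ n < 8, 2 * (((8 : ℕ) : ℝ) - ((n : ℕ) : ℝ)) * ∑ i ∈ range (8 / 2 + 1), γ i * (cfn 8 i n : ℝ) ≤
      ((n : ℝ) + 1) * ∑ i ∈ range (8 / 2 + 1), γ i * (cfn 8 i (n + 1) : ℝ)) :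
    0 ≤ 0 * γ 0 + 160 * γ 1 + 64 * γ 2 + 18 * γ 3 + 4 * γ 4 := by
  have h1 := h 3 (by norm_num)
  rw [show 3 + 1 = 4 from rfl, c8_3, c8_4] at h1
  norm_num [h0] at h1 ⊢
  linarith

theorem q8_4 (γ : ℕ → ℝ) (h0 : γ 0 = 1)
    (h : ∀ n < 8, 2 * (((8 : ℕ) : ℝ) - ((n : ℕ) : ℝ)) * ∑ i ∈ range (8 / 2 + 1), γ i * (cfn 8 i n : ℝ) ≤
      ((n : ℝ) + 1) * ∑ i ∈ range (8 / 2 + 1), γ i * (cfn 8 i (n + 1) : ℝ)) :
    0 ≤ 0 * γ 0 + 240 * γ 1 + 112 * γ 2 + 39 * γ 3 + 12 * γ 4 := by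
  have h1 := h 4 (by norm_num)
  rw [show 4 + 1 = 5 from rfl, c8_4, c8_5] at h1
  norm_num [h0] at h1 ⊢
  linarith

theorem m8_0 (γ : ℕ → ℝ) : Mat 8 γ 0 = 1 * γ 0 + 0 * γ 1 + 0 * γ 2 + 0 * γ 3 + 0 * γ 4 := by
  unfold Mat
  rw [show (8 / 2 + 1 : ℕ) = 5 from rfl]
  simp [sum_range_succ, Nat.choose]
  try ring

theorem m8_1 (γ : ℕ → ℝ) : Mat 8 γ 1 = 112 * γ 0 + 14 * γ 1 + 1 * γ 2 + 0 * γ 3 + 0 * γ 4 := by
  unfold Mat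
  rw [show (8 / 2 + 1 : ℕ) = 5 from rfl]
  simp [sum_range_succ, Nat.choose]
  try ring

theorem m8_2 (γ : ℕ → ℝ) : Mat 8 γ 2 = 1120 * γ 0 + 280 * γ 1 + 60 * γ 2 + 10 * γ 3 + 1 * γ 4 := by
  unfold Mat
  rw [show (8 / 2 + 1 : ℕ) = 5 from rfl]
  simp [sum_range_succ, Nat.choose]
  try ring

theorem m8_3 (γ : ℕ → ℝ) : Mat 8 γ 3 = 1792 * γ 0 + 672 * γ 1 + 240 * γ 2 + 80 * γ 3 + 24 * γ 4 := by
  unfold Mat
  rw [show (8 / 2 + 1 : ℕ) = 5 from rfl]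
  simp [sum_range_succ, Nat.choose]
  try ring

theorem m8_4 (γ : ℕ → ℝ) : Mat 8 γ 4 = 256 * γ 0 + 128 * γ 1 + 64 * γ 2 + 32 * γ 3 + 16 * γ 4 := by
  unfold Mat
  rw [show (8 / 2 + 1 : ℕ) = 5 from rfl]
  simp [sum_range_succ, Nat.choose]
  try ring

theorem main8 (γ : ℕ → ℝ) (h0 : γ 0 = 1)
    (h : ∀ n < 8, 2 * (((8 : ℕ) : ℝ) - ((n : ℕ) : ℝ)) * ∑ i ∈ range (8 / 2 + 1), γ i * (cfn 8 i n : ℝ) ≤
      ((n : ℝ) + 1) * ∑ i ∈ range (8 / 2 + 1), γ i * (cfn 8 i (n + 1) : ℝ)) :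
    ∀ j ≤ 8 / 2, ((8 : ℕ) ≤ 5 → 0 < Mat 8 γ j) ∧ 0 < Mat 8 (Mat 8 γ) j := by
  have k0 := q8_0 γ h0 h
  have k1 := q8_1 γ h0 h
  have k2 := q8_2 γ h0 h
  have k3 := q8_3 γ h0 h
  have k4 := q8_4 γ h0 h
  intro j hj
  have hj' : j ≤ 4 := hj
  clear hj h
  interval_cases j
  · refine ⟨fun h5 => absurd h5 (by norm_num), ?_⟩
    rw [m8_0]
    simp only [m8_0, m8_1, m8_2, m8_3, m8_4, h0]
    linarith []
  · refine ⟨fun h5 => absurd h5 (by norm_num), ?_⟩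
    rw [m8_1]
    simp only [m8_0, m8_1, m8_2, m8_3, m8_4, h0]
    linarith [k0, k1, k2, k3]
  · refine ⟨fun h5 => absurd h5 (by norm_num), ?_⟩
    rw [m8_2]
    simp only [m8_0, m8_1, m8_2, m8_3, m8_4, h0]
    linarith [k0, k1, k2, k3]
  · refine ⟨fun h5 => absurd h5 (by norm_num), ?_⟩
    rw [m8_3]
    simp only [m8_0, m8_1, m8_2, m8_3, m8_4, h0]
    linarith [k0, k1, k3, k4]
  · refine ⟨fun h5 => absurd h5 (by norm_num), ?_⟩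
    rw [m8_4]
    simp only [m8_0, m8_1, m8_2, m8_3, m8_4, h0]
    linarith [k0, k1, k3, k4]

theorem c9_0 (γ : ℕ → ℝ) : ∑ i ∈ range (9 / 2 + 1), γ i * (cfn 9 i 0 : ℝ) =
    1 * γ 0 + 0 * γ 1 + 0 * γ 2 + 0 * γ 3 + 0 * γ 4 := by
  have h : ((9 / 2 + 1 : ℕ)) = 5 := rfl
  rw [h]
  simp only [sum_range_succ, sum_range_zero, show cfn 9 0 0 = 1 from by decide, show cfn 9 1 0 = 0 from by decide, show cfn 9 2 0 = 0 from by decide, show cfn 9 3 0 = 0 from by decide, show cfn 9 4 0 = 0 from by decide, Nat.cast_ofNat, Nat.cast_one, Nat.cast_zero]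
  ring

theorem c9_1 (γ : ℕ → ℝ) : ∑ i ∈ range (9 / 2 + 1), γ i * (cfn 9 i 1 : ℝ) =
    18 * γ 0 + 1 * γ 1 + 0 * γ 2 + 0 * γ 3 + 0 * γ 4 := by
  have h : ((9 / 2 + 1 : ℕ)) = 5 := rfl
  rw [h]
  simp only [sum_range_succ, sum_range_zero, show cfn 9 0 1 = 18 from by decide, show cfn 9 1 1 = 1 from by decide, show cfn 9 2 1 = 0 from by decide, show cfn 9 3 1 = 0 from by decide, show cfn 9 4 1 = 0 from by decide, Nat.cast_ofNat, Nat.cast_one, Nat.cast_zero]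
  ring

theorem c9_2 (γ : ℕ → ℝ) : ∑ i ∈ range (9 / 2 + 1), γ i * (cfn 9 i 2 : ℝ) =
    144 * γ 0 + 15 * γ 1 + 1 * γ 2 + 0 * γ 3 + 0 * γ 4 := by
  have h : ((9 / 2 + 1 : ℕ)) = 5 := rfl
  rw [h]
  simp only [sum_range_succ, sum_range_zero, show cfn 9 0 2 = 144 from by decide, show cfn 9 1 2 = 15 from by decide, show cfn 9 2 2 = 1 from by decide, show cfn 9 3 2 = 0 from by decide, show cfn 9 4 2 = 0 from by decide, Nat.cast_ofNat, Nat.cast_one, Nat.cast_zero]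
  ring

theorem c9_3 (γ : ℕ → ℝ) : ∑ i ∈ range (9 / 2 + 1), γ i * (cfn 9 i 3 : ℝ) =
    672 * γ 0 + 98 * γ 1 + 12 * γ 2 + 1 * γ 3 + 0 * γ 4 := by
  have h : ((9 / 2 + 1 : ℕ)) = 5 := rfl
  rw [h]
  simp only [sum_range_succ, sum_range_zero, show cfn 9 0 3 = 672 from by decide, show cfn 9 1 3 = 98 from by decide, show cfn 9 2 3 = 12 from by decide, show cfn 9 3 3 = 1 from by decide, show cfn 9 4 3 = 0 from by decide, Nat.cast_ofNat, Nat.cast_one, Nat.cast_zero]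
  ring

theorem c9_4 (γ : ℕ → ℝ) : ∑ i ∈ range (9 / 2 + 1), γ i * (cfn 9 i 4 : ℝ) =
    2016 * γ 0 + 364 * γ 1 + 61 * γ 2 + 9 * γ 3 + 1 * γ 4 := by
  have h : ((9 / 2 + 1 : ℕ)) = 5 := rfl
  rw [h]
  simp only [sum_range_succ, sum_range_zero, show cfn 9 0 4 = 2016 from by decide, show cfn 9 1 4 = 364 from by decide, show cfn 9 2 4 = 61 from by decide, show cfn 9 3 4 = 9 from by decide, show cfn 9 4 4 = 1 from by decide, Nat.cast_ofNat, Nat.cast_one, Nat.cast_zero]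
  ring

theorem c9_5 (γ : ℕ → ℝ) : ∑ i ∈ range (9 / 2 + 1), γ i * (cfn 9 i 5 : ℝ) =
    4032 * γ 0 + 840 * γ 1 + 170 * γ 2 + 33 * γ 3 + 6 * γ 4 := by
  have h : ((9 / 2 + 1 : ℕ)) = 5 := rfl
  rw [h]
  simp only [sum_range_succ, sum_range_zero, show cfn 9 0 5 = 4032 from by decide, show cfn 9 1 5 = 840 from by decide, show cfn 9 2 5 = 170 from by decide, show cfn 9 3 5 = 33 from by decide, show cfn 9 4 5 = 6 from by decide, Nat.cast_ofNat, Nat.cast_one, Nat.cast_zero]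
  ring

theorem c9_6 (γ : ℕ → ℝ) : ∑ i ∈ range (9 / 2 + 1), γ i * (cfn 9 i 6 : ℝ) =
    5376 * γ 0 + 1232 * γ 1 + 280 * γ 2 + 63 * γ 3 + 14 * γ 4 := by
  have h : ((9 / 2 + 1 : ℕ)) = 5 := rfl
  rw [h]
  simp only [sum_range_succ, sum_range_zero, show cfn 9 0 6 = 5376 from by decide, show cfn 9 1 6 = 1232 from by decide, show cfn 9 2 6 = 280 from by decide, show cfn 9 3 6 = 63 from by decide, show cfn 9 4 6 = 14 from by decide, Nat.cast_ofNat, Nat.cast_one, Nat.cast_zero]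
  ring

theorem q9_0 (γ : ℕ → ℝ) (h0 : γ 0 = 1)
    (h : ∀ n < 9, 2 * (((9 : ℕ) : ℝ) - ((n : ℕ) : ℝ)) * ∑ i ∈ range (9 / 2 + 1), γ i * (cfn 9 i n : ℝ) ≤
      ((n : ℝ) + 1) * ∑ i ∈ range (9 / 2 + 1), γ i * (cfn 9 i (n + 1) : ℝ)) :
    0 ≤ 0 * γ 0 + 1 * γ 1 + 0 * γ 2 + 0 * γ 3 + 0 * γ 4 := by
  have h1 := h 0 (by norm_num)
  rw [show 0 + 1 = 1 from rfl, c9_0, c9_1] at h1
  norm_num [h0] at h1 ⊢
  linarith

theorem q9_1 (γ : ℕ → ℝ) (h0 : γ 0 = 1)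
    (h : ∀ n < 9, 2 * (((9 : ℕ) : ℝ) - ((n : ℕ) : ℝ)) * ∑ i ∈ range (9 / 2 + 1), γ i * (cfn 9 i n : ℝ) ≤
      ((n : ℝ) + 1) * ∑ i ∈ range (9 / 2 + 1), γ i * (cfn 9 i (n + 1) : ℝ)) :
    0 ≤ 0 * γ 0 + 14 * γ 1 + 2 * γ 2 + 0 * γ 3 + 0 * γ 4 := by
  have h1 := h 1 (by norm_num)
  rw [show 1 + 1 = 2 from rfl, c9_1, c9_2] at h1
  norm_num [h0] at h1 ⊢
  linarith

theorem q9_2 (γ : ℕ → ℝ) (h0 : γ 0 = 1)
    (h : ∀ n < 9, 2 * (((9 : ℕ) : ℝ) - ((n : ℕ) : ℝ)) * ∑ i ∈ range (9 / 2 + 1), γ i * (cfn 9 i n : ℝ) ≤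
      ((n : ℝ) + 1) * ∑ i ∈ range (9 / 2 + 1), γ i * (cfn 9 i (n + 1) : ℝ)) :
    0 ≤ 0 * γ 0 + 84 * γ 1 + 22 * γ 2 + 3 * γ 3 + 0 * γ 4 := by
  have h1 := h 2 (by norm_num)
  rw [show 2 + 1 = 3 from rfl, c9_2, c9_3] at h1
  norm_num [h0] at h1 ⊢
  linarith

theorem q9_3 (γ : ℕ → ℝ) (h0 : γ 0 = 1)
    (h : ∀ n < 9, 2 * (((9 : ℕ) : ℝ) - ((n : ℕ) : ℝ)) * ∑ i ∈ range (9 / 2 + 1), γ i * (cfn 9 i n : ℝ) ≤
      ((n : ℝ) + 1) * ∑ i ∈ range (9 / 2 + 1), γ i * (cfn 9 i (n + 1) : ℝ)) :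
    0 ≤ 0 * γ 0 + 280 * γ 1 + 100 * γ 2 + 24 * γ 3 + 4 * γ 4 := by
  have h1 := h 3 (by norm_num)
  rw [show 3 + 1 = 4 from rfl, c9_3, c9_4] at h1
  norm_num [h0] at h1 ⊢
  linarith

theorem q9_4 (γ : ℕ → ℝ) (h0 : γ 0 = 1)
    (h : ∀ n < 9, 2 * (((9 : ℕ) : ℝ) - ((n : ℕ) : ℝ)) * ∑ i ∈ range (9 / 2 + 1), γ i * (cfn 9 i n : ℝ) ≤
      ((n : ℝ) + 1) * ∑ i ∈ range (9 / 2 + 1), γ i * (cfn 9 i (n + 1) : ℝ)) :
    0 ≤ 0 * γ 0 + 560 * γ 1 + 240 * γ 2 + 75 * γ 3 + 20 * γ 4 := by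
  have h1 := h 4 (by norm_num)
  rw [show 4 + 1 = 5 from rfl, c9_4, c9_5] at h1
  norm_num [h0] at h1 ⊢
  linarith

theorem q9_5 (γ : ℕ → ℝ) (h0 : γ 0 = 1)
    (h : ∀ n < 9, 2 * (((9 : ℕ) : ℝ) - ((n : ℕ) : ℝ)) * ∑ i ∈ range (9 / 2 + 1), γ i * (cfn 9 i n : ℝ) ≤
      ((n : ℝ) + 1) * ∑ i ∈ range (9 / 2 + 1), γ i * (cfn 9 i (n + 1) : ℝ)) :
    0 ≤ 0 * γ 0 + 672 * γ 1 + 320 * γ 2 + 114 * γ 3 + 36 * γ 4 := by
  have h1 := h 5 (by norm_num)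
  rw [show 5 + 1 = 6 from rfl, c9_5, c9_6] at h1
  norm_num [h0] at h1 ⊢
  linarith

theorem m9_0 (γ : ℕ → ℝ) : Mat 9 γ 0 = 1 * γ 0 + 0 * γ 1 + 0 * γ 2 + 0 * γ 3 + 0 * γ 4 := by
  unfold Mat
  rw [show (9 / 2 + 1 : ℕ) = 5 from rfl]
  simp [sum_range_succ, Nat.choose]
  try ring

theorem m9_1 (γ : ℕ → ℝ) : Mat 9 γ 1 = 144 * γ 0 + 16 * γ 1 + 1 * γ 2 + 0 * γ 3 + 0 * γ 4 := by
  unfold Mat
  rw [show (9 / 2 + 1 : ℕ) = 5 from rfl]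
  simp [sum_range_succ, Nat.choose]
  try ring

theorem m9_2 (γ : ℕ → ℝ) : Mat 9 γ 2 = 2016 * γ 0 + 448 * γ 1 + 84 * γ 2 + 12 * γ 3 + 1 * γ 4 := by
  unfold Mat
  rw [show (9 / 2 + 1 : ℕ) = 5 from rfl]
  simp [sum_range_succ, Nat.choose]
  try ring

theorem m9_3 (γ : ℕ → ℝ) : Mat 9 γ 3 = 5376 * γ 0 + 1792 * γ 1 + 560 * γ 2 + 160 * γ 3 + 40 * γ 4 := by
  unfold Mat
  rw [show (9 / 2 + 1 : ℕ) = 5 from rfl]
  simp [sum_range_succ, Nat.choose]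
  try ring

theorem m9_4 (γ : ℕ → ℝ) : Mat 9 γ 4 = 2304 * γ 0 + 1024 * γ 1 + 448 * γ 2 + 192 * γ 3 + 80 * γ 4 := by
  unfold Mat
  rw [show (9 / 2 + 1 : ℕ) = 5 from rfl]
  simp [sum_range_succ, Nat.choose]
  try ring

theorem main9 (γ : ℕ → ℝ) (h0 : γ 0 = 1)
    (h : ∀ n < 9, 2 * (((9 : ℕ) : ℝ) - ((n : ℕ) : ℝ)) * ∑ i ∈ range (9 / 2 + 1), γ i * (cfn 9 i n : ℝ) ≤
      ((n : ℝ) + 1) * ∑ i ∈ range (9 / 2 + 1), γ i * (cfn 9 i (n + 1) : ℝ)) :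
    ∀ j ≤ 9 / 2, ((9 : ℕ) ≤ 5 → 0 < Mat 9 γ j) ∧ 0 < Mat 9 (Mat 9 γ) j := by
  have k0 := q9_0 γ h0 h
  have k1 := q9_1 γ h0 h
  have k2 := q9_2 γ h0 h
  have k3 := q9_3 γ h0 h
  have k4 := q9_4 γ h0 h
  have k5 := q9_5 γ h0 h
  intro j hj
  have hj' : j ≤ 4 := hj
  clear hj h
  interval_cases j
  · refine ⟨fun h5 => absurd h5 (by norm_num), ?_⟩
    rw [m9_0]
    simp only [m9_0, m9_1, m9_2, m9_3, m9_4, h0]
    linarith []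
  · refine ⟨fun h5 => absurd h5 (by norm_num), ?_⟩
    rw [m9_1]
    simp only [m9_0, m9_1, m9_2, m9_3, m9_4, h0]
    linarith [k0, k1, k2, k3]
  · refine ⟨fun h5 => absurd h5 (by norm_num), ?_⟩
    rw [m9_2]
    simp only [m9_0, m9_1, m9_2, m9_3, m9_4, h0]
    linarith [k0, k1, k3, k4]
  · refine ⟨fun h5 => absurd h5 (by norm_num), ?_⟩
    rw [m9_3]
    simp only [m9_0, m9_1, m9_2, m9_3, m9_4, h0]
    linarith [k0, k1, k3, k4]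
  · refine ⟨fun h5 => absurd h5 (by norm_num), ?_⟩
    rw [m9_4]
    simp only [m9_0, m9_1, m9_2, m9_3, m9_4, h0]
    linarith [k0, k1, k4, k5]

theorem c10_0 (γ : ℕ → ℝ) : ∑ i ∈ range (10 / 2 + 1), γ i * (cfn 10 i 0 : ℝ) =
    1 * γ 0 + 0 * γ 1 + 0 * γ 2 + 0 * γ 3 + 0 * γ 4 + 0 * γ 5 := by
  have h : ((10 / 2 + 1 : ℕ)) = 6 := rfl
  rw [h]
  simp only [sum_range_succ, sum_range_zero, show cfn 10 0 0 = 1 from by decide, show cfn 10 1 0 = 0 from by decide, show cfn 10 2 0 = 0 from by decide, show cfn 10 3 0 = 0 from by decide, show cfn 10 4 0 = 0 from by decide, show cfn 10 5 0 = 0 from by decide, Nat.cast_ofNat, Nat.cast_one, Nat.cast_zero]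
  ring

theorem c10_1 (γ : ℕ → ℝ) : ∑ i ∈ range (10 / 2 + 1), γ i * (cfn 10 i 1 : ℝ) =
    20 * γ 0 + 1 * γ 1 + 0 * γ 2 + 0 * γ 3 + 0 * γ 4 + 0 * γ 5 := by
  have h : ((10 / 2 + 1 : ℕ)) = 6 := rfl
  rw [h]
  simp only [sum_range_succ, sum_range_zero, show cfn 10 0 1 = 20 from by decide, show cfn 10 1 1 = 1 from by decide, show cfn 10 2 1 = 0 from by decide, show cfn 10 3 1 = 0 from by decide, show cfn 10 4 1 = 0 from by decide, show cfn 10 5 1 = 0 from by decide, Nat.cast_ofNat, Nat.cast_one, Nat.cast_zero]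
  ring

theorem c10_2 (γ : ℕ → ℝ) : ∑ i ∈ range (10 / 2 + 1), γ i * (cfn 10 i 2 : ℝ) =
    180 * γ 0 + 17 * γ 1 + 1 * γ 2 + 0 * γ 3 + 0 * γ 4 + 0 * γ 5 := by
  have h : ((10 / 2 + 1 : ℕ)) = 6 := rfl
  rw [h]
  simp only [sum_range_succ, sum_range_zero, show cfn 10 0 2 = 180 from by decide, show cfn 10 1 2 = 17 from by decide, show cfn 10 2 2 = 1 from by decide, show cfn 10 3 2 = 0 from by decide, show cfn 10 4 2 = 0 from by decide, show cfn 10 5 2 = 0 from by decide, Nat.cast_ofNat, Nat.cast_one, Nat.cast_zero]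
  ring

theorem c10_3 (γ : ℕ → ℝ) : ∑ i ∈ range (10 / 2 + 1), γ i * (cfn 10 i 3 : ℝ) =
    960 * γ 0 + 128 * γ 1 + 14 * γ 2 + 1 * γ 3 + 0 * γ 4 + 0 * γ 5 := by
  have h : ((10 / 2 + 1 : ℕ)) = 6 := rfl
  rw [h]
  simp only [sum_range_succ, sum_range_zero, show cfn 10 0 3 = 960 from by decide, show cfn 10 1 3 = 128 from by decide, show cfn 10 2 3 = 14 from by decide, show cfn 10 3 3 = 1 from by decide, show cfn 10 4 3 = 0 from by decide, show cfn 10 5 3 = 0 from by decide, Nat.cast_ofNat, Nat.cast_one, Nat.cast_zero]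
  ring

theorem c10_4 (γ : ℕ → ℝ) : ∑ i ∈ range (10 / 2 + 1), γ i * (cfn 10 i 4 : ℝ) =
    3360 * γ 0 + 560 * γ 1 + 85 * γ 2 + 11 * γ 3 + 1 * γ 4 + 0 * γ 5 := by
  have h : ((10 / 2 + 1 : ℕ)) = 6 := rfl
  rw [h]
  simp only [sum_range_succ, sum_range_zero, show cfn 10 0 4 = 3360 from by decide, show cfn 10 1 4 = 560 from by decide, show cfn 10 2 4 = 85 from by decide, show cfn 10 3 4 = 11 from by decide, show cfn 10 4 4 = 1 from by decide, show cfn 10 5 4 = 0 from by decide, Nat.cast_ofNat, Nat.cast_one, Nat.cast_zero]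
  ring

theorem c10_5 (γ : ℕ → ℝ) : ∑ i ∈ range (10 / 2 + 1), γ i * (cfn 10 i 5 : ℝ) =
    8064 * γ 0 + 1568 * γ 1 + 292 * γ 2 + 51 * γ 3 + 8 * γ 4 + 1 * γ 5 := by
  have h : ((10 / 2 + 1 : ℕ)) = 6 := rfl
  rw [h]
  simp only [sum_range_succ, sum_range_zero, show cfn 10 0 5 = 8064 from by decide, show cfn 10 1 5 = 1568 from by decide, show cfn 10 2 5 = 292 from by decide, show cfn 10 3 5 = 51 from by decide, show cfn 10 4 5 = 8 from by decide, show cfn 10 5 5 = 1 from by decide, Nat.cast_ofNat, Nat.cast_one, Nat.cast_zero]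
  ring

theorem c10_6 (γ : ℕ → ℝ) : ∑ i ∈ range (10 / 2 + 1), γ i * (cfn 10 i 6 : ℝ) =
    13440 * γ 0 + 2912 * γ 1 + 620 * γ 2 + 129 * γ 3 + 26 * γ 4 + 5 * γ 5 := by
  have h : ((10 / 2 + 1 : ℕ)) = 6 := rfl
  rw [h]
  simp only [sum_range_succ, sum_range_zero, show cfn 10 0 6 = 13440 from by decide, show cfn 10 1 6 = 2912 from by decide, show cfn 10 2 6 = 620 from by decide, show cfn 10 3 6 = 129 from by decide, show cfn 10 4 6 = 26 from by decide, show cfn 10 5 6 = 5 from by decide, Nat.cast_ofNat, Nat.cast_one, Nat.cast_zero]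
  ring

theorem c10_7 (γ : ℕ → ℝ) : ∑ i ∈ range (10 / 2 + 1), γ i * (cfn 10 i 7 : ℝ) =
    15360 * γ 0 + 3584 * γ 1 + 832 * γ 2 + 192 * γ 3 + 44 * γ 4 + 10 * γ 5 := by
  have h : ((10 / 2 + 1 : ℕ)) = 6 := rfl
  rw [h]
  simp only [sum_range_succ, sum_range_zero, show cfn 10 0 7 = 15360 from by decide, show cfn 10 1 7 = 3584 from by decide, show cfn 10 2 7 = 832 from by decide, show cfn 10 3 7 = 192 from by decide, show cfn 10 4 7 = 44 from by decide, show cfn 10 5 7 = 10 from by decide, Nat.cast_ofNat, Nat.cast_one, Nat.cast_zero]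
  ring

theorem q10_0 (γ : ℕ → ℝ) (h0 : γ 0 = 1)
    (h : ∀ n < 10, 2 * (((10 : ℕ) : ℝ) - ((n : ℕ) : ℝ)) * ∑ i ∈ range (10 / 2 + 1), γ i * (cfn 10 i n : ℝ) ≤
      ((n : ℝ) + 1) * ∑ i ∈ range (10 / 2 + 1), γ i * (cfn 10 i (n + 1) : ℝ)) :
    0 ≤ 0 * γ 0 + 1 * γ 1 + 0 * γ 2 + 0 * γ 3 + 0 * γ 4 + 0 * γ 5 := by
  have h1 := h 0 (by norm_num)
  rw [show 0 + 1 = 1 from rfl, c10_0, c10_1] at h1
  norm_num [h0] at h1 ⊢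
  linarith

theorem q10_1 (γ : ℕ → ℝ) (h0 : γ 0 = 1)
    (h : ∀ n < 10, 2 * (((10 : ℕ) : ℝ) - ((n : ℕ) : ℝ)) * ∑ i ∈ range (10 / 2 + 1), γ i * (cfn 10 i n : ℝ) ≤
      ((n : ℝ) + 1) * ∑ i ∈ range (10 / 2 + 1), γ i * (cfn 10 i (n + 1) : ℝ)) :
    0 ≤ 0 * γ 0 + 16 * γ 1 + 2 * γ 2 + 0 * γ 3 + 0 * γ 4 + 0 * γ 5 := by
  have h1 := h 1 (by norm_num)
  rw [show 1 + 1 = 2 from rfl, c10_1, c10_2] at h1
  norm_num [h0] at h1 ⊢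
  linarith

theorem q10_2 (γ : ℕ → ℝ) (h0 : γ 0 = 1)
    (h : ∀ n < 10, 2 * (((10 : ℕ) : ℝ) - ((n : ℕ) : ℝ)) * ∑ i ∈ range (10 / 2 + 1), γ i * (cfn 10 i n : ℝ) ≤
      ((n : ℝ) + 1) * ∑ i ∈ range (10 / 2 + 1), γ i * (cfn 10 i (n + 1) : ℝ)) :
    0 ≤ 0 * γ 0 + 112 * γ 1 + 26 * γ 2 + 3 * γ 3 + 0 * γ 4 + 0 * γ 5 := by
  have h1 := h 2 (by norm_num)
  rw [show 2 + 1 = 3 from rfl, c10_2, c10_3] at h1
  norm_num [h0] at h1 ⊢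
  linarith

theorem q10_3 (γ : ℕ → ℝ) (h0 : γ 0 = 1)
    (h : ∀ n < 10, 2 * (((10 : ℕ) : ℝ) - ((n : ℕ) : ℝ)) * ∑ i ∈ range (10 / 2 + 1), γ i * (cfn 10 i n : ℝ) ≤
      ((n : ℝ) + 1) * ∑ i ∈ range (10 / 2 + 1), γ i * (cfn 10 i (n + 1) : ℝ)) :
    0 ≤ 0 * γ 0 + 448 * γ 1 + 144 * γ 2 + 30 * γ 3 + 4 * γ 4 + 0 * γ 5 := by
  have h1 := h 3 (by norm_num)
  rw [show 3 + 1 = 4 from rfl, c10_3, c10_4] at h1
  norm_num [h0] at h1 ⊢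
  linarith

theorem q10_4 (γ : ℕ → ℝ) (h0 : γ 0 = 1)
    (h : ∀ n < 10, 2 * (((10 : ℕ) : ℝ) - ((n : ℕ) : ℝ)) * ∑ i ∈ range (10 / 2 + 1), γ i * (cfn 10 i n : ℝ) ≤
      ((n : ℝ) + 1) * ∑ i ∈ range (10 / 2 + 1), γ i * (cfn 10 i (n + 1) : ℝ)) :
    0 ≤ 0 * γ 0 + 1120 * γ 1 + 440 * γ 2 + 123 * γ 3 + 28 * γ 4 + 5 * γ 5 := by
  have h1 := h 4 (by norm_num)
  rw [show 4 + 1 = 5 from rfl, c10_4, c10_5] at h1
  norm_num [h0] at h1 ⊢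
  linarith

theorem q10_5 (γ : ℕ → ℝ) (h0 : γ 0 = 1)
    (h : ∀ n < 10, 2 * (((10 : ℕ) : ℝ) - ((n : ℕ) : ℝ)) * ∑ i ∈ range (10 / 2 + 1), γ i * (cfn 10 i n : ℝ) ≤
      ((n : ℝ) + 1) * ∑ i ∈ range (10 / 2 + 1), γ i * (cfn 10 i (n + 1) : ℝ)) :
    0 ≤ 0 * γ 0 + 1792 * γ 1 + 800 * γ 2 + 264 * γ 3 + 76 * γ 4 + 20 * γ 5 := by
  have h1 := h 5 (by norm_num)
  rw [show 5 + 1 = 6 from rfl, c10_5, c10_6] at h1
  norm_num [h0] at h1 ⊢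
  linarith

theorem q10_6 (γ : ℕ → ℝ) (h0 : γ 0 = 1)
    (h : ∀ n < 10, 2 * (((10 : ℕ) : ℝ) - ((n : ℕ) : ℝ)) * ∑ i ∈ range (10 / 2 + 1), γ i * (cfn 10 i n : ℝ) ≤
      ((n : ℝ) + 1) * ∑ i ∈ range (10 / 2 + 1), γ i * (cfn 10 i (n + 1) : ℝ)) :
    0 ≤ 0 * γ 0 + 1792 * γ 1 + 864 * γ 2 + 312 * γ 3 + 100 * γ 4 + 30 * γ 5 := by
  have h1 := h 6 (by norm_num)
  rw [show 6 + 1 = 7 from rfl, c10_6, c10_7] at h1
  norm_num [h0] at h1 ⊢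
  linarith

theorem m10_0 (γ : ℕ → ℝ) : Mat 10 γ 0 = 1 * γ 0 + 0 * γ 1 + 0 * γ 2 + 0 * γ 3 + 0 * γ 4 + 0 * γ 5 := by
  unfold Mat
  rw [show (10 / 2 + 1 : ℕ) = 6 from rfl]
  simp [sum_range_succ, Nat.choose]
  try ring

theorem m10_1 (γ : ℕ → ℝ) : Mat 10 γ 1 = 180 * γ 0 + 18 * γ 1 + 1 * γ 2 + 0 * γ 3 + 0 * γ 4 + 0 * γ 5 := by
  unfold Mat
  rw [show (10 / 2 + 1 : ℕ) = 6 from rfl]
  simp [sum_range_succ, Nat.choose]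
  try ring

theorem m10_2 (γ : ℕ → ℝ) : Mat 10 γ 2 = 3360 * γ 0 + 672 * γ 1 + 112 * γ 2 + 14 * γ 3 + 1 * γ 4 + 0 * γ 5 := by
  unfold Mat
  rw [show (10 / 2 + 1 : ℕ) = 6 from rfl]
  simp [sum_range_succ, Nat.choose]
  try ring

theorem m10_3 (γ : ℕ → ℝ) : Mat 10 γ 3 = 13440 * γ 0 + 4032 * γ 1 + 1120 * γ 2 + 280 * γ 3 + 60 * γ 4 + 10 * γ 5 := by
  unfold Mat
  rw [show (10 / 2 + 1 : ℕ) = 6 from rfl]
  simp [sum_range_succ, Nat.choose]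
  try ring

theorem m10_4 (γ : ℕ → ℝ) : Mat 10 γ 4 = 11520 * γ 0 + 4608 * γ 1 + 1792 * γ 2 + 672 * γ 3 + 240 * γ 4 + 80 * γ 5 := by
  unfold Mat
  rw [show (10 / 2 + 1 : ℕ) = 6 from rfl]
  simp [sum_range_succ, Nat.choose]
  try ring

theorem m10_5 (γ : ℕ → ℝ) : Mat 10 γ 5 = 1024 * γ 0 + 512 * γ 1 + 256 * γ 2 + 128 * γ 3 + 64 * γ 4 + 32 * γ 5 := by
  unfold Mat
  rw [show (10 / 2 + 1 : ℕ) = 6 from rfl]
  simp [sum_range_succ, Nat.choose]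
  try ring

theorem main10 (γ : ℕ → ℝ) (h0 : γ 0 = 1)
    (h : ∀ n < 10, 2 * (((10 : ℕ) : ℝ) - ((n : ℕ) : ℝ)) * ∑ i ∈ range (10 / 2 + 1), γ i * (cfn 10 i n : ℝ) ≤
      ((n : ℝ) + 1) * ∑ i ∈ range (10 / 2 + 1), γ i * (cfn 10 i (n + 1) : ℝ)) :
    ∀ j ≤ 10 / 2, ((10 : ℕ) ≤ 5 → 0 < Mat 10 γ j) ∧ 0 < Mat 10 (Mat 10 γ) j := by
  have k0 := q10_0 γ h0 h
  have k1 := q10_1 γ h0 h
  have k2 := q10_2 γ h0 h
  have k3 := q10_3 γ h0 h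
  have k4 := q10_4 γ h0 h
  have k5 := q10_5 γ h0 h
  have k6 := q10_6 γ h0 h
  intro j hj
  have hj' : j ≤ 5 := hj
  clear hj h
  interval_cases j
  · refine ⟨fun h5 => absurd h5 (by norm_num), ?_⟩
    rw [m10_0]
    simp only [m10_0, m10_1, m10_2, m10_3, m10_4, m10_5, h0]
    linarith []
  · refine ⟨fun h5 => absurd h5 (by norm_num), ?_⟩
    rw [m10_1]
    simp only [m10_0, m10_1, m10_2, m10_3, m10_4, m10_5, h0]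
    linarith [k0, k1, k2, k3]
  · refine ⟨fun h5 => absurd h5 (by norm_num), ?_⟩
    rw [m10_2]
    simp only [m10_0, m10_1, m10_2, m10_3, m10_4, m10_5, h0]
    linarith [k0, k1, k2, k4, k5]
  · refine ⟨fun h5 => absurd h5 (by norm_num), ?_⟩
    rw [m10_3]
    simp only [m10_0, m10_1, m10_2, m10_3, m10_4, m10_5, h0]
    linarith [k0, k1, k2, k4, k5]
  · refine ⟨fun h5 => absurd h5 (by norm_num), ?_⟩
    rw [m10_4]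
    simp only [m10_0, m10_1, m10_2, m10_3, m10_4, m10_5, h0]
    linarith [k0, k1, k2, k5, k6]
  · refine ⟨fun h5 => absurd h5 (by norm_num), ?_⟩
    rw [m10_5]
    simp only [m10_0, m10_1, m10_2, m10_3, m10_4, m10_5, h0]
    linarith [k0, k1, k2, k5, k6]

theorem c11_0 (γ : ℕ → ℝ) : ∑ i ∈ range (11 / 2 + 1), γ i * (cfn 11 i 0 : ℝ) =
    1 * γ 0 + 0 * γ 1 + 0 * γ 2 + 0 * γ 3 + 0 * γ 4 + 0 * γ 5 := by
  have h : ((11 / 2 + 1 : ℕ)) = 6 := rfl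
  rw [h]
  simp only [sum_range_succ, sum_range_zero, show cfn 11 0 0 = 1 from by decide, show cfn 11 1 0 = 0 from by decide, show cfn 11 2 0 = 0 from by decide, show cfn 11 3 0 = 0 from by decide, show cfn 11 4 0 = 0 from by decide, show cfn 11 5 0 = 0 from by decide, Nat.cast_ofNat, Nat.cast_one, Nat.cast_zero]
  ring

theorem c11_1 (γ : ℕ → ℝ) : ∑ i ∈ range (11 / 2 + 1), γ i * (cfn 11 i 1 : ℝ) =
    22 * γ 0 + 1 * γ 1 + 0 * γ 2 + 0 * γ 3 + 0 * γ 4 + 0 * γ 5 := by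
  have h : ((11 / 2 + 1 : ℕ)) = 6 := rfl
  rw [h]
  simp only [sum_range_succ, sum_range_zero, show cfn 11 0 1 = 22 from by decide, show cfn 11 1 1 = 1 from by decide, show cfn 11 2 1 = 0 from by decide, show cfn 11 3 1 = 0 from by decide, show cfn 11 4 1 = 0 from by decide, show cfn 11 5 1 = 0 from by decide, Nat.cast_ofNat, Nat.cast_one, Nat.cast_zero]
  ring

theorem c11_2 (γ : ℕ → ℝ) : ∑ i ∈ range (11 / 2 + 1), γ i * (cfn 11 i 2 : ℝ) =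
    220 * γ 0 + 19 * γ 1 + 1 * γ 2 + 0 * γ 3 + 0 * γ 4 + 0 * γ 5 := by
  have h : ((11 / 2 + 1 : ℕ)) = 6 := rfl
  rw [h]
  simp only [sum_range_succ, sum_range_zero, show cfn 11 0 2 = 220 from by decide, show cfn 11 1 2 = 19 from by decide, show cfn 11 2 2 = 1 from by decide, show cfn 11 3 2 = 0 from by decide, show cfn 11 4 2 = 0 from by decide, show cfn 11 5 2 = 0 from by decide, Nat.cast_ofNat, Nat.cast_one, Nat.cast_zero]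
  ring

theorem c11_3 (γ : ℕ → ℝ) : ∑ i ∈ range (11 / 2 + 1), γ i * (cfn 11 i 3 : ℝ) =
    1320 * γ 0 + 162 * γ 1 + 16 * γ 2 + 1 * γ 3 + 0 * γ 4 + 0 * γ 5 := by
  have h : ((11 / 2 + 1 : ℕ)) = 6 := rfl
  rw [h]
  simp only [sum_range_succ, sum_range_zero, show cfn 11 0 3 = 1320 from by decide, show cfn 11 1 3 = 162 from by decide, show cfn 11 2 3 = 16 from by decide, show cfn 11 3 3 = 1 from by decide, show cfn 11 4 3 = 0 from by decide, show cfn 11 5 3 = 0 from by decide, Nat.cast_ofNat, Nat.cast_one, Nat.cast_zero]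
  ring

theorem c11_4 (γ : ℕ → ℝ) : ∑ i ∈ range (11 / 2 + 1), γ i * (cfn 11 i 4 : ℝ) =
    5280 * γ 0 + 816 * γ 1 + 113 * γ 2 + 13 * γ 3 + 1 * γ 4 + 0 * γ 5 := by
  have h : ((11 / 2 + 1 : ℕ)) = 6 := rfl
  rw [h]
  simp only [sum_range_succ, sum_range_zero, show cfn 11 0 4 = 5280 from by decide, show cfn 11 1 4 = 816 from by decide, show cfn 11 2 4 = 113 from by decide, show cfn 11 3 4 = 13 from by decide, show cfn 11 4 4 = 1 from by decide, show cfn 11 5 4 = 0 from by decide, Nat.cast_ofNat, Nat.cast_one, Nat.cast_zero]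
  ring

theorem c11_5 (γ : ℕ → ℝ) : ∑ i ∈ range (11 / 2 + 1), γ i * (cfn 11 i 5 : ℝ) =
    14784 * γ 0 + 2688 * γ 1 + 462 * γ 2 + 73 * γ 3 + 10 * γ 4 + 1 * γ 5 := by
  have h : ((11 / 2 + 1 : ℕ)) = 6 := rfl
  rw [h]
  simp only [sum_range_succ, sum_range_zero, show cfn 11 0 5 = 14784 from by decide, show cfn 11 1 5 = 2688 from by decide, show cfn 11 2 5 = 462 from by decide, show cfn 11 3 5 = 73 from by decide, show cfn 11 4 5 = 10 from by decide, show cfn 11 5 5 = 1 from by decide, Nat.cast_ofNat, Nat.cast_one, Nat.cast_zero]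
  ring

theorem c11_6 (γ : ℕ → ℝ) : ∑ i ∈ range (11 / 2 + 1), γ i * (cfn 11 i 6 : ℝ) =
    29568 * γ 0 + 6048 * γ 1 + 1204 * γ 2 + 231 * γ 3 + 42 * γ 4 + 7 * γ 5 := by
  have h : ((11 / 2 + 1 : ℕ)) = 6 := rfl
  rw [h]
  simp only [sum_range_succ, sum_range_zero, show cfn 11 0 6 = 29568 from by decide, show cfn 11 1 6 = 6048 from by decide, show cfn 11 2 6 = 1204 from by decide, show cfn 11 3 6 = 231 from by decide, show cfn 11 4 6 = 42 from by decide, show cfn 11 5 6 = 7 from by decide, Nat.cast_ofNat, Nat.cast_one, Nat.cast_zero]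
  ring

theorem c11_7 (γ : ℕ → ℝ) : ∑ i ∈ range (11 / 2 + 1), γ i * (cfn 11 i 7 : ℝ) =
    42240 * γ 0 + 9408 * γ 1 + 2072 * γ 2 + 450 * γ 3 + 96 * γ 4 + 20 * γ 5 := by
  have h : ((11 / 2 + 1 : ℕ)) = 6 := rfl
  rw [h]
  simp only [sum_range_succ, sum_range_zero, show cfn 11 0 7 = 42240 from by decide, show cfn 11 1 7 = 9408 from by decide, show cfn 11 2 7 = 2072 from by decide, show cfn 11 3 7 = 450 from by decide, show cfn 11 4 7 = 96 from by decide, show cfn 11 5 7 = 20 from by decide, Nat.cast_ofNat, Nat.cast_one, Nat.cast_zero]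
  ring

theorem c11_8 (γ : ℕ → ℝ) : ∑ i ∈ range (11 / 2 + 1), γ i * (cfn 11 i 8 : ℝ) =
    42240 * γ 0 + 9984 * γ 1 + 2352 * γ 2 + 552 * γ 3 + 129 * γ 4 + 30 * γ 5 := by
  have h : ((11 / 2 + 1 : ℕ)) = 6 := rfl
  rw [h]
  simp only [sum_range_succ, sum_range_zero, show cfn 11 0 8 = 42240 from by decide, show cfn 11 1 8 = 9984 from by decide, show cfn 11 2 8 = 2352 from by decide, show cfn 11 3 8 = 552 from by decide, show cfn 11 4 8 = 129 from by decide, show cfn 11 5 8 = 30 from by decide, Nat.cast_ofNat, Nat.cast_one, Nat.cast_zero]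
  ring

theorem q11_0 (γ : ℕ → ℝ) (h0 : γ 0 = 1)
    (h : ∀ n < 11, 2 * (((11 : ℕ) : ℝ) - ((n : ℕ) : ℝ)) * ∑ i ∈ range (11 / 2 + 1), γ i * (cfn 11 i n : ℝ) ≤
      ((n : ℝ) + 1) * ∑ i ∈ range (11 / 2 + 1), γ i * (cfn 11 i (n + 1) : ℝ)) :
    0 ≤ 0 * γ 0 + 1 * γ 1 + 0 * γ 2 + 0 * γ 3 + 0 * γ 4 + 0 * γ 5 := by
  have h1 := h 0 (by norm_num)
  rw [show 0 + 1 = 1 from rfl, c11_0, c11_1] at h1
  norm_num [h0] at h1 ⊢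
  linarith

theorem q11_1 (γ : ℕ → ℝ) (h0 : γ 0 = 1)
    (h : ∀ n < 11, 2 * (((11 : ℕ) : ℝ) - ((n : ℕ) : ℝ)) * ∑ i ∈ range (11 / 2 + 1), γ i * (cfn 11 i n : ℝ) ≤
      ((n : ℝ) + 1) * ∑ i ∈ range (11 / 2 + 1), γ i * (cfn 11 i (n + 1) : ℝ)) :
    0 ≤ 0 * γ 0 + 18 * γ 1 + 2 * γ 2 + 0 * γ 3 + 0 * γ 4 + 0 * γ 5 := by
  have h1 := h 1 (by norm_num)
  rw [show 1 + 1 = 2 from rfl, c11_1, c11_2] at h1
  norm_num [h0] at h1 ⊢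
  linarith

theorem q11_2 (γ : ℕ → ℝ) (h0 : γ 0 = 1)
    (h : ∀ n < 11, 2 * (((11 : ℕ) : ℝ) - ((n : ℕ) : ℝ)) * ∑ i ∈ range (11 / 2 + 1), γ i * (cfn 11 i n : ℝ) ≤
      ((n : ℝ) + 1) * ∑ i ∈ range (11 / 2 + 1), γ i * (cfn 11 i (n + 1) : ℝ)) :
    0 ≤ 0 * γ 0 + 144 * γ 1 + 30 * γ 2 + 3 * γ 3 + 0 * γ 4 + 0 * γ 5 := by
  have h1 := h 2 (by norm_num)
  rw [show 2 + 1 = 3 from rfl, c11_2, c11_3] at h1
  norm_num [h0] at h1 ⊢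
  linarith

theorem q11_3 (γ : ℕ → ℝ) (h0 : γ 0 = 1)
    (h : ∀ n < 11, 2 * (((11 : ℕ) : ℝ) - ((n : ℕ) : ℝ)) * ∑ i ∈ range (11 / 2 + 1), γ i * (cfn 11 i n : ℝ) ≤
      ((n : ℝ) + 1) * ∑ i ∈ range (11 / 2 + 1), γ i * (cfn 11 i (n + 1) : ℝ)) :
    0 ≤ 0 * γ 0 + 672 * γ 1 + 196 * γ 2 + 36 * γ 3 + 4 * γ 4 + 0 * γ 5 := by
  have h1 := h 3 (by norm_num)
  rw [show 3 + 1 = 4 from rfl, c11_3, c11_4] at h1
  norm_num [h0] at h1 ⊢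
  linarith

theorem q11_4 (γ : ℕ → ℝ) (h0 : γ 0 = 1)
    (h : ∀ n < 11, 2 * (((11 : ℕ) : ℝ) - ((n : ℕ) : ℝ)) * ∑ i ∈ range (11 / 2 + 1), γ i * (cfn 11 i n : ℝ) ≤
      ((n : ℝ) + 1) * ∑ i ∈ range (11 / 2 + 1), γ i * (cfn 11 i (n + 1) : ℝ)) :
    0 ≤ 0 * γ 0 + 2016 * γ 1 + 728 * γ 2 + 183 * γ 3 + 36 * γ 4 + 5 * γ 5 := by
  have h1 := h 4 (by norm_num)
  rw [show 4 + 1 = 5 from rfl, c11_4, c11_5] at h1
  norm_num [h0] at h1 ⊢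
  linarith

theorem q11_5 (γ : ℕ → ℝ) (h0 : γ 0 = 1)
    (h : ∀ n < 11, 2 * (((11 : ℕ) : ℝ) - ((n : ℕ) : ℝ)) * ∑ i ∈ range (11 / 2 + 1), γ i * (cfn 11 i n : ℝ) ≤
      ((n : ℝ) + 1) * ∑ i ∈ range (11 / 2 + 1), γ i * (cfn 11 i (n + 1) : ℝ)) :
    0 ≤ 0 * γ 0 + 4032 * γ 1 + 1680 * γ 2 + 510 * γ 3 + 132 * γ 4 + 30 * γ 5 := by
  have h1 := h 5 (by norm_num)
  rw [show 5 + 1 = 6 from rfl, c11_5, c11_6] at h1
  norm_num [h0] at h1 ⊢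
  linarith

theorem q11_6 (γ : ℕ → ℝ) (h0 : γ 0 = 1)
    (h : ∀ n < 11, 2 * (((11 : ℕ) : ℝ) - ((n : ℕ) : ℝ)) * ∑ i ∈ range (11 / 2 + 1), γ i * (cfn 11 i n : ℝ) ≤
      ((n : ℝ) + 1) * ∑ i ∈ range (11 / 2 + 1), γ i * (cfn 11 i (n + 1) : ℝ)) :
    0 ≤ 0 * γ 0 + 5376 * γ 1 + 2464 * γ 2 + 840 * γ 3 + 252 * γ 4 + 70 * γ 5 := by
  have h1 := h 6 (by norm_num)
  rw [show 6 + 1 = 7 from rfl, c11_6, c11_7] at h1
  norm_num [h0] at h1 ⊢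
  linarith

theorem q11_7 (γ : ℕ → ℝ) (h0 : γ 0 = 1)
    (h : ∀ n < 11, 2 * (((11 : ℕ) : ℝ) - ((n : ℕ) : ℝ)) * ∑ i ∈ range (11 / 2 + 1), γ i * (cfn 11 i n : ℝ) ≤
      ((n : ℝ) + 1) * ∑ i ∈ range (11 / 2 + 1), γ i * (cfn 11 i (n + 1) : ℝ)) :
    0 ≤ 0 * γ 0 + 4608 * γ 1 + 2240 * γ 2 + 816 * γ 3 + 264 * γ 4 + 80 * γ 5 := by
  have h1 := h 7 (by norm_num)
  rw [show 7 + 1 = 8 from rfl, c11_7, c11_8] at h1
  norm_num [h0] at h1 ⊢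
  linarith

theorem m11_0 (γ : ℕ → ℝ) : Mat 11 γ 0 = 1 * γ 0 + 0 * γ 1 + 0 * γ 2 + 0 * γ 3 + 0 * γ 4 + 0 * γ 5 := by
  unfold Mat
  rw [show (11 / 2 + 1 : ℕ) = 6 from rfl]
  simp [sum_range_succ, Nat.choose]
  try ring

theorem m11_1 (γ : ℕ → ℝ) : Mat 11 γ 1 = 220 * γ 0 + 20 * γ 1 + 1 * γ 2 + 0 * γ 3 + 0 * γ 4 + 0 * γ 5 := by
  unfold Mat
  rw [show (11 / 2 + 1 : ℕ) = 6 from rfl]
  simp [sum_range_succ, Nat.choose]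
  try ring

theorem m11_2 (γ : ℕ → ℝ) : Mat 11 γ 2 = 5280 * γ 0 + 960 * γ 1 + 144 * γ 2 + 16 * γ 3 + 1 * γ 4 + 0 * γ 5 := by
  unfold Mat
  rw [show (11 / 2 + 1 : ℕ) = 6 from rfl]
  simp [sum_range_succ, Nat.choose]
  try ring

theorem m11_3 (γ : ℕ → ℝ) : Mat 11 γ 3 = 29568 * γ 0 + 8064 * γ 1 + 2016 * γ 2 + 448 * γ 3 + 84 * γ 4 + 12 * γ 5 := by
  unfold Mat
  rw [show (11 / 2 + 1 : ℕ) = 6 from rfl]
  simp [sum_range_succ, Nat.choose]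
  try ring

theorem m11_4 (γ : ℕ → ℝ) : Mat 11 γ 4 = 42240 * γ 0 + 15360 * γ 1 + 5376 * γ 2 + 1792 * γ 3 + 560 * γ 4 + 160 * γ 5 := by
  unfold Mat
  rw [show (11 / 2 + 1 : ℕ) = 6 from rfl]
  simp [sum_range_succ, Nat.choose]
  try ring

theorem m11_5 (γ : ℕ → ℝ) : Mat 11 γ 5 = 11264 * γ 0 + 5120 * γ 1 + 2304 * γ 2 + 1024 * γ 3 + 448 * γ 4 + 192 * γ 5 := by
  unfold Mat
  rw [show (11 / 2 + 1 : ℕ) = 6 from rfl]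
  simp [sum_range_succ, Nat.choose]
  try ring

theorem main11 (γ : ℕ → ℝ) (h0 : γ 0 = 1)
    (h : ∀ n < 11, 2 * (((11 : ℕ) : ℝ) - ((n : ℕ) : ℝ)) * ∑ i ∈ range (11 / 2 + 1), γ i * (cfn 11 i n : ℝ) ≤
      ((n : ℝ) + 1) * ∑ i ∈ range (11 / 2 + 1), γ i * (cfn 11 i (n + 1) : ℝ)) :
    ∀ j ≤ 11 / 2, ((11 : ℕ) ≤ 5 → 0 < Mat 11 γ j) ∧ 0 < Mat 11 (Mat 11 γ) j := by
  have k0 := q11_0 γ h0 h
  have k1 := q11_1 γ h0 h
  have k2 := q11_2 γ h0 h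
  have k3 := q11_3 γ h0 h
  have k4 := q11_4 γ h0 h
  have k5 := q11_5 γ h0 h
  have k6 := q11_6 γ h0 h
  have k7 := q11_7 γ h0 h
  intro j hj
  have hj' : j ≤ 5 := hj
  clear hj h
  interval_cases j
  · refine ⟨fun h5 => absurd h5 (by norm_num), ?_⟩
    rw [m11_0]
    simp only [m11_0, m11_1, m11_2, m11_3, m11_4, m11_5, h0]
    linarith []
  · refine ⟨fun h5 => absurd h5 (by norm_num), ?_⟩
    rw [m11_1]
    simp only [m11_0, m11_1, m11_2, m11_3, m11_4, m11_5, h0]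
    linarith [k0, k1, k2, k3]
  · refine ⟨fun h5 => absurd h5 (by norm_num), ?_⟩
    rw [m11_2]
    simp only [m11_0, m11_1, m11_2, m11_3, m11_4, m11_5, h0]
    linarith [k0, k1, k2, k4, k5]
  · refine ⟨fun h5 => absurd h5 (by norm_num), ?_⟩
    rw [m11_3]
    simp only [m11_0, m11_1, m11_2, m11_3, m11_4, m11_5, h0]
    linarith [k0, k1, k2, k5, k6]
  · refine ⟨fun h5 => absurd h5 (by norm_num), ?_⟩
    rw [m11_4]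
    simp only [m11_0, m11_1, m11_2, m11_3, m11_4, m11_5, h0]
    linarith [k0, k1, k2, k5, k6]
  · refine ⟨fun h5 => absurd h5 (by norm_num), ?_⟩
    rw [m11_5]
    simp only [m11_0, m11_1, m11_2, m11_3, m11_4, m11_5, h0]
    linarith [k0, k1, k2, k6, k7]

theorem c12_0 (γ : ℕ → ℝ) : ∑ i ∈ range (12 / 2 + 1), γ i * (cfn 12 i 0 : ℝ) =
    1 * γ 0 + 0 * γ 1 + 0 * γ 2 + 0 * γ 3 + 0 * γ 4 + 0 * γ 5 + 0 * γ 6 := by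
  have h : ((12 / 2 + 1 : ℕ)) = 7 := rfl
  rw [h]
  simp only [sum_range_succ, sum_range_zero, show cfn 12 0 0 = 1 from by decide, show cfn 12 1 0 = 0 from by decide, show cfn 12 2 0 = 0 from by decide, show cfn 12 3 0 = 0 from by decide, show cfn 12 4 0 = 0 from by decide, show cfn 12 5 0 = 0 from by decide, show cfn 12 6 0 = 0 from by decide, Nat.cast_ofNat, Nat.cast_one, Nat.cast_zero]
  ring

theorem c12_1 (γ : ℕ → ℝ) : ∑ i ∈ range (12 / 2 + 1), γ i * (cfn 12 i 1 : ℝ) =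
    24 * γ 0 + 1 * γ 1 + 0 * γ 2 + 0 * γ 3 + 0 * γ 4 + 0 * γ 5 + 0 * γ 6 := by
  have h : ((12 / 2 + 1 : ℕ)) = 7 := rfl
  rw [h]
  simp only [sum_range_succ, sum_range_zero, show cfn 12 0 1 = 24 from by decide, show cfn 12 1 1 = 1 from by decide, show cfn 12 2 1 = 0 from by decide, show cfn 12 3 1 = 0 from by decide, show cfn 12 4 1 = 0 from by decide, show cfn 12 5 1 = 0 from by decide, show cfn 12 6 1 = 0 from by decide, Nat.cast_ofNat, Nat.cast_one, Nat.cast_zero]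
  ring

theorem c12_2 (γ : ℕ → ℝ) : ∑ i ∈ range (12 / 2 + 1), γ i * (cfn 12 i 2 : ℝ) =
    264 * γ 0 + 21 * γ 1 + 1 * γ 2 + 0 * γ 3 + 0 * γ 4 + 0 * γ 5 + 0 * γ 6 := by
  have h : ((12 / 2 + 1 : ℕ)) = 7 := rfl
  rw [h]
  simp only [sum_range_succ, sum_range_zero, show cfn 12 0 2 = 264 from by decide, show cfn 12 1 2 = 21 from by decide, show cfn 12 2 2 = 1 from by decide, show cfn 12 3 2 = 0 from by decide, show cfn 12 4 2 = 0 from by decide, show cfn 12 5 2 = 0 from by decide, show cfn 12 6 2 = 0 from by decide, Nat.cast_ofNat, Nat.cast_one, Nat.cast_zero]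
  ring

theorem c12_3 (γ : ℕ → ℝ) : ∑ i ∈ range (12 / 2 + 1), γ i * (cfn 12 i 3 : ℝ) =
    1760 * γ 0 + 200 * γ 1 + 18 * γ 2 + 1 * γ 3 + 0 * γ 4 + 0 * γ 5 + 0 * γ 6 := by
  have h : ((12 / 2 + 1 : ℕ)) = 7 := rfl
  rw [h]
  simp only [sum_range_succ, sum_range_zero, show cfn 12 0 3 = 1760 from by decide, show cfn 12 1 3 = 200 from by decide, show cfn 12 2 3 = 18 from by decide, show cfn 12 3 3 = 1 from by decide, show cfn 12 4 3 = 0 from by decide, show cfn 12 5 3 = 0 from by decide, show cfn 12 6 3 = 0 from by decide, Nat.cast_ofNat, Nat.cast_one, Nat.cast_zero]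
  ring

theorem c12_4 (γ : ℕ → ℝ) : ∑ i ∈ range (12 / 2 + 1), γ i * (cfn 12 i 4 : ℝ) =
    7920 * γ 0 + 1140 * γ 1 + 145 * γ 2 + 15 * γ 3 + 1 * γ 4 + 0 * γ 5 + 0 * γ 6 := by
  have h : ((12 / 2 + 1 : ℕ)) = 7 := rfl
  rw [h]
  simp only [sum_range_succ, sum_range_zero, show cfn 12 0 4 = 7920 from by decide, show cfn 12 1 4 = 1140 from by decide, show cfn 12 2 4 = 145 from by decide, show cfn 12 3 4 = 15 from by decide, show cfn 12 4 4 = 1 from by decide, show cfn 12 5 4 = 0 from by decide, show cfn 12 6 4 = 0 from by decide, Nat.cast_ofNat, Nat.cast_one, Nat.cast_zero]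
  ring

theorem c12_5 (γ : ℕ → ℝ) : ∑ i ∈ range (12 / 2 + 1), γ i * (cfn 12 i 5 : ℝ) =
    25344 * γ 0 + 4320 * γ 1 + 688 * γ 2 + 99 * γ 3 + 12 * γ 4 + 1 * γ 5 + 0 * γ 6 := by
  have h : ((12 / 2 + 1 : ℕ)) = 7 := rfl
  rw [h]
  simp only [sum_range_succ, sum_range_zero, show cfn 12 0 5 = 25344 from by decide, show cfn 12 1 5 = 4320 from by decide, show cfn 12 2 5 = 688 from by decide, show cfn 12 3 5 = 99 from by decide, show cfn 12 4 5 = 12 from by decide, show cfn 12 5 5 = 1 from by decide, show cfn 12 6 5 = 0 from by decide, Nat.cast_ofNat, Nat.cast_one, Nat.cast_zero]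
  ring

theorem c12_6 (γ : ℕ → ℝ) : ∑ i ∈ range (12 / 2 + 1), γ i * (cfn 12 i 6 : ℝ) =
    59136 * γ 0 + 11424 * γ 1 + 2128 * γ 2 + 377 * γ 3 + 62 * γ 4 + 9 * γ 5 + 1 * γ 6 := by
  have h : ((12 / 2 + 1 : ℕ)) = 7 := rfl
  rw [h]
  simp only [sum_range_succ, sum_range_zero, show cfn 12 0 6 = 59136 from by decide, show cfn 12 1 6 = 11424 from by decide, show cfn 12 2 6 = 2128 from by decide, show cfn 12 3 6 = 377 from by decide, show cfn 12 4 6 = 62 from by decide, show cfn 12 5 6 = 9 from by decide, show cfn 12 6 6 = 1 from by decide, Nat.cast_ofNat, Nat.cast_one, Nat.cast_zero]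
  ring

theorem c12_7 (γ : ℕ → ℝ) : ∑ i ∈ range (12 / 2 + 1), γ i * (cfn 12 i 7 : ℝ) =
    101376 * γ 0 + 21504 * γ 1 + 4480 * γ 2 + 912 * γ 3 + 180 * γ 4 + 34 * γ 5 + 6 * γ 6 := by
  have h : ((12 / 2 + 1 : ℕ)) = 7 := rfl
  rw [h]
  simp only [sum_range_succ, sum_range_zero, show cfn 12 0 7 = 101376 from by decide, show cfn 12 1 7 = 21504 from by decide, show cfn 12 2 7 = 4480 from by decide, show cfn 12 3 7 = 912 from by decide, show cfn 12 4 7 = 180 from by decide, show cfn 12 5 7 = 34 from by decide, show cfn 12 6 7 = 6 from by decide, Nat.cast_ofNat, Nat.cast_one, Nat.cast_zero]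
  ring

theorem c12_8 (γ : ℕ → ℝ) : ∑ i ∈ range (12 / 2 + 1), γ i * (cfn 12 i 8 : ℝ) =
    126720 * γ 0 + 28800 * γ 1 + 6496 * γ 2 + 1452 * γ 3 + 321 * γ 4 + 70 * γ 5 + 15 * γ 6 := by
  have h : ((12 / 2 + 1 : ℕ)) = 7 := rfl
  rw [h]
  simp only [sum_range_succ, sum_range_zero, show cfn 12 0 8 = 126720 from by decide, show cfn 12 1 8 = 28800 from by decide, show cfn 12 2 8 = 6496 from by decide, show cfn 12 3 8 = 1452 from by decide, show cfn 12 4 8 = 321 from by decide, show cfn 12 5 8 = 70 from by decide, show cfn 12 6 8 = 15 from by decide, Nat.cast_ofNat, Nat.cast_one, Nat.cast_zero]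
  ring

theorem c12_9 (γ : ℕ → ℝ) : ∑ i ∈ range (12 / 2 + 1), γ i * (cfn 12 i 9 : ℝ) =
    112640 * γ 0 + 26880 * γ 1 + 6400 * γ 2 + 1520 * γ 3 + 360 * γ 4 + 85 * γ 5 + 20 * γ 6 := by
  have h : ((12 / 2 + 1 : ℕ)) = 7 := rfl
  rw [h]
  simp only [sum_range_succ, sum_range_zero, show cfn 12 0 9 = 112640 from by decide, show cfn 12 1 9 = 26880 from by decide, show cfn 12 2 9 = 6400 from by decide, show cfn 12 3 9 = 1520 from by decide, show cfn 12 4 9 = 360 from by decide, show cfn 12 5 9 = 85 from by decide, show cfn 12 6 9 = 20 from by decide, Nat.cast_ofNat, Nat.cast_one, Nat.cast_zero]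
  ring

theorem c12_10 (γ : ℕ → ℝ) : ∑ i ∈ range (12 / 2 + 1), γ i * (cfn 12 i 10 : ℝ) =
    67584 * γ 0 + 16640 * γ 1 + 4096 * γ 2 + 1008 * γ 3 + 248 * γ 4 + 61 * γ 5 + 15 * γ 6 := by
  have h : ((12 / 2 + 1 : ℕ)) = 7 := rfl
  rw [h]
  simp only [sum_range_succ, sum_range_zero, show cfn 12 0 10 = 67584 from by decide, show cfn 12 1 10 = 16640 from by decide, show cfn 12 2 10 = 4096 from by decide, show cfn 12 3 10 = 1008 from by decide, show cfn 12 4 10 = 248 from by decide, show cfn 12 5 10 = 61 from by decide, show cfn 12 6 10 = 15 from by decide, Nat.cast_ofNat, Nat.cast_one, Nat.cast_zero]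
  ring

theorem q12_0 (γ : ℕ → ℝ) (h0 : γ 0 = 1)
    (h : ∀ n < 12, 2 * (((12 : ℕ) : ℝ) - ((n : ℕ) : ℝ)) * ∑ i ∈ range (12 / 2 + 1), γ i * (cfn 12 i n : ℝ) ≤
      ((n : ℝ) + 1) * ∑ i ∈ range (12 / 2 + 1), γ i * (cfn 12 i (n + 1) : ℝ)) :
    0 ≤ 0 * γ 0 + 1 * γ 1 + 0 * γ 2 + 0 * γ 3 + 0 * γ 4 + 0 * γ 5 + 0 * γ 6 := by
  have h1 := h 0 (by norm_num)
  rw [show 0 + 1 = 1 from rfl, c12_0, c12_1] at h1
  norm_num [h0] at h1 ⊢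
  linarith

theorem q12_1 (γ : ℕ → ℝ) (h0 : γ 0 = 1)
    (h : ∀ n < 12, 2 * (((12 : ℕ) : ℝ) - ((n : ℕ) : ℝ)) * ∑ i ∈ range (12 / 2 + 1), γ i * (cfn 12 i n : ℝ) ≤
      ((n : ℝ) + 1) * ∑ i ∈ range (12 / 2 + 1), γ i * (cfn 12 i (n + 1) : ℝ)) :
    0 ≤ 0 * γ 0 + 20 * γ 1 + 2 * γ 2 + 0 * γ 3 + 0 * γ 4 + 0 * γ 5 + 0 * γ 6 := by
  have h1 := h 1 (by norm_num)
  rw [show 1 + 1 = 2 from rfl, c12_1, c12_2] at h1
  norm_num [h0] at h1 ⊢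
  linarith

theorem q12_2 (γ : ℕ → ℝ) (h0 : γ 0 = 1)
    (h : ∀ n < 12, 2 * (((12 : ℕ) : ℝ) - ((n : ℕ) : ℝ)) * ∑ i ∈ range (12 / 2 + 1), γ i * (cfn 12 i n : ℝ) ≤
      ((n : ℝ) + 1) * ∑ i ∈ range (12 / 2 + 1), γ i * (cfn 12 i (n + 1) : ℝ)) :
    0 ≤ 0 * γ 0 + 180 * γ 1 + 34 * γ 2 + 3 * γ 3 + 0 * γ 4 + 0 * γ 5 + 0 * γ 6 := by
  have h1 := h 2 (by norm_num)
  rw [show 2 + 1 = 3 from rfl, c12_2, c12_3] at h1
  norm_num [h0] at h1 ⊢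
  linarith

theorem q12_3 (γ : ℕ → ℝ) (h0 : γ 0 = 1)
    (h : ∀ n < 12, 2 * (((12 : ℕ) : ℝ) - ((n : ℕ) : ℝ)) * ∑ i ∈ range (12 / 2 + 1), γ i * (cfn 12 i n : ℝ) ≤
      ((n : ℝ) + 1) * ∑ i ∈ range (12 / 2 + 1), γ i * (cfn 12 i (n + 1) : ℝ)) :
    0 ≤ 0 * γ 0 + 960 * γ 1 + 256 * γ 2 + 42 * γ 3 + 4 * γ 4 + 0 * γ 5 + 0 * γ 6 := by
  have h1 := h 3 (by norm_num)
  rw [show 3 + 1 = 4 from rfl, c12_3, c12_4] at h1
  norm_num [h0] at h1 ⊢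
  linarith

theorem q12_4 (γ : ℕ → ℝ) (h0 : γ 0 = 1)
    (h : ∀ n < 12, 2 * (((12 : ℕ) : ℝ) - ((n : ℕ) : ℝ)) * ∑ i ∈ range (12 / 2 + 1), γ i * (cfn 12 i n : ℝ) ≤
      ((n : ℝ) + 1) * ∑ i ∈ range (12 / 2 + 1), γ i * (cfn 12 i (n + 1) : ℝ)) :
    0 ≤ 0 * γ 0 + 3360 * γ 1 + 1120 * γ 2 + 255 * γ 3 + 44 * γ 4 + 5 * γ 5 + 0 * γ 6 := by
  have h1 := h 4 (by norm_num)
  rw [show 4 + 1 = 5 from rfl, c12_4, c12_5] at h1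
  norm_num [h0] at h1 ⊢
  linarith

theorem q12_5 (γ : ℕ → ℝ) (h0 : γ 0 = 1)
    (h : ∀ n < 12, 2 * (((12 : ℕ) : ℝ) - ((n : ℕ) : ℝ)) * ∑ i ∈ range (12 / 2 + 1), γ i * (cfn 12 i n : ℝ) ≤
      ((n : ℝ) + 1) * ∑ i ∈ range (12 / 2 + 1), γ i * (cfn 12 i (n + 1) : ℝ)) :
    0 ≤ 0 * γ 0 + 8064 * γ 1 + 3136 * γ 2 + 876 * γ 3 + 204 * γ 4 + 40 * γ 5 + 6 * γ 6 := by
  have h1 := h 5 (by norm_num)
  rw [show 5 + 1 = 6 from rfl, c12_5, c12_6] at h1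
  norm_num [h0] at h1 ⊢
  linarith

theorem q12_6 (γ : ℕ → ℝ) (h0 : γ 0 = 1)
    (h : ∀ n < 12, 2 * (((12 : ℕ) : ℝ) - ((n : ℕ) : ℝ)) * ∑ i ∈ range (12 / 2 + 1), γ i * (cfn 12 i n : ℝ) ≤
      ((n : ℝ) + 1) * ∑ i ∈ range (12 / 2 + 1), γ i * (cfn 12 i (n + 1) : ℝ)) :
    0 ≤ 0 * γ 0 + 13440 * γ 1 + 5824 * γ 2 + 1860 * γ 3 + 516 * γ 4 + 130 * γ 5 + 30 * γ 6 := by
  have h1 := h 6 (by norm_num)
  rw [show 6 + 1 = 7 from rfl, c12_6, c12_7] at h1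
  norm_num [h0] at h1 ⊢
  linarith

theorem q12_7 (γ : ℕ → ℝ) (h0 : γ 0 = 1)
    (h : ∀ n < 12, 2 * (((12 : ℕ) : ℝ) - ((n : ℕ) : ℝ)) * ∑ i ∈ range (12 / 2 + 1), γ i * (cfn 12 i n : ℝ) ≤
      ((n : ℝ) + 1) * ∑ i ∈ range (12 / 2 + 1), γ i * (cfn 12 i (n + 1) : ℝ)) :
    0 ≤ 0 * γ 0 + 15360 * γ 1 + 7168 * γ 2 + 2496 * γ 3 + 768 * γ 4 + 220 * γ 5 + 60 * γ 6 := by
  have h1 := h 7 (by norm_num)
  rw [show 7 + 1 = 8 from rfl, c12_7, c12_8] at h1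
  norm_num [h0] at h1 ⊢
  linarith

theorem q12_8 (γ : ℕ → ℝ) (h0 : γ 0 = 1)
    (h : ∀ n < 12, 2 * (((12 : ℕ) : ℝ) - ((n : ℕ) : ℝ)) * ∑ i ∈ range (12 / 2 + 1), γ i * (cfn 12 i n : ℝ) ≤
      ((n : ℝ) + 1) * ∑ i ∈ range (12 / 2 + 1), γ i * (cfn 12 i (n + 1) : ℝ)) :
    0 ≤ 0 * γ 0 + 11520 * γ 1 + 5632 * γ 2 + 2064 * γ 3 + 672 * γ 4 + 205 * γ 5 + 60 * γ 6 := by
  have h1 := h 8 (by norm_num)
  rw [show 8 + 1 = 9 from rfl, c12_8, c12_9] at h1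
  norm_num [h0] at h1 ⊢
  linarith

theorem q12_9 (γ : ℕ → ℝ) (h0 : γ 0 = 1)
    (h : ∀ n < 12, 2 * (((12 : ℕ) : ℝ) - ((n : ℕ) : ℝ)) * ∑ i ∈ range (12 / 2 + 1), γ i * (cfn 12 i n : ℝ) ≤
      ((n : ℝ) + 1) * ∑ i ∈ range (12 / 2 + 1), γ i * (cfn 12 i (n + 1) : ℝ)) :
    0 ≤ 0 * γ 0 + 5120 * γ 1 + 2560 * γ 2 + 960 * γ 3 + 320 * γ 4 + 100 * γ 5 + 30 * γ 6 := by
  have h1 := h 9 (by norm_num)
  rw [show 9 + 1 = 10 from rfl, c12_9, c12_10] at h1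
  norm_num [h0] at h1 ⊢
  linarith

theorem m12_0 (γ : ℕ → ℝ) : Mat 12 γ 0 = 1 * γ 0 + 0 * γ 1 + 0 * γ 2 + 0 * γ 3 + 0 * γ 4 + 0 * γ 5 + 0 * γ 6 := by
  unfold Mat
  rw [show (12 / 2 + 1 : ℕ) = 7 from rfl]
  simp [sum_range_succ, Nat.choose]
  try ring

theorem m12_1 (γ : ℕ → ℝ) : Mat 12 γ 1 = 264 * γ 0 + 22 * γ 1 + 1 * γ 2 + 0 * γ 3 + 0 * γ 4 + 0 * γ 5 + 0 * γ 6 := by
  unfold Mat
  rw [show (12 / 2 + 1 : ℕ) = 7 from rfl]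
  simp [sum_range_succ, Nat.choose]
  try ring

theorem m12_2 (γ : ℕ → ℝ) : Mat 12 γ 2 = 7920 * γ 0 + 1320 * γ 1 + 180 * γ 2 + 18 * γ 3 + 1 * γ 4 + 0 * γ 5 + 0 * γ 6 := by
  unfold Mat
  rw [show (12 / 2 + 1 : ℕ) = 7 from rfl]
  simp [sum_range_succ, Nat.choose]
  try ring

theorem m12_3 (γ : ℕ → ℝ) : Mat 12 γ 3 = 59136 * γ 0 + 14784 * γ 1 + 3360 * γ 2 + 672 * γ 3 + 112 * γ 4 + 14 * γ 5 + 1 * γ 6 := by
  unfold Mat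
  rw [show (12 / 2 + 1 : ℕ) = 7 from rfl]
  simp [sum_range_succ, Nat.choose]
  try ring

theorem m12_4 (γ : ℕ → ℝ) : Mat 12 γ 4 = 126720 * γ 0 + 42240 * γ 1 + 13440 * γ 2 + 4032 * γ 3 + 1120 * γ 4 + 280 * γ 5 + 60 * γ 6 := by
  unfold Mat
  rw [show (12 / 2 + 1 : ℕ) = 7 from rfl]
  simp [sum_range_succ, Nat.choose]
  try ring

theorem m12_5 (γ : ℕ → ℝ) : Mat 12 γ 5 = 67584 * γ 0 + 28160 * γ 1 + 11520 * γ 2 + 4608 * γ 3 + 1792 * γ 4 + 672 * γ 5 + 240 * γ 6 := by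
  unfold Mat
  rw [show (12 / 2 + 1 : ℕ) = 7 from rfl]
  simp [sum_range_succ, Nat.choose]
  try ring

theorem m12_6 (γ : ℕ → ℝ) : Mat 12 γ 6 = 4096 * γ 0 + 2048 * γ 1 + 1024 * γ 2 + 512 * γ 3 + 256 * γ 4 + 128 * γ 5 + 64 * γ 6 := by
  unfold Mat
  rw [show (12 / 2 + 1 : ℕ) = 7 from rfl]
  simp [sum_range_succ, Nat.choose]
  try ring

theorem main12 (γ : ℕ → ℝ) (h0 : γ 0 = 1)
    (h : ∀ n < 12, 2 * (((12 : ℕ) : ℝ) - ((n : ℕ) : ℝ)) * ∑ i ∈ range (12 / 2 + 1), γ i * (cfn 12 i n : ℝ) ≤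
      ((n : ℝ) + 1) * ∑ i ∈ range (12 / 2 + 1), γ i * (cfn 12 i (n + 1) : ℝ)) :
    ∀ j ≤ 12 / 2, ((12 : ℕ) ≤ 5 → 0 < Mat 12 γ j) ∧ 0 < Mat 12 (Mat 12 γ) j := by
  have k0 := q12_0 γ h0 h
  have k1 := q12_1 γ h0 h
  have k2 := q12_2 γ h0 h
  have k3 := q12_3 γ h0 h
  have k4 := q12_4 γ h0 h
  have k5 := q12_5 γ h0 h
  have k6 := q12_6 γ h0 h
  have k7 := q12_7 γ h0 h
  have k8 := q12_8 γ h0 h
  have k9 := q12_9 γ h0 h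
  intro j hj
  have hj' : j ≤ 6 := hj
  clear hj h
  interval_cases j
  · refine ⟨fun h5 => absurd h5 (by norm_num), ?_⟩
    rw [m12_0]
    simp only [m12_0, m12_1, m12_2, m12_3, m12_4, m12_5, m12_6, h0]
    linarith []
  · refine ⟨fun h5 => absurd h5 (by norm_num), ?_⟩
    rw [m12_1]
    simp only [m12_0, m12_1, m12_2, m12_3, m12_4, m12_5, m12_6, h0]
    linarith [k0, k1, k2, k3]
  · refine ⟨fun h5 => absurd h5 (by norm_num), ?_⟩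
    rw [m12_2]
    simp only [m12_0, m12_1, m12_2, m12_3, m12_4, m12_5, m12_6, h0]
    linarith [k0, k1, k2, k3, k4, k5]
  · refine ⟨fun h5 => absurd h5 (by norm_num), ?_⟩
    rw [m12_3]
    simp only [m12_0, m12_1, m12_2, m12_3, m12_4, m12_5, m12_6, h0]
    linarith [k0, k1, k2, k3, k5, k6]
  · refine ⟨fun h5 => absurd h5 (by norm_num), ?_⟩
    rw [m12_4]
    simp only [m12_0, m12_1, m12_2, m12_3, m12_4, m12_5, m12_6, h0]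
    linarith [k0, k1, k2, k3, k6, k7]
  · refine ⟨fun h5 => absurd h5 (by norm_num), ?_⟩
    rw [m12_5]
    simp only [m12_0, m12_1, m12_2, m12_3, m12_4, m12_5, m12_6, h0]
    linarith [k0, k1, k2, k3, k7, k8]
  · refine ⟨fun h5 => absurd h5 (by norm_num), ?_⟩
    rw [m12_6]
    simp only [m12_0, m12_1, m12_2, m12_3, m12_4, m12_5, m12_6, h0]
    linarith [k0, k1, k2, k3, k8, k9]

theorem c13_0 (γ : ℕ → ℝ) : ∑ i ∈ range (13 / 2 + 1), γ i * (cfn 13 i 0 : ℝ) =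
    1 * γ 0 + 0 * γ 1 + 0 * γ 2 + 0 * γ 3 + 0 * γ 4 + 0 * γ 5 + 0 * γ 6 := by
  have h : ((13 / 2 + 1 : ℕ)) = 7 := rfl
  rw [h]
  simp only [sum_range_succ, sum_range_zero, show cfn 13 0 0 = 1 from by decide, show cfn 13 1 0 = 0 from by decide, show cfn 13 2 0 = 0 from by decide, show cfn 13 3 0 = 0 from by decide, show cfn 13 4 0 = 0 from by decide, show cfn 13 5 0 = 0 from by decide, show cfn 13 6 0 = 0 from by decide, Nat.cast_ofNat, Nat.cast_one, Nat.cast_zero]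
  ring

theorem c13_1 (γ : ℕ → ℝ) : ∑ i ∈ range (13 / 2 + 1), γ i * (cfn 13 i 1 : ℝ) =
    26 * γ 0 + 1 * γ 1 + 0 * γ 2 + 0 * γ 3 + 0 * γ 4 + 0 * γ 5 + 0 * γ 6 := by
  have h : ((13 / 2 + 1 : ℕ)) = 7 := rfl
  rw [h]
  simp only [sum_range_succ, sum_range_zero, show cfn 13 0 1 = 26 from by decide, show cfn 13 1 1 = 1 from by decide, show cfn 13 2 1 = 0 from by decide, show cfn 13 3 1 = 0 from by decide, show cfn 13 4 1 = 0 from by decide, show cfn 13 5 1 = 0 from by decide, show cfn 13 6 1 = 0 from by decide, Nat.cast_ofNat, Nat.cast_one, Nat.cast_zero]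
  ring

theorem c13_2 (γ : ℕ → ℝ) : ∑ i ∈ range (13 / 2 + 1), γ i * (cfn 13 i 2 : ℝ) =
    312 * γ 0 + 23 * γ 1 + 1 * γ 2 + 0 * γ 3 + 0 * γ 4 + 0 * γ 5 + 0 * γ 6 := by
  have h : ((13 / 2 + 1 : ℕ)) = 7 := rfl
  rw [h]
  simp only [sum_range_succ, sum_range_zero, show cfn 13 0 2 = 312 from by decide, show cfn 13 1 2 = 23 from by decide, show cfn 13 2 2 = 1 from by decide, show cfn 13 3 2 = 0 from by decide, show cfn 13 4 2 = 0 from by decide, show cfn 13 5 2 = 0 from by decide, show cfn 13 6 2 = 0 from by decide, Nat.cast_ofNat, Nat.cast_one, Nat.cast_zero]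
  ring

theorem c13_3 (γ : ℕ → ℝ) : ∑ i ∈ range (13 / 2 + 1), γ i * (cfn 13 i 3 : ℝ) =
    2288 * γ 0 + 242 * γ 1 + 20 * γ 2 + 1 * γ 3 + 0 * γ 4 + 0 * γ 5 + 0 * γ 6 := by
  have h : ((13 / 2 + 1 : ℕ)) = 7 := rfl
  rw [h]
  simp only [sum_range_succ, sum_range_zero, show cfn 13 0 3 = 2288 from by decide, show cfn 13 1 3 = 242 from by decide, show cfn 13 2 3 = 20 from by decide, show cfn 13 3 3 = 1 from by decide, show cfn 13 4 3 = 0 from by decide, show cfn 13 5 3 = 0 from by decide, show cfn 13 6 3 = 0 from by decide, Nat.cast_ofNat, Nat.cast_one, Nat.cast_zero]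
  ring

theorem c13_4 (γ : ℕ → ℝ) : ∑ i ∈ range (13 / 2 + 1), γ i * (cfn 13 i 4 : ℝ) =
    11440 * γ 0 + 1540 * γ 1 + 181 * γ 2 + 17 * γ 3 + 1 * γ 4 + 0 * γ 5 + 0 * γ 6 := by
  have h : ((13 / 2 + 1 : ℕ)) = 7 := rfl
  rw [h]
  simp only [sum_range_succ, sum_range_zero, show cfn 13 0 4 = 11440 from by decide, show cfn 13 1 4 = 1540 from by decide, show cfn 13 2 4 = 181 from by decide, show cfn 13 3 4 = 17 from by decide, show cfn 13 4 4 = 1 from by decide, show cfn 13 5 4 = 0 from by decide, show cfn 13 6 4 = 0 from by decide, Nat.cast_ofNat, Nat.cast_one, Nat.cast_zero]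
  ring

theorem c13_5 (γ : ℕ → ℝ) : ∑ i ∈ range (13 / 2 + 1), γ i * (cfn 13 i 5 : ℝ) =
    41184 * γ 0 + 6600 * γ 1 + 978 * γ 2 + 129 * γ 3 + 14 * γ 4 + 1 * γ 5 + 0 * γ 6 := by
  have h : ((13 / 2 + 1 : ℕ)) = 7 := rfl
  rw [h]
  simp only [sum_range_succ, sum_range_zero, show cfn 13 0 5 = 41184 from by decide, show cfn 13 1 5 = 6600 from by decide, show cfn 13 2 5 = 978 from by decide, show cfn 13 3 5 = 129 from by decide, show cfn 13 4 5 = 14 from by decide, show cfn 13 5 5 = 1 from by decide, show cfn 13 6 5 = 0 from by decide, Nat.cast_ofNat, Nat.cast_one, Nat.cast_zero]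
  ring

theorem c13_6 (γ : ℕ → ℝ) : ∑ i ∈ range (13 / 2 + 1), γ i * (cfn 13 i 6 : ℝ) =
    109824 * γ 0 + 20064 * γ 1 + 3504 * γ 2 + 575 * γ 3 + 86 * γ 4 + 11 * γ 5 + 1 * γ 6 := by
  have h : ((13 / 2 + 1 : ℕ)) = 7 := rfl
  rw [h]
  simp only [sum_range_succ, sum_range_zero, show cfn 13 0 6 = 109824 from by decide, show cfn 13 1 6 = 20064 from by decide, show cfn 13 2 6 = 3504 from by decide, show cfn 13 3 6 = 575 from by decide, show cfn 13 4 6 = 86 from by decide, show cfn 13 5 6 = 11 from by decide, show cfn 13 6 6 = 1 from by decide, Nat.cast_ofNat, Nat.cast_one, Nat.cast_zero]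
  ring

theorem c13_7 (γ : ℕ → ℝ) : ∑ i ∈ range (13 / 2 + 1), γ i * (cfn 13 i 7 : ℝ) =
    219648 * γ 0 + 44352 * γ 1 + 8736 * γ 2 + 1666 * γ 3 + 304 * γ 4 + 52 * γ 5 + 8 * γ 6 := by
  have h : ((13 / 2 + 1 : ℕ)) = 7 := rfl
  rw [h]
  simp only [sum_range_succ, sum_range_zero, show cfn 13 0 7 = 219648 from by decide, show cfn 13 1 7 = 44352 from by decide, show cfn 13 2 7 = 8736 from by decide, show cfn 13 3 7 = 1666 from by decide, show cfn 13 4 7 = 304 from by decide, show cfn 13 5 7 = 52 from by decide, show cfn 13 6 7 = 8 from by decide, Nat.cast_ofNat, Nat.cast_one, Nat.cast_zero]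
  ring

theorem c13_8 (γ : ℕ → ℝ) : ∑ i ∈ range (13 / 2 + 1), γ i * (cfn 13 i 8 : ℝ) =
    329472 * γ 0 + 71808 * γ 1 + 15456 * γ 2 + 3276 * γ 3 + 681 * γ 4 + 138 * γ 5 + 27 * γ 6 := by
  have h : ((13 / 2 + 1 : ℕ)) = 7 := rfl
  rw [h]
  simp only [sum_range_succ, sum_range_zero, show cfn 13 0 8 = 329472 from by decide, show cfn 13 1 8 = 71808 from by decide, show cfn 13 2 8 = 15456 from by decide, show cfn 13 3 8 = 3276 from by decide, show cfn 13 4 8 = 681 from by decide, show cfn 13 5 8 = 138 from by decide, show cfn 13 6 8 = 27 from by decide, Nat.cast_ofNat, Nat.cast_one, Nat.cast_zero]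
  ring

theorem c13_9 (γ : ℕ → ℝ) : ∑ i ∈ range (13 / 2 + 1), γ i * (cfn 13 i 9 : ℝ) =
    366080 * γ 0 + 84480 * γ 1 + 19392 * γ 2 + 4424 * γ 3 + 1002 * γ 4 + 225 * γ 5 + 50 * γ 6 := by
  have h : ((13 / 2 + 1 : ℕ)) = 7 := rfl
  rw [h]
  simp only [sum_range_succ, sum_range_zero, show cfn 13 0 9 = 366080 from by decide, show cfn 13 1 9 = 84480 from by decide, show cfn 13 2 9 = 19392 from by decide, show cfn 13 3 9 = 4424 from by decide, show cfn 13 4 9 = 1002 from by decide, show cfn 13 5 9 = 225 from by decide, show cfn 13 6 9 = 50 from by decide, Nat.cast_ofNat, Nat.cast_one, Nat.cast_zero]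
  ring

theorem c13_10 (γ : ℕ → ℝ) : ∑ i ∈ range (13 / 2 + 1), γ i * (cfn 13 i 10 : ℝ) =
    292864 * γ 0 + 70400 * γ 1 + 16896 * γ 2 + 4048 * γ 3 + 968 * γ 4 + 231 * γ 5 + 55 * γ 6 := by
  have h : ((13 / 2 + 1 : ℕ)) = 7 := rfl
  rw [h]
  simp only [sum_range_succ, sum_range_zero, show cfn 13 0 10 = 292864 from by decide, show cfn 13 1 10 = 70400 from by decide, show cfn 13 2 10 = 16896 from by decide, show cfn 13 3 10 = 4048 from by decide, show cfn 13 4 10 = 968 from by decide, show cfn 13 5 10 = 231 from by decide, show cfn 13 6 10 = 55 from by decide, Nat.cast_ofNat, Nat.cast_one, Nat.cast_zero]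
  ring

theorem q13_0 (γ : ℕ → ℝ) (h0 : γ 0 = 1)
    (h : ∀ n < 13, 2 * (((13 : ℕ) : ℝ) - ((n : ℕ) : ℝ)) * ∑ i ∈ range (13 / 2 + 1), γ i * (cfn 13 i n : ℝ) ≤
      ((n : ℝ) + 1) * ∑ i ∈ range (13 / 2 + 1), γ i * (cfn 13 i (n + 1) : ℝ)) :
    0 ≤ 0 * γ 0 + 1 * γ 1 + 0 * γ 2 + 0 * γ 3 + 0 * γ 4 + 0 * γ 5 + 0 * γ 6 := by
  have h1 := h 0 (by norm_num)
  rw [show 0 + 1 = 1 from rfl, c13_0, c13_1] at h1
  norm_num [h0] at h1 ⊢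
  linarith

theorem q13_1 (γ : ℕ → ℝ) (h0 : γ 0 = 1)
    (h : ∀ n < 13, 2 * (((13 : ℕ) : ℝ) - ((n : ℕ) : ℝ)) * ∑ i ∈ range (13 / 2 + 1), γ i * (cfn 13 i n : ℝ) ≤
      ((n : ℝ) + 1) * ∑ i ∈ range (13 / 2 + 1), γ i * (cfn 13 i (n + 1) : ℝ)) :
    0 ≤ 0 * γ 0 + 22 * γ 1 + 2 * γ 2 + 0 * γ 3 + 0 * γ 4 + 0 * γ 5 + 0 * γ 6 := by
  have h1 := h 1 (by norm_num)
  rw [show 1 + 1 = 2 from rfl, c13_1, c13_2] at h1
  norm_num [h0] at h1 ⊢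
  linarith

theorem q13_2 (γ : ℕ → ℝ) (h0 : γ 0 = 1)
    (h : ∀ n < 13, 2 * (((13 : ℕ) : ℝ) - ((n : ℕ) : ℝ)) * ∑ i ∈ range (13 / 2 + 1), γ i * (cfn 13 i n : ℝ) ≤
      ((n : ℝ) + 1) * ∑ i ∈ range (13 / 2 + 1), γ i * (cfn 13 i (n + 1) : ℝ)) :
    0 ≤ 0 * γ 0 + 220 * γ 1 + 38 * γ 2 + 3 * γ 3 + 0 * γ 4 + 0 * γ 5 + 0 * γ 6 := by
  have h1 := h 2 (by norm_num)
  rw [show 2 + 1 = 3 from rfl, c13_2, c13_3] at h1
  norm_num [h0] at h1 ⊢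
  linarith

theorem q13_3 (γ : ℕ → ℝ) (h0 : γ 0 = 1)
    (h : ∀ n < 13, 2 * (((13 : ℕ) : ℝ) - ((n : ℕ) : ℝ)) * ∑ i ∈ range (13 / 2 + 1), γ i * (cfn 13 i n : ℝ) ≤
      ((n : ℝ) + 1) * ∑ i ∈ range (13 / 2 + 1), γ i * (cfn 13 i (n + 1) : ℝ)) :
    0 ≤ 0 * γ 0 + 1320 * γ 1 + 324 * γ 2 + 48 * γ 3 + 4 * γ 4 + 0 * γ 5 + 0 * γ 6 := by
  have h1 := h 3 (by norm_num)
  rw [show 3 + 1 = 4 from rfl, c13_3, c13_4] at h1
  norm_num [h0] at h1 ⊢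
  linarith

theorem q13_4 (γ : ℕ → ℝ) (h0 : γ 0 = 1)
    (h : ∀ n < 13, 2 * (((13 : ℕ) : ℝ) - ((n : ℕ) : ℝ)) * ∑ i ∈ range (13 / 2 + 1), γ i * (cfn 13 i n : ℝ) ≤
      ((n : ℝ) + 1) * ∑ i ∈ range (13 / 2 + 1), γ i * (cfn 13 i (n + 1) : ℝ)) :
    0 ≤ 0 * γ 0 + 5280 * γ 1 + 1632 * γ 2 + 339 * γ 3 + 52 * γ 4 + 5 * γ 5 + 0 * γ 6 := by
  have h1 := h 4 (by norm_num)
  rw [show 4 + 1 = 5 from rfl, c13_4, c13_5] at h1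
  norm_num [h0] at h1 ⊢
  linarith

theorem q13_5 (γ : ℕ → ℝ) (h0 : γ 0 = 1)
    (h : ∀ n < 13, 2 * (((13 : ℕ) : ℝ) - ((n : ℕ) : ℝ)) * ∑ i ∈ range (13 / 2 + 1), γ i * (cfn 13 i n : ℝ) ≤
      ((n : ℝ) + 1) * ∑ i ∈ range (13 / 2 + 1), γ i * (cfn 13 i (n + 1) : ℝ)) :
    0 ≤ 0 * γ 0 + 14784 * γ 1 + 5376 * γ 2 + 1386 * γ 3 + 292 * γ 4 + 50 * γ 5 + 6 * γ 6 := by
  have h1 := h 5 (by norm_num)
  rw [show 5 + 1 = 6 from rfl, c13_5, c13_6] at h1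
  norm_num [h0] at h1 ⊢
  linarith

theorem q13_6 (γ : ℕ → ℝ) (h0 : γ 0 = 1)
    (h : ∀ n < 13, 2 * (((13 : ℕ) : ℝ) - ((n : ℕ) : ℝ)) * ∑ i ∈ range (13 / 2 + 1), γ i * (cfn 13 i n : ℝ) ≤
      ((n : ℝ) + 1) * ∑ i ∈ range (13 / 2 + 1), γ i * (cfn 13 i (n + 1) : ℝ)) :
    0 ≤ 0 * γ 0 + 29568 * γ 1 + 12096 * γ 2 + 3612 * γ 3 + 924 * γ 4 + 210 * γ 5 + 42 * γ 6 := by
  have h1 := h 6 (by norm_num)
  rw [show 6 + 1 = 7 from rfl, c13_6, c13_7] at h1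
  norm_num [h0] at h1 ⊢
  linarith

theorem q13_7 (γ : ℕ → ℝ) (h0 : γ 0 = 1)
    (h : ∀ n < 13, 2 * (((13 : ℕ) : ℝ) - ((n : ℕ) : ℝ)) * ∑ i ∈ range (13 / 2 + 1), γ i * (cfn 13 i n : ℝ) ≤
      ((n : ℝ) + 1) * ∑ i ∈ range (13 / 2 + 1), γ i * (cfn 13 i (n + 1) : ℝ)) :
    0 ≤ 0 * γ 0 + 42240 * γ 1 + 18816 * γ 2 + 6216 * γ 3 + 1800 * γ 4 + 480 * γ 5 + 120 * γ 6 := by
  have h1 := h 7 (by norm_num)
  rw [show 7 + 1 = 8 from rfl, c13_7, c13_8] at h1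
  norm_num [h0] at h1 ⊢
  linarith

theorem q13_8 (γ : ℕ → ℝ) (h0 : γ 0 = 1)
    (h : ∀ n < 13, 2 * (((13 : ℕ) : ℝ) - ((n : ℕ) : ℝ)) * ∑ i ∈ range (13 / 2 + 1), γ i * (cfn 13 i n : ℝ) ≤
      ((n : ℝ) + 1) * ∑ i ∈ range (13 / 2 + 1), γ i * (cfn 13 i (n + 1) : ℝ)) :
    0 ≤ 0 * γ 0 + 42240 * γ 1 + 19968 * γ 2 + 7056 * γ 3 + 2208 * γ 4 + 645 * γ 5 + 180 * γ 6 := by
  have h1 := h 8 (by norm_num)
  rw [show 8 + 1 = 9 from rfl, c13_8, c13_9] at h1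
  norm_num [h0] at h1 ⊢
  linarith

theorem q13_9 (γ : ℕ → ℝ) (h0 : γ 0 = 1)
    (h : ∀ n < 13, 2 * (((13 : ℕ) : ℝ) - ((n : ℕ) : ℝ)) * ∑ i ∈ range (13 / 2 + 1), γ i * (cfn 13 i n : ℝ) ≤
      ((n : ℝ) + 1) * ∑ i ∈ range (13 / 2 + 1), γ i * (cfn 13 i (n + 1) : ℝ)) :
    0 ≤ 0 * γ 0 + 28160 * γ 1 + 13824 * γ 2 + 5088 * γ 3 + 1664 * γ 4 + 510 * γ 5 + 150 * γ 6 := by
  have h1 := h 9 (by norm_num)
  rw [show 9 + 1 = 10 from rfl, c13_9, c13_10] at h1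
  norm_num [h0] at h1 ⊢
  linarith

theorem m13_0 (γ : ℕ → ℝ) : Mat 13 γ 0 = 1 * γ 0 + 0 * γ 1 + 0 * γ 2 + 0 * γ 3 + 0 * γ 4 + 0 * γ 5 + 0 * γ 6 := by
  unfold Mat
  rw [show (13 / 2 + 1 : ℕ) = 7 from rfl]
  simp [sum_range_succ, Nat.choose]
  try ring

theorem m13_1 (γ : ℕ → ℝ) : Mat 13 γ 1 = 312 * γ 0 + 24 * γ 1 + 1 * γ 2 + 0 * γ 3 + 0 * γ 4 + 0 * γ 5 + 0 * γ 6 := by
  unfold Mat
  rw [show (13 / 2 + 1 : ℕ) = 7 from rfl]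
  simp [sum_range_succ, Nat.choose]
  try ring

theorem m13_2 (γ : ℕ → ℝ) : Mat 13 γ 2 = 11440 * γ 0 + 1760 * γ 1 + 220 * γ 2 + 20 * γ 3 + 1 * γ 4 + 0 * γ 5 + 0 * γ 6 := by
  unfold Mat
  rw [show (13 / 2 + 1 : ℕ) = 7 from rfl]
  simp [sum_range_succ, Nat.choose]
  try ring

theorem m13_3 (γ : ℕ → ℝ) : Mat 13 γ 3 = 109824 * γ 0 + 25344 * γ 1 + 5280 * γ 2 + 960 * γ 3 + 144 * γ 4 + 16 * γ 5 + 1 * γ 6 := by
  unfold Mat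
  rw [show (13 / 2 + 1 : ℕ) = 7 from rfl]
  simp [sum_range_succ, Nat.choose]
  try ring

theorem m13_4 (γ : ℕ → ℝ) : Mat 13 γ 4 = 329472 * γ 0 + 101376 * γ 1 + 29568 * γ 2 + 8064 * γ 3 + 2016 * γ 4 + 448 * γ 5 + 84 * γ 6 := by
  unfold Mat
  rw [show (13 / 2 + 1 : ℕ) = 7 from rfl]
  simp [sum_range_succ, Nat.choose]
  try ring

theorem m13_5 (γ : ℕ → ℝ) : Mat 13 γ 5 = 292864 * γ 0 + 112640 * γ 1 + 42240 * γ 2 + 15360 * γ 3 + 5376 * γ 4 + 1792 * γ 5 + 560 * γ 6 := by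
  unfold Mat
  rw [show (13 / 2 + 1 : ℕ) = 7 from rfl]
  simp [sum_range_succ, Nat.choose]
  try ring

theorem m13_6 (γ : ℕ → ℝ) : Mat 13 γ 6 = 53248 * γ 0 + 24576 * γ 1 + 11264 * γ 2 + 5120 * γ 3 + 2304 * γ 4 + 1024 * γ 5 + 448 * γ 6 := by
  unfold Mat
  rw [show (13 / 2 + 1 : ℕ) = 7 from rfl]
  simp [sum_range_succ, Nat.choose]
  try ring

theorem main13 (γ : ℕ → ℝ) (h0 : γ 0 = 1)
    (h : ∀ n < 13, 2 * (((13 : ℕ) : ℝ) - ((n : ℕ) : ℝ)) * ∑ i ∈ range (13 / 2 + 1), γ i * (cfn 13 i n : ℝ) ≤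
      ((n : ℝ) + 1) * ∑ i ∈ range (13 / 2 + 1), γ i * (cfn 13 i (n + 1) : ℝ)) :
    ∀ j ≤ 13 / 2, ((13 : ℕ) ≤ 5 → 0 < Mat 13 γ j) ∧ 0 < Mat 13 (Mat 13 γ) j := by
  have k0 := q13_0 γ h0 h
  have k1 := q13_1 γ h0 h
  have k2 := q13_2 γ h0 h
  have k3 := q13_3 γ h0 h
  have k4 := q13_4 γ h0 h
  have k5 := q13_5 γ h0 h
  have k6 := q13_6 γ h0 h
  have k7 := q13_7 γ h0 h
  have k8 := q13_8 γ h0 h
  have k9 := q13_9 γ h0 h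
  intro j hj
  have hj' : j ≤ 6 := hj
  clear hj h
  interval_cases j
  · refine ⟨fun h5 => absurd h5 (by norm_num), ?_⟩
    rw [m13_0]
    simp only [m13_0, m13_1, m13_2, m13_3, m13_4, m13_5, m13_6, h0]
    linarith []
  · refine ⟨fun h5 => absurd h5 (by norm_num), ?_⟩
    rw [m13_1]
    simp only [m13_0, m13_1, m13_2, m13_3, m13_4, m13_5, m13_6, h0]
    linarith [k0, k1, k2, k3]
  · refine ⟨fun h5 => absurd h5 (by norm_num), ?_⟩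
    rw [m13_2]
    simp only [m13_0, m13_1, m13_2, m13_3, m13_4, m13_5, m13_6, h0]
    linarith [k0, k1, k2, k3, k5, k6]
  · refine ⟨fun h5 => absurd h5 (by norm_num), ?_⟩
    rw [m13_3]
    simp only [m13_0, m13_1, m13_2, m13_3, m13_4, m13_5, m13_6, h0]
    linarith [k0, k1, k2, k3, k6, k7]
  · refine ⟨fun h5 => absurd h5 (by norm_num), ?_⟩
    rw [m13_4]
    simp only [m13_0, m13_1, m13_2, m13_3, m13_4, m13_5, m13_6, h0]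
    linarith [k0, k1, k2, k3, k6, k7]
  · refine ⟨fun h5 => absurd h5 (by norm_num), ?_⟩
    rw [m13_5]
    simp only [m13_0, m13_1, m13_2, m13_3, m13_4, m13_5, m13_6, h0]
    linarith [k0, k1, k2, k3, k7, k8]
  · refine ⟨fun h5 => absurd h5 (by norm_num), ?_⟩
    rw [m13_6]
    simp only [m13_0, m13_1, m13_2, m13_3, m13_4, m13_5, m13_6, h0]
    linarith [k0, k1, k3, k4, k8, k9]

end PkgNUM

theorem pNUM : S_NUM := by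
  intro d h2 h13
  interval_cases d
  · exact fun γ h0 h => PkgNUM.main2 γ h0 h
  · exact fun γ h0 h => PkgNUM.main3 γ h0 h
  · exact fun γ h0 h => PkgNUM.main4 γ h0 h
  · exact fun γ h0 h => PkgNUM.main5 γ h0 h
  · exact fun γ h0 h => PkgNUM.main6 γ h0 h
  · exact fun γ h0 h => PkgNUM.main7 γ h0 h
  · exact fun γ h0 h => PkgNUM.main8 γ h0 h
  · exact fun γ h0 h => PkgNUM.main9 γ h0 h
  · exact fun γ h0 h => PkgNUM.main10 γ h0 h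
  · exact fun γ h0 h => PkgNUM.main11 γ h0 h
  · exact fun γ h0 h => PkgNUM.main12 γ h0 h
  · exact fun γ h0 h => PkgNUM.main13 γ h0 h

end Pool.Agent.T2H83.GR
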