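import Pool.Agent.T2H83.GR.Stm

set_option autoImplicit false
set_option linter.unusedSimpArgs false
set_option linter.unusedVariables false

/-!
# Numerical inequalities with the inequality of Davis and Okun (generated by a computer program)
-/

namespace Pool.Agent.T2H83.GR

open Finset

namespace PkgNUMA

theorem c6_0 (γ : ℕ → ℝ) : ∑ i ∈ range (6 / 2 + 1), γ i * (cfn 6 i 0 : ℝ) =
    (1) * γ 0 + (0) * γ 1 + (0) * γ 2 + (0) * γ 3 := by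
  have h : ((6 / 2 + 1 : ℕ)) = 4 := rfl
  rw [h]
  simp only [sum_range_succ, sum_range_zero, show cfn 6 0 0 = 1 from by decide +kernel, show cfn 6 1 0 = 0 from by decide +kernel, show cfn 6 2 0 = 0 from by decide +kernel, show cfn 6 3 0 = 0 from by decide +kernel, Nat.cast_ofNat, Nat.cast_one, Nat.cast_zero]
  ring

theorem c6_1 (γ : ℕ → ℝ) : ∑ i ∈ range (6 / 2 + 1), γ i * (cfn 6 i 1 : ℝ) =
    (12) * γ 0 + (1) * γ 1 + (0) * γ 2 + (0) * γ 3 := by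
  have h : ((6 / 2 + 1 : ℕ)) = 4 := rfl
  rw [h]
  simp only [sum_range_succ, sum_range_zero, show cfn 6 0 1 = 12 from by decide +kernel, show cfn 6 1 1 = 1 from by decide +kernel, show cfn 6 2 1 = 0 from by decide +kernel, show cfn 6 3 1 = 0 from by decide +kernel, Nat.cast_ofNat, Nat.cast_one, Nat.cast_zero]
  ring

theorem c6_2 (γ : ℕ → ℝ) : ∑ i ∈ range (6 / 2 + 1), γ i * (cfn 6 i 2 : ℝ) =
    (60) * γ 0 + (9) * γ 1 + (1) * γ 2 + (0) * γ 3 := by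
  have h : ((6 / 2 + 1 : ℕ)) = 4 := rfl
  rw [h]
  simp only [sum_range_succ, sum_range_zero, show cfn 6 0 2 = 60 from by decide +kernel, show cfn 6 1 2 = 9 from by decide +kernel, show cfn 6 2 2 = 1 from by decide +kernel, show cfn 6 3 2 = 0 from by decide +kernel, Nat.cast_ofNat, Nat.cast_one, Nat.cast_zero]
  ring

theorem c6_3 (γ : ℕ → ℝ) : ∑ i ∈ range (6 / 2 + 1), γ i * (cfn 6 i 3 : ℝ) =
    (160) * γ 0 + (32) * γ 1 + (6) * γ 2 + (1) * γ 3 := by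
  have h : ((6 / 2 + 1 : ℕ)) = 4 := rfl
  rw [h]
  simp only [sum_range_succ, sum_range_zero, show cfn 6 0 3 = 160 from by decide +kernel, show cfn 6 1 3 = 32 from by decide +kernel, show cfn 6 2 3 = 6 from by decide +kernel, show cfn 6 3 3 = 1 from by decide +kernel, Nat.cast_ofNat, Nat.cast_one, Nat.cast_zero]
  ring

theorem c6_4 (γ : ℕ → ℝ) : ∑ i ∈ range (6 / 2 + 1), γ i * (cfn 6 i 4 : ℝ) =
    (240) * γ 0 + (56) * γ 1 + (13) * γ 2 + (3) * γ 3 := by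
  have h : ((6 / 2 + 1 : ℕ)) = 4 := rfl
  rw [h]
  simp only [sum_range_succ, sum_range_zero, show cfn 6 0 4 = 240 from by decide +kernel, show cfn 6 1 4 = 56 from by decide +kernel, show cfn 6 2 4 = 13 from by decide +kernel, show cfn 6 3 4 = 3 from by decide +kernel, Nat.cast_ofNat, Nat.cast_one, Nat.cast_zero]
  ring

theorem q6_0 (γ : ℕ → ℝ) (h0 : γ 0 = 1)
    (h : ∀ n < 6, 2 * (((6 : ℕ) : ℝ) - ((n : ℕ) : ℝ)) * ∑ i ∈ range (6 / 2 + 1), γ i * (cfn 6 i n : ℝ) ≤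
      ((n : ℝ) + 1) * ∑ i ∈ range (6 / 2 + 1), γ i * (cfn 6 i (n + 1) : ℝ)) :
    0 ≤ (0) * γ 0 + (1) * γ 1 + (0) * γ 2 + (0) * γ 3 := by
  have h1 := h 0 (by norm_num)
  rw [show 0 + 1 = 1 from rfl, c6_0, c6_1] at h1
  norm_num [h0] at h1 ⊢
  linarith

theorem q6_1 (γ : ℕ → ℝ) (h0 : γ 0 = 1)
    (h : ∀ n < 6, 2 * (((6 : ℕ) : ℝ) - ((n : ℕ) : ℝ)) * ∑ i ∈ range (6 / 2 + 1), γ i * (cfn 6 i n : ℝ) ≤
      ((n : ℝ) + 1) * ∑ i ∈ range (6 / 2 + 1), γ i * (cfn 6 i (n + 1) : ℝ)) :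
    0 ≤ (0) * γ 0 + (8) * γ 1 + (2) * γ 2 + (0) * γ 3 := by
  have h1 := h 1 (by norm_num)
  rw [show 1 + 1 = 2 from rfl, c6_1, c6_2] at h1
  norm_num [h0] at h1 ⊢
  linarith

theorem q6_2 (γ : ℕ → ℝ) (h0 : γ 0 = 1)
    (h : ∀ n < 6, 2 * (((6 : ℕ) : ℝ) - ((n : ℕ) : ℝ)) * ∑ i ∈ range (6 / 2 + 1), γ i * (cfn 6 i n : ℝ) ≤
      ((n : ℝ) + 1) * ∑ i ∈ range (6 / 2 + 1), γ i * (cfn 6 i (n + 1) : ℝ)) :
    0 ≤ (0) * γ 0 + (24) * γ 1 + (10) * γ 2 + (3) * γ 3 := by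
  have h1 := h 2 (by norm_num)
  rw [show 2 + 1 = 3 from rfl, c6_2, c6_3] at h1
  norm_num [h0] at h1 ⊢
  linarith

theorem q6_3 (γ : ℕ → ℝ) (h0 : γ 0 = 1)
    (h : ∀ n < 6, 2 * (((6 : ℕ) : ℝ) - ((n : ℕ) : ℝ)) * ∑ i ∈ range (6 / 2 + 1), γ i * (cfn 6 i n : ℝ) ≤
      ((n : ℝ) + 1) * ∑ i ∈ range (6 / 2 + 1), γ i * (cfn 6 i (n + 1) : ℝ)) :
    0 ≤ (0) * γ 0 + (32) * γ 1 + (16) * γ 2 + (6) * γ 3 := by
  have h1 := h 3 (by norm_num)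
  rw [show 3 + 1 = 4 from rfl, c6_3, c6_4] at h1
  norm_num [h0] at h1 ⊢
  linarith

theorem D6 (γ : ℕ → ℝ) (h0 : γ 0 = 1)
    (h : 5 * (((6 - 3 : ℕ) : ℝ)) * ∑ i ∈ range (6 / 2 + 1), γ i * (cfn 6 i (6 - 3) : ℝ) ≤
      (((6 - 2).choose 2 : ℕ) : ℝ) * ∑ i ∈ range (6 / 2 + 1), γ i * (cfn 6 i (6 - 2) : ℝ) +
      16 * ∑ i ∈ range (6 / 2 + 1), γ i * (cfn 6 i (6 - 4) : ℝ)) :
    0 ≤ (0) * γ 0 + (0) * γ 1 + (4) * γ 2 + (3) * γ 3 := by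
  rw [show 6 - 3 = 3 from rfl, show 6 - 2 = 4 from rfl, show 6 - 4 = 2 from rfl,
    c6_3, c6_4, c6_2, show (4 : ℕ).choose 2 = 6 from by decide +kernel] at h
  norm_num [h0] at h ⊢
  linarith

theorem m6_0 (γ : ℕ → ℝ) : Mat 6 γ 0 = (1) * γ 0 + (0) * γ 1 + (0) * γ 2 + (0) * γ 3 := by
  unfold Mat
  rw [show (6 / 2 + 1 : ℕ) = 4 from rfl]
  simp [sum_range_succ, Nat.choose]
  try ring

theorem m6_1 (γ : ℕ → ℝ) : Mat 6 γ 1 = (60) * γ 0 + (10) * γ 1 + (1) * γ 2 + (0) * γ 3 := by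
  unfold Mat
  rw [show (6 / 2 + 1 : ℕ) = 4 from rfl]
  simp [sum_range_succ, Nat.choose]
  try ring

theorem m6_2 (γ : ℕ → ℝ) : Mat 6 γ 2 = (240) * γ 0 + (80) * γ 1 + (24) * γ 2 + (6) * γ 3 := by
  unfold Mat
  rw [show (6 / 2 + 1 : ℕ) = 4 from rfl]
  simp [sum_range_succ, Nat.choose]
  try ring

theorem m6_3 (γ : ℕ → ℝ) : Mat 6 γ 3 = (64) * γ 0 + (32) * γ 1 + (16) * γ 2 + (8) * γ 3 := by
  unfold Mat
  rw [show (6 / 2 + 1 : ℕ) = 4 from rfl]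
  simp [sum_range_succ, Nat.choose]
  try ring

theorem main6 (γ : ℕ → ℝ) (h0 : γ 0 = 1)
    (h : ∀ n < 6, 2 * (((6 : ℕ) : ℝ) - ((n : ℕ) : ℝ)) * ∑ i ∈ range (6 / 2 + 1), γ i * (cfn 6 i n : ℝ) ≤
      ((n : ℝ) + 1) * ∑ i ∈ range (6 / 2 + 1), γ i * (cfn 6 i (n + 1) : ℝ))
    (hD : 5 * (((6 - 3 : ℕ) : ℝ)) * ∑ i ∈ range (6 / 2 + 1), γ i * (cfn 6 i (6 - 3) : ℝ) ≤
      (((6 - 2).choose 2 : ℕ) : ℝ) * ∑ i ∈ range (6 / 2 + 1), γ i * (cfn 6 i (6 - 2) : ℝ) +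
      16 * ∑ i ∈ range (6 / 2 + 1), γ i * (cfn 6 i (6 - 4) : ℝ)) :
    ∀ j ≤ 6 / 2, 0 < Mat 6 γ j := by
  have k0 := q6_0 γ h0 h
  have k1 := q6_1 γ h0 h
  have k2 := q6_2 γ h0 h
  have k3 := q6_3 γ h0 h
  have kD := D6 γ h0 hD
  intro j hj
  have hj' : j ≤ 3 := hj
  clear hj h hD
  interval_cases j
  · clear hj'
    rw [m6_0, h0]
    linarith only []
  · clear hj'
    rw [m6_1, h0]
    linarith only [k0, k1]
  · clear hj'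
    rw [m6_2, h0]
    linarith only [k1, k2, k0]
  · clear hj'
    rw [m6_3, h0]
    linarith only [k3, kD, k0]

theorem c7_0 (γ : ℕ → ℝ) : ∑ i ∈ range (7 / 2 + 1), γ i * (cfn 7 i 0 : ℝ) =
    (1) * γ 0 + (0) * γ 1 + (0) * γ 2 + (0) * γ 3 := by
  have h : ((7 / 2 + 1 : ℕ)) = 4 := rfl
  rw [h]
  simp only [sum_range_succ, sum_range_zero, show cfn 7 0 0 = 1 from by decide +kernel, show cfn 7 1 0 = 0 from by decide +kernel, show cfn 7 2 0 = 0 from by decide +kernel, show cfn 7 3 0 = 0 from by decide +kernel, Nat.cast_ofNat, Nat.cast_one, Nat.cast_zero]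
  ring

theorem c7_1 (γ : ℕ → ℝ) : ∑ i ∈ range (7 / 2 + 1), γ i * (cfn 7 i 1 : ℝ) =
    (14) * γ 0 + (1) * γ 1 + (0) * γ 2 + (0) * γ 3 := by
  have h : ((7 / 2 + 1 : ℕ)) = 4 := rfl
  rw [h]
  simp only [sum_range_succ, sum_range_zero, show cfn 7 0 1 = 14 from by decide +kernel, show cfn 7 1 1 = 1 from by decide +kernel, show cfn 7 2 1 = 0 from by decide +kernel, show cfn 7 3 1 = 0 from by decide +kernel, Nat.cast_ofNat, Nat.cast_one, Nat.cast_zero]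
  ring

theorem c7_2 (γ : ℕ → ℝ) : ∑ i ∈ range (7 / 2 + 1), γ i * (cfn 7 i 2 : ℝ) =
    (84) * γ 0 + (11) * γ 1 + (1) * γ 2 + (0) * γ 3 := by
  have h : ((7 / 2 + 1 : ℕ)) = 4 := rfl
  rw [h]
  simp only [sum_range_succ, sum_range_zero, show cfn 7 0 2 = 84 from by decide +kernel, show cfn 7 1 2 = 11 from by decide +kernel, show cfn 7 2 2 = 1 from by decide +kernel, show cfn 7 3 2 = 0 from by decide +kernel, Nat.cast_ofNat, Nat.cast_one, Nat.cast_zero]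
  ring

theorem c7_3 (γ : ℕ → ℝ) : ∑ i ∈ range (7 / 2 + 1), γ i * (cfn 7 i 3 : ℝ) =
    (280) * γ 0 + (50) * γ 1 + (8) * γ 2 + (1) * γ 3 := by
  have h : ((7 / 2 + 1 : ℕ)) = 4 := rfl
  rw [h]
  simp only [sum_range_succ, sum_range_zero, show cfn 7 0 3 = 280 from by decide +kernel, show cfn 7 1 3 = 50 from by decide +kernel, show cfn 7 2 3 = 8 from by decide +kernel, show cfn 7 3 3 = 1 from by decide +kernel, Nat.cast_ofNat, Nat.cast_one, Nat.cast_zero]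
  ring

theorem c7_4 (γ : ℕ → ℝ) : ∑ i ∈ range (7 / 2 + 1), γ i * (cfn 7 i 4 : ℝ) =
    (560) * γ 0 + (120) * γ 1 + (25) * γ 2 + (5) * γ 3 := by
  have h : ((7 / 2 + 1 : ℕ)) = 4 := rfl
  rw [h]
  simp only [sum_range_succ, sum_range_zero, show cfn 7 0 4 = 560 from by decide +kernel, show cfn 7 1 4 = 120 from by decide +kernel, show cfn 7 2 4 = 25 from by decide +kernel, show cfn 7 3 4 = 5 from by decide +kernel, Nat.cast_ofNat, Nat.cast_one, Nat.cast_zero]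
  ring

theorem c7_5 (γ : ℕ → ℝ) : ∑ i ∈ range (7 / 2 + 1), γ i * (cfn 7 i 5 : ℝ) =
    (672) * γ 0 + (160) * γ 1 + (38) * γ 2 + (9) * γ 3 := by
  have h : ((7 / 2 + 1 : ℕ)) = 4 := rfl
  rw [h]
  simp only [sum_range_succ, sum_range_zero, show cfn 7 0 5 = 672 from by decide +kernel, show cfn 7 1 5 = 160 from by decide +kernel, show cfn 7 2 5 = 38 from by decide +kernel, show cfn 7 3 5 = 9 from by decide +kernel, Nat.cast_ofNat, Nat.cast_one, Nat.cast_zero]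
  ring

theorem q7_0 (γ : ℕ → ℝ) (h0 : γ 0 = 1)
    (h : ∀ n < 7, 2 * (((7 : ℕ) : ℝ) - ((n : ℕ) : ℝ)) * ∑ i ∈ range (7 / 2 + 1), γ i * (cfn 7 i n : ℝ) ≤
      ((n : ℝ) + 1) * ∑ i ∈ range (7 / 2 + 1), γ i * (cfn 7 i (n + 1) : ℝ)) :
    0 ≤ (0) * γ 0 + (1) * γ 1 + (0) * γ 2 + (0) * γ 3 := by
  have h1 := h 0 (by norm_num)
  rw [show 0 + 1 = 1 from rfl, c7_0, c7_1] at h1
  norm_num [h0] at h1 ⊢
  linarith

theorem q7_1 (γ : ℕ → ℝ) (h0 : γ 0 = 1)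
    (h : ∀ n < 7, 2 * (((7 : ℕ) : ℝ) - ((n : ℕ) : ℝ)) * ∑ i ∈ range (7 / 2 + 1), γ i * (cfn 7 i n : ℝ) ≤
      ((n : ℝ) + 1) * ∑ i ∈ range (7 / 2 + 1), γ i * (cfn 7 i (n + 1) : ℝ)) :
    0 ≤ (0) * γ 0 + (10) * γ 1 + (2) * γ 2 + (0) * γ 3 := by
  have h1 := h 1 (by norm_num)
  rw [show 1 + 1 = 2 from rfl, c7_1, c7_2] at h1
  norm_num [h0] at h1 ⊢
  linarith

theorem q7_2 (γ : ℕ → ℝ) (h0 : γ 0 = 1)
    (h : ∀ n < 7, 2 * (((7 : ℕ) : ℝ) - ((n : ℕ) : ℝ)) * ∑ i ∈ range (7 / 2 + 1), γ i * (cfn 7 i n : ℝ) ≤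
      ((n : ℝ) + 1) * ∑ i ∈ range (7 / 2 + 1), γ i * (cfn 7 i (n + 1) : ℝ)) :
    0 ≤ (0) * γ 0 + (40) * γ 1 + (14) * γ 2 + (3) * γ 3 := by
  have h1 := h 2 (by norm_num)
  rw [show 2 + 1 = 3 from rfl, c7_2, c7_3] at h1
  norm_num [h0] at h1 ⊢
  linarith

theorem q7_4 (γ : ℕ → ℝ) (h0 : γ 0 = 1)
    (h : ∀ n < 7, 2 * (((7 : ℕ) : ℝ) - ((n : ℕ) : ℝ)) * ∑ i ∈ range (7 / 2 + 1), γ i * (cfn 7 i n : ℝ) ≤
      ((n : ℝ) + 1) * ∑ i ∈ range (7 / 2 + 1), γ i * (cfn 7 i (n + 1) : ℝ)) :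
    0 ≤ (0) * γ 0 + (80) * γ 1 + (40) * γ 2 + (15) * γ 3 := by
  have h1 := h 4 (by norm_num)
  rw [show 4 + 1 = 5 from rfl, c7_4, c7_5] at h1
  norm_num [h0] at h1 ⊢
  linarith

theorem D7 (γ : ℕ → ℝ) (h0 : γ 0 = 1)
    (h : 5 * (((7 - 3 : ℕ) : ℝ)) * ∑ i ∈ range (7 / 2 + 1), γ i * (cfn 7 i (7 - 3) : ℝ) ≤
      (((7 - 2).choose 2 : ℕ) : ℝ) * ∑ i ∈ range (7 / 2 + 1), γ i * (cfn 7 i (7 - 2) : ℝ) +
      16 * ∑ i ∈ range (7 / 2 + 1), γ i * (cfn 7 i (7 - 4) : ℝ)) :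
    0 ≤ (0) * γ 0 + (0) * γ 1 + (8) * γ 2 + (6) * γ 3 := by
  rw [show 7 - 3 = 4 from rfl, show 7 - 2 = 5 from rfl, show 7 - 4 = 3 from rfl,
    c7_4, c7_5, c7_3, show (5 : ℕ).choose 2 = 10 from by decide +kernel] at h
  norm_num [h0] at h ⊢
  linarith

theorem m7_0 (γ : ℕ → ℝ) : Mat 7 γ 0 = (1) * γ 0 + (0) * γ 1 + (0) * γ 2 + (0) * γ 3 := by
  unfold Mat
  rw [show (7 / 2 + 1 : ℕ) = 4 from rfl]
  simp [sum_range_succ, Nat.choose]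
  try ring

theorem m7_1 (γ : ℕ → ℝ) : Mat 7 γ 1 = (84) * γ 0 + (12) * γ 1 + (1) * γ 2 + (0) * γ 3 := by
  unfold Mat
  rw [show (7 / 2 + 1 : ℕ) = 4 from rfl]
  simp [sum_range_succ, Nat.choose]
  try ring

theorem m7_2 (γ : ℕ → ℝ) : Mat 7 γ 2 = (560) * γ 0 + (160) * γ 1 + (40) * γ 2 + (8) * γ 3 := by
  unfold Mat
  rw [show (7 / 2 + 1 : ℕ) = 4 from rfl]
  simp [sum_range_succ, Nat.choose]
  try ring

theorem m7_3 (γ : ℕ → ℝ) : Mat 7 γ 3 = (448) * γ 0 + (192) * γ 1 + (80) * γ 2 + (32) * γ 3 := by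
  unfold Mat
  rw [show (7 / 2 + 1 : ℕ) = 4 from rfl]
  simp [sum_range_succ, Nat.choose]
  try ring

theorem main7 (γ : ℕ → ℝ) (h0 : γ 0 = 1)
    (h : ∀ n < 7, 2 * (((7 : ℕ) : ℝ) - ((n : ℕ) : ℝ)) * ∑ i ∈ range (7 / 2 + 1), γ i * (cfn 7 i n : ℝ) ≤
      ((n : ℝ) + 1) * ∑ i ∈ range (7 / 2 + 1), γ i * (cfn 7 i (n + 1) : ℝ))
    (hD : 5 * (((7 - 3 : ℕ) : ℝ)) * ∑ i ∈ range (7 / 2 + 1), γ i * (cfn 7 i (7 - 3) : ℝ) ≤
      (((7 - 2).choose 2 : ℕ) : ℝ) * ∑ i ∈ range (7 / 2 + 1), γ i * (cfn 7 i (7 - 2) : ℝ) +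
      16 * ∑ i ∈ range (7 / 2 + 1), γ i * (cfn 7 i (7 - 4) : ℝ)) :
    ∀ j ≤ 7 / 2, 0 < Mat 7 γ j := by
  have k0 := q7_0 γ h0 h
  have k1 := q7_1 γ h0 h
  have k2 := q7_2 γ h0 h
  have k4 := q7_4 γ h0 h
  have kD := D7 γ h0 hD
  intro j hj
  have hj' : j ≤ 3 := hj
  clear hj h hD
  interval_cases j
  · clear hj'
    rw [m7_0, h0]
    linarith only []
  · clear hj'
    rw [m7_1, h0]
    linarith only [k0, k1]
  · clear hj'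
    rw [m7_2, h0]
    linarith only [k1, k2, k0]
  · clear hj'
    rw [m7_3, h0]
    linarith only [k0, k4, kD]

theorem c8_0 (γ : ℕ → ℝ) : ∑ i ∈ range (8 / 2 + 1), γ i * (cfn 8 i 0 : ℝ) =
    (1) * γ 0 + (0) * γ 1 + (0) * γ 2 + (0) * γ 3 + (0) * γ 4 := by
  have h : ((8 / 2 + 1 : ℕ)) = 5 := rfl
  rw [h]
  simp only [sum_range_succ, sum_range_zero, show cfn 8 0 0 = 1 from by decide +kernel, show cfn 8 1 0 = 0 from by decide +kernel, show cfn 8 2 0 = 0 from by decide +kernel, show cfn 8 3 0 = 0 from by decide +kernel, show cfn 8 4 0 = 0 from by decide +kernel, Nat.cast_ofNat, Nat.cast_one, Nat.cast_zero]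
  ring

theorem c8_1 (γ : ℕ → ℝ) : ∑ i ∈ range (8 / 2 + 1), γ i * (cfn 8 i 1 : ℝ) =
    (16) * γ 0 + (1) * γ 1 + (0) * γ 2 + (0) * γ 3 + (0) * γ 4 := by
  have h : ((8 / 2 + 1 : ℕ)) = 5 := rfl
  rw [h]
  simp only [sum_range_succ, sum_range_zero, show cfn 8 0 1 = 16 from by decide +kernel, show cfn 8 1 1 = 1 from by decide +kernel, show cfn 8 2 1 = 0 from by decide +kernel, show cfn 8 3 1 = 0 from by decide +kernel, show cfn 8 4 1 = 0 from by decide +kernel, Nat.cast_ofNat, Nat.cast_one, Nat.cast_zero]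
  ring

theorem c8_2 (γ : ℕ → ℝ) : ∑ i ∈ range (8 / 2 + 1), γ i * (cfn 8 i 2 : ℝ) =
    (112) * γ 0 + (13) * γ 1 + (1) * γ 2 + (0) * γ 3 + (0) * γ 4 := by
  have h : ((8 / 2 + 1 : ℕ)) = 5 := rfl
  rw [h]
  simp only [sum_range_succ, sum_range_zero, show cfn 8 0 2 = 112 from by decide +kernel, show cfn 8 1 2 = 13 from by decide +kernel, show cfn 8 2 2 = 1 from by decide +kernel, show cfn 8 3 2 = 0 from by decide +kernel, show cfn 8 4 2 = 0 from by decide +kernel, Nat.cast_ofNat, Nat.cast_one, Nat.cast_zero]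
  ring

theorem c8_3 (γ : ℕ → ℝ) : ∑ i ∈ range (8 / 2 + 1), γ i * (cfn 8 i 3 : ℝ) =
    (448) * γ 0 + (72) * γ 1 + (10) * γ 2 + (1) * γ 3 + (0) * γ 4 := by
  have h : ((8 / 2 + 1 : ℕ)) = 5 := rfl
  rw [h]
  simp only [sum_range_succ, sum_range_zero, show cfn 8 0 3 = 448 from by decide +kernel, show cfn 8 1 3 = 72 from by decide +kernel, show cfn 8 2 3 = 10 from by decide +kernel, show cfn 8 3 3 = 1 from by decide +kernel, show cfn 8 4 3 = 0 from by decide +kernel, Nat.cast_ofNat, Nat.cast_one, Nat.cast_zero]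
  ring

theorem c8_4 (γ : ℕ → ℝ) : ∑ i ∈ range (8 / 2 + 1), γ i * (cfn 8 i 4 : ℝ) =
    (1120) * γ 0 + (220) * γ 1 + (41) * γ 2 + (7) * γ 3 + (1) * γ 4 := by
  have h : ((8 / 2 + 1 : ℕ)) = 5 := rfl
  rw [h]
  simp only [sum_range_succ, sum_range_zero, show cfn 8 0 4 = 1120 from by decide +kernel, show cfn 8 1 4 = 220 from by decide +kernel, show cfn 8 2 4 = 41 from by decide +kernel, show cfn 8 3 4 = 7 from by decide +kernel, show cfn 8 4 4 = 1 from by decide +kernel, Nat.cast_ofNat, Nat.cast_one, Nat.cast_zero]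
  ring

theorem c8_5 (γ : ℕ → ℝ) : ∑ i ∈ range (8 / 2 + 1), γ i * (cfn 8 i 5 : ℝ) =
    (1792) * γ 0 + (400) * γ 1 + (88) * γ 2 + (19) * γ 3 + (4) * γ 4 := by
  have h : ((8 / 2 + 1 : ℕ)) = 5 := rfl
  rw [h]
  simp only [sum_range_succ, sum_range_zero, show cfn 8 0 5 = 1792 from by decide +kernel, show cfn 8 1 5 = 400 from by decide +kernel, show cfn 8 2 5 = 88 from by decide +kernel, show cfn 8 3 5 = 19 from by decide +kernel, show cfn 8 4 5 = 4 from by decide +kernel, Nat.cast_ofNat, Nat.cast_one, Nat.cast_zero]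
  ring

theorem c8_6 (γ : ℕ → ℝ) : ∑ i ∈ range (8 / 2 + 1), γ i * (cfn 8 i 6 : ℝ) =
    (1792) * γ 0 + (432) * γ 1 + (104) * γ 2 + (25) * γ 3 + (6) * γ 4 := by
  have h : ((8 / 2 + 1 : ℕ)) = 5 := rfl
  rw [h]
  simp only [sum_range_succ, sum_range_zero, show cfn 8 0 6 = 1792 from by decide +kernel, show cfn 8 1 6 = 432 from by decide +kernel, show cfn 8 2 6 = 104 from by decide +kernel, show cfn 8 3 6 = 25 from by decide +kernel, show cfn 8 4 6 = 6 from by decide +kernel, Nat.cast_ofNat, Nat.cast_one, Nat.cast_zero]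
  ring

theorem q8_0 (γ : ℕ → ℝ) (h0 : γ 0 = 1)
    (h : ∀ n < 8, 2 * (((8 : ℕ) : ℝ) - ((n : ℕ) : ℝ)) * ∑ i ∈ range (8 / 2 + 1), γ i * (cfn 8 i n : ℝ) ≤
      ((n : ℝ) + 1) * ∑ i ∈ range (8 / 2 + 1), γ i * (cfn 8 i (n + 1) : ℝ)) :
    0 ≤ (0) * γ 0 + (1) * γ 1 + (0) * γ 2 + (0) * γ 3 + (0) * γ 4 := by
  have h1 := h 0 (by norm_num)
  rw [show 0 + 1 = 1 from rfl, c8_0, c8_1] at h1
  norm_num [h0] at h1 ⊢
  linarith

theorem q8_1 (γ : ℕ → ℝ) (h0 : γ 0 = 1)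
    (h : ∀ n < 8, 2 * (((8 : ℕ) : ℝ) - ((n : ℕ) : ℝ)) * ∑ i ∈ range (8 / 2 + 1), γ i * (cfn 8 i n : ℝ) ≤
      ((n : ℝ) + 1) * ∑ i ∈ range (8 / 2 + 1), γ i * (cfn 8 i (n + 1) : ℝ)) :
    0 ≤ (0) * γ 0 + (12) * γ 1 + (2) * γ 2 + (0) * γ 3 + (0) * γ 4 := by
  have h1 := h 1 (by norm_num)
  rw [show 1 + 1 = 2 from rfl, c8_1, c8_2] at h1
  norm_num [h0] at h1 ⊢
  linarith

theorem q8_2 (γ : ℕ → ℝ) (h0 : γ 0 = 1)
    (h : ∀ n < 8, 2 * (((8 : ℕ) : ℝ) - ((n : ℕ) : ℝ)) * ∑ i ∈ range (8 / 2 + 1), γ i * (cfn 8 i n : ℝ) ≤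
      ((n : ℝ) + 1) * ∑ i ∈ range (8 / 2 + 1), γ i * (cfn 8 i (n + 1) : ℝ)) :
    0 ≤ (0) * γ 0 + (60) * γ 1 + (18) * γ 2 + (3) * γ 3 + (0) * γ 4 := by
  have h1 := h 2 (by norm_num)
  rw [show 2 + 1 = 3 from rfl, c8_2, c8_3] at h1
  norm_num [h0] at h1 ⊢
  linarith

theorem q8_3 (γ : ℕ → ℝ) (h0 : γ 0 = 1)
    (h : ∀ n < 8, 2 * (((8 : ℕ) : ℝ) - ((n : ℕ) : ℝ)) * ∑ i ∈ range (8 / 2 + 1), γ i * (cfn 8 i n : ℝ) ≤
      ((n : ℝ) + 1) * ∑ i ∈ range (8 / 2 + 1), γ i * (cfn 8 i (n + 1) : ℝ)) :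
    0 ≤ (0) * γ 0 + (160) * γ 1 + (64) * γ 2 + (18) * γ 3 + (4) * γ 4 := by
  have h1 := h 3 (by norm_num)
  rw [show 3 + 1 = 4 from rfl, c8_3, c8_4] at h1
  norm_num [h0] at h1 ⊢
  linarith

theorem q8_4 (γ : ℕ → ℝ) (h0 : γ 0 = 1)
    (h : ∀ n < 8, 2 * (((8 : ℕ) : ℝ) - ((n : ℕ) : ℝ)) * ∑ i ∈ range (8 / 2 + 1), γ i * (cfn 8 i n : ℝ) ≤
      ((n : ℝ) + 1) * ∑ i ∈ range (8 / 2 + 1), γ i * (cfn 8 i (n + 1) : ℝ)) :
    0 ≤ (0) * γ 0 + (240) * γ 1 + (112) * γ 2 + (39) * γ 3 + (12) * γ 4 := by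
  have h1 := h 4 (by norm_num)
  rw [show 4 + 1 = 5 from rfl, c8_4, c8_5] at h1
  norm_num [h0] at h1 ⊢
  linarith

theorem D8 (γ : ℕ → ℝ) (h0 : γ 0 = 1)
    (h : 5 * (((8 - 3 : ℕ) : ℝ)) * ∑ i ∈ range (8 / 2 + 1), γ i * (cfn 8 i (8 - 3) : ℝ) ≤
      (((8 - 2).choose 2 : ℕ) : ℝ) * ∑ i ∈ range (8 / 2 + 1), γ i * (cfn 8 i (8 - 2) : ℝ) +
      16 * ∑ i ∈ range (8 / 2 + 1), γ i * (cfn 8 i (8 - 4) : ℝ)) :
    0 ≤ (0) * γ 0 + (0) * γ 1 + (16) * γ 2 + (12) * γ 3 + (6) * γ 4 := by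
  rw [show 8 - 3 = 5 from rfl, show 8 - 2 = 6 from rfl, show 8 - 4 = 4 from rfl,
    c8_5, c8_6, c8_4, show (6 : ℕ).choose 2 = 15 from by decide +kernel] at h
  norm_num [h0] at h ⊢
  linarith

theorem m8_0 (γ : ℕ → ℝ) : Mat 8 γ 0 = (1) * γ 0 + (0) * γ 1 + (0) * γ 2 + (0) * γ 3 + (0) * γ 4 := by
  unfold Mat
  rw [show (8 / 2 + 1 : ℕ) = 5 from rfl]
  simp [sum_range_succ, Nat.choose]
  try ring

theorem m8_1 (γ : ℕ → ℝ) : Mat 8 γ 1 = (112) * γ 0 + (14) * γ 1 + (1) * γ 2 + (0) * γ 3 + (0) * γ 4 := by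
  unfold Mat
  rw [show (8 / 2 + 1 : ℕ) = 5 from rfl]
  simp [sum_range_succ, Nat.choose]
  try ring

theorem m8_2 (γ : ℕ → ℝ) : Mat 8 γ 2 = (1120) * γ 0 + (280) * γ 1 + (60) * γ 2 + (10) * γ 3 + (1) * γ 4 := by
  unfold Mat
  rw [show (8 / 2 + 1 : ℕ) = 5 from rfl]
  simp [sum_range_succ, Nat.choose]
  try ring

theorem m8_3 (γ : ℕ → ℝ) : Mat 8 γ 3 = (1792) * γ 0 + (672) * γ 1 + (240) * γ 2 + (80) * γ 3 + (24) * γ 4 := by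
  unfold Mat
  rw [show (8 / 2 + 1 : ℕ) = 5 from rfl]
  simp [sum_range_succ, Nat.choose]
  try ring

theorem m8_4 (γ : ℕ → ℝ) : Mat 8 γ 4 = (256) * γ 0 + (128) * γ 1 + (64) * γ 2 + (32) * γ 3 + (16) * γ 4 := by
  unfold Mat
  rw [show (8 / 2 + 1 : ℕ) = 5 from rfl]
  simp [sum_range_succ, Nat.choose]
  try ring

theorem main8 (γ : ℕ → ℝ) (h0 : γ 0 = 1)
    (h : ∀ n < 8, 2 * (((8 : ℕ) : ℝ) - ((n : ℕ) : ℝ)) * ∑ i ∈ range (8 / 2 + 1), γ i * (cfn 8 i n : ℝ) ≤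
      ((n : ℝ) + 1) * ∑ i ∈ range (8 / 2 + 1), γ i * (cfn 8 i (n + 1) : ℝ))
    (hD : 5 * (((8 - 3 : ℕ) : ℝ)) * ∑ i ∈ range (8 / 2 + 1), γ i * (cfn 8 i (8 - 3) : ℝ) ≤
      (((8 - 2).choose 2 : ℕ) : ℝ) * ∑ i ∈ range (8 / 2 + 1), γ i * (cfn 8 i (8 - 2) : ℝ) +
      16 * ∑ i ∈ range (8 / 2 + 1), γ i * (cfn 8 i (8 - 4) : ℝ)) :
    ∀ j ≤ 8 / 2, 0 < Mat 8 γ j := by
  have k0 := q8_0 γ h0 h
  have k1 := q8_1 γ h0 h
  have k2 := q8_2 γ h0 h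
  have k3 := q8_3 γ h0 h
  have k4 := q8_4 γ h0 h
  have kD := D8 γ h0 hD
  intro j hj
  have hj' : j ≤ 4 := hj
  clear hj h hD
  interval_cases j
  · clear hj'
    rw [m8_0, h0]
    linarith only []
  · clear hj'
    rw [m8_1, h0]
    linarith only [k0, k1]
  · clear hj'
    rw [m8_2, h0]
    linarith only [k0, k2, k3, k1]
  · clear hj'
    rw [m8_3, h0]
    linarith only [k0, k3, k4, k1]
  · clear hj'
    rw [m8_4, h0]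
    linarith only [kD, k1]

theorem c9_0 (γ : ℕ → ℝ) : ∑ i ∈ range (9 / 2 + 1), γ i * (cfn 9 i 0 : ℝ) =
    (1) * γ 0 + (0) * γ 1 + (0) * γ 2 + (0) * γ 3 + (0) * γ 4 := by
  have h : ((9 / 2 + 1 : ℕ)) = 5 := rfl
  rw [h]
  simp only [sum_range_succ, sum_range_zero, show cfn 9 0 0 = 1 from by decide +kernel, show cfn 9 1 0 = 0 from by decide +kernel, show cfn 9 2 0 = 0 from by decide +kernel, show cfn 9 3 0 = 0 from by decide +kernel, show cfn 9 4 0 = 0 from by decide +kernel, Nat.cast_ofNat, Nat.cast_one, Nat.cast_zero]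
  ring

theorem c9_1 (γ : ℕ → ℝ) : ∑ i ∈ range (9 / 2 + 1), γ i * (cfn 9 i 1 : ℝ) =
    (18) * γ 0 + (1) * γ 1 + (0) * γ 2 + (0) * γ 3 + (0) * γ 4 := by
  have h : ((9 / 2 + 1 : ℕ)) = 5 := rfl
  rw [h]
  simp only [sum_range_succ, sum_range_zero, show cfn 9 0 1 = 18 from by decide +kernel, show cfn 9 1 1 = 1 from by decide +kernel, show cfn 9 2 1 = 0 from by decide +kernel, show cfn 9 3 1 = 0 from by decide +kernel, show cfn 9 4 1 = 0 from by decide +kernel, Nat.cast_ofNat, Nat.cast_one, Nat.cast_zero]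
  ring

theorem c9_2 (γ : ℕ → ℝ) : ∑ i ∈ range (9 / 2 + 1), γ i * (cfn 9 i 2 : ℝ) =
    (144) * γ 0 + (15) * γ 1 + (1) * γ 2 + (0) * γ 3 + (0) * γ 4 := by
  have h : ((9 / 2 + 1 : ℕ)) = 5 := rfl
  rw [h]
  simp only [sum_range_succ, sum_range_zero, show cfn 9 0 2 = 144 from by decide +kernel, show cfn 9 1 2 = 15 from by decide +kernel, show cfn 9 2 2 = 1 from by decide +kernel, show cfn 9 3 2 = 0 from by decide +kernel, show cfn 9 4 2 = 0 from by decide +kernel, Nat.cast_ofNat, Nat.cast_one, Nat.cast_zero]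
  ring

theorem c9_3 (γ : ℕ → ℝ) : ∑ i ∈ range (9 / 2 + 1), γ i * (cfn 9 i 3 : ℝ) =
    (672) * γ 0 + (98) * γ 1 + (12) * γ 2 + (1) * γ 3 + (0) * γ 4 := by
  have h : ((9 / 2 + 1 : ℕ)) = 5 := rfl
  rw [h]
  simp only [sum_range_succ, sum_range_zero, show cfn 9 0 3 = 672 from by decide +kernel, show cfn 9 1 3 = 98 from by decide +kernel, show cfn 9 2 3 = 12 from by decide +kernel, show cfn 9 3 3 = 1 from by decide +kernel, show cfn 9 4 3 = 0 from by decide +kernel, Nat.cast_ofNat, Nat.cast_one, Nat.cast_zero]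
  ring

theorem c9_4 (γ : ℕ → ℝ) : ∑ i ∈ range (9 / 2 + 1), γ i * (cfn 9 i 4 : ℝ) =
    (2016) * γ 0 + (364) * γ 1 + (61) * γ 2 + (9) * γ 3 + (1) * γ 4 := by
  have h : ((9 / 2 + 1 : ℕ)) = 5 := rfl
  rw [h]
  simp only [sum_range_succ, sum_range_zero, show cfn 9 0 4 = 2016 from by decide +kernel, show cfn 9 1 4 = 364 from by decide +kernel, show cfn 9 2 4 = 61 from by decide +kernel, show cfn 9 3 4 = 9 from by decide +kernel, show cfn 9 4 4 = 1 from by decide +kernel, Nat.cast_ofNat, Nat.cast_one, Nat.cast_zero]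
  ring

theorem c9_5 (γ : ℕ → ℝ) : ∑ i ∈ range (9 / 2 + 1), γ i * (cfn 9 i 5 : ℝ) =
    (4032) * γ 0 + (840) * γ 1 + (170) * γ 2 + (33) * γ 3 + (6) * γ 4 := by
  have h : ((9 / 2 + 1 : ℕ)) = 5 := rfl
  rw [h]
  simp only [sum_range_succ, sum_range_zero, show cfn 9 0 5 = 4032 from by decide +kernel, show cfn 9 1 5 = 840 from by decide +kernel, show cfn 9 2 5 = 170 from by decide +kernel, show cfn 9 3 5 = 33 from by decide +kernel, show cfn 9 4 5 = 6 from by decide +kernel, Nat.cast_ofNat, Nat.cast_one, Nat.cast_zero]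
  ring

theorem c9_6 (γ : ℕ → ℝ) : ∑ i ∈ range (9 / 2 + 1), γ i * (cfn 9 i 6 : ℝ) =
    (5376) * γ 0 + (1232) * γ 1 + (280) * γ 2 + (63) * γ 3 + (14) * γ 4 := by
  have h : ((9 / 2 + 1 : ℕ)) = 5 := rfl
  rw [h]
  simp only [sum_range_succ, sum_range_zero, show cfn 9 0 6 = 5376 from by decide +kernel, show cfn 9 1 6 = 1232 from by decide +kernel, show cfn 9 2 6 = 280 from by decide +kernel, show cfn 9 3 6 = 63 from by decide +kernel, show cfn 9 4 6 = 14 from by decide +kernel, Nat.cast_ofNat, Nat.cast_one, Nat.cast_zero]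
  ring

theorem c9_7 (γ : ℕ → ℝ) : ∑ i ∈ range (9 / 2 + 1), γ i * (cfn 9 i 7 : ℝ) =
    (4608) * γ 0 + (1120) * γ 1 + (272) * γ 2 + (66) * γ 3 + (16) * γ 4 := by
  have h : ((9 / 2 + 1 : ℕ)) = 5 := rfl
  rw [h]
  simp only [sum_range_succ, sum_range_zero, show cfn 9 0 7 = 4608 from by decide +kernel, show cfn 9 1 7 = 1120 from by decide +kernel, show cfn 9 2 7 = 272 from by decide +kernel, show cfn 9 3 7 = 66 from by decide +kernel, show cfn 9 4 7 = 16 from by decide +kernel, Nat.cast_ofNat, Nat.cast_one, Nat.cast_zero]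
  ring

theorem q9_0 (γ : ℕ → ℝ) (h0 : γ 0 = 1)
    (h : ∀ n < 9, 2 * (((9 : ℕ) : ℝ) - ((n : ℕ) : ℝ)) * ∑ i ∈ range (9 / 2 + 1), γ i * (cfn 9 i n : ℝ) ≤
      ((n : ℝ) + 1) * ∑ i ∈ range (9 / 2 + 1), γ i * (cfn 9 i (n + 1) : ℝ)) :
    0 ≤ (0) * γ 0 + (1) * γ 1 + (0) * γ 2 + (0) * γ 3 + (0) * γ 4 := by
  have h1 := h 0 (by norm_num)
  rw [show 0 + 1 = 1 from rfl, c9_0, c9_1] at h1
  norm_num [h0] at h1 ⊢
  linarith

theorem q9_1 (γ : ℕ → ℝ) (h0 : γ 0 = 1)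
    (h : ∀ n < 9, 2 * (((9 : ℕ) : ℝ) - ((n : ℕ) : ℝ)) * ∑ i ∈ range (9 / 2 + 1), γ i * (cfn 9 i n : ℝ) ≤
      ((n : ℝ) + 1) * ∑ i ∈ range (9 / 2 + 1), γ i * (cfn 9 i (n + 1) : ℝ)) :
    0 ≤ (0) * γ 0 + (14) * γ 1 + (2) * γ 2 + (0) * γ 3 + (0) * γ 4 := by
  have h1 := h 1 (by norm_num)
  rw [show 1 + 1 = 2 from rfl, c9_1, c9_2] at h1
  norm_num [h0] at h1 ⊢
  linarith

theorem q9_2 (γ : ℕ → ℝ) (h0 : γ 0 = 1)
    (h : ∀ n < 9, 2 * (((9 : ℕ) : ℝ) - ((n : ℕ) : ℝ)) * ∑ i ∈ range (9 / 2 + 1), γ i * (cfn 9 i n : ℝ) ≤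
      ((n : ℝ) + 1) * ∑ i ∈ range (9 / 2 + 1), γ i * (cfn 9 i (n + 1) : ℝ)) :
    0 ≤ (0) * γ 0 + (84) * γ 1 + (22) * γ 2 + (3) * γ 3 + (0) * γ 4 := by
  have h1 := h 2 (by norm_num)
  rw [show 2 + 1 = 3 from rfl, c9_2, c9_3] at h1
  norm_num [h0] at h1 ⊢
  linarith

theorem q9_3 (γ : ℕ → ℝ) (h0 : γ 0 = 1)
    (h : ∀ n < 9, 2 * (((9 : ℕ) : ℝ) - ((n : ℕ) : ℝ)) * ∑ i ∈ range (9 / 2 + 1), γ i * (cfn 9 i n : ℝ) ≤
      ((n : ℝ) + 1) * ∑ i ∈ range (9 / 2 + 1), γ i * (cfn 9 i (n + 1) : ℝ)) :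
    0 ≤ (0) * γ 0 + (280) * γ 1 + (100) * γ 2 + (24) * γ 3 + (4) * γ 4 := by
  have h1 := h 3 (by norm_num)
  rw [show 3 + 1 = 4 from rfl, c9_3, c9_4] at h1
  norm_num [h0] at h1 ⊢
  linarith

theorem q9_4 (γ : ℕ → ℝ) (h0 : γ 0 = 1)
    (h : ∀ n < 9, 2 * (((9 : ℕ) : ℝ) - ((n : ℕ) : ℝ)) * ∑ i ∈ range (9 / 2 + 1), γ i * (cfn 9 i n : ℝ) ≤
      ((n : ℝ) + 1) * ∑ i ∈ range (9 / 2 + 1), γ i * (cfn 9 i (n + 1) : ℝ)) :
    0 ≤ (0) * γ 0 + (560) * γ 1 + (240) * γ 2 + (75) * γ 3 + (20) * γ 4 := by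
  have h1 := h 4 (by norm_num)
  rw [show 4 + 1 = 5 from rfl, c9_4, c9_5] at h1
  norm_num [h0] at h1 ⊢
  linarith

theorem q9_6 (γ : ℕ → ℝ) (h0 : γ 0 = 1)
    (h : ∀ n < 9, 2 * (((9 : ℕ) : ℝ) - ((n : ℕ) : ℝ)) * ∑ i ∈ range (9 / 2 + 1), γ i * (cfn 9 i n : ℝ) ≤
      ((n : ℝ) + 1) * ∑ i ∈ range (9 / 2 + 1), γ i * (cfn 9 i (n + 1) : ℝ)) :
    0 ≤ (0) * γ 0 + (448) * γ 1 + (224) * γ 2 + (84) * γ 3 + (28) * γ 4 := by
  have h1 := h 6 (by norm_num)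
  rw [show 6 + 1 = 7 from rfl, c9_6, c9_7] at h1
  norm_num [h0] at h1 ⊢
  linarith

theorem D9 (γ : ℕ → ℝ) (h0 : γ 0 = 1)
    (h : 5 * (((9 - 3 : ℕ) : ℝ)) * ∑ i ∈ range (9 / 2 + 1), γ i * (cfn 9 i (9 - 3) : ℝ) ≤
      (((9 - 2).choose 2 : ℕ) : ℝ) * ∑ i ∈ range (9 / 2 + 1), γ i * (cfn 9 i (9 - 2) : ℝ) +
      16 * ∑ i ∈ range (9 / 2 + 1), γ i * (cfn 9 i (9 - 4) : ℝ)) :
    0 ≤ (0) * γ 0 + (0) * γ 1 + (32) * γ 2 + (24) * γ 3 + (12) * γ 4 := by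
  rw [show 9 - 3 = 6 from rfl, show 9 - 2 = 7 from rfl, show 9 - 4 = 5 from rfl,
    c9_6, c9_7, c9_5, show (7 : ℕ).choose 2 = 21 from by decide +kernel] at h
  norm_num [h0] at h ⊢
  linarith

theorem m9_0 (γ : ℕ → ℝ) : Mat 9 γ 0 = (1) * γ 0 + (0) * γ 1 + (0) * γ 2 + (0) * γ 3 + (0) * γ 4 := by
  unfold Mat
  rw [show (9 / 2 + 1 : ℕ) = 5 from rfl]
  simp [sum_range_succ, Nat.choose]
  try ring

theorem m9_1 (γ : ℕ → ℝ) : Mat 9 γ 1 = (144) * γ 0 + (16) * γ 1 + (1) * γ 2 + (0) * γ 3 + (0) * γ 4 := by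
  unfold Mat
  rw [show (9 / 2 + 1 : ℕ) = 5 from rfl]
  simp [sum_range_succ, Nat.choose]
  try ring

theorem m9_2 (γ : ℕ → ℝ) : Mat 9 γ 2 = (2016) * γ 0 + (448) * γ 1 + (84) * γ 2 + (12) * γ 3 + (1) * γ 4 := by
  unfold Mat
  rw [show (9 / 2 + 1 : ℕ) = 5 from rfl]
  simp [sum_range_succ, Nat.choose]
  try ring

theorem m9_3 (γ : ℕ → ℝ) : Mat 9 γ 3 = (5376) * γ 0 + (1792) * γ 1 + (560) * γ 2 + (160) * γ 3 + (40) * γ 4 := by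
  unfold Mat
  rw [show (9 / 2 + 1 : ℕ) = 5 from rfl]
  simp [sum_range_succ, Nat.choose]
  try ring

theorem m9_4 (γ : ℕ → ℝ) : Mat 9 γ 4 = (2304) * γ 0 + (1024) * γ 1 + (448) * γ 2 + (192) * γ 3 + (80) * γ 4 := by
  unfold Mat
  rw [show (9 / 2 + 1 : ℕ) = 5 from rfl]
  simp [sum_range_succ, Nat.choose]
  try ring

theorem main9 (γ : ℕ → ℝ) (h0 : γ 0 = 1)
    (h : ∀ n < 9, 2 * (((9 : ℕ) : ℝ) - ((n : ℕ) : ℝ)) * ∑ i ∈ range (9 / 2 + 1), γ i * (cfn 9 i n : ℝ) ≤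
      ((n : ℝ) + 1) * ∑ i ∈ range (9 / 2 + 1), γ i * (cfn 9 i (n + 1) : ℝ))
    (hD : 5 * (((9 - 3 : ℕ) : ℝ)) * ∑ i ∈ range (9 / 2 + 1), γ i * (cfn 9 i (9 - 3) : ℝ) ≤
      (((9 - 2).choose 2 : ℕ) : ℝ) * ∑ i ∈ range (9 / 2 + 1), γ i * (cfn 9 i (9 - 2) : ℝ) +
      16 * ∑ i ∈ range (9 / 2 + 1), γ i * (cfn 9 i (9 - 4) : ℝ)) :
    ∀ j ≤ 9 / 2, 0 < Mat 9 γ j := by
  have k0 := q9_0 γ h0 h
  have k1 := q9_1 γ h0 h
  have k2 := q9_2 γ h0 h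
  have k3 := q9_3 γ h0 h
  have k4 := q9_4 γ h0 h
  have k6 := q9_6 γ h0 h
  have kD := D9 γ h0 hD
  intro j hj
  have hj' : j ≤ 4 := hj
  clear hj h hD
  interval_cases j
  · clear hj'
    rw [m9_0, h0]
    linarith only []
  · clear hj'
    rw [m9_1, h0]
    linarith only [k0, k1]
  · clear hj'
    rw [m9_2, h0]
    linarith only [k0, k2, k3, k1]
  · clear hj'
    rw [m9_3, h0]
    linarith only [k0, k3, k4, k1]
  · clear hj'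
    rw [m9_4, h0]
    linarith only [k0, k6, kD, k1]

end PkgNUMA

end Pool.Agent.T2H83.GR
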