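import Pool.Agent.T2H83.GR.Stm

set_option autoImplicit false
set_option linter.unusedSimpArgs false
set_option linter.unusedVariables false

/-!
# Numerical inequalities with the inequality of Davis and Okun (generated by a computer program)
-/

namespace Pool.Agent.T2H83.GR

open Finset

namespace PkgNUMB

theorem c14_0 (γ : ℕ → ℝ) : ∑ i ∈ range (14 / 2 + 1), γ i * (cfn 14 i 0 : ℝ) =
    (1) * γ 0 + (0) * γ 1 + (0) * γ 2 + (0) * γ 3 + (0) * γ 4 + (0) * γ 5 + (0) * γ 6 + (0) * γ 7 := by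
  have h : ((14 / 2 + 1 : ℕ)) = 8 := rfl
  rw [h]
  simp only [sum_range_succ, sum_range_zero, show cfn 14 0 0 = 1 from by decide +kernel, show cfn 14 1 0 = 0 from by decide +kernel, show cfn 14 2 0 = 0 from by decide +kernel, show cfn 14 3 0 = 0 from by decide +kernel, show cfn 14 4 0 = 0 from by decide +kernel, show cfn 14 5 0 = 0 from by decide +kernel, show cfn 14 6 0 = 0 from by decide +kernel, show cfn 14 7 0 = 0 from by decide +kernel, Nat.cast_ofNat, Nat.cast_one, Nat.cast_zero]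
  ring

theorem c14_1 (γ : ℕ → ℝ) : ∑ i ∈ range (14 / 2 + 1), γ i * (cfn 14 i 1 : ℝ) =
    (28) * γ 0 + (1) * γ 1 + (0) * γ 2 + (0) * γ 3 + (0) * γ 4 + (0) * γ 5 + (0) * γ 6 + (0) * γ 7 := by
  have h : ((14 / 2 + 1 : ℕ)) = 8 := rfl
  rw [h]
  simp only [sum_range_succ, sum_range_zero, show cfn 14 0 1 = 28 from by decide +kernel, show cfn 14 1 1 = 1 from by decide +kernel, show cfn 14 2 1 = 0 from by decide +kernel, show cfn 14 3 1 = 0 from by decide +kernel, show cfn 14 4 1 = 0 from by decide +kernel, show cfn 14 5 1 = 0 from by decide +kernel, show cfn 14 6 1 = 0 from by decide +kernel, show cfn 14 7 1 = 0 from by decide +kernel, Nat.cast_ofNat, Nat.cast_one, Nat.cast_zero]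
  ring

theorem c14_2 (γ : ℕ → ℝ) : ∑ i ∈ range (14 / 2 + 1), γ i * (cfn 14 i 2 : ℝ) =
    (364) * γ 0 + (25) * γ 1 + (1) * γ 2 + (0) * γ 3 + (0) * γ 4 + (0) * γ 5 + (0) * γ 6 + (0) * γ 7 := by
  have h : ((14 / 2 + 1 : ℕ)) = 8 := rfl
  rw [h]
  simp only [sum_range_succ, sum_range_zero, show cfn 14 0 2 = 364 from by decide +kernel, show cfn 14 1 2 = 25 from by decide +kernel, show cfn 14 2 2 = 1 from by decide +kernel, show cfn 14 3 2 = 0 from by decide +kernel, show cfn 14 4 2 = 0 from by decide +kernel, show cfn 14 5 2 = 0 from by decide +kernel, show cfn 14 6 2 = 0 from by decide +kernel, show cfn 14 7 2 = 0 from by decide +kernel, Nat.cast_ofNat, Nat.cast_one, Nat.cast_zero]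
  ring

theorem c14_3 (γ : ℕ → ℝ) : ∑ i ∈ range (14 / 2 + 1), γ i * (cfn 14 i 3 : ℝ) =
    (2912) * γ 0 + (288) * γ 1 + (22) * γ 2 + (1) * γ 3 + (0) * γ 4 + (0) * γ 5 + (0) * γ 6 + (0) * γ 7 := by
  have h : ((14 / 2 + 1 : ℕ)) = 8 := rfl
  rw [h]
  simp only [sum_range_succ, sum_range_zero, show cfn 14 0 3 = 2912 from by decide +kernel, show cfn 14 1 3 = 288 from by decide +kernel, show cfn 14 2 3 = 22 from by decide +kernel, show cfn 14 3 3 = 1 from by decide +kernel, show cfn 14 4 3 = 0 from by decide +kernel, show cfn 14 5 3 = 0 from by decide +kernel, show cfn 14 6 3 = 0 from by decide +kernel, show cfn 14 7 3 = 0 from by decide +kernel, Nat.cast_ofNat, Nat.cast_one, Nat.cast_zero]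
  ring

theorem c14_4 (γ : ℕ → ℝ) : ∑ i ∈ range (14 / 2 + 1), γ i * (cfn 14 i 4 : ℝ) =
    (16016) * γ 0 + (2024) * γ 1 + (221) * γ 2 + (19) * γ 3 + (1) * γ 4 + (0) * γ 5 + (0) * γ 6 + (0) * γ 7 := by
  have h : ((14 / 2 + 1 : ℕ)) = 8 := rfl
  rw [h]
  simp only [sum_range_succ, sum_range_zero, show cfn 14 0 4 = 16016 from by decide +kernel, show cfn 14 1 4 = 2024 from by decide +kernel, show cfn 14 2 4 = 221 from by decide +kernel, show cfn 14 3 4 = 19 from by decide +kernel, show cfn 14 4 4 = 1 from by decide +kernel, show cfn 14 5 4 = 0 from by decide +kernel, show cfn 14 6 4 = 0 from by decide +kernel, show cfn 14 7 4 = 0 from by decide +kernel, Nat.cast_ofNat, Nat.cast_one, Nat.cast_zero]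
  ring

theorem c14_5 (γ : ℕ → ℝ) : ∑ i ∈ range (14 / 2 + 1), γ i * (cfn 14 i 5 : ℝ) =
    (64064) * γ 0 + (9680) * γ 1 + (1340) * γ 2 + (163) * γ 3 + (16) * γ 4 + (1) * γ 5 + (0) * γ 6 + (0) * γ 7 := by
  have h : ((14 / 2 + 1 : ℕ)) = 8 := rfl
  rw [h]
  simp only [sum_range_succ, sum_range_zero, show cfn 14 0 5 = 64064 from by decide +kernel, show cfn 14 1 5 = 9680 from by decide +kernel, show cfn 14 2 5 = 1340 from by decide +kernel, show cfn 14 3 5 = 163 from by decide +kernel, show cfn 14 4 5 = 16 from by decide +kernel, show cfn 14 5 5 = 1 from by decide +kernel, show cfn 14 6 5 = 0 from by decide +kernel, show cfn 14 7 5 = 0 from by decide +kernel, Nat.cast_ofNat, Nat.cast_one, Nat.cast_zero]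
  ring

theorem c14_6 (γ : ℕ → ℝ) : ∑ i ∈ range (14 / 2 + 1), γ i * (cfn 14 i 6 : ℝ) =
    (192192) * γ 0 + (33264) * γ 1 + (5460) * γ 2 + (833) * γ 3 + (114) * γ 4 + (13) * γ 5 + (1) * γ 6 + (0) * γ 7 := by
  have h : ((14 / 2 + 1 : ℕ)) = 8 := rfl
  rw [h]
  simp only [sum_range_succ, sum_range_zero, show cfn 14 0 6 = 192192 from by decide +kernel, show cfn 14 1 6 = 33264 from by decide +kernel, show cfn 14 2 6 = 5460 from by decide +kernel, show cfn 14 3 6 = 833 from by decide +kernel, show cfn 14 4 6 = 114 from by decide +kernel, show cfn 14 5 6 = 13 from by decide +kernel, show cfn 14 6 6 = 1 from by decide +kernel, show cfn 14 7 6 = 0 from by decide +kernel, Nat.cast_ofNat, Nat.cast_one, Nat.cast_zero]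
  ring

theorem c14_7 (γ : ℕ → ℝ) : ∑ i ∈ range (14 / 2 + 1), γ i * (cfn 14 i 7 : ℝ) =
    (439296) * γ 0 + (84480) * γ 1 + (15744) * γ 2 + (2816) * γ 3 + (476) * γ 4 + (74) * γ 5 + (10) * γ 6 + (1) * γ 7 := by
  have h : ((14 / 2 + 1 : ℕ)) = 8 := rfl
  rw [h]
  simp only [sum_range_succ, sum_range_zero, show cfn 14 0 7 = 439296 from by decide +kernel, show cfn 14 1 7 = 84480 from by decide +kernel, show cfn 14 2 7 = 15744 from by decide +kernel, show cfn 14 3 7 = 2816 from by decide +kernel, show cfn 14 4 7 = 476 from by decide +kernel, show cfn 14 5 7 = 74 from by decide +kernel, show cfn 14 6 7 = 10 from by decide +kernel, show cfn 14 7 7 = 1 from by decide +kernel, Nat.cast_ofNat, Nat.cast_one, Nat.cast_zero]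
  ring

theorem c14_8 (γ : ℕ → ℝ) : ∑ i ∈ range (14 / 2 + 1), γ i * (cfn 14 i 8 : ℝ) =
    (768768) * γ 0 + (160512) * γ 1 + (32928) * γ 2 + (6608) * γ 3 + (1289) * γ 4 + (242) * γ 5 + (43) * γ 6 + (7) * γ 7 := by
  have h : ((14 / 2 + 1 : ℕ)) = 8 := rfl
  rw [h]
  simp only [sum_range_succ, sum_range_zero, show cfn 14 0 8 = 768768 from by decide +kernel, show cfn 14 1 8 = 160512 from by decide +kernel, show cfn 14 2 8 = 32928 from by decide +kernel, show cfn 14 3 8 = 6608 from by decide +kernel, show cfn 14 4 8 = 1289 from by decide +kernel, show cfn 14 5 8 = 242 from by decide +kernel, show cfn 14 6 8 = 43 from by decide +kernel, show cfn 14 7 8 = 7 from by decide +kernel, Nat.cast_ofNat, Nat.cast_one, Nat.cast_zero]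
  ring

theorem c14_9 (γ : ℕ → ℝ) : ∑ i ∈ range (14 / 2 + 1), γ i * (cfn 14 i 9 : ℝ) =
    (1025024) * γ 0 + (228096) * γ 1 + (50304) * γ 2 + (10976) * γ 3 + (2364) * γ 4 + (501) * γ 5 + (104) * γ 6 + (21) * γ 7 := by
  have h : ((14 / 2 + 1 : ℕ)) = 8 := rfl
  rw [h]
  simp only [sum_range_succ, sum_range_zero, show cfn 14 0 9 = 1025024 from by decide +kernel, show cfn 14 1 9 = 228096 from by decide +kernel, show cfn 14 2 9 = 50304 from by decide +kernel, show cfn 14 3 9 = 10976 from by decide +kernel, show cfn 14 4 9 = 2364 from by decide +kernel, show cfn 14 5 9 = 501 from by decide +kernel, show cfn 14 6 9 = 104 from by decide +kernel, show cfn 14 7 9 = 21 from by decide +kernel, Nat.cast_ofNat, Nat.cast_one, Nat.cast_zero]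
  ring

theorem c14_10 (γ : ℕ → ℝ) : ∑ i ∈ range (14 / 2 + 1), γ i * (cfn 14 i 10 : ℝ) =
    (1025024) * γ 0 + (239360) * γ 1 + (55680) * γ 2 + (12896) * γ 3 + (2972) * γ 4 + (681) * γ 5 + (155) * γ 6 + (35) * γ 7 := by
  have h : ((14 / 2 + 1 : ℕ)) = 8 := rfl
  rw [h]
  simp only [sum_range_succ, sum_range_zero, show cfn 14 0 10 = 1025024 from by decide +kernel, show cfn 14 1 10 = 239360 from by decide +kernel, show cfn 14 2 10 = 55680 from by decide +kernel, show cfn 14 3 10 = 12896 from by decide +kernel, show cfn 14 4 10 = 2972 from by decide +kernel, show cfn 14 5 10 = 681 from by decide +kernel, show cfn 14 6 10 = 155 from by decide +kernel, show cfn 14 7 10 = 35 from by decide +kernel, Nat.cast_ofNat, Nat.cast_one, Nat.cast_zero]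
  ring

theorem c14_11 (γ : ℕ → ℝ) : ∑ i ∈ range (14 / 2 + 1), γ i * (cfn 14 i 11 : ℝ) =
    (745472) * γ 0 + (180224) * γ 1 + (43520) * γ 2 + (10496) * γ 3 + (2528) * γ 4 + (608) * γ 5 + (146) * γ 6 + (35) * γ 7 := by
  have h : ((14 / 2 + 1 : ℕ)) = 8 := rfl
  rw [h]
  simp only [sum_range_succ, sum_range_zero, show cfn 14 0 11 = 745472 from by decide +kernel, show cfn 14 1 11 = 180224 from by decide +kernel, show cfn 14 2 11 = 43520 from by decide +kernel, show cfn 14 3 11 = 10496 from by decide +kernel, show cfn 14 4 11 = 2528 from by decide +kernel, show cfn 14 5 11 = 608 from by decide +kernel, show cfn 14 6 11 = 146 from by decide +kernel, show cfn 14 7 11 = 35 from by decide +kernel, Nat.cast_ofNat, Nat.cast_one, Nat.cast_zero]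
  ring

theorem c14_12 (γ : ℕ → ℝ) : ∑ i ∈ range (14 / 2 + 1), γ i * (cfn 14 i 12 : ℝ) =
    (372736) * γ 0 + (92160) * γ 1 + (22784) * γ 2 + (5632) * γ 3 + (1392) * γ 4 + (344) * γ 5 + (85) * γ 6 + (21) * γ 7 := by
  have h : ((14 / 2 + 1 : ℕ)) = 8 := rfl
  rw [h]
  simp only [sum_range_succ, sum_range_zero, show cfn 14 0 12 = 372736 from by decide +kernel, show cfn 14 1 12 = 92160 from by decide +kernel, show cfn 14 2 12 = 22784 from by decide +kernel, show cfn 14 3 12 = 5632 from by decide +kernel, show cfn 14 4 12 = 1392 from by decide +kernel, show cfn 14 5 12 = 344 from by decide +kernel, show cfn 14 6 12 = 85 from by decide +kernel, show cfn 14 7 12 = 21 from by decide +kernel, Nat.cast_ofNat, Nat.cast_one, Nat.cast_zero]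
  ring

theorem q14_0 (γ : ℕ → ℝ) (h0 : γ 0 = 1)
    (h : ∀ n < 14, 2 * (((14 : ℕ) : ℝ) - ((n : ℕ) : ℝ)) * ∑ i ∈ range (14 / 2 + 1), γ i * (cfn 14 i n : ℝ) ≤
      ((n : ℝ) + 1) * ∑ i ∈ range (14 / 2 + 1), γ i * (cfn 14 i (n + 1) : ℝ)) :
    0 ≤ (0) * γ 0 + (1) * γ 1 + (0) * γ 2 + (0) * γ 3 + (0) * γ 4 + (0) * γ 5 + (0) * γ 6 + (0) * γ 7 := by
  have h1 := h 0 (by norm_num)
  rw [show 0 + 1 = 1 from rfl, c14_0, c14_1] at h1
  norm_num [h0] at h1 ⊢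
  linarith

theorem q14_1 (γ : ℕ → ℝ) (h0 : γ 0 = 1)
    (h : ∀ n < 14, 2 * (((14 : ℕ) : ℝ) - ((n : ℕ) : ℝ)) * ∑ i ∈ range (14 / 2 + 1), γ i * (cfn 14 i n : ℝ) ≤
      ((n : ℝ) + 1) * ∑ i ∈ range (14 / 2 + 1), γ i * (cfn 14 i (n + 1) : ℝ)) :
    0 ≤ (0) * γ 0 + (24) * γ 1 + (2) * γ 2 + (0) * γ 3 + (0) * γ 4 + (0) * γ 5 + (0) * γ 6 + (0) * γ 7 := by
  have h1 := h 1 (by norm_num)
  rw [show 1 + 1 = 2 from rfl, c14_1, c14_2] at h1
  norm_num [h0] at h1 ⊢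
  linarith

theorem q14_2 (γ : ℕ → ℝ) (h0 : γ 0 = 1)
    (h : ∀ n < 14, 2 * (((14 : ℕ) : ℝ) - ((n : ℕ) : ℝ)) * ∑ i ∈ range (14 / 2 + 1), γ i * (cfn 14 i n : ℝ) ≤
      ((n : ℝ) + 1) * ∑ i ∈ range (14 / 2 + 1), γ i * (cfn 14 i (n + 1) : ℝ)) :
    0 ≤ (0) * γ 0 + (264) * γ 1 + (42) * γ 2 + (3) * γ 3 + (0) * γ 4 + (0) * γ 5 + (0) * γ 6 + (0) * γ 7 := by
  have h1 := h 2 (by norm_num)
  rw [show 2 + 1 = 3 from rfl, c14_2, c14_3] at h1
  norm_num [h0] at h1 ⊢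
  linarith

theorem q14_3 (γ : ℕ → ℝ) (h0 : γ 0 = 1)
    (h : ∀ n < 14, 2 * (((14 : ℕ) : ℝ) - ((n : ℕ) : ℝ)) * ∑ i ∈ range (14 / 2 + 1), γ i * (cfn 14 i n : ℝ) ≤
      ((n : ℝ) + 1) * ∑ i ∈ range (14 / 2 + 1), γ i * (cfn 14 i (n + 1) : ℝ)) :
    0 ≤ (0) * γ 0 + (1760) * γ 1 + (400) * γ 2 + (54) * γ 3 + (4) * γ 4 + (0) * γ 5 + (0) * γ 6 + (0) * γ 7 := by
  have h1 := h 3 (by norm_num)
  rw [show 3 + 1 = 4 from rfl, c14_3, c14_4] at h1
  norm_num [h0] at h1 ⊢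
  linarith

theorem q14_4 (γ : ℕ → ℝ) (h0 : γ 0 = 1)
    (h : ∀ n < 14, 2 * (((14 : ℕ) : ℝ) - ((n : ℕ) : ℝ)) * ∑ i ∈ range (14 / 2 + 1), γ i * (cfn 14 i n : ℝ) ≤
      ((n : ℝ) + 1) * ∑ i ∈ range (14 / 2 + 1), γ i * (cfn 14 i (n + 1) : ℝ)) :
    0 ≤ (0) * γ 0 + (7920) * γ 1 + (2280) * γ 2 + (435) * γ 3 + (60) * γ 4 + (5) * γ 5 + (0) * γ 6 + (0) * γ 7 := by
  have h1 := h 4 (by norm_num)
  rw [show 4 + 1 = 5 from rfl, c14_4, c14_5] at h1
  norm_num [h0] at h1 ⊢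
  linarith

theorem q14_5 (γ : ℕ → ℝ) (h0 : γ 0 = 1)
    (h : ∀ n < 14, 2 * (((14 : ℕ) : ℝ) - ((n : ℕ) : ℝ)) * ∑ i ∈ range (14 / 2 + 1), γ i * (cfn 14 i n : ℝ) ≤
      ((n : ℝ) + 1) * ∑ i ∈ range (14 / 2 + 1), γ i * (cfn 14 i (n + 1) : ℝ)) :
    0 ≤ (0) * γ 0 + (25344) * γ 1 + (8640) * γ 2 + (2064) * γ 3 + (396) * γ 4 + (60) * γ 5 + (6) * γ 6 + (0) * γ 7 := by
  have h1 := h 5 (by norm_num)
  rw [show 5 + 1 = 6 from rfl, c14_5, c14_6] at h1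
  norm_num [h0] at h1 ⊢
  linarith

theorem q14_6 (γ : ℕ → ℝ) (h0 : γ 0 = 1)
    (h : ∀ n < 14, 2 * (((14 : ℕ) : ℝ) - ((n : ℕ) : ℝ)) * ∑ i ∈ range (14 / 2 + 1), γ i * (cfn 14 i n : ℝ) ≤
      ((n : ℝ) + 1) * ∑ i ∈ range (14 / 2 + 1), γ i * (cfn 14 i (n + 1) : ℝ)) :
    0 ≤ (0) * γ 0 + (59136) * γ 1 + (22848) * γ 2 + (6384) * γ 3 + (1508) * γ 4 + (310) * γ 5 + (54) * γ 6 + (7) * γ 7 := by
  have h1 := h 6 (by norm_num)
  rw [show 6 + 1 = 7 from rfl, c14_6, c14_7] at h1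
  norm_num [h0] at h1 ⊢
  linarith

theorem q14_7 (γ : ℕ → ℝ) (h0 : γ 0 = 1)
    (h : ∀ n < 14, 2 * (((14 : ℕ) : ℝ) - ((n : ℕ) : ℝ)) * ∑ i ∈ range (14 / 2 + 1), γ i * (cfn 14 i n : ℝ) ≤
      ((n : ℝ) + 1) * ∑ i ∈ range (14 / 2 + 1), γ i * (cfn 14 i (n + 1) : ℝ)) :
    0 ≤ (0) * γ 0 + (101376) * γ 1 + (43008) * γ 2 + (13440) * γ 3 + (3648) * γ 4 + (900) * γ 5 + (204) * γ 6 + (42) * γ 7 := by
  have h1 := h 7 (by norm_num)
  rw [show 7 + 1 = 8 from rfl, c14_7, c14_8] at h1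
  norm_num [h0] at h1 ⊢
  linarith

theorem q14_8 (γ : ℕ → ℝ) (h0 : γ 0 = 1)
    (h : ∀ n < 14, 2 * (((14 : ℕ) : ℝ) - ((n : ℕ) : ℝ)) * ∑ i ∈ range (14 / 2 + 1), γ i * (cfn 14 i n : ℝ) ≤
      ((n : ℝ) + 1) * ∑ i ∈ range (14 / 2 + 1), γ i * (cfn 14 i (n + 1) : ℝ)) :
    0 ≤ (0) * γ 0 + (126720) * γ 1 + (57600) * γ 2 + (19488) * γ 3 + (5808) * γ 4 + (1605) * γ 5 + (420) * γ 6 + (105) * γ 7 := by
  have h1 := h 8 (by norm_num)
  rw [show 8 + 1 = 9 from rfl, c14_8, c14_9] at h1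
  norm_num [h0] at h1 ⊢
  linarith

theorem q14_9 (γ : ℕ → ℝ) (h0 : γ 0 = 1)
    (h : ∀ n < 14, 2 * (((14 : ℕ) : ℝ) - ((n : ℕ) : ℝ)) * ∑ i ∈ range (14 / 2 + 1), γ i * (cfn 14 i n : ℝ) ≤
      ((n : ℝ) + 1) * ∑ i ∈ range (14 / 2 + 1), γ i * (cfn 14 i (n + 1) : ℝ)) :
    0 ≤ (0) * γ 0 + (112640) * γ 1 + (53760) * γ 2 + (19200) * γ 3 + (6080) * γ 4 + (1800) * γ 5 + (510) * γ 6 + (140) * γ 7 := by
  have h1 := h 9 (by norm_num)
  rw [show 9 + 1 = 10 from rfl, c14_9, c14_10] at h1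
  norm_num [h0] at h1 ⊢
  linarith

theorem q14_10 (γ : ℕ → ℝ) (h0 : γ 0 = 1)
    (h : ∀ n < 14, 2 * (((14 : ℕ) : ℝ) - ((n : ℕ) : ℝ)) * ∑ i ∈ range (14 / 2 + 1), γ i * (cfn 14 i n : ℝ) ≤
      ((n : ℝ) + 1) * ∑ i ∈ range (14 / 2 + 1), γ i * (cfn 14 i (n + 1) : ℝ)) :
    0 ≤ (0) * γ 0 + (67584) * γ 1 + (33280) * γ 2 + (12288) * γ 3 + (4032) * γ 4 + (1240) * γ 5 + (366) * γ 6 + (105) * γ 7 := by
  have h1 := h 10 (by norm_num)
  rw [show 10 + 1 = 11 from rfl, c14_10, c14_11] at h1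
  norm_num [h0] at h1 ⊢
  linarith

theorem q14_11 (γ : ℕ → ℝ) (h0 : γ 0 = 1)
    (h : ∀ n < 14, 2 * (((14 : ℕ) : ℝ) - ((n : ℕ) : ℝ)) * ∑ i ∈ range (14 / 2 + 1), γ i * (cfn 14 i n : ℝ) ≤
      ((n : ℝ) + 1) * ∑ i ∈ range (14 / 2 + 1), γ i * (cfn 14 i (n + 1) : ℝ)) :
    0 ≤ (0) * γ 0 + (24576) * γ 1 + (12288) * γ 2 + (4608) * γ 3 + (1536) * γ 4 + (480) * γ 5 + (144) * γ 6 + (42) * γ 7 := by
  have h1 := h 11 (by norm_num)
  rw [show 11 + 1 = 12 from rfl, c14_11, c14_12] at h1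
  norm_num [h0] at h1 ⊢
  linarith

theorem D14 (γ : ℕ → ℝ) (h0 : γ 0 = 1)
    (h : 5 * (((14 - 3 : ℕ) : ℝ)) * ∑ i ∈ range (14 / 2 + 1), γ i * (cfn 14 i (14 - 3) : ℝ) ≤
      (((14 - 2).choose 2 : ℕ) : ℝ) * ∑ i ∈ range (14 / 2 + 1), γ i * (cfn 14 i (14 - 2) : ℝ) +
      16 * ∑ i ∈ range (14 / 2 + 1), γ i * (cfn 14 i (14 - 4) : ℝ)) :
    0 ≤ (0) * γ 0 + (0) * γ 1 + (1024) * γ 2 + (768) * γ 3 + (384) * γ 4 + (160) * γ 5 + (60) * γ 6 + (21) * γ 7 := by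
  rw [show 14 - 3 = 11 from rfl, show 14 - 2 = 12 from rfl, show 14 - 4 = 10 from rfl,
    c14_11, c14_12, c14_10, show (12 : ℕ).choose 2 = 66 from by decide +kernel] at h
  norm_num [h0] at h ⊢
  linarith

theorem m14_0 (γ : ℕ → ℝ) : Mat 14 γ 0 = (1) * γ 0 + (0) * γ 1 + (0) * γ 2 + (0) * γ 3 + (0) * γ 4 + (0) * γ 5 + (0) * γ 6 + (0) * γ 7 := by
  unfold Mat
  rw [show (14 / 2 + 1 : ℕ) = 8 from rfl]
  simp [sum_range_succ, Nat.choose]
  try ring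

theorem m14_1 (γ : ℕ → ℝ) : Mat 14 γ 1 = (364) * γ 0 + (26) * γ 1 + (1) * γ 2 + (0) * γ 3 + (0) * γ 4 + (0) * γ 5 + (0) * γ 6 + (0) * γ 7 := by
  unfold Mat
  rw [show (14 / 2 + 1 : ℕ) = 8 from rfl]
  simp [sum_range_succ, Nat.choose]
  try ring

theorem m14_2 (γ : ℕ → ℝ) : Mat 14 γ 2 = (16016) * γ 0 + (2288) * γ 1 + (264) * γ 2 + (22) * γ 3 + (1) * γ 4 + (0) * γ 5 + (0) * γ 6 + (0) * γ 7 := by
  unfold Mat
  rw [show (14 / 2 + 1 : ℕ) = 8 from rfl]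
  simp [sum_range_succ, Nat.choose]
  try ring

theorem m14_3 (γ : ℕ → ℝ) : Mat 14 γ 3 = (192192) * γ 0 + (41184) * γ 1 + (7920) * γ 2 + (1320) * γ 3 + (180) * γ 4 + (18) * γ 5 + (1) * γ 6 + (0) * γ 7 := by
  unfold Mat
  rw [show (14 / 2 + 1 : ℕ) = 8 from rfl]
  simp [sum_range_succ, Nat.choose]
  try ring

theorem m14_4 (γ : ℕ → ℝ) : Mat 14 γ 4 = (768768) * γ 0 + (219648) * γ 1 + (59136) * γ 2 + (14784) * γ 3 + (3360) * γ 4 + (672) * γ 5 + (112) * γ 6 + (14) * γ 7 := by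
  unfold Mat
  rw [show (14 / 2 + 1 : ℕ) = 8 from rfl]
  simp [sum_range_succ, Nat.choose]
  try ring

theorem m14_5 (γ : ℕ → ℝ) : Mat 14 γ 5 = (1025024) * γ 0 + (366080) * γ 1 + (126720) * γ 2 + (42240) * γ 3 + (13440) * γ 4 + (4032) * γ 5 + (1120) * γ 6 + (280) * γ 7 := by
  unfold Mat
  rw [show (14 / 2 + 1 : ℕ) = 8 from rfl]
  simp [sum_range_succ, Nat.choose]
  try ring

theorem m14_6 (γ : ℕ → ℝ) : Mat 14 γ 6 = (372736) * γ 0 + (159744) * γ 1 + (67584) * γ 2 + (28160) * γ 3 + (11520) * γ 4 + (4608) * γ 5 + (1792) * γ 6 + (672) * γ 7 := by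
  unfold Mat
  rw [show (14 / 2 + 1 : ℕ) = 8 from rfl]
  simp [sum_range_succ, Nat.choose]
  try ring

theorem m14_7 (γ : ℕ → ℝ) : Mat 14 γ 7 = (16384) * γ 0 + (8192) * γ 1 + (4096) * γ 2 + (2048) * γ 3 + (1024) * γ 4 + (512) * γ 5 + (256) * γ 6 + (128) * γ 7 := by
  unfold Mat
  rw [show (14 / 2 + 1 : ℕ) = 8 from rfl]
  simp [sum_range_succ, Nat.choose]
  try ring

theorem main14 (γ : ℕ → ℝ) (h0 : γ 0 = 1)
    (h : ∀ n < 14, 2 * (((14 : ℕ) : ℝ) - ((n : ℕ) : ℝ)) * ∑ i ∈ range (14 / 2 + 1), γ i * (cfn 14 i n : ℝ) ≤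
      ((n : ℝ) + 1) * ∑ i ∈ range (14 / 2 + 1), γ i * (cfn 14 i (n + 1) : ℝ))
    (hD : 5 * (((14 - 3 : ℕ) : ℝ)) * ∑ i ∈ range (14 / 2 + 1), γ i * (cfn 14 i (14 - 3) : ℝ) ≤
      (((14 - 2).choose 2 : ℕ) : ℝ) * ∑ i ∈ range (14 / 2 + 1), γ i * (cfn 14 i (14 - 2) : ℝ) +
      16 * ∑ i ∈ range (14 / 2 + 1), γ i * (cfn 14 i (14 - 4) : ℝ)) :
    ∀ j ≤ 14 / 2, 0 < Mat 14 (Mat 14 γ) j := by
  have k0 := q14_0 γ h0 h
  have k1 := q14_1 γ h0 h
  have k2 := q14_2 γ h0 h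
  have k3 := q14_3 γ h0 h
  have k4 := q14_4 γ h0 h
  have k5 := q14_5 γ h0 h
  have k6 := q14_6 γ h0 h
  have k7 := q14_7 γ h0 h
  have k8 := q14_8 γ h0 h
  have k9 := q14_9 γ h0 h
  have k10 := q14_10 γ h0 h
  have k11 := q14_11 γ h0 h
  have kD := D14 γ h0 hD
  intro j hj
  have hj' : j ≤ 7 := hj
  clear hj h hD
  interval_cases j
  · clear hj'
    rw [m14_0]
    simp only [m14_0, m14_1, m14_2, m14_3, m14_4, m14_5, m14_6, m14_7, h0]
    linarith only []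
  · clear hj'
    rw [m14_1]
    simp only [m14_0, m14_1, m14_2, m14_3, m14_4, m14_5, m14_6, m14_7, h0]
    linarith only [k0, k2, k3, k1]
  · clear hj'
    rw [m14_2]
    simp only [m14_0, m14_1, m14_2, m14_3, m14_4, m14_5, m14_6, m14_7, h0]
    linarith only [k0, k1, k3, k5, k2, k6, k4]
  · clear hj'
    rw [m14_3]
    simp only [m14_0, m14_1, m14_2, m14_3, m14_4, m14_5, m14_6, m14_7, h0]
    linarith only [k0, k7, k1, k6, k3, k4, k2]
  · clear hj'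
    rw [m14_4]
    simp only [m14_0, m14_1, m14_2, m14_3, m14_4, m14_5, m14_6, m14_7, h0]
    linarith only [k0, k8, k1, k7, k3, k4, k2]
  · clear hj'
    rw [m14_5]
    simp only [m14_0, m14_1, m14_2, m14_3, m14_4, m14_5, m14_6, m14_7, h0]
    linarith only [k0, k8, k1, k4, k3, k9, k2]
  · clear hj'
    rw [m14_6]
    simp only [m14_0, m14_1, m14_2, m14_3, m14_4, m14_5, m14_6, m14_7, h0]
    linarith only [k0, k1, k10, k2, k9, k4, k5]
  · clear hj'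
    rw [m14_7]
    simp only [m14_0, m14_1, m14_2, m14_3, m14_4, m14_5, m14_6, m14_7, h0]
    linarith only [k0, k4, k1, kD, k2, k11, k5]

theorem c15_0 (γ : ℕ → ℝ) : ∑ i ∈ range (15 / 2 + 1), γ i * (cfn 15 i 0 : ℝ) =
    (1) * γ 0 + (0) * γ 1 + (0) * γ 2 + (0) * γ 3 + (0) * γ 4 + (0) * γ 5 + (0) * γ 6 + (0) * γ 7 := by
  have h : ((15 / 2 + 1 : ℕ)) = 8 := rfl
  rw [h]
  simp only [sum_range_succ, sum_range_zero, show cfn 15 0 0 = 1 from by decide +kernel, show cfn 15 1 0 = 0 from by decide +kernel, show cfn 15 2 0 = 0 from by decide +kernel, show cfn 15 3 0 = 0 from by decide +kernel, show cfn 15 4 0 = 0 from by decide +kernel, show cfn 15 5 0 = 0 from by decide +kernel, show cfn 15 6 0 = 0 from by decide +kernel, show cfn 15 7 0 = 0 from by decide +kernel, Nat.cast_ofNat, Nat.cast_one, Nat.cast_zero]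
  ring

theorem c15_1 (γ : ℕ → ℝ) : ∑ i ∈ range (15 / 2 + 1), γ i * (cfn 15 i 1 : ℝ) =
    (30) * γ 0 + (1) * γ 1 + (0) * γ 2 + (0) * γ 3 + (0) * γ 4 + (0) * γ 5 + (0) * γ 6 + (0) * γ 7 := by
  have h : ((15 / 2 + 1 : ℕ)) = 8 := rfl
  rw [h]
  simp only [sum_range_succ, sum_range_zero, show cfn 15 0 1 = 30 from by decide +kernel, show cfn 15 1 1 = 1 from by decide +kernel, show cfn 15 2 1 = 0 from by decide +kernel, show cfn 15 3 1 = 0 from by decide +kernel, show cfn 15 4 1 = 0 from by decide +kernel, show cfn 15 5 1 = 0 from by decide +kernel, show cfn 15 6 1 = 0 from by decide +kernel, show cfn 15 7 1 = 0 from by decide +kernel, Nat.cast_ofNat, Nat.cast_one, Nat.cast_zero]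
  ring

theorem c15_2 (γ : ℕ → ℝ) : ∑ i ∈ range (15 / 2 + 1), γ i * (cfn 15 i 2 : ℝ) =
    (420) * γ 0 + (27) * γ 1 + (1) * γ 2 + (0) * γ 3 + (0) * γ 4 + (0) * γ 5 + (0) * γ 6 + (0) * γ 7 := by
  have h : ((15 / 2 + 1 : ℕ)) = 8 := rfl
  rw [h]
  simp only [sum_range_succ, sum_range_zero, show cfn 15 0 2 = 420 from by decide +kernel, show cfn 15 1 2 = 27 from by decide +kernel, show cfn 15 2 2 = 1 from by decide +kernel, show cfn 15 3 2 = 0 from by decide +kernel, show cfn 15 4 2 = 0 from by decide +kernel, show cfn 15 5 2 = 0 from by decide +kernel, show cfn 15 6 2 = 0 from by decide +kernel, show cfn 15 7 2 = 0 from by decide +kernel, Nat.cast_ofNat, Nat.cast_one, Nat.cast_zero]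
  ring

theorem c15_3 (γ : ℕ → ℝ) : ∑ i ∈ range (15 / 2 + 1), γ i * (cfn 15 i 3 : ℝ) =
    (3640) * γ 0 + (338) * γ 1 + (24) * γ 2 + (1) * γ 3 + (0) * γ 4 + (0) * γ 5 + (0) * γ 6 + (0) * γ 7 := by
  have h : ((15 / 2 + 1 : ℕ)) = 8 := rfl
  rw [h]
  simp only [sum_range_succ, sum_range_zero, show cfn 15 0 3 = 3640 from by decide +kernel, show cfn 15 1 3 = 338 from by decide +kernel, show cfn 15 2 3 = 24 from by decide +kernel, show cfn 15 3 3 = 1 from by decide +kernel, show cfn 15 4 3 = 0 from by decide +kernel, show cfn 15 5 3 = 0 from by decide +kernel, show cfn 15 6 3 = 0 from by decide +kernel, show cfn 15 7 3 = 0 from by decide +kernel, Nat.cast_ofNat, Nat.cast_one, Nat.cast_zero]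
  ring

theorem c15_4 (γ : ℕ → ℝ) : ∑ i ∈ range (15 / 2 + 1), γ i * (cfn 15 i 4 : ℝ) =
    (21840) * γ 0 + (2600) * γ 1 + (265) * γ 2 + (21) * γ 3 + (1) * γ 4 + (0) * γ 5 + (0) * γ 6 + (0) * γ 7 := by
  have h : ((15 / 2 + 1 : ℕ)) = 8 := rfl
  rw [h]
  simp only [sum_range_succ, sum_range_zero, show cfn 15 0 4 = 21840 from by decide +kernel, show cfn 15 1 4 = 2600 from by decide +kernel, show cfn 15 2 4 = 265 from by decide +kernel, show cfn 15 3 4 = 21 from by decide +kernel, show cfn 15 4 4 = 1 from by decide +kernel, show cfn 15 5 4 = 0 from by decide +kernel, show cfn 15 6 4 = 0 from by decide +kernel, show cfn 15 7 4 = 0 from by decide +kernel, Nat.cast_ofNat, Nat.cast_one, Nat.cast_zero]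
  ring

theorem c15_5 (γ : ℕ → ℝ) : ∑ i ∈ range (15 / 2 + 1), γ i * (cfn 15 i 5 : ℝ) =
    (96096) * γ 0 + (13728) * γ 1 + (1782) * γ 2 + (201) * γ 3 + (18) * γ 4 + (1) * γ 5 + (0) * γ 6 + (0) * γ 7 := by
  have h : ((15 / 2 + 1 : ℕ)) = 8 := rfl
  rw [h]
  simp only [sum_range_succ, sum_range_zero, show cfn 15 0 5 = 96096 from by decide +kernel, show cfn 15 1 5 = 13728 from by decide +kernel, show cfn 15 2 5 = 1782 from by decide +kernel, show cfn 15 3 5 = 201 from by decide +kernel, show cfn 15 4 5 = 18 from by decide +kernel, show cfn 15 5 5 = 1 from by decide +kernel, show cfn 15 6 5 = 0 from by decide +kernel, show cfn 15 7 5 = 0 from by decide +kernel, Nat.cast_ofNat, Nat.cast_one, Nat.cast_zero]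
  ring

theorem c15_6 (γ : ℕ → ℝ) : ∑ i ∈ range (15 / 2 + 1), γ i * (cfn 15 i 6 : ℝ) =
    (320320) * γ 0 + (52624) * γ 1 + (8140) * γ 2 + (1159) * γ 3 + (146) * γ 4 + (15) * γ 5 + (1) * γ 6 + (0) * γ 7 := by
  have h : ((15 / 2 + 1 : ℕ)) = 8 := rfl
  rw [h]
  simp only [sum_range_succ, sum_range_zero, show cfn 15 0 6 = 320320 from by decide +kernel, show cfn 15 1 6 = 52624 from by decide +kernel, show cfn 15 2 6 = 8140 from by decide +kernel, show cfn 15 3 6 = 1159 from by decide +kernel, show cfn 15 4 6 = 146 from by decide +kernel, show cfn 15 5 6 = 15 from by decide +kernel, show cfn 15 6 6 = 1 from by decide +kernel, show cfn 15 7 6 = 0 from by decide +kernel, Nat.cast_ofNat, Nat.cast_one, Nat.cast_zero]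
  ring

theorem c15_7 (γ : ℕ → ℝ) : ∑ i ∈ range (15 / 2 + 1), γ i * (cfn 15 i 7 : ℝ) =
    (823680) * γ 0 + (151008) * γ 1 + (26664) * γ 2 + (4482) * γ 3 + (704) * γ 4 + (100) * γ 5 + (12) * γ 6 + (1) * γ 7 := by
  have h : ((15 / 2 + 1 : ℕ)) = 8 := rfl
  rw [h]
  simp only [sum_range_succ, sum_range_zero, show cfn 15 0 7 = 823680 from by decide +kernel, show cfn 15 1 7 = 151008 from by decide +kernel, show cfn 15 2 7 = 26664 from by decide +kernel, show cfn 15 3 7 = 4482 from by decide +kernel, show cfn 15 4 7 = 704 from by decide +kernel, show cfn 15 5 7 = 100 from by decide +kernel, show cfn 15 6 7 = 12 from by decide +kernel, show cfn 15 7 7 = 1 from by decide +kernel, Nat.cast_ofNat, Nat.cast_one, Nat.cast_zero]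
  ring

theorem c15_8 (γ : ℕ → ℝ) : ∑ i ∈ range (15 / 2 + 1), γ i * (cfn 15 i 8 : ℝ) =
    (1647360) * γ 0 + (329472) * γ 1 + (64416) * γ 2 + (12240) * γ 3 + (2241) * γ 4 + (390) * γ 5 + (63) * γ 6 + (9) * γ 7 := by
  have h : ((15 / 2 + 1 : ℕ)) = 8 := rfl
  rw [h]
  simp only [sum_range_succ, sum_range_zero, show cfn 15 0 8 = 1647360 from by decide +kernel, show cfn 15 1 8 = 329472 from by decide +kernel, show cfn 15 2 8 = 64416 from by decide +kernel, show cfn 15 3 8 = 12240 from by decide +kernel, show cfn 15 4 8 = 2241 from by decide +kernel, show cfn 15 5 8 = 390 from by decide +kernel, show cfn 15 6 8 = 63 from by decide +kernel, show cfn 15 7 8 = 9 from by decide +kernel, Nat.cast_ofNat, Nat.cast_one, Nat.cast_zero]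
  ring

theorem c15_9 (γ : ℕ → ℝ) : ∑ i ∈ range (15 / 2 + 1), γ i * (cfn 15 i 9 : ℝ) =
    (2562560) * γ 0 + (549120) * γ 1 + (116160) * γ 2 + (24192) * γ 3 + (4942) * γ 4 + (985) * γ 5 + (190) * γ 6 + (35) * γ 7 := by
  have h : ((15 / 2 + 1 : ℕ)) = 8 := rfl
  rw [h]
  simp only [sum_range_succ, sum_range_zero, show cfn 15 0 9 = 2562560 from by decide +kernel, show cfn 15 1 9 = 549120 from by decide +kernel, show cfn 15 2 9 = 116160 from by decide +kernel, show cfn 15 3 9 = 24192 from by decide +kernel, show cfn 15 4 9 = 4942 from by decide +kernel, show cfn 15 5 9 = 985 from by decide +kernel, show cfn 15 6 9 = 190 from by decide +kernel, show cfn 15 7 9 = 35 from by decide +kernel, Nat.cast_ofNat, Nat.cast_one, Nat.cast_zero]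
  ring

theorem c15_10 (γ : ℕ → ℝ) : ∑ i ∈ range (15 / 2 + 1), γ i * (cfn 15 i 10 : ℝ) =
    (3075072) * γ 0 + (695552) * γ 1 + (156288) * γ 2 + (34848) * γ 3 + (7700) * γ 4 + (1683) * γ 5 + (363) * γ 6 + (77) * γ 7 := by
  have h : ((15 / 2 + 1 : ℕ)) = 8 := rfl
  rw [h]
  simp only [sum_range_succ, sum_range_zero, show cfn 15 0 10 = 3075072 from by decide +kernel, show cfn 15 1 10 = 695552 from by decide +kernel, show cfn 15 2 10 = 156288 from by decide +kernel, show cfn 15 3 10 = 34848 from by decide +kernel, show cfn 15 4 10 = 7700 from by decide +kernel, show cfn 15 5 10 = 1683 from by decide +kernel, show cfn 15 6 10 = 363 from by decide +kernel, show cfn 15 7 10 = 77 from by decide +kernel, Nat.cast_ofNat, Nat.cast_one, Nat.cast_zero]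
  ring

theorem c15_11 (γ : ℕ → ℝ) : ∑ i ∈ range (15 / 2 + 1), γ i * (cfn 15 i 11 : ℝ) =
    (2795520) * γ 0 + (658944) * γ 1 + (154880) * γ 2 + (36288) * γ 3 + (8472) * γ 4 + (1970) * γ 5 + (456) * γ 6 + (105) * γ 7 := by
  have h : ((15 / 2 + 1 : ℕ)) = 8 := rfl
  rw [h]
  simp only [sum_range_succ, sum_range_zero, show cfn 15 0 11 = 2795520 from by decide +kernel, show cfn 15 1 11 = 658944 from by decide +kernel, show cfn 15 2 11 = 154880 from by decide +kernel, show cfn 15 3 11 = 36288 from by decide +kernel, show cfn 15 4 11 = 8472 from by decide +kernel, show cfn 15 5 11 = 1970 from by decide +kernel, show cfn 15 6 11 = 456 from by decide +kernel, show cfn 15 7 11 = 105 from by decide +kernel, Nat.cast_ofNat, Nat.cast_one, Nat.cast_zero]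
  ring

theorem c15_12 (γ : ℕ → ℝ) : ∑ i ∈ range (15 / 2 + 1), γ i * (cfn 15 i 12 : ℝ) =
    (1863680) * γ 0 + (452608) * γ 1 + (109824) * γ 2 + (26624) * γ 3 + (6448) * γ 4 + (1560) * γ 5 + (377) * γ 6 + (91) * γ 7 := by
  have h : ((15 / 2 + 1 : ℕ)) = 8 := rfl
  rw [h]
  simp only [sum_range_succ, sum_range_zero, show cfn 15 0 12 = 1863680 from by decide +kernel, show cfn 15 1 12 = 452608 from by decide +kernel, show cfn 15 2 12 = 109824 from by decide +kernel, show cfn 15 3 12 = 26624 from by decide +kernel, show cfn 15 4 12 = 6448 from by decide +kernel, show cfn 15 5 12 = 1560 from by decide +kernel, show cfn 15 6 12 = 377 from by decide +kernel, show cfn 15 7 12 = 91 from by decide +kernel, Nat.cast_ofNat, Nat.cast_one, Nat.cast_zero]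
  ring

theorem c15_13 (γ : ℕ → ℝ) : ∑ i ∈ range (15 / 2 + 1), γ i * (cfn 15 i 13 : ℝ) =
    (860160) * γ 0 + (212992) * γ 1 + (52736) * γ 2 + (13056) * γ 3 + (3232) * γ 4 + (800) * γ 5 + (198) * γ 6 + (49) * γ 7 := by
  have h : ((15 / 2 + 1 : ℕ)) = 8 := rfl
  rw [h]
  simp only [sum_range_succ, sum_range_zero, show cfn 15 0 13 = 860160 from by decide +kernel, show cfn 15 1 13 = 212992 from by decide +kernel, show cfn 15 2 13 = 52736 from by decide +kernel, show cfn 15 3 13 = 13056 from by decide +kernel, show cfn 15 4 13 = 3232 from by decide +kernel, show cfn 15 5 13 = 800 from by decide +kernel, show cfn 15 6 13 = 198 from by decide +kernel, show cfn 15 7 13 = 49 from by decide +kernel, Nat.cast_ofNat, Nat.cast_one, Nat.cast_zero]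
  ring

theorem q15_0 (γ : ℕ → ℝ) (h0 : γ 0 = 1)
    (h : ∀ n < 15, 2 * (((15 : ℕ) : ℝ) - ((n : ℕ) : ℝ)) * ∑ i ∈ range (15 / 2 + 1), γ i * (cfn 15 i n : ℝ) ≤
      ((n : ℝ) + 1) * ∑ i ∈ range (15 / 2 + 1), γ i * (cfn 15 i (n + 1) : ℝ)) :
    0 ≤ (0) * γ 0 + (1) * γ 1 + (0) * γ 2 + (0) * γ 3 + (0) * γ 4 + (0) * γ 5 + (0) * γ 6 + (0) * γ 7 := by
  have h1 := h 0 (by norm_num)
  rw [show 0 + 1 = 1 from rfl, c15_0, c15_1] at h1
  norm_num [h0] at h1 ⊢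
  linarith

theorem q15_1 (γ : ℕ → ℝ) (h0 : γ 0 = 1)
    (h : ∀ n < 15, 2 * (((15 : ℕ) : ℝ) - ((n : ℕ) : ℝ)) * ∑ i ∈ range (15 / 2 + 1), γ i * (cfn 15 i n : ℝ) ≤
      ((n : ℝ) + 1) * ∑ i ∈ range (15 / 2 + 1), γ i * (cfn 15 i (n + 1) : ℝ)) :
    0 ≤ (0) * γ 0 + (26) * γ 1 + (2) * γ 2 + (0) * γ 3 + (0) * γ 4 + (0) * γ 5 + (0) * γ 6 + (0) * γ 7 := by
  have h1 := h 1 (by norm_num)
  rw [show 1 + 1 = 2 from rfl, c15_1, c15_2] at h1
  norm_num [h0] at h1 ⊢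
  linarith

theorem q15_2 (γ : ℕ → ℝ) (h0 : γ 0 = 1)
    (h : ∀ n < 15, 2 * (((15 : ℕ) : ℝ) - ((n : ℕ) : ℝ)) * ∑ i ∈ range (15 / 2 + 1), γ i * (cfn 15 i n : ℝ) ≤
      ((n : ℝ) + 1) * ∑ i ∈ range (15 / 2 + 1), γ i * (cfn 15 i (n + 1) : ℝ)) :
    0 ≤ (0) * γ 0 + (312) * γ 1 + (46) * γ 2 + (3) * γ 3 + (0) * γ 4 + (0) * γ 5 + (0) * γ 6 + (0) * γ 7 := by
  have h1 := h 2 (by norm_num)
  rw [show 2 + 1 = 3 from rfl, c15_2, c15_3] at h1
  norm_num [h0] at h1 ⊢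
  linarith

theorem q15_3 (γ : ℕ → ℝ) (h0 : γ 0 = 1)
    (h : ∀ n < 15, 2 * (((15 : ℕ) : ℝ) - ((n : ℕ) : ℝ)) * ∑ i ∈ range (15 / 2 + 1), γ i * (cfn 15 i n : ℝ) ≤
      ((n : ℝ) + 1) * ∑ i ∈ range (15 / 2 + 1), γ i * (cfn 15 i (n + 1) : ℝ)) :
    0 ≤ (0) * γ 0 + (2288) * γ 1 + (484) * γ 2 + (60) * γ 3 + (4) * γ 4 + (0) * γ 5 + (0) * γ 6 + (0) * γ 7 := by
  have h1 := h 3 (by norm_num)
  rw [show 3 + 1 = 4 from rfl, c15_3, c15_4] at h1
  norm_num [h0] at h1 ⊢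
  linarith

theorem q15_4 (γ : ℕ → ℝ) (h0 : γ 0 = 1)
    (h : ∀ n < 15, 2 * (((15 : ℕ) : ℝ) - ((n : ℕ) : ℝ)) * ∑ i ∈ range (15 / 2 + 1), γ i * (cfn 15 i n : ℝ) ≤
      ((n : ℝ) + 1) * ∑ i ∈ range (15 / 2 + 1), γ i * (cfn 15 i (n + 1) : ℝ)) :
    0 ≤ (0) * γ 0 + (11440) * γ 1 + (3080) * γ 2 + (543) * γ 3 + (68) * γ 4 + (5) * γ 5 + (0) * γ 6 + (0) * γ 7 := by
  have h1 := h 4 (by norm_num)
  rw [show 4 + 1 = 5 from rfl, c15_4, c15_5] at h1
  norm_num [h0] at h1 ⊢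
  linarith

theorem q15_5 (γ : ℕ → ℝ) (h0 : γ 0 = 1)
    (h : ∀ n < 15, 2 * (((15 : ℕ) : ℝ) - ((n : ℕ) : ℝ)) * ∑ i ∈ range (15 / 2 + 1), γ i * (cfn 15 i n : ℝ) ≤
      ((n : ℝ) + 1) * ∑ i ∈ range (15 / 2 + 1), γ i * (cfn 15 i (n + 1) : ℝ)) :
    0 ≤ (0) * γ 0 + (41184) * γ 1 + (13200) * γ 2 + (2934) * γ 3 + (516) * γ 4 + (70) * γ 5 + (6) * γ 6 + (0) * γ 7 := by
  have h1 := h 5 (by norm_num)
  rw [show 5 + 1 = 6 from rfl, c15_5, c15_6] at h1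
  norm_num [h0] at h1 ⊢
  linarith

theorem q15_6 (γ : ℕ → ℝ) (h0 : γ 0 = 1)
    (h : ∀ n < 15, 2 * (((15 : ℕ) : ℝ) - ((n : ℕ) : ℝ)) * ∑ i ∈ range (15 / 2 + 1), γ i * (cfn 15 i n : ℝ) ≤
      ((n : ℝ) + 1) * ∑ i ∈ range (15 / 2 + 1), γ i * (cfn 15 i (n + 1) : ℝ)) :
    0 ≤ (0) * γ 0 + (109824) * γ 1 + (40128) * γ 2 + (10512) * γ 3 + (2300) * γ 4 + (430) * γ 5 + (66) * γ 6 + (7) * γ 7 := by
  have h1 := h 6 (by norm_num)
  rw [show 6 + 1 = 7 from rfl, c15_6, c15_7] at h1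
  norm_num [h0] at h1 ⊢
  linarith

theorem q15_7 (γ : ℕ → ℝ) (h0 : γ 0 = 1)
    (h : ∀ n < 15, 2 * (((15 : ℕ) : ℝ) - ((n : ℕ) : ℝ)) * ∑ i ∈ range (15 / 2 + 1), γ i * (cfn 15 i n : ℝ) ≤
      ((n : ℝ) + 1) * ∑ i ∈ range (15 / 2 + 1), γ i * (cfn 15 i (n + 1) : ℝ)) :
    0 ≤ (0) * γ 0 + (219648) * γ 1 + (88704) * γ 2 + (26208) * γ 3 + (6664) * γ 4 + (1520) * γ 5 + (312) * γ 6 + (56) * γ 7 := by
  have h1 := h 7 (by norm_num)
  rw [show 7 + 1 = 8 from rfl, c15_7, c15_8] at h1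
  norm_num [h0] at h1 ⊢
  linarith

theorem q15_8 (γ : ℕ → ℝ) (h0 : γ 0 = 1)
    (h : ∀ n < 15, 2 * (((15 : ℕ) : ℝ) - ((n : ℕ) : ℝ)) * ∑ i ∈ range (15 / 2 + 1), γ i * (cfn 15 i n : ℝ) ≤
      ((n : ℝ) + 1) * ∑ i ∈ range (15 / 2 + 1), γ i * (cfn 15 i (n + 1) : ℝ)) :
    0 ≤ (0) * γ 0 + (329472) * γ 1 + (143616) * γ 2 + (46368) * γ 3 + (13104) * γ 4 + (3405) * γ 5 + (828) * γ 6 + (189) * γ 7 := by
  have h1 := h 8 (by norm_num)
  rw [show 8 + 1 = 9 from rfl, c15_8, c15_9] at h1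
  norm_num [h0] at h1 ⊢
  linarith

theorem q15_9 (γ : ℕ → ℝ) (h0 : γ 0 = 1)
    (h : ∀ n < 15, 2 * (((15 : ℕ) : ℝ) - ((n : ℕ) : ℝ)) * ∑ i ∈ range (15 / 2 + 1), γ i * (cfn 15 i n : ℝ) ≤
      ((n : ℝ) + 1) * ∑ i ∈ range (15 / 2 + 1), γ i * (cfn 15 i (n + 1) : ℝ)) :
    0 ≤ (0) * γ 0 + (366080) * γ 1 + (168960) * γ 2 + (58176) * γ 3 + (17696) * γ 4 + (5010) * γ 5 + (1350) * γ 6 + (350) * γ 7 := by
  have h1 := h 9 (by norm_num)
  rw [show 9 + 1 = 10 from rfl, c15_9, c15_10] at h1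
  norm_num [h0] at h1 ⊢
  linarith

theorem q15_10 (γ : ℕ → ℝ) (h0 : γ 0 = 1)
    (h : ∀ n < 15, 2 * (((15 : ℕ) : ℝ) - ((n : ℕ) : ℝ)) * ∑ i ∈ range (15 / 2 + 1), γ i * (cfn 15 i n : ℝ) ≤
      ((n : ℝ) + 1) * ∑ i ∈ range (15 / 2 + 1), γ i * (cfn 15 i (n + 1) : ℝ)) :
    0 ≤ (0) * γ 0 + (292864) * γ 1 + (140800) * γ 2 + (50688) * γ 3 + (16192) * γ 4 + (4840) * γ 5 + (1386) * γ 6 + (385) * γ 7 := by
  have h1 := h 10 (by norm_num)
  rw [show 10 + 1 = 11 from rfl, c15_10, c15_11] at h1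
  norm_num [h0] at h1 ⊢
  linarith

theorem q15_11 (γ : ℕ → ℝ) (h0 : γ 0 = 1)
    (h : ∀ n < 15, 2 * (((15 : ℕ) : ℝ) - ((n : ℕ) : ℝ)) * ∑ i ∈ range (15 / 2 + 1), γ i * (cfn 15 i n : ℝ) ≤
      ((n : ℝ) + 1) * ∑ i ∈ range (15 / 2 + 1), γ i * (cfn 15 i (n + 1) : ℝ)) :
    0 ≤ (0) * γ 0 + (159744) * γ 1 + (78848) * γ 2 + (29184) * γ 3 + (9600) * γ 4 + (2960) * γ 5 + (876) * γ 6 + (252) * γ 7 := by
  have h1 := h 11 (by norm_num)
  rw [show 11 + 1 = 12 from rfl, c15_11, c15_12] at h1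
  norm_num [h0] at h1 ⊢
  linarith

theorem q15_12 (γ : ℕ → ℝ) (h0 : γ 0 = 1)
    (h : ∀ n < 15, 2 * (((15 : ℕ) : ℝ) - ((n : ℕ) : ℝ)) * ∑ i ∈ range (15 / 2 + 1), γ i * (cfn 15 i n : ℝ) ≤
      ((n : ℝ) + 1) * ∑ i ∈ range (15 / 2 + 1), γ i * (cfn 15 i (n + 1) : ℝ)) :
    0 ≤ (0) * γ 0 + (53248) * γ 1 + (26624) * γ 2 + (9984) * γ 3 + (3328) * γ 4 + (1040) * γ 5 + (312) * γ 6 + (91) * γ 7 := by
  have h1 := h 12 (by norm_num)
  rw [show 12 + 1 = 13 from rfl, c15_12, c15_13] at h1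
  norm_num [h0] at h1 ⊢
  linarith

theorem m15_0 (γ : ℕ → ℝ) : Mat 15 γ 0 = (1) * γ 0 + (0) * γ 1 + (0) * γ 2 + (0) * γ 3 + (0) * γ 4 + (0) * γ 5 + (0) * γ 6 + (0) * γ 7 := by
  unfold Mat
  rw [show (15 / 2 + 1 : ℕ) = 8 from rfl]
  simp [sum_range_succ, Nat.choose]
  try ring

theorem m15_1 (γ : ℕ → ℝ) : Mat 15 γ 1 = (420) * γ 0 + (28) * γ 1 + (1) * γ 2 + (0) * γ 3 + (0) * γ 4 + (0) * γ 5 + (0) * γ 6 + (0) * γ 7 := by
  unfold Mat
  rw [show (15 / 2 + 1 : ℕ) = 8 from rfl]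
  simp [sum_range_succ, Nat.choose]
  try ring

theorem m15_2 (γ : ℕ → ℝ) : Mat 15 γ 2 = (21840) * γ 0 + (2912) * γ 1 + (312) * γ 2 + (24) * γ 3 + (1) * γ 4 + (0) * γ 5 + (0) * γ 6 + (0) * γ 7 := by
  unfold Mat
  rw [show (15 / 2 + 1 : ℕ) = 8 from rfl]
  simp [sum_range_succ, Nat.choose]
  try ring

theorem m15_3 (γ : ℕ → ℝ) : Mat 15 γ 3 = (320320) * γ 0 + (64064) * γ 1 + (11440) * γ 2 + (1760) * γ 3 + (220) * γ 4 + (20) * γ 5 + (1) * γ 6 + (0) * γ 7 := by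
  unfold Mat
  rw [show (15 / 2 + 1 : ℕ) = 8 from rfl]
  simp [sum_range_succ, Nat.choose]
  try ring

theorem m15_4 (γ : ℕ → ℝ) : Mat 15 γ 4 = (1647360) * γ 0 + (439296) * γ 1 + (109824) * γ 2 + (25344) * γ 3 + (5280) * γ 4 + (960) * γ 5 + (144) * γ 6 + (16) * γ 7 := by
  unfold Mat
  rw [show (15 / 2 + 1 : ℕ) = 8 from rfl]
  simp [sum_range_succ, Nat.choose]
  try ring

theorem m15_5 (γ : ℕ → ℝ) : Mat 15 γ 5 = (3075072) * γ 0 + (1025024) * γ 1 + (329472) * γ 2 + (101376) * γ 3 + (29568) * γ 4 + (8064) * γ 5 + (2016) * γ 6 + (448) * γ 7 := by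
  unfold Mat
  rw [show (15 / 2 + 1 : ℕ) = 8 from rfl]
  simp [sum_range_succ, Nat.choose]
  try ring

theorem m15_6 (γ : ℕ → ℝ) : Mat 15 γ 6 = (1863680) * γ 0 + (745472) * γ 1 + (292864) * γ 2 + (112640) * γ 3 + (42240) * γ 4 + (15360) * γ 5 + (5376) * γ 6 + (1792) * γ 7 := by
  unfold Mat
  rw [show (15 / 2 + 1 : ℕ) = 8 from rfl]
  simp [sum_range_succ, Nat.choose]
  try ring

theorem m15_7 (γ : ℕ → ℝ) : Mat 15 γ 7 = (245760) * γ 0 + (114688) * γ 1 + (53248) * γ 2 + (24576) * γ 3 + (11264) * γ 4 + (5120) * γ 5 + (2304) * γ 6 + (1024) * γ 7 := by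
  unfold Mat
  rw [show (15 / 2 + 1 : ℕ) = 8 from rfl]
  simp [sum_range_succ, Nat.choose]
  try ring

theorem main15 (γ : ℕ → ℝ) (h0 : γ 0 = 1)
    (h : ∀ n < 15, 2 * (((15 : ℕ) : ℝ) - ((n : ℕ) : ℝ)) * ∑ i ∈ range (15 / 2 + 1), γ i * (cfn 15 i n : ℝ) ≤
      ((n : ℝ) + 1) * ∑ i ∈ range (15 / 2 + 1), γ i * (cfn 15 i (n + 1) : ℝ))
    (hD : 5 * (((15 - 3 : ℕ) : ℝ)) * ∑ i ∈ range (15 / 2 + 1), γ i * (cfn 15 i (15 - 3) : ℝ) ≤
      (((15 - 2).choose 2 : ℕ) : ℝ) * ∑ i ∈ range (15 / 2 + 1), γ i * (cfn 15 i (15 - 2) : ℝ) +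
      16 * ∑ i ∈ range (15 / 2 + 1), γ i * (cfn 15 i (15 - 4) : ℝ)) :
    ∀ j ≤ 15 / 2, 0 < Mat 15 (Mat 15 γ) j := by
  have k0 := q15_0 γ h0 h
  have k1 := q15_1 γ h0 h
  have k2 := q15_2 γ h0 h
  have k3 := q15_3 γ h0 h
  have k4 := q15_4 γ h0 h
  have k5 := q15_5 γ h0 h
  have k6 := q15_6 γ h0 h
  have k7 := q15_7 γ h0 h
  have k8 := q15_8 γ h0 h
  have k9 := q15_9 γ h0 h
  have k10 := q15_10 γ h0 h
  have k11 := q15_11 γ h0 h
  have k12 := q15_12 γ h0 h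
  intro j hj
  have hj' : j ≤ 7 := hj
  clear hj h hD
  interval_cases j
  · clear hj'
    rw [m15_0]
    simp only [m15_0, m15_1, m15_2, m15_3, m15_4, m15_5, m15_6, m15_7, h0]
    linarith only []
  · clear hj'
    rw [m15_1]
    simp only [m15_0, m15_1, m15_2, m15_3, m15_4, m15_5, m15_6, m15_7, h0]
    linarith only [k0, k2, k3, k1]
  · clear hj'
    rw [m15_2]
    simp only [m15_0, m15_1, m15_2, m15_3, m15_4, m15_5, m15_6, m15_7, h0]
    linarith only [k0, k1, k3, k5, k2, k6, k4]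
  · clear hj'
    rw [m15_3]
    simp only [m15_0, m15_1, m15_2, m15_3, m15_4, m15_5, m15_6, m15_7, h0]
    linarith only [k0, k7, k1, k5, k2, k4, k8]
  · clear hj'
    rw [m15_4]
    simp only [m15_0, m15_1, m15_2, m15_3, m15_4, m15_5, m15_6, m15_7, h0]
    linarith only [k0, k1, k2, k7, k8, k4, k5]
  · clear hj'
    rw [m15_5]
    simp only [m15_0, m15_1, m15_2, m15_3, m15_4, m15_5, m15_6, m15_7, h0]
    linarith only [k8, k0, k1, k9, k2, k4, k5]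
  · clear hj'
    rw [m15_6]
    simp only [m15_0, m15_1, m15_2, m15_3, m15_4, m15_5, m15_6, m15_7, h0]
    linarith only [k4, k9, k0, k1, k2, k10, k5]
  · clear hj'
    rw [m15_7]
    simp only [m15_0, m15_1, m15_2, m15_3, m15_4, m15_5, m15_6, m15_7, h0]
    linarith only [k2, k0, k1, k4, k5, k11, k12]

theorem c16_0 (γ : ℕ → ℝ) : ∑ i ∈ range (16 / 2 + 1), γ i * (cfn 16 i 0 : ℝ) =
    (1) * γ 0 + (0) * γ 1 + (0) * γ 2 + (0) * γ 3 + (0) * γ 4 + (0) * γ 5 + (0) * γ 6 + (0) * γ 7 + (0) * γ 8 := by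
  have h : ((16 / 2 + 1 : ℕ)) = 9 := rfl
  rw [h]
  simp only [sum_range_succ, sum_range_zero, show cfn 16 0 0 = 1 from by decide +kernel, show cfn 16 1 0 = 0 from by decide +kernel, show cfn 16 2 0 = 0 from by decide +kernel, show cfn 16 3 0 = 0 from by decide +kernel, show cfn 16 4 0 = 0 from by decide +kernel, show cfn 16 5 0 = 0 from by decide +kernel, show cfn 16 6 0 = 0 from by decide +kernel, show cfn 16 7 0 = 0 from by decide +kernel, show cfn 16 8 0 = 0 from by decide +kernel, Nat.cast_ofNat, Nat.cast_one, Nat.cast_zero]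
  ring

theorem c16_1 (γ : ℕ → ℝ) : ∑ i ∈ range (16 / 2 + 1), γ i * (cfn 16 i 1 : ℝ) =
    (32) * γ 0 + (1) * γ 1 + (0) * γ 2 + (0) * γ 3 + (0) * γ 4 + (0) * γ 5 + (0) * γ 6 + (0) * γ 7 + (0) * γ 8 := by
  have h : ((16 / 2 + 1 : ℕ)) = 9 := rfl
  rw [h]
  simp only [sum_range_succ, sum_range_zero, show cfn 16 0 1 = 32 from by decide +kernel, show cfn 16 1 1 = 1 from by decide +kernel, show cfn 16 2 1 = 0 from by decide +kernel, show cfn 16 3 1 = 0 from by decide +kernel, show cfn 16 4 1 = 0 from by decide +kernel, show cfn 16 5 1 = 0 from by decide +kernel, show cfn 16 6 1 = 0 from by decide +kernel, show cfn 16 7 1 = 0 from by decide +kernel, show cfn 16 8 1 = 0 from by decide +kernel, Nat.cast_ofNat, Nat.cast_one, Nat.cast_zero]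
  ring

theorem c16_2 (γ : ℕ → ℝ) : ∑ i ∈ range (16 / 2 + 1), γ i * (cfn 16 i 2 : ℝ) =
    (480) * γ 0 + (29) * γ 1 + (1) * γ 2 + (0) * γ 3 + (0) * γ 4 + (0) * γ 5 + (0) * γ 6 + (0) * γ 7 + (0) * γ 8 := by
  have h : ((16 / 2 + 1 : ℕ)) = 9 := rfl
  rw [h]
  simp only [sum_range_succ, sum_range_zero, show cfn 16 0 2 = 480 from by decide +kernel, show cfn 16 1 2 = 29 from by decide +kernel, show cfn 16 2 2 = 1 from by decide +kernel, show cfn 16 3 2 = 0 from by decide +kernel, show cfn 16 4 2 = 0 from by decide +kernel, show cfn 16 5 2 = 0 from by decide +kernel, show cfn 16 6 2 = 0 from by decide +kernel, show cfn 16 7 2 = 0 from by decide +kernel, show cfn 16 8 2 = 0 from by decide +kernel, Nat.cast_ofNat, Nat.cast_one, Nat.cast_zero]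
  ring

theorem c16_3 (γ : ℕ → ℝ) : ∑ i ∈ range (16 / 2 + 1), γ i * (cfn 16 i 3 : ℝ) =
    (4480) * γ 0 + (392) * γ 1 + (26) * γ 2 + (1) * γ 3 + (0) * γ 4 + (0) * γ 5 + (0) * γ 6 + (0) * γ 7 + (0) * γ 8 := by
  have h : ((16 / 2 + 1 : ℕ)) = 9 := rfl
  rw [h]
  simp only [sum_range_succ, sum_range_zero, show cfn 16 0 3 = 4480 from by decide +kernel, show cfn 16 1 3 = 392 from by decide +kernel, show cfn 16 2 3 = 26 from by decide +kernel, show cfn 16 3 3 = 1 from by decide +kernel, show cfn 16 4 3 = 0 from by decide +kernel, show cfn 16 5 3 = 0 from by decide +kernel, show cfn 16 6 3 = 0 from by decide +kernel, show cfn 16 7 3 = 0 from by decide +kernel, show cfn 16 8 3 = 0 from by decide +kernel, Nat.cast_ofNat, Nat.cast_one, Nat.cast_zero]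
  ring

theorem c16_4 (γ : ℕ → ℝ) : ∑ i ∈ range (16 / 2 + 1), γ i * (cfn 16 i 4 : ℝ) =
    (29120) * γ 0 + (3276) * γ 1 + (313) * γ 2 + (23) * γ 3 + (1) * γ 4 + (0) * γ 5 + (0) * γ 6 + (0) * γ 7 + (0) * γ 8 := by
  have h : ((16 / 2 + 1 : ℕ)) = 9 := rfl
  rw [h]
  simp only [sum_range_succ, sum_range_zero, show cfn 16 0 4 = 29120 from by decide +kernel, show cfn 16 1 4 = 3276 from by decide +kernel, show cfn 16 2 4 = 313 from by decide +kernel, show cfn 16 3 4 = 23 from by decide +kernel, show cfn 16 4 4 = 1 from by decide +kernel, show cfn 16 5 4 = 0 from by decide +kernel, show cfn 16 6 4 = 0 from by decide +kernel, show cfn 16 7 4 = 0 from by decide +kernel, show cfn 16 8 4 = 0 from by decide +kernel, Nat.cast_ofNat, Nat.cast_one, Nat.cast_zero]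
  ring

theorem c16_5 (γ : ℕ → ℝ) : ∑ i ∈ range (16 / 2 + 1), γ i * (cfn 16 i 5 : ℝ) =
    (139776) * γ 0 + (18928) * γ 1 + (2312) * γ 2 + (243) * γ 3 + (20) * γ 4 + (1) * γ 5 + (0) * γ 6 + (0) * γ 7 + (0) * γ 8 := by
  have h : ((16 / 2 + 1 : ℕ)) = 9 := rfl
  rw [h]
  simp only [sum_range_succ, sum_range_zero, show cfn 16 0 5 = 139776 from by decide +kernel, show cfn 16 1 5 = 18928 from by decide +kernel, show cfn 16 2 5 = 2312 from by decide +kernel, show cfn 16 3 5 = 243 from by decide +kernel, show cfn 16 4 5 = 20 from by decide +kernel, show cfn 16 5 5 = 1 from by decide +kernel, show cfn 16 6 5 = 0 from by decide +kernel, show cfn 16 7 5 = 0 from by decide +kernel, show cfn 16 8 5 = 0 from by decide +kernel, Nat.cast_ofNat, Nat.cast_one, Nat.cast_zero]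
  ring

theorem c16_6 (γ : ℕ → ℝ) : ∑ i ∈ range (16 / 2 + 1), γ i * (cfn 16 i 6 : ℝ) =
    (512512) * γ 0 + (80080) * γ 1 + (11704) * γ 2 + (1561) * γ 3 + (182) * γ 4 + (17) * γ 5 + (1) * γ 6 + (0) * γ 7 + (0) * γ 8 := by
  have h : ((16 / 2 + 1 : ℕ)) = 9 := rfl
  rw [h]
  simp only [sum_range_succ, sum_range_zero, show cfn 16 0 6 = 512512 from by decide +kernel, show cfn 16 1 6 = 80080 from by decide +kernel, show cfn 16 2 6 = 11704 from by decide +kernel, show cfn 16 3 6 = 1561 from by decide +kernel, show cfn 16 4 6 = 182 from by decide +kernel, show cfn 16 5 6 = 17 from by decide +kernel, show cfn 16 6 6 = 1 from by decide +kernel, show cfn 16 7 6 = 0 from by decide +kernel, show cfn 16 8 6 = 0 from by decide +kernel, Nat.cast_ofNat, Nat.cast_one, Nat.cast_zero]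
  ring

theorem c16_7 (γ : ℕ → ℝ) : ∑ i ∈ range (16 / 2 + 1), γ i * (cfn 16 i 7 : ℝ) =
    (1464320) * γ 0 + (256256) * γ 1 + (42944) * γ 2 + (6800) * γ 3 + (996) * γ 4 + (130) * γ 5 + (14) * γ 6 + (1) * γ 7 + (0) * γ 8 := by
  have h : ((16 / 2 + 1 : ℕ)) = 9 := rfl
  rw [h]
  simp only [sum_range_succ, sum_range_zero, show cfn 16 0 7 = 1464320 from by decide +kernel, show cfn 16 1 7 = 256256 from by decide +kernel, show cfn 16 2 7 = 42944 from by decide +kernel, show cfn 16 3 7 = 6800 from by decide +kernel, show cfn 16 4 7 = 996 from by decide +kernel, show cfn 16 5 7 = 130 from by decide +kernel, show cfn 16 6 7 = 14 from by decide +kernel, show cfn 16 7 7 = 1 from by decide +kernel, show cfn 16 8 7 = 0 from by decide +kernel, Nat.cast_ofNat, Nat.cast_one, Nat.cast_zero]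
  ring

theorem c16_8 (γ : ℕ → ℝ) : ∑ i ∈ range (16 / 2 + 1), γ i * (cfn 16 i 8 : ℝ) =
    (3294720) * γ 0 + (631488) * γ 1 + (117744) * γ 2 + (21204) * γ 3 + (3649) * γ 4 + (590) * γ 5 + (87) * γ 6 + (11) * γ 7 + (1) * γ 8 := by
  have h : ((16 / 2 + 1 : ℕ)) = 9 := rfl
  rw [h]
  simp only [sum_range_succ, sum_range_zero, show cfn 16 0 8 = 3294720 from by decide +kernel, show cfn 16 1 8 = 631488 from by decide +kernel, show cfn 16 2 8 = 117744 from by decide +kernel, show cfn 16 3 8 = 21204 from by decide +kernel, show cfn 16 4 8 = 3649 from by decide +kernel, show cfn 16 5 8 = 590 from by decide +kernel, show cfn 16 6 8 = 87 from by decide +kernel, show cfn 16 7 8 = 11 from by decide +kernel, show cfn 16 8 8 = 1 from by decide +kernel, Nat.cast_ofNat, Nat.cast_one, Nat.cast_zero]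
  ring

theorem c16_9 (γ : ℕ → ℝ) : ∑ i ∈ range (16 / 2 + 1), γ i * (cfn 16 i 9 : ℝ) =
    (5857280) * γ 0 + (1208064) * γ 1 + (244992) * γ 2 + (48672) * γ 3 + (9424) * γ 4 + (1765) * γ 5 + (316) * γ 6 + (53) * γ 7 + (8) * γ 8 := by
  have h : ((16 / 2 + 1 : ℕ)) = 9 := rfl
  rw [h]
  simp only [sum_range_succ, sum_range_zero, show cfn 16 0 9 = 5857280 from by decide +kernel, show cfn 16 1 9 = 1208064 from by decide +kernel, show cfn 16 2 9 = 244992 from by decide +kernel, show cfn 16 3 9 = 48672 from by decide +kernel, show cfn 16 4 9 = 9424 from by decide +kernel, show cfn 16 5 9 = 1765 from by decide +kernel, show cfn 16 6 9 = 316 from by decide +kernel, show cfn 16 7 9 = 53 from by decide +kernel, show cfn 16 8 9 = 8 from by decide +kernel, Nat.cast_ofNat, Nat.cast_one, Nat.cast_zero]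
  ring

theorem c16_10 (γ : ℕ → ℝ) : ∑ i ∈ range (16 / 2 + 1), γ i * (cfn 16 i 10 : ℝ) =
    (8200192) * γ 0 + (1793792) * γ 1 + (388608) * γ 2 + (83232) * γ 3 + (17584) * γ 4 + (3653) * γ 5 + (743) * γ 6 + (147) * γ 7 + (28) * γ 8 := by
  have h : ((16 / 2 + 1 : ℕ)) = 9 := rfl
  rw [h]
  simp only [sum_range_succ, sum_range_zero, show cfn 16 0 10 = 8200192 from by decide +kernel, show cfn 16 1 10 = 1793792 from by decide +kernel, show cfn 16 2 10 = 388608 from by decide +kernel, show cfn 16 3 10 = 83232 from by decide +kernel, show cfn 16 4 10 = 17584 from by decide +kernel, show cfn 16 5 10 = 3653 from by decide +kernel, show cfn 16 6 10 = 743 from by decide +kernel, show cfn 16 7 10 = 147 from by decide +kernel, show cfn 16 8 10 = 28 from by decide +kernel, Nat.cast_ofNat, Nat.cast_one, Nat.cast_zero]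
  ring

theorem c16_11 (γ : ℕ → ℝ) : ∑ i ∈ range (16 / 2 + 1), γ i * (cfn 16 i 11 : ℝ) =
    (8945664) * γ 0 + (2050048) * γ 1 + (467456) * γ 2 + (105984) * γ 3 + (23872) * γ 4 + (5336) * γ 5 + (1182) * γ 6 + (259) * γ 7 + (56) * γ 8 := by
  have h : ((16 / 2 + 1 : ℕ)) = 9 := rfl
  rw [h]
  simp only [sum_range_succ, sum_range_zero, show cfn 16 0 11 = 8945664 from by decide +kernel, show cfn 16 1 11 = 2050048 from by decide +kernel, show cfn 16 2 11 = 467456 from by decide +kernel, show cfn 16 3 11 = 105984 from by decide +kernel, show cfn 16 4 11 = 23872 from by decide +kernel, show cfn 16 5 11 = 5336 from by decide +kernel, show cfn 16 6 11 = 1182 from by decide +kernel, show cfn 16 7 11 = 259 from by decide +kernel, show cfn 16 8 11 = 56 from by decide +kernel, Nat.cast_ofNat, Nat.cast_one, Nat.cast_zero]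
  ring

theorem c16_12 (γ : ℕ → ℝ) : ∑ i ∈ range (16 / 2 + 1), γ i * (cfn 16 i 12 : ℝ) =
    (7454720) * γ 0 + (1770496) * γ 1 + (419584) * γ 2 + (99200) * γ 3 + (23392) * γ 4 + (5500) * γ 5 + (1289) * γ 6 + (301) * γ 7 + (70) * γ 8 := by
  have h : ((16 / 2 + 1 : ℕ)) = 9 := rfl
  rw [h]
  simp only [sum_range_succ, sum_range_zero, show cfn 16 0 12 = 7454720 from by decide +kernel, show cfn 16 1 12 = 1770496 from by decide +kernel, show cfn 16 2 12 = 419584 from by decide +kernel, show cfn 16 3 12 = 99200 from by decide +kernel, show cfn 16 4 12 = 23392 from by decide +kernel, show cfn 16 5 12 = 5500 from by decide +kernel, show cfn 16 6 12 = 1289 from by decide +kernel, show cfn 16 7 12 = 301 from by decide +kernel, show cfn 16 8 12 = 70 from by decide +kernel, Nat.cast_ofNat, Nat.cast_one, Nat.cast_zero]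
  ring

theorem c16_13 (γ : ℕ → ℝ) : ∑ i ∈ range (16 / 2 + 1), γ i * (cfn 16 i 13 : ℝ) =
    (4587520) * γ 0 + (1118208) * γ 1 + (272384) * γ 2 + (66304) * γ 3 + (16128) * γ 4 + (3920) * γ 5 + (952) * γ 6 + (231) * γ 7 + (56) * γ 8 := by
  have h : ((16 / 2 + 1 : ℕ)) = 9 := rfl
  rw [h]
  simp only [sum_range_succ, sum_range_zero, show cfn 16 0 13 = 4587520 from by decide +kernel, show cfn 16 1 13 = 1118208 from by decide +kernel, show cfn 16 2 13 = 272384 from by decide +kernel, show cfn 16 3 13 = 66304 from by decide +kernel, show cfn 16 4 13 = 16128 from by decide +kernel, show cfn 16 5 13 = 3920 from by decide +kernel, show cfn 16 6 13 = 952 from by decide +kernel, show cfn 16 7 13 = 231 from by decide +kernel, show cfn 16 8 13 = 56 from by decide +kernel, Nat.cast_ofNat, Nat.cast_one, Nat.cast_zero]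
  ring

theorem c16_14 (γ : ℕ → ℝ) : ∑ i ∈ range (16 / 2 + 1), γ i * (cfn 16 i 14 : ℝ) =
    (1966080) * γ 0 + (487424) * γ 1 + (120832) * γ 2 + (29952) * γ 3 + (7424) * γ 4 + (1840) * γ 5 + (456) * γ 6 + (113) * γ 7 + (28) * γ 8 := by
  have h : ((16 / 2 + 1 : ℕ)) = 9 := rfl
  rw [h]
  simp only [sum_range_succ, sum_range_zero, show cfn 16 0 14 = 1966080 from by decide +kernel, show cfn 16 1 14 = 487424 from by decide +kernel, show cfn 16 2 14 = 120832 from by decide +kernel, show cfn 16 3 14 = 29952 from by decide +kernel, show cfn 16 4 14 = 7424 from by decide +kernel, show cfn 16 5 14 = 1840 from by decide +kernel, show cfn 16 6 14 = 456 from by decide +kernel, show cfn 16 7 14 = 113 from by decide +kernel, show cfn 16 8 14 = 28 from by decide +kernel, Nat.cast_ofNat, Nat.cast_one, Nat.cast_zero]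
  ring

theorem q16_0 (γ : ℕ → ℝ) (h0 : γ 0 = 1)
    (h : ∀ n < 16, 2 * (((16 : ℕ) : ℝ) - ((n : ℕ) : ℝ)) * ∑ i ∈ range (16 / 2 + 1), γ i * (cfn 16 i n : ℝ) ≤
      ((n : ℝ) + 1) * ∑ i ∈ range (16 / 2 + 1), γ i * (cfn 16 i (n + 1) : ℝ)) :
    0 ≤ (0) * γ 0 + (1) * γ 1 + (0) * γ 2 + (0) * γ 3 + (0) * γ 4 + (0) * γ 5 + (0) * γ 6 + (0) * γ 7 + (0) * γ 8 := by
  have h1 := h 0 (by norm_num)
  rw [show 0 + 1 = 1 from rfl, c16_0, c16_1] at h1
  norm_num [h0] at h1 ⊢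
  linarith

theorem q16_1 (γ : ℕ → ℝ) (h0 : γ 0 = 1)
    (h : ∀ n < 16, 2 * (((16 : ℕ) : ℝ) - ((n : ℕ) : ℝ)) * ∑ i ∈ range (16 / 2 + 1), γ i * (cfn 16 i n : ℝ) ≤
      ((n : ℝ) + 1) * ∑ i ∈ range (16 / 2 + 1), γ i * (cfn 16 i (n + 1) : ℝ)) :
    0 ≤ (0) * γ 0 + (28) * γ 1 + (2) * γ 2 + (0) * γ 3 + (0) * γ 4 + (0) * γ 5 + (0) * γ 6 + (0) * γ 7 + (0) * γ 8 := by
  have h1 := h 1 (by norm_num)
  rw [show 1 + 1 = 2 from rfl, c16_1, c16_2] at h1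
  norm_num [h0] at h1 ⊢
  linarith

theorem q16_2 (γ : ℕ → ℝ) (h0 : γ 0 = 1)
    (h : ∀ n < 16, 2 * (((16 : ℕ) : ℝ) - ((n : ℕ) : ℝ)) * ∑ i ∈ range (16 / 2 + 1), γ i * (cfn 16 i n : ℝ) ≤
      ((n : ℝ) + 1) * ∑ i ∈ range (16 / 2 + 1), γ i * (cfn 16 i (n + 1) : ℝ)) :
    0 ≤ (0) * γ 0 + (364) * γ 1 + (50) * γ 2 + (3) * γ 3 + (0) * γ 4 + (0) * γ 5 + (0) * γ 6 + (0) * γ 7 + (0) * γ 8 := by
  have h1 := h 2 (by norm_num)
  rw [show 2 + 1 = 3 from rfl, c16_2, c16_3] at h1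
  norm_num [h0] at h1 ⊢
  linarith

theorem q16_3 (γ : ℕ → ℝ) (h0 : γ 0 = 1)
    (h : ∀ n < 16, 2 * (((16 : ℕ) : ℝ) - ((n : ℕ) : ℝ)) * ∑ i ∈ range (16 / 2 + 1), γ i * (cfn 16 i n : ℝ) ≤
      ((n : ℝ) + 1) * ∑ i ∈ range (16 / 2 + 1), γ i * (cfn 16 i (n + 1) : ℝ)) :
    0 ≤ (0) * γ 0 + (2912) * γ 1 + (576) * γ 2 + (66) * γ 3 + (4) * γ 4 + (0) * γ 5 + (0) * γ 6 + (0) * γ 7 + (0) * γ 8 := by
  have h1 := h 3 (by norm_num)
  rw [show 3 + 1 = 4 from rfl, c16_3, c16_4] at h1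
  norm_num [h0] at h1 ⊢
  linarith

theorem q16_4 (γ : ℕ → ℝ) (h0 : γ 0 = 1)
    (h : ∀ n < 16, 2 * (((16 : ℕ) : ℝ) - ((n : ℕ) : ℝ)) * ∑ i ∈ range (16 / 2 + 1), γ i * (cfn 16 i n : ℝ) ≤
      ((n : ℝ) + 1) * ∑ i ∈ range (16 / 2 + 1), γ i * (cfn 16 i (n + 1) : ℝ)) :
    0 ≤ (0) * γ 0 + (16016) * γ 1 + (4048) * γ 2 + (663) * γ 3 + (76) * γ 4 + (5) * γ 5 + (0) * γ 6 + (0) * γ 7 + (0) * γ 8 := by
  have h1 := h 4 (by norm_num)
  rw [show 4 + 1 = 5 from rfl, c16_4, c16_5] at h1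
  norm_num [h0] at h1 ⊢
  linarith

theorem q16_5 (γ : ℕ → ℝ) (h0 : γ 0 = 1)
    (h : ∀ n < 16, 2 * (((16 : ℕ) : ℝ) - ((n : ℕ) : ℝ)) * ∑ i ∈ range (16 / 2 + 1), γ i * (cfn 16 i n : ℝ) ≤
      ((n : ℝ) + 1) * ∑ i ∈ range (16 / 2 + 1), γ i * (cfn 16 i (n + 1) : ℝ)) :
    0 ≤ (0) * γ 0 + (64064) * γ 1 + (19360) * γ 2 + (4020) * γ 3 + (652) * γ 4 + (80) * γ 5 + (6) * γ 6 + (0) * γ 7 + (0) * γ 8 := by
  have h1 := h 5 (by norm_num)
  rw [show 5 + 1 = 6 from rfl, c16_5, c16_6] at h1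
  norm_num [h0] at h1 ⊢
  linarith

theorem q16_6 (γ : ℕ → ℝ) (h0 : γ 0 = 1)
    (h : ∀ n < 16, 2 * (((16 : ℕ) : ℝ) - ((n : ℕ) : ℝ)) * ∑ i ∈ range (16 / 2 + 1), γ i * (cfn 16 i n : ℝ) ≤
      ((n : ℝ) + 1) * ∑ i ∈ range (16 / 2 + 1), γ i * (cfn 16 i (n + 1) : ℝ)) :
    0 ≤ (0) * γ 0 + (192192) * γ 1 + (66528) * γ 2 + (16380) * γ 3 + (3332) * γ 4 + (570) * γ 5 + (78) * γ 6 + (7) * γ 7 + (0) * γ 8 := by
  have h1 := h 6 (by norm_num)
  rw [show 6 + 1 = 7 from rfl, c16_6, c16_7] at h1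
  norm_num [h0] at h1 ⊢
  linarith

theorem q16_7 (γ : ℕ → ℝ) (h0 : γ 0 = 1)
    (h : ∀ n < 16, 2 * (((16 : ℕ) : ℝ) - ((n : ℕ) : ℝ)) * ∑ i ∈ range (16 / 2 + 1), γ i * (cfn 16 i n : ℝ) ≤
      ((n : ℝ) + 1) * ∑ i ∈ range (16 / 2 + 1), γ i * (cfn 16 i (n + 1) : ℝ)) :
    0 ≤ (0) * γ 0 + (439296) * γ 1 + (168960) * γ 2 + (47232) * γ 3 + (11264) * γ 4 + (2380) * γ 5 + (444) * γ 6 + (70) * γ 7 + (8) * γ 8 := by
  have h1 := h 7 (by norm_num)
  rw [show 7 + 1 = 8 from rfl, c16_7, c16_8] at h1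
  norm_num [h0] at h1 ⊢
  linarith

theorem q16_8 (γ : ℕ → ℝ) (h0 : γ 0 = 1)
    (h : ∀ n < 16, 2 * (((16 : ℕ) : ℝ) - ((n : ℕ) : ℝ)) * ∑ i ∈ range (16 / 2 + 1), γ i * (cfn 16 i n : ℝ) ≤
      ((n : ℝ) + 1) * ∑ i ∈ range (16 / 2 + 1), γ i * (cfn 16 i (n + 1) : ℝ)) :
    0 ≤ (0) * γ 0 + (768768) * γ 1 + (321024) * γ 2 + (98784) * γ 3 + (26432) * γ 4 + (6445) * γ 5 + (1452) * γ 6 + (301) * γ 7 + (56) * γ 8 := by
  have h1 := h 8 (by norm_num)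
  rw [show 8 + 1 = 9 from rfl, c16_8, c16_9] at h1
  norm_num [h0] at h1 ⊢
  linarith

theorem q16_9 (γ : ℕ → ℝ) (h0 : γ 0 = 1)
    (h : ∀ n < 16, 2 * (((16 : ℕ) : ℝ) - ((n : ℕ) : ℝ)) * ∑ i ∈ range (16 / 2 + 1), γ i * (cfn 16 i n : ℝ) ≤
      ((n : ℝ) + 1) * ∑ i ∈ range (16 / 2 + 1), γ i * (cfn 16 i (n + 1) : ℝ)) :
    0 ≤ (0) * γ 0 + (1025024) * γ 1 + (456192) * γ 2 + (150912) * γ 3 + (43904) * γ 4 + (11820) * γ 5 + (3006) * γ 6 + (728) * γ 7 + (168) * γ 8 := by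
  have h1 := h 9 (by norm_num)
  rw [show 9 + 1 = 10 from rfl, c16_9, c16_10] at h1
  norm_num [h0] at h1 ⊢
  linarith

theorem q16_10 (γ : ℕ → ℝ) (h0 : γ 0 = 1)
    (h : ∀ n < 16, 2 * (((16 : ℕ) : ℝ) - ((n : ℕ) : ℝ)) * ∑ i ∈ range (16 / 2 + 1), γ i * (cfn 16 i n : ℝ) ≤
      ((n : ℝ) + 1) * ∑ i ∈ range (16 / 2 + 1), γ i * (cfn 16 i (n + 1) : ℝ)) :
    0 ≤ (0) * γ 0 + (1025024) * γ 1 + (478720) * γ 2 + (167040) * γ 3 + (51584) * γ 4 + (14860) * γ 5 + (4086) * γ 6 + (1085) * γ 7 + (280) * γ 8 := by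
  have h1 := h 10 (by norm_num)
  rw [show 10 + 1 = 11 from rfl, c16_10, c16_11] at h1
  norm_num [h0] at h1 ⊢
  linarith

theorem q16_11 (γ : ℕ → ℝ) (h0 : γ 0 = 1)
    (h : ∀ n < 16, 2 * (((16 : ℕ) : ℝ) - ((n : ℕ) : ℝ)) * ∑ i ∈ range (16 / 2 + 1), γ i * (cfn 16 i n : ℝ) ≤
      ((n : ℝ) + 1) * ∑ i ∈ range (16 / 2 + 1), γ i * (cfn 16 i (n + 1) : ℝ)) :
    0 ≤ (0) * γ 0 + (745472) * γ 1 + (360448) * γ 2 + (130560) * γ 3 + (41984) * γ 4 + (12640) * γ 5 + (3648) * γ 6 + (1022) * γ 7 + (280) * γ 8 := by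
  have h1 := h 11 (by norm_num)
  rw [show 11 + 1 = 12 from rfl, c16_11, c16_12] at h1
  norm_num [h0] at h1 ⊢
  linarith

theorem q16_12 (γ : ℕ → ℝ) (h0 : γ 0 = 1)
    (h : ∀ n < 16, 2 * (((16 : ℕ) : ℝ) - ((n : ℕ) : ℝ)) * ∑ i ∈ range (16 / 2 + 1), γ i * (cfn 16 i n : ℝ) ≤
      ((n : ℝ) + 1) * ∑ i ∈ range (16 / 2 + 1), γ i * (cfn 16 i (n + 1) : ℝ)) :
    0 ≤ (0) * γ 0 + (372736) * γ 1 + (184320) * γ 2 + (68352) * γ 3 + (22528) * γ 4 + (6960) * γ 5 + (2064) * γ 6 + (595) * γ 7 + (168) * γ 8 := by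
  have h1 := h 12 (by norm_num)
  rw [show 12 + 1 = 13 from rfl, c16_12, c16_13] at h1
  norm_num [h0] at h1 ⊢
  linarith

theorem q16_13 (γ : ℕ → ℝ) (h0 : γ 0 = 1)
    (h : ∀ n < 16, 2 * (((16 : ℕ) : ℝ) - ((n : ℕ) : ℝ)) * ∑ i ∈ range (16 / 2 + 1), γ i * (cfn 16 i n : ℝ) ≤
      ((n : ℝ) + 1) * ∑ i ∈ range (16 / 2 + 1), γ i * (cfn 16 i (n + 1) : ℝ)) :
    0 ≤ (0) * γ 0 + (114688) * γ 1 + (57344) * γ 2 + (21504) * γ 3 + (7168) * γ 4 + (2240) * γ 5 + (672) * γ 6 + (196) * γ 7 + (56) * γ 8 := by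
  have h1 := h 13 (by norm_num)
  rw [show 13 + 1 = 14 from rfl, c16_13, c16_14] at h1
  norm_num [h0] at h1 ⊢
  linarith

theorem D16 (γ : ℕ → ℝ) (h0 : γ 0 = 1)
    (h : 5 * (((16 - 3 : ℕ) : ℝ)) * ∑ i ∈ range (16 / 2 + 1), γ i * (cfn 16 i (16 - 3) : ℝ) ≤
      (((16 - 2).choose 2 : ℕ) : ℝ) * ∑ i ∈ range (16 / 2 + 1), γ i * (cfn 16 i (16 - 2) : ℝ) +
      16 * ∑ i ∈ range (16 / 2 + 1), γ i * (cfn 16 i (16 - 4) : ℝ)) :
    0 ≤ (0) * γ 0 + (0) * γ 1 + (4096) * γ 2 + (3072) * γ 3 + (1536) * γ 4 + (640) * γ 5 + (240) * γ 6 + (84) * γ 7 + (28) * γ 8 := by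
  rw [show 16 - 3 = 13 from rfl, show 16 - 2 = 14 from rfl, show 16 - 4 = 12 from rfl,
    c16_13, c16_14, c16_12, show (14 : ℕ).choose 2 = 91 from by decide +kernel] at h
  norm_num [h0] at h ⊢
  linarith

theorem m16_0 (γ : ℕ → ℝ) : Mat 16 γ 0 = (1) * γ 0 + (0) * γ 1 + (0) * γ 2 + (0) * γ 3 + (0) * γ 4 + (0) * γ 5 + (0) * γ 6 + (0) * γ 7 + (0) * γ 8 := by
  unfold Mat
  rw [show (16 / 2 + 1 : ℕ) = 9 from rfl]
  simp [sum_range_succ, Nat.choose]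
  try ring

theorem m16_1 (γ : ℕ → ℝ) : Mat 16 γ 1 = (480) * γ 0 + (30) * γ 1 + (1) * γ 2 + (0) * γ 3 + (0) * γ 4 + (0) * γ 5 + (0) * γ 6 + (0) * γ 7 + (0) * γ 8 := by
  unfold Mat
  rw [show (16 / 2 + 1 : ℕ) = 9 from rfl]
  simp [sum_range_succ, Nat.choose]
  try ring

theorem m16_2 (γ : ℕ → ℝ) : Mat 16 γ 2 = (29120) * γ 0 + (3640) * γ 1 + (364) * γ 2 + (26) * γ 3 + (1) * γ 4 + (0) * γ 5 + (0) * γ 6 + (0) * γ 7 + (0) * γ 8 := by
  unfold Mat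
  rw [show (16 / 2 + 1 : ℕ) = 9 from rfl]
  simp [sum_range_succ, Nat.choose]
  try ring

theorem m16_3 (γ : ℕ → ℝ) : Mat 16 γ 3 = (512512) * γ 0 + (96096) * γ 1 + (16016) * γ 2 + (2288) * γ 3 + (264) * γ 4 + (22) * γ 5 + (1) * γ 6 + (0) * γ 7 + (0) * γ 8 := by
  unfold Mat
  rw [show (16 / 2 + 1 : ℕ) = 9 from rfl]
  simp [sum_range_succ, Nat.choose]
  try ring

theorem m16_4 (γ : ℕ → ℝ) : Mat 16 γ 4 = (3294720) * γ 0 + (823680) * γ 1 + (192192) * γ 2 + (41184) * γ 3 + (7920) * γ 4 + (1320) * γ 5 + (180) * γ 6 + (18) * γ 7 + (1) * γ 8 := by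
  unfold Mat
  rw [show (16 / 2 + 1 : ℕ) = 9 from rfl]
  simp [sum_range_succ, Nat.choose]
  try ring

theorem m16_5 (γ : ℕ → ℝ) : Mat 16 γ 5 = (8200192) * γ 0 + (2562560) * γ 1 + (768768) * γ 2 + (219648) * γ 3 + (59136) * γ 4 + (14784) * γ 5 + (3360) * γ 6 + (672) * γ 7 + (112) * γ 8 := by
  unfold Mat
  rw [show (16 / 2 + 1 : ℕ) = 9 from rfl]
  simp [sum_range_succ, Nat.choose]
  try ring

theorem m16_6 (γ : ℕ → ℝ) : Mat 16 γ 6 = (7454720) * γ 0 + (2795520) * γ 1 + (1025024) * γ 2 + (366080) * γ 3 + (126720) * γ 4 + (42240) * γ 5 + (13440) * γ 6 + (4032) * γ 7 + (1120) * γ 8 := by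
  unfold Mat
  rw [show (16 / 2 + 1 : ℕ) = 9 from rfl]
  simp [sum_range_succ, Nat.choose]
  try ring

theorem m16_7 (γ : ℕ → ℝ) : Mat 16 γ 7 = (1966080) * γ 0 + (860160) * γ 1 + (372736) * γ 2 + (159744) * γ 3 + (67584) * γ 4 + (28160) * γ 5 + (11520) * γ 6 + (4608) * γ 7 + (1792) * γ 8 := by
  unfold Mat
  rw [show (16 / 2 + 1 : ℕ) = 9 from rfl]
  simp [sum_range_succ, Nat.choose]
  try ring

theorem m16_8 (γ : ℕ → ℝ) : Mat 16 γ 8 = (65536) * γ 0 + (32768) * γ 1 + (16384) * γ 2 + (8192) * γ 3 + (4096) * γ 4 + (2048) * γ 5 + (1024) * γ 6 + (512) * γ 7 + (256) * γ 8 := by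
  unfold Mat
  rw [show (16 / 2 + 1 : ℕ) = 9 from rfl]
  simp [sum_range_succ, Nat.choose]
  try ring

theorem main16 (γ : ℕ → ℝ) (h0 : γ 0 = 1)
    (h : ∀ n < 16, 2 * (((16 : ℕ) : ℝ) - ((n : ℕ) : ℝ)) * ∑ i ∈ range (16 / 2 + 1), γ i * (cfn 16 i n : ℝ) ≤
      ((n : ℝ) + 1) * ∑ i ∈ range (16 / 2 + 1), γ i * (cfn 16 i (n + 1) : ℝ))
    (hD : 5 * (((16 - 3 : ℕ) : ℝ)) * ∑ i ∈ range (16 / 2 + 1), γ i * (cfn 16 i (16 - 3) : ℝ) ≤
      (((16 - 2).choose 2 : ℕ) : ℝ) * ∑ i ∈ range (16 / 2 + 1), γ i * (cfn 16 i (16 - 2) : ℝ) +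
      16 * ∑ i ∈ range (16 / 2 + 1), γ i * (cfn 16 i (16 - 4) : ℝ)) :
    ∀ j ≤ 16 / 2, 0 < Mat 16 (Mat 16 γ) j := by
  have k0 := q16_0 γ h0 h
  have k1 := q16_1 γ h0 h
  have k2 := q16_2 γ h0 h
  have k3 := q16_3 γ h0 h
  have k4 := q16_4 γ h0 h
  have k5 := q16_5 γ h0 h
  have k6 := q16_6 γ h0 h
  have k7 := q16_7 γ h0 h
  have k8 := q16_8 γ h0 h
  have k9 := q16_9 γ h0 h
  have k10 := q16_10 γ h0 h
  have k11 := q16_11 γ h0 h
  have k12 := q16_12 γ h0 h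
  have k13 := q16_13 γ h0 h
  have kD := D16 γ h0 hD
  intro j hj
  have hj' : j ≤ 8 := hj
  clear hj h hD
  interval_cases j
  · clear hj'
    rw [m16_0]
    simp only [m16_0, m16_1, m16_2, m16_3, m16_4, m16_5, m16_6, m16_7, m16_8, h0]
    linarith only []
  · clear hj'
    rw [m16_1]
    simp only [m16_0, m16_1, m16_2, m16_3, m16_4, m16_5, m16_6, m16_7, m16_8, h0]
    linarith only [k0, k2, k3, k1]
  · clear hj'
    rw [m16_2]
    simp only [m16_0, m16_1, m16_2, m16_3, m16_4, m16_5, m16_6, m16_7, m16_8, h0]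
    linarith only [k0, k1, k2, k5, k6, k3, k4, k7]
  · clear hj'
    rw [m16_3]
    simp only [m16_0, m16_1, m16_2, m16_3, m16_4, m16_5, m16_6, m16_7, m16_8, h0]
    linarith only [k0, k7, k1, k4, k2, k8, k5, k3]
  · clear hj'
    rw [m16_4]
    simp only [m16_0, m16_1, m16_2, m16_3, m16_4, m16_5, m16_6, m16_7, m16_8, h0]
    linarith only [k0, k8, k1, k3, k2, k9, k5, k6]
  · clear hj'
    rw [m16_5]
    simp only [m16_0, m16_1, m16_2, m16_3, m16_4, m16_5, m16_6, m16_7, m16_8, h0]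
    linarith only [k5, k0, k2, k1, k9, k3, k10, k6]
  · clear hj'
    rw [m16_6]
    simp only [m16_0, m16_1, m16_2, m16_3, m16_4, m16_5, m16_6, m16_7, m16_8, h0]
    linarith only [k2, k0, k1, k5, k10, k3, k11, k6]
  · clear hj'
    rw [m16_7]
    simp only [m16_0, m16_1, m16_2, m16_3, m16_4, m16_5, m16_6, m16_7, m16_8, h0]
    linarith only [k3, k5, k0, k1, k2, k6, k12, k13]
  · clear hj'
    rw [m16_8]
    simp only [m16_0, m16_1, m16_2, m16_3, m16_4, m16_5, m16_6, m16_7, m16_8, h0]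
    linarith only [k13, k0, k1, kD, k2, k5, k6, k3]

theorem c17_0 (γ : ℕ → ℝ) : ∑ i ∈ range (17 / 2 + 1), γ i * (cfn 17 i 0 : ℝ) =
    (1) * γ 0 + (0) * γ 1 + (0) * γ 2 + (0) * γ 3 + (0) * γ 4 + (0) * γ 5 + (0) * γ 6 + (0) * γ 7 + (0) * γ 8 := by
  have h : ((17 / 2 + 1 : ℕ)) = 9 := rfl
  rw [h]
  simp only [sum_range_succ, sum_range_zero, show cfn 17 0 0 = 1 from by decide +kernel, show cfn 17 1 0 = 0 from by decide +kernel, show cfn 17 2 0 = 0 from by decide +kernel, show cfn 17 3 0 = 0 from by decide +kernel, show cfn 17 4 0 = 0 from by decide +kernel, show cfn 17 5 0 = 0 from by decide +kernel, show cfn 17 6 0 = 0 from by decide +kernel, show cfn 17 7 0 = 0 from by decide +kernel, show cfn 17 8 0 = 0 from by decide +kernel, Nat.cast_ofNat, Nat.cast_one, Nat.cast_zero]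
  ring

theorem c17_1 (γ : ℕ → ℝ) : ∑ i ∈ range (17 / 2 + 1), γ i * (cfn 17 i 1 : ℝ) =
    (34) * γ 0 + (1) * γ 1 + (0) * γ 2 + (0) * γ 3 + (0) * γ 4 + (0) * γ 5 + (0) * γ 6 + (0) * γ 7 + (0) * γ 8 := by
  have h : ((17 / 2 + 1 : ℕ)) = 9 := rfl
  rw [h]
  simp only [sum_range_succ, sum_range_zero, show cfn 17 0 1 = 34 from by decide +kernel, show cfn 17 1 1 = 1 from by decide +kernel, show cfn 17 2 1 = 0 from by decide +kernel, show cfn 17 3 1 = 0 from by decide +kernel, show cfn 17 4 1 = 0 from by decide +kernel, show cfn 17 5 1 = 0 from by decide +kernel, show cfn 17 6 1 = 0 from by decide +kernel, show cfn 17 7 1 = 0 from by decide +kernel, show cfn 17 8 1 = 0 from by decide +kernel, Nat.cast_ofNat, Nat.cast_one, Nat.cast_zero]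
  ring

theorem c17_2 (γ : ℕ → ℝ) : ∑ i ∈ range (17 / 2 + 1), γ i * (cfn 17 i 2 : ℝ) =
    (544) * γ 0 + (31) * γ 1 + (1) * γ 2 + (0) * γ 3 + (0) * γ 4 + (0) * γ 5 + (0) * γ 6 + (0) * γ 7 + (0) * γ 8 := by
  have h : ((17 / 2 + 1 : ℕ)) = 9 := rfl
  rw [h]
  simp only [sum_range_succ, sum_range_zero, show cfn 17 0 2 = 544 from by decide +kernel, show cfn 17 1 2 = 31 from by decide +kernel, show cfn 17 2 2 = 1 from by decide +kernel, show cfn 17 3 2 = 0 from by decide +kernel, show cfn 17 4 2 = 0 from by decide +kernel, show cfn 17 5 2 = 0 from by decide +kernel, show cfn 17 6 2 = 0 from by decide +kernel, show cfn 17 7 2 = 0 from by decide +kernel, show cfn 17 8 2 = 0 from by decide +kernel, Nat.cast_ofNat, Nat.cast_one, Nat.cast_zero]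
  ring

theorem c17_3 (γ : ℕ → ℝ) : ∑ i ∈ range (17 / 2 + 1), γ i * (cfn 17 i 3 : ℝ) =
    (5440) * γ 0 + (450) * γ 1 + (28) * γ 2 + (1) * γ 3 + (0) * γ 4 + (0) * γ 5 + (0) * γ 6 + (0) * γ 7 + (0) * γ 8 := by
  have h : ((17 / 2 + 1 : ℕ)) = 9 := rfl
  rw [h]
  simp only [sum_range_succ, sum_range_zero, show cfn 17 0 3 = 5440 from by decide +kernel, show cfn 17 1 3 = 450 from by decide +kernel, show cfn 17 2 3 = 28 from by decide +kernel, show cfn 17 3 3 = 1 from by decide +kernel, show cfn 17 4 3 = 0 from by decide +kernel, show cfn 17 5 3 = 0 from by decide +kernel, show cfn 17 6 3 = 0 from by decide +kernel, show cfn 17 7 3 = 0 from by decide +kernel, show cfn 17 8 3 = 0 from by decide +kernel, Nat.cast_ofNat, Nat.cast_one, Nat.cast_zero]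
  ring

theorem c17_4 (γ : ℕ → ℝ) : ∑ i ∈ range (17 / 2 + 1), γ i * (cfn 17 i 4 : ℝ) =
    (38080) * γ 0 + (4060) * γ 1 + (365) * γ 2 + (25) * γ 3 + (1) * γ 4 + (0) * γ 5 + (0) * γ 6 + (0) * γ 7 + (0) * γ 8 := by
  have h : ((17 / 2 + 1 : ℕ)) = 9 := rfl
  rw [h]
  simp only [sum_range_succ, sum_range_zero, show cfn 17 0 4 = 38080 from by decide +kernel, show cfn 17 1 4 = 4060 from by decide +kernel, show cfn 17 2 4 = 365 from by decide +kernel, show cfn 17 3 4 = 25 from by decide +kernel, show cfn 17 4 4 = 1 from by decide +kernel, show cfn 17 5 4 = 0 from by decide +kernel, show cfn 17 6 4 = 0 from by decide +kernel, show cfn 17 7 4 = 0 from by decide +kernel, show cfn 17 8 4 = 0 from by decide +kernel, Nat.cast_ofNat, Nat.cast_one, Nat.cast_zero]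
  ring

theorem c17_5 (γ : ℕ → ℝ) : ∑ i ∈ range (17 / 2 + 1), γ i * (cfn 17 i 5 : ℝ) =
    (198016) * γ 0 + (25480) * γ 1 + (2938) * γ 2 + (289) * γ 3 + (22) * γ 4 + (1) * γ 5 + (0) * γ 6 + (0) * γ 7 + (0) * γ 8 := by
  have h : ((17 / 2 + 1 : ℕ)) = 9 := rfl
  rw [h]
  simp only [sum_range_succ, sum_range_zero, show cfn 17 0 5 = 198016 from by decide +kernel, show cfn 17 1 5 = 25480 from by decide +kernel, show cfn 17 2 5 = 2938 from by decide +kernel, show cfn 17 3 5 = 289 from by decide +kernel, show cfn 17 4 5 = 22 from by decide +kernel, show cfn 17 5 5 = 1 from by decide +kernel, show cfn 17 6 5 = 0 from by decide +kernel, show cfn 17 7 5 = 0 from by decide +kernel, show cfn 17 8 5 = 0 from by decide +kernel, Nat.cast_ofNat, Nat.cast_one, Nat.cast_zero]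
  ring

theorem c17_6 (γ : ℕ → ℝ) : ∑ i ∈ range (17 / 2 + 1), γ i * (cfn 17 i 6 : ℝ) =
    (792064) * γ 0 + (117936) * γ 1 + (16328) * γ 2 + (2047) * γ 3 + (222) * γ 4 + (19) * γ 5 + (1) * γ 6 + (0) * γ 7 + (0) * γ 8 := by
  have h : ((17 / 2 + 1 : ℕ)) = 9 := rfl
  rw [h]
  simp only [sum_range_succ, sum_range_zero, show cfn 17 0 6 = 792064 from by decide +kernel, show cfn 17 1 6 = 117936 from by decide +kernel, show cfn 17 2 6 = 16328 from by decide +kernel, show cfn 17 3 6 = 2047 from by decide +kernel, show cfn 17 4 6 = 222 from by decide +kernel, show cfn 17 5 6 = 19 from by decide +kernel, show cfn 17 6 6 = 1 from by decide +kernel, show cfn 17 7 6 = 0 from by decide +kernel, show cfn 17 8 6 = 0 from by decide +kernel, Nat.cast_ofNat, Nat.cast_one, Nat.cast_zero]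
  ring

theorem c17_7 (γ : ℕ → ℝ) : ∑ i ∈ range (17 / 2 + 1), γ i * (cfn 17 i 7 : ℝ) =
    (2489344) * γ 0 + (416416) * γ 1 + (66352) * γ 2 + (9922) * γ 3 + (1360) * γ 4 + (164) * γ 5 + (16) * γ 6 + (1) * γ 7 + (0) * γ 8 := by
  have h : ((17 / 2 + 1 : ℕ)) = 9 := rfl
  rw [h]
  simp only [sum_range_succ, sum_range_zero, show cfn 17 0 7 = 2489344 from by decide +kernel, show cfn 17 1 7 = 416416 from by decide +kernel, show cfn 17 2 7 = 66352 from by decide +kernel, show cfn 17 3 7 = 9922 from by decide +kernel, show cfn 17 4 7 = 1360 from by decide +kernel, show cfn 17 5 7 = 164 from by decide +kernel, show cfn 17 6 7 = 16 from by decide +kernel, show cfn 17 7 7 = 1 from by decide +kernel, show cfn 17 8 7 = 0 from by decide +kernel, Nat.cast_ofNat, Nat.cast_one, Nat.cast_zero]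
  ring

theorem c17_8 (γ : ℕ → ℝ) : ∑ i ∈ range (17 / 2 + 1), γ i * (cfn 17 i 8 : ℝ) =
    (6223360) * γ 0 + (1144000) * γ 1 + (203632) * γ 2 + (34804) * γ 3 + (5641) * γ 4 + (850) * γ 5 + (115) * γ 6 + (13) * γ 7 + (1) * γ 8 := by
  have h : ((17 / 2 + 1 : ℕ)) = 9 := rfl
  rw [h]
  simp only [sum_range_succ, sum_range_zero, show cfn 17 0 8 = 6223360 from by decide +kernel, show cfn 17 1 8 = 1144000 from by decide +kernel, show cfn 17 2 8 = 203632 from by decide +kernel, show cfn 17 3 8 = 34804 from by decide +kernel, show cfn 17 4 8 = 5641 from by decide +kernel, show cfn 17 5 8 = 850 from by decide +kernel, show cfn 17 6 8 = 115 from by decide +kernel, show cfn 17 7 8 = 13 from by decide +kernel, show cfn 17 8 8 = 1 from by decide +kernel, Nat.cast_ofNat, Nat.cast_one, Nat.cast_zero]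
  ring

theorem c17_9 (γ : ℕ → ℝ) : ∑ i ∈ range (17 / 2 + 1), γ i * (cfn 17 i 9 : ℝ) =
    (12446720) * γ 0 + (2471040) * γ 1 + (480480) * γ 2 + (91080) * γ 3 + (16722) * γ 4 + (2945) * γ 5 + (490) * γ 6 + (75) * γ 7 + (10) * γ 8 := by
  have h : ((17 / 2 + 1 : ℕ)) = 9 := rfl
  rw [h]
  simp only [sum_range_succ, sum_range_zero, show cfn 17 0 9 = 12446720 from by decide +kernel, show cfn 17 1 9 = 2471040 from by decide +kernel, show cfn 17 2 9 = 480480 from by decide +kernel, show cfn 17 3 9 = 91080 from by decide +kernel, show cfn 17 4 9 = 16722 from by decide +kernel, show cfn 17 5 9 = 2945 from by decide +kernel, show cfn 17 6 9 = 490 from by decide +kernel, show cfn 17 7 9 = 75 from by decide +kernel, show cfn 17 8 9 = 10 from by decide +kernel, Nat.cast_ofNat, Nat.cast_one, Nat.cast_zero]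
  ring

theorem c17_10 (γ : ℕ → ℝ) : ∑ i ∈ range (17 / 2 + 1), γ i * (cfn 17 i 10 : ℝ) =
    (19914752) * γ 0 + (4209920) * γ 1 + (878592) * γ 2 + (180576) * γ 3 + (36432) * γ 4 + (7183) * γ 5 + (1375) * γ 6 + (253) * γ 7 + (44) * γ 8 := by
  have h : ((17 / 2 + 1 : ℕ)) = 9 := rfl
  rw [h]
  simp only [sum_range_succ, sum_range_zero, show cfn 17 0 10 = 19914752 from by decide +kernel, show cfn 17 1 10 = 4209920 from by decide +kernel, show cfn 17 2 10 = 878592 from by decide +kernel, show cfn 17 3 10 = 180576 from by decide +kernel, show cfn 17 4 10 = 36432 from by decide +kernel, show cfn 17 5 10 = 7183 from by decide +kernel, show cfn 17 6 10 = 1375 from by decide +kernel, show cfn 17 7 10 = 253 from by decide +kernel, show cfn 17 8 10 = 44 from by decide +kernel, Nat.cast_ofNat, Nat.cast_one, Nat.cast_zero]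
  ring

theorem c17_11 (γ : ℕ → ℝ) : ∑ i ∈ range (17 / 2 + 1), γ i * (cfn 17 i 11 : ℝ) =
    (25346048) * γ 0 + (5637632) * γ 1 + (1244672) * γ 2 + (272448) * γ 3 + (59040) * γ 4 + (12642) * γ 5 + (2668) * γ 6 + (553) * γ 7 + (112) * γ 8 := by
  have h : ((17 / 2 + 1 : ℕ)) = 9 := rfl
  rw [h]
  simp only [sum_range_succ, sum_range_zero, show cfn 17 0 11 = 25346048 from by decide +kernel, show cfn 17 1 11 = 5637632 from by decide +kernel, show cfn 17 2 11 = 1244672 from by decide +kernel, show cfn 17 3 11 = 272448 from by decide +kernel, show cfn 17 4 11 = 59040 from by decide +kernel, show cfn 17 5 11 = 12642 from by decide +kernel, show cfn 17 6 11 = 2668 from by decide +kernel, show cfn 17 7 11 = 553 from by decide +kernel, show cfn 17 8 11 = 112 from by decide +kernel, Nat.cast_ofNat, Nat.cast_one, Nat.cast_zero]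
  ring

theorem c17_12 (γ : ℕ → ℝ) : ∑ i ∈ range (17 / 2 + 1), γ i * (cfn 17 i 12 : ℝ) =
    (25346048) * γ 0 + (5870592) * γ 1 + (1354496) * γ 2 + (311168) * γ 3 + (71136) * γ 4 + (16172) * γ 5 + (3653) * γ 6 + (819) * γ 7 + (182) * γ 8 := by
  have h : ((17 / 2 + 1 : ℕ)) = 9 := rfl
  rw [h]
  simp only [sum_range_succ, sum_range_zero, show cfn 17 0 12 = 25346048 from by decide +kernel, show cfn 17 1 12 = 5870592 from by decide +kernel, show cfn 17 2 12 = 1354496 from by decide +kernel, show cfn 17 3 12 = 311168 from by decide +kernel, show cfn 17 4 12 = 71136 from by decide +kernel, show cfn 17 5 12 = 16172 from by decide +kernel, show cfn 17 6 12 = 3653 from by decide +kernel, show cfn 17 7 12 = 819 from by decide +kernel, show cfn 17 8 12 = 182 from by decide +kernel, Nat.cast_ofNat, Nat.cast_one, Nat.cast_zero]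
  ring

theorem c17_13 (γ : ℕ → ℝ) : ∑ i ∈ range (17 / 2 + 1), γ i * (cfn 17 i 13 : ℝ) =
    (19496960) * γ 0 + (4659200) * γ 1 + (1111552) * γ 2 + (264704) * γ 3 + (62912) * γ 4 + (14920) * γ 5 + (3530) * γ 6 + (833) * γ 7 + (196) * γ 8 := by
  have h : ((17 / 2 + 1 : ℕ)) = 9 := rfl
  rw [h]
  simp only [sum_range_succ, sum_range_zero, show cfn 17 0 13 = 19496960 from by decide +kernel, show cfn 17 1 13 = 4659200 from by decide +kernel, show cfn 17 2 13 = 1111552 from by decide +kernel, show cfn 17 3 13 = 264704 from by decide +kernel, show cfn 17 4 13 = 62912 from by decide +kernel, show cfn 17 5 13 = 14920 from by decide +kernel, show cfn 17 6 13 = 3530 from by decide +kernel, show cfn 17 7 13 = 833 from by decide +kernel, show cfn 17 8 13 = 196 from by decide +kernel, Nat.cast_ofNat, Nat.cast_one, Nat.cast_zero]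
  ring

theorem c17_14 (γ : ℕ → ℝ) : ∑ i ∈ range (17 / 2 + 1), γ i * (cfn 17 i 14 : ℝ) =
    (11141120) * γ 0 + (2723840) * γ 1 + (665600) * γ 2 + (162560) * γ 3 + (39680) * γ 4 + (9680) * γ 5 + (2360) * γ 6 + (575) * γ 7 + (140) * γ 8 := by
  have h : ((17 / 2 + 1 : ℕ)) = 9 := rfl
  rw [h]
  simp only [sum_range_succ, sum_range_zero, show cfn 17 0 14 = 11141120 from by decide +kernel, show cfn 17 1 14 = 2723840 from by decide +kernel, show cfn 17 2 14 = 665600 from by decide +kernel, show cfn 17 3 14 = 162560 from by decide +kernel, show cfn 17 4 14 = 39680 from by decide +kernel, show cfn 17 5 14 = 9680 from by decide +kernel, show cfn 17 6 14 = 2360 from by decide +kernel, show cfn 17 7 14 = 575 from by decide +kernel, show cfn 17 8 14 = 140 from by decide +kernel, Nat.cast_ofNat, Nat.cast_one, Nat.cast_zero]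
  ring

theorem c17_15 (γ : ℕ → ℝ) : ∑ i ∈ range (17 / 2 + 1), γ i * (cfn 17 i 15 : ℝ) =
    (4456448) * γ 0 + (1105920) * γ 1 + (274432) * γ 2 + (68096) * γ 3 + (16896) * γ 4 + (4192) * γ 5 + (1040) * γ 6 + (258) * γ 7 + (64) * γ 8 := by
  have h : ((17 / 2 + 1 : ℕ)) = 9 := rfl
  rw [h]
  simp only [sum_range_succ, sum_range_zero, show cfn 17 0 15 = 4456448 from by decide +kernel, show cfn 17 1 15 = 1105920 from by decide +kernel, show cfn 17 2 15 = 274432 from by decide +kernel, show cfn 17 3 15 = 68096 from by decide +kernel, show cfn 17 4 15 = 16896 from by decide +kernel, show cfn 17 5 15 = 4192 from by decide +kernel, show cfn 17 6 15 = 1040 from by decide +kernel, show cfn 17 7 15 = 258 from by decide +kernel, show cfn 17 8 15 = 64 from by decide +kernel, Nat.cast_ofNat, Nat.cast_one, Nat.cast_zero]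
  ring

theorem q17_0 (γ : ℕ → ℝ) (h0 : γ 0 = 1)
    (h : ∀ n < 17, 2 * (((17 : ℕ) : ℝ) - ((n : ℕ) : ℝ)) * ∑ i ∈ range (17 / 2 + 1), γ i * (cfn 17 i n : ℝ) ≤
      ((n : ℝ) + 1) * ∑ i ∈ range (17 / 2 + 1), γ i * (cfn 17 i (n + 1) : ℝ)) :
    0 ≤ (0) * γ 0 + (1) * γ 1 + (0) * γ 2 + (0) * γ 3 + (0) * γ 4 + (0) * γ 5 + (0) * γ 6 + (0) * γ 7 + (0) * γ 8 := by
  have h1 := h 0 (by norm_num)
  rw [show 0 + 1 = 1 from rfl, c17_0, c17_1] at h1
  norm_num [h0] at h1 ⊢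
  linarith

theorem q17_1 (γ : ℕ → ℝ) (h0 : γ 0 = 1)
    (h : ∀ n < 17, 2 * (((17 : ℕ) : ℝ) - ((n : ℕ) : ℝ)) * ∑ i ∈ range (17 / 2 + 1), γ i * (cfn 17 i n : ℝ) ≤
      ((n : ℝ) + 1) * ∑ i ∈ range (17 / 2 + 1), γ i * (cfn 17 i (n + 1) : ℝ)) :
    0 ≤ (0) * γ 0 + (30) * γ 1 + (2) * γ 2 + (0) * γ 3 + (0) * γ 4 + (0) * γ 5 + (0) * γ 6 + (0) * γ 7 + (0) * γ 8 := by
  have h1 := h 1 (by norm_num)
  rw [show 1 + 1 = 2 from rfl, c17_1, c17_2] at h1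
  norm_num [h0] at h1 ⊢
  linarith

theorem q17_2 (γ : ℕ → ℝ) (h0 : γ 0 = 1)
    (h : ∀ n < 17, 2 * (((17 : ℕ) : ℝ) - ((n : ℕ) : ℝ)) * ∑ i ∈ range (17 / 2 + 1), γ i * (cfn 17 i n : ℝ) ≤
      ((n : ℝ) + 1) * ∑ i ∈ range (17 / 2 + 1), γ i * (cfn 17 i (n + 1) : ℝ)) :
    0 ≤ (0) * γ 0 + (420) * γ 1 + (54) * γ 2 + (3) * γ 3 + (0) * γ 4 + (0) * γ 5 + (0) * γ 6 + (0) * γ 7 + (0) * γ 8 := by
  have h1 := h 2 (by norm_num)
  rw [show 2 + 1 = 3 from rfl, c17_2, c17_3] at h1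
  norm_num [h0] at h1 ⊢
  linarith

theorem q17_3 (γ : ℕ → ℝ) (h0 : γ 0 = 1)
    (h : ∀ n < 17, 2 * (((17 : ℕ) : ℝ) - ((n : ℕ) : ℝ)) * ∑ i ∈ range (17 / 2 + 1), γ i * (cfn 17 i n : ℝ) ≤
      ((n : ℝ) + 1) * ∑ i ∈ range (17 / 2 + 1), γ i * (cfn 17 i (n + 1) : ℝ)) :
    0 ≤ (0) * γ 0 + (3640) * γ 1 + (676) * γ 2 + (72) * γ 3 + (4) * γ 4 + (0) * γ 5 + (0) * γ 6 + (0) * γ 7 + (0) * γ 8 := by
  have h1 := h 3 (by norm_num)
  rw [show 3 + 1 = 4 from rfl, c17_3, c17_4] at h1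
  norm_num [h0] at h1 ⊢
  linarith

theorem q17_4 (γ : ℕ → ℝ) (h0 : γ 0 = 1)
    (h : ∀ n < 17, 2 * (((17 : ℕ) : ℝ) - ((n : ℕ) : ℝ)) * ∑ i ∈ range (17 / 2 + 1), γ i * (cfn 17 i n : ℝ) ≤
      ((n : ℝ) + 1) * ∑ i ∈ range (17 / 2 + 1), γ i * (cfn 17 i (n + 1) : ℝ)) :
    0 ≤ (0) * γ 0 + (21840) * γ 1 + (5200) * γ 2 + (795) * γ 3 + (84) * γ 4 + (5) * γ 5 + (0) * γ 6 + (0) * γ 7 + (0) * γ 8 := by
  have h1 := h 4 (by norm_num)
  rw [show 4 + 1 = 5 from rfl, c17_4, c17_5] at h1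
  norm_num [h0] at h1 ⊢
  linarith

theorem q17_5 (γ : ℕ → ℝ) (h0 : γ 0 = 1)
    (h : ∀ n < 17, 2 * (((17 : ℕ) : ℝ) - ((n : ℕ) : ℝ)) * ∑ i ∈ range (17 / 2 + 1), γ i * (cfn 17 i n : ℝ) ≤
      ((n : ℝ) + 1) * ∑ i ∈ range (17 / 2 + 1), γ i * (cfn 17 i (n + 1) : ℝ)) :
    0 ≤ (0) * γ 0 + (96096) * γ 1 + (27456) * γ 2 + (5346) * γ 3 + (804) * γ 4 + (90) * γ 5 + (6) * γ 6 + (0) * γ 7 + (0) * γ 8 := by
  have h1 := h 5 (by norm_num)
  rw [show 5 + 1 = 6 from rfl, c17_5, c17_6] at h1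
  norm_num [h0] at h1 ⊢
  linarith

theorem q17_6 (γ : ℕ → ℝ) (h0 : γ 0 = 1)
    (h : ∀ n < 17, 2 * (((17 : ℕ) : ℝ) - ((n : ℕ) : ℝ)) * ∑ i ∈ range (17 / 2 + 1), γ i * (cfn 17 i n : ℝ) ≤
      ((n : ℝ) + 1) * ∑ i ∈ range (17 / 2 + 1), γ i * (cfn 17 i (n + 1) : ℝ)) :
    0 ≤ (0) * γ 0 + (320320) * γ 1 + (105248) * γ 2 + (24420) * γ 3 + (4636) * γ 4 + (730) * γ 5 + (90) * γ 6 + (7) * γ 7 + (0) * γ 8 := by
  have h1 := h 6 (by norm_num)
  rw [show 6 + 1 = 7 from rfl, c17_6, c17_7] at h1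
  norm_num [h0] at h1 ⊢
  linarith

theorem q17_7 (γ : ℕ → ℝ) (h0 : γ 0 = 1)
    (h : ∀ n < 17, 2 * (((17 : ℕ) : ℝ) - ((n : ℕ) : ℝ)) * ∑ i ∈ range (17 / 2 + 1), γ i * (cfn 17 i n : ℝ) ≤
      ((n : ℝ) + 1) * ∑ i ∈ range (17 / 2 + 1), γ i * (cfn 17 i (n + 1) : ℝ)) :
    0 ≤ (0) * γ 0 + (823680) * γ 1 + (302016) * γ 2 + (79992) * γ 3 + (17928) * γ 4 + (3520) * γ 5 + (600) * γ 6 + (84) * γ 7 + (8) * γ 8 := by
  have h1 := h 7 (by norm_num)
  rw [show 7 + 1 = 8 from rfl, c17_7, c17_8] at h1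
  norm_num [h0] at h1 ⊢
  linarith

theorem q17_8 (γ : ℕ → ℝ) (h0 : γ 0 = 1)
    (h : ∀ n < 17, 2 * (((17 : ℕ) : ℝ) - ((n : ℕ) : ℝ)) * ∑ i ∈ range (17 / 2 + 1), γ i * (cfn 17 i n : ℝ) ≤
      ((n : ℝ) + 1) * ∑ i ∈ range (17 / 2 + 1), γ i * (cfn 17 i (n + 1) : ℝ)) :
    0 ≤ (0) * γ 0 + (1647360) * γ 1 + (658944) * γ 2 + (193248) * γ 3 + (48960) * γ 4 + (11205) * γ 5 + (2340) * γ 6 + (441) * γ 7 + (72) * γ 8 := by
  have h1 := h 8 (by norm_num)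
  rw [show 8 + 1 = 9 from rfl, c17_8, c17_9] at h1
  norm_num [h0] at h1 ⊢
  linarith

theorem q17_9 (γ : ℕ → ℝ) (h0 : γ 0 = 1)
    (h : ∀ n < 17, 2 * (((17 : ℕ) : ℝ) - ((n : ℕ) : ℝ)) * ∑ i ∈ range (17 / 2 + 1), γ i * (cfn 17 i n : ℝ) ≤
      ((n : ℝ) + 1) * ∑ i ∈ range (17 / 2 + 1), γ i * (cfn 17 i (n + 1) : ℝ)) :
    0 ≤ (0) * γ 0 + (2562560) * γ 1 + (1098240) * γ 2 + (348480) * γ 3 + (96768) * γ 4 + (24710) * γ 5 + (5910) * γ 6 + (1330) * γ 7 + (280) * γ 8 := by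
  have h1 := h 9 (by norm_num)
  rw [show 9 + 1 = 10 from rfl, c17_9, c17_10] at h1
  norm_num [h0] at h1 ⊢
  linarith

theorem q17_10 (γ : ℕ → ℝ) (h0 : γ 0 = 1)
    (h : ∀ n < 17, 2 * (((17 : ℕ) : ℝ) - ((n : ℕ) : ℝ)) * ∑ i ∈ range (17 / 2 + 1), γ i * (cfn 17 i n : ℝ) ≤
      ((n : ℝ) + 1) * ∑ i ∈ range (17 / 2 + 1), γ i * (cfn 17 i (n + 1) : ℝ)) :
    0 ≤ (0) * γ 0 + (3075072) * γ 1 + (1391104) * γ 2 + (468864) * γ 3 + (139392) * γ 4 + (38500) * γ 5 + (10098) * γ 6 + (2541) * γ 7 + (616) * γ 8 := by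
  have h1 := h 10 (by norm_num)
  rw [show 10 + 1 = 11 from rfl, c17_10, c17_11] at h1
  norm_num [h0] at h1 ⊢
  linarith

theorem q17_11 (γ : ℕ → ℝ) (h0 : γ 0 = 1)
    (h : ∀ n < 17, 2 * (((17 : ℕ) : ℝ) - ((n : ℕ) : ℝ)) * ∑ i ∈ range (17 / 2 + 1), γ i * (cfn 17 i n : ℝ) ≤
      ((n : ℝ) + 1) * ∑ i ∈ range (17 / 2 + 1), γ i * (cfn 17 i (n + 1) : ℝ)) :
    0 ≤ (0) * γ 0 + (2795520) * γ 1 + (1317888) * γ 2 + (464640) * γ 3 + (145152) * γ 4 + (42360) * γ 5 + (11820) * γ 6 + (3192) * γ 7 + (840) * γ 8 := by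
  have h1 := h 11 (by norm_num)
  rw [show 11 + 1 = 12 from rfl, c17_11, c17_12] at h1
  norm_num [h0] at h1 ⊢
  linarith

theorem q17_12 (γ : ℕ → ℝ) (h0 : γ 0 = 1)
    (h : ∀ n < 17, 2 * (((17 : ℕ) : ℝ) - ((n : ℕ) : ℝ)) * ∑ i ∈ range (17 / 2 + 1), γ i * (cfn 17 i n : ℝ) ≤
      ((n : ℝ) + 1) * ∑ i ∈ range (17 / 2 + 1), γ i * (cfn 17 i (n + 1) : ℝ)) :
    0 ≤ (0) * γ 0 + (1863680) * γ 1 + (905216) * γ 2 + (329472) * γ 3 + (106496) * γ 4 + (32240) * γ 5 + (9360) * γ 6 + (2639) * γ 7 + (728) * γ 8 := by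
  have h1 := h 12 (by norm_num)
  rw [show 12 + 1 = 13 from rfl, c17_12, c17_13] at h1
  norm_num [h0] at h1 ⊢
  linarith

theorem q17_13 (γ : ℕ → ℝ) (h0 : γ 0 = 1)
    (h : ∀ n < 17, 2 * (((17 : ℕ) : ℝ) - ((n : ℕ) : ℝ)) * ∑ i ∈ range (17 / 2 + 1), γ i * (cfn 17 i n : ℝ) ≤
      ((n : ℝ) + 1) * ∑ i ∈ range (17 / 2 + 1), γ i * (cfn 17 i (n + 1) : ℝ)) :
    0 ≤ (0) * γ 0 + (860160) * γ 1 + (425984) * γ 2 + (158208) * γ 3 + (52224) * γ 4 + (16160) * γ 5 + (4800) * γ 6 + (1386) * γ 7 + (392) * γ 8 := by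
  have h1 := h 13 (by norm_num)
  rw [show 13 + 1 = 14 from rfl, c17_13, c17_14] at h1
  norm_num [h0] at h1 ⊢
  linarith

theorem q17_14 (γ : ℕ → ℝ) (h0 : γ 0 = 1)
    (h : ∀ n < 17, 2 * (((17 : ℕ) : ℝ) - ((n : ℕ) : ℝ)) * ∑ i ∈ range (17 / 2 + 1), γ i * (cfn 17 i n : ℝ) ≤
      ((n : ℝ) + 1) * ∑ i ∈ range (17 / 2 + 1), γ i * (cfn 17 i (n + 1) : ℝ)) :
    0 ≤ (0) * γ 0 + (245760) * γ 1 + (122880) * γ 2 + (46080) * γ 3 + (15360) * γ 4 + (4800) * γ 5 + (1440) * γ 6 + (420) * γ 7 + (120) * γ 8 := by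
  have h1 := h 14 (by norm_num)
  rw [show 14 + 1 = 15 from rfl, c17_14, c17_15] at h1
  norm_num [h0] at h1 ⊢
  linarith

theorem D17 (γ : ℕ → ℝ) (h0 : γ 0 = 1)
    (h : 5 * (((17 - 3 : ℕ) : ℝ)) * ∑ i ∈ range (17 / 2 + 1), γ i * (cfn 17 i (17 - 3) : ℝ) ≤
      (((17 - 2).choose 2 : ℕ) : ℝ) * ∑ i ∈ range (17 / 2 + 1), γ i * (cfn 17 i (17 - 2) : ℝ) +
      16 * ∑ i ∈ range (17 / 2 + 1), γ i * (cfn 17 i (17 - 4) : ℝ)) :
    0 ≤ (0) * γ 0 + (0) * γ 1 + (8192) * γ 2 + (6144) * γ 3 + (3072) * γ 4 + (1280) * γ 5 + (480) * γ 6 + (168) * γ 7 + (56) * γ 8 := by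
  rw [show 17 - 3 = 14 from rfl, show 17 - 2 = 15 from rfl, show 17 - 4 = 13 from rfl,
    c17_14, c17_15, c17_13, show (15 : ℕ).choose 2 = 105 from by decide +kernel] at h
  norm_num [h0] at h ⊢
  linarith

theorem m17_0 (γ : ℕ → ℝ) : Mat 17 γ 0 = (1) * γ 0 + (0) * γ 1 + (0) * γ 2 + (0) * γ 3 + (0) * γ 4 + (0) * γ 5 + (0) * γ 6 + (0) * γ 7 + (0) * γ 8 := by
  unfold Mat
  rw [show (17 / 2 + 1 : ℕ) = 9 from rfl]
  simp [sum_range_succ, Nat.choose]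
  try ring

theorem m17_1 (γ : ℕ → ℝ) : Mat 17 γ 1 = (544) * γ 0 + (32) * γ 1 + (1) * γ 2 + (0) * γ 3 + (0) * γ 4 + (0) * γ 5 + (0) * γ 6 + (0) * γ 7 + (0) * γ 8 := by
  unfold Mat
  rw [show (17 / 2 + 1 : ℕ) = 9 from rfl]
  simp [sum_range_succ, Nat.choose]
  try ring

theorem m17_2 (γ : ℕ → ℝ) : Mat 17 γ 2 = (38080) * γ 0 + (4480) * γ 1 + (420) * γ 2 + (28) * γ 3 + (1) * γ 4 + (0) * γ 5 + (0) * γ 6 + (0) * γ 7 + (0) * γ 8 := by
  unfold Mat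
  rw [show (17 / 2 + 1 : ℕ) = 9 from rfl]
  simp [sum_range_succ, Nat.choose]
  try ring

theorem m17_3 (γ : ℕ → ℝ) : Mat 17 γ 3 = (792064) * γ 0 + (139776) * γ 1 + (21840) * γ 2 + (2912) * γ 3 + (312) * γ 4 + (24) * γ 5 + (1) * γ 6 + (0) * γ 7 + (0) * γ 8 := by
  unfold Mat
  rw [show (17 / 2 + 1 : ℕ) = 9 from rfl]
  simp [sum_range_succ, Nat.choose]
  try ring

theorem m17_4 (γ : ℕ → ℝ) : Mat 17 γ 4 = (6223360) * γ 0 + (1464320) * γ 1 + (320320) * γ 2 + (64064) * γ 3 + (11440) * γ 4 + (1760) * γ 5 + (220) * γ 6 + (20) * γ 7 + (1) * γ 8 := by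
  unfold Mat
  rw [show (17 / 2 + 1 : ℕ) = 9 from rfl]
  simp [sum_range_succ, Nat.choose]
  try ring

theorem m17_5 (γ : ℕ → ℝ) : Mat 17 γ 5 = (19914752) * γ 0 + (5857280) * γ 1 + (1647360) * γ 2 + (439296) * γ 3 + (109824) * γ 4 + (25344) * γ 5 + (5280) * γ 6 + (960) * γ 7 + (144) * γ 8 := by
  unfold Mat
  rw [show (17 / 2 + 1 : ℕ) = 9 from rfl]
  simp [sum_range_succ, Nat.choose]
  try ring

theorem m17_6 (γ : ℕ → ℝ) : Mat 17 γ 6 = (25346048) * γ 0 + (8945664) * γ 1 + (3075072) * γ 2 + (1025024) * γ 3 + (329472) * γ 4 + (101376) * γ 5 + (29568) * γ 6 + (8064) * γ 7 + (2016) * γ 8 := by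
  unfold Mat
  rw [show (17 / 2 + 1 : ℕ) = 9 from rfl]
  simp [sum_range_succ, Nat.choose]
  try ring

theorem m17_7 (γ : ℕ → ℝ) : Mat 17 γ 7 = (11141120) * γ 0 + (4587520) * γ 1 + (1863680) * γ 2 + (745472) * γ 3 + (292864) * γ 4 + (112640) * γ 5 + (42240) * γ 6 + (15360) * γ 7 + (5376) * γ 8 := by
  unfold Mat
  rw [show (17 / 2 + 1 : ℕ) = 9 from rfl]
  simp [sum_range_succ, Nat.choose]
  try ring

theorem m17_8 (γ : ℕ → ℝ) : Mat 17 γ 8 = (1114112) * γ 0 + (524288) * γ 1 + (245760) * γ 2 + (114688) * γ 3 + (53248) * γ 4 + (24576) * γ 5 + (11264) * γ 6 + (5120) * γ 7 + (2304) * γ 8 := by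
  unfold Mat
  rw [show (17 / 2 + 1 : ℕ) = 9 from rfl]
  simp [sum_range_succ, Nat.choose]
  try ring

theorem main17 (γ : ℕ → ℝ) (h0 : γ 0 = 1)
    (h : ∀ n < 17, 2 * (((17 : ℕ) : ℝ) - ((n : ℕ) : ℝ)) * ∑ i ∈ range (17 / 2 + 1), γ i * (cfn 17 i n : ℝ) ≤
      ((n : ℝ) + 1) * ∑ i ∈ range (17 / 2 + 1), γ i * (cfn 17 i (n + 1) : ℝ))
    (hD : 5 * (((17 - 3 : ℕ) : ℝ)) * ∑ i ∈ range (17 / 2 + 1), γ i * (cfn 17 i (17 - 3) : ℝ) ≤
      (((17 - 2).choose 2 : ℕ) : ℝ) * ∑ i ∈ range (17 / 2 + 1), γ i * (cfn 17 i (17 - 2) : ℝ) +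
      16 * ∑ i ∈ range (17 / 2 + 1), γ i * (cfn 17 i (17 - 4) : ℝ)) :
    ∀ j ≤ 17 / 2, 0 < Mat 17 (Mat 17 γ) j := by
  have k0 := q17_0 γ h0 h
  have k1 := q17_1 γ h0 h
  have k2 := q17_2 γ h0 h
  have k3 := q17_3 γ h0 h
  have k4 := q17_4 γ h0 h
  have k5 := q17_5 γ h0 h
  have k6 := q17_6 γ h0 h
  have k7 := q17_7 γ h0 h
  have k8 := q17_8 γ h0 h
  have k9 := q17_9 γ h0 h
  have k10 := q17_10 γ h0 h
  have k11 := q17_11 γ h0 h
  have k12 := q17_12 γ h0 h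
  have k13 := q17_13 γ h0 h
  have k14 := q17_14 γ h0 h
  have kD := D17 γ h0 hD
  intro j hj
  have hj' : j ≤ 8 := hj
  clear hj h hD
  interval_cases j
  · clear hj'
    rw [m17_0]
    simp only [m17_0, m17_1, m17_2, m17_3, m17_4, m17_5, m17_6, m17_7, m17_8, h0]
    linarith only []
  · clear hj'
    rw [m17_1]
    simp only [m17_0, m17_1, m17_2, m17_3, m17_4, m17_5, m17_6, m17_7, m17_8, h0]
    linarith only [k0, k2, k3, k1]
  · clear hj'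
    rw [m17_2]
    simp only [m17_0, m17_1, m17_2, m17_3, m17_4, m17_5, m17_6, m17_7, m17_8, h0]
    linarith only [k0, k1, k2, k4, k6, k3, k7, k5]
  · clear hj'
    rw [m17_3]
    simp only [m17_0, m17_1, m17_2, m17_3, m17_4, m17_5, m17_6, m17_7, m17_8, h0]
    linarith only [k0, k7, k1, k3, k2, k8, k5, k6]
  · clear hj'
    rw [m17_4]
    simp only [m17_0, m17_1, m17_2, m17_3, m17_4, m17_5, m17_6, m17_7, m17_8, h0]
    linarith only [k3, k6, k0, k1, k2, k9, k5, k10]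
  · clear hj'
    rw [m17_5]
    simp only [m17_0, m17_1, m17_2, m17_3, m17_4, m17_5, m17_6, m17_7, m17_8, h0]
    linarith only [k3, k9, k0, k1, k2, k10, k5, k6]
  · clear hj'
    rw [m17_6]
    simp only [m17_0, m17_1, m17_2, m17_3, m17_4, m17_5, m17_6, m17_7, m17_8, h0]
    linarith only [k11, k0, k1, k3, k10, k5, k2, k6]
  · clear hj'
    rw [m17_7]
    simp only [m17_0, m17_1, m17_2, m17_3, m17_4, m17_5, m17_6, m17_7, m17_8, h0]
    linarith only [k2, k0, k1, k5, k3, k12, k6, k13]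
  · clear hj'
    rw [m17_8]
    simp only [m17_0, m17_1, m17_2, m17_3, m17_4, m17_5, m17_6, m17_7, m17_8, h0]
    linarith only [k0, k3, k2, k1, k14, k6, kD, k7]

end PkgNUMB

end Pool.Agent.T2H83.GR
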