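import Pool.Agent.T2H83.GR.Stm

set_option autoImplicit false
set_option linter.unusedSimpArgs false
set_option linter.unusedVariables false

/-!
# Numerical inequalities with the inequality of Davis and Okun (generated by a computer program)
-/

namespace Pool.Agent.T2H83.GR

open Finset

namespace PkgNUMC

theorem c18_0 (γ : ℕ → ℝ) : ∑ i ∈ range (18 / 2 + 1), γ i * (cfn 18 i 0 : ℝ) =
    (1) * γ 0 + (0) * γ 1 + (0) * γ 2 + (0) * γ 3 + (0) * γ 4 + (0) * γ 5 + (0) * γ 6 + (0) * γ 7 + (0) * γ 8 + (0) * γ 9 := by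
  have h : ((18 / 2 + 1 : ℕ)) = 10 := rfl
  rw [h]
  simp only [sum_range_succ, sum_range_zero, show cfn 18 0 0 = 1 from by decide +kernel, show cfn 18 1 0 = 0 from by decide +kernel, show cfn 18 2 0 = 0 from by decide +kernel, show cfn 18 3 0 = 0 from by decide +kernel, show cfn 18 4 0 = 0 from by decide +kernel, show cfn 18 5 0 = 0 from by decide +kernel, show cfn 18 6 0 = 0 from by decide +kernel, show cfn 18 7 0 = 0 from by decide +kernel, show cfn 18 8 0 = 0 from by decide +kernel, show cfn 18 9 0 = 0 from by decide +kernel, Nat.cast_ofNat, Nat.cast_one, Nat.cast_zero]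
  ring

theorem c18_1 (γ : ℕ → ℝ) : ∑ i ∈ range (18 / 2 + 1), γ i * (cfn 18 i 1 : ℝ) =
    (36) * γ 0 + (1) * γ 1 + (0) * γ 2 + (0) * γ 3 + (0) * γ 4 + (0) * γ 5 + (0) * γ 6 + (0) * γ 7 + (0) * γ 8 + (0) * γ 9 := by
  have h : ((18 / 2 + 1 : ℕ)) = 10 := rfl
  rw [h]
  simp only [sum_range_succ, sum_range_zero, show cfn 18 0 1 = 36 from by decide +kernel, show cfn 18 1 1 = 1 from by decide +kernel, show cfn 18 2 1 = 0 from by decide +kernel, show cfn 18 3 1 = 0 from by decide +kernel, show cfn 18 4 1 = 0 from by decide +kernel, show cfn 18 5 1 = 0 from by decide +kernel, show cfn 18 6 1 = 0 from by decide +kernel, show cfn 18 7 1 = 0 from by decide +kernel, show cfn 18 8 1 = 0 from by decide +kernel, show cfn 18 9 1 = 0 from by decide +kernel, Nat.cast_ofNat, Nat.cast_one, Nat.cast_zero]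
  ring

theorem c18_2 (γ : ℕ → ℝ) : ∑ i ∈ range (18 / 2 + 1), γ i * (cfn 18 i 2 : ℝ) =
    (612) * γ 0 + (33) * γ 1 + (1) * γ 2 + (0) * γ 3 + (0) * γ 4 + (0) * γ 5 + (0) * γ 6 + (0) * γ 7 + (0) * γ 8 + (0) * γ 9 := by
  have h : ((18 / 2 + 1 : ℕ)) = 10 := rfl
  rw [h]
  simp only [sum_range_succ, sum_range_zero, show cfn 18 0 2 = 612 from by decide +kernel, show cfn 18 1 2 = 33 from by decide +kernel, show cfn 18 2 2 = 1 from by decide +kernel, show cfn 18 3 2 = 0 from by decide +kernel, show cfn 18 4 2 = 0 from by decide +kernel, show cfn 18 5 2 = 0 from by decide +kernel, show cfn 18 6 2 = 0 from by decide +kernel, show cfn 18 7 2 = 0 from by decide +kernel, show cfn 18 8 2 = 0 from by decide +kernel, show cfn 18 9 2 = 0 from by decide +kernel, Nat.cast_ofNat, Nat.cast_one, Nat.cast_zero]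
  ring

theorem c18_3 (γ : ℕ → ℝ) : ∑ i ∈ range (18 / 2 + 1), γ i * (cfn 18 i 3 : ℝ) =
    (6528) * γ 0 + (512) * γ 1 + (30) * γ 2 + (1) * γ 3 + (0) * γ 4 + (0) * γ 5 + (0) * γ 6 + (0) * γ 7 + (0) * γ 8 + (0) * γ 9 := by
  have h : ((18 / 2 + 1 : ℕ)) = 10 := rfl
  rw [h]
  simp only [sum_range_succ, sum_range_zero, show cfn 18 0 3 = 6528 from by decide +kernel, show cfn 18 1 3 = 512 from by decide +kernel, show cfn 18 2 3 = 30 from by decide +kernel, show cfn 18 3 3 = 1 from by decide +kernel, show cfn 18 4 3 = 0 from by decide +kernel, show cfn 18 5 3 = 0 from by decide +kernel, show cfn 18 6 3 = 0 from by decide +kernel, show cfn 18 7 3 = 0 from by decide +kernel, show cfn 18 8 3 = 0 from by decide +kernel, show cfn 18 9 3 = 0 from by decide +kernel, Nat.cast_ofNat, Nat.cast_one, Nat.cast_zero]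
  ring

theorem c18_4 (γ : ℕ → ℝ) : ∑ i ∈ range (18 / 2 + 1), γ i * (cfn 18 i 4 : ℝ) =
    (48960) * γ 0 + (4960) * γ 1 + (421) * γ 2 + (27) * γ 3 + (1) * γ 4 + (0) * γ 5 + (0) * γ 6 + (0) * γ 7 + (0) * γ 8 + (0) * γ 9 := by
  have h : ((18 / 2 + 1 : ℕ)) = 10 := rfl
  rw [h]
  simp only [sum_range_succ, sum_range_zero, show cfn 18 0 4 = 48960 from by decide +kernel, show cfn 18 1 4 = 4960 from by decide +kernel, show cfn 18 2 4 = 421 from by decide +kernel, show cfn 18 3 4 = 27 from by decide +kernel, show cfn 18 4 4 = 1 from by decide +kernel, show cfn 18 5 4 = 0 from by decide +kernel, show cfn 18 6 4 = 0 from by decide +kernel, show cfn 18 7 4 = 0 from by decide +kernel, show cfn 18 8 4 = 0 from by decide +kernel, show cfn 18 9 4 = 0 from by decide +kernel, Nat.cast_ofNat, Nat.cast_one, Nat.cast_zero]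
  ring

theorem c18_5 (γ : ℕ → ℝ) : ∑ i ∈ range (18 / 2 + 1), γ i * (cfn 18 i 5 : ℝ) =
    (274176) * γ 0 + (33600) * γ 1 + (3668) * γ 2 + (339) * γ 3 + (24) * γ 4 + (1) * γ 5 + (0) * γ 6 + (0) * γ 7 + (0) * γ 8 + (0) * γ 9 := by
  have h : ((18 / 2 + 1 : ℕ)) = 10 := rfl
  rw [h]
  simp only [sum_range_succ, sum_range_zero, show cfn 18 0 5 = 274176 from by decide +kernel, show cfn 18 1 5 = 33600 from by decide +kernel, show cfn 18 2 5 = 3668 from by decide +kernel, show cfn 18 3 5 = 339 from by decide +kernel, show cfn 18 4 5 = 24 from by decide +kernel, show cfn 18 5 5 = 1 from by decide +kernel, show cfn 18 6 5 = 0 from by decide +kernel, show cfn 18 7 5 = 0 from by decide +kernel, show cfn 18 8 5 = 0 from by decide +kernel, show cfn 18 9 5 = 0 from by decide +kernel, Nat.cast_ofNat, Nat.cast_one, Nat.cast_zero]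
  ring

theorem c18_6 (γ : ℕ → ℝ) : ∑ i ∈ range (18 / 2 + 1), γ i * (cfn 18 i 6 : ℝ) =
    (1188096) * γ 0 + (168896) * γ 1 + (22204) * γ 2 + (2625) * γ 3 + (266) * γ 4 + (21) * γ 5 + (1) * γ 6 + (0) * γ 7 + (0) * γ 8 + (0) * γ 9 := by
  have h : ((18 / 2 + 1 : ℕ)) = 10 := rfl
  rw [h]
  simp only [sum_range_succ, sum_range_zero, show cfn 18 0 6 = 1188096 from by decide +kernel, show cfn 18 1 6 = 168896 from by decide +kernel, show cfn 18 2 6 = 22204 from by decide +kernel, show cfn 18 3 6 = 2625 from by decide +kernel, show cfn 18 4 6 = 266 from by decide +kernel, show cfn 18 5 6 = 21 from by decide +kernel, show cfn 18 6 6 = 1 from by decide +kernel, show cfn 18 7 6 = 0 from by decide +kernel, show cfn 18 8 6 = 0 from by decide +kernel, show cfn 18 9 6 = 0 from by decide +kernel, Nat.cast_ofNat, Nat.cast_one, Nat.cast_zero]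
  ring

theorem c18_7 (γ : ℕ → ℝ) : ∑ i ∈ range (18 / 2 + 1), γ i * (cfn 18 i 7 : ℝ) =
    (4073472) * γ 0 + (652288) * γ 1 + (99008) * γ 2 + (14016) * γ 3 + (1804) * γ 4 + (202) * γ 5 + (18) * γ 6 + (1) * γ 7 + (0) * γ 8 + (0) * γ 9 := by
  have h : ((18 / 2 + 1 : ℕ)) = 10 := rfl
  rw [h]
  simp only [sum_range_succ, sum_range_zero, show cfn 18 0 7 = 4073472 from by decide +kernel, show cfn 18 1 7 = 652288 from by decide +kernel, show cfn 18 2 7 = 99008 from by decide +kernel, show cfn 18 3 7 = 14016 from by decide +kernel, show cfn 18 4 7 = 1804 from by decide +kernel, show cfn 18 5 7 = 202 from by decide +kernel, show cfn 18 6 7 = 18 from by decide +kernel, show cfn 18 7 7 = 1 from by decide +kernel, show cfn 18 8 7 = 0 from by decide +kernel, show cfn 18 9 7 = 0 from by decide +kernel, Nat.cast_ofNat, Nat.cast_one, Nat.cast_zero]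
  ring

theorem c18_8 (γ : ℕ → ℝ) : ∑ i ∈ range (18 / 2 + 1), γ i * (cfn 18 i 8 : ℝ) =
    (11202048) * γ 0 + (1976832) * γ 1 + (336336) * γ 2 + (54648) * γ 3 + (8361) * γ 4 + (1178) * γ 5 + (147) * γ 6 + (15) * γ 7 + (1) * γ 8 + (0) * γ 9 := by
  have h : ((18 / 2 + 1 : ℕ)) = 10 := rfl
  rw [h]
  simp only [sum_range_succ, sum_range_zero, show cfn 18 0 8 = 11202048 from by decide +kernel, show cfn 18 1 8 = 1976832 from by decide +kernel, show cfn 18 2 8 = 336336 from by decide +kernel, show cfn 18 3 8 = 54648 from by decide +kernel, show cfn 18 4 8 = 8361 from by decide +kernel, show cfn 18 5 8 = 1178 from by decide +kernel, show cfn 18 6 8 = 147 from by decide +kernel, show cfn 18 7 8 = 15 from by decide +kernel, show cfn 18 8 8 = 1 from by decide +kernel, show cfn 18 9 8 = 0 from by decide +kernel, Nat.cast_ofNat, Nat.cast_one, Nat.cast_zero]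
  ring

theorem c18_9 (γ : ℕ → ℝ) : ∑ i ∈ range (18 / 2 + 1), γ i * (cfn 18 i 9 : ℝ) =
    (24893440) * γ 0 + (4759040) * γ 1 + (887744) * γ 2 + (160688) * γ 3 + (28004) * γ 4 + (4645) * γ 5 + (720) * γ 6 + (101) * γ 7 + (12) * γ 8 + (1) * γ 9 := by
  have h : ((18 / 2 + 1 : ℕ)) = 10 := rfl
  rw [h]
  simp only [sum_range_succ, sum_range_zero, show cfn 18 0 9 = 24893440 from by decide +kernel, show cfn 18 1 9 = 4759040 from by decide +kernel, show cfn 18 2 9 = 887744 from by decide +kernel, show cfn 18 3 9 = 160688 from by decide +kernel, show cfn 18 4 9 = 28004 from by decide +kernel, show cfn 18 5 9 = 4645 from by decide +kernel, show cfn 18 6 9 = 720 from by decide +kernel, show cfn 18 7 9 = 101 from by decide +kernel, show cfn 18 8 9 = 12 from by decide +kernel, show cfn 18 9 9 = 1 from by decide +kernel, Nat.cast_ofNat, Nat.cast_one, Nat.cast_zero]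
  ring

theorem c18_10 (γ : ℕ → ℝ) : ∑ i ∈ range (18 / 2 + 1), γ i * (cfn 18 i 10 : ℝ) =
    (44808192) * γ 0 + (9152000) * γ 1 + (1839552) * γ 2 + (362736) * γ 3 + (69876) * γ 4 + (13073) * γ 5 + (2355) * γ 6 + (403) * γ 7 + (64) * γ 8 + (9) * γ 9 := by
  have h : ((18 / 2 + 1 : ℕ)) = 10 := rfl
  rw [h]
  simp only [sum_range_succ, sum_range_zero, show cfn 18 0 10 = 44808192 from by decide +kernel, show cfn 18 1 10 = 9152000 from by decide +kernel, show cfn 18 2 10 = 1839552 from by decide +kernel, show cfn 18 3 10 = 362736 from by decide +kernel, show cfn 18 4 10 = 69876 from by decide +kernel, show cfn 18 5 10 = 13073 from by decide +kernel, show cfn 18 6 10 = 2355 from by decide +kernel, show cfn 18 7 10 = 403 from by decide +kernel, show cfn 18 8 10 = 64 from by decide +kernel, show cfn 18 9 10 = 9 from by decide +kernel, Nat.cast_ofNat, Nat.cast_one, Nat.cast_zero]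
  ring

theorem c18_11 (γ : ℕ → ℝ) : ∑ i ∈ range (18 / 2 + 1), γ i * (cfn 18 i 11 : ℝ) =
    (65175552) * γ 0 + (14057472) * γ 1 + (3001856) * γ 2 + (633600) * γ 3 + (131904) * γ 4 + (27008) * γ 5 + (5418) * γ 6 + (1059) * γ 7 + (200) * γ 8 + (36) * γ 9 := by
  have h : ((18 / 2 + 1 : ℕ)) = 10 := rfl
  rw [h]
  simp only [sum_range_succ, sum_range_zero, show cfn 18 0 11 = 65175552 from by decide +kernel, show cfn 18 1 11 = 14057472 from by decide +kernel, show cfn 18 2 11 = 3001856 from by decide +kernel, show cfn 18 3 11 = 633600 from by decide +kernel, show cfn 18 4 11 = 131904 from by decide +kernel, show cfn 18 5 11 = 27008 from by decide +kernel, show cfn 18 6 11 = 5418 from by decide +kernel, show cfn 18 7 11 = 1059 from by decide +kernel, show cfn 18 8 11 = 200 from by decide +kernel, show cfn 18 9 11 = 36 from by decide +kernel, Nat.cast_ofNat, Nat.cast_one, Nat.cast_zero]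
  ring

theorem c18_12 (γ : ℕ → ℝ) : ∑ i ∈ range (18 / 2 + 1), γ i * (cfn 18 i 12 : ℝ) =
    (76038144) * γ 0 + (17145856) * γ 1 + (3843840) * γ 2 + (856064) * γ 3 + (189216) * γ 4 + (41456) * γ 5 + (8989) * γ 6 + (1925) * γ 7 + (406) * γ 8 + (84) * γ 9 := by
  have h : ((18 / 2 + 1 : ℕ)) = 10 := rfl
  rw [h]
  simp only [sum_range_succ, sum_range_zero, show cfn 18 0 12 = 76038144 from by decide +kernel, show cfn 18 1 12 = 17145856 from by decide +kernel, show cfn 18 2 12 = 3843840 from by decide +kernel, show cfn 18 3 12 = 856064 from by decide +kernel, show cfn 18 4 12 = 189216 from by decide +kernel, show cfn 18 5 12 = 41456 from by decide +kernel, show cfn 18 6 12 = 8989 from by decide +kernel, show cfn 18 7 12 = 1925 from by decide +kernel, show cfn 18 8 12 = 406 from by decide +kernel, show cfn 18 9 12 = 84 from by decide +kernel, Nat.cast_ofNat, Nat.cast_one, Nat.cast_zero]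
  ring

theorem c18_13 (γ : ℕ → ℝ) : ∑ i ∈ range (18 / 2 + 1), γ i * (cfn 18 i 13 : ℝ) =
    (70189056) * γ 0 + (16400384) * γ 1 + (3820544) * γ 2 + (887040) * γ 3 + (205184) * γ 4 + (47264) * γ 5 + (10836) * γ 6 + (2471) * γ 7 + (560) * γ 8 + (126) * γ 9 := by
  have h : ((18 / 2 + 1 : ℕ)) = 10 := rfl
  rw [h]
  simp only [sum_range_succ, sum_range_zero, show cfn 18 0 13 = 70189056 from by decide +kernel, show cfn 18 1 13 = 16400384 from by decide +kernel, show cfn 18 2 13 = 3820544 from by decide +kernel, show cfn 18 3 13 = 887040 from by decide +kernel, show cfn 18 4 13 = 205184 from by decide +kernel, show cfn 18 5 13 = 47264 from by decide +kernel, show cfn 18 6 13 = 10836 from by decide +kernel, show cfn 18 7 13 = 2471 from by decide +kernel, show cfn 18 8 13 = 560 from by decide +kernel, show cfn 18 9 13 = 126 from by decide +kernel, Nat.cast_ofNat, Nat.cast_one, Nat.cast_zero]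
  ring

theorem c18_14 (γ : ℕ → ℝ) : ∑ i ∈ range (18 / 2 + 1), γ i * (cfn 18 i 14 : ℝ) =
    (50135040) * γ 0 + (12042240) * γ 1 + (2888704) * γ 2 + (691968) * γ 3 + (165504) * γ 4 + (39520) * γ 5 + (9420) * γ 6 + (2241) * γ 7 + (532) * γ 8 + (126) * γ 9 := by
  have h : ((18 / 2 + 1 : ℕ)) = 10 := rfl
  rw [h]
  simp only [sum_range_succ, sum_range_zero, show cfn 18 0 14 = 50135040 from by decide +kernel, show cfn 18 1 14 = 12042240 from by decide +kernel, show cfn 18 2 14 = 2888704 from by decide +kernel, show cfn 18 3 14 = 691968 from by decide +kernel, show cfn 18 4 14 = 165504 from by decide +kernel, show cfn 18 5 14 = 39520 from by decide +kernel, show cfn 18 6 14 = 9420 from by decide +kernel, show cfn 18 7 14 = 2241 from by decide +kernel, show cfn 18 8 14 = 532 from by decide +kernel, show cfn 18 9 14 = 126 from by decide +kernel, Nat.cast_ofNat, Nat.cast_one, Nat.cast_zero]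
  ring

theorem c18_15 (γ : ℕ → ℝ) : ∑ i ∈ range (18 / 2 + 1), γ i * (cfn 18 i 15 : ℝ) =
    (26738688) * γ 0 + (6553600) * γ 1 + (1605632) * γ 2 + (393216) * γ 3 + (96256) * γ 4 + (23552) * γ 5 + (5760) * γ 6 + (1408) * γ 7 + (344) * γ 8 + (84) * γ 9 := by
  have h : ((18 / 2 + 1 : ℕ)) = 10 := rfl
  rw [h]
  simp only [sum_range_succ, sum_range_zero, show cfn 18 0 15 = 26738688 from by decide +kernel, show cfn 18 1 15 = 6553600 from by decide +kernel, show cfn 18 2 15 = 1605632 from by decide +kernel, show cfn 18 3 15 = 393216 from by decide +kernel, show cfn 18 4 15 = 96256 from by decide +kernel, show cfn 18 5 15 = 23552 from by decide +kernel, show cfn 18 6 15 = 5760 from by decide +kernel, show cfn 18 7 15 = 1408 from by decide +kernel, show cfn 18 8 15 = 344 from by decide +kernel, show cfn 18 9 15 = 84 from by decide +kernel, Nat.cast_ofNat, Nat.cast_one, Nat.cast_zero]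
  ring

theorem c18_16 (γ : ℕ → ℝ) : ∑ i ∈ range (18 / 2 + 1), γ i * (cfn 18 i 16 : ℝ) =
    (10027008) * γ 0 + (2490368) * γ 1 + (618496) * γ 2 + (153600) * γ 3 + (38144) * γ 4 + (9472) * γ 5 + (2352) * γ 6 + (584) * γ 7 + (145) * γ 8 + (36) * γ 9 := by
  have h : ((18 / 2 + 1 : ℕ)) = 10 := rfl
  rw [h]
  simp only [sum_range_succ, sum_range_zero, show cfn 18 0 16 = 10027008 from by decide +kernel, show cfn 18 1 16 = 2490368 from by decide +kernel, show cfn 18 2 16 = 618496 from by decide +kernel, show cfn 18 3 16 = 153600 from by decide +kernel, show cfn 18 4 16 = 38144 from by decide +kernel, show cfn 18 5 16 = 9472 from by decide +kernel, show cfn 18 6 16 = 2352 from by decide +kernel, show cfn 18 7 16 = 584 from by decide +kernel, show cfn 18 8 16 = 145 from by decide +kernel, show cfn 18 9 16 = 36 from by decide +kernel, Nat.cast_ofNat, Nat.cast_one, Nat.cast_zero]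
  ring

theorem q18_0 (γ : ℕ → ℝ) (h0 : γ 0 = 1)
    (h : ∀ n < 18, 2 * (((18 : ℕ) : ℝ) - ((n : ℕ) : ℝ)) * ∑ i ∈ range (18 / 2 + 1), γ i * (cfn 18 i n : ℝ) ≤
      ((n : ℝ) + 1) * ∑ i ∈ range (18 / 2 + 1), γ i * (cfn 18 i (n + 1) : ℝ)) :
    0 ≤ (0) * γ 0 + (1) * γ 1 + (0) * γ 2 + (0) * γ 3 + (0) * γ 4 + (0) * γ 5 + (0) * γ 6 + (0) * γ 7 + (0) * γ 8 + (0) * γ 9 := by
  have h1 := h 0 (by norm_num)
  rw [show 0 + 1 = 1 from rfl, c18_0, c18_1] at h1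
  norm_num [h0] at h1 ⊢
  linarith

theorem q18_1 (γ : ℕ → ℝ) (h0 : γ 0 = 1)
    (h : ∀ n < 18, 2 * (((18 : ℕ) : ℝ) - ((n : ℕ) : ℝ)) * ∑ i ∈ range (18 / 2 + 1), γ i * (cfn 18 i n : ℝ) ≤
      ((n : ℝ) + 1) * ∑ i ∈ range (18 / 2 + 1), γ i * (cfn 18 i (n + 1) : ℝ)) :
    0 ≤ (0) * γ 0 + (32) * γ 1 + (2) * γ 2 + (0) * γ 3 + (0) * γ 4 + (0) * γ 5 + (0) * γ 6 + (0) * γ 7 + (0) * γ 8 + (0) * γ 9 := by
  have h1 := h 1 (by norm_num)
  rw [show 1 + 1 = 2 from rfl, c18_1, c18_2] at h1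
  norm_num [h0] at h1 ⊢
  linarith

theorem q18_2 (γ : ℕ → ℝ) (h0 : γ 0 = 1)
    (h : ∀ n < 18, 2 * (((18 : ℕ) : ℝ) - ((n : ℕ) : ℝ)) * ∑ i ∈ range (18 / 2 + 1), γ i * (cfn 18 i n : ℝ) ≤
      ((n : ℝ) + 1) * ∑ i ∈ range (18 / 2 + 1), γ i * (cfn 18 i (n + 1) : ℝ)) :
    0 ≤ (0) * γ 0 + (480) * γ 1 + (58) * γ 2 + (3) * γ 3 + (0) * γ 4 + (0) * γ 5 + (0) * γ 6 + (0) * γ 7 + (0) * γ 8 + (0) * γ 9 := by
  have h1 := h 2 (by norm_num)
  rw [show 2 + 1 = 3 from rfl, c18_2, c18_3] at h1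
  norm_num [h0] at h1 ⊢
  linarith

theorem q18_3 (γ : ℕ → ℝ) (h0 : γ 0 = 1)
    (h : ∀ n < 18, 2 * (((18 : ℕ) : ℝ) - ((n : ℕ) : ℝ)) * ∑ i ∈ range (18 / 2 + 1), γ i * (cfn 18 i n : ℝ) ≤
      ((n : ℝ) + 1) * ∑ i ∈ range (18 / 2 + 1), γ i * (cfn 18 i (n + 1) : ℝ)) :
    0 ≤ (0) * γ 0 + (4480) * γ 1 + (784) * γ 2 + (78) * γ 3 + (4) * γ 4 + (0) * γ 5 + (0) * γ 6 + (0) * γ 7 + (0) * γ 8 + (0) * γ 9 := by
  have h1 := h 3 (by norm_num)
  rw [show 3 + 1 = 4 from rfl, c18_3, c18_4] at h1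
  norm_num [h0] at h1 ⊢
  linarith

theorem q18_4 (γ : ℕ → ℝ) (h0 : γ 0 = 1)
    (h : ∀ n < 18, 2 * (((18 : ℕ) : ℝ) - ((n : ℕ) : ℝ)) * ∑ i ∈ range (18 / 2 + 1), γ i * (cfn 18 i n : ℝ) ≤
      ((n : ℝ) + 1) * ∑ i ∈ range (18 / 2 + 1), γ i * (cfn 18 i (n + 1) : ℝ)) :
    0 ≤ (0) * γ 0 + (29120) * γ 1 + (6552) * γ 2 + (939) * γ 3 + (92) * γ 4 + (5) * γ 5 + (0) * γ 6 + (0) * γ 7 + (0) * γ 8 + (0) * γ 9 := by
  have h1 := h 4 (by norm_num)
  rw [show 4 + 1 = 5 from rfl, c18_4, c18_5] at h1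
  norm_num [h0] at h1 ⊢
  linarith

theorem q18_5 (γ : ℕ → ℝ) (h0 : γ 0 = 1)
    (h : ∀ n < 18, 2 * (((18 : ℕ) : ℝ) - ((n : ℕ) : ℝ)) * ∑ i ∈ range (18 / 2 + 1), γ i * (cfn 18 i n : ℝ) ≤
      ((n : ℝ) + 1) * ∑ i ∈ range (18 / 2 + 1), γ i * (cfn 18 i (n + 1) : ℝ)) :
    0 ≤ (0) * γ 0 + (139776) * γ 1 + (37856) * γ 2 + (6936) * γ 3 + (972) * γ 4 + (100) * γ 5 + (6) * γ 6 + (0) * γ 7 + (0) * γ 8 + (0) * γ 9 := by
  have h1 := h 5 (by norm_num)
  rw [show 5 + 1 = 6 from rfl, c18_5, c18_6] at h1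
  norm_num [h0] at h1 ⊢
  linarith

theorem q18_6 (γ : ℕ → ℝ) (h0 : γ 0 = 1)
    (h : ∀ n < 18, 2 * (((18 : ℕ) : ℝ) - ((n : ℕ) : ℝ)) * ∑ i ∈ range (18 / 2 + 1), γ i * (cfn 18 i n : ℝ) ≤
      ((n : ℝ) + 1) * ∑ i ∈ range (18 / 2 + 1), γ i * (cfn 18 i (n + 1) : ℝ)) :
    0 ≤ (0) * γ 0 + (512512) * γ 1 + (160160) * γ 2 + (35112) * γ 3 + (6244) * γ 4 + (910) * γ 5 + (102) * γ 6 + (7) * γ 7 + (0) * γ 8 + (0) * γ 9 := by
  have h1 := h 6 (by norm_num)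
  rw [show 6 + 1 = 7 from rfl, c18_6, c18_7] at h1
  norm_num [h0] at h1 ⊢
  linarith

theorem q18_7 (γ : ℕ → ℝ) (h0 : γ 0 = 1)
    (h : ∀ n < 18, 2 * (((18 : ℕ) : ℝ) - ((n : ℕ) : ℝ)) * ∑ i ∈ range (18 / 2 + 1), γ i * (cfn 18 i n : ℝ) ≤
      ((n : ℝ) + 1) * ∑ i ∈ range (18 / 2 + 1), γ i * (cfn 18 i (n + 1) : ℝ)) :
    0 ≤ (0) * γ 0 + (1464320) * γ 1 + (512512) * γ 2 + (128832) * γ 3 + (27200) * γ 4 + (4980) * γ 5 + (780) * γ 6 + (98) * γ 7 + (8) * γ 8 + (0) * γ 9 := by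
  have h1 := h 7 (by norm_num)
  rw [show 7 + 1 = 8 from rfl, c18_7, c18_8] at h1
  norm_num [h0] at h1 ⊢
  linarith

theorem q18_8 (γ : ℕ → ℝ) (h0 : γ 0 = 1)
    (h : ∀ n < 18, 2 * (((18 : ℕ) : ℝ) - ((n : ℕ) : ℝ)) * ∑ i ∈ range (18 / 2 + 1), γ i * (cfn 18 i n : ℝ) ≤
      ((n : ℝ) + 1) * ∑ i ∈ range (18 / 2 + 1), γ i * (cfn 18 i (n + 1) : ℝ)) :
    0 ≤ (0) * γ 0 + (3294720) * γ 1 + (1262976) * γ 2 + (353232) * γ 3 + (84816) * γ 4 + (18245) * γ 5 + (3540) * γ 6 + (609) * γ 7 + (88) * γ 8 + (9) * γ 9 := by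
  have h1 := h 8 (by norm_num)
  rw [show 8 + 1 = 9 from rfl, c18_8, c18_9] at h1
  norm_num [h0] at h1 ⊢
  linarith

theorem q18_9 (γ : ℕ → ℝ) (h0 : γ 0 = 1)
    (h : ∀ n < 18, 2 * (((18 : ℕ) : ℝ) - ((n : ℕ) : ℝ)) * ∑ i ∈ range (18 / 2 + 1), γ i * (cfn 18 i n : ℝ) ≤
      ((n : ℝ) + 1) * ∑ i ∈ range (18 / 2 + 1), γ i * (cfn 18 i (n + 1) : ℝ)) :
    0 ≤ (0) * γ 0 + (5857280) * γ 1 + (2416128) * γ 2 + (734976) * γ 3 + (194688) * γ 4 + (47120) * γ 5 + (10590) * γ 6 + (2212) * γ 7 + (424) * γ 8 + (72) * γ 9 := by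
  have h1 := h 9 (by norm_num)
  rw [show 9 + 1 = 10 from rfl, c18_9, c18_10] at h1
  norm_num [h0] at h1 ⊢
  linarith

theorem q18_10 (γ : ℕ → ℝ) (h0 : γ 0 = 1)
    (h : ∀ n < 18, 2 * (((18 : ℕ) : ℝ) - ((n : ℕ) : ℝ)) * ∑ i ∈ range (18 / 2 + 1), γ i * (cfn 18 i n : ℝ) ≤
      ((n : ℝ) + 1) * ∑ i ∈ range (18 / 2 + 1), γ i * (cfn 18 i (n + 1) : ℝ)) :
    0 ≤ (0) * γ 0 + (8200192) * γ 1 + (3587584) * γ 2 + (1165824) * γ 3 + (332928) * γ 4 + (87920) * γ 5 + (21918) * γ 6 + (5201) * γ 7 + (1176) * γ 8 + (252) * γ 9 := by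
  have h1 := h 10 (by norm_num)
  rw [show 10 + 1 = 11 from rfl, c18_10, c18_11] at h1
  norm_num [h0] at h1 ⊢
  linarith

theorem q18_11 (γ : ℕ → ℝ) (h0 : γ 0 = 1)
    (h : ∀ n < 18, 2 * (((18 : ℕ) : ℝ) - ((n : ℕ) : ℝ)) * ∑ i ∈ range (18 / 2 + 1), γ i * (cfn 18 i n : ℝ) ≤
      ((n : ℝ) + 1) * ∑ i ∈ range (18 / 2 + 1), γ i * (cfn 18 i (n + 1) : ℝ)) :
    0 ≤ (0) * γ 0 + (8945664) * γ 1 + (4100096) * γ 2 + (1402368) * γ 3 + (423936) * γ 4 + (119360) * γ 5 + (32016) * γ 6 + (8274) * γ 7 + (2072) * γ 8 + (504) * γ 9 := by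
  have h1 := h 11 (by norm_num)
  rw [show 11 + 1 = 12 from rfl, c18_11, c18_12] at h1
  norm_num [h0] at h1 ⊢
  linarith

theorem q18_12 (γ : ℕ → ℝ) (h0 : γ 0 = 1)
    (h : ∀ n < 18, 2 * (((18 : ℕ) : ℝ) - ((n : ℕ) : ℝ)) * ∑ i ∈ range (18 / 2 + 1), γ i * (cfn 18 i n : ℝ) ≤
      ((n : ℝ) + 1) * ∑ i ∈ range (18 / 2 + 1), γ i * (cfn 18 i (n + 1) : ℝ)) :
    0 ≤ (0) * γ 0 + (7454720) * γ 1 + (3540992) * γ 2 + (1258752) * γ 3 + (396800) * γ 4 + (116960) * γ 5 + (33000) * γ 6 + (9023) * γ 7 + (2408) * γ 8 + (630) * γ 9 := by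
  have h1 := h 12 (by norm_num)
  rw [show 12 + 1 = 13 from rfl, c18_12, c18_13] at h1
  norm_num [h0] at h1 ⊢
  linarith

theorem q18_13 (γ : ℕ → ℝ) (h0 : γ 0 = 1)
    (h : ∀ n < 18, 2 * (((18 : ℕ) : ℝ) - ((n : ℕ) : ℝ)) * ∑ i ∈ range (18 / 2 + 1), γ i * (cfn 18 i n : ℝ) ≤
      ((n : ℝ) + 1) * ∑ i ∈ range (18 / 2 + 1), γ i * (cfn 18 i (n + 1) : ℝ)) :
    0 ≤ (0) * γ 0 + (4587520) * γ 1 + (2236416) * γ 2 + (817152) * γ 3 + (265216) * γ 4 + (80640) * γ 5 + (23520) * γ 6 + (6664) * γ 7 + (1848) * γ 8 + (504) * γ 9 := by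
  have h1 := h 13 (by norm_num)
  rw [show 13 + 1 = 14 from rfl, c18_13, c18_14] at h1
  norm_num [h0] at h1 ⊢
  linarith

theorem q18_15 (γ : ℕ → ℝ) (h0 : γ 0 = 1)
    (h : ∀ n < 18, 2 * (((18 : ℕ) : ℝ) - ((n : ℕ) : ℝ)) * ∑ i ∈ range (18 / 2 + 1), γ i * (cfn 18 i n : ℝ) ≤
      ((n : ℝ) + 1) * ∑ i ∈ range (18 / 2 + 1), γ i * (cfn 18 i (n + 1) : ℝ)) :
    0 ≤ (0) * γ 0 + (524288) * γ 1 + (262144) * γ 2 + (98304) * γ 3 + (32768) * γ 4 + (10240) * γ 5 + (3072) * γ 6 + (896) * γ 7 + (256) * γ 8 + (72) * γ 9 := by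
  have h1 := h 15 (by norm_num)
  rw [show 15 + 1 = 16 from rfl, c18_15, c18_16] at h1
  norm_num [h0] at h1 ⊢
  linarith

theorem D18 (γ : ℕ → ℝ) (h0 : γ 0 = 1)
    (h : 5 * (((18 - 3 : ℕ) : ℝ)) * ∑ i ∈ range (18 / 2 + 1), γ i * (cfn 18 i (18 - 3) : ℝ) ≤
      (((18 - 2).choose 2 : ℕ) : ℝ) * ∑ i ∈ range (18 / 2 + 1), γ i * (cfn 18 i (18 - 2) : ℝ) +
      16 * ∑ i ∈ range (18 / 2 + 1), γ i * (cfn 18 i (18 - 4) : ℝ)) :
    0 ≤ (0) * γ 0 + (0) * γ 1 + (16384) * γ 2 + (12288) * γ 3 + (6144) * γ 4 + (2560) * γ 5 + (960) * γ 6 + (336) * γ 7 + (112) * γ 8 + (36) * γ 9 := by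
  rw [show 18 - 3 = 15 from rfl, show 18 - 2 = 16 from rfl, show 18 - 4 = 14 from rfl,
    c18_15, c18_16, c18_14, show (16 : ℕ).choose 2 = 120 from by decide +kernel] at h
  norm_num [h0] at h ⊢
  linarith

theorem m18_0 (γ : ℕ → ℝ) : Mat 18 γ 0 = (1) * γ 0 + (0) * γ 1 + (0) * γ 2 + (0) * γ 3 + (0) * γ 4 + (0) * γ 5 + (0) * γ 6 + (0) * γ 7 + (0) * γ 8 + (0) * γ 9 := by
  unfold Mat
  rw [show (18 / 2 + 1 : ℕ) = 10 from rfl]
  simp [sum_range_succ, Nat.choose]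
  try ring

theorem m18_1 (γ : ℕ → ℝ) : Mat 18 γ 1 = (612) * γ 0 + (34) * γ 1 + (1) * γ 2 + (0) * γ 3 + (0) * γ 4 + (0) * γ 5 + (0) * γ 6 + (0) * γ 7 + (0) * γ 8 + (0) * γ 9 := by
  unfold Mat
  rw [show (18 / 2 + 1 : ℕ) = 10 from rfl]
  simp [sum_range_succ, Nat.choose]
  try ring

theorem m18_2 (γ : ℕ → ℝ) : Mat 18 γ 2 = (48960) * γ 0 + (5440) * γ 1 + (480) * γ 2 + (30) * γ 3 + (1) * γ 4 + (0) * γ 5 + (0) * γ 6 + (0) * γ 7 + (0) * γ 8 + (0) * γ 9 := by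
  unfold Mat
  rw [show (18 / 2 + 1 : ℕ) = 10 from rfl]
  simp [sum_range_succ, Nat.choose]
  try ring

theorem m18_3 (γ : ℕ → ℝ) : Mat 18 γ 3 = (1188096) * γ 0 + (198016) * γ 1 + (29120) * γ 2 + (3640) * γ 3 + (364) * γ 4 + (26) * γ 5 + (1) * γ 6 + (0) * γ 7 + (0) * γ 8 + (0) * γ 9 := by
  unfold Mat
  rw [show (18 / 2 + 1 : ℕ) = 10 from rfl]
  simp [sum_range_succ, Nat.choose]
  try ring

theorem m18_4 (γ : ℕ → ℝ) : Mat 18 γ 4 = (11202048) * γ 0 + (2489344) * γ 1 + (512512) * γ 2 + (96096) * γ 3 + (16016) * γ 4 + (2288) * γ 5 + (264) * γ 6 + (22) * γ 7 + (1) * γ 8 + (0) * γ 9 := by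
  unfold Mat
  rw [show (18 / 2 + 1 : ℕ) = 10 from rfl]
  simp [sum_range_succ, Nat.choose]
  try ring

theorem m18_5 (γ : ℕ → ℝ) : Mat 18 γ 5 = (44808192) * γ 0 + (12446720) * γ 1 + (3294720) * γ 2 + (823680) * γ 3 + (192192) * γ 4 + (41184) * γ 5 + (7920) * γ 6 + (1320) * γ 7 + (180) * γ 8 + (18) * γ 9 := by
  unfold Mat
  rw [show (18 / 2 + 1 : ℕ) = 10 from rfl]
  simp [sum_range_succ, Nat.choose]
  try ring

theorem m18_6 (γ : ℕ → ℝ) : Mat 18 γ 6 = (76038144) * γ 0 + (25346048) * γ 1 + (8200192) * γ 2 + (2562560) * γ 3 + (768768) * γ 4 + (219648) * γ 5 + (59136) * γ 6 + (14784) * γ 7 + (3360) * γ 8 + (672) * γ 9 := by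
  unfold Mat
  rw [show (18 / 2 + 1 : ℕ) = 10 from rfl]
  simp [sum_range_succ, Nat.choose]
  try ring

theorem m18_7 (γ : ℕ → ℝ) : Mat 18 γ 7 = (50135040) * γ 0 + (19496960) * γ 1 + (7454720) * γ 2 + (2795520) * γ 3 + (1025024) * γ 4 + (366080) * γ 5 + (126720) * γ 6 + (42240) * γ 7 + (13440) * γ 8 + (4032) * γ 9 := by
  unfold Mat
  rw [show (18 / 2 + 1 : ℕ) = 10 from rfl]
  simp [sum_range_succ, Nat.choose]
  try ring

theorem m18_8 (γ : ℕ → ℝ) : Mat 18 γ 8 = (10027008) * γ 0 + (4456448) * γ 1 + (1966080) * γ 2 + (860160) * γ 3 + (372736) * γ 4 + (159744) * γ 5 + (67584) * γ 6 + (28160) * γ 7 + (11520) * γ 8 + (4608) * γ 9 := by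
  unfold Mat
  rw [show (18 / 2 + 1 : ℕ) = 10 from rfl]
  simp [sum_range_succ, Nat.choose]
  try ring

theorem m18_9 (γ : ℕ → ℝ) : Mat 18 γ 9 = (262144) * γ 0 + (131072) * γ 1 + (65536) * γ 2 + (32768) * γ 3 + (16384) * γ 4 + (8192) * γ 5 + (4096) * γ 6 + (2048) * γ 7 + (1024) * γ 8 + (512) * γ 9 := by
  unfold Mat
  rw [show (18 / 2 + 1 : ℕ) = 10 from rfl]
  simp [sum_range_succ, Nat.choose]
  try ring

theorem main18 (γ : ℕ → ℝ) (h0 : γ 0 = 1)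
    (h : ∀ n < 18, 2 * (((18 : ℕ) : ℝ) - ((n : ℕ) : ℝ)) * ∑ i ∈ range (18 / 2 + 1), γ i * (cfn 18 i n : ℝ) ≤
      ((n : ℝ) + 1) * ∑ i ∈ range (18 / 2 + 1), γ i * (cfn 18 i (n + 1) : ℝ))
    (hD : 5 * (((18 - 3 : ℕ) : ℝ)) * ∑ i ∈ range (18 / 2 + 1), γ i * (cfn 18 i (18 - 3) : ℝ) ≤
      (((18 - 2).choose 2 : ℕ) : ℝ) * ∑ i ∈ range (18 / 2 + 1), γ i * (cfn 18 i (18 - 2) : ℝ) +
      16 * ∑ i ∈ range (18 / 2 + 1), γ i * (cfn 18 i (18 - 4) : ℝ)) :
    ∀ j ≤ 18 / 2, 0 < Mat 18 (Mat 18 γ) j := by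
  have k0 := q18_0 γ h0 h
  have k1 := q18_1 γ h0 h
  have k2 := q18_2 γ h0 h
  have k3 := q18_3 γ h0 h
  have k4 := q18_4 γ h0 h
  have k5 := q18_5 γ h0 h
  have k6 := q18_6 γ h0 h
  have k7 := q18_7 γ h0 h
  have k8 := q18_8 γ h0 h
  have k9 := q18_9 γ h0 h
  have k10 := q18_10 γ h0 h
  have k11 := q18_11 γ h0 h
  have k12 := q18_12 γ h0 h
  have k13 := q18_13 γ h0 h
  have k15 := q18_15 γ h0 h
  have kD := D18 γ h0 hD
  intro j hj
  have hj' : j ≤ 9 := hj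
  clear hj h hD
  interval_cases j
  · clear hj'
    rw [m18_0]
    simp only [m18_0, m18_1, m18_2, m18_3, m18_4, m18_5, m18_6, m18_7, m18_8, m18_9, h0]
    linarith only []
  · clear hj'
    rw [m18_1]
    simp only [m18_0, m18_1, m18_2, m18_3, m18_4, m18_5, m18_6, m18_7, m18_8, m18_9, h0]
    linarith only [k0, k2, k3, k1]
  · clear hj'
    rw [m18_2]
    simp only [m18_0, m18_1, m18_2, m18_3, m18_4, m18_5, m18_6, m18_7, m18_8, m18_9, h0]
    linarith only [k0, k6, k2, k4, k3, k1, k7, k5]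
  · clear hj'
    rw [m18_3]
    simp only [m18_0, m18_1, m18_2, m18_3, m18_4, m18_5, m18_6, m18_7, m18_8, m18_9, h0]
    linarith only [k0, k6, k1, k3, k2, k8, k5, k9, k4]
  · clear hj'
    rw [m18_4]
    simp only [m18_0, m18_1, m18_2, m18_3, m18_4, m18_5, m18_6, m18_7, m18_8, m18_9, h0]
    linarith only [k2, k0, k1, k6, k9, k3, k4, k10, k7]
  · clear hj'
    rw [m18_5]
    simp only [m18_0, m18_1, m18_2, m18_3, m18_4, m18_5, m18_6, m18_7, m18_8, m18_9, h0]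
    linarith only [k2, k0, k1, k6, k10, k4, k11, k3, k7]
  · clear hj'
    rw [m18_6]
    simp only [m18_0, m18_1, m18_2, m18_3, m18_4, m18_5, m18_6, m18_7, m18_8, m18_9, h0]
    linarith only [k1, k3, k0, k11, k2, k12, k6, k7, k4]
  · clear hj'
    rw [m18_7]
    simp only [m18_0, m18_1, m18_2, m18_3, m18_4, m18_5, m18_6, m18_7, m18_8, m18_9, h0]
    linarith only [k12, k0, k6, k1, k2, k3, k13, k7, k4]
  · clear hj'
    rw [m18_8]
    simp only [m18_0, m18_1, m18_2, m18_3, m18_4, m18_5, m18_6, m18_7, m18_8, m18_9, h0]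
    linarith only [k7, k0, k4, k1, k2, k3, k15, kD, k8]
  · clear hj'
    rw [m18_9]
    simp only [m18_0, m18_1, m18_2, m18_3, m18_4, m18_5, m18_6, m18_7, m18_8, m18_9, h0]
    linarith only [k15, k0, k1, k2, k3, kD, k4, k7, k8]

theorem c19_0 (γ : ℕ → ℝ) : ∑ i ∈ range (19 / 2 + 1), γ i * (cfn 19 i 0 : ℝ) =
    (1) * γ 0 + (0) * γ 1 + (0) * γ 2 + (0) * γ 3 + (0) * γ 4 + (0) * γ 5 + (0) * γ 6 + (0) * γ 7 + (0) * γ 8 + (0) * γ 9 := by
  have h : ((19 / 2 + 1 : ℕ)) = 10 := rfl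
  rw [h]
  simp only [sum_range_succ, sum_range_zero, show cfn 19 0 0 = 1 from by decide +kernel, show cfn 19 1 0 = 0 from by decide +kernel, show cfn 19 2 0 = 0 from by decide +kernel, show cfn 19 3 0 = 0 from by decide +kernel, show cfn 19 4 0 = 0 from by decide +kernel, show cfn 19 5 0 = 0 from by decide +kernel, show cfn 19 6 0 = 0 from by decide +kernel, show cfn 19 7 0 = 0 from by decide +kernel, show cfn 19 8 0 = 0 from by decide +kernel, show cfn 19 9 0 = 0 from by decide +kernel, Nat.cast_ofNat, Nat.cast_one, Nat.cast_zero]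
  ring

theorem c19_1 (γ : ℕ → ℝ) : ∑ i ∈ range (19 / 2 + 1), γ i * (cfn 19 i 1 : ℝ) =
    (38) * γ 0 + (1) * γ 1 + (0) * γ 2 + (0) * γ 3 + (0) * γ 4 + (0) * γ 5 + (0) * γ 6 + (0) * γ 7 + (0) * γ 8 + (0) * γ 9 := by
  have h : ((19 / 2 + 1 : ℕ)) = 10 := rfl
  rw [h]
  simp only [sum_range_succ, sum_range_zero, show cfn 19 0 1 = 38 from by decide +kernel, show cfn 19 1 1 = 1 from by decide +kernel, show cfn 19 2 1 = 0 from by decide +kernel, show cfn 19 3 1 = 0 from by decide +kernel, show cfn 19 4 1 = 0 from by decide +kernel, show cfn 19 5 1 = 0 from by decide +kernel, show cfn 19 6 1 = 0 from by decide +kernel, show cfn 19 7 1 = 0 from by decide +kernel, show cfn 19 8 1 = 0 from by decide +kernel, show cfn 19 9 1 = 0 from by decide +kernel, Nat.cast_ofNat, Nat.cast_one, Nat.cast_zero]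
  ring

theorem c19_2 (γ : ℕ → ℝ) : ∑ i ∈ range (19 / 2 + 1), γ i * (cfn 19 i 2 : ℝ) =
    (684) * γ 0 + (35) * γ 1 + (1) * γ 2 + (0) * γ 3 + (0) * γ 4 + (0) * γ 5 + (0) * γ 6 + (0) * γ 7 + (0) * γ 8 + (0) * γ 9 := by
  have h : ((19 / 2 + 1 : ℕ)) = 10 := rfl
  rw [h]
  simp only [sum_range_succ, sum_range_zero, show cfn 19 0 2 = 684 from by decide +kernel, show cfn 19 1 2 = 35 from by decide +kernel, show cfn 19 2 2 = 1 from by decide +kernel, show cfn 19 3 2 = 0 from by decide +kernel, show cfn 19 4 2 = 0 from by decide +kernel, show cfn 19 5 2 = 0 from by decide +kernel, show cfn 19 6 2 = 0 from by decide +kernel, show cfn 19 7 2 = 0 from by decide +kernel, show cfn 19 8 2 = 0 from by decide +kernel, show cfn 19 9 2 = 0 from by decide +kernel, Nat.cast_ofNat, Nat.cast_one, Nat.cast_zero]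
  ring

theorem c19_3 (γ : ℕ → ℝ) : ∑ i ∈ range (19 / 2 + 1), γ i * (cfn 19 i 3 : ℝ) =
    (7752) * γ 0 + (578) * γ 1 + (32) * γ 2 + (1) * γ 3 + (0) * γ 4 + (0) * γ 5 + (0) * γ 6 + (0) * γ 7 + (0) * γ 8 + (0) * γ 9 := by
  have h : ((19 / 2 + 1 : ℕ)) = 10 := rfl
  rw [h]
  simp only [sum_range_succ, sum_range_zero, show cfn 19 0 3 = 7752 from by decide +kernel, show cfn 19 1 3 = 578 from by decide +kernel, show cfn 19 2 3 = 32 from by decide +kernel, show cfn 19 3 3 = 1 from by decide +kernel, show cfn 19 4 3 = 0 from by decide +kernel, show cfn 19 5 3 = 0 from by decide +kernel, show cfn 19 6 3 = 0 from by decide +kernel, show cfn 19 7 3 = 0 from by decide +kernel, show cfn 19 8 3 = 0 from by decide +kernel, show cfn 19 9 3 = 0 from by decide +kernel, Nat.cast_ofNat, Nat.cast_one, Nat.cast_zero]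
  ring

theorem c19_4 (γ : ℕ → ℝ) : ∑ i ∈ range (19 / 2 + 1), γ i * (cfn 19 i 4 : ℝ) =
    (62016) * γ 0 + (5984) * γ 1 + (481) * γ 2 + (29) * γ 3 + (1) * γ 4 + (0) * γ 5 + (0) * γ 6 + (0) * γ 7 + (0) * γ 8 + (0) * γ 9 := by
  have h : ((19 / 2 + 1 : ℕ)) = 10 := rfl
  rw [h]
  simp only [sum_range_succ, sum_range_zero, show cfn 19 0 4 = 62016 from by decide +kernel, show cfn 19 1 4 = 5984 from by decide +kernel, show cfn 19 2 4 = 481 from by decide +kernel, show cfn 19 3 4 = 29 from by decide +kernel, show cfn 19 4 4 = 1 from by decide +kernel, show cfn 19 5 4 = 0 from by decide +kernel, show cfn 19 6 4 = 0 from by decide +kernel, show cfn 19 7 4 = 0 from by decide +kernel, show cfn 19 8 4 = 0 from by decide +kernel, show cfn 19 9 4 = 0 from by decide +kernel, Nat.cast_ofNat, Nat.cast_one, Nat.cast_zero]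
  ring

theorem c19_5 (γ : ℕ → ℝ) : ∑ i ∈ range (19 / 2 + 1), γ i * (cfn 19 i 5 : ℝ) =
    (372096) * γ 0 + (43520) * γ 1 + (4510) * γ 2 + (393) * γ 3 + (26) * γ 4 + (1) * γ 5 + (0) * γ 6 + (0) * γ 7 + (0) * γ 8 + (0) * γ 9 := by
  have h : ((19 / 2 + 1 : ℕ)) = 10 := rfl
  rw [h]
  simp only [sum_range_succ, sum_range_zero, show cfn 19 0 5 = 372096 from by decide +kernel, show cfn 19 1 5 = 43520 from by decide +kernel, show cfn 19 2 5 = 4510 from by decide +kernel, show cfn 19 3 5 = 393 from by decide +kernel, show cfn 19 4 5 = 26 from by decide +kernel, show cfn 19 5 5 = 1 from by decide +kernel, show cfn 19 6 5 = 0 from by decide +kernel, show cfn 19 7 5 = 0 from by decide +kernel, show cfn 19 8 5 = 0 from by decide +kernel, show cfn 19 9 5 = 0 from by decide +kernel, Nat.cast_ofNat, Nat.cast_one, Nat.cast_zero]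
  ring

theorem c19_6 (γ : ℕ → ℝ) : ∑ i ∈ range (19 / 2 + 1), γ i * (cfn 19 i 6 : ℝ) =
    (1736448) * γ 0 + (236096) * γ 1 + (29540) * γ 2 + (3303) * γ 3 + (314) * γ 4 + (23) * γ 5 + (1) * γ 6 + (0) * γ 7 + (0) * γ 8 + (0) * γ 9 := by
  have h : ((19 / 2 + 1 : ℕ)) = 10 := rfl
  rw [h]
  simp only [sum_range_succ, sum_range_zero, show cfn 19 0 6 = 1736448 from by decide +kernel, show cfn 19 1 6 = 236096 from by decide +kernel, show cfn 19 2 6 = 29540 from by decide +kernel, show cfn 19 3 6 = 3303 from by decide +kernel, show cfn 19 4 6 = 314 from by decide +kernel, show cfn 19 5 6 = 23 from by decide +kernel, show cfn 19 6 6 = 1 from by decide +kernel, show cfn 19 7 6 = 0 from by decide +kernel, show cfn 19 8 6 = 0 from by decide +kernel, show cfn 19 9 6 = 0 from by decide +kernel, Nat.cast_ofNat, Nat.cast_one, Nat.cast_zero]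
  ring

theorem c19_7 (γ : ℕ → ℝ) : ∑ i ∈ range (19 / 2 + 1), γ i * (cfn 19 i 7 : ℝ) =
    (6449664) * γ 0 + (990080) * γ 1 + (143416) * γ 2 + (19266) * γ 3 + (2336) * γ 4 + (244) * γ 5 + (20) * γ 6 + (1) * γ 7 + (0) * γ 8 + (0) * γ 9 := by
  have h : ((19 / 2 + 1 : ℕ)) = 10 := rfl
  rw [h]
  simp only [sum_range_succ, sum_range_zero, show cfn 19 0 7 = 6449664 from by decide +kernel, show cfn 19 1 7 = 990080 from by decide +kernel, show cfn 19 2 7 = 143416 from by decide +kernel, show cfn 19 3 7 = 19266 from by decide +kernel, show cfn 19 4 7 = 2336 from by decide +kernel, show cfn 19 5 7 = 244 from by decide +kernel, show cfn 19 6 7 = 20 from by decide +kernel, show cfn 19 7 7 = 1 from by decide +kernel, show cfn 19 8 7 = 0 from by decide +kernel, show cfn 19 9 7 = 0 from by decide +kernel, Nat.cast_ofNat, Nat.cast_one, Nat.cast_zero]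
  ring

theorem c19_8 (γ : ℕ → ℝ) : ∑ i ∈ range (19 / 2 + 1), γ i * (cfn 19 i 8 : ℝ) =
    (19348992) * γ 0 + (3281408) * γ 1 + (534352) * γ 2 + (82680) * γ 3 + (11969) * γ 4 + (1582) * γ 5 + (183) * γ 6 + (17) * γ 7 + (1) * γ 8 + (0) * γ 9 := by
  have h : ((19 / 2 + 1 : ℕ)) = 10 := rfl
  rw [h]
  simp only [sum_range_succ, sum_range_zero, show cfn 19 0 8 = 19348992 from by decide +kernel, show cfn 19 1 8 = 3281408 from by decide +kernel, show cfn 19 2 8 = 534352 from by decide +kernel, show cfn 19 3 8 = 82680 from by decide +kernel, show cfn 19 4 8 = 11969 from by decide +kernel, show cfn 19 5 8 = 1582 from by decide +kernel, show cfn 19 6 8 = 183 from by decide +kernel, show cfn 19 7 8 = 17 from by decide +kernel, show cfn 19 8 8 = 1 from by decide +kernel, show cfn 19 9 8 = 0 from by decide +kernel, Nat.cast_ofNat, Nat.cast_one, Nat.cast_zero]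
  ring

theorem c19_9 (γ : ℕ → ℝ) : ∑ i ∈ range (19 / 2 + 1), γ i * (cfn 19 i 9 : ℝ) =
    (47297536) * γ 0 + (8712704) * γ 1 + (1560416) * γ 2 + (269984) * γ 3 + (44726) * γ 4 + (7001) * γ 5 + (1014) * γ 6 + (131) * γ 7 + (14) * γ 8 + (1) * γ 9 := by
  have h : ((19 / 2 + 1 : ℕ)) = 10 := rfl
  rw [h]
  simp only [sum_range_succ, sum_range_zero, show cfn 19 0 9 = 47297536 from by decide +kernel, show cfn 19 1 9 = 8712704 from by decide +kernel, show cfn 19 2 9 = 1560416 from by decide +kernel, show cfn 19 3 9 = 269984 from by decide +kernel, show cfn 19 4 9 = 44726 from by decide +kernel, show cfn 19 5 9 = 7001 from by decide +kernel, show cfn 19 6 9 = 1014 from by decide +kernel, show cfn 19 7 9 = 131 from by decide +kernel, show cfn 19 8 9 = 14 from by decide +kernel, show cfn 19 9 9 = 1 from by decide +kernel, Nat.cast_ofNat, Nat.cast_one, Nat.cast_zero]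
  ring

theorem c19_10 (γ : ℕ → ℝ) : ∑ i ∈ range (19 / 2 + 1), γ i * (cfn 19 i 10 : ℝ) =
    (94595072) * γ 0 + (18670080) * γ 1 + (3615040) * γ 2 + (684112) * γ 3 + (125884) * γ 4 + (22363) * γ 5 + (3795) * γ 6 + (605) * γ 7 + (88) * γ 8 + (11) * γ 9 := by
  have h : ((19 / 2 + 1 : ℕ)) = 10 := rfl
  rw [h]
  simp only [sum_range_succ, sum_range_zero, show cfn 19 0 10 = 94595072 from by decide +kernel, show cfn 19 1 10 = 18670080 from by decide +kernel, show cfn 19 2 10 = 3615040 from by decide +kernel, show cfn 19 3 10 = 684112 from by decide +kernel, show cfn 19 4 10 = 125884 from by decide +kernel, show cfn 19 5 10 = 22363 from by decide +kernel, show cfn 19 6 10 = 3795 from by decide +kernel, show cfn 19 7 10 = 605 from by decide +kernel, show cfn 19 8 10 = 88 from by decide +kernel, show cfn 19 9 10 = 11 from by decide +kernel, Nat.cast_ofNat, Nat.cast_one, Nat.cast_zero]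
  ring

theorem c19_11 (γ : ℕ → ℝ) : ∑ i ∈ range (19 / 2 + 1), γ i * (cfn 19 i 11 : ℝ) =
    (154791936) * γ 0 + (32361472) * γ 1 + (6680960) * γ 2 + (1359072) * γ 3 + (271656) * γ 4 + (53154) * γ 5 + (10128) * γ 6 + (1865) * γ 7 + (328) * γ 8 + (54) * γ 9 := by
  have h : ((19 / 2 + 1 : ℕ)) = 10 := rfl
  rw [h]
  simp only [sum_range_succ, sum_range_zero, show cfn 19 0 11 = 154791936 from by decide +kernel, show cfn 19 1 11 = 32361472 from by decide +kernel, show cfn 19 2 11 = 6680960 from by decide +kernel, show cfn 19 3 11 = 1359072 from by decide +kernel, show cfn 19 4 11 = 271656 from by decide +kernel, show cfn 19 5 11 = 53154 from by decide +kernel, show cfn 19 6 11 = 10128 from by decide +kernel, show cfn 19 7 11 = 1865 from by decide +kernel, show cfn 19 8 11 = 328 from by decide +kernel, show cfn 19 9 11 = 54 from by decide +kernel, Nat.cast_ofNat, Nat.cast_one, Nat.cast_zero]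
  ring

theorem c19_12 (γ : ℕ → ℝ) : ∑ i ∈ range (19 / 2 + 1), γ i * (cfn 19 i 12 : ℝ) =
    (206389248) * γ 0 + (45260800) * γ 1 + (9847552) * γ 2 + (2123264) * γ 3 + (453024) * γ 4 + (95472) * γ 5 + (19825) * γ 6 + (4043) * γ 7 + (806) * γ 8 + (156) * γ 9 := by
  have h : ((19 / 2 + 1 : ℕ)) = 10 := rfl
  rw [h]
  simp only [sum_range_succ, sum_range_zero, show cfn 19 0 12 = 206389248 from by decide +kernel, show cfn 19 1 12 = 45260800 from by decide +kernel, show cfn 19 2 12 = 9847552 from by decide +kernel, show cfn 19 3 12 = 2123264 from by decide +kernel, show cfn 19 4 12 = 453024 from by decide +kernel, show cfn 19 5 12 = 95472 from by decide +kernel, show cfn 19 6 12 = 19825 from by decide +kernel, show cfn 19 7 12 = 4043 from by decide +kernel, show cfn 19 8 12 = 806 from by decide +kernel, show cfn 19 9 12 = 156 from by decide +kernel, Nat.cast_ofNat, Nat.cast_one, Nat.cast_zero]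
  ring

theorem c19_13 (γ : ℕ → ℝ) : ∑ i ∈ range (19 / 2 + 1), γ i * (cfn 19 i 13 : ℝ) =
    (222265344) * γ 0 + (50692096) * γ 1 + (11508224) * γ 2 + (2599168) * γ 3 + (583616) * γ 4 + (130176) * γ 5 + (28814) * γ 6 + (6321) * γ 7 + (1372) * γ 8 + (294) * γ 9 := by
  have h : ((19 / 2 + 1 : ℕ)) = 10 := rfl
  rw [h]
  simp only [sum_range_succ, sum_range_zero, show cfn 19 0 13 = 222265344 from by decide +kernel, show cfn 19 1 13 = 50692096 from by decide +kernel, show cfn 19 2 13 = 11508224 from by decide +kernel, show cfn 19 3 13 = 2599168 from by decide +kernel, show cfn 19 4 13 = 583616 from by decide +kernel, show cfn 19 5 13 = 130176 from by decide +kernel, show cfn 19 6 13 = 28814 from by decide +kernel, show cfn 19 7 13 = 6321 from by decide +kernel, show cfn 19 8 13 = 1372 from by decide +kernel, show cfn 19 9 13 = 294 from by decide +kernel, Nat.cast_ofNat, Nat.cast_one, Nat.cast_zero]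
  ring

theorem c19_14 (γ : ℕ → ℝ) : ∑ i ∈ range (19 / 2 + 1), γ i * (cfn 19 i 14 : ℝ) =
    (190513152) * γ 0 + (44843008) * γ 1 + (10529792) * γ 2 + (2466048) * γ 3 + (575872) * γ 4 + (134048) * γ 5 + (31092) * γ 6 + (7183) * γ 7 + (1652) * γ 8 + (378) * γ 9 := by
  have h : ((19 / 2 + 1 : ℕ)) = 10 := rfl
  rw [h]
  simp only [sum_range_succ, sum_range_zero, show cfn 19 0 14 = 190513152 from by decide +kernel, show cfn 19 1 14 = 44843008 from by decide +kernel, show cfn 19 2 14 = 10529792 from by decide +kernel, show cfn 19 3 14 = 2466048 from by decide +kernel, show cfn 19 4 14 = 575872 from by decide +kernel, show cfn 19 5 14 = 134048 from by decide +kernel, show cfn 19 6 14 = 31092 from by decide +kernel, show cfn 19 7 14 = 7183 from by decide +kernel, show cfn 19 8 14 = 1652 from by decide +kernel, show cfn 19 9 14 = 378 from by decide +kernel, Nat.cast_ofNat, Nat.cast_one, Nat.cast_zero]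
  ring

theorem c19_15 (γ : ℕ → ℝ) : ∑ i ∈ range (19 / 2 + 1), γ i * (cfn 19 i 15 : ℝ) =
    (127008768) * γ 0 + (30638080) * γ 1 + (7383040) * γ 2 + (1777152) * γ 3 + (427264) * γ 4 + (102592) * γ 5 + (24600) * γ 6 + (5890) * γ 7 + (1408) * γ 8 + (336) * γ 9 := by
  have h : ((19 / 2 + 1 : ℕ)) = 10 := rfl
  rw [h]
  simp only [sum_range_succ, sum_range_zero, show cfn 19 0 15 = 127008768 from by decide +kernel, show cfn 19 1 15 = 30638080 from by decide +kernel, show cfn 19 2 15 = 7383040 from by decide +kernel, show cfn 19 3 15 = 1777152 from by decide +kernel, show cfn 19 4 15 = 427264 from by decide +kernel, show cfn 19 5 15 = 102592 from by decide +kernel, show cfn 19 6 15 = 24600 from by decide +kernel, show cfn 19 7 15 = 5890 from by decide +kernel, show cfn 19 8 15 = 1408 from by decide +kernel, show cfn 19 9 15 = 336 from by decide +kernel, Nat.cast_ofNat, Nat.cast_one, Nat.cast_zero]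
  ring

theorem c19_16 (γ : ℕ → ℝ) : ∑ i ∈ range (19 / 2 + 1), γ i * (cfn 19 i 16 : ℝ) =
    (63504384) * γ 0 + (15597568) * γ 1 + (3829760) * γ 2 + (940032) * γ 3 + (230656) * γ 4 + (56576) * γ 5 + (13872) * γ 6 + (3400) * γ 7 + (833) * γ 8 + (204) * γ 9 := by
  have h : ((19 / 2 + 1 : ℕ)) = 10 := rfl
  rw [h]
  simp only [sum_range_succ, sum_range_zero, show cfn 19 0 16 = 63504384 from by decide +kernel, show cfn 19 1 16 = 15597568 from by decide +kernel, show cfn 19 2 16 = 3829760 from by decide +kernel, show cfn 19 3 16 = 940032 from by decide +kernel, show cfn 19 4 16 = 230656 from by decide +kernel, show cfn 19 5 16 = 56576 from by decide +kernel, show cfn 19 6 16 = 13872 from by decide +kernel, show cfn 19 7 16 = 3400 from by decide +kernel, show cfn 19 8 16 = 833 from by decide +kernel, show cfn 19 9 16 = 204 from by decide +kernel, Nat.cast_ofNat, Nat.cast_one, Nat.cast_zero]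
  ring

theorem c19_17 (γ : ℕ → ℝ) : ∑ i ∈ range (19 / 2 + 1), γ i * (cfn 19 i 17 : ℝ) =
    (22413312) * γ 0 + (5570560) * γ 1 + (1384448) * γ 2 + (344064) * γ 3 + (85504) * γ 4 + (21248) * γ 5 + (5280) * γ 6 + (1312) * γ 7 + (326) * γ 8 + (81) * γ 9 := by
  have h : ((19 / 2 + 1 : ℕ)) = 10 := rfl
  rw [h]
  simp only [sum_range_succ, sum_range_zero, show cfn 19 0 17 = 22413312 from by decide +kernel, show cfn 19 1 17 = 5570560 from by decide +kernel, show cfn 19 2 17 = 1384448 from by decide +kernel, show cfn 19 3 17 = 344064 from by decide +kernel, show cfn 19 4 17 = 85504 from by decide +kernel, show cfn 19 5 17 = 21248 from by decide +kernel, show cfn 19 6 17 = 5280 from by decide +kernel, show cfn 19 7 17 = 1312 from by decide +kernel, show cfn 19 8 17 = 326 from by decide +kernel, show cfn 19 9 17 = 81 from by decide +kernel, Nat.cast_ofNat, Nat.cast_one, Nat.cast_zero]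
  ring

theorem q19_0 (γ : ℕ → ℝ) (h0 : γ 0 = 1)
    (h : ∀ n < 19, 2 * (((19 : ℕ) : ℝ) - ((n : ℕ) : ℝ)) * ∑ i ∈ range (19 / 2 + 1), γ i * (cfn 19 i n : ℝ) ≤
      ((n : ℝ) + 1) * ∑ i ∈ range (19 / 2 + 1), γ i * (cfn 19 i (n + 1) : ℝ)) :
    0 ≤ (0) * γ 0 + (1) * γ 1 + (0) * γ 2 + (0) * γ 3 + (0) * γ 4 + (0) * γ 5 + (0) * γ 6 + (0) * γ 7 + (0) * γ 8 + (0) * γ 9 := by
  have h1 := h 0 (by norm_num)
  rw [show 0 + 1 = 1 from rfl, c19_0, c19_1] at h1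
  norm_num [h0] at h1 ⊢
  linarith

theorem q19_1 (γ : ℕ → ℝ) (h0 : γ 0 = 1)
    (h : ∀ n < 19, 2 * (((19 : ℕ) : ℝ) - ((n : ℕ) : ℝ)) * ∑ i ∈ range (19 / 2 + 1), γ i * (cfn 19 i n : ℝ) ≤
      ((n : ℝ) + 1) * ∑ i ∈ range (19 / 2 + 1), γ i * (cfn 19 i (n + 1) : ℝ)) :
    0 ≤ (0) * γ 0 + (34) * γ 1 + (2) * γ 2 + (0) * γ 3 + (0) * γ 4 + (0) * γ 5 + (0) * γ 6 + (0) * γ 7 + (0) * γ 8 + (0) * γ 9 := by
  have h1 := h 1 (by norm_num)
  rw [show 1 + 1 = 2 from rfl, c19_1, c19_2] at h1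
  norm_num [h0] at h1 ⊢
  linarith

theorem q19_2 (γ : ℕ → ℝ) (h0 : γ 0 = 1)
    (h : ∀ n < 19, 2 * (((19 : ℕ) : ℝ) - ((n : ℕ) : ℝ)) * ∑ i ∈ range (19 / 2 + 1), γ i * (cfn 19 i n : ℝ) ≤
      ((n : ℝ) + 1) * ∑ i ∈ range (19 / 2 + 1), γ i * (cfn 19 i (n + 1) : ℝ)) :
    0 ≤ (0) * γ 0 + (544) * γ 1 + (62) * γ 2 + (3) * γ 3 + (0) * γ 4 + (0) * γ 5 + (0) * γ 6 + (0) * γ 7 + (0) * γ 8 + (0) * γ 9 := by
  have h1 := h 2 (by norm_num)
  rw [show 2 + 1 = 3 from rfl, c19_2, c19_3] at h1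
  norm_num [h0] at h1 ⊢
  linarith

theorem q19_3 (γ : ℕ → ℝ) (h0 : γ 0 = 1)
    (h : ∀ n < 19, 2 * (((19 : ℕ) : ℝ) - ((n : ℕ) : ℝ)) * ∑ i ∈ range (19 / 2 + 1), γ i * (cfn 19 i n : ℝ) ≤
      ((n : ℝ) + 1) * ∑ i ∈ range (19 / 2 + 1), γ i * (cfn 19 i (n + 1) : ℝ)) :
    0 ≤ (0) * γ 0 + (5440) * γ 1 + (900) * γ 2 + (84) * γ 3 + (4) * γ 4 + (0) * γ 5 + (0) * γ 6 + (0) * γ 7 + (0) * γ 8 + (0) * γ 9 := by
  have h1 := h 3 (by norm_num)
  rw [show 3 + 1 = 4 from rfl, c19_3, c19_4] at h1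
  norm_num [h0] at h1 ⊢
  linarith

theorem q19_4 (γ : ℕ → ℝ) (h0 : γ 0 = 1)
    (h : ∀ n < 19, 2 * (((19 : ℕ) : ℝ) - ((n : ℕ) : ℝ)) * ∑ i ∈ range (19 / 2 + 1), γ i * (cfn 19 i n : ℝ) ≤
      ((n : ℝ) + 1) * ∑ i ∈ range (19 / 2 + 1), γ i * (cfn 19 i (n + 1) : ℝ)) :
    0 ≤ (0) * γ 0 + (38080) * γ 1 + (8120) * γ 2 + (1095) * γ 3 + (100) * γ 4 + (5) * γ 5 + (0) * γ 6 + (0) * γ 7 + (0) * γ 8 + (0) * γ 9 := by
  have h1 := h 4 (by norm_num)
  rw [show 4 + 1 = 5 from rfl, c19_4, c19_5] at h1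
  norm_num [h0] at h1 ⊢
  linarith

theorem q19_5 (γ : ℕ → ℝ) (h0 : γ 0 = 1)
    (h : ∀ n < 19, 2 * (((19 : ℕ) : ℝ) - ((n : ℕ) : ℝ)) * ∑ i ∈ range (19 / 2 + 1), γ i * (cfn 19 i n : ℝ) ≤
      ((n : ℝ) + 1) * ∑ i ∈ range (19 / 2 + 1), γ i * (cfn 19 i (n + 1) : ℝ)) :
    0 ≤ (0) * γ 0 + (198016) * γ 1 + (50960) * γ 2 + (8814) * γ 3 + (1156) * γ 4 + (110) * γ 5 + (6) * γ 6 + (0) * γ 7 + (0) * γ 8 + (0) * γ 9 := by
  have h1 := h 5 (by norm_num)
  rw [show 5 + 1 = 6 from rfl, c19_5, c19_6] at h1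
  norm_num [h0] at h1 ⊢
  linarith

theorem q19_6 (γ : ℕ → ℝ) (h0 : γ 0 = 1)
    (h : ∀ n < 19, 2 * (((19 : ℕ) : ℝ) - ((n : ℕ) : ℝ)) * ∑ i ∈ range (19 / 2 + 1), γ i * (cfn 19 i n : ℝ) ≤
      ((n : ℝ) + 1) * ∑ i ∈ range (19 / 2 + 1), γ i * (cfn 19 i (n + 1) : ℝ)) :
    0 ≤ (0) * γ 0 + (792064) * γ 1 + (235872) * γ 2 + (48984) * γ 3 + (8188) * γ 4 + (1110) * γ 5 + (114) * γ 6 + (7) * γ 7 + (0) * γ 8 + (0) * γ 9 := by
  have h1 := h 6 (by norm_num)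
  rw [show 6 + 1 = 7 from rfl, c19_6, c19_7] at h1
  norm_num [h0] at h1 ⊢
  linarith

theorem q19_7 (γ : ℕ → ℝ) (h0 : γ 0 = 1)
    (h : ∀ n < 19, 2 * (((19 : ℕ) : ℝ) - ((n : ℕ) : ℝ)) * ∑ i ∈ range (19 / 2 + 1), γ i * (cfn 19 i n : ℝ) ≤
      ((n : ℝ) + 1) * ∑ i ∈ range (19 / 2 + 1), γ i * (cfn 19 i (n + 1) : ℝ)) :
    0 ≤ (0) * γ 0 + (2489344) * γ 1 + (832832) * γ 2 + (199056) * γ 3 + (39688) * γ 4 + (6800) * γ 5 + (984) * γ 6 + (112) * γ 7 + (8) * γ 8 + (0) * γ 9 := by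
  have h1 := h 7 (by norm_num)
  rw [show 7 + 1 = 8 from rfl, c19_7, c19_8] at h1
  norm_num [h0] at h1 ⊢
  linarith

theorem q19_8 (γ : ℕ → ℝ) (h0 : γ 0 = 1)
    (h : ∀ n < 19, 2 * (((19 : ℕ) : ℝ) - ((n : ℕ) : ℝ)) * ∑ i ∈ range (19 / 2 + 1), γ i * (cfn 19 i n : ℝ) ≤
      ((n : ℝ) + 1) * ∑ i ∈ range (19 / 2 + 1), γ i * (cfn 19 i (n + 1) : ℝ)) :
    0 ≤ (0) * γ 0 + (6223360) * γ 1 + (2288000) * γ 2 + (610896) * γ 3 + (139216) * γ 4 + (28205) * γ 5 + (5100) * γ 6 + (805) * γ 7 + (104) * γ 8 + (9) * γ 9 := by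
  have h1 := h 8 (by norm_num)
  rw [show 8 + 1 = 9 from rfl, c19_8, c19_9] at h1
  norm_num [h0] at h1 ⊢
  linarith

theorem q19_9 (γ : ℕ → ℝ) (h0 : γ 0 = 1)
    (h : ∀ n < 19, 2 * (((19 : ℕ) : ℝ) - ((n : ℕ) : ℝ)) * ∑ i ∈ range (19 / 2 + 1), γ i * (cfn 19 i n : ℝ) ≤
      ((n : ℝ) + 1) * ∑ i ∈ range (19 / 2 + 1), γ i * (cfn 19 i (n + 1) : ℝ)) :
    0 ≤ (0) * γ 0 + (12446720) * γ 1 + (4942080) * γ 2 + (1441440) * γ 3 + (364320) * γ 4 + (83610) * γ 5 + (17670) * γ 6 + (3430) * γ 7 + (600) * γ 8 + (90) * γ 9 := by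
  have h1 := h 9 (by norm_num)
  rw [show 9 + 1 = 10 from rfl, c19_9, c19_10] at h1
  norm_num [h0] at h1 ⊢
  linarith

theorem q19_10 (γ : ℕ → ℝ) (h0 : γ 0 = 1)
    (h : ∀ n < 19, 2 * (((19 : ℕ) : ℝ) - ((n : ℕ) : ℝ)) * ∑ i ∈ range (19 / 2 + 1), γ i * (cfn 19 i n : ℝ) ≤
      ((n : ℝ) + 1) * ∑ i ∈ range (19 / 2 + 1), γ i * (cfn 19 i (n + 1) : ℝ)) :
    0 ≤ (0) * γ 0 + (19914752) * γ 1 + (8419840) * γ 2 + (2635776) * γ 3 + (722304) * γ 4 + (182160) * γ 5 + (43098) * γ 6 + (9625) * γ 7 + (2024) * γ 8 + (396) * γ 9 := by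
  have h1 := h 10 (by norm_num)
  rw [show 10 + 1 = 11 from rfl, c19_10, c19_11] at h1
  norm_num [h0] at h1 ⊢
  linarith

theorem q19_11 (γ : ℕ → ℝ) (h0 : γ 0 = 1)
    (h : ∀ n < 19, 2 * (((19 : ℕ) : ℝ) - ((n : ℕ) : ℝ)) * ∑ i ∈ range (19 / 2 + 1), γ i * (cfn 19 i n : ℝ) ≤
      ((n : ℝ) + 1) * ∑ i ∈ range (19 / 2 + 1), γ i * (cfn 19 i (n + 1) : ℝ)) :
    0 ≤ (0) * γ 0 + (25346048) * γ 1 + (11275264) * γ 2 + (3734016) * γ 3 + (1089792) * γ 4 + (295200) * γ 5 + (75852) * γ 6 + (18676) * γ 7 + (4424) * γ 8 + (1008) * γ 9 := by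
  have h1 := h 11 (by norm_num)
  rw [show 11 + 1 = 12 from rfl, c19_11, c19_12] at h1
  norm_num [h0] at h1 ⊢
  linarith

theorem q19_12 (γ : ℕ → ℝ) (h0 : γ 0 = 1)
    (h : ∀ n < 19, 2 * (((19 : ℕ) : ℝ) - ((n : ℕ) : ℝ)) * ∑ i ∈ range (19 / 2 + 1), γ i * (cfn 19 i n : ℝ) ≤
      ((n : ℝ) + 1) * ∑ i ∈ range (19 / 2 + 1), γ i * (cfn 19 i (n + 1) : ℝ)) :
    0 ≤ (0) * γ 0 + (25346048) * γ 1 + (11741184) * γ 2 + (4063488) * γ 3 + (1244672) * γ 4 + (355680) * γ 5 + (97032) * γ 6 + (25571) * γ 7 + (6552) * γ 8 + (1638) * γ 9 := by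
  have h1 := h 12 (by norm_num)
  rw [show 12 + 1 = 13 from rfl, c19_12, c19_13] at h1
  norm_num [h0] at h1 ⊢
  linarith

theorem q19_13 (γ : ℕ → ℝ) (h0 : γ 0 = 1)
    (h : ∀ n < 19, 2 * (((19 : ℕ) : ℝ) - ((n : ℕ) : ℝ)) * ∑ i ∈ range (19 / 2 + 1), γ i * (cfn 19 i n : ℝ) ≤
      ((n : ℝ) + 1) * ∑ i ∈ range (19 / 2 + 1), γ i * (cfn 19 i (n + 1) : ℝ)) :
    0 ≤ (0) * γ 0 + (19496960) * γ 1 + (9318400) * γ 2 + (3334656) * γ 3 + (1058816) * γ 4 + (314560) * γ 5 + (89520) * γ 6 + (24710) * γ 7 + (6664) * γ 8 + (1764) * γ 9 := by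
  have h1 := h 13 (by norm_num)
  rw [show 13 + 1 = 14 from rfl, c19_13, c19_14] at h1
  norm_num [h0] at h1 ⊢
  linarith

theorem q19_14 (γ : ℕ → ℝ) (h0 : γ 0 = 1)
    (h : ∀ n < 19, 2 * (((19 : ℕ) : ℝ) - ((n : ℕ) : ℝ)) * ∑ i ∈ range (19 / 2 + 1), γ i * (cfn 19 i n : ℝ) ≤
      ((n : ℝ) + 1) * ∑ i ∈ range (19 / 2 + 1), γ i * (cfn 19 i (n + 1) : ℝ)) :
    0 ≤ (0) * γ 0 + (11141120) * γ 1 + (5447680) * γ 2 + (1996800) * γ 3 + (650240) * γ 4 + (198400) * γ 5 + (58080) * γ 6 + (16520) * γ 7 + (4600) * γ 8 + (1260) * γ 9 := by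
  have h1 := h 14 (by norm_num)
  rw [show 14 + 1 = 15 from rfl, c19_14, c19_15] at h1
  norm_num [h0] at h1 ⊢
  linarith

theorem q19_15 (γ : ℕ → ℝ) (h0 : γ 0 = 1)
    (h : ∀ n < 19, 2 * (((19 : ℕ) : ℝ) - ((n : ℕ) : ℝ)) * ∑ i ∈ range (19 / 2 + 1), γ i * (cfn 19 i n : ℝ) ≤
      ((n : ℝ) + 1) * ∑ i ∈ range (19 / 2 + 1), γ i * (cfn 19 i (n + 1) : ℝ)) :
    0 ≤ (0) * γ 0 + (4456448) * γ 1 + (2211840) * γ 2 + (823296) * γ 3 + (272384) * γ 4 + (84480) * γ 5 + (25152) * γ 6 + (7280) * γ 7 + (2064) * γ 8 + (576) * γ 9 := by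
  have h1 := h 15 (by norm_num)
  rw [show 15 + 1 = 16 from rfl, c19_15, c19_16] at h1
  norm_num [h0] at h1 ⊢
  linarith

theorem q19_16 (γ : ℕ → ℝ) (h0 : γ 0 = 1)
    (h : ∀ n < 19, 2 * (((19 : ℕ) : ℝ) - ((n : ℕ) : ℝ)) * ∑ i ∈ range (19 / 2 + 1), γ i * (cfn 19 i n : ℝ) ≤
      ((n : ℝ) + 1) * ∑ i ∈ range (19 / 2 + 1), γ i * (cfn 19 i (n + 1) : ℝ)) :
    0 ≤ (0) * γ 0 + (1114112) * γ 1 + (557056) * γ 2 + (208896) * γ 3 + (69632) * γ 4 + (21760) * γ 5 + (6528) * γ 6 + (1904) * γ 7 + (544) * γ 8 + (153) * γ 9 := by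
  have h1 := h 16 (by norm_num)
  rw [show 16 + 1 = 17 from rfl, c19_16, c19_17] at h1
  norm_num [h0] at h1 ⊢
  linarith

theorem D19 (γ : ℕ → ℝ) (h0 : γ 0 = 1)
    (h : 5 * (((19 - 3 : ℕ) : ℝ)) * ∑ i ∈ range (19 / 2 + 1), γ i * (cfn 19 i (19 - 3) : ℝ) ≤
      (((19 - 2).choose 2 : ℕ) : ℝ) * ∑ i ∈ range (19 / 2 + 1), γ i * (cfn 19 i (19 - 2) : ℝ) +
      16 * ∑ i ∈ range (19 / 2 + 1), γ i * (cfn 19 i (19 - 4) : ℝ)) :
    0 ≤ (0) * γ 0 + (0) * γ 1 + (32768) * γ 2 + (24576) * γ 3 + (12288) * γ 4 + (5120) * γ 5 + (1920) * γ 6 + (672) * γ 7 + (224) * γ 8 + (72) * γ 9 := by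
  rw [show 19 - 3 = 16 from rfl, show 19 - 2 = 17 from rfl, show 19 - 4 = 15 from rfl,
    c19_16, c19_17, c19_15, show (17 : ℕ).choose 2 = 136 from by decide +kernel] at h
  norm_num [h0] at h ⊢
  linarith

theorem m19_0 (γ : ℕ → ℝ) : Mat 19 γ 0 = (1) * γ 0 + (0) * γ 1 + (0) * γ 2 + (0) * γ 3 + (0) * γ 4 + (0) * γ 5 + (0) * γ 6 + (0) * γ 7 + (0) * γ 8 + (0) * γ 9 := by
  unfold Mat
  rw [show (19 / 2 + 1 : ℕ) = 10 from rfl]
  simp [sum_range_succ, Nat.choose]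
  try ring

theorem m19_1 (γ : ℕ → ℝ) : Mat 19 γ 1 = (684) * γ 0 + (36) * γ 1 + (1) * γ 2 + (0) * γ 3 + (0) * γ 4 + (0) * γ 5 + (0) * γ 6 + (0) * γ 7 + (0) * γ 8 + (0) * γ 9 := by
  unfold Mat
  rw [show (19 / 2 + 1 : ℕ) = 10 from rfl]
  simp [sum_range_succ, Nat.choose]
  try ring

theorem m19_2 (γ : ℕ → ℝ) : Mat 19 γ 2 = (62016) * γ 0 + (6528) * γ 1 + (544) * γ 2 + (32) * γ 3 + (1) * γ 4 + (0) * γ 5 + (0) * γ 6 + (0) * γ 7 + (0) * γ 8 + (0) * γ 9 := by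
  unfold Mat
  rw [show (19 / 2 + 1 : ℕ) = 10 from rfl]
  simp [sum_range_succ, Nat.choose]
  try ring

theorem m19_3 (γ : ℕ → ℝ) : Mat 19 γ 3 = (1736448) * γ 0 + (274176) * γ 1 + (38080) * γ 2 + (4480) * γ 3 + (420) * γ 4 + (28) * γ 5 + (1) * γ 6 + (0) * γ 7 + (0) * γ 8 + (0) * γ 9 := by
  unfold Mat
  rw [show (19 / 2 + 1 : ℕ) = 10 from rfl]
  simp [sum_range_succ, Nat.choose]
  try ring

theorem m19_4 (γ : ℕ → ℝ) : Mat 19 γ 4 = (19348992) * γ 0 + (4073472) * γ 1 + (792064) * γ 2 + (139776) * γ 3 + (21840) * γ 4 + (2912) * γ 5 + (312) * γ 6 + (24) * γ 7 + (1) * γ 8 + (0) * γ 9 := by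
  unfold Mat
  rw [show (19 / 2 + 1 : ℕ) = 10 from rfl]
  simp [sum_range_succ, Nat.choose]
  try ring

theorem m19_5 (γ : ℕ → ℝ) : Mat 19 γ 5 = (94595072) * γ 0 + (24893440) * γ 1 + (6223360) * γ 2 + (1464320) * γ 3 + (320320) * γ 4 + (64064) * γ 5 + (11440) * γ 6 + (1760) * γ 7 + (220) * γ 8 + (20) * γ 9 := by
  unfold Mat
  rw [show (19 / 2 + 1 : ℕ) = 10 from rfl]
  simp [sum_range_succ, Nat.choose]
  try ring

theorem m19_6 (γ : ℕ → ℝ) : Mat 19 γ 6 = (206389248) * γ 0 + (65175552) * γ 1 + (19914752) * γ 2 + (5857280) * γ 3 + (1647360) * γ 4 + (439296) * γ 5 + (109824) * γ 6 + (25344) * γ 7 + (5280) * γ 8 + (960) * γ 9 := by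
  unfold Mat
  rw [show (19 / 2 + 1 : ℕ) = 10 from rfl]
  simp [sum_range_succ, Nat.choose]
  try ring

theorem m19_7 (γ : ℕ → ℝ) : Mat 19 γ 7 = (190513152) * γ 0 + (70189056) * γ 1 + (25346048) * γ 2 + (8945664) * γ 3 + (3075072) * γ 4 + (1025024) * γ 5 + (329472) * γ 6 + (101376) * γ 7 + (29568) * γ 8 + (8064) * γ 9 := by
  unfold Mat
  rw [show (19 / 2 + 1 : ℕ) = 10 from rfl]
  simp [sum_range_succ, Nat.choose]
  try ring

theorem m19_8 (γ : ℕ → ℝ) : Mat 19 γ 8 = (63504384) * γ 0 + (26738688) * γ 1 + (11141120) * γ 2 + (4587520) * γ 3 + (1863680) * γ 4 + (745472) * γ 5 + (292864) * γ 6 + (112640) * γ 7 + (42240) * γ 8 + (15360) * γ 9 := by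
  unfold Mat
  rw [show (19 / 2 + 1 : ℕ) = 10 from rfl]
  simp [sum_range_succ, Nat.choose]
  try ring

theorem m19_9 (γ : ℕ → ℝ) : Mat 19 γ 9 = (4980736) * γ 0 + (2359296) * γ 1 + (1114112) * γ 2 + (524288) * γ 3 + (245760) * γ 4 + (114688) * γ 5 + (53248) * γ 6 + (24576) * γ 7 + (11264) * γ 8 + (5120) * γ 9 := by
  unfold Mat
  rw [show (19 / 2 + 1 : ℕ) = 10 from rfl]
  simp [sum_range_succ, Nat.choose]
  try ring

theorem main19 (γ : ℕ → ℝ) (h0 : γ 0 = 1)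
    (h : ∀ n < 19, 2 * (((19 : ℕ) : ℝ) - ((n : ℕ) : ℝ)) * ∑ i ∈ range (19 / 2 + 1), γ i * (cfn 19 i n : ℝ) ≤
      ((n : ℝ) + 1) * ∑ i ∈ range (19 / 2 + 1), γ i * (cfn 19 i (n + 1) : ℝ))
    (hD : 5 * (((19 - 3 : ℕ) : ℝ)) * ∑ i ∈ range (19 / 2 + 1), γ i * (cfn 19 i (19 - 3) : ℝ) ≤
      (((19 - 2).choose 2 : ℕ) : ℝ) * ∑ i ∈ range (19 / 2 + 1), γ i * (cfn 19 i (19 - 2) : ℝ) +
      16 * ∑ i ∈ range (19 / 2 + 1), γ i * (cfn 19 i (19 - 4) : ℝ)) :
    ∀ j ≤ 19 / 2, 0 < Mat 19 (Mat 19 γ) j := by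
  have k0 := q19_0 γ h0 h
  have k1 := q19_1 γ h0 h
  have k2 := q19_2 γ h0 h
  have k3 := q19_3 γ h0 h
  have k4 := q19_4 γ h0 h
  have k5 := q19_5 γ h0 h
  have k6 := q19_6 γ h0 h
  have k7 := q19_7 γ h0 h
  have k8 := q19_8 γ h0 h
  have k9 := q19_9 γ h0 h
  have k10 := q19_10 γ h0 h
  have k11 := q19_11 γ h0 h
  have k12 := q19_12 γ h0 h
  have k13 := q19_13 γ h0 h
  have k14 := q19_14 γ h0 h
  have k15 := q19_15 γ h0 h
  have k16 := q19_16 γ h0 h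
  have kD := D19 γ h0 hD
  intro j hj
  have hj' : j ≤ 9 := hj
  clear hj h hD
  interval_cases j
  · clear hj'
    rw [m19_0]
    simp only [m19_0, m19_1, m19_2, m19_3, m19_4, m19_5, m19_6, m19_7, m19_8, m19_9, h0]
    linarith only []
  · clear hj'
    rw [m19_1]
    simp only [m19_0, m19_1, m19_2, m19_3, m19_4, m19_5, m19_6, m19_7, m19_8, m19_9, h0]
    linarith only [k0, k2, k3, k1]
  · clear hj'
    rw [m19_2]
    simp only [m19_0, m19_1, m19_2, m19_3, m19_4, m19_5, m19_6, m19_7, m19_8, m19_9, h0]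
    linarith only [k0, k6, k1, k2, k3, k4, k7, k5]
  · clear hj'
    rw [m19_3]
    simp only [m19_0, m19_1, m19_2, m19_3, m19_4, m19_5, m19_6, m19_7, m19_8, m19_9, h0]
    linarith only [k4, k0, k2, k1, k8, k3, k9, k6, k7]
  · clear hj'
    rw [m19_4]
    simp only [m19_0, m19_1, m19_2, m19_3, m19_4, m19_5, m19_6, m19_7, m19_8, m19_9, h0]
    linarith only [k0, k1, k10, k2, k9, k4, k6, k3, k7]
  · clear hj'
    rw [m19_5]
    simp only [m19_0, m19_1, m19_2, m19_3, m19_4, m19_5, m19_6, m19_7, m19_8, m19_9, h0]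
    linarith only [k1, k0, k10, k2, k11, k3, k6, k7, k4]
  · clear hj'
    rw [m19_6]
    simp only [m19_0, m19_1, m19_2, m19_3, m19_4, m19_5, m19_6, m19_7, m19_8, m19_9, h0]
    linarith only [k12, k0, k1, k2, k11, k3, k4, k7, k8]
  · clear hj'
    rw [m19_7]
    simp only [m19_0, m19_1, m19_2, m19_3, m19_4, m19_5, m19_6, m19_7, m19_8, m19_9, h0]
    linarith only [k1, k0, k4, k2, k8, k3, k13, k7, k14]
  · clear hj'
    rw [m19_8]
    simp only [m19_0, m19_1, m19_2, m19_3, m19_4, m19_5, m19_6, m19_7, m19_8, m19_9, h0]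
    linarith only [k7, k0, k2, k1, k8, k3, k4, k15, k16]
  · clear hj'
    rw [m19_9]
    simp only [m19_0, m19_1, m19_2, m19_3, m19_4, m19_5, m19_6, m19_7, m19_8, m19_9, h0]
    linarith only [k3, k0, kD, k1, k8, k16, k7, k4, k2]

end PkgNUMC

end Pool.Agent.T2H83.GR
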