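import Pool.Agent.T2H83.GR.Stm

set_option autoImplicit false

namespace Pool.Agent.T2H83.GR

open Finset Polynomial Pool.Agent.T2H44.RS Filter Topology

namespace PkgPOS

theorem Mat_smul (d : ℕ) (t : ℝ) (γ : ℕ → ℝ) : Mat d (fun i => t * γ i) = fun i => t * Mat d γ i := by
  funext j
  unfold Mat
  rw [Finset.mul_sum]
  apply Finset.sum_congr rfl
  intro i _
  split_ifs
  · ring
  · ring

theorem Mat_iter_smul (d : ℕ) (t : ℝ) (γ : ℕ → ℝ) (N : ℕ) :
    (Mat d)^[N] (fun i => t * γ i) = fun i => t * (Mat d)^[N] γ i := by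
  induction N with
  | zero => rfl
  | succ N ih => rw [Function.iterate_succ_apply', Function.iterate_succ_apply', ih, Mat_smul]

theorem start (d : ℕ) :
    ∑ n ∈ range (d + 1), C ((d.choose n : ℝ) * 2 ^ n / 2 ^ d) * X ^ n =
      Phi d (fun i => (2 ^ d)⁻¹ * e0 i) := by
  have h1 : Phi d (fun i => (2 ^ d)⁻¹ * e0 i) = C (((2 : ℝ) ^ d)⁻¹) * (1 + 2 * X) ^ d := by
    unfold Phi
    rw [Finset.sum_eq_single 0]
    · simp [e0]
    · intro i _ hi
      simp [e0, hi]
    · intro h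
      exfalso
      apply h
      simp
  rw [h1, add_comm (1 : ℝ[X]), add_pow, Finset.mul_sum]
  apply Finset.sum_congr rfl
  intro n _
  have h2 : (C ((d.choose n : ℝ) * 2 ^ n / 2 ^ d) : ℝ[X]) = C (((2 : ℝ) ^ d)⁻¹) * (2 ^ n * (d.choose n : ℝ[X])) := by
    have h3 : (2 : ℝ[X]) ^ n = C ((2 : ℝ) ^ n) := by
      rw [C_pow]
      congr 1
    have h4 : ((d.choose n : ℕ) : ℝ[X]) = C ((d.choose n : ℝ)) := by
      rw [Polynomial.C_eq_natCast]
    rw [h3, h4, ← C_mul, ← C_mul]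
    congr 1
    rw [div_eq_mul_inv]
    ring
  rw [h2, mul_pow, one_pow]
  ring

end PkgPOS

open PkgPOS

theorem pPOS (hINV : S_INV) (hUNI : S_UNI) (hLOW : S_LOW) (hITE : S_ITE) : S_POS := by
  intro d hd
  obtain ⟨ρ, hρ⟩ := hUNI d hd
  obtain ⟨c, hc⟩ := hINV d
  refine ⟨ρ, c, hρ, hc, ?_⟩
  intro i hi1 hi2
  have hd0 : (0 : ℝ) < d := by positivity
  set lam : ℝ := 2 ^ (d - 1) with hlam
  have hlam0 : 0 < lam := by positivity
  have hlam2 : 2 ≤ lam := by
    have h1 : (2 : ℝ) ^ 1 ≤ 2 ^ (d - 1) := pow_le_pow_right₀ (by norm_num) (by omega)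
    simpa using h1
  set a : ℕ → ℝ := fun n => (d.choose n : ℝ) * 2 ^ n / 2 ^ d with ha
  have had : a d = 1 := by
    simp [ha]
  have hab : ∀ n ≤ d, 0 ≤ a n ∧ a n ≤ 2 ^ d := by
    intro n hn
    refine ⟨by simp only [ha]; positivity, ?_⟩
    simp only [ha]
    rw [div_le_iff₀ (by positivity)]
    have h1 : (d.choose n : ℝ) ≤ 2 ^ d := by
      have := Nat.choose_le_two_pow d n
      exact_mod_cast this
    have h2 : (2 : ℝ) ^ n ≤ 2 ^ d := pow_le_pow_right₀ (by norm_num) hn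
    exact mul_le_mul h1 h2 (by positivity) (by positivity)
  set δ : ℝ := (2 * d * 2 ^ d * lam ^ d)⁻¹ with hδ
  have hδ0 : 0 < δ := by positivity
  set A : ℝ := ∑ n ∈ range (d + 1), |c i n| with hA
  have hA0 : 0 ≤ A := Finset.sum_nonneg fun n _ => abs_nonneg _
  obtain ⟨N₀, hN₀⟩ := hρ (δ / (2 * (A + 1))) (by positivity)
  set N := N₀ + d + 1 with hN
  have h1 := hN₀ a had hab N (by omega)
  have h2 := hITE d a _ (start d) N
  have h3 := hc _ _ h2 i hi2
  rw [Mat_iter_smul] at h3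
  simp only at h3
  -- lower bound
  have h4 := hLOW d hd (N - d) i hi1 hi2
  have h5 : N - d + d = N := by omega
  rw [h5, pow_mul, ← hlam] at h4
  have h6 : (2 : ℝ) ≤ lam ^ (N - d) := by
    have h7 : lam ^ 1 ≤ lam ^ (N - d) := pow_le_pow_right₀ (by linarith) (by omega)
    rw [pow_one] at h7
    linarith
  have h8 : lam ^ (N - d) / 2 ≤ d * (Mat d)^[N] e0 i := by linarith
  have h9 : lam ^ N = lam ^ (N - d) * lam ^ d := by
    rw [← pow_add, h5]
  have h10 : δ * lam ^ N ≤ (2 ^ d)⁻¹ * (Mat d)^[N] e0 i := by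
    rw [h9, hδ]
    have h11 : (2 * (d : ℝ) * 2 ^ d * lam ^ d)⁻¹ * (lam ^ (N - d) * lam ^ d) =
        (2 ^ d)⁻¹ * ((lam ^ (N - d) / 2) / d) := by
      field_simp
    rw [h11]
    apply mul_le_mul_of_nonneg_left _ (by positivity)
    rw [div_le_iff₀ hd0]
    linarith
  rw [h3] at h10
  have hlN : 0 < lam ^ N := by positivity
  have h12 : δ ≤ ∑ n ∈ range (d + 1), c i n * ((GG d)^[N] a n / lam ^ N) := by
    rw [← le_div_iff₀ hlN] at h10
    refine h10.trans (le_of_eq ?_)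
    rw [Finset.sum_div]
    apply Finset.sum_congr rfl
    intro n _
    ring
  have h13 : |∑ n ∈ range (d + 1), c i n * ((GG d)^[N] a n / lam ^ N) - ∑ n ∈ range (d + 1), c i n * ρ n| ≤
      A * (δ / (2 * (A + 1))) := by
    rw [← Finset.sum_sub_distrib, hA, Finset.sum_mul]
    refine (Finset.abs_sum_le_sum_abs _ _).trans (Finset.sum_le_sum fun n hn => ?_)
    rw [← mul_sub, abs_mul]
    apply mul_le_mul_of_nonneg_left _ (abs_nonneg _)
    exact (h1 n (by simpa [Nat.lt_succ_iff] using hn)).le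
  have h14 : A * (δ / (2 * (A + 1))) ≤ δ / 2 := by
    have h15 : A * (δ / (2 * (A + 1))) = (A / (A + 1)) * (δ / 2) := by
      field_simp
    rw [h15]
    have h16 : A / (A + 1) ≤ 1 := by
      rw [div_le_one (by positivity)]
      linarith
    calc (A / (A + 1)) * (δ / 2) ≤ 1 * (δ / 2) := mul_le_mul_of_nonneg_right h16 (by positivity)
      _ = δ / 2 := one_mul _
  have h17 := (abs_le.1 (h13.trans h14)).2
  linarith

end Pool.Agent.T2H83.GR
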