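import Pool.Agent.T2H83.GR.Stm
import Pool.Agent.T2H44.RS.C6

set_option autoImplicit false

/-!
# Package PRS: rounds of edge subdivisions exist and preserve purity, the Eulerian property, flagness
-/

namespace Pool.Agent.T2H83.GR

open Finset Polynomial Pool.Agent.T2H44.RS

namespace PkgPRS

theorem foldl_sub {d : ℕ} (l : List (Finset ℕ)) : ∀ (Δ : Cx), IsPure d Δ → l.Nodup →
    (∀ e ∈ l, e ∈ edges Δ) → IsPure d (l.foldl sub Δ) ∧ (IsEul d Δ → IsEul d (l.foldl sub Δ)) ∧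
      (IsFlag Δ → IsFlag (l.foldl sub Δ)) := by
  induction l with
  | nil => intro Δ h _ _; exact ⟨h, fun h => h, fun h => h⟩
  | cons e l ih =>
    intro Δ h hnd hl
    have he : e ∈ edges Δ := hl e List.mem_cons_self
    have hnd' := List.nodup_cons.1 hnd
    have h' := isPure_sub h he
    obtain ⟨a, b, c⟩ := ih (sub Δ e) h' hnd'.2 (fun e' he' => by
      have h1 : e' ∈ edges Δ := hl e' (List.mem_cons_of_mem _ he')
      have h2 := edge_card h1
      have h3 := edge_card he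
      have hne : ¬ e ⊆ e' := fun hsub => by
        have := Finset.eq_of_subset_of_card_le hsub (by omega)
        exact hnd'.1 (this ▸ he')
      unfold edges
      rw [mem_filter]
      exact ⟨mem_sub.2 (Or.inl ⟨edge_mem h1, hne⟩), h2⟩)
    exact ⟨a, fun hE => b (isEul_sub h hE he), fun hF => c (isFlag_sub h.down hF he)⟩

theorem round {d : ℕ} {Δ Δ' : Cx} (h : IsPure d Δ) (hr : Round Δ Δ') :
    IsPure d Δ' ∧ (IsEul d Δ → IsEul d Δ') ∧ (IsFlag Δ → IsFlag Δ') := by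
  obtain ⟨l, hnd, hl, rfl⟩ := hr
  exact foldl_sub l Δ h hnd fun e he => (hl e).1 he

theorem rounds {d : ℕ} {Δ : Cx} (h : IsPure d Δ) (N : ℕ) : ∀ Δ' : Cx, Rounds N Δ Δ' →
    IsPure d Δ' ∧ (IsEul d Δ → IsEul d Δ') ∧ (IsFlag Δ → IsFlag Δ') := by
  induction N with
  | zero =>
    intro Δ' hr
    have : Δ' = Δ := hr
    subst this
    exact ⟨h, fun h => h, fun h => h⟩
  | succ N ih =>
    intro Δ'' hr
    obtain ⟨Δ', h1, h2⟩ := hr
    obtain ⟨a, b, c⟩ := ih Δ' h1
    obtain ⟨a', b', c'⟩ := round a h2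
    exact ⟨a', fun h => b' (b h), fun h => c' (c h)⟩

theorem ex_round (Δ : Cx) : ∃ Δ', Round Δ Δ' :=
  ⟨_, (edges Δ).toList, Finset.nodup_toList _, fun e => by rw [Finset.mem_toList], rfl⟩

end PkgPRS

open PkgPRS in
theorem pPRS : S_PRS := by
  refine ⟨fun d Δ Δ' h hr => round h hr, fun d Δ Δ' N h hr => rounds h N Δ' hr, fun Δ N => ?_⟩
  induction N with
  | zero => exact ⟨Δ, rfl⟩
  | succ N ih =>
    obtain ⟨Δ', h⟩ := ih
    obtain ⟨Δ'', h'⟩ := ex_round Δ'
    exact ⟨Δ'', Δ', h, h'⟩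

end Pool.Agent.T2H83.GR
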