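import Pool.Agent.T2H83.GR.Stm

/-! # Package UNI: uniform convergence of the normalised face numbers -/

set_option autoImplicit false

namespace Pool.Agent.T2H83.GR

open Finset Polynomial Filter Topology

namespace PkgUNI

theorem gp_succ (k : ℕ) : gp (k + 2) = X * (2 * gp (k + 1) + gp k) := by rw [gp]

theorem coeff_succ (k n : ℕ) :
    (gp (k + 2)).coeff (n + 1) = 2 * (gp (k + 1)).coeff n + (gp k).coeff n := by
  rw [gp_succ, coeff_X_mul, coeff_add, two_mul, coeff_add]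
  ring

theorem coeff_zero' (k : ℕ) : (gp (k + 2)).coeff 0 = 0 := by
  rw [gp_succ, mul_coeff_zero, coeff_X_zero, zero_mul]

theorem coeff_nonneg : ∀ k n : ℕ, 0 ≤ (gp k).coeff n
  | 0, n => by
      rw [gp, coeff_one]; split_ifs <;> norm_num
  | 1, n => by
      rw [gp, coeff_X]; split_ifs <;> norm_num
  | k + 2, 0 => by rw [coeff_zero']
  | k + 2, n + 1 => by
      rw [coeff_succ]
      have h1 := coeff_nonneg (k + 1) n
      have h2 := coeff_nonneg k n
      linarith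

theorem coeff_gt : ∀ k n : ℕ, k < n → (gp k).coeff n = 0
  | 0, n => fun h => by
      rw [gp, coeff_one, if_neg (by omega)]
  | 1, n => fun h => by
      rw [gp, coeff_X, if_neg (by omega)]
  | k + 2, 0 => fun h => by omega
  | k + 2, n + 1 => fun h => by
      rw [coeff_succ, coeff_gt (k + 1) n (by omega), coeff_gt k n (by omega)]
      ring

theorem coeff_diag : ∀ k : ℕ, (gp (k + 1)).coeff (k + 1) = 2 ^ k
  | 0 => by rw [gp, coeff_X_one]; norm_num
  | k + 1 => by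
      rw [coeff_succ, coeff_diag k, coeff_gt k (k + 1) (by omega)]
      ring

theorem half (d n : ℕ) (hd : 2 ≤ d) (hn : n < d) : (gp n).coeff n ≤ 2 ^ (d - 1) / 2 := by
  obtain ⟨e, rfl⟩ : ∃ e, d = e + 2 := ⟨d - 2, by omega⟩
  have e1 : (2 : ℝ) ^ (e + 2 - 1) / 2 = 2 ^ e := by
    rw [show e + 2 - 1 = e + 1 by omega, pow_succ]; ring
  rw [e1]
  cases n with
  | zero =>
    rw [gp, coeff_one_zero]
    exact one_le_pow₀ (by norm_num)
  | succ m =>
    rw [coeff_diag]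
    exact pow_le_pow_right₀ (by norm_num) (by omega)

theorem GG_eq (d : ℕ) (b : ℕ → ℝ) (n : ℕ) (hn : n ≤ d) :
    GG d b n = b n * (gp n).coeff n + ∑ k ∈ Ioc n d, b k * (gp k).coeff n := by
  unfold GG
  have h1 : ∑ k ∈ range (d + 1), b k * (gp k).coeff n
      = ∑ k ∈ Icc n d, b k * (gp k).coeff n := by
    symm
    apply Finset.sum_subset
    · intro k hk
      rw [Finset.mem_Icc] at hk
      rw [Finset.mem_range]
      omega
    · intro k hk hk'
      rw [Finset.mem_range] at hk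
      rw [Finset.mem_Icc] at hk'
      rw [coeff_gt k n (by omega), mul_zero]
  rw [h1, ← Finset.Ioc_insert_left hn, Finset.sum_insert (by simp)]

theorem GG_top (d : ℕ) (hd : 2 ≤ d) (b : ℕ → ℝ) : GG d b d = b d * 2 ^ (d - 1) := by
  rw [GG_eq d b d le_rfl, Finset.Ioc_self, Finset.sum_empty, add_zero]
  obtain ⟨e, rfl⟩ : ∃ e, d = e + 1 := ⟨d - 1, by omega⟩
  rw [coeff_diag]
  rfl

theorem iter_top (d : ℕ) (hd : 2 ≤ d) (a : ℕ → ℝ) (N : ℕ) :
    (GG d)^[N] a d = a d * (2 ^ (d - 1)) ^ N := by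
  induction N with
  | zero => simp
  | succ N ih =>
    rw [Function.iterate_succ_apply', GG_top d hd, ih]
    ring

theorem crude (d N : ℕ) : ∃ C : ℝ, 0 ≤ C ∧ ∀ a : ℕ → ℝ,
    (∀ n ≤ d, 0 ≤ a n ∧ a n ≤ 2 ^ d) → ∀ n ≤ d, |(GG d)^[N] a n| ≤ C := by
  induction N with
  | zero =>
    refine ⟨2 ^ d, by positivity, fun a ha n hn => ?_⟩
    rw [Function.iterate_zero, id, abs_of_nonneg (ha n hn).1]
    exact (ha n hn).2
  | succ N ih =>
    obtain ⟨C, hC0, hC⟩ := ih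
    have hK : 0 ≤ ∑ n ∈ range (d + 1), ∑ k ∈ range (d + 1), (gp k).coeff n :=
      Finset.sum_nonneg fun n _ => Finset.sum_nonneg fun k _ => coeff_nonneg k n
    refine ⟨C * ∑ n ∈ range (d + 1), ∑ k ∈ range (d + 1), (gp k).coeff n,
      mul_nonneg hC0 hK, fun a ha n hn => ?_⟩
    rw [Function.iterate_succ_apply']
    unfold GG
    calc |∑ k ∈ range (d + 1), (GG d)^[N] a k * (gp k).coeff n|
        ≤ ∑ k ∈ range (d + 1), |(GG d)^[N] a k * (gp k).coeff n| :=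
          Finset.abs_sum_le_sum_abs _ _
      _ ≤ ∑ k ∈ range (d + 1), C * (gp k).coeff n := by
          refine Finset.sum_le_sum fun k hk => ?_
          rw [Finset.mem_range] at hk
          rw [abs_mul, abs_of_nonneg (coeff_nonneg k n)]
          exact mul_le_mul_of_nonneg_right (hC a ha k (by omega)) (coeff_nonneg k n)
      _ = C * ∑ k ∈ range (d + 1), (gp k).coeff n := by rw [Finset.mul_sum]
      _ ≤ C * ∑ n ∈ range (d + 1), ∑ k ∈ range (d + 1), (gp k).coeff n := by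
          refine mul_le_mul_of_nonneg_left ?_ hC0
          exact Finset.single_le_sum (f := fun n => ∑ k ∈ range (d + 1), (gp k).coeff n)
            (fun n _ => Finset.sum_nonneg fun k _ => coeff_nonneg k n)
            (Finset.mem_range.mpr (by omega))

theorem recl (x s : ℕ → ℝ) (θ L s0 δ : ℝ) (M : ℕ) (h0 : 0 ≤ θ) (h1 : θ ≤ 1 / 2)
    (hL : L = θ * L + s0) (hs : ∀ N ≥ M, |s N - s0| ≤ δ)
    (hx : ∀ N, x (N + 1) = θ * x N + s N) (j : ℕ) :
    |x (M + j) - L| ≤ (1 / 2) ^ j * |x M - L| + 2 * δ := by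
  have hδ : 0 ≤ δ := le_trans (abs_nonneg _) (hs M le_rfl)
  induction j with
  | zero => simp; linarith
  | succ j ih =>
    have e1 : x (M + (j + 1)) - L = θ * (x (M + j) - L) + (s (M + j) - s0) := by
      rw [← add_assoc, hx]
      linarith
    rw [e1]
    have h2 : |θ * (x (M + j) - L)| ≤ 1 / 2 * |x (M + j) - L| := by
      rw [abs_mul, abs_of_nonneg h0]
      exact mul_le_mul_of_nonneg_right h1 (abs_nonneg _)
    have h3 := hs (M + j) (by omega)
    calc |θ * (x (M + j) - L) + (s (M + j) - s0)|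
        ≤ |θ * (x (M + j) - L)| + |s (M + j) - s0| := abs_add_le _ _
      _ ≤ 1 / 2 * |x (M + j) - L| + δ := add_le_add h2 h3
      _ ≤ 1 / 2 * ((1 / 2) ^ j * |x M - L| + 2 * δ) + δ := by linarith
      _ = (1 / 2) ^ (j + 1) * |x M - L| + 2 * δ := by rw [pow_succ]; ring

theorem conv (d : ℕ) (hd : 2 ≤ d) : ∀ m n : ℕ, n + m = d → ∃ r : ℝ, ∀ ε : ℝ, 0 < ε → ∃ N₀ : ℕ,
    ∀ a : ℕ → ℝ, a d = 1 → (∀ n ≤ d, 0 ≤ a n ∧ a n ≤ 2 ^ d) → ∀ N ≥ N₀,
      |(GG d)^[N] a n / (2 ^ (d - 1)) ^ N - r| < ε := by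
  intro m
  induction m using Nat.strong_induction_on with
  | _ m ih =>
    intro n hnm
    have hl : (0 : ℝ) < 2 ^ (d - 1) := by positivity
    rcases Nat.eq_zero_or_pos m with hm | hm
    · have hnd : n = d := by omega
      subst hnd
      refine ⟨1, fun ε hε => ⟨0, fun a ha _ N _ => ?_⟩⟩
      rw [iter_top n hd, ha, one_mul, div_self (by positivity), sub_self, abs_zero]
      exact hε
    · have hnd : n < d := by omega
      have ih' : ∀ k ∈ Ioc n d, ∃ r : ℝ, ∀ ε : ℝ, 0 < ε → ∃ N₀ : ℕ,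
          ∀ a : ℕ → ℝ, a d = 1 → (∀ n ≤ d, 0 ≤ a n ∧ a n ≤ 2 ^ d) → ∀ N ≥ N₀,
          |(GG d)^[N] a k / (2 ^ (d - 1)) ^ N - r| < ε := by
        intro k hk
        rw [Finset.mem_Ioc] at hk
        exact ih (d - k) (by omega) k (by omega)
      choose! r hr using ih'
      obtain ⟨w, hw⟩ : ∃ w : ℕ → ℝ, w = fun k => (gp k).coeff n / 2 ^ (d - 1) := ⟨_, rfl⟩
      have hw0 : ∀ k, 0 ≤ w k := fun k => by
        rw [hw]; exact div_nonneg (coeff_nonneg k n) hl.le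
      have hθ : w n ≤ 1 / 2 := by
        rw [hw]
        simp only
        rw [div_le_iff₀ hl]
        have := half d n hd hnd
        linarith
      obtain ⟨s0, hs0⟩ : ∃ s0 : ℝ, s0 = ∑ k ∈ Ioc n d, r k * w k := ⟨_, rfl⟩
      obtain ⟨L, hLd⟩ : ∃ L : ℝ, L = s0 / (1 - w n) := ⟨_, rfl⟩
      have hL : L = w n * L + s0 := by
        rw [hLd]
        have : (1 : ℝ) - w n ≠ 0 := by linarith
        field_simp
        ring
      have hS : ∀ ε : ℝ, 0 < ε → ∃ N₀ : ℕ, ∀ a : ℕ → ℝ, a d = 1 →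
          (∀ n ≤ d, 0 ≤ a n ∧ a n ≤ 2 ^ d) → ∀ N ≥ N₀,
          |∑ k ∈ Ioc n d, (GG d)^[N] a k / (2 ^ (d - 1)) ^ N * w k - s0| ≤ ε := by
        intro ε hε
        have hW : 0 < ∑ k ∈ Ioc n d, w k + 1 := by
          have := Finset.sum_nonneg (fun k (_ : k ∈ Ioc n d) => hw0 k)
          linarith
        have h1 : ∀ k ∈ Ioc n d, ∃ N₀ : ℕ,
            ∀ a : ℕ → ℝ, a d = 1 → (∀ n ≤ d, 0 ≤ a n ∧ a n ≤ 2 ^ d) → ∀ N ≥ N₀,
            |(GG d)^[N] a k / (2 ^ (d - 1)) ^ N - r k| < ε / (∑ k ∈ Ioc n d, w k + 1) :=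
          fun k hk => hr k hk _ (div_pos hε hW)
        choose! N0 hN0 using h1
        refine ⟨(Ioc n d).sup N0, fun a ha ha' N hN => ?_⟩
        rw [hs0, ← Finset.sum_sub_distrib]
        calc |∑ k ∈ Ioc n d, ((GG d)^[N] a k / (2 ^ (d - 1)) ^ N * w k - r k * w k)|
            ≤ ∑ k ∈ Ioc n d, |(GG d)^[N] a k / (2 ^ (d - 1)) ^ N * w k - r k * w k| :=
              Finset.abs_sum_le_sum_abs _ _
          _ ≤ ∑ k ∈ Ioc n d, ε / (∑ k ∈ Ioc n d, w k + 1) * w k := by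
              refine Finset.sum_le_sum fun k hk => ?_
              rw [← sub_mul, abs_mul, abs_of_nonneg (hw0 k)]
              exact mul_le_mul_of_nonneg_right
                (hN0 k hk a ha ha' N (le_trans (Finset.le_sup hk) hN)).le (hw0 k)
          _ = ε / (∑ k ∈ Ioc n d, w k + 1) * ∑ k ∈ Ioc n d, w k := by rw [Finset.mul_sum]
          _ ≤ ε := by
              rw [div_mul_eq_mul_div, div_le_iff₀ hW]
              exact mul_le_mul_of_nonneg_left (by linarith) hε.le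
      refine ⟨L, fun ε hε => ?_⟩
      obtain ⟨M, hM⟩ := hS (ε / 4) (by positivity)
      obtain ⟨C, hC0, hC⟩ := crude d M
      obtain ⟨J, hJ⟩ : ∃ J : ℕ, ((1 : ℝ) / 2) ^ J * (C / (2 ^ (d - 1)) ^ M + |L|) < ε / 4 := by
        have hD : 0 < C / (2 ^ (d - 1)) ^ M + |L| + 1 := by positivity
        obtain ⟨J, hJ⟩ := exists_pow_lt_of_lt_one (div_pos (by positivity : 0 < ε / 4) hD)
          (by norm_num : (1 : ℝ) / 2 < 1)
        refine ⟨J, ?_⟩
        rw [lt_div_iff₀ hD] at hJ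
        refine lt_of_le_of_lt ?_ hJ
        exact mul_le_mul_of_nonneg_left (by linarith) (by positivity)
      refine ⟨M + J, fun a ha ha' N hN => ?_⟩
      obtain ⟨j, rfl⟩ : ∃ j, N = M + j := ⟨N - M, by omega⟩
      have hj : J ≤ j := by omega
      have hrec : ∀ N, (GG d)^[N + 1] a n / (2 ^ (d - 1)) ^ (N + 1)
          = w n * ((GG d)^[N] a n / (2 ^ (d - 1)) ^ N)
            + ∑ k ∈ Ioc n d, (GG d)^[N] a k / (2 ^ (d - 1)) ^ N * w k := by
        intro N
        rw [Function.iterate_succ_apply', GG_eq d _ n hnd.le, hw]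
        simp only
        rw [add_div, Finset.sum_div]
        congr 1
        · rw [pow_succ]; field_simp
        · refine Finset.sum_congr rfl fun k _ => ?_
          rw [pow_succ]; field_simp
      have key := recl (fun N => (GG d)^[N] a n / (2 ^ (d - 1)) ^ N)
        (fun N => ∑ k ∈ Ioc n d, (GG d)^[N] a k / (2 ^ (d - 1)) ^ N * w k)
        (w n) L s0 (ε / 4) M (hw0 n) hθ hL (fun N hN => hM a ha ha' N hN) hrec j
      have hxM : |(GG d)^[M] a n / (2 ^ (d - 1)) ^ M - L| ≤ C / (2 ^ (d - 1)) ^ M + |L| := by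
        refine le_trans (abs_sub _ _) (add_le_add ?_ le_rfl)
        rw [abs_div, abs_of_pos (by positivity : (0 : ℝ) < (2 ^ (d - 1)) ^ M)]
        exact div_le_div_of_nonneg_right (hC a ha' n hnd.le) (by positivity)
      have hpw : ((1 : ℝ) / 2) ^ j ≤ (1 / 2) ^ J :=
        pow_le_pow_of_le_one (by norm_num) (by norm_num) hj
      have h4 : ((1 : ℝ) / 2) ^ j * |(GG d)^[M] a n / (2 ^ (d - 1)) ^ M - L|
          ≤ (1 / 2) ^ J * (C / (2 ^ (d - 1)) ^ M + |L|) :=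
        mul_le_mul hpw hxM (abs_nonneg _) (by positivity)
      linarith

end PkgUNI

open PkgUNI in
theorem pUNI : S_UNI := by
  intro d hd
  have h : ∀ n, n ≤ d → ∃ r : ℝ, ∀ ε : ℝ, 0 < ε → ∃ N₀ : ℕ,
      ∀ a : ℕ → ℝ, a d = 1 → (∀ n ≤ d, 0 ≤ a n ∧ a n ≤ 2 ^ d) → ∀ N ≥ N₀,
      |(GG d)^[N] a n / (2 ^ (d - 1)) ^ N - r| < ε := fun n hn =>
    conv d hd (d - n) n (by omega)
  choose! ρ hρ using h
  refine ⟨ρ, fun ε hε => ?_⟩
  have h1 : ∀ n, n ≤ d → ∃ N₀ : ℕ,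
      ∀ a : ℕ → ℝ, a d = 1 → (∀ n ≤ d, 0 ≤ a n ∧ a n ≤ 2 ^ d) → ∀ N ≥ N₀,
      |(GG d)^[N] a n / (2 ^ (d - 1)) ^ N - ρ n| < ε := fun n hn => hρ n hn ε hε
  choose! N0 hN0 using h1
  refine ⟨(range (d + 1)).sup N0, fun a ha ha' N hN n hn => ?_⟩
  exact hN0 n hn a ha ha' N
    (le_trans (Finset.le_sup (Finset.mem_range.mpr (by omega))) hN)

end Pool.Agent.T2H83.GR
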