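import Pool.Agent.T2H83.GR.RND
import Pool.Agent.T2H83.GR.PRS
import Pool.Agent.T2H83.GR.GEV
import Pool.Agent.T2H83.GR.GAM
import Pool.Agent.T2H83.GR.LNK
import Pool.Agent.T2H83.GR.CFN
import Pool.Agent.T2H83.GR.NUM
import Pool.Agent.T2H83.GR.INV
import Pool.Agent.T2H83.GR.UNI
import Pool.Agent.T2H83.GR.LOW
import Pool.Agent.T2H83.GR.ITE
import Pool.Agent.T2H83.GR.FRN
import Pool.Agent.T2H83.GR.POS
import Pool.Agent.T2H83.GR.FIN
import Pool.Agent.T2H83.GR.DLK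
import Pool.Agent.T2H83.GR.NUMA
import Pool.Agent.T2H83.GR.NUMB
import Pool.Agent.T2H83.GR.NUMC

set_option autoImplicit false

/-!
# Project GR: assembly
-/

namespace Pool.Agent.T2H83.GR

open Finset Polynomial Pool.Agent.T2H44.RS

theorem hFRN : S_FRN := pFRN pRND pPRS

theorem hITE : S_ITE := pITE (pGAM pGEV)

theorem hPOS : S_POS := pPOS pINV pUNI pLOW hITE

theorem hFIN : S_FIN := pFIN hPOS hFRN pPRS

/-- the face polynomial after one round, evaluated at a real number -/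
theorem face_law {d : ℕ} {Δ Δ' : Cx} (h : IsPure d Δ) (hR : Round Δ Δ') (x : ℝ) (hx : 0 ≤ x) :
    ∑ σ ∈ Δ', x ^ σ.card =
      (∑ σ ∈ Δ, (x + √(x + x ^ 2)) ^ σ.card + ∑ σ ∈ Δ, (x - √(x + x ^ 2)) ^ σ.card) / 2 := by
  have h1 := congrArg (Polynomial.eval x) (pRND d Δ Δ' h hR)
  unfold fp at h1
  rw [Polynomial.eval_finsetSum, Polynomial.eval_finsetSum] at h1
  have h2 : ∑ σ ∈ Δ', x ^ σ.card = ∑ σ ∈ Δ', Polynomial.eval x ((X : ℝ[X]) ^ σ.card) :=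
    Finset.sum_congr rfl fun σ _ => by rw [Polynomial.eval_pow, Polynomial.eval_X]
  rw [h2, h1, ← Finset.sum_add_distrib, Finset.sum_div]
  exact Finset.sum_congr rfl fun σ _ => pGEV x hx σ.card

/-- the change of the `γ`-vector in `N` rounds -/
theorem gamma_law {d N : ℕ} {Δ Δ' : Cx} {γ γ' : ℕ → ℤ} (h : IsPure d Δ) (hR : Rounds N Δ Δ')
    (hγ : IsGamma d Δ γ) (hγ' : IsGamma d Δ' γ') :
    ∀ i ≤ d / 2, (γ' i : ℝ) = (Mat d)^[N] (fun i => (γ i : ℝ)) i := by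
  have h1 : ∑ n ∈ range (d + 1), C ((nf n Δ : ℕ) : ℝ) * X ^ n = Phi d fun i => (γ i : ℝ) :=
    gamma_real hγ
  have h2 := hITE d (fun k => (nf k Δ : ℝ)) (fun i => (γ i : ℝ)) h1 N
  have h3 : ∑ n ∈ range (d + 1), C ((nf n Δ' : ℕ) : ℝ) * X ^ n =
      Phi d ((Mat d)^[N] fun i => (γ i : ℝ)) := by
    rw [← h2]
    refine Finset.sum_congr rfl fun n hn => ?_
    rw [hFRN d Δ Δ' N h hR n (Nat.lt_succ_iff.1 (Finset.mem_range.1 hn))]
  have h4 : ∑ n ∈ range (d + 1), C ((nf n Δ' : ℕ) : ℝ) * X ^ n = Phi d fun i => (γ' i : ℝ) :=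
    gamma_real hγ'
  obtain ⟨c, hc⟩ := pINV d
  intro i hi
  rw [hc (fun n => (nf n Δ' : ℝ)) _ h3 i hi, ← hc (fun n => (nf n Δ' : ℝ)) _ h4 i hi]

/-- the face numbers in terms of the `γ`-vector -/
theorem nf_gamma {d : ℕ} {Δ : Cx} {γ : ℕ → ℤ} (hγ : IsGamma d Δ γ) (n : ℕ) (hn : n ≤ d) :
    ∑ i ∈ range (d / 2 + 1), (γ i : ℝ) * (cfn d i n : ℝ) = nf n Δ := by
  have h1 : ∑ n ∈ range (d + 1), C ((nf n Δ : ℕ) : ℝ) * X ^ n = Phi d fun i => (γ i : ℝ) :=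
    gamma_real hγ
  rw [← pCFN d (fun i => (γ i : ℝ)) n, ← h1, Polynomial.finsetSum_coeff]
  simp only [Polynomial.coeff_C_mul, Polynomial.coeff_X_pow]
  rw [Finset.sum_eq_single_of_mem n (Finset.mem_range.2 (Nat.lt_succ_of_le hn))]
  · simp
  · intro m _ hm
    simp [Ne.symm hm]

/-- `Mat` preserves positivity -/
theorem mat_pos {d : ℕ} {γ : ℕ → ℝ} (h : ∀ i ≤ d / 2, 0 < γ i) : ∀ j ≤ d / 2, 0 < Mat d γ j := by
  intro j hj
  unfold Mat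
  refine Finset.sum_pos' (fun i hi => ?_) ⟨0, Finset.mem_range.2 (by omega), ?_⟩
  · split_ifs
    · have := h i (Nat.lt_succ_iff.1 (Finset.mem_range.1 hi))
      positivity
    · exact le_refl _
  · rw [if_pos (Nat.zero_le _)]
    have h1 := h 0 (Nat.zero_le _)
    have h2 : 0 < (d - 0).choose (2 * j - 0) := Nat.choose_pos (by omega)
    have h3 : (0 : ℝ) < ((d - 0).choose (2 * j - 0) : ℝ) := by exact_mod_cast h2
    positivity

theorem mat_iter_pos {d : ℕ} {γ : ℕ → ℝ} (n : ℕ) (h : ∀ i ≤ d / 2, 0 < γ i) :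
    ∀ j ≤ d / 2, 0 < (Mat d)^[n] γ j := by
  induction n with
  | zero => exact h
  | succ n ih =>
    rw [Function.iterate_succ_apply']
    exact mat_pos ih

theorem iter_pos_of_le {d : ℕ} {γ : ℕ → ℝ} {m N : ℕ} (hmN : m ≤ N)
    (h : ∀ i ≤ d / 2, 0 < (Mat d)^[m] γ i) : ∀ j ≤ d / 2, 0 < (Mat d)^[N] γ j := by
  obtain ⟨k, rfl⟩ := Nat.exists_eq_add_of_le hmN
  have h1 := mat_iter_pos k h
  rwa [← Function.iterate_add_apply, Nat.add_comm k m] at h1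

/-- the inequalities of package `LNK` in terms of the `γ`-vector -/
theorem flag_ineq {d : ℕ} {Δ : Cx} {γ : ℕ → ℤ} (h : IsPure d Δ) (hE : IsEul d Δ) (hF : IsFlag Δ)
    (hγ : IsGamma d Δ γ) : ∀ n < d, 2 * ((d : ℝ) - (n : ℝ)) *
      ∑ i ∈ range (d / 2 + 1), (γ i : ℝ) * (cfn d i n : ℝ) ≤
      ((n : ℝ) + 1) * ∑ i ∈ range (d / 2 + 1), (γ i : ℝ) * (cfn d i (n + 1) : ℝ) := by
  intro n hn
  rw [nf_gamma hγ n hn.le, nf_gamma hγ (n + 1) hn]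
  have h1 : ((2 * (d - n) * nf n Δ : ℕ) : ℝ) ≤ (((n + 1) * nf (n + 1) Δ : ℕ) : ℝ) :=
    Nat.cast_le.2 (pLNK d Δ h hE hF n hn)
  rw [Nat.cast_mul, Nat.cast_mul, Nat.cast_sub hn.le, Nat.cast_mul, Nat.cast_add] at h1
  simpa using h1

/-- the summed inequalities of Davis and Okun in terms of the `γ`-vector -/
theorem davis_ineq {d : ℕ} {Δ : Cx} {γ : ℕ → ℤ} (h4 : 4 ≤ d) (h : IsPure d Δ)
    (hD : DavisOkun d Δ) (hγ : IsGamma d Δ γ) :
    5 * (((d - 3 : ℕ) : ℝ)) * ∑ i ∈ range (d / 2 + 1), (γ i : ℝ) * (cfn d i (d - 3) : ℝ) ≤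
      (((d - 2).choose 2 : ℕ) : ℝ) * ∑ i ∈ range (d / 2 + 1), (γ i : ℝ) * (cfn d i (d - 2) : ℝ) +
      16 * ∑ i ∈ range (d / 2 + 1), (γ i : ℝ) * (cfn d i (d - 4) : ℝ) := by
  rw [nf_gamma hγ (d - 3) (by omega), nf_gamma hγ (d - 2) (by omega),
    nf_gamma hγ (d - 4) (by omega)]
  have h1 : ((5 * (d - 3) * nf (d - 3) Δ : ℕ) : ℝ) ≤
      (((d - 2).choose 2 * nf (d - 2) Δ + 16 * nf (d - 4) Δ : ℕ) : ℝ) :=
    Nat.cast_le.2 (davisOkun_sum h.down h4 hD)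
  rw [Nat.cast_add, Nat.cast_mul, Nat.cast_mul, Nat.cast_mul, Nat.cast_mul] at h1
  simpa using h1

/-- positivity, reduced to the numerical statement -/
theorem pos_of_iter {d m N : ℕ} {Δ Δ' : Cx} {γ' : ℕ → ℤ} (h : IsPure d Δ) (hE : IsEul d Δ)
    (hR : Rounds N Δ Δ') (hγ' : IsGamma d Δ' γ') (hm : m ≤ N)
    (hnum : ∀ γ : ℕ → ℤ, IsGamma d Δ γ → (γ 0 : ℝ) = 1 →
      ∀ i ≤ d / 2, 0 < (Mat d)^[m] (fun i => (γ i : ℝ)) i) : ∀ i ≤ d / 2, 0 < γ' i := by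
  obtain ⟨γ, hγ⟩ := exists_gamma h hE
  have h0 : (γ 0 : ℝ) = 1 := by rw [PkgFIN.gamma_zero h hγ, Int.cast_one]
  intro i hi
  have h1 := iter_pos_of_le hm (hnum γ hγ h0) i hi
  rw [← gamma_law h hR hγ hγ' i hi] at h1
  exact_mod_cast h1

/-- one or two rounds, without further hypotheses -/
theorem pos_two {d N : ℕ} {Δ Δ' : Cx} {γ' : ℕ → ℤ} (h : IsPure d Δ) (hE : IsEul d Δ)
    (hF : IsFlag Δ) (hR : Rounds N Δ Δ') (hγ' : IsGamma d Δ' γ')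
    (hN : (d ≤ 5 ∧ 1 ≤ N) ∨ (d ≤ 13 ∧ 2 ≤ N)) : ∀ i ≤ d / 2, 0 < γ' i := by
  rcases Nat.lt_or_ge d 2 with hd | hd
  · intro i hi
    have hi0 : i = 0 := by omega
    have hP' : IsPure d Δ' := (pPRS.2.1 d Δ Δ' N h hR).1
    rw [hi0, PkgFIN.gamma_zero hP' hγ']
    exact one_pos
  rcases hN with ⟨hd5, hN⟩ | ⟨hd13, hN⟩
  · refine pos_of_iter (m := 1) h hE hR hγ' hN fun γ hγ h0 i hi => ?_
    exact (pNUM d hd (by omega) _ h0 (flag_ineq h hE hF hγ) i hi).1 hd5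
  · refine pos_of_iter (m := 2) h hE hR hγ' hN fun γ hγ h0 i hi => ?_
    exact (pNUM d hd hd13 _ h0 (flag_ineq h hE hF hγ) i hi).2

/-- one or two rounds, under the inequality of Davis and Okun for the links of rank four -/
theorem pos_davis {d N : ℕ} {Δ Δ' : Cx} {γ' : ℕ → ℤ} (h : IsPure d Δ) (hE : IsEul d Δ)
    (hF : IsFlag Δ) (hD : DavisOkun d Δ) (hR : Rounds N Δ Δ') (hγ' : IsGamma d Δ' γ')
    (hN : (d ≤ 9 ∧ 1 ≤ N) ∨ (d ≤ 19 ∧ 2 ≤ N)) : ∀ i ≤ d / 2, 0 < γ' i := by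
  rcases hN with ⟨hd9, hN⟩ | ⟨hd19, hN⟩
  · rcases Nat.lt_or_ge d 6 with hd | hd
    · exact pos_two h hE hF hR hγ' (Or.inl ⟨by omega, hN⟩)
    · refine pos_of_iter (m := 1) h hE hR hγ' hN fun γ hγ h0 => ?_
      have hL := flag_ineq h hE hF hγ
      have hD' := davis_ineq (by omega) h hD hγ
      clear hγ hγ' hR hF hE h hD
      interval_cases d
      · exact PkgNUMA.main6 _ h0 hL hD'
      · exact PkgNUMA.main7 _ h0 hL hD'
      · exact PkgNUMA.main8 _ h0 hL hD'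
      · exact PkgNUMA.main9 _ h0 hL hD'
  · rcases Nat.lt_or_ge d 14 with hd | hd
    · exact pos_two h hE hF hR hγ' (Or.inr ⟨by omega, hN⟩)
    · refine pos_of_iter (m := 2) h hE hR hγ' hN fun γ hγ h0 => ?_
      have hL := flag_ineq h hE hF hγ
      have hD' := davis_ineq (by omega) h hD hγ
      clear hγ hγ' hR hF hE h hD
      interval_cases d
      · exact PkgNUMB.main14 _ h0 hL hD'
      · exact PkgNUMB.main15 _ h0 hL hD'
      · exact PkgNUMB.main16 _ h0 hL hD'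
      · exact PkgNUMB.main17 _ h0 hL hD'
      · exact PkgNUMC.main18 _ h0 hL hD'
      · exact PkgNUMC.main19 _ h0 hL hD'

end Pool.Agent.T2H83.GR
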