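import Pool.Agent.T2H83.GR.Stm2
import Pool.Agent.T2H83.GR.Fin

set_option autoImplicit false

/-!
# Project GR2: assembly
-/

namespace Pool.Agent.T2H83.GR

open Finset Pool.Agent.T2H44.RS

theorem nf_pos {d : ℕ} {Δ : Cx} (h : IsPure d Δ) {n : ℕ} (hn : n ≤ d) : 0 < nf n Δ := by
  obtain ⟨τ, hτ, -, hc⟩ := h.facet ∅ h.empty_mem
  obtain ⟨ρ, hρ, hρc⟩ := Finset.exists_subset_card_eq (s := τ) (n := n) (by omega)
  unfold nf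
  exact Finset.card_pos.2 ⟨ρ, Finset.mem_filter.2 ⟨h.down τ hτ ρ hρ, hρc⟩⟩

theorem two_mul_le {d j : ℕ} (h : 2 * j ^ 2 + j ≤ d + 1) : 2 * j ≤ d := by
  rcases Nat.eq_zero_or_pos j with rfl | hj
  · omega
  · nlinarith

/-- the first inequalities, over the real numbers -/
theorem first_real (hHOM : S_HOM) (hREO : S_REO) (hPSJ : S_PSJ) {d j : ℕ} {Δ Δ' : Cx}
    {γ' : ℕ → ℤ} (h : IsPure d Δ) (hE : IsEul d Δ) (hF : IsFlag Δ) (hR : Round Δ Δ')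
    (hγ' : IsGamma d Δ' γ') (hj : 2 * j ^ 2 + j ≤ d + 1) :
    ((d : ℝ) + 1 - 2 * j ^ 2 - j) * (nf (2 * j) Δ : ℝ) ≤ ((d : ℝ) + 1 - 2 * j) * (γ' j : ℝ) := by
  have h2 := two_mul_le hj
  obtain ⟨γ, hγ⟩ := exists_gamma h hE
  have h1 : ∑ n ∈ range (d + 1), Polynomial.C ((nf n Δ : ℕ) : ℝ) * Polynomial.X ^ n =
      Phi d fun i => (γ i : ℝ) := gamma_real hγ
  have hR1 : Rounds 1 Δ Δ' := ⟨Δ, rfl, hR⟩
  have h3 := gamma_law h hR1 hγ hγ' j (by omega)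
  rw [Function.iterate_one] at h3
  rw [h3, hHOM d (fun n => (nf n Δ : ℝ)) _ h1 j h2, hREO d j h2]
  refine hPSJ d j (fun n => (nf n Δ : ℝ)) hj h2 (fun n _ => Nat.cast_nonneg _) fun n hn => ?_
  have h4 : ((2 * (d - n) * nf n Δ : ℕ) : ℝ) ≤ (((n + 1) * nf (n + 1) Δ : ℕ) : ℝ) :=
    Nat.cast_le.2 (pLNK d Δ h hE hF n hn)
  rw [Nat.cast_mul, Nat.cast_mul, Nat.cast_sub hn.le, Nat.cast_mul, Nat.cast_add] at h4
  simpa using h4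

/-- the first inequalities -/
theorem first_int (hHOM : S_HOM) (hREO : S_REO) (hPSJ : S_PSJ) {d j : ℕ} {Δ Δ' : Cx}
    {γ' : ℕ → ℤ} (h : IsPure d Δ) (hE : IsEul d Δ) (hF : IsFlag Δ) (hR : Round Δ Δ')
    (hγ' : IsGamma d Δ' γ') (hj : 2 * j ^ 2 + j ≤ d + 1) :
    ((d : ℤ) + 1 - 2 * j ^ 2 - j) * (nf (2 * j) Δ : ℤ) ≤ ((d : ℤ) + 1 - 2 * j) * γ' j := by
  have h1 := first_real hHOM hREO hPSJ h hE hF hR hγ' hj
  exact_mod_cast h1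

/-- positivity -/
theorem first_pos (hHOM : S_HOM) (hREO : S_REO) (hPSJ : S_PSJ) {d j N : ℕ} {Δ Δ' : Cx}
    {γ' : ℕ → ℤ} (h : IsPure d Δ) (hE : IsEul d Δ) (hF : IsFlag Δ) (hN : 1 ≤ N)
    (hR : Rounds N Δ Δ') (hγ' : IsGamma d Δ' γ') (hj : 2 * j ^ 2 + j ≤ d) : 0 < γ' j := by
  obtain ⟨M, rfl⟩ := Nat.exists_eq_add_of_le hN
  rw [Nat.add_comm] at hR
  obtain ⟨Δ₁, hR₁, hR₂⟩ := hR
  obtain ⟨hP₁, hE₁, hF₁⟩ := pPRS.2.1 d Δ Δ₁ M h hR₁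
  have h1 := first_int hHOM hREO hPSJ hP₁ (hE₁ hE) (hF₁ hF) hR₂ hγ' (j := j) (by omega)
  have h2 : 2 * j ≤ d := two_mul_le (by omega)
  have h3 : (0 : ℤ) < (nf (2 * j) Δ₁ : ℤ) := by exact_mod_cast nf_pos hP₁ h2
  have h4 : (0 : ℤ) < (d : ℤ) + 1 - 2 * j ^ 2 - j := by
    have : (2 * (j : ℤ) ^ 2 + j) ≤ d := by exact_mod_cast hj
    linarith
  have h5 : (0 : ℤ) < (d : ℤ) + 1 - 2 * j := by
    have : (2 * (j : ℤ)) ≤ d := by exact_mod_cast h2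
    linarith
  have h6 := mul_pos h4 h3
  exact (mul_pos_iff_of_pos_left h5).1 (lt_of_lt_of_le h6 h1)

end Pool.Agent.T2H83.GR
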