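import Pool.Agent.T2H83.GR.Stm

set_option autoImplicit false
set_option linter.unusedSimpArgs false
set_option linter.unusedVariables false

/-!
# Numerical inequalities for three rounds (generated by a computer program)
-/

namespace Pool.Agent.T2H83.GR

open Finset

namespace PkgNT14

theorem c14_0 (γ : ℕ → ℝ) : ∑ i ∈ range (14 / 2 + 1), γ i * (cfn 14 i 0 : ℝ) =
    (1) * γ 0 + (0) * γ 1 + (0) * γ 2 + (0) * γ 3 + (0) * γ 4 + (0) * γ 5 + (0) * γ 6 + (0) * γ 7 := by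
  have h : ((14 / 2 + 1 : ℕ)) = 8 := rfl
  rw [h]
  simp only [sum_range_succ, sum_range_zero, show cfn 14 0 0 = 1 from by decide +kernel, show cfn 14 1 0 = 0 from by decide +kernel, show cfn 14 2 0 = 0 from by decide +kernel, show cfn 14 3 0 = 0 from by decide +kernel, show cfn 14 4 0 = 0 from by decide +kernel, show cfn 14 5 0 = 0 from by decide +kernel, show cfn 14 6 0 = 0 from by decide +kernel, show cfn 14 7 0 = 0 from by decide +kernel, Nat.cast_ofNat, Nat.cast_one, Nat.cast_zero]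
  ring

theorem c14_1 (γ : ℕ → ℝ) : ∑ i ∈ range (14 / 2 + 1), γ i * (cfn 14 i 1 : ℝ) =
    (28) * γ 0 + (1) * γ 1 + (0) * γ 2 + (0) * γ 3 + (0) * γ 4 + (0) * γ 5 + (0) * γ 6
       + (0) * γ 7 := by
  have h : ((14 / 2 + 1 : ℕ)) = 8 := rfl
  rw [h]
  simp only [sum_range_succ, sum_range_zero, show cfn 14 0 1 = 28 from by decide +kernel, show cfn 14 1 1 = 1 from by decide +kernel, show cfn 14 2 1 = 0 from by decide +kernel, show cfn 14 3 1 = 0 from by decide +kernel, show cfn 14 4 1 = 0 from by decide +kernel, show cfn 14 5 1 = 0 from by decide +kernel, show cfn 14 6 1 = 0 from by decide +kernel, show cfn 14 7 1 = 0 from by decide +kernel, Nat.cast_ofNat, Nat.cast_one, Nat.cast_zero]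
  ring

theorem c14_2 (γ : ℕ → ℝ) : ∑ i ∈ range (14 / 2 + 1), γ i * (cfn 14 i 2 : ℝ) =
    (364) * γ 0 + (25) * γ 1 + (1) * γ 2 + (0) * γ 3 + (0) * γ 4 + (0) * γ 5 + (0) * γ 6
       + (0) * γ 7 := by
  have h : ((14 / 2 + 1 : ℕ)) = 8 := rfl
  rw [h]
  simp only [sum_range_succ, sum_range_zero, show cfn 14 0 2 = 364 from by decide +kernel, show cfn 14 1 2 = 25 from by decide +kernel, show cfn 14 2 2 = 1 from by decide +kernel, show cfn 14 3 2 = 0 from by decide +kernel, show cfn 14 4 2 = 0 from by decide +kernel, show cfn 14 5 2 = 0 from by decide +kernel, show cfn 14 6 2 = 0 from by decide +kernel, show cfn 14 7 2 = 0 from by decide +kernel, Nat.cast_ofNat, Nat.cast_one, Nat.cast_zero]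
  ring

theorem c14_3 (γ : ℕ → ℝ) : ∑ i ∈ range (14 / 2 + 1), γ i * (cfn 14 i 3 : ℝ) =
    (2912) * γ 0 + (288) * γ 1 + (22) * γ 2 + (1) * γ 3 + (0) * γ 4 + (0) * γ 5 + (0) * γ 6
       + (0) * γ 7 := by
  have h : ((14 / 2 + 1 : ℕ)) = 8 := rfl
  rw [h]
  simp only [sum_range_succ, sum_range_zero, show cfn 14 0 3 = 2912 from by decide +kernel, show cfn 14 1 3 = 288 from by decide +kernel, show cfn 14 2 3 = 22 from by decide +kernel, show cfn 14 3 3 = 1 from by decide +kernel, show cfn 14 4 3 = 0 from by decide +kernel, show cfn 14 5 3 = 0 from by decide +kernel, show cfn 14 6 3 = 0 from by decide +kernel, show cfn 14 7 3 = 0 from by decide +kernel, Nat.cast_ofNat, Nat.cast_one, Nat.cast_zero]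
  ring

theorem c14_4 (γ : ℕ → ℝ) : ∑ i ∈ range (14 / 2 + 1), γ i * (cfn 14 i 4 : ℝ) =
    (16016) * γ 0 + (2024) * γ 1 + (221) * γ 2 + (19) * γ 3 + (1) * γ 4 + (0) * γ 5 + (0) * γ 6
       + (0) * γ 7 := by
  have h : ((14 / 2 + 1 : ℕ)) = 8 := rfl
  rw [h]
  simp only [sum_range_succ, sum_range_zero, show cfn 14 0 4 = 16016 from by decide +kernel, show cfn 14 1 4 = 2024 from by decide +kernel, show cfn 14 2 4 = 221 from by decide +kernel, show cfn 14 3 4 = 19 from by decide +kernel, show cfn 14 4 4 = 1 from by decide +kernel, show cfn 14 5 4 = 0 from by decide +kernel, show cfn 14 6 4 = 0 from by decide +kernel, show cfn 14 7 4 = 0 from by decide +kernel, Nat.cast_ofNat, Nat.cast_one, Nat.cast_zero]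
  ring

theorem c14_5 (γ : ℕ → ℝ) : ∑ i ∈ range (14 / 2 + 1), γ i * (cfn 14 i 5 : ℝ) =
    (64064) * γ 0 + (9680) * γ 1 + (1340) * γ 2 + (163) * γ 3 + (16) * γ 4 + (1) * γ 5
       + (0) * γ 6 + (0) * γ 7 := by
  have h : ((14 / 2 + 1 : ℕ)) = 8 := rfl
  rw [h]
  simp only [sum_range_succ, sum_range_zero, show cfn 14 0 5 = 64064 from by decide +kernel, show cfn 14 1 5 = 9680 from by decide +kernel, show cfn 14 2 5 = 1340 from by decide +kernel, show cfn 14 3 5 = 163 from by decide +kernel, show cfn 14 4 5 = 16 from by decide +kernel, show cfn 14 5 5 = 1 from by decide +kernel, show cfn 14 6 5 = 0 from by decide +kernel, show cfn 14 7 5 = 0 from by decide +kernel, Nat.cast_ofNat, Nat.cast_one, Nat.cast_zero]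
  ring

theorem c14_6 (γ : ℕ → ℝ) : ∑ i ∈ range (14 / 2 + 1), γ i * (cfn 14 i 6 : ℝ) =
    (192192) * γ 0 + (33264) * γ 1 + (5460) * γ 2 + (833) * γ 3 + (114) * γ 4 + (13) * γ 5
       + (1) * γ 6 + (0) * γ 7 := by
  have h : ((14 / 2 + 1 : ℕ)) = 8 := rfl
  rw [h]
  simp only [sum_range_succ, sum_range_zero, show cfn 14 0 6 = 192192 from by decide +kernel, show cfn 14 1 6 = 33264 from by decide +kernel, show cfn 14 2 6 = 5460 from by decide +kernel, show cfn 14 3 6 = 833 from by decide +kernel, show cfn 14 4 6 = 114 from by decide +kernel, show cfn 14 5 6 = 13 from by decide +kernel, show cfn 14 6 6 = 1 from by decide +kernel, show cfn 14 7 6 = 0 from by decide +kernel, Nat.cast_ofNat, Nat.cast_one, Nat.cast_zero]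
  ring

theorem c14_7 (γ : ℕ → ℝ) : ∑ i ∈ range (14 / 2 + 1), γ i * (cfn 14 i 7 : ℝ) =
    (439296) * γ 0 + (84480) * γ 1 + (15744) * γ 2 + (2816) * γ 3 + (476) * γ 4 + (74) * γ 5
       + (10) * γ 6 + (1) * γ 7 := by
  have h : ((14 / 2 + 1 : ℕ)) = 8 := rfl
  rw [h]
  simp only [sum_range_succ, sum_range_zero, show cfn 14 0 7 = 439296 from by decide +kernel, show cfn 14 1 7 = 84480 from by decide +kernel, show cfn 14 2 7 = 15744 from by decide +kernel, show cfn 14 3 7 = 2816 from by decide +kernel, show cfn 14 4 7 = 476 from by decide +kernel, show cfn 14 5 7 = 74 from by decide +kernel, show cfn 14 6 7 = 10 from by decide +kernel, show cfn 14 7 7 = 1 from by decide +kernel, Nat.cast_ofNat, Nat.cast_one, Nat.cast_zero]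
  ring

theorem c14_8 (γ : ℕ → ℝ) : ∑ i ∈ range (14 / 2 + 1), γ i * (cfn 14 i 8 : ℝ) =
    (768768) * γ 0 + (160512) * γ 1 + (32928) * γ 2 + (6608) * γ 3 + (1289) * γ 4 + (242) * γ 5
       + (43) * γ 6 + (7) * γ 7 := by
  have h : ((14 / 2 + 1 : ℕ)) = 8 := rfl
  rw [h]
  simp only [sum_range_succ, sum_range_zero, show cfn 14 0 8 = 768768 from by decide +kernel, show cfn 14 1 8 = 160512 from by decide +kernel, show cfn 14 2 8 = 32928 from by decide +kernel, show cfn 14 3 8 = 6608 from by decide +kernel, show cfn 14 4 8 = 1289 from by decide +kernel, show cfn 14 5 8 = 242 from by decide +kernel, show cfn 14 6 8 = 43 from by decide +kernel, show cfn 14 7 8 = 7 from by decide +kernel, Nat.cast_ofNat, Nat.cast_one, Nat.cast_zero]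
  ring

theorem c14_9 (γ : ℕ → ℝ) : ∑ i ∈ range (14 / 2 + 1), γ i * (cfn 14 i 9 : ℝ) =
    (1025024) * γ 0 + (228096) * γ 1 + (50304) * γ 2 + (10976) * γ 3 + (2364) * γ 4 + (501) * γ 5
       + (104) * γ 6 + (21) * γ 7 := by
  have h : ((14 / 2 + 1 : ℕ)) = 8 := rfl
  rw [h]
  simp only [sum_range_succ, sum_range_zero, show cfn 14 0 9 = 1025024 from by decide +kernel, show cfn 14 1 9 = 228096 from by decide +kernel, show cfn 14 2 9 = 50304 from by decide +kernel, show cfn 14 3 9 = 10976 from by decide +kernel, show cfn 14 4 9 = 2364 from by decide +kernel, show cfn 14 5 9 = 501 from by decide +kernel, show cfn 14 6 9 = 104 from by decide +kernel, show cfn 14 7 9 = 21 from by decide +kernel, Nat.cast_ofNat, Nat.cast_one, Nat.cast_zero]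
  ring

theorem c14_10 (γ : ℕ → ℝ) : ∑ i ∈ range (14 / 2 + 1), γ i * (cfn 14 i 10 : ℝ) =
    (1025024) * γ 0 + (239360) * γ 1 + (55680) * γ 2 + (12896) * γ 3 + (2972) * γ 4 + (681) * γ 5
       + (155) * γ 6 + (35) * γ 7 := by
  have h : ((14 / 2 + 1 : ℕ)) = 8 := rfl
  rw [h]
  simp only [sum_range_succ, sum_range_zero, show cfn 14 0 10 = 1025024 from by decide +kernel, show cfn 14 1 10 = 239360 from by decide +kernel, show cfn 14 2 10 = 55680 from by decide +kernel, show cfn 14 3 10 = 12896 from by decide +kernel, show cfn 14 4 10 = 2972 from by decide +kernel, show cfn 14 5 10 = 681 from by decide +kernel, show cfn 14 6 10 = 155 from by decide +kernel, show cfn 14 7 10 = 35 from by decide +kernel, Nat.cast_ofNat, Nat.cast_one, Nat.cast_zero]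
  ring

theorem q14_0 (γ : ℕ → ℝ) (h0 : γ 0 = 1)
    (h : ∀ n < 14, 2 * (((14 : ℕ) : ℝ) - ((n : ℕ) : ℝ)) * ∑ i ∈ range (14 / 2 + 1), γ i * (cfn 14 i n : ℝ) ≤
      ((n : ℝ) + 1) * ∑ i ∈ range (14 / 2 + 1), γ i * (cfn 14 i (n + 1) : ℝ)) :
    0 ≤ (0) * γ 0 + (1) * γ 1 + (0) * γ 2 + (0) * γ 3 + (0) * γ 4 + (0) * γ 5 + (0) * γ 6 + (0) * γ 7 := by
  have h1 := h 0 (by norm_num)
  rw [show 0 + 1 = 1 from rfl, c14_0, c14_1] at h1
  norm_num [h0] at h1 ⊢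
  linarith

theorem q14_1 (γ : ℕ → ℝ) (h0 : γ 0 = 1)
    (h : ∀ n < 14, 2 * (((14 : ℕ) : ℝ) - ((n : ℕ) : ℝ)) * ∑ i ∈ range (14 / 2 + 1), γ i * (cfn 14 i n : ℝ) ≤
      ((n : ℝ) + 1) * ∑ i ∈ range (14 / 2 + 1), γ i * (cfn 14 i (n + 1) : ℝ)) :
    0 ≤ (0) * γ 0 + (24) * γ 1 + (2) * γ 2 + (0) * γ 3 + (0) * γ 4 + (0) * γ 5 + (0) * γ 6
       + (0) * γ 7 := by
  have h1 := h 1 (by norm_num)
  rw [show 1 + 1 = 2 from rfl, c14_1, c14_2] at h1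
  norm_num [h0] at h1 ⊢
  linarith

theorem q14_2 (γ : ℕ → ℝ) (h0 : γ 0 = 1)
    (h : ∀ n < 14, 2 * (((14 : ℕ) : ℝ) - ((n : ℕ) : ℝ)) * ∑ i ∈ range (14 / 2 + 1), γ i * (cfn 14 i n : ℝ) ≤
      ((n : ℝ) + 1) * ∑ i ∈ range (14 / 2 + 1), γ i * (cfn 14 i (n + 1) : ℝ)) :
    0 ≤ (0) * γ 0 + (264) * γ 1 + (42) * γ 2 + (3) * γ 3 + (0) * γ 4 + (0) * γ 5 + (0) * γ 6
       + (0) * γ 7 := by
  have h1 := h 2 (by norm_num)
  rw [show 2 + 1 = 3 from rfl, c14_2, c14_3] at h1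
  norm_num [h0] at h1 ⊢
  linarith

theorem q14_3 (γ : ℕ → ℝ) (h0 : γ 0 = 1)
    (h : ∀ n < 14, 2 * (((14 : ℕ) : ℝ) - ((n : ℕ) : ℝ)) * ∑ i ∈ range (14 / 2 + 1), γ i * (cfn 14 i n : ℝ) ≤
      ((n : ℝ) + 1) * ∑ i ∈ range (14 / 2 + 1), γ i * (cfn 14 i (n + 1) : ℝ)) :
    0 ≤ (0) * γ 0 + (1760) * γ 1 + (400) * γ 2 + (54) * γ 3 + (4) * γ 4 + (0) * γ 5 + (0) * γ 6
       + (0) * γ 7 := by
  have h1 := h 3 (by norm_num)
  rw [show 3 + 1 = 4 from rfl, c14_3, c14_4] at h1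
  norm_num [h0] at h1 ⊢
  linarith

theorem q14_4 (γ : ℕ → ℝ) (h0 : γ 0 = 1)
    (h : ∀ n < 14, 2 * (((14 : ℕ) : ℝ) - ((n : ℕ) : ℝ)) * ∑ i ∈ range (14 / 2 + 1), γ i * (cfn 14 i n : ℝ) ≤
      ((n : ℝ) + 1) * ∑ i ∈ range (14 / 2 + 1), γ i * (cfn 14 i (n + 1) : ℝ)) :
    0 ≤ (0) * γ 0 + (7920) * γ 1 + (2280) * γ 2 + (435) * γ 3 + (60) * γ 4 + (5) * γ 5 + (0) * γ 6
       + (0) * γ 7 := by
  have h1 := h 4 (by norm_num)
  rw [show 4 + 1 = 5 from rfl, c14_4, c14_5] at h1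
  norm_num [h0] at h1 ⊢
  linarith

theorem q14_5 (γ : ℕ → ℝ) (h0 : γ 0 = 1)
    (h : ∀ n < 14, 2 * (((14 : ℕ) : ℝ) - ((n : ℕ) : ℝ)) * ∑ i ∈ range (14 / 2 + 1), γ i * (cfn 14 i n : ℝ) ≤
      ((n : ℝ) + 1) * ∑ i ∈ range (14 / 2 + 1), γ i * (cfn 14 i (n + 1) : ℝ)) :
    0 ≤ (0) * γ 0 + (25344) * γ 1 + (8640) * γ 2 + (2064) * γ 3 + (396) * γ 4 + (60) * γ 5
       + (6) * γ 6 + (0) * γ 7 := by
  have h1 := h 5 (by norm_num)
  rw [show 5 + 1 = 6 from rfl, c14_5, c14_6] at h1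
  norm_num [h0] at h1 ⊢
  linarith

theorem q14_6 (γ : ℕ → ℝ) (h0 : γ 0 = 1)
    (h : ∀ n < 14, 2 * (((14 : ℕ) : ℝ) - ((n : ℕ) : ℝ)) * ∑ i ∈ range (14 / 2 + 1), γ i * (cfn 14 i n : ℝ) ≤
      ((n : ℝ) + 1) * ∑ i ∈ range (14 / 2 + 1), γ i * (cfn 14 i (n + 1) : ℝ)) :
    0 ≤ (0) * γ 0 + (59136) * γ 1 + (22848) * γ 2 + (6384) * γ 3 + (1508) * γ 4 + (310) * γ 5
       + (54) * γ 6 + (7) * γ 7 := by
  have h1 := h 6 (by norm_num)
  rw [show 6 + 1 = 7 from rfl, c14_6, c14_7] at h1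
  norm_num [h0] at h1 ⊢
  linarith

theorem q14_7 (γ : ℕ → ℝ) (h0 : γ 0 = 1)
    (h : ∀ n < 14, 2 * (((14 : ℕ) : ℝ) - ((n : ℕ) : ℝ)) * ∑ i ∈ range (14 / 2 + 1), γ i * (cfn 14 i n : ℝ) ≤
      ((n : ℝ) + 1) * ∑ i ∈ range (14 / 2 + 1), γ i * (cfn 14 i (n + 1) : ℝ)) :
    0 ≤ (0) * γ 0 + (101376) * γ 1 + (43008) * γ 2 + (13440) * γ 3 + (3648) * γ 4 + (900) * γ 5
       + (204) * γ 6 + (42) * γ 7 := by
  have h1 := h 7 (by norm_num)
  rw [show 7 + 1 = 8 from rfl, c14_7, c14_8] at h1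
  norm_num [h0] at h1 ⊢
  linarith

theorem q14_8 (γ : ℕ → ℝ) (h0 : γ 0 = 1)
    (h : ∀ n < 14, 2 * (((14 : ℕ) : ℝ) - ((n : ℕ) : ℝ)) * ∑ i ∈ range (14 / 2 + 1), γ i * (cfn 14 i n : ℝ) ≤
      ((n : ℝ) + 1) * ∑ i ∈ range (14 / 2 + 1), γ i * (cfn 14 i (n + 1) : ℝ)) :
    0 ≤ (0) * γ 0 + (126720) * γ 1 + (57600) * γ 2 + (19488) * γ 3 + (5808) * γ 4 + (1605) * γ 5
       + (420) * γ 6 + (105) * γ 7 := by
  have h1 := h 8 (by norm_num)
  rw [show 8 + 1 = 9 from rfl, c14_8, c14_9] at h1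
  norm_num [h0] at h1 ⊢
  linarith

theorem q14_9 (γ : ℕ → ℝ) (h0 : γ 0 = 1)
    (h : ∀ n < 14, 2 * (((14 : ℕ) : ℝ) - ((n : ℕ) : ℝ)) * ∑ i ∈ range (14 / 2 + 1), γ i * (cfn 14 i n : ℝ) ≤
      ((n : ℝ) + 1) * ∑ i ∈ range (14 / 2 + 1), γ i * (cfn 14 i (n + 1) : ℝ)) :
    0 ≤ (0) * γ 0 + (112640) * γ 1 + (53760) * γ 2 + (19200) * γ 3 + (6080) * γ 4 + (1800) * γ 5
       + (510) * γ 6 + (140) * γ 7 := by
  have h1 := h 9 (by norm_num)
  rw [show 9 + 1 = 10 from rfl, c14_9, c14_10] at h1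
  norm_num [h0] at h1 ⊢
  linarith

theorem m14_0 (γ : ℕ → ℝ) : Mat 14 γ 0 = (1) * γ 0 + (0) * γ 1 + (0) * γ 2 + (0) * γ 3 + (0) * γ 4 + (0) * γ 5 + (0) * γ 6 + (0) * γ 7 := by
  unfold Mat
  rw [show (14 / 2 + 1 : ℕ) = 8 from rfl]
  simp [sum_range_succ, Nat.choose]
  try ring

theorem m14_1 (γ : ℕ → ℝ) : Mat 14 γ 1 = (364) * γ 0 + (26) * γ 1 + (1) * γ 2 + (0) * γ 3 + (0) * γ 4 + (0) * γ 5 + (0) * γ 6
       + (0) * γ 7 := by
  unfold Mat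
  rw [show (14 / 2 + 1 : ℕ) = 8 from rfl]
  simp [sum_range_succ, Nat.choose]
  try ring

theorem m14_2 (γ : ℕ → ℝ) : Mat 14 γ 2 = (16016) * γ 0 + (2288) * γ 1 + (264) * γ 2 + (22) * γ 3 + (1) * γ 4 + (0) * γ 5 + (0) * γ 6
       + (0) * γ 7 := by
  unfold Mat
  rw [show (14 / 2 + 1 : ℕ) = 8 from rfl]
  simp [sum_range_succ, Nat.choose]
  try ring

theorem m14_3 (γ : ℕ → ℝ) : Mat 14 γ 3 = (192192) * γ 0 + (41184) * γ 1 + (7920) * γ 2 + (1320) * γ 3 + (180) * γ 4 + (18) * γ 5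
       + (1) * γ 6 + (0) * γ 7 := by
  unfold Mat
  rw [show (14 / 2 + 1 : ℕ) = 8 from rfl]
  simp [sum_range_succ, Nat.choose]
  try ring

theorem m14_4 (γ : ℕ → ℝ) : Mat 14 γ 4 = (768768) * γ 0 + (219648) * γ 1 + (59136) * γ 2 + (14784) * γ 3 + (3360) * γ 4 + (672) * γ 5
       + (112) * γ 6 + (14) * γ 7 := by
  unfold Mat
  rw [show (14 / 2 + 1 : ℕ) = 8 from rfl]
  simp [sum_range_succ, Nat.choose]
  try ring

theorem m14_5 (γ : ℕ → ℝ) : Mat 14 γ 5 = (1025024) * γ 0 + (366080) * γ 1 + (126720) * γ 2 + (42240) * γ 3 + (13440) * γ 4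
       + (4032) * γ 5 + (1120) * γ 6 + (280) * γ 7 := by
  unfold Mat
  rw [show (14 / 2 + 1 : ℕ) = 8 from rfl]
  simp [sum_range_succ, Nat.choose]
  try ring

theorem m14_6 (γ : ℕ → ℝ) : Mat 14 γ 6 = (372736) * γ 0 + (159744) * γ 1 + (67584) * γ 2 + (28160) * γ 3 + (11520) * γ 4
       + (4608) * γ 5 + (1792) * γ 6 + (672) * γ 7 := by
  unfold Mat
  rw [show (14 / 2 + 1 : ℕ) = 8 from rfl]
  simp [sum_range_succ, Nat.choose]
  try ring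

theorem m14_7 (γ : ℕ → ℝ) : Mat 14 γ 7 = (16384) * γ 0 + (8192) * γ 1 + (4096) * γ 2 + (2048) * γ 3 + (1024) * γ 4 + (512) * γ 5
       + (256) * γ 6 + (128) * γ 7 := by
  unfold Mat
  rw [show (14 / 2 + 1 : ℕ) = 8 from rfl]
  simp [sum_range_succ, Nat.choose]
  try ring

theorem mm14_0 (γ : ℕ → ℝ) : Mat 14 (Mat 14 γ) 0 =
      (1) * γ 0 + (0) * γ 1 + (0) * γ 2 + (0) * γ 3 + (0) * γ 4 + (0) * γ 5 + (0) * γ 6 + (0) * γ 7 := by
  rw [m14_0]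
  simp only [m14_0, m14_1, m14_2, m14_3, m14_4, m14_5, m14_6, m14_7]
  ring

theorem mm14_1 (γ : ℕ → ℝ) : Mat 14 (Mat 14 γ) 1 =
      (25844) * γ 0 + (2964) * γ 1 + (290) * γ 2 + (22) * γ 3 + (1) * γ 4 + (0) * γ 5 + (0) * γ 6
       + (0) * γ 7 := by
  rw [m14_1]
  simp only [m14_0, m14_1, m14_2, m14_3, m14_4, m14_5, m14_6, m14_7]
  ring

theorem mm14_2 (γ : ℕ → ℝ) : Mat 14 (Mat 14 γ) 2 =
      (10074064) * γ 0 + (1789216) * γ 1 + (305360) * γ 2 + (49632) * γ 3 + (7584) * γ 4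
       + (1068) * γ 5 + (134) * γ 6 + (14) * γ 7 := by
  rw [m14_2]
  simp only [m14_0, m14_1, m14_2, m14_3, m14_4, m14_5, m14_6, m14_7]
  ring

theorem mm14_3 (γ : ℕ → ℝ) : Mat 14 (Mat 14 γ) 3 =
      (552924736) * γ 0 + (119840448) * γ 1 + (25579488) * γ 2 + (5366240) * γ 3 + (1103760) * γ 4
       + (221904) * γ 5 + (43432) * γ 6 + (8232) * γ 7 := by
  rw [m14_3]
  simp only [m14_0, m14_1, m14_2, m14_3, m14_4, m14_5, m14_6, m14_7]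
  ring

theorem mm14_4 (γ : ℕ → ℝ) : Mat 14 (Mat 14 γ) 4 =
      (7183061760) * γ 0 + (1751907328) * γ 1 + (424400384) * γ 2 + (102057984) * γ 3
       + (24346112) * γ 4 + (5756800) * γ 5 + (1348032) * γ 6 + (312256) * γ 7 := by
  rw [m14_4]
  simp only [m14_0, m14_1, m14_2, m14_3, m14_4, m14_5, m14_6, m14_7]
  ring

theorem mm14_5 (γ : ℕ → ℝ) : Mat 14 (Mat 14 γ) 5 =
      (25169206272) * γ 0 + (6648376320) * γ 1 + (1750924800) * γ 2 + (459665920) * γ 3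
       + (120267520) * γ 4 + (31353344) * γ 5 + (8142080) * γ 6 + (2105600) * γ 7 := by
  rw [m14_5]
  simp only [m14_0, m14_1, m14_2, m14_3, m14_4, m14_5, m14_6, m14_7]
  ring

theorem mm14_6 (γ : ℕ → ℝ) : Mat 14 (Mat 14 γ) 6 =
      (20811542528) * γ 0 + (5827534848) * γ 1 + (1630064640) * γ 2 + (455450624) * γ 3
       + (127107072) * γ 4 + (35429376) * γ 5 + (9862656) * γ 6 + (2741760) * γ 7 := by
  rw [m14_6]
  simp only [m14_0, m14_1, m14_2, m14_3, m14_4, m14_5, m14_6, m14_7]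
  ring

theorem mm14_7 (γ : ℕ → ℝ) : Mat 14 (Mat 14 γ) 7 =
      (1871757312) * γ 0 + (548225024) * γ 1 + (160571392) * γ 2 + (47030272) * γ 3
       + (13774848) * γ 4 + (4034560) * γ 5 + (1181696) * γ 6 + (346112) * γ 7 := by
  rw [m14_7]
  simp only [m14_0, m14_1, m14_2, m14_3, m14_4, m14_5, m14_6, m14_7]
  ring

theorem p14_0 (γ : ℕ → ℝ) (h0 : γ 0 = 1)
    (h : ∀ n < 14, 2 * (((14 : ℕ) : ℝ) - ((n : ℕ) : ℝ)) * ∑ i ∈ range (14 / 2 + 1), γ i * (cfn 14 i n : ℝ) ≤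
      ((n : ℝ) + 1) * ∑ i ∈ range (14 / 2 + 1), γ i * (cfn 14 i (n + 1) : ℝ)) :
    0 < Mat 14 (Mat 14 (Mat 14 γ)) 0 := by

  rw [m14_0]
  simp only [mm14_0, mm14_1, mm14_2, mm14_3, mm14_4, mm14_5, mm14_6, mm14_7]
  linarith only [h0]

theorem p14_1 (γ : ℕ → ℝ) (h0 : γ 0 = 1)
    (h : ∀ n < 14, 2 * (((14 : ℕ) : ℝ) - ((n : ℕ) : ℝ)) * ∑ i ∈ range (14 / 2 + 1), γ i * (cfn 14 i n : ℝ) ≤
      ((n : ℝ) + 1) * ∑ i ∈ range (14 / 2 + 1), γ i * (cfn 14 i (n + 1) : ℝ)) :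
    0 < Mat 14 (Mat 14 (Mat 14 γ)) 1 := by
  have k0 := q14_0 γ h0 h
  have k1 := q14_1 γ h0 h
  have k3 := q14_3 γ h0 h
  have k5 := q14_5 γ h0 h
  have k2 := q14_2 γ h0 h
  have k6 := q14_6 γ h0 h
  have k4 := q14_4 γ h0 h
  rw [m14_1]
  simp only [mm14_0, mm14_1, mm14_2, mm14_3, mm14_4, mm14_5, mm14_6, mm14_7]
  linarith only [h0, k0, k1, k3, k5, k2, k6, k4]

theorem p14_2 (γ : ℕ → ℝ) (h0 : γ 0 = 1)
    (h : ∀ n < 14, 2 * (((14 : ℕ) : ℝ) - ((n : ℕ) : ℝ)) * ∑ i ∈ range (14 / 2 + 1), γ i * (cfn 14 i n : ℝ) ≤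
      ((n : ℝ) + 1) * ∑ i ∈ range (14 / 2 + 1), γ i * (cfn 14 i (n + 1) : ℝ)) :
    0 < Mat 14 (Mat 14 (Mat 14 γ)) 2 := by
  have k0 := q14_0 γ h0 h
  have k7 := q14_7 γ h0 h
  have k1 := q14_1 γ h0 h
  have k2 := q14_2 γ h0 h
  have k3 := q14_3 γ h0 h
  have k4 := q14_4 γ h0 h
  have k8 := q14_8 γ h0 h
  rw [m14_2]
  simp only [mm14_0, mm14_1, mm14_2, mm14_3, mm14_4, mm14_5, mm14_6, mm14_7]
  linarith only [h0, k0, k7, k1, k2, k3, k4, k8]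

theorem p14_3 (γ : ℕ → ℝ) (h0 : γ 0 = 1)
    (h : ∀ n < 14, 2 * (((14 : ℕ) : ℝ) - ((n : ℕ) : ℝ)) * ∑ i ∈ range (14 / 2 + 1), γ i * (cfn 14 i n : ℝ) ≤
      ((n : ℝ) + 1) * ∑ i ∈ range (14 / 2 + 1), γ i * (cfn 14 i (n + 1) : ℝ)) :
    0 < Mat 14 (Mat 14 (Mat 14 γ)) 3 := by
  have k0 := q14_0 γ h0 h
  have k8 := q14_8 γ h0 h
  have k1 := q14_1 γ h0 h
  have k7 := q14_7 γ h0 h
  have k3 := q14_3 γ h0 h
  have k4 := q14_4 γ h0 h
  have k2 := q14_2 γ h0 h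
  rw [m14_3]
  simp only [mm14_0, mm14_1, mm14_2, mm14_3, mm14_4, mm14_5, mm14_6, mm14_7]
  linarith only [h0, k0, k8, k1, k7, k3, k4, k2]

theorem p14_4 (γ : ℕ → ℝ) (h0 : γ 0 = 1)
    (h : ∀ n < 14, 2 * (((14 : ℕ) : ℝ) - ((n : ℕ) : ℝ)) * ∑ i ∈ range (14 / 2 + 1), γ i * (cfn 14 i n : ℝ) ≤
      ((n : ℝ) + 1) * ∑ i ∈ range (14 / 2 + 1), γ i * (cfn 14 i (n + 1) : ℝ)) :
    0 < Mat 14 (Mat 14 (Mat 14 γ)) 4 := by
  have k0 := q14_0 γ h0 h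
  have k1 := q14_1 γ h0 h
  have k3 := q14_3 γ h0 h
  have k7 := q14_7 γ h0 h
  have k8 := q14_8 γ h0 h
  have k4 := q14_4 γ h0 h
  have k2 := q14_2 γ h0 h
  rw [m14_4]
  simp only [mm14_0, mm14_1, mm14_2, mm14_3, mm14_4, mm14_5, mm14_6, mm14_7]
  linarith only [h0, k0, k1, k3, k7, k8, k4, k2]

theorem p14_5 (γ : ℕ → ℝ) (h0 : γ 0 = 1)
    (h : ∀ n < 14, 2 * (((14 : ℕ) : ℝ) - ((n : ℕ) : ℝ)) * ∑ i ∈ range (14 / 2 + 1), γ i * (cfn 14 i n : ℝ) ≤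
      ((n : ℝ) + 1) * ∑ i ∈ range (14 / 2 + 1), γ i * (cfn 14 i (n + 1) : ℝ)) :
    0 < Mat 14 (Mat 14 (Mat 14 γ)) 5 := by
  have k0 := q14_0 γ h0 h
  have k8 := q14_8 γ h0 h
  have k1 := q14_1 γ h0 h
  have k2 := q14_2 γ h0 h
  have k3 := q14_3 γ h0 h
  have k4 := q14_4 γ h0 h
  have k9 := q14_9 γ h0 h
  rw [m14_5]
  simp only [mm14_0, mm14_1, mm14_2, mm14_3, mm14_4, mm14_5, mm14_6, mm14_7]
  linarith only [h0, k0, k8, k1, k2, k3, k4, k9]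

theorem p14_6 (γ : ℕ → ℝ) (h0 : γ 0 = 1)
    (h : ∀ n < 14, 2 * (((14 : ℕ) : ℝ) - ((n : ℕ) : ℝ)) * ∑ i ∈ range (14 / 2 + 1), γ i * (cfn 14 i n : ℝ) ≤
      ((n : ℝ) + 1) * ∑ i ∈ range (14 / 2 + 1), γ i * (cfn 14 i (n + 1) : ℝ)) :
    0 < Mat 14 (Mat 14 (Mat 14 γ)) 6 := by
  have k0 := q14_0 γ h0 h
  have k8 := q14_8 γ h0 h
  have k1 := q14_1 γ h0 h
  have k2 := q14_2 γ h0 h
  have k3 := q14_3 γ h0 h
  have k4 := q14_4 γ h0 h
  have k9 := q14_9 γ h0 h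
  rw [m14_6]
  simp only [mm14_0, mm14_1, mm14_2, mm14_3, mm14_4, mm14_5, mm14_6, mm14_7]
  linarith only [h0, k0, k8, k1, k2, k3, k4, k9]

theorem p14_7 (γ : ℕ → ℝ) (h0 : γ 0 = 1)
    (h : ∀ n < 14, 2 * (((14 : ℕ) : ℝ) - ((n : ℕ) : ℝ)) * ∑ i ∈ range (14 / 2 + 1), γ i * (cfn 14 i n : ℝ) ≤
      ((n : ℝ) + 1) * ∑ i ∈ range (14 / 2 + 1), γ i * (cfn 14 i (n + 1) : ℝ)) :
    0 < Mat 14 (Mat 14 (Mat 14 γ)) 7 := by
  have k0 := q14_0 γ h0 h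
  have k8 := q14_8 γ h0 h
  have k1 := q14_1 γ h0 h
  have k4 := q14_4 γ h0 h
  have k3 := q14_3 γ h0 h
  have k9 := q14_9 γ h0 h
  have k2 := q14_2 γ h0 h
  rw [m14_7]
  simp only [mm14_0, mm14_1, mm14_2, mm14_3, mm14_4, mm14_5, mm14_6, mm14_7]
  linarith only [h0, k0, k8, k1, k4, k3, k9, k2]

theorem main14 (γ : ℕ → ℝ) (h0 : γ 0 = 1)
    (h : ∀ n < 14, 2 * (((14 : ℕ) : ℝ) - ((n : ℕ) : ℝ)) * ∑ i ∈ range (14 / 2 + 1), γ i * (cfn 14 i n : ℝ) ≤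
      ((n : ℝ) + 1) * ∑ i ∈ range (14 / 2 + 1), γ i * (cfn 14 i (n + 1) : ℝ)) :
    ∀ j ≤ 14 / 2, 0 < Mat 14 (Mat 14 (Mat 14 γ)) j := by
  intro j hj
  have hj' : j ≤ 7 := hj
  clear hj
  interval_cases j
  · exact p14_0 γ h0 h
  · exact p14_1 γ h0 h
  · exact p14_2 γ h0 h
  · exact p14_3 γ h0 h
  · exact p14_4 γ h0 h
  · exact p14_5 γ h0 h
  · exact p14_6 γ h0 h
  · exact p14_7 γ h0 h

theorem c15_0 (γ : ℕ → ℝ) : ∑ i ∈ range (15 / 2 + 1), γ i * (cfn 15 i 0 : ℝ) =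
    (1) * γ 0 + (0) * γ 1 + (0) * γ 2 + (0) * γ 3 + (0) * γ 4 + (0) * γ 5 + (0) * γ 6 + (0) * γ 7 := by
  have h : ((15 / 2 + 1 : ℕ)) = 8 := rfl
  rw [h]
  simp only [sum_range_succ, sum_range_zero, show cfn 15 0 0 = 1 from by decide +kernel, show cfn 15 1 0 = 0 from by decide +kernel, show cfn 15 2 0 = 0 from by decide +kernel, show cfn 15 3 0 = 0 from by decide +kernel, show cfn 15 4 0 = 0 from by decide +kernel, show cfn 15 5 0 = 0 from by decide +kernel, show cfn 15 6 0 = 0 from by decide +kernel, show cfn 15 7 0 = 0 from by decide +kernel, Nat.cast_ofNat, Nat.cast_one, Nat.cast_zero]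
  ring

theorem c15_1 (γ : ℕ → ℝ) : ∑ i ∈ range (15 / 2 + 1), γ i * (cfn 15 i 1 : ℝ) =
    (30) * γ 0 + (1) * γ 1 + (0) * γ 2 + (0) * γ 3 + (0) * γ 4 + (0) * γ 5 + (0) * γ 6
       + (0) * γ 7 := by
  have h : ((15 / 2 + 1 : ℕ)) = 8 := rfl
  rw [h]
  simp only [sum_range_succ, sum_range_zero, show cfn 15 0 1 = 30 from by decide +kernel, show cfn 15 1 1 = 1 from by decide +kernel, show cfn 15 2 1 = 0 from by decide +kernel, show cfn 15 3 1 = 0 from by decide +kernel, show cfn 15 4 1 = 0 from by decide +kernel, show cfn 15 5 1 = 0 from by decide +kernel, show cfn 15 6 1 = 0 from by decide +kernel, show cfn 15 7 1 = 0 from by decide +kernel, Nat.cast_ofNat, Nat.cast_one, Nat.cast_zero]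
  ring

theorem c15_2 (γ : ℕ → ℝ) : ∑ i ∈ range (15 / 2 + 1), γ i * (cfn 15 i 2 : ℝ) =
    (420) * γ 0 + (27) * γ 1 + (1) * γ 2 + (0) * γ 3 + (0) * γ 4 + (0) * γ 5 + (0) * γ 6
       + (0) * γ 7 := by
  have h : ((15 / 2 + 1 : ℕ)) = 8 := rfl
  rw [h]
  simp only [sum_range_succ, sum_range_zero, show cfn 15 0 2 = 420 from by decide +kernel, show cfn 15 1 2 = 27 from by decide +kernel, show cfn 15 2 2 = 1 from by decide +kernel, show cfn 15 3 2 = 0 from by decide +kernel, show cfn 15 4 2 = 0 from by decide +kernel, show cfn 15 5 2 = 0 from by decide +kernel, show cfn 15 6 2 = 0 from by decide +kernel, show cfn 15 7 2 = 0 from by decide +kernel, Nat.cast_ofNat, Nat.cast_one, Nat.cast_zero]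
  ring

theorem c15_3 (γ : ℕ → ℝ) : ∑ i ∈ range (15 / 2 + 1), γ i * (cfn 15 i 3 : ℝ) =
    (3640) * γ 0 + (338) * γ 1 + (24) * γ 2 + (1) * γ 3 + (0) * γ 4 + (0) * γ 5 + (0) * γ 6
       + (0) * γ 7 := by
  have h : ((15 / 2 + 1 : ℕ)) = 8 := rfl
  rw [h]
  simp only [sum_range_succ, sum_range_zero, show cfn 15 0 3 = 3640 from by decide +kernel, show cfn 15 1 3 = 338 from by decide +kernel, show cfn 15 2 3 = 24 from by decide +kernel, show cfn 15 3 3 = 1 from by decide +kernel, show cfn 15 4 3 = 0 from by decide +kernel, show cfn 15 5 3 = 0 from by decide +kernel, show cfn 15 6 3 = 0 from by decide +kernel, show cfn 15 7 3 = 0 from by decide +kernel, Nat.cast_ofNat, Nat.cast_one, Nat.cast_zero]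
  ring

theorem c15_4 (γ : ℕ → ℝ) : ∑ i ∈ range (15 / 2 + 1), γ i * (cfn 15 i 4 : ℝ) =
    (21840) * γ 0 + (2600) * γ 1 + (265) * γ 2 + (21) * γ 3 + (1) * γ 4 + (0) * γ 5 + (0) * γ 6
       + (0) * γ 7 := by
  have h : ((15 / 2 + 1 : ℕ)) = 8 := rfl
  rw [h]
  simp only [sum_range_succ, sum_range_zero, show cfn 15 0 4 = 21840 from by decide +kernel, show cfn 15 1 4 = 2600 from by decide +kernel, show cfn 15 2 4 = 265 from by decide +kernel, show cfn 15 3 4 = 21 from by decide +kernel, show cfn 15 4 4 = 1 from by decide +kernel, show cfn 15 5 4 = 0 from by decide +kernel, show cfn 15 6 4 = 0 from by decide +kernel, show cfn 15 7 4 = 0 from by decide +kernel, Nat.cast_ofNat, Nat.cast_one, Nat.cast_zero]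
  ring

theorem c15_5 (γ : ℕ → ℝ) : ∑ i ∈ range (15 / 2 + 1), γ i * (cfn 15 i 5 : ℝ) =
    (96096) * γ 0 + (13728) * γ 1 + (1782) * γ 2 + (201) * γ 3 + (18) * γ 4 + (1) * γ 5
       + (0) * γ 6 + (0) * γ 7 := by
  have h : ((15 / 2 + 1 : ℕ)) = 8 := rfl
  rw [h]
  simp only [sum_range_succ, sum_range_zero, show cfn 15 0 5 = 96096 from by decide +kernel, show cfn 15 1 5 = 13728 from by decide +kernel, show cfn 15 2 5 = 1782 from by decide +kernel, show cfn 15 3 5 = 201 from by decide +kernel, show cfn 15 4 5 = 18 from by decide +kernel, show cfn 15 5 5 = 1 from by decide +kernel, show cfn 15 6 5 = 0 from by decide +kernel, show cfn 15 7 5 = 0 from by decide +kernel, Nat.cast_ofNat, Nat.cast_one, Nat.cast_zero]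
  ring

theorem c15_6 (γ : ℕ → ℝ) : ∑ i ∈ range (15 / 2 + 1), γ i * (cfn 15 i 6 : ℝ) =
    (320320) * γ 0 + (52624) * γ 1 + (8140) * γ 2 + (1159) * γ 3 + (146) * γ 4 + (15) * γ 5
       + (1) * γ 6 + (0) * γ 7 := by
  have h : ((15 / 2 + 1 : ℕ)) = 8 := rfl
  rw [h]
  simp only [sum_range_succ, sum_range_zero, show cfn 15 0 6 = 320320 from by decide +kernel, show cfn 15 1 6 = 52624 from by decide +kernel, show cfn 15 2 6 = 8140 from by decide +kernel, show cfn 15 3 6 = 1159 from by decide +kernel, show cfn 15 4 6 = 146 from by decide +kernel, show cfn 15 5 6 = 15 from by decide +kernel, show cfn 15 6 6 = 1 from by decide +kernel, show cfn 15 7 6 = 0 from by decide +kernel, Nat.cast_ofNat, Nat.cast_one, Nat.cast_zero]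
  ring

theorem c15_7 (γ : ℕ → ℝ) : ∑ i ∈ range (15 / 2 + 1), γ i * (cfn 15 i 7 : ℝ) =
    (823680) * γ 0 + (151008) * γ 1 + (26664) * γ 2 + (4482) * γ 3 + (704) * γ 4 + (100) * γ 5
       + (12) * γ 6 + (1) * γ 7 := by
  have h : ((15 / 2 + 1 : ℕ)) = 8 := rfl
  rw [h]
  simp only [sum_range_succ, sum_range_zero, show cfn 15 0 7 = 823680 from by decide +kernel, show cfn 15 1 7 = 151008 from by decide +kernel, show cfn 15 2 7 = 26664 from by decide +kernel, show cfn 15 3 7 = 4482 from by decide +kernel, show cfn 15 4 7 = 704 from by decide +kernel, show cfn 15 5 7 = 100 from by decide +kernel, show cfn 15 6 7 = 12 from by decide +kernel, show cfn 15 7 7 = 1 from by decide +kernel, Nat.cast_ofNat, Nat.cast_one, Nat.cast_zero]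
  ring

theorem c15_8 (γ : ℕ → ℝ) : ∑ i ∈ range (15 / 2 + 1), γ i * (cfn 15 i 8 : ℝ) =
    (1647360) * γ 0 + (329472) * γ 1 + (64416) * γ 2 + (12240) * γ 3 + (2241) * γ 4 + (390) * γ 5
       + (63) * γ 6 + (9) * γ 7 := by
  have h : ((15 / 2 + 1 : ℕ)) = 8 := rfl
  rw [h]
  simp only [sum_range_succ, sum_range_zero, show cfn 15 0 8 = 1647360 from by decide +kernel, show cfn 15 1 8 = 329472 from by decide +kernel, show cfn 15 2 8 = 64416 from by decide +kernel, show cfn 15 3 8 = 12240 from by decide +kernel, show cfn 15 4 8 = 2241 from by decide +kernel, show cfn 15 5 8 = 390 from by decide +kernel, show cfn 15 6 8 = 63 from by decide +kernel, show cfn 15 7 8 = 9 from by decide +kernel, Nat.cast_ofNat, Nat.cast_one, Nat.cast_zero]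
  ring

theorem c15_9 (γ : ℕ → ℝ) : ∑ i ∈ range (15 / 2 + 1), γ i * (cfn 15 i 9 : ℝ) =
    (2562560) * γ 0 + (549120) * γ 1 + (116160) * γ 2 + (24192) * γ 3 + (4942) * γ 4
       + (985) * γ 5 + (190) * γ 6 + (35) * γ 7 := by
  have h : ((15 / 2 + 1 : ℕ)) = 8 := rfl
  rw [h]
  simp only [sum_range_succ, sum_range_zero, show cfn 15 0 9 = 2562560 from by decide +kernel, show cfn 15 1 9 = 549120 from by decide +kernel, show cfn 15 2 9 = 116160 from by decide +kernel, show cfn 15 3 9 = 24192 from by decide +kernel, show cfn 15 4 9 = 4942 from by decide +kernel, show cfn 15 5 9 = 985 from by decide +kernel, show cfn 15 6 9 = 190 from by decide +kernel, show cfn 15 7 9 = 35 from by decide +kernel, Nat.cast_ofNat, Nat.cast_one, Nat.cast_zero]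
  ring

theorem c15_10 (γ : ℕ → ℝ) : ∑ i ∈ range (15 / 2 + 1), γ i * (cfn 15 i 10 : ℝ) =
    (3075072) * γ 0 + (695552) * γ 1 + (156288) * γ 2 + (34848) * γ 3 + (7700) * γ 4
       + (1683) * γ 5 + (363) * γ 6 + (77) * γ 7 := by
  have h : ((15 / 2 + 1 : ℕ)) = 8 := rfl
  rw [h]
  simp only [sum_range_succ, sum_range_zero, show cfn 15 0 10 = 3075072 from by decide +kernel, show cfn 15 1 10 = 695552 from by decide +kernel, show cfn 15 2 10 = 156288 from by decide +kernel, show cfn 15 3 10 = 34848 from by decide +kernel, show cfn 15 4 10 = 7700 from by decide +kernel, show cfn 15 5 10 = 1683 from by decide +kernel, show cfn 15 6 10 = 363 from by decide +kernel, show cfn 15 7 10 = 77 from by decide +kernel, Nat.cast_ofNat, Nat.cast_one, Nat.cast_zero]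
  ring

theorem c15_11 (γ : ℕ → ℝ) : ∑ i ∈ range (15 / 2 + 1), γ i * (cfn 15 i 11 : ℝ) =
    (2795520) * γ 0 + (658944) * γ 1 + (154880) * γ 2 + (36288) * γ 3 + (8472) * γ 4
       + (1970) * γ 5 + (456) * γ 6 + (105) * γ 7 := by
  have h : ((15 / 2 + 1 : ℕ)) = 8 := rfl
  rw [h]
  simp only [sum_range_succ, sum_range_zero, show cfn 15 0 11 = 2795520 from by decide +kernel, show cfn 15 1 11 = 658944 from by decide +kernel, show cfn 15 2 11 = 154880 from by decide +kernel, show cfn 15 3 11 = 36288 from by decide +kernel, show cfn 15 4 11 = 8472 from by decide +kernel, show cfn 15 5 11 = 1970 from by decide +kernel, show cfn 15 6 11 = 456 from by decide +kernel, show cfn 15 7 11 = 105 from by decide +kernel, Nat.cast_ofNat, Nat.cast_one, Nat.cast_zero]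
  ring

theorem q15_0 (γ : ℕ → ℝ) (h0 : γ 0 = 1)
    (h : ∀ n < 15, 2 * (((15 : ℕ) : ℝ) - ((n : ℕ) : ℝ)) * ∑ i ∈ range (15 / 2 + 1), γ i * (cfn 15 i n : ℝ) ≤
      ((n : ℝ) + 1) * ∑ i ∈ range (15 / 2 + 1), γ i * (cfn 15 i (n + 1) : ℝ)) :
    0 ≤ (0) * γ 0 + (1) * γ 1 + (0) * γ 2 + (0) * γ 3 + (0) * γ 4 + (0) * γ 5 + (0) * γ 6 + (0) * γ 7 := by
  have h1 := h 0 (by norm_num)
  rw [show 0 + 1 = 1 from rfl, c15_0, c15_1] at h1
  norm_num [h0] at h1 ⊢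
  linarith

theorem q15_1 (γ : ℕ → ℝ) (h0 : γ 0 = 1)
    (h : ∀ n < 15, 2 * (((15 : ℕ) : ℝ) - ((n : ℕ) : ℝ)) * ∑ i ∈ range (15 / 2 + 1), γ i * (cfn 15 i n : ℝ) ≤
      ((n : ℝ) + 1) * ∑ i ∈ range (15 / 2 + 1), γ i * (cfn 15 i (n + 1) : ℝ)) :
    0 ≤ (0) * γ 0 + (26) * γ 1 + (2) * γ 2 + (0) * γ 3 + (0) * γ 4 + (0) * γ 5 + (0) * γ 6
       + (0) * γ 7 := by
  have h1 := h 1 (by norm_num)
  rw [show 1 + 1 = 2 from rfl, c15_1, c15_2] at h1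
  norm_num [h0] at h1 ⊢
  linarith

theorem q15_2 (γ : ℕ → ℝ) (h0 : γ 0 = 1)
    (h : ∀ n < 15, 2 * (((15 : ℕ) : ℝ) - ((n : ℕ) : ℝ)) * ∑ i ∈ range (15 / 2 + 1), γ i * (cfn 15 i n : ℝ) ≤
      ((n : ℝ) + 1) * ∑ i ∈ range (15 / 2 + 1), γ i * (cfn 15 i (n + 1) : ℝ)) :
    0 ≤ (0) * γ 0 + (312) * γ 1 + (46) * γ 2 + (3) * γ 3 + (0) * γ 4 + (0) * γ 5 + (0) * γ 6
       + (0) * γ 7 := by
  have h1 := h 2 (by norm_num)
  rw [show 2 + 1 = 3 from rfl, c15_2, c15_3] at h1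
  norm_num [h0] at h1 ⊢
  linarith

theorem q15_3 (γ : ℕ → ℝ) (h0 : γ 0 = 1)
    (h : ∀ n < 15, 2 * (((15 : ℕ) : ℝ) - ((n : ℕ) : ℝ)) * ∑ i ∈ range (15 / 2 + 1), γ i * (cfn 15 i n : ℝ) ≤
      ((n : ℝ) + 1) * ∑ i ∈ range (15 / 2 + 1), γ i * (cfn 15 i (n + 1) : ℝ)) :
    0 ≤ (0) * γ 0 + (2288) * γ 1 + (484) * γ 2 + (60) * γ 3 + (4) * γ 4 + (0) * γ 5 + (0) * γ 6
       + (0) * γ 7 := by
  have h1 := h 3 (by norm_num)
  rw [show 3 + 1 = 4 from rfl, c15_3, c15_4] at h1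
  norm_num [h0] at h1 ⊢
  linarith

theorem q15_4 (γ : ℕ → ℝ) (h0 : γ 0 = 1)
    (h : ∀ n < 15, 2 * (((15 : ℕ) : ℝ) - ((n : ℕ) : ℝ)) * ∑ i ∈ range (15 / 2 + 1), γ i * (cfn 15 i n : ℝ) ≤
      ((n : ℝ) + 1) * ∑ i ∈ range (15 / 2 + 1), γ i * (cfn 15 i (n + 1) : ℝ)) :
    0 ≤ (0) * γ 0 + (11440) * γ 1 + (3080) * γ 2 + (543) * γ 3 + (68) * γ 4 + (5) * γ 5 + (0) * γ 6
       + (0) * γ 7 := by
  have h1 := h 4 (by norm_num)
  rw [show 4 + 1 = 5 from rfl, c15_4, c15_5] at h1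
  norm_num [h0] at h1 ⊢
  linarith

theorem q15_5 (γ : ℕ → ℝ) (h0 : γ 0 = 1)
    (h : ∀ n < 15, 2 * (((15 : ℕ) : ℝ) - ((n : ℕ) : ℝ)) * ∑ i ∈ range (15 / 2 + 1), γ i * (cfn 15 i n : ℝ) ≤
      ((n : ℝ) + 1) * ∑ i ∈ range (15 / 2 + 1), γ i * (cfn 15 i (n + 1) : ℝ)) :
    0 ≤ (0) * γ 0 + (41184) * γ 1 + (13200) * γ 2 + (2934) * γ 3 + (516) * γ 4 + (70) * γ 5
       + (6) * γ 6 + (0) * γ 7 := by
  have h1 := h 5 (by norm_num)
  rw [show 5 + 1 = 6 from rfl, c15_5, c15_6] at h1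
  norm_num [h0] at h1 ⊢
  linarith

theorem q15_6 (γ : ℕ → ℝ) (h0 : γ 0 = 1)
    (h : ∀ n < 15, 2 * (((15 : ℕ) : ℝ) - ((n : ℕ) : ℝ)) * ∑ i ∈ range (15 / 2 + 1), γ i * (cfn 15 i n : ℝ) ≤
      ((n : ℝ) + 1) * ∑ i ∈ range (15 / 2 + 1), γ i * (cfn 15 i (n + 1) : ℝ)) :
    0 ≤ (0) * γ 0 + (109824) * γ 1 + (40128) * γ 2 + (10512) * γ 3 + (2300) * γ 4 + (430) * γ 5
       + (66) * γ 6 + (7) * γ 7 := by
  have h1 := h 6 (by norm_num)
  rw [show 6 + 1 = 7 from rfl, c15_6, c15_7] at h1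
  norm_num [h0] at h1 ⊢
  linarith

theorem q15_7 (γ : ℕ → ℝ) (h0 : γ 0 = 1)
    (h : ∀ n < 15, 2 * (((15 : ℕ) : ℝ) - ((n : ℕ) : ℝ)) * ∑ i ∈ range (15 / 2 + 1), γ i * (cfn 15 i n : ℝ) ≤
      ((n : ℝ) + 1) * ∑ i ∈ range (15 / 2 + 1), γ i * (cfn 15 i (n + 1) : ℝ)) :
    0 ≤ (0) * γ 0 + (219648) * γ 1 + (88704) * γ 2 + (26208) * γ 3 + (6664) * γ 4 + (1520) * γ 5
       + (312) * γ 6 + (56) * γ 7 := by
  have h1 := h 7 (by norm_num)
  rw [show 7 + 1 = 8 from rfl, c15_7, c15_8] at h1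
  norm_num [h0] at h1 ⊢
  linarith

theorem q15_8 (γ : ℕ → ℝ) (h0 : γ 0 = 1)
    (h : ∀ n < 15, 2 * (((15 : ℕ) : ℝ) - ((n : ℕ) : ℝ)) * ∑ i ∈ range (15 / 2 + 1), γ i * (cfn 15 i n : ℝ) ≤
      ((n : ℝ) + 1) * ∑ i ∈ range (15 / 2 + 1), γ i * (cfn 15 i (n + 1) : ℝ)) :
    0 ≤ (0) * γ 0 + (329472) * γ 1 + (143616) * γ 2 + (46368) * γ 3 + (13104) * γ 4 + (3405) * γ 5
       + (828) * γ 6 + (189) * γ 7 := by
  have h1 := h 8 (by norm_num)
  rw [show 8 + 1 = 9 from rfl, c15_8, c15_9] at h1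
  norm_num [h0] at h1 ⊢
  linarith

theorem q15_9 (γ : ℕ → ℝ) (h0 : γ 0 = 1)
    (h : ∀ n < 15, 2 * (((15 : ℕ) : ℝ) - ((n : ℕ) : ℝ)) * ∑ i ∈ range (15 / 2 + 1), γ i * (cfn 15 i n : ℝ) ≤
      ((n : ℝ) + 1) * ∑ i ∈ range (15 / 2 + 1), γ i * (cfn 15 i (n + 1) : ℝ)) :
    0 ≤ (0) * γ 0 + (366080) * γ 1 + (168960) * γ 2 + (58176) * γ 3 + (17696) * γ 4 + (5010) * γ 5
       + (1350) * γ 6 + (350) * γ 7 := by
  have h1 := h 9 (by norm_num)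
  rw [show 9 + 1 = 10 from rfl, c15_9, c15_10] at h1
  norm_num [h0] at h1 ⊢
  linarith

theorem q15_10 (γ : ℕ → ℝ) (h0 : γ 0 = 1)
    (h : ∀ n < 15, 2 * (((15 : ℕ) : ℝ) - ((n : ℕ) : ℝ)) * ∑ i ∈ range (15 / 2 + 1), γ i * (cfn 15 i n : ℝ) ≤
      ((n : ℝ) + 1) * ∑ i ∈ range (15 / 2 + 1), γ i * (cfn 15 i (n + 1) : ℝ)) :
    0 ≤ (0) * γ 0 + (292864) * γ 1 + (140800) * γ 2 + (50688) * γ 3 + (16192) * γ 4 + (4840) * γ 5
       + (1386) * γ 6 + (385) * γ 7 := by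
  have h1 := h 10 (by norm_num)
  rw [show 10 + 1 = 11 from rfl, c15_10, c15_11] at h1
  norm_num [h0] at h1 ⊢
  linarith

theorem m15_0 (γ : ℕ → ℝ) : Mat 15 γ 0 = (1) * γ 0 + (0) * γ 1 + (0) * γ 2 + (0) * γ 3 + (0) * γ 4 + (0) * γ 5 + (0) * γ 6 + (0) * γ 7 := by
  unfold Mat
  rw [show (15 / 2 + 1 : ℕ) = 8 from rfl]
  simp [sum_range_succ, Nat.choose]
  try ring

theorem m15_1 (γ : ℕ → ℝ) : Mat 15 γ 1 = (420) * γ 0 + (28) * γ 1 + (1) * γ 2 + (0) * γ 3 + (0) * γ 4 + (0) * γ 5 + (0) * γ 6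
       + (0) * γ 7 := by
  unfold Mat
  rw [show (15 / 2 + 1 : ℕ) = 8 from rfl]
  simp [sum_range_succ, Nat.choose]
  try ring

theorem m15_2 (γ : ℕ → ℝ) : Mat 15 γ 2 = (21840) * γ 0 + (2912) * γ 1 + (312) * γ 2 + (24) * γ 3 + (1) * γ 4 + (0) * γ 5 + (0) * γ 6
       + (0) * γ 7 := by
  unfold Mat
  rw [show (15 / 2 + 1 : ℕ) = 8 from rfl]
  simp [sum_range_succ, Nat.choose]
  try ring

theorem m15_3 (γ : ℕ → ℝ) : Mat 15 γ 3 = (320320) * γ 0 + (64064) * γ 1 + (11440) * γ 2 + (1760) * γ 3 + (220) * γ 4 + (20) * γ 5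
       + (1) * γ 6 + (0) * γ 7 := by
  unfold Mat
  rw [show (15 / 2 + 1 : ℕ) = 8 from rfl]
  simp [sum_range_succ, Nat.choose]
  try ring

theorem m15_4 (γ : ℕ → ℝ) : Mat 15 γ 4 = (1647360) * γ 0 + (439296) * γ 1 + (109824) * γ 2 + (25344) * γ 3 + (5280) * γ 4
       + (960) * γ 5 + (144) * γ 6 + (16) * γ 7 := by
  unfold Mat
  rw [show (15 / 2 + 1 : ℕ) = 8 from rfl]
  simp [sum_range_succ, Nat.choose]
  try ring

theorem m15_5 (γ : ℕ → ℝ) : Mat 15 γ 5 = (3075072) * γ 0 + (1025024) * γ 1 + (329472) * γ 2 + (101376) * γ 3 + (29568) * γ 4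
       + (8064) * γ 5 + (2016) * γ 6 + (448) * γ 7 := by
  unfold Mat
  rw [show (15 / 2 + 1 : ℕ) = 8 from rfl]
  simp [sum_range_succ, Nat.choose]
  try ring

theorem m15_6 (γ : ℕ → ℝ) : Mat 15 γ 6 = (1863680) * γ 0 + (745472) * γ 1 + (292864) * γ 2 + (112640) * γ 3 + (42240) * γ 4
       + (15360) * γ 5 + (5376) * γ 6 + (1792) * γ 7 := by
  unfold Mat
  rw [show (15 / 2 + 1 : ℕ) = 8 from rfl]
  simp [sum_range_succ, Nat.choose]
  try ring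

theorem m15_7 (γ : ℕ → ℝ) : Mat 15 γ 7 = (245760) * γ 0 + (114688) * γ 1 + (53248) * γ 2 + (24576) * γ 3 + (11264) * γ 4
       + (5120) * γ 5 + (2304) * γ 6 + (1024) * γ 7 := by
  unfold Mat
  rw [show (15 / 2 + 1 : ℕ) = 8 from rfl]
  simp [sum_range_succ, Nat.choose]
  try ring

theorem mm15_0 (γ : ℕ → ℝ) : Mat 15 (Mat 15 γ) 0 =
      (1) * γ 0 + (0) * γ 1 + (0) * γ 2 + (0) * γ 3 + (0) * γ 4 + (0) * γ 5 + (0) * γ 6 + (0) * γ 7 := by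
  rw [m15_0]
  simp only [m15_0, m15_1, m15_2, m15_3, m15_4, m15_5, m15_6, m15_7]
  ring

theorem mm15_1 (γ : ℕ → ℝ) : Mat 15 (Mat 15 γ) 1 =
      (34020) * γ 0 + (3696) * γ 1 + (340) * γ 2 + (24) * γ 3 + (1) * γ 4 + (0) * γ 5 + (0) * γ 6
       + (0) * γ 7 := by
  rw [m15_1]
  simp only [m15_0, m15_1, m15_2, m15_3, m15_4, m15_5, m15_6, m15_7]
  ring

theorem mm15_2 (γ : ℕ → ℝ) : Mat 15 (Mat 15 γ) 2 =
      (17394000) * γ 0 + (2966912) * γ 1 + (484640) * γ 2 + (75072) * γ 3 + (10872) * γ 4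
       + (1440) * γ 5 + (168) * γ 6 + (16) * γ 7 := by
  rw [m15_2]
  simp only [m15_0, m15_1, m15_2, m15_3, m15_4, m15_5, m15_6, m15_7]
  ring

theorem mm15_3 (γ : ℕ → ℝ) : Mat 15 (Mat 15 γ) 3 =
      (1266624320) * γ 0 + (265750784) * γ 1 + (54811328) * γ 2 + (11088000) * γ 3
       + (2193840) * γ 4 + (423040) * γ 5 + (79136) * γ 6 + (14272) * γ 7 := by
  rw [m15_3]
  simp only [m15_0, m15_1, m15_2, m15_3, m15_4, m15_5, m15_6, m15_7]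
  ring

theorem mm15_4 (γ : ℕ → ℝ) : Mat 15 (Mat 15 γ) 4 =
      (22625329920) * γ 0 + (5368434688) * γ 1 + (1263827968) * γ 2 + (294991872) * γ 3
       + (68211968) * γ 4 + (15610880) * γ 5 + (3532032) * γ 6 + (788992) * γ 7 := by
  rw [m15_4]
  simp only [m15_0, m15_1, m15_2, m15_3, m15_4, m15_5, m15_6, m15_7]
  ring

theorem mm15_5 (γ : ℕ → ℝ) : Mat 15 (Mat 15 γ) 5 =
      (117475814400) * γ 0 + (30291824640) * γ 1 + (7781968896) * γ 2 + (1991288832) * γ 3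
       + (507389696) * γ 4 + (128700416) * γ 5 + (32486400) * γ 6 + (8157184) * γ 7 := by
  rw [m15_5]
  simp only [m15_0, m15_1, m15_2, m15_3, m15_4, m15_5, m15_6, m15_7]
  ring

theorem mm15_6 (γ : ℕ → ℝ) : Mat 15 (Mat 15 γ) 6 =
      (170069094400) * γ 0 + (46603272192) * γ 1 + (12750233600) * γ 2 + (3482533888) * γ 3
       + (949532672) * γ 4 + (258416640) * γ 5 + (70191104) * γ 6 + (19025920) * γ 7 := by
  rw [m15_6]
  simp only [m15_0, m15_1, m15_2, m15_3, m15_4, m15_5, m15_6, m15_7]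
  ring

theorem mm15_7 (γ : ℕ → ℝ) : Mat 15 (Mat 15 γ) 7 =
      (47929344000) * γ 0 + (13764067328) * γ 1 + (3951116288) * γ 2 + (1133740032) * γ 3
       + (325177344) * γ 4 + (93224960) * γ 5 + (26714112) * γ 6 + (7651328) * γ 7 := by
  rw [m15_7]
  simp only [m15_0, m15_1, m15_2, m15_3, m15_4, m15_5, m15_6, m15_7]
  ring

theorem p15_0 (γ : ℕ → ℝ) (h0 : γ 0 = 1)
    (h : ∀ n < 15, 2 * (((15 : ℕ) : ℝ) - ((n : ℕ) : ℝ)) * ∑ i ∈ range (15 / 2 + 1), γ i * (cfn 15 i n : ℝ) ≤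
      ((n : ℝ) + 1) * ∑ i ∈ range (15 / 2 + 1), γ i * (cfn 15 i (n + 1) : ℝ)) :
    0 < Mat 15 (Mat 15 (Mat 15 γ)) 0 := by

  rw [m15_0]
  simp only [mm15_0, mm15_1, mm15_2, mm15_3, mm15_4, mm15_5, mm15_6, mm15_7]
  linarith only [h0]

theorem p15_1 (γ : ℕ → ℝ) (h0 : γ 0 = 1)
    (h : ∀ n < 15, 2 * (((15 : ℕ) : ℝ) - ((n : ℕ) : ℝ)) * ∑ i ∈ range (15 / 2 + 1), γ i * (cfn 15 i n : ℝ) ≤
      ((n : ℝ) + 1) * ∑ i ∈ range (15 / 2 + 1), γ i * (cfn 15 i (n + 1) : ℝ)) :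
    0 < Mat 15 (Mat 15 (Mat 15 γ)) 1 := by
  have k0 := q15_0 γ h0 h
  have k1 := q15_1 γ h0 h
  have k3 := q15_3 γ h0 h
  have k5 := q15_5 γ h0 h
  have k2 := q15_2 γ h0 h
  have k6 := q15_6 γ h0 h
  have k4 := q15_4 γ h0 h
  rw [m15_1]
  simp only [mm15_0, mm15_1, mm15_2, mm15_3, mm15_4, mm15_5, mm15_6, mm15_7]
  linarith only [h0, k0, k1, k3, k5, k2, k6, k4]

theorem p15_2 (γ : ℕ → ℝ) (h0 : γ 0 = 1)
    (h : ∀ n < 15, 2 * (((15 : ℕ) : ℝ) - ((n : ℕ) : ℝ)) * ∑ i ∈ range (15 / 2 + 1), γ i * (cfn 15 i n : ℝ) ≤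
      ((n : ℝ) + 1) * ∑ i ∈ range (15 / 2 + 1), γ i * (cfn 15 i (n + 1) : ℝ)) :
    0 < Mat 15 (Mat 15 (Mat 15 γ)) 2 := by
  have k0 := q15_0 γ h0 h
  have k7 := q15_7 γ h0 h
  have k1 := q15_1 γ h0 h
  have k4 := q15_4 γ h0 h
  have k2 := q15_2 γ h0 h
  have k8 := q15_8 γ h0 h
  have k5 := q15_5 γ h0 h
  rw [m15_2]
  simp only [mm15_0, mm15_1, mm15_2, mm15_3, mm15_4, mm15_5, mm15_6, mm15_7]
  linarith only [h0, k0, k7, k1, k4, k2, k8, k5]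

theorem p15_3 (γ : ℕ → ℝ) (h0 : γ 0 = 1)
    (h : ∀ n < 15, 2 * (((15 : ℕ) : ℝ) - ((n : ℕ) : ℝ)) * ∑ i ∈ range (15 / 2 + 1), γ i * (cfn 15 i n : ℝ) ≤
      ((n : ℝ) + 1) * ∑ i ∈ range (15 / 2 + 1), γ i * (cfn 15 i (n + 1) : ℝ)) :
    0 < Mat 15 (Mat 15 (Mat 15 γ)) 3 := by
  have k0 := q15_0 γ h0 h
  have k1 := q15_1 γ h0 h
  have k9 := q15_9 γ h0 h
  have k2 := q15_2 γ h0 h
  have k8 := q15_8 γ h0 h
  have k4 := q15_4 γ h0 h
  have k5 := q15_5 γ h0 h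
  rw [m15_3]
  simp only [mm15_0, mm15_1, mm15_2, mm15_3, mm15_4, mm15_5, mm15_6, mm15_7]
  linarith only [h0, k0, k1, k9, k2, k8, k4, k5]

theorem p15_4 (γ : ℕ → ℝ) (h0 : γ 0 = 1)
    (h : ∀ n < 15, 2 * (((15 : ℕ) : ℝ) - ((n : ℕ) : ℝ)) * ∑ i ∈ range (15 / 2 + 1), γ i * (cfn 15 i n : ℝ) ≤
      ((n : ℝ) + 1) * ∑ i ∈ range (15 / 2 + 1), γ i * (cfn 15 i (n + 1) : ℝ)) :
    0 < Mat 15 (Mat 15 (Mat 15 γ)) 4 := by
  have k0 := q15_0 γ h0 h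
  have k8 := q15_8 γ h0 h
  have k1 := q15_1 γ h0 h
  have k4 := q15_4 γ h0 h
  have k2 := q15_2 γ h0 h
  have k9 := q15_9 γ h0 h
  have k5 := q15_5 γ h0 h
  rw [m15_4]
  simp only [mm15_0, mm15_1, mm15_2, mm15_3, mm15_4, mm15_5, mm15_6, mm15_7]
  linarith only [h0, k0, k8, k1, k4, k2, k9, k5]

theorem p15_5 (γ : ℕ → ℝ) (h0 : γ 0 = 1)
    (h : ∀ n < 15, 2 * (((15 : ℕ) : ℝ) - ((n : ℕ) : ℝ)) * ∑ i ∈ range (15 / 2 + 1), γ i * (cfn 15 i n : ℝ) ≤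
      ((n : ℝ) + 1) * ∑ i ∈ range (15 / 2 + 1), γ i * (cfn 15 i (n + 1) : ℝ)) :
    0 < Mat 15 (Mat 15 (Mat 15 γ)) 5 := by
  have k0 := q15_0 γ h0 h
  have k8 := q15_8 γ h0 h
  have k9 := q15_9 γ h0 h
  have k1 := q15_1 γ h0 h
  have k2 := q15_2 γ h0 h
  have k4 := q15_4 γ h0 h
  have k5 := q15_5 γ h0 h
  rw [m15_5]
  simp only [mm15_0, mm15_1, mm15_2, mm15_3, mm15_4, mm15_5, mm15_6, mm15_7]
  linarith only [h0, k0, k8, k9, k1, k2, k4, k5]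

theorem p15_6 (γ : ℕ → ℝ) (h0 : γ 0 = 1)
    (h : ∀ n < 15, 2 * (((15 : ℕ) : ℝ) - ((n : ℕ) : ℝ)) * ∑ i ∈ range (15 / 2 + 1), γ i * (cfn 15 i n : ℝ) ≤
      ((n : ℝ) + 1) * ∑ i ∈ range (15 / 2 + 1), γ i * (cfn 15 i (n + 1) : ℝ)) :
    0 < Mat 15 (Mat 15 (Mat 15 γ)) 6 := by
  have k5 := q15_5 γ h0 h
  have k0 := q15_0 γ h0 h
  have k2 := q15_2 γ h0 h
  have k1 := q15_1 γ h0 h
  have k9 := q15_9 γ h0 h
  have k4 := q15_4 γ h0 h
  have k10 := q15_10 γ h0 h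
  rw [m15_6]
  simp only [mm15_0, mm15_1, mm15_2, mm15_3, mm15_4, mm15_5, mm15_6, mm15_7]
  linarith only [h0, k5, k0, k2, k1, k9, k4, k10]

theorem p15_7 (γ : ℕ → ℝ) (h0 : γ 0 = 1)
    (h : ∀ n < 15, 2 * (((15 : ℕ) : ℝ) - ((n : ℕ) : ℝ)) * ∑ i ∈ range (15 / 2 + 1), γ i * (cfn 15 i n : ℝ) ≤
      ((n : ℝ) + 1) * ∑ i ∈ range (15 / 2 + 1), γ i * (cfn 15 i (n + 1) : ℝ)) :
    0 < Mat 15 (Mat 15 (Mat 15 γ)) 7 := by
  have k5 := q15_5 γ h0 h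
  have k0 := q15_0 γ h0 h
  have k2 := q15_2 γ h0 h
  have k1 := q15_1 γ h0 h
  have k9 := q15_9 γ h0 h
  have k4 := q15_4 γ h0 h
  have k10 := q15_10 γ h0 h
  rw [m15_7]
  simp only [mm15_0, mm15_1, mm15_2, mm15_3, mm15_4, mm15_5, mm15_6, mm15_7]
  linarith only [h0, k5, k0, k2, k1, k9, k4, k10]

theorem main15 (γ : ℕ → ℝ) (h0 : γ 0 = 1)
    (h : ∀ n < 15, 2 * (((15 : ℕ) : ℝ) - ((n : ℕ) : ℝ)) * ∑ i ∈ range (15 / 2 + 1), γ i * (cfn 15 i n : ℝ) ≤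
      ((n : ℝ) + 1) * ∑ i ∈ range (15 / 2 + 1), γ i * (cfn 15 i (n + 1) : ℝ)) :
    ∀ j ≤ 15 / 2, 0 < Mat 15 (Mat 15 (Mat 15 γ)) j := by
  intro j hj
  have hj' : j ≤ 7 := hj
  clear hj
  interval_cases j
  · exact p15_0 γ h0 h
  · exact p15_1 γ h0 h
  · exact p15_2 γ h0 h
  · exact p15_3 γ h0 h
  · exact p15_4 γ h0 h
  · exact p15_5 γ h0 h
  · exact p15_6 γ h0 h
  · exact p15_7 γ h0 h

theorem c16_0 (γ : ℕ → ℝ) : ∑ i ∈ range (16 / 2 + 1), γ i * (cfn 16 i 0 : ℝ) =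
    (1) * γ 0 + (0) * γ 1 + (0) * γ 2 + (0) * γ 3 + (0) * γ 4 + (0) * γ 5 + (0) * γ 6 + (0) * γ 7
       + (0) * γ 8 := by
  have h : ((16 / 2 + 1 : ℕ)) = 9 := rfl
  rw [h]
  simp only [sum_range_succ, sum_range_zero, show cfn 16 0 0 = 1 from by decide +kernel, show cfn 16 1 0 = 0 from by decide +kernel, show cfn 16 2 0 = 0 from by decide +kernel, show cfn 16 3 0 = 0 from by decide +kernel, show cfn 16 4 0 = 0 from by decide +kernel, show cfn 16 5 0 = 0 from by decide +kernel, show cfn 16 6 0 = 0 from by decide +kernel, show cfn 16 7 0 = 0 from by decide +kernel, show cfn 16 8 0 = 0 from by decide +kernel, Nat.cast_ofNat, Nat.cast_one, Nat.cast_zero]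
  ring

theorem c16_1 (γ : ℕ → ℝ) : ∑ i ∈ range (16 / 2 + 1), γ i * (cfn 16 i 1 : ℝ) =
    (32) * γ 0 + (1) * γ 1 + (0) * γ 2 + (0) * γ 3 + (0) * γ 4 + (0) * γ 5 + (0) * γ 6
       + (0) * γ 7 + (0) * γ 8 := by
  have h : ((16 / 2 + 1 : ℕ)) = 9 := rfl
  rw [h]
  simp only [sum_range_succ, sum_range_zero, show cfn 16 0 1 = 32 from by decide +kernel, show cfn 16 1 1 = 1 from by decide +kernel, show cfn 16 2 1 = 0 from by decide +kernel, show cfn 16 3 1 = 0 from by decide +kernel, show cfn 16 4 1 = 0 from by decide +kernel, show cfn 16 5 1 = 0 from by decide +kernel, show cfn 16 6 1 = 0 from by decide +kernel, show cfn 16 7 1 = 0 from by decide +kernel, show cfn 16 8 1 = 0 from by decide +kernel, Nat.cast_ofNat, Nat.cast_one, Nat.cast_zero]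
  ring

theorem c16_2 (γ : ℕ → ℝ) : ∑ i ∈ range (16 / 2 + 1), γ i * (cfn 16 i 2 : ℝ) =
    (480) * γ 0 + (29) * γ 1 + (1) * γ 2 + (0) * γ 3 + (0) * γ 4 + (0) * γ 5 + (0) * γ 6
       + (0) * γ 7 + (0) * γ 8 := by
  have h : ((16 / 2 + 1 : ℕ)) = 9 := rfl
  rw [h]
  simp only [sum_range_succ, sum_range_zero, show cfn 16 0 2 = 480 from by decide +kernel, show cfn 16 1 2 = 29 from by decide +kernel, show cfn 16 2 2 = 1 from by decide +kernel, show cfn 16 3 2 = 0 from by decide +kernel, show cfn 16 4 2 = 0 from by decide +kernel, show cfn 16 5 2 = 0 from by decide +kernel, show cfn 16 6 2 = 0 from by decide +kernel, show cfn 16 7 2 = 0 from by decide +kernel, show cfn 16 8 2 = 0 from by decide +kernel, Nat.cast_ofNat, Nat.cast_one, Nat.cast_zero]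
  ring

theorem c16_3 (γ : ℕ → ℝ) : ∑ i ∈ range (16 / 2 + 1), γ i * (cfn 16 i 3 : ℝ) =
    (4480) * γ 0 + (392) * γ 1 + (26) * γ 2 + (1) * γ 3 + (0) * γ 4 + (0) * γ 5 + (0) * γ 6
       + (0) * γ 7 + (0) * γ 8 := by
  have h : ((16 / 2 + 1 : ℕ)) = 9 := rfl
  rw [h]
  simp only [sum_range_succ, sum_range_zero, show cfn 16 0 3 = 4480 from by decide +kernel, show cfn 16 1 3 = 392 from by decide +kernel, show cfn 16 2 3 = 26 from by decide +kernel, show cfn 16 3 3 = 1 from by decide +kernel, show cfn 16 4 3 = 0 from by decide +kernel, show cfn 16 5 3 = 0 from by decide +kernel, show cfn 16 6 3 = 0 from by decide +kernel, show cfn 16 7 3 = 0 from by decide +kernel, show cfn 16 8 3 = 0 from by decide +kernel, Nat.cast_ofNat, Nat.cast_one, Nat.cast_zero]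
  ring

theorem c16_4 (γ : ℕ → ℝ) : ∑ i ∈ range (16 / 2 + 1), γ i * (cfn 16 i 4 : ℝ) =
    (29120) * γ 0 + (3276) * γ 1 + (313) * γ 2 + (23) * γ 3 + (1) * γ 4 + (0) * γ 5 + (0) * γ 6
       + (0) * γ 7 + (0) * γ 8 := by
  have h : ((16 / 2 + 1 : ℕ)) = 9 := rfl
  rw [h]
  simp only [sum_range_succ, sum_range_zero, show cfn 16 0 4 = 29120 from by decide +kernel, show cfn 16 1 4 = 3276 from by decide +kernel, show cfn 16 2 4 = 313 from by decide +kernel, show cfn 16 3 4 = 23 from by decide +kernel, show cfn 16 4 4 = 1 from by decide +kernel, show cfn 16 5 4 = 0 from by decide +kernel, show cfn 16 6 4 = 0 from by decide +kernel, show cfn 16 7 4 = 0 from by decide +kernel, show cfn 16 8 4 = 0 from by decide +kernel, Nat.cast_ofNat, Nat.cast_one, Nat.cast_zero]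
  ring

theorem c16_5 (γ : ℕ → ℝ) : ∑ i ∈ range (16 / 2 + 1), γ i * (cfn 16 i 5 : ℝ) =
    (139776) * γ 0 + (18928) * γ 1 + (2312) * γ 2 + (243) * γ 3 + (20) * γ 4 + (1) * γ 5
       + (0) * γ 6 + (0) * γ 7 + (0) * γ 8 := by
  have h : ((16 / 2 + 1 : ℕ)) = 9 := rfl
  rw [h]
  simp only [sum_range_succ, sum_range_zero, show cfn 16 0 5 = 139776 from by decide +kernel, show cfn 16 1 5 = 18928 from by decide +kernel, show cfn 16 2 5 = 2312 from by decide +kernel, show cfn 16 3 5 = 243 from by decide +kernel, show cfn 16 4 5 = 20 from by decide +kernel, show cfn 16 5 5 = 1 from by decide +kernel, show cfn 16 6 5 = 0 from by decide +kernel, show cfn 16 7 5 = 0 from by decide +kernel, show cfn 16 8 5 = 0 from by decide +kernel, Nat.cast_ofNat, Nat.cast_one, Nat.cast_zero]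
  ring

theorem c16_6 (γ : ℕ → ℝ) : ∑ i ∈ range (16 / 2 + 1), γ i * (cfn 16 i 6 : ℝ) =
    (512512) * γ 0 + (80080) * γ 1 + (11704) * γ 2 + (1561) * γ 3 + (182) * γ 4 + (17) * γ 5
       + (1) * γ 6 + (0) * γ 7 + (0) * γ 8 := by
  have h : ((16 / 2 + 1 : ℕ)) = 9 := rfl
  rw [h]
  simp only [sum_range_succ, sum_range_zero, show cfn 16 0 6 = 512512 from by decide +kernel, show cfn 16 1 6 = 80080 from by decide +kernel, show cfn 16 2 6 = 11704 from by decide +kernel, show cfn 16 3 6 = 1561 from by decide +kernel, show cfn 16 4 6 = 182 from by decide +kernel, show cfn 16 5 6 = 17 from by decide +kernel, show cfn 16 6 6 = 1 from by decide +kernel, show cfn 16 7 6 = 0 from by decide +kernel, show cfn 16 8 6 = 0 from by decide +kernel, Nat.cast_ofNat, Nat.cast_one, Nat.cast_zero]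
  ring

theorem c16_7 (γ : ℕ → ℝ) : ∑ i ∈ range (16 / 2 + 1), γ i * (cfn 16 i 7 : ℝ) =
    (1464320) * γ 0 + (256256) * γ 1 + (42944) * γ 2 + (6800) * γ 3 + (996) * γ 4 + (130) * γ 5
       + (14) * γ 6 + (1) * γ 7 + (0) * γ 8 := by
  have h : ((16 / 2 + 1 : ℕ)) = 9 := rfl
  rw [h]
  simp only [sum_range_succ, sum_range_zero, show cfn 16 0 7 = 1464320 from by decide +kernel, show cfn 16 1 7 = 256256 from by decide +kernel, show cfn 16 2 7 = 42944 from by decide +kernel, show cfn 16 3 7 = 6800 from by decide +kernel, show cfn 16 4 7 = 996 from by decide +kernel, show cfn 16 5 7 = 130 from by decide +kernel, show cfn 16 6 7 = 14 from by decide +kernel, show cfn 16 7 7 = 1 from by decide +kernel, show cfn 16 8 7 = 0 from by decide +kernel, Nat.cast_ofNat, Nat.cast_one, Nat.cast_zero]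
  ring

theorem c16_8 (γ : ℕ → ℝ) : ∑ i ∈ range (16 / 2 + 1), γ i * (cfn 16 i 8 : ℝ) =
    (3294720) * γ 0 + (631488) * γ 1 + (117744) * γ 2 + (21204) * γ 3 + (3649) * γ 4
       + (590) * γ 5 + (87) * γ 6 + (11) * γ 7 + (1) * γ 8 := by
  have h : ((16 / 2 + 1 : ℕ)) = 9 := rfl
  rw [h]
  simp only [sum_range_succ, sum_range_zero, show cfn 16 0 8 = 3294720 from by decide +kernel, show cfn 16 1 8 = 631488 from by decide +kernel, show cfn 16 2 8 = 117744 from by decide +kernel, show cfn 16 3 8 = 21204 from by decide +kernel, show cfn 16 4 8 = 3649 from by decide +kernel, show cfn 16 5 8 = 590 from by decide +kernel, show cfn 16 6 8 = 87 from by decide +kernel, show cfn 16 7 8 = 11 from by decide +kernel, show cfn 16 8 8 = 1 from by decide +kernel, Nat.cast_ofNat, Nat.cast_one, Nat.cast_zero]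
  ring

theorem c16_9 (γ : ℕ → ℝ) : ∑ i ∈ range (16 / 2 + 1), γ i * (cfn 16 i 9 : ℝ) =
    (5857280) * γ 0 + (1208064) * γ 1 + (244992) * γ 2 + (48672) * γ 3 + (9424) * γ 4
       + (1765) * γ 5 + (316) * γ 6 + (53) * γ 7 + (8) * γ 8 := by
  have h : ((16 / 2 + 1 : ℕ)) = 9 := rfl
  rw [h]
  simp only [sum_range_succ, sum_range_zero, show cfn 16 0 9 = 5857280 from by decide +kernel, show cfn 16 1 9 = 1208064 from by decide +kernel, show cfn 16 2 9 = 244992 from by decide +kernel, show cfn 16 3 9 = 48672 from by decide +kernel, show cfn 16 4 9 = 9424 from by decide +kernel, show cfn 16 5 9 = 1765 from by decide +kernel, show cfn 16 6 9 = 316 from by decide +kernel, show cfn 16 7 9 = 53 from by decide +kernel, show cfn 16 8 9 = 8 from by decide +kernel, Nat.cast_ofNat, Nat.cast_one, Nat.cast_zero]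
  ring

theorem c16_10 (γ : ℕ → ℝ) : ∑ i ∈ range (16 / 2 + 1), γ i * (cfn 16 i 10 : ℝ) =
    (8200192) * γ 0 + (1793792) * γ 1 + (388608) * γ 2 + (83232) * γ 3 + (17584) * γ 4
       + (3653) * γ 5 + (743) * γ 6 + (147) * γ 7 + (28) * γ 8 := by
  have h : ((16 / 2 + 1 : ℕ)) = 9 := rfl
  rw [h]
  simp only [sum_range_succ, sum_range_zero, show cfn 16 0 10 = 8200192 from by decide +kernel, show cfn 16 1 10 = 1793792 from by decide +kernel, show cfn 16 2 10 = 388608 from by decide +kernel, show cfn 16 3 10 = 83232 from by decide +kernel, show cfn 16 4 10 = 17584 from by decide +kernel, show cfn 16 5 10 = 3653 from by decide +kernel, show cfn 16 6 10 = 743 from by decide +kernel, show cfn 16 7 10 = 147 from by decide +kernel, show cfn 16 8 10 = 28 from by decide +kernel, Nat.cast_ofNat, Nat.cast_one, Nat.cast_zero]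
  ring

theorem c16_11 (γ : ℕ → ℝ) : ∑ i ∈ range (16 / 2 + 1), γ i * (cfn 16 i 11 : ℝ) =
    (8945664) * γ 0 + (2050048) * γ 1 + (467456) * γ 2 + (105984) * γ 3 + (23872) * γ 4
       + (5336) * γ 5 + (1182) * γ 6 + (259) * γ 7 + (56) * γ 8 := by
  have h : ((16 / 2 + 1 : ℕ)) = 9 := rfl
  rw [h]
  simp only [sum_range_succ, sum_range_zero, show cfn 16 0 11 = 8945664 from by decide +kernel, show cfn 16 1 11 = 2050048 from by decide +kernel, show cfn 16 2 11 = 467456 from by decide +kernel, show cfn 16 3 11 = 105984 from by decide +kernel, show cfn 16 4 11 = 23872 from by decide +kernel, show cfn 16 5 11 = 5336 from by decide +kernel, show cfn 16 6 11 = 1182 from by decide +kernel, show cfn 16 7 11 = 259 from by decide +kernel, show cfn 16 8 11 = 56 from by decide +kernel, Nat.cast_ofNat, Nat.cast_one, Nat.cast_zero]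
  ring

theorem c16_12 (γ : ℕ → ℝ) : ∑ i ∈ range (16 / 2 + 1), γ i * (cfn 16 i 12 : ℝ) =
    (7454720) * γ 0 + (1770496) * γ 1 + (419584) * γ 2 + (99200) * γ 3 + (23392) * γ 4
       + (5500) * γ 5 + (1289) * γ 6 + (301) * γ 7 + (70) * γ 8 := by
  have h : ((16 / 2 + 1 : ℕ)) = 9 := rfl
  rw [h]
  simp only [sum_range_succ, sum_range_zero, show cfn 16 0 12 = 7454720 from by decide +kernel, show cfn 16 1 12 = 1770496 from by decide +kernel, show cfn 16 2 12 = 419584 from by decide +kernel, show cfn 16 3 12 = 99200 from by decide +kernel, show cfn 16 4 12 = 23392 from by decide +kernel, show cfn 16 5 12 = 5500 from by decide +kernel, show cfn 16 6 12 = 1289 from by decide +kernel, show cfn 16 7 12 = 301 from by decide +kernel, show cfn 16 8 12 = 70 from by decide +kernel, Nat.cast_ofNat, Nat.cast_one, Nat.cast_zero]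
  ring

theorem q16_0 (γ : ℕ → ℝ) (h0 : γ 0 = 1)
    (h : ∀ n < 16, 2 * (((16 : ℕ) : ℝ) - ((n : ℕ) : ℝ)) * ∑ i ∈ range (16 / 2 + 1), γ i * (cfn 16 i n : ℝ) ≤
      ((n : ℝ) + 1) * ∑ i ∈ range (16 / 2 + 1), γ i * (cfn 16 i (n + 1) : ℝ)) :
    0 ≤ (0) * γ 0 + (1) * γ 1 + (0) * γ 2 + (0) * γ 3 + (0) * γ 4 + (0) * γ 5 + (0) * γ 6 + (0) * γ 7
       + (0) * γ 8 := by
  have h1 := h 0 (by norm_num)
  rw [show 0 + 1 = 1 from rfl, c16_0, c16_1] at h1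
  norm_num [h0] at h1 ⊢
  linarith

theorem q16_1 (γ : ℕ → ℝ) (h0 : γ 0 = 1)
    (h : ∀ n < 16, 2 * (((16 : ℕ) : ℝ) - ((n : ℕ) : ℝ)) * ∑ i ∈ range (16 / 2 + 1), γ i * (cfn 16 i n : ℝ) ≤
      ((n : ℝ) + 1) * ∑ i ∈ range (16 / 2 + 1), γ i * (cfn 16 i (n + 1) : ℝ)) :
    0 ≤ (0) * γ 0 + (28) * γ 1 + (2) * γ 2 + (0) * γ 3 + (0) * γ 4 + (0) * γ 5 + (0) * γ 6
       + (0) * γ 7 + (0) * γ 8 := by
  have h1 := h 1 (by norm_num)
  rw [show 1 + 1 = 2 from rfl, c16_1, c16_2] at h1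
  norm_num [h0] at h1 ⊢
  linarith

theorem q16_2 (γ : ℕ → ℝ) (h0 : γ 0 = 1)
    (h : ∀ n < 16, 2 * (((16 : ℕ) : ℝ) - ((n : ℕ) : ℝ)) * ∑ i ∈ range (16 / 2 + 1), γ i * (cfn 16 i n : ℝ) ≤
      ((n : ℝ) + 1) * ∑ i ∈ range (16 / 2 + 1), γ i * (cfn 16 i (n + 1) : ℝ)) :
    0 ≤ (0) * γ 0 + (364) * γ 1 + (50) * γ 2 + (3) * γ 3 + (0) * γ 4 + (0) * γ 5 + (0) * γ 6
       + (0) * γ 7 + (0) * γ 8 := by
  have h1 := h 2 (by norm_num)
  rw [show 2 + 1 = 3 from rfl, c16_2, c16_3] at h1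
  norm_num [h0] at h1 ⊢
  linarith

theorem q16_3 (γ : ℕ → ℝ) (h0 : γ 0 = 1)
    (h : ∀ n < 16, 2 * (((16 : ℕ) : ℝ) - ((n : ℕ) : ℝ)) * ∑ i ∈ range (16 / 2 + 1), γ i * (cfn 16 i n : ℝ) ≤
      ((n : ℝ) + 1) * ∑ i ∈ range (16 / 2 + 1), γ i * (cfn 16 i (n + 1) : ℝ)) :
    0 ≤ (0) * γ 0 + (2912) * γ 1 + (576) * γ 2 + (66) * γ 3 + (4) * γ 4 + (0) * γ 5 + (0) * γ 6
       + (0) * γ 7 + (0) * γ 8 := by
  have h1 := h 3 (by norm_num)
  rw [show 3 + 1 = 4 from rfl, c16_3, c16_4] at h1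
  norm_num [h0] at h1 ⊢
  linarith

theorem q16_4 (γ : ℕ → ℝ) (h0 : γ 0 = 1)
    (h : ∀ n < 16, 2 * (((16 : ℕ) : ℝ) - ((n : ℕ) : ℝ)) * ∑ i ∈ range (16 / 2 + 1), γ i * (cfn 16 i n : ℝ) ≤
      ((n : ℝ) + 1) * ∑ i ∈ range (16 / 2 + 1), γ i * (cfn 16 i (n + 1) : ℝ)) :
    0 ≤ (0) * γ 0 + (16016) * γ 1 + (4048) * γ 2 + (663) * γ 3 + (76) * γ 4 + (5) * γ 5 + (0) * γ 6
       + (0) * γ 7 + (0) * γ 8 := by
  have h1 := h 4 (by norm_num)
  rw [show 4 + 1 = 5 from rfl, c16_4, c16_5] at h1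
  norm_num [h0] at h1 ⊢
  linarith

theorem q16_5 (γ : ℕ → ℝ) (h0 : γ 0 = 1)
    (h : ∀ n < 16, 2 * (((16 : ℕ) : ℝ) - ((n : ℕ) : ℝ)) * ∑ i ∈ range (16 / 2 + 1), γ i * (cfn 16 i n : ℝ) ≤
      ((n : ℝ) + 1) * ∑ i ∈ range (16 / 2 + 1), γ i * (cfn 16 i (n + 1) : ℝ)) :
    0 ≤ (0) * γ 0 + (64064) * γ 1 + (19360) * γ 2 + (4020) * γ 3 + (652) * γ 4 + (80) * γ 5
       + (6) * γ 6 + (0) * γ 7 + (0) * γ 8 := by
  have h1 := h 5 (by norm_num)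
  rw [show 5 + 1 = 6 from rfl, c16_5, c16_6] at h1
  norm_num [h0] at h1 ⊢
  linarith

theorem q16_6 (γ : ℕ → ℝ) (h0 : γ 0 = 1)
    (h : ∀ n < 16, 2 * (((16 : ℕ) : ℝ) - ((n : ℕ) : ℝ)) * ∑ i ∈ range (16 / 2 + 1), γ i * (cfn 16 i n : ℝ) ≤
      ((n : ℝ) + 1) * ∑ i ∈ range (16 / 2 + 1), γ i * (cfn 16 i (n + 1) : ℝ)) :
    0 ≤ (0) * γ 0 + (192192) * γ 1 + (66528) * γ 2 + (16380) * γ 3 + (3332) * γ 4 + (570) * γ 5
       + (78) * γ 6 + (7) * γ 7 + (0) * γ 8 := by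
  have h1 := h 6 (by norm_num)
  rw [show 6 + 1 = 7 from rfl, c16_6, c16_7] at h1
  norm_num [h0] at h1 ⊢
  linarith

theorem q16_7 (γ : ℕ → ℝ) (h0 : γ 0 = 1)
    (h : ∀ n < 16, 2 * (((16 : ℕ) : ℝ) - ((n : ℕ) : ℝ)) * ∑ i ∈ range (16 / 2 + 1), γ i * (cfn 16 i n : ℝ) ≤
      ((n : ℝ) + 1) * ∑ i ∈ range (16 / 2 + 1), γ i * (cfn 16 i (n + 1) : ℝ)) :
    0 ≤ (0) * γ 0 + (439296) * γ 1 + (168960) * γ 2 + (47232) * γ 3 + (11264) * γ 4 + (2380) * γ 5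
       + (444) * γ 6 + (70) * γ 7 + (8) * γ 8 := by
  have h1 := h 7 (by norm_num)
  rw [show 7 + 1 = 8 from rfl, c16_7, c16_8] at h1
  norm_num [h0] at h1 ⊢
  linarith

theorem q16_8 (γ : ℕ → ℝ) (h0 : γ 0 = 1)
    (h : ∀ n < 16, 2 * (((16 : ℕ) : ℝ) - ((n : ℕ) : ℝ)) * ∑ i ∈ range (16 / 2 + 1), γ i * (cfn 16 i n : ℝ) ≤
      ((n : ℝ) + 1) * ∑ i ∈ range (16 / 2 + 1), γ i * (cfn 16 i (n + 1) : ℝ)) :
    0 ≤ (0) * γ 0 + (768768) * γ 1 + (321024) * γ 2 + (98784) * γ 3 + (26432) * γ 4 + (6445) * γ 5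
       + (1452) * γ 6 + (301) * γ 7 + (56) * γ 8 := by
  have h1 := h 8 (by norm_num)
  rw [show 8 + 1 = 9 from rfl, c16_8, c16_9] at h1
  norm_num [h0] at h1 ⊢
  linarith

theorem q16_9 (γ : ℕ → ℝ) (h0 : γ 0 = 1)
    (h : ∀ n < 16, 2 * (((16 : ℕ) : ℝ) - ((n : ℕ) : ℝ)) * ∑ i ∈ range (16 / 2 + 1), γ i * (cfn 16 i n : ℝ) ≤
      ((n : ℝ) + 1) * ∑ i ∈ range (16 / 2 + 1), γ i * (cfn 16 i (n + 1) : ℝ)) :
    0 ≤ (0) * γ 0 + (1025024) * γ 1 + (456192) * γ 2 + (150912) * γ 3 + (43904) * γ 4 + (11820) * γ 5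
       + (3006) * γ 6 + (728) * γ 7 + (168) * γ 8 := by
  have h1 := h 9 (by norm_num)
  rw [show 9 + 1 = 10 from rfl, c16_9, c16_10] at h1
  norm_num [h0] at h1 ⊢
  linarith

theorem q16_10 (γ : ℕ → ℝ) (h0 : γ 0 = 1)
    (h : ∀ n < 16, 2 * (((16 : ℕ) : ℝ) - ((n : ℕ) : ℝ)) * ∑ i ∈ range (16 / 2 + 1), γ i * (cfn 16 i n : ℝ) ≤
      ((n : ℝ) + 1) * ∑ i ∈ range (16 / 2 + 1), γ i * (cfn 16 i (n + 1) : ℝ)) :
    0 ≤ (0) * γ 0 + (1025024) * γ 1 + (478720) * γ 2 + (167040) * γ 3 + (51584) * γ 4 + (14860) * γ 5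
       + (4086) * γ 6 + (1085) * γ 7 + (280) * γ 8 := by
  have h1 := h 10 (by norm_num)
  rw [show 10 + 1 = 11 from rfl, c16_10, c16_11] at h1
  norm_num [h0] at h1 ⊢
  linarith

theorem q16_11 (γ : ℕ → ℝ) (h0 : γ 0 = 1)
    (h : ∀ n < 16, 2 * (((16 : ℕ) : ℝ) - ((n : ℕ) : ℝ)) * ∑ i ∈ range (16 / 2 + 1), γ i * (cfn 16 i n : ℝ) ≤
      ((n : ℝ) + 1) * ∑ i ∈ range (16 / 2 + 1), γ i * (cfn 16 i (n + 1) : ℝ)) :
    0 ≤ (0) * γ 0 + (745472) * γ 1 + (360448) * γ 2 + (130560) * γ 3 + (41984) * γ 4 + (12640) * γ 5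
       + (3648) * γ 6 + (1022) * γ 7 + (280) * γ 8 := by
  have h1 := h 11 (by norm_num)
  rw [show 11 + 1 = 12 from rfl, c16_11, c16_12] at h1
  norm_num [h0] at h1 ⊢
  linarith

theorem m16_0 (γ : ℕ → ℝ) : Mat 16 γ 0 = (1) * γ 0 + (0) * γ 1 + (0) * γ 2 + (0) * γ 3 + (0) * γ 4 + (0) * γ 5 + (0) * γ 6 + (0) * γ 7
       + (0) * γ 8 := by
  unfold Mat
  rw [show (16 / 2 + 1 : ℕ) = 9 from rfl]
  simp [sum_range_succ, Nat.choose]
  try ring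

theorem m16_1 (γ : ℕ → ℝ) : Mat 16 γ 1 = (480) * γ 0 + (30) * γ 1 + (1) * γ 2 + (0) * γ 3 + (0) * γ 4 + (0) * γ 5 + (0) * γ 6
       + (0) * γ 7 + (0) * γ 8 := by
  unfold Mat
  rw [show (16 / 2 + 1 : ℕ) = 9 from rfl]
  simp [sum_range_succ, Nat.choose]
  try ring

theorem m16_2 (γ : ℕ → ℝ) : Mat 16 γ 2 = (29120) * γ 0 + (3640) * γ 1 + (364) * γ 2 + (26) * γ 3 + (1) * γ 4 + (0) * γ 5 + (0) * γ 6
       + (0) * γ 7 + (0) * γ 8 := by
  unfold Mat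
  rw [show (16 / 2 + 1 : ℕ) = 9 from rfl]
  simp [sum_range_succ, Nat.choose]
  try ring

theorem m16_3 (γ : ℕ → ℝ) : Mat 16 γ 3 = (512512) * γ 0 + (96096) * γ 1 + (16016) * γ 2 + (2288) * γ 3 + (264) * γ 4 + (22) * γ 5
       + (1) * γ 6 + (0) * γ 7 + (0) * γ 8 := by
  unfold Mat
  rw [show (16 / 2 + 1 : ℕ) = 9 from rfl]
  simp [sum_range_succ, Nat.choose]
  try ring

theorem m16_4 (γ : ℕ → ℝ) : Mat 16 γ 4 = (3294720) * γ 0 + (823680) * γ 1 + (192192) * γ 2 + (41184) * γ 3 + (7920) * γ 4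
       + (1320) * γ 5 + (180) * γ 6 + (18) * γ 7 + (1) * γ 8 := by
  unfold Mat
  rw [show (16 / 2 + 1 : ℕ) = 9 from rfl]
  simp [sum_range_succ, Nat.choose]
  try ring

theorem m16_5 (γ : ℕ → ℝ) : Mat 16 γ 5 = (8200192) * γ 0 + (2562560) * γ 1 + (768768) * γ 2 + (219648) * γ 3 + (59136) * γ 4
       + (14784) * γ 5 + (3360) * γ 6 + (672) * γ 7 + (112) * γ 8 := by
  unfold Mat
  rw [show (16 / 2 + 1 : ℕ) = 9 from rfl]
  simp [sum_range_succ, Nat.choose]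
  try ring

theorem m16_6 (γ : ℕ → ℝ) : Mat 16 γ 6 = (7454720) * γ 0 + (2795520) * γ 1 + (1025024) * γ 2 + (366080) * γ 3 + (126720) * γ 4
       + (42240) * γ 5 + (13440) * γ 6 + (4032) * γ 7 + (1120) * γ 8 := by
  unfold Mat
  rw [show (16 / 2 + 1 : ℕ) = 9 from rfl]
  simp [sum_range_succ, Nat.choose]
  try ring

theorem m16_7 (γ : ℕ → ℝ) : Mat 16 γ 7 = (1966080) * γ 0 + (860160) * γ 1 + (372736) * γ 2 + (159744) * γ 3 + (67584) * γ 4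
       + (28160) * γ 5 + (11520) * γ 6 + (4608) * γ 7 + (1792) * γ 8 := by
  unfold Mat
  rw [show (16 / 2 + 1 : ℕ) = 9 from rfl]
  simp [sum_range_succ, Nat.choose]
  try ring

theorem m16_8 (γ : ℕ → ℝ) : Mat 16 γ 8 = (65536) * γ 0 + (32768) * γ 1 + (16384) * γ 2 + (8192) * γ 3 + (4096) * γ 4 + (2048) * γ 5
       + (1024) * γ 6 + (512) * γ 7 + (256) * γ 8 := by
  unfold Mat
  rw [show (16 / 2 + 1 : ℕ) = 9 from rfl]
  simp [sum_range_succ, Nat.choose]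
  try ring

theorem mm16_0 (γ : ℕ → ℝ) : Mat 16 (Mat 16 γ) 0 =
      (1) * γ 0 + (0) * γ 1 + (0) * γ 2 + (0) * γ 3 + (0) * γ 4 + (0) * γ 5 + (0) * γ 6 + (0) * γ 7
       + (0) * γ 8 := by
  rw [m16_0]
  simp only [m16_0, m16_1, m16_2, m16_3, m16_4, m16_5, m16_6, m16_7, m16_8]
  ring

theorem mm16_1 (γ : ℕ → ℝ) : Mat 16 (Mat 16 γ) 1 =
      (44000) * γ 0 + (4540) * γ 1 + (394) * γ 2 + (26) * γ 3 + (1) * γ 4 + (0) * γ 5 + (0) * γ 6
       + (0) * γ 7 + (0) * γ 8 := by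
  rw [m16_1]
  simp only [m16_0, m16_1, m16_2, m16_3, m16_4, m16_5, m16_6, m16_7, m16_8]
  ring

theorem mm16_2 (γ : ℕ → ℝ) : Mat 16 (Mat 16 γ) 2 =
      (28996032) * γ 0 + (4756336) * γ 1 + (744744) * γ 2 + (110136) * γ 3 + (15148) * γ 4
       + (1892) * γ 5 + (206) * γ 6 + (18) * γ 7 + (1) * γ 8 := by
  rw [m16_2]
  simp only [m16_0, m16_1, m16_2, m16_3, m16_4, m16_5, m16_6, m16_7, m16_8]
  ring

theorem mm16_3 (γ : ℕ → ℝ) : Mat 16 (Mat 16 γ) 3 =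
      (2743316992) * γ 0 + (557672128) * γ 1 + (111247136) * γ 2 + (21722272) * γ 3
       + (4138640) * γ 4 + (766304) * γ 5 + (137168) * γ 6 + (23568) * γ 7 + (3848) * γ 8 := by
  rw [m16_3]
  simp only [m16_0, m16_1, m16_2, m16_3, m16_4, m16_5, m16_6, m16_7, m16_8]
  ring

theorem mm16_4 (γ : ℕ → ℝ) : Mat 16 (Mat 16 γ) 4 =
      (65398326784) * γ 0 + (15106740992) * γ 1 + (3458548864) * γ 2 + (784116608) * γ 3
       + (175880896) * γ 4 + (38987456) * γ 5 + (8529568) * γ 6 + (1838816) * γ 7 + (389872) * γ 8 := by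
  rw [m16_4]
  simp only [m16_0, m16_1, m16_2, m16_3, m16_4, m16_5, m16_6, m16_7, m16_8]
  ring

theorem mm16_5 (γ : ℕ → ℝ) : Mat 16 (Mat 16 γ) 5 =
      (478641594368) * γ 0 + (120551158784) * γ 1 + (30227602944) * γ 2 + (7543569920) * γ 3
       + (1873033984) * γ 4 + (462537728) * γ 5 + (113552896) * γ 6 + (27700736) * γ 7
       + (6711040) * γ 8 := by
  rw [m16_5]
  simp only [m16_0, m16_1, m16_2, m16_3, m16_4, m16_5, m16_6, m16_7, m16_8]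
  ring

theorem mm16_6 (γ : ℕ → ℝ) : Mat 16 (Mat 16 γ) 6 =
      (1090893496320) * γ 0 + (292689694720) * γ 1 + (78363916288) * γ 2 + (20934387712) * γ 3
       + (5579400192) * γ 4 + (1483340800) * γ 5 + (393331200) * γ 6 + (104009216) * γ 7
       + (27422464) * γ 8 := by
  rw [m16_6]
  simp only [m16_0, m16_1, m16_2, m16_3, m16_4, m16_5, m16_6, m16_7, m16_8]
  ring

theorem mm16_7 (γ : ℕ → ℝ) : Mat 16 (Mat 16 γ) 7 =
      (641782906880) * γ 0 + (180789329920) * γ 1 + (50887811072) * γ 2 + (14311874560) * γ 3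
       + (4021661696) * γ 4 + (1129078784) * γ 5 + (316690432) * γ 6 + (88739840) * γ 7
       + (24840192) * γ 8 := by
  rw [m16_7]
  simp only [m16_0, m16_1, m16_2, m16_3, m16_4, m16_5, m16_6, m16_7, m16_8]
  ring

theorem mm16_8 (γ : ℕ → ℝ) : Mat 16 (Mat 16 γ) 8 =
      (43637604352) * γ 0 + (12781158400) * γ 1 + (3743514624) * γ 2 + (1096450048) * γ 3
       + (321142784) * γ 4 + (94060544) * γ 5 + (27549696) * γ 6 + (8069120) * γ 7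
       + (2363392) * γ 8 := by
  rw [m16_8]
  simp only [m16_0, m16_1, m16_2, m16_3, m16_4, m16_5, m16_6, m16_7, m16_8]
  ring

theorem p16_0 (γ : ℕ → ℝ) (h0 : γ 0 = 1)
    (h : ∀ n < 16, 2 * (((16 : ℕ) : ℝ) - ((n : ℕ) : ℝ)) * ∑ i ∈ range (16 / 2 + 1), γ i * (cfn 16 i n : ℝ) ≤
      ((n : ℝ) + 1) * ∑ i ∈ range (16 / 2 + 1), γ i * (cfn 16 i (n + 1) : ℝ)) :
    0 < Mat 16 (Mat 16 (Mat 16 γ)) 0 := by

  rw [m16_0]
  simp only [mm16_0, mm16_1, mm16_2, mm16_3, mm16_4, mm16_5, mm16_6, mm16_7, mm16_8]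
  linarith only [h0]

theorem p16_1 (γ : ℕ → ℝ) (h0 : γ 0 = 1)
    (h : ∀ n < 16, 2 * (((16 : ℕ) : ℝ) - ((n : ℕ) : ℝ)) * ∑ i ∈ range (16 / 2 + 1), γ i * (cfn 16 i n : ℝ) ≤
      ((n : ℝ) + 1) * ∑ i ∈ range (16 / 2 + 1), γ i * (cfn 16 i (n + 1) : ℝ)) :
    0 < Mat 16 (Mat 16 (Mat 16 γ)) 1 := by
  have k0 := q16_0 γ h0 h
  have k1 := q16_1 γ h0 h
  have k2 := q16_2 γ h0 h
  have k5 := q16_5 γ h0 h
  have k6 := q16_6 γ h0 h
  have k3 := q16_3 γ h0 h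
  have k4 := q16_4 γ h0 h
  have k7 := q16_7 γ h0 h
  rw [m16_1]
  simp only [mm16_0, mm16_1, mm16_2, mm16_3, mm16_4, mm16_5, mm16_6, mm16_7, mm16_8]
  linarith only [h0, k0, k1, k2, k5, k6, k3, k4, k7]

theorem p16_2 (γ : ℕ → ℝ) (h0 : γ 0 = 1)
    (h : ∀ n < 16, 2 * (((16 : ℕ) : ℝ) - ((n : ℕ) : ℝ)) * ∑ i ∈ range (16 / 2 + 1), γ i * (cfn 16 i n : ℝ) ≤
      ((n : ℝ) + 1) * ∑ i ∈ range (16 / 2 + 1), γ i * (cfn 16 i (n + 1) : ℝ)) :
    0 < Mat 16 (Mat 16 (Mat 16 γ)) 2 := by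
  have k0 := q16_0 γ h0 h
  have k1 := q16_1 γ h0 h
  have k2 := q16_2 γ h0 h
  have k5 := q16_5 γ h0 h
  have k8 := q16_8 γ h0 h
  have k3 := q16_3 γ h0 h
  have k9 := q16_9 γ h0 h
  have k6 := q16_6 γ h0 h
  rw [m16_2]
  simp only [mm16_0, mm16_1, mm16_2, mm16_3, mm16_4, mm16_5, mm16_6, mm16_7, mm16_8]
  linarith only [h0, k0, k1, k2, k5, k8, k3, k9, k6]

theorem p16_3 (γ : ℕ → ℝ) (h0 : γ 0 = 1)
    (h : ∀ n < 16, 2 * (((16 : ℕ) : ℝ) - ((n : ℕ) : ℝ)) * ∑ i ∈ range (16 / 2 + 1), γ i * (cfn 16 i n : ℝ) ≤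
      ((n : ℝ) + 1) * ∑ i ∈ range (16 / 2 + 1), γ i * (cfn 16 i (n + 1) : ℝ)) :
    0 < Mat 16 (Mat 16 (Mat 16 γ)) 3 := by
  have k3 := q16_3 γ h0 h
  have k6 := q16_6 γ h0 h
  have k0 := q16_0 γ h0 h
  have k1 := q16_1 γ h0 h
  have k2 := q16_2 γ h0 h
  have k9 := q16_9 γ h0 h
  have k5 := q16_5 γ h0 h
  have k10 := q16_10 γ h0 h
  rw [m16_3]
  simp only [mm16_0, mm16_1, mm16_2, mm16_3, mm16_4, mm16_5, mm16_6, mm16_7, mm16_8]
  linarith only [h0, k3, k6, k0, k1, k2, k9, k5, k10]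

theorem p16_4 (γ : ℕ → ℝ) (h0 : γ 0 = 1)
    (h : ∀ n < 16, 2 * (((16 : ℕ) : ℝ) - ((n : ℕ) : ℝ)) * ∑ i ∈ range (16 / 2 + 1), γ i * (cfn 16 i n : ℝ) ≤
      ((n : ℝ) + 1) * ∑ i ∈ range (16 / 2 + 1), γ i * (cfn 16 i (n + 1) : ℝ)) :
    0 < Mat 16 (Mat 16 (Mat 16 γ)) 4 := by
  have k5 := q16_5 γ h0 h
  have k0 := q16_0 γ h0 h
  have k2 := q16_2 γ h0 h
  have k1 := q16_1 γ h0 h
  have k9 := q16_9 γ h0 h
  have k3 := q16_3 γ h0 h
  have k10 := q16_10 γ h0 h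
  have k6 := q16_6 γ h0 h
  rw [m16_4]
  simp only [mm16_0, mm16_1, mm16_2, mm16_3, mm16_4, mm16_5, mm16_6, mm16_7, mm16_8]
  linarith only [h0, k5, k0, k2, k1, k9, k3, k10, k6]

theorem p16_5 (γ : ℕ → ℝ) (h0 : γ 0 = 1)
    (h : ∀ n < 16, 2 * (((16 : ℕ) : ℝ) - ((n : ℕ) : ℝ)) * ∑ i ∈ range (16 / 2 + 1), γ i * (cfn 16 i n : ℝ) ≤
      ((n : ℝ) + 1) * ∑ i ∈ range (16 / 2 + 1), γ i * (cfn 16 i (n + 1) : ℝ)) :
    0 < Mat 16 (Mat 16 (Mat 16 γ)) 5 := by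
  have k3 := q16_3 γ h0 h
  have k0 := q16_0 γ h0 h
  have k2 := q16_2 γ h0 h
  have k1 := q16_1 γ h0 h
  have k9 := q16_9 γ h0 h
  have k10 := q16_10 γ h0 h
  have k5 := q16_5 γ h0 h
  have k6 := q16_6 γ h0 h
  rw [m16_5]
  simp only [mm16_0, mm16_1, mm16_2, mm16_3, mm16_4, mm16_5, mm16_6, mm16_7, mm16_8]
  linarith only [h0, k3, k0, k2, k1, k9, k10, k5, k6]

theorem p16_6 (γ : ℕ → ℝ) (h0 : γ 0 = 1)
    (h : ∀ n < 16, 2 * (((16 : ℕ) : ℝ) - ((n : ℕ) : ℝ)) * ∑ i ∈ range (16 / 2 + 1), γ i * (cfn 16 i n : ℝ) ≤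
      ((n : ℝ) + 1) * ∑ i ∈ range (16 / 2 + 1), γ i * (cfn 16 i (n + 1) : ℝ)) :
    0 < Mat 16 (Mat 16 (Mat 16 γ)) 6 := by
  have k3 := q16_3 γ h0 h
  have k0 := q16_0 γ h0 h
  have k2 := q16_2 γ h0 h
  have k1 := q16_1 γ h0 h
  have k9 := q16_9 γ h0 h
  have k10 := q16_10 γ h0 h
  have k5 := q16_5 γ h0 h
  have k6 := q16_6 γ h0 h
  rw [m16_6]
  simp only [mm16_0, mm16_1, mm16_2, mm16_3, mm16_4, mm16_5, mm16_6, mm16_7, mm16_8]
  linarith only [h0, k3, k0, k2, k1, k9, k10, k5, k6]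

theorem p16_7 (γ : ℕ → ℝ) (h0 : γ 0 = 1)
    (h : ∀ n < 16, 2 * (((16 : ℕ) : ℝ) - ((n : ℕ) : ℝ)) * ∑ i ∈ range (16 / 2 + 1), γ i * (cfn 16 i n : ℝ) ≤
      ((n : ℝ) + 1) * ∑ i ∈ range (16 / 2 + 1), γ i * (cfn 16 i (n + 1) : ℝ)) :
    0 < Mat 16 (Mat 16 (Mat 16 γ)) 7 := by
  have k3 := q16_3 γ h0 h
  have k6 := q16_6 γ h0 h
  have k0 := q16_0 γ h0 h
  have k1 := q16_1 γ h0 h
  have k2 := q16_2 γ h0 h
  have k10 := q16_10 γ h0 h
  have k5 := q16_5 γ h0 h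
  have k11 := q16_11 γ h0 h
  rw [m16_7]
  simp only [mm16_0, mm16_1, mm16_2, mm16_3, mm16_4, mm16_5, mm16_6, mm16_7, mm16_8]
  linarith only [h0, k3, k6, k0, k1, k2, k10, k5, k11]

theorem p16_8 (γ : ℕ → ℝ) (h0 : γ 0 = 1)
    (h : ∀ n < 16, 2 * (((16 : ℕ) : ℝ) - ((n : ℕ) : ℝ)) * ∑ i ∈ range (16 / 2 + 1), γ i * (cfn 16 i n : ℝ) ≤
      ((n : ℝ) + 1) * ∑ i ∈ range (16 / 2 + 1), γ i * (cfn 16 i (n + 1) : ℝ)) :
    0 < Mat 16 (Mat 16 (Mat 16 γ)) 8 := by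
  have k11 := q16_11 γ h0 h
  have k3 := q16_3 γ h0 h
  have k0 := q16_0 γ h0 h
  have k1 := q16_1 γ h0 h
  have k2 := q16_2 γ h0 h
  have k10 := q16_10 γ h0 h
  have k5 := q16_5 γ h0 h
  have k6 := q16_6 γ h0 h
  rw [m16_8]
  simp only [mm16_0, mm16_1, mm16_2, mm16_3, mm16_4, mm16_5, mm16_6, mm16_7, mm16_8]
  linarith only [h0, k11, k3, k0, k1, k2, k10, k5, k6]

theorem main16 (γ : ℕ → ℝ) (h0 : γ 0 = 1)
    (h : ∀ n < 16, 2 * (((16 : ℕ) : ℝ) - ((n : ℕ) : ℝ)) * ∑ i ∈ range (16 / 2 + 1), γ i * (cfn 16 i n : ℝ) ≤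
      ((n : ℝ) + 1) * ∑ i ∈ range (16 / 2 + 1), γ i * (cfn 16 i (n + 1) : ℝ)) :
    ∀ j ≤ 16 / 2, 0 < Mat 16 (Mat 16 (Mat 16 γ)) j := by
  intro j hj
  have hj' : j ≤ 8 := hj
  clear hj
  interval_cases j
  · exact p16_0 γ h0 h
  · exact p16_1 γ h0 h
  · exact p16_2 γ h0 h
  · exact p16_3 γ h0 h
  · exact p16_4 γ h0 h
  · exact p16_5 γ h0 h
  · exact p16_6 γ h0 h
  · exact p16_7 γ h0 h
  · exact p16_8 γ h0 h

theorem c17_0 (γ : ℕ → ℝ) : ∑ i ∈ range (17 / 2 + 1), γ i * (cfn 17 i 0 : ℝ) =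
    (1) * γ 0 + (0) * γ 1 + (0) * γ 2 + (0) * γ 3 + (0) * γ 4 + (0) * γ 5 + (0) * γ 6 + (0) * γ 7
       + (0) * γ 8 := by
  have h : ((17 / 2 + 1 : ℕ)) = 9 := rfl
  rw [h]
  simp only [sum_range_succ, sum_range_zero, show cfn 17 0 0 = 1 from by decide +kernel, show cfn 17 1 0 = 0 from by decide +kernel, show cfn 17 2 0 = 0 from by decide +kernel, show cfn 17 3 0 = 0 from by decide +kernel, show cfn 17 4 0 = 0 from by decide +kernel, show cfn 17 5 0 = 0 from by decide +kernel, show cfn 17 6 0 = 0 from by decide +kernel, show cfn 17 7 0 = 0 from by decide +kernel, show cfn 17 8 0 = 0 from by decide +kernel, Nat.cast_ofNat, Nat.cast_one, Nat.cast_zero]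
  ring

theorem c17_1 (γ : ℕ → ℝ) : ∑ i ∈ range (17 / 2 + 1), γ i * (cfn 17 i 1 : ℝ) =
    (34) * γ 0 + (1) * γ 1 + (0) * γ 2 + (0) * γ 3 + (0) * γ 4 + (0) * γ 5 + (0) * γ 6
       + (0) * γ 7 + (0) * γ 8 := by
  have h : ((17 / 2 + 1 : ℕ)) = 9 := rfl
  rw [h]
  simp only [sum_range_succ, sum_range_zero, show cfn 17 0 1 = 34 from by decide +kernel, show cfn 17 1 1 = 1 from by decide +kernel, show cfn 17 2 1 = 0 from by decide +kernel, show cfn 17 3 1 = 0 from by decide +kernel, show cfn 17 4 1 = 0 from by decide +kernel, show cfn 17 5 1 = 0 from by decide +kernel, show cfn 17 6 1 = 0 from by decide +kernel, show cfn 17 7 1 = 0 from by decide +kernel, show cfn 17 8 1 = 0 from by decide +kernel, Nat.cast_ofNat, Nat.cast_one, Nat.cast_zero]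
  ring

theorem c17_2 (γ : ℕ → ℝ) : ∑ i ∈ range (17 / 2 + 1), γ i * (cfn 17 i 2 : ℝ) =
    (544) * γ 0 + (31) * γ 1 + (1) * γ 2 + (0) * γ 3 + (0) * γ 4 + (0) * γ 5 + (0) * γ 6
       + (0) * γ 7 + (0) * γ 8 := by
  have h : ((17 / 2 + 1 : ℕ)) = 9 := rfl
  rw [h]
  simp only [sum_range_succ, sum_range_zero, show cfn 17 0 2 = 544 from by decide +kernel, show cfn 17 1 2 = 31 from by decide +kernel, show cfn 17 2 2 = 1 from by decide +kernel, show cfn 17 3 2 = 0 from by decide +kernel, show cfn 17 4 2 = 0 from by decide +kernel, show cfn 17 5 2 = 0 from by decide +kernel, show cfn 17 6 2 = 0 from by decide +kernel, show cfn 17 7 2 = 0 from by decide +kernel, show cfn 17 8 2 = 0 from by decide +kernel, Nat.cast_ofNat, Nat.cast_one, Nat.cast_zero]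
  ring

theorem c17_3 (γ : ℕ → ℝ) : ∑ i ∈ range (17 / 2 + 1), γ i * (cfn 17 i 3 : ℝ) =
    (5440) * γ 0 + (450) * γ 1 + (28) * γ 2 + (1) * γ 3 + (0) * γ 4 + (0) * γ 5 + (0) * γ 6
       + (0) * γ 7 + (0) * γ 8 := by
  have h : ((17 / 2 + 1 : ℕ)) = 9 := rfl
  rw [h]
  simp only [sum_range_succ, sum_range_zero, show cfn 17 0 3 = 5440 from by decide +kernel, show cfn 17 1 3 = 450 from by decide +kernel, show cfn 17 2 3 = 28 from by decide +kernel, show cfn 17 3 3 = 1 from by decide +kernel, show cfn 17 4 3 = 0 from by decide +kernel, show cfn 17 5 3 = 0 from by decide +kernel, show cfn 17 6 3 = 0 from by decide +kernel, show cfn 17 7 3 = 0 from by decide +kernel, show cfn 17 8 3 = 0 from by decide +kernel, Nat.cast_ofNat, Nat.cast_one, Nat.cast_zero]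
  ring

theorem c17_4 (γ : ℕ → ℝ) : ∑ i ∈ range (17 / 2 + 1), γ i * (cfn 17 i 4 : ℝ) =
    (38080) * γ 0 + (4060) * γ 1 + (365) * γ 2 + (25) * γ 3 + (1) * γ 4 + (0) * γ 5 + (0) * γ 6
       + (0) * γ 7 + (0) * γ 8 := by
  have h : ((17 / 2 + 1 : ℕ)) = 9 := rfl
  rw [h]
  simp only [sum_range_succ, sum_range_zero, show cfn 17 0 4 = 38080 from by decide +kernel, show cfn 17 1 4 = 4060 from by decide +kernel, show cfn 17 2 4 = 365 from by decide +kernel, show cfn 17 3 4 = 25 from by decide +kernel, show cfn 17 4 4 = 1 from by decide +kernel, show cfn 17 5 4 = 0 from by decide +kernel, show cfn 17 6 4 = 0 from by decide +kernel, show cfn 17 7 4 = 0 from by decide +kernel, show cfn 17 8 4 = 0 from by decide +kernel, Nat.cast_ofNat, Nat.cast_one, Nat.cast_zero]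
  ring

theorem c17_5 (γ : ℕ → ℝ) : ∑ i ∈ range (17 / 2 + 1), γ i * (cfn 17 i 5 : ℝ) =
    (198016) * γ 0 + (25480) * γ 1 + (2938) * γ 2 + (289) * γ 3 + (22) * γ 4 + (1) * γ 5
       + (0) * γ 6 + (0) * γ 7 + (0) * γ 8 := by
  have h : ((17 / 2 + 1 : ℕ)) = 9 := rfl
  rw [h]
  simp only [sum_range_succ, sum_range_zero, show cfn 17 0 5 = 198016 from by decide +kernel, show cfn 17 1 5 = 25480 from by decide +kernel, show cfn 17 2 5 = 2938 from by decide +kernel, show cfn 17 3 5 = 289 from by decide +kernel, show cfn 17 4 5 = 22 from by decide +kernel, show cfn 17 5 5 = 1 from by decide +kernel, show cfn 17 6 5 = 0 from by decide +kernel, show cfn 17 7 5 = 0 from by decide +kernel, show cfn 17 8 5 = 0 from by decide +kernel, Nat.cast_ofNat, Nat.cast_one, Nat.cast_zero]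
  ring

theorem c17_6 (γ : ℕ → ℝ) : ∑ i ∈ range (17 / 2 + 1), γ i * (cfn 17 i 6 : ℝ) =
    (792064) * γ 0 + (117936) * γ 1 + (16328) * γ 2 + (2047) * γ 3 + (222) * γ 4 + (19) * γ 5
       + (1) * γ 6 + (0) * γ 7 + (0) * γ 8 := by
  have h : ((17 / 2 + 1 : ℕ)) = 9 := rfl
  rw [h]
  simp only [sum_range_succ, sum_range_zero, show cfn 17 0 6 = 792064 from by decide +kernel, show cfn 17 1 6 = 117936 from by decide +kernel, show cfn 17 2 6 = 16328 from by decide +kernel, show cfn 17 3 6 = 2047 from by decide +kernel, show cfn 17 4 6 = 222 from by decide +kernel, show cfn 17 5 6 = 19 from by decide +kernel, show cfn 17 6 6 = 1 from by decide +kernel, show cfn 17 7 6 = 0 from by decide +kernel, show cfn 17 8 6 = 0 from by decide +kernel, Nat.cast_ofNat, Nat.cast_one, Nat.cast_zero]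
  ring

theorem c17_7 (γ : ℕ → ℝ) : ∑ i ∈ range (17 / 2 + 1), γ i * (cfn 17 i 7 : ℝ) =
    (2489344) * γ 0 + (416416) * γ 1 + (66352) * γ 2 + (9922) * γ 3 + (1360) * γ 4 + (164) * γ 5
       + (16) * γ 6 + (1) * γ 7 + (0) * γ 8 := by
  have h : ((17 / 2 + 1 : ℕ)) = 9 := rfl
  rw [h]
  simp only [sum_range_succ, sum_range_zero, show cfn 17 0 7 = 2489344 from by decide +kernel, show cfn 17 1 7 = 416416 from by decide +kernel, show cfn 17 2 7 = 66352 from by decide +kernel, show cfn 17 3 7 = 9922 from by decide +kernel, show cfn 17 4 7 = 1360 from by decide +kernel, show cfn 17 5 7 = 164 from by decide +kernel, show cfn 17 6 7 = 16 from by decide +kernel, show cfn 17 7 7 = 1 from by decide +kernel, show cfn 17 8 7 = 0 from by decide +kernel, Nat.cast_ofNat, Nat.cast_one, Nat.cast_zero]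
  ring

theorem c17_8 (γ : ℕ → ℝ) : ∑ i ∈ range (17 / 2 + 1), γ i * (cfn 17 i 8 : ℝ) =
    (6223360) * γ 0 + (1144000) * γ 1 + (203632) * γ 2 + (34804) * γ 3 + (5641) * γ 4
       + (850) * γ 5 + (115) * γ 6 + (13) * γ 7 + (1) * γ 8 := by
  have h : ((17 / 2 + 1 : ℕ)) = 9 := rfl
  rw [h]
  simp only [sum_range_succ, sum_range_zero, show cfn 17 0 8 = 6223360 from by decide +kernel, show cfn 17 1 8 = 1144000 from by decide +kernel, show cfn 17 2 8 = 203632 from by decide +kernel, show cfn 17 3 8 = 34804 from by decide +kernel, show cfn 17 4 8 = 5641 from by decide +kernel, show cfn 17 5 8 = 850 from by decide +kernel, show cfn 17 6 8 = 115 from by decide +kernel, show cfn 17 7 8 = 13 from by decide +kernel, show cfn 17 8 8 = 1 from by decide +kernel, Nat.cast_ofNat, Nat.cast_one, Nat.cast_zero]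
  ring

theorem c17_9 (γ : ℕ → ℝ) : ∑ i ∈ range (17 / 2 + 1), γ i * (cfn 17 i 9 : ℝ) =
    (12446720) * γ 0 + (2471040) * γ 1 + (480480) * γ 2 + (91080) * γ 3 + (16722) * γ 4
       + (2945) * γ 5 + (490) * γ 6 + (75) * γ 7 + (10) * γ 8 := by
  have h : ((17 / 2 + 1 : ℕ)) = 9 := rfl
  rw [h]
  simp only [sum_range_succ, sum_range_zero, show cfn 17 0 9 = 12446720 from by decide +kernel, show cfn 17 1 9 = 2471040 from by decide +kernel, show cfn 17 2 9 = 480480 from by decide +kernel, show cfn 17 3 9 = 91080 from by decide +kernel, show cfn 17 4 9 = 16722 from by decide +kernel, show cfn 17 5 9 = 2945 from by decide +kernel, show cfn 17 6 9 = 490 from by decide +kernel, show cfn 17 7 9 = 75 from by decide +kernel, show cfn 17 8 9 = 10 from by decide +kernel, Nat.cast_ofNat, Nat.cast_one, Nat.cast_zero]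
  ring

theorem c17_10 (γ : ℕ → ℝ) : ∑ i ∈ range (17 / 2 + 1), γ i * (cfn 17 i 10 : ℝ) =
    (19914752) * γ 0 + (4209920) * γ 1 + (878592) * γ 2 + (180576) * γ 3 + (36432) * γ 4
       + (7183) * γ 5 + (1375) * γ 6 + (253) * γ 7 + (44) * γ 8 := by
  have h : ((17 / 2 + 1 : ℕ)) = 9 := rfl
  rw [h]
  simp only [sum_range_succ, sum_range_zero, show cfn 17 0 10 = 19914752 from by decide +kernel, show cfn 17 1 10 = 4209920 from by decide +kernel, show cfn 17 2 10 = 878592 from by decide +kernel, show cfn 17 3 10 = 180576 from by decide +kernel, show cfn 17 4 10 = 36432 from by decide +kernel, show cfn 17 5 10 = 7183 from by decide +kernel, show cfn 17 6 10 = 1375 from by decide +kernel, show cfn 17 7 10 = 253 from by decide +kernel, show cfn 17 8 10 = 44 from by decide +kernel, Nat.cast_ofNat, Nat.cast_one, Nat.cast_zero]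
  ring

theorem c17_11 (γ : ℕ → ℝ) : ∑ i ∈ range (17 / 2 + 1), γ i * (cfn 17 i 11 : ℝ) =
    (25346048) * γ 0 + (5637632) * γ 1 + (1244672) * γ 2 + (272448) * γ 3 + (59040) * γ 4
       + (12642) * γ 5 + (2668) * γ 6 + (553) * γ 7 + (112) * γ 8 := by
  have h : ((17 / 2 + 1 : ℕ)) = 9 := rfl
  rw [h]
  simp only [sum_range_succ, sum_range_zero, show cfn 17 0 11 = 25346048 from by decide +kernel, show cfn 17 1 11 = 5637632 from by decide +kernel, show cfn 17 2 11 = 1244672 from by decide +kernel, show cfn 17 3 11 = 272448 from by decide +kernel, show cfn 17 4 11 = 59040 from by decide +kernel, show cfn 17 5 11 = 12642 from by decide +kernel, show cfn 17 6 11 = 2668 from by decide +kernel, show cfn 17 7 11 = 553 from by decide +kernel, show cfn 17 8 11 = 112 from by decide +kernel, Nat.cast_ofNat, Nat.cast_one, Nat.cast_zero]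
  ring

theorem c17_12 (γ : ℕ → ℝ) : ∑ i ∈ range (17 / 2 + 1), γ i * (cfn 17 i 12 : ℝ) =
    (25346048) * γ 0 + (5870592) * γ 1 + (1354496) * γ 2 + (311168) * γ 3 + (71136) * γ 4
       + (16172) * γ 5 + (3653) * γ 6 + (819) * γ 7 + (182) * γ 8 := by
  have h : ((17 / 2 + 1 : ℕ)) = 9 := rfl
  rw [h]
  simp only [sum_range_succ, sum_range_zero, show cfn 17 0 12 = 25346048 from by decide +kernel, show cfn 17 1 12 = 5870592 from by decide +kernel, show cfn 17 2 12 = 1354496 from by decide +kernel, show cfn 17 3 12 = 311168 from by decide +kernel, show cfn 17 4 12 = 71136 from by decide +kernel, show cfn 17 5 12 = 16172 from by decide +kernel, show cfn 17 6 12 = 3653 from by decide +kernel, show cfn 17 7 12 = 819 from by decide +kernel, show cfn 17 8 12 = 182 from by decide +kernel, Nat.cast_ofNat, Nat.cast_one, Nat.cast_zero]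
  ring

theorem q17_0 (γ : ℕ → ℝ) (h0 : γ 0 = 1)
    (h : ∀ n < 17, 2 * (((17 : ℕ) : ℝ) - ((n : ℕ) : ℝ)) * ∑ i ∈ range (17 / 2 + 1), γ i * (cfn 17 i n : ℝ) ≤
      ((n : ℝ) + 1) * ∑ i ∈ range (17 / 2 + 1), γ i * (cfn 17 i (n + 1) : ℝ)) :
    0 ≤ (0) * γ 0 + (1) * γ 1 + (0) * γ 2 + (0) * γ 3 + (0) * γ 4 + (0) * γ 5 + (0) * γ 6 + (0) * γ 7
       + (0) * γ 8 := by
  have h1 := h 0 (by norm_num)
  rw [show 0 + 1 = 1 from rfl, c17_0, c17_1] at h1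
  norm_num [h0] at h1 ⊢
  linarith

theorem q17_1 (γ : ℕ → ℝ) (h0 : γ 0 = 1)
    (h : ∀ n < 17, 2 * (((17 : ℕ) : ℝ) - ((n : ℕ) : ℝ)) * ∑ i ∈ range (17 / 2 + 1), γ i * (cfn 17 i n : ℝ) ≤
      ((n : ℝ) + 1) * ∑ i ∈ range (17 / 2 + 1), γ i * (cfn 17 i (n + 1) : ℝ)) :
    0 ≤ (0) * γ 0 + (30) * γ 1 + (2) * γ 2 + (0) * γ 3 + (0) * γ 4 + (0) * γ 5 + (0) * γ 6
       + (0) * γ 7 + (0) * γ 8 := by
  have h1 := h 1 (by norm_num)
  rw [show 1 + 1 = 2 from rfl, c17_1, c17_2] at h1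
  norm_num [h0] at h1 ⊢
  linarith

theorem q17_2 (γ : ℕ → ℝ) (h0 : γ 0 = 1)
    (h : ∀ n < 17, 2 * (((17 : ℕ) : ℝ) - ((n : ℕ) : ℝ)) * ∑ i ∈ range (17 / 2 + 1), γ i * (cfn 17 i n : ℝ) ≤
      ((n : ℝ) + 1) * ∑ i ∈ range (17 / 2 + 1), γ i * (cfn 17 i (n + 1) : ℝ)) :
    0 ≤ (0) * γ 0 + (420) * γ 1 + (54) * γ 2 + (3) * γ 3 + (0) * γ 4 + (0) * γ 5 + (0) * γ 6
       + (0) * γ 7 + (0) * γ 8 := by
  have h1 := h 2 (by norm_num)
  rw [show 2 + 1 = 3 from rfl, c17_2, c17_3] at h1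
  norm_num [h0] at h1 ⊢
  linarith

theorem q17_3 (γ : ℕ → ℝ) (h0 : γ 0 = 1)
    (h : ∀ n < 17, 2 * (((17 : ℕ) : ℝ) - ((n : ℕ) : ℝ)) * ∑ i ∈ range (17 / 2 + 1), γ i * (cfn 17 i n : ℝ) ≤
      ((n : ℝ) + 1) * ∑ i ∈ range (17 / 2 + 1), γ i * (cfn 17 i (n + 1) : ℝ)) :
    0 ≤ (0) * γ 0 + (3640) * γ 1 + (676) * γ 2 + (72) * γ 3 + (4) * γ 4 + (0) * γ 5 + (0) * γ 6
       + (0) * γ 7 + (0) * γ 8 := by
  have h1 := h 3 (by norm_num)
  rw [show 3 + 1 = 4 from rfl, c17_3, c17_4] at h1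
  norm_num [h0] at h1 ⊢
  linarith

theorem q17_4 (γ : ℕ → ℝ) (h0 : γ 0 = 1)
    (h : ∀ n < 17, 2 * (((17 : ℕ) : ℝ) - ((n : ℕ) : ℝ)) * ∑ i ∈ range (17 / 2 + 1), γ i * (cfn 17 i n : ℝ) ≤
      ((n : ℝ) + 1) * ∑ i ∈ range (17 / 2 + 1), γ i * (cfn 17 i (n + 1) : ℝ)) :
    0 ≤ (0) * γ 0 + (21840) * γ 1 + (5200) * γ 2 + (795) * γ 3 + (84) * γ 4 + (5) * γ 5 + (0) * γ 6
       + (0) * γ 7 + (0) * γ 8 := by
  have h1 := h 4 (by norm_num)
  rw [show 4 + 1 = 5 from rfl, c17_4, c17_5] at h1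
  norm_num [h0] at h1 ⊢
  linarith

theorem q17_5 (γ : ℕ → ℝ) (h0 : γ 0 = 1)
    (h : ∀ n < 17, 2 * (((17 : ℕ) : ℝ) - ((n : ℕ) : ℝ)) * ∑ i ∈ range (17 / 2 + 1), γ i * (cfn 17 i n : ℝ) ≤
      ((n : ℝ) + 1) * ∑ i ∈ range (17 / 2 + 1), γ i * (cfn 17 i (n + 1) : ℝ)) :
    0 ≤ (0) * γ 0 + (96096) * γ 1 + (27456) * γ 2 + (5346) * γ 3 + (804) * γ 4 + (90) * γ 5
       + (6) * γ 6 + (0) * γ 7 + (0) * γ 8 := by
  have h1 := h 5 (by norm_num)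
  rw [show 5 + 1 = 6 from rfl, c17_5, c17_6] at h1
  norm_num [h0] at h1 ⊢
  linarith

theorem q17_6 (γ : ℕ → ℝ) (h0 : γ 0 = 1)
    (h : ∀ n < 17, 2 * (((17 : ℕ) : ℝ) - ((n : ℕ) : ℝ)) * ∑ i ∈ range (17 / 2 + 1), γ i * (cfn 17 i n : ℝ) ≤
      ((n : ℝ) + 1) * ∑ i ∈ range (17 / 2 + 1), γ i * (cfn 17 i (n + 1) : ℝ)) :
    0 ≤ (0) * γ 0 + (320320) * γ 1 + (105248) * γ 2 + (24420) * γ 3 + (4636) * γ 4 + (730) * γ 5
       + (90) * γ 6 + (7) * γ 7 + (0) * γ 8 := by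
  have h1 := h 6 (by norm_num)
  rw [show 6 + 1 = 7 from rfl, c17_6, c17_7] at h1
  norm_num [h0] at h1 ⊢
  linarith

theorem q17_7 (γ : ℕ → ℝ) (h0 : γ 0 = 1)
    (h : ∀ n < 17, 2 * (((17 : ℕ) : ℝ) - ((n : ℕ) : ℝ)) * ∑ i ∈ range (17 / 2 + 1), γ i * (cfn 17 i n : ℝ) ≤
      ((n : ℝ) + 1) * ∑ i ∈ range (17 / 2 + 1), γ i * (cfn 17 i (n + 1) : ℝ)) :
    0 ≤ (0) * γ 0 + (823680) * γ 1 + (302016) * γ 2 + (79992) * γ 3 + (17928) * γ 4 + (3520) * γ 5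
       + (600) * γ 6 + (84) * γ 7 + (8) * γ 8 := by
  have h1 := h 7 (by norm_num)
  rw [show 7 + 1 = 8 from rfl, c17_7, c17_8] at h1
  norm_num [h0] at h1 ⊢
  linarith

theorem q17_8 (γ : ℕ → ℝ) (h0 : γ 0 = 1)
    (h : ∀ n < 17, 2 * (((17 : ℕ) : ℝ) - ((n : ℕ) : ℝ)) * ∑ i ∈ range (17 / 2 + 1), γ i * (cfn 17 i n : ℝ) ≤
      ((n : ℝ) + 1) * ∑ i ∈ range (17 / 2 + 1), γ i * (cfn 17 i (n + 1) : ℝ)) :
    0 ≤ (0) * γ 0 + (1647360) * γ 1 + (658944) * γ 2 + (193248) * γ 3 + (48960) * γ 4 + (11205) * γ 5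
       + (2340) * γ 6 + (441) * γ 7 + (72) * γ 8 := by
  have h1 := h 8 (by norm_num)
  rw [show 8 + 1 = 9 from rfl, c17_8, c17_9] at h1
  norm_num [h0] at h1 ⊢
  linarith

theorem q17_9 (γ : ℕ → ℝ) (h0 : γ 0 = 1)
    (h : ∀ n < 17, 2 * (((17 : ℕ) : ℝ) - ((n : ℕ) : ℝ)) * ∑ i ∈ range (17 / 2 + 1), γ i * (cfn 17 i n : ℝ) ≤
      ((n : ℝ) + 1) * ∑ i ∈ range (17 / 2 + 1), γ i * (cfn 17 i (n + 1) : ℝ)) :
    0 ≤ (0) * γ 0 + (2562560) * γ 1 + (1098240) * γ 2 + (348480) * γ 3 + (96768) * γ 4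
       + (24710) * γ 5 + (5910) * γ 6 + (1330) * γ 7 + (280) * γ 8 := by
  have h1 := h 9 (by norm_num)
  rw [show 9 + 1 = 10 from rfl, c17_9, c17_10] at h1
  norm_num [h0] at h1 ⊢
  linarith

theorem q17_10 (γ : ℕ → ℝ) (h0 : γ 0 = 1)
    (h : ∀ n < 17, 2 * (((17 : ℕ) : ℝ) - ((n : ℕ) : ℝ)) * ∑ i ∈ range (17 / 2 + 1), γ i * (cfn 17 i n : ℝ) ≤
      ((n : ℝ) + 1) * ∑ i ∈ range (17 / 2 + 1), γ i * (cfn 17 i (n + 1) : ℝ)) :
    0 ≤ (0) * γ 0 + (3075072) * γ 1 + (1391104) * γ 2 + (468864) * γ 3 + (139392) * γ 4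
       + (38500) * γ 5 + (10098) * γ 6 + (2541) * γ 7 + (616) * γ 8 := by
  have h1 := h 10 (by norm_num)
  rw [show 10 + 1 = 11 from rfl, c17_10, c17_11] at h1
  norm_num [h0] at h1 ⊢
  linarith

theorem q17_11 (γ : ℕ → ℝ) (h0 : γ 0 = 1)
    (h : ∀ n < 17, 2 * (((17 : ℕ) : ℝ) - ((n : ℕ) : ℝ)) * ∑ i ∈ range (17 / 2 + 1), γ i * (cfn 17 i n : ℝ) ≤
      ((n : ℝ) + 1) * ∑ i ∈ range (17 / 2 + 1), γ i * (cfn 17 i (n + 1) : ℝ)) :
    0 ≤ (0) * γ 0 + (2795520) * γ 1 + (1317888) * γ 2 + (464640) * γ 3 + (145152) * γ 4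
       + (42360) * γ 5 + (11820) * γ 6 + (3192) * γ 7 + (840) * γ 8 := by
  have h1 := h 11 (by norm_num)
  rw [show 11 + 1 = 12 from rfl, c17_11, c17_12] at h1
  norm_num [h0] at h1 ⊢
  linarith

theorem m17_0 (γ : ℕ → ℝ) : Mat 17 γ 0 = (1) * γ 0 + (0) * γ 1 + (0) * γ 2 + (0) * γ 3 + (0) * γ 4 + (0) * γ 5 + (0) * γ 6 + (0) * γ 7
       + (0) * γ 8 := by
  unfold Mat
  rw [show (17 / 2 + 1 : ℕ) = 9 from rfl]
  simp [sum_range_succ, Nat.choose]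
  try ring

theorem m17_1 (γ : ℕ → ℝ) : Mat 17 γ 1 = (544) * γ 0 + (32) * γ 1 + (1) * γ 2 + (0) * γ 3 + (0) * γ 4 + (0) * γ 5 + (0) * γ 6
       + (0) * γ 7 + (0) * γ 8 := by
  unfold Mat
  rw [show (17 / 2 + 1 : ℕ) = 9 from rfl]
  simp [sum_range_succ, Nat.choose]
  try ring

theorem m17_2 (γ : ℕ → ℝ) : Mat 17 γ 2 = (38080) * γ 0 + (4480) * γ 1 + (420) * γ 2 + (28) * γ 3 + (1) * γ 4 + (0) * γ 5 + (0) * γ 6
       + (0) * γ 7 + (0) * γ 8 := by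
  unfold Mat
  rw [show (17 / 2 + 1 : ℕ) = 9 from rfl]
  simp [sum_range_succ, Nat.choose]
  try ring

theorem m17_3 (γ : ℕ → ℝ) : Mat 17 γ 3 = (792064) * γ 0 + (139776) * γ 1 + (21840) * γ 2 + (2912) * γ 3 + (312) * γ 4 + (24) * γ 5
       + (1) * γ 6 + (0) * γ 7 + (0) * γ 8 := by
  unfold Mat
  rw [show (17 / 2 + 1 : ℕ) = 9 from rfl]
  simp [sum_range_succ, Nat.choose]
  try ring

theorem m17_4 (γ : ℕ → ℝ) : Mat 17 γ 4 = (6223360) * γ 0 + (1464320) * γ 1 + (320320) * γ 2 + (64064) * γ 3 + (11440) * γ 4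
       + (1760) * γ 5 + (220) * γ 6 + (20) * γ 7 + (1) * γ 8 := by
  unfold Mat
  rw [show (17 / 2 + 1 : ℕ) = 9 from rfl]
  simp [sum_range_succ, Nat.choose]
  try ring

theorem m17_5 (γ : ℕ → ℝ) : Mat 17 γ 5 = (19914752) * γ 0 + (5857280) * γ 1 + (1647360) * γ 2 + (439296) * γ 3 + (109824) * γ 4
       + (25344) * γ 5 + (5280) * γ 6 + (960) * γ 7 + (144) * γ 8 := by
  unfold Mat
  rw [show (17 / 2 + 1 : ℕ) = 9 from rfl]
  simp [sum_range_succ, Nat.choose]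
  try ring

theorem m17_6 (γ : ℕ → ℝ) : Mat 17 γ 6 = (25346048) * γ 0 + (8945664) * γ 1 + (3075072) * γ 2 + (1025024) * γ 3 + (329472) * γ 4
       + (101376) * γ 5 + (29568) * γ 6 + (8064) * γ 7 + (2016) * γ 8 := by
  unfold Mat
  rw [show (17 / 2 + 1 : ℕ) = 9 from rfl]
  simp [sum_range_succ, Nat.choose]
  try ring

theorem m17_7 (γ : ℕ → ℝ) : Mat 17 γ 7 = (11141120) * γ 0 + (4587520) * γ 1 + (1863680) * γ 2 + (745472) * γ 3 + (292864) * γ 4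
       + (112640) * γ 5 + (42240) * γ 6 + (15360) * γ 7 + (5376) * γ 8 := by
  unfold Mat
  rw [show (17 / 2 + 1 : ℕ) = 9 from rfl]
  simp [sum_range_succ, Nat.choose]
  try ring

theorem m17_8 (γ : ℕ → ℝ) : Mat 17 γ 8 = (1114112) * γ 0 + (524288) * γ 1 + (245760) * γ 2 + (114688) * γ 3 + (53248) * γ 4
       + (24576) * γ 5 + (11264) * γ 6 + (5120) * γ 7 + (2304) * γ 8 := by
  unfold Mat
  rw [show (17 / 2 + 1 : ℕ) = 9 from rfl]
  simp [sum_range_succ, Nat.choose]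
  try ring

theorem mm17_0 (γ : ℕ → ℝ) : Mat 17 (Mat 17 γ) 0 =
      (1) * γ 0 + (0) * γ 1 + (0) * γ 2 + (0) * γ 3 + (0) * γ 4 + (0) * γ 5 + (0) * γ 6 + (0) * γ 7
       + (0) * γ 8 := by
  rw [m17_0]
  simp only [m17_0, m17_1, m17_2, m17_3, m17_4, m17_5, m17_6, m17_7, m17_8]
  ring

theorem mm17_1 (γ : ℕ → ℝ) : Mat 17 (Mat 17 γ) 1 =
      (56032) * γ 0 + (5504) * γ 1 + (452) * γ 2 + (28) * γ 3 + (1) * γ 4 + (0) * γ 5 + (0) * γ 6
       + (0) * γ 7 + (0) * γ 8 := by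
  rw [m17_1]
  simp only [m17_0, m17_1, m17_2, m17_3, m17_4, m17_5, m17_6, m17_7, m17_8]
  ring

theorem mm17_2 (γ : ℕ → ℝ) : Mat 17 (Mat 17 γ) 2 =
      (46869952) * γ 0 + (7403008) * γ 1 + (1112720) * γ 2 + (157360) * γ 3 + (20596) * γ 4
       + (2432) * γ 5 + (248) * γ 6 + (20) * γ 7 + (1) * γ 8 := by
  rw [m17_2]
  simp only [m17_0, m17_1, m17_2, m17_3, m17_4, m17_5, m17_6, m17_7, m17_8]
  ring

theorem mm17_3 (γ : ℕ → ℝ) : Mat 17 (Mat 17 γ) 3 =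
      (5659976192) * γ 0 + (1115731968) * γ 1 + (215462208) * γ 2 + (40647360) * γ 3
       + (7464912) * γ 4 + (1328640) * γ 5 + (227840) * γ 6 + (37344) * γ 7 + (5784) * γ 8 := by
  rw [m17_3]
  simp only [m17_0, m17_1, m17_2, m17_3, m17_4, m17_5, m17_6, m17_7, m17_8]
  ring

theorem mm17_4 (γ : ℕ → ℝ) : Mat 17 (Mat 17 γ) 4 =
      (175788656128) * γ 0 + (39557455872) * γ 1 + (8813006080) * γ 2 + (1942105856) * γ 3
       + (422866496) * γ 4 + (90857472) * γ 5 + (19234688) * γ 6 + (4004800) * γ 7 + (818224) * γ 8 := by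
  rw [m17_4]
  simp only [m17_0, m17_1, m17_2, m17_3, m17_4, m17_5, m17_6, m17_7, m17_8]
  ring

theorem mm17_5 (γ : ℕ → ℝ) : Mat 17 (Mat 17 γ) 5 =
      (1746765094912) * γ 0 + (429947650048) * γ 1 + (105282391040) * γ 2 + (25638933504) * γ 3
       + (6206903040) * γ 4 + (1493090304) * γ 5 + (356708352) * γ 6 + (84587520) * γ 7
       + (19896576) * γ 8 := by
  rw [m17_5]
  simp only [m17_0, m17_1, m17_2, m17_3, m17_4, m17_5, m17_6, m17_7, m17_8]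
  ring

theorem mm17_6 (γ : ℕ → ℝ) : Mat 17 (Mat 17 γ) 6 =
      (5844695891968) * γ 0 + (1536132513792) * γ 1 + (402674135040) * γ 2 + (105262944256) * γ 3
       + (27436391424) * γ 4 + (7129104384) * γ 5 + (1846372352) * γ 6 + (476531712) * γ 7
       + (122533632) * γ 8 := by
  rw [m17_6]
  simp only [m17_0, m17_1, m17_2, m17_3, m17_4, m17_5, m17_6, m17_7, m17_8]
  ring

theorem mm17_7 (γ : ℕ → ℝ) : Mat 17 (Mat 17 γ) 7 =
      (5977467125760) * γ 0 + (1652453539840) * γ 1 + (456275640320) * γ 2 + (125831364608) * γ 3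
       + (34656940032) * γ 4 + (9532473344) * γ 5 + (2618228736) * γ 6 + (718069760) * γ 7
       + (196630528) * γ 8 := by
  rw [m17_7]
  simp only [m17_0, m17_1, m17_2, m17_3, m17_4, m17_5, m17_6, m17_7, m17_8]
  ring

theorem mm17_8 (γ : ℕ → ℝ) : Mat 17 (Mat 17 γ) 8 =
      (1266398855168) * γ 0 + (364529057792) * γ 1 + (104896331776) * γ 2 + (30175199232) * γ 3
       + (8677539840) * γ 4 + (2494562304) * γ 5 + (716865536) * γ 6 + (205930496) * γ 7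
       + (59133952) * γ 8 := by
  rw [m17_8]
  simp only [m17_0, m17_1, m17_2, m17_3, m17_4, m17_5, m17_6, m17_7, m17_8]
  ring

theorem p17_0 (γ : ℕ → ℝ) (h0 : γ 0 = 1)
    (h : ∀ n < 17, 2 * (((17 : ℕ) : ℝ) - ((n : ℕ) : ℝ)) * ∑ i ∈ range (17 / 2 + 1), γ i * (cfn 17 i n : ℝ) ≤
      ((n : ℝ) + 1) * ∑ i ∈ range (17 / 2 + 1), γ i * (cfn 17 i (n + 1) : ℝ)) :
    0 < Mat 17 (Mat 17 (Mat 17 γ)) 0 := by

  rw [m17_0]
  simp only [mm17_0, mm17_1, mm17_2, mm17_3, mm17_4, mm17_5, mm17_6, mm17_7, mm17_8]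
  linarith only [h0]

theorem p17_1 (γ : ℕ → ℝ) (h0 : γ 0 = 1)
    (h : ∀ n < 17, 2 * (((17 : ℕ) : ℝ) - ((n : ℕ) : ℝ)) * ∑ i ∈ range (17 / 2 + 1), γ i * (cfn 17 i n : ℝ) ≤
      ((n : ℝ) + 1) * ∑ i ∈ range (17 / 2 + 1), γ i * (cfn 17 i (n + 1) : ℝ)) :
    0 < Mat 17 (Mat 17 (Mat 17 γ)) 1 := by
  have k0 := q17_0 γ h0 h
  have k1 := q17_1 γ h0 h
  have k2 := q17_2 γ h0 h
  have k4 := q17_4 γ h0 h
  have k6 := q17_6 γ h0 h
  have k3 := q17_3 γ h0 h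
  have k7 := q17_7 γ h0 h
  have k5 := q17_5 γ h0 h
  rw [m17_1]
  simp only [mm17_0, mm17_1, mm17_2, mm17_3, mm17_4, mm17_5, mm17_6, mm17_7, mm17_8]
  linarith only [h0, k0, k1, k2, k4, k6, k3, k7, k5]

theorem p17_2 (γ : ℕ → ℝ) (h0 : γ 0 = 1)
    (h : ∀ n < 17, 2 * (((17 : ℕ) : ℝ) - ((n : ℕ) : ℝ)) * ∑ i ∈ range (17 / 2 + 1), γ i * (cfn 17 i n : ℝ) ≤
      ((n : ℝ) + 1) * ∑ i ∈ range (17 / 2 + 1), γ i * (cfn 17 i (n + 1) : ℝ)) :
    0 < Mat 17 (Mat 17 (Mat 17 γ)) 2 := by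
  have k2 := q17_2 γ h0 h
  have k0 := q17_0 γ h0 h
  have k9 := q17_9 γ h0 h
  have k1 := q17_1 γ h0 h
  have k8 := q17_8 γ h0 h
  have k3 := q17_3 γ h0 h
  have k5 := q17_5 γ h0 h
  have k6 := q17_6 γ h0 h
  rw [m17_2]
  simp only [mm17_0, mm17_1, mm17_2, mm17_3, mm17_4, mm17_5, mm17_6, mm17_7, mm17_8]
  linarith only [h0, k2, k0, k9, k1, k8, k3, k5, k6]

theorem p17_3 (γ : ℕ → ℝ) (h0 : γ 0 = 1)
    (h : ∀ n < 17, 2 * (((17 : ℕ) : ℝ) - ((n : ℕ) : ℝ)) * ∑ i ∈ range (17 / 2 + 1), γ i * (cfn 17 i n : ℝ) ≤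
      ((n : ℝ) + 1) * ∑ i ∈ range (17 / 2 + 1), γ i * (cfn 17 i (n + 1) : ℝ)) :
    0 < Mat 17 (Mat 17 (Mat 17 γ)) 3 := by
  have k2 := q17_2 γ h0 h
  have k0 := q17_0 γ h0 h
  have k1 := q17_1 γ h0 h
  have k5 := q17_5 γ h0 h
  have k9 := q17_9 γ h0 h
  have k3 := q17_3 γ h0 h
  have k10 := q17_10 γ h0 h
  have k6 := q17_6 γ h0 h
  rw [m17_3]
  simp only [mm17_0, mm17_1, mm17_2, mm17_3, mm17_4, mm17_5, mm17_6, mm17_7, mm17_8]
  linarith only [h0, k2, k0, k1, k5, k9, k3, k10, k6]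

theorem p17_4 (γ : ℕ → ℝ) (h0 : γ 0 = 1)
    (h : ∀ n < 17, 2 * (((17 : ℕ) : ℝ) - ((n : ℕ) : ℝ)) * ∑ i ∈ range (17 / 2 + 1), γ i * (cfn 17 i n : ℝ) ≤
      ((n : ℝ) + 1) * ∑ i ∈ range (17 / 2 + 1), γ i * (cfn 17 i (n + 1) : ℝ)) :
    0 < Mat 17 (Mat 17 (Mat 17 γ)) 4 := by
  have k3 := q17_3 γ h0 h
  have k0 := q17_0 γ h0 h
  have k2 := q17_2 γ h0 h
  have k1 := q17_1 γ h0 h
  have k6 := q17_6 γ h0 h
  have k10 := q17_10 γ h0 h
  have k5 := q17_5 γ h0 h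
  have k11 := q17_11 γ h0 h
  rw [m17_4]
  simp only [mm17_0, mm17_1, mm17_2, mm17_3, mm17_4, mm17_5, mm17_6, mm17_7, mm17_8]
  linarith only [h0, k3, k0, k2, k1, k6, k10, k5, k11]

theorem p17_5 (γ : ℕ → ℝ) (h0 : γ 0 = 1)
    (h : ∀ n < 17, 2 * (((17 : ℕ) : ℝ) - ((n : ℕ) : ℝ)) * ∑ i ∈ range (17 / 2 + 1), γ i * (cfn 17 i n : ℝ) ≤
      ((n : ℝ) + 1) * ∑ i ∈ range (17 / 2 + 1), γ i * (cfn 17 i (n + 1) : ℝ)) :
    0 < Mat 17 (Mat 17 (Mat 17 γ)) 5 := by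
  have k3 := q17_3 γ h0 h
  have k2 := q17_2 γ h0 h
  have k0 := q17_0 γ h0 h
  have k1 := q17_1 γ h0 h
  have k10 := q17_10 γ h0 h
  have k5 := q17_5 γ h0 h
  have k11 := q17_11 γ h0 h
  have k6 := q17_6 γ h0 h
  rw [m17_5]
  simp only [mm17_0, mm17_1, mm17_2, mm17_3, mm17_4, mm17_5, mm17_6, mm17_7, mm17_8]
  linarith only [h0, k3, k2, k0, k1, k10, k5, k11, k6]

theorem p17_6 (γ : ℕ → ℝ) (h0 : γ 0 = 1)
    (h : ∀ n < 17, 2 * (((17 : ℕ) : ℝ) - ((n : ℕ) : ℝ)) * ∑ i ∈ range (17 / 2 + 1), γ i * (cfn 17 i n : ℝ) ≤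
      ((n : ℝ) + 1) * ∑ i ∈ range (17 / 2 + 1), γ i * (cfn 17 i (n + 1) : ℝ)) :
    0 < Mat 17 (Mat 17 (Mat 17 γ)) 6 := by
  have k11 := q17_11 γ h0 h
  have k0 := q17_0 γ h0 h
  have k1 := q17_1 γ h0 h
  have k2 := q17_2 γ h0 h
  have k10 := q17_10 γ h0 h
  have k5 := q17_5 γ h0 h
  have k6 := q17_6 γ h0 h
  have k3 := q17_3 γ h0 h
  rw [m17_6]
  simp only [mm17_0, mm17_1, mm17_2, mm17_3, mm17_4, mm17_5, mm17_6, mm17_7, mm17_8]
  linarith only [h0, k11, k0, k1, k2, k10, k5, k6, k3]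

theorem p17_7 (γ : ℕ → ℝ) (h0 : γ 0 = 1)
    (h : ∀ n < 17, 2 * (((17 : ℕ) : ℝ) - ((n : ℕ) : ℝ)) * ∑ i ∈ range (17 / 2 + 1), γ i * (cfn 17 i n : ℝ) ≤
      ((n : ℝ) + 1) * ∑ i ∈ range (17 / 2 + 1), γ i * (cfn 17 i (n + 1) : ℝ)) :
    0 < Mat 17 (Mat 17 (Mat 17 γ)) 7 := by
  have k2 := q17_2 γ h0 h
  have k0 := q17_0 γ h0 h
  have k1 := q17_1 γ h0 h
  have k5 := q17_5 γ h0 h
  have k10 := q17_10 γ h0 h
  have k11 := q17_11 γ h0 h
  have k6 := q17_6 γ h0 h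
  have k3 := q17_3 γ h0 h
  rw [m17_7]
  simp only [mm17_0, mm17_1, mm17_2, mm17_3, mm17_4, mm17_5, mm17_6, mm17_7, mm17_8]
  linarith only [h0, k2, k0, k1, k5, k10, k11, k6, k3]

theorem p17_8 (γ : ℕ → ℝ) (h0 : γ 0 = 1)
    (h : ∀ n < 17, 2 * (((17 : ℕ) : ℝ) - ((n : ℕ) : ℝ)) * ∑ i ∈ range (17 / 2 + 1), γ i * (cfn 17 i n : ℝ) ≤
      ((n : ℝ) + 1) * ∑ i ∈ range (17 / 2 + 1), γ i * (cfn 17 i (n + 1) : ℝ)) :
    0 < Mat 17 (Mat 17 (Mat 17 γ)) 8 := by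
  have k11 := q17_11 γ h0 h
  have k0 := q17_0 γ h0 h
  have k1 := q17_1 γ h0 h
  have k2 := q17_2 γ h0 h
  have k10 := q17_10 γ h0 h
  have k5 := q17_5 γ h0 h
  have k6 := q17_6 γ h0 h
  have k3 := q17_3 γ h0 h
  rw [m17_8]
  simp only [mm17_0, mm17_1, mm17_2, mm17_3, mm17_4, mm17_5, mm17_6, mm17_7, mm17_8]
  linarith only [h0, k11, k0, k1, k2, k10, k5, k6, k3]

theorem main17 (γ : ℕ → ℝ) (h0 : γ 0 = 1)
    (h : ∀ n < 17, 2 * (((17 : ℕ) : ℝ) - ((n : ℕ) : ℝ)) * ∑ i ∈ range (17 / 2 + 1), γ i * (cfn 17 i n : ℝ) ≤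
      ((n : ℝ) + 1) * ∑ i ∈ range (17 / 2 + 1), γ i * (cfn 17 i (n + 1) : ℝ)) :
    ∀ j ≤ 17 / 2, 0 < Mat 17 (Mat 17 (Mat 17 γ)) j := by
  intro j hj
  have hj' : j ≤ 8 := hj
  clear hj
  interval_cases j
  · exact p17_0 γ h0 h
  · exact p17_1 γ h0 h
  · exact p17_2 γ h0 h
  · exact p17_3 γ h0 h
  · exact p17_4 γ h0 h
  · exact p17_5 γ h0 h
  · exact p17_6 γ h0 h
  · exact p17_7 γ h0 h
  · exact p17_8 γ h0 h

theorem c18_0 (γ : ℕ → ℝ) : ∑ i ∈ range (18 / 2 + 1), γ i * (cfn 18 i 0 : ℝ) =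
    (1) * γ 0 + (0) * γ 1 + (0) * γ 2 + (0) * γ 3 + (0) * γ 4 + (0) * γ 5 + (0) * γ 6 + (0) * γ 7
       + (0) * γ 8 + (0) * γ 9 := by
  have h : ((18 / 2 + 1 : ℕ)) = 10 := rfl
  rw [h]
  simp only [sum_range_succ, sum_range_zero, show cfn 18 0 0 = 1 from by decide +kernel, show cfn 18 1 0 = 0 from by decide +kernel, show cfn 18 2 0 = 0 from by decide +kernel, show cfn 18 3 0 = 0 from by decide +kernel, show cfn 18 4 0 = 0 from by decide +kernel, show cfn 18 5 0 = 0 from by decide +kernel, show cfn 18 6 0 = 0 from by decide +kernel, show cfn 18 7 0 = 0 from by decide +kernel, show cfn 18 8 0 = 0 from by decide +kernel, show cfn 18 9 0 = 0 from by decide +kernel, Nat.cast_ofNat, Nat.cast_one, Nat.cast_zero]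
  ring

theorem c18_1 (γ : ℕ → ℝ) : ∑ i ∈ range (18 / 2 + 1), γ i * (cfn 18 i 1 : ℝ) =
    (36) * γ 0 + (1) * γ 1 + (0) * γ 2 + (0) * γ 3 + (0) * γ 4 + (0) * γ 5 + (0) * γ 6
       + (0) * γ 7 + (0) * γ 8 + (0) * γ 9 := by
  have h : ((18 / 2 + 1 : ℕ)) = 10 := rfl
  rw [h]
  simp only [sum_range_succ, sum_range_zero, show cfn 18 0 1 = 36 from by decide +kernel, show cfn 18 1 1 = 1 from by decide +kernel, show cfn 18 2 1 = 0 from by decide +kernel, show cfn 18 3 1 = 0 from by decide +kernel, show cfn 18 4 1 = 0 from by decide +kernel, show cfn 18 5 1 = 0 from by decide +kernel, show cfn 18 6 1 = 0 from by decide +kernel, show cfn 18 7 1 = 0 from by decide +kernel, show cfn 18 8 1 = 0 from by decide +kernel, show cfn 18 9 1 = 0 from by decide +kernel, Nat.cast_ofNat, Nat.cast_one, Nat.cast_zero]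
  ring

theorem c18_2 (γ : ℕ → ℝ) : ∑ i ∈ range (18 / 2 + 1), γ i * (cfn 18 i 2 : ℝ) =
    (612) * γ 0 + (33) * γ 1 + (1) * γ 2 + (0) * γ 3 + (0) * γ 4 + (0) * γ 5 + (0) * γ 6
       + (0) * γ 7 + (0) * γ 8 + (0) * γ 9 := by
  have h : ((18 / 2 + 1 : ℕ)) = 10 := rfl
  rw [h]
  simp only [sum_range_succ, sum_range_zero, show cfn 18 0 2 = 612 from by decide +kernel, show cfn 18 1 2 = 33 from by decide +kernel, show cfn 18 2 2 = 1 from by decide +kernel, show cfn 18 3 2 = 0 from by decide +kernel, show cfn 18 4 2 = 0 from by decide +kernel, show cfn 18 5 2 = 0 from by decide +kernel, show cfn 18 6 2 = 0 from by decide +kernel, show cfn 18 7 2 = 0 from by decide +kernel, show cfn 18 8 2 = 0 from by decide +kernel, show cfn 18 9 2 = 0 from by decide +kernel, Nat.cast_ofNat, Nat.cast_one, Nat.cast_zero]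
  ring

theorem c18_3 (γ : ℕ → ℝ) : ∑ i ∈ range (18 / 2 + 1), γ i * (cfn 18 i 3 : ℝ) =
    (6528) * γ 0 + (512) * γ 1 + (30) * γ 2 + (1) * γ 3 + (0) * γ 4 + (0) * γ 5 + (0) * γ 6
       + (0) * γ 7 + (0) * γ 8 + (0) * γ 9 := by
  have h : ((18 / 2 + 1 : ℕ)) = 10 := rfl
  rw [h]
  simp only [sum_range_succ, sum_range_zero, show cfn 18 0 3 = 6528 from by decide +kernel, show cfn 18 1 3 = 512 from by decide +kernel, show cfn 18 2 3 = 30 from by decide +kernel, show cfn 18 3 3 = 1 from by decide +kernel, show cfn 18 4 3 = 0 from by decide +kernel, show cfn 18 5 3 = 0 from by decide +kernel, show cfn 18 6 3 = 0 from by decide +kernel, show cfn 18 7 3 = 0 from by decide +kernel, show cfn 18 8 3 = 0 from by decide +kernel, show cfn 18 9 3 = 0 from by decide +kernel, Nat.cast_ofNat, Nat.cast_one, Nat.cast_zero]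
  ring

theorem c18_4 (γ : ℕ → ℝ) : ∑ i ∈ range (18 / 2 + 1), γ i * (cfn 18 i 4 : ℝ) =
    (48960) * γ 0 + (4960) * γ 1 + (421) * γ 2 + (27) * γ 3 + (1) * γ 4 + (0) * γ 5 + (0) * γ 6
       + (0) * γ 7 + (0) * γ 8 + (0) * γ 9 := by
  have h : ((18 / 2 + 1 : ℕ)) = 10 := rfl
  rw [h]
  simp only [sum_range_succ, sum_range_zero, show cfn 18 0 4 = 48960 from by decide +kernel, show cfn 18 1 4 = 4960 from by decide +kernel, show cfn 18 2 4 = 421 from by decide +kernel, show cfn 18 3 4 = 27 from by decide +kernel, show cfn 18 4 4 = 1 from by decide +kernel, show cfn 18 5 4 = 0 from by decide +kernel, show cfn 18 6 4 = 0 from by decide +kernel, show cfn 18 7 4 = 0 from by decide +kernel, show cfn 18 8 4 = 0 from by decide +kernel, show cfn 18 9 4 = 0 from by decide +kernel, Nat.cast_ofNat, Nat.cast_one, Nat.cast_zero]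
  ring

theorem c18_5 (γ : ℕ → ℝ) : ∑ i ∈ range (18 / 2 + 1), γ i * (cfn 18 i 5 : ℝ) =
    (274176) * γ 0 + (33600) * γ 1 + (3668) * γ 2 + (339) * γ 3 + (24) * γ 4 + (1) * γ 5
       + (0) * γ 6 + (0) * γ 7 + (0) * γ 8 + (0) * γ 9 := by
  have h : ((18 / 2 + 1 : ℕ)) = 10 := rfl
  rw [h]
  simp only [sum_range_succ, sum_range_zero, show cfn 18 0 5 = 274176 from by decide +kernel, show cfn 18 1 5 = 33600 from by decide +kernel, show cfn 18 2 5 = 3668 from by decide +kernel, show cfn 18 3 5 = 339 from by decide +kernel, show cfn 18 4 5 = 24 from by decide +kernel, show cfn 18 5 5 = 1 from by decide +kernel, show cfn 18 6 5 = 0 from by decide +kernel, show cfn 18 7 5 = 0 from by decide +kernel, show cfn 18 8 5 = 0 from by decide +kernel, show cfn 18 9 5 = 0 from by decide +kernel, Nat.cast_ofNat, Nat.cast_one, Nat.cast_zero]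
  ring

theorem c18_6 (γ : ℕ → ℝ) : ∑ i ∈ range (18 / 2 + 1), γ i * (cfn 18 i 6 : ℝ) =
    (1188096) * γ 0 + (168896) * γ 1 + (22204) * γ 2 + (2625) * γ 3 + (266) * γ 4 + (21) * γ 5
       + (1) * γ 6 + (0) * γ 7 + (0) * γ 8 + (0) * γ 9 := by
  have h : ((18 / 2 + 1 : ℕ)) = 10 := rfl
  rw [h]
  simp only [sum_range_succ, sum_range_zero, show cfn 18 0 6 = 1188096 from by decide +kernel, show cfn 18 1 6 = 168896 from by decide +kernel, show cfn 18 2 6 = 22204 from by decide +kernel, show cfn 18 3 6 = 2625 from by decide +kernel, show cfn 18 4 6 = 266 from by decide +kernel, show cfn 18 5 6 = 21 from by decide +kernel, show cfn 18 6 6 = 1 from by decide +kernel, show cfn 18 7 6 = 0 from by decide +kernel, show cfn 18 8 6 = 0 from by decide +kernel, show cfn 18 9 6 = 0 from by decide +kernel, Nat.cast_ofNat, Nat.cast_one, Nat.cast_zero]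
  ring

theorem c18_7 (γ : ℕ → ℝ) : ∑ i ∈ range (18 / 2 + 1), γ i * (cfn 18 i 7 : ℝ) =
    (4073472) * γ 0 + (652288) * γ 1 + (99008) * γ 2 + (14016) * γ 3 + (1804) * γ 4 + (202) * γ 5
       + (18) * γ 6 + (1) * γ 7 + (0) * γ 8 + (0) * γ 9 := by
  have h : ((18 / 2 + 1 : ℕ)) = 10 := rfl
  rw [h]
  simp only [sum_range_succ, sum_range_zero, show cfn 18 0 7 = 4073472 from by decide +kernel, show cfn 18 1 7 = 652288 from by decide +kernel, show cfn 18 2 7 = 99008 from by decide +kernel, show cfn 18 3 7 = 14016 from by decide +kernel, show cfn 18 4 7 = 1804 from by decide +kernel, show cfn 18 5 7 = 202 from by decide +kernel, show cfn 18 6 7 = 18 from by decide +kernel, show cfn 18 7 7 = 1 from by decide +kernel, show cfn 18 8 7 = 0 from by decide +kernel, show cfn 18 9 7 = 0 from by decide +kernel, Nat.cast_ofNat, Nat.cast_one, Nat.cast_zero]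
  ring

theorem c18_8 (γ : ℕ → ℝ) : ∑ i ∈ range (18 / 2 + 1), γ i * (cfn 18 i 8 : ℝ) =
    (11202048) * γ 0 + (1976832) * γ 1 + (336336) * γ 2 + (54648) * γ 3 + (8361) * γ 4
       + (1178) * γ 5 + (147) * γ 6 + (15) * γ 7 + (1) * γ 8 + (0) * γ 9 := by
  have h : ((18 / 2 + 1 : ℕ)) = 10 := rfl
  rw [h]
  simp only [sum_range_succ, sum_range_zero, show cfn 18 0 8 = 11202048 from by decide +kernel, show cfn 18 1 8 = 1976832 from by decide +kernel, show cfn 18 2 8 = 336336 from by decide +kernel, show cfn 18 3 8 = 54648 from by decide +kernel, show cfn 18 4 8 = 8361 from by decide +kernel, show cfn 18 5 8 = 1178 from by decide +kernel, show cfn 18 6 8 = 147 from by decide +kernel, show cfn 18 7 8 = 15 from by decide +kernel, show cfn 18 8 8 = 1 from by decide +kernel, show cfn 18 9 8 = 0 from by decide +kernel, Nat.cast_ofNat, Nat.cast_one, Nat.cast_zero]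
  ring

theorem c18_9 (γ : ℕ → ℝ) : ∑ i ∈ range (18 / 2 + 1), γ i * (cfn 18 i 9 : ℝ) =
    (24893440) * γ 0 + (4759040) * γ 1 + (887744) * γ 2 + (160688) * γ 3 + (28004) * γ 4
       + (4645) * γ 5 + (720) * γ 6 + (101) * γ 7 + (12) * γ 8 + (1) * γ 9 := by
  have h : ((18 / 2 + 1 : ℕ)) = 10 := rfl
  rw [h]
  simp only [sum_range_succ, sum_range_zero, show cfn 18 0 9 = 24893440 from by decide +kernel, show cfn 18 1 9 = 4759040 from by decide +kernel, show cfn 18 2 9 = 887744 from by decide +kernel, show cfn 18 3 9 = 160688 from by decide +kernel, show cfn 18 4 9 = 28004 from by decide +kernel, show cfn 18 5 9 = 4645 from by decide +kernel, show cfn 18 6 9 = 720 from by decide +kernel, show cfn 18 7 9 = 101 from by decide +kernel, show cfn 18 8 9 = 12 from by decide +kernel, show cfn 18 9 9 = 1 from by decide +kernel, Nat.cast_ofNat, Nat.cast_one, Nat.cast_zero]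
  ring

theorem c18_10 (γ : ℕ → ℝ) : ∑ i ∈ range (18 / 2 + 1), γ i * (cfn 18 i 10 : ℝ) =
    (44808192) * γ 0 + (9152000) * γ 1 + (1839552) * γ 2 + (362736) * γ 3 + (69876) * γ 4
       + (13073) * γ 5 + (2355) * γ 6 + (403) * γ 7 + (64) * γ 8 + (9) * γ 9 := by
  have h : ((18 / 2 + 1 : ℕ)) = 10 := rfl
  rw [h]
  simp only [sum_range_succ, sum_range_zero, show cfn 18 0 10 = 44808192 from by decide +kernel, show cfn 18 1 10 = 9152000 from by decide +kernel, show cfn 18 2 10 = 1839552 from by decide +kernel, show cfn 18 3 10 = 362736 from by decide +kernel, show cfn 18 4 10 = 69876 from by decide +kernel, show cfn 18 5 10 = 13073 from by decide +kernel, show cfn 18 6 10 = 2355 from by decide +kernel, show cfn 18 7 10 = 403 from by decide +kernel, show cfn 18 8 10 = 64 from by decide +kernel, show cfn 18 9 10 = 9 from by decide +kernel, Nat.cast_ofNat, Nat.cast_one,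 Nat.cast_zero]
  ring

theorem c18_11 (γ : ℕ → ℝ) : ∑ i ∈ range (18 / 2 + 1), γ i * (cfn 18 i 11 : ℝ) =
    (65175552) * γ 0 + (14057472) * γ 1 + (3001856) * γ 2 + (633600) * γ 3 + (131904) * γ 4
       + (27008) * γ 5 + (5418) * γ 6 + (1059) * γ 7 + (200) * γ 8 + (36) * γ 9 := by
  have h : ((18 / 2 + 1 : ℕ)) = 10 := rfl
  rw [h]
  simp only [sum_range_succ, sum_range_zero, show cfn 18 0 11 = 65175552 from by decide +kernel, show cfn 18 1 11 = 14057472 from by decide +kernel, show cfn 18 2 11 = 3001856 from by decide +kernel, show cfn 18 3 11 = 633600 from by decide +kernel, show cfn 18 4 11 = 131904 from by decide +kernel, show cfn 18 5 11 = 27008 from by decide +kernel, show cfn 18 6 11 = 5418 from by decide +kernel, show cfn 18 7 11 = 1059 from by decide +kernel, show cfn 18 8 11 = 200 from by decide +kernel, show cfn 18 9 11 = 36 from by decide +kernel, Nat.cast_ofNat,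 Nat.cast_one, Nat.cast_zero]
  ring

theorem c18_12 (γ : ℕ → ℝ) : ∑ i ∈ range (18 / 2 + 1), γ i * (cfn 18 i 12 : ℝ) =
    (76038144) * γ 0 + (17145856) * γ 1 + (3843840) * γ 2 + (856064) * γ 3 + (189216) * γ 4
       + (41456) * γ 5 + (8989) * γ 6 + (1925) * γ 7 + (406) * γ 8 + (84) * γ 9 := by
  have h : ((18 / 2 + 1 : ℕ)) = 10 := rfl
  rw [h]
  simp only [sum_range_succ, sum_range_zero, show cfn 18 0 12 = 76038144 from by decide +kernel, show cfn 18 1 12 = 17145856 from by decide +kernel, show cfn 18 2 12 = 3843840 from by decide +kernel, show cfn 18 3 12 = 856064 from by decide +kernel, show cfn 18 4 12 = 189216 from by decide +kernel, show cfn 18 5 12 = 41456 from by decide +kernel, show cfn 18 6 12 = 8989 from by decide +kernel, show cfn 18 7 12 = 1925 from by decide +kernel, show cfn 18 8 12 = 406 from by decide +kernel, show cfn 18 9 12 = 84 from by decide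 +kernel, Nat.cast_ofNat, Nat.cast_one, Nat.cast_zero]
  ring

theorem c18_13 (γ : ℕ → ℝ) : ∑ i ∈ range (18 / 2 + 1), γ i * (cfn 18 i 13 : ℝ) =
    (70189056) * γ 0 + (16400384) * γ 1 + (3820544) * γ 2 + (887040) * γ 3 + (205184) * γ 4
       + (47264) * γ 5 + (10836) * γ 6 + (2471) * γ 7 + (560) * γ 8 + (126) * γ 9 := by
  have h : ((18 / 2 + 1 : ℕ)) = 10 := rfl
  rw [h]
  simp only [sum_range_succ, sum_range_zero, show cfn 18 0 13 = 70189056 from by decide +kernel, show cfn 18 1 13 = 16400384 from by decide +kernel, show cfn 18 2 13 = 3820544 from by decide +kernel, show cfn 18 3 13 = 887040 from by decide +kernel, show cfn 18 4 13 = 205184 from by decide +kernel, show cfn 18 5 13 = 47264 from by decide +kernel, show cfn 18 6 13 = 10836 from by decide +kernel, show cfn 18 7 13 = 2471 from by decide +kernel, show cfn 18 8 13 = 560 from by decide +kernel, show cfn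 18 9 13 = 126 from by decide +kernel, Nat.cast_ofNat, Nat.cast_one, Nat.cast_zero]
  ring

theorem c18_14 (γ : ℕ → ℝ) : ∑ i ∈ range (18 / 2 + 1), γ i * (cfn 18 i 14 : ℝ) =
    (50135040) * γ 0 + (12042240) * γ 1 + (2888704) * γ 2 + (691968) * γ 3 + (165504) * γ 4
       + (39520) * γ 5 + (9420) * γ 6 + (2241) * γ 7 + (532) * γ 8 + (126) * γ 9 := by
  have h : ((18 / 2 + 1 : ℕ)) = 10 := rfl
  rw [h]
  simp only [sum_range_succ, sum_range_zero, show cfn 18 0 14 = 50135040 from by decide +kernel, show cfn 18 1 14 = 12042240 from by decide +kernel, show cfn 18 2 14 = 2888704 from by decide +kernel, show cfn 18 3 14 = 691968 from by decide +kernel, show cfn 18 4 14 = 165504 from by decide +kernel, show cfn 18 5 14 = 39520 from by decide +kernel, show cfn 18 6 14 = 9420 from by decide +kernel, show cfn 18 7 14 = 2241 from by decide +kernel, show cfn 18 8 14 = 532 from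 by decide +kernel, show cfn 18 9 14 = 126 from by decide +kernel, Nat.cast_ofNat, Nat.cast_one, Nat.cast_zero]
  ring

theorem q18_0 (γ : ℕ → ℝ) (h0 : γ 0 = 1)
    (h : ∀ n < 18, 2 * (((18 : ℕ) : ℝ) - ((n : ℕ) : ℝ)) * ∑ i ∈ range (18 / 2 + 1), γ i * (cfn 18 i n : ℝ) ≤
      ((n : ℝ) + 1) * ∑ i ∈ range (18 / 2 + 1), γ i * (cfn 18 i (n + 1) : ℝ)) :
    0 ≤ (0) * γ 0 + (1) * γ 1 + (0) * γ 2 + (0) * γ 3 + (0) * γ 4 + (0) * γ 5 + (0) * γ 6 + (0) * γ 7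
       + (0) * γ 8 + (0) * γ 9 := by
  have h1 := h 0 (by norm_num)
  rw [show 0 + 1 = 1 from rfl, c18_0, c18_1] at h1
  norm_num [h0] at h1 ⊢
  linarith

theorem q18_1 (γ : ℕ → ℝ) (h0 : γ 0 = 1)
    (h : ∀ n < 18, 2 * (((18 : ℕ) : ℝ) - ((n : ℕ) : ℝ)) * ∑ i ∈ range (18 / 2 + 1), γ i * (cfn 18 i n : ℝ) ≤
      ((n : ℝ) + 1) * ∑ i ∈ range (18 / 2 + 1), γ i * (cfn 18 i (n + 1) : ℝ)) :
    0 ≤ (0) * γ 0 + (32) * γ 1 + (2) * γ 2 + (0) * γ 3 + (0) * γ 4 + (0) * γ 5 + (0) * γ 6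
       + (0) * γ 7 + (0) * γ 8 + (0) * γ 9 := by
  have h1 := h 1 (by norm_num)
  rw [show 1 + 1 = 2 from rfl, c18_1, c18_2] at h1
  norm_num [h0] at h1 ⊢
  linarith

theorem q18_2 (γ : ℕ → ℝ) (h0 : γ 0 = 1)
    (h : ∀ n < 18, 2 * (((18 : ℕ) : ℝ) - ((n : ℕ) : ℝ)) * ∑ i ∈ range (18 / 2 + 1), γ i * (cfn 18 i n : ℝ) ≤
      ((n : ℝ) + 1) * ∑ i ∈ range (18 / 2 + 1), γ i * (cfn 18 i (n + 1) : ℝ)) :
    0 ≤ (0) * γ 0 + (480) * γ 1 + (58) * γ 2 + (3) * γ 3 + (0) * γ 4 + (0) * γ 5 + (0) * γ 6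
       + (0) * γ 7 + (0) * γ 8 + (0) * γ 9 := by
  have h1 := h 2 (by norm_num)
  rw [show 2 + 1 = 3 from rfl, c18_2, c18_3] at h1
  norm_num [h0] at h1 ⊢
  linarith

theorem q18_3 (γ : ℕ → ℝ) (h0 : γ 0 = 1)
    (h : ∀ n < 18, 2 * (((18 : ℕ) : ℝ) - ((n : ℕ) : ℝ)) * ∑ i ∈ range (18 / 2 + 1), γ i * (cfn 18 i n : ℝ) ≤
      ((n : ℝ) + 1) * ∑ i ∈ range (18 / 2 + 1), γ i * (cfn 18 i (n + 1) : ℝ)) :
    0 ≤ (0) * γ 0 + (4480) * γ 1 + (784) * γ 2 + (78) * γ 3 + (4) * γ 4 + (0) * γ 5 + (0) * γ 6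
       + (0) * γ 7 + (0) * γ 8 + (0) * γ 9 := by
  have h1 := h 3 (by norm_num)
  rw [show 3 + 1 = 4 from rfl, c18_3, c18_4] at h1
  norm_num [h0] at h1 ⊢
  linarith

theorem q18_4 (γ : ℕ → ℝ) (h0 : γ 0 = 1)
    (h : ∀ n < 18, 2 * (((18 : ℕ) : ℝ) - ((n : ℕ) : ℝ)) * ∑ i ∈ range (18 / 2 + 1), γ i * (cfn 18 i n : ℝ) ≤
      ((n : ℝ) + 1) * ∑ i ∈ range (18 / 2 + 1), γ i * (cfn 18 i (n + 1) : ℝ)) :
    0 ≤ (0) * γ 0 + (29120) * γ 1 + (6552) * γ 2 + (939) * γ 3 + (92) * γ 4 + (5) * γ 5 + (0) * γ 6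
       + (0) * γ 7 + (0) * γ 8 + (0) * γ 9 := by
  have h1 := h 4 (by norm_num)
  rw [show 4 + 1 = 5 from rfl, c18_4, c18_5] at h1
  norm_num [h0] at h1 ⊢
  linarith

theorem q18_5 (γ : ℕ → ℝ) (h0 : γ 0 = 1)
    (h : ∀ n < 18, 2 * (((18 : ℕ) : ℝ) - ((n : ℕ) : ℝ)) * ∑ i ∈ range (18 / 2 + 1), γ i * (cfn 18 i n : ℝ) ≤
      ((n : ℝ) + 1) * ∑ i ∈ range (18 / 2 + 1), γ i * (cfn 18 i (n + 1) : ℝ)) :
    0 ≤ (0) * γ 0 + (139776) * γ 1 + (37856) * γ 2 + (6936) * γ 3 + (972) * γ 4 + (100) * γ 5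
       + (6) * γ 6 + (0) * γ 7 + (0) * γ 8 + (0) * γ 9 := by
  have h1 := h 5 (by norm_num)
  rw [show 5 + 1 = 6 from rfl, c18_5, c18_6] at h1
  norm_num [h0] at h1 ⊢
  linarith

theorem q18_6 (γ : ℕ → ℝ) (h0 : γ 0 = 1)
    (h : ∀ n < 18, 2 * (((18 : ℕ) : ℝ) - ((n : ℕ) : ℝ)) * ∑ i ∈ range (18 / 2 + 1), γ i * (cfn 18 i n : ℝ) ≤
      ((n : ℝ) + 1) * ∑ i ∈ range (18 / 2 + 1), γ i * (cfn 18 i (n + 1) : ℝ)) :
    0 ≤ (0) * γ 0 + (512512) * γ 1 + (160160) * γ 2 + (35112) * γ 3 + (6244) * γ 4 + (910) * γ 5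
       + (102) * γ 6 + (7) * γ 7 + (0) * γ 8 + (0) * γ 9 := by
  have h1 := h 6 (by norm_num)
  rw [show 6 + 1 = 7 from rfl, c18_6, c18_7] at h1
  norm_num [h0] at h1 ⊢
  linarith

theorem q18_7 (γ : ℕ → ℝ) (h0 : γ 0 = 1)
    (h : ∀ n < 18, 2 * (((18 : ℕ) : ℝ) - ((n : ℕ) : ℝ)) * ∑ i ∈ range (18 / 2 + 1), γ i * (cfn 18 i n : ℝ) ≤
      ((n : ℝ) + 1) * ∑ i ∈ range (18 / 2 + 1), γ i * (cfn 18 i (n + 1) : ℝ)) :
    0 ≤ (0) * γ 0 + (1464320) * γ 1 + (512512) * γ 2 + (128832) * γ 3 + (27200) * γ 4 + (4980) * γ 5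
       + (780) * γ 6 + (98) * γ 7 + (8) * γ 8 + (0) * γ 9 := by
  have h1 := h 7 (by norm_num)
  rw [show 7 + 1 = 8 from rfl, c18_7, c18_8] at h1
  norm_num [h0] at h1 ⊢
  linarith

theorem q18_9 (γ : ℕ → ℝ) (h0 : γ 0 = 1)
    (h : ∀ n < 18, 2 * (((18 : ℕ) : ℝ) - ((n : ℕ) : ℝ)) * ∑ i ∈ range (18 / 2 + 1), γ i * (cfn 18 i n : ℝ) ≤
      ((n : ℝ) + 1) * ∑ i ∈ range (18 / 2 + 1), γ i * (cfn 18 i (n + 1) : ℝ)) :
    0 ≤ (0) * γ 0 + (5857280) * γ 1 + (2416128) * γ 2 + (734976) * γ 3 + (194688) * γ 4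
       + (47120) * γ 5 + (10590) * γ 6 + (2212) * γ 7 + (424) * γ 8 + (72) * γ 9 := by
  have h1 := h 9 (by norm_num)
  rw [show 9 + 1 = 10 from rfl, c18_9, c18_10] at h1
  norm_num [h0] at h1 ⊢
  linarith

theorem q18_10 (γ : ℕ → ℝ) (h0 : γ 0 = 1)
    (h : ∀ n < 18, 2 * (((18 : ℕ) : ℝ) - ((n : ℕ) : ℝ)) * ∑ i ∈ range (18 / 2 + 1), γ i * (cfn 18 i n : ℝ) ≤
      ((n : ℝ) + 1) * ∑ i ∈ range (18 / 2 + 1), γ i * (cfn 18 i (n + 1) : ℝ)) :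
    0 ≤ (0) * γ 0 + (8200192) * γ 1 + (3587584) * γ 2 + (1165824) * γ 3 + (332928) * γ 4
       + (87920) * γ 5 + (21918) * γ 6 + (5201) * γ 7 + (1176) * γ 8 + (252) * γ 9 := by
  have h1 := h 10 (by norm_num)
  rw [show 10 + 1 = 11 from rfl, c18_10, c18_11] at h1
  norm_num [h0] at h1 ⊢
  linarith

theorem q18_11 (γ : ℕ → ℝ) (h0 : γ 0 = 1)
    (h : ∀ n < 18, 2 * (((18 : ℕ) : ℝ) - ((n : ℕ) : ℝ)) * ∑ i ∈ range (18 / 2 + 1), γ i * (cfn 18 i n : ℝ) ≤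
      ((n : ℝ) + 1) * ∑ i ∈ range (18 / 2 + 1), γ i * (cfn 18 i (n + 1) : ℝ)) :
    0 ≤ (0) * γ 0 + (8945664) * γ 1 + (4100096) * γ 2 + (1402368) * γ 3 + (423936) * γ 4
       + (119360) * γ 5 + (32016) * γ 6 + (8274) * γ 7 + (2072) * γ 8 + (504) * γ 9 := by
  have h1 := h 11 (by norm_num)
  rw [show 11 + 1 = 12 from rfl, c18_11, c18_12] at h1
  norm_num [h0] at h1 ⊢
  linarith

theorem q18_12 (γ : ℕ → ℝ) (h0 : γ 0 = 1)
    (h : ∀ n < 18, 2 * (((18 : ℕ) : ℝ) - ((n : ℕ) : ℝ)) * ∑ i ∈ range (18 / 2 + 1), γ i * (cfn 18 i n : ℝ) ≤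
      ((n : ℝ) + 1) * ∑ i ∈ range (18 / 2 + 1), γ i * (cfn 18 i (n + 1) : ℝ)) :
    0 ≤ (0) * γ 0 + (7454720) * γ 1 + (3540992) * γ 2 + (1258752) * γ 3 + (396800) * γ 4
       + (116960) * γ 5 + (33000) * γ 6 + (9023) * γ 7 + (2408) * γ 8 + (630) * γ 9 := by
  have h1 := h 12 (by norm_num)
  rw [show 12 + 1 = 13 from rfl, c18_12, c18_13] at h1
  norm_num [h0] at h1 ⊢
  linarith

theorem q18_13 (γ : ℕ → ℝ) (h0 : γ 0 = 1)
    (h : ∀ n < 18, 2 * (((18 : ℕ) : ℝ) - ((n : ℕ) : ℝ)) * ∑ i ∈ range (18 / 2 + 1), γ i * (cfn 18 i n : ℝ) ≤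
      ((n : ℝ) + 1) * ∑ i ∈ range (18 / 2 + 1), γ i * (cfn 18 i (n + 1) : ℝ)) :
    0 ≤ (0) * γ 0 + (4587520) * γ 1 + (2236416) * γ 2 + (817152) * γ 3 + (265216) * γ 4
       + (80640) * γ 5 + (23520) * γ 6 + (6664) * γ 7 + (1848) * γ 8 + (504) * γ 9 := by
  have h1 := h 13 (by norm_num)
  rw [show 13 + 1 = 14 from rfl, c18_13, c18_14] at h1
  norm_num [h0] at h1 ⊢
  linarith

theorem m18_0 (γ : ℕ → ℝ) : Mat 18 γ 0 = (1) * γ 0 + (0) * γ 1 + (0) * γ 2 + (0) * γ 3 + (0) * γ 4 + (0) * γ 5 + (0) * γ 6 + (0) * γ 7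
       + (0) * γ 8 + (0) * γ 9 := by
  unfold Mat
  rw [show (18 / 2 + 1 : ℕ) = 10 from rfl]
  simp [sum_range_succ, Nat.choose]
  try ring

theorem m18_1 (γ : ℕ → ℝ) : Mat 18 γ 1 = (612) * γ 0 + (34) * γ 1 + (1) * γ 2 + (0) * γ 3 + (0) * γ 4 + (0) * γ 5 + (0) * γ 6
       + (0) * γ 7 + (0) * γ 8 + (0) * γ 9 := by
  unfold Mat
  rw [show (18 / 2 + 1 : ℕ) = 10 from rfl]
  simp [sum_range_succ, Nat.choose]
  try ring

theorem m18_2 (γ : ℕ → ℝ) : Mat 18 γ 2 = (48960) * γ 0 + (5440) * γ 1 + (480) * γ 2 + (30) * γ 3 + (1) * γ 4 + (0) * γ 5 + (0) * γ 6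
       + (0) * γ 7 + (0) * γ 8 + (0) * γ 9 := by
  unfold Mat
  rw [show (18 / 2 + 1 : ℕ) = 10 from rfl]
  simp [sum_range_succ, Nat.choose]
  try ring

theorem m18_3 (γ : ℕ → ℝ) : Mat 18 γ 3 = (1188096) * γ 0 + (198016) * γ 1 + (29120) * γ 2 + (3640) * γ 3 + (364) * γ 4 + (26) * γ 5
       + (1) * γ 6 + (0) * γ 7 + (0) * γ 8 + (0) * γ 9 := by
  unfold Mat
  rw [show (18 / 2 + 1 : ℕ) = 10 from rfl]
  simp [sum_range_succ, Nat.choose]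
  try ring

theorem m18_4 (γ : ℕ → ℝ) : Mat 18 γ 4 = (11202048) * γ 0 + (2489344) * γ 1 + (512512) * γ 2 + (96096) * γ 3 + (16016) * γ 4
       + (2288) * γ 5 + (264) * γ 6 + (22) * γ 7 + (1) * γ 8 + (0) * γ 9 := by
  unfold Mat
  rw [show (18 / 2 + 1 : ℕ) = 10 from rfl]
  simp [sum_range_succ, Nat.choose]
  try ring

theorem m18_5 (γ : ℕ → ℝ) : Mat 18 γ 5 = (44808192) * γ 0 + (12446720) * γ 1 + (3294720) * γ 2 + (823680) * γ 3 + (192192) * γ 4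
       + (41184) * γ 5 + (7920) * γ 6 + (1320) * γ 7 + (180) * γ 8 + (18) * γ 9 := by
  unfold Mat
  rw [show (18 / 2 + 1 : ℕ) = 10 from rfl]
  simp [sum_range_succ, Nat.choose]
  try ring

theorem m18_6 (γ : ℕ → ℝ) : Mat 18 γ 6 = (76038144) * γ 0 + (25346048) * γ 1 + (8200192) * γ 2 + (2562560) * γ 3 + (768768) * γ 4
       + (219648) * γ 5 + (59136) * γ 6 + (14784) * γ 7 + (3360) * γ 8 + (672) * γ 9 := by
  unfold Mat
  rw [show (18 / 2 + 1 : ℕ) = 10 from rfl]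
  simp [sum_range_succ, Nat.choose]
  try ring

theorem m18_7 (γ : ℕ → ℝ) : Mat 18 γ 7 = (50135040) * γ 0 + (19496960) * γ 1 + (7454720) * γ 2 + (2795520) * γ 3 + (1025024) * γ 4
       + (366080) * γ 5 + (126720) * γ 6 + (42240) * γ 7 + (13440) * γ 8 + (4032) * γ 9 := by
  unfold Mat
  rw [show (18 / 2 + 1 : ℕ) = 10 from rfl]
  simp [sum_range_succ, Nat.choose]
  try ring

theorem m18_8 (γ : ℕ → ℝ) : Mat 18 γ 8 = (10027008) * γ 0 + (4456448) * γ 1 + (1966080) * γ 2 + (860160) * γ 3 + (372736) * γ 4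
       + (159744) * γ 5 + (67584) * γ 6 + (28160) * γ 7 + (11520) * γ 8 + (4608) * γ 9 := by
  unfold Mat
  rw [show (18 / 2 + 1 : ℕ) = 10 from rfl]
  simp [sum_range_succ, Nat.choose]
  try ring

theorem m18_9 (γ : ℕ → ℝ) : Mat 18 γ 9 = (262144) * γ 0 + (131072) * γ 1 + (65536) * γ 2 + (32768) * γ 3 + (16384) * γ 4
       + (8192) * γ 5 + (4096) * γ 6 + (2048) * γ 7 + (1024) * γ 8 + (512) * γ 9 := by
  unfold Mat
  rw [show (18 / 2 + 1 : ℕ) = 10 from rfl]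
  simp [sum_range_succ, Nat.choose]
  try ring

theorem mm18_0 (γ : ℕ → ℝ) : Mat 18 (Mat 18 γ) 0 =
      (1) * γ 0 + (0) * γ 1 + (0) * γ 2 + (0) * γ 3 + (0) * γ 4 + (0) * γ 5 + (0) * γ 6 + (0) * γ 7
       + (0) * γ 8 + (0) * γ 9 := by
  rw [m18_0]
  simp only [m18_0, m18_1, m18_2, m18_3, m18_4, m18_5, m18_6, m18_7, m18_8, m18_9]
  ring

theorem mm18_1 (γ : ℕ → ℝ) : Mat 18 (Mat 18 γ) 1 =
      (70380) * γ 0 + (6596) * γ 1 + (514) * γ 2 + (30) * γ 3 + (1) * γ 4 + (0) * γ 5 + (0) * γ 6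
       + (0) * γ 7 + (0) * γ 8 + (0) * γ 9 := by
  rw [m18_1]
  simp only [m18_0, m18_1, m18_2, m18_3, m18_4, m18_5, m18_6, m18_7, m18_8, m18_9]
  ring

theorem mm18_2 (γ : ℕ → ℝ) : Mat 18 (Mat 18 γ) 2 =
      (73723968) * γ 0 + (11225984) * γ 1 + (1621952) * γ 2 + (219696) * γ 3 + (27416) * γ 4
       + (3068) * γ 5 + (294) * γ 6 + (22) * γ 7 + (1) * γ 8 + (0) * γ 9 := by
  rw [m18_2]
  simp only [m18_0, m18_1, m18_2, m18_3, m18_4, m18_5, m18_6, m18_7, m18_8, m18_9]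
  ring

theorem mm18_3 (γ : ℕ → ℝ) : Mat 18 (Mat 18 γ) 3 =
      (11191355136) * γ 0 + (2141005568) * γ 1 + (400589696) * γ 2 + (73080384) * γ 3
       + (12949664) * γ 4 + (2217904) * γ 5 + (364792) * γ 6 + (57112) * γ 7 + (8404) * γ 8
       + (1140) * γ 9 := by
  rw [m18_3]
  simp only [m18_0, m18_1, m18_2, m18_3, m18_4, m18_5, m18_6, m18_7, m18_8, m18_9]
  ring

theorem mm18_4 (γ : ℕ → ℝ) : Mat 18 (Mat 18 γ) 4 =
      (443918753280) * γ 0 + (97373423616) * γ 1 + (21124342784) * γ 2 + (4527695616) * γ 3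
       + (957617024) * γ 4 + (199572672) * γ 5 + (40912608) * γ 6 + (8232928) * γ 7
       + (1622096) * γ 8 + (311904) * γ 9 := by
  rw [m18_4]
  simp only [m18_0, m18_1, m18_2, m18_3, m18_4, m18_5, m18_6, m18_7, m18_8, m18_9]
  ring

theorem mm18_5 (γ : ℕ → ℝ) : Mat 18 (Mat 18 γ) 5 =
      (5816117127168) * γ 0 + (1399767209984) * γ 1 + (334910753792) * γ 2 + (79629336576) * γ 3
       + (18805558272) * γ 4 + (4409011968) * γ 5 + (1025606016) * γ 6 + (236542848) * γ 7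
       + (54049344) * γ 8 + (12224448) * γ 9 := by
  rw [m18_5]
  simp only [m18_0, m18_1, m18_2, m18_3, m18_4, m18_5, m18_6, m18_7, m18_8, m18_9]
  ring

theorem mm18_6 (γ : ℕ → ℝ) : Mat 18 (Mat 18 γ) 6 =
      (27187097321472) * γ 0 + (7002692550656) * γ 1 + (1798051872768) * γ 2 + (460149592064) * γ 3
       + (117347371008) * γ 4 + (29815026688) * γ 5 + (7545459200) * γ 6 + (1901584896) * γ 7
       + (477094656) * γ 8 + (119129088) * γ 9 := by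
  rw [m18_6]
  simp only [m18_0, m18_1, m18_2, m18_3, m18_4, m18_5, m18_6, m18_7, m18_8, m18_9]
  ring

theorem mm18_7 (γ : ℕ → ℝ) : Mat 18 (Mat 18 γ) 7 =
      (43473140121600) * γ 0 + (11798732800000) * γ 1 + (3197175562240) * γ 2
       + (864935854080) * γ 3 + (233590382592) * γ 4 + (62971580416) * γ 5 + (16943966208) * γ 6
       + (4550150144) * γ 7 + (1219361792) * γ 8 + (326052864) * γ 9 := by
  rw [m18_7]
  simp only [m18_0, m18_1, m18_2, m18_3, m18_4, m18_5, m18_6, m18_7, m18_8, m18_9]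
  ring

theorem mm18_8 (γ : ℕ → ℝ) : Mat 18 (Mat 18 γ) 8 =
      (19121679433728) * γ 0 + (5411293364224) * γ 1 + (1530417381376) * γ 2 + (432556277760) * γ 3
       + (122176831488) * γ 4 + (34485583872) * γ 5 + (9726959616) * γ 6 + (2741542912) * γ 7
       + (772108288) * γ 8 + (217276416) * γ 9 := by
  rw [m18_8]
  simp only [m18_0, m18_1, m18_2, m18_3, m18_4, m18_5, m18_6, m18_7, m18_8, m18_9]
  ring

theorem mm18_9 (γ : ℕ → ℝ) : Mat 18 (Mat 18 γ) 9 =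
      (1017354387456) * γ 0 + (297976201216) * γ 1 + (87275208704) * γ 2 + (25562316800) * γ 3
       + (7487029248) * γ 4 + (2192900096) * γ 5 + (642285568) * γ 6 + (188121088) * γ 7
       + (55099392) * γ 8 + (16138240) * γ 9 := by
  rw [m18_9]
  simp only [m18_0, m18_1, m18_2, m18_3, m18_4, m18_5, m18_6, m18_7, m18_8, m18_9]
  ring

theorem p18_0 (γ : ℕ → ℝ) (h0 : γ 0 = 1)
    (h : ∀ n < 18, 2 * (((18 : ℕ) : ℝ) - ((n : ℕ) : ℝ)) * ∑ i ∈ range (18 / 2 + 1), γ i * (cfn 18 i n : ℝ) ≤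
      ((n : ℝ) + 1) * ∑ i ∈ range (18 / 2 + 1), γ i * (cfn 18 i (n + 1) : ℝ)) :
    0 < Mat 18 (Mat 18 (Mat 18 γ)) 0 := by

  rw [m18_0]
  simp only [mm18_0, mm18_1, mm18_2, mm18_3, mm18_4, mm18_5, mm18_6, mm18_7, mm18_8, mm18_9]
  linarith only [h0]

theorem p18_1 (γ : ℕ → ℝ) (h0 : γ 0 = 1)
    (h : ∀ n < 18, 2 * (((18 : ℕ) : ℝ) - ((n : ℕ) : ℝ)) * ∑ i ∈ range (18 / 2 + 1), γ i * (cfn 18 i n : ℝ) ≤
      ((n : ℝ) + 1) * ∑ i ∈ range (18 / 2 + 1), γ i * (cfn 18 i (n + 1) : ℝ)) :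
    0 < Mat 18 (Mat 18 (Mat 18 γ)) 1 := by
  have k0 := q18_0 γ h0 h
  have k6 := q18_6 γ h0 h
  have k2 := q18_2 γ h0 h
  have k4 := q18_4 γ h0 h
  have k3 := q18_3 γ h0 h
  have k1 := q18_1 γ h0 h
  have k7 := q18_7 γ h0 h
  have k5 := q18_5 γ h0 h
  rw [m18_1]
  simp only [mm18_0, mm18_1, mm18_2, mm18_3, mm18_4, mm18_5, mm18_6, mm18_7, mm18_8, mm18_9]
  linarith only [h0, k0, k6, k2, k4, k3, k1, k7, k5]

theorem p18_2 (γ : ℕ → ℝ) (h0 : γ 0 = 1)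
    (h : ∀ n < 18, 2 * (((18 : ℕ) : ℝ) - ((n : ℕ) : ℝ)) * ∑ i ∈ range (18 / 2 + 1), γ i * (cfn 18 i n : ℝ) ≤
      ((n : ℝ) + 1) * ∑ i ∈ range (18 / 2 + 1), γ i * (cfn 18 i (n + 1) : ℝ)) :
    0 < Mat 18 (Mat 18 (Mat 18 γ)) 2 := by
  have k3 := q18_3 γ h0 h
  have k6 := q18_6 γ h0 h
  have k0 := q18_0 γ h0 h
  have k1 := q18_1 γ h0 h
  have k2 := q18_2 γ h0 h
  have k9 := q18_9 γ h0 h
  have k4 := q18_4 γ h0 h
  have k10 := q18_10 γ h0 h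
  have k7 := q18_7 γ h0 h
  rw [m18_2]
  simp only [mm18_0, mm18_1, mm18_2, mm18_3, mm18_4, mm18_5, mm18_6, mm18_7, mm18_8, mm18_9]
  linarith only [h0, k3, k6, k0, k1, k2, k9, k4, k10, k7]

theorem p18_3 (γ : ℕ → ℝ) (h0 : γ 0 = 1)
    (h : ∀ n < 18, 2 * (((18 : ℕ) : ℝ) - ((n : ℕ) : ℝ)) * ∑ i ∈ range (18 / 2 + 1), γ i * (cfn 18 i n : ℝ) ≤
      ((n : ℝ) + 1) * ∑ i ∈ range (18 / 2 + 1), γ i * (cfn 18 i (n + 1) : ℝ)) :
    0 < Mat 18 (Mat 18 (Mat 18 γ)) 3 := by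
  have k2 := q18_2 γ h0 h
  have k0 := q18_0 γ h0 h
  have k10 := q18_10 γ h0 h
  have k1 := q18_1 γ h0 h
  have k3 := q18_3 γ h0 h
  have k4 := q18_4 γ h0 h
  have k6 := q18_6 γ h0 h
  have k11 := q18_11 γ h0 h
  have k7 := q18_7 γ h0 h
  rw [m18_3]
  simp only [mm18_0, mm18_1, mm18_2, mm18_3, mm18_4, mm18_5, mm18_6, mm18_7, mm18_8, mm18_9]
  linarith only [h0, k2, k0, k10, k1, k3, k4, k6, k11, k7]

theorem p18_4 (γ : ℕ → ℝ) (h0 : γ 0 = 1)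
    (h : ∀ n < 18, 2 * (((18 : ℕ) : ℝ) - ((n : ℕ) : ℝ)) * ∑ i ∈ range (18 / 2 + 1), γ i * (cfn 18 i n : ℝ) ≤
      ((n : ℝ) + 1) * ∑ i ∈ range (18 / 2 + 1), γ i * (cfn 18 i (n + 1) : ℝ)) :
    0 < Mat 18 (Mat 18 (Mat 18 γ)) 4 := by
  have k11 := q18_11 γ h0 h
  have k0 := q18_0 γ h0 h
  have k1 := q18_1 γ h0 h
  have k2 := q18_2 γ h0 h
  have k10 := q18_10 γ h0 h
  have k4 := q18_4 γ h0 h
  have k6 := q18_6 γ h0 h
  have k3 := q18_3 γ h0 h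
  have k7 := q18_7 γ h0 h
  rw [m18_4]
  simp only [mm18_0, mm18_1, mm18_2, mm18_3, mm18_4, mm18_5, mm18_6, mm18_7, mm18_8, mm18_9]
  linarith only [h0, k11, k0, k1, k2, k10, k4, k6, k3, k7]

theorem p18_5 (γ : ℕ → ℝ) (h0 : γ 0 = 1)
    (h : ∀ n < 18, 2 * (((18 : ℕ) : ℝ) - ((n : ℕ) : ℝ)) * ∑ i ∈ range (18 / 2 + 1), γ i * (cfn 18 i n : ℝ) ≤
      ((n : ℝ) + 1) * ∑ i ∈ range (18 / 2 + 1), γ i * (cfn 18 i (n + 1) : ℝ)) :
    0 < Mat 18 (Mat 18 (Mat 18 γ)) 5 := by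
  have k1 := q18_1 γ h0 h
  have k0 := q18_0 γ h0 h
  have k7 := q18_7 γ h0 h
  have k3 := q18_3 γ h0 h
  have k2 := q18_2 γ h0 h
  have k11 := q18_11 γ h0 h
  have k6 := q18_6 γ h0 h
  have k12 := q18_12 γ h0 h
  have k4 := q18_4 γ h0 h
  rw [m18_5]
  simp only [mm18_0, mm18_1, mm18_2, mm18_3, mm18_4, mm18_5, mm18_6, mm18_7, mm18_8, mm18_9]
  linarith only [h0, k1, k0, k7, k3, k2, k11, k6, k12, k4]

theorem p18_6 (γ : ℕ → ℝ) (h0 : γ 0 = 1)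
    (h : ∀ n < 18, 2 * (((18 : ℕ) : ℝ) - ((n : ℕ) : ℝ)) * ∑ i ∈ range (18 / 2 + 1), γ i * (cfn 18 i n : ℝ) ≤
      ((n : ℝ) + 1) * ∑ i ∈ range (18 / 2 + 1), γ i * (cfn 18 i (n + 1) : ℝ)) :
    0 < Mat 18 (Mat 18 (Mat 18 γ)) 6 := by
  have k11 := q18_11 γ h0 h
  have k0 := q18_0 γ h0 h
  have k3 := q18_3 γ h0 h
  have k1 := q18_1 γ h0 h
  have k2 := q18_2 γ h0 h
  have k12 := q18_12 γ h0 h
  have k6 := q18_6 γ h0 h
  have k7 := q18_7 γ h0 h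
  have k4 := q18_4 γ h0 h
  rw [m18_6]
  simp only [mm18_0, mm18_1, mm18_2, mm18_3, mm18_4, mm18_5, mm18_6, mm18_7, mm18_8, mm18_9]
  linarith only [h0, k11, k0, k3, k1, k2, k12, k6, k7, k4]

theorem p18_7 (γ : ℕ → ℝ) (h0 : γ 0 = 1)
    (h : ∀ n < 18, 2 * (((18 : ℕ) : ℝ) - ((n : ℕ) : ℝ)) * ∑ i ∈ range (18 / 2 + 1), γ i * (cfn 18 i n : ℝ) ≤
      ((n : ℝ) + 1) * ∑ i ∈ range (18 / 2 + 1), γ i * (cfn 18 i (n + 1) : ℝ)) :
    0 < Mat 18 (Mat 18 (Mat 18 γ)) 7 := by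
  have k1 := q18_1 γ h0 h
  have k6 := q18_6 γ h0 h
  have k0 := q18_0 γ h0 h
  have k11 := q18_11 γ h0 h
  have k2 := q18_2 γ h0 h
  have k3 := q18_3 γ h0 h
  have k12 := q18_12 γ h0 h
  have k7 := q18_7 γ h0 h
  have k4 := q18_4 γ h0 h
  rw [m18_7]
  simp only [mm18_0, mm18_1, mm18_2, mm18_3, mm18_4, mm18_5, mm18_6, mm18_7, mm18_8, mm18_9]
  linarith only [h0, k1, k6, k0, k11, k2, k3, k12, k7, k4]

theorem p18_8 (γ : ℕ → ℝ) (h0 : γ 0 = 1)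
    (h : ∀ n < 18, 2 * (((18 : ℕ) : ℝ) - ((n : ℕ) : ℝ)) * ∑ i ∈ range (18 / 2 + 1), γ i * (cfn 18 i n : ℝ) ≤
      ((n : ℝ) + 1) * ∑ i ∈ range (18 / 2 + 1), γ i * (cfn 18 i (n + 1) : ℝ)) :
    0 < Mat 18 (Mat 18 (Mat 18 γ)) 8 := by
  have k12 := q18_12 γ h0 h
  have k2 := q18_2 γ h0 h
  have k0 := q18_0 γ h0 h
  have k1 := q18_1 γ h0 h
  have k11 := q18_11 γ h0 h
  have k3 := q18_3 γ h0 h
  have k6 := q18_6 γ h0 h
  have k7 := q18_7 γ h0 h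
  have k4 := q18_4 γ h0 h
  rw [m18_8]
  simp only [mm18_0, mm18_1, mm18_2, mm18_3, mm18_4, mm18_5, mm18_6, mm18_7, mm18_8, mm18_9]
  linarith only [h0, k12, k2, k0, k1, k11, k3, k6, k7, k4]

theorem p18_9 (γ : ℕ → ℝ) (h0 : γ 0 = 1)
    (h : ∀ n < 18, 2 * (((18 : ℕ) : ℝ) - ((n : ℕ) : ℝ)) * ∑ i ∈ range (18 / 2 + 1), γ i * (cfn 18 i n : ℝ) ≤
      ((n : ℝ) + 1) * ∑ i ∈ range (18 / 2 + 1), γ i * (cfn 18 i (n + 1) : ℝ)) :
    0 < Mat 18 (Mat 18 (Mat 18 γ)) 9 := by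
  have k1 := q18_1 γ h0 h
  have k0 := q18_0 γ h0 h
  have k4 := q18_4 γ h0 h
  have k2 := q18_2 γ h0 h
  have k12 := q18_12 γ h0 h
  have k3 := q18_3 γ h0 h
  have k6 := q18_6 γ h0 h
  have k7 := q18_7 γ h0 h
  have k13 := q18_13 γ h0 h
  rw [m18_9]
  simp only [mm18_0, mm18_1, mm18_2, mm18_3, mm18_4, mm18_5, mm18_6, mm18_7, mm18_8, mm18_9]
  linarith only [h0, k1, k0, k4, k2, k12, k3, k6, k7, k13]

theorem main18 (γ : ℕ → ℝ) (h0 : γ 0 = 1)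
    (h : ∀ n < 18, 2 * (((18 : ℕ) : ℝ) - ((n : ℕ) : ℝ)) * ∑ i ∈ range (18 / 2 + 1), γ i * (cfn 18 i n : ℝ) ≤
      ((n : ℝ) + 1) * ∑ i ∈ range (18 / 2 + 1), γ i * (cfn 18 i (n + 1) : ℝ)) :
    ∀ j ≤ 18 / 2, 0 < Mat 18 (Mat 18 (Mat 18 γ)) j := by
  intro j hj
  have hj' : j ≤ 9 := hj
  clear hj
  interval_cases j
  · exact p18_0 γ h0 h
  · exact p18_1 γ h0 h
  · exact p18_2 γ h0 h
  · exact p18_3 γ h0 h
  · exact p18_4 γ h0 h
  · exact p18_5 γ h0 h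
  · exact p18_6 γ h0 h
  · exact p18_7 γ h0 h
  · exact p18_8 γ h0 h
  · exact p18_9 γ h0 h

theorem c19_0 (γ : ℕ → ℝ) : ∑ i ∈ range (19 / 2 + 1), γ i * (cfn 19 i 0 : ℝ) =
    (1) * γ 0 + (0) * γ 1 + (0) * γ 2 + (0) * γ 3 + (0) * γ 4 + (0) * γ 5 + (0) * γ 6 + (0) * γ 7
       + (0) * γ 8 + (0) * γ 9 := by
  have h : ((19 / 2 + 1 : ℕ)) = 10 := rfl
  rw [h]
  simp only [sum_range_succ, sum_range_zero, show cfn 19 0 0 = 1 from by decide +kernel, show cfn 19 1 0 = 0 from by decide +kernel, show cfn 19 2 0 = 0 from by decide +kernel, show cfn 19 3 0 = 0 from by decide +kernel, show cfn 19 4 0 = 0 from by decide +kernel, show cfn 19 5 0 = 0 from by decide +kernel, show cfn 19 6 0 = 0 from by decide +kernel, show cfn 19 7 0 = 0 from by decide +kernel, show cfn 19 8 0 = 0 from by decide +kernel, show cfn 19 9 0 = 0 from by decide +kernel, Nat.cast_ofNat, Nat.cast_one, Nat.cast_zero]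
  ring

theorem c19_1 (γ : ℕ → ℝ) : ∑ i ∈ range (19 / 2 + 1), γ i * (cfn 19 i 1 : ℝ) =
    (38) * γ 0 + (1) * γ 1 + (0) * γ 2 + (0) * γ 3 + (0) * γ 4 + (0) * γ 5 + (0) * γ 6
       + (0) * γ 7 + (0) * γ 8 + (0) * γ 9 := by
  have h : ((19 / 2 + 1 : ℕ)) = 10 := rfl
  rw [h]
  simp only [sum_range_succ, sum_range_zero, show cfn 19 0 1 = 38 from by decide +kernel, show cfn 19 1 1 = 1 from by decide +kernel, show cfn 19 2 1 = 0 from by decide +kernel, show cfn 19 3 1 = 0 from by decide +kernel, show cfn 19 4 1 = 0 from by decide +kernel, show cfn 19 5 1 = 0 from by decide +kernel, show cfn 19 6 1 = 0 from by decide +kernel, show cfn 19 7 1 = 0 from by decide +kernel, show cfn 19 8 1 = 0 from by decide +kernel, show cfn 19 9 1 = 0 from by decide +kernel, Nat.cast_ofNat, Nat.cast_one, Nat.cast_zero]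
  ring

theorem c19_2 (γ : ℕ → ℝ) : ∑ i ∈ range (19 / 2 + 1), γ i * (cfn 19 i 2 : ℝ) =
    (684) * γ 0 + (35) * γ 1 + (1) * γ 2 + (0) * γ 3 + (0) * γ 4 + (0) * γ 5 + (0) * γ 6
       + (0) * γ 7 + (0) * γ 8 + (0) * γ 9 := by
  have h : ((19 / 2 + 1 : ℕ)) = 10 := rfl
  rw [h]
  simp only [sum_range_succ, sum_range_zero, show cfn 19 0 2 = 684 from by decide +kernel, show cfn 19 1 2 = 35 from by decide +kernel, show cfn 19 2 2 = 1 from by decide +kernel, show cfn 19 3 2 = 0 from by decide +kernel, show cfn 19 4 2 = 0 from by decide +kernel, show cfn 19 5 2 = 0 from by decide +kernel, show cfn 19 6 2 = 0 from by decide +kernel, show cfn 19 7 2 = 0 from by decide +kernel, show cfn 19 8 2 = 0 from by decide +kernel, show cfn 19 9 2 = 0 from by decide +kernel, Nat.cast_ofNat, Nat.cast_one, Nat.cast_zero]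
  ring

theorem c19_3 (γ : ℕ → ℝ) : ∑ i ∈ range (19 / 2 + 1), γ i * (cfn 19 i 3 : ℝ) =
    (7752) * γ 0 + (578) * γ 1 + (32) * γ 2 + (1) * γ 3 + (0) * γ 4 + (0) * γ 5 + (0) * γ 6
       + (0) * γ 7 + (0) * γ 8 + (0) * γ 9 := by
  have h : ((19 / 2 + 1 : ℕ)) = 10 := rfl
  rw [h]
  simp only [sum_range_succ, sum_range_zero, show cfn 19 0 3 = 7752 from by decide +kernel, show cfn 19 1 3 = 578 from by decide +kernel, show cfn 19 2 3 = 32 from by decide +kernel, show cfn 19 3 3 = 1 from by decide +kernel, show cfn 19 4 3 = 0 from by decide +kernel, show cfn 19 5 3 = 0 from by decide +kernel, show cfn 19 6 3 = 0 from by decide +kernel, show cfn 19 7 3 = 0 from by decide +kernel, show cfn 19 8 3 = 0 from by decide +kernel, show cfn 19 9 3 = 0 from by decide +kernel, Nat.cast_ofNat, Nat.cast_one, Nat.cast_zero]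
  ring

theorem c19_4 (γ : ℕ → ℝ) : ∑ i ∈ range (19 / 2 + 1), γ i * (cfn 19 i 4 : ℝ) =
    (62016) * γ 0 + (5984) * γ 1 + (481) * γ 2 + (29) * γ 3 + (1) * γ 4 + (0) * γ 5 + (0) * γ 6
       + (0) * γ 7 + (0) * γ 8 + (0) * γ 9 := by
  have h : ((19 / 2 + 1 : ℕ)) = 10 := rfl
  rw [h]
  simp only [sum_range_succ, sum_range_zero, show cfn 19 0 4 = 62016 from by decide +kernel, show cfn 19 1 4 = 5984 from by decide +kernel, show cfn 19 2 4 = 481 from by decide +kernel, show cfn 19 3 4 = 29 from by decide +kernel, show cfn 19 4 4 = 1 from by decide +kernel, show cfn 19 5 4 = 0 from by decide +kernel, show cfn 19 6 4 = 0 from by decide +kernel, show cfn 19 7 4 = 0 from by decide +kernel, show cfn 19 8 4 = 0 from by decide +kernel, show cfn 19 9 4 = 0 from by decide +kernel, Nat.cast_ofNat, Nat.cast_one, Nat.cast_zero]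
  ring

theorem c19_5 (γ : ℕ → ℝ) : ∑ i ∈ range (19 / 2 + 1), γ i * (cfn 19 i 5 : ℝ) =
    (372096) * γ 0 + (43520) * γ 1 + (4510) * γ 2 + (393) * γ 3 + (26) * γ 4 + (1) * γ 5
       + (0) * γ 6 + (0) * γ 7 + (0) * γ 8 + (0) * γ 9 := by
  have h : ((19 / 2 + 1 : ℕ)) = 10 := rfl
  rw [h]
  simp only [sum_range_succ, sum_range_zero, show cfn 19 0 5 = 372096 from by decide +kernel, show cfn 19 1 5 = 43520 from by decide +kernel, show cfn 19 2 5 = 4510 from by decide +kernel, show cfn 19 3 5 = 393 from by decide +kernel, show cfn 19 4 5 = 26 from by decide +kernel, show cfn 19 5 5 = 1 from by decide +kernel, show cfn 19 6 5 = 0 from by decide +kernel, show cfn 19 7 5 = 0 from by decide +kernel, show cfn 19 8 5 = 0 from by decide +kernel, show cfn 19 9 5 = 0 from by decide +kernel, Nat.cast_ofNat, Nat.cast_one, Nat.cast_zero]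
  ring

theorem c19_6 (γ : ℕ → ℝ) : ∑ i ∈ range (19 / 2 + 1), γ i * (cfn 19 i 6 : ℝ) =
    (1736448) * γ 0 + (236096) * γ 1 + (29540) * γ 2 + (3303) * γ 3 + (314) * γ 4 + (23) * γ 5
       + (1) * γ 6 + (0) * γ 7 + (0) * γ 8 + (0) * γ 9 := by
  have h : ((19 / 2 + 1 : ℕ)) = 10 := rfl
  rw [h]
  simp only [sum_range_succ, sum_range_zero, show cfn 19 0 6 = 1736448 from by decide +kernel, show cfn 19 1 6 = 236096 from by decide +kernel, show cfn 19 2 6 = 29540 from by decide +kernel, show cfn 19 3 6 = 3303 from by decide +kernel, show cfn 19 4 6 = 314 from by decide +kernel, show cfn 19 5 6 = 23 from by decide +kernel, show cfn 19 6 6 = 1 from by decide +kernel, show cfn 19 7 6 = 0 from by decide +kernel, show cfn 19 8 6 = 0 from by decide +kernel, show cfn 19 9 6 = 0 from by decide +kernel, Nat.cast_ofNat, Nat.cast_one, Nat.cast_zero]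
  ring

theorem c19_7 (γ : ℕ → ℝ) : ∑ i ∈ range (19 / 2 + 1), γ i * (cfn 19 i 7 : ℝ) =
    (6449664) * γ 0 + (990080) * γ 1 + (143416) * γ 2 + (19266) * γ 3 + (2336) * γ 4
       + (244) * γ 5 + (20) * γ 6 + (1) * γ 7 + (0) * γ 8 + (0) * γ 9 := by
  have h : ((19 / 2 + 1 : ℕ)) = 10 := rfl
  rw [h]
  simp only [sum_range_succ, sum_range_zero, show cfn 19 0 7 = 6449664 from by decide +kernel, show cfn 19 1 7 = 990080 from by decide +kernel, show cfn 19 2 7 = 143416 from by decide +kernel, show cfn 19 3 7 = 19266 from by decide +kernel, show cfn 19 4 7 = 2336 from by decide +kernel, show cfn 19 5 7 = 244 from by decide +kernel, show cfn 19 6 7 = 20 from by decide +kernel, show cfn 19 7 7 = 1 from by decide +kernel, show cfn 19 8 7 = 0 from by decide +kernel, show cfn 19 9 7 = 0 from by decide +kernel, Nat.cast_ofNat, Nat.cast_one, Nat.cast_zero]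
  ring

theorem c19_8 (γ : ℕ → ℝ) : ∑ i ∈ range (19 / 2 + 1), γ i * (cfn 19 i 8 : ℝ) =
    (19348992) * γ 0 + (3281408) * γ 1 + (534352) * γ 2 + (82680) * γ 3 + (11969) * γ 4
       + (1582) * γ 5 + (183) * γ 6 + (17) * γ 7 + (1) * γ 8 + (0) * γ 9 := by
  have h : ((19 / 2 + 1 : ℕ)) = 10 := rfl
  rw [h]
  simp only [sum_range_succ, sum_range_zero, show cfn 19 0 8 = 19348992 from by decide +kernel, show cfn 19 1 8 = 3281408 from by decide +kernel, show cfn 19 2 8 = 534352 from by decide +kernel, show cfn 19 3 8 = 82680 from by decide +kernel, show cfn 19 4 8 = 11969 from by decide +kernel, show cfn 19 5 8 = 1582 from by decide +kernel, show cfn 19 6 8 = 183 from by decide +kernel, show cfn 19 7 8 = 17 from by decide +kernel, show cfn 19 8 8 = 1 from by decide +kernel, show cfn 19 9 8 = 0 from by decide +kernel, Nat.cast_ofNat, Nat.cast_one, Nat.cast_zero]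
  ring

theorem c19_9 (γ : ℕ → ℝ) : ∑ i ∈ range (19 / 2 + 1), γ i * (cfn 19 i 9 : ℝ) =
    (47297536) * γ 0 + (8712704) * γ 1 + (1560416) * γ 2 + (269984) * γ 3 + (44726) * γ 4
       + (7001) * γ 5 + (1014) * γ 6 + (131) * γ 7 + (14) * γ 8 + (1) * γ 9 := by
  have h : ((19 / 2 + 1 : ℕ)) = 10 := rfl
  rw [h]
  simp only [sum_range_succ, sum_range_zero, show cfn 19 0 9 = 47297536 from by decide +kernel, show cfn 19 1 9 = 8712704 from by decide +kernel, show cfn 19 2 9 = 1560416 from by decide +kernel, show cfn 19 3 9 = 269984 from by decide +kernel, show cfn 19 4 9 = 44726 from by decide +kernel, show cfn 19 5 9 = 7001 from by decide +kernel, show cfn 19 6 9 = 1014 from by decide +kernel, show cfn 19 7 9 = 131 from by decide +kernel, show cfn 19 8 9 = 14 from by decide +kernel, show cfn 19 9 9 = 1 from by decide +kernel, Nat.cast_ofNat, Nat.cast_one, Nat.cast_zero]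
  ring

theorem c19_10 (γ : ℕ → ℝ) : ∑ i ∈ range (19 / 2 + 1), γ i * (cfn 19 i 10 : ℝ) =
    (94595072) * γ 0 + (18670080) * γ 1 + (3615040) * γ 2 + (684112) * γ 3 + (125884) * γ 4
       + (22363) * γ 5 + (3795) * γ 6 + (605) * γ 7 + (88) * γ 8 + (11) * γ 9 := by
  have h : ((19 / 2 + 1 : ℕ)) = 10 := rfl
  rw [h]
  simp only [sum_range_succ, sum_range_zero, show cfn 19 0 10 = 94595072 from by decide +kernel, show cfn 19 1 10 = 18670080 from by decide +kernel, show cfn 19 2 10 = 3615040 from by decide +kernel, show cfn 19 3 10 = 684112 from by decide +kernel, show cfn 19 4 10 = 125884 from by decide +kernel, show cfn 19 5 10 = 22363 from by decide +kernel, show cfn 19 6 10 = 3795 from by decide +kernel, show cfn 19 7 10 = 605 from by decide +kernel, show cfn 19 8 10 = 88 from by decide +kernel, show cfn 19 9 10 = 11 from by decide +kernel, Nat.cast_ofNat, Nat.cast_one,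 Nat.cast_zero]
  ring

theorem c19_11 (γ : ℕ → ℝ) : ∑ i ∈ range (19 / 2 + 1), γ i * (cfn 19 i 11 : ℝ) =
    (154791936) * γ 0 + (32361472) * γ 1 + (6680960) * γ 2 + (1359072) * γ 3 + (271656) * γ 4
       + (53154) * γ 5 + (10128) * γ 6 + (1865) * γ 7 + (328) * γ 8 + (54) * γ 9 := by
  have h : ((19 / 2 + 1 : ℕ)) = 10 := rfl
  rw [h]
  simp only [sum_range_succ, sum_range_zero, show cfn 19 0 11 = 154791936 from by decide +kernel, show cfn 19 1 11 = 32361472 from by decide +kernel, show cfn 19 2 11 = 6680960 from by decide +kernel, show cfn 19 3 11 = 1359072 from by decide +kernel, show cfn 19 4 11 = 271656 from by decide +kernel, show cfn 19 5 11 = 53154 from by decide +kernel, show cfn 19 6 11 = 10128 from by decide +kernel, show cfn 19 7 11 = 1865 from by decide +kernel, show cfn 19 8 11 = 328 from by decide +kernel, show cfn 19 9 11 = 54 from by decide +kernel,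 Nat.cast_ofNat, Nat.cast_one, Nat.cast_zero]
  ring

theorem c19_12 (γ : ℕ → ℝ) : ∑ i ∈ range (19 / 2 + 1), γ i * (cfn 19 i 12 : ℝ) =
    (206389248) * γ 0 + (45260800) * γ 1 + (9847552) * γ 2 + (2123264) * γ 3 + (453024) * γ 4
       + (95472) * γ 5 + (19825) * γ 6 + (4043) * γ 7 + (806) * γ 8 + (156) * γ 9 := by
  have h : ((19 / 2 + 1 : ℕ)) = 10 := rfl
  rw [h]
  simp only [sum_range_succ, sum_range_zero, show cfn 19 0 12 = 206389248 from by decide +kernel, show cfn 19 1 12 = 45260800 from by decide +kernel, show cfn 19 2 12 = 9847552 from by decide +kernel, show cfn 19 3 12 = 2123264 from by decide +kernel, show cfn 19 4 12 = 453024 from by decide +kernel, show cfn 19 5 12 = 95472 from by decide +kernel, show cfn 19 6 12 = 19825 from by decide +kernel, show cfn 19 7 12 = 4043 from by decide +kernel, show cfn 19 8 12 = 806 from by decide +kernel, show cfn 19 9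 12 = 156 from by decide +kernel, Nat.cast_ofNat, Nat.cast_one, Nat.cast_zero]
  ring

theorem c19_13 (γ : ℕ → ℝ) : ∑ i ∈ range (19 / 2 + 1), γ i * (cfn 19 i 13 : ℝ) =
    (222265344) * γ 0 + (50692096) * γ 1 + (11508224) * γ 2 + (2599168) * γ 3 + (583616) * γ 4
       + (130176) * γ 5 + (28814) * γ 6 + (6321) * γ 7 + (1372) * γ 8 + (294) * γ 9 := by
  have h : ((19 / 2 + 1 : ℕ)) = 10 := rfl
  rw [h]
  simp only [sum_range_succ, sum_range_zero, show cfn 19 0 13 = 222265344 from by decide +kernel, show cfn 19 1 13 = 50692096 from by decide +kernel, show cfn 19 2 13 = 11508224 from by decide +kernel, show cfn 19 3 13 = 2599168 from by decide +kernel, show cfn 19 4 13 = 583616 from by decide +kernel, show cfn 19 5 13 = 130176 from by decide +kernel, show cfn 19 6 13 = 28814 from by decide +kernel, show cfn 19 7 13 = 6321 from by decide +kernel, show cfn 19 8 13 = 1372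 from by decide +kernel, show cfn 19 9 13 = 294 from by decide +kernel, Nat.cast_ofNat, Nat.cast_one, Nat.cast_zero]
  ring

theorem c19_14 (γ : ℕ → ℝ) : ∑ i ∈ range (19 / 2 + 1), γ i * (cfn 19 i 14 : ℝ) =
    (190513152) * γ 0 + (44843008) * γ 1 + (10529792) * γ 2 + (2466048) * γ 3 + (575872) * γ 4
       + (134048) * γ 5 + (31092) * γ 6 + (7183) * γ 7 + (1652) * γ 8 + (378) * γ 9 := by
  have h : ((19 / 2 + 1 : ℕ)) = 10 := rfl
  rw [h]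
  simp only [sum_range_succ, sum_range_zero, show cfn 19 0 14 = 190513152 from by decide +kernel, show cfn 19 1 14 = 44843008 from by decide +kernel, show cfn 19 2 14 = 10529792 from by decide +kernel, show cfn 19 3 14 = 2466048 from by decide +kernel, show cfn 19 4 14 = 575872 from by decide +kernel, show cfn 19 5 14 = 134048 from by decide +kernel, show cfn 19 6 14 = 31092 from by decide +kernel, show cfn 19 7 14 = 7183 from by decide +kernel, show cfn 19 8 14 = 1652 from by decide +kernel, show cfn 19 9 14 = 378 from by decide +kernel, Nat.cast_ofNat, Nat.cast_one, Nat.cast_zero]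
  ring

theorem q19_0 (γ : ℕ → ℝ) (h0 : γ 0 = 1)
    (h : ∀ n < 19, 2 * (((19 : ℕ) : ℝ) - ((n : ℕ) : ℝ)) * ∑ i ∈ range (19 / 2 + 1), γ i * (cfn 19 i n : ℝ) ≤
      ((n : ℝ) + 1) * ∑ i ∈ range (19 / 2 + 1), γ i * (cfn 19 i (n + 1) : ℝ)) :
    0 ≤ (0) * γ 0 + (1) * γ 1 + (0) * γ 2 + (0) * γ 3 + (0) * γ 4 + (0) * γ 5 + (0) * γ 6 + (0) * γ 7
       + (0) * γ 8 + (0) * γ 9 := by
  have h1 := h 0 (by norm_num)
  rw [show 0 + 1 = 1 from rfl, c19_0, c19_1] at h1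
  norm_num [h0] at h1 ⊢
  linarith

theorem q19_1 (γ : ℕ → ℝ) (h0 : γ 0 = 1)
    (h : ∀ n < 19, 2 * (((19 : ℕ) : ℝ) - ((n : ℕ) : ℝ)) * ∑ i ∈ range (19 / 2 + 1), γ i * (cfn 19 i n : ℝ) ≤
      ((n : ℝ) + 1) * ∑ i ∈ range (19 / 2 + 1), γ i * (cfn 19 i (n + 1) : ℝ)) :
    0 ≤ (0) * γ 0 + (34) * γ 1 + (2) * γ 2 + (0) * γ 3 + (0) * γ 4 + (0) * γ 5 + (0) * γ 6
       + (0) * γ 7 + (0) * γ 8 + (0) * γ 9 := by
  have h1 := h 1 (by norm_num)
  rw [show 1 + 1 = 2 from rfl, c19_1, c19_2] at h1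
  norm_num [h0] at h1 ⊢
  linarith

theorem q19_2 (γ : ℕ → ℝ) (h0 : γ 0 = 1)
    (h : ∀ n < 19, 2 * (((19 : ℕ) : ℝ) - ((n : ℕ) : ℝ)) * ∑ i ∈ range (19 / 2 + 1), γ i * (cfn 19 i n : ℝ) ≤
      ((n : ℝ) + 1) * ∑ i ∈ range (19 / 2 + 1), γ i * (cfn 19 i (n + 1) : ℝ)) :
    0 ≤ (0) * γ 0 + (544) * γ 1 + (62) * γ 2 + (3) * γ 3 + (0) * γ 4 + (0) * γ 5 + (0) * γ 6
       + (0) * γ 7 + (0) * γ 8 + (0) * γ 9 := by
  have h1 := h 2 (by norm_num)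
  rw [show 2 + 1 = 3 from rfl, c19_2, c19_3] at h1
  norm_num [h0] at h1 ⊢
  linarith

theorem q19_3 (γ : ℕ → ℝ) (h0 : γ 0 = 1)
    (h : ∀ n < 19, 2 * (((19 : ℕ) : ℝ) - ((n : ℕ) : ℝ)) * ∑ i ∈ range (19 / 2 + 1), γ i * (cfn 19 i n : ℝ) ≤
      ((n : ℝ) + 1) * ∑ i ∈ range (19 / 2 + 1), γ i * (cfn 19 i (n + 1) : ℝ)) :
    0 ≤ (0) * γ 0 + (5440) * γ 1 + (900) * γ 2 + (84) * γ 3 + (4) * γ 4 + (0) * γ 5 + (0) * γ 6
       + (0) * γ 7 + (0) * γ 8 + (0) * γ 9 := by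
  have h1 := h 3 (by norm_num)
  rw [show 3 + 1 = 4 from rfl, c19_3, c19_4] at h1
  norm_num [h0] at h1 ⊢
  linarith

theorem q19_4 (γ : ℕ → ℝ) (h0 : γ 0 = 1)
    (h : ∀ n < 19, 2 * (((19 : ℕ) : ℝ) - ((n : ℕ) : ℝ)) * ∑ i ∈ range (19 / 2 + 1), γ i * (cfn 19 i n : ℝ) ≤
      ((n : ℝ) + 1) * ∑ i ∈ range (19 / 2 + 1), γ i * (cfn 19 i (n + 1) : ℝ)) :
    0 ≤ (0) * γ 0 + (38080) * γ 1 + (8120) * γ 2 + (1095) * γ 3 + (100) * γ 4 + (5) * γ 5 + (0) * γ 6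
       + (0) * γ 7 + (0) * γ 8 + (0) * γ 9 := by
  have h1 := h 4 (by norm_num)
  rw [show 4 + 1 = 5 from rfl, c19_4, c19_5] at h1
  norm_num [h0] at h1 ⊢
  linarith

theorem q19_5 (γ : ℕ → ℝ) (h0 : γ 0 = 1)
    (h : ∀ n < 19, 2 * (((19 : ℕ) : ℝ) - ((n : ℕ) : ℝ)) * ∑ i ∈ range (19 / 2 + 1), γ i * (cfn 19 i n : ℝ) ≤
      ((n : ℝ) + 1) * ∑ i ∈ range (19 / 2 + 1), γ i * (cfn 19 i (n + 1) : ℝ)) :
    0 ≤ (0) * γ 0 + (198016) * γ 1 + (50960) * γ 2 + (8814) * γ 3 + (1156) * γ 4 + (110) * γ 5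
       + (6) * γ 6 + (0) * γ 7 + (0) * γ 8 + (0) * γ 9 := by
  have h1 := h 5 (by norm_num)
  rw [show 5 + 1 = 6 from rfl, c19_5, c19_6] at h1
  norm_num [h0] at h1 ⊢
  linarith

theorem q19_6 (γ : ℕ → ℝ) (h0 : γ 0 = 1)
    (h : ∀ n < 19, 2 * (((19 : ℕ) : ℝ) - ((n : ℕ) : ℝ)) * ∑ i ∈ range (19 / 2 + 1), γ i * (cfn 19 i n : ℝ) ≤
      ((n : ℝ) + 1) * ∑ i ∈ range (19 / 2 + 1), γ i * (cfn 19 i (n + 1) : ℝ)) :
    0 ≤ (0) * γ 0 + (792064) * γ 1 + (235872) * γ 2 + (48984) * γ 3 + (8188) * γ 4 + (1110) * γ 5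
       + (114) * γ 6 + (7) * γ 7 + (0) * γ 8 + (0) * γ 9 := by
  have h1 := h 6 (by norm_num)
  rw [show 6 + 1 = 7 from rfl, c19_6, c19_7] at h1
  norm_num [h0] at h1 ⊢
  linarith

theorem q19_7 (γ : ℕ → ℝ) (h0 : γ 0 = 1)
    (h : ∀ n < 19, 2 * (((19 : ℕ) : ℝ) - ((n : ℕ) : ℝ)) * ∑ i ∈ range (19 / 2 + 1), γ i * (cfn 19 i n : ℝ) ≤
      ((n : ℝ) + 1) * ∑ i ∈ range (19 / 2 + 1), γ i * (cfn 19 i (n + 1) : ℝ)) :
    0 ≤ (0) * γ 0 + (2489344) * γ 1 + (832832) * γ 2 + (199056) * γ 3 + (39688) * γ 4 + (6800) * γ 5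
       + (984) * γ 6 + (112) * γ 7 + (8) * γ 8 + (0) * γ 9 := by
  have h1 := h 7 (by norm_num)
  rw [show 7 + 1 = 8 from rfl, c19_7, c19_8] at h1
  norm_num [h0] at h1 ⊢
  linarith

theorem q19_8 (γ : ℕ → ℝ) (h0 : γ 0 = 1)
    (h : ∀ n < 19, 2 * (((19 : ℕ) : ℝ) - ((n : ℕ) : ℝ)) * ∑ i ∈ range (19 / 2 + 1), γ i * (cfn 19 i n : ℝ) ≤
      ((n : ℝ) + 1) * ∑ i ∈ range (19 / 2 + 1), γ i * (cfn 19 i (n + 1) : ℝ)) :
    0 ≤ (0) * γ 0 + (6223360) * γ 1 + (2288000) * γ 2 + (610896) * γ 3 + (139216) * γ 4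
       + (28205) * γ 5 + (5100) * γ 6 + (805) * γ 7 + (104) * γ 8 + (9) * γ 9 := by
  have h1 := h 8 (by norm_num)
  rw [show 8 + 1 = 9 from rfl, c19_8, c19_9] at h1
  norm_num [h0] at h1 ⊢
  linarith

theorem q19_9 (γ : ℕ → ℝ) (h0 : γ 0 = 1)
    (h : ∀ n < 19, 2 * (((19 : ℕ) : ℝ) - ((n : ℕ) : ℝ)) * ∑ i ∈ range (19 / 2 + 1), γ i * (cfn 19 i n : ℝ) ≤
      ((n : ℝ) + 1) * ∑ i ∈ range (19 / 2 + 1), γ i * (cfn 19 i (n + 1) : ℝ)) :
    0 ≤ (0) * γ 0 + (12446720) * γ 1 + (4942080) * γ 2 + (1441440) * γ 3 + (364320) * γ 4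
       + (83610) * γ 5 + (17670) * γ 6 + (3430) * γ 7 + (600) * γ 8 + (90) * γ 9 := by
  have h1 := h 9 (by norm_num)
  rw [show 9 + 1 = 10 from rfl, c19_9, c19_10] at h1
  norm_num [h0] at h1 ⊢
  linarith

theorem q19_10 (γ : ℕ → ℝ) (h0 : γ 0 = 1)
    (h : ∀ n < 19, 2 * (((19 : ℕ) : ℝ) - ((n : ℕ) : ℝ)) * ∑ i ∈ range (19 / 2 + 1), γ i * (cfn 19 i n : ℝ) ≤
      ((n : ℝ) + 1) * ∑ i ∈ range (19 / 2 + 1), γ i * (cfn 19 i (n + 1) : ℝ)) :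
    0 ≤ (0) * γ 0 + (19914752) * γ 1 + (8419840) * γ 2 + (2635776) * γ 3 + (722304) * γ 4
       + (182160) * γ 5 + (43098) * γ 6 + (9625) * γ 7 + (2024) * γ 8 + (396) * γ 9 := by
  have h1 := h 10 (by norm_num)
  rw [show 10 + 1 = 11 from rfl, c19_10, c19_11] at h1
  norm_num [h0] at h1 ⊢
  linarith

theorem q19_11 (γ : ℕ → ℝ) (h0 : γ 0 = 1)
    (h : ∀ n < 19, 2 * (((19 : ℕ) : ℝ) - ((n : ℕ) : ℝ)) * ∑ i ∈ range (19 / 2 + 1), γ i * (cfn 19 i n : ℝ) ≤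
      ((n : ℝ) + 1) * ∑ i ∈ range (19 / 2 + 1), γ i * (cfn 19 i (n + 1) : ℝ)) :
    0 ≤ (0) * γ 0 + (25346048) * γ 1 + (11275264) * γ 2 + (3734016) * γ 3 + (1089792) * γ 4
       + (295200) * γ 5 + (75852) * γ 6 + (18676) * γ 7 + (4424) * γ 8 + (1008) * γ 9 := by
  have h1 := h 11 (by norm_num)
  rw [show 11 + 1 = 12 from rfl, c19_11, c19_12] at h1
  norm_num [h0] at h1 ⊢
  linarith

theorem q19_12 (γ : ℕ → ℝ) (h0 : γ 0 = 1)
    (h : ∀ n < 19, 2 * (((19 : ℕ) : ℝ) - ((n : ℕ) : ℝ)) * ∑ i ∈ range (19 / 2 + 1), γ i * (cfn 19 i n : ℝ) ≤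
      ((n : ℝ) + 1) * ∑ i ∈ range (19 / 2 + 1), γ i * (cfn 19 i (n + 1) : ℝ)) :
    0 ≤ (0) * γ 0 + (25346048) * γ 1 + (11741184) * γ 2 + (4063488) * γ 3 + (1244672) * γ 4
       + (355680) * γ 5 + (97032) * γ 6 + (25571) * γ 7 + (6552) * γ 8 + (1638) * γ 9 := by
  have h1 := h 12 (by norm_num)
  rw [show 12 + 1 = 13 from rfl, c19_12, c19_13] at h1
  norm_num [h0] at h1 ⊢
  linarith

theorem q19_13 (γ : ℕ → ℝ) (h0 : γ 0 = 1)
    (h : ∀ n < 19, 2 * (((19 : ℕ) : ℝ) - ((n : ℕ) : ℝ)) * ∑ i ∈ range (19 / 2 + 1), γ i * (cfn 19 i n : ℝ) ≤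
      ((n : ℝ) + 1) * ∑ i ∈ range (19 / 2 + 1), γ i * (cfn 19 i (n + 1) : ℝ)) :
    0 ≤ (0) * γ 0 + (19496960) * γ 1 + (9318400) * γ 2 + (3334656) * γ 3 + (1058816) * γ 4
       + (314560) * γ 5 + (89520) * γ 6 + (24710) * γ 7 + (6664) * γ 8 + (1764) * γ 9 := by
  have h1 := h 13 (by norm_num)
  rw [show 13 + 1 = 14 from rfl, c19_13, c19_14] at h1
  norm_num [h0] at h1 ⊢
  linarith

theorem m19_0 (γ : ℕ → ℝ) : Mat 19 γ 0 = (1) * γ 0 + (0) * γ 1 + (0) * γ 2 + (0) * γ 3 + (0) * γ 4 + (0) * γ 5 + (0) * γ 6 + (0) * γ 7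
       + (0) * γ 8 + (0) * γ 9 := by
  unfold Mat
  rw [show (19 / 2 + 1 : ℕ) = 10 from rfl]
  simp [sum_range_succ, Nat.choose]
  try ring

theorem m19_1 (γ : ℕ → ℝ) : Mat 19 γ 1 = (684) * γ 0 + (36) * γ 1 + (1) * γ 2 + (0) * γ 3 + (0) * γ 4 + (0) * γ 5 + (0) * γ 6
       + (0) * γ 7 + (0) * γ 8 + (0) * γ 9 := by
  unfold Mat
  rw [show (19 / 2 + 1 : ℕ) = 10 from rfl]
  simp [sum_range_succ, Nat.choose]
  try ring

theorem m19_2 (γ : ℕ → ℝ) : Mat 19 γ 2 = (62016) * γ 0 + (6528) * γ 1 + (544) * γ 2 + (32) * γ 3 + (1) * γ 4 + (0) * γ 5 + (0) * γ 6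
       + (0) * γ 7 + (0) * γ 8 + (0) * γ 9 := by
  unfold Mat
  rw [show (19 / 2 + 1 : ℕ) = 10 from rfl]
  simp [sum_range_succ, Nat.choose]
  try ring

theorem m19_3 (γ : ℕ → ℝ) : Mat 19 γ 3 = (1736448) * γ 0 + (274176) * γ 1 + (38080) * γ 2 + (4480) * γ 3 + (420) * γ 4 + (28) * γ 5
       + (1) * γ 6 + (0) * γ 7 + (0) * γ 8 + (0) * γ 9 := by
  unfold Mat
  rw [show (19 / 2 + 1 : ℕ) = 10 from rfl]
  simp [sum_range_succ, Nat.choose]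
  try ring

theorem m19_4 (γ : ℕ → ℝ) : Mat 19 γ 4 = (19348992) * γ 0 + (4073472) * γ 1 + (792064) * γ 2 + (139776) * γ 3 + (21840) * γ 4
       + (2912) * γ 5 + (312) * γ 6 + (24) * γ 7 + (1) * γ 8 + (0) * γ 9 := by
  unfold Mat
  rw [show (19 / 2 + 1 : ℕ) = 10 from rfl]
  simp [sum_range_succ, Nat.choose]
  try ring

theorem m19_5 (γ : ℕ → ℝ) : Mat 19 γ 5 = (94595072) * γ 0 + (24893440) * γ 1 + (6223360) * γ 2 + (1464320) * γ 3 + (320320) * γ 4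
       + (64064) * γ 5 + (11440) * γ 6 + (1760) * γ 7 + (220) * γ 8 + (20) * γ 9 := by
  unfold Mat
  rw [show (19 / 2 + 1 : ℕ) = 10 from rfl]
  simp [sum_range_succ, Nat.choose]
  try ring

theorem m19_6 (γ : ℕ → ℝ) : Mat 19 γ 6 = (206389248) * γ 0 + (65175552) * γ 1 + (19914752) * γ 2 + (5857280) * γ 3 + (1647360) * γ 4
       + (439296) * γ 5 + (109824) * γ 6 + (25344) * γ 7 + (5280) * γ 8 + (960) * γ 9 := by
  unfold Mat
  rw [show (19 / 2 + 1 : ℕ) = 10 from rfl]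
  simp [sum_range_succ, Nat.choose]
  try ring

theorem m19_7 (γ : ℕ → ℝ) : Mat 19 γ 7 = (190513152) * γ 0 + (70189056) * γ 1 + (25346048) * γ 2 + (8945664) * γ 3 + (3075072) * γ 4
       + (1025024) * γ 5 + (329472) * γ 6 + (101376) * γ 7 + (29568) * γ 8 + (8064) * γ 9 := by
  unfold Mat
  rw [show (19 / 2 + 1 : ℕ) = 10 from rfl]
  simp [sum_range_succ, Nat.choose]
  try ring

theorem m19_8 (γ : ℕ → ℝ) : Mat 19 γ 8 = (63504384) * γ 0 + (26738688) * γ 1 + (11141120) * γ 2 + (4587520) * γ 3 + (1863680) * γ 4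
       + (745472) * γ 5 + (292864) * γ 6 + (112640) * γ 7 + (42240) * γ 8 + (15360) * γ 9 := by
  unfold Mat
  rw [show (19 / 2 + 1 : ℕ) = 10 from rfl]
  simp [sum_range_succ, Nat.choose]
  try ring

theorem m19_9 (γ : ℕ → ℝ) : Mat 19 γ 9 = (4980736) * γ 0 + (2359296) * γ 1 + (1114112) * γ 2 + (524288) * γ 3 + (245760) * γ 4
       + (114688) * γ 5 + (53248) * γ 6 + (24576) * γ 7 + (11264) * γ 8 + (5120) * γ 9 := by
  unfold Mat
  rw [show (19 / 2 + 1 : ℕ) = 10 from rfl]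
  simp [sum_range_succ, Nat.choose]
  try ring

theorem mm19_0 (γ : ℕ → ℝ) : Mat 19 (Mat 19 γ) 0 =
      (1) * γ 0 + (0) * γ 1 + (0) * γ 2 + (0) * γ 3 + (0) * γ 4 + (0) * γ 5 + (0) * γ 6 + (0) * γ 7
       + (0) * γ 8 + (0) * γ 9 := by
  rw [m19_0]
  simp only [m19_0, m19_1, m19_2, m19_3, m19_4, m19_5, m19_6, m19_7, m19_8, m19_9]
  ring

theorem mm19_1 (γ : ℕ → ℝ) : Mat 19 (Mat 19 γ) 1 =
      (87324) * γ 0 + (7824) * γ 1 + (580) * γ 2 + (32) * γ 3 + (1) * γ 4 + (0) * γ 5 + (0) * γ 6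
       + (0) * γ 7 + (0) * γ 8 + (0) * γ 9 := by
  rw [m19_1]
  simp only [m19_0, m19_1, m19_2, m19_3, m19_4, m19_5, m19_6, m19_7, m19_8, m19_9]
  ring

theorem mm19_2 (γ : ℕ → ℝ) : Mat 19 (Mat 19 γ) 2 =
      (113179200) * γ 0 + (16633344) * γ 1 + (2313088) * γ 2 + (300544) * γ 3 + (35824) * γ 4
       + (3808) * γ 5 + (344) * γ 6 + (24) * γ 7 + (1) * γ 8 + (0) * γ 9 := by
  rw [m19_2]
  simp only [m19_0, m19_1, m19_2, m19_3, m19_4, m19_5, m19_6, m19_7, m19_8, m19_9]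
  ring

theorem mm19_3 (γ : ℕ → ℝ) : Mat 19 (Mat 19 γ) 3 =
      (21311757056) * γ 0 + (3959815168) * γ 1 + (718423808) * γ 2 + (126853120) * γ 3
       + (21708800) * γ 4 + (3581568) * γ 5 + (565664) * γ 6 + (84704) * γ 7 + (11860) * γ 8
       + (1520) * γ 9 := by
  rw [m19_3]
  simp only [m19_0, m19_1, m19_2, m19_3, m19_4, m19_5, m19_6, m19_7, m19_8, m19_9]
  ring

theorem mm19_4 (γ : ℕ → ℝ) : Mat 19 (Mat 19 γ) 4 =
      (1061712100864) * γ 0 + (227140837376) * γ 1 + (48011577344) * γ 2 + (10015105024) * γ 3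
       + (2058897152) * γ 4 + (416472576) * γ 5 + (82732416) * γ 6 + (16102272) * γ 7
       + (3061712) * γ 8 + (566656) * γ 9 := by
  rw [m19_4]
  simp only [m19_0, m19_1, m19_2, m19_3, m19_4, m19_5, m19_6, m19_7, m19_8, m19_9]
  ring

theorem mm19_5 (γ : ℕ → ℝ) : Mat 19 (Mat 19 γ) 5 =
      (17914259671040) * γ 0 + (4217662300160) * γ 1 + (986486118400) * γ 2 + (229113937920) * γ 3
       + (52810856960) * γ 4 + (12073854976) * γ 5 + (2736048640) * γ 6 + (614069760) * γ 7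
       + (136375360) * γ 8 + (29937920) * γ 9 := by
  rw [m19_5]
  simp only [m19_0, m19_1, m19_2, m19_3, m19_4, m19_5, m19_6, m19_7, m19_8, m19_9]
  ring

theorem mm19_6 (γ : ℕ → ℝ) : Mat 19 (Mat 19 γ) 6 =
      (112715616829440) * γ 0 + (28464495329280) * γ 1 + (7162038353920) * γ 2
       + (1795123445760) * γ 3 + (448104058880) * γ 4 + (111373819904) * γ 5 + (27554269184) * γ 6
       + (6783682560) * γ 7 + (1661375232) * γ 8 + (404606976) * γ 9 := by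
  rw [m19_6]
  simp only [m19_0, m19_1, m19_2, m19_3, m19_4, m19_5, m19_6, m19_7, m19_8, m19_9]
  ring

theorem mm19_7 (γ : ℕ → ℝ) : Mat 19 (Mat 19 γ) 7 =
      (262846305206272) * γ 0 + (70061905412096) * γ 1 + (18638495481856) * γ 2
       + (4948229095424) * γ 3 + (1310862376960) * γ 4 + (346487750656) * γ 5 + (91367923712) * γ 6
       + (24033796096) * γ 7 + (6305463296) * γ 8 + (1649741824) * γ 9 := by
  rw [m19_7]
  simp only [m19_0, m19_1, m19_2, m19_3, m19_4, m19_5, m19_6, m19_7, m19_8, m19_9]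
  ring

theorem mm19_8 (γ : ℕ → ℝ) : Mat 19 (Mat 19 γ) 8 =
      (199915888771072) * γ 0 + (55639839604736) * γ 1 + (15471281176576) * γ 2
       + (4297871851520) * γ 3 + (1192755527680) * γ 4 + (330676436992) * γ 5 + (91577942016) * γ 6
       + (25333497856) * γ 7 + (6999961600) * γ 8 + (1931837440) * γ 9 := by
  rw [m19_8]
  simp only [m19_0, m19_1, m19_2, m19_3, m19_4, m19_5, m19_6, m19_7, m19_8, m19_9]
  ring

theorem mm19_9 (γ : ℕ → ℝ) : Mat 19 (Mat 19 γ) 9 =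
      (32997918900224) * γ 0 + (9515878580224) * γ 1 + (2743498702848) * γ 2 + (790771007488) * γ 3
       + (227867951104) * γ 4 + (65644527616) * γ 5 + (18905694208) * γ 6 + (5443289088) * γ 7
       + (1566752768) * γ 8 + (450822144) * γ 9 := by
  rw [m19_9]
  simp only [m19_0, m19_1, m19_2, m19_3, m19_4, m19_5, m19_6, m19_7, m19_8, m19_9]
  ring

theorem p19_0 (γ : ℕ → ℝ) (h0 : γ 0 = 1)
    (h : ∀ n < 19, 2 * (((19 : ℕ) : ℝ) - ((n : ℕ) : ℝ)) * ∑ i ∈ range (19 / 2 + 1), γ i * (cfn 19 i n : ℝ) ≤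
      ((n : ℝ) + 1) * ∑ i ∈ range (19 / 2 + 1), γ i * (cfn 19 i (n + 1) : ℝ)) :
    0 < Mat 19 (Mat 19 (Mat 19 γ)) 0 := by

  rw [m19_0]
  simp only [mm19_0, mm19_1, mm19_2, mm19_3, mm19_4, mm19_5, mm19_6, mm19_7, mm19_8, mm19_9]
  linarith only [h0]

theorem p19_1 (γ : ℕ → ℝ) (h0 : γ 0 = 1)
    (h : ∀ n < 19, 2 * (((19 : ℕ) : ℝ) - ((n : ℕ) : ℝ)) * ∑ i ∈ range (19 / 2 + 1), γ i * (cfn 19 i n : ℝ) ≤
      ((n : ℝ) + 1) * ∑ i ∈ range (19 / 2 + 1), γ i * (cfn 19 i (n + 1) : ℝ)) :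
    0 < Mat 19 (Mat 19 (Mat 19 γ)) 1 := by
  have k0 := q19_0 γ h0 h
  have k6 := q19_6 γ h0 h
  have k1 := q19_1 γ h0 h
  have k2 := q19_2 γ h0 h
  have k3 := q19_3 γ h0 h
  have k4 := q19_4 γ h0 h
  have k7 := q19_7 γ h0 h
  have k5 := q19_5 γ h0 h
  rw [m19_1]
  simp only [mm19_0, mm19_1, mm19_2, mm19_3, mm19_4, mm19_5, mm19_6, mm19_7, mm19_8, mm19_9]
  linarith only [h0, k0, k6, k1, k2, k3, k4, k7, k5]

theorem p19_2 (γ : ℕ → ℝ) (h0 : γ 0 = 1)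
    (h : ∀ n < 19, 2 * (((19 : ℕ) : ℝ) - ((n : ℕ) : ℝ)) * ∑ i ∈ range (19 / 2 + 1), γ i * (cfn 19 i n : ℝ) ≤
      ((n : ℝ) + 1) * ∑ i ∈ range (19 / 2 + 1), γ i * (cfn 19 i (n + 1) : ℝ)) :
    0 < Mat 19 (Mat 19 (Mat 19 γ)) 2 := by
  have k2 := q19_2 γ h0 h
  have k6 := q19_6 γ h0 h
  have k0 := q19_0 γ h0 h
  have k1 := q19_1 γ h0 h
  have k9 := q19_9 γ h0 h
  have k4 := q19_4 γ h0 h
  have k10 := q19_10 γ h0 h
  have k3 := q19_3 γ h0 h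
  have k7 := q19_7 γ h0 h
  rw [m19_2]
  simp only [mm19_0, mm19_1, mm19_2, mm19_3, mm19_4, mm19_5, mm19_6, mm19_7, mm19_8, mm19_9]
  linarith only [h0, k2, k6, k0, k1, k9, k4, k10, k3, k7]

theorem p19_3 (γ : ℕ → ℝ) (h0 : γ 0 = 1)
    (h : ∀ n < 19, 2 * (((19 : ℕ) : ℝ) - ((n : ℕ) : ℝ)) * ∑ i ∈ range (19 / 2 + 1), γ i * (cfn 19 i n : ℝ) ≤
      ((n : ℝ) + 1) * ∑ i ∈ range (19 / 2 + 1), γ i * (cfn 19 i (n + 1) : ℝ)) :
    0 < Mat 19 (Mat 19 (Mat 19 γ)) 3 := by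
  have k1 := q19_1 γ h0 h
  have k6 := q19_6 γ h0 h
  have k0 := q19_0 γ h0 h
  have k10 := q19_10 γ h0 h
  have k2 := q19_2 γ h0 h
  have k3 := q19_3 γ h0 h
  have k11 := q19_11 γ h0 h
  have k7 := q19_7 γ h0 h
  have k4 := q19_4 γ h0 h
  rw [m19_3]
  simp only [mm19_0, mm19_1, mm19_2, mm19_3, mm19_4, mm19_5, mm19_6, mm19_7, mm19_8, mm19_9]
  linarith only [h0, k1, k6, k0, k10, k2, k3, k11, k7, k4]

theorem p19_4 (γ : ℕ → ℝ) (h0 : γ 0 = 1)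
    (h : ∀ n < 19, 2 * (((19 : ℕ) : ℝ) - ((n : ℕ) : ℝ)) * ∑ i ∈ range (19 / 2 + 1), γ i * (cfn 19 i n : ℝ) ≤
      ((n : ℝ) + 1) * ∑ i ∈ range (19 / 2 + 1), γ i * (cfn 19 i (n + 1) : ℝ)) :
    0 < Mat 19 (Mat 19 (Mat 19 γ)) 4 := by
  have k1 := q19_1 γ h0 h
  have k0 := q19_0 γ h0 h
  have k3 := q19_3 γ h0 h
  have k12 := q19_12 γ h0 h
  have k2 := q19_2 γ h0 h
  have k11 := q19_11 γ h0 h
  have k4 := q19_4 γ h0 h
  have k7 := q19_7 γ h0 h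
  have k8 := q19_8 γ h0 h
  rw [m19_4]
  simp only [mm19_0, mm19_1, mm19_2, mm19_3, mm19_4, mm19_5, mm19_6, mm19_7, mm19_8, mm19_9]
  linarith only [h0, k1, k0, k3, k12, k2, k11, k4, k7, k8]

theorem p19_5 (γ : ℕ → ℝ) (h0 : γ 0 = 1)
    (h : ∀ n < 19, 2 * (((19 : ℕ) : ℝ) - ((n : ℕ) : ℝ)) * ∑ i ∈ range (19 / 2 + 1), γ i * (cfn 19 i n : ℝ) ≤
      ((n : ℝ) + 1) * ∑ i ∈ range (19 / 2 + 1), γ i * (cfn 19 i (n + 1) : ℝ)) :
    0 < Mat 19 (Mat 19 (Mat 19 γ)) 5 := by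
  have k2 := q19_2 γ h0 h
  have k4 := q19_4 γ h0 h
  have k0 := q19_0 γ h0 h
  have k1 := q19_1 γ h0 h
  have k11 := q19_11 γ h0 h
  have k3 := q19_3 γ h0 h
  have k12 := q19_12 γ h0 h
  have k7 := q19_7 γ h0 h
  have k8 := q19_8 γ h0 h
  rw [m19_5]
  simp only [mm19_0, mm19_1, mm19_2, mm19_3, mm19_4, mm19_5, mm19_6, mm19_7, mm19_8, mm19_9]
  linarith only [h0, k2, k4, k0, k1, k11, k3, k12, k7, k8]

theorem p19_6 (γ : ℕ → ℝ) (h0 : γ 0 = 1)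
    (h : ∀ n < 19, 2 * (((19 : ℕ) : ℝ) - ((n : ℕ) : ℝ)) * ∑ i ∈ range (19 / 2 + 1), γ i * (cfn 19 i n : ℝ) ≤
      ((n : ℝ) + 1) * ∑ i ∈ range (19 / 2 + 1), γ i * (cfn 19 i (n + 1) : ℝ)) :
    0 < Mat 19 (Mat 19 (Mat 19 γ)) 6 := by
  have k2 := q19_2 γ h0 h
  have k0 := q19_0 γ h0 h
  have k1 := q19_1 γ h0 h
  have k3 := q19_3 γ h0 h
  have k4 := q19_4 γ h0 h
  have k12 := q19_12 γ h0 h
  have k13 := q19_13 γ h0 h
  have k7 := q19_7 γ h0 h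
  have k8 := q19_8 γ h0 h
  rw [m19_6]
  simp only [mm19_0, mm19_1, mm19_2, mm19_3, mm19_4, mm19_5, mm19_6, mm19_7, mm19_8, mm19_9]
  linarith only [h0, k2, k0, k1, k3, k4, k12, k13, k7, k8]

theorem p19_7 (γ : ℕ → ℝ) (h0 : γ 0 = 1)
    (h : ∀ n < 19, 2 * (((19 : ℕ) : ℝ) - ((n : ℕ) : ℝ)) * ∑ i ∈ range (19 / 2 + 1), γ i * (cfn 19 i n : ℝ) ≤
      ((n : ℝ) + 1) * ∑ i ∈ range (19 / 2 + 1), γ i * (cfn 19 i (n + 1) : ℝ)) :
    0 < Mat 19 (Mat 19 (Mat 19 γ)) 7 := by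
  have k1 := q19_1 γ h0 h
  have k0 := q19_0 γ h0 h
  have k7 := q19_7 γ h0 h
  have k3 := q19_3 γ h0 h
  have k2 := q19_2 γ h0 h
  have k12 := q19_12 γ h0 h
  have k4 := q19_4 γ h0 h
  have k13 := q19_13 γ h0 h
  have k8 := q19_8 γ h0 h
  rw [m19_7]
  simp only [mm19_0, mm19_1, mm19_2, mm19_3, mm19_4, mm19_5, mm19_6, mm19_7, mm19_8, mm19_9]
  linarith only [h0, k1, k0, k7, k3, k2, k12, k4, k13, k8]

theorem p19_8 (γ : ℕ → ℝ) (h0 : γ 0 = 1)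
    (h : ∀ n < 19, 2 * (((19 : ℕ) : ℝ) - ((n : ℕ) : ℝ)) * ∑ i ∈ range (19 / 2 + 1), γ i * (cfn 19 i n : ℝ) ≤
      ((n : ℝ) + 1) * ∑ i ∈ range (19 / 2 + 1), γ i * (cfn 19 i (n + 1) : ℝ)) :
    0 < Mat 19 (Mat 19 (Mat 19 γ)) 8 := by
  have k1 := q19_1 γ h0 h
  have k0 := q19_0 γ h0 h
  have k4 := q19_4 γ h0 h
  have k3 := q19_3 γ h0 h
  have k2 := q19_2 γ h0 h
  have k12 := q19_12 γ h0 h
  have k13 := q19_13 γ h0 h
  have k7 := q19_7 γ h0 h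
  have k8 := q19_8 γ h0 h
  rw [m19_8]
  simp only [mm19_0, mm19_1, mm19_2, mm19_3, mm19_4, mm19_5, mm19_6, mm19_7, mm19_8, mm19_9]
  linarith only [h0, k1, k0, k4, k3, k2, k12, k13, k7, k8]

theorem p19_9 (γ : ℕ → ℝ) (h0 : γ 0 = 1)
    (h : ∀ n < 19, 2 * (((19 : ℕ) : ℝ) - ((n : ℕ) : ℝ)) * ∑ i ∈ range (19 / 2 + 1), γ i * (cfn 19 i n : ℝ) ≤
      ((n : ℝ) + 1) * ∑ i ∈ range (19 / 2 + 1), γ i * (cfn 19 i (n + 1) : ℝ)) :
    0 < Mat 19 (Mat 19 (Mat 19 γ)) 9 := by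
  have k12 := q19_12 γ h0 h
  have k0 := q19_0 γ h0 h
  have k4 := q19_4 γ h0 h
  have k1 := q19_1 γ h0 h
  have k2 := q19_2 γ h0 h
  have k3 := q19_3 γ h0 h
  have k13 := q19_13 γ h0 h
  have k7 := q19_7 γ h0 h
  have k8 := q19_8 γ h0 h
  rw [m19_9]
  simp only [mm19_0, mm19_1, mm19_2, mm19_3, mm19_4, mm19_5, mm19_6, mm19_7, mm19_8, mm19_9]
  linarith only [h0, k12, k0, k4, k1, k2, k3, k13, k7, k8]

theorem main19 (γ : ℕ → ℝ) (h0 : γ 0 = 1)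
    (h : ∀ n < 19, 2 * (((19 : ℕ) : ℝ) - ((n : ℕ) : ℝ)) * ∑ i ∈ range (19 / 2 + 1), γ i * (cfn 19 i n : ℝ) ≤
      ((n : ℝ) + 1) * ∑ i ∈ range (19 / 2 + 1), γ i * (cfn 19 i (n + 1) : ℝ)) :
    ∀ j ≤ 19 / 2, 0 < Mat 19 (Mat 19 (Mat 19 γ)) j := by
  intro j hj
  have hj' : j ≤ 9 := hj
  clear hj
  interval_cases j
  · exact p19_0 γ h0 h
  · exact p19_1 γ h0 h
  · exact p19_2 γ h0 h
  · exact p19_3 γ h0 h
  · exact p19_4 γ h0 h
  · exact p19_5 γ h0 h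
  · exact p19_6 γ h0 h
  · exact p19_7 γ h0 h
  · exact p19_8 γ h0 h
  · exact p19_9 γ h0 h

end PkgNT14

end Pool.Agent.T2H83.GR
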