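import Pool.Agent.T2H83.GR.Stm

set_option autoImplicit false
set_option linter.unusedSimpArgs false
set_option linter.unusedVariables false

/-!
# Numerical inequalities for three rounds (generated by a computer program)
-/

namespace Pool.Agent.T2H83.GR

open Finset

namespace PkgNT20

theorem c20_0 (γ : ℕ → ℝ) : ∑ i ∈ range (20 / 2 + 1), γ i * (cfn 20 i 0 : ℝ) =
    (1) * γ 0 + (0) * γ 1 + (0) * γ 2 + (0) * γ 3 + (0) * γ 4 + (0) * γ 5 + (0) * γ 6 + (0) * γ 7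
       + (0) * γ 8 + (0) * γ 9 + (0) * γ 10 := by
  have h : ((20 / 2 + 1 : ℕ)) = 11 := rfl
  rw [h]
  simp only [sum_range_succ, sum_range_zero, show cfn 20 0 0 = 1 from by decide +kernel, show cfn 20 1 0 = 0 from by decide +kernel, show cfn 20 2 0 = 0 from by decide +kernel, show cfn 20 3 0 = 0 from by decide +kernel, show cfn 20 4 0 = 0 from by decide +kernel, show cfn 20 5 0 = 0 from by decide +kernel, show cfn 20 6 0 = 0 from by decide +kernel, show cfn 20 7 0 = 0 from by decide +kernel, show cfn 20 8 0 = 0 from by decide +kernel, show cfn 20 9 0 = 0 from by decide +kernel, show cfn 20 10 0 = 0 from by decide +kernel, Nat.cast_ofNat, Nat.cast_one, Nat.cast_zero]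
  ring

theorem c20_1 (γ : ℕ → ℝ) : ∑ i ∈ range (20 / 2 + 1), γ i * (cfn 20 i 1 : ℝ) =
    (40) * γ 0 + (1) * γ 1 + (0) * γ 2 + (0) * γ 3 + (0) * γ 4 + (0) * γ 5 + (0) * γ 6
       + (0) * γ 7 + (0) * γ 8 + (0) * γ 9 + (0) * γ 10 := by
  have h : ((20 / 2 + 1 : ℕ)) = 11 := rfl
  rw [h]
  simp only [sum_range_succ, sum_range_zero, show cfn 20 0 1 = 40 from by decide +kernel, show cfn 20 1 1 = 1 from by decide +kernel, show cfn 20 2 1 = 0 from by decide +kernel, show cfn 20 3 1 = 0 from by decide +kernel, show cfn 20 4 1 = 0 from by decide +kernel, show cfn 20 5 1 = 0 from by decide +kernel, show cfn 20 6 1 = 0 from by decide +kernel, show cfn 20 7 1 = 0 from by decide +kernel, show cfn 20 8 1 = 0 from by decide +kernel, show cfn 20 9 1 = 0 from by decide +kernel, show cfn 20 10 1 = 0 from by decide +kernel, Nat.cast_ofNat, Nat.cast_one, Nat.cast_zero]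
  ring

theorem c20_2 (γ : ℕ → ℝ) : ∑ i ∈ range (20 / 2 + 1), γ i * (cfn 20 i 2 : ℝ) =
    (760) * γ 0 + (37) * γ 1 + (1) * γ 2 + (0) * γ 3 + (0) * γ 4 + (0) * γ 5 + (0) * γ 6
       + (0) * γ 7 + (0) * γ 8 + (0) * γ 9 + (0) * γ 10 := by
  have h : ((20 / 2 + 1 : ℕ)) = 11 := rfl
  rw [h]
  simp only [sum_range_succ, sum_range_zero, show cfn 20 0 2 = 760 from by decide +kernel, show cfn 20 1 2 = 37 from by decide +kernel, show cfn 20 2 2 = 1 from by decide +kernel, show cfn 20 3 2 = 0 from by decide +kernel, show cfn 20 4 2 = 0 from by decide +kernel, show cfn 20 5 2 = 0 from by decide +kernel, show cfn 20 6 2 = 0 from by decide +kernel, show cfn 20 7 2 = 0 from by decide +kernel, show cfn 20 8 2 = 0 from by decide +kernel, show cfn 20 9 2 = 0 from by decide +kernel, show cfn 20 10 2 = 0 from by decide +kernel, Nat.cast_ofNat, Nat.cast_one, Nat.cast_zero]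
  ring

theorem c20_3 (γ : ℕ → ℝ) : ∑ i ∈ range (20 / 2 + 1), γ i * (cfn 20 i 3 : ℝ) =
    (9120) * γ 0 + (648) * γ 1 + (34) * γ 2 + (1) * γ 3 + (0) * γ 4 + (0) * γ 5 + (0) * γ 6
       + (0) * γ 7 + (0) * γ 8 + (0) * γ 9 + (0) * γ 10 := by
  have h : ((20 / 2 + 1 : ℕ)) = 11 := rfl
  rw [h]
  simp only [sum_range_succ, sum_range_zero, show cfn 20 0 3 = 9120 from by decide +kernel, show cfn 20 1 3 = 648 from by decide +kernel, show cfn 20 2 3 = 34 from by decide +kernel, show cfn 20 3 3 = 1 from by decide +kernel, show cfn 20 4 3 = 0 from by decide +kernel, show cfn 20 5 3 = 0 from by decide +kernel, show cfn 20 6 3 = 0 from by decide +kernel, show cfn 20 7 3 = 0 from by decide +kernel, show cfn 20 8 3 = 0 from by decide +kernel, show cfn 20 9 3 = 0 from by decide +kernel, show cfn 20 10 3 = 0 from by decide +kernel, Nat.cast_ofNat, Nat.cast_one, Nat.cast_zero]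
  ring

theorem c20_4 (γ : ℕ → ℝ) : ∑ i ∈ range (20 / 2 + 1), γ i * (cfn 20 i 4 : ℝ) =
    (77520) * γ 0 + (7140) * γ 1 + (545) * γ 2 + (31) * γ 3 + (1) * γ 4 + (0) * γ 5 + (0) * γ 6
       + (0) * γ 7 + (0) * γ 8 + (0) * γ 9 + (0) * γ 10 := by
  have h : ((20 / 2 + 1 : ℕ)) = 11 := rfl
  rw [h]
  simp only [sum_range_succ, sum_range_zero, show cfn 20 0 4 = 77520 from by decide +kernel, show cfn 20 1 4 = 7140 from by decide +kernel, show cfn 20 2 4 = 545 from by decide +kernel, show cfn 20 3 4 = 31 from by decide +kernel, show cfn 20 4 4 = 1 from by decide +kernel, show cfn 20 5 4 = 0 from by decide +kernel, show cfn 20 6 4 = 0 from by decide +kernel, show cfn 20 7 4 = 0 from by decide +kernel, show cfn 20 8 4 = 0 from by decide +kernel, show cfn 20 9 4 = 0 from by decide +kernel, show cfn 20 10 4 = 0 from by decide +kernel, Nat.cast_ofNat, Nat.cast_one, Nat.cast_zero]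
  ring

theorem c20_5 (γ : ℕ → ℝ) : ∑ i ∈ range (20 / 2 + 1), γ i * (cfn 20 i 5 : ℝ) =
    (496128) * γ 0 + (55488) * γ 1 + (5472) * γ 2 + (451) * γ 3 + (28) * γ 4 + (1) * γ 5
       + (0) * γ 6 + (0) * γ 7 + (0) * γ 8 + (0) * γ 9 + (0) * γ 10 := by
  have h : ((20 / 2 + 1 : ℕ)) = 11 := rfl
  rw [h]
  simp only [sum_range_succ, sum_range_zero, show cfn 20 0 5 = 496128 from by decide +kernel, show cfn 20 1 5 = 55488 from by decide +kernel, show cfn 20 2 5 = 5472 from by decide +kernel, show cfn 20 3 5 = 451 from by decide +kernel, show cfn 20 4 5 = 28 from by decide +kernel, show cfn 20 5 5 = 1 from by decide +kernel, show cfn 20 6 5 = 0 from by decide +kernel, show cfn 20 7 5 = 0 from by decide +kernel, show cfn 20 8 5 = 0 from by decide +kernel, show cfn 20 9 5 = 0 from by decide +kernel, show cfn 20 10 5 = 0 from by decide +kernel, Nat.cast_ofNat, Nat.cast_one, Nat.cast_zero]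
  ring

theorem c20_6 (γ : ℕ → ℝ) : ∑ i ∈ range (20 / 2 + 1), γ i * (cfn 20 i 6 : ℝ) =
    (2480640) * γ 0 + (323136) * γ 1 + (38560) * γ 2 + (4089) * γ 3 + (366) * γ 4 + (25) * γ 5
       + (1) * γ 6 + (0) * γ 7 + (0) * γ 8 + (0) * γ 9 + (0) * γ 10 := by
  have h : ((20 / 2 + 1 : ℕ)) = 11 := rfl
  rw [h]
  simp only [sum_range_succ, sum_range_zero, show cfn 20 0 6 = 2480640 from by decide +kernel, show cfn 20 1 6 = 323136 from by decide +kernel, show cfn 20 2 6 = 38560 from by decide +kernel, show cfn 20 3 6 = 4089 from by decide +kernel, show cfn 20 4 6 = 366 from by decide +kernel, show cfn 20 5 6 = 25 from by decide +kernel, show cfn 20 6 6 = 1 from by decide +kernel, show cfn 20 7 6 = 0 from by decide +kernel, show cfn 20 8 6 = 0 from by decide +kernel, show cfn 20 9 6 = 0 from by decide +kernel, show cfn 20 10 6 = 0 from by decide +kernel, Nat.cast_ofNat, Nat.cast_one, Nat.cast_zero]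
  ring

theorem c20_7 (γ : ℕ → ℝ) : ∑ i ∈ range (20 / 2 + 1), γ i * (cfn 20 i 7 : ℝ) =
    (9922560) * γ 0 + (1462272) * γ 1 + (202496) * γ 2 + (25872) * γ 3 + (2964) * γ 4
       + (290) * γ 5 + (22) * γ 6 + (1) * γ 7 + (0) * γ 8 + (0) * γ 9 + (0) * γ 10 := by
  have h : ((20 / 2 + 1 : ℕ)) = 11 := rfl
  rw [h]
  simp only [sum_range_succ, sum_range_zero, show cfn 20 0 7 = 9922560 from by decide +kernel, show cfn 20 1 7 = 1462272 from by decide +kernel, show cfn 20 2 7 = 202496 from by decide +kernel, show cfn 20 3 7 = 25872 from by decide +kernel, show cfn 20 4 7 = 2964 from by decide +kernel, show cfn 20 5 7 = 290 from by decide +kernel, show cfn 20 6 7 = 22 from by decide +kernel, show cfn 20 7 7 = 1 from by decide +kernel, show cfn 20 8 7 = 0 from by decide +kernel, show cfn 20 9 7 = 0 from by decide +kernel, show cfn 20 10 7 = 0 from by decide +kernel, Nat.cast_ofNat, Nat.cast_one, Nat.cast_zero]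
  ring

theorem c20_8 (γ : ℕ → ℝ) : ∑ i ∈ range (20 / 2 + 1), γ i * (cfn 20 i 8 : ℝ) =
    (32248320) * γ 0 + (5261568) * γ 1 + (821184) * γ 2 + (121212) * γ 3 + (16641) * γ 4
       + (2070) * γ 5 + (223) * γ 6 + (19) * γ 7 + (1) * γ 8 + (0) * γ 9 + (0) * γ 10 := by
  have h : ((20 / 2 + 1 : ℕ)) = 11 := rfl
  rw [h]
  simp only [sum_range_succ, sum_range_zero, show cfn 20 0 8 = 32248320 from by decide +kernel, show cfn 20 1 8 = 5261568 from by decide +kernel, show cfn 20 2 8 = 821184 from by decide +kernel, show cfn 20 3 8 = 121212 from by decide +kernel, show cfn 20 4 8 = 16641 from by decide +kernel, show cfn 20 5 8 = 2070 from by decide +kernel, show cfn 20 6 8 = 223 from by decide +kernel, show cfn 20 7 8 = 19 from by decide +kernel, show cfn 20 8 8 = 1 from by decide +kernel, show cfn 20 9 8 = 0 from by decide +kernel, show cfn 20 10 8 = 0 from by decide +kernel, Nat.cast_ofNat, Nat.cast_one,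 Nat.cast_zero]
  ring

theorem c20_9 (γ : ℕ → ℝ) : ∑ i ∈ range (20 / 2 + 1), γ i * (cfn 20 i 9 : ℝ) =
    (85995520) * γ 0 + (15275520) * γ 1 + (2629120) * γ 2 + (435344) * γ 3 + (68664) * γ 4
       + (10165) * γ 5 + (1380) * γ 6 + (165) * γ 7 + (16) * γ 8 + (1) * γ 9 + (0) * γ 10 := by
  have h : ((20 / 2 + 1 : ℕ)) = 11 := rfl
  rw [h]
  simp only [sum_range_succ, sum_range_zero, show cfn 20 0 9 = 85995520 from by decide +kernel, show cfn 20 1 9 = 15275520 from by decide +kernel, show cfn 20 2 9 = 2629120 from by decide +kernel, show cfn 20 3 9 = 435344 from by decide +kernel, show cfn 20 4 9 = 68664 from by decide +kernel, show cfn 20 5 9 = 10165 from by decide +kernel, show cfn 20 6 9 = 1380 from by decide +kernel, show cfn 20 7 9 = 165 from by decide +kernel, show cfn 20 8 9 = 16 from by decide +kernel, show cfn 20 9 9 = 1 from by decide +kernel, show cfn 20 10 9 = 0 from by decide +kernel,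 Nat.cast_ofNat, Nat.cast_one, Nat.cast_zero]
  ring

theorem c20_10 (γ : ℕ → ℝ) : ∑ i ∈ range (20 / 2 + 1), γ i * (cfn 20 i 10 : ℝ) =
    (189190144) * γ 0 + (36095488) * γ 1 + (6735872) * γ 2 + (1224080) * γ 3 + (215336) * γ 4
       + (36365) * γ 5 + (5823) * γ 6 + (867) * γ 7 + (116) * γ 8 + (13) * γ 9 + (1) * γ 10 := by
  have h : ((20 / 2 + 1 : ℕ)) = 11 := rfl
  rw [h]
  simp only [sum_range_succ, sum_range_zero, show cfn 20 0 10 = 189190144 from by decide +kernel, show cfn 20 1 10 = 36095488 from by decide +kernel, show cfn 20 2 10 = 6735872 from by decide +kernel, show cfn 20 3 10 = 1224080 from by decide +kernel, show cfn 20 4 10 = 215336 from by decide +kernel, show cfn 20 5 10 = 36365 from by decide +kernel, show cfn 20 6 10 = 5823 from by decide +kernel, show cfn 20 7 10 = 867 from by decide +kernel, show cfn 20 8 10 = 116 from by decide +kernel, show cfn 20 9 10 = 13 from by decide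 +kernel, show cfn 20 10 10 = 1 from by decide +kernel, Nat.cast_ofNat, Nat.cast_one, Nat.cast_zero]
  ring

theorem c20_11 (γ : ℕ → ℝ) : ∑ i ∈ range (20 / 2 + 1), γ i * (cfn 20 i 11 : ℝ) =
    (343982080) * γ 0 + (69701632) * γ 1 + (13911040) * γ 2 + (2727296) * γ 3 + (523424) * γ 4
       + (97880) * γ 5 + (17718) * γ 6 + (3075) * γ 7 + (504) * γ 8 + (76) * γ 9 + (10) * γ 10 := by
  have h : ((20 / 2 + 1 : ℕ)) = 11 := rfl
  rw [h]
  simp only [sum_range_succ, sum_range_zero, show cfn 20 0 11 = 343982080 from by decide +kernel, show cfn 20 1 11 = 69701632 from by decide +kernel, show cfn 20 2 11 = 13911040 from by decide +kernel, show cfn 20 3 11 = 2727296 from by decide +kernel, show cfn 20 4 11 = 523424 from by decide +kernel, show cfn 20 5 11 = 97880 from by decide +kernel, show cfn 20 6 11 = 17718 from by decide +kernel, show cfn 20 7 11 = 3075 from by decide +kernel, show cfn 20 8 11 = 504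 from by decide +kernel, show cfn 20 9 11 = 76 from by decide +kernel, show cfn 20 10 11 = 10 from by decide +kernel, Nat.cast_ofNat, Nat.cast_one, Nat.cast_zero]
  ring

theorem c20_12 (γ : ℕ → ℝ) : ∑ i ∈ range (20 / 2 + 1), γ i * (cfn 20 i 12 : ℝ) =
    (515973120) * γ 0 + (109983744) * γ 1 + (23209472) * γ 2 + (4841408) * γ 3 + (996336) * γ 4
       + (201780) * γ 5 + (40081) * γ 6 + (7773) * γ 7 + (1462) * γ 8 + (264) * γ 9 + (45) * γ 10 := by
  have h : ((20 / 2 + 1 : ℕ)) = 11 := rfl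
  rw [h]
  simp only [sum_range_succ, sum_range_zero, show cfn 20 0 12 = 515973120 from by decide +kernel, show cfn 20 1 12 = 109983744 from by decide +kernel, show cfn 20 2 12 = 23209472 from by decide +kernel, show cfn 20 3 12 = 4841408 from by decide +kernel, show cfn 20 4 12 = 996336 from by decide +kernel, show cfn 20 5 12 = 201780 from by decide +kernel, show cfn 20 6 12 = 40081 from by decide +kernel, show cfn 20 7 12 = 7773 from by decide +kernel, show cfn 20 8 12 = 1462 from by decide +kernel, show cfn 20 9 12 = 264 from by decide +kernel, show cfn 20 10 12 = 45 from by decide +kernel, Nat.cast_ofNat, Nat.cast_one, Nat.cast_zero]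
  ring

theorem c20_13 (γ : ℕ → ℝ) : ∑ i ∈ range (20 / 2 + 1), γ i * (cfn 20 i 13 : ℝ) =
    (635043840) * γ 0 + (141213696) * γ 1 + (31203328) * γ 2 + (6845696) * γ 3 + (1489664) * γ 4
       + (321120) * γ 5 + (68464) * γ 6 + (14407) * γ 7 + (2984) * γ 8 + (606) * γ 9 + (120) * γ 10 := by
  have h : ((20 / 2 + 1 : ℕ)) = 11 := rfl
  rw [h]
  simp only [sum_range_succ, sum_range_zero, show cfn 20 0 13 = 635043840 from by decide +kernel, show cfn 20 1 13 = 141213696 from by decide +kernel, show cfn 20 2 13 = 31203328 from by decide +kernel, show cfn 20 3 13 = 6845696 from by decide +kernel, show cfn 20 4 13 = 1489664 from by decide +kernel, show cfn 20 5 13 = 321120 from by decide +kernel, show cfn 20 6 13 = 68464 from by decide +kernel, show cfn 20 7 13 = 14407 from by decide +kernel, show cfn 20 8 13 = 2984 from by decide +kernel, show cfn 20 9 13 = 606 from by decide +kernel, show cfn 20 10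 13 = 120 from by decide +kernel, Nat.cast_ofNat, Nat.cast_one, Nat.cast_zero]
  ring

theorem c20_14 (γ : ℕ → ℝ) : ∑ i ∈ range (20 / 2 + 1), γ i * (cfn 20 i 14 : ℝ) =
    (635043840) * γ 0 + (146227200) * γ 1 + (33546240) * γ 2 + (7664384) * γ 3 + (1743104) * γ 4
       + (394400) * γ 5 + (88720) * γ 6 + (19825) * γ 7 + (4396) * γ 8 + (966) * γ 9 + (210) * γ 10 := by
  have h : ((20 / 2 + 1 : ℕ)) = 11 := rfl
  rw [h]
  simp only [sum_range_succ, sum_range_zero, show cfn 20 0 14 = 635043840 from by decide +kernel, show cfn 20 1 14 = 146227200 from by decide +kernel, show cfn 20 2 14 = 33546240 from by decide +kernel, show cfn 20 3 14 = 7664384 from by decide +kernel, show cfn 20 4 14 = 1743104 from by decide +kernel, show cfn 20 5 14 = 394400 from by decide +kernel, show cfn 20 6 14 = 88720 from by decide +kernel, show cfn 20 7 14 = 19825 from by decide +kernel, show cfn 20 8 14 = 4396 from by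 decide +kernel, show cfn 20 9 14 = 966 from by decide +kernel, show cfn 20 10 14 = 210 from by decide +kernel, Nat.cast_ofNat, Nat.cast_one, Nat.cast_zero]
  ring

theorem c20_15 (γ : ℕ → ℝ) : ∑ i ∈ range (20 / 2 + 1), γ i * (cfn 20 i 15 : ℝ) =
    (508035072) * γ 0 + (120324096) * γ 1 + (28442624) * γ 2 + (6709248) * γ 3 + (1579008) * γ 4
       + (370688) * γ 5 + (86784) * γ 6 + (20256) * γ 7 + (4712) * γ 8 + (1092) * γ 9
       + (252) * γ 10 := by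
  have h : ((20 / 2 + 1 : ℕ)) = 11 := rfl
  rw [h]
  simp only [sum_range_succ, sum_range_zero, show cfn 20 0 15 = 508035072 from by decide +kernel, show cfn 20 1 15 = 120324096 from by decide +kernel, show cfn 20 2 15 = 28442624 from by decide +kernel, show cfn 20 3 15 = 6709248 from by decide +kernel, show cfn 20 4 15 = 1579008 from by decide +kernel, show cfn 20 5 15 = 370688 from by decide +kernel, show cfn 20 6 15 = 86784 from by decide +kernel, show cfn 20 7 15 = 20256 from by decide +kernel, show cfn 20 8 15 = 4712 from by decide +kernel, show cfn 20 9 15 = 1092 from by decide +kernel, show cfn 20 10 15 = 252 from by decide +kernel, Nat.cast_ofNat, Nat.cast_one, Nat.cast_zero]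
  ring

theorem c20_16 (γ : ℕ → ℝ) : ∑ i ∈ range (20 / 2 + 1), γ i * (cfn 20 i 16 : ℝ) =
    (317521920) * γ 0 + (76873728) * γ 1 + (18595840) * γ 2 + (4494336) * γ 3 + (1085184) * γ 4
       + (261760) * γ 5 + (63072) * γ 6 + (15180) * γ 7 + (3649) * γ 8 + (876) * γ 9 + (210) * γ 10 := by
  have h : ((20 / 2 + 1 : ℕ)) = 11 := rfl
  rw [h]
  simp only [sum_range_succ, sum_range_zero, show cfn 20 0 16 = 317521920 from by decide +kernel, show cfn 20 1 16 = 76873728 from by decide +kernel, show cfn 20 2 16 = 18595840 from by decide +kernel, show cfn 20 3 16 = 4494336 from by decide +kernel, show cfn 20 4 16 = 1085184 from by decide +kernel, show cfn 20 5 16 = 261760 from by decide +kernel, show cfn 20 6 16 = 63072 from by decide +kernel, show cfn 20 7 16 = 15180 from by decide +kernel, show cfn 20 8 16 = 3649 from by decide +kernel, show cfn 20 9 16 = 876 from by decide +kernel, show cfn 20 10 16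 = 210 from by decide +kernel, Nat.cast_ofNat, Nat.cast_one, Nat.cast_zero]
  ring

theorem q20_0 (γ : ℕ → ℝ) (h0 : γ 0 = 1)
    (h : ∀ n < 20, 2 * (((20 : ℕ) : ℝ) - ((n : ℕ) : ℝ)) * ∑ i ∈ range (20 / 2 + 1), γ i * (cfn 20 i n : ℝ) ≤
      ((n : ℝ) + 1) * ∑ i ∈ range (20 / 2 + 1), γ i * (cfn 20 i (n + 1) : ℝ)) :
    0 ≤ (0) * γ 0 + (1) * γ 1 + (0) * γ 2 + (0) * γ 3 + (0) * γ 4 + (0) * γ 5 + (0) * γ 6 + (0) * γ 7
       + (0) * γ 8 + (0) * γ 9 + (0) * γ 10 := by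
  have h1 := h 0 (by norm_num)
  rw [show 0 + 1 = 1 from rfl, c20_0, c20_1] at h1
  norm_num [h0] at h1 ⊢
  linarith

theorem q20_1 (γ : ℕ → ℝ) (h0 : γ 0 = 1)
    (h : ∀ n < 20, 2 * (((20 : ℕ) : ℝ) - ((n : ℕ) : ℝ)) * ∑ i ∈ range (20 / 2 + 1), γ i * (cfn 20 i n : ℝ) ≤
      ((n : ℝ) + 1) * ∑ i ∈ range (20 / 2 + 1), γ i * (cfn 20 i (n + 1) : ℝ)) :
    0 ≤ (0) * γ 0 + (36) * γ 1 + (2) * γ 2 + (0) * γ 3 + (0) * γ 4 + (0) * γ 5 + (0) * γ 6
       + (0) * γ 7 + (0) * γ 8 + (0) * γ 9 + (0) * γ 10 := by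
  have h1 := h 1 (by norm_num)
  rw [show 1 + 1 = 2 from rfl, c20_1, c20_2] at h1
  norm_num [h0] at h1 ⊢
  linarith

theorem q20_2 (γ : ℕ → ℝ) (h0 : γ 0 = 1)
    (h : ∀ n < 20, 2 * (((20 : ℕ) : ℝ) - ((n : ℕ) : ℝ)) * ∑ i ∈ range (20 / 2 + 1), γ i * (cfn 20 i n : ℝ) ≤
      ((n : ℝ) + 1) * ∑ i ∈ range (20 / 2 + 1), γ i * (cfn 20 i (n + 1) : ℝ)) :
    0 ≤ (0) * γ 0 + (612) * γ 1 + (66) * γ 2 + (3) * γ 3 + (0) * γ 4 + (0) * γ 5 + (0) * γ 6
       + (0) * γ 7 + (0) * γ 8 + (0) * γ 9 + (0) * γ 10 := by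
  have h1 := h 2 (by norm_num)
  rw [show 2 + 1 = 3 from rfl, c20_2, c20_3] at h1
  norm_num [h0] at h1 ⊢
  linarith

theorem q20_3 (γ : ℕ → ℝ) (h0 : γ 0 = 1)
    (h : ∀ n < 20, 2 * (((20 : ℕ) : ℝ) - ((n : ℕ) : ℝ)) * ∑ i ∈ range (20 / 2 + 1), γ i * (cfn 20 i n : ℝ) ≤
      ((n : ℝ) + 1) * ∑ i ∈ range (20 / 2 + 1), γ i * (cfn 20 i (n + 1) : ℝ)) :
    0 ≤ (0) * γ 0 + (6528) * γ 1 + (1024) * γ 2 + (90) * γ 3 + (4) * γ 4 + (0) * γ 5 + (0) * γ 6
       + (0) * γ 7 + (0) * γ 8 + (0) * γ 9 + (0) * γ 10 := by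
  have h1 := h 3 (by norm_num)
  rw [show 3 + 1 = 4 from rfl, c20_3, c20_4] at h1
  norm_num [h0] at h1 ⊢
  linarith

theorem q20_4 (γ : ℕ → ℝ) (h0 : γ 0 = 1)
    (h : ∀ n < 20, 2 * (((20 : ℕ) : ℝ) - ((n : ℕ) : ℝ)) * ∑ i ∈ range (20 / 2 + 1), γ i * (cfn 20 i n : ℝ) ≤
      ((n : ℝ) + 1) * ∑ i ∈ range (20 / 2 + 1), γ i * (cfn 20 i (n + 1) : ℝ)) :
    0 ≤ (0) * γ 0 + (48960) * γ 1 + (9920) * γ 2 + (1263) * γ 3 + (108) * γ 4 + (5) * γ 5 + (0) * γ 6
       + (0) * γ 7 + (0) * γ 8 + (0) * γ 9 + (0) * γ 10 := by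
  have h1 := h 4 (by norm_num)
  rw [show 4 + 1 = 5 from rfl, c20_4, c20_5] at h1
  norm_num [h0] at h1 ⊢
  linarith

theorem q20_5 (γ : ℕ → ℝ) (h0 : γ 0 = 1)
    (h : ∀ n < 20, 2 * (((20 : ℕ) : ℝ) - ((n : ℕ) : ℝ)) * ∑ i ∈ range (20 / 2 + 1), γ i * (cfn 20 i n : ℝ) ≤
      ((n : ℝ) + 1) * ∑ i ∈ range (20 / 2 + 1), γ i * (cfn 20 i (n + 1) : ℝ)) :
    0 ≤ (0) * γ 0 + (274176) * γ 1 + (67200) * γ 2 + (11004) * γ 3 + (1356) * γ 4 + (120) * γ 5
       + (6) * γ 6 + (0) * γ 7 + (0) * γ 8 + (0) * γ 9 + (0) * γ 10 := by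
  have h1 := h 5 (by norm_num)
  rw [show 5 + 1 = 6 from rfl, c20_5, c20_6] at h1
  norm_num [h0] at h1 ⊢
  linarith

theorem q20_6 (γ : ℕ → ℝ) (h0 : γ 0 = 1)
    (h : ∀ n < 20, 2 * (((20 : ℕ) : ℝ) - ((n : ℕ) : ℝ)) * ∑ i ∈ range (20 / 2 + 1), γ i * (cfn 20 i n : ℝ) ≤
      ((n : ℝ) + 1) * ∑ i ∈ range (20 / 2 + 1), γ i * (cfn 20 i (n + 1) : ℝ)) :
    0 ≤ (0) * γ 0 + (1188096) * γ 1 + (337792) * γ 2 + (66612) * γ 3 + (10500) * γ 4 + (1330) * γ 5
       + (126) * γ 6 + (7) * γ 7 + (0) * γ 8 + (0) * γ 9 + (0) * γ 10 := by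
  have h1 := h 6 (by norm_num)
  rw [show 6 + 1 = 7 from rfl, c20_6, c20_7] at h1
  norm_num [h0] at h1 ⊢
  linarith

theorem q20_7 (γ : ℕ → ℝ) (h0 : γ 0 = 1)
    (h : ∀ n < 20, 2 * (((20 : ℕ) : ℝ) - ((n : ℕ) : ℝ)) * ∑ i ∈ range (20 / 2 + 1), γ i * (cfn 20 i n : ℝ) ≤
      ((n : ℝ) + 1) * ∑ i ∈ range (20 / 2 + 1), γ i * (cfn 20 i (n + 1) : ℝ)) :
    0 ≤ (0) * γ 0 + (4073472) * γ 1 + (1304576) * γ 2 + (297024) * γ 3 + (56064) * γ 4 + (9020) * γ 5
       + (1212) * γ 6 + (126) * γ 7 + (8) * γ 8 + (0) * γ 9 + (0) * γ 10 := by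
  have h1 := h 7 (by norm_num)
  rw [show 7 + 1 = 8 from rfl, c20_7, c20_8] at h1
  norm_num [h0] at h1 ⊢
  linarith

theorem q20_8 (γ : ℕ → ℝ) (h0 : γ 0 = 1)
    (h : ∀ n < 20, 2 * (((20 : ℕ) : ℝ) - ((n : ℕ) : ℝ)) * ∑ i ∈ range (20 / 2 + 1), γ i * (cfn 20 i n : ℝ) ≤
      ((n : ℝ) + 1) * ∑ i ∈ range (20 / 2 + 1), γ i * (cfn 20 i (n + 1) : ℝ)) :
    0 ≤ (0) * γ 0 + (11202048) * γ 1 + (3953664) * γ 2 + (1009008) * γ 3 + (218592) * γ 4
       + (41805) * γ 5 + (7068) * γ 6 + (1029) * γ 7 + (120) * γ 8 + (9) * γ 9 + (0) * γ 10 := by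
  have h1 := h 8 (by norm_num)
  rw [show 8 + 1 = 9 from rfl, c20_8, c20_9] at h1
  norm_num [h0] at h1 ⊢
  linarith

theorem q20_9 (γ : ℕ → ℝ) (h0 : γ 0 = 1)
    (h : ∀ n < 20, 2 * (((20 : ℕ) : ℝ) - ((n : ℕ) : ℝ)) * ∑ i ∈ range (20 / 2 + 1), γ i * (cfn 20 i n : ℝ) ≤
      ((n : ℝ) + 1) * ∑ i ∈ range (20 / 2 + 1), γ i * (cfn 20 i (n + 1) : ℝ)) :
    0 ≤ (0) * γ 0 + (24893440) * γ 1 + (9518080) * γ 2 + (2663232) * γ 3 + (642752) * γ 4
       + (140020) * γ 5 + (27870) * γ 6 + (5040) * γ 7 + (808) * γ 8 + (108) * γ 9 + (10) * γ 10 := by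
  have h1 := h 9 (by norm_num)
  rw [show 9 + 1 = 10 from rfl, c20_9, c20_10] at h1
  norm_num [h0] at h1 ⊢
  linarith

theorem q20_10 (γ : ℕ → ℝ) (h0 : γ 0 = 1)
    (h : ∀ n < 20, 2 * (((20 : ℕ) : ℝ) - ((n : ℕ) : ℝ)) * ∑ i ∈ range (20 / 2 + 1), γ i * (cfn 20 i n : ℝ) ≤
      ((n : ℝ) + 1) * ∑ i ∈ range (20 / 2 + 1), γ i * (cfn 20 i (n + 1) : ℝ)) :
    0 ≤ (0) * γ 0 + (44808192) * γ 1 + (18304000) * γ 2 + (5518656) * γ 3 + (1450944) * γ 4
       + (349380) * γ 5 + (78438) * γ 6 + (16485) * γ 7 + (3224) * γ 8 + (576) * γ 9 + (90) * γ 10 := by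
  have h1 := h 10 (by norm_num)
  rw [show 10 + 1 = 11 from rfl, c20_10, c20_11] at h1
  norm_num [h0] at h1 ⊢
  linarith

theorem q20_11 (γ : ℕ → ℝ) (h0 : γ 0 = 1)
    (h : ∀ n < 20, 2 * (((20 : ℕ) : ℝ) - ((n : ℕ) : ℝ)) * ∑ i ∈ range (20 / 2 + 1), γ i * (cfn 20 i n : ℝ) ≤
      ((n : ℝ) + 1) * ∑ i ∈ range (20 / 2 + 1), γ i * (cfn 20 i (n + 1) : ℝ)) :
    0 ≤ (0) * γ 0 + (65175552) * γ 1 + (28114944) * γ 2 + (9005568) * γ 3 + (2534400) * γ 4
       + (659520) * γ 5 + (162048) * γ 6 + (37926) * γ 7 + (8472) * γ 8 + (1800) * γ 9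
       + (360) * γ 10 := by
  have h1 := h 11 (by norm_num)
  rw [show 11 + 1 = 12 from rfl, c20_11, c20_12] at h1
  norm_num [h0] at h1 ⊢
  linarith

theorem q20_12 (γ : ℕ → ℝ) (h0 : γ 0 = 1)
    (h : ∀ n < 20, 2 * (((20 : ℕ) : ℝ) - ((n : ℕ) : ℝ)) * ∑ i ∈ range (20 / 2 + 1), γ i * (cfn 20 i n : ℝ) ≤
      ((n : ℝ) + 1) * ∑ i ∈ range (20 / 2 + 1), γ i * (cfn 20 i (n + 1) : ℝ)) :
    0 ≤ (0) * γ 0 + (76038144) * γ 1 + (34291712) * γ 2 + (11531520) * γ 3 + (3424256) * γ 4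
       + (946080) * γ 5 + (248736) * γ 6 + (62923) * γ 7 + (15400) * γ 8 + (3654) * γ 9
       + (840) * γ 10 := by
  have h1 := h 12 (by norm_num)
  rw [show 12 + 1 = 13 from rfl, c20_12, c20_13] at h1
  norm_num [h0] at h1 ⊢
  linarith

theorem q20_13 (γ : ℕ → ℝ) (h0 : γ 0 = 1)
    (h : ∀ n < 20, 2 * (((20 : ℕ) : ℝ) - ((n : ℕ) : ℝ)) * ∑ i ∈ range (20 / 2 + 1), γ i * (cfn 20 i n : ℝ) ≤
      ((n : ℝ) + 1) * ∑ i ∈ range (20 / 2 + 1), γ i * (cfn 20 i (n + 1) : ℝ)) :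
    0 ≤ (0) * γ 0 + (70189056) * γ 1 + (32800768) * γ 2 + (11461632) * γ 3 + (3548160) * γ 4
       + (1025920) * γ 5 + (283584) * γ 6 + (75852) * γ 7 + (19768) * γ 8 + (5040) * γ 9
       + (1260) * γ 10 := by
  have h1 := h 13 (by norm_num)
  rw [show 13 + 1 = 14 from rfl, c20_13, c20_14] at h1
  norm_num [h0] at h1 ⊢
  linarith

theorem q20_14 (γ : ℕ → ℝ) (h0 : γ 0 = 1)
    (h : ∀ n < 20, 2 * (((20 : ℕ) : ℝ) - ((n : ℕ) : ℝ)) * ∑ i ∈ range (20 / 2 + 1), γ i * (cfn 20 i n : ℝ) ≤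
      ((n : ℝ) + 1) * ∑ i ∈ range (20 / 2 + 1), γ i * (cfn 20 i (n + 1) : ℝ)) :
    0 ≤ (0) * γ 0 + (50135040) * γ 1 + (24084480) * γ 2 + (8666112) * γ 3 + (2767872) * γ 4
       + (827520) * γ 5 + (237120) * γ 6 + (65940) * γ 7 + (17928) * γ 8 + (4788) * γ 9
       + (1260) * γ 10 := by
  have h1 := h 14 (by norm_num)
  rw [show 14 + 1 = 15 from rfl, c20_14, c20_15] at h1
  norm_num [h0] at h1 ⊢
  linarith

theorem q20_15 (γ : ℕ → ℝ) (h0 : γ 0 = 1)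
    (h : ∀ n < 20, 2 * (((20 : ℕ) : ℝ) - ((n : ℕ) : ℝ)) * ∑ i ∈ range (20 / 2 + 1), γ i * (cfn 20 i n : ℝ) ≤
      ((n : ℝ) + 1) * ∑ i ∈ range (20 / 2 + 1), γ i * (cfn 20 i (n + 1) : ℝ)) :
    0 ≤ (0) * γ 0 + (26738688) * γ 1 + (13107200) * γ 2 + (4816896) * γ 3 + (1572864) * γ 4
       + (481280) * γ 5 + (141312) * γ 6 + (40320) * γ 7 + (11264) * γ 8 + (3096) * γ 9
       + (840) * γ 10 := by
  have h1 := h 15 (by norm_num)
  rw [show 15 + 1 = 16 from rfl, c20_15, c20_16] at h1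
  norm_num [h0] at h1 ⊢
  linarith

theorem m20_0 (γ : ℕ → ℝ) : Mat 20 γ 0 = (1) * γ 0 + (0) * γ 1 + (0) * γ 2 + (0) * γ 3 + (0) * γ 4 + (0) * γ 5 + (0) * γ 6 + (0) * γ 7
       + (0) * γ 8 + (0) * γ 9 + (0) * γ 10 := by
  unfold Mat
  rw [show (20 / 2 + 1 : ℕ) = 11 from rfl]
  simp [sum_range_succ, Nat.choose]
  try ring

theorem m20_1 (γ : ℕ → ℝ) : Mat 20 γ 1 = (760) * γ 0 + (38) * γ 1 + (1) * γ 2 + (0) * γ 3 + (0) * γ 4 + (0) * γ 5 + (0) * γ 6
       + (0) * γ 7 + (0) * γ 8 + (0) * γ 9 + (0) * γ 10 := by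
  unfold Mat
  rw [show (20 / 2 + 1 : ℕ) = 11 from rfl]
  simp [sum_range_succ, Nat.choose]
  try ring

theorem m20_2 (γ : ℕ → ℝ) : Mat 20 γ 2 = (77520) * γ 0 + (7752) * γ 1 + (612) * γ 2 + (34) * γ 3 + (1) * γ 4 + (0) * γ 5 + (0) * γ 6
       + (0) * γ 7 + (0) * γ 8 + (0) * γ 9 + (0) * γ 10 := by
  unfold Mat
  rw [show (20 / 2 + 1 : ℕ) = 11 from rfl]
  simp [sum_range_succ, Nat.choose]
  try ring

theorem m20_3 (γ : ℕ → ℝ) : Mat 20 γ 3 = (2480640) * γ 0 + (372096) * γ 1 + (48960) * γ 2 + (5440) * γ 3 + (480) * γ 4 + (30) * γ 5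
       + (1) * γ 6 + (0) * γ 7 + (0) * γ 8 + (0) * γ 9 + (0) * γ 10 := by
  unfold Mat
  rw [show (20 / 2 + 1 : ℕ) = 11 from rfl]
  simp [sum_range_succ, Nat.choose]
  try ring

theorem m20_4 (γ : ℕ → ℝ) : Mat 20 γ 4 = (32248320) * γ 0 + (6449664) * γ 1 + (1188096) * γ 2 + (198016) * γ 3 + (29120) * γ 4
       + (3640) * γ 5 + (364) * γ 6 + (26) * γ 7 + (1) * γ 8 + (0) * γ 9 + (0) * γ 10 := by
  unfold Mat
  rw [show (20 / 2 + 1 : ℕ) = 11 from rfl]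
  simp [sum_range_succ, Nat.choose]
  try ring

theorem m20_5 (γ : ℕ → ℝ) : Mat 20 γ 5 = (189190144) * γ 0 + (47297536) * γ 1 + (11202048) * γ 2 + (2489344) * γ 3 + (512512) * γ 4
       + (96096) * γ 5 + (16016) * γ 6 + (2288) * γ 7 + (264) * γ 8 + (22) * γ 9 + (1) * γ 10 := by
  unfold Mat
  rw [show (20 / 2 + 1 : ℕ) = 11 from rfl]
  simp [sum_range_succ, Nat.choose]
  try ring

theorem m20_6 (γ : ℕ → ℝ) : Mat 20 γ 6 = (515973120) * γ 0 + (154791936) * γ 1 + (44808192) * γ 2 + (12446720) * γ 3 + (3294720) * γ 4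
       + (823680) * γ 5 + (192192) * γ 6 + (41184) * γ 7 + (7920) * γ 8 + (1320) * γ 9
       + (180) * γ 10 := by
  unfold Mat
  rw [show (20 / 2 + 1 : ℕ) = 11 from rfl]
  simp [sum_range_succ, Nat.choose]
  try ring

theorem m20_7 (γ : ℕ → ℝ) : Mat 20 γ 7 = (635043840) * γ 0 + (222265344) * γ 1 + (76038144) * γ 2 + (25346048) * γ 3 + (8200192) * γ 4
       + (2562560) * γ 5 + (768768) * γ 6 + (219648) * γ 7 + (59136) * γ 8 + (14784) * γ 9
       + (3360) * γ 10 := by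
  unfold Mat
  rw [show (20 / 2 + 1 : ℕ) = 11 from rfl]
  simp [sum_range_succ, Nat.choose]
  try ring

theorem m20_8 (γ : ℕ → ℝ) : Mat 20 γ 8 = (317521920) * γ 0 + (127008768) * γ 1 + (50135040) * γ 2 + (19496960) * γ 3 + (7454720) * γ 4
       + (2795520) * γ 5 + (1025024) * γ 6 + (366080) * γ 7 + (126720) * γ 8 + (42240) * γ 9
       + (13440) * γ 10 := by
  unfold Mat
  rw [show (20 / 2 + 1 : ℕ) = 11 from rfl]
  simp [sum_range_succ, Nat.choose]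
  try ring

theorem m20_9 (γ : ℕ → ℝ) : Mat 20 γ 9 = (49807360) * γ 0 + (22413312) * γ 1 + (10027008) * γ 2 + (4456448) * γ 3 + (1966080) * γ 4
       + (860160) * γ 5 + (372736) * γ 6 + (159744) * γ 7 + (67584) * γ 8 + (28160) * γ 9
       + (11520) * γ 10 := by
  unfold Mat
  rw [show (20 / 2 + 1 : ℕ) = 11 from rfl]
  simp [sum_range_succ, Nat.choose]
  try ring

theorem m20_10 (γ : ℕ → ℝ) : Mat 20 γ 10 = (1048576) * γ 0 + (524288) * γ 1 + (262144) * γ 2 + (131072) * γ 3 + (65536) * γ 4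
       + (32768) * γ 5 + (16384) * γ 6 + (8192) * γ 7 + (4096) * γ 8 + (2048) * γ 9 + (1024) * γ 10 := by
  unfold Mat
  rw [show (20 / 2 + 1 : ℕ) = 11 from rfl]
  simp [sum_range_succ, Nat.choose]
  try ring

theorem mm20_0 (γ : ℕ → ℝ) : Mat 20 (Mat 20 γ) 0 =
      (1) * γ 0 + (0) * γ 1 + (0) * γ 2 + (0) * γ 3 + (0) * γ 4 + (0) * γ 5 + (0) * γ 6 + (0) * γ 7
       + (0) * γ 8 + (0) * γ 9 + (0) * γ 10 := by
  rw [m20_0]
  simp only [m20_0, m20_1, m20_2, m20_3, m20_4, m20_5, m20_6, m20_7, m20_8, m20_9, m20_10]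
  ring

theorem mm20_1 (γ : ℕ → ℝ) : Mat 20 (Mat 20 γ) 1 =
      (107160) * γ 0 + (9196) * γ 1 + (650) * γ 2 + (34) * γ 3 + (1) * γ 4 + (0) * γ 5 + (0) * γ 6
       + (0) * γ 7 + (0) * γ 8 + (0) * γ 9 + (0) * γ 10 := by
  rw [m20_1]
  simp only [m20_0, m20_1, m20_2, m20_3, m20_4, m20_5, m20_6, m20_7, m20_8, m20_9, m20_10]
  ring

theorem mm20_2 (γ : ℕ → ℝ) : Mat 20 (Mat 20 γ) 2 =
      (170001360) * γ 0 + (24139728) * γ 1 + (3235032) * γ 2 + (403784) * γ 3 + (46052) * γ 4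
       + (4660) * γ 5 + (398) * γ 6 + (26) * γ 7 + (1) * γ 8 + (0) * γ 9 + (0) * γ 10 := by
  rw [m20_2]
  simp only [m20_0, m20_1, m20_2, m20_3, m20_4, m20_5, m20_6, m20_7, m20_8, m20_9, m20_10]
  ring

theorem mm20_3 (γ : ℕ → ℝ) : Mat 20 (Mat 20 γ) 3 =
      (39246205440) * γ 0 + (7087436544) * γ 1 + (1247833728) * γ 2 + (213432960) * γ 3
       + (35307840) * γ 4 + (5616960) * γ 5 + (852832) * γ 6 + (122304) * γ 7 + (16320) * γ 8
       + (1980) * γ 9 + (210) * γ 10 := by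
  rw [m20_3]
  simp only [m20_0, m20_1, m20_2, m20_3, m20_4, m20_5, m20_6, m20_7, m20_8, m20_9, m20_10]
  ring

theorem mm20_4 (γ : ℕ → ℝ) : Mat 20 (Mat 20 γ) 4 =
      (2420607685120) * γ 0 + (505363588096) * γ 1 + (104138546688) * γ 2 + (21154140672) * γ 3
       + (4229691648) * γ 4 + (830968320) * γ 5 + (160066816) * γ 6 + (30153344) * γ 7
       + (5537216) * γ 8 + (987184) * γ 9 + (169960) * γ 10 := by
  rw [m20_4]
  simp only [m20_0, m20_1, m20_2, m20_3, m20_4, m20_5, m20_6, m20_7, m20_8, m20_9, m20_10]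
  ring

theorem mm20_5 (γ : ℕ → ℝ) : Mat 20 (Mat 20 γ) 5 =
      (51589479829504) * γ 0 + (11887259428864) * γ 1 + (2719246478336) * γ 2
       + (617208273920) * γ 3 + (138922429952) * γ 4 + (30986834944) * γ 5 + (6844028416) * γ 6
       + (1495518208) * γ 7 + (322976768) * γ 8 + (68853952) * γ 9 + (14469280) * γ 10 := by
  rw [m20_5]
  simp only [m20_0, m20_1, m20_2, m20_3, m20_4, m20_5, m20_6, m20_7, m20_8, m20_9, m20_10]
  ring

theorem mm20_6 (γ : ℕ → ℝ) : Mat 20 (Mat 20 γ) 6 =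
      (424449102520320) * γ 0 + (105131618426880) * γ 1 + (25931998679040) * γ 2
       + (6368397455360) * γ 3 + (1556691302400) * γ 4 + (378641541120) * γ 5 + (91615640576) * γ 6
       + (22043151360) * γ 7 + (5271934464) * γ 8 + (1252759296) * γ 9 + (295632000) * γ 10 := by
  rw [m20_6]
  simp only [m20_0, m20_1, m20_2, m20_3, m20_4, m20_5, m20_6, m20_7, m20_8, m20_9, m20_10]
  ring

theorem mm20_7 (γ : ℕ → ℝ) : Mat 20 (Mat 20 γ) 7 =
      (1373858549596160) * γ 0 + (359783449690112) * γ 1 + (93998871773184) * γ 2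
       + (24498475925504) * γ 3 + (6368534609920) * γ 4 + (1651083427840) * γ 5
       + (426842988544) * γ 6 + (110020214784) * γ 7 + (28269101056) * γ 8 + (7239529472) * γ 9
       + (1847498240) * γ 10 := by
  rw [m20_7]
  simp only [m20_0, m20_1, m20_2, m20_3, m20_4, m20_5, m20_6, m20_7, m20_8, m20_9, m20_10]
  ring

theorem mm20_8 (γ : ℕ → ℝ) : Mat 20 (Mat 20 γ) 8 =
      (1625351292518400) * γ 0 + (445030543392768) * γ 1 + (121703545307136) * γ 2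
       + (33240457543680) * γ 3 + (9066911170560) * γ 4 + (2469773967360) * γ 5
       + (671793676288) * γ 6 + (182460645376) * γ 7 + (49479925760) * γ 8 + (13396316160) * γ 9
       + (3620812800) * γ 10 := by
  rw [m20_8]
  simp only [m20_0, m20_1, m20_2, m20_3, m20_4, m20_5, m20_6, m20_7, m20_8, m20_9, m20_10]
  ring

theorem mm20_9 (γ : ℕ → ℝ) : Mat 20 (Mat 20 γ) 9 =
      (554626048327680) * γ 0 + (157523852918784) * γ 1 + (44717762543616) * γ 2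
       + (12688039215104) * γ 3 + (3598175502336) * γ 4 + (1019848949760) * γ 5
       + (288899596288) * γ 6 + (81791287296) * γ 7 + (23142334464) * γ 8 + (6543917056) * γ 9
       + (1849221120) * γ 10 := by
  rw [m20_9]
  simp only [m20_0, m20_1, m20_2, m20_3, m20_4, m20_5, m20_6, m20_7, m20_8, m20_9, m20_10]
  ring

theorem mm20_10 (γ : ℕ → ℝ) : Mat 20 (Mat 20 γ) 10 =
      (23718303629312) * γ 0 + (6946930294784) * γ 1 + (2034708774912) * γ 2 + (595952402432) * γ 3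
       + (174550417408) * γ 4 + (51124633600) * γ 5 + (14974058496) * γ 6 + (4385800192) * γ 7
       + (1284571136) * γ 8 + (376242176) * γ 9 + (110198784) * γ 10 := by
  rw [m20_10]
  simp only [m20_0, m20_1, m20_2, m20_3, m20_4, m20_5, m20_6, m20_7, m20_8, m20_9, m20_10]
  ring

theorem p20_0 (γ : ℕ → ℝ) (h0 : γ 0 = 1)
    (h : ∀ n < 20, 2 * (((20 : ℕ) : ℝ) - ((n : ℕ) : ℝ)) * ∑ i ∈ range (20 / 2 + 1), γ i * (cfn 20 i n : ℝ) ≤
      ((n : ℝ) + 1) * ∑ i ∈ range (20 / 2 + 1), γ i * (cfn 20 i (n + 1) : ℝ)) :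
    0 < Mat 20 (Mat 20 (Mat 20 γ)) 0 := by

  rw [m20_0]
  simp only [mm20_0, mm20_1, mm20_2, mm20_3, mm20_4, mm20_5, mm20_6, mm20_7, mm20_8, mm20_9, mm20_10]
  linarith only [h0]

theorem p20_1 (γ : ℕ → ℝ) (h0 : γ 0 = 1)
    (h : ∀ n < 20, 2 * (((20 : ℕ) : ℝ) - ((n : ℕ) : ℝ)) * ∑ i ∈ range (20 / 2 + 1), γ i * (cfn 20 i n : ℝ) ≤
      ((n : ℝ) + 1) * ∑ i ∈ range (20 / 2 + 1), γ i * (cfn 20 i (n + 1) : ℝ)) :
    0 < Mat 20 (Mat 20 (Mat 20 γ)) 1 := by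
  have k0 := q20_0 γ h0 h
  have k6 := q20_6 γ h0 h
  have k1 := q20_1 γ h0 h
  have k2 := q20_2 γ h0 h
  have k3 := q20_3 γ h0 h
  have k4 := q20_4 γ h0 h
  have k7 := q20_7 γ h0 h
  have k5 := q20_5 γ h0 h
  rw [m20_1]
  simp only [mm20_0, mm20_1, mm20_2, mm20_3, mm20_4, mm20_5, mm20_6, mm20_7, mm20_8, mm20_9, mm20_10]
  linarith only [h0, k0, k6, k1, k2, k3, k4, k7, k5]

theorem p20_2 (γ : ℕ → ℝ) (h0 : γ 0 = 1)
    (h : ∀ n < 20, 2 * (((20 : ℕ) : ℝ) - ((n : ℕ) : ℝ)) * ∑ i ∈ range (20 / 2 + 1), γ i * (cfn 20 i n : ℝ) ≤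
      ((n : ℝ) + 1) * ∑ i ∈ range (20 / 2 + 1), γ i * (cfn 20 i (n + 1) : ℝ)) :
    0 < Mat 20 (Mat 20 (Mat 20 γ)) 2 := by
  have k10 := q20_10 γ h0 h
  have k0 := q20_0 γ h0 h
  have k1 := q20_1 γ h0 h
  have k2 := q20_2 γ h0 h
  have k4 := q20_4 γ h0 h
  have k3 := q20_3 γ h0 h
  have k5 := q20_5 γ h0 h
  have k7 := q20_7 γ h0 h
  have k11 := q20_11 γ h0 h
  have k8 := q20_8 γ h0 h
  rw [m20_2]
  simp only [mm20_0, mm20_1, mm20_2, mm20_3, mm20_4, mm20_5, mm20_6, mm20_7, mm20_8, mm20_9, mm20_10]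
  linarith only [h0, k10, k0, k1, k2, k4, k3, k5, k7, k11, k8]

theorem p20_3 (γ : ℕ → ℝ) (h0 : γ 0 = 1)
    (h : ∀ n < 20, 2 * (((20 : ℕ) : ℝ) - ((n : ℕ) : ℝ)) * ∑ i ∈ range (20 / 2 + 1), γ i * (cfn 20 i n : ℝ) ≤
      ((n : ℝ) + 1) * ∑ i ∈ range (20 / 2 + 1), γ i * (cfn 20 i (n + 1) : ℝ)) :
    0 < Mat 20 (Mat 20 (Mat 20 γ)) 3 := by
  have k1 := q20_1 γ h0 h
  have k0 := q20_0 γ h0 h
  have k7 := q20_7 γ h0 h
  have k3 := q20_3 γ h0 h
  have k2 := q20_2 γ h0 h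
  have k11 := q20_11 γ h0 h
  have k4 := q20_4 γ h0 h
  have k12 := q20_12 γ h0 h
  have k8 := q20_8 γ h0 h
  have k5 := q20_5 γ h0 h
  rw [m20_3]
  simp only [mm20_0, mm20_1, mm20_2, mm20_3, mm20_4, mm20_5, mm20_6, mm20_7, mm20_8, mm20_9, mm20_10]
  linarith only [h0, k1, k0, k7, k3, k2, k11, k4, k12, k8, k5]

theorem p20_4 (γ : ℕ → ℝ) (h0 : γ 0 = 1)
    (h : ∀ n < 20, 2 * (((20 : ℕ) : ℝ) - ((n : ℕ) : ℝ)) * ∑ i ∈ range (20 / 2 + 1), γ i * (cfn 20 i n : ℝ) ≤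
      ((n : ℝ) + 1) * ∑ i ∈ range (20 / 2 + 1), γ i * (cfn 20 i (n + 1) : ℝ)) :
    0 < Mat 20 (Mat 20 (Mat 20 γ)) 4 := by
  have k2 := q20_2 γ h0 h
  have k4 := q20_4 γ h0 h
  have k0 := q20_0 γ h0 h
  have k1 := q20_1 γ h0 h
  have k8 := q20_8 γ h0 h
  have k3 := q20_3 γ h0 h
  have k12 := q20_12 γ h0 h
  have k7 := q20_7 γ h0 h
  have k13 := q20_13 γ h0 h
  have k5 := q20_5 γ h0 h
  rw [m20_4]
  simp only [mm20_0, mm20_1, mm20_2, mm20_3, mm20_4, mm20_5, mm20_6, mm20_7, mm20_8, mm20_9, mm20_10]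
  linarith only [h0, k2, k4, k0, k1, k8, k3, k12, k7, k13, k5]

theorem p20_5 (γ : ℕ → ℝ) (h0 : γ 0 = 1)
    (h : ∀ n < 20, 2 * (((20 : ℕ) : ℝ) - ((n : ℕ) : ℝ)) * ∑ i ∈ range (20 / 2 + 1), γ i * (cfn 20 i n : ℝ) ≤
      ((n : ℝ) + 1) * ∑ i ∈ range (20 / 2 + 1), γ i * (cfn 20 i (n + 1) : ℝ)) :
    0 < Mat 20 (Mat 20 (Mat 20 γ)) 5 := by
  have k1 := q20_1 γ h0 h
  have k0 := q20_0 γ h0 h
  have k5 := q20_5 γ h0 h
  have k3 := q20_3 γ h0 h
  have k13 := q20_13 γ h0 h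
  have k12 := q20_12 γ h0 h
  have k2 := q20_2 γ h0 h
  have k4 := q20_4 γ h0 h
  have k8 := q20_8 γ h0 h
  have k9 := q20_9 γ h0 h
  rw [m20_5]
  simp only [mm20_0, mm20_1, mm20_2, mm20_3, mm20_4, mm20_5, mm20_6, mm20_7, mm20_8, mm20_9, mm20_10]
  linarith only [h0, k1, k0, k5, k3, k13, k12, k2, k4, k8, k9]

theorem p20_6 (γ : ℕ → ℝ) (h0 : γ 0 = 1)
    (h : ∀ n < 20, 2 * (((20 : ℕ) : ℝ) - ((n : ℕ) : ℝ)) * ∑ i ∈ range (20 / 2 + 1), γ i * (cfn 20 i n : ℝ) ≤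
      ((n : ℝ) + 1) * ∑ i ∈ range (20 / 2 + 1), γ i * (cfn 20 i (n + 1) : ℝ)) :
    0 < Mat 20 (Mat 20 (Mat 20 γ)) 6 := by
  have k3 := q20_3 γ h0 h
  have k0 := q20_0 γ h0 h
  have k2 := q20_2 γ h0 h
  have k1 := q20_1 γ h0 h
  have k14 := q20_14 γ h0 h
  have k8 := q20_8 γ h0 h
  have k13 := q20_13 γ h0 h
  have k4 := q20_4 γ h0 h
  have k5 := q20_5 γ h0 h
  have k9 := q20_9 γ h0 h
  rw [m20_6]
  simp only [mm20_0, mm20_1, mm20_2, mm20_3, mm20_4, mm20_5, mm20_6, mm20_7, mm20_8, mm20_9, mm20_10]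
  linarith only [h0, k3, k0, k2, k1, k14, k8, k13, k4, k5, k9]

theorem p20_7 (γ : ℕ → ℝ) (h0 : γ 0 = 1)
    (h : ∀ n < 20, 2 * (((20 : ℕ) : ℝ) - ((n : ℕ) : ℝ)) * ∑ i ∈ range (20 / 2 + 1), γ i * (cfn 20 i n : ℝ) ≤
      ((n : ℝ) + 1) * ∑ i ∈ range (20 / 2 + 1), γ i * (cfn 20 i (n + 1) : ℝ)) :
    0 < Mat 20 (Mat 20 (Mat 20 γ)) 7 := by
  have k1 := q20_1 γ h0 h
  have k0 := q20_0 γ h0 h
  have k2 := q20_2 γ h0 h
  have k3 := q20_3 γ h0 h
  have k8 := q20_8 γ h0 h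
  have k14 := q20_14 γ h0 h
  have k13 := q20_13 γ h0 h
  have k4 := q20_4 γ h0 h
  have k5 := q20_5 γ h0 h
  have k9 := q20_9 γ h0 h
  rw [m20_7]
  simp only [mm20_0, mm20_1, mm20_2, mm20_3, mm20_4, mm20_5, mm20_6, mm20_7, mm20_8, mm20_9, mm20_10]
  linarith only [h0, k1, k0, k2, k3, k8, k14, k13, k4, k5, k9]

theorem p20_8 (γ : ℕ → ℝ) (h0 : γ 0 = 1)
    (h : ∀ n < 20, 2 * (((20 : ℕ) : ℝ) - ((n : ℕ) : ℝ)) * ∑ i ∈ range (20 / 2 + 1), γ i * (cfn 20 i n : ℝ) ≤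
      ((n : ℝ) + 1) * ∑ i ∈ range (20 / 2 + 1), γ i * (cfn 20 i (n + 1) : ℝ)) :
    0 < Mat 20 (Mat 20 (Mat 20 γ)) 8 := by
  have k4 := q20_4 γ h0 h
  have k1 := q20_1 γ h0 h
  have k0 := q20_0 γ h0 h
  have k14 := q20_14 γ h0 h
  have k2 := q20_2 γ h0 h
  have k13 := q20_13 γ h0 h
  have k3 := q20_3 γ h0 h
  have k8 := q20_8 γ h0 h
  have k5 := q20_5 γ h0 h
  have k9 := q20_9 γ h0 h
  rw [m20_8]
  simp only [mm20_0, mm20_1, mm20_2, mm20_3, mm20_4, mm20_5, mm20_6, mm20_7, mm20_8, mm20_9, mm20_10]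
  linarith only [h0, k4, k1, k0, k14, k2, k13, k3, k8, k5, k9]

theorem p20_9 (γ : ℕ → ℝ) (h0 : γ 0 = 1)
    (h : ∀ n < 20, 2 * (((20 : ℕ) : ℝ) - ((n : ℕ) : ℝ)) * ∑ i ∈ range (20 / 2 + 1), γ i * (cfn 20 i n : ℝ) ≤
      ((n : ℝ) + 1) * ∑ i ∈ range (20 / 2 + 1), γ i * (cfn 20 i (n + 1) : ℝ)) :
    0 < Mat 20 (Mat 20 (Mat 20 γ)) 9 := by
  have k14 := q20_14 γ h0 h
  have k0 := q20_0 γ h0 h
  have k1 := q20_1 γ h0 h
  have k4 := q20_4 γ h0 h
  have k2 := q20_2 γ h0 h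
  have k13 := q20_13 γ h0 h
  have k3 := q20_3 γ h0 h
  have k8 := q20_8 γ h0 h
  have k5 := q20_5 γ h0 h
  have k9 := q20_9 γ h0 h
  rw [m20_9]
  simp only [mm20_0, mm20_1, mm20_2, mm20_3, mm20_4, mm20_5, mm20_6, mm20_7, mm20_8, mm20_9, mm20_10]
  linarith only [h0, k14, k0, k1, k4, k2, k13, k3, k8, k5, k9]

theorem p20_10 (γ : ℕ → ℝ) (h0 : γ 0 = 1)
    (h : ∀ n < 20, 2 * (((20 : ℕ) : ℝ) - ((n : ℕ) : ℝ)) * ∑ i ∈ range (20 / 2 + 1), γ i * (cfn 20 i n : ℝ) ≤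
      ((n : ℝ) + 1) * ∑ i ∈ range (20 / 2 + 1), γ i * (cfn 20 i (n + 1) : ℝ)) :
    0 < Mat 20 (Mat 20 (Mat 20 γ)) 10 := by
  have k14 := q20_14 γ h0 h
  have k0 := q20_0 γ h0 h
  have k1 := q20_1 γ h0 h
  have k4 := q20_4 γ h0 h
  have k2 := q20_2 γ h0 h
  have k9 := q20_9 γ h0 h
  have k3 := q20_3 γ h0 h
  have k8 := q20_8 γ h0 h
  have k5 := q20_5 γ h0 h
  have k15 := q20_15 γ h0 h
  rw [m20_10]
  simp only [mm20_0, mm20_1, mm20_2, mm20_3, mm20_4, mm20_5, mm20_6, mm20_7, mm20_8, mm20_9, mm20_10]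
  linarith only [h0, k14, k0, k1, k4, k2, k9, k3, k8, k5, k15]

theorem main20 (γ : ℕ → ℝ) (h0 : γ 0 = 1)
    (h : ∀ n < 20, 2 * (((20 : ℕ) : ℝ) - ((n : ℕ) : ℝ)) * ∑ i ∈ range (20 / 2 + 1), γ i * (cfn 20 i n : ℝ) ≤
      ((n : ℝ) + 1) * ∑ i ∈ range (20 / 2 + 1), γ i * (cfn 20 i (n + 1) : ℝ)) :
    ∀ j ≤ 20 / 2, 0 < Mat 20 (Mat 20 (Mat 20 γ)) j := by
  intro j hj
  have hj' : j ≤ 10 := hj
  clear hj
  interval_cases j
  · exact p20_0 γ h0 h
  · exact p20_1 γ h0 h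
  · exact p20_2 γ h0 h
  · exact p20_3 γ h0 h
  · exact p20_4 γ h0 h
  · exact p20_5 γ h0 h
  · exact p20_6 γ h0 h
  · exact p20_7 γ h0 h
  · exact p20_8 γ h0 h
  · exact p20_9 γ h0 h
  · exact p20_10 γ h0 h

theorem c21_0 (γ : ℕ → ℝ) : ∑ i ∈ range (21 / 2 + 1), γ i * (cfn 21 i 0 : ℝ) =
    (1) * γ 0 + (0) * γ 1 + (0) * γ 2 + (0) * γ 3 + (0) * γ 4 + (0) * γ 5 + (0) * γ 6 + (0) * γ 7
       + (0) * γ 8 + (0) * γ 9 + (0) * γ 10 := by
  have h : ((21 / 2 + 1 : ℕ)) = 11 := rfl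
  rw [h]
  simp only [sum_range_succ, sum_range_zero, show cfn 21 0 0 = 1 from by decide +kernel, show cfn 21 1 0 = 0 from by decide +kernel, show cfn 21 2 0 = 0 from by decide +kernel, show cfn 21 3 0 = 0 from by decide +kernel, show cfn 21 4 0 = 0 from by decide +kernel, show cfn 21 5 0 = 0 from by decide +kernel, show cfn 21 6 0 = 0 from by decide +kernel, show cfn 21 7 0 = 0 from by decide +kernel, show cfn 21 8 0 = 0 from by decide +kernel, show cfn 21 9 0 = 0 from by decide +kernel, show cfn 21 10 0 = 0 from by decide +kernel, Nat.cast_ofNat, Nat.cast_one, Nat.cast_zero]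
  ring

theorem c21_1 (γ : ℕ → ℝ) : ∑ i ∈ range (21 / 2 + 1), γ i * (cfn 21 i 1 : ℝ) =
    (42) * γ 0 + (1) * γ 1 + (0) * γ 2 + (0) * γ 3 + (0) * γ 4 + (0) * γ 5 + (0) * γ 6
       + (0) * γ 7 + (0) * γ 8 + (0) * γ 9 + (0) * γ 10 := by
  have h : ((21 / 2 + 1 : ℕ)) = 11 := rfl
  rw [h]
  simp only [sum_range_succ, sum_range_zero, show cfn 21 0 1 = 42 from by decide +kernel, show cfn 21 1 1 = 1 from by decide +kernel, show cfn 21 2 1 = 0 from by decide +kernel, show cfn 21 3 1 = 0 from by decide +kernel, show cfn 21 4 1 = 0 from by decide +kernel, show cfn 21 5 1 = 0 from by decide +kernel, show cfn 21 6 1 = 0 from by decide +kernel, show cfn 21 7 1 = 0 from by decide +kernel, show cfn 21 8 1 = 0 from by decide +kernel, show cfn 21 9 1 = 0 from by decide +kernel, show cfn 21 10 1 = 0 from by decide +kernel, Nat.cast_ofNat, Nat.cast_one, Nat.cast_zero]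
  ring

theorem c21_2 (γ : ℕ → ℝ) : ∑ i ∈ range (21 / 2 + 1), γ i * (cfn 21 i 2 : ℝ) =
    (840) * γ 0 + (39) * γ 1 + (1) * γ 2 + (0) * γ 3 + (0) * γ 4 + (0) * γ 5 + (0) * γ 6
       + (0) * γ 7 + (0) * γ 8 + (0) * γ 9 + (0) * γ 10 := by
  have h : ((21 / 2 + 1 : ℕ)) = 11 := rfl
  rw [h]
  simp only [sum_range_succ, sum_range_zero, show cfn 21 0 2 = 840 from by decide +kernel, show cfn 21 1 2 = 39 from by decide +kernel, show cfn 21 2 2 = 1 from by decide +kernel, show cfn 21 3 2 = 0 from by decide +kernel, show cfn 21 4 2 = 0 from by decide +kernel, show cfn 21 5 2 = 0 from by decide +kernel, show cfn 21 6 2 = 0 from by decide +kernel, show cfn 21 7 2 = 0 from by decide +kernel, show cfn 21 8 2 = 0 from by decide +kernel, show cfn 21 9 2 = 0 from by decide +kernel, show cfn 21 10 2 = 0 from by decide +kernel, Nat.cast_ofNat, Nat.cast_one, Nat.cast_zero]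
  ring

theorem c21_3 (γ : ℕ → ℝ) : ∑ i ∈ range (21 / 2 + 1), γ i * (cfn 21 i 3 : ℝ) =
    (10640) * γ 0 + (722) * γ 1 + (36) * γ 2 + (1) * γ 3 + (0) * γ 4 + (0) * γ 5 + (0) * γ 6
       + (0) * γ 7 + (0) * γ 8 + (0) * γ 9 + (0) * γ 10 := by
  have h : ((21 / 2 + 1 : ℕ)) = 11 := rfl
  rw [h]
  simp only [sum_range_succ, sum_range_zero, show cfn 21 0 3 = 10640 from by decide +kernel, show cfn 21 1 3 = 722 from by decide +kernel, show cfn 21 2 3 = 36 from by decide +kernel, show cfn 21 3 3 = 1 from by decide +kernel, show cfn 21 4 3 = 0 from by decide +kernel, show cfn 21 5 3 = 0 from by decide +kernel, show cfn 21 6 3 = 0 from by decide +kernel, show cfn 21 7 3 = 0 from by decide +kernel, show cfn 21 8 3 = 0 from by decide +kernel, show cfn 21 9 3 = 0 from by decide +kernel, show cfn 21 10 3 = 0 from by decide +kernel, Nat.cast_ofNat, Nat.cast_one, Nat.cast_zero]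
  ring

theorem c21_4 (γ : ℕ → ℝ) : ∑ i ∈ range (21 / 2 + 1), γ i * (cfn 21 i 4 : ℝ) =
    (95760) * γ 0 + (8436) * γ 1 + (613) * γ 2 + (33) * γ 3 + (1) * γ 4 + (0) * γ 5 + (0) * γ 6
       + (0) * γ 7 + (0) * γ 8 + (0) * γ 9 + (0) * γ 10 := by
  have h : ((21 / 2 + 1 : ℕ)) = 11 := rfl
  rw [h]
  simp only [sum_range_succ, sum_range_zero, show cfn 21 0 4 = 95760 from by decide +kernel, show cfn 21 1 4 = 8436 from by decide +kernel, show cfn 21 2 4 = 613 from by decide +kernel, show cfn 21 3 4 = 33 from by decide +kernel, show cfn 21 4 4 = 1 from by decide +kernel, show cfn 21 5 4 = 0 from by decide +kernel, show cfn 21 6 4 = 0 from by decide +kernel, show cfn 21 7 4 = 0 from by decide +kernel, show cfn 21 8 4 = 0 from by decide +kernel, show cfn 21 9 4 = 0 from by decide +kernel, show cfn 21 10 4 = 0 from by decide +kernel, Nat.cast_ofNat, Nat.cast_one, Nat.cast_zero]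
  ring

theorem c21_5 (γ : ℕ → ℝ) : ∑ i ∈ range (21 / 2 + 1), γ i * (cfn 21 i 5 : ℝ) =
    (651168) * γ 0 + (69768) * γ 1 + (6562) * γ 2 + (513) * γ 3 + (30) * γ 4 + (1) * γ 5
       + (0) * γ 6 + (0) * γ 7 + (0) * γ 8 + (0) * γ 9 + (0) * γ 10 := by
  have h : ((21 / 2 + 1 : ℕ)) = 11 := rfl
  rw [h]
  simp only [sum_range_succ, sum_range_zero, show cfn 21 0 5 = 651168 from by decide +kernel, show cfn 21 1 5 = 69768 from by decide +kernel, show cfn 21 2 5 = 6562 from by decide +kernel, show cfn 21 3 5 = 513 from by decide +kernel, show cfn 21 4 5 = 30 from by decide +kernel, show cfn 21 5 5 = 1 from by decide +kernel, show cfn 21 6 5 = 0 from by decide +kernel, show cfn 21 7 5 = 0 from by decide +kernel, show cfn 21 8 5 = 0 from by decide +kernel, show cfn 21 9 5 = 0 from by decide +kernel, show cfn 21 10 5 = 0 from by decide +kernel, Nat.cast_ofNat, Nat.cast_one, Nat.cast_zero]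
  ring

theorem c21_6 (γ : ℕ → ℝ) : ∑ i ∈ range (21 / 2 + 1), γ i * (cfn 21 i 6 : ℝ) =
    (3472896) * γ 0 + (434112) * γ 1 + (49504) * γ 2 + (4991) * γ 3 + (422) * γ 4 + (27) * γ 5
       + (1) * γ 6 + (0) * γ 7 + (0) * γ 8 + (0) * γ 9 + (0) * γ 10 := by
  have h : ((21 / 2 + 1 : ℕ)) = 11 := rfl
  rw [h]
  simp only [sum_range_succ, sum_range_zero, show cfn 21 0 6 = 3472896 from by decide +kernel, show cfn 21 1 6 = 434112 from by decide +kernel, show cfn 21 2 6 = 49504 from by decide +kernel, show cfn 21 3 6 = 4991 from by decide +kernel, show cfn 21 4 6 = 422 from by decide +kernel, show cfn 21 5 6 = 27 from by decide +kernel, show cfn 21 6 6 = 1 from by decide +kernel, show cfn 21 7 6 = 0 from by decide +kernel, show cfn 21 8 6 = 0 from by decide +kernel, show cfn 21 9 6 = 0 from by decide +kernel, show cfn 21 10 6 = 0 from by decide +kernel, Nat.cast_ofNat, Nat.cast_one, Nat.cast_zero]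
  ring

theorem c21_7 (γ : ℕ → ℝ) : ∑ i ∈ range (21 / 2 + 1), γ i * (cfn 21 i 7 : ℝ) =
    (14883840) * γ 0 + (2108544) * γ 1 + (279616) * γ 2 + (34050) * γ 3 + (3696) * γ 4
       + (340) * γ 5 + (24) * γ 6 + (1) * γ 7 + (0) * γ 8 + (0) * γ 9 + (0) * γ 10 := by
  have h : ((21 / 2 + 1 : ℕ)) = 11 := rfl
  rw [h]
  simp only [sum_range_succ, sum_range_zero, show cfn 21 0 7 = 14883840 from by decide +kernel, show cfn 21 1 7 = 2108544 from by decide +kernel, show cfn 21 2 7 = 279616 from by decide +kernel, show cfn 21 3 7 = 34050 from by decide +kernel, show cfn 21 4 7 = 3696 from by decide +kernel, show cfn 21 5 7 = 340 from by decide +kernel, show cfn 21 6 7 = 24 from by decide +kernel, show cfn 21 7 7 = 1 from by decide +kernel, show cfn 21 8 7 = 0 from by decide +kernel, show cfn 21 9 7 = 0 from by decide +kernel, show cfn 21 10 7 = 0 from by decide +kernel, Nat.cast_ofNat, Nat.cast_one, Nat.cast_zero]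
  ring

theorem c21_8 (γ : ℕ → ℝ) : ∑ i ∈ range (21 / 2 + 1), γ i * (cfn 21 i 8 : ℝ) =
    (52093440) * γ 0 + (8186112) * γ 1 + (1226176) * γ 2 + (172956) * γ 3 + (22569) * γ 4
       + (2650) * γ 5 + (267) * γ 6 + (21) * γ 7 + (1) * γ 8 + (0) * γ 9 + (0) * γ 10 := by
  have h : ((21 / 2 + 1 : ℕ)) = 11 := rfl
  rw [h]
  simp only [sum_range_succ, sum_range_zero, show cfn 21 0 8 = 52093440 from by decide +kernel, show cfn 21 1 8 = 8186112 from by decide +kernel, show cfn 21 2 8 = 1226176 from by decide +kernel, show cfn 21 3 8 = 172956 from by decide +kernel, show cfn 21 4 8 = 22569 from by decide +kernel, show cfn 21 5 8 = 2650 from by decide +kernel, show cfn 21 6 8 = 267 from by decide +kernel, show cfn 21 7 8 = 21 from by decide +kernel, show cfn 21 8 8 = 1 from by decide +kernel, show cfn 21 9 8 = 0 from by decide +kernel, show cfn 21 10 8 = 0 from by decide +kernel, Nat.cast_ofNat, Nat.cast_one,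 Nat.cast_zero]
  ring

theorem c21_9 (γ : ℕ → ℝ) : ∑ i ∈ range (21 / 2 + 1), γ i * (cfn 21 i 9 : ℝ) =
    (150492160) * γ 0 + (25798656) * γ 1 + (4271488) * γ 2 + (677768) * γ 3 + (101946) * γ 4
       + (14305) * γ 5 + (1826) * γ 6 + (203) * γ 7 + (18) * γ 8 + (1) * γ 9 + (0) * γ 10 := by
  have h : ((21 / 2 + 1 : ℕ)) = 11 := rfl
  rw [h]
  simp only [sum_range_succ, sum_range_zero, show cfn 21 0 9 = 150492160 from by decide +kernel, show cfn 21 1 9 = 25798656 from by decide +kernel, show cfn 21 2 9 = 4271488 from by decide +kernel, show cfn 21 3 9 = 677768 from by decide +kernel, show cfn 21 4 9 = 101946 from by decide +kernel, show cfn 21 5 9 = 14305 from by decide +kernel, show cfn 21 6 9 = 1826 from by decide +kernel, show cfn 21 7 9 = 203 from by decide +kernel, show cfn 21 8 9 = 18 from by decide +kernel, show cfn 21 9 9 = 1 from by decide +kernel, show cfn 21 10 9 = 0 from by decide +kernel,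 Nat.cast_ofNat, Nat.cast_one, Nat.cast_zero]
  ring

theorem c21_10 (γ : ℕ → ℝ) : ∑ i ∈ range (21 / 2 + 1), γ i * (cfn 21 i 10 : ℝ) =
    (361181184) * γ 0 + (66646528) * γ 1 + (11994112) * γ 2 + (2094768) * γ 3 + (352664) * γ 4
       + (56695) * γ 5 + (8583) * γ 6 + (1197) * γ 7 + (148) * γ 8 + (15) * γ 9 + (1) * γ 10 := by
  have h : ((21 / 2 + 1 : ℕ)) = 11 := rfl
  rw [h]
  simp only [sum_range_succ, sum_range_zero, show cfn 21 0 10 = 361181184 from by decide +kernel, show cfn 21 1 10 = 66646528 from by decide +kernel, show cfn 21 2 10 = 11994112 from by decide +kernel, show cfn 21 3 10 = 2094768 from by decide +kernel, show cfn 21 4 10 = 352664 from by decide +kernel, show cfn 21 5 10 = 56695 from by decide +kernel, show cfn 21 6 10 = 8583 from by decide +kernel, show cfn 21 7 10 = 1197 from by decide +kernel, show cfn 21 8 10 = 148 from by decide +kernel, show cfn 21 9 10 = 15 from by decide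 +kernel, show cfn 21 10 10 = 1 from by decide +kernel, Nat.cast_ofNat, Nat.cast_one, Nat.cast_zero]
  ring

theorem c21_11 (γ : ℕ → ℝ) : ∑ i ∈ range (21 / 2 + 1), γ i * (cfn 21 i 11 : ℝ) =
    (722362368) * γ 0 + (141892608) * γ 1 + (27382784) * γ 2 + (5175456) * γ 3 + (954096) * γ 4
       + (170610) * γ 5 + (29364) * γ 6 + (4809) * γ 7 + (736) * γ 8 + (102) * γ 9 + (12) * γ 10 := by
  have h : ((21 / 2 + 1 : ℕ)) = 11 := rfl
  rw [h]
  simp only [sum_range_succ, sum_range_zero, show cfn 21 0 11 = 722362368 from by decide +kernel, show cfn 21 1 11 = 141892608 from by decide +kernel, show cfn 21 2 11 = 27382784 from by decide +kernel, show cfn 21 3 11 = 5175456 from by decide +kernel, show cfn 21 4 11 = 954096 from by decide +kernel, show cfn 21 5 11 = 170610 from by decide +kernel, show cfn 21 6 11 = 29364 from by decide +kernel, show cfn 21 7 11 = 4809 from by decide +kernel, show cfn 21 8 11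 = 736 from by decide +kernel, show cfn 21 9 11 = 102 from by decide +kernel, show cfn 21 10 11 = 12 from by decide +kernel, Nat.cast_ofNat, Nat.cast_one, Nat.cast_zero]
  ring

theorem c21_12 (γ : ℕ → ℝ) : ∑ i ∈ range (21 / 2 + 1), γ i * (cfn 21 i 12 : ℝ) =
    (1203937280) * γ 0 + (249387008) * γ 1 + (51031552) * γ 2 + (10296000) * γ 3
       + (2043184) * γ 4 + (397540) * γ 5 + (75517) * γ 6 + (13923) * γ 7 + (2470) * γ 8
       + (416) * γ 9 + (65) * γ 10 := by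
  have h : ((21 / 2 + 1 : ℕ)) = 11 := rfl
  rw [h]
  simp only [sum_range_succ, sum_range_zero, show cfn 21 0 12 = 1203937280 from by decide +kernel, show cfn 21 1 12 = 249387008 from by decide +kernel, show cfn 21 2 12 = 51031552 from by decide +kernel, show cfn 21 3 12 = 10296000 from by decide +kernel, show cfn 21 4 12 = 2043184 from by decide +kernel, show cfn 21 5 12 = 397540 from by decide +kernel, show cfn 21 6 12 = 75517 from by decide +kernel, show cfn 21 7 12 = 13923 from by decide +kernel, show cfn 21 8 12 = 2470 from by decide +kernel, show cfn 21 9 12 = 416 from by decide +kernel, show cfn 21 10 12 = 65 from by decide +kernel, Nat.cast_ofNat, Nat.cast_one, Nat.cast_zero]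
  ring

theorem c21_13 (γ : ℕ → ℝ) : ∑ i ∈ range (21 / 2 + 1), γ i * (cfn 21 i 13 : ℝ) =
    (1666990080) * γ 0 + (361181184) * γ 1 + (77622272) * γ 2 + (16528512) * γ 3
       + (3482336) * γ 4 + (724680) * γ 5 + (148626) * γ 6 + (29953) * γ 7 + (5908) * γ 8
       + (1134) * γ 9 + (210) * γ 10 := by
  have h : ((21 / 2 + 1 : ℕ)) = 11 := rfl
  rw [h]
  simp only [sum_range_succ, sum_range_zero, show cfn 21 0 13 = 1666990080 from by decide +kernel, show cfn 21 1 13 = 361181184 from by decide +kernel, show cfn 21 2 13 = 77622272 from by decide +kernel, show cfn 21 3 13 = 16528512 from by decide +kernel, show cfn 21 4 13 = 3482336 from by decide +kernel, show cfn 21 5 13 = 724680 from by decide +kernel, show cfn 21 6 13 = 148626 from by decide +kernel, show cfn 21 7 13 = 29953 from by decide +kernel, show cfn 21 8 13 = 5908 from by decide +kernel, show cfn 21 9 13 = 1134 from by decide +kernel,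 show cfn 21 10 13 = 210 from by decide +kernel, Nat.cast_ofNat, Nat.cast_one, Nat.cast_zero]
  ring

theorem c21_14 (γ : ℕ → ℝ) : ∑ i ∈ range (21 / 2 + 1), γ i * (cfn 21 i 14 : ℝ) =
    (1905131520) * γ 0 + (428654592) * γ 1 + (95952896) * γ 2 + (21355776) * γ 3
       + (4722432) * γ 4 + (1036640) * γ 5 + (225648) * γ 6 + (48639) * γ 7 + (10364) * γ 8
       + (2178) * γ 9 + (450) * γ 10 := by
  have h : ((21 / 2 + 1 : ℕ)) = 11 := rfl
  rw [h]
  simp only [sum_range_succ, sum_range_zero, show cfn 21 0 14 = 1905131520 from by decide +kernel, show cfn 21 1 14 = 428654592 from by decide +kernel, show cfn 21 2 14 = 95952896 from by decide +kernel, show cfn 21 3 14 = 21355776 from by decide +kernel, show cfn 21 4 14 = 4722432 from by decide +kernel, show cfn 21 5 14 = 1036640 from by decide +kernel, show cfn 21 6 14 = 225648 from by decide +kernel, show cfn 21 7 14 = 48639 from by decide +kernel,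 show cfn 21 8 14 = 10364 from by decide +kernel, show cfn 21 9 14 = 2178 from by decide +kernel, show cfn 21 10 14 = 450 from by decide +kernel, Nat.cast_ofNat, Nat.cast_one, Nat.cast_zero]
  ring

theorem c21_15 (γ : ℕ → ℝ) : ∑ i ∈ range (21 / 2 + 1), γ i * (cfn 21 i 15 : ℝ) =
    (1778122752) * γ 0 + (412778496) * γ 1 + (95535104) * γ 2 + (22038016) * γ 3
       + (5065216) * γ 4 + (1159488) * γ 5 + (264224) * γ 6 + (59906) * γ 7 + (13504) * γ 8
       + (3024) * γ 9 + (672) * γ 10 := by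
  have h : ((21 / 2 + 1 : ℕ)) = 11 := rfl
  rw [h]
  simp only [sum_range_succ, sum_range_zero, show cfn 21 0 15 = 1778122752 from by decide +kernel, show cfn 21 1 15 = 412778496 from by decide +kernel, show cfn 21 2 15 = 95535104 from by decide +kernel, show cfn 21 3 15 = 22038016 from by decide +kernel, show cfn 21 4 15 = 5065216 from by decide +kernel, show cfn 21 5 15 = 1159488 from by decide +kernel, show cfn 21 6 15 = 264224 from by decide +kernel, show cfn 21 7 15 = 59906 from by decide +kernel, show cfn 21 8 15 = 13504 from by decide +kernel, show cfn 21 9 15 = 3024 from by decide +kernel, show cfn 21 10 15 = 672 from by decide +kernel, Nat.cast_ofNat, Nat.cast_one, Nat.cast_zero]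
  ring

theorem c21_16 (γ : ℕ → ℝ) : ∑ i ∈ range (21 / 2 + 1), γ i * (cfn 21 i 16 : ℝ) =
    (1333592064) * γ 0 + (317521920) * γ 1 + (75481088) * γ 2 + (17912832) * γ 3
       + (4243200) * γ 4 + (1003136) * γ 5 + (236640) * γ 6 + (55692) * γ 7 + (13073) * γ 8
       + (3060) * γ 9 + (714) * γ 10 := by
  have h : ((21 / 2 + 1 : ℕ)) = 11 := rfl
  rw [h]
  simp only [sum_range_succ, sum_range_zero, show cfn 21 0 16 = 1333592064 from by decide +kernel, show cfn 21 1 16 = 317521920 from by decide +kernel, show cfn 21 2 16 = 75481088 from by decide +kernel, show cfn 21 3 16 = 17912832 from by decide +kernel, show cfn 21 4 16 = 4243200 from by decide +kernel, show cfn 21 5 16 = 1003136 from by decide +kernel, show cfn 21 6 16 = 236640 from by decide +kernel, show cfn 21 7 16 = 55692 from by decide +kernel, show cfn 21 8 16 = 13073 from by decide +kernel, show cfn 21 9 16 = 3060 from by decide +kernel,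 show cfn 21 10 16 = 714 from by decide +kernel, Nat.cast_ofNat, Nat.cast_one, Nat.cast_zero]
  ring

theorem q21_0 (γ : ℕ → ℝ) (h0 : γ 0 = 1)
    (h : ∀ n < 21, 2 * (((21 : ℕ) : ℝ) - ((n : ℕ) : ℝ)) * ∑ i ∈ range (21 / 2 + 1), γ i * (cfn 21 i n : ℝ) ≤
      ((n : ℝ) + 1) * ∑ i ∈ range (21 / 2 + 1), γ i * (cfn 21 i (n + 1) : ℝ)) :
    0 ≤ (0) * γ 0 + (1) * γ 1 + (0) * γ 2 + (0) * γ 3 + (0) * γ 4 + (0) * γ 5 + (0) * γ 6 + (0) * γ 7
       + (0) * γ 8 + (0) * γ 9 + (0) * γ 10 := by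
  have h1 := h 0 (by norm_num)
  rw [show 0 + 1 = 1 from rfl, c21_0, c21_1] at h1
  norm_num [h0] at h1 ⊢
  linarith

theorem q21_1 (γ : ℕ → ℝ) (h0 : γ 0 = 1)
    (h : ∀ n < 21, 2 * (((21 : ℕ) : ℝ) - ((n : ℕ) : ℝ)) * ∑ i ∈ range (21 / 2 + 1), γ i * (cfn 21 i n : ℝ) ≤
      ((n : ℝ) + 1) * ∑ i ∈ range (21 / 2 + 1), γ i * (cfn 21 i (n + 1) : ℝ)) :
    0 ≤ (0) * γ 0 + (38) * γ 1 + (2) * γ 2 + (0) * γ 3 + (0) * γ 4 + (0) * γ 5 + (0) * γ 6
       + (0) * γ 7 + (0) * γ 8 + (0) * γ 9 + (0) * γ 10 := by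
  have h1 := h 1 (by norm_num)
  rw [show 1 + 1 = 2 from rfl, c21_1, c21_2] at h1
  norm_num [h0] at h1 ⊢
  linarith

theorem q21_2 (γ : ℕ → ℝ) (h0 : γ 0 = 1)
    (h : ∀ n < 21, 2 * (((21 : ℕ) : ℝ) - ((n : ℕ) : ℝ)) * ∑ i ∈ range (21 / 2 + 1), γ i * (cfn 21 i n : ℝ) ≤
      ((n : ℝ) + 1) * ∑ i ∈ range (21 / 2 + 1), γ i * (cfn 21 i (n + 1) : ℝ)) :
    0 ≤ (0) * γ 0 + (684) * γ 1 + (70) * γ 2 + (3) * γ 3 + (0) * γ 4 + (0) * γ 5 + (0) * γ 6
       + (0) * γ 7 + (0) * γ 8 + (0) * γ 9 + (0) * γ 10 := by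
  have h1 := h 2 (by norm_num)
  rw [show 2 + 1 = 3 from rfl, c21_2, c21_3] at h1
  norm_num [h0] at h1 ⊢
  linarith

theorem q21_3 (γ : ℕ → ℝ) (h0 : γ 0 = 1)
    (h : ∀ n < 21, 2 * (((21 : ℕ) : ℝ) - ((n : ℕ) : ℝ)) * ∑ i ∈ range (21 / 2 + 1), γ i * (cfn 21 i n : ℝ) ≤
      ((n : ℝ) + 1) * ∑ i ∈ range (21 / 2 + 1), γ i * (cfn 21 i (n + 1) : ℝ)) :
    0 ≤ (0) * γ 0 + (7752) * γ 1 + (1156) * γ 2 + (96) * γ 3 + (4) * γ 4 + (0) * γ 5 + (0) * γ 6
       + (0) * γ 7 + (0) * γ 8 + (0) * γ 9 + (0) * γ 10 := by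
  have h1 := h 3 (by norm_num)
  rw [show 3 + 1 = 4 from rfl, c21_3, c21_4] at h1
  norm_num [h0] at h1 ⊢
  linarith

theorem q21_4 (γ : ℕ → ℝ) (h0 : γ 0 = 1)
    (h : ∀ n < 21, 2 * (((21 : ℕ) : ℝ) - ((n : ℕ) : ℝ)) * ∑ i ∈ range (21 / 2 + 1), γ i * (cfn 21 i n : ℝ) ≤
      ((n : ℝ) + 1) * ∑ i ∈ range (21 / 2 + 1), γ i * (cfn 21 i (n + 1) : ℝ)) :
    0 ≤ (0) * γ 0 + (62016) * γ 1 + (11968) * γ 2 + (1443) * γ 3 + (116) * γ 4 + (5) * γ 5
       + (0) * γ 6 + (0) * γ 7 + (0) * γ 8 + (0) * γ 9 + (0) * γ 10 := by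
  have h1 := h 4 (by norm_num)
  rw [show 4 + 1 = 5 from rfl, c21_4, c21_5] at h1
  norm_num [h0] at h1 ⊢
  linarith

theorem q21_5 (γ : ℕ → ℝ) (h0 : γ 0 = 1)
    (h : ∀ n < 21, 2 * (((21 : ℕ) : ℝ) - ((n : ℕ) : ℝ)) * ∑ i ∈ range (21 / 2 + 1), γ i * (cfn 21 i n : ℝ) ≤
      ((n : ℝ) + 1) * ∑ i ∈ range (21 / 2 + 1), γ i * (cfn 21 i (n + 1) : ℝ)) :
    0 ≤ (0) * γ 0 + (372096) * γ 1 + (87040) * γ 2 + (13530) * γ 3 + (1572) * γ 4 + (130) * γ 5
       + (6) * γ 6 + (0) * γ 7 + (0) * γ 8 + (0) * γ 9 + (0) * γ 10 := by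
  have h1 := h 5 (by norm_num)
  rw [show 5 + 1 = 6 from rfl, c21_5, c21_6] at h1
  norm_num [h0] at h1 ⊢
  linarith

theorem q21_6 (γ : ℕ → ℝ) (h0 : γ 0 = 1)
    (h : ∀ n < 21, 2 * (((21 : ℕ) : ℝ) - ((n : ℕ) : ℝ)) * ∑ i ∈ range (21 / 2 + 1), γ i * (cfn 21 i n : ℝ) ≤
      ((n : ℝ) + 1) * ∑ i ∈ range (21 / 2 + 1), γ i * (cfn 21 i (n + 1) : ℝ)) :
    0 ≤ (0) * γ 0 + (1736448) * γ 1 + (472192) * γ 2 + (88620) * γ 3 + (13212) * γ 4 + (1570) * γ 5
       + (138) * γ 6 + (7) * γ 7 + (0) * γ 8 + (0) * γ 9 + (0) * γ 10 := by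
  have h1 := h 6 (by norm_num)
  rw [show 6 + 1 = 7 from rfl, c21_6, c21_7] at h1
  norm_num [h0] at h1 ⊢
  linarith

theorem q21_7 (γ : ℕ → ℝ) (h0 : γ 0 = 1)
    (h : ∀ n < 21, 2 * (((21 : ℕ) : ℝ) - ((n : ℕ) : ℝ)) * ∑ i ∈ range (21 / 2 + 1), γ i * (cfn 21 i n : ℝ) ≤
      ((n : ℝ) + 1) * ∑ i ∈ range (21 / 2 + 1), γ i * (cfn 21 i (n + 1) : ℝ)) :
    0 ≤ (0) * γ 0 + (6449664) * γ 1 + (1980160) * γ 2 + (430248) * γ 3 + (77064) * γ 4
       + (11680) * γ 5 + (1464) * γ 6 + (140) * γ 7 + (8) * γ 8 + (0) * γ 9 + (0) * γ 10 := by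
  have h1 := h 7 (by norm_num)
  rw [show 7 + 1 = 8 from rfl, c21_7, c21_8] at h1
  norm_num [h0] at h1 ⊢
  linarith

theorem q21_8 (γ : ℕ → ℝ) (h0 : γ 0 = 1)
    (h : ∀ n < 21, 2 * (((21 : ℕ) : ℝ) - ((n : ℕ) : ℝ)) * ∑ i ∈ range (21 / 2 + 1), γ i * (cfn 21 i n : ℝ) ≤
      ((n : ℝ) + 1) * ∑ i ∈ range (21 / 2 + 1), γ i * (cfn 21 i (n + 1) : ℝ)) :
    0 ≤ (0) * γ 0 + (19348992) * γ 1 + (6562816) * γ 2 + (1603056) * γ 3 + (330720) * γ 4
       + (59845) * γ 5 + (9492) * γ 6 + (1281) * γ 7 + (136) * γ 8 + (9) * γ 9 + (0) * γ 10 := by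
  have h1 := h 8 (by norm_num)
  rw [show 8 + 1 = 9 from rfl, c21_8, c21_9] at h1
  norm_num [h0] at h1 ⊢
  linarith

theorem q21_9 (γ : ℕ → ℝ) (h0 : γ 0 = 1)
    (h : ∀ n < 21, 2 * (((21 : ℕ) : ℝ) - ((n : ℕ) : ℝ)) * ∑ i ∈ range (21 / 2 + 1), γ i * (cfn 21 i n : ℝ) ≤
      ((n : ℝ) + 1) * ∑ i ∈ range (21 / 2 + 1), γ i * (cfn 21 i (n + 1) : ℝ)) :
    0 ≤ (0) * γ 0 + (47297536) * γ 1 + (17425408) * γ 2 + (4681248) * γ 3 + (1079936) * γ 4
       + (223630) * γ 5 + (42006) * γ 6 + (7098) * γ 7 + (1048) * γ 8 + (126) * γ 9 + (10) * γ 10 := by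
  have h1 := h 9 (by norm_num)
  rw [show 9 + 1 = 10 from rfl, c21_9, c21_10] at h1
  norm_num [h0] at h1 ⊢
  linarith

theorem q21_10 (γ : ℕ → ℝ) (h0 : γ 0 = 1)
    (h : ∀ n < 21, 2 * (((21 : ℕ) : ℝ) - ((n : ℕ) : ℝ)) * ∑ i ∈ range (21 / 2 + 1), γ i * (cfn 21 i n : ℝ) ≤
      ((n : ℝ) + 1) * ∑ i ∈ range (21 / 2 + 1), γ i * (cfn 21 i (n + 1) : ℝ)) :
    0 ≤ (0) * γ 0 + (94595072) * γ 1 + (37340160) * γ 2 + (10845120) * γ 3 + (2736448) * γ 4
       + (629420) * γ 5 + (134178) * γ 6 + (26565) * γ 7 + (4840) * γ 8 + (792) * γ 9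
       + (110) * γ 10 := by
  have h1 := h 10 (by norm_num)
  rw [show 10 + 1 = 11 from rfl, c21_10, c21_11] at h1
  norm_num [h0] at h1 ⊢
  linarith

theorem q21_11 (γ : ℕ → ℝ) (h0 : γ 0 = 1)
    (h : ∀ n < 21, 2 * (((21 : ℕ) : ℝ) - ((n : ℕ) : ℝ)) * ∑ i ∈ range (21 / 2 + 1), γ i * (cfn 21 i n : ℝ) ≤
      ((n : ℝ) + 1) * ∑ i ∈ range (21 / 2 + 1), γ i * (cfn 21 i (n + 1) : ℝ)) :
    0 ≤ (0) * γ 0 + (154791936) * γ 1 + (64722944) * γ 2 + (20042880) * γ 3 + (5436288) * γ 4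
       + (1358280) * γ 5 + (318924) * γ 6 + (70896) * γ 7 + (14920) * γ 8 + (2952) * γ 9
       + (540) * γ 10 := by
  have h1 := h 11 (by norm_num)
  rw [show 11 + 1 = 12 from rfl, c21_11, c21_12] at h1
  norm_num [h0] at h1 ⊢
  linarith

theorem q21_12 (γ : ℕ → ℝ) (h0 : γ 0 = 1)
    (h : ∀ n < 21, 2 * (((21 : ℕ) : ℝ) - ((n : ℕ) : ℝ)) * ∑ i ∈ range (21 / 2 + 1), γ i * (cfn 21 i n : ℝ) ≤
      ((n : ℝ) + 1) * ∑ i ∈ range (21 / 2 + 1), γ i * (cfn 21 i (n + 1) : ℝ)) :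
    0 ≤ (0) * γ 0 + (206389248) * γ 1 + (90521600) * γ 2 + (29542656) * γ 3 + (8493056) * γ 4
       + (2265120) * γ 5 + (572832) * γ 6 + (138775) * γ 7 + (32344) * γ 8 + (7254) * γ 9
       + (1560) * γ 10 := by
  have h1 := h 12 (by norm_num)
  rw [show 12 + 1 = 13 from rfl, c21_12, c21_13] at h1
  norm_num [h0] at h1 ⊢
  linarith

theorem q21_13 (γ : ℕ → ℝ) (h0 : γ 0 = 1)
    (h : ∀ n < 21, 2 * (((21 : ℕ) : ℝ) - ((n : ℕ) : ℝ)) * ∑ i ∈ range (21 / 2 + 1), γ i * (cfn 21 i n : ℝ) ≤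
      ((n : ℝ) + 1) * ∑ i ∈ range (21 / 2 + 1), γ i * (cfn 21 i (n + 1) : ℝ)) :
    0 ≤ (0) * γ 0 + (222265344) * γ 1 + (101384192) * γ 2 + (34524672) * γ 3 + (10396672) * γ 4
       + (2918080) * γ 5 + (781056) * γ 6 + (201698) * γ 7 + (50568) * γ 8 + (12348) * γ 9
       + (2940) * γ 10 := by
  have h1 := h 13 (by norm_num)
  rw [show 13 + 1 = 14 from rfl, c21_13, c21_14] at h1
  norm_num [h0] at h1 ⊢
  linarith

theorem q21_14 (γ : ℕ → ℝ) (h0 : γ 0 = 1)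
    (h : ∀ n < 21, 2 * (((21 : ℕ) : ℝ) - ((n : ℕ) : ℝ)) * ∑ i ∈ range (21 / 2 + 1), γ i * (cfn 21 i n : ℝ) ≤
      ((n : ℝ) + 1) * ∑ i ∈ range (21 / 2 + 1), γ i * (cfn 21 i (n + 1) : ℝ)) :
    0 ≤ (0) * γ 0 + (190513152) * γ 1 + (89686016) * γ 2 + (31589376) * γ 3 + (9864192) * γ 4
       + (2879360) * γ 5 + (804288) * γ 6 + (217644) * γ 7 + (57464) * γ 8 + (14868) * γ 9
       + (3780) * γ 10 := by
  have h1 := h 14 (by norm_num)
  rw [show 14 + 1 = 15 from rfl, c21_14, c21_15] at h1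
  norm_num [h0] at h1 ⊢
  linarith

theorem q21_15 (γ : ℕ → ℝ) (h0 : γ 0 = 1)
    (h : ∀ n < 21, 2 * (((21 : ℕ) : ℝ) - ((n : ℕ) : ℝ)) * ∑ i ∈ range (21 / 2 + 1), γ i * (cfn 21 i n : ℝ) ≤
      ((n : ℝ) + 1) * ∑ i ∈ range (21 / 2 + 1), γ i * (cfn 21 i (n + 1) : ℝ)) :
    0 ≤ (0) * γ 0 + (127008768) * γ 1 + (61276160) * γ 2 + (22149120) * γ 3 + (7108608) * γ 4
       + (2136320) * γ 5 + (615552) * γ 6 + (172200) * γ 7 + (47120) * γ 8 + (12672) * γ 9
       + (3360) * γ 10 := by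
  have h1 := h 15 (by norm_num)
  rw [show 15 + 1 = 16 from rfl, c21_15, c21_16] at h1
  norm_num [h0] at h1 ⊢
  linarith

theorem m21_0 (γ : ℕ → ℝ) : Mat 21 γ 0 = (1) * γ 0 + (0) * γ 1 + (0) * γ 2 + (0) * γ 3 + (0) * γ 4 + (0) * γ 5 + (0) * γ 6 + (0) * γ 7
       + (0) * γ 8 + (0) * γ 9 + (0) * γ 10 := by
  unfold Mat
  rw [show (21 / 2 + 1 : ℕ) = 11 from rfl]
  simp [sum_range_succ, Nat.choose]
  try ring

theorem m21_1 (γ : ℕ → ℝ) : Mat 21 γ 1 = (840) * γ 0 + (40) * γ 1 + (1) * γ 2 + (0) * γ 3 + (0) * γ 4 + (0) * γ 5 + (0) * γ 6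
       + (0) * γ 7 + (0) * γ 8 + (0) * γ 9 + (0) * γ 10 := by
  unfold Mat
  rw [show (21 / 2 + 1 : ℕ) = 11 from rfl]
  simp [sum_range_succ, Nat.choose]
  try ring

theorem m21_2 (γ : ℕ → ℝ) : Mat 21 γ 2 = (95760) * γ 0 + (9120) * γ 1 + (684) * γ 2 + (36) * γ 3 + (1) * γ 4 + (0) * γ 5 + (0) * γ 6
       + (0) * γ 7 + (0) * γ 8 + (0) * γ 9 + (0) * γ 10 := by
  unfold Mat
  rw [show (21 / 2 + 1 : ℕ) = 11 from rfl]
  simp [sum_range_succ, Nat.choose]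
  try ring

theorem m21_3 (γ : ℕ → ℝ) : Mat 21 γ 3 = (3472896) * γ 0 + (496128) * γ 1 + (62016) * γ 2 + (6528) * γ 3 + (544) * γ 4 + (32) * γ 5
       + (1) * γ 6 + (0) * γ 7 + (0) * γ 8 + (0) * γ 9 + (0) * γ 10 := by
  unfold Mat
  rw [show (21 / 2 + 1 : ℕ) = 11 from rfl]
  simp [sum_range_succ, Nat.choose]
  try ring

theorem m21_4 (γ : ℕ → ℝ) : Mat 21 γ 4 = (52093440) * γ 0 + (9922560) * γ 1 + (1736448) * γ 2 + (274176) * γ 3 + (38080) * γ 4
       + (4480) * γ 5 + (420) * γ 6 + (28) * γ 7 + (1) * γ 8 + (0) * γ 9 + (0) * γ 10 := by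
  unfold Mat
  rw [show (21 / 2 + 1 : ℕ) = 11 from rfl]
  simp [sum_range_succ, Nat.choose]
  try ring

theorem m21_5 (γ : ℕ → ℝ) : Mat 21 γ 5 = (361181184) * γ 0 + (85995520) * γ 1 + (19348992) * γ 2 + (4073472) * γ 3 + (792064) * γ 4
       + (139776) * γ 5 + (21840) * γ 6 + (2912) * γ 7 + (312) * γ 8 + (24) * γ 9 + (1) * γ 10 := by
  unfold Mat
  rw [show (21 / 2 + 1 : ℕ) = 11 from rfl]
  simp [sum_range_succ, Nat.choose]
  try ring

theorem m21_6 (γ : ℕ → ℝ) : Mat 21 γ 6 = (1203937280) * γ 0 + (343982080) * γ 1 + (94595072) * γ 2 + (24893440) * γ 3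
       + (6223360) * γ 4 + (1464320) * γ 5 + (320320) * γ 6 + (64064) * γ 7 + (11440) * γ 8
       + (1760) * γ 9 + (220) * γ 10 := by
  unfold Mat
  rw [show (21 / 2 + 1 : ℕ) = 11 from rfl]
  simp [sum_range_succ, Nat.choose]
  try ring

theorem m21_7 (γ : ℕ → ℝ) : Mat 21 γ 7 = (1905131520) * γ 0 + (635043840) * γ 1 + (206389248) * γ 2 + (65175552) * γ 3
       + (19914752) * γ 4 + (5857280) * γ 5 + (1647360) * γ 6 + (439296) * γ 7 + (109824) * γ 8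
       + (25344) * γ 9 + (5280) * γ 10 := by
  unfold Mat
  rw [show (21 / 2 + 1 : ℕ) = 11 from rfl]
  simp [sum_range_succ, Nat.choose]
  try ring

theorem m21_8 (γ : ℕ → ℝ) : Mat 21 γ 8 = (1333592064) * γ 0 + (508035072) * γ 1 + (190513152) * γ 2 + (70189056) * γ 3
       + (25346048) * γ 4 + (8945664) * γ 5 + (3075072) * γ 6 + (1025024) * γ 7 + (329472) * γ 8
       + (101376) * γ 9 + (29568) * γ 10 := by
  unfold Mat
  rw [show (21 / 2 + 1 : ℕ) = 11 from rfl]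
  simp [sum_range_succ, Nat.choose]
  try ring

theorem m21_9 (γ : ℕ → ℝ) : Mat 21 γ 9 = (348651520) * γ 0 + (149422080) * γ 1 + (63504384) * γ 2 + (26738688) * γ 3
       + (11141120) * γ 4 + (4587520) * γ 5 + (1863680) * γ 6 + (745472) * γ 7 + (292864) * γ 8
       + (112640) * γ 9 + (42240) * γ 10 := by
  unfold Mat
  rw [show (21 / 2 + 1 : ℕ) = 11 from rfl]
  simp [sum_range_succ, Nat.choose]
  try ring

theorem m21_10 (γ : ℕ → ℝ) : Mat 21 γ 10 = (22020096) * γ 0 + (10485760) * γ 1 + (4980736) * γ 2 + (2359296) * γ 3 + (1114112) * γ 4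
       + (524288) * γ 5 + (245760) * γ 6 + (114688) * γ 7 + (53248) * γ 8 + (24576) * γ 9
       + (11264) * γ 10 := by
  unfold Mat
  rw [show (21 / 2 + 1 : ℕ) = 11 from rfl]
  simp [sum_range_succ, Nat.choose]
  try ring

theorem mm21_0 (γ : ℕ → ℝ) : Mat 21 (Mat 21 γ) 0 =
      (1) * γ 0 + (0) * γ 1 + (0) * γ 2 + (0) * γ 3 + (0) * γ 4 + (0) * γ 5 + (0) * γ 6 + (0) * γ 7
       + (0) * γ 8 + (0) * γ 9 + (0) * γ 10 := by
  rw [m21_0]
  simp only [m21_0, m21_1, m21_2, m21_3, m21_4, m21_5, m21_6, m21_7, m21_8, m21_9, m21_10]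
  ring

theorem mm21_1 (γ : ℕ → ℝ) : Mat 21 (Mat 21 γ) 1 =
      (130200) * γ 0 + (10720) * γ 1 + (724) * γ 2 + (36) * γ 3 + (1) * γ 4 + (0) * γ 5 + (0) * γ 6
       + (0) * γ 7 + (0) * γ 8 + (0) * γ 9 + (0) * γ 10 := by
  rw [m21_1]
  simp only [m21_0, m21_1, m21_2, m21_3, m21_4, m21_5, m21_6, m21_7, m21_8, m21_9, m21_10]
  ring

theorem mm21_2 (γ : ℕ → ℝ) : Mat 21 (Mat 21 γ) 2 =
      (250374096) * γ 0 + (34386048) * γ 1 + (4446000) * γ 2 + (533808) * γ 3 + (58348) * γ 4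
       + (5632) * γ 5 + (456) * γ 6 + (28) * γ 7 + (1) * γ 8 + (0) * γ 9 + (0) * γ 10 := by
  rw [m21_2]
  simp only [m21_0, m21_1, m21_2, m21_3, m21_4, m21_5, m21_6, m21_7, m21_8, m21_9, m21_10]
  ring

theorem mm21_3 (γ : ℕ → ℝ) : Mat 21 (Mat 21 γ) 3 =
      (70130504192) * γ 0 + (12317865984) * γ 1 + (2106146048) * γ 2 + (349243648) * γ 3
       + (55898176) * γ 4 + (8583168) * γ 5 + (1254208) * γ 6 + (172480) * γ 7 + (21968) * γ 8
       + (2528) * γ 9 + (252) * γ 10 := by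
  rw [m21_3]
  simp only [m21_0, m21_1, m21_2, m21_3, m21_4, m21_5, m21_6, m21_7, m21_8, m21_9, m21_10]
  ring

theorem mm21_4 (γ : ℕ → ℝ) : Mat 21 (Mat 21 γ) 4 =
      (5288994869760) * γ 0 + (1078132449280) * γ 1 + (216707718144) * γ 2 + (42892459008) * γ 3
       + (8346191616) * γ 4 + (1593532416) * γ 5 + (297846528) * γ 6 + (54344192) * γ 7
       + (9645184) * γ 8 + (1657728) * γ 9 + (274288) * γ 10 := by
  rw [m21_4]
  simp only [m21_0, m21_1, m21_2, m21_3, m21_4, m21_5, m21_6, m21_7, m21_8, m21_9, m21_10]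
  ring

theorem mm21_5 (γ : ℕ → ℝ) : Mat 21 (Mat 21 γ) 5 =
      (140084204703744) * γ 0 + (31604198359040) * γ 1 + (7073774852096) * γ 2
       + (1569833760768) * γ 3 + (345195060736) * γ 4 + (75154948096) * γ 5 + (16186745856) * γ 6
       + (3445406720) * γ 7 + (723936512) * γ 8 + (149952000) * γ 9 + (30570176) * γ 10 := by
  rw [m21_5]
  simp only [m21_0, m21_1, m21_2, m21_3, m21_4, m21_5, m21_6, m21_7, m21_8, m21_9, m21_10]
  ring

theorem mm21_6 (γ : ℕ → ℝ) : Mat 21 (Mat 21 γ) 6 =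
      (1472452262830080) * γ 0 + (357848421171200) * γ 1 + (86563643760640) * γ 2
       + (20836887470080) * γ 3 + (4989554944000) * γ 4 + (1188173578240) * γ 5
       + (281273794560) * γ 6 + (66165929984) * γ 7 + (15459631616) * γ 8 + (3585939456) * γ 9
       + (825271040) * γ 10 := by
  rw [m21_6]
  simp only [m21_0, m21_1, m21_2, m21_3, m21_4, m21_5, m21_6, m21_7, m21_8, m21_9, m21_10]
  ring

theorem mm21_7 (γ : ℕ → ℝ) : Mat 21 (Mat 21 γ) 7 =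
      (6375262032887808) * γ 0 + (1640819548749824) * γ 1 + (421153906163712) * γ 2
       + (107790891024384) * γ 3 + (27505788928000) * γ 4 + (6996835696640) * γ 5
       + (1773960806400) * γ 6 + (448202489856) * γ 7 + (112825856000) * γ 8 + (28291473408) * γ 9
       + (7065039872) * γ 10 := by
  rw [m21_7]
  simp only [m21_0, m21_1, m21_2, m21_3, m21_4, m21_5, m21_6, m21_7, m21_8, m21_9, m21_10]
  ring

theorem mm21_8 (γ : ℕ → ℝ) : Mat 21 (Mat 21 γ) 8 =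
      (10944175842066432) * γ 0 + (2948911293530112) * γ 1 + (793379768893440) * γ 2
       + (213115617411072) * γ 3 + (57152665485312) * γ 4 + (15300839866368) * γ 5
       + (4089028608000) * γ 6 + (1090730590208) * γ 7 + (290383069184) * γ 8 + (77151240192) * γ 9
       + (20454592512) * γ 10 := by
  rw [m21_8]
  simp only [m21_0, m21_1, m21_2, m21_3, m21_4, m21_5, m21_6, m21_7, m21_8, m21_9, m21_10]
  ring

theorem mm21_9 (γ : ℕ → ℝ) : Mat 21 (Mat 21 γ) 9 =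
      (6431112273854464) * γ 0 + (1799444477509632) * γ 1 + (503121989337088) * γ 2
       + (140565903835136) * γ 3 + (39241655058432) * γ 4 + (10946202304512) * γ 5
       + (3050815881216) * γ 6 + (849555488768) * γ 7 + (236361547776) * γ 8 + (65698660352) * γ 9
       + (18243796992) * γ 10 := by
  rw [m21_9]
  simp only [m21_0, m21_1, m21_2, m21_3, m21_4, m21_5, m21_6, m21_7, m21_8, m21_9, m21_10]
  ring

theorem mm21_10 (γ : ℕ → ℝ) : Mat 21 (Mat 21 γ) 10 =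
      (850283216240640) * γ 0 + (245568722960384) * γ 1 + (70908059320320) * γ 2
       + (20470513532928) * γ 3 + (5908399390720) * γ 4 + (1704967798784) * γ 5
       + (491886477312) * γ 6 + (141877313536) * γ 7 + (40912617472) * γ 8 + (11794907136) * γ 9
       + (3399548928) * γ 10 := by
  rw [m21_10]
  simp only [m21_0, m21_1, m21_2, m21_3, m21_4, m21_5, m21_6, m21_7, m21_8, m21_9, m21_10]
  ring

theorem p21_0 (γ : ℕ → ℝ) (h0 : γ 0 = 1)
    (h : ∀ n < 21, 2 * (((21 : ℕ) : ℝ) - ((n : ℕ) : ℝ)) * ∑ i ∈ range (21 / 2 + 1), γ i * (cfn 21 i n : ℝ) ≤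
      ((n : ℝ) + 1) * ∑ i ∈ range (21 / 2 + 1), γ i * (cfn 21 i (n + 1) : ℝ)) :
    0 < Mat 21 (Mat 21 (Mat 21 γ)) 0 := by

  rw [m21_0]
  simp only [mm21_0, mm21_1, mm21_2, mm21_3, mm21_4, mm21_5, mm21_6, mm21_7, mm21_8, mm21_9, mm21_10]
  linarith only [h0]

theorem p21_1 (γ : ℕ → ℝ) (h0 : γ 0 = 1)
    (h : ∀ n < 21, 2 * (((21 : ℕ) : ℝ) - ((n : ℕ) : ℝ)) * ∑ i ∈ range (21 / 2 + 1), γ i * (cfn 21 i n : ℝ) ≤
      ((n : ℝ) + 1) * ∑ i ∈ range (21 / 2 + 1), γ i * (cfn 21 i (n + 1) : ℝ)) :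
    0 < Mat 21 (Mat 21 (Mat 21 γ)) 1 := by
  have k0 := q21_0 γ h0 h
  have k6 := q21_6 γ h0 h
  have k1 := q21_1 γ h0 h
  have k2 := q21_2 γ h0 h
  have k3 := q21_3 γ h0 h
  have k4 := q21_4 γ h0 h
  have k7 := q21_7 γ h0 h
  have k5 := q21_5 γ h0 h
  rw [m21_1]
  simp only [mm21_0, mm21_1, mm21_2, mm21_3, mm21_4, mm21_5, mm21_6, mm21_7, mm21_8, mm21_9, mm21_10]
  linarith only [h0, k0, k6, k1, k2, k3, k4, k7, k5]

theorem p21_2 (γ : ℕ → ℝ) (h0 : γ 0 = 1)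
    (h : ∀ n < 21, 2 * (((21 : ℕ) : ℝ) - ((n : ℕ) : ℝ)) * ∑ i ∈ range (21 / 2 + 1), γ i * (cfn 21 i n : ℝ) ≤
      ((n : ℝ) + 1) * ∑ i ∈ range (21 / 2 + 1), γ i * (cfn 21 i (n + 1) : ℝ)) :
    0 < Mat 21 (Mat 21 (Mat 21 γ)) 2 := by
  have k0 := q21_0 γ h0 h
  have k1 := q21_1 γ h0 h
  have k2 := q21_2 γ h0 h
  have k3 := q21_3 γ h0 h
  have k7 := q21_7 γ h0 h
  have k10 := q21_10 γ h0 h
  have k5 := q21_5 γ h0 h
  have k11 := q21_11 γ h0 h
  have k4 := q21_4 γ h0 h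
  have k8 := q21_8 γ h0 h
  rw [m21_2]
  simp only [mm21_0, mm21_1, mm21_2, mm21_3, mm21_4, mm21_5, mm21_6, mm21_7, mm21_8, mm21_9, mm21_10]
  linarith only [h0, k0, k1, k2, k3, k7, k10, k5, k11, k4, k8]

theorem p21_3 (γ : ℕ → ℝ) (h0 : γ 0 = 1)
    (h : ∀ n < 21, 2 * (((21 : ℕ) : ℝ) - ((n : ℕ) : ℝ)) * ∑ i ∈ range (21 / 2 + 1), γ i * (cfn 21 i n : ℝ) ≤
      ((n : ℝ) + 1) * ∑ i ∈ range (21 / 2 + 1), γ i * (cfn 21 i (n + 1) : ℝ)) :
    0 < Mat 21 (Mat 21 (Mat 21 γ)) 3 := by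
  have k0 := q21_0 γ h0 h
  have k2 := q21_2 γ h0 h
  have k9 := q21_9 γ h0 h
  have k1 := q21_1 γ h0 h
  have k3 := q21_3 γ h0 h
  have k8 := q21_8 γ h0 h
  have k12 := q21_12 γ h0 h
  have k4 := q21_4 γ h0 h
  have k5 := q21_5 γ h0 h
  have k13 := q21_13 γ h0 h
  rw [m21_3]
  simp only [mm21_0, mm21_1, mm21_2, mm21_3, mm21_4, mm21_5, mm21_6, mm21_7, mm21_8, mm21_9, mm21_10]
  linarith only [h0, k0, k2, k9, k1, k3, k8, k12, k4, k5, k13]

theorem p21_4 (γ : ℕ → ℝ) (h0 : γ 0 = 1)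
    (h : ∀ n < 21, 2 * (((21 : ℕ) : ℝ) - ((n : ℕ) : ℝ)) * ∑ i ∈ range (21 / 2 + 1), γ i * (cfn 21 i n : ℝ) ≤
      ((n : ℝ) + 1) * ∑ i ∈ range (21 / 2 + 1), γ i * (cfn 21 i (n + 1) : ℝ)) :
    0 < Mat 21 (Mat 21 (Mat 21 γ)) 4 := by
  have k1 := q21_1 γ h0 h
  have k0 := q21_0 γ h0 h
  have k2 := q21_2 γ h0 h
  have k9 := q21_9 γ h0 h
  have k13 := q21_13 γ h0 h
  have k12 := q21_12 γ h0 h
  have k3 := q21_3 γ h0 h
  have k8 := q21_8 γ h0 h
  have k5 := q21_5 γ h0 h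
  have k6 := q21_6 γ h0 h
  rw [m21_4]
  simp only [mm21_0, mm21_1, mm21_2, mm21_3, mm21_4, mm21_5, mm21_6, mm21_7, mm21_8, mm21_9, mm21_10]
  linarith only [h0, k1, k0, k2, k9, k13, k12, k3, k8, k5, k6]

theorem p21_5 (γ : ℕ → ℝ) (h0 : γ 0 = 1)
    (h : ∀ n < 21, 2 * (((21 : ℕ) : ℝ) - ((n : ℕ) : ℝ)) * ∑ i ∈ range (21 / 2 + 1), γ i * (cfn 21 i n : ℝ) ≤
      ((n : ℝ) + 1) * ∑ i ∈ range (21 / 2 + 1), γ i * (cfn 21 i (n + 1) : ℝ)) :
    0 < Mat 21 (Mat 21 (Mat 21 γ)) 5 := by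
  have k2 := q21_2 γ h0 h
  have k0 := q21_0 γ h0 h
  have k14 := q21_14 γ h0 h
  have k1 := q21_1 γ h0 h
  have k13 := q21_13 γ h0 h
  have k3 := q21_3 γ h0 h
  have k5 := q21_5 γ h0 h
  have k8 := q21_8 γ h0 h
  have k9 := q21_9 γ h0 h
  have k6 := q21_6 γ h0 h
  rw [m21_5]
  simp only [mm21_0, mm21_1, mm21_2, mm21_3, mm21_4, mm21_5, mm21_6, mm21_7, mm21_8, mm21_9, mm21_10]
  linarith only [h0, k2, k0, k14, k1, k13, k3, k5, k8, k9, k6]

theorem p21_6 (γ : ℕ → ℝ) (h0 : γ 0 = 1)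
    (h : ∀ n < 21, 2 * (((21 : ℕ) : ℝ) - ((n : ℕ) : ℝ)) * ∑ i ∈ range (21 / 2 + 1), γ i * (cfn 21 i n : ℝ) ≤
      ((n : ℝ) + 1) * ∑ i ∈ range (21 / 2 + 1), γ i * (cfn 21 i (n + 1) : ℝ)) :
    0 < Mat 21 (Mat 21 (Mat 21 γ)) 6 := by
  have k0 := q21_0 γ h0 h
  have k1 := q21_1 γ h0 h
  have k13 := q21_13 γ h0 h
  have k14 := q21_14 γ h0 h
  have k2 := q21_2 γ h0 h
  have k3 := q21_3 γ h0 h
  have k5 := q21_5 γ h0 h
  have k8 := q21_8 γ h0 h
  have k9 := q21_9 γ h0 h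
  have k6 := q21_6 γ h0 h
  rw [m21_6]
  simp only [mm21_0, mm21_1, mm21_2, mm21_3, mm21_4, mm21_5, mm21_6, mm21_7, mm21_8, mm21_9, mm21_10]
  linarith only [h0, k0, k1, k13, k14, k2, k3, k5, k8, k9, k6]

theorem p21_7 (γ : ℕ → ℝ) (h0 : γ 0 = 1)
    (h : ∀ n < 21, 2 * (((21 : ℕ) : ℝ) - ((n : ℕ) : ℝ)) * ∑ i ∈ range (21 / 2 + 1), γ i * (cfn 21 i n : ℝ) ≤
      ((n : ℝ) + 1) * ∑ i ∈ range (21 / 2 + 1), γ i * (cfn 21 i (n + 1) : ℝ)) :
    0 < Mat 21 (Mat 21 (Mat 21 γ)) 7 := by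
  have k3 := q21_3 γ h0 h
  have k0 := q21_0 γ h0 h
  have k14 := q21_14 γ h0 h
  have k8 := q21_8 γ h0 h
  have k5 := q21_5 γ h0 h
  have k1 := q21_1 γ h0 h
  have k2 := q21_2 γ h0 h
  have k15 := q21_15 γ h0 h
  have k9 := q21_9 γ h0 h
  have k6 := q21_6 γ h0 h
  rw [m21_7]
  simp only [mm21_0, mm21_1, mm21_2, mm21_3, mm21_4, mm21_5, mm21_6, mm21_7, mm21_8, mm21_9, mm21_10]
  linarith only [h0, k3, k0, k14, k8, k5, k1, k2, k15, k9, k6]

theorem p21_8 (γ : ℕ → ℝ) (h0 : γ 0 = 1)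
    (h : ∀ n < 21, 2 * (((21 : ℕ) : ℝ) - ((n : ℕ) : ℝ)) * ∑ i ∈ range (21 / 2 + 1), γ i * (cfn 21 i n : ℝ) ≤
      ((n : ℝ) + 1) * ∑ i ∈ range (21 / 2 + 1), γ i * (cfn 21 i (n + 1) : ℝ)) :
    0 < Mat 21 (Mat 21 (Mat 21 γ)) 8 := by
  have k15 := q21_15 γ h0 h
  have k0 := q21_0 γ h0 h
  have k8 := q21_8 γ h0 h
  have k14 := q21_14 γ h0 h
  have k5 := q21_5 γ h0 h
  have k1 := q21_1 γ h0 h
  have k2 := q21_2 γ h0 h
  have k3 := q21_3 γ h0 h
  have k9 := q21_9 γ h0 h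
  have k6 := q21_6 γ h0 h
  rw [m21_8]
  simp only [mm21_0, mm21_1, mm21_2, mm21_3, mm21_4, mm21_5, mm21_6, mm21_7, mm21_8, mm21_9, mm21_10]
  linarith only [h0, k15, k0, k8, k14, k5, k1, k2, k3, k9, k6]

theorem p21_9 (γ : ℕ → ℝ) (h0 : γ 0 = 1)
    (h : ∀ n < 21, 2 * (((21 : ℕ) : ℝ) - ((n : ℕ) : ℝ)) * ∑ i ∈ range (21 / 2 + 1), γ i * (cfn 21 i n : ℝ) ≤
      ((n : ℝ) + 1) * ∑ i ∈ range (21 / 2 + 1), γ i * (cfn 21 i (n + 1) : ℝ)) :
    0 < Mat 21 (Mat 21 (Mat 21 γ)) 9 := by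
  have k3 := q21_3 γ h0 h
  have k0 := q21_0 γ h0 h
  have k8 := q21_8 γ h0 h
  have k5 := q21_5 γ h0 h
  have k14 := q21_14 γ h0 h
  have k1 := q21_1 γ h0 h
  have k2 := q21_2 γ h0 h
  have k15 := q21_15 γ h0 h
  have k9 := q21_9 γ h0 h
  have k6 := q21_6 γ h0 h
  rw [m21_9]
  simp only [mm21_0, mm21_1, mm21_2, mm21_3, mm21_4, mm21_5, mm21_6, mm21_7, mm21_8, mm21_9, mm21_10]
  linarith only [h0, k3, k0, k8, k5, k14, k1, k2, k15, k9, k6]

theorem p21_10 (γ : ℕ → ℝ) (h0 : γ 0 = 1)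
    (h : ∀ n < 21, 2 * (((21 : ℕ) : ℝ) - ((n : ℕ) : ℝ)) * ∑ i ∈ range (21 / 2 + 1), γ i * (cfn 21 i n : ℝ) ≤
      ((n : ℝ) + 1) * ∑ i ∈ range (21 / 2 + 1), γ i * (cfn 21 i (n + 1) : ℝ)) :
    0 < Mat 21 (Mat 21 (Mat 21 γ)) 10 := by
  have k5 := q21_5 γ h0 h
  have k0 := q21_0 γ h0 h
  have k1 := q21_1 γ h0 h
  have k15 := q21_15 γ h0 h
  have k8 := q21_8 γ h0 h
  have k14 := q21_14 γ h0 h
  have k2 := q21_2 γ h0 h
  have k3 := q21_3 γ h0 h
  have k9 := q21_9 γ h0 h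
  have k6 := q21_6 γ h0 h
  rw [m21_10]
  simp only [mm21_0, mm21_1, mm21_2, mm21_3, mm21_4, mm21_5, mm21_6, mm21_7, mm21_8, mm21_9, mm21_10]
  linarith only [h0, k5, k0, k1, k15, k8, k14, k2, k3, k9, k6]

theorem main21 (γ : ℕ → ℝ) (h0 : γ 0 = 1)
    (h : ∀ n < 21, 2 * (((21 : ℕ) : ℝ) - ((n : ℕ) : ℝ)) * ∑ i ∈ range (21 / 2 + 1), γ i * (cfn 21 i n : ℝ) ≤
      ((n : ℝ) + 1) * ∑ i ∈ range (21 / 2 + 1), γ i * (cfn 21 i (n + 1) : ℝ)) :
    ∀ j ≤ 21 / 2, 0 < Mat 21 (Mat 21 (Mat 21 γ)) j := by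
  intro j hj
  have hj' : j ≤ 10 := hj
  clear hj
  interval_cases j
  · exact p21_0 γ h0 h
  · exact p21_1 γ h0 h
  · exact p21_2 γ h0 h
  · exact p21_3 γ h0 h
  · exact p21_4 γ h0 h
  · exact p21_5 γ h0 h
  · exact p21_6 γ h0 h
  · exact p21_7 γ h0 h
  · exact p21_8 γ h0 h
  · exact p21_9 γ h0 h
  · exact p21_10 γ h0 h

theorem c22_0 (γ : ℕ → ℝ) : ∑ i ∈ range (22 / 2 + 1), γ i * (cfn 22 i 0 : ℝ) =
    (1) * γ 0 + (0) * γ 1 + (0) * γ 2 + (0) * γ 3 + (0) * γ 4 + (0) * γ 5 + (0) * γ 6 + (0) * γ 7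
       + (0) * γ 8 + (0) * γ 9 + (0) * γ 10 + (0) * γ 11 := by
  have h : ((22 / 2 + 1 : ℕ)) = 12 := rfl
  rw [h]
  simp only [sum_range_succ, sum_range_zero, show cfn 22 0 0 = 1 from by decide +kernel, show cfn 22 1 0 = 0 from by decide +kernel, show cfn 22 2 0 = 0 from by decide +kernel, show cfn 22 3 0 = 0 from by decide +kernel, show cfn 22 4 0 = 0 from by decide +kernel, show cfn 22 5 0 = 0 from by decide +kernel, show cfn 22 6 0 = 0 from by decide +kernel, show cfn 22 7 0 = 0 from by decide +kernel, show cfn 22 8 0 = 0 from by decide +kernel, show cfn 22 9 0 = 0 from by decide +kernel, show cfn 22 10 0 = 0 from by decide +kernel, show cfn 22 11 0 = 0 from by decide +kernel, Nat.cast_ofNat, Nat.cast_one, Nat.cast_zero]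
  ring

theorem c22_1 (γ : ℕ → ℝ) : ∑ i ∈ range (22 / 2 + 1), γ i * (cfn 22 i 1 : ℝ) =
    (44) * γ 0 + (1) * γ 1 + (0) * γ 2 + (0) * γ 3 + (0) * γ 4 + (0) * γ 5 + (0) * γ 6
       + (0) * γ 7 + (0) * γ 8 + (0) * γ 9 + (0) * γ 10 + (0) * γ 11 := by
  have h : ((22 / 2 + 1 : ℕ)) = 12 := rfl
  rw [h]
  simp only [sum_range_succ, sum_range_zero, show cfn 22 0 1 = 44 from by decide +kernel, show cfn 22 1 1 = 1 from by decide +kernel, show cfn 22 2 1 = 0 from by decide +kernel, show cfn 22 3 1 = 0 from by decide +kernel, show cfn 22 4 1 = 0 from by decide +kernel, show cfn 22 5 1 = 0 from by decide +kernel, show cfn 22 6 1 = 0 from by decide +kernel, show cfn 22 7 1 = 0 from by decide +kernel, show cfn 22 8 1 = 0 from by decide +kernel, show cfn 22 9 1 = 0 from by decide +kernel, show cfn 22 10 1 = 0 from by decide +kernel, show cfn 22 11 1 = 0 from by decide +kernel, Nat.cast_ofNat, Nat.cast_one,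 Nat.cast_zero]
  ring

theorem c22_2 (γ : ℕ → ℝ) : ∑ i ∈ range (22 / 2 + 1), γ i * (cfn 22 i 2 : ℝ) =
    (924) * γ 0 + (41) * γ 1 + (1) * γ 2 + (0) * γ 3 + (0) * γ 4 + (0) * γ 5 + (0) * γ 6
       + (0) * γ 7 + (0) * γ 8 + (0) * γ 9 + (0) * γ 10 + (0) * γ 11 := by
  have h : ((22 / 2 + 1 : ℕ)) = 12 := rfl
  rw [h]
  simp only [sum_range_succ, sum_range_zero, show cfn 22 0 2 = 924 from by decide +kernel, show cfn 22 1 2 = 41 from by decide +kernel, show cfn 22 2 2 = 1 from by decide +kernel, show cfn 22 3 2 = 0 from by decide +kernel, show cfn 22 4 2 = 0 from by decide +kernel, show cfn 22 5 2 = 0 from by decide +kernel, show cfn 22 6 2 = 0 from by decide +kernel, show cfn 22 7 2 = 0 from by decide +kernel, show cfn 22 8 2 = 0 from by decide +kernel, show cfn 22 9 2 = 0 from by decide +kernel, show cfn 22 10 2 = 0 from by decide +kernel, show cfn 22 11 2 = 0 from by decide +kernel, Nat.cast_ofNat,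 Nat.cast_one, Nat.cast_zero]
  ring

theorem c22_3 (γ : ℕ → ℝ) : ∑ i ∈ range (22 / 2 + 1), γ i * (cfn 22 i 3 : ℝ) =
    (12320) * γ 0 + (800) * γ 1 + (38) * γ 2 + (1) * γ 3 + (0) * γ 4 + (0) * γ 5 + (0) * γ 6
       + (0) * γ 7 + (0) * γ 8 + (0) * γ 9 + (0) * γ 10 + (0) * γ 11 := by
  have h : ((22 / 2 + 1 : ℕ)) = 12 := rfl
  rw [h]
  simp only [sum_range_succ, sum_range_zero, show cfn 22 0 3 = 12320 from by decide +kernel, show cfn 22 1 3 = 800 from by decide +kernel, show cfn 22 2 3 = 38 from by decide +kernel, show cfn 22 3 3 = 1 from by decide +kernel, show cfn 22 4 3 = 0 from by decide +kernel, show cfn 22 5 3 = 0 from by decide +kernel, show cfn 22 6 3 = 0 from by decide +kernel, show cfn 22 7 3 = 0 from by decide +kernel, show cfn 22 8 3 = 0 from by decide +kernel, show cfn 22 9 3 = 0 from by decide +kernel, show cfn 22 10 3 = 0 from by decide +kernel, show cfn 22 11 3 = 0 from by decide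 +kernel, Nat.cast_ofNat, Nat.cast_one, Nat.cast_zero]
  ring

theorem c22_4 (γ : ℕ → ℝ) : ∑ i ∈ range (22 / 2 + 1), γ i * (cfn 22 i 4 : ℝ) =
    (117040) * γ 0 + (9880) * γ 1 + (685) * γ 2 + (35) * γ 3 + (1) * γ 4 + (0) * γ 5 + (0) * γ 6
       + (0) * γ 7 + (0) * γ 8 + (0) * γ 9 + (0) * γ 10 + (0) * γ 11 := by
  have h : ((22 / 2 + 1 : ℕ)) = 12 := rfl
  rw [h]
  simp only [sum_range_succ, sum_range_zero, show cfn 22 0 4 = 117040 from by decide +kernel, show cfn 22 1 4 = 9880 from by decide +kernel, show cfn 22 2 4 = 685 from by decide +kernel, show cfn 22 3 4 = 35 from by decide +kernel, show cfn 22 4 4 = 1 from by decide +kernel, show cfn 22 5 4 = 0 from by decide +kernel, show cfn 22 6 4 = 0 from by decide +kernel, show cfn 22 7 4 = 0 from by decide +kernel, show cfn 22 8 4 = 0 from by decide +kernel, show cfn 22 9 4 = 0 from by decide +kernel, show cfn 22 10 4 = 0 from by decide +kernel, show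 cfn 22 11 4 = 0 from by decide +kernel, Nat.cast_ofNat, Nat.cast_one, Nat.cast_zero]
  ring

theorem c22_5 (γ : ℕ → ℝ) : ∑ i ∈ range (22 / 2 + 1), γ i * (cfn 22 i 5 : ℝ) =
    (842688) * γ 0 + (86640) * γ 1 + (7788) * γ 2 + (579) * γ 3 + (32) * γ 4 + (1) * γ 5
       + (0) * γ 6 + (0) * γ 7 + (0) * γ 8 + (0) * γ 9 + (0) * γ 10 + (0) * γ 11 := by
  have h : ((22 / 2 + 1 : ℕ)) = 12 := rfl
  rw [h]
  simp only [sum_range_succ, sum_range_zero, show cfn 22 0 5 = 842688 from by decide +kernel, show cfn 22 1 5 = 86640 from by decide +kernel, show cfn 22 2 5 = 7788 from by decide +kernel, show cfn 22 3 5 = 579 from by decide +kernel, show cfn 22 4 5 = 32 from by decide +kernel, show cfn 22 5 5 = 1 from by decide +kernel, show cfn 22 6 5 = 0 from by decide +kernel, show cfn 22 7 5 = 0 from by decide +kernel, show cfn 22 8 5 = 0 from by decide +kernel, show cfn 22 9 5 = 0 from by decide +kernel, show cfn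 22 10 5 = 0 from by decide +kernel, show cfn 22 11 5 = 0 from by decide +kernel, Nat.cast_ofNat, Nat.cast_one, Nat.cast_zero]
  ring

theorem c22_6 (γ : ℕ → ℝ) : ∑ i ∈ range (22 / 2 + 1), γ i * (cfn 22 i 6 : ℝ) =
    (4775232) * γ 0 + (573648) * γ 1 + (62628) * γ 2 + (6017) * γ 3 + (482) * γ 4 + (29) * γ 5
       + (1) * γ 6 + (0) * γ 7 + (0) * γ 8 + (0) * γ 9 + (0) * γ 10 + (0) * γ 11 := by
  have h : ((22 / 2 + 1 : ℕ)) = 12 := rfl
  rw [h]
  simp only [sum_range_succ, sum_range_zero, show cfn 22 0 6 = 4775232 from by decide +kernel, show cfn 22 1 6 = 573648 from by decide +kernel, show cfn 22 2 6 = 62628 from by decide +kernel, show cfn 22 3 6 = 6017 from by decide +kernel, show cfn 22 4 6 = 482 from by decide +kernel, show cfn 22 5 6 = 29 from by decide +kernel, show cfn 22 6 6 = 1 from by decide +kernel, show cfn 22 7 6 = 0 from by decide +kernel, show cfn 22 8 6 = 0 from by decide +kernel,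 show cfn 22 9 6 = 0 from by decide +kernel, show cfn 22 10 6 = 0 from by decide +kernel, show cfn 22 11 6 = 0 from by decide +kernel, Nat.cast_ofNat, Nat.cast_one, Nat.cast_zero]
  ring

theorem c22_7 (γ : ℕ → ℝ) : ∑ i ∈ range (22 / 2 + 1), γ i * (cfn 22 i 7 : ℝ) =
    (21829632) * γ 0 + (2976768) * γ 1 + (378624) * γ 2 + (44032) * γ 3 + (4540) * γ 4
       + (394) * γ 5 + (26) * γ 6 + (1) * γ 7 + (0) * γ 8 + (0) * γ 9 + (0) * γ 10 + (0) * γ 11 := by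
  have h : ((22 / 2 + 1 : ℕ)) = 12 := rfl
  rw [h]
  simp only [sum_range_succ, sum_range_zero, show cfn 22 0 7 = 21829632 from by decide +kernel, show cfn 22 1 7 = 2976768 from by decide +kernel, show cfn 22 2 7 = 378624 from by decide +kernel, show cfn 22 3 7 = 44032 from by decide +kernel, show cfn 22 4 7 = 4540 from by decide +kernel, show cfn 22 5 7 = 394 from by decide +kernel, show cfn 22 6 7 = 26 from by decide +kernel, show cfn 22 7 7 = 1 from by decide +kernel, show cfn 22 8 7 = 0 from by decide +kernel, show cfn 22 9 7 = 0 from by decide +kernel, show cfn 22 10 7 = 0 from by decide +kernel, show cfn 22 11 7 = 0 from by decide +kernel, Nat.cast_ofNat, Nat.cast_one, Nat.cast_zero]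
  ring

theorem c22_8 (γ : ℕ → ℝ) : ∑ i ∈ range (22 / 2 + 1), γ i * (cfn 22 i 8 : ℝ) =
    (81861120) * γ 0 + (12403200) * γ 1 + (1785408) * γ 2 + (241056) * γ 3 + (29961) * γ 4
       + (3330) * γ 5 + (315) * γ 6 + (23) * γ 7 + (1) * γ 8 + (0) * γ 9 + (0) * γ 10 + (0) * γ 11 := by
  have h : ((22 / 2 + 1 : ℕ)) = 12 := rfl
  rw [h]
  simp only [sum_range_succ, sum_range_zero, show cfn 22 0 8 = 81861120 from by decide +kernel, show cfn 22 1 8 = 12403200 from by decide +kernel, show cfn 22 2 8 = 1785408 from by decide +kernel, show cfn 22 3 8 = 241056 from by decide +kernel, show cfn 22 4 8 = 29961 from by decide +kernel, show cfn 22 5 8 = 3330 from by decide +kernel, show cfn 22 6 8 = 315 from by decide +kernel, show cfn 22 7 8 = 23 from by decide +kernel, show cfn 22 8 8 = 1 from by decide +kernel, show cfn 22 9 8 = 0 from by decide +kernel, show cfn 22 10 8 = 0 from by decide +kernel, show cfn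 22 11 8 = 0 from by decide +kernel, Nat.cast_ofNat, Nat.cast_one, Nat.cast_zero]
  ring

theorem c22_9 (γ : ℕ → ℝ) : ∑ i ∈ range (22 / 2 + 1), γ i * (cfn 22 i 9 : ℝ) =
    (254679040) * γ 0 + (42170880) * γ 1 + (6723840) * γ 2 + (1023680) * γ 3 + (147084) * γ 4
       + (19605) * γ 5 + (2360) * γ 6 + (245) * γ 7 + (20) * γ 8 + (1) * γ 9 + (0) * γ 10
       + (0) * γ 11 := by
  have h : ((22 / 2 + 1 : ℕ)) = 12 := rfl
  rw [h]
  simp only [sum_range_succ, sum_range_zero, show cfn 22 0 9 = 254679040 from by decide +kernel, show cfn 22 1 9 = 42170880 from by decide +kernel, show cfn 22 2 9 = 6723840 from by decide +kernel, show cfn 22 3 9 = 1023680 from by decide +kernel, show cfn 22 4 9 = 147084 from by decide +kernel, show cfn 22 5 9 = 19605 from by decide +kernel, show cfn 22 6 9 = 2360 from by decide +kernel, show cfn 22 7 9 = 245 from by decide +kernel, show cfn 22 8 9 = 20 from by decide +kernel,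 show cfn 22 9 9 = 1 from by decide +kernel, show cfn 22 10 9 = 0 from by decide +kernel, show cfn 22 11 9 = 0 from by decide +kernel, Nat.cast_ofNat, Nat.cast_one, Nat.cast_zero]
  ring

theorem c22_10 (γ : ℕ → ℝ) : ∑ i ∈ range (22 / 2 + 1), γ i * (cfn 22 i 10 : ℝ) =
    (662165504) * γ 0 + (118243840) * γ 1 + (20537088) * γ 2 + (3450304) * γ 3 + (556556) * γ 4
       + (85305) * γ 5 + (12235) * γ 6 + (1603) * γ 7 + (184) * γ 8 + (17) * γ 9 + (1) * γ 10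
       + (0) * γ 11 := by
  have h : ((22 / 2 + 1 : ℕ)) = 12 := rfl
  rw [h]
  simp only [sum_range_succ, sum_range_zero, show cfn 22 0 10 = 662165504 from by decide +kernel, show cfn 22 1 10 = 118243840 from by decide +kernel, show cfn 22 2 10 = 20537088 from by decide +kernel, show cfn 22 3 10 = 3450304 from by decide +kernel, show cfn 22 4 10 = 556556 from by decide +kernel, show cfn 22 5 10 = 85305 from by decide +kernel, show cfn 22 6 10 = 12235 from by decide +kernel, show cfn 22 7 10 = 1603 from by decide +kernel, show cfn 22 8 10 = 184 from by decide +kernel, show cfn 22 9 10 = 17 from by decide +kernel, show cfn 22 10 10 = 1 from by decide +kernel, show cfn 22 11 10 = 0 from by decide +kernel, Nat.cast_ofNat, Nat.cast_one, Nat.cast_zero]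
  ring

theorem c22_11 (γ : ℕ → ℝ) : ∑ i ∈ range (22 / 2 + 1), γ i * (cfn 22 i 11 : ℝ) =
    (1444724736) * γ 0 + (275185664) * γ 1 + (51371008) * γ 2 + (9364992) * γ 3 + (1659424) * γ 4
       + (284000) * γ 5 + (46530) * γ 6 + (7203) * γ 7 + (1032) * γ 8 + (132) * γ 9 + (14) * γ 10
       + (1) * γ 11 := by
  have h : ((22 / 2 + 1 : ℕ)) = 12 := rfl
  rw [h]
  simp only [sum_range_succ, sum_range_zero, show cfn 22 0 11 = 1444724736 from by decide +kernel, show cfn 22 1 11 = 275185664 from by decide +kernel, show cfn 22 2 11 = 51371008 from by decide +kernel, show cfn 22 3 11 = 9364992 from by decide +kernel, show cfn 22 4 11 = 1659424 from by decide +kernel, show cfn 22 5 11 = 284000 from by decide +kernel, show cfn 22 6 11 = 46530 from by decide +kernel, show cfn 22 7 11 = 7203 from by decide +kernel, show cfn 22 8 11 = 1032 from by decide +kernel, show cfn 22 9 11 = 132 from by decide +kernel,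 show cfn 22 10 11 = 14 from by decide +kernel, show cfn 22 11 11 = 1 from by decide +kernel, Nat.cast_ofNat, Nat.cast_one, Nat.cast_zero]
  ring

theorem c22_12 (γ : ℕ → ℝ) : ∑ i ∈ range (22 / 2 + 1), γ i * (cfn 22 i 12 : ℝ) =
    (2648662016) * γ 0 + (533172224) * γ 1 + (105797120) * γ 2 + (20646912) * γ 3
       + (3951376) * γ 4 + (738760) * γ 5 + (134245) * γ 6 + (23541) * γ 7 + (3942) * γ 8
       + (620) * γ 9 + (89) * γ 10 + (11) * γ 11 := by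
  have h : ((22 / 2 + 1 : ℕ)) = 12 := rfl
  rw [h]
  simp only [sum_range_succ, sum_range_zero, show cfn 22 0 12 = 2648662016 from by decide +kernel, show cfn 22 1 12 = 533172224 from by decide +kernel, show cfn 22 2 12 = 105797120 from by decide +kernel, show cfn 22 3 12 = 20646912 from by decide +kernel, show cfn 22 4 12 = 3951376 from by decide +kernel, show cfn 22 5 12 = 738760 from by decide +kernel, show cfn 22 6 12 = 134245 from by decide +kernel, show cfn 22 7 12 = 23541 from by decide +kernel, show cfn 22 8 12 = 3942 from by decide +kernel, show cfn 22 9 12 = 620 from by decide +kernel, show cfn 22 10 12 = 89 from by decide +kernel, show cfn 22 11 12 = 11 from by decide +kernel, Nat.cast_ofNat, Nat.cast_one, Nat.cast_zero]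
  ring

theorem c22_13 (γ : ℕ → ℝ) : ∑ i ∈ range (22 / 2 + 1), γ i * (cfn 22 i 13 : ℝ) =
    (4074864640) * γ 0 + (859955200) * γ 1 + (179685376) * γ 2 + (37120512) * γ 3
       + (7568704) * γ 4 + (1519760) * γ 5 + (299660) * γ 6 + (57799) * γ 7 + (10848) * γ 8
       + (1966) * γ 9 + (340) * γ 10 + (55) * γ 11 := by
  have h : ((22 / 2 + 1 : ℕ)) = 12 := rfl
  rw [h]
  simp only [sum_range_succ, sum_range_zero, show cfn 22 0 13 = 4074864640 from by decide +kernel, show cfn 22 1 13 = 859955200 from by decide +kernel, show cfn 22 2 13 = 179685376 from by decide +kernel, show cfn 22 3 13 = 37120512 from by decide +kernel, show cfn 22 4 13 = 7568704 from by decide +kernel, show cfn 22 5 13 = 1519760 from by decide +kernel, show cfn 22 6 13 = 299660 from by decide +kernel, show cfn 22 7 13 = 57799 from by decide +kernel, show cfn 22 8 13 = 10848 from by decide +kernel, show cfn 22 9 13 = 1966 from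 by decide +kernel, show cfn 22 10 13 = 340 from by decide +kernel, show cfn 22 11 13 = 55 from by decide +kernel, Nat.cast_ofNat, Nat.cast_one, Nat.cast_zero]
  ring

theorem c22_14 (γ : ℕ → ℝ) : ∑ i ∈ range (22 / 2 + 1), γ i * (cfn 22 i 14 : ℝ) =
    (5239111680) * γ 0 + (1151016960) * γ 1 + (251197440) * γ 2 + (54412800) * γ 3
       + (11687104) * γ 4 + (2486000) * γ 5 + (522900) * γ 6 + (108545) * γ 7 + (22180) * γ 8
       + (4446) * γ 9 + (870) * γ 10 + (165) * γ 11 := by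
  have h : ((22 / 2 + 1 : ℕ)) = 12 := rfl
  rw [h]
  simp only [sum_range_succ, sum_range_zero, show cfn 22 0 14 = 5239111680 from by decide +kernel, show cfn 22 1 14 = 1151016960 from by decide +kernel, show cfn 22 2 14 = 251197440 from by decide +kernel, show cfn 22 3 14 = 54412800 from by decide +kernel, show cfn 22 4 14 = 11687104 from by decide +kernel, show cfn 22 5 14 = 2486000 from by decide +kernel, show cfn 22 6 14 = 522900 from by decide +kernel, show cfn 22 7 14 = 108545 from by decide +kernel, show cfn 22 8 14 = 22180 from by decide +kernel, show cfn 22 9 14 = 4446 from by decide +kernel, show cfn 22 10 14 = 870 from by decide +kernel, show cfn 22 11 14 = 165 from by decide +kernel, Nat.cast_ofNat, Nat.cast_one, Nat.cast_zero]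
  ring

theorem c22_15 (γ : ℕ → ℝ) : ∑ i ∈ range (22 / 2 + 1), γ i * (cfn 22 i 15 : ℝ) =
    (5588385792) * γ 0 + (1270087680) * γ 1 + (287440896) * γ 2 + (64749568) * γ 3
       + (14510080) * γ 4 + (3232768) * γ 5 + (715520) * γ 6 + (157184) * γ 7 + (34232) * γ 8
       + (7380) * γ 9 + (1572) * γ 10 + (330) * γ 11 := by
  have h : ((22 / 2 + 1 : ℕ)) = 12 := rfl
  rw [h]
  simp only [sum_range_succ, sum_range_zero, show cfn 22 0 15 = 5588385792 from by decide +kernel, show cfn 22 1 15 = 1270087680 from by decide +kernel, show cfn 22 2 15 = 287440896 from by decide +kernel, show cfn 22 3 15 = 64749568 from by decide +kernel, show cfn 22 4 15 = 14510080 from by decide +kernel, show cfn 22 5 15 = 3232768 from by decide +kernel, show cfn 22 6 15 = 715520 from by decide +kernel, show cfn 22 7 15 = 157184 from by decide +kernel, show cfn 22 8 15 = 34232 from by decide +kernel, show cfn 22 9 15 = 7380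 from by decide +kernel, show cfn 22 10 15 = 1572 from by decide +kernel, show cfn 22 11 15 = 330 from by decide +kernel, Nat.cast_ofNat, Nat.cast_one, Nat.cast_zero]
  ring

theorem c22_16 (γ : ℕ → ℝ) : ∑ i ∈ range (22 / 2 + 1), γ i * (cfn 22 i 16 : ℝ) =
    (4889837568) * γ 0 + (1143078912) * γ 1 + (266551296) * γ 2 + (61988864) * γ 3
       + (14373632) * γ 4 + (3322112) * γ 5 + (765088) * γ 6 + (175504) * γ 7 + (40081) * γ 8
       + (9108) * γ 9 + (2058) * γ 10 + (462) * γ 11 := by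
  have h : ((22 / 2 + 1 : ℕ)) = 12 := rfl
  rw [h]
  simp only [sum_range_succ, sum_range_zero, show cfn 22 0 16 = 4889837568 from by decide +kernel, show cfn 22 1 16 = 1143078912 from by decide +kernel, show cfn 22 2 16 = 266551296 from by decide +kernel, show cfn 22 3 16 = 61988864 from by decide +kernel, show cfn 22 4 16 = 14373632 from by decide +kernel, show cfn 22 5 16 = 3322112 from by decide +kernel, show cfn 22 6 16 = 765088 from by decide +kernel, show cfn 22 7 16 = 175504 from by decide +kernel, show cfn 22 8 16 = 40081 from by decide +kernel, show cfn 22 9 16 = 9108 from by decide +kernel, show cfn 22 10 16 = 2058 from by decide +kernel, show cfn 22 11 16 = 462 from by decide +kernel, Nat.cast_ofNat, Nat.cast_one, Nat.cast_zero]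
  ring

theorem c22_17 (γ : ℕ → ℝ) : ∑ i ∈ range (22 / 2 + 1), γ i * (cfn 22 i 17 : ℝ) =
    (3451650048) * γ 0 + (825556992) * γ 1 + (197197824) * γ 2 + (47038464) * γ 3
       + (11203584) * γ 4 + (2664192) * γ 5 + (632448) * γ 6 + (149856) * γ 7 + (35436) * γ 8
       + (8361) * γ 9 + (1968) * γ 10 + (462) * γ 11 := by
  have h : ((22 / 2 + 1 : ℕ)) = 12 := rfl
  rw [h]
  simp only [sum_range_succ, sum_range_zero, show cfn 22 0 17 = 3451650048 from by decide +kernel, show cfn 22 1 17 = 825556992 from by decide +kernel, show cfn 22 2 17 = 197197824 from by decide +kernel, show cfn 22 3 17 = 47038464 from by decide +kernel, show cfn 22 4 17 = 11203584 from by decide +kernel, show cfn 22 5 17 = 2664192 from by decide +kernel, show cfn 22 6 17 = 632448 from by decide +kernel, show cfn 22 7 17 = 149856 from by decide +kernel, show cfn 22 8 17 = 35436 from by decide +kernel, show cfn 22 9 17 = 8361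 from by decide +kernel, show cfn 22 10 17 = 1968 from by decide +kernel, show cfn 22 11 17 = 462 from by decide +kernel, Nat.cast_ofNat, Nat.cast_one, Nat.cast_zero]
  ring

theorem c22_18 (γ : ℕ → ℝ) : ∑ i ∈ range (22 / 2 + 1), γ i * (cfn 22 i 18 : ℝ) =
    (1917583360) * γ 0 + (466944000) * γ 1 + (113639424) * γ 2 + (27639808) * γ 3
       + (6718464) * γ 4 + (1632000) * γ 5 + (396160) * γ 6 + (96096) * γ 7 + (23292) * γ 8
       + (5641) * γ 9 + (1365) * γ 10 + (330) * γ 11 := by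
  have h : ((22 / 2 + 1 : ℕ)) = 12 := rfl
  rw [h]
  simp only [sum_range_succ, sum_range_zero, show cfn 22 0 18 = 1917583360 from by decide +kernel, show cfn 22 1 18 = 466944000 from by decide +kernel, show cfn 22 2 18 = 113639424 from by decide +kernel, show cfn 22 3 18 = 27639808 from by decide +kernel, show cfn 22 4 18 = 6718464 from by decide +kernel, show cfn 22 5 18 = 1632000 from by decide +kernel, show cfn 22 6 18 = 396160 from by decide +kernel, show cfn 22 7 18 = 96096 from by decide +kernel, show cfn 22 8 18 = 23292 from by decide +kernel, show cfn 22 9 18 = 5641 from by decide +kernel, show cfn 22 10 18 = 1365 from by decide +kernel, show cfn 22 11 18 = 330 from by decide +kernel, Nat.cast_ofNat, Nat.cast_one, Nat.cast_zero]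
  ring

theorem q22_0 (γ : ℕ → ℝ) (h0 : γ 0 = 1)
    (h : ∀ n < 22, 2 * (((22 : ℕ) : ℝ) - ((n : ℕ) : ℝ)) * ∑ i ∈ range (22 / 2 + 1), γ i * (cfn 22 i n : ℝ) ≤
      ((n : ℝ) + 1) * ∑ i ∈ range (22 / 2 + 1), γ i * (cfn 22 i (n + 1) : ℝ)) :
    0 ≤ (0) * γ 0 + (1) * γ 1 + (0) * γ 2 + (0) * γ 3 + (0) * γ 4 + (0) * γ 5 + (0) * γ 6 + (0) * γ 7
       + (0) * γ 8 + (0) * γ 9 + (0) * γ 10 + (0) * γ 11 := by
  have h1 := h 0 (by norm_num)
  rw [show 0 + 1 = 1 from rfl, c22_0, c22_1] at h1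
  norm_num [h0] at h1 ⊢
  linarith

theorem q22_1 (γ : ℕ → ℝ) (h0 : γ 0 = 1)
    (h : ∀ n < 22, 2 * (((22 : ℕ) : ℝ) - ((n : ℕ) : ℝ)) * ∑ i ∈ range (22 / 2 + 1), γ i * (cfn 22 i n : ℝ) ≤
      ((n : ℝ) + 1) * ∑ i ∈ range (22 / 2 + 1), γ i * (cfn 22 i (n + 1) : ℝ)) :
    0 ≤ (0) * γ 0 + (40) * γ 1 + (2) * γ 2 + (0) * γ 3 + (0) * γ 4 + (0) * γ 5 + (0) * γ 6
       + (0) * γ 7 + (0) * γ 8 + (0) * γ 9 + (0) * γ 10 + (0) * γ 11 := by
  have h1 := h 1 (by norm_num)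
  rw [show 1 + 1 = 2 from rfl, c22_1, c22_2] at h1
  norm_num [h0] at h1 ⊢
  linarith

theorem q22_2 (γ : ℕ → ℝ) (h0 : γ 0 = 1)
    (h : ∀ n < 22, 2 * (((22 : ℕ) : ℝ) - ((n : ℕ) : ℝ)) * ∑ i ∈ range (22 / 2 + 1), γ i * (cfn 22 i n : ℝ) ≤
      ((n : ℝ) + 1) * ∑ i ∈ range (22 / 2 + 1), γ i * (cfn 22 i (n + 1) : ℝ)) :
    0 ≤ (0) * γ 0 + (760) * γ 1 + (74) * γ 2 + (3) * γ 3 + (0) * γ 4 + (0) * γ 5 + (0) * γ 6
       + (0) * γ 7 + (0) * γ 8 + (0) * γ 9 + (0) * γ 10 + (0) * γ 11 := by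
  have h1 := h 2 (by norm_num)
  rw [show 2 + 1 = 3 from rfl, c22_2, c22_3] at h1
  norm_num [h0] at h1 ⊢
  linarith

theorem q22_3 (γ : ℕ → ℝ) (h0 : γ 0 = 1)
    (h : ∀ n < 22, 2 * (((22 : ℕ) : ℝ) - ((n : ℕ) : ℝ)) * ∑ i ∈ range (22 / 2 + 1), γ i * (cfn 22 i n : ℝ) ≤
      ((n : ℝ) + 1) * ∑ i ∈ range (22 / 2 + 1), γ i * (cfn 22 i (n + 1) : ℝ)) :
    0 ≤ (0) * γ 0 + (9120) * γ 1 + (1296) * γ 2 + (102) * γ 3 + (4) * γ 4 + (0) * γ 5 + (0) * γ 6
       + (0) * γ 7 + (0) * γ 8 + (0) * γ 9 + (0) * γ 10 + (0) * γ 11 := by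
  have h1 := h 3 (by norm_num)
  rw [show 3 + 1 = 4 from rfl, c22_3, c22_4] at h1
  norm_num [h0] at h1 ⊢
  linarith

theorem q22_4 (γ : ℕ → ℝ) (h0 : γ 0 = 1)
    (h : ∀ n < 22, 2 * (((22 : ℕ) : ℝ) - ((n : ℕ) : ℝ)) * ∑ i ∈ range (22 / 2 + 1), γ i * (cfn 22 i n : ℝ) ≤
      ((n : ℝ) + 1) * ∑ i ∈ range (22 / 2 + 1), γ i * (cfn 22 i (n + 1) : ℝ)) :
    0 ≤ (0) * γ 0 + (77520) * γ 1 + (14280) * γ 2 + (1635) * γ 3 + (124) * γ 4 + (5) * γ 5
       + (0) * γ 6 + (0) * γ 7 + (0) * γ 8 + (0) * γ 9 + (0) * γ 10 + (0) * γ 11 := by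
  have h1 := h 4 (by norm_num)
  rw [show 4 + 1 = 5 from rfl, c22_4, c22_5] at h1
  norm_num [h0] at h1 ⊢
  linarith

theorem q22_5 (γ : ℕ → ℝ) (h0 : γ 0 = 1)
    (h : ∀ n < 22, 2 * (((22 : ℕ) : ℝ) - ((n : ℕ) : ℝ)) * ∑ i ∈ range (22 / 2 + 1), γ i * (cfn 22 i n : ℝ) ≤
      ((n : ℝ) + 1) * ∑ i ∈ range (22 / 2 + 1), γ i * (cfn 22 i (n + 1) : ℝ)) :
    0 ≤ (0) * γ 0 + (496128) * γ 1 + (110976) * γ 2 + (16416) * γ 3 + (1804) * γ 4 + (140) * γ 5
       + (6) * γ 6 + (0) * γ 7 + (0) * γ 8 + (0) * γ 9 + (0) * γ 10 + (0) * γ 11 := by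
  have h1 := h 5 (by norm_num)
  rw [show 5 + 1 = 6 from rfl, c22_5, c22_6] at h1
  norm_num [h0] at h1 ⊢
  linarith

theorem q22_6 (γ : ℕ → ℝ) (h0 : γ 0 = 1)
    (h : ∀ n < 22, 2 * (((22 : ℕ) : ℝ) - ((n : ℕ) : ℝ)) * ∑ i ∈ range (22 / 2 + 1), γ i * (cfn 22 i n : ℝ) ≤
      ((n : ℝ) + 1) * ∑ i ∈ range (22 / 2 + 1), γ i * (cfn 22 i (n + 1) : ℝ)) :
    0 ≤ (0) * γ 0 + (2480640) * γ 1 + (646272) * γ 2 + (115680) * γ 3 + (16356) * γ 4 + (1830) * γ 5
       + (150) * γ 6 + (7) * γ 7 + (0) * γ 8 + (0) * γ 9 + (0) * γ 10 + (0) * γ 11 := by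
  have h1 := h 6 (by norm_num)
  rw [show 6 + 1 = 7 from rfl, c22_6, c22_7] at h1
  norm_num [h0] at h1 ⊢
  linarith

theorem q22_7 (γ : ℕ → ℝ) (h0 : γ 0 = 1)
    (h : ∀ n < 22, 2 * (((22 : ℕ) : ℝ) - ((n : ℕ) : ℝ)) * ∑ i ∈ range (22 / 2 + 1), γ i * (cfn 22 i n : ℝ) ≤
      ((n : ℝ) + 1) * ∑ i ∈ range (22 / 2 + 1), γ i * (cfn 22 i (n + 1) : ℝ)) :
    0 ≤ (0) * γ 0 + (9922560) * γ 1 + (2924544) * γ 2 + (607488) * γ 3 + (103488) * γ 4
       + (14820) * γ 5 + (1740) * γ 6 + (154) * γ 7 + (8) * γ 8 + (0) * γ 9 + (0) * γ 10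
       + (0) * γ 11 := by
  have h1 := h 7 (by norm_num)
  rw [show 7 + 1 = 8 from rfl, c22_7, c22_8] at h1
  norm_num [h0] at h1 ⊢
  linarith

theorem q22_8 (γ : ℕ → ℝ) (h0 : γ 0 = 1)
    (h : ∀ n < 22, 2 * (((22 : ℕ) : ℝ) - ((n : ℕ) : ℝ)) * ∑ i ∈ range (22 / 2 + 1), γ i * (cfn 22 i n : ℝ) ≤
      ((n : ℝ) + 1) * ∑ i ∈ range (22 / 2 + 1), γ i * (cfn 22 i (n + 1) : ℝ)) :
    0 ≤ (0) * γ 0 + (32248320) * γ 1 + (10523136) * γ 2 + (2463552) * γ 3 + (484848) * γ 4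
       + (83205) * γ 5 + (12420) * γ 6 + (1561) * γ 7 + (152) * γ 8 + (9) * γ 9 + (0) * γ 10
       + (0) * γ 11 := by
  have h1 := h 8 (by norm_num)
  rw [show 8 + 1 = 9 from rfl, c22_8, c22_9] at h1
  norm_num [h0] at h1 ⊢
  linarith

theorem q22_9 (γ : ℕ → ℝ) (h0 : γ 0 = 1)
    (h : ∀ n < 22, 2 * (((22 : ℕ) : ℝ) - ((n : ℕ) : ℝ)) * ∑ i ∈ range (22 / 2 + 1), γ i * (cfn 22 i n : ℝ) ≤
      ((n : ℝ) + 1) * ∑ i ∈ range (22 / 2 + 1), γ i * (cfn 22 i (n + 1) : ℝ)) :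
    0 ≤ (0) * γ 0 + (85995520) * γ 1 + (30551040) * γ 2 + (7887360) * γ 3 + (1741376) * γ 4
       + (343320) * γ 5 + (60990) * γ 6 + (9660) * γ 7 + (1320) * γ 8 + (144) * γ 9 + (10) * γ 10
       + (0) * γ 11 := by
  have h1 := h 9 (by norm_num)
  rw [show 9 + 1 = 10 from rfl, c22_9, c22_10] at h1
  norm_num [h0] at h1 ⊢
  linarith

theorem q22_10 (γ : ℕ → ℝ) (h0 : γ 0 = 1)
    (h : ∀ n < 22, 2 * (((22 : ℕ) : ℝ) - ((n : ℕ) : ℝ)) * ∑ i ∈ range (22 / 2 + 1), γ i * (cfn 22 i n : ℝ) ≤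
      ((n : ℝ) + 1) * ∑ i ∈ range (22 / 2 + 1), γ i * (cfn 22 i (n + 1) : ℝ)) :
    0 ≤ (0) * γ 0 + (189190144) * γ 1 + (72190976) * γ 2 + (20207616) * γ 3 + (4896320) * γ 4
       + (1076680) * γ 5 + (218190) * γ 6 + (40761) * γ 7 + (6936) * γ 8 + (1044) * γ 9
       + (130) * γ 10 + (11) * γ 11 := by
  have h1 := h 10 (by norm_num)
  rw [show 10 + 1 = 11 from rfl, c22_10, c22_11] at h1
  norm_num [h0] at h1 ⊢
  linarith

theorem q22_11 (γ : ℕ → ℝ) (h0 : γ 0 = 1)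
    (h : ∀ n < 22, 2 * (((22 : ℕ) : ℝ) - ((n : ℕ) : ℝ)) * ∑ i ∈ range (22 / 2 + 1), γ i * (cfn 22 i n : ℝ) ≤
      ((n : ℝ) + 1) * ∑ i ∈ range (22 / 2 + 1), γ i * (cfn 22 i (n + 1) : ℝ)) :
    0 ≤ (0) * γ 0 + (343982080) * γ 1 + (139403264) * γ 2 + (41733120) * γ 3 + (10909184) * γ 4
       + (2617120) * γ 5 + (587280) * γ 6 + (124026) * γ 7 + (24600) * γ 8 + (4536) * γ 9
       + (760) * γ 10 + (110) * γ 11 := by
  have h1 := h 11 (by norm_num)
  rw [show 11 + 1 = 12 from rfl, c22_11, c22_12] at h1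
  norm_num [h0] at h1 ⊢
  linarith

theorem q22_12 (γ : ℕ → ℝ) (h0 : γ 0 = 1)
    (h : ∀ n < 22, 2 * (((22 : ℕ) : ℝ) - ((n : ℕ) : ℝ)) * ∑ i ∈ range (22 / 2 + 1), γ i * (cfn 22 i n : ℝ) ≤
      ((n : ℝ) + 1) * ∑ i ∈ range (22 / 2 + 1), γ i * (cfn 22 i (n + 1) : ℝ)) :
    0 ≤ (0) * γ 0 + (515973120) * γ 1 + (219967488) * γ 2 + (69628416) * γ 3 + (19365632) * γ 4
       + (4981680) * γ 5 + (1210680) * γ 6 + (280567) * γ 7 + (62184) * γ 8 + (13158) * γ 9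
       + (2640) * γ 10 + (495) * γ 11 := by
  have h1 := h 12 (by norm_num)
  rw [show 12 + 1 = 13 from rfl, c22_12, c22_13] at h1
  norm_num [h0] at h1 ⊢
  linarith

theorem q22_13 (γ : ℕ → ℝ) (h0 : γ 0 = 1)
    (h : ∀ n < 22, 2 * (((22 : ℕ) : ℝ) - ((n : ℕ) : ℝ)) * ∑ i ∈ range (22 / 2 + 1), γ i * (cfn 22 i n : ℝ) ≤
      ((n : ℝ) + 1) * ∑ i ∈ range (22 / 2 + 1), γ i * (cfn 22 i (n + 1) : ℝ)) :
    0 ≤ (0) * γ 0 + (635043840) * γ 1 + (282427392) * γ 2 + (93609984) * γ 3 + (27382784) * γ 4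
       + (7448320) * γ 5 + (1926720) * γ 6 + (479248) * γ 7 + (115256) * γ 8 + (26856) * γ 9
       + (6060) * γ 10 + (1320) * γ 11 := by
  have h1 := h 13 (by norm_num)
  rw [show 13 + 1 = 14 from rfl, c22_13, c22_14] at h1
  norm_num [h0] at h1 ⊢
  linarith

theorem q22_14 (γ : ℕ → ℝ) (h0 : γ 0 = 1)
    (h : ∀ n < 22, 2 * (((22 : ℕ) : ℝ) - ((n : ℕ) : ℝ)) * ∑ i ∈ range (22 / 2 + 1), γ i * (cfn 22 i n : ℝ) ≤
      ((n : ℝ) + 1) * ∑ i ∈ range (22 / 2 + 1), γ i * (cfn 22 i (n + 1) : ℝ)) :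
    0 ≤ (0) * γ 0 + (635043840) * γ 1 + (292454400) * γ 2 + (100638720) * γ 3 + (30657536) * γ 4
       + (8715520) * γ 5 + (2366400) * γ 6 + (621040) * γ 7 + (158600) * γ 8 + (39564) * γ 9
       + (9660) * γ 10 + (2310) * γ 11 := by
  have h1 := h 14 (by norm_num)
  rw [show 14 + 1 = 15 from rfl, c22_14, c22_15] at h1
  norm_num [h0] at h1 ⊢
  linarith

theorem q22_15 (γ : ℕ → ℝ) (h0 : γ 0 = 1)
    (h : ∀ n < 22, 2 * (((22 : ℕ) : ℝ) - ((n : ℕ) : ℝ)) * ∑ i ∈ range (22 / 2 + 1), γ i * (cfn 22 i n : ℝ) ≤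
      ((n : ℝ) + 1) * ∑ i ∈ range (22 / 2 + 1), γ i * (cfn 22 i (n + 1) : ℝ)) :
    0 ≤ (0) * γ 0 + (508035072) * γ 1 + (240648192) * γ 2 + (85327872) * γ 3 + (26836992) * γ 4
       + (7895040) * γ 5 + (2224128) * γ 6 + (607488) * γ 7 + (162048) * γ 8 + (42408) * γ 9
       + (10920) * γ 10 + (2772) * γ 11 := by
  have h1 := h 15 (by norm_num)
  rw [show 15 + 1 = 16 from rfl, c22_15, c22_16] at h1
  norm_num [h0] at h1 ⊢
  linarith

theorem q22_16 (γ : ℕ → ℝ) (h0 : γ 0 = 1)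
    (h : ∀ n < 22, 2 * (((22 : ℕ) : ℝ) - ((n : ℕ) : ℝ)) * ∑ i ∈ range (22 / 2 + 1), γ i * (cfn 22 i n : ℝ) ≤
      ((n : ℝ) + 1) * ∑ i ∈ range (22 / 2 + 1), γ i * (cfn 22 i (n + 1) : ℝ)) :
    0 ≤ (0) * γ 0 + (317521920) * γ 1 + (153747456) * γ 2 + (55787520) * γ 3 + (17977344) * γ 4
       + (5425920) * γ 5 + (1570560) * γ 6 + (441504) * γ 7 + (121440) * γ 8 + (32841) * γ 9
       + (8760) * γ 10 + (2310) * γ 11 := by
  have h1 := h 16 (by norm_num)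
  rw [show 16 + 1 = 17 from rfl, c22_16, c22_17] at h1
  norm_num [h0] at h1 ⊢
  linarith

theorem q22_17 (γ : ℕ → ℝ) (h0 : γ 0 = 1)
    (h : ∀ n < 22, 2 * (((22 : ℕ) : ℝ) - ((n : ℕ) : ℝ)) * ∑ i ∈ range (22 / 2 + 1), γ i * (cfn 22 i n : ℝ) ≤
      ((n : ℝ) + 1) * ∑ i ∈ range (22 / 2 + 1), γ i * (cfn 22 i (n + 1) : ℝ)) :
    0 ≤ (0) * γ 0 + (149422080) * γ 1 + (73531392) * γ 2 + (27131904) * γ 3 + (8896512) * γ 4
       + (2734080) * γ 5 + (806400) * γ 6 + (231168) * γ 7 + (64896) * γ 8 + (17928) * γ 9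
       + (4890) * γ 10 + (1320) * γ 11 := by
  have h1 := h 17 (by norm_num)
  rw [show 17 + 1 = 18 from rfl, c22_17, c22_18] at h1
  norm_num [h0] at h1 ⊢
  linarith

theorem m22_0 (γ : ℕ → ℝ) : Mat 22 γ 0 = (1) * γ 0 + (0) * γ 1 + (0) * γ 2 + (0) * γ 3 + (0) * γ 4 + (0) * γ 5 + (0) * γ 6 + (0) * γ 7
       + (0) * γ 8 + (0) * γ 9 + (0) * γ 10 + (0) * γ 11 := by
  unfold Mat
  rw [show (22 / 2 + 1 : ℕ) = 12 from rfl]
  simp [sum_range_succ, Nat.choose]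
  try ring

theorem m22_1 (γ : ℕ → ℝ) : Mat 22 γ 1 = (924) * γ 0 + (42) * γ 1 + (1) * γ 2 + (0) * γ 3 + (0) * γ 4 + (0) * γ 5 + (0) * γ 6
       + (0) * γ 7 + (0) * γ 8 + (0) * γ 9 + (0) * γ 10 + (0) * γ 11 := by
  unfold Mat
  rw [show (22 / 2 + 1 : ℕ) = 12 from rfl]
  simp [sum_range_succ, Nat.choose]
  try ring

theorem m22_2 (γ : ℕ → ℝ) : Mat 22 γ 2 = (117040) * γ 0 + (10640) * γ 1 + (760) * γ 2 + (38) * γ 3 + (1) * γ 4 + (0) * γ 5 + (0) * γ 6
       + (0) * γ 7 + (0) * γ 8 + (0) * γ 9 + (0) * γ 10 + (0) * γ 11 := by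
  unfold Mat
  rw [show (22 / 2 + 1 : ℕ) = 12 from rfl]
  simp [sum_range_succ, Nat.choose]
  try ring

theorem m22_3 (γ : ℕ → ℝ) : Mat 22 γ 3 = (4775232) * γ 0 + (651168) * γ 1 + (77520) * γ 2 + (7752) * γ 3 + (612) * γ 4 + (34) * γ 5
       + (1) * γ 6 + (0) * γ 7 + (0) * γ 8 + (0) * γ 9 + (0) * γ 10 + (0) * γ 11 := by
  unfold Mat
  rw [show (22 / 2 + 1 : ℕ) = 12 from rfl]
  simp [sum_range_succ, Nat.choose]
  try ring

theorem m22_4 (γ : ℕ → ℝ) : Mat 22 γ 4 = (81861120) * γ 0 + (14883840) * γ 1 + (2480640) * γ 2 + (372096) * γ 3 + (48960) * γ 4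
       + (5440) * γ 5 + (480) * γ 6 + (30) * γ 7 + (1) * γ 8 + (0) * γ 9 + (0) * γ 10 + (0) * γ 11 := by
  unfold Mat
  rw [show (22 / 2 + 1 : ℕ) = 12 from rfl]
  simp [sum_range_succ, Nat.choose]
  try ring

theorem m22_5 (γ : ℕ → ℝ) : Mat 22 γ 5 = (662165504) * γ 0 + (150492160) * γ 1 + (32248320) * γ 2 + (6449664) * γ 3 + (1188096) * γ 4
       + (198016) * γ 5 + (29120) * γ 6 + (3640) * γ 7 + (364) * γ 8 + (26) * γ 9 + (1) * γ 10
       + (0) * γ 11 := by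
  unfold Mat
  rw [show (22 / 2 + 1 : ℕ) = 12 from rfl]
  simp [sum_range_succ, Nat.choose]
  try ring

theorem m22_6 (γ : ℕ → ℝ) : Mat 22 γ 6 = (2648662016) * γ 0 + (722362368) * γ 1 + (189190144) * γ 2 + (47297536) * γ 3
       + (11202048) * γ 4 + (2489344) * γ 5 + (512512) * γ 6 + (96096) * γ 7 + (16016) * γ 8
       + (2288) * γ 9 + (264) * γ 10 + (22) * γ 11 := by
  unfold Mat
  rw [show (22 / 2 + 1 : ℕ) = 12 from rfl]
  simp [sum_range_succ, Nat.choose]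
  try ring

theorem m22_7 (γ : ℕ → ℝ) : Mat 22 γ 7 = (5239111680) * γ 0 + (1666990080) * γ 1 + (515973120) * γ 2 + (154791936) * γ 3
       + (44808192) * γ 4 + (12446720) * γ 5 + (3294720) * γ 6 + (823680) * γ 7 + (192192) * γ 8
       + (41184) * γ 9 + (7920) * γ 10 + (1320) * γ 11 := by
  unfold Mat
  rw [show (22 / 2 + 1 : ℕ) = 12 from rfl]
  simp [sum_range_succ, Nat.choose]
  try ring

theorem m22_8 (γ : ℕ → ℝ) : Mat 22 γ 8 = (4889837568) * γ 0 + (1778122752) * γ 1 + (635043840) * γ 2 + (222265344) * γ 3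
       + (76038144) * γ 4 + (25346048) * γ 5 + (8200192) * γ 6 + (2562560) * γ 7 + (768768) * γ 8
       + (219648) * γ 9 + (59136) * γ 10 + (14784) * γ 11 := by
  unfold Mat
  rw [show (22 / 2 + 1 : ℕ) = 12 from rfl]
  simp [sum_range_succ, Nat.choose]
  try ring

theorem m22_9 (γ : ℕ → ℝ) : Mat 22 γ 9 = (1917583360) * γ 0 + (784465920) * γ 1 + (317521920) * γ 2 + (127008768) * γ 3
       + (50135040) * γ 4 + (19496960) * γ 5 + (7454720) * γ 6 + (2795520) * γ 7 + (1025024) * γ 8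
       + (366080) * γ 9 + (126720) * γ 10 + (42240) * γ 11 := by
  unfold Mat
  rw [show (22 / 2 + 1 : ℕ) = 12 from rfl]
  simp [sum_range_succ, Nat.choose]
  try ring

theorem m22_10 (γ : ℕ → ℝ) : Mat 22 γ 10 = (242221056) * γ 0 + (110100480) * γ 1 + (49807360) * γ 2 + (22413312) * γ 3
       + (10027008) * γ 4 + (4456448) * γ 5 + (1966080) * γ 6 + (860160) * γ 7 + (372736) * γ 8
       + (159744) * γ 9 + (67584) * γ 10 + (28160) * γ 11 := by
  unfold Mat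
  rw [show (22 / 2 + 1 : ℕ) = 12 from rfl]
  simp [sum_range_succ, Nat.choose]
  try ring

theorem m22_11 (γ : ℕ → ℝ) : Mat 22 γ 11 = (4194304) * γ 0 + (2097152) * γ 1 + (1048576) * γ 2 + (524288) * γ 3 + (262144) * γ 4
       + (131072) * γ 5 + (65536) * γ 6 + (32768) * γ 7 + (16384) * γ 8 + (8192) * γ 9
       + (4096) * γ 10 + (2048) * γ 11 := by
  unfold Mat
  rw [show (22 / 2 + 1 : ℕ) = 12 from rfl]
  simp [sum_range_succ, Nat.choose]
  try ring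

theorem mm22_0 (γ : ℕ → ℝ) : Mat 22 (Mat 22 γ) 0 =
      (1) * γ 0 + (0) * γ 1 + (0) * γ 2 + (0) * γ 3 + (0) * γ 4 + (0) * γ 5 + (0) * γ 6 + (0) * γ 7
       + (0) * γ 8 + (0) * γ 9 + (0) * γ 10 + (0) * γ 11 := by
  rw [m22_0]
  simp only [m22_0, m22_1, m22_2, m22_3, m22_4, m22_5, m22_6, m22_7, m22_8, m22_9, m22_10, m22_11]
  ring

theorem mm22_1 (γ : ℕ → ℝ) : Mat 22 (Mat 22 γ) 1 =
      (156772) * γ 0 + (12404) * γ 1 + (802) * γ 2 + (38) * γ 3 + (1) * γ 4 + (0) * γ 5 + (0) * γ 6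
       + (0) * γ 7 + (0) * γ 8 + (0) * γ 9 + (0) * γ 10 + (0) * γ 11 := by
  rw [m22_1]
  simp only [m22_0, m22_1, m22_2, m22_3, m22_4, m22_5, m22_6, m22_7, m22_8, m22_9, m22_10, m22_11]
  ring

theorem mm22_2 (γ : ℕ → ℝ) : Mat 22 (Mat 22 γ) 2 =
      (362218736) * γ 0 + (48161504) * γ 1 + (6014640) * γ 2 + (695552) * γ 3 + (72976) * γ 4
       + (6732) * γ 5 + (518) * γ 6 + (30) * γ 7 + (1) * γ 8 + (0) * γ 9 + (0) * γ 10 + (0) * γ 11 := by
  rw [m22_2]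
  simp only [m22_0, m22_1, m22_2, m22_3, m22_4, m22_5, m22_6, m22_7, m22_8, m22_9, m22_10, m22_11]
  ring

theorem mm22_3 (γ : ℕ → ℝ) : Mat 22 (Mat 22 γ) 3 =
      (121958288320) * γ 0 + (20848022080) * γ 1 + (3464286112) * γ 2 + (557348128) * γ 3
       + (86382576) * γ 4 + (12814736) * γ 5 + (1804104) * γ 6 + (238216) * γ 7 + (29004) * γ 8
       + (3172) * γ 9 + (298) * γ 10 + (22) * γ 11 := by
  rw [m22_3]
  simp only [m22_0, m22_1, m22_2, m22_3, m22_4, m22_5, m22_6, m22_7, m22_8, m22_9, m22_10, m22_11]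
  ring

theorem mm22_4 (γ : ℕ → ℝ) : Mat 22 (Mat 22 γ) 4 =
      (11124535093760) * γ 0 + (2215228057600) * γ 1 + (434553553920) * γ 2 + (83851585536) * γ 3
       + (15887794176) * γ 4 + (2949833472) * γ 5 + (535333248) * γ 6 + (94669440) * γ 7
       + (16251328) * γ 8 + (2694848) * γ 9 + (428896) * γ 10 + (64944) * γ 11 := by
  rw [m22_4]
  simp only [m22_0, m22_1, m22_2, m22_3, m22_4, m22_5, m22_6, m22_7, m22_8, m22_9, m22_10, m22_11]
  ring

theorem mm22_5 (γ : ℕ → ℝ) : Mat 22 (Mat 22 γ) 5 =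
      (361120340568064) * γ 0 + (79803322869760) * γ 1 + (17484379448320) * γ 2
       + (3795421789184) * γ 3 + (815707519488) * γ 4 + (173425964032) * γ 5 + (36440750592) * γ 6
       + (7559247360) * γ 7 + (1546085632) * γ 8 + (311314432) * γ 9 + (61602304) * γ 10
       + (11953216) * γ 11 := by
  rw [m22_5]
  simp only [m22_0, m22_1, m22_2, m22_3, m22_4, m22_5, m22_6, m22_7, m22_8, m22_9, m22_10, m22_11]
  ring

theorem mm22_6 (γ : ℕ → ℝ) : Mat 22 (Mat 22 γ) 6 =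
      (4757735404331008) * γ 0 + (1134911055282176) * γ 1 + (269332118642688) * γ 2
       + (63569276469248) * γ 3 + (14917428027392) * γ 4 + (3479106611200) * γ 5
       + (806103102464) * γ 6 + (185465893888) * γ 7 + (42351203840) * γ 8 + (9592794112) * γ 9
       + (2153862656) * γ 10 + (479026944) * γ 11 := by
  rw [m22_6]
  simp only [m22_0, m22_1, m22_2, m22_3, m22_4, m22_5, m22_6, m22_7, m22_8, m22_9, m22_10, m22_11]
  ring

theorem mm22_7 (γ : ℕ → ℝ) : Mat 22 (Mat 22 γ) 7 =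
      (26773576410431488) * γ 0 + (6774378567729152) * γ 1 + (1708780397936640) * γ 2
       + (429627380219904) * γ 3 + (107650623528960) * γ 4 + (26877213532160) * γ 5
       + (6685174067200) * γ 6 + (1656198410240) * γ 7 + (408587700224) * γ 8
       + (100351584256) * γ 9 + (24530772992) * γ 10 + (5966450688) * γ 11 := by
  rw [m22_7]
  simp only [m22_0, m22_1, m22_2, m22_3, m22_4, m22_5, m22_6, m22_7, m22_8, m22_9, m22_10, m22_11]
  ring

theorem mm22_8 (γ : ℕ → ℝ) : Mat 22 (Mat 22 γ) 8 =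
      (63484993359642624) * γ 0 + (16838769066377216) * γ 1 + (4458218080436224) * γ 2
       + (1178127505555456) * γ 3 + (310720237928448) * γ 4 + (81781866299392) * γ 5
       + (21479106510848) * γ 6 + (5628671197184) * γ 7 + (1471572852736) * γ 8
       + (383792332800) * γ 9 + (99838533632) * γ 10 + (25901928448) * γ 11 := by
  rw [m22_8]
  simp only [m22_0, m22_1, m22_2, m22_3, m22_4, m22_5, m22_6, m22_7, m22_8, m22_9, m22_10, m22_11]
  ring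

theorem mm22_9 (γ : ℕ → ℝ) : Mat 22 (Mat 22 γ) 9 =
      (57794847120293888) * γ 0 + (15935406560509952) * γ 1 + (4389501220290560) * γ 2
       + (1207899409743872) * γ 3 + (332043300175872) * γ 4 + (91178192338944) * γ 5
       + (25009359814656) * γ 6 + (6851908730880) * γ 7 + (1874990006272) * γ 8
       + (512441843712) * γ 9 + (139870797824) * γ 10 + (38126206976) * γ 11 := by
  rw [m22_9]
  simp only [m22_0, m22_1, m22_2, m22_3, m22_4, m22_5, m22_6, m22_7, m22_8, m22_9, m22_10, m22_11]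
  ring

theorem mm22_10 (γ : ℕ → ℝ) : Mat 22 (Mat 22 γ) 10 =
      (15744073464807424) * γ 0 + (4484714838622208) * γ 1 + (1276965830000640) * γ 2
       + (363450542850048) * γ 3 + (103401686827008) * γ 4 + (29404959604736) * γ 5
       + (8358307692544) * γ 6 + (2374733004800) * γ 7 + (674378088448) * γ 8
       + (191415713792) * γ 9 + (54303784960) * γ 10 + (15397617664) * γ 11 := by
  rw [m22_10]
  simp only [m22_0, m22_1, m22_2, m22_3, m22_4, m22_5, m22_6, m22_7, m22_8, m22_9, m22_10, m22_11]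
  ring

theorem mm22_11 (γ : ℕ → ℝ) : Mat 22 (Mat 22 γ) 11 =
      (552961616904192) * γ 0 + (161958707855360) * γ 1 + (47436607258624) * γ 2
       + (13893860589568) * γ 3 + (4069417549824) * γ 4 + (1191904804864) * γ 5
       + (349100834816) * γ 6 + (102249267200) * γ 7 + (29948116992) * γ 8 + (8771600384) * γ 9
       + (2569142272) * γ 10 + (752484352) * γ 11 := by
  rw [m22_11]
  simp only [m22_0, m22_1, m22_2, m22_3, m22_4, m22_5, m22_6, m22_7, m22_8, m22_9, m22_10, m22_11]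
  ring

theorem p22_0 (γ : ℕ → ℝ) (h0 : γ 0 = 1)
    (h : ∀ n < 22, 2 * (((22 : ℕ) : ℝ) - ((n : ℕ) : ℝ)) * ∑ i ∈ range (22 / 2 + 1), γ i * (cfn 22 i n : ℝ) ≤
      ((n : ℝ) + 1) * ∑ i ∈ range (22 / 2 + 1), γ i * (cfn 22 i (n + 1) : ℝ)) :
    0 < Mat 22 (Mat 22 (Mat 22 γ)) 0 := by

  rw [m22_0]
  simp only [mm22_0, mm22_1, mm22_2, mm22_3, mm22_4, mm22_5, mm22_6, mm22_7, mm22_8, mm22_9, mm22_10, mm22_11]
  linarith only [h0]

theorem p22_1 (γ : ℕ → ℝ) (h0 : γ 0 = 1)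
    (h : ∀ n < 22, 2 * (((22 : ℕ) : ℝ) - ((n : ℕ) : ℝ)) * ∑ i ∈ range (22 / 2 + 1), γ i * (cfn 22 i n : ℝ) ≤
      ((n : ℝ) + 1) * ∑ i ∈ range (22 / 2 + 1), γ i * (cfn 22 i (n + 1) : ℝ)) :
    0 < Mat 22 (Mat 22 (Mat 22 γ)) 1 := by
  have k0 := q22_0 γ h0 h
  have k1 := q22_1 γ h0 h
  have k2 := q22_2 γ h0 h
  have k6 := q22_6 γ h0 h
  have k3 := q22_3 γ h0 h
  have k4 := q22_4 γ h0 h
  have k7 := q22_7 γ h0 h
  have k5 := q22_5 γ h0 h
  rw [m22_1]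
  simp only [mm22_0, mm22_1, mm22_2, mm22_3, mm22_4, mm22_5, mm22_6, mm22_7, mm22_8, mm22_9, mm22_10, mm22_11]
  linarith only [h0, k0, k1, k2, k6, k3, k4, k7, k5]

theorem p22_2 (γ : ℕ → ℝ) (h0 : γ 0 = 1)
    (h : ∀ n < 22, 2 * (((22 : ℕ) : ℝ) - ((n : ℕ) : ℝ)) * ∑ i ∈ range (22 / 2 + 1), γ i * (cfn 22 i n : ℝ) ≤
      ((n : ℝ) + 1) * ∑ i ∈ range (22 / 2 + 1), γ i * (cfn 22 i (n + 1) : ℝ)) :
    0 < Mat 22 (Mat 22 (Mat 22 γ)) 2 := by
  have k8 := q22_8 γ h0 h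
  have k0 := q22_0 γ h0 h
  have k1 := q22_1 γ h0 h
  have k6 := q22_6 γ h0 h
  have k11 := q22_11 γ h0 h
  have k9 := q22_9 γ h0 h
  have k2 := q22_2 γ h0 h
  have k4 := q22_4 γ h0 h
  have k5 := q22_5 γ h0 h
  have k3 := q22_3 γ h0 h
  have k12 := q22_12 γ h0 h
  rw [m22_2]
  simp only [mm22_0, mm22_1, mm22_2, mm22_3, mm22_4, mm22_5, mm22_6, mm22_7, mm22_8, mm22_9, mm22_10, mm22_11]
  linarith only [h0, k8, k0, k1, k6, k11, k9, k2, k4, k5, k3, k12]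

theorem p22_3 (γ : ℕ → ℝ) (h0 : γ 0 = 1)
    (h : ∀ n < 22, 2 * (((22 : ℕ) : ℝ) - ((n : ℕ) : ℝ)) * ∑ i ∈ range (22 / 2 + 1), γ i * (cfn 22 i n : ℝ) ≤
      ((n : ℝ) + 1) * ∑ i ∈ range (22 / 2 + 1), γ i * (cfn 22 i (n + 1) : ℝ)) :
    0 < Mat 22 (Mat 22 (Mat 22 γ)) 3 := by
  have k13 := q22_13 γ h0 h
  have k3 := q22_3 γ h0 h
  have k0 := q22_0 γ h0 h
  have k1 := q22_1 γ h0 h
  have k2 := q22_2 γ h0 h
  have k12 := q22_12 γ h0 h
  have k5 := q22_5 γ h0 h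
  have k4 := q22_4 γ h0 h
  have k9 := q22_9 γ h0 h
  have k6 := q22_6 γ h0 h
  have k10 := q22_10 γ h0 h
  rw [m22_3]
  simp only [mm22_0, mm22_1, mm22_2, mm22_3, mm22_4, mm22_5, mm22_6, mm22_7, mm22_8, mm22_9, mm22_10, mm22_11]
  linarith only [h0, k13, k3, k0, k1, k2, k12, k5, k4, k9, k6, k10]

theorem p22_4 (γ : ℕ → ℝ) (h0 : γ 0 = 1)
    (h : ∀ n < 22, 2 * (((22 : ℕ) : ℝ) - ((n : ℕ) : ℝ)) * ∑ i ∈ range (22 / 2 + 1), γ i * (cfn 22 i n : ℝ) ≤
      ((n : ℝ) + 1) * ∑ i ∈ range (22 / 2 + 1), γ i * (cfn 22 i (n + 1) : ℝ)) :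
    0 < Mat 22 (Mat 22 (Mat 22 γ)) 4 := by
  have k2 := q22_2 γ h0 h
  have k0 := q22_0 γ h0 h
  have k4 := q22_4 γ h0 h
  have k10 := q22_10 γ h0 h
  have k13 := q22_13 γ h0 h
  have k1 := q22_1 γ h0 h
  have k14 := q22_14 γ h0 h
  have k3 := q22_3 γ h0 h
  have k9 := q22_9 γ h0 h
  have k6 := q22_6 γ h0 h
  have k7 := q22_7 γ h0 h
  rw [m22_4]
  simp only [mm22_0, mm22_1, mm22_2, mm22_3, mm22_4, mm22_5, mm22_6, mm22_7, mm22_8, mm22_9, mm22_10, mm22_11]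
  linarith only [h0, k2, k0, k4, k10, k13, k1, k14, k3, k9, k6, k7]

theorem p22_5 (γ : ℕ → ℝ) (h0 : γ 0 = 1)
    (h : ∀ n < 22, 2 * (((22 : ℕ) : ℝ) - ((n : ℕ) : ℝ)) * ∑ i ∈ range (22 / 2 + 1), γ i * (cfn 22 i n : ℝ) ≤
      ((n : ℝ) + 1) * ∑ i ∈ range (22 / 2 + 1), γ i * (cfn 22 i (n + 1) : ℝ)) :
    0 < Mat 22 (Mat 22 (Mat 22 γ)) 5 := by
  have k10 := q22_10 γ h0 h
  have k0 := q22_0 γ h0 h
  have k4 := q22_4 γ h0 h
  have k6 := q22_6 γ h0 h
  have k1 := q22_1 γ h0 h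
  have k14 := q22_14 γ h0 h
  have k2 := q22_2 γ h0 h
  have k3 := q22_3 γ h0 h
  have k9 := q22_9 γ h0 h
  have k15 := q22_15 γ h0 h
  have k7 := q22_7 γ h0 h
  rw [m22_5]
  simp only [mm22_0, mm22_1, mm22_2, mm22_3, mm22_4, mm22_5, mm22_6, mm22_7, mm22_8, mm22_9, mm22_10, mm22_11]
  linarith only [h0, k10, k0, k4, k6, k1, k14, k2, k3, k9, k15, k7]

theorem p22_6 (γ : ℕ → ℝ) (h0 : γ 0 = 1)
    (h : ∀ n < 22, 2 * (((22 : ℕ) : ℝ) - ((n : ℕ) : ℝ)) * ∑ i ∈ range (22 / 2 + 1), γ i * (cfn 22 i n : ℝ) ≤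
      ((n : ℝ) + 1) * ∑ i ∈ range (22 / 2 + 1), γ i * (cfn 22 i (n + 1) : ℝ)) :
    0 < Mat 22 (Mat 22 (Mat 22 γ)) 6 := by
  have k14 := q22_14 γ h0 h
  have k0 := q22_0 γ h0 h
  have k2 := q22_2 γ h0 h
  have k6 := q22_6 γ h0 h
  have k4 := q22_4 γ h0 h
  have k1 := q22_1 γ h0 h
  have k9 := q22_9 γ h0 h
  have k3 := q22_3 γ h0 h
  have k15 := q22_15 γ h0 h
  have k10 := q22_10 γ h0 h
  have k7 := q22_7 γ h0 h
  rw [m22_6]
  simp only [mm22_0, mm22_1, mm22_2, mm22_3, mm22_4, mm22_5, mm22_6, mm22_7, mm22_8, mm22_9, mm22_10, mm22_11]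
  linarith only [h0, k14, k0, k2, k6, k4, k1, k9, k3, k15, k10, k7]

theorem p22_7 (γ : ℕ → ℝ) (h0 : γ 0 = 1)
    (h : ∀ n < 22, 2 * (((22 : ℕ) : ℝ) - ((n : ℕ) : ℝ)) * ∑ i ∈ range (22 / 2 + 1), γ i * (cfn 22 i n : ℝ) ≤
      ((n : ℝ) + 1) * ∑ i ∈ range (22 / 2 + 1), γ i * (cfn 22 i (n + 1) : ℝ)) :
    0 < Mat 22 (Mat 22 (Mat 22 γ)) 7 := by
  have k2 := q22_2 γ h0 h
  have k0 := q22_0 γ h0 h
  have k1 := q22_1 γ h0 h
  have k6 := q22_6 γ h0 h
  have k3 := q22_3 γ h0 h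
  have k7 := q22_7 γ h0 h
  have k9 := q22_9 γ h0 h
  have k15 := q22_15 γ h0 h
  have k4 := q22_4 γ h0 h
  have k10 := q22_10 γ h0 h
  have k16 := q22_16 γ h0 h
  rw [m22_7]
  simp only [mm22_0, mm22_1, mm22_2, mm22_3, mm22_4, mm22_5, mm22_6, mm22_7, mm22_8, mm22_9, mm22_10, mm22_11]
  linarith only [h0, k2, k0, k1, k6, k3, k7, k9, k15, k4, k10, k16]

theorem p22_8 (γ : ℕ → ℝ) (h0 : γ 0 = 1)
    (h : ∀ n < 22, 2 * (((22 : ℕ) : ℝ) - ((n : ℕ) : ℝ)) * ∑ i ∈ range (22 / 2 + 1), γ i * (cfn 22 i n : ℝ) ≤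
      ((n : ℝ) + 1) * ∑ i ∈ range (22 / 2 + 1), γ i * (cfn 22 i (n + 1) : ℝ)) :
    0 < Mat 22 (Mat 22 (Mat 22 γ)) 8 := by
  have k2 := q22_2 γ h0 h
  have k0 := q22_0 γ h0 h
  have k15 := q22_15 γ h0 h
  have k6 := q22_6 γ h0 h
  have k1 := q22_1 γ h0 h
  have k10 := q22_10 γ h0 h
  have k9 := q22_9 γ h0 h
  have k3 := q22_3 γ h0 h
  have k4 := q22_4 γ h0 h
  have k16 := q22_16 γ h0 h
  have k7 := q22_7 γ h0 h
  rw [m22_8]
  simp only [mm22_0, mm22_1, mm22_2, mm22_3, mm22_4, mm22_5, mm22_6, mm22_7, mm22_8, mm22_9, mm22_10, mm22_11]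
  linarith only [h0, k2, k0, k15, k6, k1, k10, k9, k3, k4, k16, k7]

theorem p22_9 (γ : ℕ → ℝ) (h0 : γ 0 = 1)
    (h : ∀ n < 22, 2 * (((22 : ℕ) : ℝ) - ((n : ℕ) : ℝ)) * ∑ i ∈ range (22 / 2 + 1), γ i * (cfn 22 i n : ℝ) ≤
      ((n : ℝ) + 1) * ∑ i ∈ range (22 / 2 + 1), γ i * (cfn 22 i (n + 1) : ℝ)) :
    0 < Mat 22 (Mat 22 (Mat 22 γ)) 9 := by
  have k4 := q22_4 γ h0 h
  have k0 := q22_0 γ h0 h
  have k15 := q22_15 γ h0 h
  have k6 := q22_6 γ h0 h
  have k2 := q22_2 γ h0 h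
  have k1 := q22_1 γ h0 h
  have k9 := q22_9 γ h0 h
  have k3 := q22_3 γ h0 h
  have k16 := q22_16 γ h0 h
  have k10 := q22_10 γ h0 h
  have k7 := q22_7 γ h0 h
  rw [m22_9]
  simp only [mm22_0, mm22_1, mm22_2, mm22_3, mm22_4, mm22_5, mm22_6, mm22_7, mm22_8, mm22_9, mm22_10, mm22_11]
  linarith only [h0, k4, k0, k15, k6, k2, k1, k9, k3, k16, k10, k7]

theorem p22_10 (γ : ℕ → ℝ) (h0 : γ 0 = 1)
    (h : ∀ n < 22, 2 * (((22 : ℕ) : ℝ) - ((n : ℕ) : ℝ)) * ∑ i ∈ range (22 / 2 + 1), γ i * (cfn 22 i n : ℝ) ≤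
      ((n : ℝ) + 1) * ∑ i ∈ range (22 / 2 + 1), γ i * (cfn 22 i (n + 1) : ℝ)) :
    0 < Mat 22 (Mat 22 (Mat 22 γ)) 10 := by
  have k9 := q22_9 γ h0 h
  have k0 := q22_0 γ h0 h
  have k15 := q22_15 γ h0 h
  have k6 := q22_6 γ h0 h
  have k2 := q22_2 γ h0 h
  have k1 := q22_1 γ h0 h
  have k16 := q22_16 γ h0 h
  have k3 := q22_3 γ h0 h
  have k4 := q22_4 γ h0 h
  have k10 := q22_10 γ h0 h
  have k7 := q22_7 γ h0 h
  rw [m22_10]
  simp only [mm22_0, mm22_1, mm22_2, mm22_3, mm22_4, mm22_5, mm22_6, mm22_7, mm22_8, mm22_9, mm22_10, mm22_11]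
  linarith only [h0, k9, k0, k15, k6, k2, k1, k16, k3, k4, k10, k7]

theorem p22_11 (γ : ℕ → ℝ) (h0 : γ 0 = 1)
    (h : ∀ n < 22, 2 * (((22 : ℕ) : ℝ) - ((n : ℕ) : ℝ)) * ∑ i ∈ range (22 / 2 + 1), γ i * (cfn 22 i n : ℝ) ≤
      ((n : ℝ) + 1) * ∑ i ∈ range (22 / 2 + 1), γ i * (cfn 22 i (n + 1) : ℝ)) :
    0 < Mat 22 (Mat 22 (Mat 22 γ)) 11 := by
  have k0 := q22_0 γ h0 h
  have k4 := q22_4 γ h0 h
  have k3 := q22_3 γ h0 h
  have k6 := q22_6 γ h0 h
  have k16 := q22_16 γ h0 h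
  have k1 := q22_1 γ h0 h
  have k2 := q22_2 γ h0 h
  have k9 := q22_9 γ h0 h
  have k17 := q22_17 γ h0 h
  have k10 := q22_10 γ h0 h
  have k7 := q22_7 γ h0 h
  rw [m22_11]
  simp only [mm22_0, mm22_1, mm22_2, mm22_3, mm22_4, mm22_5, mm22_6, mm22_7, mm22_8, mm22_9, mm22_10, mm22_11]
  linarith only [h0, k0, k4, k3, k6, k16, k1, k2, k9, k17, k10, k7]

theorem main22 (γ : ℕ → ℝ) (h0 : γ 0 = 1)
    (h : ∀ n < 22, 2 * (((22 : ℕ) : ℝ) - ((n : ℕ) : ℝ)) * ∑ i ∈ range (22 / 2 + 1), γ i * (cfn 22 i n : ℝ) ≤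
      ((n : ℝ) + 1) * ∑ i ∈ range (22 / 2 + 1), γ i * (cfn 22 i (n + 1) : ℝ)) :
    ∀ j ≤ 22 / 2, 0 < Mat 22 (Mat 22 (Mat 22 γ)) j := by
  intro j hj
  have hj' : j ≤ 11 := hj
  clear hj
  interval_cases j
  · exact p22_0 γ h0 h
  · exact p22_1 γ h0 h
  · exact p22_2 γ h0 h
  · exact p22_3 γ h0 h
  · exact p22_4 γ h0 h
  · exact p22_5 γ h0 h
  · exact p22_6 γ h0 h
  · exact p22_7 γ h0 h
  · exact p22_8 γ h0 h
  · exact p22_9 γ h0 h
  · exact p22_10 γ h0 h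
  · exact p22_11 γ h0 h

theorem c23_0 (γ : ℕ → ℝ) : ∑ i ∈ range (23 / 2 + 1), γ i * (cfn 23 i 0 : ℝ) =
    (1) * γ 0 + (0) * γ 1 + (0) * γ 2 + (0) * γ 3 + (0) * γ 4 + (0) * γ 5 + (0) * γ 6 + (0) * γ 7
       + (0) * γ 8 + (0) * γ 9 + (0) * γ 10 + (0) * γ 11 := by
  have h : ((23 / 2 + 1 : ℕ)) = 12 := rfl
  rw [h]
  simp only [sum_range_succ, sum_range_zero, show cfn 23 0 0 = 1 from by decide +kernel, show cfn 23 1 0 = 0 from by decide +kernel, show cfn 23 2 0 = 0 from by decide +kernel, show cfn 23 3 0 = 0 from by decide +kernel, show cfn 23 4 0 = 0 from by decide +kernel, show cfn 23 5 0 = 0 from by decide +kernel, show cfn 23 6 0 = 0 from by decide +kernel, show cfn 23 7 0 = 0 from by decide +kernel, show cfn 23 8 0 = 0 from by decide +kernel, show cfn 23 9 0 = 0 from by decide +kernel, show cfn 23 10 0 = 0 from by decide +kernel, show cfn 23 11 0 = 0 from by decide +kernel, Nat.cast_ofNat,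 Nat.cast_one, Nat.cast_zero]
  ring

theorem c23_1 (γ : ℕ → ℝ) : ∑ i ∈ range (23 / 2 + 1), γ i * (cfn 23 i 1 : ℝ) =
    (46) * γ 0 + (1) * γ 1 + (0) * γ 2 + (0) * γ 3 + (0) * γ 4 + (0) * γ 5 + (0) * γ 6
       + (0) * γ 7 + (0) * γ 8 + (0) * γ 9 + (0) * γ 10 + (0) * γ 11 := by
  have h : ((23 / 2 + 1 : ℕ)) = 12 := rfl
  rw [h]
  simp only [sum_range_succ, sum_range_zero, show cfn 23 0 1 = 46 from by decide +kernel, show cfn 23 1 1 = 1 from by decide +kernel, show cfn 23 2 1 = 0 from by decide +kernel, show cfn 23 3 1 = 0 from by decide +kernel, show cfn 23 4 1 = 0 from by decide +kernel, show cfn 23 5 1 = 0 from by decide +kernel, show cfn 23 6 1 = 0 from by decide +kernel, show cfn 23 7 1 = 0 from by decide +kernel, show cfn 23 8 1 = 0 from by decide +kernel, show cfn 23 9 1 = 0 from by decide +kernel, show cfn 23 10 1 = 0 from by decide +kernel, show cfn 23 11 1 = 0 from by decide +kernel, Nat.cast_ofNat,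 Nat.cast_one, Nat.cast_zero]
  ring

theorem c23_2 (γ : ℕ → ℝ) : ∑ i ∈ range (23 / 2 + 1), γ i * (cfn 23 i 2 : ℝ) =
    (1012) * γ 0 + (43) * γ 1 + (1) * γ 2 + (0) * γ 3 + (0) * γ 4 + (0) * γ 5 + (0) * γ 6
       + (0) * γ 7 + (0) * γ 8 + (0) * γ 9 + (0) * γ 10 + (0) * γ 11 := by
  have h : ((23 / 2 + 1 : ℕ)) = 12 := rfl
  rw [h]
  simp only [sum_range_succ, sum_range_zero, show cfn 23 0 2 = 1012 from by decide +kernel, show cfn 23 1 2 = 43 from by decide +kernel, show cfn 23 2 2 = 1 from by decide +kernel, show cfn 23 3 2 = 0 from by decide +kernel, show cfn 23 4 2 = 0 from by decide +kernel, show cfn 23 5 2 = 0 from by decide +kernel, show cfn 23 6 2 = 0 from by decide +kernel, show cfn 23 7 2 = 0 from by decide +kernel, show cfn 23 8 2 = 0 from by decide +kernel, show cfn 23 9 2 = 0 from by decide +kernel, show cfn 23 10 2 = 0 from by decide +kernel, show cfn 23 11 2 = 0 from by decide +kernel,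 Nat.cast_ofNat, Nat.cast_one, Nat.cast_zero]
  ring

theorem c23_3 (γ : ℕ → ℝ) : ∑ i ∈ range (23 / 2 + 1), γ i * (cfn 23 i 3 : ℝ) =
    (14168) * γ 0 + (882) * γ 1 + (40) * γ 2 + (1) * γ 3 + (0) * γ 4 + (0) * γ 5 + (0) * γ 6
       + (0) * γ 7 + (0) * γ 8 + (0) * γ 9 + (0) * γ 10 + (0) * γ 11 := by
  have h : ((23 / 2 + 1 : ℕ)) = 12 := rfl
  rw [h]
  simp only [sum_range_succ, sum_range_zero, show cfn 23 0 3 = 14168 from by decide +kernel, show cfn 23 1 3 = 882 from by decide +kernel, show cfn 23 2 3 = 40 from by decide +kernel, show cfn 23 3 3 = 1 from by decide +kernel, show cfn 23 4 3 = 0 from by decide +kernel, show cfn 23 5 3 = 0 from by decide +kernel, show cfn 23 6 3 = 0 from by decide +kernel, show cfn 23 7 3 = 0 from by decide +kernel, show cfn 23 8 3 = 0 from by decide +kernel, show cfn 23 9 3 = 0 from by decide +kernel, show cfn 23 10 3 = 0 from by decide +kernel, show cfn 23 11 3 =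 0 from by decide +kernel, Nat.cast_ofNat, Nat.cast_one, Nat.cast_zero]
  ring

theorem c23_4 (γ : ℕ → ℝ) : ∑ i ∈ range (23 / 2 + 1), γ i * (cfn 23 i 4 : ℝ) =
    (141680) * γ 0 + (11480) * γ 1 + (761) * γ 2 + (37) * γ 3 + (1) * γ 4 + (0) * γ 5 + (0) * γ 6
       + (0) * γ 7 + (0) * γ 8 + (0) * γ 9 + (0) * γ 10 + (0) * γ 11 := by
  have h : ((23 / 2 + 1 : ℕ)) = 12 := rfl
  rw [h]
  simp only [sum_range_succ, sum_range_zero, show cfn 23 0 4 = 141680 from by decide +kernel, show cfn 23 1 4 = 11480 from by decide +kernel, show cfn 23 2 4 = 761 from by decide +kernel, show cfn 23 3 4 = 37 from by decide +kernel, show cfn 23 4 4 = 1 from by decide +kernel, show cfn 23 5 4 = 0 from by decide +kernel, show cfn 23 6 4 = 0 from by decide +kernel, show cfn 23 7 4 = 0 from by decide +kernel, show cfn 23 8 4 = 0 from by decide +kernel, show cfn 23 9 4 = 0 from by decide +kernel, show cfn 23 10 4 = 0 from by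 decide +kernel, show cfn 23 11 4 = 0 from by decide +kernel, Nat.cast_ofNat, Nat.cast_one, Nat.cast_zero]
  ring

theorem c23_5 (γ : ℕ → ℝ) : ∑ i ∈ range (23 / 2 + 1), γ i * (cfn 23 i 5 : ℝ) =
    (1076768) * γ 0 + (106400) * γ 1 + (9158) * γ 2 + (649) * γ 3 + (34) * γ 4 + (1) * γ 5
       + (0) * γ 6 + (0) * γ 7 + (0) * γ 8 + (0) * γ 9 + (0) * γ 10 + (0) * γ 11 := by
  have h : ((23 / 2 + 1 : ℕ)) = 12 := rfl
  rw [h]
  simp only [sum_range_succ, sum_range_zero, show cfn 23 0 5 = 1076768 from by decide +kernel, show cfn 23 1 5 = 106400 from by decide +kernel, show cfn 23 2 5 = 9158 from by decide +kernel, show cfn 23 3 5 = 649 from by decide +kernel, show cfn 23 4 5 = 34 from by decide +kernel, show cfn 23 5 5 = 1 from by decide +kernel, show cfn 23 6 5 = 0 from by decide +kernel, show cfn 23 7 5 = 0 from by decide +kernel, show cfn 23 8 5 = 0 from by decide +kernel, show cfn 23 9 5 = 0 from by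 decide +kernel, show cfn 23 10 5 = 0 from by decide +kernel, show cfn 23 11 5 = 0 from by decide +kernel, Nat.cast_ofNat, Nat.cast_one, Nat.cast_zero]
  ring

theorem c23_6 (γ : ℕ → ℝ) : ∑ i ∈ range (23 / 2 + 1), γ i * (cfn 23 i 6 : ℝ) =
    (6460608) * γ 0 + (746928) * γ 1 + (78204) * γ 2 + (7175) * γ 3 + (546) * γ 4 + (31) * γ 5
       + (1) * γ 6 + (0) * γ 7 + (0) * γ 8 + (0) * γ 9 + (0) * γ 10 + (0) * γ 11 := by
  have h : ((23 / 2 + 1 : ℕ)) = 12 := rfl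
  rw [h]
  simp only [sum_range_succ, sum_range_zero, show cfn 23 0 6 = 6460608 from by decide +kernel, show cfn 23 1 6 = 746928 from by decide +kernel, show cfn 23 2 6 = 78204 from by decide +kernel, show cfn 23 3 6 = 7175 from by decide +kernel, show cfn 23 4 6 = 546 from by decide +kernel, show cfn 23 5 6 = 31 from by decide +kernel, show cfn 23 6 6 = 1 from by decide +kernel, show cfn 23 7 6 = 0 from by decide +kernel, show cfn 23 8 6 = 0 from by decide +kernel, show cfn 23 9 6 = 0 from by decide +kernel, show cfn 23 10 6 = 0 from by decide +kernel, show cfn 23 11 6 = 0 from by decide +kernel, Nat.cast_ofNat, Nat.cast_one, Nat.cast_zero]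
  ring

theorem c23_7 (γ : ℕ → ℝ) : ∑ i ∈ range (23 / 2 + 1), γ i * (cfn 23 i 7 : ℝ) =
    (31380096) * γ 0 + (4124064) * γ 1 + (503880) * γ 2 + (56066) * γ 3 + (5504) * γ 4
       + (452) * γ 5 + (28) * γ 6 + (1) * γ 7 + (0) * γ 8 + (0) * γ 9 + (0) * γ 10 + (0) * γ 11 := by
  have h : ((23 / 2 + 1 : ℕ)) = 12 := rfl
  rw [h]
  simp only [sum_range_succ, sum_range_zero, show cfn 23 0 7 = 31380096 from by decide +kernel, show cfn 23 1 7 = 4124064 from by decide +kernel, show cfn 23 2 7 = 503880 from by decide +kernel, show cfn 23 3 7 = 56066 from by decide +kernel, show cfn 23 4 7 = 5504 from by decide +kernel, show cfn 23 5 7 = 452 from by decide +kernel, show cfn 23 6 7 = 28 from by decide +kernel, show cfn 23 7 7 = 1 from by decide +kernel, show cfn 23 8 7 = 0 from by decide +kernel, show cfn 23 9 7 = 0 from by decide +kernel, show cfn 23 10 7 = 0 from by decide +kernel, show cfn 23 11 7 = 0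 from by decide +kernel, Nat.cast_ofNat, Nat.cast_one, Nat.cast_zero]
  ring

theorem c23_8 (γ : ℕ → ℝ) : ∑ i ∈ range (23 / 2 + 1), γ i * (cfn 23 i 8 : ℝ) =
    (125520384) * γ 0 + (18356736) * γ 1 + (2542656) * γ 2 + (329120) * γ 3 + (39041) * γ 4
       + (4118) * γ 5 + (367) * γ 6 + (25) * γ 7 + (1) * γ 8 + (0) * γ 9 + (0) * γ 10 + (0) * γ 11 := by
  have h : ((23 / 2 + 1 : ℕ)) = 12 := rfl
  rw [h]
  simp only [sum_range_succ, sum_range_zero, show cfn 23 0 8 = 125520384 from by decide +kernel, show cfn 23 1 8 = 18356736 from by decide +kernel, show cfn 23 2 8 = 2542656 from by decide +kernel, show cfn 23 3 8 = 329120 from by decide +kernel, show cfn 23 4 8 = 39041 from by decide +kernel, show cfn 23 5 8 = 4118 from by decide +kernel, show cfn 23 6 8 = 367 from by decide +kernel, show cfn 23 7 8 = 25 from by decide +kernel, show cfn 23 8 8 = 1 from by decide +kernel, show cfn 23 9 8 = 0 from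 by decide +kernel, show cfn 23 10 8 = 0 from by decide +kernel, show cfn 23 11 8 = 0 from by decide +kernel, Nat.cast_ofNat, Nat.cast_one, Nat.cast_zero]
  ring

theorem c23_9 (γ : ℕ → ℝ) : ∑ i ∈ range (23 / 2 + 1), γ i * (cfn 23 i 9 : ℝ) =
    (418401280) * γ 0 + (66977280) * γ 1 + (10294656) * γ 2 + (1505792) * γ 3 + (207006) * γ 4
       + (26265) * γ 5 + (2990) * γ 6 + (291) * γ 7 + (22) * γ 8 + (1) * γ 9 + (0) * γ 10
       + (0) * γ 11 := by
  have h : ((23 / 2 + 1 : ℕ)) = 12 := rfl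
  rw [h]
  simp only [sum_range_succ, sum_range_zero, show cfn 23 0 9 = 418401280 from by decide +kernel, show cfn 23 1 9 = 66977280 from by decide +kernel, show cfn 23 2 9 = 10294656 from by decide +kernel, show cfn 23 3 9 = 1505792 from by decide +kernel, show cfn 23 4 9 = 207006 from by decide +kernel, show cfn 23 5 9 = 26265 from by decide +kernel, show cfn 23 6 9 = 2990 from by decide +kernel, show cfn 23 7 9 = 291 from by decide +kernel, show cfn 23 8 9 = 22 from by decide +kernel, show cfn 23 9 9 = 1 from by decide +kernel, show cfn 23 10 9 = 0 from by decide +kernel, show cfn 23 11 9 = 0 from by decide +kernel, Nat.cast_ofNat, Nat.cast_one, Nat.cast_zero]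
  ring

theorem c23_10 (γ : ℕ → ℝ) : ∑ i ∈ range (23 / 2 + 1), γ i * (cfn 23 i 10 : ℝ) =
    (1171523584) * γ 0 + (202585600) * γ 1 + (33984768) * γ 2 + (5497664) * γ 3 + (850724) * γ 4
       + (124515) * γ 5 + (16955) * γ 6 + (2093) * γ 7 + (224) * γ 8 + (19) * γ 9 + (1) * γ 10
       + (0) * γ 11 := by
  have h : ((23 / 2 + 1 : ℕ)) = 12 := rfl
  rw [h]
  simp only [sum_range_succ, sum_range_zero, show cfn 23 0 10 = 1171523584 from by decide +kernel, show cfn 23 1 10 = 202585600 from by decide +kernel, show cfn 23 2 10 = 33984768 from by decide +kernel, show cfn 23 3 10 = 5497664 from by decide +kernel, show cfn 23 4 10 = 850724 from by decide +kernel, show cfn 23 5 10 = 124515 from by decide +kernel, show cfn 23 6 10 = 16955 from by decide +kernel, show cfn 23 7 10 = 2093 from by decide +kernel, show cfn 23 8 10 = 224 from by decide +kernel, show cfn 23 9 10 = 19 from by decide +kernel, show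 cfn 23 10 10 = 1 from by decide +kernel, show cfn 23 11 10 = 0 from by decide +kernel, Nat.cast_ofNat, Nat.cast_one, Nat.cast_zero]
  ring

theorem c23_11 (γ : ℕ → ℝ) : ∑ i ∈ range (23 / 2 + 1), γ i * (cfn 23 i 11 : ℝ) =
    (2769055744) * γ 0 + (511673344) * γ 1 + (92445184) * γ 2 + (16265600) * γ 3
       + (2772536) * γ 4 + (454610) * γ 5 + (71000) * γ 6 + (10409) * γ 7 + (1400) * γ 8
       + (166) * γ 9 + (16) * γ 10 + (1) * γ 11 := by
  have h : ((23 / 2 + 1 : ℕ)) = 12 := rfl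
  rw [h]
  simp only [sum_range_succ, sum_range_zero, show cfn 23 0 11 = 2769055744 from by decide +kernel, show cfn 23 1 11 = 511673344 from by decide +kernel, show cfn 23 2 11 = 92445184 from by decide +kernel, show cfn 23 3 11 = 16265600 from by decide +kernel, show cfn 23 4 11 = 2772536 from by decide +kernel, show cfn 23 5 11 = 454610 from by decide +kernel, show cfn 23 6 11 = 71000 from by decide +kernel, show cfn 23 7 11 = 10409 from by decide +kernel, show cfn 23 8 11 = 1400 from by decide +kernel, show cfn 23 9 11 = 166 from by decide +kernel, show cfn 23 10 11 = 16 from by decide +kernel, show cfn 23 11 11 = 1 from by decide +kernel, Nat.cast_ofNat, Nat.cast_one, Nat.cast_zero]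
  ring

theorem c23_12 (γ : ℕ → ℝ) : ∑ i ∈ range (23 / 2 + 1), γ i * (cfn 23 i 12 : ℝ) =
    (5538111488) * γ 0 + (1083543552) * γ 1 + (208539136) * γ 2 + (39376896) * γ 3
       + (7270224) * γ 4 + (1306760) * γ 5 + (227305) * γ 6 + (37947) * γ 7 + (6006) * γ 8
       + (884) * γ 9 + (117) * γ 10 + (13) * γ 11 := by
  have h : ((23 / 2 + 1 : ℕ)) = 12 := rfl
  rw [h]
  simp only [sum_range_succ, sum_range_zero, show cfn 23 0 12 = 5538111488 from by decide +kernel, show cfn 23 1 12 = 1083543552 from by decide +kernel, show cfn 23 2 12 = 208539136 from by decide +kernel, show cfn 23 3 12 = 39376896 from by decide +kernel, show cfn 23 4 12 = 7270224 from by decide +kernel, show cfn 23 5 12 = 1306760 from by decide +kernel, show cfn 23 6 12 = 227305 from by decide +kernel, show cfn 23 7 12 = 37947 from by decide +kernel, show cfn 23 8 12 = 6006 from by decide +kernel, show cfn 23 9 12 = 884 from by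 decide +kernel, show cfn 23 10 12 = 117 from by decide +kernel, show cfn 23 11 12 = 13 from by decide +kernel, Nat.cast_ofNat, Nat.cast_one, Nat.cast_zero]
  ring

theorem c23_13 (γ : ℕ → ℝ) : ∑ i ∈ range (23 / 2 + 1), γ i * (cfn 23 i 13 : ℝ) =
    (9372188672) * γ 0 + (1926299648) * γ 1 + (391279616) * γ 2 + (78414336) * γ 3
       + (15471456) * γ 4 + (2997280) * γ 5 + (568150) * γ 6 + (104881) * γ 7 + (18732) * γ 8
       + (3206) * γ 9 + (518) * γ 10 + (77) * γ 11 := by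
  have h : ((23 / 2 + 1 : ℕ)) = 12 := rfl
  rw [h]
  simp only [sum_range_succ, sum_range_zero, show cfn 23 0 13 = 9372188672 from by decide +kernel, show cfn 23 1 13 = 1926299648 from by decide +kernel, show cfn 23 2 13 = 391279616 from by decide +kernel, show cfn 23 3 13 = 78414336 from by decide +kernel, show cfn 23 4 13 = 15471456 from by decide +kernel, show cfn 23 5 13 = 2997280 from by decide +kernel, show cfn 23 6 13 = 568150 from by decide +kernel, show cfn 23 7 13 = 104881 from by decide +kernel, show cfn 23 8 13 = 18732 from by decide +kernel, show cfn 23 9 13 = 3206 from by decide +kernel, show cfn 23 10 13 = 518 from by decide +kernel, show cfn 23 11 13 = 77 from by decide +kernel, Nat.cast_ofNat, Nat.cast_one, Nat.cast_zero]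
  ring

theorem c23_14 (γ : ℕ → ℝ) : ∑ i ∈ range (23 / 2 + 1), γ i * (cfn 23 i 14 : ℝ) =
    (13388840960) * γ 0 + (2870927360) * γ 1 + (610568192) * γ 2 + (128653824) * γ 3
       + (26824512) * γ 4 + (5525520) * γ 5 + (1122220) * γ 6 + (224143) * γ 7 + (43876) * γ 8
       + (8378) * γ 9 + (1550) * γ 10 + (275) * γ 11 := by
  have h : ((23 / 2 + 1 : ℕ)) = 12 := rfl
  rw [h]
  simp only [sum_range_succ, sum_range_zero, show cfn 23 0 14 = 13388840960 from by decide +kernel, show cfn 23 1 14 = 2870927360 from by decide +kernel, show cfn 23 2 14 = 610568192 from by decide +kernel, show cfn 23 3 14 = 128653824 from by decide +kernel, show cfn 23 4 14 = 26824512 from by decide +kernel, show cfn 23 5 14 = 5525520 from by decide +kernel, show cfn 23 6 14 = 1122220 from by decide +kernel, show cfn 23 7 14 = 224143 from by decide +kernel, show cfn 23 8 14 = 43876 from by decide +kernel, show cfn 23 9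 14 = 8378 from by decide +kernel, show cfn 23 10 14 = 1550 from by decide +kernel, show cfn 23 11 14 = 275 from by decide +kernel, Nat.cast_ofNat, Nat.cast_one, Nat.cast_zero]
  ring

theorem c23_15 (γ : ℕ → ℝ) : ∑ i ∈ range (23 / 2 + 1), γ i * (cfn 23 i 15 : ℝ) =
    (16066609152) * γ 0 + (3572121600) * γ 1 + (789835776) * γ 2 + (173575168) * γ 3
       + (37884288) * γ 4 + (8204768) * γ 5 + (1761320) * γ 6 + (374274) * γ 7 + (78592) * γ 8
       + (16272) * γ 9 + (3312) * γ 10 + (660) * γ 11 := by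
  have h : ((23 / 2 + 1 : ℕ)) = 12 := rfl
  rw [h]
  simp only [sum_range_succ, sum_range_zero, show cfn 23 0 15 = 16066609152 from by decide +kernel, show cfn 23 1 15 = 3572121600 from by decide +kernel, show cfn 23 2 15 = 789835776 from by decide +kernel, show cfn 23 3 15 = 173575168 from by decide +kernel, show cfn 23 4 15 = 37884288 from by decide +kernel, show cfn 23 5 15 = 8204768 from by decide +kernel, show cfn 23 6 15 = 1761320 from by decide +kernel, show cfn 23 7 15 = 374274 from by decide +kernel, show cfn 23 8 15 = 78592 from by decide +kernel, show cfn 23 9 15 = 16272 from by decide +kernel, show cfn 23 10 15 = 3312 from by decide +kernel, show cfn 23 11 15 = 660 from by decide +kernel, Nat.cast_ofNat, Nat.cast_one, Nat.cast_zero]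
  ring

theorem c23_16 (γ : ℕ → ℝ) : ∑ i ∈ range (23 / 2 + 1), γ i * (cfn 23 i 16 : ℝ) =
    (16066609152) * γ 0 + (3683254272) * γ 1 + (841433088) * γ 2 + (191488000) * γ 3
       + (43393792) * γ 4 + (9787648) * γ 5 + (2196128) * γ 6 + (489872) * γ 7 + (108545) * γ 8
       + (23868) * γ 9 + (5202) * γ 10 + (1122) * γ 11 := by
  have h : ((23 / 2 + 1 : ℕ)) = 12 := rfl
  rw [h]
  simp only [sum_range_succ, sum_range_zero, show cfn 23 0 16 = 16066609152 from by decide +kernel, show cfn 23 1 16 = 3683254272 from by decide +kernel, show cfn 23 2 16 = 841433088 from by decide +kernel, show cfn 23 3 16 = 191488000 from by decide +kernel, show cfn 23 4 16 = 43393792 from by decide +kernel, show cfn 23 5 16 = 9787648 from by decide +kernel, show cfn 23 6 16 = 2196128 from by decide +kernel, show cfn 23 7 16 = 489872 from by decide +kernel, show cfn 23 8 16 = 108545 from by decide +kernel, show cfn 23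 9 16 = 23868 from by decide +kernel, show cfn 23 10 16 = 5202 from by decide +kernel, show cfn 23 11 16 = 1122 from by decide +kernel, Nat.cast_ofNat, Nat.cast_one, Nat.cast_zero]
  ring

theorem c23_17 (γ : ℕ → ℝ) : ∑ i ∈ range (23 / 2 + 1), γ i * (cfn 23 i 17 : ℝ) =
    (13231325184) * γ 0 + (3111714816) * γ 1 + (730300416) * γ 2 + (171016192) * γ 3
       + (39950848) * γ 4 + (9308416) * γ 5 + (2162624) * γ 6 + (500864) * γ 7 + (115598) * γ 8
       + (26577) * γ 9 + (6084) * γ 10 + (1386) * γ 11 := by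
  have h : ((23 / 2 + 1 : ℕ)) = 12 := rfl
  rw [h]
  simp only [sum_range_succ, sum_range_zero, show cfn 23 0 17 = 13231325184 from by decide +kernel, show cfn 23 1 17 = 3111714816 from by decide +kernel, show cfn 23 2 17 = 730300416 from by decide +kernel, show cfn 23 3 17 = 171016192 from by decide +kernel, show cfn 23 4 17 = 39950848 from by decide +kernel, show cfn 23 5 17 = 9308416 from by decide +kernel, show cfn 23 6 17 = 2162624 from by decide +kernel, show cfn 23 7 17 = 500864 from by decide +kernel, show cfn 23 8 17 = 115598 from by decide +kernel, show cfn 23 9 17 = 26577 from by decide +kernel, show cfn 23 10 17 = 6084 from by decide +kernel, show cfn 23 11 17 = 1386 from by decide +kernel, Nat.cast_ofNat, Nat.cast_one, Nat.cast_zero]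
  ring

theorem c23_18 (γ : ℕ → ℝ) : ∑ i ∈ range (23 / 2 + 1), γ i * (cfn 23 i 18 : ℝ) =
    (8820883456) * γ 0 + (2118057984) * γ 1 + (508035072) * γ 2 + (121716736) * γ 3
       + (29125632) * γ 4 + (6960384) * γ 5 + (1661056) * γ 6 + (395808) * γ 7 + (94164) * γ 8
       + (22363) * γ 9 + (5301) * γ 10 + (1254) * γ 11 := by
  have h : ((23 / 2 + 1 : ℕ)) = 12 := rfl
  rw [h]
  simp only [sum_range_succ, sum_range_zero, show cfn 23 0 18 = 8820883456 from by decide +kernel, show cfn 23 1 18 = 2118057984 from by decide +kernel, show cfn 23 2 18 = 508035072 from by decide +kernel, show cfn 23 3 18 = 121716736 from by decide +kernel, show cfn 23 4 18 = 29125632 from by decide +kernel, show cfn 23 5 18 = 6960384 from by decide +kernel, show cfn 23 6 18 = 1661056 from by decide +kernel, show cfn 23 7 18 = 395808 from by decide +kernel, show cfn 23 8 18 = 94164 from by decide +kernel, show cfn 23 9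 18 = 22363 from by decide +kernel, show cfn 23 10 18 = 5301 from by decide +kernel, show cfn 23 11 18 = 1254 from by decide +kernel, Nat.cast_ofNat, Nat.cast_one, Nat.cast_zero]
  ring

theorem q23_0 (γ : ℕ → ℝ) (h0 : γ 0 = 1)
    (h : ∀ n < 23, 2 * (((23 : ℕ) : ℝ) - ((n : ℕ) : ℝ)) * ∑ i ∈ range (23 / 2 + 1), γ i * (cfn 23 i n : ℝ) ≤
      ((n : ℝ) + 1) * ∑ i ∈ range (23 / 2 + 1), γ i * (cfn 23 i (n + 1) : ℝ)) :
    0 ≤ (0) * γ 0 + (1) * γ 1 + (0) * γ 2 + (0) * γ 3 + (0) * γ 4 + (0) * γ 5 + (0) * γ 6 + (0) * γ 7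
       + (0) * γ 8 + (0) * γ 9 + (0) * γ 10 + (0) * γ 11 := by
  have h1 := h 0 (by norm_num)
  rw [show 0 + 1 = 1 from rfl, c23_0, c23_1] at h1
  norm_num [h0] at h1 ⊢
  linarith

theorem q23_1 (γ : ℕ → ℝ) (h0 : γ 0 = 1)
    (h : ∀ n < 23, 2 * (((23 : ℕ) : ℝ) - ((n : ℕ) : ℝ)) * ∑ i ∈ range (23 / 2 + 1), γ i * (cfn 23 i n : ℝ) ≤
      ((n : ℝ) + 1) * ∑ i ∈ range (23 / 2 + 1), γ i * (cfn 23 i (n + 1) : ℝ)) :
    0 ≤ (0) * γ 0 + (42) * γ 1 + (2) * γ 2 + (0) * γ 3 + (0) * γ 4 + (0) * γ 5 + (0) * γ 6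
       + (0) * γ 7 + (0) * γ 8 + (0) * γ 9 + (0) * γ 10 + (0) * γ 11 := by
  have h1 := h 1 (by norm_num)
  rw [show 1 + 1 = 2 from rfl, c23_1, c23_2] at h1
  norm_num [h0] at h1 ⊢
  linarith

theorem q23_2 (γ : ℕ → ℝ) (h0 : γ 0 = 1)
    (h : ∀ n < 23, 2 * (((23 : ℕ) : ℝ) - ((n : ℕ) : ℝ)) * ∑ i ∈ range (23 / 2 + 1), γ i * (cfn 23 i n : ℝ) ≤
      ((n : ℝ) + 1) * ∑ i ∈ range (23 / 2 + 1), γ i * (cfn 23 i (n + 1) : ℝ)) :
    0 ≤ (0) * γ 0 + (840) * γ 1 + (78) * γ 2 + (3) * γ 3 + (0) * γ 4 + (0) * γ 5 + (0) * γ 6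
       + (0) * γ 7 + (0) * γ 8 + (0) * γ 9 + (0) * γ 10 + (0) * γ 11 := by
  have h1 := h 2 (by norm_num)
  rw [show 2 + 1 = 3 from rfl, c23_2, c23_3] at h1
  norm_num [h0] at h1 ⊢
  linarith

theorem q23_3 (γ : ℕ → ℝ) (h0 : γ 0 = 1)
    (h : ∀ n < 23, 2 * (((23 : ℕ) : ℝ) - ((n : ℕ) : ℝ)) * ∑ i ∈ range (23 / 2 + 1), γ i * (cfn 23 i n : ℝ) ≤
      ((n : ℝ) + 1) * ∑ i ∈ range (23 / 2 + 1), γ i * (cfn 23 i (n + 1) : ℝ)) :
    0 ≤ (0) * γ 0 + (10640) * γ 1 + (1444) * γ 2 + (108) * γ 3 + (4) * γ 4 + (0) * γ 5 + (0) * γ 6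
       + (0) * γ 7 + (0) * γ 8 + (0) * γ 9 + (0) * γ 10 + (0) * γ 11 := by
  have h1 := h 3 (by norm_num)
  rw [show 3 + 1 = 4 from rfl, c23_3, c23_4] at h1
  norm_num [h0] at h1 ⊢
  linarith

theorem q23_4 (γ : ℕ → ℝ) (h0 : γ 0 = 1)
    (h : ∀ n < 23, 2 * (((23 : ℕ) : ℝ) - ((n : ℕ) : ℝ)) * ∑ i ∈ range (23 / 2 + 1), γ i * (cfn 23 i n : ℝ) ≤
      ((n : ℝ) + 1) * ∑ i ∈ range (23 / 2 + 1), γ i * (cfn 23 i (n + 1) : ℝ)) :
    0 ≤ (0) * γ 0 + (95760) * γ 1 + (16872) * γ 2 + (1839) * γ 3 + (132) * γ 4 + (5) * γ 5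
       + (0) * γ 6 + (0) * γ 7 + (0) * γ 8 + (0) * γ 9 + (0) * γ 10 + (0) * γ 11 := by
  have h1 := h 4 (by norm_num)
  rw [show 4 + 1 = 5 from rfl, c23_4, c23_5] at h1
  norm_num [h0] at h1 ⊢
  linarith

theorem q23_5 (γ : ℕ → ℝ) (h0 : γ 0 = 1)
    (h : ∀ n < 23, 2 * (((23 : ℕ) : ℝ) - ((n : ℕ) : ℝ)) * ∑ i ∈ range (23 / 2 + 1), γ i * (cfn 23 i n : ℝ) ≤
      ((n : ℝ) + 1) * ∑ i ∈ range (23 / 2 + 1), γ i * (cfn 23 i (n + 1) : ℝ)) :
    0 ≤ (0) * γ 0 + (651168) * γ 1 + (139536) * γ 2 + (19686) * γ 3 + (2052) * γ 4 + (150) * γ 5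
       + (6) * γ 6 + (0) * γ 7 + (0) * γ 8 + (0) * γ 9 + (0) * γ 10 + (0) * γ 11 := by
  have h1 := h 5 (by norm_num)
  rw [show 5 + 1 = 6 from rfl, c23_5, c23_6] at h1
  norm_num [h0] at h1 ⊢
  linarith

theorem q23_6 (γ : ℕ → ℝ) (h0 : γ 0 = 1)
    (h : ∀ n < 23, 2 * (((23 : ℕ) : ℝ) - ((n : ℕ) : ℝ)) * ∑ i ∈ range (23 / 2 + 1), γ i * (cfn 23 i n : ℝ) ≤
      ((n : ℝ) + 1) * ∑ i ∈ range (23 / 2 + 1), γ i * (cfn 23 i (n + 1) : ℝ)) :
    0 ≤ (0) * γ 0 + (3472896) * γ 1 + (868224) * γ 2 + (148512) * γ 3 + (19964) * γ 4 + (2110) * γ 5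
       + (162) * γ 6 + (7) * γ 7 + (0) * γ 8 + (0) * γ 9 + (0) * γ 10 + (0) * γ 11 := by
  have h1 := h 6 (by norm_num)
  rw [show 6 + 1 = 7 from rfl, c23_6, c23_7] at h1
  norm_num [h0] at h1 ⊢
  linarith

theorem q23_7 (γ : ℕ → ℝ) (h0 : γ 0 = 1)
    (h : ∀ n < 23, 2 * (((23 : ℕ) : ℝ) - ((n : ℕ) : ℝ)) * ∑ i ∈ range (23 / 2 + 1), γ i * (cfn 23 i n : ℝ) ≤
      ((n : ℝ) + 1) * ∑ i ∈ range (23 / 2 + 1), γ i * (cfn 23 i (n + 1) : ℝ)) :
    0 ≤ (0) * γ 0 + (14883840) * γ 1 + (4217088) * γ 2 + (838848) * γ 3 + (136200) * γ 4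
       + (18480) * γ 5 + (2040) * γ 6 + (168) * γ 7 + (8) * γ 8 + (0) * γ 9 + (0) * γ 10
       + (0) * γ 11 := by
  have h1 := h 7 (by norm_num)
  rw [show 7 + 1 = 8 from rfl, c23_7, c23_8] at h1
  norm_num [h0] at h1 ⊢
  linarith

theorem q23_8 (γ : ℕ → ℝ) (h0 : γ 0 = 1)
    (h : ∀ n < 23, 2 * (((23 : ℕ) : ℝ) - ((n : ℕ) : ℝ)) * ∑ i ∈ range (23 / 2 + 1), γ i * (cfn 23 i n : ℝ) ≤
      ((n : ℝ) + 1) * ∑ i ∈ range (23 / 2 + 1), γ i * (cfn 23 i (n + 1) : ℝ)) :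
    0 ≤ (0) * γ 0 + (52093440) * γ 1 + (16372224) * γ 2 + (3678528) * γ 3 + (691824) * γ 4
       + (112845) * γ 5 + (15900) * γ 6 + (1869) * γ 7 + (168) * γ 8 + (9) * γ 9 + (0) * γ 10
       + (0) * γ 11 := by
  have h1 := h 8 (by norm_num)
  rw [show 8 + 1 = 9 from rfl, c23_8, c23_9] at h1
  norm_num [h0] at h1 ⊢
  linarith

theorem q23_9 (γ : ℕ → ℝ) (h0 : γ 0 = 1)
    (h : ∀ n < 23, 2 * (((23 : ℕ) : ℝ) - ((n : ℕ) : ℝ)) * ∑ i ∈ range (23 / 2 + 1), γ i * (cfn 23 i n : ℝ) ≤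
      ((n : ℝ) + 1) * ∑ i ∈ range (23 / 2 + 1), γ i * (cfn 23 i (n + 1) : ℝ)) :
    0 ≤ (0) * γ 0 + (150492160) * γ 1 + (51597312) * γ 2 + (12814464) * γ 3 + (2711072) * γ 4
       + (509730) * γ 5 + (85830) * γ 6 + (12782) * γ 7 + (1624) * γ 8 + (162) * γ 9 + (10) * γ 10
       + (0) * γ 11 := by
  have h1 := h 9 (by norm_num)
  rw [show 9 + 1 = 10 from rfl, c23_9, c23_10] at h1
  norm_num [h0] at h1 ⊢
  linarith

theorem q23_10 (γ : ℕ → ℝ) (h0 : γ 0 = 1)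
    (h : ∀ n < 23, 2 * (((23 : ℕ) : ℝ) - ((n : ℕ) : ℝ)) * ∑ i ∈ range (23 / 2 + 1), γ i * (cfn 23 i n : ℝ) ≤
      ((n : ℝ) + 1) * ∑ i ∈ range (23 / 2 + 1), γ i * (cfn 23 i (n + 1) : ℝ)) :
    0 ≤ (0) * γ 0 + (361181184) * γ 1 + (133293056) * γ 2 + (35982336) * γ 3 + (8379072) * γ 4
       + (1763320) * γ 5 + (340170) * γ 6 + (60081) * γ 7 + (9576) * γ 8 + (1332) * γ 9
       + (150) * γ 10 + (11) * γ 11 := by
  have h1 := h 10 (by norm_num)
  rw [show 10 + 1 = 11 from rfl, c23_10, c23_11] at h1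
  norm_num [h0] at h1 ⊢
  linarith

theorem q23_11 (γ : ℕ → ℝ) (h0 : γ 0 = 1)
    (h : ∀ n < 23, 2 * (((23 : ℕ) : ℝ) - ((n : ℕ) : ℝ)) * ∑ i ∈ range (23 / 2 + 1), γ i * (cfn 23 i n : ℝ) ≤
      ((n : ℝ) + 1) * ∑ i ∈ range (23 / 2 + 1), γ i * (cfn 23 i (n + 1) : ℝ)) :
    0 ≤ (0) * γ 0 + (722362368) * γ 1 + (283785216) * γ 2 + (82148352) * γ 3 + (20701824) * γ 4
       + (4770480) * γ 5 + (1023660) * γ 6 + (205548) * γ 7 + (38472) * γ 8 + (6624) * γ 9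
       + (1020) * γ 10 + (132) * γ 11 := by
  have h1 := h 11 (by norm_num)
  rw [show 11 + 1 = 12 from rfl, c23_11, c23_12] at h1
  norm_num [h0] at h1 ⊢
  linarith

theorem q23_12 (γ : ℕ → ℝ) (h0 : γ 0 = 1)
    (h : ∀ n < 23, 2 * (((23 : ℕ) : ℝ) - ((n : ℕ) : ℝ)) * ∑ i ∈ range (23 / 2 + 1), γ i * (cfn 23 i n : ℝ) ≤
      ((n : ℝ) + 1) * ∑ i ∈ range (23 / 2 + 1), γ i * (cfn 23 i (n + 1) : ℝ)) :
    0 ≤ (0) * γ 0 + (1203937280) * γ 1 + (498774016) * γ 2 + (153094656) * γ 3 + (41184000) * γ 4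
       + (10215920) * γ 5 + (2385240) * γ 6 + (528619) * γ 7 + (111384) * γ 8 + (22230) * γ 9
       + (4160) * γ 10 + (715) * γ 11 := by
  have h1 := h 12 (by norm_num)
  rw [show 12 + 1 = 13 from rfl, c23_12, c23_13] at h1
  norm_num [h0] at h1 ⊢
  linarith

theorem q23_13 (γ : ℕ → ℝ) (h0 : γ 0 = 1)
    (h : ∀ n < 23, 2 * (((23 : ℕ) : ℝ) - ((n : ℕ) : ℝ)) * ∑ i ∈ range (23 / 2 + 1), γ i * (cfn 23 i n : ℝ) ≤
      ((n : ℝ) + 1) * ∑ i ∈ range (23 / 2 + 1), γ i * (cfn 23 i (n + 1) : ℝ)) :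
    0 ≤ (0) * γ 0 + (1666990080) * γ 1 + (722362368) * γ 2 + (232866816) * γ 3 + (66114048) * γ 4
       + (17411680) * γ 5 + (4348080) * γ 6 + (1040382) * γ 7 + (239624) * γ 8 + (53172) * γ 9
       + (11340) * γ 10 + (2310) * γ 11 := by
  have h1 := h 13 (by norm_num)
  rw [show 13 + 1 = 14 from rfl, c23_13, c23_14] at h1
  norm_num [h0] at h1 ⊢
  linarith

theorem q23_14 (γ : ℕ → ℝ) (h0 : γ 0 = 1)
    (h : ∀ n < 23, 2 * (((23 : ℕ) : ℝ) - ((n : ℕ) : ℝ)) * ∑ i ∈ range (23 / 2 + 1), γ i * (cfn 23 i n : ℝ) ≤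
      ((n : ℝ) + 1) * ∑ i ∈ range (23 / 2 + 1), γ i * (cfn 23 i (n + 1) : ℝ)) :
    0 ≤ (0) * γ 0 + (1905131520) * γ 1 + (857309184) * γ 2 + (287858688) * γ 3 + (85423104) * γ 4
       + (23612160) * γ 5 + (6219840) * γ 6 + (1579536) * γ 7 + (389112) * γ 8 + (93276) * γ 9
       + (21780) * γ 10 + (4950) * γ 11 := by
  have h1 := h 14 (by norm_num)
  rw [show 14 + 1 = 15 from rfl, c23_14, c23_15] at h1
  norm_num [h0] at h1 ⊢
  linarith

theorem q23_15 (γ : ℕ → ℝ) (h0 : γ 0 = 1)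
    (h : ∀ n < 23, 2 * (((23 : ℕ) : ℝ) - ((n : ℕ) : ℝ)) * ∑ i ∈ range (23 / 2 + 1), γ i * (cfn 23 i n : ℝ) ≤
      ((n : ℝ) + 1) * ∑ i ∈ range (23 / 2 + 1), γ i * (cfn 23 i (n + 1) : ℝ)) :
    0 ≤ (0) * γ 0 + (1778122752) * γ 1 + (825556992) * γ 2 + (286605312) * γ 3 + (88152064) * γ 4
       + (25326080) * γ 5 + (6956928) * γ 6 + (1849568) * γ 7 + (479248) * γ 8 + (121536) * γ 9
       + (30240) * γ 10 + (7392) * γ 11 := by
  have h1 := h 15 (by norm_num)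
  rw [show 15 + 1 = 16 from rfl, c23_15, c23_16] at h1
  norm_num [h0] at h1 ⊢
  linarith

theorem q23_16 (γ : ℕ → ℝ) (h0 : γ 0 = 1)
    (h : ∀ n < 23, 2 * (((23 : ℕ) : ℝ) - ((n : ℕ) : ℝ)) * ∑ i ∈ range (23 / 2 + 1), γ i * (cfn 23 i n : ℝ) ≤
      ((n : ℝ) + 1) * ∑ i ∈ range (23 / 2 + 1), γ i * (cfn 23 i (n + 1) : ℝ)) :
    0 ≤ (0) * γ 0 + (1333592064) * γ 1 + (635043840) * γ 2 + (226443264) * γ 3 + (71651328) * γ 4
       + (21216000) * γ 5 + (6018816) * γ 6 + (1656480) * γ 7 + (445536) * γ 8 + (117657) * γ 9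
       + (30600) * γ 10 + (7854) * γ 11 := by
  have h1 := h 16 (by norm_num)
  rw [show 16 + 1 = 17 from rfl, c23_16, c23_17] at h1
  norm_num [h0] at h1 ⊢
  linarith

theorem q23_17 (γ : ℕ → ℝ) (h0 : γ 0 = 1)
    (h : ∀ n < 23, 2 * (((23 : ℕ) : ℝ) - ((n : ℕ) : ℝ)) * ∑ i ∈ range (23 / 2 + 1), γ i * (cfn 23 i n : ℝ) ≤
      ((n : ℝ) + 1) * ∑ i ∈ range (23 / 2 + 1), γ i * (cfn 23 i (n + 1) : ℝ)) :
    0 ≤ (0) * γ 0 + (784465920) * γ 1 + (381026304) * γ 2 + (138706944) * γ 3 + (44851200) * γ 4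
       + (13585920) * γ 5 + (3947520) * γ 6 + (1114176) * γ 7 + (307776) * γ 8 + (83610) * γ 9
       + (22410) * γ 10 + (5940) * γ 11 := by
  have h1 := h 17 (by norm_num)
  rw [show 17 + 1 = 18 from rfl, c23_17, c23_18] at h1
  norm_num [h0] at h1 ⊢
  linarith

theorem m23_0 (γ : ℕ → ℝ) : Mat 23 γ 0 = (1) * γ 0 + (0) * γ 1 + (0) * γ 2 + (0) * γ 3 + (0) * γ 4 + (0) * γ 5 + (0) * γ 6 + (0) * γ 7
       + (0) * γ 8 + (0) * γ 9 + (0) * γ 10 + (0) * γ 11 := by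
  unfold Mat
  rw [show (23 / 2 + 1 : ℕ) = 12 from rfl]
  simp [sum_range_succ, Nat.choose]
  try ring

theorem m23_1 (γ : ℕ → ℝ) : Mat 23 γ 1 = (1012) * γ 0 + (44) * γ 1 + (1) * γ 2 + (0) * γ 3 + (0) * γ 4 + (0) * γ 5 + (0) * γ 6
       + (0) * γ 7 + (0) * γ 8 + (0) * γ 9 + (0) * γ 10 + (0) * γ 11 := by
  unfold Mat
  rw [show (23 / 2 + 1 : ℕ) = 12 from rfl]
  simp [sum_range_succ, Nat.choose]
  try ring

theorem m23_2 (γ : ℕ → ℝ) : Mat 23 γ 2 = (141680) * γ 0 + (12320) * γ 1 + (840) * γ 2 + (40) * γ 3 + (1) * γ 4 + (0) * γ 5 + (0) * γ 6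
       + (0) * γ 7 + (0) * γ 8 + (0) * γ 9 + (0) * γ 10 + (0) * γ 11 := by
  unfold Mat
  rw [show (23 / 2 + 1 : ℕ) = 12 from rfl]
  simp [sum_range_succ, Nat.choose]
  try ring

theorem m23_3 (γ : ℕ → ℝ) : Mat 23 γ 3 = (6460608) * γ 0 + (842688) * γ 1 + (95760) * γ 2 + (9120) * γ 3 + (684) * γ 4 + (36) * γ 5
       + (1) * γ 6 + (0) * γ 7 + (0) * γ 8 + (0) * γ 9 + (0) * γ 10 + (0) * γ 11 := by
  unfold Mat
  rw [show (23 / 2 + 1 : ℕ) = 12 from rfl]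
  simp [sum_range_succ, Nat.choose]
  try ring

theorem m23_4 (γ : ℕ → ℝ) : Mat 23 γ 4 = (125520384) * γ 0 + (21829632) * γ 1 + (3472896) * γ 2 + (496128) * γ 3 + (62016) * γ 4
       + (6528) * γ 5 + (544) * γ 6 + (32) * γ 7 + (1) * γ 8 + (0) * γ 9 + (0) * γ 10 + (0) * γ 11 := by
  unfold Mat
  rw [show (23 / 2 + 1 : ℕ) = 12 from rfl]
  simp [sum_range_succ, Nat.choose]
  try ring

theorem m23_5 (γ : ℕ → ℝ) : Mat 23 γ 5 = (1171523584) * γ 0 + (254679040) * γ 1 + (52093440) * γ 2 + (9922560) * γ 3 + (1736448) * γ 4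
       + (274176) * γ 5 + (38080) * γ 6 + (4480) * γ 7 + (420) * γ 8 + (28) * γ 9 + (1) * γ 10
       + (0) * γ 11 := by
  unfold Mat
  rw [show (23 / 2 + 1 : ℕ) = 12 from rfl]
  simp [sum_range_succ, Nat.choose]
  try ring

theorem m23_6 (γ : ℕ → ℝ) : Mat 23 γ 6 = (5538111488) * γ 0 + (1444724736) * γ 1 + (361181184) * γ 2 + (85995520) * γ 3
       + (19348992) * γ 4 + (4073472) * γ 5 + (792064) * γ 6 + (139776) * γ 7 + (21840) * γ 8
       + (2912) * γ 9 + (312) * γ 10 + (24) * γ 11 := by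
  unfold Mat
  rw [show (23 / 2 + 1 : ℕ) = 12 from rfl]
  simp [sum_range_succ, Nat.choose]
  try ring

theorem m23_7 (γ : ℕ → ℝ) : Mat 23 γ 7 = (13388840960) * γ 0 + (4074864640) * γ 1 + (1203937280) * γ 2 + (343982080) * γ 3
       + (94595072) * γ 4 + (24893440) * γ 5 + (6223360) * γ 6 + (1464320) * γ 7 + (320320) * γ 8
       + (64064) * γ 9 + (11440) * γ 10 + (1760) * γ 11 := by
  unfold Mat
  rw [show (23 / 2 + 1 : ℕ) = 12 from rfl]
  simp [sum_range_succ, Nat.choose]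
  try ring

theorem m23_8 (γ : ℕ → ℝ) : Mat 23 γ 8 = (16066609152) * γ 0 + (5588385792) * γ 1 + (1905131520) * γ 2 + (635043840) * γ 3
       + (206389248) * γ 4 + (65175552) * γ 5 + (19914752) * γ 6 + (5857280) * γ 7
       + (1647360) * γ 8 + (439296) * γ 9 + (109824) * γ 10 + (25344) * γ 11 := by
  unfold Mat
  rw [show (23 / 2 + 1 : ℕ) = 12 from rfl]
  simp [sum_range_succ, Nat.choose]
  try ring

theorem m23_9 (γ : ℕ → ℝ) : Mat 23 γ 9 = (8820883456) * γ 0 + (3451650048) * γ 1 + (1333592064) * γ 2 + (508035072) * γ 3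
       + (190513152) * γ 4 + (70189056) * γ 5 + (25346048) * γ 6 + (8945664) * γ 7
       + (3075072) * γ 8 + (1025024) * γ 9 + (329472) * γ 10 + (101376) * γ 11 := by
  unfold Mat
  rw [show (23 / 2 + 1 : ℕ) = 12 from rfl]
  simp [sum_range_succ, Nat.choose]
  try ring

theorem m23_10 (γ : ℕ → ℝ) : Mat 23 γ 10 = (1857028096) * γ 0 + (807403520) * γ 1 + (348651520) * γ 2 + (149422080) * γ 3
       + (63504384) * γ 4 + (26738688) * γ 5 + (11141120) * γ 6 + (4587520) * γ 7 + (1863680) * γ 8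
       + (745472) * γ 9 + (292864) * γ 10 + (112640) * γ 11 := by
  unfold Mat
  rw [show (23 / 2 + 1 : ℕ) = 12 from rfl]
  simp [sum_range_succ, Nat.choose]
  try ring

theorem m23_11 (γ : ℕ → ℝ) : Mat 23 γ 11 = (96468992) * γ 0 + (46137344) * γ 1 + (22020096) * γ 2 + (10485760) * γ 3 + (4980736) * γ 4
       + (2359296) * γ 5 + (1114112) * γ 6 + (524288) * γ 7 + (245760) * γ 8 + (114688) * γ 9
       + (53248) * γ 10 + (24576) * γ 11 := by
  unfold Mat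
  rw [show (23 / 2 + 1 : ℕ) = 12 from rfl]
  simp [sum_range_succ, Nat.choose]
  try ring

theorem mm23_0 (γ : ℕ → ℝ) : Mat 23 (Mat 23 γ) 0 =
      (1) * γ 0 + (0) * γ 1 + (0) * γ 2 + (0) * γ 3 + (0) * γ 4 + (0) * γ 5 + (0) * γ 6 + (0) * γ 7
       + (0) * γ 8 + (0) * γ 9 + (0) * γ 10 + (0) * γ 11 := by
  rw [m23_0]
  simp only [m23_0, m23_1, m23_2, m23_3, m23_4, m23_5, m23_6, m23_7, m23_8, m23_9, m23_10, m23_11]
  ring

theorem mm23_1 (γ : ℕ → ℝ) : Mat 23 (Mat 23 γ) 1 =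
      (187220) * γ 0 + (14256) * γ 1 + (884) * γ 2 + (40) * γ 3 + (1) * γ 4 + (0) * γ 5 + (0) * γ 6
       + (0) * γ 7 + (0) * γ 8 + (0) * γ 9 + (0) * γ 10 + (0) * γ 11 := by
  rw [m23_1]
  simp only [m23_0, m23_1, m23_2, m23_3, m23_4, m23_5, m23_6, m23_7, m23_8, m23_9, m23_10, m23_11]
  ring

theorem mm23_2 (γ : ℕ → ℝ) : Mat 23 (Mat 23 γ) 2 =
      (515565424) * γ 0 + (66428032) * γ 1 + (8021216) * γ 2 + (894528) * γ 3 + (90216) * γ 4
       + (7968) * γ 5 + (584) * γ 6 + (32) * γ 7 + (1) * γ 8 + (0) * γ 9 + (0) * γ 10 + (0) * γ 11 := by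
  rw [m23_2]
  simp only [m23_0, m23_1, m23_2, m23_3, m23_4, m23_5, m23_6, m23_7, m23_8, m23_9, m23_10, m23_11]
  ring

theorem mm23_3 (γ : ℕ → ℝ) : Mat 23 (Mat 23 γ) 3 =
      (206916185792) * γ 0 + (34446794496) * γ 1 + (5566618176) * γ 2 + (869564032) * γ 3
       + (130613904) * γ 4 + (18737280) * γ 5 + (2544160) * γ 6 + (322944) * γ 7 + (37644) * γ 8
       + (3920) * γ 9 + (348) * γ 10 + (24) * γ 11 := by
  rw [m23_3]
  simp only [m23_0, m23_1, m23_2, m23_3, m23_4, m23_5, m23_6, m23_7, m23_8, m23_9, m23_10, m23_11]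
  ring

theorem mm23_4 (γ : ℕ → ℝ) : Mat 23 (Mat 23 γ) 4 =
      (22608765798912) * γ 0 + (4400073236480) * γ 1 + (842803062784) * γ 2 + (158629982208) * γ 3
       + (29283624448) * γ 4 + (5290256384) * γ 5 + (932764160) * γ 6 + (159983616) * γ 7
       + (26582336) * γ 8 + (4256256) * γ 9 + (652160) * γ 10 + (94720) * γ 11 := by
  rw [m23_4]
  simp only [m23_0, m23_1, m23_2, m23_3, m23_4, m23_5, m23_6, m23_7, m23_8, m23_9, m23_10, m23_11]
  ring

theorem mm23_5 (γ : ℕ → ℝ) : Mat 23 (Mat 23 γ) 5 =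
      (888778656303104) * γ 0 + (192462607769600) * γ 1 + (41292734801920) * γ 2
       + (8771447705600) * γ 3 + (1843295945216) * γ 4 + (382871412736) * γ 5 + (78522648576) * γ 6
       + (15881822208) * γ 7 + (3163448064) * γ 8 + (619523072) * γ 9 + (119050496) * γ 10
       + (22394368) * γ 11 := by
  rw [m23_5]
  simp only [m23_0, m23_1, m23_2, m23_3, m23_4, m23_5, m23_6, m23_7, m23_8, m23_9, m23_10, m23_11]
  ring

theorem mm23_6 (γ : ℕ → ℝ) : Mat 23 (Mat 23 γ) 6 =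
      (14444224752967680) * γ 0 + (3383027327238144) * γ 1 + (787898924875776) * γ 2
       + (182407595130880) * γ 3 + (41962510675968) * γ 4 + (9588433993728) * γ 5
       + (2175220051968) * γ 6 + (489673310208) * γ 7 + (109322251776) * γ 8 + (24189591552) * γ 9
       + (5300865024) * γ 10 + (1149468672) * γ 11 := by
  rw [m23_6]
  simp only [m23_0, m23_1, m23_2, m23_3, m23_4, m23_5, m23_6, m23_7, m23_8, m23_9, m23_10, m23_11]
  ring

theorem mm23_7 (γ : ℕ → ℝ) : Mat 23 (Mat 23 γ) 7 =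
      (103238086785073152) * γ 0 + (25688158450876416) * γ 1 + (6369683146702848) * γ 2
       + (1573695953895424) * γ 3 + (387313153187840) * γ 4 + (94941396008960) * γ 5
       + (23174313656320) * γ 6 + (5631362007040) * γ 7 + (1361955809280) * γ 8
       + (327742119936) * γ 9 + (78448601088) * γ 10 + (18671161344) * γ 11 := by
  rw [m23_7]
  simp only [m23_0, m23_1, m23_2, m23_3, m23_4, m23_5, m23_6, m23_7, m23_8, m23_9, m23_10, m23_11]
  ring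

theorem mm23_8 (γ : ℕ → ℝ) : Mat 23 (Mat 23 γ) 8 =
      (325900280235622400) * γ 0 + (85114288131276800) * γ 1 + (22182163758186496) * γ 2
       + (5768349903486976) * γ 3 + (1496599462543360) * γ 4 + (387367488192512) * γ 5
       + (100013497778176) * γ 6 + (25755078098944) * γ 7 + (6614289367040) * γ 8
       + (1693802430464) * γ 9 + (432454270976) * γ 10 + (110064959488) * γ 11 := by
  rw [m23_8]
  simp only [m23_0, m23_1, m23_2, m23_3, m23_4, m23_5, m23_6, m23_7, m23_8, m23_9, m23_10, m23_11]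
  ring

theorem mm23_9 (γ : ℕ → ℝ) : Mat 23 (Mat 23 γ) 9 =
      (428826606868627456) * γ 0 + (116543049490759680) * γ 1 + (31634812546842624) * γ 2
       + (8576302408269824) * γ 3 + (2322049743519744) * γ 4 + (627854687600640) * γ 5
       + (169527961190400) * γ 6 + (45708314935296) * γ 7 + (12305420451840) * γ 8
       + (3307647795200) * γ 9 + (887638523904) * γ 10 + (237803274240) * γ 11 := by
  rw [m23_9]
  simp only [m23_0, m23_1, m23_2, m23_3, m23_4, m23_5, m23_6, m23_7, m23_8, m23_9, m23_10, m23_11]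
  ring

theorem mm23_10 (γ : ℕ → ℝ) : Mat 23 (Mat 23 γ) 10 =
      (200507474706432000) * γ 0 + (56345410146402304) * γ 1 + (15824404833370112) * γ 2
       + (4441496182849536) * γ 3 + (1245822321164288) * γ 4 + (349220135501824) * γ 5
       + (97824994230272) * γ 6 + (27384092819456) * γ 7 + (7660109365248) * γ 8
       + (2141160734720) * γ 9 + (598040117248) * γ 10 + (166903939072) * γ 11 := by
  rw [m23_10]
  simp only [m23_0, m23_1, m23_2, m23_3, m23_4, m23_5, m23_6, m23_7, m23_8, m23_9, m23_10, m23_11]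
  ring

theorem mm23_11 (γ : ℕ → ℝ) : Mat 23 (Mat 23 γ) 11 =
      (21711184096919552) * γ 0 + (6278079240470528) * γ 1 + (1815088533078016) * γ 2
       + (524680192589824) * γ 3 + (151640561680384) * γ 4 + (43818539810816) * γ 5
       + (12659602751488) * γ 6 + (3656787165184) * γ 7 + (1056074104832) * γ 8
       + (304931143680) * γ 9 + (88027693056) * γ 10 + (25406472192) * γ 11 := by
  rw [m23_11]
  simp only [m23_0, m23_1, m23_2, m23_3, m23_4, m23_5, m23_6, m23_7, m23_8, m23_9, m23_10, m23_11]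
  ring

theorem p23_0 (γ : ℕ → ℝ) (h0 : γ 0 = 1)
    (h : ∀ n < 23, 2 * (((23 : ℕ) : ℝ) - ((n : ℕ) : ℝ)) * ∑ i ∈ range (23 / 2 + 1), γ i * (cfn 23 i n : ℝ) ≤
      ((n : ℝ) + 1) * ∑ i ∈ range (23 / 2 + 1), γ i * (cfn 23 i (n + 1) : ℝ)) :
    0 < Mat 23 (Mat 23 (Mat 23 γ)) 0 := by

  rw [m23_0]
  simp only [mm23_0, mm23_1, mm23_2, mm23_3, mm23_4, mm23_5, mm23_6, mm23_7, mm23_8, mm23_9, mm23_10, mm23_11]
  linarith only [h0]

theorem p23_1 (γ : ℕ → ℝ) (h0 : γ 0 = 1)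
    (h : ∀ n < 23, 2 * (((23 : ℕ) : ℝ) - ((n : ℕ) : ℝ)) * ∑ i ∈ range (23 / 2 + 1), γ i * (cfn 23 i n : ℝ) ≤
      ((n : ℝ) + 1) * ∑ i ∈ range (23 / 2 + 1), γ i * (cfn 23 i (n + 1) : ℝ)) :
    0 < Mat 23 (Mat 23 (Mat 23 γ)) 1 := by
  have k0 := q23_0 γ h0 h
  have k1 := q23_1 γ h0 h
  have k4 := q23_4 γ h0 h
  have k6 := q23_6 γ h0 h
  have k3 := q23_3 γ h0 h
  have k7 := q23_7 γ h0 h
  have k2 := q23_2 γ h0 h
  have k5 := q23_5 γ h0 h
  rw [m23_1]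
  simp only [mm23_0, mm23_1, mm23_2, mm23_3, mm23_4, mm23_5, mm23_6, mm23_7, mm23_8, mm23_9, mm23_10, mm23_11]
  linarith only [h0, k0, k1, k4, k6, k3, k7, k2, k5]

theorem p23_2 (γ : ℕ → ℝ) (h0 : γ 0 = 1)
    (h : ∀ n < 23, 2 * (((23 : ℕ) : ℝ) - ((n : ℕ) : ℝ)) * ∑ i ∈ range (23 / 2 + 1), γ i * (cfn 23 i n : ℝ) ≤
      ((n : ℝ) + 1) * ∑ i ∈ range (23 / 2 + 1), γ i * (cfn 23 i (n + 1) : ℝ)) :
    0 < Mat 23 (Mat 23 (Mat 23 γ)) 2 := by
  have k1 := q23_1 γ h0 h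
  have k0 := q23_0 γ h0 h
  have k3 := q23_3 γ h0 h
  have k2 := q23_2 γ h0 h
  have k6 := q23_6 γ h0 h
  have k8 := q23_8 γ h0 h
  have k11 := q23_11 γ h0 h
  have k12 := q23_12 γ h0 h
  have k5 := q23_5 γ h0 h
  have k9 := q23_9 γ h0 h
  have k4 := q23_4 γ h0 h
  rw [m23_2]
  simp only [mm23_0, mm23_1, mm23_2, mm23_3, mm23_4, mm23_5, mm23_6, mm23_7, mm23_8, mm23_9, mm23_10, mm23_11]
  linarith only [h0, k1, k0, k3, k2, k6, k8, k11, k12, k5, k9, k4]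

theorem p23_3 (γ : ℕ → ℝ) (h0 : γ 0 = 1)
    (h : ∀ n < 23, 2 * (((23 : ℕ) : ℝ) - ((n : ℕ) : ℝ)) * ∑ i ∈ range (23 / 2 + 1), γ i * (cfn 23 i n : ℝ) ≤
      ((n : ℝ) + 1) * ∑ i ∈ range (23 / 2 + 1), γ i * (cfn 23 i (n + 1) : ℝ)) :
    0 < Mat 23 (Mat 23 (Mat 23 γ)) 3 := by
  have k6 := q23_6 γ h0 h
  have k0 := q23_0 γ h0 h
  have k4 := q23_4 γ h0 h
  have k14 := q23_14 γ h0 h
  have k1 := q23_1 γ h0 h
  have k13 := q23_13 γ h0 h
  have k2 := q23_2 γ h0 h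
  have k3 := q23_3 γ h0 h
  have k9 := q23_9 γ h0 h
  have k10 := q23_10 γ h0 h
  have k7 := q23_7 γ h0 h
  rw [m23_3]
  simp only [mm23_0, mm23_1, mm23_2, mm23_3, mm23_4, mm23_5, mm23_6, mm23_7, mm23_8, mm23_9, mm23_10, mm23_11]
  linarith only [h0, k6, k0, k4, k14, k1, k13, k2, k3, k9, k10, k7]

theorem p23_4 (γ : ℕ → ℝ) (h0 : γ 0 = 1)
    (h : ∀ n < 23, 2 * (((23 : ℕ) : ℝ) - ((n : ℕ) : ℝ)) * ∑ i ∈ range (23 / 2 + 1), γ i * (cfn 23 i n : ℝ) ≤
      ((n : ℝ) + 1) * ∑ i ∈ range (23 / 2 + 1), γ i * (cfn 23 i (n + 1) : ℝ)) :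
    0 < Mat 23 (Mat 23 (Mat 23 γ)) 4 := by
  have k0 := q23_0 γ h0 h
  have k2 := q23_2 γ h0 h
  have k14 := q23_14 γ h0 h
  have k1 := q23_1 γ h0 h
  have k6 := q23_6 γ h0 h
  have k10 := q23_10 γ h0 h
  have k9 := q23_9 γ h0 h
  have k3 := q23_3 γ h0 h
  have k4 := q23_4 γ h0 h
  have k15 := q23_15 γ h0 h
  have k7 := q23_7 γ h0 h
  rw [m23_4]
  simp only [mm23_0, mm23_1, mm23_2, mm23_3, mm23_4, mm23_5, mm23_6, mm23_7, mm23_8, mm23_9, mm23_10, mm23_11]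
  linarith only [h0, k0, k2, k14, k1, k6, k10, k9, k3, k4, k15, k7]

theorem p23_5 (γ : ℕ → ℝ) (h0 : γ 0 = 1)
    (h : ∀ n < 23, 2 * (((23 : ℕ) : ℝ) - ((n : ℕ) : ℝ)) * ∑ i ∈ range (23 / 2 + 1), γ i * (cfn 23 i n : ℝ) ≤
      ((n : ℝ) + 1) * ∑ i ∈ range (23 / 2 + 1), γ i * (cfn 23 i (n + 1) : ℝ)) :
    0 < Mat 23 (Mat 23 (Mat 23 γ)) 5 := by
  have k14 := q23_14 γ h0 h
  have k0 := q23_0 γ h0 h
  have k10 := q23_10 γ h0 h
  have k3 := q23_3 γ h0 h
  have k7 := q23_7 γ h0 h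
  have k1 := q23_1 γ h0 h
  have k2 := q23_2 γ h0 h
  have k15 := q23_15 γ h0 h
  have k4 := q23_4 γ h0 h
  have k6 := q23_6 γ h0 h
  have k11 := q23_11 γ h0 h
  rw [m23_5]
  simp only [mm23_0, mm23_1, mm23_2, mm23_3, mm23_4, mm23_5, mm23_6, mm23_7, mm23_8, mm23_9, mm23_10, mm23_11]
  linarith only [h0, k14, k0, k10, k3, k7, k1, k2, k15, k4, k6, k11]

theorem p23_6 (γ : ℕ → ℝ) (h0 : γ 0 = 1)
    (h : ∀ n < 23, 2 * (((23 : ℕ) : ℝ) - ((n : ℕ) : ℝ)) * ∑ i ∈ range (23 / 2 + 1), γ i * (cfn 23 i n : ℝ) ≤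
      ((n : ℝ) + 1) * ∑ i ∈ range (23 / 2 + 1), γ i * (cfn 23 i (n + 1) : ℝ)) :
    0 < Mat 23 (Mat 23 (Mat 23 γ)) 6 := by
  have k3 := q23_3 γ h0 h
  have k0 := q23_0 γ h0 h
  have k2 := q23_2 γ h0 h
  have k15 := q23_15 γ h0 h
  have k1 := q23_1 γ h0 h
  have k6 := q23_6 γ h0 h
  have k4 := q23_4 γ h0 h
  have k7 := q23_7 γ h0 h
  have k10 := q23_10 γ h0 h
  have k16 := q23_16 γ h0 h
  have k11 := q23_11 γ h0 h
  rw [m23_6]
  simp only [mm23_0, mm23_1, mm23_2, mm23_3, mm23_4, mm23_5, mm23_6, mm23_7, mm23_8, mm23_9, mm23_10, mm23_11]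
  linarith only [h0, k3, k0, k2, k15, k1, k6, k4, k7, k10, k16, k11]

theorem p23_7 (γ : ℕ → ℝ) (h0 : γ 0 = 1)
    (h : ∀ n < 23, 2 * (((23 : ℕ) : ℝ) - ((n : ℕ) : ℝ)) * ∑ i ∈ range (23 / 2 + 1), γ i * (cfn 23 i n : ℝ) ≤
      ((n : ℝ) + 1) * ∑ i ∈ range (23 / 2 + 1), γ i * (cfn 23 i (n + 1) : ℝ)) :
    0 < Mat 23 (Mat 23 (Mat 23 γ)) 7 := by
  have k4 := q23_4 γ h0 h
  have k0 := q23_0 γ h0 h
  have k3 := q23_3 γ h0 h
  have k15 := q23_15 γ h0 h
  have k1 := q23_1 γ h0 h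
  have k2 := q23_2 γ h0 h
  have k16 := q23_16 γ h0 h
  have k7 := q23_7 γ h0 h
  have k10 := q23_10 γ h0 h
  have k6 := q23_6 γ h0 h
  have k11 := q23_11 γ h0 h
  rw [m23_7]
  simp only [mm23_0, mm23_1, mm23_2, mm23_3, mm23_4, mm23_5, mm23_6, mm23_7, mm23_8, mm23_9, mm23_10, mm23_11]
  linarith only [h0, k4, k0, k3, k15, k1, k2, k16, k7, k10, k6, k11]

theorem p23_8 (γ : ℕ → ℝ) (h0 : γ 0 = 1)
    (h : ∀ n < 23, 2 * (((23 : ℕ) : ℝ) - ((n : ℕ) : ℝ)) * ∑ i ∈ range (23 / 2 + 1), γ i * (cfn 23 i n : ℝ) ≤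
      ((n : ℝ) + 1) * ∑ i ∈ range (23 / 2 + 1), γ i * (cfn 23 i (n + 1) : ℝ)) :
    0 < Mat 23 (Mat 23 (Mat 23 γ)) 8 := by
  have k7 := q23_7 γ h0 h
  have k0 := q23_0 γ h0 h
  have k3 := q23_3 γ h0 h
  have k11 := q23_11 γ h0 h
  have k1 := q23_1 γ h0 h
  have k2 := q23_2 γ h0 h
  have k4 := q23_4 γ h0 h
  have k16 := q23_16 γ h0 h
  have k10 := q23_10 γ h0 h
  have k6 := q23_6 γ h0 h
  have k17 := q23_17 γ h0 h
  rw [m23_8]
  simp only [mm23_0, mm23_1, mm23_2, mm23_3, mm23_4, mm23_5, mm23_6, mm23_7, mm23_8, mm23_9, mm23_10, mm23_11]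
  linarith only [h0, k7, k0, k3, k11, k1, k2, k4, k16, k10, k6, k17]

theorem p23_9 (γ : ℕ → ℝ) (h0 : γ 0 = 1)
    (h : ∀ n < 23, 2 * (((23 : ℕ) : ℝ) - ((n : ℕ) : ℝ)) * ∑ i ∈ range (23 / 2 + 1), γ i * (cfn 23 i n : ℝ) ≤
      ((n : ℝ) + 1) * ∑ i ∈ range (23 / 2 + 1), γ i * (cfn 23 i (n + 1) : ℝ)) :
    0 < Mat 23 (Mat 23 (Mat 23 γ)) 9 := by
  have k3 := q23_3 γ h0 h
  have k0 := q23_0 γ h0 h
  have k2 := q23_2 γ h0 h
  have k16 := q23_16 γ h0 h
  have k1 := q23_1 γ h0 h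
  have k6 := q23_6 γ h0 h
  have k4 := q23_4 γ h0 h
  have k7 := q23_7 γ h0 h
  have k10 := q23_10 γ h0 h
  have k17 := q23_17 γ h0 h
  have k11 := q23_11 γ h0 h
  rw [m23_9]
  simp only [mm23_0, mm23_1, mm23_2, mm23_3, mm23_4, mm23_5, mm23_6, mm23_7, mm23_8, mm23_9, mm23_10, mm23_11]
  linarith only [h0, k3, k0, k2, k16, k1, k6, k4, k7, k10, k17, k11]

theorem p23_10 (γ : ℕ → ℝ) (h0 : γ 0 = 1)
    (h : ∀ n < 23, 2 * (((23 : ℕ) : ℝ) - ((n : ℕ) : ℝ)) * ∑ i ∈ range (23 / 2 + 1), γ i * (cfn 23 i n : ℝ) ≤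
      ((n : ℝ) + 1) * ∑ i ∈ range (23 / 2 + 1), γ i * (cfn 23 i (n + 1) : ℝ)) :
    0 < Mat 23 (Mat 23 (Mat 23 γ)) 10 := by
  have k11 := q23_11 γ h0 h
  have k0 := q23_0 γ h0 h
  have k2 := q23_2 γ h0 h
  have k3 := q23_3 γ h0 h
  have k1 := q23_1 γ h0 h
  have k10 := q23_10 γ h0 h
  have k16 := q23_16 γ h0 h
  have k4 := q23_4 γ h0 h
  have k17 := q23_17 γ h0 h
  have k6 := q23_6 γ h0 h
  have k7 := q23_7 γ h0 h
  rw [m23_10]
  simp only [mm23_0, mm23_1, mm23_2, mm23_3, mm23_4, mm23_5, mm23_6, mm23_7, mm23_8, mm23_9, mm23_10, mm23_11]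
  linarith only [h0, k11, k0, k2, k3, k1, k10, k16, k4, k17, k6, k7]

theorem p23_11 (γ : ℕ → ℝ) (h0 : γ 0 = 1)
    (h : ∀ n < 23, 2 * (((23 : ℕ) : ℝ) - ((n : ℕ) : ℝ)) * ∑ i ∈ range (23 / 2 + 1), γ i * (cfn 23 i n : ℝ) ≤
      ((n : ℝ) + 1) * ∑ i ∈ range (23 / 2 + 1), γ i * (cfn 23 i (n + 1) : ℝ)) :
    0 < Mat 23 (Mat 23 (Mat 23 γ)) 11 := by
  have k2 := q23_2 γ h0 h
  have k0 := q23_0 γ h0 h
  have k16 := q23_16 γ h0 h
  have k3 := q23_3 γ h0 h
  have k1 := q23_1 γ h0 h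
  have k11 := q23_11 γ h0 h
  have k17 := q23_17 γ h0 h
  have k4 := q23_4 γ h0 h
  have k10 := q23_10 γ h0 h
  have k6 := q23_6 γ h0 h
  have k7 := q23_7 γ h0 h
  rw [m23_11]
  simp only [mm23_0, mm23_1, mm23_2, mm23_3, mm23_4, mm23_5, mm23_6, mm23_7, mm23_8, mm23_9, mm23_10, mm23_11]
  linarith only [h0, k2, k0, k16, k3, k1, k11, k17, k4, k10, k6, k7]

theorem main23 (γ : ℕ → ℝ) (h0 : γ 0 = 1)
    (h : ∀ n < 23, 2 * (((23 : ℕ) : ℝ) - ((n : ℕ) : ℝ)) * ∑ i ∈ range (23 / 2 + 1), γ i * (cfn 23 i n : ℝ) ≤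
      ((n : ℝ) + 1) * ∑ i ∈ range (23 / 2 + 1), γ i * (cfn 23 i (n + 1) : ℝ)) :
    ∀ j ≤ 23 / 2, 0 < Mat 23 (Mat 23 (Mat 23 γ)) j := by
  intro j hj
  have hj' : j ≤ 11 := hj
  clear hj
  interval_cases j
  · exact p23_0 γ h0 h
  · exact p23_1 γ h0 h
  · exact p23_2 γ h0 h
  · exact p23_3 γ h0 h
  · exact p23_4 γ h0 h
  · exact p23_5 γ h0 h
  · exact p23_6 γ h0 h
  · exact p23_7 γ h0 h
  · exact p23_8 γ h0 h
  · exact p23_9 γ h0 h
  · exact p23_10 γ h0 h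
  · exact p23_11 γ h0 h

theorem c24_0 (γ : ℕ → ℝ) : ∑ i ∈ range (24 / 2 + 1), γ i * (cfn 24 i 0 : ℝ) =
    (1) * γ 0 + (0) * γ 1 + (0) * γ 2 + (0) * γ 3 + (0) * γ 4 + (0) * γ 5 + (0) * γ 6 + (0) * γ 7
       + (0) * γ 8 + (0) * γ 9 + (0) * γ 10 + (0) * γ 11 + (0) * γ 12 := by
  have h : ((24 / 2 + 1 : ℕ)) = 13 := rfl
  rw [h]
  simp only [sum_range_succ, sum_range_zero, show cfn 24 0 0 = 1 from by decide +kernel, show cfn 24 1 0 = 0 from by decide +kernel, show cfn 24 2 0 = 0 from by decide +kernel, show cfn 24 3 0 = 0 from by decide +kernel, show cfn 24 4 0 = 0 from by decide +kernel, show cfn 24 5 0 = 0 from by decide +kernel, show cfn 24 6 0 = 0 from by decide +kernel, show cfn 24 7 0 = 0 from by decide +kernel, show cfn 24 8 0 = 0 from by decide +kernel, show cfn 24 9 0 = 0 from by decide +kernel, show cfn 24 10 0 = 0 from by decide +kernel, show cfn 24 11 0 = 0 from by decide +kernel, show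 cfn 24 12 0 = 0 from by decide +kernel, Nat.cast_ofNat, Nat.cast_one, Nat.cast_zero]
  ring

theorem c24_1 (γ : ℕ → ℝ) : ∑ i ∈ range (24 / 2 + 1), γ i * (cfn 24 i 1 : ℝ) =
    (48) * γ 0 + (1) * γ 1 + (0) * γ 2 + (0) * γ 3 + (0) * γ 4 + (0) * γ 5 + (0) * γ 6
       + (0) * γ 7 + (0) * γ 8 + (0) * γ 9 + (0) * γ 10 + (0) * γ 11 + (0) * γ 12 := by
  have h : ((24 / 2 + 1 : ℕ)) = 13 := rfl
  rw [h]
  simp only [sum_range_succ, sum_range_zero, show cfn 24 0 1 = 48 from by decide +kernel, show cfn 24 1 1 = 1 from by decide +kernel, show cfn 24 2 1 = 0 from by decide +kernel, show cfn 24 3 1 = 0 from by decide +kernel, show cfn 24 4 1 = 0 from by decide +kernel, show cfn 24 5 1 = 0 from by decide +kernel, show cfn 24 6 1 = 0 from by decide +kernel, show cfn 24 7 1 = 0 from by decide +kernel, show cfn 24 8 1 = 0 from by decide +kernel, show cfn 24 9 1 = 0 from by decide +kernel, show cfn 24 10 1 = 0 from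 by decide +kernel, show cfn 24 11 1 = 0 from by decide +kernel, show cfn 24 12 1 = 0 from by decide +kernel, Nat.cast_ofNat, Nat.cast_one, Nat.cast_zero]
  ring

theorem c24_2 (γ : ℕ → ℝ) : ∑ i ∈ range (24 / 2 + 1), γ i * (cfn 24 i 2 : ℝ) =
    (1104) * γ 0 + (45) * γ 1 + (1) * γ 2 + (0) * γ 3 + (0) * γ 4 + (0) * γ 5 + (0) * γ 6
       + (0) * γ 7 + (0) * γ 8 + (0) * γ 9 + (0) * γ 10 + (0) * γ 11 + (0) * γ 12 := by
  have h : ((24 / 2 + 1 : ℕ)) = 13 := rfl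
  rw [h]
  simp only [sum_range_succ, sum_range_zero, show cfn 24 0 2 = 1104 from by decide +kernel, show cfn 24 1 2 = 45 from by decide +kernel, show cfn 24 2 2 = 1 from by decide +kernel, show cfn 24 3 2 = 0 from by decide +kernel, show cfn 24 4 2 = 0 from by decide +kernel, show cfn 24 5 2 = 0 from by decide +kernel, show cfn 24 6 2 = 0 from by decide +kernel, show cfn 24 7 2 = 0 from by decide +kernel, show cfn 24 8 2 = 0 from by decide +kernel, show cfn 24 9 2 = 0 from by decide +kernel, show cfn 24 10 2 = 0 from by decide +kernel, show cfn 24 11 2 = 0 from by decide +kernel, show cfn 24 12 2 = 0 from by decide +kernel, Nat.cast_ofNat, Nat.cast_one, Nat.cast_zero]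
  ring

theorem c24_3 (γ : ℕ → ℝ) : ∑ i ∈ range (24 / 2 + 1), γ i * (cfn 24 i 3 : ℝ) =
    (16192) * γ 0 + (968) * γ 1 + (42) * γ 2 + (1) * γ 3 + (0) * γ 4 + (0) * γ 5 + (0) * γ 6
       + (0) * γ 7 + (0) * γ 8 + (0) * γ 9 + (0) * γ 10 + (0) * γ 11 + (0) * γ 12 := by
  have h : ((24 / 2 + 1 : ℕ)) = 13 := rfl
  rw [h]
  simp only [sum_range_succ, sum_range_zero, show cfn 24 0 3 = 16192 from by decide +kernel, show cfn 24 1 3 = 968 from by decide +kernel, show cfn 24 2 3 = 42 from by decide +kernel, show cfn 24 3 3 = 1 from by decide +kernel, show cfn 24 4 3 = 0 from by decide +kernel, show cfn 24 5 3 = 0 from by decide +kernel, show cfn 24 6 3 = 0 from by decide +kernel, show cfn 24 7 3 = 0 from by decide +kernel, show cfn 24 8 3 = 0 from by decide +kernel, show cfn 24 9 3 = 0 from by decide +kernel, show cfn 24 10 3 = 0 from by decide +kernel, show cfn 24 11 3 = 0 from by decide +kernel, show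 cfn 24 12 3 = 0 from by decide +kernel, Nat.cast_ofNat, Nat.cast_one, Nat.cast_zero]
  ring

theorem c24_4 (γ : ℕ → ℝ) : ∑ i ∈ range (24 / 2 + 1), γ i * (cfn 24 i 4 : ℝ) =
    (170016) * γ 0 + (13244) * γ 1 + (841) * γ 2 + (39) * γ 3 + (1) * γ 4 + (0) * γ 5 + (0) * γ 6
       + (0) * γ 7 + (0) * γ 8 + (0) * γ 9 + (0) * γ 10 + (0) * γ 11 + (0) * γ 12 := by
  have h : ((24 / 2 + 1 : ℕ)) = 13 := rfl
  rw [h]
  simp only [sum_range_succ, sum_range_zero, show cfn 24 0 4 = 170016 from by decide +kernel, show cfn 24 1 4 = 13244 from by decide +kernel, show cfn 24 2 4 = 841 from by decide +kernel, show cfn 24 3 4 = 39 from by decide +kernel, show cfn 24 4 4 = 1 from by decide +kernel, show cfn 24 5 4 = 0 from by decide +kernel, show cfn 24 6 4 = 0 from by decide +kernel, show cfn 24 7 4 = 0 from by decide +kernel, show cfn 24 8 4 = 0 from by decide +kernel, show cfn 24 9 4 = 0 from by decide +kernel,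 show cfn 24 10 4 = 0 from by decide +kernel, show cfn 24 11 4 = 0 from by decide +kernel, show cfn 24 12 4 = 0 from by decide +kernel, Nat.cast_ofNat, Nat.cast_one, Nat.cast_zero]
  ring

theorem c24_5 (γ : ℕ → ℝ) : ∑ i ∈ range (24 / 2 + 1), γ i * (cfn 24 i 5 : ℝ) =
    (1360128) * γ 0 + (129360) * γ 1 + (10680) * γ 2 + (723) * γ 3 + (36) * γ 4 + (1) * γ 5
       + (0) * γ 6 + (0) * γ 7 + (0) * γ 8 + (0) * γ 9 + (0) * γ 10 + (0) * γ 11 + (0) * γ 12 := by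
  have h : ((24 / 2 + 1 : ℕ)) = 13 := rfl
  rw [h]
  simp only [sum_range_succ, sum_range_zero, show cfn 24 0 5 = 1360128 from by decide +kernel, show cfn 24 1 5 = 129360 from by decide +kernel, show cfn 24 2 5 = 10680 from by decide +kernel, show cfn 24 3 5 = 723 from by decide +kernel, show cfn 24 4 5 = 36 from by decide +kernel, show cfn 24 5 5 = 1 from by decide +kernel, show cfn 24 6 5 = 0 from by decide +kernel, show cfn 24 7 5 = 0 from by decide +kernel, show cfn 24 8 5 = 0 from by decide +kernel, show cfn 24 9 5 = 0 from by decide +kernel, show cfn 24 10 5 = 0 from by decide +kernel, show cfn 24 11 5 = 0 from by decide +kernel, show cfn 24 12 5 = 0 from by decide +kernel, Nat.cast_ofNat, Nat.cast_one, Nat.cast_zero]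
  ring

theorem c24_6 (γ : ℕ → ℝ) : ∑ i ∈ range (24 / 2 + 1), γ i * (cfn 24 i 6 : ℝ) =
    (8614144) * γ 0 + (959728) * γ 1 + (96520) * γ 2 + (8473) * γ 3 + (614) * γ 4 + (33) * γ 5
       + (1) * γ 6 + (0) * γ 7 + (0) * γ 8 + (0) * γ 9 + (0) * γ 10 + (0) * γ 11 + (0) * γ 12 := by
  have h : ((24 / 2 + 1 : ℕ)) = 13 := rfl
  rw [h]
  simp only [sum_range_succ, sum_range_zero, show cfn 24 0 6 = 8614144 from by decide +kernel, show cfn 24 1 6 = 959728 from by decide +kernel, show cfn 24 2 6 = 96520 from by decide +kernel, show cfn 24 3 6 = 8473 from by decide +kernel, show cfn 24 4 6 = 614 from by decide +kernel, show cfn 24 5 6 = 33 from by decide +kernel, show cfn 24 6 6 = 1 from by decide +kernel, show cfn 24 7 6 = 0 from by decide +kernel, show cfn 24 8 6 = 0 from by decide +kernel, show cfn 24 9 6 = 0 from by decide +kernel, show cfn 24 10 6 = 0 from by decide +kernel, show cfn 24 11 6 = 0 from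 by decide +kernel, show cfn 24 12 6 = 0 from by decide +kernel, Nat.cast_ofNat, Nat.cast_one, Nat.cast_zero]
  ring

theorem c24_7 (γ : ℕ → ℝ) : ∑ i ∈ range (24 / 2 + 1), γ i * (cfn 24 i 7 : ℝ) =
    (44301312) * γ 0 + (5617920) * γ 1 + (660288) * γ 2 + (70416) * γ 3 + (6596) * γ 4
       + (514) * γ 5 + (30) * γ 6 + (1) * γ 7 + (0) * γ 8 + (0) * γ 9 + (0) * γ 10 + (0) * γ 11
       + (0) * γ 12 := by
  have h : ((24 / 2 + 1 : ℕ)) = 13 := rfl
  rw [h]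
  simp only [sum_range_succ, sum_range_zero, show cfn 24 0 7 = 44301312 from by decide +kernel, show cfn 24 1 7 = 5617920 from by decide +kernel, show cfn 24 2 7 = 660288 from by decide +kernel, show cfn 24 3 7 = 70416 from by decide +kernel, show cfn 24 4 7 = 6596 from by decide +kernel, show cfn 24 5 7 = 514 from by decide +kernel, show cfn 24 6 7 = 30 from by decide +kernel, show cfn 24 7 7 = 1 from by decide +kernel, show cfn 24 8 7 = 0 from by decide +kernel, show cfn 24 9 7 = 0 from by decide +kernel, show cfn 24 10 7 = 0 from by decide +kernel, show cfn 24 11 7 = 0 from by decide +kernel, show cfn 24 12 7 = 0 from by decide +kernel, Nat.cast_ofNat, Nat.cast_one, Nat.cast_zero]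
  ring

theorem c24_8 (γ : ℕ → ℝ) : ∑ i ∈ range (24 / 2 + 1), γ i * (cfn 24 i 8 : ℝ) =
    (188280576) * γ 0 + (26604864) * γ 1 + (3550416) * γ 2 + (441252) * γ 3 + (50049) * γ 4
       + (5022) * γ 5 + (423) * γ 6 + (27) * γ 7 + (1) * γ 8 + (0) * γ 9 + (0) * γ 10 + (0) * γ 11
       + (0) * γ 12 := by
  have h : ((24 / 2 + 1 : ℕ)) = 13 := rfl
  rw [h]
  simp only [sum_range_succ, sum_range_zero, show cfn 24 0 8 = 188280576 from by decide +kernel, show cfn 24 1 8 = 26604864 from by decide +kernel, show cfn 24 2 8 = 3550416 from by decide +kernel, show cfn 24 3 8 = 441252 from by decide +kernel, show cfn 24 4 8 = 50049 from by decide +kernel, show cfn 24 5 8 = 5022 from by decide +kernel, show cfn 24 6 8 = 423 from by decide +kernel, show cfn 24 7 8 = 27 from by decide +kernel, show cfn 24 8 8 = 1 from by decide +kernel, show cfn 24 9 8 = 0 from by decide +kernel, show cfn 24 10 8 = 0 from by decide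 +kernel, show cfn 24 11 8 = 0 from by decide +kernel, show cfn 24 12 8 = 0 from by decide +kernel, Nat.cast_ofNat, Nat.cast_one, Nat.cast_zero]
  ring

theorem c24_9 (γ : ℕ → ℝ) : ∑ i ∈ range (24 / 2 + 1), γ i * (cfn 24 i 9 : ℝ) =
    (669442048) * γ 0 + (103690752) * γ 1 + (15379968) * γ 2 + (2164032) * γ 3 + (285088) * γ 4
       + (34501) * γ 5 + (3724) * γ 6 + (341) * γ 7 + (24) * γ 8 + (1) * γ 9 + (0) * γ 10
       + (0) * γ 11 + (0) * γ 12 := by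
  have h : ((24 / 2 + 1 : ℕ)) = 13 := rfl
  rw [h]
  simp only [sum_range_succ, sum_range_zero, show cfn 24 0 9 = 669442048 from by decide +kernel, show cfn 24 1 9 = 103690752 from by decide +kernel, show cfn 24 2 9 = 15379968 from by decide +kernel, show cfn 24 3 9 = 2164032 from by decide +kernel, show cfn 24 4 9 = 285088 from by decide +kernel, show cfn 24 5 9 = 34501 from by decide +kernel, show cfn 24 6 9 = 3724 from by decide +kernel, show cfn 24 7 9 = 341 from by decide +kernel, show cfn 24 8 9 = 24 from by decide +kernel, show cfn 24 9 9 = 1 from by decide +kernel, show cfn 24 10 9 = 0 from by decide +kernel, show cfn 24 11 9 = 0 from by decide +kernel, show cfn 24 12 9 = 0 from by decide +kernel, Nat.cast_ofNat, Nat.cast_one, Nat.cast_zero]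
  ring

theorem c24_10 (γ : ℕ → ℝ) : ∑ i ∈ range (24 / 2 + 1), γ i * (cfn 24 i 10 : ℝ) =
    (2008326144) * γ 0 + (336540160) * γ 1 + (54574080) * γ 2 + (8509248) * γ 3 + (1264736) * γ 4
       + (177045) * γ 5 + (22935) * γ 6 + (2675) * γ 7 + (268) * γ 8 + (21) * γ 9 + (1) * γ 10
       + (0) * γ 11 + (0) * γ 12 := by
  have h : ((24 / 2 + 1 : ℕ)) = 13 := rfl
  rw [h]
  simp only [sum_range_succ, sum_range_zero, show cfn 24 0 10 = 2008326144 from by decide +kernel, show cfn 24 1 10 = 336540160 from by decide +kernel, show cfn 24 2 10 = 54574080 from by decide +kernel, show cfn 24 3 10 = 8509248 from by decide +kernel, show cfn 24 4 10 = 1264736 from by decide +kernel, show cfn 24 5 10 = 177045 from by decide +kernel, show cfn 24 6 10 = 22935 from by decide +kernel, show cfn 24 7 10 = 2675 from by decide +kernel, show cfn 24 8 10 = 268 from by decide +kernel, show cfn 24 9 10 = 21 from by decide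 +kernel, show cfn 24 10 10 = 1 from by decide +kernel, show cfn 24 11 10 = 0 from by decide +kernel, show cfn 24 12 10 = 0 from by decide +kernel, Nat.cast_ofNat, Nat.cast_one, Nat.cast_zero]
  ring

theorem c24_11 (γ : ℕ → ℝ) : ∑ i ∈ range (24 / 2 + 1), γ i * (cfn 24 i 11 : ℝ) =
    (5112102912) * γ 0 + (916844544) * γ 1 + (160414720) * γ 2 + (27260928) * γ 3
       + (4473984) * γ 4 + (703640) * γ 5 + (104910) * γ 6 + (14595) * γ 7 + (1848) * γ 8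
       + (204) * γ 9 + (18) * γ 10 + (1) * γ 11 + (0) * γ 12 := by
  have h : ((24 / 2 + 1 : ℕ)) = 13 := rfl
  rw [h]
  simp only [sum_range_succ, sum_range_zero, show cfn 24 0 11 = 5112102912 from by decide +kernel, show cfn 24 1 11 = 916844544 from by decide +kernel, show cfn 24 2 11 = 160414720 from by decide +kernel, show cfn 24 3 11 = 27260928 from by decide +kernel, show cfn 24 4 11 = 4473984 from by decide +kernel, show cfn 24 5 11 = 703640 from by decide +kernel, show cfn 24 6 11 = 104910 from by decide +kernel, show cfn 24 7 11 = 14595 from by decide +kernel, show cfn 24 8 11 = 1848 from by decide +kernel, show cfn 24 9 11 = 204 from by decide +kernel, show cfn 24 10 11 = 18 from by decide +kernel, show cfn 24 11 11 = 1 from by decide +kernel, show cfn 24 12 11 = 0 from by decide +kernel, Nat.cast_ofNat, Nat.cast_one, Nat.cast_zero]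
  ring

theorem c24_12 (γ : ℕ → ℝ) : ∑ i ∈ range (24 / 2 + 1), γ i * (cfn 24 i 12 : ℝ) =
    (11076222976) * γ 0 + (2106890240) * γ 1 + (393429504) * γ 2 + (71908096) * γ 3
       + (12815296) * γ 4 + (2215980) * γ 5 + (369305) * γ 6 + (58765) * γ 7 + (8806) * γ 8
       + (1216) * γ 9 + (149) * γ 10 + (15) * γ 11 + (1) * γ 12 := by
  have h : ((24 / 2 + 1 : ℕ)) = 13 := rfl
  rw [h]
  simp only [sum_range_succ, sum_range_zero, show cfn 24 0 12 = 11076222976 from by decide +kernel, show cfn 24 1 12 = 2106890240 from by decide +kernel, show cfn 24 2 12 = 393429504 from by decide +kernel, show cfn 24 3 12 = 71908096 from by decide +kernel, show cfn 24 4 12 = 12815296 from by decide +kernel, show cfn 24 5 12 = 2215980 from by decide +kernel, show cfn 24 6 12 = 369305 from by decide +kernel, show cfn 24 7 12 = 58765 from by decide +kernel, show cfn 24 8 12 = 8806 from by decide +kernel, show cfn 24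 9 12 = 1216 from by decide +kernel, show cfn 24 10 12 = 149 from by decide +kernel, show cfn 24 11 12 = 15 from by decide +kernel, show cfn 24 12 12 = 1 from by decide +kernel, Nat.cast_ofNat, Nat.cast_one, Nat.cast_zero]
  ring

theorem c24_13 (γ : ℕ → ℝ) : ∑ i ∈ range (24 / 2 + 1), γ i * (cfn 24 i 13 : ℝ) =
    (20448411648) * γ 0 + (4093386752) * γ 1 + (808357888) * γ 2 + (157168128) * γ 3
       + (30011904) * γ 4 + (5610800) * γ 5 + (1022760) * γ 6 + (180775) * γ 7 + (30744) * γ 8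
       + (4974) * γ 9 + (752) * γ 10 + (103) * γ 11 + (12) * γ 12 := by
  have h : ((24 / 2 + 1 : ℕ)) = 13 := rfl
  rw [h]
  simp only [sum_range_succ, sum_range_zero, show cfn 24 0 13 = 20448411648 from by decide +kernel, show cfn 24 1 13 = 4093386752 from by decide +kernel, show cfn 24 2 13 = 808357888 from by decide +kernel, show cfn 24 3 13 = 157168128 from by decide +kernel, show cfn 24 4 13 = 30011904 from by decide +kernel, show cfn 24 5 13 = 5610800 from by decide +kernel, show cfn 24 6 13 = 1022760 from by decide +kernel, show cfn 24 7 13 = 180775 from by decide +kernel, show cfn 24 8 13 = 30744 from by decide +kernel, show cfn 24 9 13 = 4974 from by decide +kernel, show cfn 24 10 13 = 752 from by decide +kernel, show cfn 24 11 13 = 103 from by decide +kernel, show cfn 24 12 13 = 12 from by decide +kernel, Nat.cast_ofNat, Nat.cast_one, Nat.cast_zero]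
  ring

theorem c24_14 (γ : ℕ → ℝ) : ∑ i ∈ range (24 / 2 + 1), γ i * (cfn 24 i 14 : ℝ) =
    (32133218304) * γ 0 + (6723526656) * γ 1 + (1393127424) * γ 2 + (285482496) * γ 3
       + (57767424) * γ 4 + (11520080) * γ 5 + (2258520) * γ 6 + (433905) * γ 7 + (81340) * γ 8
       + (14790) * γ 9 + (2586) * γ 10 + (429) * γ 11 + (66) * γ 12 := by
  have h : ((24 / 2 + 1 : ℕ)) = 13 := rfl
  rw [h]
  simp only [sum_range_succ, sum_range_zero, show cfn 24 0 14 = 32133218304 from by decide +kernel, show cfn 24 1 14 = 6723526656 from by decide +kernel, show cfn 24 2 14 = 1393127424 from by decide +kernel, show cfn 24 3 14 = 285482496 from by decide +kernel, show cfn 24 4 14 = 57767424 from by decide +kernel, show cfn 24 5 14 = 11520080 from by decide +kernel, show cfn 24 6 14 = 2258520 from by decide +kernel, show cfn 24 7 14 = 433905 from by decide +kernel, show cfn 24 8 14 = 81340 from by decide +kernel,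 show cfn 24 9 14 = 14790 from by decide +kernel, show cfn 24 10 14 = 2586 from by decide +kernel, show cfn 24 11 14 = 429 from by decide +kernel, show cfn 24 12 14 = 66 from by decide +kernel, Nat.cast_ofNat, Nat.cast_one, Nat.cast_zero]
  ring

theorem c24_15 (γ : ℕ → ℝ) : ∑ i ∈ range (24 / 2 + 1), γ i * (cfn 24 i 15 : ℝ) =
    (42844291072) * γ 0 + (9313976320) * γ 1 + (2010972160) * γ 2 + (430882816) * γ 3
       + (91533312) * γ 4 + (19255808) * γ 5 + (4005760) * γ 6 + (822560) * γ 7 + (166344) * γ 8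
       + (33028) * γ 9 + (6412) * γ 10 + (1210) * γ 11 + (220) * γ 12 := by
  have h : ((24 / 2 + 1 : ℕ)) = 13 := rfl
  rw [h]
  simp only [sum_range_succ, sum_range_zero, show cfn 24 0 15 = 42844291072 from by decide +kernel, show cfn 24 1 15 = 9313976320 from by decide +kernel, show cfn 24 2 15 = 2010972160 from by decide +kernel, show cfn 24 3 15 = 430882816 from by decide +kernel, show cfn 24 4 15 = 91533312 from by decide +kernel, show cfn 24 5 15 = 19255808 from by decide +kernel, show cfn 24 6 15 = 4005760 from by decide +kernel, show cfn 24 7 15 = 822560 from by decide +kernel, show cfn 24 8 15 = 166344 from by decide +kernel, show cfn 24 9 15 = 33028 from by decide +kernel, show cfn 24 10 15 = 6412 from by decide +kernel, show cfn 24 11 15 = 1210 from by decide +kernel, show cfn 24 12 15 = 220 from by decide +kernel, Nat.cast_ofNat, Nat.cast_one, Nat.cast_zero]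
  ring

theorem c24_16 (γ : ℕ → ℝ) : ∑ i ∈ range (24 / 2 + 1), γ i * (cfn 24 i 16 : ℝ) =
    (48199827456) * γ 0 + (10827497472) * γ 1 + (2421104640) * γ 2 + (538638336) * γ 3
       + (119162368) * γ 4 + (26197184) * γ 5 + (5718768) * γ 6 + (1238420) * γ 7 + (265729) * γ 8
       + (56412) * γ 9 + (11826) * γ 10 + (2442) * γ 11 + (495) * γ 12 := by
  have h : ((24 / 2 + 1 : ℕ)) = 13 := rfl
  rw [h]
  simp only [sum_range_succ, sum_range_zero, show cfn 24 0 16 = 48199827456 from by decide +kernel, show cfn 24 1 16 = 10827497472 from by decide +kernel, show cfn 24 2 16 = 2421104640 from by decide +kernel, show cfn 24 3 16 = 538638336 from by decide +kernel, show cfn 24 4 16 = 119162368 from by decide +kernel, show cfn 24 5 16 = 26197184 from by decide +kernel, show cfn 24 6 16 = 5718768 from by decide +kernel, show cfn 24 7 16 = 1238420 from by decide +kernel, show cfn 24 8 16 = 265729 from by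 decide +kernel, show cfn 24 9 16 = 56412 from by decide +kernel, show cfn 24 10 16 = 11826 from by decide +kernel, show cfn 24 11 16 = 2442 from by decide +kernel, show cfn 24 12 16 = 495 from by decide +kernel, Nat.cast_ofNat, Nat.cast_one, Nat.cast_zero]
  ring

theorem c24_17 (γ : ℕ → ℝ) : ∑ i ∈ range (24 / 2 + 1), γ i * (cfn 24 i 17 : ℝ) =
    (45364543488) * γ 0 + (10478223360) * γ 1 + (2413166592) * γ 2 + (553992192) * γ 3
       + (126738432) * γ 4 + (28883712) * γ 5 + (6554880) * γ 6 + (1480608) * γ 7 + (332688) * γ 8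
       + (74313) * γ 9 + (16488) * γ 10 + (3630) * γ 11 + (792) * γ 12 := by
  have h : ((24 / 2 + 1 : ℕ)) = 13 := rfl
  rw [h]
  simp only [sum_range_succ, sum_range_zero, show cfn 24 0 17 = 45364543488 from by decide +kernel, show cfn 24 1 17 = 10478223360 from by decide +kernel, show cfn 24 2 17 = 2413166592 from by decide +kernel, show cfn 24 3 17 = 553992192 from by decide +kernel, show cfn 24 4 17 = 126738432 from by decide +kernel, show cfn 24 5 17 = 28883712 from by decide +kernel, show cfn 24 6 17 = 6554880 from by decide +kernel, show cfn 24 7 17 = 1480608 from by decide +kernel, show cfn 24 8 17 = 332688 from by decide +kernel, show cfn 24 9 17 = 74313 from by decide +kernel, show cfn 24 10 17 = 16488 from by decide +kernel, show cfn 24 11 17 = 3630 from by decide +kernel, show cfn 24 12 17 = 792 from by decide +kernel, Nat.cast_ofNat, Nat.cast_one, Nat.cast_zero]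
  ring

theorem c24_18 (γ : ℕ → ℝ) : ∑ i ∈ range (24 / 2 + 1), γ i * (cfn 24 i 18 : ℝ) =
    (35283533824) * γ 0 + (8341487616) * γ 1 + (1968635904) * γ 2 + (463749120) * γ 3
       + (109027328) * γ 4 + (25577216) * γ 5 + (5986304) * γ 6 + (1397536) * γ 7 + (325360) * γ 8
       + (75517) * γ 9 + (17469) * γ 10 + (4026) * γ 11 + (924) * γ 12 := by
  have h : ((24 / 2 + 1 : ℕ)) = 13 := rfl
  rw [h]
  simp only [sum_range_succ, sum_range_zero, show cfn 24 0 18 = 35283533824 from by decide +kernel, show cfn 24 1 18 = 8341487616 from by decide +kernel, show cfn 24 2 18 = 1968635904 from by decide +kernel, show cfn 24 3 18 = 463749120 from by decide +kernel, show cfn 24 4 18 = 109027328 from by decide +kernel, show cfn 24 5 18 = 25577216 from by decide +kernel, show cfn 24 6 18 = 5986304 from by decide +kernel, show cfn 24 7 18 = 1397536 from by decide +kernel, show cfn 24 8 18 = 325360 from by decide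 +kernel, show cfn 24 9 18 = 75517 from by decide +kernel, show cfn 24 10 18 = 17469 from by decide +kernel, show cfn 24 11 18 = 4026 from by decide +kernel, show cfn 24 12 18 = 924 from by decide +kernel, Nat.cast_ofNat, Nat.cast_one, Nat.cast_zero]
  ring

theorem c24_19 (γ : ℕ → ℝ) : ∑ i ∈ range (24 / 2 + 1), γ i * (cfn 24 i 19 : ℝ) =
    (22284337152) * γ 0 + (5369233408) * γ 1 + (1292500992) * γ 2 + (310837248) * γ 3
       + (74678272) * γ 4 + (17922048) * γ 5 + (4296192) * γ 6 + (1028608) * γ 7 + (245952) * γ 8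
       + (58728) * γ 9 + (14002) * γ 10 + (3333) * γ 11 + (792) * γ 12 := by
  have h : ((24 / 2 + 1 : ℕ)) = 13 := rfl
  rw [h]
  simp only [sum_range_succ, sum_range_zero, show cfn 24 0 19 = 22284337152 from by decide +kernel, show cfn 24 1 19 = 5369233408 from by decide +kernel, show cfn 24 2 19 = 1292500992 from by decide +kernel, show cfn 24 3 19 = 310837248 from by decide +kernel, show cfn 24 4 19 = 74678272 from by decide +kernel, show cfn 24 5 19 = 17922048 from by decide +kernel, show cfn 24 6 19 = 4296192 from by decide +kernel, show cfn 24 7 19 = 1028608 from by decide +kernel, show cfn 24 8 19 = 245952 from by decide +kernel, show cfn 24 9 19 = 58728 from by decide +kernel, show cfn 24 10 19 = 14002 from by decide +kernel, show cfn 24 11 19 = 3333 from by decide +kernel, show cfn 24 12 19 = 792 from by decide +kernel, Nat.cast_ofNat, Nat.cast_one, Nat.cast_zero]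
  ring

theorem c24_20 (γ : ℕ → ℝ) : ∑ i ∈ range (24 / 2 + 1), γ i * (cfn 24 i 20 : ℝ) =
    (11142168576) * γ 0 + (2724986880) * γ 1 + (666173440) * γ 2 + (162791424) * γ 3
       + (39763968) * γ 4 + (9708544) * γ 5 + (2369280) * γ 6 + (577920) * γ 7 + (140896) * γ 8
       + (34332) * γ 9 + (8361) * γ 10 + (2035) * γ 11 + (495) * γ 12 := by
  have h : ((24 / 2 + 1 : ℕ)) = 13 := rfl
  rw [h]
  simp only [sum_range_succ, sum_range_zero, show cfn 24 0 20 = 11142168576 from by decide +kernel, show cfn 24 1 20 = 2724986880 from by decide +kernel, show cfn 24 2 20 = 666173440 from by decide +kernel, show cfn 24 3 20 = 162791424 from by decide +kernel, show cfn 24 4 20 = 39763968 from by decide +kernel, show cfn 24 5 20 = 9708544 from by decide +kernel, show cfn 24 6 20 = 2369280 from by decide +kernel, show cfn 24 7 20 = 577920 from by decide +kernel, show cfn 24 8 20 = 140896 from by decide +kernel,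 show cfn 24 9 20 = 34332 from by decide +kernel, show cfn 24 10 20 = 8361 from by decide +kernel, show cfn 24 11 20 = 2035 from by decide +kernel, show cfn 24 12 20 = 495 from by decide +kernel, Nat.cast_ofNat, Nat.cast_one, Nat.cast_zero]
  ring

theorem q24_0 (γ : ℕ → ℝ) (h0 : γ 0 = 1)
    (h : ∀ n < 24, 2 * (((24 : ℕ) : ℝ) - ((n : ℕ) : ℝ)) * ∑ i ∈ range (24 / 2 + 1), γ i * (cfn 24 i n : ℝ) ≤
      ((n : ℝ) + 1) * ∑ i ∈ range (24 / 2 + 1), γ i * (cfn 24 i (n + 1) : ℝ)) :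
    0 ≤ (0) * γ 0 + (1) * γ 1 + (0) * γ 2 + (0) * γ 3 + (0) * γ 4 + (0) * γ 5 + (0) * γ 6 + (0) * γ 7
       + (0) * γ 8 + (0) * γ 9 + (0) * γ 10 + (0) * γ 11 + (0) * γ 12 := by
  have h1 := h 0 (by norm_num)
  rw [show 0 + 1 = 1 from rfl, c24_0, c24_1] at h1
  norm_num [h0] at h1 ⊢
  linarith

theorem q24_1 (γ : ℕ → ℝ) (h0 : γ 0 = 1)
    (h : ∀ n < 24, 2 * (((24 : ℕ) : ℝ) - ((n : ℕ) : ℝ)) * ∑ i ∈ range (24 / 2 + 1), γ i * (cfn 24 i n : ℝ) ≤
      ((n : ℝ) + 1) * ∑ i ∈ range (24 / 2 + 1), γ i * (cfn 24 i (n + 1) : ℝ)) :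
    0 ≤ (0) * γ 0 + (44) * γ 1 + (2) * γ 2 + (0) * γ 3 + (0) * γ 4 + (0) * γ 5 + (0) * γ 6
       + (0) * γ 7 + (0) * γ 8 + (0) * γ 9 + (0) * γ 10 + (0) * γ 11 + (0) * γ 12 := by
  have h1 := h 1 (by norm_num)
  rw [show 1 + 1 = 2 from rfl, c24_1, c24_2] at h1
  norm_num [h0] at h1 ⊢
  linarith

theorem q24_2 (γ : ℕ → ℝ) (h0 : γ 0 = 1)
    (h : ∀ n < 24, 2 * (((24 : ℕ) : ℝ) - ((n : ℕ) : ℝ)) * ∑ i ∈ range (24 / 2 + 1), γ i * (cfn 24 i n : ℝ) ≤
      ((n : ℝ) + 1) * ∑ i ∈ range (24 / 2 + 1), γ i * (cfn 24 i (n + 1) : ℝ)) :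
    0 ≤ (0) * γ 0 + (924) * γ 1 + (82) * γ 2 + (3) * γ 3 + (0) * γ 4 + (0) * γ 5 + (0) * γ 6
       + (0) * γ 7 + (0) * γ 8 + (0) * γ 9 + (0) * γ 10 + (0) * γ 11 + (0) * γ 12 := by
  have h1 := h 2 (by norm_num)
  rw [show 2 + 1 = 3 from rfl, c24_2, c24_3] at h1
  norm_num [h0] at h1 ⊢
  linarith

theorem q24_3 (γ : ℕ → ℝ) (h0 : γ 0 = 1)
    (h : ∀ n < 24, 2 * (((24 : ℕ) : ℝ) - ((n : ℕ) : ℝ)) * ∑ i ∈ range (24 / 2 + 1), γ i * (cfn 24 i n : ℝ) ≤
      ((n : ℝ) + 1) * ∑ i ∈ range (24 / 2 + 1), γ i * (cfn 24 i (n + 1) : ℝ)) :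
    0 ≤ (0) * γ 0 + (12320) * γ 1 + (1600) * γ 2 + (114) * γ 3 + (4) * γ 4 + (0) * γ 5 + (0) * γ 6
       + (0) * γ 7 + (0) * γ 8 + (0) * γ 9 + (0) * γ 10 + (0) * γ 11 + (0) * γ 12 := by
  have h1 := h 3 (by norm_num)
  rw [show 3 + 1 = 4 from rfl, c24_3, c24_4] at h1
  norm_num [h0] at h1 ⊢
  linarith

theorem q24_4 (γ : ℕ → ℝ) (h0 : γ 0 = 1)
    (h : ∀ n < 24, 2 * (((24 : ℕ) : ℝ) - ((n : ℕ) : ℝ)) * ∑ i ∈ range (24 / 2 + 1), γ i * (cfn 24 i n : ℝ) ≤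
      ((n : ℝ) + 1) * ∑ i ∈ range (24 / 2 + 1), γ i * (cfn 24 i (n + 1) : ℝ)) :
    0 ≤ (0) * γ 0 + (117040) * γ 1 + (19760) * γ 2 + (2055) * γ 3 + (140) * γ 4 + (5) * γ 5
       + (0) * γ 6 + (0) * γ 7 + (0) * γ 8 + (0) * γ 9 + (0) * γ 10 + (0) * γ 11 + (0) * γ 12 := by
  have h1 := h 4 (by norm_num)
  rw [show 4 + 1 = 5 from rfl, c24_4, c24_5] at h1
  norm_num [h0] at h1 ⊢
  linarith

theorem q24_5 (γ : ℕ → ℝ) (h0 : γ 0 = 1)
    (h : ∀ n < 24, 2 * (((24 : ℕ) : ℝ) - ((n : ℕ) : ℝ)) * ∑ i ∈ range (24 / 2 + 1), γ i * (cfn 24 i n : ℝ) ≤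
      ((n : ℝ) + 1) * ∑ i ∈ range (24 / 2 + 1), γ i * (cfn 24 i (n + 1) : ℝ)) :
    0 ≤ (0) * γ 0 + (842688) * γ 1 + (173280) * γ 2 + (23364) * γ 3 + (2316) * γ 4 + (160) * γ 5
       + (6) * γ 6 + (0) * γ 7 + (0) * γ 8 + (0) * γ 9 + (0) * γ 10 + (0) * γ 11 + (0) * γ 12 := by
  have h1 := h 5 (by norm_num)
  rw [show 5 + 1 = 6 from rfl, c24_5, c24_6] at h1
  norm_num [h0] at h1 ⊢
  linarith

theorem q24_6 (γ : ℕ → ℝ) (h0 : γ 0 = 1)
    (h : ∀ n < 24, 2 * (((24 : ℕ) : ℝ) - ((n : ℕ) : ℝ)) * ∑ i ∈ range (24 / 2 + 1), γ i * (cfn 24 i n : ℝ) ≤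
      ((n : ℝ) + 1) * ∑ i ∈ range (24 / 2 + 1), γ i * (cfn 24 i (n + 1) : ℝ)) :
    0 ≤ (0) * γ 0 + (4775232) * γ 1 + (1147296) * γ 2 + (187884) * γ 3 + (24068) * γ 4 + (2410) * γ 5
       + (174) * γ 6 + (7) * γ 7 + (0) * γ 8 + (0) * γ 9 + (0) * γ 10 + (0) * γ 11 + (0) * γ 12 := by
  have h1 := h 6 (by norm_num)
  rw [show 6 + 1 = 7 from rfl, c24_6, c24_7] at h1
  norm_num [h0] at h1 ⊢
  linarith

theorem q24_7 (γ : ℕ → ℝ) (h0 : γ 0 = 1)
    (h : ∀ n < 24, 2 * (((24 : ℕ) : ℝ) - ((n : ℕ) : ℝ)) * ∑ i ∈ range (24 / 2 + 1), γ i * (cfn 24 i n : ℝ) ≤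
      ((n : ℝ) + 1) * ∑ i ∈ range (24 / 2 + 1), γ i * (cfn 24 i (n + 1) : ℝ)) :
    0 ≤ (0) * γ 0 + (21829632) * γ 1 + (5953536) * γ 2 + (1135872) * γ 3 + (176128) * γ 4
       + (22700) * γ 5 + (2364) * γ 6 + (182) * γ 7 + (8) * γ 8 + (0) * γ 9 + (0) * γ 10
       + (0) * γ 11 + (0) * γ 12 := by
  have h1 := h 7 (by norm_num)
  rw [show 7 + 1 = 8 from rfl, c24_7, c24_8] at h1
  norm_num [h0] at h1 ⊢
  linarith

theorem q24_8 (γ : ℕ → ℝ) (h0 : γ 0 = 1)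
    (h : ∀ n < 24, 2 * (((24 : ℕ) : ℝ) - ((n : ℕ) : ℝ)) * ∑ i ∈ range (24 / 2 + 1), γ i * (cfn 24 i n : ℝ) ≤
      ((n : ℝ) + 1) * ∑ i ∈ range (24 / 2 + 1), γ i * (cfn 24 i (n + 1) : ℝ)) :
    0 ≤ (0) * γ 0 + (81861120) * γ 1 + (24806400) * γ 2 + (5356224) * γ 3 + (964224) * γ 4
       + (149805) * γ 5 + (19980) * γ 6 + (2205) * γ 7 + (184) * γ 8 + (9) * γ 9 + (0) * γ 10
       + (0) * γ 11 + (0) * γ 12 := by
  have h1 := h 8 (by norm_num)
  rw [show 8 + 1 = 9 from rfl, c24_8, c24_9] at h1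
  norm_num [h0] at h1 ⊢
  linarith

theorem q24_9 (γ : ℕ → ℝ) (h0 : γ 0 = 1)
    (h : ∀ n < 24, 2 * (((24 : ℕ) : ℝ) - ((n : ℕ) : ℝ)) * ∑ i ∈ range (24 / 2 + 1), γ i * (cfn 24 i n : ℝ) ≤
      ((n : ℝ) + 1) * ∑ i ∈ range (24 / 2 + 1), γ i * (cfn 24 i (n + 1) : ℝ)) :
    0 ≤ (0) * γ 0 + (254679040) * γ 1 + (84341760) * γ 2 + (20171520) * γ 3 + (4094720) * γ 4
       + (735420) * γ 5 + (117630) * γ 6 + (16520) * γ 7 + (1960) * γ 8 + (180) * γ 9 + (10) * γ 10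
       + (0) * γ 11 + (0) * γ 12 := by
  have h1 := h 9 (by norm_num)
  rw [show 9 + 1 = 10 from rfl, c24_9, c24_10] at h1
  norm_num [h0] at h1 ⊢
  linarith

theorem q24_10 (γ : ℕ → ℝ) (h0 : γ 0 = 1)
    (h : ∀ n < 24, 2 * (((24 : ℕ) : ℝ) - ((n : ℕ) : ℝ)) * ∑ i ∈ range (24 / 2 + 1), γ i * (cfn 24 i n : ℝ) ≤
      ((n : ℝ) + 1) * ∑ i ∈ range (24 / 2 + 1), γ i * (cfn 24 i (n + 1) : ℝ)) :
    0 ≤ (0) * γ 0 + (662165504) * γ 1 + (236487680) * γ 2 + (61611264) * γ 3 + (13801216) * γ 4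
       + (2782780) * γ 5 + (511830) * γ 6 + (85645) * γ 7 + (12824) * γ 8 + (1656) * γ 9
       + (170) * γ 10 + (11) * γ 11 + (0) * γ 12 := by
  have h1 := h 10 (by norm_num)
  rw [show 10 + 1 = 11 from rfl, c24_10, c24_11] at h1
  norm_num [h0] at h1 ⊢
  linarith

theorem q24_11 (γ : ℕ → ℝ) (h0 : γ 0 = 1)
    (h : ∀ n < 24, 2 * (((24 : ℕ) : ℝ) - ((n : ℕ) : ℝ)) * ∑ i ∈ range (24 / 2 + 1), γ i * (cfn 24 i n : ℝ) ≤
      ((n : ℝ) + 1) * ∑ i ∈ range (24 / 2 + 1), γ i * (cfn 24 i (n + 1) : ℝ)) :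
    0 ≤ (0) * γ 0 + (1444724736) * γ 1 + (550371328) * γ 2 + (154113024) * γ 3 + (37459968) * γ 4
       + (8297120) * γ 5 + (1704000) * γ 6 + (325710) * γ 7 + (57624) * γ 8 + (9288) * γ 9
       + (1320) * γ 10 + (154) * γ 11 + (12) * γ 12 := by
  have h1 := h 11 (by norm_num)
  rw [show 11 + 1 = 12 from rfl, c24_11, c24_12] at h1
  norm_num [h0] at h1 ⊢
  linarith

theorem q24_12 (γ : ℕ → ℝ) (h0 : γ 0 = 1)
    (h : ∀ n < 24, 2 * (((24 : ℕ) : ℝ) - ((n : ℕ) : ℝ)) * ∑ i ∈ range (24 / 2 + 1), γ i * (cfn 24 i n : ℝ) ≤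
      ((n : ℝ) + 1) * ∑ i ∈ range (24 / 2 + 1), γ i * (cfn 24 i (n + 1) : ℝ)) :
    0 ≤ (0) * γ 0 + (2648662016) * γ 1 + (1066344448) * γ 2 + (317391360) * γ 3 + (82587648) * γ 4
       + (19756880) * γ 5 + (4432560) * γ 6 + (939715) * γ 7 + (188328) * γ 8 + (35478) * γ 9
       + (6200) * γ 10 + (979) * γ 11 + (132) * γ 12 := by
  have h1 := h 12 (by norm_num)
  rw [show 12 + 1 = 13 from rfl, c24_12, c24_13] at h1
  norm_num [h0] at h1 ⊢
  linarith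

theorem q24_13 (γ : ℕ → ℝ) (h0 : γ 0 = 1)
    (h : ∀ n < 24, 2 * (((24 : ℕ) : ℝ) - ((n : ℕ) : ℝ)) * ∑ i ∈ range (24 / 2 + 1), γ i * (cfn 24 i n : ℝ) ≤
      ((n : ℝ) + 1) * ∑ i ∈ range (24 / 2 + 1), γ i * (cfn 24 i (n + 1) : ℝ)) :
    0 ≤ (0) * γ 0 + (4074864640) * γ 1 + (1719910400) * γ 2 + (539056128) * γ 3 + (148482048) * γ 4
       + (37843520) * γ 5 + (9118560) * γ 6 + (2097620) * γ 7 + (462392) * γ 8 + (97632) * γ 9
       + (19660) * γ 10 + (3740) * γ 11 + (660) * γ 12 := by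
  have h1 := h 13 (by norm_num)
  rw [show 13 + 1 = 14 from rfl, c24_13, c24_14] at h1
  norm_num [h0] at h1 ⊢
  linarith

theorem q24_14 (γ : ℕ → ℝ) (h0 : γ 0 = 1)
    (h : ∀ n < 24, 2 * (((24 : ℕ) : ℝ) - ((n : ℕ) : ℝ)) * ∑ i ∈ range (24 / 2 + 1), γ i * (cfn 24 i n : ℝ) ≤
      ((n : ℝ) + 1) * ∑ i ∈ range (24 / 2 + 1), γ i * (cfn 24 i (n + 1) : ℝ)) :
    0 ≤ (0) * γ 0 + (5239111680) * γ 1 + (2302033920) * γ 2 + (753592320) * γ 3 + (217651200) * γ 4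
       + (58435520) * γ 5 + (14916000) * γ 6 + (3660300) * γ 7 + (868360) * γ 8 + (199620) * γ 9
       + (44460) * γ 10 + (9570) * γ 11 + (1980) * γ 12 := by
  have h1 := h 14 (by norm_num)
  rw [show 14 + 1 = 15 from rfl, c24_14, c24_15] at h1
  norm_num [h0] at h1 ⊢
  linarith

theorem q24_15 (γ : ℕ → ℝ) (h0 : γ 0 = 1)
    (h : ∀ n < 24, 2 * (((24 : ℕ) : ℝ) - ((n : ℕ) : ℝ)) * ∑ i ∈ range (24 / 2 + 1), γ i * (cfn 24 i n : ℝ) ≤
      ((n : ℝ) + 1) * ∑ i ∈ range (24 / 2 + 1), γ i * (cfn 24 i (n + 1) : ℝ)) :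
    0 ≤ (0) * γ 0 + (5588385792) * γ 1 + (2540175360) * γ 2 + (862322688) * γ 3 + (258998272) * γ 4
       + (72550400) * γ 5 + (19396608) * γ 6 + (5008640) * γ 7 + (1257472) * γ 8 + (308088) * γ 9
       + (73800) * γ 10 + (17292) * γ 11 + (3960) * γ 12 := by
  have h1 := h 15 (by norm_num)
  rw [show 15 + 1 = 16 from rfl, c24_15, c24_16] at h1
  norm_num [h0] at h1 ⊢
  linarith

theorem q24_16 (γ : ℕ → ℝ) (h0 : γ 0 = 1)
    (h : ∀ n < 24, 2 * (((24 : ℕ) : ℝ) - ((n : ℕ) : ℝ)) * ∑ i ∈ range (24 / 2 + 1), γ i * (cfn 24 i n : ℝ) ≤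
      ((n : ℝ) + 1) * ∑ i ∈ range (24 / 2 + 1), γ i * (cfn 24 i (n + 1) : ℝ)) :
    0 ≤ (0) * γ 0 + (4889837568) * γ 1 + (2286157824) * γ 2 + (799653888) * γ 3 + (247955456) * γ 4
       + (71868160) * γ 5 + (19932672) * γ 6 + (5355616) * γ 7 + (1404032) * γ 8 + (360729) * γ 9
       + (91080) * γ 10 + (22638) * γ 11 + (5544) * γ 12 := by
  have h1 := h 16 (by norm_num)
  rw [show 16 + 1 = 17 from rfl, c24_16, c24_17] at h1
  norm_num [h0] at h1 ⊢
  linarith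

theorem q24_17 (γ : ℕ → ℝ) (h0 : γ 0 = 1)
    (h : ∀ n < 24, 2 * (((24 : ℕ) : ℝ) - ((n : ℕ) : ℝ)) * ∑ i ∈ range (24 / 2 + 1), γ i * (cfn 24 i n : ℝ) ≤
      ((n : ℝ) + 1) * ∑ i ∈ range (24 / 2 + 1), γ i * (cfn 24 i (n + 1) : ℝ)) :
    0 ≤ (0) * γ 0 + (3451650048) * γ 1 + (1651113984) * γ 2 + (591593472) * γ 3 + (188153856) * γ 4
       + (56017920) * γ 5 + (15985152) * γ 6 + (4427136) * γ 7 + (1198848) * γ 8 + (318924) * γ 9
       + (83610) * γ 10 + (21648) * γ 11 + (5544) * γ 12 := by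
  have h1 := h 17 (by norm_num)
  rw [show 17 + 1 = 18 from rfl, c24_17, c24_18] at h1
  norm_num [h0] at h1 ⊢
  linarith

theorem q24_18 (γ : ℕ → ℝ) (h0 : γ 0 = 1)
    (h : ∀ n < 24, 2 * (((24 : ℕ) : ℝ) - ((n : ℕ) : ℝ)) * ∑ i ∈ range (24 / 2 + 1), γ i * (cfn 24 i n : ℝ) ≤
      ((n : ℝ) + 1) * ∑ i ∈ range (24 / 2 + 1), γ i * (cfn 24 i (n + 1) : ℝ)) :
    0 ≤ (0) * γ 0 + (1917583360) * γ 1 + (933888000) * γ 2 + (340918272) * γ 3 + (110559232) * γ 4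
       + (33592320) * γ 5 + (9792000) * γ 6 + (2773120) * γ 7 + (768768) * γ 8 + (209628) * γ 9
       + (56410) * γ 10 + (15015) * γ 11 + (3960) * γ 12 := by
  have h1 := h 18 (by norm_num)
  rw [show 18 + 1 = 19 from rfl, c24_18, c24_19] at h1
  norm_num [h0] at h1 ⊢
  linarith

theorem q24_19 (γ : ℕ → ℝ) (h0 : γ 0 = 1)
    (h : ∀ n < 24, 2 * (((24 : ℕ) : ℝ) - ((n : ℕ) : ℝ)) * ∑ i ∈ range (24 / 2 + 1), γ i * (cfn 24 i n : ℝ) ≤
      ((n : ℝ) + 1) * ∑ i ∈ range (24 / 2 + 1), γ i * (cfn 24 i (n + 1) : ℝ)) :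
    0 ≤ (0) * γ 0 + (807403520) * γ 1 + (398458880) * γ 2 + (147456000) * γ 3 + (48496640) * γ 4
       + (14950400) * γ 5 + (4423680) * γ 6 + (1272320) * γ 7 + (358400) * γ 8 + (99360) * γ 9
       + (27200) * γ 10 + (7370) * γ 11 + (1980) * γ 12 := by
  have h1 := h 19 (by norm_num)
  rw [show 19 + 1 = 20 from rfl, c24_19, c24_20] at h1
  norm_num [h0] at h1 ⊢
  linarith

theorem m24_0 (γ : ℕ → ℝ) : Mat 24 γ 0 = (1) * γ 0 + (0) * γ 1 + (0) * γ 2 + (0) * γ 3 + (0) * γ 4 + (0) * γ 5 + (0) * γ 6 + (0) * γ 7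
       + (0) * γ 8 + (0) * γ 9 + (0) * γ 10 + (0) * γ 11 + (0) * γ 12 := by
  unfold Mat
  rw [show (24 / 2 + 1 : ℕ) = 13 from rfl]
  simp [sum_range_succ, Nat.choose]
  try ring

theorem m24_1 (γ : ℕ → ℝ) : Mat 24 γ 1 = (1104) * γ 0 + (46) * γ 1 + (1) * γ 2 + (0) * γ 3 + (0) * γ 4 + (0) * γ 5 + (0) * γ 6
       + (0) * γ 7 + (0) * γ 8 + (0) * γ 9 + (0) * γ 10 + (0) * γ 11 + (0) * γ 12 := by
  unfold Mat
  rw [show (24 / 2 + 1 : ℕ) = 13 from rfl]
  simp [sum_range_succ, Nat.choose]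
  try ring

theorem m24_2 (γ : ℕ → ℝ) : Mat 24 γ 2 = (170016) * γ 0 + (14168) * γ 1 + (924) * γ 2 + (42) * γ 3 + (1) * γ 4 + (0) * γ 5 + (0) * γ 6
       + (0) * γ 7 + (0) * γ 8 + (0) * γ 9 + (0) * γ 10 + (0) * γ 11 + (0) * γ 12 := by
  unfold Mat
  rw [show (24 / 2 + 1 : ℕ) = 13 from rfl]
  simp [sum_range_succ, Nat.choose]
  try ring

theorem m24_3 (γ : ℕ → ℝ) : Mat 24 γ 3 = (8614144) * γ 0 + (1076768) * γ 1 + (117040) * γ 2 + (10640) * γ 3 + (760) * γ 4 + (38) * γ 5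
       + (1) * γ 6 + (0) * γ 7 + (0) * γ 8 + (0) * γ 9 + (0) * γ 10 + (0) * γ 11 + (0) * γ 12 := by
  unfold Mat
  rw [show (24 / 2 + 1 : ℕ) = 13 from rfl]
  simp [sum_range_succ, Nat.choose]
  try ring

theorem m24_4 (γ : ℕ → ℝ) : Mat 24 γ 4 = (188280576) * γ 0 + (31380096) * γ 1 + (4775232) * γ 2 + (651168) * γ 3 + (77520) * γ 4
       + (7752) * γ 5 + (612) * γ 6 + (34) * γ 7 + (1) * γ 8 + (0) * γ 9 + (0) * γ 10 + (0) * γ 11
       + (0) * γ 12 := by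
  unfold Mat
  rw [show (24 / 2 + 1 : ℕ) = 13 from rfl]
  simp [sum_range_succ, Nat.choose]
  try ring

theorem m24_5 (γ : ℕ → ℝ) : Mat 24 γ 5 = (2008326144) * γ 0 + (418401280) * γ 1 + (81861120) * γ 2 + (14883840) * γ 3
       + (2480640) * γ 4 + (372096) * γ 5 + (48960) * γ 6 + (5440) * γ 7 + (480) * γ 8 + (30) * γ 9
       + (1) * γ 10 + (0) * γ 11 + (0) * γ 12 := by
  unfold Mat
  rw [show (24 / 2 + 1 : ℕ) = 13 from rfl]
  simp [sum_range_succ, Nat.choose]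
  try ring

theorem m24_6 (γ : ℕ → ℝ) : Mat 24 γ 6 = (11076222976) * γ 0 + (2769055744) * γ 1 + (662165504) * γ 2 + (150492160) * γ 3
       + (32248320) * γ 4 + (6449664) * γ 5 + (1188096) * γ 6 + (198016) * γ 7 + (29120) * γ 8
       + (3640) * γ 9 + (364) * γ 10 + (26) * γ 11 + (1) * γ 12 := by
  unfold Mat
  rw [show (24 / 2 + 1 : ℕ) = 13 from rfl]
  simp [sum_range_succ, Nat.choose]
  try ring

theorem m24_7 (γ : ℕ → ℝ) : Mat 24 γ 7 = (32133218304) * γ 0 + (9372188672) * γ 1 + (2648662016) * γ 2 + (722362368) * γ 3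
       + (189190144) * γ 4 + (47297536) * γ 5 + (11202048) * γ 6 + (2489344) * γ 7 + (512512) * γ 8
       + (96096) * γ 9 + (16016) * γ 10 + (2288) * γ 11 + (264) * γ 12 := by
  unfold Mat
  rw [show (24 / 2 + 1 : ℕ) = 13 from rfl]
  simp [sum_range_succ, Nat.choose]
  try ring

theorem m24_8 (γ : ℕ → ℝ) : Mat 24 γ 8 = (48199827456) * γ 0 + (16066609152) * γ 1 + (5239111680) * γ 2 + (1666990080) * γ 3
       + (515973120) * γ 4 + (154791936) * γ 5 + (44808192) * γ 6 + (12446720) * γ 7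
       + (3294720) * γ 8 + (823680) * γ 9 + (192192) * γ 10 + (41184) * γ 11 + (7920) * γ 12 := by
  unfold Mat
  rw [show (24 / 2 + 1 : ℕ) = 13 from rfl]
  simp [sum_range_succ, Nat.choose]
  try ring

theorem m24_9 (γ : ℕ → ℝ) : Mat 24 γ 9 = (35283533824) * γ 0 + (13231325184) * γ 1 + (4889837568) * γ 2 + (1778122752) * γ 3
       + (635043840) * γ 4 + (222265344) * γ 5 + (76038144) * γ 6 + (25346048) * γ 7
       + (8200192) * γ 8 + (2562560) * γ 9 + (768768) * γ 10 + (219648) * γ 11 + (59136) * γ 12 := by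
  unfold Mat
  rw [show (24 / 2 + 1 : ℕ) = 13 from rfl]
  simp [sum_range_succ, Nat.choose]
  try ring

theorem m24_10 (γ : ℕ → ℝ) : Mat 24 γ 10 = (11142168576) * γ 0 + (4642570240) * γ 1 + (1917583360) * γ 2 + (784465920) * γ 3
       + (317521920) * γ 4 + (127008768) * γ 5 + (50135040) * γ 6 + (19496960) * γ 7
       + (7454720) * γ 8 + (2795520) * γ 9 + (1025024) * γ 10 + (366080) * γ 11 + (126720) * γ 12 := by
  unfold Mat
  rw [show (24 / 2 + 1 : ℕ) = 13 from rfl]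
  simp [sum_range_succ, Nat.choose]
  try ring

theorem m24_11 (γ : ℕ → ℝ) : Mat 24 γ 11 = (1157627904) * γ 0 + (530579456) * γ 1 + (242221056) * γ 2 + (110100480) * γ 3
       + (49807360) * γ 4 + (22413312) * γ 5 + (10027008) * γ 6 + (4456448) * γ 7 + (1966080) * γ 8
       + (860160) * γ 9 + (372736) * γ 10 + (159744) * γ 11 + (67584) * γ 12 := by
  unfold Mat
  rw [show (24 / 2 + 1 : ℕ) = 13 from rfl]
  simp [sum_range_succ, Nat.choose]
  try ring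

theorem m24_12 (γ : ℕ → ℝ) : Mat 24 γ 12 = (16777216) * γ 0 + (8388608) * γ 1 + (4194304) * γ 2 + (2097152) * γ 3 + (1048576) * γ 4
       + (524288) * γ 5 + (262144) * γ 6 + (131072) * γ 7 + (65536) * γ 8 + (32768) * γ 9
       + (16384) * γ 10 + (8192) * γ 11 + (4096) * γ 12 := by
  unfold Mat
  rw [show (24 / 2 + 1 : ℕ) = 13 from rfl]
  simp [sum_range_succ, Nat.choose]
  try ring

theorem mm24_0 (γ : ℕ → ℝ) : Mat 24 (Mat 24 γ) 0 =
      (1) * γ 0 + (0) * γ 1 + (0) * γ 2 + (0) * γ 3 + (0) * γ 4 + (0) * γ 5 + (0) * γ 6 + (0) * γ 7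
       + (0) * γ 8 + (0) * γ 9 + (0) * γ 10 + (0) * γ 11 + (0) * γ 12 := by
  rw [m24_0]
  simp only [m24_0, m24_1, m24_2, m24_3, m24_4, m24_5, m24_6, m24_7, m24_8, m24_9, m24_10, m24_11, m24_12]
  ring

theorem mm24_1 (γ : ℕ → ℝ) : Mat 24 (Mat 24 γ) 1 =
      (221904) * γ 0 + (16284) * γ 1 + (970) * γ 2 + (42) * γ 3 + (1) * γ 4 + (0) * γ 5 + (0) * γ 6
       + (0) * γ 7 + (0) * γ 8 + (0) * γ 9 + (0) * γ 10 + (0) * γ 11 + (0) * γ 12 := by
  rw [m24_1]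
  simp only [m24_0, m24_1, m24_2, m24_3, m24_4, m24_5, m24_6, m24_7, m24_8, m24_9, m24_10, m24_11, m24_12]
  ring

theorem mm24_2 (γ : ℕ → ℝ) : Mat 24 (Mat 24 γ) 2 =
      (722980896) * γ 0 + (90347312) * γ 1 + (10558856) * γ 2 + (1136856) * γ 3 + (110364) * γ 4
       + (9348) * γ 5 + (654) * γ 6 + (34) * γ 7 + (1) * γ 8 + (0) * γ 9 + (0) * γ 10 + (0) * γ 11
       + (0) * γ 12 := by
  rw [m24_2]
  simp only [m24_0, m24_1, m24_2, m24_3, m24_4, m24_5, m24_6, m24_7, m24_8, m24_9, m24_10, m24_11, m24_12]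
  ring

theorem mm24_3 (γ : ℕ → ℝ) : Mat 24 (Mat 24 γ) 3 =
      (343236385024) * γ 0 + (55681742912) * γ 1 + (8756591712) * γ 2 + (1329091040) * γ 3
       + (193631280) * γ 4 + (26885152) * γ 5 + (3524336) * γ 6 + (430576) * γ 7 + (48120) * γ 8
       + (4780) * γ 9 + (402) * γ 10 + (26) * γ 11 + (1) * γ 12 := by
  rw [m24_3]
  simp only [m24_0, m24_1, m24_2, m24_3, m24_4, m24_5, m24_6, m24_7, m24_8, m24_9, m24_10, m24_11, m24_12]
  ring

theorem mm24_4 (γ : ℕ → ℝ) : Mat 24 (Mat 24 γ) 4 =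
      (44539384901376) * γ 0 + (8475670740224) * γ 1 + (1585958692736) * γ 2 + (291315570816) * γ 3
       + (52423344448) * γ 4 + (9220270144) * γ 5 + (1580423904) * γ 6 + (263076768) * γ 7
       + (42340048) * γ 8 + (6551184) * γ 9 + (967256) * γ 10 + (134888) * γ 11 + (17508) * γ 12 := by
  rw [m24_4]
  simp only [m24_0, m24_1, m24_2, m24_3, m24_4, m24_5, m24_6, m24_7, m24_8, m24_9, m24_10, m24_11, m24_12]
  ring

theorem mm24_5 (γ : ℕ → ℝ) : Mat 24 (Mat 24 γ) 5 =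
      (2098241767317504) * γ 0 + (445404891781120) * γ 1 + (93615620285440) * γ 2
       + (19467363763200) * γ 3 + (4001837079040) * γ 4 + (812420184064) * γ 5
       + (162698388480) * γ 6 + (32099742720) * γ 7 + (6229793280) * γ 8 + (1187178240) * γ 9
       + (221660800) * γ 10 + (40443520) * γ 11 + (7187520) * γ 12 := by
  rw [m24_5]
  simp only [m24_0, m24_1, m24_2, m24_3, m24_4, m24_5, m24_6, m24_7, m24_8, m24_9, m24_10, m24_11, m24_12]
  ring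

theorem mm24_6 (γ : ℕ → ℝ) : Mat 24 (Mat 24 γ) 6 =
      (41495373548732416) * γ 0 + (9545529876668416) * γ 1 + (2182458028216320) * γ 2
       + (495765856841728) * γ 3 + (111844566882304) * γ 4 + (25047492233216) * γ 5
       + (5565522369536) * γ 6 + (1226295567360) * γ 7 + (267766665728) * γ 8 + (57899951104) * γ 9
       + (12388103680) * γ 10 + (2620162560) * γ 11 + (547237120) * γ 12 := by
  rw [m24_6]
  simp only [m24_0, m24_1, m24_2, m24_3, m24_4, m24_5, m24_6, m24_7, m24_8, m24_9, m24_10, m24_11, m24_12]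
  ring

theorem mm24_7 (γ : ℕ → ℝ) : Mat 24 (Mat 24 γ) 7 =
      (369634652901212160) * γ 0 + (90473004527026176) * γ 1 + (22059567545106432) * γ 2
       + (5357028905435136) * γ 3 + (1295419657773056) * γ 4 + (311859686588416) * γ 5
       + (74724724875264) * γ 6 + (17815990804480) * γ 7 + (4225413992448) * γ 8
       + (996557776896) * γ 9 + (233644342272) * γ 10 + (54432254976) * γ 11 + (12595478016) * γ 12 := by
  rw [m24_7]
  simp only [m24_0, m24_1, m24_2, m24_3, m24_4, m24_5, m24_6, m24_7, m24_8, m24_9, m24_10, m24_11, m24_12]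
  ring

theorem mm24_8 (γ : ℕ → ℝ) : Mat 24 (Mat 24 γ) 8 =
      (1509603836940976128) * γ 0 + (388303287305764864) * γ 1 + (99640508127576064) * γ 2
       + (25504352909721600) * γ 3 + (6511183731261440) * γ 4 + (1657766496862208) * γ 5
       + (420873371172864) * γ 6 + (106533740232704) * γ 7 + (26882465669120) * γ 8
       + (6761310904320) * γ 9 + (1694731227136) * γ 10 + (423253946368) * γ 11
       + (105304455168) * γ 12 := by
  rw [m24_8]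
  simp only [m24_0, m24_1, m24_2, m24_3, m24_4, m24_5, m24_6, m24_7, m24_8, m24_9, m24_10, m24_11, m24_12]
  ring

theorem mm24_9 (γ : ℕ → ℝ) : Mat 24 (Mat 24 γ) 9 =
      (2733261268504805376) * γ 0 + (732351598705770496) * γ 1 + (195942817102692352) * γ 2
       + (52346547051036672) * γ 3 + (13962789415878656) * γ 4 + (3718406766854144) * γ 5
       + (988589009928192) * γ 6 + (262374019039232) * γ 7 + (69509198774272) * γ 8
       + (18380125044736) * γ 9 + (4850713133056) * γ 10 + (1277549117440) * γ 11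
       + (335757656064) * γ 12 := by
  rw [m24_9]
  simp only [m24_0, m24_1, m24_2, m24_3, m24_4, m24_5, m24_6, m24_7, m24_8, m24_9, m24_10, m24_11, m24_12]
  ring

theorem mm24_10 (γ : ℕ → ℝ) : Mat 24 (Mat 24 γ) 10 =
      (1973552794809925632) * γ 0 + (547247027456573440) * γ 1 + (151625984714997760) * γ 2
       + (41976755941539840) * γ 3 + (11611225759416320) * γ 4 + (3208999318323200) * γ 5
       + (886076782018560) * γ 6 + (244438978396160) * γ 7 + (67367970078720) * γ 8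
       + (18548388003840) * γ 9 + (5101684916224) * γ 10 + (1401716080640) * γ 11
       + (384705822720) * γ 12 := by
  rw [m24_10]
  simp only [m24_0, m24_1, m24_2, m24_3, m24_4, m24_5, m24_6, m24_7, m24_8, m24_9, m24_10, m24_11, m24_12]
  ring

theorem mm24_11 (γ : ℕ → ℝ) : Mat 24 (Mat 24 γ) 11 =
      (439095928037572608) * γ 0 + (125379815069974528) * γ 1 + (35789178929152000) * γ 2
       + (10212401410473984) * γ 3 + (2913077430321152) * γ 4 + (830653690019840) * γ 5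
       + (236770405908480) * γ 6 + (67463633960960) * γ 7 + (19215079178240) * γ 8
       + (5470660853760) * γ 9 + (1556888027136) * γ 10 + (442883506176) * γ 11
       + (125930373120) * γ 12 := by
  rw [m24_11]
  simp only [m24_0, m24_1, m24_2, m24_3, m24_4, m24_5, m24_6, m24_7, m24_8, m24_9, m24_10, m24_11, m24_12]
  ring

theorem mm24_12 (γ : ℕ → ℝ) : Mat 24 (Mat 24 γ) 12 =
      (12891585947631616) * γ 0 + (3775858103812096) * γ 1 + (1105923233808384) * γ 2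
       + (323917415710720) * γ 3 + (94873214517248) * γ 4 + (27787721179136) * γ 5
       + (8138835099648) * γ 6 + (2383809609728) * γ 7 + (698201669632) * γ 8
       + (204498534400) * γ 9 + (59896233984) * γ 10 + (17543200768) * γ 11 + (5138284544) * γ 12 := by
  rw [m24_12]
  simp only [m24_0, m24_1, m24_2, m24_3, m24_4, m24_5, m24_6, m24_7, m24_8, m24_9, m24_10, m24_11, m24_12]
  ring

theorem p24_0 (γ : ℕ → ℝ) (h0 : γ 0 = 1)
    (h : ∀ n < 24, 2 * (((24 : ℕ) : ℝ) - ((n : ℕ) : ℝ)) * ∑ i ∈ range (24 / 2 + 1), γ i * (cfn 24 i n : ℝ) ≤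
      ((n : ℝ) + 1) * ∑ i ∈ range (24 / 2 + 1), γ i * (cfn 24 i (n + 1) : ℝ)) :
    0 < Mat 24 (Mat 24 (Mat 24 γ)) 0 := by

  rw [m24_0]
  simp only [mm24_0, mm24_1, mm24_2, mm24_3, mm24_4, mm24_5, mm24_6, mm24_7, mm24_8, mm24_9, mm24_10, mm24_11, mm24_12]
  linarith only [h0]

theorem p24_1 (γ : ℕ → ℝ) (h0 : γ 0 = 1)
    (h : ∀ n < 24, 2 * (((24 : ℕ) : ℝ) - ((n : ℕ) : ℝ)) * ∑ i ∈ range (24 / 2 + 1), γ i * (cfn 24 i n : ℝ) ≤
      ((n : ℝ) + 1) * ∑ i ∈ range (24 / 2 + 1), γ i * (cfn 24 i (n + 1) : ℝ)) :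
    0 < Mat 24 (Mat 24 (Mat 24 γ)) 1 := by
  have k0 := q24_0 γ h0 h
  have k1 := q24_1 γ h0 h
  have k4 := q24_4 γ h0 h
  have k6 := q24_6 γ h0 h
  have k3 := q24_3 γ h0 h
  have k7 := q24_7 γ h0 h
  have k2 := q24_2 γ h0 h
  have k5 := q24_5 γ h0 h
  rw [m24_1]
  simp only [mm24_0, mm24_1, mm24_2, mm24_3, mm24_4, mm24_5, mm24_6, mm24_7, mm24_8, mm24_9, mm24_10, mm24_11, mm24_12]
  linarith only [h0, k0, k1, k4, k6, k3, k7, k2, k5]

theorem p24_2 (γ : ℕ → ℝ) (h0 : γ 0 = 1)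
    (h : ∀ n < 24, 2 * (((24 : ℕ) : ℝ) - ((n : ℕ) : ℝ)) * ∑ i ∈ range (24 / 2 + 1), γ i * (cfn 24 i n : ℝ) ≤
      ((n : ℝ) + 1) * ∑ i ∈ range (24 / 2 + 1), γ i * (cfn 24 i (n + 1) : ℝ)) :
    0 < Mat 24 (Mat 24 (Mat 24 γ)) 2 := by
  have k1 := q24_1 γ h0 h
  have k2 := q24_2 γ h0 h
  have k0 := q24_0 γ h0 h
  have k4 := q24_4 γ h0 h
  have k3 := q24_3 γ h0 h
  have k5 := q24_5 γ h0 h
  have k10 := q24_10 γ h0 h
  have k9 := q24_9 γ h0 h
  have k12 := q24_12 γ h0 h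
  have k6 := q24_6 γ h0 h
  have k7 := q24_7 γ h0 h
  have k13 := q24_13 γ h0 h
  rw [m24_2]
  simp only [mm24_0, mm24_1, mm24_2, mm24_3, mm24_4, mm24_5, mm24_6, mm24_7, mm24_8, mm24_9, mm24_10, mm24_11, mm24_12]
  linarith only [h0, k1, k2, k0, k4, k3, k5, k10, k9, k12, k6, k7, k13]

theorem p24_3 (γ : ℕ → ℝ) (h0 : γ 0 = 1)
    (h : ∀ n < 24, 2 * (((24 : ℕ) : ℝ) - ((n : ℕ) : ℝ)) * ∑ i ∈ range (24 / 2 + 1), γ i * (cfn 24 i n : ℝ) ≤
      ((n : ℝ) + 1) * ∑ i ∈ range (24 / 2 + 1), γ i * (cfn 24 i (n + 1) : ℝ)) :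
    0 < Mat 24 (Mat 24 (Mat 24 γ)) 3 := by
  have k8 := q24_8 γ h0 h
  have k0 := q24_0 γ h0 h
  have k2 := q24_2 γ h0 h
  have k5 := q24_5 γ h0 h
  have k4 := q24_4 γ h0 h
  have k1 := q24_1 γ h0 h
  have k7 := q24_7 γ h0 h
  have k3 := q24_3 γ h0 h
  have k14 := q24_14 γ h0 h
  have k10 := q24_10 γ h0 h
  have k11 := q24_11 γ h0 h
  have k15 := q24_15 γ h0 h
  rw [m24_3]
  simp only [mm24_0, mm24_1, mm24_2, mm24_3, mm24_4, mm24_5, mm24_6, mm24_7, mm24_8, mm24_9, mm24_10, mm24_11, mm24_12]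
  linarith only [h0, k8, k0, k2, k5, k4, k1, k7, k3, k14, k10, k11, k15]

theorem p24_4 (γ : ℕ → ℝ) (h0 : γ 0 = 1)
    (h : ∀ n < 24, 2 * (((24 : ℕ) : ℝ) - ((n : ℕ) : ℝ)) * ∑ i ∈ range (24 / 2 + 1), γ i * (cfn 24 i n : ℝ) ≤
      ((n : ℝ) + 1) * ∑ i ∈ range (24 / 2 + 1), γ i * (cfn 24 i (n + 1) : ℝ)) :
    0 < Mat 24 (Mat 24 (Mat 24 γ)) 4 := by
  have k4 := q24_4 γ h0 h
  have k0 := q24_0 γ h0 h
  have k8 := q24_8 γ h0 h
  have k1 := q24_1 γ h0 h
  have k3 := q24_3 γ h0 h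
  have k2 := q24_2 γ h0 h
  have k15 := q24_15 γ h0 h
  have k7 := q24_7 γ h0 h
  have k10 := q24_10 γ h0 h
  have k5 := q24_5 γ h0 h
  have k11 := q24_11 γ h0 h
  have k16 := q24_16 γ h0 h
  rw [m24_4]
  simp only [mm24_0, mm24_1, mm24_2, mm24_3, mm24_4, mm24_5, mm24_6, mm24_7, mm24_8, mm24_9, mm24_10, mm24_11, mm24_12]
  linarith only [h0, k4, k0, k8, k1, k3, k2, k15, k7, k10, k5, k11, k16]

theorem p24_5 (γ : ℕ → ℝ) (h0 : γ 0 = 1)
    (h : ∀ n < 24, 2 * (((24 : ℕ) : ℝ) - ((n : ℕ) : ℝ)) * ∑ i ∈ range (24 / 2 + 1), γ i * (cfn 24 i n : ℝ) ≤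
      ((n : ℝ) + 1) * ∑ i ∈ range (24 / 2 + 1), γ i * (cfn 24 i (n + 1) : ℝ)) :
    0 < Mat 24 (Mat 24 (Mat 24 γ)) 5 := by
  have k4 := q24_4 γ h0 h
  have k0 := q24_0 γ h0 h
  have k2 := q24_2 γ h0 h
  have k3 := q24_3 γ h0 h
  have k1 := q24_1 γ h0 h
  have k5 := q24_5 γ h0 h
  have k15 := q24_15 γ h0 h
  have k16 := q24_16 γ h0 h
  have k8 := q24_8 γ h0 h
  have k11 := q24_11 γ h0 h
  have k7 := q24_7 γ h0 h
  have k12 := q24_12 γ h0 h
  rw [m24_5]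
  simp only [mm24_0, mm24_1, mm24_2, mm24_3, mm24_4, mm24_5, mm24_6, mm24_7, mm24_8, mm24_9, mm24_10, mm24_11, mm24_12]
  linarith only [h0, k4, k0, k2, k3, k1, k5, k15, k16, k8, k11, k7, k12]

theorem p24_6 (γ : ℕ → ℝ) (h0 : γ 0 = 1)
    (h : ∀ n < 24, 2 * (((24 : ℕ) : ℝ) - ((n : ℕ) : ℝ)) * ∑ i ∈ range (24 / 2 + 1), γ i * (cfn 24 i n : ℝ) ≤
      ((n : ℝ) + 1) * ∑ i ∈ range (24 / 2 + 1), γ i * (cfn 24 i (n + 1) : ℝ)) :
    0 < Mat 24 (Mat 24 (Mat 24 γ)) 6 := by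
  have k0 := q24_0 γ h0 h
  have k3 := q24_3 γ h0 h
  have k5 := q24_5 γ h0 h
  have k7 := q24_7 γ h0 h
  have k1 := q24_1 γ h0 h
  have k2 := q24_2 γ h0 h
  have k4 := q24_4 γ h0 h
  have k16 := q24_16 γ h0 h
  have k8 := q24_8 γ h0 h
  have k11 := q24_11 γ h0 h
  have k17 := q24_17 γ h0 h
  have k12 := q24_12 γ h0 h
  rw [m24_6]
  simp only [mm24_0, mm24_1, mm24_2, mm24_3, mm24_4, mm24_5, mm24_6, mm24_7, mm24_8, mm24_9, mm24_10, mm24_11, mm24_12]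
  linarith only [h0, k0, k3, k5, k7, k1, k2, k4, k16, k8, k11, k17, k12]

theorem p24_7 (γ : ℕ → ℝ) (h0 : γ 0 = 1)
    (h : ∀ n < 24, 2 * (((24 : ℕ) : ℝ) - ((n : ℕ) : ℝ)) * ∑ i ∈ range (24 / 2 + 1), γ i * (cfn 24 i n : ℝ) ≤
      ((n : ℝ) + 1) * ∑ i ∈ range (24 / 2 + 1), γ i * (cfn 24 i (n + 1) : ℝ)) :
    0 < Mat 24 (Mat 24 (Mat 24 γ)) 7 := by
  have k3 := q24_3 γ h0 h
  have k0 := q24_0 γ h0 h
  have k2 := q24_2 γ h0 h
  have k16 := q24_16 γ h0 h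
  have k1 := q24_1 γ h0 h
  have k5 := q24_5 γ h0 h
  have k4 := q24_4 γ h0 h
  have k17 := q24_17 γ h0 h
  have k8 := q24_8 γ h0 h
  have k11 := q24_11 γ h0 h
  have k7 := q24_7 γ h0 h
  have k12 := q24_12 γ h0 h
  rw [m24_7]
  simp only [mm24_0, mm24_1, mm24_2, mm24_3, mm24_4, mm24_5, mm24_6, mm24_7, mm24_8, mm24_9, mm24_10, mm24_11, mm24_12]
  linarith only [h0, k3, k0, k2, k16, k1, k5, k4, k17, k8, k11, k7, k12]

theorem p24_8 (γ : ℕ → ℝ) (h0 : γ 0 = 1)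
    (h : ∀ n < 24, 2 * (((24 : ℕ) : ℝ) - ((n : ℕ) : ℝ)) * ∑ i ∈ range (24 / 2 + 1), γ i * (cfn 24 i n : ℝ) ≤
      ((n : ℝ) + 1) * ∑ i ∈ range (24 / 2 + 1), γ i * (cfn 24 i (n + 1) : ℝ)) :
    0 < Mat 24 (Mat 24 (Mat 24 γ)) 8 := by
  have k0 := q24_0 γ h0 h
  have k3 := q24_3 γ h0 h
  have k2 := q24_2 γ h0 h
  have k4 := q24_4 γ h0 h
  have k1 := q24_1 γ h0 h
  have k8 := q24_8 γ h0 h
  have k16 := q24_16 γ h0 h
  have k5 := q24_5 γ h0 h
  have k17 := q24_17 γ h0 h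
  have k11 := q24_11 γ h0 h
  have k7 := q24_7 γ h0 h
  have k12 := q24_12 γ h0 h
  rw [m24_8]
  simp only [mm24_0, mm24_1, mm24_2, mm24_3, mm24_4, mm24_5, mm24_6, mm24_7, mm24_8, mm24_9, mm24_10, mm24_11, mm24_12]
  linarith only [h0, k0, k3, k2, k4, k1, k8, k16, k5, k17, k11, k7, k12]

theorem p24_9 (γ : ℕ → ℝ) (h0 : γ 0 = 1)
    (h : ∀ n < 24, 2 * (((24 : ℕ) : ℝ) - ((n : ℕ) : ℝ)) * ∑ i ∈ range (24 / 2 + 1), γ i * (cfn 24 i n : ℝ) ≤
      ((n : ℝ) + 1) * ∑ i ∈ range (24 / 2 + 1), γ i * (cfn 24 i (n + 1) : ℝ)) :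
    0 < Mat 24 (Mat 24 (Mat 24 γ)) 9 := by
  have k3 := q24_3 γ h0 h
  have k7 := q24_7 γ h0 h
  have k0 := q24_0 γ h0 h
  have k2 := q24_2 γ h0 h
  have k1 := q24_1 γ h0 h
  have k5 := q24_5 γ h0 h
  have k4 := q24_4 γ h0 h
  have k17 := q24_17 γ h0 h
  have k8 := q24_8 γ h0 h
  have k11 := q24_11 γ h0 h
  have k18 := q24_18 γ h0 h
  have k12 := q24_12 γ h0 h
  rw [m24_9]
  simp only [mm24_0, mm24_1, mm24_2, mm24_3, mm24_4, mm24_5, mm24_6, mm24_7, mm24_8, mm24_9, mm24_10, mm24_11, mm24_12]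
  linarith only [h0, k3, k7, k0, k2, k1, k5, k4, k17, k8, k11, k18, k12]

theorem p24_10 (γ : ℕ → ℝ) (h0 : γ 0 = 1)
    (h : ∀ n < 24, 2 * (((24 : ℕ) : ℝ) - ((n : ℕ) : ℝ)) * ∑ i ∈ range (24 / 2 + 1), γ i * (cfn 24 i n : ℝ) ≤
      ((n : ℝ) + 1) * ∑ i ∈ range (24 / 2 + 1), γ i * (cfn 24 i (n + 1) : ℝ)) :
    0 < Mat 24 (Mat 24 (Mat 24 γ)) 10 := by
  have k12 := q24_12 γ h0 h
  have k11 := q24_11 γ h0 h
  have k0 := q24_0 γ h0 h
  have k1 := q24_1 γ h0 h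
  have k2 := q24_2 γ h0 h
  have k3 := q24_3 γ h0 h
  have k4 := q24_4 γ h0 h
  have k17 := q24_17 γ h0 h
  have k5 := q24_5 γ h0 h
  have k18 := q24_18 γ h0 h
  have k7 := q24_7 γ h0 h
  have k8 := q24_8 γ h0 h
  rw [m24_10]
  simp only [mm24_0, mm24_1, mm24_2, mm24_3, mm24_4, mm24_5, mm24_6, mm24_7, mm24_8, mm24_9, mm24_10, mm24_11, mm24_12]
  linarith only [h0, k12, k11, k0, k1, k2, k3, k4, k17, k5, k18, k7, k8]

theorem p24_11 (γ : ℕ → ℝ) (h0 : γ 0 = 1)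
    (h : ∀ n < 24, 2 * (((24 : ℕ) : ℝ) - ((n : ℕ) : ℝ)) * ∑ i ∈ range (24 / 2 + 1), γ i * (cfn 24 i n : ℝ) ≤
      ((n : ℝ) + 1) * ∑ i ∈ range (24 / 2 + 1), γ i * (cfn 24 i (n + 1) : ℝ)) :
    0 < Mat 24 (Mat 24 (Mat 24 γ)) 11 := by
  have k1 := q24_1 γ h0 h
  have k17 := q24_17 γ h0 h
  have k0 := q24_0 γ h0 h
  have k3 := q24_3 γ h0 h
  have k2 := q24_2 γ h0 h
  have k5 := q24_5 γ h0 h
  have k4 := q24_4 γ h0 h
  have k12 := q24_12 γ h0 h
  have k18 := q24_18 γ h0 h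
  have k11 := q24_11 γ h0 h
  have k7 := q24_7 γ h0 h
  have k8 := q24_8 γ h0 h
  rw [m24_11]
  simp only [mm24_0, mm24_1, mm24_2, mm24_3, mm24_4, mm24_5, mm24_6, mm24_7, mm24_8, mm24_9, mm24_10, mm24_11, mm24_12]
  linarith only [h0, k1, k17, k0, k3, k2, k5, k4, k12, k18, k11, k7, k8]

theorem p24_12 (γ : ℕ → ℝ) (h0 : γ 0 = 1)
    (h : ∀ n < 24, 2 * (((24 : ℕ) : ℝ) - ((n : ℕ) : ℝ)) * ∑ i ∈ range (24 / 2 + 1), γ i * (cfn 24 i n : ℝ) ≤
      ((n : ℝ) + 1) * ∑ i ∈ range (24 / 2 + 1), γ i * (cfn 24 i (n + 1) : ℝ)) :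
    0 < Mat 24 (Mat 24 (Mat 24 γ)) 12 := by
  have k1 := q24_1 γ h0 h
  have k7 := q24_7 γ h0 h
  have k0 := q24_0 γ h0 h
  have k2 := q24_2 γ h0 h
  have k4 := q24_4 γ h0 h
  have k3 := q24_3 γ h0 h
  have k8 := q24_8 γ h0 h
  have k5 := q24_5 γ h0 h
  have k18 := q24_18 γ h0 h
  have k11 := q24_11 γ h0 h
  have k12 := q24_12 γ h0 h
  have k19 := q24_19 γ h0 h
  rw [m24_12]
  simp only [mm24_0, mm24_1, mm24_2, mm24_3, mm24_4, mm24_5, mm24_6, mm24_7, mm24_8, mm24_9, mm24_10, mm24_11, mm24_12]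
  linarith only [h0, k1, k7, k0, k2, k4, k3, k8, k5, k18, k11, k12, k19]

theorem main24 (γ : ℕ → ℝ) (h0 : γ 0 = 1)
    (h : ∀ n < 24, 2 * (((24 : ℕ) : ℝ) - ((n : ℕ) : ℝ)) * ∑ i ∈ range (24 / 2 + 1), γ i * (cfn 24 i n : ℝ) ≤
      ((n : ℝ) + 1) * ∑ i ∈ range (24 / 2 + 1), γ i * (cfn 24 i (n + 1) : ℝ)) :
    ∀ j ≤ 24 / 2, 0 < Mat 24 (Mat 24 (Mat 24 γ)) j := by
  intro j hj
  have hj' : j ≤ 12 := hj
  clear hj
  interval_cases j
  · exact p24_0 γ h0 h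
  · exact p24_1 γ h0 h
  · exact p24_2 γ h0 h
  · exact p24_3 γ h0 h
  · exact p24_4 γ h0 h
  · exact p24_5 γ h0 h
  · exact p24_6 γ h0 h
  · exact p24_7 γ h0 h
  · exact p24_8 γ h0 h
  · exact p24_9 γ h0 h
  · exact p24_10 γ h0 h
  · exact p24_11 γ h0 h
  · exact p24_12 γ h0 h

end PkgNT20

end Pool.Agent.T2H83.GR
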