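import Pool.Agent.T2H83.GR.Stm

set_option autoImplicit false
set_option linter.unusedSimpArgs false
set_option linter.unusedVariables false

/-!
# Numerical inequalities for three rounds (generated by a computer program)
-/

namespace Pool.Agent.T2H83.GR

open Finset

namespace PkgNT25

theorem c25_0 (γ : ℕ → ℝ) : ∑ i ∈ range (25 / 2 + 1), γ i * (cfn 25 i 0 : ℝ) =
    (1) * γ 0 + (0) * γ 1 + (0) * γ 2 + (0) * γ 3 + (0) * γ 4 + (0) * γ 5 + (0) * γ 6 + (0) * γ 7
       + (0) * γ 8 + (0) * γ 9 + (0) * γ 10 + (0) * γ 11 + (0) * γ 12 := by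
  have h : ((25 / 2 + 1 : ℕ)) = 13 := rfl
  rw [h]
  simp only [sum_range_succ, sum_range_zero, show cfn 25 0 0 = 1 from by decide +kernel, show cfn 25 1 0 = 0 from by decide +kernel, show cfn 25 2 0 = 0 from by decide +kernel, show cfn 25 3 0 = 0 from by decide +kernel, show cfn 25 4 0 = 0 from by decide +kernel, show cfn 25 5 0 = 0 from by decide +kernel, show cfn 25 6 0 = 0 from by decide +kernel, show cfn 25 7 0 = 0 from by decide +kernel, show cfn 25 8 0 = 0 from by decide +kernel, show cfn 25 9 0 = 0 from by decide +kernel, show cfn 25 10 0 = 0 from by decide +kernel, show cfn 25 11 0 = 0 from by decide +kernel, show cfn 25 12 0 = 0 from by decide +kernel, Nat.cast_ofNat, Nat.cast_one, Nat.cast_zero]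
  ring

theorem c25_1 (γ : ℕ → ℝ) : ∑ i ∈ range (25 / 2 + 1), γ i * (cfn 25 i 1 : ℝ) =
    (50) * γ 0 + (1) * γ 1 + (0) * γ 2 + (0) * γ 3 + (0) * γ 4 + (0) * γ 5 + (0) * γ 6
       + (0) * γ 7 + (0) * γ 8 + (0) * γ 9 + (0) * γ 10 + (0) * γ 11 + (0) * γ 12 := by
  have h : ((25 / 2 + 1 : ℕ)) = 13 := rfl
  rw [h]
  simp only [sum_range_succ, sum_range_zero, show cfn 25 0 1 = 50 from by decide +kernel, show cfn 25 1 1 = 1 from by decide +kernel, show cfn 25 2 1 = 0 from by decide +kernel, show cfn 25 3 1 = 0 from by decide +kernel, show cfn 25 4 1 = 0 from by decide +kernel, show cfn 25 5 1 = 0 from by decide +kernel, show cfn 25 6 1 = 0 from by decide +kernel, show cfn 25 7 1 = 0 from by decide +kernel, show cfn 25 8 1 = 0 from by decide +kernel, show cfn 25 9 1 = 0 from by decide +kernel, show cfn 25 10 1 = 0 from by decide +kernel, show cfn 25 11 1 = 0 from by decide +kernel, show cfn 25 12 1 = 0 from by decide +kernel,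 Nat.cast_ofNat, Nat.cast_one, Nat.cast_zero]
  ring

theorem c25_2 (γ : ℕ → ℝ) : ∑ i ∈ range (25 / 2 + 1), γ i * (cfn 25 i 2 : ℝ) =
    (1200) * γ 0 + (47) * γ 1 + (1) * γ 2 + (0) * γ 3 + (0) * γ 4 + (0) * γ 5 + (0) * γ 6
       + (0) * γ 7 + (0) * γ 8 + (0) * γ 9 + (0) * γ 10 + (0) * γ 11 + (0) * γ 12 := by
  have h : ((25 / 2 + 1 : ℕ)) = 13 := rfl
  rw [h]
  simp only [sum_range_succ, sum_range_zero, show cfn 25 0 2 = 1200 from by decide +kernel, show cfn 25 1 2 = 47 from by decide +kernel, show cfn 25 2 2 = 1 from by decide +kernel, show cfn 25 3 2 = 0 from by decide +kernel, show cfn 25 4 2 = 0 from by decide +kernel, show cfn 25 5 2 = 0 from by decide +kernel, show cfn 25 6 2 = 0 from by decide +kernel, show cfn 25 7 2 = 0 from by decide +kernel, show cfn 25 8 2 = 0 from by decide +kernel, show cfn 25 9 2 = 0 from by decide +kernel, show cfn 25 10 2 = 0 from by decide +kernel, show cfn 25 11 2 = 0 from by decide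 +kernel, show cfn 25 12 2 = 0 from by decide +kernel, Nat.cast_ofNat, Nat.cast_one, Nat.cast_zero]
  ring

theorem c25_3 (γ : ℕ → ℝ) : ∑ i ∈ range (25 / 2 + 1), γ i * (cfn 25 i 3 : ℝ) =
    (18400) * γ 0 + (1058) * γ 1 + (44) * γ 2 + (1) * γ 3 + (0) * γ 4 + (0) * γ 5 + (0) * γ 6
       + (0) * γ 7 + (0) * γ 8 + (0) * γ 9 + (0) * γ 10 + (0) * γ 11 + (0) * γ 12 := by
  have h : ((25 / 2 + 1 : ℕ)) = 13 := rfl
  rw [h]
  simp only [sum_range_succ, sum_range_zero, show cfn 25 0 3 = 18400 from by decide +kernel, show cfn 25 1 3 = 1058 from by decide +kernel, show cfn 25 2 3 = 44 from by decide +kernel, show cfn 25 3 3 = 1 from by decide +kernel, show cfn 25 4 3 = 0 from by decide +kernel, show cfn 25 5 3 = 0 from by decide +kernel, show cfn 25 6 3 = 0 from by decide +kernel, show cfn 25 7 3 = 0 from by decide +kernel, show cfn 25 8 3 = 0 from by decide +kernel, show cfn 25 9 3 = 0 from by decide +kernel, show cfn 25 10 3 =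 0 from by decide +kernel, show cfn 25 11 3 = 0 from by decide +kernel, show cfn 25 12 3 = 0 from by decide +kernel, Nat.cast_ofNat, Nat.cast_one, Nat.cast_zero]
  ring

theorem c25_4 (γ : ℕ → ℝ) : ∑ i ∈ range (25 / 2 + 1), γ i * (cfn 25 i 4 : ℝ) =
    (202400) * γ 0 + (15180) * γ 1 + (925) * γ 2 + (41) * γ 3 + (1) * γ 4 + (0) * γ 5 + (0) * γ 6
       + (0) * γ 7 + (0) * γ 8 + (0) * γ 9 + (0) * γ 10 + (0) * γ 11 + (0) * γ 12 := by
  have h : ((25 / 2 + 1 : ℕ)) = 13 := rfl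
  rw [h]
  simp only [sum_range_succ, sum_range_zero, show cfn 25 0 4 = 202400 from by decide +kernel, show cfn 25 1 4 = 15180 from by decide +kernel, show cfn 25 2 4 = 925 from by decide +kernel, show cfn 25 3 4 = 41 from by decide +kernel, show cfn 25 4 4 = 1 from by decide +kernel, show cfn 25 5 4 = 0 from by decide +kernel, show cfn 25 6 4 = 0 from by decide +kernel, show cfn 25 7 4 = 0 from by decide +kernel, show cfn 25 8 4 = 0 from by decide +kernel, show cfn 25 9 4 = 0 from by decide +kernel, show cfn 25 10 4 = 0 from by decide +kernel, show cfn 25 11 4 = 0 from by decide +kernel, show cfn 25 12 4 = 0 from by decide +kernel, Nat.cast_ofNat, Nat.cast_one, Nat.cast_zero]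
  ring

theorem c25_5 (γ : ℕ → ℝ) : ∑ i ∈ range (25 / 2 + 1), γ i * (cfn 25 i 5 : ℝ) =
    (1700160) * γ 0 + (155848) * γ 1 + (12362) * γ 2 + (801) * γ 3 + (38) * γ 4 + (1) * γ 5
       + (0) * γ 6 + (0) * γ 7 + (0) * γ 8 + (0) * γ 9 + (0) * γ 10 + (0) * γ 11 + (0) * γ 12 := by
  have h : ((25 / 2 + 1 : ℕ)) = 13 := rfl
  rw [h]
  simp only [sum_range_succ, sum_range_zero, show cfn 25 0 5 = 1700160 from by decide +kernel, show cfn 25 1 5 = 155848 from by decide +kernel, show cfn 25 2 5 = 12362 from by decide +kernel, show cfn 25 3 5 = 801 from by decide +kernel, show cfn 25 4 5 = 38 from by decide +kernel, show cfn 25 5 5 = 1 from by decide +kernel, show cfn 25 6 5 = 0 from by decide +kernel, show cfn 25 7 5 = 0 from by decide +kernel, show cfn 25 8 5 = 0 from by decide +kernel, show cfn 25 9 5 = 0 from by decide +kernel, show cfn 25 10 5 = 0 from by decide +kernel, show cfn 25 11 5 = 0 from by decide +kernel, show cfn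 25 12 5 = 0 from by decide +kernel, Nat.cast_ofNat, Nat.cast_one, Nat.cast_zero]
  ring

theorem c25_6 (γ : ℕ → ℝ) : ∑ i ∈ range (25 / 2 + 1), γ i * (cfn 25 i 6 : ℝ) =
    (11334400) * γ 0 + (1218448) * γ 1 + (117880) * γ 2 + (9919) * γ 3 + (686) * γ 4 + (35) * γ 5
       + (1) * γ 6 + (0) * γ 7 + (0) * γ 8 + (0) * γ 9 + (0) * γ 10 + (0) * γ 11 + (0) * γ 12 := by
  have h : ((25 / 2 + 1 : ℕ)) = 13 := rfl
  rw [h]
  simp only [sum_range_succ, sum_range_zero, show cfn 25 0 6 = 11334400 from by decide +kernel, show cfn 25 1 6 = 1218448 from by decide +kernel, show cfn 25 2 6 = 117880 from by decide +kernel, show cfn 25 3 6 = 9919 from by decide +kernel, show cfn 25 4 6 = 686 from by decide +kernel, show cfn 25 5 6 = 35 from by decide +kernel, show cfn 25 6 6 = 1 from by decide +kernel, show cfn 25 7 6 = 0 from by decide +kernel, show cfn 25 8 6 = 0 from by decide +kernel, show cfn 25 9 6 = 0 from by decide +kernel, show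 cfn 25 10 6 = 0 from by decide +kernel, show cfn 25 11 6 = 0 from by decide +kernel, show cfn 25 12 6 = 0 from by decide +kernel, Nat.cast_ofNat, Nat.cast_one, Nat.cast_zero]
  ring

theorem c25_7 (γ : ℕ → ℝ) : ∑ i ∈ range (25 / 2 + 1), γ i * (cfn 25 i 7 : ℝ) =
    (61529600) * γ 0 + (7537376) * γ 1 + (853328) * γ 2 + (87362) * γ 3 + (7824) * γ 4
       + (580) * γ 5 + (32) * γ 6 + (1) * γ 7 + (0) * γ 8 + (0) * γ 9 + (0) * γ 10 + (0) * γ 11
       + (0) * γ 12 := by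
  have h : ((25 / 2 + 1 : ℕ)) = 13 := rfl
  rw [h]
  simp only [sum_range_succ, sum_range_zero, show cfn 25 0 7 = 61529600 from by decide +kernel, show cfn 25 1 7 = 7537376 from by decide +kernel, show cfn 25 2 7 = 853328 from by decide +kernel, show cfn 25 3 7 = 87362 from by decide +kernel, show cfn 25 4 7 = 7824 from by decide +kernel, show cfn 25 5 7 = 580 from by decide +kernel, show cfn 25 6 7 = 32 from by decide +kernel, show cfn 25 7 7 = 1 from by decide +kernel, show cfn 25 8 7 = 0 from by decide +kernel, show cfn 25 9 7 = 0 from by decide +kernel, show cfn 25 10 7 = 0 from by decide +kernel, show cfn 25 11 7 = 0 from by decide +kernel, show cfn 25 12 7 = 0 from by decide +kernel, Nat.cast_ofNat, Nat.cast_one, Nat.cast_zero]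
  ring

theorem c25_8 (γ : ℕ → ℝ) : ∑ i ∈ range (25 / 2 + 1), γ i * (cfn 25 i 8 : ℝ) =
    (276883200) * γ 0 + (37840704) * γ 1 + (4870992) * γ 2 + (582084) * γ 3 + (63241) * γ 4
       + (6050) * γ 5 + (483) * γ 6 + (29) * γ 7 + (1) * γ 8 + (0) * γ 9 + (0) * γ 10 + (0) * γ 11
       + (0) * γ 12 := by
  have h : ((25 / 2 + 1 : ℕ)) = 13 := rfl
  rw [h]
  simp only [sum_range_succ, sum_range_zero, show cfn 25 0 8 = 276883200 from by decide +kernel, show cfn 25 1 8 = 37840704 from by decide +kernel, show cfn 25 2 8 = 4870992 from by decide +kernel, show cfn 25 3 8 = 582084 from by decide +kernel, show cfn 25 4 8 = 63241 from by decide +kernel, show cfn 25 5 8 = 6050 from by decide +kernel, show cfn 25 6 8 = 483 from by decide +kernel, show cfn 25 7 8 = 29 from by decide +kernel, show cfn 25 8 8 = 1 from by decide +kernel, show cfn 25 9 8 = 0 from by decide +kernel, show cfn 25 10 8 = 0 from by decide +kernel, show cfn 25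 11 8 = 0 from by decide +kernel, show cfn 25 12 8 = 0 from by decide +kernel, Nat.cast_ofNat, Nat.cast_one, Nat.cast_zero]
  ring

theorem c25_9 (γ : ℕ → ℝ) : ∑ i ∈ range (25 / 2 + 1), γ i * (cfn 25 i 9 : ℝ) =
    (1046003200) * γ 0 + (156900480) * γ 1 + (22480800) * γ 2 + (3046536) * γ 3 + (385186) * γ 4
       + (44545) * γ 5 + (4570) * γ 6 + (395) * γ 7 + (26) * γ 8 + (1) * γ 9 + (0) * γ 10
       + (0) * γ 11 + (0) * γ 12 := by
  have h : ((25 / 2 + 1 : ℕ)) = 13 := rfl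
  rw [h]
  simp only [sum_range_succ, sum_range_zero, show cfn 25 0 9 = 1046003200 from by decide +kernel, show cfn 25 1 9 = 156900480 from by decide +kernel, show cfn 25 2 9 = 22480800 from by decide +kernel, show cfn 25 3 9 = 3046536 from by decide +kernel, show cfn 25 4 9 = 385186 from by decide +kernel, show cfn 25 5 9 = 44545 from by decide +kernel, show cfn 25 6 9 = 4570 from by decide +kernel, show cfn 25 7 9 = 395 from by decide +kernel, show cfn 25 8 9 = 26 from by decide +kernel, show cfn 25 9 9 = 1 from by decide +kernel, show cfn 25 10 9 = 0 from by decide +kernel, show cfn 25 11 9 = 0 from by decide +kernel, show cfn 25 12 9 = 0 from by decide +kernel, Nat.cast_ofNat, Nat.cast_one, Nat.cast_zero]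
  ring

theorem c25_10 (γ : ℕ → ℝ) : ∑ i ∈ range (25 / 2 + 1), γ i * (cfn 25 i 10 : ℝ) =
    (3347210240) * γ 0 + (543921664) * γ 1 + (85334016) * γ 2 + (12837312) * γ 3
       + (1834912) * γ 4 + (246047) * γ 5 + (30383) * γ 6 + (3357) * γ 7 + (316) * γ 8 + (23) * γ 9
       + (1) * γ 10 + (0) * γ 11 + (0) * γ 12 := by
  have h : ((25 / 2 + 1 : ℕ)) = 13 := rfl
  rw [h]
  simp only [sum_range_succ, sum_range_zero, show cfn 25 0 10 = 3347210240 from by decide +kernel, show cfn 25 1 10 = 543921664 from by decide +kernel, show cfn 25 2 10 = 85334016 from by decide +kernel, show cfn 25 3 10 = 12837312 from by decide +kernel, show cfn 25 4 10 = 1834912 from by decide +kernel, show cfn 25 5 10 = 246047 from by decide +kernel, show cfn 25 6 10 = 30383 from by decide +kernel, show cfn 25 7 10 = 3357 from by decide +kernel, show cfn 25 8 10 = 316 from by decide +kernel, show cfn 25 9 10 = 23 from by decide +kernel, show cfn 25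 10 10 = 1 from by decide +kernel, show cfn 25 11 10 = 0 from by decide +kernel, show cfn 25 12 10 = 0 from by decide +kernel, Nat.cast_ofNat, Nat.cast_one, Nat.cast_zero]
  ring

theorem c25_11 (γ : ℕ → ℝ) : ∑ i ∈ range (25 / 2 + 1), γ i * (cfn 25 i 11 : ℝ) =
    (9128755200) * γ 0 + (1589924864) * γ 1 + (269562880) * γ 2 + (44279424) * γ 3
       + (7003456) * γ 4 + (1057730) * γ 5 + (150780) * γ 6 + (19945) * γ 7 + (2384) * γ 8
       + (246) * γ 9 + (20) * γ 10 + (1) * γ 11 + (0) * γ 12 := by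
  have h : ((25 / 2 + 1 : ℕ)) = 13 := rfl
  rw [h]
  simp only [sum_range_succ, sum_range_zero, show cfn 25 0 11 = 9128755200 from by decide +kernel, show cfn 25 1 11 = 1589924864 from by decide +kernel, show cfn 25 2 11 = 269562880 from by decide +kernel, show cfn 25 3 11 = 44279424 from by decide +kernel, show cfn 25 4 11 = 7003456 from by decide +kernel, show cfn 25 5 11 = 1057730 from by decide +kernel, show cfn 25 6 11 = 150780 from by decide +kernel, show cfn 25 7 11 = 19945 from by decide +kernel, show cfn 25 8 11 = 2384 from by decide +kernel, show cfn 25 9 11 = 246 from by decide +kernel, show cfn 25 10 11 = 20 from by decide +kernel, show cfn 25 11 11 = 1 from by decide +kernel, show cfn 25 12 11 = 0 from by decide +kernel, Nat.cast_ofNat, Nat.cast_one, Nat.cast_zero]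
  ring

theorem c25_12 (γ : ℕ → ℝ) : ∑ i ∈ range (25 / 2 + 1), γ i * (cfn 25 i 12 : ℝ) =
    (21300428800) * γ 0 + (3940579328) * γ 1 + (714258944) * γ 2 + (126429952) * γ 3
       + (21763264) * γ 4 + (3623260) * γ 5 + (579125) * γ 6 + (87955) * γ 7 + (12502) * γ 8
       + (1624) * γ 9 + (185) * γ 10 + (17) * γ 11 + (1) * γ 12 := by
  have h : ((25 / 2 + 1 : ℕ)) = 13 := rfl
  rw [h]
  simp only [sum_range_succ, sum_range_zero, show cfn 25 0 12 = 21300428800 from by decide +kernel, show cfn 25 1 12 = 3940579328 from by decide +kernel, show cfn 25 2 12 = 714258944 from by decide +kernel, show cfn 25 3 12 = 126429952 from by decide +kernel, show cfn 25 4 12 = 21763264 from by decide +kernel, show cfn 25 5 12 = 3623260 from by decide +kernel, show cfn 25 6 12 = 579125 from by decide +kernel, show cfn 25 7 12 = 87955 from by decide +kernel, show cfn 25 8 12 = 12502 from by decide +kernel, show cfn 25 9 12 = 1624 from by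 decide +kernel, show cfn 25 10 12 = 185 from by decide +kernel, show cfn 25 11 12 = 17 from by decide +kernel, show cfn 25 12 12 = 1 from by decide +kernel, Nat.cast_ofNat, Nat.cast_one, Nat.cast_zero]
  ring

theorem c25_13 (γ : ℕ → ℝ) : ∑ i ∈ range (25 / 2 + 1), γ i * (cfn 25 i 13 : ℝ) =
    (42600857600) * γ 0 + (8307167232) * γ 1 + (1595216896) * γ 2 + (300984320) * γ 3
       + (55642496) * γ 4 + (10042760) * γ 5 + (1761370) * γ 6 + (298305) * γ 7 + (48356) * γ 8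
       + (7406) * γ 9 + (1050) * γ 10 + (133) * γ 11 + (14) * γ 12 := by
  have h : ((25 / 2 + 1 : ℕ)) = 13 := rfl
  rw [h]
  simp only [sum_range_succ, sum_range_zero, show cfn 25 0 13 = 42600857600 from by decide +kernel, show cfn 25 1 13 = 8307167232 from by decide +kernel, show cfn 25 2 13 = 1595216896 from by decide +kernel, show cfn 25 3 13 = 300984320 from by decide +kernel, show cfn 25 4 13 = 55642496 from by decide +kernel, show cfn 25 5 13 = 10042760 from by decide +kernel, show cfn 25 6 13 = 1761370 from by decide +kernel, show cfn 25 7 13 = 298305 from by decide +kernel, show cfn 25 8 13 = 48356 from by decide +kernel, show cfn 25 9 13 = 7406 from by decide +kernel, show cfn 25 10 13 = 1050 from by decide +kernel, show cfn 25 11 13 = 133 from by decide +kernel, show cfn 25 12 13 = 14 from by decide +kernel, Nat.cast_ofNat, Nat.cast_one, Nat.cast_zero]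
  ring

theorem c25_14 (γ : ℕ → ℝ) : ∑ i ∈ range (25 / 2 + 1), γ i * (cfn 25 i 14 : ℝ) =
    (73030041600) * γ 0 + (14910300160) * γ 1 + (3009843200) * γ 2 + (599818752) * γ 3
       + (117791232) * γ 4 + (22741680) * γ 5 + (4304040) * γ 6 + (795455) * γ 7 + (142828) * γ 8
       + (24738) * γ 9 + (4090) * γ 10 + (635) * γ 11 + (90) * γ 12 := by
  have h : ((25 / 2 + 1 : ℕ)) = 13 := rfl
  rw [h]
  simp only [sum_range_succ, sum_range_zero, show cfn 25 0 14 = 73030041600 from by decide +kernel, show cfn 25 1 14 = 14910300160 from by decide +kernel, show cfn 25 2 14 = 3009843200 from by decide +kernel, show cfn 25 3 14 = 599818752 from by decide +kernel, show cfn 25 4 14 = 117791232 from by decide +kernel, show cfn 25 5 14 = 22741680 from by decide +kernel, show cfn 25 6 14 = 4304040 from by decide +kernel, show cfn 25 7 14 = 795455 from by decide +kernel, show cfn 25 8 14 = 142828 from by decide +kernel, show cfn 25 9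 14 = 24738 from by decide +kernel, show cfn 25 10 14 = 4090 from by decide +kernel, show cfn 25 11 14 = 635 from by decide +kernel, show cfn 25 12 14 = 90 from by decide +kernel, Nat.cast_ofNat, Nat.cast_one, Nat.cast_zero]
  ring

theorem c25_15 (γ : ℕ → ℝ) : ∑ i ∈ range (25 / 2 + 1), γ i * (cfn 25 i 15 : ℝ) =
    (107110727680) * γ 0 + (22761029632) * γ 1 + (4797227008) * γ 2 + (1001847808) * γ 3
       + (207068160) * γ 4 + (42295968) * γ 5 + (8522800) * γ 6 + (1690370) * γ 7 + (329024) * γ 8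
       + (62608) * γ 9 + (11584) * γ 10 + (2068) * γ 11 + (352) * γ 12 := by
  have h : ((25 / 2 + 1 : ℕ)) = 13 := rfl
  rw [h]
  simp only [sum_range_succ, sum_range_zero, show cfn 25 0 15 = 107110727680 from by decide +kernel, show cfn 25 1 15 = 22761029632 from by decide +kernel, show cfn 25 2 15 = 4797227008 from by decide +kernel, show cfn 25 3 15 = 1001847808 from by decide +kernel, show cfn 25 4 15 = 207068160 from by decide +kernel, show cfn 25 5 15 = 42295968 from by decide +kernel, show cfn 25 6 15 = 8522800 from by decide +kernel, show cfn 25 7 15 = 1690370 from by decide +kernel, show cfn 25 8 15 = 329024 from by decide +kernel, show cfn 25 9 15 = 62608 from by decide +kernel, show cfn 25 10 15 = 11584 from by decide +kernel, show cfn 25 11 15 = 2068 from by decide +kernel, show cfn 25 12 15 = 352 from by decide +kernel, Nat.cast_ofNat, Nat.cast_one, Nat.cast_zero]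
  ring

theorem c25_16 (γ : ℕ → ℝ) : ∑ i ∈ range (25 / 2 + 1), γ i * (cfn 25 i 16 : ℝ) =
    (133888409600) * γ 0 + (29455450112) * γ 1 + (6443048960) * γ 2 + (1400403968) * γ 3
       + (302228992) * γ 4 + (64708800) * γ 5 + (13730288) * γ 6 + (2883540) * γ 7 + (598417) * γ 8
       + (122468) * γ 9 + (24650) * γ 10 + (4862) * γ 11 + (935) * γ 12 := by
  have h : ((25 / 2 + 1 : ℕ)) = 13 := rfl
  rw [h]
  simp only [sum_range_succ, sum_range_zero, show cfn 25 0 16 = 133888409600 from by decide +kernel, show cfn 25 1 16 = 29455450112 from by decide +kernel, show cfn 25 2 16 = 6443048960 from by decide +kernel, show cfn 25 3 16 = 1400403968 from by decide +kernel, show cfn 25 4 16 = 302228992 from by decide +kernel, show cfn 25 5 16 = 64708800 from by decide +kernel, show cfn 25 6 16 = 13730288 from by decide +kernel, show cfn 25 7 16 = 2883540 from by decide +kernel, show cfn 25 8 16 = 598417 from by decide +kernel, show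 cfn 25 9 16 = 122468 from by decide +kernel, show cfn 25 10 16 = 24650 from by decide +kernel, show cfn 25 11 16 = 4862 from by decide +kernel, show cfn 25 12 16 = 935 from by decide +kernel, Nat.cast_ofNat, Nat.cast_one, Nat.cast_zero]
  ring

theorem c25_17 (γ : ℕ → ℝ) : ∑ i ∈ range (25 / 2 + 1), γ i * (cfn 25 i 17 : ℝ) =
    (141764198400) * γ 0 + (32133218304) * γ 1 + (7255375872) * γ 2 + (1631268864) * γ 3
       + (365063168) * γ 4 + (81278080) * γ 5 + (17992416) * γ 6 + (3957448) * γ 7 + (864146) * γ 8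
       + (187137) * γ 9 + (40140) * γ 10 + (8514) * γ 11 + (1782) * γ 12 := by
  have h : ((25 / 2 + 1 : ℕ)) = 13 := rfl
  rw [h]
  simp only [sum_range_succ, sum_range_zero, show cfn 25 0 17 = 141764198400 from by decide +kernel, show cfn 25 1 17 = 32133218304 from by decide +kernel, show cfn 25 2 17 = 7255375872 from by decide +kernel, show cfn 25 3 17 = 1631268864 from by decide +kernel, show cfn 25 4 17 = 365063168 from by decide +kernel, show cfn 25 5 17 = 81278080 from by decide +kernel, show cfn 25 6 17 = 17992416 from by decide +kernel, show cfn 25 7 17 = 3957448 from by decide +kernel, show cfn 25 8 17 = 864146 from by decide +kernel, show cfn 25 9 17 = 187137 from by decide +kernel, show cfn 25 10 17 = 40140 from by decide +kernel, show cfn 25 11 17 = 8514 from by decide +kernel, show cfn 25 12 17 = 1782 from by decide +kernel, Nat.cast_ofNat, Nat.cast_one, Nat.cast_zero]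
  ring

theorem c25_18 (γ : ℕ → ℝ) : ∑ i ∈ range (25 / 2 + 1), γ i * (cfn 25 i 18 : ℝ) =
    (126012620800) * γ 0 + (29297934336) * γ 1 + (6794969088) * γ 2 + (1571733504) * γ 3
       + (362504192) * γ 4 + (83344640) * γ 5 + (19096064) * γ 6 + (4358752) * γ 7 + (990736) * γ 8
       + (224143) * γ 9 + (50445) * γ 10 + (11286) * γ 11 + (2508) * γ 12 := by
  have h : ((25 / 2 + 1 : ℕ)) = 13 := rfl
  rw [h]
  simp only [sum_range_succ, sum_range_zero, show cfn 25 0 18 = 126012620800 from by decide +kernel, show cfn 25 1 18 = 29297934336 from by decide +kernel, show cfn 25 2 18 = 6794969088 from by decide +kernel, show cfn 25 3 18 = 1571733504 from by decide +kernel, show cfn 25 4 18 = 362504192 from by decide +kernel, show cfn 25 5 18 = 83344640 from by decide +kernel, show cfn 25 6 18 = 19096064 from by decide +kernel, show cfn 25 7 18 = 4358752 from by decide +kernel, show cfn 25 8 18 = 990736 from by decide +kernel,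 show cfn 25 9 18 = 224143 from by decide +kernel, show cfn 25 10 18 = 50445 from by decide +kernel, show cfn 25 11 18 = 11286 from by decide +kernel, show cfn 25 12 18 = 2508 from by decide +kernel, Nat.cast_ofNat, Nat.cast_one, Nat.cast_zero]
  ring

theorem c25_19 (γ : ℕ → ℝ) : ∑ i ∈ range (25 / 2 + 1), γ i * (cfn 25 i 19 : ℝ) =
    (92851404800) * γ 0 + (22052208640) * γ 1 + (5229772800) * γ 2 + (1238335488) * γ 3
       + (292732928) * γ 4 + (69076480) * γ 5 + (16268800) * γ 6 + (3823680) * γ 7 + (896672) * γ 8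
       + (209762) * γ 9 + (48940) * γ 10 + (11385) * γ 11 + (2640) * γ 12 := by
  have h : ((25 / 2 + 1 : ℕ)) = 13 := rfl
  rw [h]
  simp only [sum_range_succ, sum_range_zero, show cfn 25 0 19 = 92851404800 from by decide +kernel, show cfn 25 1 19 = 22052208640 from by decide +kernel, show cfn 25 2 19 = 5229772800 from by decide +kernel, show cfn 25 3 19 = 1238335488 from by decide +kernel, show cfn 25 4 19 = 292732928 from by decide +kernel, show cfn 25 5 19 = 69076480 from by decide +kernel, show cfn 25 6 19 = 16268800 from by decide +kernel, show cfn 25 7 19 = 3823680 from by decide +kernel, show cfn 25 8 19 = 896672 from by decide +kernel, show cfn 25 9 19 = 209762 from by decide +kernel, show cfn 25 10 19 = 48940 from by decide +kernel, show cfn 25 11 19 = 11385 from by decide +kernel, show cfn 25 12 19 = 2640 from by decide +kernel, Nat.cast_ofNat, Nat.cast_one, Nat.cast_zero]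
  ring

theorem c25_20 (γ : ℕ → ℝ) : ∑ i ∈ range (25 / 2 + 1), γ i * (cfn 25 i 20 : ℝ) =
    (55710842880) * γ 0 + (13463453696) * γ 1 + (3251175424) * γ 2 + (784465920) * γ 3
       + (189120512) * γ 4 + (45552640) * γ 5 + (10961664) * γ 6 + (2635136) * γ 7 + (632800) * γ 8
       + (151788) * γ 9 + (36365) * γ 10 + (8701) * γ 11 + (2079) * γ 12 := by
  have h : ((25 / 2 + 1 : ℕ)) = 13 := rfl
  rw [h]
  simp only [sum_range_succ, sum_range_zero, show cfn 25 0 20 = 55710842880 from by decide +kernel, show cfn 25 1 20 = 13463453696 from by decide +kernel, show cfn 25 2 20 = 3251175424 from by decide +kernel, show cfn 25 3 20 = 784465920 from by decide +kernel, show cfn 25 4 20 = 189120512 from by decide +kernel, show cfn 25 5 20 = 45552640 from by decide +kernel, show cfn 25 6 20 = 10961664 from by decide +kernel, show cfn 25 7 20 = 2635136 from by decide +kernel, show cfn 25 8 20 = 632800 from by decide +kernel, show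 cfn 25 9 20 = 151788 from by decide +kernel, show cfn 25 10 20 = 36365 from by decide +kernel, show cfn 25 11 20 = 8701 from by decide +kernel, show cfn 25 12 20 = 2079 from by decide +kernel, Nat.cast_ofNat, Nat.cast_one, Nat.cast_zero]
  ring

theorem q25_0 (γ : ℕ → ℝ) (h0 : γ 0 = 1)
    (h : ∀ n < 25, 2 * (((25 : ℕ) : ℝ) - ((n : ℕ) : ℝ)) * ∑ i ∈ range (25 / 2 + 1), γ i * (cfn 25 i n : ℝ) ≤
      ((n : ℝ) + 1) * ∑ i ∈ range (25 / 2 + 1), γ i * (cfn 25 i (n + 1) : ℝ)) :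
    0 ≤ (0) * γ 0 + (1) * γ 1 + (0) * γ 2 + (0) * γ 3 + (0) * γ 4 + (0) * γ 5 + (0) * γ 6 + (0) * γ 7
       + (0) * γ 8 + (0) * γ 9 + (0) * γ 10 + (0) * γ 11 + (0) * γ 12 := by
  have h1 := h 0 (by norm_num)
  rw [show 0 + 1 = 1 from rfl, c25_0, c25_1] at h1
  norm_num [h0] at h1 ⊢
  linarith

theorem q25_1 (γ : ℕ → ℝ) (h0 : γ 0 = 1)
    (h : ∀ n < 25, 2 * (((25 : ℕ) : ℝ) - ((n : ℕ) : ℝ)) * ∑ i ∈ range (25 / 2 + 1), γ i * (cfn 25 i n : ℝ) ≤
      ((n : ℝ) + 1) * ∑ i ∈ range (25 / 2 + 1), γ i * (cfn 25 i (n + 1) : ℝ)) :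
    0 ≤ (0) * γ 0 + (46) * γ 1 + (2) * γ 2 + (0) * γ 3 + (0) * γ 4 + (0) * γ 5 + (0) * γ 6
       + (0) * γ 7 + (0) * γ 8 + (0) * γ 9 + (0) * γ 10 + (0) * γ 11 + (0) * γ 12 := by
  have h1 := h 1 (by norm_num)
  rw [show 1 + 1 = 2 from rfl, c25_1, c25_2] at h1
  norm_num [h0] at h1 ⊢
  linarith

theorem q25_2 (γ : ℕ → ℝ) (h0 : γ 0 = 1)
    (h : ∀ n < 25, 2 * (((25 : ℕ) : ℝ) - ((n : ℕ) : ℝ)) * ∑ i ∈ range (25 / 2 + 1), γ i * (cfn 25 i n : ℝ) ≤
      ((n : ℝ) + 1) * ∑ i ∈ range (25 / 2 + 1), γ i * (cfn 25 i (n + 1) : ℝ)) :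
    0 ≤ (0) * γ 0 + (1012) * γ 1 + (86) * γ 2 + (3) * γ 3 + (0) * γ 4 + (0) * γ 5 + (0) * γ 6
       + (0) * γ 7 + (0) * γ 8 + (0) * γ 9 + (0) * γ 10 + (0) * γ 11 + (0) * γ 12 := by
  have h1 := h 2 (by norm_num)
  rw [show 2 + 1 = 3 from rfl, c25_2, c25_3] at h1
  norm_num [h0] at h1 ⊢
  linarith

theorem q25_3 (γ : ℕ → ℝ) (h0 : γ 0 = 1)
    (h : ∀ n < 25, 2 * (((25 : ℕ) : ℝ) - ((n : ℕ) : ℝ)) * ∑ i ∈ range (25 / 2 + 1), γ i * (cfn 25 i n : ℝ) ≤
      ((n : ℝ) + 1) * ∑ i ∈ range (25 / 2 + 1), γ i * (cfn 25 i (n + 1) : ℝ)) :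
    0 ≤ (0) * γ 0 + (14168) * γ 1 + (1764) * γ 2 + (120) * γ 3 + (4) * γ 4 + (0) * γ 5 + (0) * γ 6
       + (0) * γ 7 + (0) * γ 8 + (0) * γ 9 + (0) * γ 10 + (0) * γ 11 + (0) * γ 12 := by
  have h1 := h 3 (by norm_num)
  rw [show 3 + 1 = 4 from rfl, c25_3, c25_4] at h1
  norm_num [h0] at h1 ⊢
  linarith

theorem q25_4 (γ : ℕ → ℝ) (h0 : γ 0 = 1)
    (h : ∀ n < 25, 2 * (((25 : ℕ) : ℝ) - ((n : ℕ) : ℝ)) * ∑ i ∈ range (25 / 2 + 1), γ i * (cfn 25 i n : ℝ) ≤
      ((n : ℝ) + 1) * ∑ i ∈ range (25 / 2 + 1), γ i * (cfn 25 i (n + 1) : ℝ)) :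
    0 ≤ (0) * γ 0 + (141680) * γ 1 + (22960) * γ 2 + (2283) * γ 3 + (148) * γ 4 + (5) * γ 5
       + (0) * γ 6 + (0) * γ 7 + (0) * γ 8 + (0) * γ 9 + (0) * γ 10 + (0) * γ 11 + (0) * γ 12 := by
  have h1 := h 4 (by norm_num)
  rw [show 4 + 1 = 5 from rfl, c25_4, c25_5] at h1
  norm_num [h0] at h1 ⊢
  linarith

theorem q25_5 (γ : ℕ → ℝ) (h0 : γ 0 = 1)
    (h : ∀ n < 25, 2 * (((25 : ℕ) : ℝ) - ((n : ℕ) : ℝ)) * ∑ i ∈ range (25 / 2 + 1), γ i * (cfn 25 i n : ℝ) ≤
      ((n : ℝ) + 1) * ∑ i ∈ range (25 / 2 + 1), γ i * (cfn 25 i (n + 1) : ℝ)) :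
    0 ≤ (0) * γ 0 + (1076768) * γ 1 + (212800) * γ 2 + (27474) * γ 3 + (2596) * γ 4 + (170) * γ 5
       + (6) * γ 6 + (0) * γ 7 + (0) * γ 8 + (0) * γ 9 + (0) * γ 10 + (0) * γ 11 + (0) * γ 12 := by
  have h1 := h 5 (by norm_num)
  rw [show 5 + 1 = 6 from rfl, c25_5, c25_6] at h1
  norm_num [h0] at h1 ⊢
  linarith

theorem q25_6 (γ : ℕ → ℝ) (h0 : γ 0 = 1)
    (h : ∀ n < 25, 2 * (((25 : ℕ) : ℝ) - ((n : ℕ) : ℝ)) * ∑ i ∈ range (25 / 2 + 1), γ i * (cfn 25 i n : ℝ) ≤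
      ((n : ℝ) + 1) * ∑ i ∈ range (25 / 2 + 1), γ i * (cfn 25 i (n + 1) : ℝ)) :
    0 ≤ (0) * γ 0 + (6460608) * γ 1 + (1493856) * γ 2 + (234612) * γ 3 + (28700) * γ 4 + (2730) * γ 5
       + (186) * γ 6 + (7) * γ 7 + (0) * γ 8 + (0) * γ 9 + (0) * γ 10 + (0) * γ 11 + (0) * γ 12 := by
  have h1 := h 6 (by norm_num)
  rw [show 6 + 1 = 7 from rfl, c25_6, c25_7] at h1
  norm_num [h0] at h1 ⊢
  linarith

theorem q25_7 (γ : ℕ → ℝ) (h0 : γ 0 = 1)
    (h : ∀ n < 25, 2 * (((25 : ℕ) : ℝ) - ((n : ℕ) : ℝ)) * ∑ i ∈ range (25 / 2 + 1), γ i * (cfn 25 i n : ℝ) ≤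
      ((n : ℝ) + 1) * ∑ i ∈ range (25 / 2 + 1), γ i * (cfn 25 i (n + 1) : ℝ)) :
    0 ≤ (0) * γ 0 + (31380096) * γ 1 + (8248128) * γ 2 + (1511640) * γ 3 + (224264) * γ 4
       + (27520) * γ 5 + (2712) * γ 6 + (196) * γ 7 + (8) * γ 8 + (0) * γ 9 + (0) * γ 10
       + (0) * γ 11 + (0) * γ 12 := by
  have h1 := h 7 (by norm_num)
  rw [show 7 + 1 = 8 from rfl, c25_7, c25_8] at h1
  norm_num [h0] at h1 ⊢
  linarith

theorem q25_8 (γ : ℕ → ℝ) (h0 : γ 0 = 1)
    (h : ∀ n < 25, 2 * (((25 : ℕ) : ℝ) - ((n : ℕ) : ℝ)) * ∑ i ∈ range (25 / 2 + 1), γ i * (cfn 25 i n : ℝ) ≤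
      ((n : ℝ) + 1) * ∑ i ∈ range (25 / 2 + 1), γ i * (cfn 25 i (n + 1) : ℝ)) :
    0 ≤ (0) * γ 0 + (125520384) * γ 1 + (36713472) * γ 2 + (7627968) * γ 3 + (1316480) * γ 4
       + (195205) * γ 5 + (24708) * γ 6 + (2569) * γ 7 + (200) * γ 8 + (9) * γ 9 + (0) * γ 10
       + (0) * γ 11 + (0) * γ 12 := by
  have h1 := h 8 (by norm_num)
  rw [show 8 + 1 = 9 from rfl, c25_8, c25_9] at h1
  norm_num [h0] at h1 ⊢
  linarith

theorem q25_9 (γ : ℕ → ℝ) (h0 : γ 0 = 1)
    (h : ∀ n < 25, 2 * (((25 : ℕ) : ℝ) - ((n : ℕ) : ℝ)) * ∑ i ∈ range (25 / 2 + 1), γ i * (cfn 25 i n : ℝ) ≤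
      ((n : ℝ) + 1) * ∑ i ∈ range (25 / 2 + 1), γ i * (cfn 25 i (n + 1) : ℝ)) :
    0 ≤ (0) * γ 0 + (418401280) * γ 1 + (133954560) * γ 2 + (30883968) * γ 3 + (6023168) * γ 4
       + (1035030) * γ 5 + (157590) * γ 6 + (20930) * γ 7 + (2328) * γ 8 + (198) * γ 9
       + (10) * γ 10 + (0) * γ 11 + (0) * γ 12 := by
  have h1 := h 9 (by norm_num)
  rw [show 9 + 1 = 10 from rfl, c25_9, c25_10] at h1
  norm_num [h0] at h1 ⊢
  linarith

theorem q25_10 (γ : ℕ → ℝ) (h0 : γ 0 = 1)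
    (h : ∀ n < 25, 2 * (((25 : ℕ) : ℝ) - ((n : ℕ) : ℝ)) * ∑ i ∈ range (25 / 2 + 1), γ i * (cfn 25 i n : ℝ) ≤
      ((n : ℝ) + 1) * ∑ i ∈ range (25 / 2 + 1), γ i * (cfn 25 i (n + 1) : ℝ)) :
    0 ≤ (0) * γ 0 + (1171523584) * γ 1 + (405171200) * γ 2 + (101954304) * γ 3 + (21990656) * γ 4
       + (4253620) * γ 5 + (747090) * γ 6 + (118685) * γ 7 + (16744) * γ 8 + (2016) * γ 9
       + (190) * γ 10 + (11) * γ 11 + (0) * γ 12 := by
  have h1 := h 10 (by norm_num)
  rw [show 10 + 1 = 11 from rfl, c25_10, c25_11] at h1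
  norm_num [h0] at h1 ⊢
  linarith

theorem q25_11 (γ : ℕ → ℝ) (h0 : γ 0 = 1)
    (h : ∀ n < 25, 2 * (((25 : ℕ) : ℝ) - ((n : ℕ) : ℝ)) * ∑ i ∈ range (25 / 2 + 1), γ i * (cfn 25 i n : ℝ) ≤
      ((n : ℝ) + 1) * ∑ i ∈ range (25 / 2 + 1), γ i * (cfn 25 i (n + 1) : ℝ)) :
    0 ≤ (0) * γ 0 + (2769055744) * γ 1 + (1023346688) * γ 2 + (277335552) * γ 3 + (65062400) * γ 4
       + (13862680) * γ 5 + (2727660) * γ 6 + (497000) * γ 7 + (83272) * γ 8 + (12600) * γ 9
       + (1660) * γ 10 + (176) * γ 11 + (12) * γ 12 := by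
  have h1 := h 11 (by norm_num)
  rw [show 11 + 1 = 12 from rfl, c25_11, c25_12] at h1
  norm_num [h0] at h1 ⊢
  linarith

theorem q25_12 (γ : ℕ → ℝ) (h0 : γ 0 = 1)
    (h : ∀ n < 25, 2 * (((25 : ℕ) : ℝ) - ((n : ℕ) : ℝ)) * ∑ i ∈ range (25 / 2 + 1), γ i * (cfn 25 i n : ℝ) ≤
      ((n : ℝ) + 1) * ∑ i ∈ range (25 / 2 + 1), γ i * (cfn 25 i (n + 1) : ℝ)) :
    0 ≤ (0) * γ 0 + (5538111488) * γ 1 + (2167087104) * γ 2 + (625617408) * γ 3 + (157507584) * γ 4
       + (36351120) * γ 5 + (7840560) * γ 6 + (1591135) * γ 7 + (303576) * γ 8 + (54054) * γ 9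
       + (8840) * γ 10 + (1287) * γ 11 + (156) * γ 12 := by
  have h1 := h 12 (by norm_num)
  rw [show 12 + 1 = 13 from rfl, c25_12, c25_13] at h1
  norm_num [h0] at h1 ⊢
  linarith

theorem q25_13 (γ : ℕ → ℝ) (h0 : γ 0 = 1)
    (h : ∀ n < 25, 2 * (((25 : ℕ) : ℝ) - ((n : ℕ) : ℝ)) * ∑ i ∈ range (25 / 2 + 1), γ i * (cfn 25 i n : ℝ) ≤
      ((n : ℝ) + 1) * ∑ i ∈ range (25 / 2 + 1), γ i * (cfn 25 i (n + 1) : ℝ)) :
    0 ≤ (0) * γ 0 + (9372188672) * γ 1 + (3852599296) * γ 2 + (1173838848) * γ 3 + (313657344) * γ 4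
       + (77357280) * γ 5 + (17983680) * γ 6 + (3977050) * γ 7 + (839048) * γ 8 + (168588) * γ 9
       + (32060) * γ 10 + (5698) * γ 11 + (924) * γ 12 := by
  have h1 := h 13 (by norm_num)
  rw [show 13 + 1 = 14 from rfl, c25_13, c25_14] at h1
  norm_num [h0] at h1 ⊢
  linarith

theorem q25_14 (γ : ℕ → ℝ) (h0 : γ 0 = 1)
    (h : ∀ n < 25, 2 * (((25 : ℕ) : ℝ) - ((n : ℕ) : ℝ)) * ∑ i ∈ range (25 / 2 + 1), γ i * (cfn 25 i n : ℝ) ≤
      ((n : ℝ) + 1) * ∑ i ∈ range (25 / 2 + 1), γ i * (cfn 25 i (n + 1) : ℝ)) :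
    0 ≤ (0) * γ 0 + (13388840960) * γ 1 + (5741854720) * γ 2 + (1831704576) * γ 3 + (514615296) * γ 4
       + (134122560) * γ 5 + (33153120) * γ 6 + (7855540) * γ 7 + (1793144) * γ 8 + (394884) * γ 9
       + (83780) * γ 10 + (17050) * γ 11 + (3300) * γ 12 := by
  have h1 := h 14 (by norm_num)
  rw [show 14 + 1 = 15 from rfl, c25_14, c25_15] at h1
  norm_num [h0] at h1 ⊢
  linarith

theorem q25_15 (γ : ℕ → ℝ) (h0 : γ 0 = 1)
    (h : ∀ n < 25, 2 * (((25 : ℕ) : ℝ) - ((n : ℕ) : ℝ)) * ∑ i ∈ range (25 / 2 + 1), γ i * (cfn 25 i n : ℝ) ≤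
      ((n : ℝ) + 1) * ∑ i ∈ range (25 / 2 + 1), γ i * (cfn 25 i (n + 1) : ℝ)) :
    0 ≤ (0) * γ 0 + (16066609152) * γ 1 + (7144243200) * γ 2 + (2369507328) * γ 3 + (694300672) * γ 4
       + (189421440) * γ 5 + (49228608) * γ 6 + (12329240) * γ 7 + (2994192) * γ 8 + (707328) * γ 9
       + (162720) * γ 10 + (36432) * γ 11 + (7920) * γ 12 := by
  have h1 := h 15 (by norm_num)
  rw [show 15 + 1 = 16 from rfl, c25_15, c25_16] at h1
  norm_num [h0] at h1 ⊢
  linarith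

theorem q25_16 (γ : ℕ → ℝ) (h0 : γ 0 = 1)
    (h : ∀ n < 25, 2 * (((25 : ℕ) : ℝ) - ((n : ℕ) : ℝ)) * ∑ i ∈ range (25 / 2 + 1), γ i * (cfn 25 i n : ℝ) ≤
      ((n : ℝ) + 1) * ∑ i ∈ range (25 / 2 + 1), γ i * (cfn 25 i (n + 1) : ℝ)) :
    0 ≤ (0) * γ 0 + (16066609152) * γ 1 + (7366508544) * γ 2 + (2524299264) * γ 3 + (765952000) * γ 4
       + (216968960) * γ 5 + (58725888) * γ 6 + (15372896) * γ 7 + (3918976) * γ 8 + (976905) * γ 9
       + (238680) * γ 10 + (57222) * γ 11 + (13464) * γ 12 := by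
  have h1 := h 16 (by norm_num)
  rw [show 16 + 1 = 17 from rfl, c25_16, c25_17] at h1
  norm_num [h0] at h1 ⊢
  linarith

theorem q25_17 (γ : ℕ → ℝ) (h0 : γ 0 = 1)
    (h : ∀ n < 25, 2 * (((25 : ℕ) : ℝ) - ((n : ℕ) : ℝ)) * ∑ i ∈ range (25 / 2 + 1), γ i * (cfn 25 i n : ℝ) ≤
      ((n : ℝ) + 1) * ∑ i ∈ range (25 / 2 + 1), γ i * (cfn 25 i (n + 1) : ℝ)) :
    0 ≤ (0) * γ 0 + (13231325184) * γ 1 + (6223429632) * γ 2 + (2190901248) * γ 3 + (684064768) * γ 4
       + (199754240) * γ 5 + (55850496) * γ 6 + (15138368) * γ 7 + (4006912) * γ 8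
       + (1040382) * γ 9 + (265770) * γ 10 + (66924) * γ 11 + (16632) * γ 12 := by
  have h1 := h 17 (by norm_num)
  rw [show 17 + 1 = 18 from rfl, c25_17, c25_18] at h1
  norm_num [h0] at h1 ⊢
  linarith

theorem q25_18 (γ : ℕ → ℝ) (h0 : γ 0 = 1)
    (h : ∀ n < 25, 2 * (((25 : ℕ) : ℝ) - ((n : ℕ) : ℝ)) * ∑ i ∈ range (25 / 2 + 1), γ i * (cfn 25 i n : ℝ) ≤
      ((n : ℝ) + 1) * ∑ i ∈ range (25 / 2 + 1), γ i * (cfn 25 i (n + 1) : ℝ)) :
    0 ≤ (0) * γ 0 + (8820883456) * γ 1 + (4236115968) * γ 2 + (1524105216) * γ 3 + (486866944) * γ 4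
       + (145628160) * γ 5 + (41762304) * γ 6 + (11627392) * γ 7 + (3166464) * γ 8 + (847476) * γ 9
       + (223630) * γ 10 + (58311) * γ 11 + (15048) * γ 12 := by
  have h1 := h 18 (by norm_num)
  rw [show 18 + 1 = 19 from rfl, c25_18, c25_19] at h1
  norm_num [h0] at h1 ⊢
  linarith

theorem q25_19 (γ : ℕ → ℝ) (h0 : γ 0 = 1)
    (h : ∀ n < 25, 2 * (((25 : ℕ) : ℝ) - ((n : ℕ) : ℝ)) * ∑ i ∈ range (25 / 2 + 1), γ i * (cfn 25 i n : ℝ) ≤
      ((n : ℝ) + 1) * ∑ i ∈ range (25 / 2 + 1), γ i * (cfn 25 i (n + 1) : ℝ)) :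
    0 ≤ (0) * γ 0 + (4642570240) * γ 1 + (2266234880) * γ 2 + (829292544) * γ 3 + (269615104) * γ 4
       + (82135040) * γ 5 + (24007680) * γ 6 + (6818560) * γ 7 + (1895936) * γ 8 + (518616) * γ 9
       + (140020) * γ 10 + (37400) * γ 11 + (9900) * γ 12 := by
  have h1 := h 19 (by norm_num)
  rw [show 19 + 1 = 20 from rfl, c25_19, c25_20] at h1
  norm_num [h0] at h1 ⊢
  linarith

theorem m25_0 (γ : ℕ → ℝ) : Mat 25 γ 0 = (1) * γ 0 + (0) * γ 1 + (0) * γ 2 + (0) * γ 3 + (0) * γ 4 + (0) * γ 5 + (0) * γ 6 + (0) * γ 7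
       + (0) * γ 8 + (0) * γ 9 + (0) * γ 10 + (0) * γ 11 + (0) * γ 12 := by
  unfold Mat
  rw [show (25 / 2 + 1 : ℕ) = 13 from rfl]
  simp [sum_range_succ, Nat.choose]
  try ring

theorem m25_1 (γ : ℕ → ℝ) : Mat 25 γ 1 = (1200) * γ 0 + (48) * γ 1 + (1) * γ 2 + (0) * γ 3 + (0) * γ 4 + (0) * γ 5 + (0) * γ 6
       + (0) * γ 7 + (0) * γ 8 + (0) * γ 9 + (0) * γ 10 + (0) * γ 11 + (0) * γ 12 := by
  unfold Mat
  rw [show (25 / 2 + 1 : ℕ) = 13 from rfl]
  simp [sum_range_succ, Nat.choose]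
  try ring

theorem m25_2 (γ : ℕ → ℝ) : Mat 25 γ 2 = (202400) * γ 0 + (16192) * γ 1 + (1012) * γ 2 + (44) * γ 3 + (1) * γ 4 + (0) * γ 5
       + (0) * γ 6 + (0) * γ 7 + (0) * γ 8 + (0) * γ 9 + (0) * γ 10 + (0) * γ 11 + (0) * γ 12 := by
  unfold Mat
  rw [show (25 / 2 + 1 : ℕ) = 13 from rfl]
  simp [sum_range_succ, Nat.choose]
  try ring

theorem m25_3 (γ : ℕ → ℝ) : Mat 25 γ 3 = (11334400) * γ 0 + (1360128) * γ 1 + (141680) * γ 2 + (12320) * γ 3 + (840) * γ 4
       + (40) * γ 5 + (1) * γ 6 + (0) * γ 7 + (0) * γ 8 + (0) * γ 9 + (0) * γ 10 + (0) * γ 11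
       + (0) * γ 12 := by
  unfold Mat
  rw [show (25 / 2 + 1 : ℕ) = 13 from rfl]
  simp [sum_range_succ, Nat.choose]
  try ring

theorem m25_4 (γ : ℕ → ℝ) : Mat 25 γ 4 = (276883200) * γ 0 + (44301312) * γ 1 + (6460608) * γ 2 + (842688) * γ 3 + (95760) * γ 4
       + (9120) * γ 5 + (684) * γ 6 + (36) * γ 7 + (1) * γ 8 + (0) * γ 9 + (0) * γ 10 + (0) * γ 11
       + (0) * γ 12 := by
  unfold Mat
  rw [show (25 / 2 + 1 : ℕ) = 13 from rfl]
  simp [sum_range_succ, Nat.choose]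
  try ring

theorem m25_5 (γ : ℕ → ℝ) : Mat 25 γ 5 = (3347210240) * γ 0 + (669442048) * γ 1 + (125520384) * γ 2 + (21829632) * γ 3
       + (3472896) * γ 4 + (496128) * γ 5 + (62016) * γ 6 + (6528) * γ 7 + (544) * γ 8 + (32) * γ 9
       + (1) * γ 10 + (0) * γ 11 + (0) * γ 12 := by
  unfold Mat
  rw [show (25 / 2 + 1 : ℕ) = 13 from rfl]
  simp [sum_range_succ, Nat.choose]
  try ring

theorem m25_6 (γ : ℕ → ℝ) : Mat 25 γ 6 = (21300428800) * γ 0 + (5112102912) * γ 1 + (1171523584) * γ 2 + (254679040) * γ 3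
       + (52093440) * γ 4 + (9922560) * γ 5 + (1736448) * γ 6 + (274176) * γ 7 + (38080) * γ 8
       + (4480) * γ 9 + (420) * γ 10 + (28) * γ 11 + (1) * γ 12 := by
  unfold Mat
  rw [show (25 / 2 + 1 : ℕ) = 13 from rfl]
  simp [sum_range_succ, Nat.choose]
  try ring

theorem m25_7 (γ : ℕ → ℝ) : Mat 25 γ 7 = (73030041600) * γ 0 + (20448411648) * γ 1 + (5538111488) * γ 2 + (1444724736) * γ 3
       + (361181184) * γ 4 + (85995520) * γ 5 + (19348992) * γ 6 + (4073472) * γ 7 + (792064) * γ 8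
       + (139776) * γ 9 + (21840) * γ 10 + (2912) * γ 11 + (312) * γ 12 := by
  unfold Mat
  rw [show (25 / 2 + 1 : ℕ) = 13 from rfl]
  simp [sum_range_succ, Nat.choose]
  try ring

theorem m25_8 (γ : ℕ → ℝ) : Mat 25 γ 8 = (133888409600) * γ 0 + (42844291072) * γ 1 + (13388840960) * γ 2 + (4074864640) * γ 3
       + (1203937280) * γ 4 + (343982080) * γ 5 + (94595072) * γ 6 + (24893440) * γ 7
       + (6223360) * γ 8 + (1464320) * γ 9 + (320320) * γ 10 + (64064) * γ 11 + (11440) * γ 12 := by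
  unfold Mat
  rw [show (25 / 2 + 1 : ℕ) = 13 from rfl]
  simp [sum_range_succ, Nat.choose]
  try ring

theorem m25_9 (γ : ℕ → ℝ) : Mat 25 γ 9 = (126012620800) * γ 0 + (45364543488) * γ 1 + (16066609152) * γ 2 + (5588385792) * γ 3
       + (1905131520) * γ 4 + (635043840) * γ 5 + (206389248) * γ 6 + (65175552) * γ 7
       + (19914752) * γ 8 + (5857280) * γ 9 + (1647360) * γ 10 + (439296) * γ 11 + (109824) * γ 12 := by
  unfold Mat
  rw [show (25 / 2 + 1 : ℕ) = 13 from rfl]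
  simp [sum_range_succ, Nat.choose]
  try ring

theorem m25_10 (γ : ℕ → ℝ) : Mat 25 γ 10 = (55710842880) * γ 0 + (22284337152) * γ 1 + (8820883456) * γ 2 + (3451650048) * γ 3
       + (1333592064) * γ 4 + (508035072) * γ 5 + (190513152) * γ 6 + (70189056) * γ 7
       + (25346048) * γ 8 + (8945664) * γ 9 + (3075072) * γ 10 + (1025024) * γ 11 + (329472) * γ 12 := by
  unfold Mat
  rw [show (25 / 2 + 1 : ℕ) = 13 from rfl]
  simp [sum_range_succ, Nat.choose]
  try ring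

theorem m25_11 (γ : ℕ → ℝ) : Mat 25 γ 11 = (9646899200) * γ 0 + (4244635648) * γ 1 + (1857028096) * γ 2 + (807403520) * γ 3
       + (348651520) * γ 4 + (149422080) * γ 5 + (63504384) * γ 6 + (26738688) * γ 7
       + (11141120) * γ 8 + (4587520) * γ 9 + (1863680) * γ 10 + (745472) * γ 11 + (292864) * γ 12 := by
  unfold Mat
  rw [show (25 / 2 + 1 : ℕ) = 13 from rfl]
  simp [sum_range_succ, Nat.choose]
  try ring

theorem m25_12 (γ : ℕ → ℝ) : Mat 25 γ 12 = (419430400) * γ 0 + (201326592) * γ 1 + (96468992) * γ 2 + (46137344) * γ 3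
       + (22020096) * γ 4 + (10485760) * γ 5 + (4980736) * γ 6 + (2359296) * γ 7 + (1114112) * γ 8
       + (524288) * γ 9 + (245760) * γ 10 + (114688) * γ 11 + (53248) * γ 12 := by
  unfold Mat
  rw [show (25 / 2 + 1 : ℕ) = 13 from rfl]
  simp [sum_range_succ, Nat.choose]
  try ring

theorem mm25_0 (γ : ℕ → ℝ) : Mat 25 (Mat 25 γ) 0 =
      (1) * γ 0 + (0) * γ 1 + (0) * γ 2 + (0) * γ 3 + (0) * γ 4 + (0) * γ 5 + (0) * γ 6 + (0) * γ 7
       + (0) * γ 8 + (0) * γ 9 + (0) * γ 10 + (0) * γ 11 + (0) * γ 12 := by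
  rw [m25_0]
  simp only [m25_0, m25_1, m25_2, m25_3, m25_4, m25_5, m25_6, m25_7, m25_8, m25_9, m25_10, m25_11, m25_12]
  ring

theorem mm25_1 (γ : ℕ → ℝ) : Mat 25 (Mat 25 γ) 1 =
      (261200) * γ 0 + (18496) * γ 1 + (1060) * γ 2 + (44) * γ 3 + (1) * γ 4 + (0) * γ 5
       + (0) * γ 6 + (0) * γ 7 + (0) * γ 8 + (0) * γ 9 + (0) * γ 10 + (0) * γ 11 + (0) * γ 12 := by
  rw [m25_1]
  simp only [m25_0, m25_1, m25_2, m25_3, m25_4, m25_5, m25_6, m25_7, m25_8, m25_9, m25_10, m25_11, m25_12]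
  ring

theorem mm25_2 (γ : ℕ → ℝ) : Mat 25 (Mat 25 γ) 2 =
      (1000058400) * γ 0 + (121310464) * γ 1 + (13734864) * γ 2 + (1429296) * γ 3 + (133732) * γ 4
       + (10880) * γ 5 + (728) * γ 6 + (36) * γ 7 + (1) * γ 8 + (0) * γ 9 + (0) * γ 10 + (0) * γ 11
       + (0) * γ 12 := by
  rw [m25_2]
  simp only [m25_0, m25_1, m25_2, m25_3, m25_4, m25_5, m25_6, m25_7, m25_8, m25_9, m25_10, m25_11, m25_12]
  ring

theorem mm25_3 (γ : ℕ → ℝ) : Mat 25 (Mat 25 γ) 3 =
      (557730054400) * γ 0 + (88219032576) * γ 1 + (13509487552) * γ 2 + (1993738560) * γ 3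
       + (281938160) * γ 4 + (37921280) * γ 5 + (4803968) * γ 6 + (565536) * γ 7 + (60680) * γ 8
       + (5760) * γ 9 + (460) * γ 10 + (28) * γ 11 + (1) * γ 12 := by
  rw [m25_3]
  simp only [m25_0, m25_1, m25_2, m25_3, m25_4, m25_5, m25_6, m25_7, m25_8, m25_9, m25_10, m25_11, m25_12]
  ring

theorem mm25_4 (γ : ℕ → ℝ) : Mat 25 (Mat 25 γ) 4 =
      (85285784211200) * γ 0 + (15876170788864) * γ 1 + (2903471182592) * γ 2
       + (520733648128) * γ 3 + (91395480512) * γ 4 + (15658577920) * γ 5 + (2610817664) * γ 6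
       + (422057536) * γ 7 + (65841424) * γ 8 + (9852416) * γ 9 + (1402960) * γ 10
       + (188048) * γ 11 + (23356) * γ 12 := by
  rw [m25_4]
  simp only [m25_0, m25_1, m25_2, m25_3, m25_4, m25_5, m25_6, m25_7, m25_8, m25_9, m25_10, m25_11, m25_12]
  ring

theorem mm25_5 (γ : ℕ → ℝ) : Mat 25 (Mat 25 γ) 5 =
      (4770499977584640) * γ 0 + (993039096119296) * γ 1 + (204544195323904) * γ 2
       + (41655668193280) * γ 3 + (8379685104128) * γ 4 + (1663380914176) * γ 5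
       + (325417631744) * γ 6 + (62656509952) * γ 7 + (11853655552) * γ 8 + (2199134208) * γ 9
       + (399159040) * γ 10 + (70679296) * γ 11 + (12165952) * γ 12 := by
  rw [m25_5]
  simp only [m25_0, m25_1, m25_2, m25_3, m25_4, m25_5, m25_6, m25_7, m25_8, m25_9, m25_10, m25_11, m25_12]
  ring

theorem mm25_6 (γ : ℕ → ℝ) : Mat 25 (Mat 25 γ) 6 =
      (113463447053516800) * γ 0 + (25643584231440384) * γ 1 + (5757601833820160) * γ 2
       + (1283718462038016) * γ 3 + (284099164432384) * γ 4 + (62377459384320) * γ 5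
       + (13580127760384) * γ 6 + (2929749575680) * γ 7 + (625900888576) * γ 8
       + (132308107264) * γ 9 + (27649152000) * γ 10 + (5706122240) * γ 11 + (1161557760) * γ 12 := by
  rw [m25_6]
  simp only [m25_0, m25_1, m25_2, m25_3, m25_4, m25_5, m25_6, m25_7, m25_8, m25_9, m25_10, m25_11, m25_12]
  ring

theorem mm25_7 (γ : ℕ → ℝ) : Mat 25 (Mat 25 γ) 7 =
      (1239905032932556800) * γ 0 + (298610961289838592) * γ 1 + (71613728036978688) * γ 2
       + (17098910147444736) * γ 3 + (4063711143518208) * γ 4 + (961062008258560) * γ 5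
       + (226118587056128) * γ 6 + (52911288401920) * γ 7 + (12309654908928) * γ 8
       + (2846247026688) * γ 9 + (653815818240) * γ 10 + (149142669312) * γ 11
       + (33767345664) * γ 12 := by
  rw [m25_7]
  simp only [m25_0, m25_1, m25_2, m25_3, m25_4, m25_5, m25_6, m25_7, m25_8, m25_9, m25_10, m25_11, m25_12]
  ring

theorem mm25_8 (γ : ℕ → ℝ) : Mat 25 (Mat 25 γ) 8 =
      (6402789184279347200) * γ 0 + (1622460312796004352) * γ 1 + (410024664617058304) * γ 2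
       + (103330308361420800) * γ 3 + (25964185568378880) * γ 4 + (6504209679646720) * γ 5
       + (1624151943872512) * γ 6 + (404208925179904) * γ 7 + (100244823777280) * γ 8
       + (24769589411840) * γ 9 + (6096688865280) * γ 10 + (1494507249664) * γ 11
       + (364781733888) * γ 12 := by
  rw [m25_8]
  simp only [m25_0, m25_1, m25_2, m25_3, m25_4, m25_5, m25_6, m25_7, m25_8, m25_9, m25_10, m25_11, m25_12]
  ring

theorem mm25_9 (γ : ℕ → ℝ) : Mat 25 (Mat 25 γ) 9 =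
      (15376229755125760000) * γ 0 + (4062751067299905536) * γ 1 + (1071666292583563264) * γ 2
       + (282190033767366656) * γ 3 + (74171782743261184) * γ 4 + (19459032712478720) * γ 5
       + (5095161994412032) * γ 6 + (1331422006083584) * γ 7 + (347183500886016) * γ 8
       + (90333809475584) * γ 9 + (23450342850560) * γ 10 + (6073130352640) * γ 11
       + (1568896729088) * γ 12 := by
  rw [m25_9]
  simp only [m25_0, m25_1, m25_2, m25_3, m25_4, m25_5, m25_6, m25_7, m25_8, m25_9, m25_10, m25_11, m25_12]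
  ring

theorem mm25_10 (γ : ℕ → ℝ) : Mat 25 (Mat 25 γ) 10 =
      (15996755437284229120) * γ 0 + (4377888597513076736) * γ 1 + (1196928846332428288) * γ 2
       + (326910922921607168) * γ 3 + (89193659092959232) * γ 4 + (24309008936468480) * γ 5
       + (6617801887842304) * γ 6 + (1799522184593408) * γ 7 + (488742837878784) * γ 8
       + (132576102580224) * γ 9 + (35916383256576) * γ 10 + (9717224308736) * γ 11
       + (2625383366656) * γ 12 := by
  rw [m25_10]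
  simp only [m25_0, m25_1, m25_2, m25_3, m25_4, m25_5, m25_6, m25_7, m25_8, m25_9, m25_10, m25_11, m25_12]
  ring

theorem mm25_11 (γ : ℕ → ℝ) : Mat 25 (Mat 25 γ) 11 =
      (6092507140902092800) * γ 0 + (1718206463907725312) * γ 1 + (484327506313216000) * γ 2
       + (136452509278404608) * γ 3 + (38423453454303232) * γ 4 + (10813775544320000) * γ 5
       + (3041709386629120) * γ 6 + (855087440199680) * γ 7 + (240241756078080) * γ 8
       + (67456529858560) * γ 9 + (18929060413440) * γ 10 + (5308298297344) * γ 11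
       + (1487626895360) * γ 12 := by
  rw [m25_11]
  simp only [m25_0, m25_1, m25_2, m25_3, m25_4, m25_5, m25_6, m25_7, m25_8, m25_9, m25_10, m25_11, m25_12]
  ring

theorem mm25_12 (γ : ℕ → ℝ) : Mat 25 (Mat 25 γ) 12 =
      (550182844786278400) * γ 0 + (159256895293489152) * γ 1 + (46092303063842816) * γ 2
       + (13338164299038720) * γ 3 + (3859221267349504) * γ 4 + (1116445878517760) * γ 5
       + (322930009440256) * γ 6 + (93392105111552) * γ 7 + (27004813443072) * γ 8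
       + (7807277465600) * γ 9 + (2256750510080) * γ 10 + (652215320576) * γ 11
       + (188460302336) * γ 12 := by
  rw [m25_12]
  simp only [m25_0, m25_1, m25_2, m25_3, m25_4, m25_5, m25_6, m25_7, m25_8, m25_9, m25_10, m25_11, m25_12]
  ring

theorem p25_0 (γ : ℕ → ℝ) (h0 : γ 0 = 1)
    (h : ∀ n < 25, 2 * (((25 : ℕ) : ℝ) - ((n : ℕ) : ℝ)) * ∑ i ∈ range (25 / 2 + 1), γ i * (cfn 25 i n : ℝ) ≤
      ((n : ℝ) + 1) * ∑ i ∈ range (25 / 2 + 1), γ i * (cfn 25 i (n + 1) : ℝ)) :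
    0 < Mat 25 (Mat 25 (Mat 25 γ)) 0 := by

  rw [m25_0]
  simp only [mm25_0, mm25_1, mm25_2, mm25_3, mm25_4, mm25_5, mm25_6, mm25_7, mm25_8, mm25_9, mm25_10, mm25_11, mm25_12]
  linarith only [h0]

theorem p25_1 (γ : ℕ → ℝ) (h0 : γ 0 = 1)
    (h : ∀ n < 25, 2 * (((25 : ℕ) : ℝ) - ((n : ℕ) : ℝ)) * ∑ i ∈ range (25 / 2 + 1), γ i * (cfn 25 i n : ℝ) ≤
      ((n : ℝ) + 1) * ∑ i ∈ range (25 / 2 + 1), γ i * (cfn 25 i (n + 1) : ℝ)) :
    0 < Mat 25 (Mat 25 (Mat 25 γ)) 1 := by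
  have k0 := q25_0 γ h0 h
  have k1 := q25_1 γ h0 h
  have k4 := q25_4 γ h0 h
  have k6 := q25_6 γ h0 h
  have k3 := q25_3 γ h0 h
  have k7 := q25_7 γ h0 h
  have k2 := q25_2 γ h0 h
  have k5 := q25_5 γ h0 h
  rw [m25_1]
  simp only [mm25_0, mm25_1, mm25_2, mm25_3, mm25_4, mm25_5, mm25_6, mm25_7, mm25_8, mm25_9, mm25_10, mm25_11, mm25_12]
  linarith only [h0, k0, k1, k4, k6, k3, k7, k2, k5]

theorem p25_2 (γ : ℕ → ℝ) (h0 : γ 0 = 1)
    (h : ∀ n < 25, 2 * (((25 : ℕ) : ℝ) - ((n : ℕ) : ℝ)) * ∑ i ∈ range (25 / 2 + 1), γ i * (cfn 25 i n : ℝ) ≤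
      ((n : ℝ) + 1) * ∑ i ∈ range (25 / 2 + 1), γ i * (cfn 25 i (n + 1) : ℝ)) :
    0 < Mat 25 (Mat 25 (Mat 25 γ)) 2 := by
  have k3 := q25_3 γ h0 h
  have k0 := q25_0 γ h0 h
  have k10 := q25_10 γ h0 h
  have k9 := q25_9 γ h0 h
  have k2 := q25_2 γ h0 h
  have k1 := q25_1 γ h0 h
  have k12 := q25_12 γ h0 h
  have k7 := q25_7 γ h0 h
  have k4 := q25_4 γ h0 h
  have k6 := q25_6 γ h0 h
  have k13 := q25_13 γ h0 h
  have k5 := q25_5 γ h0 h
  rw [m25_2]
  simp only [mm25_0, mm25_1, mm25_2, mm25_3, mm25_4, mm25_5, mm25_6, mm25_7, mm25_8, mm25_9, mm25_10, mm25_11, mm25_12]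
  linarith only [h0, k3, k0, k10, k9, k2, k1, k12, k7, k4, k6, k13, k5]

theorem p25_3 (γ : ℕ → ℝ) (h0 : γ 0 = 1)
    (h : ∀ n < 25, 2 * (((25 : ℕ) : ℝ) - ((n : ℕ) : ℝ)) * ∑ i ∈ range (25 / 2 + 1), γ i * (cfn 25 i n : ℝ) ≤
      ((n : ℝ) + 1) * ∑ i ∈ range (25 / 2 + 1), γ i * (cfn 25 i (n + 1) : ℝ)) :
    0 < Mat 25 (Mat 25 (Mat 25 γ)) 3 := by
  have k14 := q25_14 γ h0 h
  have k0 := q25_0 γ h0 h
  have k3 := q25_3 γ h0 h
  have k11 := q25_11 γ h0 h
  have k10 := q25_10 γ h0 h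
  have k1 := q25_1 γ h0 h
  have k2 := q25_2 γ h0 h
  have k7 := q25_7 γ h0 h
  have k4 := q25_4 γ h0 h
  have k5 := q25_5 γ h0 h
  have k15 := q25_15 γ h0 h
  have k8 := q25_8 γ h0 h
  rw [m25_3]
  simp only [mm25_0, mm25_1, mm25_2, mm25_3, mm25_4, mm25_5, mm25_6, mm25_7, mm25_8, mm25_9, mm25_10, mm25_11, mm25_12]
  linarith only [h0, k14, k0, k3, k11, k10, k1, k2, k7, k4, k5, k15, k8]

theorem p25_4 (γ : ℕ → ℝ) (h0 : γ 0 = 1)
    (h : ∀ n < 25, 2 * (((25 : ℕ) : ℝ) - ((n : ℕ) : ℝ)) * ∑ i ∈ range (25 / 2 + 1), γ i * (cfn 25 i n : ℝ) ≤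
      ((n : ℝ) + 1) * ∑ i ∈ range (25 / 2 + 1), γ i * (cfn 25 i (n + 1) : ℝ)) :
    0 < Mat 25 (Mat 25 (Mat 25 γ)) 4 := by
  have k3 := q25_3 γ h0 h
  have k0 := q25_0 γ h0 h
  have k1 := q25_1 γ h0 h
  have k11 := q25_11 γ h0 h
  have k5 := q25_5 γ h0 h
  have k2 := q25_2 γ h0 h
  have k4 := q25_4 γ h0 h
  have k15 := q25_15 γ h0 h
  have k8 := q25_8 γ h0 h
  have k16 := q25_16 γ h0 h
  have k7 := q25_7 γ h0 h
  have k12 := q25_12 γ h0 h
  rw [m25_4]
  simp only [mm25_0, mm25_1, mm25_2, mm25_3, mm25_4, mm25_5, mm25_6, mm25_7, mm25_8, mm25_9, mm25_10, mm25_11, mm25_12]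
  linarith only [h0, k3, k0, k1, k11, k5, k2, k4, k15, k8, k16, k7, k12]

theorem p25_5 (γ : ℕ → ℝ) (h0 : γ 0 = 1)
    (h : ∀ n < 25, 2 * (((25 : ℕ) : ℝ) - ((n : ℕ) : ℝ)) * ∑ i ∈ range (25 / 2 + 1), γ i * (cfn 25 i n : ℝ) ≤
      ((n : ℝ) + 1) * ∑ i ∈ range (25 / 2 + 1), γ i * (cfn 25 i (n + 1) : ℝ)) :
    0 < Mat 25 (Mat 25 (Mat 25 γ)) 5 := by
  have k0 := q25_0 γ h0 h
  have k3 := q25_3 γ h0 h
  have k5 := q25_5 γ h0 h
  have k7 := q25_7 γ h0 h
  have k1 := q25_1 γ h0 h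
  have k2 := q25_2 γ h0 h
  have k4 := q25_4 γ h0 h
  have k16 := q25_16 γ h0 h
  have k17 := q25_17 γ h0 h
  have k11 := q25_11 γ h0 h
  have k12 := q25_12 γ h0 h
  have k8 := q25_8 γ h0 h
  rw [m25_5]
  simp only [mm25_0, mm25_1, mm25_2, mm25_3, mm25_4, mm25_5, mm25_6, mm25_7, mm25_8, mm25_9, mm25_10, mm25_11, mm25_12]
  linarith only [h0, k0, k3, k5, k7, k1, k2, k4, k16, k17, k11, k12, k8]

theorem p25_6 (γ : ℕ → ℝ) (h0 : γ 0 = 1)
    (h : ∀ n < 25, 2 * (((25 : ℕ) : ℝ) - ((n : ℕ) : ℝ)) * ∑ i ∈ range (25 / 2 + 1), γ i * (cfn 25 i n : ℝ) ≤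
      ((n : ℝ) + 1) * ∑ i ∈ range (25 / 2 + 1), γ i * (cfn 25 i (n + 1) : ℝ)) :
    0 < Mat 25 (Mat 25 (Mat 25 γ)) 6 := by
  have k0 := q25_0 γ h0 h
  have k4 := q25_4 γ h0 h
  have k2 := q25_2 γ h0 h
  have k1 := q25_1 γ h0 h
  have k11 := q25_11 γ h0 h
  have k17 := q25_17 γ h0 h
  have k16 := q25_16 γ h0 h
  have k3 := q25_3 γ h0 h
  have k5 := q25_5 γ h0 h
  have k7 := q25_7 γ h0 h
  have k12 := q25_12 γ h0 h
  have k8 := q25_8 γ h0 h
  rw [m25_6]
  simp only [mm25_0, mm25_1, mm25_2, mm25_3, mm25_4, mm25_5, mm25_6, mm25_7, mm25_8, mm25_9, mm25_10, mm25_11, mm25_12]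
  linarith only [h0, k0, k4, k2, k1, k11, k17, k16, k3, k5, k7, k12, k8]

theorem p25_7 (γ : ℕ → ℝ) (h0 : γ 0 = 1)
    (h : ∀ n < 25, 2 * (((25 : ℕ) : ℝ) - ((n : ℕ) : ℝ)) * ∑ i ∈ range (25 / 2 + 1), γ i * (cfn 25 i n : ℝ) ≤
      ((n : ℝ) + 1) * ∑ i ∈ range (25 / 2 + 1), γ i * (cfn 25 i (n + 1) : ℝ)) :
    0 < Mat 25 (Mat 25 (Mat 25 γ)) 7 := by
  have k3 := q25_3 γ h0 h
  have k12 := q25_12 γ h0 h
  have k0 := q25_0 γ h0 h
  have k4 := q25_4 γ h0 h
  have k11 := q25_11 γ h0 h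
  have k1 := q25_1 γ h0 h
  have k2 := q25_2 γ h0 h
  have k17 := q25_17 γ h0 h
  have k5 := q25_5 γ h0 h
  have k7 := q25_7 γ h0 h
  have k18 := q25_18 γ h0 h
  have k8 := q25_8 γ h0 h
  rw [m25_7]
  simp only [mm25_0, mm25_1, mm25_2, mm25_3, mm25_4, mm25_5, mm25_6, mm25_7, mm25_8, mm25_9, mm25_10, mm25_11, mm25_12]
  linarith only [h0, k3, k12, k0, k4, k11, k1, k2, k17, k5, k7, k18, k8]

theorem p25_8 (γ : ℕ → ℝ) (h0 : γ 0 = 1)
    (h : ∀ n < 25, 2 * (((25 : ℕ) : ℝ) - ((n : ℕ) : ℝ)) * ∑ i ∈ range (25 / 2 + 1), γ i * (cfn 25 i n : ℝ) ≤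
      ((n : ℝ) + 1) * ∑ i ∈ range (25 / 2 + 1), γ i * (cfn 25 i (n + 1) : ℝ)) :
    0 < Mat 25 (Mat 25 (Mat 25 γ)) 8 := by
  have k18 := q25_18 γ h0 h
  have k17 := q25_17 γ h0 h
  have k0 := q25_0 γ h0 h
  have k5 := q25_5 γ h0 h
  have k3 := q25_3 γ h0 h
  have k1 := q25_1 γ h0 h
  have k2 := q25_2 γ h0 h
  have k4 := q25_4 γ h0 h
  have k11 := q25_11 γ h0 h
  have k7 := q25_7 γ h0 h
  have k12 := q25_12 γ h0 h
  have k8 := q25_8 γ h0 h
  rw [m25_8]
  simp only [mm25_0, mm25_1, mm25_2, mm25_3, mm25_4, mm25_5, mm25_6, mm25_7, mm25_8, mm25_9, mm25_10, mm25_11, mm25_12]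
  linarith only [h0, k18, k17, k0, k5, k3, k1, k2, k4, k11, k7, k12, k8]

theorem p25_9 (γ : ℕ → ℝ) (h0 : γ 0 = 1)
    (h : ∀ n < 25, 2 * (((25 : ℕ) : ℝ) - ((n : ℕ) : ℝ)) * ∑ i ∈ range (25 / 2 + 1), γ i * (cfn 25 i n : ℝ) ≤
      ((n : ℝ) + 1) * ∑ i ∈ range (25 / 2 + 1), γ i * (cfn 25 i (n + 1) : ℝ)) :
    0 < Mat 25 (Mat 25 (Mat 25 γ)) 9 := by
  have k3 := q25_3 γ h0 h
  have k0 := q25_0 γ h0 h
  have k18 := q25_18 γ h0 h
  have k5 := q25_5 γ h0 h
  have k2 := q25_2 γ h0 h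
  have k1 := q25_1 γ h0 h
  have k17 := q25_17 γ h0 h
  have k4 := q25_4 γ h0 h
  have k11 := q25_11 γ h0 h
  have k7 := q25_7 γ h0 h
  have k12 := q25_12 γ h0 h
  have k8 := q25_8 γ h0 h
  rw [m25_9]
  simp only [mm25_0, mm25_1, mm25_2, mm25_3, mm25_4, mm25_5, mm25_6, mm25_7, mm25_8, mm25_9, mm25_10, mm25_11, mm25_12]
  linarith only [h0, k3, k0, k18, k5, k2, k1, k17, k4, k11, k7, k12, k8]

theorem p25_10 (γ : ℕ → ℝ) (h0 : γ 0 = 1)
    (h : ∀ n < 25, 2 * (((25 : ℕ) : ℝ) - ((n : ℕ) : ℝ)) * ∑ i ∈ range (25 / 2 + 1), γ i * (cfn 25 i n : ℝ) ≤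
      ((n : ℝ) + 1) * ∑ i ∈ range (25 / 2 + 1), γ i * (cfn 25 i (n + 1) : ℝ)) :
    0 < Mat 25 (Mat 25 (Mat 25 γ)) 10 := by
  have k0 := q25_0 γ h0 h
  have k4 := q25_4 γ h0 h
  have k5 := q25_5 γ h0 h
  have k3 := q25_3 γ h0 h
  have k2 := q25_2 γ h0 h
  have k1 := q25_1 γ h0 h
  have k12 := q25_12 γ h0 h
  have k18 := q25_18 γ h0 h
  have k11 := q25_11 γ h0 h
  have k7 := q25_7 γ h0 h
  have k19 := q25_19 γ h0 h
  have k8 := q25_8 γ h0 h
  rw [m25_10]
  simp only [mm25_0, mm25_1, mm25_2, mm25_3, mm25_4, mm25_5, mm25_6, mm25_7, mm25_8, mm25_9, mm25_10, mm25_11, mm25_12]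
  linarith only [h0, k0, k4, k5, k3, k2, k1, k12, k18, k11, k7, k19, k8]

theorem p25_11 (γ : ℕ → ℝ) (h0 : γ 0 = 1)
    (h : ∀ n < 25, 2 * (((25 : ℕ) : ℝ) - ((n : ℕ) : ℝ)) * ∑ i ∈ range (25 / 2 + 1), γ i * (cfn 25 i n : ℝ) ≤
      ((n : ℝ) + 1) * ∑ i ∈ range (25 / 2 + 1), γ i * (cfn 25 i (n + 1) : ℝ)) :
    0 < Mat 25 (Mat 25 (Mat 25 γ)) 11 := by
  have k0 := q25_0 γ h0 h
  have k19 := q25_19 γ h0 h
  have k1 := q25_1 γ h0 h
  have k3 := q25_3 γ h0 h
  have k18 := q25_18 γ h0 h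
  have k2 := q25_2 γ h0 h
  have k5 := q25_5 γ h0 h
  have k4 := q25_4 γ h0 h
  have k8 := q25_8 γ h0 h
  have k7 := q25_7 γ h0 h
  have k12 := q25_12 γ h0 h
  have k13 := q25_13 γ h0 h
  rw [m25_11]
  simp only [mm25_0, mm25_1, mm25_2, mm25_3, mm25_4, mm25_5, mm25_6, mm25_7, mm25_8, mm25_9, mm25_10, mm25_11, mm25_12]
  linarith only [h0, k0, k19, k1, k3, k18, k2, k5, k4, k8, k7, k12, k13]

theorem p25_12 (γ : ℕ → ℝ) (h0 : γ 0 = 1)
    (h : ∀ n < 25, 2 * (((25 : ℕ) : ℝ) - ((n : ℕ) : ℝ)) * ∑ i ∈ range (25 / 2 + 1), γ i * (cfn 25 i n : ℝ) ≤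
      ((n : ℝ) + 1) * ∑ i ∈ range (25 / 2 + 1), γ i * (cfn 25 i (n + 1) : ℝ)) :
    0 < Mat 25 (Mat 25 (Mat 25 γ)) 12 := by
  have k0 := q25_0 γ h0 h
  have k18 := q25_18 γ h0 h
  have k3 := q25_3 γ h0 h
  have k1 := q25_1 γ h0 h
  have k8 := q25_8 γ h0 h
  have k2 := q25_2 γ h0 h
  have k19 := q25_19 γ h0 h
  have k4 := q25_4 γ h0 h
  have k5 := q25_5 γ h0 h
  have k7 := q25_7 γ h0 h
  have k12 := q25_12 γ h0 h
  have k13 := q25_13 γ h0 h
  rw [m25_12]
  simp only [mm25_0, mm25_1, mm25_2, mm25_3, mm25_4, mm25_5, mm25_6, mm25_7, mm25_8, mm25_9, mm25_10, mm25_11, mm25_12]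
  linarith only [h0, k0, k18, k3, k1, k8, k2, k19, k4, k5, k7, k12, k13]

theorem main25 (γ : ℕ → ℝ) (h0 : γ 0 = 1)
    (h : ∀ n < 25, 2 * (((25 : ℕ) : ℝ) - ((n : ℕ) : ℝ)) * ∑ i ∈ range (25 / 2 + 1), γ i * (cfn 25 i n : ℝ) ≤
      ((n : ℝ) + 1) * ∑ i ∈ range (25 / 2 + 1), γ i * (cfn 25 i (n + 1) : ℝ)) :
    ∀ j ≤ 25 / 2, 0 < Mat 25 (Mat 25 (Mat 25 γ)) j := by
  intro j hj
  have hj' : j ≤ 12 := hj
  clear hj
  interval_cases j
  · exact p25_0 γ h0 h
  · exact p25_1 γ h0 h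
  · exact p25_2 γ h0 h
  · exact p25_3 γ h0 h
  · exact p25_4 γ h0 h
  · exact p25_5 γ h0 h
  · exact p25_6 γ h0 h
  · exact p25_7 γ h0 h
  · exact p25_8 γ h0 h
  · exact p25_9 γ h0 h
  · exact p25_10 γ h0 h
  · exact p25_11 γ h0 h
  · exact p25_12 γ h0 h

theorem c26_0 (γ : ℕ → ℝ) : ∑ i ∈ range (26 / 2 + 1), γ i * (cfn 26 i 0 : ℝ) =
    (1) * γ 0 + (0) * γ 1 + (0) * γ 2 + (0) * γ 3 + (0) * γ 4 + (0) * γ 5 + (0) * γ 6 + (0) * γ 7
       + (0) * γ 8 + (0) * γ 9 + (0) * γ 10 + (0) * γ 11 + (0) * γ 12 + (0) * γ 13 := by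
  have h : ((26 / 2 + 1 : ℕ)) = 14 := rfl
  rw [h]
  simp only [sum_range_succ, sum_range_zero, show cfn 26 0 0 = 1 from by decide +kernel, show cfn 26 1 0 = 0 from by decide +kernel, show cfn 26 2 0 = 0 from by decide +kernel, show cfn 26 3 0 = 0 from by decide +kernel, show cfn 26 4 0 = 0 from by decide +kernel, show cfn 26 5 0 = 0 from by decide +kernel, show cfn 26 6 0 = 0 from by decide +kernel, show cfn 26 7 0 = 0 from by decide +kernel, show cfn 26 8 0 = 0 from by decide +kernel, show cfn 26 9 0 = 0 from by decide +kernel, show cfn 26 10 0 = 0 from by decide +kernel, show cfn 26 11 0 = 0 from by decide +kernel, show cfn 26 12 0 = 0 from by decide +kernel, show cfn 26 13 0 = 0 from by decide +kernel, Nat.cast_ofNat, Nat.cast_one, Nat.cast_zero]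
  ring

theorem c26_1 (γ : ℕ → ℝ) : ∑ i ∈ range (26 / 2 + 1), γ i * (cfn 26 i 1 : ℝ) =
    (52) * γ 0 + (1) * γ 1 + (0) * γ 2 + (0) * γ 3 + (0) * γ 4 + (0) * γ 5 + (0) * γ 6
       + (0) * γ 7 + (0) * γ 8 + (0) * γ 9 + (0) * γ 10 + (0) * γ 11 + (0) * γ 12 + (0) * γ 13 := by
  have h : ((26 / 2 + 1 : ℕ)) = 14 := rfl
  rw [h]
  simp only [sum_range_succ, sum_range_zero, show cfn 26 0 1 = 52 from by decide +kernel, show cfn 26 1 1 = 1 from by decide +kernel, show cfn 26 2 1 = 0 from by decide +kernel, show cfn 26 3 1 = 0 from by decide +kernel, show cfn 26 4 1 = 0 from by decide +kernel, show cfn 26 5 1 = 0 from by decide +kernel, show cfn 26 6 1 = 0 from by decide +kernel, show cfn 26 7 1 = 0 from by decide +kernel, show cfn 26 8 1 = 0 from by decide +kernel, show cfn 26 9 1 = 0 from by decide +kernel, show cfn 26 10 1 = 0 from by decide +kernel, show cfn 26 11 1 = 0 from by decide +kernel, show cfn 26 12 1 = 0 from by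 decide +kernel, show cfn 26 13 1 = 0 from by decide +kernel, Nat.cast_ofNat, Nat.cast_one, Nat.cast_zero]
  ring

theorem c26_2 (γ : ℕ → ℝ) : ∑ i ∈ range (26 / 2 + 1), γ i * (cfn 26 i 2 : ℝ) =
    (1300) * γ 0 + (49) * γ 1 + (1) * γ 2 + (0) * γ 3 + (0) * γ 4 + (0) * γ 5 + (0) * γ 6
       + (0) * γ 7 + (0) * γ 8 + (0) * γ 9 + (0) * γ 10 + (0) * γ 11 + (0) * γ 12 + (0) * γ 13 := by
  have h : ((26 / 2 + 1 : ℕ)) = 14 := rfl
  rw [h]
  simp only [sum_range_succ, sum_range_zero, show cfn 26 0 2 = 1300 from by decide +kernel, show cfn 26 1 2 = 49 from by decide +kernel, show cfn 26 2 2 = 1 from by decide +kernel, show cfn 26 3 2 = 0 from by decide +kernel, show cfn 26 4 2 = 0 from by decide +kernel, show cfn 26 5 2 = 0 from by decide +kernel, show cfn 26 6 2 = 0 from by decide +kernel, show cfn 26 7 2 = 0 from by decide +kernel, show cfn 26 8 2 = 0 from by decide +kernel, show cfn 26 9 2 = 0 from by decide +kernel, show cfn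 26 10 2 = 0 from by decide +kernel, show cfn 26 11 2 = 0 from by decide +kernel, show cfn 26 12 2 = 0 from by decide +kernel, show cfn 26 13 2 = 0 from by decide +kernel, Nat.cast_ofNat, Nat.cast_one, Nat.cast_zero]
  ring

theorem c26_3 (γ : ℕ → ℝ) : ∑ i ∈ range (26 / 2 + 1), γ i * (cfn 26 i 3 : ℝ) =
    (20800) * γ 0 + (1152) * γ 1 + (46) * γ 2 + (1) * γ 3 + (0) * γ 4 + (0) * γ 5 + (0) * γ 6
       + (0) * γ 7 + (0) * γ 8 + (0) * γ 9 + (0) * γ 10 + (0) * γ 11 + (0) * γ 12 + (0) * γ 13 := by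
  have h : ((26 / 2 + 1 : ℕ)) = 14 := rfl
  rw [h]
  simp only [sum_range_succ, sum_range_zero, show cfn 26 0 3 = 20800 from by decide +kernel, show cfn 26 1 3 = 1152 from by decide +kernel, show cfn 26 2 3 = 46 from by decide +kernel, show cfn 26 3 3 = 1 from by decide +kernel, show cfn 26 4 3 = 0 from by decide +kernel, show cfn 26 5 3 = 0 from by decide +kernel, show cfn 26 6 3 = 0 from by decide +kernel, show cfn 26 7 3 = 0 from by decide +kernel, show cfn 26 8 3 = 0 from by decide +kernel, show cfn 26 9 3 = 0 from by decide +kernel, show cfn 26 10 3 = 0 from by decide +kernel, show cfn 26 11 3 = 0 from by decide +kernel, show cfn 26 12 3 = 0 from by decide +kernel, show cfn 26 13 3 = 0 from by decide +kernel, Nat.cast_ofNat, Nat.cast_one, Nat.cast_zero]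
  ring

theorem c26_4 (γ : ℕ → ℝ) : ∑ i ∈ range (26 / 2 + 1), γ i * (cfn 26 i 4 : ℝ) =
    (239200) * γ 0 + (17296) * γ 1 + (1013) * γ 2 + (43) * γ 3 + (1) * γ 4 + (0) * γ 5
       + (0) * γ 6 + (0) * γ 7 + (0) * γ 8 + (0) * γ 9 + (0) * γ 10 + (0) * γ 11 + (0) * γ 12
       + (0) * γ 13 := by
  have h : ((26 / 2 + 1 : ℕ)) = 14 := rfl
  rw [h]
  simp only [sum_range_succ, sum_range_zero, show cfn 26 0 4 = 239200 from by decide +kernel, show cfn 26 1 4 = 17296 from by decide +kernel, show cfn 26 2 4 = 1013 from by decide +kernel, show cfn 26 3 4 = 43 from by decide +kernel, show cfn 26 4 4 = 1 from by decide +kernel, show cfn 26 5 4 = 0 from by decide +kernel, show cfn 26 6 4 = 0 from by decide +kernel, show cfn 26 7 4 = 0 from by decide +kernel, show cfn 26 8 4 = 0 from by decide +kernel, show cfn 26 9 4 = 0 from by decide +kernel, show cfn 26 10 4 = 0 from by decide +kernel, show cfn 26 11 4 = 0 from by decide +kernel,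 show cfn 26 12 4 = 0 from by decide +kernel, show cfn 26 13 4 = 0 from by decide +kernel, Nat.cast_ofNat, Nat.cast_one, Nat.cast_zero]
  ring

theorem c26_5 (γ : ℕ → ℝ) : ∑ i ∈ range (26 / 2 + 1), γ i * (cfn 26 i 5 : ℝ) =
    (2104960) * γ 0 + (186208) * γ 1 + (14212) * γ 2 + (883) * γ 3 + (40) * γ 4 + (1) * γ 5
       + (0) * γ 6 + (0) * γ 7 + (0) * γ 8 + (0) * γ 9 + (0) * γ 10 + (0) * γ 11 + (0) * γ 12
       + (0) * γ 13 := by
  have h : ((26 / 2 + 1 : ℕ)) = 14 := rfl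
  rw [h]
  simp only [sum_range_succ, sum_range_zero, show cfn 26 0 5 = 2104960 from by decide +kernel, show cfn 26 1 5 = 186208 from by decide +kernel, show cfn 26 2 5 = 14212 from by decide +kernel, show cfn 26 3 5 = 883 from by decide +kernel, show cfn 26 4 5 = 40 from by decide +kernel, show cfn 26 5 5 = 1 from by decide +kernel, show cfn 26 6 5 = 0 from by decide +kernel, show cfn 26 7 5 = 0 from by decide +kernel, show cfn 26 8 5 = 0 from by decide +kernel, show cfn 26 9 5 = 0 from by decide +kernel, show cfn 26 10 5 = 0 from by decide +kernel, show cfn 26 11 5 = 0 from by decide +kernel, show cfn 26 12 5 = 0 from by decide +kernel, show cfn 26 13 5 = 0 from by decide +kernel, Nat.cast_ofNat, Nat.cast_one, Nat.cast_zero]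
  ring

theorem c26_6 (γ : ℕ → ℝ) : ∑ i ∈ range (26 / 2 + 1), γ i * (cfn 26 i 6 : ℝ) =
    (14734720) * γ 0 + (1530144) * γ 1 + (142604) * γ 2 + (11521) * γ 3 + (762) * γ 4
       + (37) * γ 5 + (1) * γ 6 + (0) * γ 7 + (0) * γ 8 + (0) * γ 9 + (0) * γ 10 + (0) * γ 11
       + (0) * γ 12 + (0) * γ 13 := by
  have h : ((26 / 2 + 1 : ℕ)) = 14 := rfl
  rw [h]
  simp only [sum_range_succ, sum_range_zero, show cfn 26 0 6 = 14734720 from by decide +kernel, show cfn 26 1 6 = 1530144 from by decide +kernel, show cfn 26 2 6 = 142604 from by decide +kernel, show cfn 26 3 6 = 11521 from by decide +kernel, show cfn 26 4 6 = 762 from by decide +kernel, show cfn 26 5 6 = 37 from by decide +kernel, show cfn 26 6 6 = 1 from by decide +kernel, show cfn 26 7 6 = 0 from by decide +kernel, show cfn 26 8 6 = 0 from by decide +kernel, show cfn 26 9 6 = 0 from by decide +kernel, show cfn 26 10 6 = 0 from by decide +kernel, show cfn 26 11 6 =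 0 from by decide +kernel, show cfn 26 12 6 = 0 from by decide +kernel, show cfn 26 13 6 = 0 from by decide +kernel, Nat.cast_ofNat, Nat.cast_one, Nat.cast_zero]
  ring

theorem c26_7 (γ : ℕ → ℝ) : ∑ i ∈ range (26 / 2 + 1), γ i * (cfn 26 i 7 : ℝ) =
    (84198400) * γ 0 + (9974272) * γ 1 + (1089088) * γ 2 + (107200) * γ 3 + (9196) * γ 4
       + (650) * γ 5 + (34) * γ 6 + (1) * γ 7 + (0) * γ 8 + (0) * γ 9 + (0) * γ 10 + (0) * γ 11
       + (0) * γ 12 + (0) * γ 13 := by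
  have h : ((26 / 2 + 1 : ℕ)) = 14 := rfl
  rw [h]
  simp only [sum_range_succ, sum_range_zero, show cfn 26 0 7 = 84198400 from by decide +kernel, show cfn 26 1 7 = 9974272 from by decide +kernel, show cfn 26 2 7 = 1089088 from by decide +kernel, show cfn 26 3 7 = 107200 from by decide +kernel, show cfn 26 4 7 = 9196 from by decide +kernel, show cfn 26 5 7 = 650 from by decide +kernel, show cfn 26 6 7 = 34 from by decide +kernel, show cfn 26 7 7 = 1 from by decide +kernel, show cfn 26 8 7 = 0 from by decide +kernel, show cfn 26 9 7 = 0 from by decide +kernel, show cfn 26 10 7 = 0 from by decide +kernel, show cfn 26 11 7 = 0 from by decide +kernel, show cfn 26 12 7 = 0 from by decide +kernel, show cfn 26 13 7 = 0 from by decide +kernel, Nat.cast_ofNat, Nat.cast_one, Nat.cast_zero]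
  ring

theorem c26_8 (γ : ℕ → ℝ) : ∑ i ∈ range (26 / 2 + 1), γ i * (cfn 26 i 8 : ℝ) =
    (399942400) * γ 0 + (52915456) * γ 1 + (6577648) * γ 2 + (756808) * γ 3 + (78889) * γ 4
       + (7210) * γ 5 + (547) * γ 6 + (31) * γ 7 + (1) * γ 8 + (0) * γ 9 + (0) * γ 10 + (0) * γ 11
       + (0) * γ 12 + (0) * γ 13 := by
  have h : ((26 / 2 + 1 : ℕ)) = 14 := rfl
  rw [h]
  simp only [sum_range_succ, sum_range_zero, show cfn 26 0 8 = 399942400 from by decide +kernel, show cfn 26 1 8 = 52915456 from by decide +kernel, show cfn 26 2 8 = 6577648 from by decide +kernel, show cfn 26 3 8 = 756808 from by decide +kernel, show cfn 26 4 8 = 78889 from by decide +kernel, show cfn 26 5 8 = 7210 from by decide +kernel, show cfn 26 6 8 = 547 from by decide +kernel, show cfn 26 7 8 = 31 from by decide +kernel, show cfn 26 8 8 = 1 from by decide +kernel, show cfn 26 9 8 = 0 from by decide +kernel, show cfn 26 10 8 = 0 from by decide +kernel,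 show cfn 26 11 8 = 0 from by decide +kernel, show cfn 26 12 8 = 0 from by decide +kernel, show cfn 26 13 8 = 0 from by decide +kernel, Nat.cast_ofNat, Nat.cast_one, Nat.cast_zero]
  ring

theorem c26_9 (γ : ℕ → ℝ) : ∑ i ∈ range (26 / 2 + 1), γ i * (cfn 26 i 9 : ℝ) =
    (1599769600) * γ 0 + (232581888) * γ 1 + (32222784) * γ 2 + (4210704) * γ 3 + (511668) * γ 4
       + (56645) * γ 5 + (5536) * γ 6 + (453) * γ 7 + (28) * γ 8 + (1) * γ 9 + (0) * γ 10
       + (0) * γ 11 + (0) * γ 12 + (0) * γ 13 := by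
  have h : ((26 / 2 + 1 : ℕ)) = 14 := rfl
  rw [h]
  simp only [sum_range_succ, sum_range_zero, show cfn 26 0 9 = 1599769600 from by decide +kernel, show cfn 26 1 9 = 232581888 from by decide +kernel, show cfn 26 2 9 = 32222784 from by decide +kernel, show cfn 26 3 9 = 4210704 from by decide +kernel, show cfn 26 4 9 = 511668 from by decide +kernel, show cfn 26 5 9 = 56645 from by decide +kernel, show cfn 26 6 9 = 5536 from by decide +kernel, show cfn 26 7 9 = 453 from by decide +kernel, show cfn 26 8 9 = 28 from by decide +kernel, show cfn 26 9 9 = 1 from by decide +kernel, show cfn 26 10 9 = 0 from by decide +kernel, show cfn 26 11 9 = 0 from by decide +kernel, show cfn 26 12 9 = 0 from by decide +kernel, show cfn 26 13 9 = 0 from by decide +kernel, Nat.cast_ofNat, Nat.cast_one, Nat.cast_zero]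
  ring

theorem c26_10 (γ : ℕ → ℝ) : ∑ i ∈ range (26 / 2 + 1), γ i * (cfn 26 i 10 : ℝ) =
    (5439216640) * γ 0 + (857722624) * γ 1 + (130295616) * γ 2 + (18930384) * γ 3
       + (2605284) * γ 4 + (335137) * γ 5 + (39523) * γ 6 + (4147) * γ 7 + (368) * γ 8 + (25) * γ 9
       + (1) * γ 10 + (0) * γ 11 + (0) * γ 12 + (0) * γ 13 := by
  have h : ((26 / 2 + 1 : ℕ)) = 14 := rfl
  rw [h]
  simp only [sum_range_succ, sum_range_zero, show cfn 26 0 10 = 5439216640 from by decide +kernel, show cfn 26 1 10 = 857722624 from by decide +kernel, show cfn 26 2 10 = 130295616 from by decide +kernel, show cfn 26 3 10 = 18930384 from by decide +kernel, show cfn 26 4 10 = 2605284 from by decide +kernel, show cfn 26 5 10 = 335137 from by decide +kernel, show cfn 26 6 10 = 39523 from by decide +kernel, show cfn 26 7 10 = 4147 from by decide +kernel, show cfn 26 8 10 = 368 from by decide +kernel, show cfn 26 9 10 = 25 from by decide +kernel,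 show cfn 26 10 10 = 1 from by decide +kernel, show cfn 26 11 10 = 0 from by decide +kernel, show cfn 26 12 10 = 0 from by decide +kernel, show cfn 26 13 10 = 0 from by decide +kernel, Nat.cast_ofNat, Nat.cast_one, Nat.cast_zero]
  ring

theorem c26_11 (γ : ℕ → ℝ) : ∑ i ∈ range (26 / 2 + 1), γ i * (cfn 26 i 11 : ℝ) =
    (15823175680) * γ 0 + (2677768192) * γ 1 + (440230912) * γ 2 + (69954048) * γ 3
       + (10673280) * γ 4 + (1549824) * γ 5 + (211546) * γ 6 + (26659) * γ 7 + (3016) * γ 8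
       + (292) * γ 9 + (22) * γ 10 + (1) * γ 11 + (0) * γ 12 + (0) * γ 13 := by
  have h : ((26 / 2 + 1 : ℕ)) = 14 := rfl
  rw [h]
  simp only [sum_range_succ, sum_range_zero, show cfn 26 0 11 = 15823175680 from by decide +kernel, show cfn 26 1 11 = 2677768192 from by decide +kernel, show cfn 26 2 11 = 440230912 from by decide +kernel, show cfn 26 3 11 = 69954048 from by decide +kernel, show cfn 26 4 11 = 10673280 from by decide +kernel, show cfn 26 5 11 = 1549824 from by decide +kernel, show cfn 26 6 11 = 211546 from by decide +kernel, show cfn 26 7 11 = 26659 from by decide +kernel, show cfn 26 8 11 = 3016 from by decide +kernel, show cfn 26 9 11 = 292 from by decide +kernel, show cfn 26 10 11 = 22 from by decide +kernel, show cfn 26 11 11 = 1 from by decide +kernel, show cfn 26 12 11 = 0 from by decide +kernel, show cfn 26 13 11 = 0 from by decide +kernel, Nat.cast_ofNat, Nat.cast_one, Nat.cast_zero]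
  ring

theorem c26_12 (γ : ℕ → ℝ) : ∑ i ∈ range (26 / 2 + 1), γ i * (cfn 26 i 12 : ℝ) =
    (39557939200) * γ 0 + (7120429056) * γ 1 + (1253384704) * γ 2 + (214988800) * γ 3
       + (35770176) * γ 4 + (5738720) * γ 5 + (880685) * γ 6 + (127845) * γ 7 + (17270) * γ 8
       + (2116) * γ 9 + (225) * γ 10 + (19) * γ 11 + (1) * γ 12 + (0) * γ 13 := by
  have h : ((26 / 2 + 1 : ℕ)) = 14 := rfl
  rw [h]
  simp only [sum_range_succ, sum_range_zero, show cfn 26 0 12 = 39557939200 from by decide +kernel, show cfn 26 1 12 = 7120429056 from by decide +kernel, show cfn 26 2 12 = 1253384704 from by decide +kernel, show cfn 26 3 12 = 214988800 from by decide +kernel, show cfn 26 4 12 = 35770176 from by decide +kernel, show cfn 26 5 12 = 5738720 from by decide +kernel, show cfn 26 6 12 = 880685 from by decide +kernel, show cfn 26 7 12 = 127845 from by decide +kernel, show cfn 26 8 12 = 17270 from by decide +kernel, show cfn 26 9 12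 = 2116 from by decide +kernel, show cfn 26 10 12 = 225 from by decide +kernel, show cfn 26 11 12 = 19 from by decide +kernel, show cfn 26 12 12 = 1 from by decide +kernel, show cfn 26 13 12 = 0 from by decide +kernel, Nat.cast_ofNat, Nat.cast_one, Nat.cast_zero]
  ring

theorem c26_13 (γ : ℕ → ℝ) : ∑ i ∈ range (26 / 2 + 1), γ i * (cfn 26 i 13 : ℝ) =
    (85201715200) * γ 0 + (16188325888) * γ 1 + (3023734784) * γ 2 + (553844224) * γ 3
       + (99169024) * γ 4 + (17289280) * γ 5 + (2919620) * γ 6 + (474215) * γ 7 + (73360) * γ 8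
       + (10654) * γ 9 + (1420) * γ 10 + (167) * γ 11 + (16) * γ 12 + (1) * γ 13 := by
  have h : ((26 / 2 + 1 : ℕ)) = 14 := rfl
  rw [h]
  simp only [sum_range_succ, sum_range_zero, show cfn 26 0 13 = 85201715200 from by decide +kernel, show cfn 26 1 13 = 16188325888 from by decide +kernel, show cfn 26 2 13 = 3023734784 from by decide +kernel, show cfn 26 3 13 = 553844224 from by decide +kernel, show cfn 26 4 13 = 99169024 from by decide +kernel, show cfn 26 5 13 = 17289280 from by decide +kernel, show cfn 26 6 13 = 2919620 from by decide +kernel, show cfn 26 7 13 = 474215 from by decide +kernel, show cfn 26 8 13 = 73360 from by decide +kernel, show cfn 26 9 13 = 10654 from by decide +kernel, show cfn 26 10 13 = 1420 from by decide +kernel, show cfn 26 11 13 = 167 from by decide +kernel, show cfn 26 12 13 = 16 from by decide +kernel, show cfn 26 13 13 = 1 from by decide +kernel, Nat.cast_ofNat, Nat.cast_one, Nat.cast_zero]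
  ring

theorem c26_14 (γ : ℕ → ℝ) : ∑ i ∈ range (26 / 2 + 1), γ i * (cfn 26 i 14 : ℝ) =
    (158231756800) * γ 0 + (31524634624) * γ 1 + (6200276992) * γ 2 + (1201787392) * γ 3
       + (229076224) * γ 4 + (42827200) * γ 5 + (7826780) * γ 6 + (1392065) * γ 7 + (239540) * γ 8
       + (39550) * γ 9 + (6190) * γ 10 + (901) * γ 11 + (118) * γ 12 + (13) * γ 13 := by
  have h : ((26 / 2 + 1 : ℕ)) = 14 := rfl
  rw [h]
  simp only [sum_range_succ, sum_range_zero, show cfn 26 0 14 = 158231756800 from by decide +kernel, show cfn 26 1 14 = 31524634624 from by decide +kernel, show cfn 26 2 14 = 6200276992 from by decide +kernel, show cfn 26 3 14 = 1201787392 from by decide +kernel, show cfn 26 4 14 = 229076224 from by decide +kernel, show cfn 26 5 14 = 42827200 from by decide +kernel, show cfn 26 6 14 = 7826780 from by decide +kernel, show cfn 26 7 14 = 1392065 from by decide +kernel, show cfn 26 8 14 = 239540 from by decide +kernel,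 show cfn 26 9 14 = 39550 from by decide +kernel, show cfn 26 10 14 = 6190 from by decide +kernel, show cfn 26 11 14 = 901 from by decide +kernel, show cfn 26 12 14 = 118 from by decide +kernel, show cfn 26 13 14 = 13 from by decide +kernel, Nat.cast_ofNat, Nat.cast_one, Nat.cast_zero]
  ring

theorem c26_15 (γ : ℕ → ℝ) : ∑ i ∈ range (26 / 2 + 1), γ i * (cfn 26 i 15 : ℝ) =
    (253170810880) * γ 0 + (52581629952) * γ 1 + (10816913408) * γ 2 + (2201485312) * γ 3
       + (442650624) * γ 4 + (87779328) * γ 5 + (17130880) * γ 6 + (3281280) * γ 7 + (614680) * γ 8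
       + (112084) * γ 9 + (19764) * γ 10 + (3338) * γ 11 + (532) * γ 12 + (78) * γ 13 := by
  have h : ((26 / 2 + 1 : ℕ)) = 14 := rfl
  rw [h]
  simp only [sum_range_succ, sum_range_zero, show cfn 26 0 15 = 253170810880 from by decide +kernel, show cfn 26 1 15 = 52581629952 from by decide +kernel, show cfn 26 2 15 = 10816913408 from by decide +kernel, show cfn 26 3 15 = 2201485312 from by decide +kernel, show cfn 26 4 15 = 442650624 from by decide +kernel, show cfn 26 5 15 = 87779328 from by decide +kernel, show cfn 26 6 15 = 17130880 from by decide +kernel, show cfn 26 7 15 = 3281280 from by decide +kernel, show cfn 26 8 15 = 614680 from by decide +kernel, show cfn 26 9 15 = 112084 from by decide +kernel, show cfn 26 10 15 = 19764 from by decide +kernel, show cfn 26 11 15 = 3338 from by decide +kernel, show cfn 26 12 15 = 532 from by decide +kernel, show cfn 26 13 15 = 78 from by decide +kernel, Nat.cast_ofNat, Nat.cast_one,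 Nat.cast_zero]
  ring

theorem c26_16 (γ : ℕ → ℝ) : ∑ i ∈ range (26 / 2 + 1), γ i * (cfn 26 i 16 : ℝ) =
    (348109864960) * γ 0 + (74977509376) * γ 1 + (16037502976) * γ 2 + (3404099584) * γ 3
       + (716365312) * γ 4 + (149300736) * γ 5 + (30775888) * γ 6 + (6264280) * γ 7
       + (1256465) * γ 8 + (247684) * γ 9 + (47818) * γ 10 + (8998) * γ 11 + (1639) * γ 12
       + (286) * γ 13 := by
  have h : ((26 / 2 + 1 : ℕ)) = 14 := rfl
  rw [h]
  simp only [sum_range_succ, sum_range_zero, show cfn 26 0 16 = 348109864960 from by decide +kernel, show cfn 26 1 16 = 74977509376 from by decide +kernel, show cfn 26 2 16 = 16037502976 from by decide +kernel, show cfn 26 3 16 = 3404099584 from by decide +kernel, show cfn 26 4 16 = 716365312 from by decide +kernel, show cfn 26 5 16 = 149300736 from by decide +kernel, show cfn 26 6 16 = 30775888 from by decide +kernel, show cfn 26 7 16 = 6264280 from by decide +kernel, show cfn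 26 8 16 = 1256465 from by decide +kernel, show cfn 26 9 16 = 247684 from by decide +kernel, show cfn 26 10 16 = 47818 from by decide +kernel, show cfn 26 11 16 = 8998 from by decide +kernel, show cfn 26 12 16 = 1639 from by decide +kernel, show cfn 26 13 16 = 286 from by decide +kernel, Nat.cast_ofNat, Nat.cast_one, Nat.cast_zero]
  ring

theorem c26_17 (γ : ℕ → ℝ) : ∑ i ∈ range (26 / 2 + 1), γ i * (cfn 26 i 17 : ℝ) =
    (409541017600) * γ 0 + (91044118528) * γ 1 + (20141473792) * γ 2 + (4432076800) * γ 3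
       + (969521152) * γ 4 + (210695680) * γ 5 + (45452992) * γ 6 + (9724528) * γ 7
       + (2060980) * γ 8 + (432073) * γ 9 + (89440) * γ 10 + (18238) * γ 11 + (3652) * γ 12
       + (715) * γ 13 := by
  have h : ((26 / 2 + 1 : ℕ)) = 14 := rfl
  rw [h]
  simp only [sum_range_succ, sum_range_zero, show cfn 26 0 17 = 409541017600 from by decide +kernel, show cfn 26 1 17 = 91044118528 from by decide +kernel, show cfn 26 2 17 = 20141473792 from by decide +kernel, show cfn 26 3 17 = 4432076800 from by decide +kernel, show cfn 26 4 17 = 969521152 from by decide +kernel, show cfn 26 5 17 = 210695680 from by decide +kernel, show cfn 26 6 17 = 45452992 from by decide +kernel, show cfn 26 7 17 = 9724528 from by decide +kernel, show cfn 26 8 17 = 2060980 from by decide +kernel, show cfn 26 9 17 = 432073 from by decide +kernel, show cfn 26 10 17 = 89440 from by decide +kernel, show cfn 26 11 17 = 18238 from by decide +kernel, show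 cfn 26 12 17 = 3652 from by decide +kernel, show cfn 26 13 17 = 715 from by decide +kernel, Nat.cast_ofNat, Nat.cast_one, Nat.cast_zero]
  ring

theorem c26_18 (γ : ℕ → ℝ) : ∑ i ∈ range (26 / 2 + 1), γ i * (cfn 26 i 18 : ℝ) =
    (409541017600) * γ 0 + (93564370944) * γ 1 + (21305720832) * γ 2 + (4834271232) * γ 3
       + (1092630528) * γ 4 + (245900800) * γ 5 + (55080896) * γ 6 + (12273648) * γ 7
       + (2719028) * γ 8 + (598417) * γ 9 + (130725) * γ 10 + (28314) * γ 11 + (6072) * γ 12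
       + (1287) * γ 13 := by
  have h : ((26 / 2 + 1 : ℕ)) = 14 := rfl
  rw [h]
  simp only [sum_range_succ, sum_range_zero, show cfn 26 0 18 = 409541017600 from by decide +kernel, show cfn 26 1 18 = 93564370944 from by decide +kernel, show cfn 26 2 18 = 21305720832 from by decide +kernel, show cfn 26 3 18 = 4834271232 from by decide +kernel, show cfn 26 4 18 = 1092630528 from by decide +kernel, show cfn 26 5 18 = 245900800 from by decide +kernel, show cfn 26 6 18 = 55080896 from by decide +kernel, show cfn 26 7 18 = 12273648 from by decide +kernel, show cfn 26 8 18 = 2719028 from by decide +kernel, show cfn 26 9 18 = 598417 from by decide +kernel, show cfn 26 10 18 = 130725 from by decide +kernel, show cfn 26 11 18 = 28314 from by decide +kernel, show cfn 26 12 18 = 6072 from by decide +kernel, show cfn 26 13 18 = 1287 from by decide +kernel, Nat.cast_ofNat, Nat.cast_one, Nat.cast_zero]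
  ring

theorem c26_19 (γ : ℕ → ℝ) : ∑ i ∈ range (26 / 2 + 1), γ i * (cfn 26 i 19 : ℝ) =
    (344876646400) * γ 0 + (80648077312) * γ 1 + (18819710976) * γ 2 + (4381802496) * γ 3
       + (1017741312) * γ 4 + (235765760) * γ 5 + (54460928) * γ 6 + (12541184) * γ 7
       + (2878144) * γ 8 + (658048) * γ 9 + (149830) * γ 10 + (33957) * γ 11 + (7656) * γ 12
       + (1716) * γ 13 := by
  have h : ((26 / 2 + 1 : ℕ)) = 14 := rfl
  rw [h]
  simp only [sum_range_succ, sum_range_zero, show cfn 26 0 19 = 344876646400 from by decide +kernel, show cfn 26 1 19 = 80648077312 from by decide +kernel, show cfn 26 2 19 = 18819710976 from by decide +kernel, show cfn 26 3 19 = 4381802496 from by decide +kernel, show cfn 26 4 19 = 1017741312 from by decide +kernel, show cfn 26 5 19 = 235765760 from by decide +kernel, show cfn 26 6 19 = 54460928 from by decide +kernel, show cfn 26 7 19 = 12541184 from by decide +kernel, show cfn 26 8 19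 = 2878144 from by decide +kernel, show cfn 26 9 19 = 658048 from by decide +kernel, show cfn 26 10 19 = 149830 from by decide +kernel, show cfn 26 11 19 = 33957 from by decide +kernel, show cfn 26 12 19 = 7656 from by decide +kernel, show cfn 26 13 19 = 1716 from by decide +kernel, Nat.cast_ofNat, Nat.cast_one, Nat.cast_zero]
  ring

theorem c26_20 (γ : ℕ → ℝ) : ∑ i ∈ range (26 / 2 + 1), γ i * (cfn 26 i 20 : ℝ) =
    (241413652480) * γ 0 + (57567870976) * γ 1 + (13710721024) * γ 2 + (3261136896) * γ 3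
       + (774586368) * γ 4 + (183705600) * γ 5 + (43499264) * γ 6 + (10282496) * γ 7
       + (2426144) * γ 8 + (571312) * γ 9 + (134245) * γ 10 + (31471) * γ 11 + (7359) * γ 12
       + (1716) * γ 13 := by
  have h : ((26 / 2 + 1 : ℕ)) = 14 := rfl
  rw [h]
  simp only [sum_range_succ, sum_range_zero, show cfn 26 0 20 = 241413652480 from by decide +kernel, show cfn 26 1 20 = 57567870976 from by decide +kernel, show cfn 26 2 20 = 13710721024 from by decide +kernel, show cfn 26 3 20 = 3261136896 from by decide +kernel, show cfn 26 4 20 = 774586368 from by decide +kernel, show cfn 26 5 20 = 183705600 from by decide +kernel, show cfn 26 6 20 = 43499264 from by decide +kernel, show cfn 26 7 20 = 10282496 from by decide +kernel, show cfn 26 8 20 = 2426144 from by decide +kernel, show cfn 26 9 20 = 571312 from by decide +kernel, show cfn 26 10 20 = 134245 from by decide +kernel, show cfn 26 11 20 = 31471 from by decide +kernel,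 show cfn 26 12 20 = 7359 from by decide +kernel, show cfn 26 13 20 = 1716 from by decide +kernel, Nat.cast_ofNat, Nat.cast_one, Nat.cast_zero]
  ring

theorem c26_21 (γ : ℕ → ℝ) : ∑ i ∈ range (26 / 2 + 1), γ i * (cfn 26 i 21 : ℝ) =
    (137950658560) * γ 0 + (33426505728) * γ 1 + (8094220288) * γ 2 + (1958674432) * γ 3
       + (473628672) * γ 4 + (114442240) * γ 5 + (27630592) * γ 6 + (6665472) * γ 7
       + (1606528) * γ 8 + (386848) * γ 9 + (93060) * γ 10 + (22363) * γ 11 + (5368) * γ 12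
       + (1287) * γ 13 := by
  have h : ((26 / 2 + 1 : ℕ)) = 14 := rfl
  rw [h]
  simp only [sum_range_succ, sum_range_zero, show cfn 26 0 21 = 137950658560 from by decide +kernel, show cfn 26 1 21 = 33426505728 from by decide +kernel, show cfn 26 2 21 = 8094220288 from by decide +kernel, show cfn 26 3 21 = 1958674432 from by decide +kernel, show cfn 26 4 21 = 473628672 from by decide +kernel, show cfn 26 5 21 = 114442240 from by decide +kernel, show cfn 26 6 21 = 27630592 from by decide +kernel, show cfn 26 7 21 = 6665472 from by decide +kernel, show cfn 26 8 21 = 1606528 from by decide +kernel, show cfn 26 9 21 = 386848 from by decide +kernel, show cfn 26 10 21 = 93060 from by decide +kernel, show cfn 26 11 21 = 22363 from by decide +kernel, show cfn 26 12 21 = 5368 from by decide +kernel, show cfn 26 13 21 = 1287 from by decide +kernel, Nat.cast_ofNat, Nat.cast_one, Nat.cast_zero]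
  ring

theorem c26_22 (γ : ℕ → ℝ) : ∑ i ∈ range (26 / 2 + 1), γ i * (cfn 26 i 22 : ℝ) =
    (62704844800) * γ 0 + (15386804224) * γ 1 + (3774611456) * γ 2 + (925696000) * γ 3
       + (226951168) * γ 4 + (55623680) * γ 5 + (13628416) * γ 6 + (3337984) * γ 7 + (817280) * γ 8
       + (200032) * γ 9 + (48940) * γ 10 + (11969) * γ 11 + (2926) * γ 12 + (715) * γ 13 := by
  have h : ((26 / 2 + 1 : ℕ)) = 14 := rfl
  rw [h]
  simp only [sum_range_succ, sum_range_zero, show cfn 26 0 22 = 62704844800 from by decide +kernel, show cfn 26 1 22 = 15386804224 from by decide +kernel, show cfn 26 2 22 = 3774611456 from by decide +kernel, show cfn 26 3 22 = 925696000 from by decide +kernel, show cfn 26 4 22 = 226951168 from by decide +kernel, show cfn 26 5 22 = 55623680 from by decide +kernel, show cfn 26 6 22 = 13628416 from by decide +kernel, show cfn 26 7 22 = 3337984 from by decide +kernel, show cfn 26 8 22 = 817280 from by decide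 +kernel, show cfn 26 9 22 = 200032 from by decide +kernel, show cfn 26 10 22 = 48940 from by decide +kernel, show cfn 26 11 22 = 11969 from by decide +kernel, show cfn 26 12 22 = 2926 from by decide +kernel, show cfn 26 13 22 = 715 from by decide +kernel, Nat.cast_ofNat, Nat.cast_one, Nat.cast_zero]
  ring

theorem q26_0 (γ : ℕ → ℝ) (h0 : γ 0 = 1)
    (h : ∀ n < 26, 2 * (((26 : ℕ) : ℝ) - ((n : ℕ) : ℝ)) * ∑ i ∈ range (26 / 2 + 1), γ i * (cfn 26 i n : ℝ) ≤
      ((n : ℝ) + 1) * ∑ i ∈ range (26 / 2 + 1), γ i * (cfn 26 i (n + 1) : ℝ)) :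
    0 ≤ (0) * γ 0 + (1) * γ 1 + (0) * γ 2 + (0) * γ 3 + (0) * γ 4 + (0) * γ 5 + (0) * γ 6 + (0) * γ 7
       + (0) * γ 8 + (0) * γ 9 + (0) * γ 10 + (0) * γ 11 + (0) * γ 12 + (0) * γ 13 := by
  have h1 := h 0 (by norm_num)
  rw [show 0 + 1 = 1 from rfl, c26_0, c26_1] at h1
  norm_num [h0] at h1 ⊢
  linarith

theorem q26_1 (γ : ℕ → ℝ) (h0 : γ 0 = 1)
    (h : ∀ n < 26, 2 * (((26 : ℕ) : ℝ) - ((n : ℕ) : ℝ)) * ∑ i ∈ range (26 / 2 + 1), γ i * (cfn 26 i n : ℝ) ≤
      ((n : ℝ) + 1) * ∑ i ∈ range (26 / 2 + 1), γ i * (cfn 26 i (n + 1) : ℝ)) :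
    0 ≤ (0) * γ 0 + (48) * γ 1 + (2) * γ 2 + (0) * γ 3 + (0) * γ 4 + (0) * γ 5 + (0) * γ 6
       + (0) * γ 7 + (0) * γ 8 + (0) * γ 9 + (0) * γ 10 + (0) * γ 11 + (0) * γ 12 + (0) * γ 13 := by
  have h1 := h 1 (by norm_num)
  rw [show 1 + 1 = 2 from rfl, c26_1, c26_2] at h1
  norm_num [h0] at h1 ⊢
  linarith

theorem q26_2 (γ : ℕ → ℝ) (h0 : γ 0 = 1)
    (h : ∀ n < 26, 2 * (((26 : ℕ) : ℝ) - ((n : ℕ) : ℝ)) * ∑ i ∈ range (26 / 2 + 1), γ i * (cfn 26 i n : ℝ) ≤
      ((n : ℝ) + 1) * ∑ i ∈ range (26 / 2 + 1), γ i * (cfn 26 i (n + 1) : ℝ)) :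
    0 ≤ (0) * γ 0 + (1104) * γ 1 + (90) * γ 2 + (3) * γ 3 + (0) * γ 4 + (0) * γ 5 + (0) * γ 6
       + (0) * γ 7 + (0) * γ 8 + (0) * γ 9 + (0) * γ 10 + (0) * γ 11 + (0) * γ 12 + (0) * γ 13 := by
  have h1 := h 2 (by norm_num)
  rw [show 2 + 1 = 3 from rfl, c26_2, c26_3] at h1
  norm_num [h0] at h1 ⊢
  linarith

theorem q26_3 (γ : ℕ → ℝ) (h0 : γ 0 = 1)
    (h : ∀ n < 26, 2 * (((26 : ℕ) : ℝ) - ((n : ℕ) : ℝ)) * ∑ i ∈ range (26 / 2 + 1), γ i * (cfn 26 i n : ℝ) ≤
      ((n : ℝ) + 1) * ∑ i ∈ range (26 / 2 + 1), γ i * (cfn 26 i (n + 1) : ℝ)) :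
    0 ≤ (0) * γ 0 + (16192) * γ 1 + (1936) * γ 2 + (126) * γ 3 + (4) * γ 4 + (0) * γ 5 + (0) * γ 6
       + (0) * γ 7 + (0) * γ 8 + (0) * γ 9 + (0) * γ 10 + (0) * γ 11 + (0) * γ 12 + (0) * γ 13 := by
  have h1 := h 3 (by norm_num)
  rw [show 3 + 1 = 4 from rfl, c26_3, c26_4] at h1
  norm_num [h0] at h1 ⊢
  linarith

theorem q26_4 (γ : ℕ → ℝ) (h0 : γ 0 = 1)
    (h : ∀ n < 26, 2 * (((26 : ℕ) : ℝ) - ((n : ℕ) : ℝ)) * ∑ i ∈ range (26 / 2 + 1), γ i * (cfn 26 i n : ℝ) ≤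
      ((n : ℝ) + 1) * ∑ i ∈ range (26 / 2 + 1), γ i * (cfn 26 i (n + 1) : ℝ)) :
    0 ≤ (0) * γ 0 + (170016) * γ 1 + (26488) * γ 2 + (2523) * γ 3 + (156) * γ 4 + (5) * γ 5
       + (0) * γ 6 + (0) * γ 7 + (0) * γ 8 + (0) * γ 9 + (0) * γ 10 + (0) * γ 11 + (0) * γ 12
       + (0) * γ 13 := by
  have h1 := h 4 (by norm_num)
  rw [show 4 + 1 = 5 from rfl, c26_4, c26_5] at h1
  norm_num [h0] at h1 ⊢
  linarith

theorem q26_5 (γ : ℕ → ℝ) (h0 : γ 0 = 1)
    (h : ∀ n < 26, 2 * (((26 : ℕ) : ℝ) - ((n : ℕ) : ℝ)) * ∑ i ∈ range (26 / 2 + 1), γ i * (cfn 26 i n : ℝ) ≤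
      ((n : ℝ) + 1) * ∑ i ∈ range (26 / 2 + 1), γ i * (cfn 26 i (n + 1) : ℝ)) :
    0 ≤ (0) * γ 0 + (1360128) * γ 1 + (258720) * γ 2 + (32040) * γ 3 + (2892) * γ 4 + (180) * γ 5
       + (6) * γ 6 + (0) * γ 7 + (0) * γ 8 + (0) * γ 9 + (0) * γ 10 + (0) * γ 11 + (0) * γ 12
       + (0) * γ 13 := by
  have h1 := h 5 (by norm_num)
  rw [show 5 + 1 = 6 from rfl, c26_5, c26_6] at h1
  norm_num [h0] at h1 ⊢
  linarith

theorem q26_6 (γ : ℕ → ℝ) (h0 : γ 0 = 1)
    (h : ∀ n < 26, 2 * (((26 : ℕ) : ℝ) - ((n : ℕ) : ℝ)) * ∑ i ∈ range (26 / 2 + 1), γ i * (cfn 26 i n : ℝ) ≤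
      ((n : ℝ) + 1) * ∑ i ∈ range (26 / 2 + 1), γ i * (cfn 26 i (n + 1) : ℝ)) :
    0 ≤ (0) * γ 0 + (8614144) * γ 1 + (1919456) * γ 2 + (289560) * γ 3 + (33892) * γ 4 + (3070) * γ 5
       + (198) * γ 6 + (7) * γ 7 + (0) * γ 8 + (0) * γ 9 + (0) * γ 10 + (0) * γ 11 + (0) * γ 12
       + (0) * γ 13 := by
  have h1 := h 6 (by norm_num)
  rw [show 6 + 1 = 7 from rfl, c26_6, c26_7] at h1
  norm_num [h0] at h1 ⊢
  linarith

theorem q26_7 (γ : ℕ → ℝ) (h0 : γ 0 = 1)
    (h : ∀ n < 26, 2 * (((26 : ℕ) : ℝ) - ((n : ℕ) : ℝ)) * ∑ i ∈ range (26 / 2 + 1), γ i * (cfn 26 i n : ℝ) ≤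
      ((n : ℝ) + 1) * ∑ i ∈ range (26 / 2 + 1), γ i * (cfn 26 i (n + 1) : ℝ)) :
    0 ≤ (0) * γ 0 + (44301312) * γ 1 + (11235840) * γ 2 + (1980864) * γ 3 + (281664) * γ 4
       + (32980) * γ 5 + (3084) * γ 6 + (210) * γ 7 + (8) * γ 8 + (0) * γ 9 + (0) * γ 10
       + (0) * γ 11 + (0) * γ 12 + (0) * γ 13 := by
  have h1 := h 7 (by norm_num)
  rw [show 7 + 1 = 8 from rfl, c26_7, c26_8] at h1
  norm_num [h0] at h1 ⊢
  linarith

theorem q26_8 (γ : ℕ → ℝ) (h0 : γ 0 = 1)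
    (h : ∀ n < 26, 2 * (((26 : ℕ) : ℝ) - ((n : ℕ) : ℝ)) * ∑ i ∈ range (26 / 2 + 1), γ i * (cfn 26 i n : ℝ) ≤
      ((n : ℝ) + 1) * ∑ i ∈ range (26 / 2 + 1), γ i * (cfn 26 i (n + 1) : ℝ)) :
    0 ≤ (0) * γ 0 + (188280576) * γ 1 + (53209728) * γ 2 + (10651248) * γ 3 + (1765008) * γ 4
       + (250245) * γ 5 + (30132) * γ 6 + (2961) * γ 7 + (216) * γ 8 + (9) * γ 9 + (0) * γ 10
       + (0) * γ 11 + (0) * γ 12 + (0) * γ 13 := by
  have h1 := h 8 (by norm_num)
  rw [show 8 + 1 = 9 from rfl, c26_8, c26_9] at h1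
  norm_num [h0] at h1 ⊢
  linarith

theorem q26_9 (γ : ℕ → ℝ) (h0 : γ 0 = 1)
    (h : ∀ n < 26, 2 * (((26 : ℕ) : ℝ) - ((n : ℕ) : ℝ)) * ∑ i ∈ range (26 / 2 + 1), γ i * (cfn 26 i n : ℝ) ≤
      ((n : ℝ) + 1) * ∑ i ∈ range (26 / 2 + 1), γ i * (cfn 26 i (n + 1) : ℝ)) :
    0 ≤ (0) * γ 0 + (669442048) * γ 1 + (207381504) * γ 2 + (46139904) * γ 3 + (8656128) * γ 4
       + (1425440) * γ 5 + (207006) * γ 6 + (26068) * γ 7 + (2728) * γ 8 + (216) * γ 9
       + (10) * γ 10 + (0) * γ 11 + (0) * γ 12 + (0) * γ 13 := by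
  have h1 := h 9 (by norm_num)
  rw [show 9 + 1 = 10 from rfl, c26_9, c26_10] at h1
  norm_num [h0] at h1 ⊢
  linarith

theorem q26_10 (γ : ℕ → ℝ) (h0 : γ 0 = 1)
    (h : ∀ n < 26, 2 * (((26 : ℕ) : ℝ) - ((n : ℕ) : ℝ)) * ∑ i ∈ range (26 / 2 + 1), γ i * (cfn 26 i n : ℝ) ≤
      ((n : ℝ) + 1) * ∑ i ∈ range (26 / 2 + 1), γ i * (cfn 26 i (n + 1) : ℝ)) :
    0 ≤ (0) * γ 0 + (2008326144) * γ 1 + (673080320) * γ 2 + (163722240) * γ 3 + (34036992) * γ 4
       + (6323680) * γ 5 + (1062270) * γ 6 + (160545) * γ 7 + (21400) * γ 8 + (2412) * γ 9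
       + (210) * γ 10 + (11) * γ 11 + (0) * γ 12 + (0) * γ 13 := by
  have h1 := h 10 (by norm_num)
  rw [show 10 + 1 = 11 from rfl, c26_10, c26_11] at h1
  norm_num [h0] at h1 ⊢
  linarith

theorem q26_11 (γ : ℕ → ℝ) (h0 : γ 0 = 1)
    (h : ∀ n < 26, 2 * (((26 : ℕ) : ℝ) - ((n : ℕ) : ℝ)) * ∑ i ∈ range (26 / 2 + 1), γ i * (cfn 26 i n : ℝ) ≤
      ((n : ℝ) + 1) * ∑ i ∈ range (26 / 2 + 1), γ i * (cfn 26 i (n + 1) : ℝ)) :
    0 ≤ (0) * γ 0 + (5112102912) * γ 1 + (1833689088) * γ 2 + (481244160) * γ 3 + (109043712) * γ 4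
       + (22369920) * γ 5 + (4221840) * γ 6 + (734370) * γ 7 + (116760) * γ 8 + (16632) * γ 9
       + (2040) * γ 10 + (198) * γ 11 + (12) * γ 12 + (0) * γ 13 := by
  have h1 := h 11 (by norm_num)
  rw [show 11 + 1 = 12 from rfl, c26_11, c26_12] at h1
  norm_num [h0] at h1 ⊢
  linarith

theorem q26_12 (γ : ℕ → ℝ) (h0 : γ 0 = 1)
    (h : ∀ n < 26, 2 * (((26 : ℕ) : ℝ) - ((n : ℕ) : ℝ)) * ∑ i ∈ range (26 / 2 + 1), γ i * (cfn 26 i n : ℝ) ≤
      ((n : ℝ) + 1) * ∑ i ∈ range (26 / 2 + 1), γ i * (cfn 26 i (n + 1) : ℝ)) :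
    0 ≤ (0) * γ 0 + (11076222976) * γ 1 + (4213780480) * γ 2 + (1180288512) * γ 3 + (287632384) * γ 4
       + (64076480) * γ 5 + (13295880) * γ 6 + (2585135) * γ 7 + (470120) * γ 8 + (79254) * γ 9
       + (12160) * γ 10 + (1639) * γ 11 + (180) * γ 12 + (13) * γ 13 := by
  have h1 := h 12 (by norm_num)
  rw [show 12 + 1 = 13 from rfl, c26_12, c26_13] at h1
  norm_num [h0] at h1 ⊢
  linarith

theorem q26_13 (γ : ℕ → ℝ) (h0 : γ 0 = 1)
    (h : ∀ n < 26, 2 * (((26 : ℕ) : ℝ) - ((n : ℕ) : ℝ)) * ∑ i ∈ range (26 / 2 + 1), γ i * (cfn 26 i n : ℝ) ≤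
      ((n : ℝ) + 1) * ∑ i ∈ range (26 / 2 + 1), γ i * (cfn 26 i (n + 1) : ℝ)) :
    0 ≤ (0) * γ 0 + (20448411648) * γ 1 + (8186773504) * γ 2 + (2425073664) * γ 3 + (628672512) * γ 4
       + (150059520) * γ 5 + (33664800) * γ 6 + (7159320) * γ 7 + (1446200) * γ 8 + (276696) * γ 9
       + (49740) * γ 10 + (8272) * γ 11 + (1236) * γ 12 + (156) * γ 13 := by
  have h1 := h 13 (by norm_num)
  rw [show 13 + 1 = 14 from rfl, c26_13, c26_14] at h1
  norm_num [h0] at h1 ⊢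
  linarith

theorem q26_14 (γ : ℕ → ℝ) (h0 : γ 0 = 1)
    (h : ∀ n < 26, 2 * (((26 : ℕ) : ℝ) - ((n : ℕ) : ℝ)) * ∑ i ∈ range (26 / 2 + 1), γ i * (cfn 26 i n : ℝ) ≤
      ((n : ℝ) + 1) * ∑ i ∈ range (26 / 2 + 1), γ i * (cfn 26 i (n + 1) : ℝ)) :
    0 ≤ (0) * γ 0 + (32133218304) * γ 1 + (13447053312) * γ 2 + (4179382272) * γ 3
       + (1141929984) * γ 4 + (288837120) * γ 5 + (69120480) * γ 6 + (15809640) * γ 7
       + (3471240) * γ 8 + (732060) * γ 9 + (147900) * γ 10 + (28446) * γ 11 + (5148) * γ 12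
       + (858) * γ 13 := by
  have h1 := h 14 (by norm_num)
  rw [show 14 + 1 = 15 from rfl, c26_14, c26_15] at h1
  norm_num [h0] at h1 ⊢
  linarith

theorem q26_15 (γ : ℕ → ℝ) (h0 : γ 0 = 1)
    (h : ∀ n < 26, 2 * (((26 : ℕ) : ℝ) - ((n : ℕ) : ℝ)) * ∑ i ∈ range (26 / 2 + 1), γ i * (cfn 26 i n : ℝ) ≤
      ((n : ℝ) + 1) * ∑ i ∈ range (26 / 2 + 1), γ i * (cfn 26 i (n + 1) : ℝ)) :
    0 ≤ (0) * γ 0 + (42844291072) * γ 1 + (18627952640) * γ 2 + (6032916480) * γ 3
       + (1723531264) * γ 4 + (457666560) * γ 5 + (115534848) * γ 6 + (28040320) * γ 7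
       + (6580480) * γ 8 + (1497096) * γ 9 + (330280) * γ 10 + (70532) * γ 11 + (14520) * γ 12
       + (2860) * γ 13 := by
  have h1 := h 15 (by norm_num)
  rw [show 15 + 1 = 16 from rfl, c26_15, c26_16] at h1
  norm_num [h0] at h1 ⊢
  linarith

theorem q26_16 (γ : ℕ → ℝ) (h0 : γ 0 = 1)
    (h : ∀ n < 26, 2 * (((26 : ℕ) : ℝ) - ((n : ℕ) : ℝ)) * ∑ i ∈ range (26 / 2 + 1), γ i * (cfn 26 i n : ℝ) ≤
      ((n : ℝ) + 1) * ∑ i ∈ range (26 / 2 + 1), γ i * (cfn 26 i (n + 1) : ℝ)) :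
    0 ≤ (0) * γ 0 + (48199827456) * γ 1 + (21654994944) * γ 2 + (7263313920) * γ 3
       + (2154553344) * γ 4 + (595811840) * γ 5 + (157183104) * γ 6 + (40031376) * γ 7
       + (9907360) * γ 8 + (2391561) * γ 9 + (564120) * γ 10 + (130086) * γ 11 + (29304) * γ 12
       + (6435) * γ 13 := by
  have h1 := h 16 (by norm_num)
  rw [show 16 + 1 = 17 from rfl, c26_16, c26_17] at h1
  norm_num [h0] at h1 ⊢
  linarith

theorem q26_17 (γ : ℕ → ℝ) (h0 : γ 0 = 1)
    (h : ∀ n < 26, 2 * (((26 : ℕ) : ℝ) - ((n : ℕ) : ℝ)) * ∑ i ∈ range (26 / 2 + 1), γ i * (cfn 26 i n : ℝ) ≤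
      ((n : ℝ) + 1) * ∑ i ∈ range (26 / 2 + 1), γ i * (cfn 26 i (n + 1) : ℝ)) :
    0 ≤ (0) * γ 0 + (45364543488) * γ 1 + (20956446720) * γ 2 + (7239499776) * γ 3
       + (2215968768) * γ 4 + (633692160) * γ 5 + (173302272) * γ 6 + (45884160) * γ 7
       + (11844864) * γ 8 + (2994192) * γ 9 + (743130) * γ 10 + (181368) * γ 11 + (43560) * γ 12
       + (10296) * γ 13 := by
  have h1 := h 17 (by norm_num)
  rw [show 17 + 1 = 18 from rfl, c26_17, c26_18] at h1
  norm_num [h0] at h1 ⊢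
  linarith

theorem q26_18 (γ : ℕ → ℝ) (h0 : γ 0 = 1)
    (h : ∀ n < 26, 2 * (((26 : ℕ) : ℝ) - ((n : ℕ) : ℝ)) * ∑ i ∈ range (26 / 2 + 1), γ i * (cfn 26 i n : ℝ) ≤
      ((n : ℝ) + 1) * ∑ i ∈ range (26 / 2 + 1), γ i * (cfn 26 i (n + 1) : ℝ)) :
    0 ≤ (0) * γ 0 + (35283533824) * γ 1 + (16682975232) * γ 2 + (5905907712) * γ 3
       + (1854996480) * γ 4 + (545136640) * γ 5 + (153463296) * γ 6 + (41904128) * γ 7
       + (11180288) * γ 8 + (2928240) * γ 9 + (755170) * γ 10 + (192159) * γ 11 + (48312) * γ 12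
       + (12012) * γ 13 := by
  have h1 := h 18 (by norm_num)
  rw [show 18 + 1 = 19 from rfl, c26_18, c26_19] at h1
  norm_num [h0] at h1 ⊢
  linarith

theorem q26_19 (γ : ℕ → ℝ) (h0 : γ 0 = 1)
    (h : ∀ n < 26, 2 * (((26 : ℕ) : ℝ) - ((n : ℕ) : ℝ)) * ∑ i ∈ range (26 / 2 + 1), γ i * (cfn 26 i n : ℝ) ≤
      ((n : ℝ) + 1) * ∑ i ∈ range (26 / 2 + 1), γ i * (cfn 26 i (n + 1) : ℝ)) :
    0 ≤ (0) * γ 0 + (22284337152) * γ 1 + (10738466816) * γ 2 + (3877502976) * γ 3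
       + (1243348992) * γ 4 + (373391360) * γ 5 + (107532288) * γ 6 + (30073344) * γ 7
       + (8228864) * γ 8 + (2213568) * γ 9 + (587280) * γ 10 + (154022) * γ 11 + (39996) * γ 12
       + (10296) * γ 13 := by
  have h1 := h 19 (by norm_num)
  rw [show 19 + 1 = 20 from rfl, c26_19, c26_20] at h1
  norm_num [h0] at h1 ⊢
  linarith

theorem q26_20 (γ : ℕ → ℝ) (h0 : γ 0 = 1)
    (h : ∀ n < 26, 2 * (((26 : ℕ) : ℝ) - ((n : ℕ) : ℝ)) * ∑ i ∈ range (26 / 2 + 1), γ i * (cfn 26 i n : ℝ) ≤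
      ((n : ℝ) + 1) * ∑ i ∈ range (26 / 2 + 1), γ i * (cfn 26 i (n + 1) : ℝ)) :
    0 ≤ (0) * γ 0 + (11142168576) * γ 1 + (5449973760) * γ 2 + (1998520320) * γ 3 + (651165696) * γ 4
       + (198819840) * γ 5 + (58251264) * γ 6 + (16584960) * γ 7 + (4623360) * γ 8
       + (1268064) * γ 9 + (343320) * γ 10 + (91971) * γ 11 + (24420) * γ 12 + (6435) * γ 13 := by
  have h1 := h 20 (by norm_num)
  rw [show 20 + 1 = 21 from rfl, c26_20, c26_21] at h1
  norm_num [h0] at h1 ⊢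
  linarith

theorem q26_21 (γ : ℕ → ℝ) (h0 : γ 0 = 1)
    (h : ∀ n < 26, 2 * (((26 : ℕ) : ℝ) - ((n : ℕ) : ℝ)) * ∑ i ∈ range (26 / 2 + 1), γ i * (cfn 26 i n : ℝ) ≤
      ((n : ℝ) + 1) * ∑ i ∈ range (26 / 2 + 1), γ i * (cfn 26 i (n + 1) : ℝ)) :
    0 ≤ (0) * γ 0 + (4244635648) * γ 1 + (2099249152) * γ 2 + (778567680) * γ 3 + (256638976) * γ 4
       + (79298560) * γ 5 + (23519232) * γ 6 + (6780928) * γ 7 + (1914880) * γ 8 + (532224) * γ 9
       + (146080) * γ 10 + (39688) * γ 11 + (10692) * γ 12 + (2860) * γ 13 := by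
  have h1 := h 21 (by norm_num)
  rw [show 21 + 1 = 22 from rfl, c26_21, c26_22] at h1
  norm_num [h0] at h1 ⊢
  linarith

theorem m26_0 (γ : ℕ → ℝ) : Mat 26 γ 0 = (1) * γ 0 + (0) * γ 1 + (0) * γ 2 + (0) * γ 3 + (0) * γ 4 + (0) * γ 5 + (0) * γ 6 + (0) * γ 7
       + (0) * γ 8 + (0) * γ 9 + (0) * γ 10 + (0) * γ 11 + (0) * γ 12 + (0) * γ 13 := by
  unfold Mat
  rw [show (26 / 2 + 1 : ℕ) = 14 from rfl]
  simp [sum_range_succ, Nat.choose]
  try ring

theorem m26_1 (γ : ℕ → ℝ) : Mat 26 γ 1 = (1300) * γ 0 + (50) * γ 1 + (1) * γ 2 + (0) * γ 3 + (0) * γ 4 + (0) * γ 5 + (0) * γ 6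
       + (0) * γ 7 + (0) * γ 8 + (0) * γ 9 + (0) * γ 10 + (0) * γ 11 + (0) * γ 12 + (0) * γ 13 := by
  unfold Mat
  rw [show (26 / 2 + 1 : ℕ) = 14 from rfl]
  simp [sum_range_succ, Nat.choose]
  try ring

theorem m26_2 (γ : ℕ → ℝ) : Mat 26 γ 2 = (239200) * γ 0 + (18400) * γ 1 + (1104) * γ 2 + (46) * γ 3 + (1) * γ 4 + (0) * γ 5
       + (0) * γ 6 + (0) * γ 7 + (0) * γ 8 + (0) * γ 9 + (0) * γ 10 + (0) * γ 11 + (0) * γ 12
       + (0) * γ 13 := by
  unfold Mat
  rw [show (26 / 2 + 1 : ℕ) = 14 from rfl]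
  simp [sum_range_succ, Nat.choose]
  try ring

theorem m26_3 (γ : ℕ → ℝ) : Mat 26 γ 3 = (14734720) * γ 0 + (1700160) * γ 1 + (170016) * γ 2 + (14168) * γ 3 + (924) * γ 4
       + (42) * γ 5 + (1) * γ 6 + (0) * γ 7 + (0) * γ 8 + (0) * γ 9 + (0) * γ 10 + (0) * γ 11
       + (0) * γ 12 + (0) * γ 13 := by
  unfold Mat
  rw [show (26 / 2 + 1 : ℕ) = 14 from rfl]
  simp [sum_range_succ, Nat.choose]
  try ring

theorem m26_4 (γ : ℕ → ℝ) : Mat 26 γ 4 = (399942400) * γ 0 + (61529600) * γ 1 + (8614144) * γ 2 + (1076768) * γ 3 + (117040) * γ 4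
       + (10640) * γ 5 + (760) * γ 6 + (38) * γ 7 + (1) * γ 8 + (0) * γ 9 + (0) * γ 10 + (0) * γ 11
       + (0) * γ 12 + (0) * γ 13 := by
  unfold Mat
  rw [show (26 / 2 + 1 : ℕ) = 14 from rfl]
  simp [sum_range_succ, Nat.choose]
  try ring

theorem m26_5 (γ : ℕ → ℝ) : Mat 26 γ 5 = (5439216640) * γ 0 + (1046003200) * γ 1 + (188280576) * γ 2 + (31380096) * γ 3
       + (4775232) * γ 4 + (651168) * γ 5 + (77520) * γ 6 + (7752) * γ 7 + (612) * γ 8 + (34) * γ 9
       + (1) * γ 10 + (0) * γ 11 + (0) * γ 12 + (0) * γ 13 := by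
  unfold Mat
  rw [show (26 / 2 + 1 : ℕ) = 14 from rfl]
  simp [sum_range_succ, Nat.choose]
  try ring

theorem m26_6 (γ : ℕ → ℝ) : Mat 26 γ 6 = (39557939200) * γ 0 + (9128755200) * γ 1 + (2008326144) * γ 2 + (418401280) * γ 3
       + (81861120) * γ 4 + (14883840) * γ 5 + (2480640) * γ 6 + (372096) * γ 7 + (48960) * γ 8
       + (5440) * γ 9 + (480) * γ 10 + (30) * γ 11 + (1) * γ 12 + (0) * γ 13 := by
  unfold Mat
  rw [show (26 / 2 + 1 : ℕ) = 14 from rfl]
  simp [sum_range_succ, Nat.choose]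
  try ring

theorem m26_7 (γ : ℕ → ℝ) : Mat 26 γ 7 = (158231756800) * γ 0 + (42600857600) * γ 1 + (11076222976) * γ 2 + (2769055744) * γ 3
       + (662165504) * γ 4 + (150492160) * γ 5 + (32248320) * γ 6 + (6449664) * γ 7
       + (1188096) * γ 8 + (198016) * γ 9 + (29120) * γ 10 + (3640) * γ 11 + (364) * γ 12
       + (26) * γ 13 := by
  unfold Mat
  rw [show (26 / 2 + 1 : ℕ) = 14 from rfl]
  simp [sum_range_succ, Nat.choose]
  try ring

theorem m26_8 (γ : ℕ → ℝ) : Mat 26 γ 8 = (348109864960) * γ 0 + (107110727680) * γ 1 + (32133218304) * γ 2 + (9372188672) * γ 3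
       + (2648662016) * γ 4 + (722362368) * γ 5 + (189190144) * γ 6 + (47297536) * γ 7
       + (11202048) * γ 8 + (2489344) * γ 9 + (512512) * γ 10 + (96096) * γ 11 + (16016) * γ 12
       + (2288) * γ 13 := by
  unfold Mat
  rw [show (26 / 2 + 1 : ℕ) = 14 from rfl]
  simp [sum_range_succ, Nat.choose]
  try ring

theorem m26_9 (γ : ℕ → ℝ) : Mat 26 γ 9 = (409541017600) * γ 0 + (141764198400) * γ 1 + (48199827456) * γ 2 + (16066609152) * γ 3
       + (5239111680) * γ 4 + (1666990080) * γ 5 + (515973120) * γ 6 + (154791936) * γ 7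
       + (44808192) * γ 8 + (12446720) * γ 9 + (3294720) * γ 10 + (823680) * γ 11 + (192192) * γ 12
       + (41184) * γ 13 := by
  unfold Mat
  rw [show (26 / 2 + 1 : ℕ) = 14 from rfl]
  simp [sum_range_succ, Nat.choose]
  try ring

theorem m26_10 (γ : ℕ → ℝ) : Mat 26 γ 10 = (241413652480) * γ 0 + (92851404800) * γ 1 + (35283533824) * γ 2 + (13231325184) * γ 3
       + (4889837568) * γ 4 + (1778122752) * γ 5 + (635043840) * γ 6 + (222265344) * γ 7
       + (76038144) * γ 8 + (25346048) * γ 9 + (8200192) * γ 10 + (2562560) * γ 11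
       + (768768) * γ 12 + (219648) * γ 13 := by
  unfold Mat
  rw [show (26 / 2 + 1 : ℕ) = 14 from rfl]
  simp [sum_range_succ, Nat.choose]
  try ring

theorem m26_11 (γ : ℕ → ℝ) : Mat 26 γ 11 = (62704844800) * γ 0 + (26528972800) * γ 1 + (11142168576) * γ 2 + (4642570240) * γ 3
       + (1917583360) * γ 4 + (784465920) * γ 5 + (317521920) * γ 6 + (127008768) * γ 7
       + (50135040) * γ 8 + (19496960) * γ 9 + (7454720) * γ 10 + (2795520) * γ 11
       + (1025024) * γ 12 + (366080) * γ 13 := by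
  unfold Mat
  rw [show (26 / 2 + 1 : ℕ) = 14 from rfl]
  simp [sum_range_succ, Nat.choose]
  try ring

theorem m26_12 (γ : ℕ → ℝ) : Mat 26 γ 12 = (5452595200) * γ 0 + (2516582400) * γ 1 + (1157627904) * γ 2 + (530579456) * γ 3
       + (242221056) * γ 4 + (110100480) * γ 5 + (49807360) * γ 6 + (22413312) * γ 7
       + (10027008) * γ 8 + (4456448) * γ 9 + (1966080) * γ 10 + (860160) * γ 11 + (372736) * γ 12
       + (159744) * γ 13 := by
  unfold Mat
  rw [show (26 / 2 + 1 : ℕ) = 14 from rfl]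
  simp [sum_range_succ, Nat.choose]
  try ring

theorem m26_13 (γ : ℕ → ℝ) : Mat 26 γ 13 = (67108864) * γ 0 + (33554432) * γ 1 + (16777216) * γ 2 + (8388608) * γ 3 + (4194304) * γ 4
       + (2097152) * γ 5 + (1048576) * γ 6 + (524288) * γ 7 + (262144) * γ 8 + (131072) * γ 9
       + (65536) * γ 10 + (32768) * γ 11 + (16384) * γ 12 + (8192) * γ 13 := by
  unfold Mat
  rw [show (26 / 2 + 1 : ℕ) = 14 from rfl]
  simp [sum_range_succ, Nat.choose]
  try ring

theorem mm26_0 (γ : ℕ → ℝ) : Mat 26 (Mat 26 γ) 0 =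
      (1) * γ 0 + (0) * γ 1 + (0) * γ 2 + (0) * γ 3 + (0) * γ 4 + (0) * γ 5 + (0) * γ 6 + (0) * γ 7
       + (0) * γ 8 + (0) * γ 9 + (0) * γ 10 + (0) * γ 11 + (0) * γ 12 + (0) * γ 13 := by
  rw [m26_0]
  simp only [m26_0, m26_1, m26_2, m26_3, m26_4, m26_5, m26_6, m26_7, m26_8, m26_9, m26_10, m26_11, m26_12, m26_13]
  ring

theorem mm26_1 (γ : ℕ → ℝ) : Mat 26 (Mat 26 γ) 1 =
      (305500) * γ 0 + (20900) * γ 1 + (1154) * γ 2 + (46) * γ 3 + (1) * γ 4 + (0) * γ 5
       + (0) * γ 6 + (0) * γ 7 + (0) * γ 8 + (0) * γ 9 + (0) * γ 10 + (0) * γ 11 + (0) * γ 12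
       + (0) * γ 13 := by
  rw [m26_1]
  simp only [m26_0, m26_1, m26_2, m26_3, m26_4, m26_5, m26_6, m26_7, m26_8, m26_9, m26_10, m26_11, m26_12, m26_13]
  ring

theorem mm26_2 (γ : ℕ → ℝ) : Mat 26 (Mat 26 γ) 2 =
      (1365975520) * γ 0 + (160970560) * γ 1 + (17672096) * γ 2 + (1779280) * γ 3 + (160648) * γ 4
       + (12572) * γ 5 + (806) * γ 6 + (38) * γ 7 + (1) * γ 8 + (0) * γ 9 + (0) * γ 10 + (0) * γ 11
       + (0) * γ 12 + (0) * γ 13 := by
  rw [m26_2]
  simp only [m26_0, m26_1, m26_2, m26_3, m26_4, m26_5, m26_6, m26_7, m26_8, m26_9, m26_10, m26_11, m26_12, m26_13]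
  ring

theorem mm26_3 (γ : ℕ → ℝ) : Mat 26 (Mat 26 γ) 3 =
      (889206098560) * γ 0 + (137215409280) * γ 1 + (20473763904) * γ 2 + (2939851904) * γ 3
       + (403827072) * γ 4 + (52659312) * γ 5 + (6452888) * γ 6 + (732792) * γ 7 + (75588) * γ 8
       + (6868) * γ 9 + (522) * γ 10 + (30) * γ 11 + (1) * γ 12 + (0) * γ 13 := by
  rw [m26_3]
  simp only [m26_0, m26_1, m26_2, m26_3, m26_4, m26_5, m26_6, m26_7, m26_8, m26_9, m26_10, m26_11, m26_12, m26_13]
  ring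

theorem mm26_4 (γ : ℕ → ℝ) : Mat 26 (Mat 26 γ) 4 =
      (159114240613120) * γ 0 + (28986950312960) * γ 1 + (5183501636096) * γ 2
       + (908142327552) * γ 3 + (155535780224) * γ 4 + (25971740224) * γ 5 + (4214752672) * γ 6
       + (662106528) * γ 7 + (100188016) * γ 8 + (14510112) * γ 9 + (1994512) * γ 10
       + (257216) * γ 11 + (30608) * γ 12 + (3276) * γ 13 := by
  rw [m26_4]
  simp only [m26_0, m26_1, m26_2, m26_3, m26_4, m26_5, m26_6, m26_7, m26_8, m26_9, m26_10, m26_11, m26_12, m26_13]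
  ring

theorem mm26_5 (γ : ℕ → ℝ) : Mat 26 (Mat 26 γ) 5 =
      (10480793524065280) * γ 0 + (2140177324088320) * γ 1 + (432168778817024) * γ 2
       + (86224248325632) * γ 3 + (16980536711424) * γ 4 + (3297098252544) * γ 5
       + (630389787264) * γ 6 + (118503273600) * γ 7 + (21863959488) * γ 8 + (3950881600) * γ 9
       + (697477024) * γ 10 + (119921312) * γ 11 + (20004336) * γ 12 + (3221712) * γ 13 := by
  rw [m26_5]
  simp only [m26_0, m26_1, m26_2, m26_3, m26_4, m26_5, m26_6, m26_7, m26_8, m26_9, m26_10, m26_11, m26_12, m26_13]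
  ring

theorem mm26_6 (γ : ℕ → ℝ) : Mat 26 (Mat 26 γ) 6 =
      (296749024607027200) * γ 0 + (65911654531891200) * γ 1 + (14536936055586816) * γ 2
       + (3182235127128064) * γ 3 + (691084681334784) * γ 4 + (148811865692160) * γ 5
       + (31753513548800) * γ 6 + (6709696183296) * γ 7 + (1402949896704) * γ 8
       + (290025601024) * γ 9 + (59218590720) * γ 10 + (11929282560) * γ 11 + (2367723520) * γ 12
       + (462309120) * γ 13 := by
  rw [m26_6]
  simp only [m26_0, m26_1, m26_2, m26_3, m26_4, m26_5, m26_6, m26_7, m26_8, m26_9, m26_10, m26_11, m26_12, m26_13]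
  ring

theorem mm26_7 (γ : ℕ → ℝ) : Mat 26 (Mat 26 γ) 7 =
      (3925056311960469504) * γ 0 + (930350788313546752) * γ 1 + (219514975823298560) * γ 2
       + (51546310097764352) * γ 3 + (12043086154924032) * γ 4 + (2798761191170048) * γ 5
       + (646772868378624) * γ 6 + (148577558245376) * γ 7 + (33916687427584) * γ 8
       + (7690585024512) * γ 9 + (1731406763008) * γ 10 + (386828708864) * γ 11
       + (85719276032) * γ 12 + (18828186624) * γ 13 := by
  rw [m26_7]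
  simp only [m26_0, m26_1, m26_2, m26_3, m26_4, m26_5, m26_6, m26_7, m26_8, m26_9, m26_10, m26_11, m26_12, m26_13]
  ring

theorem mm26_8 (γ : ℕ → ℝ) : Mat 26 (Mat 26 γ) 8 =
      (25151136968936456192) * γ 0 + (6280017935900082176) * γ 1 + (1563401666675605504) * γ 2
       + (387999857182113792) * γ 3 + (95980904973533184) * γ 4 + (23662849968340992) * γ 5
       + (5813130554458112) * γ 6 + (1422789020696576) * γ 7 + (346879810920448) * γ 8
       + (84224750305280) * γ 9 + (20362417627136) * γ 10 + (4900565942272) * γ 11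
       + (1173760253952) * γ 12 + (279709427712) * γ 13 := by
  rw [m26_8]
  simp only [m26_0, m26_1, m26_2, m26_3, m26_4, m26_5, m26_6, m26_7, m26_8, m26_9, m26_10, m26_11, m26_12, m26_13]
  ring

theorem mm26_9 (γ : ℕ → ℝ) : Mat 26 (Mat 26 γ) 9 =
      (77858453316952129536) * γ 0 + (20290901849052807168) * γ 1 + (5277940849892524032) * γ 2
       + (1370140016325033984) * γ 3 + (354952720228220928) * γ 4 + (91758666434347008) * γ 5
       + (23667831413735424) * γ 6 + (6090683972124672) * γ 7 + (1563611228504064) * γ 8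
       + (400407973101568) * γ 9 + (102268272918528) * γ 10 + (26049121173504) * γ 11
       + (6616146960384) * γ 12 + (1675401781248) * γ 13 := by
  rw [m26_9]
  simp only [m26_0, m26_1, m26_2, m26_3, m26_4, m26_5, m26_6, m26_7, m26_8, m26_9, m26_10, m26_11, m26_12, m26_13]
  ring

theorem mm26_10 (γ : ℕ → ℝ) : Mat 26 (Mat 26 γ) 10 =
      (111115634423063642112) * γ 0 + (30018781675568234496) * γ 1 + (8100235260733685760) * γ 2
       + (2183095136107364352) * γ 3 + (587626142092492800) * γ 4 + (157966518499147776) * γ 5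
       + (42407786562060288) * γ 6 + (11369016454938624) * γ 7 + (3043518388174848) * γ 8
       + (813546803298304) * γ 9 + (217129728868352) * γ 10 + (57857724121088) * γ 11
       + (15391551127552) * γ 12 + (4087468982272) * γ 13 := by
  rw [m26_10]
  simp only [m26_0, m26_1, m26_2, m26_3, m26_4, m26_5, m26_6, m26_7, m26_8, m26_9, m26_10, m26_11, m26_12, m26_13]
  ring

theorem mm26_11 (γ : ℕ → ℝ) : Mat 26 (Mat 26 γ) 11 =
      (65180127284082769920) * γ 0 + (18158810633821224960) * γ 1 + (5055604732144386048) * γ 2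
       + (1406579873018806272) * γ 3 + (391068623843622912) * γ 4 + (108650112362741760) * γ 5
       + (30163863986503680) * γ 6 + (8367850177167360) * γ 7 + (2319535614197760) * γ 8
       + (642448103833600) * γ 9 + (177792748748800) * γ 10 + (49160650096640) * γ 11
       + (13581157728256) * γ 12 + (3748512661504) * γ 13 := by
  rw [m26_11]
  simp only [m26_0, m26_1, m26_2, m26_3, m26_4, m26_5, m26_6, m26_7, m26_8, m26_9, m26_10, m26_11, m26_12, m26_13]
  ring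

theorem mm26_12 (γ : ℕ → ℝ) : Mat 26 (Mat 26 γ) 12 =
      (12066823708308668416) * γ 0 + (3452578958627831808) * γ 1 + (987580590200979456) * γ 2
       + (282407845670944768) * γ 3 + (80733383474282496) * γ 4 + (23072704995262464) * γ 5
       + (6591883008540672) * γ 6 + (1882706449268736) * γ 7 + (537544293875712) * γ 8
       + (153426602229760) * γ 9 + (43776186777600) * γ 10 + (12485960663040) * γ 11
       + (3559987871744) * γ 12 + (1014642769920) * γ 13 := by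
  rw [m26_12]
  simp only [m26_0, m26_1, m26_2, m26_3, m26_4, m26_5, m26_6, m26_7, m26_8, m26_9, m26_10, m26_11, m26_12, m26_13]
  ring

theorem mm26_13 (γ : ℕ → ℝ) : Mat 26 (Mat 26 γ) 13 =
      (300550676872691712) * γ 0 + (88029255165804544) * γ 1 + (25783171895263232) * γ 2
       + (7551716207624192) * γ 3 + (2211846467616768) * γ 4 + (647834831421440) * γ 5
       + (189746429034496) * γ 6 + (55575442358272) * γ 7 + (16277670199296) * γ 8
       + (4767619219456) * γ 9 + (1396403339264) * γ 10 + (408997068800) * γ 11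
       + (119792467968) * γ 12 + (35086401536) * γ 13 := by
  rw [m26_13]
  simp only [m26_0, m26_1, m26_2, m26_3, m26_4, m26_5, m26_6, m26_7, m26_8, m26_9, m26_10, m26_11, m26_12, m26_13]
  ring

theorem p26_0 (γ : ℕ → ℝ) (h0 : γ 0 = 1)
    (h : ∀ n < 26, 2 * (((26 : ℕ) : ℝ) - ((n : ℕ) : ℝ)) * ∑ i ∈ range (26 / 2 + 1), γ i * (cfn 26 i n : ℝ) ≤
      ((n : ℝ) + 1) * ∑ i ∈ range (26 / 2 + 1), γ i * (cfn 26 i (n + 1) : ℝ)) :
    0 < Mat 26 (Mat 26 (Mat 26 γ)) 0 := by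

  rw [m26_0]
  simp only [mm26_0, mm26_1, mm26_2, mm26_3, mm26_4, mm26_5, mm26_6, mm26_7, mm26_8, mm26_9, mm26_10, mm26_11, mm26_12, mm26_13]
  linarith only [h0]

theorem p26_1 (γ : ℕ → ℝ) (h0 : γ 0 = 1)
    (h : ∀ n < 26, 2 * (((26 : ℕ) : ℝ) - ((n : ℕ) : ℝ)) * ∑ i ∈ range (26 / 2 + 1), γ i * (cfn 26 i n : ℝ) ≤
      ((n : ℝ) + 1) * ∑ i ∈ range (26 / 2 + 1), γ i * (cfn 26 i (n + 1) : ℝ)) :
    0 < Mat 26 (Mat 26 (Mat 26 γ)) 1 := by
  have k0 := q26_0 γ h0 h
  have k1 := q26_1 γ h0 h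
  have k4 := q26_4 γ h0 h
  have k6 := q26_6 γ h0 h
  have k2 := q26_2 γ h0 h
  have k7 := q26_7 γ h0 h
  have k5 := q26_5 γ h0 h
  have k3 := q26_3 γ h0 h
  rw [m26_1]
  simp only [mm26_0, mm26_1, mm26_2, mm26_3, mm26_4, mm26_5, mm26_6, mm26_7, mm26_8, mm26_9, mm26_10, mm26_11, mm26_12, mm26_13]
  linarith only [h0, k0, k1, k4, k6, k2, k7, k5, k3]

theorem p26_2 (γ : ℕ → ℝ) (h0 : γ 0 = 1)
    (h : ∀ n < 26, 2 * (((26 : ℕ) : ℝ) - ((n : ℕ) : ℝ)) * ∑ i ∈ range (26 / 2 + 1), γ i * (cfn 26 i n : ℝ) ≤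
      ((n : ℝ) + 1) * ∑ i ∈ range (26 / 2 + 1), γ i * (cfn 26 i (n + 1) : ℝ)) :
    0 < Mat 26 (Mat 26 (Mat 26 γ)) 2 := by
  have k1 := q26_1 γ h0 h
  have k0 := q26_0 γ h0 h
  have k3 := q26_3 γ h0 h
  have k2 := q26_2 γ h0 h
  have k7 := q26_7 γ h0 h
  have k10 := q26_10 γ h0 h
  have k4 := q26_4 γ h0 h
  have k12 := q26_12 γ h0 h
  have k6 := q26_6 γ h0 h
  have k5 := q26_5 γ h0 h
  have k13 := q26_13 γ h0 h
  have k8 := q26_8 γ h0 h
  have k11 := q26_11 γ h0 h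
  rw [m26_2]
  simp only [mm26_0, mm26_1, mm26_2, mm26_3, mm26_4, mm26_5, mm26_6, mm26_7, mm26_8, mm26_9, mm26_10, mm26_11, mm26_12, mm26_13]
  linarith only [h0, k1, k0, k3, k2, k7, k10, k4, k12, k6, k5, k13, k8, k11]

theorem p26_3 (γ : ℕ → ℝ) (h0 : γ 0 = 1)
    (h : ∀ n < 26, 2 * (((26 : ℕ) : ℝ) - ((n : ℕ) : ℝ)) * ∑ i ∈ range (26 / 2 + 1), γ i * (cfn 26 i n : ℝ) ≤
      ((n : ℝ) + 1) * ∑ i ∈ range (26 / 2 + 1), γ i * (cfn 26 i (n + 1) : ℝ)) :
    0 < Mat 26 (Mat 26 (Mat 26 γ)) 3 := by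
  have k0 := q26_0 γ h0 h
  have k3 := q26_3 γ h0 h
  have k9 := q26_9 γ h0 h
  have k2 := q26_2 γ h0 h
  have k1 := q26_1 γ h0 h
  have k5 := q26_5 γ h0 h
  have k11 := q26_11 γ h0 h
  have k4 := q26_4 γ h0 h
  have k8 := q26_8 γ h0 h
  have k15 := q26_15 γ h0 h
  have k6 := q26_6 γ h0 h
  have k12 := q26_12 γ h0 h
  have k16 := q26_16 γ h0 h
  rw [m26_3]
  simp only [mm26_0, mm26_1, mm26_2, mm26_3, mm26_4, mm26_5, mm26_6, mm26_7, mm26_8, mm26_9, mm26_10, mm26_11, mm26_12, mm26_13]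
  linarith only [h0, k0, k3, k9, k2, k1, k5, k11, k4, k8, k15, k6, k12, k16]

theorem p26_4 (γ : ℕ → ℝ) (h0 : γ 0 = 1)
    (h : ∀ n < 26, 2 * (((26 : ℕ) : ℝ) - ((n : ℕ) : ℝ)) * ∑ i ∈ range (26 / 2 + 1), γ i * (cfn 26 i n : ℝ) ≤
      ((n : ℝ) + 1) * ∑ i ∈ range (26 / 2 + 1), γ i * (cfn 26 i (n + 1) : ℝ)) :
    0 < Mat 26 (Mat 26 (Mat 26 γ)) 4 := by
  have k16 := q26_16 γ h0 h
  have k0 := q26_0 γ h0 h
  have k9 := q26_9 γ h0 h
  have k2 := q26_2 γ h0 h
  have k1 := q26_1 γ h0 h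
  have k4 := q26_4 γ h0 h
  have k5 := q26_5 γ h0 h
  have k3 := q26_3 γ h0 h
  have k12 := q26_12 γ h0 h
  have k6 := q26_6 γ h0 h
  have k8 := q26_8 γ h0 h
  have k17 := q26_17 γ h0 h
  have k13 := q26_13 γ h0 h
  rw [m26_4]
  simp only [mm26_0, mm26_1, mm26_2, mm26_3, mm26_4, mm26_5, mm26_6, mm26_7, mm26_8, mm26_9, mm26_10, mm26_11, mm26_12, mm26_13]
  linarith only [h0, k16, k0, k9, k2, k1, k4, k5, k3, k12, k6, k8, k17, k13]

theorem p26_5 (γ : ℕ → ℝ) (h0 : γ 0 = 1)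
    (h : ∀ n < 26, 2 * (((26 : ℕ) : ℝ) - ((n : ℕ) : ℝ)) * ∑ i ∈ range (26 / 2 + 1), γ i * (cfn 26 i n : ℝ) ≤
      ((n : ℝ) + 1) * ∑ i ∈ range (26 / 2 + 1), γ i * (cfn 26 i (n + 1) : ℝ)) :
    0 < Mat 26 (Mat 26 (Mat 26 γ)) 5 := by
  have k0 := q26_0 γ h0 h
  have k5 := q26_5 γ h0 h
  have k2 := q26_2 γ h0 h
  have k12 := q26_12 γ h0 h
  have k3 := q26_3 γ h0 h
  have k1 := q26_1 γ h0 h
  have k9 := q26_9 γ h0 h
  have k4 := q26_4 γ h0 h
  have k17 := q26_17 γ h0 h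
  have k6 := q26_6 γ h0 h
  have k8 := q26_8 γ h0 h
  have k13 := q26_13 γ h0 h
  have k18 := q26_18 γ h0 h
  rw [m26_5]
  simp only [mm26_0, mm26_1, mm26_2, mm26_3, mm26_4, mm26_5, mm26_6, mm26_7, mm26_8, mm26_9, mm26_10, mm26_11, mm26_12, mm26_13]
  linarith only [h0, k0, k5, k2, k12, k3, k1, k9, k4, k17, k6, k8, k13, k18]

theorem p26_6 (γ : ℕ → ℝ) (h0 : γ 0 = 1)
    (h : ∀ n < 26, 2 * (((26 : ℕ) : ℝ) - ((n : ℕ) : ℝ)) * ∑ i ∈ range (26 / 2 + 1), γ i * (cfn 26 i n : ℝ) ≤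
      ((n : ℝ) + 1) * ∑ i ∈ range (26 / 2 + 1), γ i * (cfn 26 i (n + 1) : ℝ)) :
    0 < Mat 26 (Mat 26 (Mat 26 γ)) 6 := by
  have k1 := q26_1 γ h0 h
  have k17 := q26_17 γ h0 h
  have k0 := q26_0 γ h0 h
  have k4 := q26_4 γ h0 h
  have k3 := q26_3 γ h0 h
  have k2 := q26_2 γ h0 h
  have k18 := q26_18 γ h0 h
  have k6 := q26_6 γ h0 h
  have k5 := q26_5 γ h0 h
  have k12 := q26_12 γ h0 h
  have k8 := q26_8 γ h0 h
  have k13 := q26_13 γ h0 h
  have k9 := q26_9 γ h0 h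
  rw [m26_6]
  simp only [mm26_0, mm26_1, mm26_2, mm26_3, mm26_4, mm26_5, mm26_6, mm26_7, mm26_8, mm26_9, mm26_10, mm26_11, mm26_12, mm26_13]
  linarith only [h0, k1, k17, k0, k4, k3, k2, k18, k6, k5, k12, k8, k13, k9]

theorem p26_7 (γ : ℕ → ℝ) (h0 : γ 0 = 1)
    (h : ∀ n < 26, 2 * (((26 : ℕ) : ℝ) - ((n : ℕ) : ℝ)) * ∑ i ∈ range (26 / 2 + 1), γ i * (cfn 26 i n : ℝ) ≤
      ((n : ℝ) + 1) * ∑ i ∈ range (26 / 2 + 1), γ i * (cfn 26 i (n + 1) : ℝ)) :
    0 < Mat 26 (Mat 26 (Mat 26 γ)) 7 := by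
  have k1 := q26_1 γ h0 h
  have k0 := q26_0 γ h0 h
  have k5 := q26_5 γ h0 h
  have k2 := q26_2 γ h0 h
  have k3 := q26_3 γ h0 h
  have k4 := q26_4 γ h0 h
  have k6 := q26_6 γ h0 h
  have k13 := q26_13 γ h0 h
  have k18 := q26_18 γ h0 h
  have k12 := q26_12 γ h0 h
  have k8 := q26_8 γ h0 h
  have k9 := q26_9 γ h0 h
  have k19 := q26_19 γ h0 h
  rw [m26_7]
  simp only [mm26_0, mm26_1, mm26_2, mm26_3, mm26_4, mm26_5, mm26_6, mm26_7, mm26_8, mm26_9, mm26_10, mm26_11, mm26_12, mm26_13]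
  linarith only [h0, k1, k0, k5, k2, k3, k4, k6, k13, k18, k12, k8, k9, k19]

theorem p26_8 (γ : ℕ → ℝ) (h0 : γ 0 = 1)
    (h : ∀ n < 26, 2 * (((26 : ℕ) : ℝ) - ((n : ℕ) : ℝ)) * ∑ i ∈ range (26 / 2 + 1), γ i * (cfn 26 i n : ℝ) ≤
      ((n : ℝ) + 1) * ∑ i ∈ range (26 / 2 + 1), γ i * (cfn 26 i (n + 1) : ℝ)) :
    0 < Mat 26 (Mat 26 (Mat 26 γ)) 8 := by
  have k0 := q26_0 γ h0 h
  have k13 := q26_13 γ h0 h
  have k1 := q26_1 γ h0 h
  have k5 := q26_5 γ h0 h
  have k18 := q26_18 γ h0 h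
  have k4 := q26_4 γ h0 h
  have k2 := q26_2 γ h0 h
  have k3 := q26_3 γ h0 h
  have k19 := q26_19 γ h0 h
  have k12 := q26_12 γ h0 h
  have k8 := q26_8 γ h0 h
  have k9 := q26_9 γ h0 h
  have k6 := q26_6 γ h0 h
  rw [m26_8]
  simp only [mm26_0, mm26_1, mm26_2, mm26_3, mm26_4, mm26_5, mm26_6, mm26_7, mm26_8, mm26_9, mm26_10, mm26_11, mm26_12, mm26_13]
  linarith only [h0, k0, k13, k1, k5, k18, k4, k2, k3, k19, k12, k8, k9, k6]

theorem p26_9 (γ : ℕ → ℝ) (h0 : γ 0 = 1)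
    (h : ∀ n < 26, 2 * (((26 : ℕ) : ℝ) - ((n : ℕ) : ℝ)) * ∑ i ∈ range (26 / 2 + 1), γ i * (cfn 26 i n : ℝ) ≤
      ((n : ℝ) + 1) * ∑ i ∈ range (26 / 2 + 1), γ i * (cfn 26 i (n + 1) : ℝ)) :
    0 < Mat 26 (Mat 26 (Mat 26 γ)) 9 := by
  have k1 := q26_1 γ h0 h
  have k18 := q26_18 γ h0 h
  have k0 := q26_0 γ h0 h
  have k3 := q26_3 γ h0 h
  have k5 := q26_5 γ h0 h
  have k13 := q26_13 γ h0 h
  have k2 := q26_2 γ h0 h
  have k19 := q26_19 γ h0 h
  have k4 := q26_4 γ h0 h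
  have k12 := q26_12 γ h0 h
  have k8 := q26_8 γ h0 h
  have k9 := q26_9 γ h0 h
  have k6 := q26_6 γ h0 h
  rw [m26_9]
  simp only [mm26_0, mm26_1, mm26_2, mm26_3, mm26_4, mm26_5, mm26_6, mm26_7, mm26_8, mm26_9, mm26_10, mm26_11, mm26_12, mm26_13]
  linarith only [h0, k1, k18, k0, k3, k5, k13, k2, k19, k4, k12, k8, k9, k6]

theorem p26_10 (γ : ℕ → ℝ) (h0 : γ 0 = 1)
    (h : ∀ n < 26, 2 * (((26 : ℕ) : ℝ) - ((n : ℕ) : ℝ)) * ∑ i ∈ range (26 / 2 + 1), γ i * (cfn 26 i n : ℝ) ≤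
      ((n : ℝ) + 1) * ∑ i ∈ range (26 / 2 + 1), γ i * (cfn 26 i (n + 1) : ℝ)) :
    0 < Mat 26 (Mat 26 (Mat 26 γ)) 10 := by
  have k20 := q26_20 γ h0 h
  have k2 := q26_2 γ h0 h
  have k0 := q26_0 γ h0 h
  have k8 := q26_8 γ h0 h
  have k1 := q26_1 γ h0 h
  have k4 := q26_4 γ h0 h
  have k5 := q26_5 γ h0 h
  have k3 := q26_3 γ h0 h
  have k19 := q26_19 γ h0 h
  have k12 := q26_12 γ h0 h
  have k13 := q26_13 γ h0 h
  have k9 := q26_9 γ h0 h
  have k6 := q26_6 γ h0 h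
  rw [m26_10]
  simp only [mm26_0, mm26_1, mm26_2, mm26_3, mm26_4, mm26_5, mm26_6, mm26_7, mm26_8, mm26_9, mm26_10, mm26_11, mm26_12, mm26_13]
  linarith only [h0, k20, k2, k0, k8, k1, k4, k5, k3, k19, k12, k13, k9, k6]

theorem p26_11 (γ : ℕ → ℝ) (h0 : γ 0 = 1)
    (h : ∀ n < 26, 2 * (((26 : ℕ) : ℝ) - ((n : ℕ) : ℝ)) * ∑ i ∈ range (26 / 2 + 1), γ i * (cfn 26 i n : ℝ) ≤
      ((n : ℝ) + 1) * ∑ i ∈ range (26 / 2 + 1), γ i * (cfn 26 i (n + 1) : ℝ)) :
    0 < Mat 26 (Mat 26 (Mat 26 γ)) 11 := by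
  have k3 := q26_3 γ h0 h
  have k20 := q26_20 γ h0 h
  have k0 := q26_0 γ h0 h
  have k1 := q26_1 γ h0 h
  have k19 := q26_19 γ h0 h
  have k2 := q26_2 γ h0 h
  have k8 := q26_8 γ h0 h
  have k6 := q26_6 γ h0 h
  have k4 := q26_4 γ h0 h
  have k5 := q26_5 γ h0 h
  have k13 := q26_13 γ h0 h
  have k9 := q26_9 γ h0 h
  have k14 := q26_14 γ h0 h
  rw [m26_11]
  simp only [mm26_0, mm26_1, mm26_2, mm26_3, mm26_4, mm26_5, mm26_6, mm26_7, mm26_8, mm26_9, mm26_10, mm26_11, mm26_12, mm26_13]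
  linarith only [h0, k3, k20, k0, k1, k19, k2, k8, k6, k4, k5, k13, k9, k14]

theorem p26_12 (γ : ℕ → ℝ) (h0 : γ 0 = 1)
    (h : ∀ n < 26, 2 * (((26 : ℕ) : ℝ) - ((n : ℕ) : ℝ)) * ∑ i ∈ range (26 / 2 + 1), γ i * (cfn 26 i n : ℝ) ≤
      ((n : ℝ) + 1) * ∑ i ∈ range (26 / 2 + 1), γ i * (cfn 26 i (n + 1) : ℝ)) :
    0 < Mat 26 (Mat 26 (Mat 26 γ)) 12 := by
  have k5 := q26_5 γ h0 h
  have k8 := q26_8 γ h0 h
  have k0 := q26_0 γ h0 h
  have k1 := q26_1 γ h0 h
  have k19 := q26_19 γ h0 h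
  have k3 := q26_3 γ h0 h
  have k2 := q26_2 γ h0 h
  have k6 := q26_6 γ h0 h
  have k4 := q26_4 γ h0 h
  have k20 := q26_20 γ h0 h
  have k13 := q26_13 γ h0 h
  have k9 := q26_9 γ h0 h
  have k14 := q26_14 γ h0 h
  rw [m26_12]
  simp only [mm26_0, mm26_1, mm26_2, mm26_3, mm26_4, mm26_5, mm26_6, mm26_7, mm26_8, mm26_9, mm26_10, mm26_11, mm26_12, mm26_13]
  linarith only [h0, k5, k8, k0, k1, k19, k3, k2, k6, k4, k20, k13, k9, k14]

theorem p26_13 (γ : ℕ → ℝ) (h0 : γ 0 = 1)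
    (h : ∀ n < 26, 2 * (((26 : ℕ) : ℝ) - ((n : ℕ) : ℝ)) * ∑ i ∈ range (26 / 2 + 1), γ i * (cfn 26 i n : ℝ) ≤
      ((n : ℝ) + 1) * ∑ i ∈ range (26 / 2 + 1), γ i * (cfn 26 i (n + 1) : ℝ)) :
    0 < Mat 26 (Mat 26 (Mat 26 γ)) 13 := by
  have k3 := q26_3 γ h0 h
  have k20 := q26_20 γ h0 h
  have k0 := q26_0 γ h0 h
  have k1 := q26_1 γ h0 h
  have k8 := q26_8 γ h0 h
  have k6 := q26_6 γ h0 h
  have k2 := q26_2 γ h0 h
  have k21 := q26_21 γ h0 h
  have k4 := q26_4 γ h0 h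
  have k5 := q26_5 γ h0 h
  have k13 := q26_13 γ h0 h
  have k9 := q26_9 γ h0 h
  have k14 := q26_14 γ h0 h
  rw [m26_13]
  simp only [mm26_0, mm26_1, mm26_2, mm26_3, mm26_4, mm26_5, mm26_6, mm26_7, mm26_8, mm26_9, mm26_10, mm26_11, mm26_12, mm26_13]
  linarith only [h0, k3, k20, k0, k1, k8, k6, k2, k21, k4, k5, k13, k9, k14]

theorem main26 (γ : ℕ → ℝ) (h0 : γ 0 = 1)
    (h : ∀ n < 26, 2 * (((26 : ℕ) : ℝ) - ((n : ℕ) : ℝ)) * ∑ i ∈ range (26 / 2 + 1), γ i * (cfn 26 i n : ℝ) ≤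
      ((n : ℝ) + 1) * ∑ i ∈ range (26 / 2 + 1), γ i * (cfn 26 i (n + 1) : ℝ)) :
    ∀ j ≤ 26 / 2, 0 < Mat 26 (Mat 26 (Mat 26 γ)) j := by
  intro j hj
  have hj' : j ≤ 13 := hj
  clear hj
  interval_cases j
  · exact p26_0 γ h0 h
  · exact p26_1 γ h0 h
  · exact p26_2 γ h0 h
  · exact p26_3 γ h0 h
  · exact p26_4 γ h0 h
  · exact p26_5 γ h0 h
  · exact p26_6 γ h0 h
  · exact p26_7 γ h0 h
  · exact p26_8 γ h0 h
  · exact p26_9 γ h0 h
  · exact p26_10 γ h0 h
  · exact p26_11 γ h0 h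
  · exact p26_12 γ h0 h
  · exact p26_13 γ h0 h

theorem c27_0 (γ : ℕ → ℝ) : ∑ i ∈ range (27 / 2 + 1), γ i * (cfn 27 i 0 : ℝ) =
    (1) * γ 0 + (0) * γ 1 + (0) * γ 2 + (0) * γ 3 + (0) * γ 4 + (0) * γ 5 + (0) * γ 6 + (0) * γ 7
       + (0) * γ 8 + (0) * γ 9 + (0) * γ 10 + (0) * γ 11 + (0) * γ 12 + (0) * γ 13 := by
  have h : ((27 / 2 + 1 : ℕ)) = 14 := rfl
  rw [h]
  simp only [sum_range_succ, sum_range_zero, show cfn 27 0 0 = 1 from by decide +kernel, show cfn 27 1 0 = 0 from by decide +kernel, show cfn 27 2 0 = 0 from by decide +kernel, show cfn 27 3 0 = 0 from by decide +kernel, show cfn 27 4 0 = 0 from by decide +kernel, show cfn 27 5 0 = 0 from by decide +kernel, show cfn 27 6 0 = 0 from by decide +kernel, show cfn 27 7 0 = 0 from by decide +kernel, show cfn 27 8 0 = 0 from by decide +kernel, show cfn 27 9 0 = 0 from by decide +kernel, show cfn 27 10 0 = 0 from by decide +kernel, show cfn 27 11 0 = 0 from by decide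 +kernel, show cfn 27 12 0 = 0 from by decide +kernel, show cfn 27 13 0 = 0 from by decide +kernel, Nat.cast_ofNat, Nat.cast_one, Nat.cast_zero]
  ring

theorem c27_1 (γ : ℕ → ℝ) : ∑ i ∈ range (27 / 2 + 1), γ i * (cfn 27 i 1 : ℝ) =
    (54) * γ 0 + (1) * γ 1 + (0) * γ 2 + (0) * γ 3 + (0) * γ 4 + (0) * γ 5 + (0) * γ 6
       + (0) * γ 7 + (0) * γ 8 + (0) * γ 9 + (0) * γ 10 + (0) * γ 11 + (0) * γ 12 + (0) * γ 13 := by
  have h : ((27 / 2 + 1 : ℕ)) = 14 := rfl
  rw [h]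
  simp only [sum_range_succ, sum_range_zero, show cfn 27 0 1 = 54 from by decide +kernel, show cfn 27 1 1 = 1 from by decide +kernel, show cfn 27 2 1 = 0 from by decide +kernel, show cfn 27 3 1 = 0 from by decide +kernel, show cfn 27 4 1 = 0 from by decide +kernel, show cfn 27 5 1 = 0 from by decide +kernel, show cfn 27 6 1 = 0 from by decide +kernel, show cfn 27 7 1 = 0 from by decide +kernel, show cfn 27 8 1 = 0 from by decide +kernel, show cfn 27 9 1 = 0 from by decide +kernel, show cfn 27 10 1 = 0 from by decide +kernel, show cfn 27 11 1 = 0 from by decide +kernel, show cfn 27 12 1 = 0 from by decide +kernel, show cfn 27 13 1 = 0 from by decide +kernel, Nat.cast_ofNat, Nat.cast_one, Nat.cast_zero]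
  ring

theorem c27_2 (γ : ℕ → ℝ) : ∑ i ∈ range (27 / 2 + 1), γ i * (cfn 27 i 2 : ℝ) =
    (1404) * γ 0 + (51) * γ 1 + (1) * γ 2 + (0) * γ 3 + (0) * γ 4 + (0) * γ 5 + (0) * γ 6
       + (0) * γ 7 + (0) * γ 8 + (0) * γ 9 + (0) * γ 10 + (0) * γ 11 + (0) * γ 12 + (0) * γ 13 := by
  have h : ((27 / 2 + 1 : ℕ)) = 14 := rfl
  rw [h]
  simp only [sum_range_succ, sum_range_zero, show cfn 27 0 2 = 1404 from by decide +kernel, show cfn 27 1 2 = 51 from by decide +kernel, show cfn 27 2 2 = 1 from by decide +kernel, show cfn 27 3 2 = 0 from by decide +kernel, show cfn 27 4 2 = 0 from by decide +kernel, show cfn 27 5 2 = 0 from by decide +kernel, show cfn 27 6 2 = 0 from by decide +kernel, show cfn 27 7 2 = 0 from by decide +kernel, show cfn 27 8 2 = 0 from by decide +kernel, show cfn 27 9 2 = 0 from by decide +kernel, show cfn 27 10 2 = 0 from by decide +kernel, show cfn 27 11 2 = 0 from by decide +kernel, show cfn 27 12 2 = 0 from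 by decide +kernel, show cfn 27 13 2 = 0 from by decide +kernel, Nat.cast_ofNat, Nat.cast_one, Nat.cast_zero]
  ring

theorem c27_3 (γ : ℕ → ℝ) : ∑ i ∈ range (27 / 2 + 1), γ i * (cfn 27 i 3 : ℝ) =
    (23400) * γ 0 + (1250) * γ 1 + (48) * γ 2 + (1) * γ 3 + (0) * γ 4 + (0) * γ 5 + (0) * γ 6
       + (0) * γ 7 + (0) * γ 8 + (0) * γ 9 + (0) * γ 10 + (0) * γ 11 + (0) * γ 12 + (0) * γ 13 := by
  have h : ((27 / 2 + 1 : ℕ)) = 14 := rfl
  rw [h]
  simp only [sum_range_succ, sum_range_zero, show cfn 27 0 3 = 23400 from by decide +kernel, show cfn 27 1 3 = 1250 from by decide +kernel, show cfn 27 2 3 = 48 from by decide +kernel, show cfn 27 3 3 = 1 from by decide +kernel, show cfn 27 4 3 = 0 from by decide +kernel, show cfn 27 5 3 = 0 from by decide +kernel, show cfn 27 6 3 = 0 from by decide +kernel, show cfn 27 7 3 = 0 from by decide +kernel, show cfn 27 8 3 = 0 from by decide +kernel, show cfn 27 9 3 = 0 from by decide +kernel,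 show cfn 27 10 3 = 0 from by decide +kernel, show cfn 27 11 3 = 0 from by decide +kernel, show cfn 27 12 3 = 0 from by decide +kernel, show cfn 27 13 3 = 0 from by decide +kernel, Nat.cast_ofNat, Nat.cast_one, Nat.cast_zero]
  ring

theorem c27_4 (γ : ℕ → ℝ) : ∑ i ∈ range (27 / 2 + 1), γ i * (cfn 27 i 4 : ℝ) =
    (280800) * γ 0 + (19600) * γ 1 + (1105) * γ 2 + (45) * γ 3 + (1) * γ 4 + (0) * γ 5
       + (0) * γ 6 + (0) * γ 7 + (0) * γ 8 + (0) * γ 9 + (0) * γ 10 + (0) * γ 11 + (0) * γ 12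
       + (0) * γ 13 := by
  have h : ((27 / 2 + 1 : ℕ)) = 14 := rfl
  rw [h]
  simp only [sum_range_succ, sum_range_zero, show cfn 27 0 4 = 280800 from by decide +kernel, show cfn 27 1 4 = 19600 from by decide +kernel, show cfn 27 2 4 = 1105 from by decide +kernel, show cfn 27 3 4 = 45 from by decide +kernel, show cfn 27 4 4 = 1 from by decide +kernel, show cfn 27 5 4 = 0 from by decide +kernel, show cfn 27 6 4 = 0 from by decide +kernel, show cfn 27 7 4 = 0 from by decide +kernel, show cfn 27 8 4 = 0 from by decide +kernel, show cfn 27 9 4 = 0 from by decide +kernel, show cfn 27 10 4 = 0 from by decide +kernel, show cfn 27 11 4 = 0 from by decide +kernel, show cfn 27 12 4 = 0 from by decide +kernel, show cfn 27 13 4 = 0 from by decide +kernel, Nat.cast_ofNat, Nat.cast_one, Nat.cast_zero]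
  ring

theorem c27_5 (γ : ℕ → ℝ) : ∑ i ∈ range (27 / 2 + 1), γ i * (cfn 27 i 5 : ℝ) =
    (2583360) * γ 0 + (220800) * γ 1 + (16238) * γ 2 + (969) * γ 3 + (42) * γ 4 + (1) * γ 5
       + (0) * γ 6 + (0) * γ 7 + (0) * γ 8 + (0) * γ 9 + (0) * γ 10 + (0) * γ 11 + (0) * γ 12
       + (0) * γ 13 := by
  have h : ((27 / 2 + 1 : ℕ)) = 14 := rfl
  rw [h]
  simp only [sum_range_succ, sum_range_zero, show cfn 27 0 5 = 2583360 from by decide +kernel, show cfn 27 1 5 = 220800 from by decide +kernel, show cfn 27 2 5 = 16238 from by decide +kernel, show cfn 27 3 5 = 969 from by decide +kernel, show cfn 27 4 5 = 42 from by decide +kernel, show cfn 27 5 5 = 1 from by decide +kernel, show cfn 27 6 5 = 0 from by decide +kernel, show cfn 27 7 5 = 0 from by decide +kernel, show cfn 27 8 5 = 0 from by decide +kernel, show cfn 27 9 5 = 0 from by decide +kernel, show cfn 27 10 5 = 0 from by decide +kernel, show cfn 27 11 5 = 0 from by decide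 +kernel, show cfn 27 12 5 = 0 from by decide +kernel, show cfn 27 13 5 = 0 from by decide +kernel, Nat.cast_ofNat, Nat.cast_one, Nat.cast_zero]
  ring

theorem c27_6 (γ : ℕ → ℝ) : ∑ i ∈ range (27 / 2 + 1), γ i * (cfn 27 i 6 : ℝ) =
    (18944640) * γ 0 + (1902560) * γ 1 + (171028) * γ 2 + (13287) * γ 3 + (842) * γ 4
       + (39) * γ 5 + (1) * γ 6 + (0) * γ 7 + (0) * γ 8 + (0) * γ 9 + (0) * γ 10 + (0) * γ 11
       + (0) * γ 12 + (0) * γ 13 := by
  have h : ((27 / 2 + 1 : ℕ)) = 14 := rfl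
  rw [h]
  simp only [sum_range_succ, sum_range_zero, show cfn 27 0 6 = 18944640 from by decide +kernel, show cfn 27 1 6 = 1902560 from by decide +kernel, show cfn 27 2 6 = 171028 from by decide +kernel, show cfn 27 3 6 = 13287 from by decide +kernel, show cfn 27 4 6 = 842 from by decide +kernel, show cfn 27 5 6 = 39 from by decide +kernel, show cfn 27 6 6 = 1 from by decide +kernel, show cfn 27 7 6 = 0 from by decide +kernel, show cfn 27 8 6 = 0 from by decide +kernel, show cfn 27 9 6 = 0 from by decide +kernel, show cfn 27 10 6 = 0 from by decide +kernel, show cfn 27 11 6 = 0 from by decide +kernel, show cfn 27 12 6 = 0 from by decide +kernel, show cfn 27 13 6 = 0 from by decide +kernel, Nat.cast_ofNat, Nat.cast_one, Nat.cast_zero]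
  ring

theorem c27_7 (γ : ℕ → ℝ) : ∑ i ∈ range (27 / 2 + 1), γ i * (cfn 27 i 7 : ℝ) =
    (113667840) * γ 0 + (13034560) * γ 1 + (1374296) * γ 2 + (130242) * γ 3 + (10720) * γ 4
       + (724) * γ 5 + (36) * γ 6 + (1) * γ 7 + (0) * γ 8 + (0) * γ 9 + (0) * γ 10 + (0) * γ 11
       + (0) * γ 12 + (0) * γ 13 := by
  have h : ((27 / 2 + 1 : ℕ)) = 14 := rfl
  rw [h]
  simp only [sum_range_succ, sum_range_zero, show cfn 27 0 7 = 113667840 from by decide +kernel, show cfn 27 1 7 = 13034560 from by decide +kernel, show cfn 27 2 7 = 1374296 from by decide +kernel, show cfn 27 3 7 = 130242 from by decide +kernel, show cfn 27 4 7 = 10720 from by decide +kernel, show cfn 27 5 7 = 724 from by decide +kernel, show cfn 27 6 7 = 36 from by decide +kernel, show cfn 27 7 7 = 1 from by decide +kernel, show cfn 27 8 7 = 0 from by decide +kernel, show cfn 27 9 7 = 0 from by decide +kernel, show cfn 27 10 7 = 0 from by decide +kernel, show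 cfn 27 11 7 = 0 from by decide +kernel, show cfn 27 12 7 = 0 from by decide +kernel, show cfn 27 13 7 = 0 from by decide +kernel, Nat.cast_ofNat, Nat.cast_one, Nat.cast_zero]
  ring

theorem c27_8 (γ : ℕ → ℝ) : ∑ i ∈ range (27 / 2 + 1), γ i * (cfn 27 i 8 : ℝ) =
    (568339200) * γ 0 + (72864000) * γ 1 + (8755824) * γ 2 + (971208) * γ 3 + (97281) * γ 4
       + (8510) * γ 5 + (615) * γ 6 + (33) * γ 7 + (1) * γ 8 + (0) * γ 9 + (0) * γ 10 + (0) * γ 11
       + (0) * γ 12 + (0) * γ 13 := by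
  have h : ((27 / 2 + 1 : ℕ)) = 14 := rfl
  rw [h]
  simp only [sum_range_succ, sum_range_zero, show cfn 27 0 8 = 568339200 from by decide +kernel, show cfn 27 1 8 = 72864000 from by decide +kernel, show cfn 27 2 8 = 8755824 from by decide +kernel, show cfn 27 3 8 = 971208 from by decide +kernel, show cfn 27 4 8 = 97281 from by decide +kernel, show cfn 27 5 8 = 8510 from by decide +kernel, show cfn 27 6 8 = 615 from by decide +kernel, show cfn 27 7 8 = 33 from by decide +kernel, show cfn 27 8 8 = 1 from by decide +kernel, show cfn 27 9 8 = 0 from by decide +kernel, show cfn 27 10 8 = 0 from by decide +kernel, show cfn 27 11 8 = 0 from by decide +kernel, show cfn 27 12 8 = 0 from by decide +kernel, show cfn 27 13 8 = 0 from by decide +kernel, Nat.cast_ofNat, Nat.cast_one, Nat.cast_zero]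
  ring

theorem c27_9 (γ : ℕ → ℝ) : ∑ i ∈ range (27 / 2 + 1), γ i * (cfn 27 i 9 : ℝ) =
    (2399654400) * γ 0 + (338412800) * γ 1 + (45378080) * γ 2 + (5724320) * γ 3 + (669446) * γ 4
       + (71065) * γ 5 + (6630) * γ 6 + (515) * γ 7 + (30) * γ 8 + (1) * γ 9 + (0) * γ 10
       + (0) * γ 11 + (0) * γ 12 + (0) * γ 13 := by
  have h : ((27 / 2 + 1 : ℕ)) = 14 := rfl
  rw [h]
  simp only [sum_range_succ, sum_range_zero, show cfn 27 0 9 = 2399654400 from by decide +kernel, show cfn 27 1 9 = 338412800 from by decide +kernel, show cfn 27 2 9 = 45378080 from by decide +kernel, show cfn 27 3 9 = 5724320 from by decide +kernel, show cfn 27 4 9 = 669446 from by decide +kernel, show cfn 27 5 9 = 71065 from by decide +kernel, show cfn 27 6 9 = 6630 from by decide +kernel, show cfn 27 7 9 = 515 from by decide +kernel, show cfn 27 8 9 = 30 from by decide +kernel, show cfn 27 9 9 = 1 from by decide +kernel, show cfn 27 10 9 = 0 from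 by decide +kernel, show cfn 27 11 9 = 0 from by decide +kernel, show cfn 27 12 9 = 0 from by decide +kernel, show cfn 27 13 9 = 0 from by decide +kernel, Nat.cast_ofNat, Nat.cast_one, Nat.cast_zero]
  ring

theorem c27_10 (γ : ℕ → ℝ) : ∑ i ∈ range (27 / 2 + 1), γ i * (cfn 27 i 10 : ℝ) =
    (8638755840) * γ 0 + (1322886400) * γ 1 + (194741184) * γ 2 + (27351792) * γ 3
       + (3628620) * γ 4 + (448427) * γ 5 + (50595) * γ 6 + (5053) * γ 7 + (424) * γ 8 + (27) * γ 9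
       + (1) * γ 10 + (0) * γ 11 + (0) * γ 12 + (0) * γ 13 := by
  have h : ((27 / 2 + 1 : ℕ)) = 14 := rfl
  rw [h]
  simp only [sum_range_succ, sum_range_zero, show cfn 27 0 10 = 8638755840 from by decide +kernel, show cfn 27 1 10 = 1322886400 from by decide +kernel, show cfn 27 2 10 = 194741184 from by decide +kernel, show cfn 27 3 10 = 27351792 from by decide +kernel, show cfn 27 4 10 = 3628620 from by decide +kernel, show cfn 27 5 10 = 448427 from by decide +kernel, show cfn 27 6 10 = 50595 from by decide +kernel, show cfn 27 7 10 = 5053 from by decide +kernel, show cfn 27 8 10 = 424 from by decide +kernel, show cfn 27 9 10 = 27 from by decide +kernel, show cfn 27 10 10 = 1 from by decide +kernel, show cfn 27 11 10 = 0 from by decide +kernel, show cfn 27 12 10 = 0 from by decide +kernel, show cfn 27 13 10 = 0 from by decide +kernel, Nat.cast_ofNat, Nat.cast_one, Nat.cast_zero]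
  ring

theorem c27_11 (γ : ℕ → ℝ) : ∑ i ∈ range (27 / 2 + 1), γ i * (cfn 27 i 11 : ℝ) =
    (26701608960) * γ 0 + (4393213440) * γ 1 + (700822144) * γ 2 + (107814816) * γ 3
       + (15883848) * γ 4 + (2220098) * γ 5 + (290592) * γ 6 + (34953) * γ 7 + (3752) * γ 8
       + (342) * γ 9 + (24) * γ 10 + (1) * γ 11 + (0) * γ 12 + (0) * γ 13 := by
  have h : ((27 / 2 + 1 : ℕ)) = 14 := rfl
  rw [h]
  simp only [sum_range_succ, sum_range_zero, show cfn 27 0 11 = 26701608960 from by decide +kernel, show cfn 27 1 11 = 4393213440 from by decide +kernel, show cfn 27 2 11 = 700822144 from by decide +kernel, show cfn 27 3 11 = 107814816 from by decide +kernel, show cfn 27 4 11 = 15883848 from by decide +kernel, show cfn 27 5 11 = 2220098 from by decide +kernel, show cfn 27 6 11 = 290592 from by decide +kernel, show cfn 27 7 11 = 34953 from by decide +kernel, show cfn 27 8 11 = 3752 from by decide +kernel, show cfn 27 9 11 = 342 from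 by decide +kernel, show cfn 27 10 11 = 24 from by decide +kernel, show cfn 27 11 11 = 1 from by decide +kernel, show cfn 27 12 11 = 0 from by decide +kernel, show cfn 27 13 11 = 0 from by decide +kernel, Nat.cast_ofNat, Nat.cast_one, Nat.cast_zero]
  ring

theorem c27_12 (γ : ℕ → ℝ) : ∑ i ∈ range (27 / 2 + 1), γ i * (cfn 27 i 12 : ℝ) =
    (71204290560) * γ 0 + (12475965440) * γ 1 + (2133846528) * γ 2 + (354896896) * γ 3
       + (57116736) * γ 4 + (8838368) * γ 5 + (1303777) * γ 6 + (181163) * γ 7 + (23302) * γ 8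
       + (2700) * γ 9 + (269) * γ 10 + (21) * γ 11 + (1) * γ 12 + (0) * γ 13 := by
  have h : ((27 / 2 + 1 : ℕ)) = 14 := rfl
  rw [h]
  simp only [sum_range_succ, sum_range_zero, show cfn 27 0 12 = 71204290560 from by decide +kernel, show cfn 27 1 12 = 12475965440 from by decide +kernel, show cfn 27 2 12 = 2133846528 from by decide +kernel, show cfn 27 3 12 = 354896896 from by decide +kernel, show cfn 27 4 12 = 57116736 from by decide +kernel, show cfn 27 5 12 = 8838368 from by decide +kernel, show cfn 27 6 12 = 1303777 from by decide +kernel, show cfn 27 7 12 = 181163 from by decide +kernel, show cfn 27 8 12 = 23302 from by decide +kernel, show cfn 27 9 12 = 2700 from by decide +kernel, show cfn 27 10 12 = 269 from by decide +kernel, show cfn 27 11 12 = 21 from by decide +kernel, show cfn 27 12 12 = 1 from by decide +kernel, show cfn 27 13 12 = 0 from by decide +kernel, Nat.cast_ofNat, Nat.cast_one, Nat.cast_zero]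
  ring

theorem c27_13 (γ : ℕ → ℝ) : ∑ i ∈ range (27 / 2 + 1), γ i * (cfn 27 i 13 : ℝ) =
    (164317593600) * γ 0 + (30429184000) * γ 1 + (5530504192) * γ 2 + (983821824) * γ 3
       + (170709376) * γ 4 + (28766720) * γ 5 + (4680990) * γ 6 + (729905) * γ 7 + (107900) * γ 8
       + (14886) * γ 9 + (1870) * γ 10 + (205) * γ 11 + (18) * γ 12 + (1) * γ 13 := by
  have h : ((27 / 2 + 1 : ℕ)) = 14 := rfl
  rw [h]
  simp only [sum_range_succ, sum_range_zero, show cfn 27 0 13 = 164317593600 from by decide +kernel, show cfn 27 1 13 = 30429184000 from by decide +kernel, show cfn 27 2 13 = 5530504192 from by decide +kernel, show cfn 27 3 13 = 983821824 from by decide +kernel, show cfn 27 4 13 = 170709376 from by decide +kernel, show cfn 27 5 13 = 28766720 from by decide +kernel, show cfn 27 6 13 = 4680990 from by decide +kernel, show cfn 27 7 13 = 729905 from by decide +kernel, show cfn 27 8 13 = 107900 from by decide +kernel,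 show cfn 27 9 13 = 14886 from by decide +kernel, show cfn 27 10 13 = 1870 from by decide +kernel, show cfn 27 11 13 = 205 from by decide +kernel, show cfn 27 12 13 = 18 from by decide +kernel, show cfn 27 13 13 = 1 from by decide +kernel, Nat.cast_ofNat, Nat.cast_one, Nat.cast_zero]
  ring

theorem c27_14 (γ : ℕ → ℝ) : ∑ i ∈ range (27 / 2 + 1), γ i * (cfn 27 i 14 : ℝ) =
    (328635187200) * γ 0 + (63901286400) * γ 1 + (12247746560) * γ 2 + (2309475840) * γ 3
       + (427414272) * γ 4 + (77405760) * γ 5 + (13666020) * γ 6 + (2340495) * γ 7 + (386260) * γ 8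
       + (60858) * γ 9 + (9030) * γ 10 + (1235) * γ 11 + (150) * γ 12 + (15) * γ 13 := by
  have h : ((27 / 2 + 1 : ℕ)) = 14 := rfl
  rw [h]
  simp only [sum_range_succ, sum_range_zero, show cfn 27 0 14 = 328635187200 from by decide +kernel, show cfn 27 1 14 = 63901286400 from by decide +kernel, show cfn 27 2 14 = 12247746560 from by decide +kernel, show cfn 27 3 14 = 2309475840 from by decide +kernel, show cfn 27 4 14 = 427414272 from by decide +kernel, show cfn 27 5 14 = 77405760 from by decide +kernel, show cfn 27 6 14 = 13666020 from by decide +kernel, show cfn 27 7 14 = 2340495 from by decide +kernel, show cfn 27 8 14 = 386260 from by decide +kernel, show cfn 27 9 14 = 60858 from by decide +kernel, show cfn 27 10 14 = 9030 from by decide +kernel, show cfn 27 11 14 = 1235 from by decide +kernel, show cfn 27 12 14 = 150 from by decide +kernel, show cfn 27 13 14 = 15 from by decide +kernel, Nat.cast_ofNat, Nat.cast_one,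 Nat.cast_zero]
  ring

theorem c27_15 (γ : ℕ → ℝ) : ∑ i ∈ range (27 / 2 + 1), γ i * (cfn 27 i 15 : ℝ) =
    (569634324480) * γ 0 + (115630899200) * γ 1 + (23217467392) * γ 2 + (4605060096) * γ 3
       + (900803072) * γ 4 + (173433728) * γ 5 + (32784440) * γ 6 + (6065410) * γ 7
       + (1093760) * γ 8 + (191184) * γ 9 + (32144) * γ 10 + (5140) * γ 11 + (768) * γ 12
       + (104) * γ 13 := by
  have h : ((27 / 2 + 1 : ℕ)) = 14 := rfl
  rw [h]
  simp only [sum_range_succ, sum_range_zero, show cfn 27 0 15 = 569634324480 from by decide +kernel, show cfn 27 1 15 = 115630899200 from by decide +kernel, show cfn 27 2 15 = 23217467392 from by decide +kernel, show cfn 27 3 15 = 4605060096 from by decide +kernel, show cfn 27 4 15 = 900803072 from by decide +kernel, show cfn 27 5 15 = 173433728 from by decide +kernel, show cfn 27 6 15 = 32784440 from by decide +kernel, show cfn 27 7 15 = 6065410 from by decide +kernel, show cfn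 27 8 15 = 1093760 from by decide +kernel, show cfn 27 9 15 = 191184 from by decide +kernel, show cfn 27 10 15 = 32144 from by decide +kernel, show cfn 27 11 15 = 5140 from by decide +kernel, show cfn 27 12 15 = 768 from by decide +kernel, show cfn 27 13 15 = 104 from by decide +kernel, Nat.cast_ofNat, Nat.cast_one, Nat.cast_zero]
  ring

theorem c27_16 (γ : ℕ → ℝ) : ∑ i ∈ range (27 / 2 + 1), γ i * (cfn 27 i 16 : ℝ) =
    (854451486720) * γ 0 + (180140769280) * γ 1 + (37671329792) * γ 2 + (7807070208) * γ 3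
       + (1601666560) * γ 4 + (324859392) * γ 5 + (65037648) * γ 6 + (12826840) * γ 7
       + (2485825) * γ 8 + (471852) * γ 9 + (87346) * γ 10 + (15674) * γ 11 + (2703) * γ 12
       + (442) * γ 13 := by
  have h : ((27 / 2 + 1 : ℕ)) = 14 := rfl
  rw [h]
  simp only [sum_range_succ, sum_range_zero, show cfn 27 0 16 = 854451486720 from by decide +kernel, show cfn 27 1 16 = 180140769280 from by decide +kernel, show cfn 27 2 16 = 37671329792 from by decide +kernel, show cfn 27 3 16 = 7807070208 from by decide +kernel, show cfn 27 4 16 = 1601666560 from by decide +kernel, show cfn 27 5 16 = 324859392 from by decide +kernel, show cfn 27 6 16 = 65037648 from by decide +kernel, show cfn 27 7 16 = 12826840 from by decide +kernel, show cfn 27 8 16 = 2485825 from by decide +kernel, show cfn 27 9 16 = 471852 from by decide +kernel, show cfn 27 10 16 = 87346 from by decide +kernel, show cfn 27 11 16 = 15674 from by decide +kernel,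 show cfn 27 12 16 = 2703 from by decide +kernel, show cfn 27 13 16 = 442 from by decide +kernel, Nat.cast_ofNat, Nat.cast_one, Nat.cast_zero]
  ring

theorem c27_17 (γ : ℕ → ℝ) : ∑ i ∈ range (27 / 2 + 1), γ i * (cfn 27 i 17 : ℝ) =
    (1105760747520) * γ 0 + (240999137280) * γ 1 + (52216479744) * γ 2 + (11240275968) * γ 3
       + (2402251776) * γ 4 + (509297152) * γ 5 + (107004768) * γ 6 + (22253088) * γ 7
       + (4573910) * γ 8 + (927441) * γ 9 + (185076) * γ 10 + (36234) * γ 11 + (6930) * γ 12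
       + (1287) * γ 13 := by
  have h : ((27 / 2 + 1 : ℕ)) = 14 := rfl
  rw [h]
  simp only [sum_range_succ, sum_range_zero, show cfn 27 0 17 = 1105760747520 from by decide +kernel, show cfn 27 1 17 = 240999137280 from by decide +kernel, show cfn 27 2 17 = 52216479744 from by decide +kernel, show cfn 27 3 17 = 11240275968 from by decide +kernel, show cfn 27 4 17 = 2402251776 from by decide +kernel, show cfn 27 5 17 = 509297152 from by decide +kernel, show cfn 27 6 17 = 107004768 from by decide +kernel, show cfn 27 7 17 = 22253088 from by decide +kernel, show cfn 27 8 17 = 4573910 from by decide +kernel, show cfn 27 9 17 = 927441 from by decide +kernel, show cfn 27 10 17 = 185076 from by decide +kernel, show cfn 27 11 17 = 36234 from by decide +kernel, show cfn 27 12 17 = 6930 from by decide +kernel, show cfn 27 13 17 = 1287 from by decide +kernel, Nat.cast_ofNat, Nat.cast_one, Nat.cast_zero]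
  ring

theorem c27_18 (γ : ℕ → ℝ) : ∑ i ∈ range (27 / 2 + 1), γ i * (cfn 27 i 18 : ℝ) =
    (1228623052800) * γ 0 + (275652608000) * γ 1 + (61588668416) * γ 2 + (13698424832) * γ 3
       + (3031672832) * γ 4 + (667292160) * γ 5 + (145986880) * γ 6 + (31722704) * γ 7
       + (6840988) * γ 8 + (1462563) * γ 9 + (309605) * γ 10 + (64790) * γ 11 + (13376) * γ 12
       + (2717) * γ 13 := by
  have h : ((27 / 2 + 1 : ℕ)) = 14 := rfl
  rw [h]
  simp only [sum_range_succ, sum_range_zero, show cfn 27 0 18 = 1228623052800 from by decide +kernel, show cfn 27 1 18 = 275652608000 from by decide +kernel, show cfn 27 2 18 = 61588668416 from by decide +kernel, show cfn 27 3 18 = 13698424832 from by decide +kernel, show cfn 27 4 18 = 3031672832 from by decide +kernel, show cfn 27 5 18 = 667292160 from by decide +kernel, show cfn 27 6 18 = 145986880 from by decide +kernel, show cfn 27 7 18 = 31722704 from by decide +kernel, show cfn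 27 8 18 = 6840988 from by decide +kernel, show cfn 27 9 18 = 1462563 from by decide +kernel, show cfn 27 10 18 = 309605 from by decide +kernel, show cfn 27 11 18 = 64790 from by decide +kernel, show cfn 27 12 18 = 13376 from by decide +kernel, show cfn 27 13 18 = 2717 from by decide +kernel, Nat.cast_ofNat, Nat.cast_one, Nat.cast_zero]
  ring

theorem c27_19 (γ : ℕ → ℝ) : ∑ i ∈ range (27 / 2 + 1), γ i * (cfn 27 i 19 : ℝ) =
    (1163958681600) * γ 0 + (267776819200) * γ 1 + (61431152640) * γ 2 + (14050344960) * γ 3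
       + (3203002368) * γ 4 + (727567360) * γ 5 + (164622720) * γ 6 + (37088480) * γ 7
       + (8316200) * γ 8 + (1854882) * γ 9 + (411280) * γ 10 + (90585) * γ 11 + (19800) * γ 12
       + (4290) * γ 13 := by
  have h : ((27 / 2 + 1 : ℕ)) = 14 := rfl
  rw [h]
  simp only [sum_range_succ, sum_range_zero, show cfn 27 0 19 = 1163958681600 from by decide +kernel, show cfn 27 1 19 = 267776819200 from by decide +kernel, show cfn 27 2 19 = 61431152640 from by decide +kernel, show cfn 27 3 19 = 14050344960 from by decide +kernel, show cfn 27 4 19 = 3203002368 from by decide +kernel, show cfn 27 5 19 = 727567360 from by decide +kernel, show cfn 27 6 19 = 164622720 from by decide +kernel, show cfn 27 7 19 = 37088480 from by decide +kernel, show cfn 27 8 19 = 8316200 from by decide +kernel, show cfn 27 9 19 = 1854882 from by decide +kernel, show cfn 27 10 19 = 411280 from by decide +kernel, show cfn 27 11 19 = 90585 from by decide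 +kernel, show cfn 27 12 19 = 19800 from by decide +kernel, show cfn 27 13 19 = 4290 from by decide +kernel, Nat.cast_ofNat, Nat.cast_one, Nat.cast_zero]
  ring

theorem c27_20 (γ : ℕ → ℝ) : ∑ i ∈ range (27 / 2 + 1), γ i * (cfn 27 i 20 : ℝ) =
    (931166945280) * γ 0 + (218864025600) * γ 1 + (51350142976) * γ 2 + (12024741888) * γ 3
       + (2810068992) * γ 4 + (655237120) * γ 5 + (152421120) * γ 6 + (35364864) * γ 7
       + (8182432) * γ 8 + (1887408) * γ 9 + (433905) * γ 10 + (99385) * γ 11 + (22671) * γ 12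
       + (5148) * γ 13 := by
  have h : ((27 / 2 + 1 : ℕ)) = 14 := rfl
  rw [h]
  simp only [sum_range_succ, sum_range_zero, show cfn 27 0 20 = 931166945280 from by decide +kernel, show cfn 27 1 20 = 218864025600 from by decide +kernel, show cfn 27 2 20 = 51350142976 from by decide +kernel, show cfn 27 3 20 = 12024741888 from by decide +kernel, show cfn 27 4 20 = 2810068992 from by decide +kernel, show cfn 27 5 20 = 655237120 from by decide +kernel, show cfn 27 6 20 = 152421120 from by decide +kernel, show cfn 27 7 20 = 35364864 from by decide +kernel, show cfn 27 8 20 = 8182432 from by decide +kernel, show cfn 27 9 20 = 1887408 from by decide +kernel, show cfn 27 10 20 = 433905 from by decide +kernel, show cfn 27 11 20 = 99385 from by decide +kernel, show cfn 27 12 20 = 22671 from by decide +kernel, show cfn 27 13 20 = 5148 from by decide +kernel, Nat.cast_ofNat, Nat.cast_one, Nat.cast_zero]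
  ring

theorem c27_21 (γ : ℕ → ℝ) : ∑ i ∈ range (27 / 2 + 1), γ i * (cfn 27 i 21 : ℝ) =
    (620777963520) * γ 0 + (148562247680) * γ 1 + (35515662336) * γ 2 + (8480948224) * γ 3
       + (2022801408) * γ 4 + (481853440) * γ 5 + (114629120) * γ 6 + (27230464) * γ 7
       + (6458816) * γ 8 + (1529472) * γ 9 + (361550) * γ 10 + (85305) * γ 11 + (20086) * γ 12
       + (4719) * γ 13 := by
  have h : ((27 / 2 + 1 : ℕ)) = 14 := rfl
  rw [h]
  simp only [sum_range_succ, sum_range_zero, show cfn 27 0 21 = 620777963520 from by decide +kernel, show cfn 27 1 21 = 148562247680 from by decide +kernel, show cfn 27 2 21 = 35515662336 from by decide +kernel, show cfn 27 3 21 = 8480948224 from by decide +kernel, show cfn 27 4 21 = 2022801408 from by decide +kernel, show cfn 27 5 21 = 481853440 from by decide +kernel, show cfn 27 6 21 = 114629120 from by decide +kernel, show cfn 27 7 21 = 27230464 from by decide +kernel, show cfn 27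 8 21 = 6458816 from by decide +kernel, show cfn 27 9 21 = 1529472 from by decide +kernel, show cfn 27 10 21 = 361550 from by decide +kernel, show cfn 27 11 21 = 85305 from by decide +kernel, show cfn 27 12 21 = 20086 from by decide +kernel, show cfn 27 13 21 = 4719 from by decide +kernel, Nat.cast_ofNat, Nat.cast_one, Nat.cast_zero]
  ring

theorem c27_22 (γ : ℕ → ℝ) : ∑ i ∈ range (27 / 2 + 1), γ i * (cfn 27 i 22 : ℝ) =
    (338606161920) * γ 0 + (82239815680) * γ 1 + (19963052032) * γ 2 + (4843044864) * γ 3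
       + (1174208512) * γ 4 + (284508160) * γ 5 + (68889600) * γ 6 + (16668928) * γ 7
       + (4030336) * γ 8 + (973728) * γ 9 + (235060) * γ 10 + (56695) * γ 11 + (13662) * γ 12
       + (3289) * γ 13 := by
  have h : ((27 / 2 + 1 : ℕ)) = 14 := rfl
  rw [h]
  simp only [sum_range_succ, sum_range_zero, show cfn 27 0 22 = 338606161920 from by decide +kernel, show cfn 27 1 22 = 82239815680 from by decide +kernel, show cfn 27 2 22 = 19963052032 from by decide +kernel, show cfn 27 3 22 = 4843044864 from by decide +kernel, show cfn 27 4 22 = 1174208512 from by decide +kernel, show cfn 27 5 22 = 284508160 from by decide +kernel, show cfn 27 6 22 = 68889600 from by decide +kernel, show cfn 27 7 22 = 16668928 from by decide +kernel, show cfn 27 8 22 = 4030336 from by decide +kernel, show cfn 27 9 22 = 973728 from by decide +kernel, show cfn 27 10 22 = 235060 from by decide +kernel, show cfn 27 11 22 = 56695 from by decide +kernel,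 show cfn 27 12 22 = 13662 from by decide +kernel, show cfn 27 13 22 = 3289 from by decide +kernel, Nat.cast_ofNat, Nat.cast_one, Nat.cast_zero]
  ring

theorem c27_23 (γ : ℕ → ℝ) : ∑ i ∈ range (27 / 2 + 1), γ i * (cfn 27 i 23 : ℝ) =
    (147220070400) * γ 0 + (36175872000) * γ 1 + (8887205888) * γ 2 + (2182742016) * γ 3
       + (535953408) * γ 4 + (131563520) * γ 5 + (32286720) * γ 6 + (7921152) * γ 7
       + (1942784) * γ 8 + (476352) * γ 9 + (116760) * γ 10 + (28610) * γ 11 + (7008) * γ 12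
       + (1716) * γ 13 := by
  have h : ((27 / 2 + 1 : ℕ)) = 14 := rfl
  rw [h]
  simp only [sum_range_succ, sum_range_zero, show cfn 27 0 23 = 147220070400 from by decide +kernel, show cfn 27 1 23 = 36175872000 from by decide +kernel, show cfn 27 2 23 = 8887205888 from by decide +kernel, show cfn 27 3 23 = 2182742016 from by decide +kernel, show cfn 27 4 23 = 535953408 from by decide +kernel, show cfn 27 5 23 = 131563520 from by decide +kernel, show cfn 27 6 23 = 32286720 from by decide +kernel, show cfn 27 7 23 = 7921152 from by decide +kernel, show cfn 27 8 23 = 1942784 from by decide +kernel, show cfn 27 9 23 = 476352 from by decide +kernel, show cfn 27 10 23 = 116760 from by decide +kernel, show cfn 27 11 23 = 28610 from by decide +kernel, show cfn 27 12 23 = 7008 from by decide +kernel, show cfn 27 13 23 = 1716 from by decide +kernel, Nat.cast_ofNat, Nat.cast_one, Nat.cast_zero]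
  ring

theorem q27_0 (γ : ℕ → ℝ) (h0 : γ 0 = 1)
    (h : ∀ n < 27, 2 * (((27 : ℕ) : ℝ) - ((n : ℕ) : ℝ)) * ∑ i ∈ range (27 / 2 + 1), γ i * (cfn 27 i n : ℝ) ≤
      ((n : ℝ) + 1) * ∑ i ∈ range (27 / 2 + 1), γ i * (cfn 27 i (n + 1) : ℝ)) :
    0 ≤ (0) * γ 0 + (1) * γ 1 + (0) * γ 2 + (0) * γ 3 + (0) * γ 4 + (0) * γ 5 + (0) * γ 6 + (0) * γ 7
       + (0) * γ 8 + (0) * γ 9 + (0) * γ 10 + (0) * γ 11 + (0) * γ 12 + (0) * γ 13 := by
  have h1 := h 0 (by norm_num)
  rw [show 0 + 1 = 1 from rfl, c27_0, c27_1] at h1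
  norm_num [h0] at h1 ⊢
  linarith

theorem q27_1 (γ : ℕ → ℝ) (h0 : γ 0 = 1)
    (h : ∀ n < 27, 2 * (((27 : ℕ) : ℝ) - ((n : ℕ) : ℝ)) * ∑ i ∈ range (27 / 2 + 1), γ i * (cfn 27 i n : ℝ) ≤
      ((n : ℝ) + 1) * ∑ i ∈ range (27 / 2 + 1), γ i * (cfn 27 i (n + 1) : ℝ)) :
    0 ≤ (0) * γ 0 + (50) * γ 1 + (2) * γ 2 + (0) * γ 3 + (0) * γ 4 + (0) * γ 5 + (0) * γ 6
       + (0) * γ 7 + (0) * γ 8 + (0) * γ 9 + (0) * γ 10 + (0) * γ 11 + (0) * γ 12 + (0) * γ 13 := by
  have h1 := h 1 (by norm_num)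
  rw [show 1 + 1 = 2 from rfl, c27_1, c27_2] at h1
  norm_num [h0] at h1 ⊢
  linarith

theorem q27_2 (γ : ℕ → ℝ) (h0 : γ 0 = 1)
    (h : ∀ n < 27, 2 * (((27 : ℕ) : ℝ) - ((n : ℕ) : ℝ)) * ∑ i ∈ range (27 / 2 + 1), γ i * (cfn 27 i n : ℝ) ≤
      ((n : ℝ) + 1) * ∑ i ∈ range (27 / 2 + 1), γ i * (cfn 27 i (n + 1) : ℝ)) :
    0 ≤ (0) * γ 0 + (1200) * γ 1 + (94) * γ 2 + (3) * γ 3 + (0) * γ 4 + (0) * γ 5 + (0) * γ 6
       + (0) * γ 7 + (0) * γ 8 + (0) * γ 9 + (0) * γ 10 + (0) * γ 11 + (0) * γ 12 + (0) * γ 13 := by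
  have h1 := h 2 (by norm_num)
  rw [show 2 + 1 = 3 from rfl, c27_2, c27_3] at h1
  norm_num [h0] at h1 ⊢
  linarith

theorem q27_3 (γ : ℕ → ℝ) (h0 : γ 0 = 1)
    (h : ∀ n < 27, 2 * (((27 : ℕ) : ℝ) - ((n : ℕ) : ℝ)) * ∑ i ∈ range (27 / 2 + 1), γ i * (cfn 27 i n : ℝ) ≤
      ((n : ℝ) + 1) * ∑ i ∈ range (27 / 2 + 1), γ i * (cfn 27 i (n + 1) : ℝ)) :
    0 ≤ (0) * γ 0 + (18400) * γ 1 + (2116) * γ 2 + (132) * γ 3 + (4) * γ 4 + (0) * γ 5 + (0) * γ 6
       + (0) * γ 7 + (0) * γ 8 + (0) * γ 9 + (0) * γ 10 + (0) * γ 11 + (0) * γ 12 + (0) * γ 13 := by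
  have h1 := h 3 (by norm_num)
  rw [show 3 + 1 = 4 from rfl, c27_3, c27_4] at h1
  norm_num [h0] at h1 ⊢
  linarith

theorem q27_4 (γ : ℕ → ℝ) (h0 : γ 0 = 1)
    (h : ∀ n < 27, 2 * (((27 : ℕ) : ℝ) - ((n : ℕ) : ℝ)) * ∑ i ∈ range (27 / 2 + 1), γ i * (cfn 27 i n : ℝ) ≤
      ((n : ℝ) + 1) * ∑ i ∈ range (27 / 2 + 1), γ i * (cfn 27 i (n + 1) : ℝ)) :
    0 ≤ (0) * γ 0 + (202400) * γ 1 + (30360) * γ 2 + (2775) * γ 3 + (164) * γ 4 + (5) * γ 5
       + (0) * γ 6 + (0) * γ 7 + (0) * γ 8 + (0) * γ 9 + (0) * γ 10 + (0) * γ 11 + (0) * γ 12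
       + (0) * γ 13 := by
  have h1 := h 4 (by norm_num)
  rw [show 4 + 1 = 5 from rfl, c27_4, c27_5] at h1
  norm_num [h0] at h1 ⊢
  linarith

theorem q27_5 (γ : ℕ → ℝ) (h0 : γ 0 = 1)
    (h : ∀ n < 27, 2 * (((27 : ℕ) : ℝ) - ((n : ℕ) : ℝ)) * ∑ i ∈ range (27 / 2 + 1), γ i * (cfn 27 i n : ℝ) ≤
      ((n : ℝ) + 1) * ∑ i ∈ range (27 / 2 + 1), γ i * (cfn 27 i (n + 1) : ℝ)) :
    0 ≤ (0) * γ 0 + (1700160) * γ 1 + (311696) * γ 2 + (37086) * γ 3 + (3204) * γ 4 + (190) * γ 5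
       + (6) * γ 6 + (0) * γ 7 + (0) * γ 8 + (0) * γ 9 + (0) * γ 10 + (0) * γ 11 + (0) * γ 12
       + (0) * γ 13 := by
  have h1 := h 5 (by norm_num)
  rw [show 5 + 1 = 6 from rfl, c27_5, c27_6] at h1
  norm_num [h0] at h1 ⊢
  linarith

theorem q27_6 (γ : ℕ → ℝ) (h0 : γ 0 = 1)
    (h : ∀ n < 27, 2 * (((27 : ℕ) : ℝ) - ((n : ℕ) : ℝ)) * ∑ i ∈ range (27 / 2 + 1), γ i * (cfn 27 i n : ℝ) ≤
      ((n : ℝ) + 1) * ∑ i ∈ range (27 / 2 + 1), γ i * (cfn 27 i (n + 1) : ℝ)) :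
    0 ≤ (0) * γ 0 + (11334400) * γ 1 + (2436896) * γ 2 + (353640) * γ 3 + (39676) * γ 4
       + (3430) * γ 5 + (210) * γ 6 + (7) * γ 7 + (0) * γ 8 + (0) * γ 9 + (0) * γ 10 + (0) * γ 11
       + (0) * γ 12 + (0) * γ 13 := by
  have h1 := h 6 (by norm_num)
  rw [show 6 + 1 = 7 from rfl, c27_6, c27_7] at h1
  norm_num [h0] at h1 ⊢
  linarith

theorem q27_7 (γ : ℕ → ℝ) (h0 : γ 0 = 1)
    (h : ∀ n < 27, 2 * (((27 : ℕ) : ℝ) - ((n : ℕ) : ℝ)) * ∑ i ∈ range (27 / 2 + 1), γ i * (cfn 27 i n : ℝ) ≤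
      ((n : ℝ) + 1) * ∑ i ∈ range (27 / 2 + 1), γ i * (cfn 27 i (n + 1) : ℝ)) :
    0 ≤ (0) * γ 0 + (61529600) * γ 1 + (15074752) * γ 2 + (2559984) * γ 3 + (349448) * γ 4
       + (39120) * γ 5 + (3480) * γ 6 + (224) * γ 7 + (8) * γ 8 + (0) * γ 9 + (0) * γ 10
       + (0) * γ 11 + (0) * γ 12 + (0) * γ 13 := by
  have h1 := h 7 (by norm_num)
  rw [show 7 + 1 = 8 from rfl, c27_7, c27_8] at h1
  norm_num [h0] at h1 ⊢
  linarith

theorem q27_8 (γ : ℕ → ℝ) (h0 : γ 0 = 1)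
    (h : ∀ n < 27, 2 * (((27 : ℕ) : ℝ) - ((n : ℕ) : ℝ)) * ∑ i ∈ range (27 / 2 + 1), γ i * (cfn 27 i n : ℝ) ≤
      ((n : ℝ) + 1) * ∑ i ∈ range (27 / 2 + 1), γ i * (cfn 27 i (n + 1) : ℝ)) :
    0 ≤ (0) * γ 0 + (276883200) * γ 1 + (75681408) * γ 2 + (14612976) * γ 3 + (2328336) * γ 4
       + (316205) * γ 5 + (36300) * γ 6 + (3381) * γ 7 + (232) * γ 8 + (9) * γ 9 + (0) * γ 10
       + (0) * γ 11 + (0) * γ 12 + (0) * γ 13 := by
  have h1 := h 8 (by norm_num)
  rw [show 8 + 1 = 9 from rfl, c27_8, c27_9] at h1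
  norm_num [h0] at h1 ⊢
  linarith

theorem q27_9 (γ : ℕ → ℝ) (h0 : γ 0 = 1)
    (h : ∀ n < 27, 2 * (((27 : ℕ) : ℝ) - ((n : ℕ) : ℝ)) * ∑ i ∈ range (27 / 2 + 1), γ i * (cfn 27 i n : ℝ) ≤
      ((n : ℝ) + 1) * ∑ i ∈ range (27 / 2 + 1), γ i * (cfn 27 i (n + 1) : ℝ)) :
    0 ≤ (0) * γ 0 + (1046003200) * γ 1 + (313800960) * γ 2 + (67442400) * γ 3 + (12186144) * γ 4
       + (1925930) * γ 5 + (267270) * γ 6 + (31990) * γ 7 + (3160) * γ 8 + (234) * γ 9
       + (10) * γ 10 + (0) * γ 11 + (0) * γ 12 + (0) * γ 13 := by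
  have h1 := h 9 (by norm_num)
  rw [show 9 + 1 = 10 from rfl, c27_9, c27_10] at h1
  norm_num [h0] at h1 ⊢
  linarith

theorem q27_10 (γ : ℕ → ℝ) (h0 : γ 0 = 1)
    (h : ∀ n < 27, 2 * (((27 : ℕ) : ℝ) - ((n : ℕ) : ℝ)) * ∑ i ∈ range (27 / 2 + 1), γ i * (cfn 27 i n : ℝ) ≤
      ((n : ℝ) + 1) * ∑ i ∈ range (27 / 2 + 1), γ i * (cfn 27 i (n + 1) : ℝ)) :
    0 ≤ (0) * γ 0 + (3347210240) * γ 1 + (1087843328) * γ 2 + (256002048) * γ 3 + (51349248) * γ 4
       + (9174560) * γ 5 + (1476282) * γ 6 + (212681) * γ 7 + (26856) * γ 8 + (2844) * γ 9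
       + (230) * γ 10 + (11) * γ 11 + (0) * γ 12 + (0) * γ 13 := by
  have h1 := h 10 (by norm_num)
  rw [show 10 + 1 = 11 from rfl, c27_10, c27_11] at h1
  norm_num [h0] at h1 ⊢
  linarith

theorem q27_11 (γ : ℕ → ℝ) (h0 : γ 0 = 1)
    (h : ∀ n < 27, 2 * (((27 : ℕ) : ℝ) - ((n : ℕ) : ℝ)) * ∑ i ∈ range (27 / 2 + 1), γ i * (cfn 27 i n : ℝ) ≤
      ((n : ℝ) + 1) * ∑ i ∈ range (27 / 2 + 1), γ i * (cfn 27 i (n + 1) : ℝ)) :
    0 ≤ (0) * γ 0 + (9128755200) * γ 1 + (3179849728) * γ 2 + (808688640) * γ 3 + (177117696) * γ 4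
       + (35017280) * γ 5 + (6346380) * γ 6 + (1055460) * γ 7 + (159560) * γ 8 + (21456) * γ 9
       + (2460) * γ 10 + (220) * γ 11 + (12) * γ 12 + (0) * γ 13 := by
  have h1 := h 11 (by norm_num)
  rw [show 11 + 1 = 12 from rfl, c27_11, c27_12] at h1
  norm_num [h0] at h1 ⊢
  linarith

theorem q27_12 (γ : ℕ → ℝ) (h0 : γ 0 = 1)
    (h : ∀ n < 27, 2 * (((27 : ℕ) : ℝ) - ((n : ℕ) : ℝ)) * ∑ i ∈ range (27 / 2 + 1), γ i * (cfn 27 i n : ℝ) ≤
      ((n : ℝ) + 1) * ∑ i ∈ range (27 / 2 + 1), γ i * (cfn 27 i (n + 1) : ℝ)) :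
    0 ≤ (0) * γ 0 + (21300428800) * γ 1 + (7881158656) * γ 2 + (2142776832) * γ 3 + (505719808) * γ 4
       + (108816320) * γ 5 + (21739560) * γ 6 + (4053875) * γ 7 + (703640) * γ 8 + (112518) * γ 9
       + (16240) * γ 10 + (2035) * γ 11 + (204) * γ 12 + (13) * γ 13 := by
  have h1 := h 12 (by norm_num)
  rw [show 12 + 1 = 13 from rfl, c27_12, c27_13] at h1
  norm_num [h0] at h1 ⊢
  linarith

theorem q27_13 (γ : ℕ → ℝ) (h0 : γ 0 = 1)
    (h : ∀ n < 27, 2 * (((27 : ℕ) : ℝ) - ((n : ℕ) : ℝ)) * ∑ i ∈ range (27 / 2 + 1), γ i * (cfn 27 i n : ℝ) ≤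
      ((n : ℝ) + 1) * ∑ i ∈ range (27 / 2 + 1), γ i * (cfn 27 i (n + 1) : ℝ)) :
    0 ≤ (0) * γ 0 + (42600857600) * γ 1 + (16614334464) * γ 2 + (4785650688) * γ 3
       + (1203937280) * γ 4 + (278212480) * γ 5 + (60256560) * γ 6 + (12329590) * γ 7
       + (2386440) * γ 8 + (435204) * γ 9 + (74060) * γ 10 + (11550) * γ 11 + (1596) * γ 12
       + (182) * γ 13 := by
  have h1 := h 13 (by norm_num)
  rw [show 13 + 1 = 14 from rfl, c27_13, c27_14] at h1
  norm_num [h0] at h1 ⊢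
  linarith

theorem q27_14 (γ : ℕ → ℝ) (h0 : γ 0 = 1)
    (h : ∀ n < 27, 2 * (((27 : ℕ) : ℝ) - ((n : ℕ) : ℝ)) * ∑ i ∈ range (27 / 2 + 1), γ i * (cfn 27 i n : ℝ) ≤
      ((n : ℝ) + 1) * ∑ i ∈ range (27 / 2 + 1), γ i * (cfn 27 i (n + 1) : ℝ)) :
    0 ≤ (0) * γ 0 + (73030041600) * γ 1 + (29820600320) * γ 2 + (9029529600) * γ 3
       + (2399275008) * γ 4 + (588956160) * γ 5 + (136450080) * γ 6 + (30128280) * γ 7
       + (6363640) * γ 8 + (1285452) * γ 9 + (247380) * γ 10 + (44990) * γ 11 + (7620) * γ 12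
       + (1170) * γ 13 := by
  have h1 := h 14 (by norm_num)
  rw [show 14 + 1 = 15 from rfl, c27_14, c27_15] at h1
  norm_num [h0] at h1 ⊢
  linarith

theorem q27_15 (γ : ℕ → ℝ) (h0 : γ 0 = 1)
    (h : ∀ n < 27, 2 * (((27 : ℕ) : ℝ) - ((n : ℕ) : ℝ)) * ∑ i ∈ range (27 / 2 + 1), γ i * (cfn 27 i n : ℝ) ≤
      ((n : ℝ) + 1) * ∑ i ∈ range (27 / 2 + 1), γ i * (cfn 27 i (n + 1) : ℝ)) :
    0 ≤ (0) * γ 0 + (107110727680) * γ 1 + (45522059264) * γ 2 + (14391681024) * γ 3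
       + (4007391232) * γ 4 + (1035340800) * γ 5 + (253775808) * γ 6 + (59659600) * γ 7
       + (13522960) * γ 8 + (2961216) * γ 9 + (626080) * γ 10 + (127424) * γ 11 + (24816) * γ 12
       + (4576) * γ 13 := by
  have h1 := h 15 (by norm_num)
  rw [show 15 + 1 = 16 from rfl, c27_15, c27_16] at h1
  norm_num [h0] at h1 ⊢
  linarith

theorem q27_16 (γ : ℕ → ℝ) (h0 : γ 0 = 1)
    (h : ∀ n < 27, 2 * (((27 : ℕ) : ℝ) - ((n : ℕ) : ℝ)) * ∑ i ∈ range (27 / 2 + 1), γ i * (cfn 27 i n : ℝ) ≤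
      ((n : ℝ) + 1) * ∑ i ∈ range (27 / 2 + 1), γ i * (cfn 27 i (n + 1) : ℝ)) :
    0 ≤ (0) * γ 0 + (133888409600) * γ 1 + (58910900224) * γ 2 + (19329146880) * γ 3
       + (5601615872) * γ 4 + (1511144960) * γ 5 + (388252800) * γ 6 + (96112016) * γ 7
       + (23068320) * γ 8 + (5385753) * γ 9 + (1224680) * γ 10 + (271150) * γ 11 + (58344) * γ 12
       + (12155) * γ 13 := by
  have h1 := h 16 (by norm_num)
  rw [show 16 + 1 = 17 from rfl, c27_16, c27_17] at h1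
  norm_num [h0] at h1 ⊢
  linarith

theorem q27_17 (γ : ℕ → ℝ) (h0 : γ 0 = 1)
    (h : ∀ n < 27, 2 * (((27 : ℕ) : ℝ) - ((n : ℕ) : ℝ)) * ∑ i ∈ range (27 / 2 + 1), γ i * (cfn 27 i n : ℝ) ≤
      ((n : ℝ) + 1) * ∑ i ∈ range (27 / 2 + 1), γ i * (cfn 27 i (n + 1) : ℝ)) :
    0 ≤ (0) * γ 0 + (141764198400) * γ 1 + (64266436608) * γ 2 + (21766127616) * γ 3
       + (6525075456) * γ 4 + (1825315840) * γ 5 + (487668480) * γ 6 + (125946912) * γ 7
       + (31659584) * γ 8 + (7777314) * γ 9 + (1871370) * γ 10 + (441540) * γ 11 + (102168) * γ 12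
       + (23166) * γ 13 := by
  have h1 := h 17 (by norm_num)
  rw [show 17 + 1 = 18 from rfl, c27_17, c27_18] at h1
  norm_num [h0] at h1 ⊢
  linarith

theorem q27_18 (γ : ℕ → ℝ) (h0 : γ 0 = 1)
    (h : ∀ n < 27, 2 * (((27 : ℕ) : ℝ) - ((n : ℕ) : ℝ)) * ∑ i ∈ range (27 / 2 + 1), γ i * (cfn 27 i n : ℝ) ≤
      ((n : ℝ) + 1) * ∑ i ∈ range (27 / 2 + 1), γ i * (cfn 27 i (n + 1) : ℝ)) :
    0 ≤ (0) * γ 0 + (126012620800) * γ 1 + (58595868672) * γ 2 + (20384907264) * γ 3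
       + (6286934016) * γ 4 + (1812520960) * γ 5 + (500067840) * γ 6 + (133672448) * γ 7
       + (34870016) * γ 8 + (8916624) * γ 9 + (2241430) * γ 10 + (554895) * γ 11 + (135432) * γ 12
       + (32604) * γ 13 := by
  have h1 := h 18 (by norm_num)
  rw [show 18 + 1 = 19 from rfl, c27_18, c27_19] at h1
  norm_num [h0] at h1 ⊢
  linarith

theorem q27_19 (γ : ℕ → ℝ) (h0 : γ 0 = 1)
    (h : ∀ n < 27, 2 * (((27 : ℕ) : ℝ) - ((n : ℕ) : ℝ)) * ∑ i ∈ range (27 / 2 + 1), γ i * (cfn 27 i n : ℝ) ≤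
      ((n : ℝ) + 1) * ∑ i ∈ range (27 / 2 + 1), γ i * (cfn 27 i (n + 1) : ℝ)) :
    0 ≤ (0) * γ 0 + (92851404800) * γ 1 + (44104417280) * γ 2 + (15689318400) * γ 3
       + (4953341952) * γ 4 + (1463664640) * γ 5 + (414458880) * γ 6 + (113881600) * γ 7
       + (30589440) * γ 8 + (8070048) * γ 9 + (2097620) * γ 10 + (538340) * γ 11 + (136620) * γ 12
       + (34320) * γ 13 := by
  have h1 := h 19 (by norm_num)
  rw [show 19 + 1 = 20 from rfl, c27_19, c27_20] at h1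
  norm_num [h0] at h1 ⊢
  linarith

theorem q27_20 (γ : ℕ → ℝ) (h0 : γ 0 = 1)
    (h : ∀ n < 27, 2 * (((27 : ℕ) : ℝ) - ((n : ℕ) : ℝ)) * ∑ i ∈ range (27 / 2 + 1), γ i * (cfn 27 i n : ℝ) ≤
      ((n : ℝ) + 1) * ∑ i ∈ range (27 / 2 + 1), γ i * (cfn 27 i (n + 1) : ℝ)) :
    0 ≤ (0) * γ 0 + (55710842880) * γ 1 + (26926907392) * γ 2 + (9753526272) * γ 3
       + (3137863680) * γ 4 + (945602560) * γ 5 + (273315840) * γ 6 + (76731648) * γ 7
       + (21081088) * γ 8 + (5695200) * γ 9 + (1517880) * γ 10 + (400015) * γ 11 + (104412) * γ 12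
       + (27027) * γ 13 := by
  have h1 := h 20 (by norm_num)
  rw [show 20 + 1 = 21 from rfl, c27_20, c27_21] at h1
  norm_num [h0] at h1 ⊢
  linarith

theorem q27_21 (γ : ℕ → ℝ) (h0 : γ 0 = 1)
    (h : ∀ n < 27, 2 * (((27 : ℕ) : ℝ) - ((n : ℕ) : ℝ)) * ∑ i ∈ range (27 / 2 + 1), γ i * (cfn 27 i n : ℝ) ≤
      ((n : ℝ) + 1) * ∑ i ∈ range (27 / 2 + 1), γ i * (cfn 27 i (n + 1) : ℝ)) :
    0 ≤ (0) * γ 0 + (26528972800) * γ 1 + (12999196672) * γ 2 + (4775608320) * γ 3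
       + (1558970368) * γ 4 + (476938240) * γ 5 + (140021760) * γ 6 + (39950848) * γ 7
       + (11161600) * γ 8 + (3068352) * γ 9 + (832720) * γ 10 + (223630) * γ 11 + (59532) * γ 12
       + (15730) * γ 13 := by
  have h1 := h 21 (by norm_num)
  rw [show 21 + 1 = 22 from rfl, c27_21, c27_22] at h1
  norm_num [h0] at h1 ⊢
  linarith

theorem q27_22 (γ : ℕ → ℝ) (h0 : γ 0 = 1)
    (h : ∀ n < 27, 2 * (((27 : ℕ) : ℝ) - ((n : ℕ) : ℝ)) * ∑ i ∈ range (27 / 2 + 1), γ i * (cfn 27 i n : ℝ) ≤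
      ((n : ℝ) + 1) * ∑ i ∈ range (27 / 2 + 1), γ i * (cfn 27 i (n + 1) : ℝ)) :
    0 ≤ (0) * γ 0 + (9646899200) * γ 1 + (4775215104) * γ 2 + (1772617728) * γ 3 + (584843264) * γ 4
       + (180879360) * γ 5 + (53698560) * γ 6 + (15497216) * γ 7 + (4380672) * γ 8
       + (1218816) * γ 9 + (334880) * γ 10 + (91080) * γ 11 + (24564) * γ 12 + (6578) * γ 13 := by
  have h1 := h 22 (by norm_num)
  rw [show 22 + 1 = 23 from rfl, c27_22, c27_23] at h1
  norm_num [h0] at h1 ⊢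
  linarith

theorem m27_0 (γ : ℕ → ℝ) : Mat 27 γ 0 = (1) * γ 0 + (0) * γ 1 + (0) * γ 2 + (0) * γ 3 + (0) * γ 4 + (0) * γ 5 + (0) * γ 6 + (0) * γ 7
       + (0) * γ 8 + (0) * γ 9 + (0) * γ 10 + (0) * γ 11 + (0) * γ 12 + (0) * γ 13 := by
  unfold Mat
  rw [show (27 / 2 + 1 : ℕ) = 14 from rfl]
  simp [sum_range_succ, Nat.choose]
  try ring

theorem m27_1 (γ : ℕ → ℝ) : Mat 27 γ 1 = (1404) * γ 0 + (52) * γ 1 + (1) * γ 2 + (0) * γ 3 + (0) * γ 4 + (0) * γ 5 + (0) * γ 6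
       + (0) * γ 7 + (0) * γ 8 + (0) * γ 9 + (0) * γ 10 + (0) * γ 11 + (0) * γ 12 + (0) * γ 13 := by
  unfold Mat
  rw [show (27 / 2 + 1 : ℕ) = 14 from rfl]
  simp [sum_range_succ, Nat.choose]
  try ring

theorem m27_2 (γ : ℕ → ℝ) : Mat 27 γ 2 = (280800) * γ 0 + (20800) * γ 1 + (1200) * γ 2 + (48) * γ 3 + (1) * γ 4 + (0) * γ 5
       + (0) * γ 6 + (0) * γ 7 + (0) * γ 8 + (0) * γ 9 + (0) * γ 10 + (0) * γ 11 + (0) * γ 12
       + (0) * γ 13 := by
  unfold Mat
  rw [show (27 / 2 + 1 : ℕ) = 14 from rfl]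
  simp [sum_range_succ, Nat.choose]
  try ring

theorem m27_3 (γ : ℕ → ℝ) : Mat 27 γ 3 = (18944640) * γ 0 + (2104960) * γ 1 + (202400) * γ 2 + (16192) * γ 3 + (1012) * γ 4
       + (44) * γ 5 + (1) * γ 6 + (0) * γ 7 + (0) * γ 8 + (0) * γ 9 + (0) * γ 10 + (0) * γ 11
       + (0) * γ 12 + (0) * γ 13 := by
  unfold Mat
  rw [show (27 / 2 + 1 : ℕ) = 14 from rfl]
  simp [sum_range_succ, Nat.choose]
  try ring

theorem m27_4 (γ : ℕ → ℝ) : Mat 27 γ 4 = (568339200) * γ 0 + (84198400) * γ 1 + (11334400) * γ 2 + (1360128) * γ 3 + (141680) * γ 4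
       + (12320) * γ 5 + (840) * γ 6 + (40) * γ 7 + (1) * γ 8 + (0) * γ 9 + (0) * γ 10 + (0) * γ 11
       + (0) * γ 12 + (0) * γ 13 := by
  unfold Mat
  rw [show (27 / 2 + 1 : ℕ) = 14 from rfl]
  simp [sum_range_succ, Nat.choose]
  try ring

theorem m27_5 (γ : ℕ → ℝ) : Mat 27 γ 5 = (8638755840) * γ 0 + (1599769600) * γ 1 + (276883200) * γ 2 + (44301312) * γ 3
       + (6460608) * γ 4 + (842688) * γ 5 + (95760) * γ 6 + (9120) * γ 7 + (684) * γ 8 + (36) * γ 9
       + (1) * γ 10 + (0) * γ 11 + (0) * γ 12 + (0) * γ 13 := by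
  unfold Mat
  rw [show (27 / 2 + 1 : ℕ) = 14 from rfl]
  simp [sum_range_succ, Nat.choose]
  try ring

theorem m27_6 (γ : ℕ → ℝ) : Mat 27 γ 6 = (71204290560) * γ 0 + (15823175680) * γ 1 + (3347210240) * γ 2 + (669442048) * γ 3
       + (125520384) * γ 4 + (21829632) * γ 5 + (3472896) * γ 6 + (496128) * γ 7 + (62016) * γ 8
       + (6528) * γ 9 + (544) * γ 10 + (32) * γ 11 + (1) * γ 12 + (0) * γ 13 := by
  unfold Mat
  rw [show (27 / 2 + 1 : ℕ) = 14 from rfl]
  simp [sum_range_succ, Nat.choose]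
  try ring

theorem m27_7 (γ : ℕ → ℝ) : Mat 27 γ 7 = (328635187200) * γ 0 + (85201715200) * γ 1 + (21300428800) * γ 2 + (5112102912) * γ 3
       + (1171523584) * γ 4 + (254679040) * γ 5 + (52093440) * γ 6 + (9922560) * γ 7
       + (1736448) * γ 8 + (274176) * γ 9 + (38080) * γ 10 + (4480) * γ 11 + (420) * γ 12
       + (28) * γ 13 := by
  unfold Mat
  rw [show (27 / 2 + 1 : ℕ) = 14 from rfl]
  simp [sum_range_succ, Nat.choose]
  try ring

theorem m27_8 (γ : ℕ → ℝ) : Mat 27 γ 8 = (854451486720) * γ 0 + (253170810880) * γ 1 + (73030041600) * γ 2 + (20448411648) * γ 3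
       + (5538111488) * γ 4 + (1444724736) * γ 5 + (361181184) * γ 6 + (85995520) * γ 7
       + (19348992) * γ 8 + (4073472) * γ 9 + (792064) * γ 10 + (139776) * γ 11 + (21840) * γ 12
       + (2912) * γ 13 := by
  unfold Mat
  rw [show (27 / 2 + 1 : ℕ) = 14 from rfl]
  simp [sum_range_succ, Nat.choose]
  try ring

theorem m27_9 (γ : ℕ → ℝ) : Mat 27 γ 9 = (1228623052800) * γ 0 + (409541017600) * γ 1 + (133888409600) * γ 2 + (42844291072) * γ 3
       + (13388840960) * γ 4 + (4074864640) * γ 5 + (1203937280) * γ 6 + (343982080) * γ 7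
       + (94595072) * γ 8 + (24893440) * γ 9 + (6223360) * γ 10 + (1464320) * γ 11
       + (320320) * γ 12 + (64064) * γ 13 := by
  unfold Mat
  rw [show (27 / 2 + 1 : ℕ) = 14 from rfl]
  simp [sum_range_succ, Nat.choose]
  try ring

theorem m27_10 (γ : ℕ → ℝ) : Mat 27 γ 10 = (931166945280) * γ 0 + (344876646400) * γ 1 + (126012620800) * γ 2 + (45364543488) * γ 3
       + (16066609152) * γ 4 + (5588385792) * γ 5 + (1905131520) * γ 6 + (635043840) * γ 7
       + (206389248) * γ 8 + (65175552) * γ 9 + (19914752) * γ 10 + (5857280) * γ 11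
       + (1647360) * γ 12 + (439296) * γ 13 := by
  unfold Mat
  rw [show (27 / 2 + 1 : ℕ) = 14 from rfl]
  simp [sum_range_succ, Nat.choose]
  try ring

theorem m27_11 (γ : ℕ → ℝ) : Mat 27 γ 11 = (338606161920) * γ 0 + (137950658560) * γ 1 + (55710842880) * γ 2 + (22284337152) * γ 3
       + (8820883456) * γ 4 + (3451650048) * γ 5 + (1333592064) * γ 6 + (508035072) * γ 7
       + (190513152) * γ 8 + (70189056) * γ 9 + (25346048) * γ 10 + (8945664) * γ 11
       + (3075072) * γ 12 + (1025024) * γ 13 := by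
  unfold Mat
  rw [show (27 / 2 + 1 : ℕ) = 14 from rfl]
  simp [sum_range_succ, Nat.choose]
  try ring

theorem m27_12 (γ : ℕ → ℝ) : Mat 27 γ 12 = (49073356800) * γ 0 + (21810380800) * γ 1 + (9646899200) * γ 2 + (4244635648) * γ 3
       + (1857028096) * γ 4 + (807403520) * γ 5 + (348651520) * γ 6 + (149422080) * γ 7
       + (63504384) * γ 8 + (26738688) * γ 9 + (11141120) * γ 10 + (4587520) * γ 11
       + (1863680) * γ 12 + (745472) * γ 13 := by
  unfold Mat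
  rw [show (27 / 2 + 1 : ℕ) = 14 from rfl]
  simp [sum_range_succ, Nat.choose]
  try ring

theorem m27_13 (γ : ℕ → ℝ) : Mat 27 γ 13 = (1811939328) * γ 0 + (872415232) * γ 1 + (419430400) * γ 2 + (201326592) * γ 3
       + (96468992) * γ 4 + (46137344) * γ 5 + (22020096) * γ 6 + (10485760) * γ 7
       + (4980736) * γ 8 + (2359296) * γ 9 + (1114112) * γ 10 + (524288) * γ 11 + (245760) * γ 12
       + (114688) * γ 13 := by
  unfold Mat
  rw [show (27 / 2 + 1 : ℕ) = 14 from rfl]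
  simp [sum_range_succ, Nat.choose]
  try ring

theorem mm27_0 (γ : ℕ → ℝ) : Mat 27 (Mat 27 γ) 0 =
      (1) * γ 0 + (0) * γ 1 + (0) * γ 2 + (0) * γ 3 + (0) * γ 4 + (0) * γ 5 + (0) * γ 6 + (0) * γ 7
       + (0) * γ 8 + (0) * γ 9 + (0) * γ 10 + (0) * γ 11 + (0) * γ 12 + (0) * γ 13 := by
  rw [m27_0]
  simp only [m27_0, m27_1, m27_2, m27_3, m27_4, m27_5, m27_6, m27_7, m27_8, m27_9, m27_10, m27_11, m27_12, m27_13]
  ring

theorem mm27_1 (γ : ℕ → ℝ) : Mat 27 (Mat 27 γ) 1 =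
      (355212) * γ 0 + (23504) * γ 1 + (1252) * γ 2 + (48) * γ 3 + (1) * γ 4 + (0) * γ 5
       + (0) * γ 6 + (0) * γ 7 + (0) * γ 8 + (0) * γ 9 + (0) * γ 10 + (0) * γ 11 + (0) * γ 12
       + (0) * γ 13 := by
  rw [m27_1]
  simp only [m27_0, m27_1, m27_2, m27_3, m27_4, m27_5, m27_6, m27_7, m27_8, m27_9, m27_10, m27_11, m27_12, m27_13]
  ring

theorem mm27_2 (γ : ℕ → ℝ) : Mat 27 (Mat 27 γ) 2 =
      (1844125920) * γ 0 + (211278080) * γ 1 + (22510400) * γ 2 + (2194944) * γ 3 + (191456) * γ 4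
       + (14432) * γ 5 + (888) * γ 6 + (40) * γ 7 + (1) * γ 8 + (0) * γ 9 + (0) * γ 10 + (0) * γ 11
       + (0) * γ 12 + (0) * γ 13 := by
  rw [m27_2]
  simp only [m27_0, m27_1, m27_2, m27_3, m27_4, m27_5, m27_6, m27_7, m27_8, m27_9, m27_10, m27_11, m27_12, m27_13]
  ring

theorem mm27_3 (γ : ℕ → ℝ) : Mat 27 (Mat 27 γ) 3 =
      (1393028657280) * γ 0 + (209824709120) * γ 1 + (30522729600) * γ 2 + (4267045376) * γ 3
       + (569756000) * γ 4 + (72088192) * γ 5 + (8552608) * γ 6 + (937888) * γ 7 + (93124) * γ 8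
       + (8112) * γ 9 + (588) * γ 10 + (32) * γ 11 + (1) * γ 12 + (0) * γ 13 := by
  rw [m27_3]
  simp only [m27_0, m27_1, m27_2, m27_3, m27_4, m27_5, m27_6, m27_7, m27_8, m27_9, m27_10, m27_11, m27_12, m27_13]
  ring

theorem mm27_4 (γ : ℕ → ℝ) : Mat 27 (Mat 27 γ) 4 =
      (289831850576640) * γ 0 + (51694246645760) * γ 1 + (9042737996800) * γ 2
       + (1548326191104) * γ 3 + (258891874304) * γ 4 + (42156036608) * γ 5 + (6662285952) * γ 6
       + (1017671040) * γ 7 + (149468912) * γ 8 + (20967552) * γ 9 + (2784544) * γ 10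
       + (345856) * γ 11 + (39480) * γ 12 + (4032) * γ 13 := by
  rw [m27_4]
  simp only [m27_0, m27_1, m27_2, m27_3, m27_4, m27_5, m27_6, m27_7, m27_8, m27_9, m27_10, m27_11, m27_12, m27_13]
  ring

theorem mm27_5 (γ : ℕ → ℝ) : Mat 27 (Mat 27 γ) 5 =
      (22316150773785600) * γ 0 + (4471698483261440) * γ 1 + (885541017574400) * γ 2
       + (173152676745216) * γ 3 + (33394985786112) * γ 4 + (6345220651008) * γ 5
       + (1186118512128) * γ 6 + (217786037760) * γ 7 + (39204439488) * γ 8 + (6903537408) * γ 9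
       + (1185953216) * γ 10 + (198101504) * γ 11 + (32043600) * γ 12 + (4992768) * γ 13 := by
  rw [m27_5]
  simp only [m27_0, m27_1, m27_2, m27_3, m27_4, m27_5, m27_6, m27_7, m27_8, m27_9, m27_10, m27_11, m27_12, m27_13]
  ring

theorem mm27_6 (γ : ℕ → ℝ) : Mat 27 (Mat 27 γ) 6 =
      (745421305731563520) * γ 0 + (162759964647096320) * γ 1 + (35272134200033280) * γ 2
       + (7583177286877184) * γ 3 + (1616520374403072) * γ 4 + (341484987596800) * γ 5
       + (71440262967296) * γ 6 + (14790451433472) * γ 7 + (3027831974400) * γ 8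
       + (612336427008) * γ 9 + (122206214144) * γ 10 + (24038424576) * γ 11 + (4653754880) * γ 12
       + (885215232) * γ 13 := by
  rw [m27_6]
  simp only [m27_0, m27_1, m27_2, m27_3, m27_4, m27_5, m27_6, m27_7, m27_8, m27_9, m27_10, m27_11, m27_12, m27_13]
  ring

theorem mm27_7 (γ : ℕ → ℝ) : Mat 27 (Mat 27 γ) 7 =
      (11796625667093889024) * γ 0 + (2752643605593849856) * γ 1 + (639151745307443200) * γ 2
       + (147642106151436288) * γ 3 + (33919517463035904) * γ 4 + (7748050744311808) * γ 5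
       + (1759124643397632) * γ 6 + (396831641845760) * γ 7 + (88909837936640) * γ 8
       + (19775946645504) * γ 9 + (4364733011968) * γ 10 + (955378450432) * γ 11
       + (207265067520) * γ 12 + (44535988224) * γ 13 := by
  rw [m27_7]
  simp only [m27_0, m27_1, m27_2, m27_3, m27_4, m27_5, m27_6, m27_7, m27_8, m27_9, m27_10, m27_11, m27_12, m27_13]
  ring

theorem mm27_8 (γ : ℕ → ℝ) : Mat 27 (Mat 27 γ) 8 =
      (92338691279793094656) * γ 0 + (22723880556810993664) * γ 1 + (5573966022293585920) * γ 2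
       + (1362599067456110592) * γ 3 + (331916099921117184) * γ 4 + (80551689731702784) * γ 5
       + (19472932021272576) * γ 6 + (4688313606406144) * γ 7 + (1123937458708480) * γ 8
       + (268232813641728) * γ 9 + (63712053084160) * γ 10 + (15057656872960) * γ 11
       + (3539930075136) * γ 12 + (827554430976) * γ 13 := by
  rw [m27_8]
  simp only [m27_0, m27_1, m27_2, m27_3, m27_4, m27_5, m27_6, m27_7, m27_8, m27_9, m27_10, m27_11, m27_12, m27_13]
  ring

theorem mm27_9 (γ : ℕ → ℝ) : Mat 27 (Mat 27 γ) 9 =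
      (360149325089177075712) * γ 0 + (92596063017792176128) * γ 1 + (23755788300419072000) * γ 2
       + (6081055166575935488) * γ 3 + (1553046591563563008) * γ 4 + (395682887773454336) * γ 5
       + (100560173444890624) * γ 6 + (25490404806492160) * γ 7 + (6443954625282048) * γ 8
       + (1624437604876288) * γ 9 + (408295538262016) * γ 10 + (102307987718144) * γ 11
       + (25553221591040) * γ 12 + (6360862949376) * γ 13 := by
  rw [m27_9]
  simp only [m27_0, m27_1, m27_2, m27_3, m27_4, m27_5, m27_6, m27_7, m27_8, m27_9, m27_10, m27_11, m27_12, m27_13]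
  ring

theorem mm27_10 (γ : ℕ → ℝ) : Mat 27 (Mat 27 γ) 10 =
      (679689250971202879488) * γ 0 + (181299353638605422592) * γ 1 + (48293117327572992000) * γ 2
       + (12845713412893704192) * γ 3 + (3411890656260390912) * γ 4 + (904846032035119104) * γ 5
       + (239593288487141376) * γ 6 + (63339033644236800) * γ 7 + (16716299870994432) * γ 8
       + (4404072759164928) * γ 9 + (1158207973621760) * γ 10 + (304023240441856) * γ 11
       + (79649634385920) * γ 12 + (20824959483904) * γ 13 := by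
  rw [m27_10]
  simp only [m27_0, m27_1, m27_2, m27_3, m27_4, m27_5, m27_6, m27_7, m27_8, m27_9, m27_10, m27_11, m27_12, m27_13]
  ring

theorem mm27_11 (γ : ℕ → ℝ) : Mat 27 (Mat 27 γ) 11 =
      (572988258684587999232) * γ 0 + (157720693323205705728) * γ 1 + (43378510312337571840) * γ 2
       + (11920474547838517248) * γ 3 + (3272916432561635328) * γ 4 + (897816903869792256) * γ 5
       + (246059791017836544) * γ 6 + (67372322295644160) * γ 7 + (18428830898454528) * γ 8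
       + (5035890123472896) * γ 9 + (1374684500983808) * γ 10 + (374855243399168) * γ 11
       + (102103960584192) * γ 12 + (27779466788864) * γ 13 := by
  rw [m27_11]
  simp only [m27_0, m27_1, m27_2, m27_3, m27_4, m27_5, m27_6, m27_7, m27_8, m27_9, m27_10, m27_11, m27_12, m27_13]
  ring

theorem mm27_12 (γ : ℕ → ℝ) : Mat 27 (Mat 27 γ) 12 =
      (181177970518829039616) * γ 0 + (51249454059412783104) * γ 1 + (14490755754937548800) * γ 2
       + (4095493369281642496) * γ 3 + (1156991310524055552) * γ 4 + (326706475768479744) * γ 5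
       + (92211283016810496) * γ 6 + (26013797638471680) * γ 7 + (7335188823539712) * γ 8
       + (2067287758602240) * γ 9 + (582326650142720) * γ 10 + (163946535321600) * γ 11
       + (46131878297600) * γ 12 + (12973481394176) * γ 13 := by
  rw [m27_12]
  simp only [m27_0, m27_1, m27_2, m27_3, m27_4, m27_5, m27_6, m27_7, m27_8, m27_9, m27_10, m27_11, m27_12, m27_13]
  ring

theorem mm27_13 (γ : ℕ → ℝ) : Mat 27 (Mat 27 γ) 13 =
      (13852946661648629760) * γ 0 + (4013419510198435840) * γ 1 + (1162611772843098112) * γ 2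
       + (336745246274617344) * γ 3 + (97524475867693056) * γ 4 + (28240340234272768) * γ 5
       + (8176530937085952) * γ 6 + (2367062743711744) * γ 7 + (685157791039488) * γ 8
       + (198294261202944) * γ 9 + (57380842766336) * γ 10 + (16601961201664) * γ 11
       + (4802705620992) * γ 12 + (1389136707584) * γ 13 := by
  rw [m27_13]
  simp only [m27_0, m27_1, m27_2, m27_3, m27_4, m27_5, m27_6, m27_7, m27_8, m27_9, m27_10, m27_11, m27_12, m27_13]
  ring

theorem p27_0 (γ : ℕ → ℝ) (h0 : γ 0 = 1)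
    (h : ∀ n < 27, 2 * (((27 : ℕ) : ℝ) - ((n : ℕ) : ℝ)) * ∑ i ∈ range (27 / 2 + 1), γ i * (cfn 27 i n : ℝ) ≤
      ((n : ℝ) + 1) * ∑ i ∈ range (27 / 2 + 1), γ i * (cfn 27 i (n + 1) : ℝ)) :
    0 < Mat 27 (Mat 27 (Mat 27 γ)) 0 := by

  rw [m27_0]
  simp only [mm27_0, mm27_1, mm27_2, mm27_3, mm27_4, mm27_5, mm27_6, mm27_7, mm27_8, mm27_9, mm27_10, mm27_11, mm27_12, mm27_13]
  linarith only [h0]

theorem p27_1 (γ : ℕ → ℝ) (h0 : γ 0 = 1)
    (h : ∀ n < 27, 2 * (((27 : ℕ) : ℝ) - ((n : ℕ) : ℝ)) * ∑ i ∈ range (27 / 2 + 1), γ i * (cfn 27 i n : ℝ) ≤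
      ((n : ℝ) + 1) * ∑ i ∈ range (27 / 2 + 1), γ i * (cfn 27 i (n + 1) : ℝ)) :
    0 < Mat 27 (Mat 27 (Mat 27 γ)) 1 := by
  have k0 := q27_0 γ h0 h
  have k1 := q27_1 γ h0 h
  have k4 := q27_4 γ h0 h
  have k6 := q27_6 γ h0 h
  have k2 := q27_2 γ h0 h
  have k7 := q27_7 γ h0 h
  have k5 := q27_5 γ h0 h
  have k3 := q27_3 γ h0 h
  rw [m27_1]
  simp only [mm27_0, mm27_1, mm27_2, mm27_3, mm27_4, mm27_5, mm27_6, mm27_7, mm27_8, mm27_9, mm27_10, mm27_11, mm27_12, mm27_13]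
  linarith only [h0, k0, k1, k4, k6, k2, k7, k5, k3]

theorem p27_2 (γ : ℕ → ℝ) (h0 : γ 0 = 1)
    (h : ∀ n < 27, 2 * (((27 : ℕ) : ℝ) - ((n : ℕ) : ℝ)) * ∑ i ∈ range (27 / 2 + 1), γ i * (cfn 27 i n : ℝ) ≤
      ((n : ℝ) + 1) * ∑ i ∈ range (27 / 2 + 1), γ i * (cfn 27 i (n + 1) : ℝ)) :
    0 < Mat 27 (Mat 27 (Mat 27 γ)) 2 := by
  have k12 := q27_12 γ h0 h
  have k0 := q27_0 γ h0 h
  have k3 := q27_3 γ h0 h
  have k2 := q27_2 γ h0 h
  have k1 := q27_1 γ h0 h
  have k5 := q27_5 γ h0 h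
  have k10 := q27_10 γ h0 h
  have k4 := q27_4 γ h0 h
  have k8 := q27_8 γ h0 h
  have k13 := q27_13 γ h0 h
  have k7 := q27_7 γ h0 h
  have k11 := q27_11 γ h0 h
  have k6 := q27_6 γ h0 h
  rw [m27_2]
  simp only [mm27_0, mm27_1, mm27_2, mm27_3, mm27_4, mm27_5, mm27_6, mm27_7, mm27_8, mm27_9, mm27_10, mm27_11, mm27_12, mm27_13]
  linarith only [h0, k12, k0, k3, k2, k1, k5, k10, k4, k8, k13, k7, k11, k6]

theorem p27_3 (γ : ℕ → ℝ) (h0 : γ 0 = 1)
    (h : ∀ n < 27, 2 * (((27 : ℕ) : ℝ) - ((n : ℕ) : ℝ)) * ∑ i ∈ range (27 / 2 + 1), γ i * (cfn 27 i n : ℝ) ≤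
      ((n : ℝ) + 1) * ∑ i ∈ range (27 / 2 + 1), γ i * (cfn 27 i (n + 1) : ℝ)) :
    0 < Mat 27 (Mat 27 (Mat 27 γ)) 3 := by
  have k3 := q27_3 γ h0 h
  have k0 := q27_0 γ h0 h
  have k11 := q27_11 γ h0 h
  have k2 := q27_2 γ h0 h
  have k1 := q27_1 γ h0 h
  have k5 := q27_5 γ h0 h
  have k12 := q27_12 γ h0 h
  have k4 := q27_4 γ h0 h
  have k15 := q27_15 γ h0 h
  have k6 := q27_6 γ h0 h
  have k8 := q27_8 γ h0 h
  have k16 := q27_16 γ h0 h
  have k9 := q27_9 γ h0 h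
  rw [m27_3]
  simp only [mm27_0, mm27_1, mm27_2, mm27_3, mm27_4, mm27_5, mm27_6, mm27_7, mm27_8, mm27_9, mm27_10, mm27_11, mm27_12, mm27_13]
  linarith only [h0, k3, k0, k11, k2, k1, k5, k12, k4, k15, k6, k8, k16, k9]

theorem p27_4 (γ : ℕ → ℝ) (h0 : γ 0 = 1)
    (h : ∀ n < 27, 2 * (((27 : ℕ) : ℝ) - ((n : ℕ) : ℝ)) * ∑ i ∈ range (27 / 2 + 1), γ i * (cfn 27 i n : ℝ) ≤
      ((n : ℝ) + 1) * ∑ i ∈ range (27 / 2 + 1), γ i * (cfn 27 i (n + 1) : ℝ)) :
    0 < Mat 27 (Mat 27 (Mat 27 γ)) 4 := by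
  have k4 := q27_4 γ h0 h
  have k0 := q27_0 γ h0 h
  have k3 := q27_3 γ h0 h
  have k17 := q27_17 γ h0 h
  have k2 := q27_2 γ h0 h
  have k1 := q27_1 γ h0 h
  have k16 := q27_16 γ h0 h
  have k13 := q27_13 γ h0 h
  have k5 := q27_5 γ h0 h
  have k12 := q27_12 γ h0 h
  have k8 := q27_8 γ h0 h
  have k9 := q27_9 γ h0 h
  have k6 := q27_6 γ h0 h
  rw [m27_4]
  simp only [mm27_0, mm27_1, mm27_2, mm27_3, mm27_4, mm27_5, mm27_6, mm27_7, mm27_8, mm27_9, mm27_10, mm27_11, mm27_12, mm27_13]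
  linarith only [h0, k4, k0, k3, k17, k2, k1, k16, k13, k5, k12, k8, k9, k6]

theorem p27_5 (γ : ℕ → ℝ) (h0 : γ 0 = 1)
    (h : ∀ n < 27, 2 * (((27 : ℕ) : ℝ) - ((n : ℕ) : ℝ)) * ∑ i ∈ range (27 / 2 + 1), γ i * (cfn 27 i n : ℝ) ≤
      ((n : ℝ) + 1) * ∑ i ∈ range (27 / 2 + 1), γ i * (cfn 27 i (n + 1) : ℝ)) :
    0 < Mat 27 (Mat 27 (Mat 27 γ)) 5 := by
  have k17 := q27_17 γ h0 h
  have k8 := q27_8 γ h0 h
  have k0 := q27_0 γ h0 h
  have k1 := q27_1 γ h0 h
  have k3 := q27_3 γ h0 h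
  have k9 := q27_9 γ h0 h
  have k2 := q27_2 γ h0 h
  have k13 := q27_13 γ h0 h
  have k18 := q27_18 γ h0 h
  have k12 := q27_12 γ h0 h
  have k5 := q27_5 γ h0 h
  have k6 := q27_6 γ h0 h
  have k4 := q27_4 γ h0 h
  rw [m27_5]
  simp only [mm27_0, mm27_1, mm27_2, mm27_3, mm27_4, mm27_5, mm27_6, mm27_7, mm27_8, mm27_9, mm27_10, mm27_11, mm27_12, mm27_13]
  linarith only [h0, k17, k8, k0, k1, k3, k9, k2, k13, k18, k12, k5, k6, k4]

theorem p27_6 (γ : ℕ → ℝ) (h0 : γ 0 = 1)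
    (h : ∀ n < 27, 2 * (((27 : ℕ) : ℝ) - ((n : ℕ) : ℝ)) * ∑ i ∈ range (27 / 2 + 1), γ i * (cfn 27 i n : ℝ) ≤
      ((n : ℝ) + 1) * ∑ i ∈ range (27 / 2 + 1), γ i * (cfn 27 i (n + 1) : ℝ)) :
    0 < Mat 27 (Mat 27 (Mat 27 γ)) 6 := by
  have k1 := q27_1 γ h0 h
  have k0 := q27_0 γ h0 h
  have k14 := q27_14 γ h0 h
  have k3 := q27_3 γ h0 h
  have k2 := q27_2 γ h0 h
  have k19 := q27_19 γ h0 h
  have k9 := q27_9 γ h0 h
  have k13 := q27_13 γ h0 h
  have k18 := q27_18 γ h0 h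
  have k4 := q27_4 γ h0 h
  have k5 := q27_5 γ h0 h
  have k6 := q27_6 γ h0 h
  have k10 := q27_10 γ h0 h
  rw [m27_6]
  simp only [mm27_0, mm27_1, mm27_2, mm27_3, mm27_4, mm27_5, mm27_6, mm27_7, mm27_8, mm27_9, mm27_10, mm27_11, mm27_12, mm27_13]
  linarith only [h0, k1, k0, k14, k3, k2, k19, k9, k13, k18, k4, k5, k6, k10]

theorem p27_7 (γ : ℕ → ℝ) (h0 : γ 0 = 1)
    (h : ∀ n < 27, 2 * (((27 : ℕ) : ℝ) - ((n : ℕ) : ℝ)) * ∑ i ∈ range (27 / 2 + 1), γ i * (cfn 27 i n : ℝ) ≤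
      ((n : ℝ) + 1) * ∑ i ∈ range (27 / 2 + 1), γ i * (cfn 27 i (n + 1) : ℝ)) :
    0 < Mat 27 (Mat 27 (Mat 27 γ)) 7 := by
  have k0 := q27_0 γ h0 h
  have k13 := q27_13 γ h0 h
  have k1 := q27_1 γ h0 h
  have k3 := q27_3 γ h0 h
  have k14 := q27_14 γ h0 h
  have k18 := q27_18 γ h0 h
  have k2 := q27_2 γ h0 h
  have k4 := q27_4 γ h0 h
  have k9 := q27_9 γ h0 h
  have k19 := q27_19 γ h0 h
  have k5 := q27_5 γ h0 h
  have k6 := q27_6 γ h0 h
  have k10 := q27_10 γ h0 h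
  rw [m27_7]
  simp only [mm27_0, mm27_1, mm27_2, mm27_3, mm27_4, mm27_5, mm27_6, mm27_7, mm27_8, mm27_9, mm27_10, mm27_11, mm27_12, mm27_13]
  linarith only [h0, k0, k13, k1, k3, k14, k18, k2, k4, k9, k19, k5, k6, k10]

theorem p27_8 (γ : ℕ → ℝ) (h0 : γ 0 = 1)
    (h : ∀ n < 27, 2 * (((27 : ℕ) : ℝ) - ((n : ℕ) : ℝ)) * ∑ i ∈ range (27 / 2 + 1), γ i * (cfn 27 i n : ℝ) ≤
      ((n : ℝ) + 1) * ∑ i ∈ range (27 / 2 + 1), γ i * (cfn 27 i (n + 1) : ℝ)) :
    0 < Mat 27 (Mat 27 (Mat 27 γ)) 8 := by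
  have k13 := q27_13 γ h0 h
  have k2 := q27_2 γ h0 h
  have k0 := q27_0 γ h0 h
  have k4 := q27_4 γ h0 h
  have k1 := q27_1 γ h0 h
  have k20 := q27_20 γ h0 h
  have k9 := q27_9 γ h0 h
  have k6 := q27_6 γ h0 h
  have k19 := q27_19 γ h0 h
  have k3 := q27_3 γ h0 h
  have k5 := q27_5 γ h0 h
  have k14 := q27_14 γ h0 h
  have k10 := q27_10 γ h0 h
  rw [m27_8]
  simp only [mm27_0, mm27_1, mm27_2, mm27_3, mm27_4, mm27_5, mm27_6, mm27_7, mm27_8, mm27_9, mm27_10, mm27_11, mm27_12, mm27_13]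
  linarith only [h0, k13, k2, k0, k4, k1, k20, k9, k6, k19, k3, k5, k14, k10]

theorem p27_9 (γ : ℕ → ℝ) (h0 : γ 0 = 1)
    (h : ∀ n < 27, 2 * (((27 : ℕ) : ℝ) - ((n : ℕ) : ℝ)) * ∑ i ∈ range (27 / 2 + 1), γ i * (cfn 27 i n : ℝ) ≤
      ((n : ℝ) + 1) * ∑ i ∈ range (27 / 2 + 1), γ i * (cfn 27 i (n + 1) : ℝ)) :
    0 < Mat 27 (Mat 27 (Mat 27 γ)) 9 := by
  have k13 := q27_13 γ h0 h
  have k14 := q27_14 γ h0 h
  have k0 := q27_0 γ h0 h
  have k1 := q27_1 γ h0 h
  have k2 := q27_2 γ h0 h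
  have k20 := q27_20 γ h0 h
  have k4 := q27_4 γ h0 h
  have k19 := q27_19 γ h0 h
  have k9 := q27_9 γ h0 h
  have k3 := q27_3 γ h0 h
  have k5 := q27_5 γ h0 h
  have k6 := q27_6 γ h0 h
  have k10 := q27_10 γ h0 h
  rw [m27_9]
  simp only [mm27_0, mm27_1, mm27_2, mm27_3, mm27_4, mm27_5, mm27_6, mm27_7, mm27_8, mm27_9, mm27_10, mm27_11, mm27_12, mm27_13]
  linarith only [h0, k13, k14, k0, k1, k2, k20, k4, k19, k9, k3, k5, k6, k10]

theorem p27_10 (γ : ℕ → ℝ) (h0 : γ 0 = 1)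
    (h : ∀ n < 27, 2 * (((27 : ℕ) : ℝ) - ((n : ℕ) : ℝ)) * ∑ i ∈ range (27 / 2 + 1), γ i * (cfn 27 i n : ℝ) ≤
      ((n : ℝ) + 1) * ∑ i ∈ range (27 / 2 + 1), γ i * (cfn 27 i (n + 1) : ℝ)) :
    0 < Mat 27 (Mat 27 (Mat 27 γ)) 10 := by
  have k3 := q27_3 γ h0 h
  have k13 := q27_13 γ h0 h
  have k0 := q27_0 γ h0 h
  have k1 := q27_1 γ h0 h
  have k2 := q27_2 γ h0 h
  have k19 := q27_19 γ h0 h
  have k4 := q27_4 γ h0 h
  have k14 := q27_14 γ h0 h
  have k9 := q27_9 γ h0 h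
  have k20 := q27_20 γ h0 h
  have k5 := q27_5 γ h0 h
  have k6 := q27_6 γ h0 h
  have k10 := q27_10 γ h0 h
  rw [m27_10]
  simp only [mm27_0, mm27_1, mm27_2, mm27_3, mm27_4, mm27_5, mm27_6, mm27_7, mm27_8, mm27_9, mm27_10, mm27_11, mm27_12, mm27_13]
  linarith only [h0, k3, k13, k0, k1, k2, k19, k4, k14, k9, k20, k5, k6, k10]

theorem p27_11 (γ : ℕ → ℝ) (h0 : γ 0 = 1)
    (h : ∀ n < 27, 2 * (((27 : ℕ) : ℝ) - ((n : ℕ) : ℝ)) * ∑ i ∈ range (27 / 2 + 1), γ i * (cfn 27 i n : ℝ) ≤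
      ((n : ℝ) + 1) * ∑ i ∈ range (27 / 2 + 1), γ i * (cfn 27 i (n + 1) : ℝ)) :
    0 < Mat 27 (Mat 27 (Mat 27 γ)) 11 := by
  have k2 := q27_2 γ h0 h
  have k1 := q27_1 γ h0 h
  have k0 := q27_0 γ h0 h
  have k13 := q27_13 γ h0 h
  have k9 := q27_9 γ h0 h
  have k20 := q27_20 γ h0 h
  have k4 := q27_4 γ h0 h
  have k14 := q27_14 γ h0 h
  have k21 := q27_21 γ h0 h
  have k3 := q27_3 γ h0 h
  have k5 := q27_5 γ h0 h
  have k6 := q27_6 γ h0 h
  have k10 := q27_10 γ h0 h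
  rw [m27_11]
  simp only [mm27_0, mm27_1, mm27_2, mm27_3, mm27_4, mm27_5, mm27_6, mm27_7, mm27_8, mm27_9, mm27_10, mm27_11, mm27_12, mm27_13]
  linarith only [h0, k2, k1, k0, k13, k9, k20, k4, k14, k21, k3, k5, k6, k10]

theorem p27_12 (γ : ℕ → ℝ) (h0 : γ 0 = 1)
    (h : ∀ n < 27, 2 * (((27 : ℕ) : ℝ) - ((n : ℕ) : ℝ)) * ∑ i ∈ range (27 / 2 + 1), γ i * (cfn 27 i n : ℝ) ≤
      ((n : ℝ) + 1) * ∑ i ∈ range (27 / 2 + 1), γ i * (cfn 27 i (n + 1) : ℝ)) :
    0 < Mat 27 (Mat 27 (Mat 27 γ)) 12 := by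
  have k20 := q27_20 γ h0 h
  have k21 := q27_21 γ h0 h
  have k0 := q27_0 γ h0 h
  have k1 := q27_1 γ h0 h
  have k14 := q27_14 γ h0 h
  have k2 := q27_2 γ h0 h
  have k4 := q27_4 γ h0 h
  have k3 := q27_3 γ h0 h
  have k9 := q27_9 γ h0 h
  have k13 := q27_13 γ h0 h
  have k5 := q27_5 γ h0 h
  have k6 := q27_6 γ h0 h
  have k10 := q27_10 γ h0 h
  rw [m27_12]
  simp only [mm27_0, mm27_1, mm27_2, mm27_3, mm27_4, mm27_5, mm27_6, mm27_7, mm27_8, mm27_9, mm27_10, mm27_11, mm27_12, mm27_13]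
  linarith only [h0, k20, k21, k0, k1, k14, k2, k4, k3, k9, k13, k5, k6, k10]

theorem p27_13 (γ : ℕ → ℝ) (h0 : γ 0 = 1)
    (h : ∀ n < 27, 2 * (((27 : ℕ) : ℝ) - ((n : ℕ) : ℝ)) * ∑ i ∈ range (27 / 2 + 1), γ i * (cfn 27 i n : ℝ) ≤
      ((n : ℝ) + 1) * ∑ i ∈ range (27 / 2 + 1), γ i * (cfn 27 i (n + 1) : ℝ)) :
    0 < Mat 27 (Mat 27 (Mat 27 γ)) 13 := by
  have k14 := q27_14 γ h0 h
  have k2 := q27_2 γ h0 h
  have k0 := q27_0 γ h0 h
  have k1 := q27_1 γ h0 h
  have k4 := q27_4 γ h0 h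
  have k21 := q27_21 γ h0 h
  have k3 := q27_3 γ h0 h
  have k10 := q27_10 γ h0 h
  have k9 := q27_9 γ h0 h
  have k13 := q27_13 γ h0 h
  have k5 := q27_5 γ h0 h
  have k6 := q27_6 γ h0 h
  have k22 := q27_22 γ h0 h
  rw [m27_13]
  simp only [mm27_0, mm27_1, mm27_2, mm27_3, mm27_4, mm27_5, mm27_6, mm27_7, mm27_8, mm27_9, mm27_10, mm27_11, mm27_12, mm27_13]
  linarith only [h0, k14, k2, k0, k1, k4, k21, k3, k10, k9, k13, k5, k6, k22]

theorem main27 (γ : ℕ → ℝ) (h0 : γ 0 = 1)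
    (h : ∀ n < 27, 2 * (((27 : ℕ) : ℝ) - ((n : ℕ) : ℝ)) * ∑ i ∈ range (27 / 2 + 1), γ i * (cfn 27 i n : ℝ) ≤
      ((n : ℝ) + 1) * ∑ i ∈ range (27 / 2 + 1), γ i * (cfn 27 i (n + 1) : ℝ)) :
    ∀ j ≤ 27 / 2, 0 < Mat 27 (Mat 27 (Mat 27 γ)) j := by
  intro j hj
  have hj' : j ≤ 13 := hj
  clear hj
  interval_cases j
  · exact p27_0 γ h0 h
  · exact p27_1 γ h0 h
  · exact p27_2 γ h0 h
  · exact p27_3 γ h0 h
  · exact p27_4 γ h0 h
  · exact p27_5 γ h0 h
  · exact p27_6 γ h0 h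
  · exact p27_7 γ h0 h
  · exact p27_8 γ h0 h
  · exact p27_9 γ h0 h
  · exact p27_10 γ h0 h
  · exact p27_11 γ h0 h
  · exact p27_12 γ h0 h
  · exact p27_13 γ h0 h

theorem c28_0 (γ : ℕ → ℝ) : ∑ i ∈ range (28 / 2 + 1), γ i * (cfn 28 i 0 : ℝ) =
    (1) * γ 0 + (0) * γ 1 + (0) * γ 2 + (0) * γ 3 + (0) * γ 4 + (0) * γ 5 + (0) * γ 6 + (0) * γ 7
       + (0) * γ 8 + (0) * γ 9 + (0) * γ 10 + (0) * γ 11 + (0) * γ 12 + (0) * γ 13 + (0) * γ 14 := by
  have h : ((28 / 2 + 1 : ℕ)) = 15 := rfl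
  rw [h]
  simp only [sum_range_succ, sum_range_zero, show cfn 28 0 0 = 1 from by decide +kernel, show cfn 28 1 0 = 0 from by decide +kernel, show cfn 28 2 0 = 0 from by decide +kernel, show cfn 28 3 0 = 0 from by decide +kernel, show cfn 28 4 0 = 0 from by decide +kernel, show cfn 28 5 0 = 0 from by decide +kernel, show cfn 28 6 0 = 0 from by decide +kernel, show cfn 28 7 0 = 0 from by decide +kernel, show cfn 28 8 0 = 0 from by decide +kernel, show cfn 28 9 0 = 0 from by decide +kernel, show cfn 28 10 0 = 0 from by decide +kernel, show cfn 28 11 0 = 0 from by decide +kernel, show cfn 28 12 0 = 0 from by decide +kernel, show cfn 28 13 0 = 0 from by decide +kernel, show cfn 28 14 0 = 0 from by decide +kernel, Nat.cast_ofNat, Nat.cast_one, Nat.cast_zero]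
  ring

theorem c28_1 (γ : ℕ → ℝ) : ∑ i ∈ range (28 / 2 + 1), γ i * (cfn 28 i 1 : ℝ) =
    (56) * γ 0 + (1) * γ 1 + (0) * γ 2 + (0) * γ 3 + (0) * γ 4 + (0) * γ 5 + (0) * γ 6
       + (0) * γ 7 + (0) * γ 8 + (0) * γ 9 + (0) * γ 10 + (0) * γ 11 + (0) * γ 12 + (0) * γ 13
       + (0) * γ 14 := by
  have h : ((28 / 2 + 1 : ℕ)) = 15 := rfl
  rw [h]
  simp only [sum_range_succ, sum_range_zero, show cfn 28 0 1 = 56 from by decide +kernel, show cfn 28 1 1 = 1 from by decide +kernel, show cfn 28 2 1 = 0 from by decide +kernel, show cfn 28 3 1 = 0 from by decide +kernel, show cfn 28 4 1 = 0 from by decide +kernel, show cfn 28 5 1 = 0 from by decide +kernel, show cfn 28 6 1 = 0 from by decide +kernel, show cfn 28 7 1 = 0 from by decide +kernel, show cfn 28 8 1 = 0 from by decide +kernel, show cfn 28 9 1 = 0 from by decide +kernel, show cfn 28 10 1 = 0 from by decide +kernel, show cfn 28 11 1 = 0 from by decide +kernel, show cfn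 28 12 1 = 0 from by decide +kernel, show cfn 28 13 1 = 0 from by decide +kernel, show cfn 28 14 1 = 0 from by decide +kernel, Nat.cast_ofNat, Nat.cast_one, Nat.cast_zero]
  ring

theorem c28_2 (γ : ℕ → ℝ) : ∑ i ∈ range (28 / 2 + 1), γ i * (cfn 28 i 2 : ℝ) =
    (1512) * γ 0 + (53) * γ 1 + (1) * γ 2 + (0) * γ 3 + (0) * γ 4 + (0) * γ 5 + (0) * γ 6
       + (0) * γ 7 + (0) * γ 8 + (0) * γ 9 + (0) * γ 10 + (0) * γ 11 + (0) * γ 12 + (0) * γ 13
       + (0) * γ 14 := by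
  have h : ((28 / 2 + 1 : ℕ)) = 15 := rfl
  rw [h]
  simp only [sum_range_succ, sum_range_zero, show cfn 28 0 2 = 1512 from by decide +kernel, show cfn 28 1 2 = 53 from by decide +kernel, show cfn 28 2 2 = 1 from by decide +kernel, show cfn 28 3 2 = 0 from by decide +kernel, show cfn 28 4 2 = 0 from by decide +kernel, show cfn 28 5 2 = 0 from by decide +kernel, show cfn 28 6 2 = 0 from by decide +kernel, show cfn 28 7 2 = 0 from by decide +kernel, show cfn 28 8 2 = 0 from by decide +kernel, show cfn 28 9 2 = 0 from by decide +kernel, show cfn 28 10 2 = 0 from by decide +kernel, show cfn 28 11 2 = 0 from by decide +kernel, show cfn 28 12 2 = 0 from by decide +kernel, show cfn 28 13 2 = 0 from by decide +kernel, show cfn 28 14 2 = 0 from by decide +kernel, Nat.cast_ofNat, Nat.cast_one, Nat.cast_zero]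
  ring

theorem c28_3 (γ : ℕ → ℝ) : ∑ i ∈ range (28 / 2 + 1), γ i * (cfn 28 i 3 : ℝ) =
    (26208) * γ 0 + (1352) * γ 1 + (50) * γ 2 + (1) * γ 3 + (0) * γ 4 + (0) * γ 5 + (0) * γ 6
       + (0) * γ 7 + (0) * γ 8 + (0) * γ 9 + (0) * γ 10 + (0) * γ 11 + (0) * γ 12 + (0) * γ 13
       + (0) * γ 14 := by
  have h : ((28 / 2 + 1 : ℕ)) = 15 := rfl
  rw [h]
  simp only [sum_range_succ, sum_range_zero, show cfn 28 0 3 = 26208 from by decide +kernel, show cfn 28 1 3 = 1352 from by decide +kernel, show cfn 28 2 3 = 50 from by decide +kernel, show cfn 28 3 3 = 1 from by decide +kernel, show cfn 28 4 3 = 0 from by decide +kernel, show cfn 28 5 3 = 0 from by decide +kernel, show cfn 28 6 3 = 0 from by decide +kernel, show cfn 28 7 3 = 0 from by decide +kernel, show cfn 28 8 3 = 0 from by decide +kernel, show cfn 28 9 3 = 0 from by decide +kernel, show cfn 28 10 3 = 0 from by decide +kernel, show cfn 28 11 3 = 0 from by decide +kernel,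 show cfn 28 12 3 = 0 from by decide +kernel, show cfn 28 13 3 = 0 from by decide +kernel, show cfn 28 14 3 = 0 from by decide +kernel, Nat.cast_ofNat, Nat.cast_one, Nat.cast_zero]
  ring

theorem c28_4 (γ : ℕ → ℝ) : ∑ i ∈ range (28 / 2 + 1), γ i * (cfn 28 i 4 : ℝ) =
    (327600) * γ 0 + (22100) * γ 1 + (1201) * γ 2 + (47) * γ 3 + (1) * γ 4 + (0) * γ 5
       + (0) * γ 6 + (0) * γ 7 + (0) * γ 8 + (0) * γ 9 + (0) * γ 10 + (0) * γ 11 + (0) * γ 12
       + (0) * γ 13 + (0) * γ 14 := by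
  have h : ((28 / 2 + 1 : ℕ)) = 15 := rfl
  rw [h]
  simp only [sum_range_succ, sum_range_zero, show cfn 28 0 4 = 327600 from by decide +kernel, show cfn 28 1 4 = 22100 from by decide +kernel, show cfn 28 2 4 = 1201 from by decide +kernel, show cfn 28 3 4 = 47 from by decide +kernel, show cfn 28 4 4 = 1 from by decide +kernel, show cfn 28 5 4 = 0 from by decide +kernel, show cfn 28 6 4 = 0 from by decide +kernel, show cfn 28 7 4 = 0 from by decide +kernel, show cfn 28 8 4 = 0 from by decide +kernel, show cfn 28 9 4 = 0 from by decide +kernel, show cfn 28 10 4 = 0 from by decide +kernel, show cfn 28 11 4 = 0 from by decide +kernel, show cfn 28 12 4 = 0 from by decide +kernel, show cfn 28 13 4 = 0 from by decide +kernel, show cfn 28 14 4 = 0 from by decide +kernel, Nat.cast_ofNat, Nat.cast_one, Nat.cast_zero]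
  ring

theorem c28_5 (γ : ℕ → ℝ) : ∑ i ∈ range (28 / 2 + 1), γ i * (cfn 28 i 5 : ℝ) =
    (3144960) * γ 0 + (260000) * γ 1 + (18448) * γ 2 + (1059) * γ 3 + (44) * γ 4 + (1) * γ 5
       + (0) * γ 6 + (0) * γ 7 + (0) * γ 8 + (0) * γ 9 + (0) * γ 10 + (0) * γ 11 + (0) * γ 12
       + (0) * γ 13 + (0) * γ 14 := by
  have h : ((28 / 2 + 1 : ℕ)) = 15 := rfl
  rw [h]
  simp only [sum_range_succ, sum_range_zero, show cfn 28 0 5 = 3144960 from by decide +kernel, show cfn 28 1 5 = 260000 from by decide +kernel, show cfn 28 2 5 = 18448 from by decide +kernel, show cfn 28 3 5 = 1059 from by decide +kernel, show cfn 28 4 5 = 44 from by decide +kernel, show cfn 28 5 5 = 1 from by decide +kernel, show cfn 28 6 5 = 0 from by decide +kernel, show cfn 28 7 5 = 0 from by decide +kernel, show cfn 28 8 5 = 0 from by decide +kernel, show cfn 28 9 5 = 0 from by decide +kernel, show cfn 28 10 5 = 0 from by decide +kernel, show cfn 28 11 5 =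 0 from by decide +kernel, show cfn 28 12 5 = 0 from by decide +kernel, show cfn 28 13 5 = 0 from by decide +kernel, show cfn 28 14 5 = 0 from by decide +kernel, Nat.cast_ofNat, Nat.cast_one, Nat.cast_zero]
  ring

theorem c28_6 (γ : ℕ → ℝ) : ∑ i ∈ range (28 / 2 + 1), γ i * (cfn 28 i 6 : ℝ) =
    (24111360) * γ 0 + (2344160) * γ 1 + (203504) * γ 2 + (15225) * γ 3 + (926) * γ 4
       + (41) * γ 5 + (1) * γ 6 + (0) * γ 7 + (0) * γ 8 + (0) * γ 9 + (0) * γ 10 + (0) * γ 11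
       + (0) * γ 12 + (0) * γ 13 + (0) * γ 14 := by
  have h : ((28 / 2 + 1 : ℕ)) = 15 := rfl
  rw [h]
  simp only [sum_range_succ, sum_range_zero, show cfn 28 0 6 = 24111360 from by decide +kernel, show cfn 28 1 6 = 2344160 from by decide +kernel, show cfn 28 2 6 = 203504 from by decide +kernel, show cfn 28 3 6 = 15225 from by decide +kernel, show cfn 28 4 6 = 926 from by decide +kernel, show cfn 28 5 6 = 41 from by decide +kernel, show cfn 28 6 6 = 1 from by decide +kernel, show cfn 28 7 6 = 0 from by decide +kernel, show cfn 28 8 6 = 0 from by decide +kernel, show cfn 28 9 6 = 0 from by decide +kernel, show cfn 28 10 6 = 0 from by decide +kernel, show cfn 28 11 6 = 0 from by decide +kernel, show cfn 28 12 6 = 0 from by decide +kernel, show cfn 28 13 6 = 0 from by decide +kernel, show cfn 28 14 6 = 0 from by decide +kernel, Nat.cast_ofNat, Nat.cast_one, Nat.cast_zero]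
  ring

theorem c28_7 (γ : ℕ → ℝ) : ∑ i ∈ range (28 / 2 + 1), γ i * (cfn 28 i 7 : ℝ) =
    (151557120) * γ 0 + (16839680) * γ 1 + (1716352) * γ 2 + (156816) * γ 3 + (12404) * γ 4
       + (802) * γ 5 + (38) * γ 6 + (1) * γ 7 + (0) * γ 8 + (0) * γ 9 + (0) * γ 10 + (0) * γ 11
       + (0) * γ 12 + (0) * γ 13 + (0) * γ 14 := by
  have h : ((28 / 2 + 1 : ℕ)) = 15 := rfl
  rw [h]
  simp only [sum_range_succ, sum_range_zero, show cfn 28 0 7 = 151557120 from by decide +kernel, show cfn 28 1 7 = 16839680 from by decide +kernel, show cfn 28 2 7 = 1716352 from by decide +kernel, show cfn 28 3 7 = 156816 from by decide +kernel, show cfn 28 4 7 = 12404 from by decide +kernel, show cfn 28 5 7 = 802 from by decide +kernel, show cfn 28 6 7 = 38 from by decide +kernel, show cfn 28 7 7 = 1 from by decide +kernel, show cfn 28 8 7 = 0 from by decide +kernel, show cfn 28 9 7 = 0 from by decide +kernel, show cfn 28 10 7 = 0 from by decide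 +kernel, show cfn 28 11 7 = 0 from by decide +kernel, show cfn 28 12 7 = 0 from by decide +kernel, show cfn 28 13 7 = 0 from by decide +kernel, show cfn 28 14 7 = 0 from by decide +kernel, Nat.cast_ofNat, Nat.cast_one, Nat.cast_zero]
  ring

theorem c28_8 (γ : ℕ → ℝ) : ∑ i ∈ range (28 / 2 + 1), γ i * (cfn 28 i 8 : ℝ) =
    (795674880) * γ 0 + (98933120) * γ 1 + (11504416) * γ 2 + (1231692) * γ 3 + (118721) * γ 4
       + (9958) * γ 5 + (687) * γ 6 + (35) * γ 7 + (1) * γ 8 + (0) * γ 9 + (0) * γ 10 + (0) * γ 11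
       + (0) * γ 12 + (0) * γ 13 + (0) * γ 14 := by
  have h : ((28 / 2 + 1 : ℕ)) = 15 := rfl
  rw [h]
  simp only [sum_range_succ, sum_range_zero, show cfn 28 0 8 = 795674880 from by decide +kernel, show cfn 28 1 8 = 98933120 from by decide +kernel, show cfn 28 2 8 = 11504416 from by decide +kernel, show cfn 28 3 8 = 1231692 from by decide +kernel, show cfn 28 4 8 = 118721 from by decide +kernel, show cfn 28 5 8 = 9958 from by decide +kernel, show cfn 28 6 8 = 687 from by decide +kernel, show cfn 28 7 8 = 35 from by decide +kernel, show cfn 28 8 8 = 1 from by decide +kernel, show cfn 28 9 8 = 0 from by decide +kernel, show cfn 28 10 8 = 0 from by decide +kernel, show cfn 28 11 8 = 0 from by decide +kernel, show cfn 28 12 8 = 0 from by decide +kernel, show cfn 28 13 8 = 0 from by decide +kernel, show cfn 28 14 8 = 0 from by decide +kernel, Nat.cast_ofNat, Nat.cast_one, Nat.cast_zero]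
  ring

theorem c28_9 (γ : ℕ → ℝ) : ∑ i ∈ range (28 / 2 + 1), γ i * (cfn 28 i 9 : ℝ) =
    (3536332800) * γ 0 + (484140800) * γ 1 + (62889728) * γ 2 + (7666736) * γ 3 + (864008) * γ 4
       + (88085) * γ 5 + (7860) * γ 6 + (581) * γ 7 + (32) * γ 8 + (1) * γ 9 + (0) * γ 10
       + (0) * γ 11 + (0) * γ 12 + (0) * γ 13 + (0) * γ 14 := by
  have h : ((28 / 2 + 1 : ℕ)) = 15 := rfl
  rw [h]
  simp only [sum_range_succ, sum_range_zero, show cfn 28 0 9 = 3536332800 from by decide +kernel, show cfn 28 1 9 = 484140800 from by decide +kernel, show cfn 28 2 9 = 62889728 from by decide +kernel, show cfn 28 3 9 = 7666736 from by decide +kernel, show cfn 28 4 9 = 864008 from by decide +kernel, show cfn 28 5 9 = 88085 from by decide +kernel, show cfn 28 6 9 = 7860 from by decide +kernel, show cfn 28 7 9 = 581 from by decide +kernel, show cfn 28 8 9 = 32 from by decide +kernel, show cfn 28 9 9 = 1 from by decide +kernel, show cfn 28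 10 9 = 0 from by decide +kernel, show cfn 28 11 9 = 0 from by decide +kernel, show cfn 28 12 9 = 0 from by decide +kernel, show cfn 28 13 9 = 0 from by decide +kernel, show cfn 28 14 9 = 0 from by decide +kernel, Nat.cast_ofNat, Nat.cast_one, Nat.cast_zero]
  ring

theorem c28_10 (γ : ℕ → ℝ) : ∑ i ∈ range (28 / 2 + 1), γ i * (cfn 28 i 10 : ℝ) =
    (13438064640) * γ 0 + (1999712000) * γ 1 + (285497344) * γ 2 + (38800432) * γ 3
       + (4967512) * γ 4 + (590557) * γ 5 + (63855) * γ 6 + (6083) * γ 7 + (484) * γ 8 + (29) * γ 9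
       + (1) * γ 10 + (0) * γ 11 + (0) * γ 12 + (0) * γ 13 + (0) * γ 14 := by
  have h : ((28 / 2 + 1 : ℕ)) = 15 := rfl
  rw [h]
  simp only [sum_range_succ, sum_range_zero, show cfn 28 0 10 = 13438064640 from by decide +kernel, show cfn 28 1 10 = 1999712000 from by decide +kernel, show cfn 28 2 10 = 285497344 from by decide +kernel, show cfn 28 3 10 = 38800432 from by decide +kernel, show cfn 28 4 10 = 4967512 from by decide +kernel, show cfn 28 5 10 = 590557 from by decide +kernel, show cfn 28 6 10 = 63855 from by decide +kernel, show cfn 28 7 10 = 6083 from by decide +kernel, show cfn 28 8 10 = 484 from by decide +kernel, show cfn 28 9 10 = 29 from by decide +kernel, show cfn 28 10 10 = 1 from by decide +kernel, show cfn 28 11 10 = 0 from by decide +kernel, show cfn 28 12 10 = 0 from by decide +kernel, show cfn 28 13 10 = 0 from by decide +kernel, show cfn 28 14 10 = 0 from by decide +kernel, Nat.cast_ofNat, Nat.cast_one,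 Nat.cast_zero]
  ring

theorem c28_11 (γ : ℕ → ℝ) : ∑ i ∈ range (28 / 2 + 1), γ i * (cfn 28 i 11 : ℝ) =
    (43979120640) * γ 0 + (7038986240) * γ 1 + (1090304512) * γ 2 + (162518400) * γ 3
       + (23141088) * γ 4 + (3116952) * γ 5 + (391782) * γ 6 + (45059) * γ 7 + (4600) * γ 8
       + (396) * γ 9 + (26) * γ 10 + (1) * γ 11 + (0) * γ 12 + (0) * γ 13 + (0) * γ 14 := by
  have h : ((28 / 2 + 1 : ℕ)) = 15 := rfl
  rw [h]
  simp only [sum_range_succ, sum_range_zero, show cfn 28 0 11 = 43979120640 from by decide +kernel, show cfn 28 1 11 = 7038986240 from by decide +kernel, show cfn 28 2 11 = 1090304512 from by decide +kernel, show cfn 28 3 11 = 162518400 from by decide +kernel, show cfn 28 4 11 = 23141088 from by decide +kernel, show cfn 28 5 11 = 3116952 from by decide +kernel, show cfn 28 6 11 = 391782 from by decide +kernel, show cfn 28 7 11 = 45059 from by decide +kernel, show cfn 28 8 11 = 4600 from by decide +kernel,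 show cfn 28 9 11 = 396 from by decide +kernel, show cfn 28 10 11 = 26 from by decide +kernel, show cfn 28 11 11 = 1 from by decide +kernel, show cfn 28 12 11 = 0 from by decide +kernel, show cfn 28 13 11 = 0 from by decide +kernel, show cfn 28 14 11 = 0 from by decide +kernel, Nat.cast_ofNat, Nat.cast_one, Nat.cast_zero]
  ring

theorem c28_12 (γ : ℕ → ℝ) : ∑ i ∈ range (28 / 2 + 1), γ i * (cfn 28 i 12 : ℝ) =
    (124607508480) * γ 0 + (21262392320) * γ 1 + (3535490816) * γ 2 + (570526528) * γ 3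
       + (88884432) * γ 4 + (13278564) * γ 5 + (1884961) * γ 6 + (251069) * γ 7 + (30806) * γ 8
       + (3384) * γ 9 + (317) * γ 10 + (23) * γ 11 + (1) * γ 12 + (0) * γ 13 + (0) * γ 14 := by
  have h : ((28 / 2 + 1 : ℕ)) = 15 := rfl
  rw [h]
  simp only [sum_range_succ, sum_range_zero, show cfn 28 0 12 = 124607508480 from by decide +kernel, show cfn 28 1 12 = 21262392320 from by decide +kernel, show cfn 28 2 12 = 3535490816 from by decide +kernel, show cfn 28 3 12 = 570526528 from by decide +kernel, show cfn 28 4 12 = 88884432 from by decide +kernel, show cfn 28 5 12 = 13278564 from by decide +kernel, show cfn 28 6 12 = 1884961 from by decide +kernel, show cfn 28 7 12 = 251069 from by decide +kernel, show cfn 28 8 12 = 30806 from by decide +kernel, show cfn 28 9 12 = 3384 from by decide +kernel, show cfn 28 10 12 = 317 from by decide +kernel, show cfn 28 11 12 = 23 from by decide +kernel, show cfn 28 12 12 = 1 from by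 decide +kernel, show cfn 28 13 12 = 0 from by decide +kernel, show cfn 28 14 12 = 0 from by decide +kernel, Nat.cast_ofNat, Nat.cast_one, Nat.cast_zero]
  ring

theorem c28_13 (γ : ℕ → ℝ) : ∑ i ∈ range (28 / 2 + 1), γ i * (cfn 28 i 13 : ℝ) =
    (306726174720) * γ 0 + (55381114880) * γ 1 + (9798197248) * γ 2 + (1693615616) * γ 3
       + (284942848) * γ 4 + (46443456) * γ 5 + (7288544) * γ 6 + (1092231) * γ 7 + (154504) * γ 8
       + (20286) * γ 9 + (2408) * γ 10 + (247) * γ 11 + (20) * γ 12 + (1) * γ 13 + (0) * γ 14 := by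
  have h : ((28 / 2 + 1 : ℕ)) = 15 := rfl
  rw [h]
  simp only [sum_range_succ, sum_range_zero, show cfn 28 0 13 = 306726174720 from by decide +kernel, show cfn 28 1 13 = 55381114880 from by decide +kernel, show cfn 28 2 13 = 9798197248 from by decide +kernel, show cfn 28 3 13 = 1693615616 from by decide +kernel, show cfn 28 4 13 = 284942848 from by decide +kernel, show cfn 28 5 13 = 46443456 from by decide +kernel, show cfn 28 6 13 = 7288544 from by decide +kernel, show cfn 28 7 13 = 1092231 from by decide +kernel, show cfn 28 8 13 = 154504 from by decide +kernel, show cfn 28 9 13 = 20286 from by decide +kernel, show cfn 28 10 13 = 2408 from by decide +kernel, show cfn 28 11 13 = 247 from by decide +kernel, show cfn 28 12 13 = 20 from by decide +kernel, show cfn 28 13 13 = 1 from by decide +kernel, show cfn 28 14 13 = 0 from by decide +kernel, Nat.cast_ofNat, Nat.cast_one, Nat.cast_zero]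
  ring

theorem c28_14 (γ : ℕ → ℝ) : ∑ i ∈ range (28 / 2 + 1), γ i * (cfn 28 i 14 : ℝ) =
    (657270374400) * γ 0 + (124759654400) * γ 1 + (23308754944) * γ 2 + (4277119488) * γ 3
       + (768833024) * γ 4 + (134939200) * γ 5 + (23028000) * γ 6 + (3800305) * γ 7
       + (602060) * γ 8 + (90630) * γ 9 + (12770) * γ 10 + (1645) * γ 11 + (186) * γ 12
       + (17) * γ 13 + (1) * γ 14 := by
  have h : ((28 / 2 + 1 : ℕ)) = 15 := rfl
  rw [h]
  simp only [sum_range_succ, sum_range_zero, show cfn 28 0 14 = 657270374400 from by decide +kernel, show cfn 28 1 14 = 124759654400 from by decide +kernel, show cfn 28 2 14 = 23308754944 from by decide +kernel, show cfn 28 3 14 = 4277119488 from by decide +kernel, show cfn 28 4 14 = 768833024 from by decide +kernel, show cfn 28 5 14 = 134939200 from by decide +kernel, show cfn 28 6 14 = 23028000 from by decide +kernel, show cfn 28 7 14 = 3800305 from by decide +kernel, show cfn 28 8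 14 = 602060 from by decide +kernel, show cfn 28 9 14 = 90630 from by decide +kernel, show cfn 28 10 14 = 12770 from by decide +kernel, show cfn 28 11 14 = 1645 from by decide +kernel, show cfn 28 12 14 = 186 from by decide +kernel, show cfn 28 13 14 = 17 from by decide +kernel, show cfn 28 14 14 = 1 from by decide +kernel, Nat.cast_ofNat, Nat.cast_one, Nat.cast_zero]
  ring

theorem c28_15 (γ : ℕ → ℝ) : ∑ i ∈ range (28 / 2 + 1), γ i * (cfn 28 i 15 : ℝ) =
    (1226904698880) * γ 0 + (243433472000) * γ 1 + (47712960512) * γ 2 + (9224011776) * γ 3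
       + (1755631616) * γ 4 + (328245248) * γ 5 + (60116480) * γ 6 + (10746400) * γ 7
       + (1866280) * γ 8 + (312900) * γ 9 + (50204) * γ 10 + (7610) * γ 11 + (1068) * γ 12
       + (134) * γ 13 + (14) * γ 14 := by
  have h : ((28 / 2 + 1 : ℕ)) = 15 := rfl
  rw [h]
  simp only [sum_range_succ, sum_range_zero, show cfn 28 0 15 = 1226904698880 from by decide +kernel, show cfn 28 1 15 = 243433472000 from by decide +kernel, show cfn 28 2 15 = 47712960512 from by decide +kernel, show cfn 28 3 15 = 9224011776 from by decide +kernel, show cfn 28 4 15 = 1755631616 from by decide +kernel, show cfn 28 5 15 = 328245248 from by decide +kernel, show cfn 28 6 15 = 60116480 from by decide +kernel, show cfn 28 7 15 = 10746400 from by decide +kernel, show cfn 28 8 15 = 1866280 from by decide +kernel, show cfn 28 9 15 = 312900 from by decide +kernel, show cfn 28 10 15 = 50204 from by decide +kernel, show cfn 28 11 15 = 7610 from by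 decide +kernel, show cfn 28 12 15 = 1068 from by decide +kernel, show cfn 28 13 15 = 134 from by decide +kernel, show cfn 28 14 15 = 14 from by decide +kernel, Nat.cast_ofNat, Nat.cast_one, Nat.cast_zero]
  ring

theorem c28_16 (γ : ℕ → ℝ) : ∑ i ∈ range (28 / 2 + 1), γ i * (cfn 28 i 16 : ℝ) =
    (1993720135680) * γ 0 + (411402567680) * γ 1 + (84106264576) * γ 2 + (17017190400) * γ 3
       + (3403272704) * γ 4 + (671726848) * γ 5 + (130606528) * γ 6 + (24957660) * γ 7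
       + (4673345) * γ 8 + (854220) * γ 9 + (151634) * γ 10 + (25954) * γ 11 + (4239) * γ 12
       + (650) * γ 13 + (91) * γ 14 := by
  have h : ((28 / 2 + 1 : ℕ)) = 15 := rfl
  rw [h]
  simp only [sum_range_succ, sum_range_zero, show cfn 28 0 16 = 1993720135680 from by decide +kernel, show cfn 28 1 16 = 411402567680 from by decide +kernel, show cfn 28 2 16 = 84106264576 from by decide +kernel, show cfn 28 3 16 = 17017190400 from by decide +kernel, show cfn 28 4 16 = 3403272704 from by decide +kernel, show cfn 28 5 16 = 671726848 from by decide +kernel, show cfn 28 6 16 = 130606528 from by decide +kernel, show cfn 28 7 16 = 24957660 from by decide +kernel, show cfn 28 8 16 = 4673345 from by decide +kernel, show cfn 28 9 16 = 854220 from by decide +kernel, show cfn 28 10 16 = 151634 from by decide +kernel, show cfn 28 11 16 = 25954 from by decide +kernel, show cfn 28 12 16 = 4239 from by decide +kernel, show cfn 28 13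 16 = 650 from by decide +kernel, show cfn 28 14 16 = 91 from by decide +kernel, Nat.cast_ofNat, Nat.cast_one, Nat.cast_zero]
  ring

theorem c28_17 (γ : ℕ → ℝ) : ∑ i ∈ range (28 / 2 + 1), γ i * (cfn 28 i 17 : ℝ) =
    (2814663720960) * γ 0 + (601280675840) * γ 1 + (127559139328) * γ 2 + (26854416384) * γ 3
       + (5605584896) * γ 4 + (1159015936) * γ 5 + (237080064) * γ 6 + (47906768) * γ 7
       + (9545560) * γ 8 + (1871145) * γ 9 + (359768) * γ 10 + (67582) * γ 11 + (12336) * γ 12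
       + (2171) * γ 13 + (364) * γ 14 := by
  have h : ((28 / 2 + 1 : ℕ)) = 15 := rfl
  rw [h]
  simp only [sum_range_succ, sum_range_zero, show cfn 28 0 17 = 2814663720960 from by decide +kernel, show cfn 28 1 17 = 601280675840 from by decide +kernel, show cfn 28 2 17 = 127559139328 from by decide +kernel, show cfn 28 3 17 = 26854416384 from by decide +kernel, show cfn 28 4 17 = 5605584896 from by decide +kernel, show cfn 28 5 17 = 1159015936 from by decide +kernel, show cfn 28 6 17 = 237080064 from by decide +kernel, show cfn 28 7 17 = 47906768 from by decide +kernel, show cfn 28 8 17 = 9545560 from by decide +kernel, show cfn 28 9 17 = 1871145 from by decide +kernel, show cfn 28 10 17 = 359768 from by decide +kernel, show cfn 28 11 17 = 67582 from by decide +kernel, show cfn 28 12 17 = 12336 from by decide +kernel, show cfn 28 13 17 = 2171 from by decide +kernel, show cfn 28 14 17 = 364 from by decide +kernel, Nat.cast_ofNat,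 Nat.cast_one, Nat.cast_zero]
  ring

theorem c28_18 (γ : ℕ → ℝ) : ∑ i ∈ range (28 / 2 + 1), γ i * (cfn 28 i 18 : ℝ) =
    (3440144547840) * γ 0 + (757650882560) * γ 1 + (166021627904) * γ 2 + (36178976768) * γ 3
       + (7836176384) * γ 4 + (1685886464) * γ 5 + (359996416) * γ 6 + (76228880) * γ 7
       + (15988808) * γ 8 + (3317445) * γ 9 + (679757) * γ 10 + (137258) * γ 11 + (27236) * γ 12
       + (5291) * γ 13 + (1001) * γ 14 := by
  have h : ((28 / 2 + 1 : ℕ)) = 15 := rfl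
  rw [h]
  simp only [sum_range_succ, sum_range_zero, show cfn 28 0 18 = 3440144547840 from by decide +kernel, show cfn 28 1 18 = 757650882560 from by decide +kernel, show cfn 28 2 18 = 166021627904 from by decide +kernel, show cfn 28 3 18 = 36178976768 from by decide +kernel, show cfn 28 4 18 = 7836176384 from by decide +kernel, show cfn 28 5 18 = 1685886464 from by decide +kernel, show cfn 28 6 18 = 359996416 from by decide +kernel, show cfn 28 7 18 = 76228880 from by decide +kernel, show cfn 28 8 18 = 15988808 from by decide +kernel, show cfn 28 9 18 = 3317445 from by decide +kernel, show cfn 28 10 18 = 679757 from by decide +kernel, show cfn 28 11 18 = 137258 from by decide +kernel, show cfn 28 12 18 = 27236 from by decide +kernel, show cfn 28 13 18 = 5291 from by decide +kernel, show cfn 28 14 18 = 1001 from by decide +kernel, Nat.cast_ofNat, Nat.cast_one, Nat.cast_zero]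
  ring

theorem c28_19 (γ : ℕ → ℝ) : ∑ i ∈ range (28 / 2 + 1), γ i * (cfn 28 i 19 : ℝ) =
    (3621204787200) * γ 0 + (819082035200) * γ 1 + (184608489472) * γ 2 + (41447194624) * γ 3
       + (9266348032) * γ 4 + (2062151680) * γ 5 + (456596480) * γ 6 + (100533888) * γ 7
       + (21998176) * γ 8 + (4780008) * γ 9 + (1030490) * γ 10 + (220165) * γ 11 + (46552) * γ 12
       + (9724) * γ 13 + (2002) * γ 14 := by
  have h : ((28 / 2 + 1 : ℕ)) = 15 := rfl
  rw [h]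
  simp only [sum_range_succ, sum_range_zero, show cfn 28 0 19 = 3621204787200 from by decide +kernel, show cfn 28 1 19 = 819082035200 from by decide +kernel, show cfn 28 2 19 = 184608489472 from by decide +kernel, show cfn 28 3 19 = 41447194624 from by decide +kernel, show cfn 28 4 19 = 9266348032 from by decide +kernel, show cfn 28 5 19 = 2062151680 from by decide +kernel, show cfn 28 6 19 = 456596480 from by decide +kernel, show cfn 28 7 19 = 100533888 from by decide +kernel, show cfn 28 8 19 = 21998176 from by decide +kernel, show cfn 28 9 19 = 4780008 from by decide +kernel, show cfn 28 10 19 = 1030490 from by decide +kernel, show cfn 28 11 19 = 220165 from by decide +kernel, show cfn 28 12 19 = 46552 from by decide +kernel, show cfn 28 13 19 = 9724 from by decide +kernel, show cfn 28 14 19 = 2002 from by decide +kernel, Nat.cast_ofNat, Nat.cast_one, Nat.cast_zero]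
  ring

theorem c28_20 (γ : ℕ → ℝ) : ∑ i ∈ range (28 / 2 + 1), γ i * (cfn 28 i 20 : ℝ) =
    (3259084308480) * γ 0 + (754417664000) * γ 1 + (174212448256) * γ 2 + (40125431808) * γ 3
       + (9216073728) * γ 4 + (2110371840) * γ 5 + (481666560) * γ 6 + (109541824) * γ 7
       + (24814832) * γ 8 + (5597172) * γ 9 + (1256465) * γ 10 + (280555) * γ 11 + (62271) * γ 12
       + (13728) * γ 13 + (3003) * γ 14 := by
  have h : ((28 / 2 + 1 : ℕ)) = 15 := rfl
  rw [h]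
  simp only [sum_range_succ, sum_range_zero, show cfn 28 0 20 = 3259084308480 from by decide +kernel, show cfn 28 1 20 = 754417664000 from by decide +kernel, show cfn 28 2 20 = 174212448256 from by decide +kernel, show cfn 28 3 20 = 40125431808 from by decide +kernel, show cfn 28 4 20 = 9216073728 from by decide +kernel, show cfn 28 5 20 = 2110371840 from by decide +kernel, show cfn 28 6 20 = 481666560 from by decide +kernel, show cfn 28 7 20 = 109541824 from by decide +kernel, show cfn 28 8 20 = 24814832 from by decide +kernel, show cfn 28 9 20 = 5597172 from by decide +kernel, show cfn 28 10 20 = 1256465 from by decide +kernel, show cfn 28 11 20 = 280555 from by decide +kernel, show cfn 28 12 20 = 62271 from by decide +kernel, show cfn 28 13 20 = 13728 from by decide +kernel, show cfn 28 14 20 = 3003 from by decide +kernel, Nat.cast_ofNat, Nat.cast_one, Nat.cast_zero]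
  ring

theorem c28_21 (γ : ℕ → ℝ) : ∑ i ∈ range (28 / 2 + 1), γ i * (cfn 28 i 21 : ℝ) =
    (2483111854080) * γ 0 + (586290298880) * γ 1 + (138215948288) * γ 2 + (32530432000) * γ 3
       + (7642939392) * γ 4 + (1792327680) * γ 5 + (419471360) * γ 6 + (97960192) * γ 7
       + (22823680) * γ 8 + (5304288) * γ 9 + (1229360) * γ 10 + (284075) * γ 11 + (65428) * γ 12
       + (15015) * γ 13 + (3432) * γ 14 := by
  have h : ((28 / 2 + 1 : ℕ)) = 15 := rfl
  rw [h]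
  simp only [sum_range_succ, sum_range_zero, show cfn 28 0 21 = 2483111854080 from by decide +kernel, show cfn 28 1 21 = 586290298880 from by decide +kernel, show cfn 28 2 21 = 138215948288 from by decide +kernel, show cfn 28 3 21 = 32530432000 from by decide +kernel, show cfn 28 4 21 = 7642939392 from by decide +kernel, show cfn 28 5 21 = 1792327680 from by decide +kernel, show cfn 28 6 21 = 419471360 from by decide +kernel, show cfn 28 7 21 = 97960192 from by decide +kernel, show cfn 28 8 21 = 22823680 from by decide +kernel, show cfn 28 9 21 = 5304288 from by decide +kernel, show cfn 28 10 21 = 1229360 from by decide +kernel, show cfn 28 11 21 = 284075 from by decide +kernel, show cfn 28 12 21 = 65428 from by decide +kernel, show cfn 28 13 21 = 15015 from by decide +kernel, show cfn 28 14 21 = 3432 from by decide +kernel, Nat.cast_ofNat, Nat.cast_one, Nat.cast_zero]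
  ring

theorem c28_22 (γ : ℕ → ℝ) : ∑ i ∈ range (28 / 2 + 1), γ i * (cfn 28 i 22 : ℝ) =
    (1580162088960) * γ 0 + (379364311040) * γ 1 + (90994376704) * γ 2 + (21804941312) * γ 3
       + (5219811328) * γ 4 + (1248215040) * γ 5 + (298147840) * γ 6 + (71129856) * γ 7
       + (16947968) * γ 8 + (4032672) * γ 9 + (958160) * γ 10 + (227305) * γ 11 + (53834) * γ 12
       + (12727) * γ 13 + (3003) * γ 14 := by
  have h : ((28 / 2 + 1 : ℕ)) = 15 := rfl
  rw [h]
  simp only [sum_range_succ, sum_range_zero, show cfn 28 0 22 = 1580162088960 from by decide +kernel, show cfn 28 1 22 = 379364311040 from by decide +kernel, show cfn 28 2 22 = 90994376704 from by decide +kernel, show cfn 28 3 22 = 21804941312 from by decide +kernel, show cfn 28 4 22 = 5219811328 from by decide +kernel, show cfn 28 5 22 = 1248215040 from by decide +kernel, show cfn 28 6 22 = 298147840 from by decide +kernel, show cfn 28 7 22 = 71129856 from by decide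 +kernel, show cfn 28 8 22 = 16947968 from by decide +kernel, show cfn 28 9 22 = 4032672 from by decide +kernel, show cfn 28 10 22 = 958160 from by decide +kernel, show cfn 28 11 22 = 227305 from by decide +kernel, show cfn 28 12 22 = 53834 from by decide +kernel, show cfn 28 13 22 = 12727 from by decide +kernel, show cfn 28 14 22 = 3003 from by decide +kernel, Nat.cast_ofNat, Nat.cast_one, Nat.cast_zero]
  ring

theorem c28_23 (γ : ℕ → ℝ) : ∑ i ∈ range (28 / 2 + 1), γ i * (cfn 28 i 23 : ℝ) =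
    (824432394240) * γ 0 + (200655503360) * γ 1 + (48813309952) * γ 2 + (11868831744) * γ 3
       + (2884370432) * γ 4 + (700579840) * γ 5 + (170065920) * γ 6 + (41259008) * γ 7
       + (10003456) * γ 8 + (2423808) * γ 9 + (586880) * γ 10 + (142000) * γ 11 + (34332) * γ 12
       + (8294) * γ 13 + (2002) * γ 14 := by
  have h : ((28 / 2 + 1 : ℕ)) = 15 := rfl
  rw [h]
  simp only [sum_range_succ, sum_range_zero, show cfn 28 0 23 = 824432394240 from by decide +kernel, show cfn 28 1 23 = 200655503360 from by decide +kernel, show cfn 28 2 23 = 48813309952 from by decide +kernel, show cfn 28 3 23 = 11868831744 from by decide +kernel, show cfn 28 4 23 = 2884370432 from by decide +kernel, show cfn 28 5 23 = 700579840 from by decide +kernel, show cfn 28 6 23 = 170065920 from by decide +kernel, show cfn 28 7 23 = 41259008 from by decide +kernel, show cfn 28 8 23 = 10003456 from by decide +kernel, show cfn 28 9 23 = 2423808 from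 by decide +kernel, show cfn 28 10 23 = 586880 from by decide +kernel, show cfn 28 11 23 = 142000 from by decide +kernel, show cfn 28 12 23 = 34332 from by decide +kernel, show cfn 28 13 23 = 8294 from by decide +kernel, show cfn 28 14 23 = 2002 from by decide +kernel, Nat.cast_ofNat, Nat.cast_one, Nat.cast_zero]
  ring

theorem c28_24 (γ : ℕ → ℝ) : ∑ i ∈ range (28 / 2 + 1), γ i * (cfn 28 i 24 : ℝ) =
    (343513497600) * γ 0 + (84515225600) * γ 1 + (20789067776) * γ 2 + (5112594432) * γ 3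
       + (1257046016) * γ 4 + (309002240) * γ 5 + (75939840) * γ 6 + (18658304) * γ 7
       + (4583168) * γ 8 + (1125504) * γ 9 + (276320) * γ 10 + (67820) * γ 11 + (16641) * γ 12
       + (4082) * γ 13 + (1001) * γ 14 := by
  have h : ((28 / 2 + 1 : ℕ)) = 15 := rfl
  rw [h]
  simp only [sum_range_succ, sum_range_zero, show cfn 28 0 24 = 343513497600 from by decide +kernel, show cfn 28 1 24 = 84515225600 from by decide +kernel, show cfn 28 2 24 = 20789067776 from by decide +kernel, show cfn 28 3 24 = 5112594432 from by decide +kernel, show cfn 28 4 24 = 1257046016 from by decide +kernel, show cfn 28 5 24 = 309002240 from by decide +kernel, show cfn 28 6 24 = 75939840 from by decide +kernel, show cfn 28 7 24 = 18658304 from by decide +kernel, show cfn 28 8 24 = 4583168 from by decide +kernel, show cfn 28 9 24 = 1125504 from by decide +kernel, show cfn 28 10 24 = 276320 from by decide +kernel, show cfn 28 11 24 = 67820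 from by decide +kernel, show cfn 28 12 24 = 16641 from by decide +kernel, show cfn 28 13 24 = 4082 from by decide +kernel, show cfn 28 14 24 = 1001 from by decide +kernel, Nat.cast_ofNat, Nat.cast_one, Nat.cast_zero]
  ring

theorem q28_0 (γ : ℕ → ℝ) (h0 : γ 0 = 1)
    (h : ∀ n < 28, 2 * (((28 : ℕ) : ℝ) - ((n : ℕ) : ℝ)) * ∑ i ∈ range (28 / 2 + 1), γ i * (cfn 28 i n : ℝ) ≤
      ((n : ℝ) + 1) * ∑ i ∈ range (28 / 2 + 1), γ i * (cfn 28 i (n + 1) : ℝ)) :
    0 ≤ (0) * γ 0 + (1) * γ 1 + (0) * γ 2 + (0) * γ 3 + (0) * γ 4 + (0) * γ 5 + (0) * γ 6 + (0) * γ 7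
       + (0) * γ 8 + (0) * γ 9 + (0) * γ 10 + (0) * γ 11 + (0) * γ 12 + (0) * γ 13 + (0) * γ 14 := by
  have h1 := h 0 (by norm_num)
  rw [show 0 + 1 = 1 from rfl, c28_0, c28_1] at h1
  norm_num [h0] at h1 ⊢
  linarith

theorem q28_1 (γ : ℕ → ℝ) (h0 : γ 0 = 1)
    (h : ∀ n < 28, 2 * (((28 : ℕ) : ℝ) - ((n : ℕ) : ℝ)) * ∑ i ∈ range (28 / 2 + 1), γ i * (cfn 28 i n : ℝ) ≤
      ((n : ℝ) + 1) * ∑ i ∈ range (28 / 2 + 1), γ i * (cfn 28 i (n + 1) : ℝ)) :
    0 ≤ (0) * γ 0 + (52) * γ 1 + (2) * γ 2 + (0) * γ 3 + (0) * γ 4 + (0) * γ 5 + (0) * γ 6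
       + (0) * γ 7 + (0) * γ 8 + (0) * γ 9 + (0) * γ 10 + (0) * γ 11 + (0) * γ 12 + (0) * γ 13
       + (0) * γ 14 := by
  have h1 := h 1 (by norm_num)
  rw [show 1 + 1 = 2 from rfl, c28_1, c28_2] at h1
  norm_num [h0] at h1 ⊢
  linarith

theorem q28_2 (γ : ℕ → ℝ) (h0 : γ 0 = 1)
    (h : ∀ n < 28, 2 * (((28 : ℕ) : ℝ) - ((n : ℕ) : ℝ)) * ∑ i ∈ range (28 / 2 + 1), γ i * (cfn 28 i n : ℝ) ≤
      ((n : ℝ) + 1) * ∑ i ∈ range (28 / 2 + 1), γ i * (cfn 28 i (n + 1) : ℝ)) :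
    0 ≤ (0) * γ 0 + (1300) * γ 1 + (98) * γ 2 + (3) * γ 3 + (0) * γ 4 + (0) * γ 5 + (0) * γ 6
       + (0) * γ 7 + (0) * γ 8 + (0) * γ 9 + (0) * γ 10 + (0) * γ 11 + (0) * γ 12 + (0) * γ 13
       + (0) * γ 14 := by
  have h1 := h 2 (by norm_num)
  rw [show 2 + 1 = 3 from rfl, c28_2, c28_3] at h1
  norm_num [h0] at h1 ⊢
  linarith

theorem q28_3 (γ : ℕ → ℝ) (h0 : γ 0 = 1)
    (h : ∀ n < 28, 2 * (((28 : ℕ) : ℝ) - ((n : ℕ) : ℝ)) * ∑ i ∈ range (28 / 2 + 1), γ i * (cfn 28 i n : ℝ) ≤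
      ((n : ℝ) + 1) * ∑ i ∈ range (28 / 2 + 1), γ i * (cfn 28 i (n + 1) : ℝ)) :
    0 ≤ (0) * γ 0 + (20800) * γ 1 + (2304) * γ 2 + (138) * γ 3 + (4) * γ 4 + (0) * γ 5 + (0) * γ 6
       + (0) * γ 7 + (0) * γ 8 + (0) * γ 9 + (0) * γ 10 + (0) * γ 11 + (0) * γ 12 + (0) * γ 13
       + (0) * γ 14 := by
  have h1 := h 3 (by norm_num)
  rw [show 3 + 1 = 4 from rfl, c28_3, c28_4] at h1
  norm_num [h0] at h1 ⊢
  linarith

theorem q28_4 (γ : ℕ → ℝ) (h0 : γ 0 = 1)
    (h : ∀ n < 28, 2 * (((28 : ℕ) : ℝ) - ((n : ℕ) : ℝ)) * ∑ i ∈ range (28 / 2 + 1), γ i * (cfn 28 i n : ℝ) ≤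
      ((n : ℝ) + 1) * ∑ i ∈ range (28 / 2 + 1), γ i * (cfn 28 i (n + 1) : ℝ)) :
    0 ≤ (0) * γ 0 + (239200) * γ 1 + (34592) * γ 2 + (3039) * γ 3 + (172) * γ 4 + (5) * γ 5
       + (0) * γ 6 + (0) * γ 7 + (0) * γ 8 + (0) * γ 9 + (0) * γ 10 + (0) * γ 11 + (0) * γ 12
       + (0) * γ 13 + (0) * γ 14 := by
  have h1 := h 4 (by norm_num)
  rw [show 4 + 1 = 5 from rfl, c28_4, c28_5] at h1
  norm_num [h0] at h1 ⊢
  linarith

theorem q28_5 (γ : ℕ → ℝ) (h0 : γ 0 = 1)
    (h : ∀ n < 28, 2 * (((28 : ℕ) : ℝ) - ((n : ℕ) : ℝ)) * ∑ i ∈ range (28 / 2 + 1), γ i * (cfn 28 i n : ℝ) ≤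
      ((n : ℝ) + 1) * ∑ i ∈ range (28 / 2 + 1), γ i * (cfn 28 i (n + 1) : ℝ)) :
    0 ≤ (0) * γ 0 + (2104960) * γ 1 + (372416) * γ 2 + (42636) * γ 3 + (3532) * γ 4 + (200) * γ 5
       + (6) * γ 6 + (0) * γ 7 + (0) * γ 8 + (0) * γ 9 + (0) * γ 10 + (0) * γ 11 + (0) * γ 12
       + (0) * γ 13 + (0) * γ 14 := by
  have h1 := h 5 (by norm_num)
  rw [show 5 + 1 = 6 from rfl, c28_5, c28_6] at h1
  norm_num [h0] at h1 ⊢
  linarith

theorem q28_6 (γ : ℕ → ℝ) (h0 : γ 0 = 1)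
    (h : ∀ n < 28, 2 * (((28 : ℕ) : ℝ) - ((n : ℕ) : ℝ)) * ∑ i ∈ range (28 / 2 + 1), γ i * (cfn 28 i n : ℝ) ≤
      ((n : ℝ) + 1) * ∑ i ∈ range (28 / 2 + 1), γ i * (cfn 28 i (n + 1) : ℝ)) :
    0 ≤ (0) * γ 0 + (14734720) * γ 1 + (3060288) * γ 2 + (427812) * γ 3 + (46084) * γ 4
       + (3810) * γ 5 + (222) * γ 6 + (7) * γ 7 + (0) * γ 8 + (0) * γ 9 + (0) * γ 10 + (0) * γ 11
       + (0) * γ 12 + (0) * γ 13 + (0) * γ 14 := by
  have h1 := h 6 (by norm_num)
  rw [show 6 + 1 = 7 from rfl, c28_6, c28_7] at h1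
  norm_num [h0] at h1 ⊢
  linarith

theorem q28_7 (γ : ℕ → ℝ) (h0 : γ 0 = 1)
    (h : ∀ n < 28, 2 * (((28 : ℕ) : ℝ) - ((n : ℕ) : ℝ)) * ∑ i ∈ range (28 / 2 + 1), γ i * (cfn 28 i n : ℝ) ≤
      ((n : ℝ) + 1) * ∑ i ∈ range (28 / 2 + 1), γ i * (cfn 28 i (n + 1) : ℝ)) :
    0 ≤ (0) * γ 0 + (84198400) * γ 1 + (19948544) * γ 2 + (3267264) * γ 3 + (428800) * γ 4
       + (45980) * γ 5 + (3900) * γ 6 + (238) * γ 7 + (8) * γ 8 + (0) * γ 9 + (0) * γ 10
       + (0) * γ 11 + (0) * γ 12 + (0) * γ 13 + (0) * γ 14 := by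
  have h1 := h 7 (by norm_num)
  rw [show 7 + 1 = 8 from rfl, c28_7, c28_8] at h1
  norm_num [h0] at h1 ⊢
  linarith

theorem q28_8 (γ : ℕ → ℝ) (h0 : γ 0 = 1)
    (h : ∀ n < 28, 2 * (((28 : ℕ) : ℝ) - ((n : ℕ) : ℝ)) * ∑ i ∈ range (28 / 2 + 1), γ i * (cfn 28 i n : ℝ) ≤
      ((n : ℝ) + 1) * ∑ i ∈ range (28 / 2 + 1), γ i * (cfn 28 i (n + 1) : ℝ)) :
    0 ≤ (0) * γ 0 + (399942400) * γ 1 + (105830912) * γ 2 + (19732944) * γ 3 + (3027232) * γ 4
       + (394445) * γ 5 + (43260) * γ 6 + (3829) * γ 7 + (248) * γ 8 + (9) * γ 9 + (0) * γ 10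
       + (0) * γ 11 + (0) * γ 12 + (0) * γ 13 + (0) * γ 14 := by
  have h1 := h 8 (by norm_num)
  rw [show 8 + 1 = 9 from rfl, c28_8, c28_9] at h1
  norm_num [h0] at h1 ⊢
  linarith

theorem q28_9 (γ : ℕ → ℝ) (h0 : γ 0 = 1)
    (h : ∀ n < 28, 2 * (((28 : ℕ) : ℝ) - ((n : ℕ) : ℝ)) * ∑ i ∈ range (28 / 2 + 1), γ i * (cfn 28 i n : ℝ) ≤
      ((n : ℝ) + 1) * ∑ i ∈ range (28 / 2 + 1), γ i * (cfn 28 i (n + 1) : ℝ)) :
    0 ≤ (0) * γ 0 + (1599769600) * γ 1 + (465163776) * γ 2 + (96668352) * γ 3 + (16842816) * γ 4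
       + (2558340) * γ 5 + (339870) * γ 6 + (38752) * γ 7 + (3624) * γ 8 + (252) * γ 9
       + (10) * γ 10 + (0) * γ 11 + (0) * γ 12 + (0) * γ 13 + (0) * γ 14 := by
  have h1 := h 9 (by norm_num)
  rw [show 9 + 1 = 10 from rfl, c28_9, c28_10] at h1
  norm_num [h0] at h1 ⊢
  linarith

theorem q28_10 (γ : ℕ → ℝ) (h0 : γ 0 = 1)
    (h : ∀ n < 28, 2 * (((28 : ℕ) : ℝ) - ((n : ℕ) : ℝ)) * ∑ i ∈ range (28 / 2 + 1), γ i * (cfn 28 i n : ℝ) ≤
      ((n : ℝ) + 1) * ∑ i ∈ range (28 / 2 + 1), γ i * (cfn 28 i (n + 1) : ℝ)) :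
    0 ≤ (0) * γ 0 + (5439216640) * γ 1 + (1715445248) * γ 2 + (390886848) * γ 3 + (75721536) * γ 4
       + (13026420) * γ 5 + (2010822) * γ 6 + (276661) * γ 7 + (33176) * γ 8 + (3312) * γ 9
       + (250) * γ 10 + (11) * γ 11 + (0) * γ 12 + (0) * γ 13 + (0) * γ 14 := by
  have h1 := h 10 (by norm_num)
  rw [show 10 + 1 = 11 from rfl, c28_10, c28_11] at h1
  norm_num [h0] at h1 ⊢
  linarith

theorem q28_11 (γ : ℕ → ℝ) (h0 : γ 0 = 1)
    (h : ∀ n < 28, 2 * (((28 : ℕ) : ℝ) - ((n : ℕ) : ℝ)) * ∑ i ∈ range (28 / 2 + 1), γ i * (cfn 28 i n : ℝ) ≤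
      ((n : ℝ) + 1) * ∑ i ∈ range (28 / 2 + 1), γ i * (cfn 28 i (n + 1) : ℝ)) :
    0 ≤ (0) * γ 0 + (15823175680) * γ 1 + (5355536384) * γ 2 + (1320692736) * γ 3 + (279816192) * γ 4
       + (53366400) * γ 5 + (9298944) * γ 6 + (1480822) * γ 7 + (213272) * γ 8 + (27144) * γ 9
       + (2920) * γ 10 + (242) * γ 11 + (12) * γ 12 + (0) * γ 13 + (0) * γ 14 := by
  have h1 := h 11 (by norm_num)
  rw [show 11 + 1 = 12 from rfl, c28_11, c28_12] at h1
  norm_num [h0] at h1 ⊢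
  linarith

theorem q28_12 (γ : ℕ → ℝ) (h0 : γ 0 = 1)
    (h : ∀ n < 28, 2 * (((28 : ℕ) : ℝ) - ((n : ℕ) : ℝ)) * ∑ i ∈ range (28 / 2 + 1), γ i * (cfn 28 i n : ℝ) ≤
      ((n : ℝ) + 1) * ∑ i ∈ range (28 / 2 + 1), γ i * (cfn 28 i (n + 1) : ℝ)) :
    0 ≤ (0) * γ 0 + (39557939200) * γ 1 + (14240858112) * γ 2 + (3760154112) * γ 3
       + (859955200) * γ 4 + (178850880) * γ 5 + (34432320) * γ 6 + (6164795) * γ 7
       + (1022760) * γ 8 + (155430) * γ 9 + (21160) * γ 10 + (2475) * γ 11 + (228) * γ 12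
       + (13) * γ 13 + (0) * γ 14 := by
  have h1 := h 12 (by norm_num)
  rw [show 12 + 1 = 13 from rfl, c28_12, c28_13] at h1
  norm_num [h0] at h1 ⊢
  linarith

theorem q28_13 (γ : ℕ → ℝ) (h0 : γ 0 = 1)
    (h : ∀ n < 28, 2 * (((28 : ℕ) : ℝ) - ((n : ℕ) : ℝ)) * ∑ i ∈ range (28 / 2 + 1), γ i * (cfn 28 i n : ℝ) ≤
      ((n : ℝ) + 1) * ∑ i ∈ range (28 / 2 + 1), γ i * (cfn 28 i (n + 1) : ℝ)) :
    0 ≤ (0) * γ 0 + (85201715200) * γ 1 + (32376651776) * γ 2 + (9071204352) * γ 3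
       + (2215376896) * γ 4 + (495845120) * γ 5 + (103735680) * γ 6 + (20437340) * γ 7
       + (3793720) * γ 8 + (660240) * γ 9 + (106540) * γ 10 + (15620) * γ 11 + (2004) * γ 12
       + (208) * γ 13 + (14) * γ 14 := by
  have h1 := h 13 (by norm_num)
  rw [show 13 + 1 = 14 from rfl, c28_13, c28_14] at h1
  norm_num [h0] at h1 ⊢
  linarith

theorem q28_14 (γ : ℕ → ℝ) (h0 : γ 0 = 1)
    (h : ∀ n < 28, 2 * (((28 : ℕ) : ℝ) - ((n : ℕ) : ℝ)) * ∑ i ∈ range (28 / 2 + 1), γ i * (cfn 28 i n : ℝ) ≤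
      ((n : ℝ) + 1) * ∑ i ∈ range (28 / 2 + 1), γ i * (cfn 28 i (n + 1) : ℝ)) :
    0 ≤ (0) * γ 0 + (158231756800) * γ 1 + (63049269248) * γ 2 + (18600830976) * γ 3
       + (4807149568) * γ 4 + (1145381120) * γ 5 + (256963200) * γ 6 + (54787460) * γ 7
       + (11136520) * γ 8 + (2155860) * γ 9 + (395500) * γ 10 + (68090) * γ 11 + (10812) * γ 12
       + (1534) * γ 13 + (182) * γ 14 := by
  have h1 := h 14 (by norm_num)
  rw [show 14 + 1 = 15 from rfl, c28_14, c28_15] at h1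
  norm_num [h0] at h1 ⊢
  linarith

theorem q28_15 (γ : ℕ → ℝ) (h0 : γ 0 = 1)
    (h : ∀ n < 28, 2 * (((28 : ℕ) : ℝ) - ((n : ℕ) : ℝ)) * ∑ i ∈ range (28 / 2 + 1), γ i * (cfn 28 i n : ℝ) ≤
      ((n : ℝ) + 1) * ∑ i ∈ range (28 / 2 + 1), γ i * (cfn 28 i (n + 1) : ℝ)) :
    0 ≤ (0) * γ 0 + (253170810880) * γ 1 + (105163259904) * γ 2 + (32450740224) * γ 3
       + (8805941248) * γ 4 + (2213253120) * γ 5 + (526675968) * γ 6 + (119916160) * γ 7
       + (26250240) * γ 8 + (5532120) * γ 9 + (1120840) * γ 10 + (217404) * γ 11 + (40056) * γ 12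
       + (6916) * γ 13 + (1092) * γ 14 := by
  have h1 := h 15 (by norm_num)
  rw [show 15 + 1 = 16 from rfl, c28_15, c28_16] at h1
  norm_num [h0] at h1 ⊢
  linarith

theorem q28_16 (γ : ℕ → ℝ) (h0 : γ 0 = 1)
    (h : ∀ n < 28, 2 * (((28 : ℕ) : ℝ) - ((n : ℕ) : ℝ)) * ∑ i ∈ range (28 / 2 + 1), γ i * (cfn 28 i n : ℝ) ≤
      ((n : ℝ) + 1) * ∑ i ∈ range (28 / 2 + 1), γ i * (cfn 28 i (n + 1) : ℝ)) :
    0 ≤ (0) * γ 0 + (348109864960) * γ 1 + (149955018752) * γ 2 + (48112508928) * γ 3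
       + (13616398336) * γ 4 + (3581826560) * γ 5 + (895804416) * γ 6 + (215431216) * γ 7
       + (50114240) * γ 8 + (11308185) * γ 9 + (2476840) * γ 10 + (525998) * γ 11 + (107976) * γ 12
       + (21307) * γ 13 + (4004) * γ 14 := by
  have h1 := h 16 (by norm_num)
  rw [show 16 + 1 = 17 from rfl, c28_16, c28_17] at h1
  norm_num [h0] at h1 ⊢
  linarith

theorem q28_17 (γ : ℕ → ℝ) (h0 : γ 0 = 1)
    (h : ∀ n < 28, 2 * (((28 : ℕ) : ℝ) - ((n : ℕ) : ℝ)) * ∑ i ∈ range (28 / 2 + 1), γ i * (cfn 28 i n : ℝ) ≤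
      ((n : ℝ) + 1) * ∑ i ∈ range (28 / 2 + 1), γ i * (cfn 28 i (n + 1) : ℝ)) :
    0 ≤ (0) * γ 0 + (409541017600) * γ 1 + (182088237056) * γ 2 + (60424421376) * γ 3
       + (17728307200) * γ 4 + (4847605760) * γ 5 + (1264174080) * γ 6 + (318170944) * γ 7
       + (77796224) * γ 8 + (18548820) * γ 9 + (4320730) * γ 10 + (983840) * γ 11 + (218856) * γ 12
       + (47476) * γ 13 + (10010) * γ 14 := by
  have h1 := h 17 (by norm_num)
  rw [show 17 + 1 = 18 from rfl, c28_17, c28_18] at h1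
  norm_num [h0] at h1 ⊢
  linarith

theorem q28_18 (γ : ℕ → ℝ) (h0 : γ 0 = 1)
    (h : ∀ n < 28, 2 * (((28 : ℕ) : ℝ) - ((n : ℕ) : ℝ)) * ∑ i ∈ range (28 / 2 + 1), γ i * (cfn 28 i n : ℝ) ≤
      ((n : ℝ) + 1) * ∑ i ∈ range (28 / 2 + 1), γ i * (cfn 28 i (n + 1) : ℝ)) :
    0 ≤ (0) * γ 0 + (409541017600) * γ 1 + (187128741888) * γ 2 + (63917162496) * γ 3
       + (19337084928) * γ 4 + (5463152640) * γ 5 + (1475404800) * γ 6 + (385566272) * γ 7
       + (98189184) * γ 8 + (24471252) * γ 9 + (5984170) * γ 10 + (1437975) * γ 11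
       + (339768) * γ 12 + (78936) * γ 13 + (18018) * γ 14 := by
  have h1 := h 18 (by norm_num)
  rw [show 18 + 1 = 19 from rfl, c28_18, c28_19] at h1
  norm_num [h0] at h1 ⊢
  linarith

theorem q28_19 (γ : ℕ → ℝ) (h0 : γ 0 = 1)
    (h : ∀ n < 28, 2 * (((28 : ℕ) : ℝ) - ((n : ℕ) : ℝ)) * ∑ i ∈ range (28 / 2 + 1), γ i * (cfn 28 i n : ℝ) ≤
      ((n : ℝ) + 1) * ∑ i ∈ range (28 / 2 + 1), γ i * (cfn 28 i (n + 1) : ℝ)) :
    0 ≤ (0) * γ 0 + (344876646400) * γ 1 + (161296154624) * γ 2 + (56459132928) * γ 3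
       + (17527209984) * γ 4 + (5088706560) * γ 5 + (1414594560) * γ 6 + (381226496) * γ 7
       + (100329472) * γ 8 + (25903296) * γ 9 + (6580480) * γ 10 + (1648130) * γ 11
       + (407484) * γ 12 + (99528) * γ 13 + (24024) * γ 14 := by
  have h1 := h 19 (by norm_num)
  rw [show 19 + 1 = 20 from rfl, c28_19, c28_20] at h1
  norm_num [h0] at h1 ⊢
  linarith

theorem q28_20 (γ : ℕ → ℝ) (h0 : γ 0 = 1)
    (h : ∀ n < 28, 2 * (((28 : ℕ) : ℝ) - ((n : ℕ) : ℝ)) * ∑ i ∈ range (28 / 2 + 1), γ i * (cfn 28 i n : ℝ) ≤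
      ((n : ℝ) + 1) * ∑ i ∈ range (28 / 2 + 1), γ i * (cfn 28 i (n + 1) : ℝ)) :
    0 ≤ (0) * γ 0 + (241413652480) * γ 1 + (115135741952) * γ 2 + (41132163072) * γ 3
       + (13044547584) * γ 4 + (3872931840) * γ 5 + (1102233600) * γ 6 + (304494848) * γ 7
       + (82259968) * γ 8 + (21835296) * γ 9 + (5713120) * γ 10 + (1476695) * γ 11
       + (377652) * γ 12 + (95667) * γ 13 + (24024) * γ 14 := by
  have h1 := h 20 (by norm_num)
  rw [show 20 + 1 = 21 from rfl, c28_20, c28_21] at h1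
  norm_num [h0] at h1 ⊢
  linarith

theorem q28_21 (γ : ℕ → ℝ) (h0 : γ 0 = 1)
    (h : ∀ n < 28, 2 * (((28 : ℕ) : ℝ) - ((n : ℕ) : ℝ)) * ∑ i ∈ range (28 / 2 + 1), γ i * (cfn 28 i n : ℝ) ≤
      ((n : ℝ) + 1) * ∑ i ∈ range (28 / 2 + 1), γ i * (cfn 28 i (n + 1) : ℝ)) :
    0 ≤ (0) * γ 0 + (137950658560) * γ 1 + (66853011456) * γ 2 + (24282660864) * γ 3
       + (7834697728) * γ 4 + (2368143360) * γ 5 + (686653440) * γ 6 + (193414144) * γ 7
       + (53323776) * γ 8 + (14458752) * γ 9 + (3868480) * γ 10 + (1023660) * γ 11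
       + (268356) * γ 12 + (69784) * γ 13 + (18018) * γ 14 := by
  have h1 := h 21 (by norm_num)
  rw [show 21 + 1 = 22 from rfl, c28_21, c28_22] at h1
  norm_num [h0] at h1 ⊢
  linarith

theorem q28_22 (γ : ℕ → ℝ) (h0 : γ 0 = 1)
    (h : ∀ n < 28, 2 * (((28 : ℕ) : ℝ) - ((n : ℕ) : ℝ)) * ∑ i ∈ range (28 / 2 + 1), γ i * (cfn 28 i n : ℝ) ≤
      ((n : ℝ) + 1) * ∑ i ∈ range (28 / 2 + 1), γ i * (cfn 28 i (n + 1) : ℝ)) :
    0 ≤ (0) * γ 0 + (62704844800) * γ 1 + (30773608448) * γ 2 + (11323834368) * γ 3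
       + (3702784000) * γ 4 + (1134755840) * γ 5 + (333742080) * γ 6 + (95398912) * γ 7
       + (26703872) * γ 8 + (7355520) * γ 9 + (2000320) * γ 10 + (538340) * γ 11 + (143628) * γ 12
       + (38038) * γ 13 + (10010) * γ 14 := by
  have h1 := h 22 (by norm_num)
  rw [show 22 + 1 = 23 from rfl, c28_22, c28_23] at h1
  norm_num [h0] at h1 ⊢
  linarith

theorem q28_23 (γ : ℕ → ℝ) (h0 : γ 0 = 1)
    (h : ∀ n < 28, 2 * (((28 : ℕ) : ℝ) - ((n : ℕ) : ℝ)) * ∑ i ∈ range (28 / 2 + 1), γ i * (cfn 28 i n : ℝ) ≤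
      ((n : ℝ) + 1) * ∑ i ∈ range (28 / 2 + 1), γ i * (cfn 28 i (n + 1) : ℝ)) :
    0 ≤ (0) * γ 0 + (21810380800) * γ 1 + (10804527104) * γ 2 + (4013948928) * γ 3
       + (1325400064) * γ 4 + (410255360) * γ 5 + (121896960) * γ 6 + (35209216) * γ 7
       + (9961472) * γ 8 + (2774016) * γ 9 + (762880) * γ 10 + (207680) * γ 11 + (56064) * γ 12
       + (15028) * γ 13 + (4004) * γ 14 := by
  have h1 := h 23 (by norm_num)
  rw [show 23 + 1 = 24 from rfl, c28_23, c28_24] at h1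
  norm_num [h0] at h1 ⊢
  linarith

theorem m28_0 (γ : ℕ → ℝ) : Mat 28 γ 0 = (1) * γ 0 + (0) * γ 1 + (0) * γ 2 + (0) * γ 3 + (0) * γ 4 + (0) * γ 5 + (0) * γ 6 + (0) * γ 7
       + (0) * γ 8 + (0) * γ 9 + (0) * γ 10 + (0) * γ 11 + (0) * γ 12 + (0) * γ 13 + (0) * γ 14 := by
  unfold Mat
  rw [show (28 / 2 + 1 : ℕ) = 15 from rfl]
  simp [sum_range_succ, Nat.choose]
  try ring

theorem m28_1 (γ : ℕ → ℝ) : Mat 28 γ 1 = (1512) * γ 0 + (54) * γ 1 + (1) * γ 2 + (0) * γ 3 + (0) * γ 4 + (0) * γ 5 + (0) * γ 6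
       + (0) * γ 7 + (0) * γ 8 + (0) * γ 9 + (0) * γ 10 + (0) * γ 11 + (0) * γ 12 + (0) * γ 13
       + (0) * γ 14 := by
  unfold Mat
  rw [show (28 / 2 + 1 : ℕ) = 15 from rfl]
  simp [sum_range_succ, Nat.choose]
  try ring

theorem m28_2 (γ : ℕ → ℝ) : Mat 28 γ 2 = (327600) * γ 0 + (23400) * γ 1 + (1300) * γ 2 + (50) * γ 3 + (1) * γ 4 + (0) * γ 5
       + (0) * γ 6 + (0) * γ 7 + (0) * γ 8 + (0) * γ 9 + (0) * γ 10 + (0) * γ 11 + (0) * γ 12
       + (0) * γ 13 + (0) * γ 14 := by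
  unfold Mat
  rw [show (28 / 2 + 1 : ℕ) = 15 from rfl]
  simp [sum_range_succ, Nat.choose]
  try ring

theorem m28_3 (γ : ℕ → ℝ) : Mat 28 γ 3 = (24111360) * γ 0 + (2583360) * γ 1 + (239200) * γ 2 + (18400) * γ 3 + (1104) * γ 4
       + (46) * γ 5 + (1) * γ 6 + (0) * γ 7 + (0) * γ 8 + (0) * γ 9 + (0) * γ 10 + (0) * γ 11
       + (0) * γ 12 + (0) * γ 13 + (0) * γ 14 := by
  unfold Mat
  rw [show (28 / 2 + 1 : ℕ) = 15 from rfl]
  simp [sum_range_succ, Nat.choose]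
  try ring

theorem m28_4 (γ : ℕ → ℝ) : Mat 28 γ 4 = (795674880) * γ 0 + (113667840) * γ 1 + (14734720) * γ 2 + (1700160) * γ 3 + (170016) * γ 4
       + (14168) * γ 5 + (924) * γ 6 + (42) * γ 7 + (1) * γ 8 + (0) * γ 9 + (0) * γ 10 + (0) * γ 11
       + (0) * γ 12 + (0) * γ 13 + (0) * γ 14 := by
  unfold Mat
  rw [show (28 / 2 + 1 : ℕ) = 15 from rfl]
  simp [sum_range_succ, Nat.choose]
  try ring

theorem m28_5 (γ : ℕ → ℝ) : Mat 28 γ 5 = (13438064640) * γ 0 + (2399654400) * γ 1 + (399942400) * γ 2 + (61529600) * γ 3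
       + (8614144) * γ 4 + (1076768) * γ 5 + (117040) * γ 6 + (10640) * γ 7 + (760) * γ 8
       + (38) * γ 9 + (1) * γ 10 + (0) * γ 11 + (0) * γ 12 + (0) * γ 13 + (0) * γ 14 := by
  unfold Mat
  rw [show (28 / 2 + 1 : ℕ) = 15 from rfl]
  simp [sum_range_succ, Nat.choose]
  try ring

theorem m28_6 (γ : ℕ → ℝ) : Mat 28 γ 6 = (124607508480) * γ 0 + (26701608960) * γ 1 + (5439216640) * γ 2 + (1046003200) * γ 3
       + (188280576) * γ 4 + (31380096) * γ 5 + (4775232) * γ 6 + (651168) * γ 7 + (77520) * γ 8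
       + (7752) * γ 9 + (612) * γ 10 + (34) * γ 11 + (1) * γ 12 + (0) * γ 13 + (0) * γ 14 := by
  unfold Mat
  rw [show (28 / 2 + 1 : ℕ) = 15 from rfl]
  simp [sum_range_succ, Nat.choose]
  try ring

theorem m28_7 (γ : ℕ → ℝ) : Mat 28 γ 7 = (657270374400) * γ 0 + (164317593600) * γ 1 + (39557939200) * γ 2 + (9128755200) * γ 3
       + (2008326144) * γ 4 + (418401280) * γ 5 + (81861120) * γ 6 + (14883840) * γ 7
       + (2480640) * γ 8 + (372096) * γ 9 + (48960) * γ 10 + (5440) * γ 11 + (480) * γ 12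
       + (30) * γ 13 + (1) * γ 14 := by
  unfold Mat
  rw [show (28 / 2 + 1 : ℕ) = 15 from rfl]
  simp [sum_range_succ, Nat.choose]
  try ring

theorem m28_8 (γ : ℕ → ℝ) : Mat 28 γ 8 = (1993720135680) * γ 0 + (569634324480) * γ 1 + (158231756800) * γ 2 + (42600857600) * γ 3
       + (11076222976) * γ 4 + (2769055744) * γ 5 + (662165504) * γ 6 + (150492160) * γ 7
       + (32248320) * γ 8 + (6449664) * γ 9 + (1188096) * γ 10 + (198016) * γ 11 + (29120) * γ 12
       + (3640) * γ 13 + (364) * γ 14 := by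
  unfold Mat
  rw [show (28 / 2 + 1 : ℕ) = 15 from rfl]
  simp [sum_range_succ, Nat.choose]
  try ring

theorem m28_9 (γ : ℕ → ℝ) : Mat 28 γ 9 = (3440144547840) * γ 0 + (1105760747520) * γ 1 + (348109864960) * γ 2 + (107110727680) * γ 3
       + (32133218304) * γ 4 + (9372188672) * γ 5 + (2648662016) * γ 6 + (722362368) * γ 7
       + (189190144) * γ 8 + (47297536) * γ 9 + (11202048) * γ 10 + (2489344) * γ 11
       + (512512) * γ 12 + (96096) * γ 13 + (16016) * γ 14 := by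
  unfold Mat
  rw [show (28 / 2 + 1 : ℕ) = 15 from rfl]
  simp [sum_range_succ, Nat.choose]
  try ring

theorem m28_10 (γ : ℕ → ℝ) : Mat 28 γ 10 = (3259084308480) * γ 0 + (1163958681600) * γ 1 + (409541017600) * γ 2 + (141764198400) * γ 3
       + (48199827456) * γ 4 + (16066609152) * γ 5 + (5239111680) * γ 6 + (1666990080) * γ 7
       + (515973120) * γ 8 + (154791936) * γ 9 + (44808192) * γ 10 + (12446720) * γ 11
       + (3294720) * γ 12 + (823680) * γ 13 + (192192) * γ 14 := by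
  unfold Mat
  rw [show (28 / 2 + 1 : ℕ) = 15 from rfl]
  simp [sum_range_succ, Nat.choose]
  try ring

theorem m28_11 (γ : ℕ → ℝ) : Mat 28 γ 11 = (1580162088960) * γ 0 + (620777963520) * γ 1 + (241413652480) * γ 2 + (92851404800) * γ 3
       + (35283533824) * γ 4 + (13231325184) * γ 5 + (4889837568) * γ 6 + (1778122752) * γ 7
       + (635043840) * γ 8 + (222265344) * γ 9 + (76038144) * γ 10 + (25346048) * γ 11
       + (8200192) * γ 12 + (2562560) * γ 13 + (768768) * γ 14 := by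
  unfold Mat
  rw [show (28 / 2 + 1 : ℕ) = 15 from rfl]
  simp [sum_range_succ, Nat.choose]
  try ring

theorem m28_12 (γ : ℕ → ℝ) : Mat 28 γ 12 = (343513497600) * γ 0 + (147220070400) * γ 1 + (62704844800) * γ 2 + (26528972800) * γ 3
       + (11142168576) * γ 4 + (4642570240) * γ 5 + (1917583360) * γ 6 + (784465920) * γ 7
       + (317521920) * γ 8 + (127008768) * γ 9 + (50135040) * γ 10 + (19496960) * γ 11
       + (7454720) * γ 12 + (2795520) * γ 13 + (1025024) * γ 14 := by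
  unfold Mat
  rw [show (28 / 2 + 1 : ℕ) = 15 from rfl]
  simp [sum_range_succ, Nat.choose]
  try ring

theorem m28_13 (γ : ℕ → ℝ) : Mat 28 γ 13 = (25367150592) * γ 0 + (11777605632) * γ 1 + (5452595200) * γ 2 + (2516582400) * γ 3
       + (1157627904) * γ 4 + (530579456) * γ 5 + (242221056) * γ 6 + (110100480) * γ 7
       + (49807360) * γ 8 + (22413312) * γ 9 + (10027008) * γ 10 + (4456448) * γ 11
       + (1966080) * γ 12 + (860160) * γ 13 + (372736) * γ 14 := by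
  unfold Mat
  rw [show (28 / 2 + 1 : ℕ) = 15 from rfl]
  simp [sum_range_succ, Nat.choose]
  try ring

theorem m28_14 (γ : ℕ → ℝ) : Mat 28 γ 14 = (268435456) * γ 0 + (134217728) * γ 1 + (67108864) * γ 2 + (33554432) * γ 3
       + (16777216) * γ 4 + (8388608) * γ 5 + (4194304) * γ 6 + (2097152) * γ 7 + (1048576) * γ 8
       + (524288) * γ 9 + (262144) * γ 10 + (131072) * γ 11 + (65536) * γ 12 + (32768) * γ 13
       + (16384) * γ 14 := by
  unfold Mat
  rw [show (28 / 2 + 1 : ℕ) = 15 from rfl]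
  simp [sum_range_succ, Nat.choose]
  try ring

theorem mm28_0 (γ : ℕ → ℝ) : Mat 28 (Mat 28 γ) 0 =
      (1) * γ 0 + (0) * γ 1 + (0) * γ 2 + (0) * γ 3 + (0) * γ 4 + (0) * γ 5 + (0) * γ 6 + (0) * γ 7
       + (0) * γ 8 + (0) * γ 9 + (0) * γ 10 + (0) * γ 11 + (0) * γ 12 + (0) * γ 13 + (0) * γ 14 := by
  rw [m28_0]
  simp only [m28_0, m28_1, m28_2, m28_3, m28_4, m28_5, m28_6, m28_7, m28_8, m28_9, m28_10, m28_11, m28_12, m28_13, m28_14]
  ring

theorem mm28_1 (γ : ℕ → ℝ) : Mat 28 (Mat 28 γ) 1 =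
      (410760) * γ 0 + (26316) * γ 1 + (1354) * γ 2 + (50) * γ 3 + (1) * γ 4 + (0) * γ 5
       + (0) * γ 6 + (0) * γ 7 + (0) * γ 8 + (0) * γ 9 + (0) * γ 10 + (0) * γ 11 + (0) * γ 12
       + (0) * γ 13 + (0) * γ 14 := by
  rw [m28_1]
  simp only [m28_0, m28_1, m28_2, m28_3, m28_4, m28_5, m28_6, m28_7, m28_8, m28_9, m28_10, m28_11, m28_12, m28_13, m28_14]
  ring

theorem mm28_2 (γ : ℕ → ℝ) : Mat 28 (Mat 28 γ) 2 =
      (2462831280) * γ 0 + (274519440) * γ 1 + (28408120) * γ 2 + (2685160) * γ 3 + (226516) * γ 4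
       + (16468) * γ 5 + (974) * γ 6 + (42) * γ 7 + (1) * γ 8 + (0) * γ 9 + (0) * γ 10 + (0) * γ 11
       + (0) * γ 12 + (0) * γ 13 + (0) * γ 14 := by
  rw [m28_2]
  simp only [m28_0, m28_1, m28_2, m28_3, m28_4, m28_5, m28_6, m28_7, m28_8, m28_9, m28_10, m28_11, m28_12, m28_13, m28_14]
  ring

theorem mm28_3 (γ : ℕ → ℝ) : Mat 28 (Mat 28 γ) 3 =
      (2147124645120) * γ 0 + (315845612160) * γ 1 + (44818521280) * γ 2 + (6103861440) * γ 3
       + (792781664) * γ 4 + (97399296) * γ 5 + (11197568) * γ 6 + (1186976) * γ 7 + (113584) * γ 8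
       + (9500) * γ 9 + (658) * γ 10 + (34) * γ 11 + (1) * γ 12 + (0) * γ 13 + (0) * γ 14 := by
  rw [m28_3]
  simp only [m28_0, m28_1, m28_2, m28_3, m28_4, m28_5, m28_6, m28_7, m28_8, m28_9, m28_10, m28_11, m28_12, m28_13, m28_14]
  ring

theorem mm28_4 (γ : ℕ → ℝ) : Mat 28 (Mat 28 γ) 4 =
      (516397299452160) * γ 0 + (90209970808320) * γ 1 + (15442970533120) * γ 2
       + (2585340988160) * γ 3 + (422239517056) * γ 4 + (67079761280) * γ 5 + (10329664576) * γ 6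
       + (1535180864) * γ 7 + (219001376) * γ 8 + (29778928) * γ 9 + (3824072) * γ 10
       + (457912) * γ 11 + (50204) * γ 12 + (4900) * γ 13 + (406) * γ 14 := by
  rw [m28_4]
  simp only [m28_0, m28_1, m28_2, m28_3, m28_4, m28_5, m28_6, m28_7, m28_8, m28_9, m28_10, m28_11, m28_12, m28_13, m28_14]
  ring

theorem mm28_5 (γ : ℕ → ℝ) : Mat 28 (Mat 28 γ) 5 =
      (46168592618158080) * γ 0 + (9081064014136320) * γ 1 + (1764208622824960) * γ 2
       + (338193462638080) * γ 3 + (63900445905664) * γ 4 + (11885513078784) * γ 5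
       + (2173075446784) * γ 6 + (389886167552) * γ 7 + (68507830016) * γ 8 + (11761155648) * γ 9
       + (1967078624) * γ 10 + (319394912) * γ 11 + (50125616) * γ 12 + (7560928) * γ 13
       + (1088080) * γ 14 := by
  rw [m28_5]
  simp only [m28_0, m28_1, m28_2, m28_3, m28_4, m28_5, m28_6, m28_7, m28_8, m28_9, m28_10, m28_11, m28_12, m28_13, m28_14]
  ring

theorem mm28_6 (γ : ℕ → ℝ) : Mat 28 (Mat 28 γ) 6 =
      (1804833838865756160) * γ 0 + (387501997088747520) * γ 1 + (82537762963302400) * γ 2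
       + (17432375505745920) * γ 3 + (3648759342980096) * γ 4 + (756399202122752) * γ 5
       + (155193932360192) * γ 6 + (31490494490112) * γ 7 + (6313702850304) * γ 8
       + (1249552197888) * γ 9 + (243832530816) * γ 10 + (46850962048) * γ 11 + (8850341184) * γ 12
       + (1640658752) * γ 13 + (297809120) * γ 14 := by
  rw [m28_6]
  simp only [m28_0, m28_1, m28_2, m28_3, m28_4, m28_5, m28_6, m28_7, m28_8, m28_9, m28_10, m28_11, m28_12, m28_13, m28_14]
  ring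

theorem mm28_7 (γ : ℕ → ℝ) : Mat 28 (Mat 28 γ) 7 =
      (33831102833266917376) * γ 0 + (7773260654933639168) * γ 1 + (1776639121186914304) * γ 2
       + (403817972396490752) * γ 3 + (91250150701809664) * γ 4 + (20492850818056192) * γ 5
       + (4572334272413696) * γ 6 + (1013143864557568) * γ 7 + (222851272761344) * γ 8
       + (48636596230144) * γ 9 + (10526528402432) * γ 10 + (2257999000576) * γ 11
       + (479721855488) * γ 12 + (100868368384) * γ 13 + (20972354560) * γ 14 := by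
  rw [m28_7]
  simp only [m28_0, m28_1, m28_2, m28_3, m28_4, m28_5, m28_6, m28_7, m28_8, m28_9, m28_10, m28_11, m28_12, m28_13, m28_14]
  ring

theorem mm28_8 (γ : ℕ → ℝ) : Mat 28 (Mat 28 γ) 8 =
      (319205518412290392064) * γ 0 + (77438651672798953472) * γ 1 + (18720009222538264576) * γ 2
       + (4508666864788963328) * γ 3 + (1081713061999476736) * γ 4 + (258476125411409920) * γ 5
       + (61502080051937280) * γ 6 + (14569010242748416) * γ 7 + (3435132863758336) * γ 8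
       + (805979950637056) * γ 9 + (188129385107456) * γ 10 + (43673148633088) * γ 11
       + (10079974381568) * γ 12 + (2312272807936) * γ 13 + (526969031680) * γ 14 := by
  rw [m28_8]
  simp only [m28_0, m28_1, m28_2, m28_3, m28_4, m28_5, m28_6, m28_7, m28_8, m28_9, m28_10, m28_11, m28_12, m28_13, m28_14]
  ring

theorem mm28_9 (γ : ℕ → ℝ) : Mat 28 (Mat 28 γ) 9 =
      (1539563574762107568128) * γ 0 + (390577417330225315840) * γ 1 + (98851646806193209344) * γ 2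
       + (24956828155750776832) * γ 3 + (6284671892038549504) * γ 4 + (1578410697926115328) * γ 5
       + (395325857841283072) * γ 6 + (98727637161345024) * γ 7 + (24582027318001664) * γ 8
       + (6101483833294848) * γ 9 + (1509493715353600) * γ 10 + (372168778235904) * γ 11
       + (91430480207872) * γ 12 + (22377343565824) * γ 13 + (5455194873856) * γ 14 := by
  rw [m28_9]
  simp only [m28_0, m28_1, m28_2, m28_3, m28_4, m28_5, m28_6, m28_7, m28_8, m28_9, m28_10, m28_11, m28_12, m28_13, m28_14]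
  ring

theorem mm28_10 (γ : ℕ → ℝ) : Mat 28 (Mat 28 γ) 10 =
      (3734372298582578429952) * γ 0 + (983672619356830826496) * γ 1
       + (258704361269368455168) * γ 2 + (67928972352051216384) * γ 3
       + (17806609320310996992) * γ 4 + (4659698514782846976) * γ 5 + (1217191665505271808) * γ 6
       + (317363801149538304) * γ 7 + (82589380145774592) * γ 8 + (21450076667904000) * γ 9
       + (5559540439252992) * γ 10 + (1437870950514688) * γ 11 + (371052427771904) * γ 12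
       + (95531366121472) * γ 13 + (24536376066048) * γ 14 := by
  rw [m28_10]
  simp only [m28_0, m28_1, m28_2, m28_3, m28_4, m28_5, m28_6, m28_7, m28_8, m28_9, m28_10, m28_11, m28_12, m28_13, m28_14]
  ring

theorem mm28_11 (γ : ℕ → ℝ) : Mat 28 (Mat 28 γ) 11 =
      (4307686584888808439808) * γ 0 + (1171742248824245059584) * γ 1
       + (318414641223174193152) * γ 2 + (86439994383491137536) * γ 3
       + (23441448763725447168) * γ 4 + (6350221177062948864) * γ 5 + (1718359284674199552) * γ 6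
       + (464456641733984256) * γ 7 + (125391214344142848) * γ 8 + (33811438070661120) * γ 9
       + (9105794295005184) * γ 10 + (2449130115432448) * γ 11 + (657850090455040) * γ 12
       + (176458784309248) * γ 13 + (47265036894208) * γ 14 := by
  rw [m28_11]
  simp only [m28_0, m28_1, m28_2, m28_3, m28_4, m28_5, m28_6, m28_7, m28_8, m28_9, m28_10, m28_11, m28_12, m28_13, m28_14]
  ring

theorem mm28_12 (γ : ℕ → ℝ) : Mat 28 (Mat 28 γ) 12 =
      (2093277642889556393984) * γ 0 + (585482832079394701312) * γ 1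
       + (163666373914012942336) * γ 2 + (45725303063097376768) * γ 3
       + (12767303677375414272) * γ 4 + (3562711197318905856) * γ 5 + (993559735443652608) * γ 6
       + (276905827095281664) * γ 7 + (77123630338670592) * γ 8 + (21466057125396480) * γ 9
       + (5970605734625280) * γ 10 + (1659500135710720) * γ 11 + (460914193858560) * γ 12
       + (127919709224960) * γ 13 + (35474779275264) * γ 14 := by
  rw [m28_12]
  simp only [m28_0, m28_1, m28_2, m28_3, m28_4, m28_5, m28_6, m28_7, m28_8, m28_9, m28_10, m28_11, m28_12, m28_13, m28_14]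
  ring

theorem mm28_13 (γ : ℕ → ℝ) : Mat 28 (Mat 28 γ) 13 =
      (327486923907165847552) * γ 0 + (93863417015881957376) * γ 1 + (26896425898806870016) * γ 2
       + (7705241271928881152) * γ 3 + (2206830234601259008) * γ 4 + (631887980507693056) * γ 5
       + (180882741414330368) * γ 6 + (51765131754864640) * γ 7 + (14810095527395328) * γ 8
       + (4235998758174720) * γ 9 + (1211234386968576) * γ 10 + (346235682684928) * γ 11
       + (98942632067072) * γ 12 + (28265697771520) * γ 13 + (8072295612416) * γ 14 := by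
  rw [m28_13]
  simp only [m28_0, m28_1, m28_2, m28_3, m28_4, m28_5, m28_6, m28_7, m28_8, m28_9, m28_10, m28_11, m28_12, m28_13, m28_14]
  ring

theorem mm28_14 (γ : ℕ → ℝ) : Mat 28 (Mat 28 γ) 14 =
      (7006950869782495232) * γ 0 + (2052288394318315520) * γ 1 + (601101353745383424) * γ 2
       + (176058510331609088) * γ 3 + (51566343790526464) * γ 4 + (15103432415248384) * γ 5
       + (4423692935233536) * γ 6 + (1295669662842880) * γ 7 + (379492858068992) * γ 8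
       + (111150884716544) * γ 9 + (32555340398592) * γ 10 + (9535238438912) * γ 11
       + (2792806678528) * γ 12 + (817994137600) * γ 13 + (239584935936) * γ 14 := by
  rw [m28_14]
  simp only [m28_0, m28_1, m28_2, m28_3, m28_4, m28_5, m28_6, m28_7, m28_8, m28_9, m28_10, m28_11, m28_12, m28_13, m28_14]
  ring

theorem p28_0 (γ : ℕ → ℝ) (h0 : γ 0 = 1)
    (h : ∀ n < 28, 2 * (((28 : ℕ) : ℝ) - ((n : ℕ) : ℝ)) * ∑ i ∈ range (28 / 2 + 1), γ i * (cfn 28 i n : ℝ) ≤
      ((n : ℝ) + 1) * ∑ i ∈ range (28 / 2 + 1), γ i * (cfn 28 i (n + 1) : ℝ)) :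
    0 < Mat 28 (Mat 28 (Mat 28 γ)) 0 := by

  rw [m28_0]
  simp only [mm28_0, mm28_1, mm28_2, mm28_3, mm28_4, mm28_5, mm28_6, mm28_7, mm28_8, mm28_9, mm28_10, mm28_11, mm28_12, mm28_13, mm28_14]
  linarith only [h0]

theorem p28_1 (γ : ℕ → ℝ) (h0 : γ 0 = 1)
    (h : ∀ n < 28, 2 * (((28 : ℕ) : ℝ) - ((n : ℕ) : ℝ)) * ∑ i ∈ range (28 / 2 + 1), γ i * (cfn 28 i n : ℝ) ≤
      ((n : ℝ) + 1) * ∑ i ∈ range (28 / 2 + 1), γ i * (cfn 28 i (n + 1) : ℝ)) :
    0 < Mat 28 (Mat 28 (Mat 28 γ)) 1 := by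
  have k0 := q28_0 γ h0 h
  have k1 := q28_1 γ h0 h
  have k4 := q28_4 γ h0 h
  have k6 := q28_6 γ h0 h
  have k2 := q28_2 γ h0 h
  have k7 := q28_7 γ h0 h
  have k5 := q28_5 γ h0 h
  have k3 := q28_3 γ h0 h
  rw [m28_1]
  simp only [mm28_0, mm28_1, mm28_2, mm28_3, mm28_4, mm28_5, mm28_6, mm28_7, mm28_8, mm28_9, mm28_10, mm28_11, mm28_12, mm28_13, mm28_14]
  linarith only [h0, k0, k1, k4, k6, k2, k7, k5, k3]

theorem p28_2 (γ : ℕ → ℝ) (h0 : γ 0 = 1)
    (h : ∀ n < 28, 2 * (((28 : ℕ) : ℝ) - ((n : ℕ) : ℝ)) * ∑ i ∈ range (28 / 2 + 1), γ i * (cfn 28 i n : ℝ) ≤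
      ((n : ℝ) + 1) * ∑ i ∈ range (28 / 2 + 1), γ i * (cfn 28 i (n + 1) : ℝ)) :
    0 < Mat 28 (Mat 28 (Mat 28 γ)) 2 := by
  have k4 := q28_4 γ h0 h
  have k0 := q28_0 γ h0 h
  have k1 := q28_1 γ h0 h
  have k6 := q28_6 γ h0 h
  have k5 := q28_5 γ h0 h
  have k3 := q28_3 γ h0 h
  have k2 := q28_2 γ h0 h
  have k13 := q28_13 γ h0 h
  have k8 := q28_8 γ h0 h
  have k7 := q28_7 γ h0 h
  have k14 := q28_14 γ h0 h
  have k11 := q28_11 γ h0 h
  have k9 := q28_9 γ h0 h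
  have k12 := q28_12 γ h0 h
  rw [m28_2]
  simp only [mm28_0, mm28_1, mm28_2, mm28_3, mm28_4, mm28_5, mm28_6, mm28_7, mm28_8, mm28_9, mm28_10, mm28_11, mm28_12, mm28_13, mm28_14]
  linarith only [h0, k4, k0, k1, k6, k5, k3, k2, k13, k8, k7, k14, k11, k9, k12]

theorem p28_3 (γ : ℕ → ℝ) (h0 : γ 0 = 1)
    (h : ∀ n < 28, 2 * (((28 : ℕ) : ℝ) - ((n : ℕ) : ℝ)) * ∑ i ∈ range (28 / 2 + 1), γ i * (cfn 28 i n : ℝ) ≤
      ((n : ℝ) + 1) * ∑ i ∈ range (28 / 2 + 1), γ i * (cfn 28 i (n + 1) : ℝ)) :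
    0 < Mat 28 (Mat 28 (Mat 28 γ)) 3 := by
  have k3 := q28_3 γ h0 h
  have k0 := q28_0 γ h0 h
  have k16 := q28_16 γ h0 h
  have k9 := q28_9 γ h0 h
  have k1 := q28_1 γ h0 h
  have k2 := q28_2 γ h0 h
  have k4 := q28_4 γ h0 h
  have k10 := q28_10 γ h0 h
  have k12 := q28_12 γ h0 h
  have k5 := q28_5 γ h0 h
  have k7 := q28_7 γ h0 h
  have k6 := q28_6 γ h0 h
  have k13 := q28_13 γ h0 h
  have k17 := q28_17 γ h0 h
  rw [m28_3]
  simp only [mm28_0, mm28_1, mm28_2, mm28_3, mm28_4, mm28_5, mm28_6, mm28_7, mm28_8, mm28_9, mm28_10, mm28_11, mm28_12, mm28_13, mm28_14]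
  linarith only [h0, k3, k0, k16, k9, k1, k2, k4, k10, k12, k5, k7, k6, k13, k17]

theorem p28_4 (γ : ℕ → ℝ) (h0 : γ 0 = 1)
    (h : ∀ n < 28, 2 * (((28 : ℕ) : ℝ) - ((n : ℕ) : ℝ)) * ∑ i ∈ range (28 / 2 + 1), γ i * (cfn 28 i n : ℝ) ≤
      ((n : ℝ) + 1) * ∑ i ∈ range (28 / 2 + 1), γ i * (cfn 28 i (n + 1) : ℝ)) :
    0 < Mat 28 (Mat 28 (Mat 28 γ)) 4 := by
  have k0 := q28_0 γ h0 h
  have k9 := q28_9 γ h0 h
  have k3 := q28_3 γ h0 h
  have k2 := q28_2 γ h0 h
  have k1 := q28_1 γ h0 h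
  have k14 := q28_14 γ h0 h
  have k18 := q28_18 γ h0 h
  have k4 := q28_4 γ h0 h
  have k17 := q28_17 γ h0 h
  have k10 := q28_10 γ h0 h
  have k13 := q28_13 γ h0 h
  have k6 := q28_6 γ h0 h
  have k7 := q28_7 γ h0 h
  have k5 := q28_5 γ h0 h
  rw [m28_4]
  simp only [mm28_0, mm28_1, mm28_2, mm28_3, mm28_4, mm28_5, mm28_6, mm28_7, mm28_8, mm28_9, mm28_10, mm28_11, mm28_12, mm28_13, mm28_14]
  linarith only [h0, k0, k9, k3, k2, k1, k14, k18, k4, k17, k10, k13, k6, k7, k5]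

theorem p28_5 (γ : ℕ → ℝ) (h0 : γ 0 = 1)
    (h : ∀ n < 28, 2 * (((28 : ℕ) : ℝ) - ((n : ℕ) : ℝ)) * ∑ i ∈ range (28 / 2 + 1), γ i * (cfn 28 i n : ℝ) ≤
      ((n : ℝ) + 1) * ∑ i ∈ range (28 / 2 + 1), γ i * (cfn 28 i (n + 1) : ℝ)) :
    0 < Mat 28 (Mat 28 (Mat 28 γ)) 5 := by
  have k14 := q28_14 γ h0 h
  have k0 := q28_0 γ h0 h
  have k13 := q28_13 γ h0 h
  have k1 := q28_1 γ h0 h
  have k4 := q28_4 γ h0 h
  have k9 := q28_9 γ h0 h
  have k2 := q28_2 γ h0 h
  have k6 := q28_6 γ h0 h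
  have k18 := q28_18 γ h0 h
  have k3 := q28_3 γ h0 h
  have k10 := q28_10 γ h0 h
  have k19 := q28_19 γ h0 h
  have k7 := q28_7 γ h0 h
  have k5 := q28_5 γ h0 h
  rw [m28_5]
  simp only [mm28_0, mm28_1, mm28_2, mm28_3, mm28_4, mm28_5, mm28_6, mm28_7, mm28_8, mm28_9, mm28_10, mm28_11, mm28_12, mm28_13, mm28_14]
  linarith only [h0, k14, k0, k13, k1, k4, k9, k2, k6, k18, k3, k10, k19, k7, k5]

theorem p28_6 (γ : ℕ → ℝ) (h0 : γ 0 = 1)
    (h : ∀ n < 28, 2 * (((28 : ℕ) : ℝ) - ((n : ℕ) : ℝ)) * ∑ i ∈ range (28 / 2 + 1), γ i * (cfn 28 i n : ℝ) ≤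
      ((n : ℝ) + 1) * ∑ i ∈ range (28 / 2 + 1), γ i * (cfn 28 i (n + 1) : ℝ)) :
    0 < Mat 28 (Mat 28 (Mat 28 γ)) 6 := by
  have k0 := q28_0 γ h0 h
  have k5 := q28_5 γ h0 h
  have k1 := q28_1 γ h0 h
  have k3 := q28_3 γ h0 h
  have k19 := q28_19 γ h0 h
  have k15 := q28_15 γ h0 h
  have k4 := q28_4 γ h0 h
  have k2 := q28_2 γ h0 h
  have k9 := q28_9 γ h0 h
  have k14 := q28_14 γ h0 h
  have k10 := q28_10 γ h0 h
  have k6 := q28_6 γ h0 h
  have k7 := q28_7 γ h0 h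
  have k20 := q28_20 γ h0 h
  rw [m28_6]
  simp only [mm28_0, mm28_1, mm28_2, mm28_3, mm28_4, mm28_5, mm28_6, mm28_7, mm28_8, mm28_9, mm28_10, mm28_11, mm28_12, mm28_13, mm28_14]
  linarith only [h0, k0, k5, k1, k3, k19, k15, k4, k2, k9, k14, k10, k6, k7, k20]

theorem p28_7 (γ : ℕ → ℝ) (h0 : γ 0 = 1)
    (h : ∀ n < 28, 2 * (((28 : ℕ) : ℝ) - ((n : ℕ) : ℝ)) * ∑ i ∈ range (28 / 2 + 1), γ i * (cfn 28 i n : ℝ) ≤
      ((n : ℝ) + 1) * ∑ i ∈ range (28 / 2 + 1), γ i * (cfn 28 i (n + 1) : ℝ)) :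
    0 < Mat 28 (Mat 28 (Mat 28 γ)) 7 := by
  have k2 := q28_2 γ h0 h
  have k19 := q28_19 γ h0 h
  have k0 := q28_0 γ h0 h
  have k1 := q28_1 γ h0 h
  have k4 := q28_4 γ h0 h
  have k5 := q28_5 γ h0 h
  have k10 := q28_10 γ h0 h
  have k3 := q28_3 γ h0 h
  have k15 := q28_15 γ h0 h
  have k14 := q28_14 γ h0 h
  have k20 := q28_20 γ h0 h
  have k6 := q28_6 γ h0 h
  have k7 := q28_7 γ h0 h
  have k11 := q28_11 γ h0 h
  rw [m28_7]
  simp only [mm28_0, mm28_1, mm28_2, mm28_3, mm28_4, mm28_5, mm28_6, mm28_7, mm28_8, mm28_9, mm28_10, mm28_11, mm28_12, mm28_13, mm28_14]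
  linarith only [h0, k2, k19, k0, k1, k4, k5, k10, k3, k15, k14, k20, k6, k7, k11]

theorem p28_8 (γ : ℕ → ℝ) (h0 : γ 0 = 1)
    (h : ∀ n < 28, 2 * (((28 : ℕ) : ℝ) - ((n : ℕ) : ℝ)) * ∑ i ∈ range (28 / 2 + 1), γ i * (cfn 28 i n : ℝ) ≤
      ((n : ℝ) + 1) * ∑ i ∈ range (28 / 2 + 1), γ i * (cfn 28 i (n + 1) : ℝ)) :
    0 < Mat 28 (Mat 28 (Mat 28 γ)) 8 := by
  have k10 := q28_10 γ h0 h
  have k7 := q28_7 γ h0 h
  have k0 := q28_0 γ h0 h
  have k1 := q28_1 γ h0 h
  have k5 := q28_5 γ h0 h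
  have k2 := q28_2 γ h0 h
  have k4 := q28_4 γ h0 h
  have k20 := q28_20 γ h0 h
  have k3 := q28_3 γ h0 h
  have k14 := q28_14 γ h0 h
  have k21 := q28_21 γ h0 h
  have k6 := q28_6 γ h0 h
  have k15 := q28_15 γ h0 h
  have k11 := q28_11 γ h0 h
  rw [m28_8]
  simp only [mm28_0, mm28_1, mm28_2, mm28_3, mm28_4, mm28_5, mm28_6, mm28_7, mm28_8, mm28_9, mm28_10, mm28_11, mm28_12, mm28_13, mm28_14]
  linarith only [h0, k10, k7, k0, k1, k5, k2, k4, k20, k3, k14, k21, k6, k15, k11]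

theorem p28_9 (γ : ℕ → ℝ) (h0 : γ 0 = 1)
    (h : ∀ n < 28, 2 * (((28 : ℕ) : ℝ) - ((n : ℕ) : ℝ)) * ∑ i ∈ range (28 / 2 + 1), γ i * (cfn 28 i n : ℝ) ≤
      ((n : ℝ) + 1) * ∑ i ∈ range (28 / 2 + 1), γ i * (cfn 28 i (n + 1) : ℝ)) :
    0 < Mat 28 (Mat 28 (Mat 28 γ)) 9 := by
  have k2 := q28_2 γ h0 h
  have k15 := q28_15 γ h0 h
  have k0 := q28_0 γ h0 h
  have k10 := q28_10 γ h0 h
  have k1 := q28_1 γ h0 h
  have k3 := q28_3 γ h0 h
  have k4 := q28_4 γ h0 h
  have k14 := q28_14 γ h0 h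
  have k20 := q28_20 γ h0 h
  have k21 := q28_21 γ h0 h
  have k5 := q28_5 γ h0 h
  have k6 := q28_6 γ h0 h
  have k7 := q28_7 γ h0 h
  have k11 := q28_11 γ h0 h
  rw [m28_9]
  simp only [mm28_0, mm28_1, mm28_2, mm28_3, mm28_4, mm28_5, mm28_6, mm28_7, mm28_8, mm28_9, mm28_10, mm28_11, mm28_12, mm28_13, mm28_14]
  linarith only [h0, k2, k15, k0, k10, k1, k3, k4, k14, k20, k21, k5, k6, k7, k11]

theorem p28_10 (γ : ℕ → ℝ) (h0 : γ 0 = 1)
    (h : ∀ n < 28, 2 * (((28 : ℕ) : ℝ) - ((n : ℕ) : ℝ)) * ∑ i ∈ range (28 / 2 + 1), γ i * (cfn 28 i n : ℝ) ≤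
      ((n : ℝ) + 1) * ∑ i ∈ range (28 / 2 + 1), γ i * (cfn 28 i (n + 1) : ℝ)) :
    0 < Mat 28 (Mat 28 (Mat 28 γ)) 10 := by
  have k10 := q28_10 γ h0 h
  have k21 := q28_21 γ h0 h
  have k14 := q28_14 γ h0 h
  have k0 := q28_0 γ h0 h
  have k2 := q28_2 γ h0 h
  have k1 := q28_1 γ h0 h
  have k4 := q28_4 γ h0 h
  have k20 := q28_20 γ h0 h
  have k15 := q28_15 γ h0 h
  have k3 := q28_3 γ h0 h
  have k5 := q28_5 γ h0 h
  have k6 := q28_6 γ h0 h
  have k7 := q28_7 γ h0 h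
  have k11 := q28_11 γ h0 h
  rw [m28_10]
  simp only [mm28_0, mm28_1, mm28_2, mm28_3, mm28_4, mm28_5, mm28_6, mm28_7, mm28_8, mm28_9, mm28_10, mm28_11, mm28_12, mm28_13, mm28_14]
  linarith only [h0, k10, k21, k14, k0, k2, k1, k4, k20, k15, k3, k5, k6, k7, k11]

theorem p28_11 (γ : ℕ → ℝ) (h0 : γ 0 = 1)
    (h : ∀ n < 28, 2 * (((28 : ℕ) : ℝ) - ((n : ℕ) : ℝ)) * ∑ i ∈ range (28 / 2 + 1), γ i * (cfn 28 i n : ℝ) ≤
      ((n : ℝ) + 1) * ∑ i ∈ range (28 / 2 + 1), γ i * (cfn 28 i (n + 1) : ℝ)) :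
    0 < Mat 28 (Mat 28 (Mat 28 γ)) 11 := by
  have k10 := q28_10 γ h0 h
  have k4 := q28_4 γ h0 h
  have k14 := q28_14 γ h0 h
  have k0 := q28_0 γ h0 h
  have k21 := q28_21 γ h0 h
  have k1 := q28_1 γ h0 h
  have k2 := q28_2 γ h0 h
  have k15 := q28_15 γ h0 h
  have k22 := q28_22 γ h0 h
  have k3 := q28_3 γ h0 h
  have k5 := q28_5 γ h0 h
  have k6 := q28_6 γ h0 h
  have k7 := q28_7 γ h0 h
  have k11 := q28_11 γ h0 h
  rw [m28_11]
  simp only [mm28_0, mm28_1, mm28_2, mm28_3, mm28_4, mm28_5, mm28_6, mm28_7, mm28_8, mm28_9, mm28_10, mm28_11, mm28_12, mm28_13, mm28_14]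
  linarith only [h0, k10, k4, k14, k0, k21, k1, k2, k15, k22, k3, k5, k6, k7, k11]

theorem p28_12 (γ : ℕ → ℝ) (h0 : γ 0 = 1)
    (h : ∀ n < 28, 2 * (((28 : ℕ) : ℝ) - ((n : ℕ) : ℝ)) * ∑ i ∈ range (28 / 2 + 1), γ i * (cfn 28 i n : ℝ) ≤
      ((n : ℝ) + 1) * ∑ i ∈ range (28 / 2 + 1), γ i * (cfn 28 i (n + 1) : ℝ)) :
    0 < Mat 28 (Mat 28 (Mat 28 γ)) 12 := by
  have k3 := q28_3 γ h0 h
  have k0 := q28_0 γ h0 h
  have k14 := q28_14 γ h0 h
  have k4 := q28_4 γ h0 h
  have k10 := q28_10 γ h0 h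
  have k1 := q28_1 γ h0 h
  have k2 := q28_2 γ h0 h
  have k15 := q28_15 γ h0 h
  have k21 := q28_21 γ h0 h
  have k22 := q28_22 γ h0 h
  have k5 := q28_5 γ h0 h
  have k6 := q28_6 γ h0 h
  have k7 := q28_7 γ h0 h
  have k11 := q28_11 γ h0 h
  rw [m28_12]
  simp only [mm28_0, mm28_1, mm28_2, mm28_3, mm28_4, mm28_5, mm28_6, mm28_7, mm28_8, mm28_9, mm28_10, mm28_11, mm28_12, mm28_13, mm28_14]
  linarith only [h0, k3, k0, k14, k4, k10, k1, k2, k15, k21, k22, k5, k6, k7, k11]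

theorem p28_13 (γ : ℕ → ℝ) (h0 : γ 0 = 1)
    (h : ∀ n < 28, 2 * (((28 : ℕ) : ℝ) - ((n : ℕ) : ℝ)) * ∑ i ∈ range (28 / 2 + 1), γ i * (cfn 28 i n : ℝ) ≤
      ((n : ℝ) + 1) * ∑ i ∈ range (28 / 2 + 1), γ i * (cfn 28 i (n + 1) : ℝ)) :
    0 < Mat 28 (Mat 28 (Mat 28 γ)) 13 := by
  have k10 := q28_10 γ h0 h
  have k0 := q28_0 γ h0 h
  have k14 := q28_14 γ h0 h
  have k22 := q28_22 γ h0 h
  have k1 := q28_1 γ h0 h
  have k4 := q28_4 γ h0 h
  have k2 := q28_2 γ h0 h
  have k15 := q28_15 γ h0 h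
  have k21 := q28_21 γ h0 h
  have k3 := q28_3 γ h0 h
  have k5 := q28_5 γ h0 h
  have k6 := q28_6 γ h0 h
  have k7 := q28_7 γ h0 h
  have k11 := q28_11 γ h0 h
  rw [m28_13]
  simp only [mm28_0, mm28_1, mm28_2, mm28_3, mm28_4, mm28_5, mm28_6, mm28_7, mm28_8, mm28_9, mm28_10, mm28_11, mm28_12, mm28_13, mm28_14]
  linarith only [h0, k10, k0, k14, k22, k1, k4, k2, k15, k21, k3, k5, k6, k7, k11]

theorem p28_14 (γ : ℕ → ℝ) (h0 : γ 0 = 1)
    (h : ∀ n < 28, 2 * (((28 : ℕ) : ℝ) - ((n : ℕ) : ℝ)) * ∑ i ∈ range (28 / 2 + 1), γ i * (cfn 28 i n : ℝ) ≤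
      ((n : ℝ) + 1) * ∑ i ∈ range (28 / 2 + 1), γ i * (cfn 28 i (n + 1) : ℝ)) :
    0 < Mat 28 (Mat 28 (Mat 28 γ)) 14 := by
  have k0 := q28_0 γ h0 h
  have k1 := q28_1 γ h0 h
  have k4 := q28_4 γ h0 h
  have k22 := q28_22 γ h0 h
  have k23 := q28_23 γ h0 h
  have k14 := q28_14 γ h0 h
  have k3 := q28_3 γ h0 h
  have k15 := q28_15 γ h0 h
  have k2 := q28_2 γ h0 h
  have k6 := q28_6 γ h0 h
  have k5 := q28_5 γ h0 h
  have k10 := q28_10 γ h0 h
  have k7 := q28_7 γ h0 h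
  have k11 := q28_11 γ h0 h
  rw [m28_14]
  simp only [mm28_0, mm28_1, mm28_2, mm28_3, mm28_4, mm28_5, mm28_6, mm28_7, mm28_8, mm28_9, mm28_10, mm28_11, mm28_12, mm28_13, mm28_14]
  linarith only [h0, k0, k1, k4, k22, k23, k14, k3, k15, k2, k6, k5, k10, k7, k11]

theorem main28 (γ : ℕ → ℝ) (h0 : γ 0 = 1)
    (h : ∀ n < 28, 2 * (((28 : ℕ) : ℝ) - ((n : ℕ) : ℝ)) * ∑ i ∈ range (28 / 2 + 1), γ i * (cfn 28 i n : ℝ) ≤
      ((n : ℝ) + 1) * ∑ i ∈ range (28 / 2 + 1), γ i * (cfn 28 i (n + 1) : ℝ)) :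
    ∀ j ≤ 28 / 2, 0 < Mat 28 (Mat 28 (Mat 28 γ)) j := by
  intro j hj
  have hj' : j ≤ 14 := hj
  clear hj
  interval_cases j
  · exact p28_0 γ h0 h
  · exact p28_1 γ h0 h
  · exact p28_2 γ h0 h
  · exact p28_3 γ h0 h
  · exact p28_4 γ h0 h
  · exact p28_5 γ h0 h
  · exact p28_6 γ h0 h
  · exact p28_7 γ h0 h
  · exact p28_8 γ h0 h
  · exact p28_9 γ h0 h
  · exact p28_10 γ h0 h
  · exact p28_11 γ h0 h
  · exact p28_12 γ h0 h
  · exact p28_13 γ h0 h
  · exact p28_14 γ h0 h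

end PkgNT25

end Pool.Agent.T2H83.GR
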