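import Pool.Agent.T2H83.GR.Stm

set_option autoImplicit false
set_option linter.unusedSimpArgs false
set_option linter.unusedVariables false

/-!
# Numerical inequalities for three rounds (generated by a computer program)
-/

namespace Pool.Agent.T2H83.GR

open Finset

namespace PkgNT29

theorem c29_0 (γ : ℕ → ℝ) : ∑ i ∈ range (29 / 2 + 1), γ i * (cfn 29 i 0 : ℝ) =
    (1) * γ 0 + (0) * γ 1 + (0) * γ 2 + (0) * γ 3 + (0) * γ 4 + (0) * γ 5 + (0) * γ 6 + (0) * γ 7
       + (0) * γ 8 + (0) * γ 9 + (0) * γ 10 + (0) * γ 11 + (0) * γ 12 + (0) * γ 13 + (0) * γ 14 := by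
  have h : ((29 / 2 + 1 : ℕ)) = 15 := rfl
  rw [h]
  simp only [sum_range_succ, sum_range_zero, show cfn 29 0 0 = 1 from by decide +kernel, show cfn 29 1 0 = 0 from by decide +kernel, show cfn 29 2 0 = 0 from by decide +kernel, show cfn 29 3 0 = 0 from by decide +kernel, show cfn 29 4 0 = 0 from by decide +kernel, show cfn 29 5 0 = 0 from by decide +kernel, show cfn 29 6 0 = 0 from by decide +kernel, show cfn 29 7 0 = 0 from by decide +kernel, show cfn 29 8 0 = 0 from by decide +kernel, show cfn 29 9 0 = 0 from by decide +kernel, show cfn 29 10 0 = 0 from by decide +kernel, show cfn 29 11 0 = 0 from by decide +kernel, show cfn 29 12 0 = 0 from by decide +kernel, show cfn 29 13 0 = 0 from by decide +kernel, show cfn 29 14 0 = 0 from by decide +kernel, Nat.cast_ofNat, Nat.cast_one, Nat.cast_zero]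
  ring

theorem c29_1 (γ : ℕ → ℝ) : ∑ i ∈ range (29 / 2 + 1), γ i * (cfn 29 i 1 : ℝ) =
    (58) * γ 0 + (1) * γ 1 + (0) * γ 2 + (0) * γ 3 + (0) * γ 4 + (0) * γ 5 + (0) * γ 6
       + (0) * γ 7 + (0) * γ 8 + (0) * γ 9 + (0) * γ 10 + (0) * γ 11 + (0) * γ 12 + (0) * γ 13
       + (0) * γ 14 := by
  have h : ((29 / 2 + 1 : ℕ)) = 15 := rfl
  rw [h]
  simp only [sum_range_succ, sum_range_zero, show cfn 29 0 1 = 58 from by decide +kernel, show cfn 29 1 1 = 1 from by decide +kernel, show cfn 29 2 1 = 0 from by decide +kernel, show cfn 29 3 1 = 0 from by decide +kernel, show cfn 29 4 1 = 0 from by decide +kernel, show cfn 29 5 1 = 0 from by decide +kernel, show cfn 29 6 1 = 0 from by decide +kernel, show cfn 29 7 1 = 0 from by decide +kernel, show cfn 29 8 1 = 0 from by decide +kernel, show cfn 29 9 1 = 0 from by decide +kernel, show cfn 29 10 1 = 0 from by decide +kernel, show cfn 29 11 1 = 0 from by decide +kernel, show cfn 29 12 1 = 0 from by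 decide +kernel, show cfn 29 13 1 = 0 from by decide +kernel, show cfn 29 14 1 = 0 from by decide +kernel, Nat.cast_ofNat, Nat.cast_one, Nat.cast_zero]
  ring

theorem c29_2 (γ : ℕ → ℝ) : ∑ i ∈ range (29 / 2 + 1), γ i * (cfn 29 i 2 : ℝ) =
    (1624) * γ 0 + (55) * γ 1 + (1) * γ 2 + (0) * γ 3 + (0) * γ 4 + (0) * γ 5 + (0) * γ 6
       + (0) * γ 7 + (0) * γ 8 + (0) * γ 9 + (0) * γ 10 + (0) * γ 11 + (0) * γ 12 + (0) * γ 13
       + (0) * γ 14 := by
  have h : ((29 / 2 + 1 : ℕ)) = 15 := rfl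
  rw [h]
  simp only [sum_range_succ, sum_range_zero, show cfn 29 0 2 = 1624 from by decide +kernel, show cfn 29 1 2 = 55 from by decide +kernel, show cfn 29 2 2 = 1 from by decide +kernel, show cfn 29 3 2 = 0 from by decide +kernel, show cfn 29 4 2 = 0 from by decide +kernel, show cfn 29 5 2 = 0 from by decide +kernel, show cfn 29 6 2 = 0 from by decide +kernel, show cfn 29 7 2 = 0 from by decide +kernel, show cfn 29 8 2 = 0 from by decide +kernel, show cfn 29 9 2 = 0 from by decide +kernel, show cfn 29 10 2 = 0 from by decide +kernel, show cfn 29 11 2 = 0 from by decide +kernel, show cfn 29 12 2 = 0 from by decide +kernel, show cfn 29 13 2 = 0 from by decide +kernel, show cfn 29 14 2 = 0 from by decide +kernel, Nat.cast_ofNat, Nat.cast_one, Nat.cast_zero]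
  ring

theorem c29_3 (γ : ℕ → ℝ) : ∑ i ∈ range (29 / 2 + 1), γ i * (cfn 29 i 3 : ℝ) =
    (29232) * γ 0 + (1458) * γ 1 + (52) * γ 2 + (1) * γ 3 + (0) * γ 4 + (0) * γ 5 + (0) * γ 6
       + (0) * γ 7 + (0) * γ 8 + (0) * γ 9 + (0) * γ 10 + (0) * γ 11 + (0) * γ 12 + (0) * γ 13
       + (0) * γ 14 := by
  have h : ((29 / 2 + 1 : ℕ)) = 15 := rfl
  rw [h]
  simp only [sum_range_succ, sum_range_zero, show cfn 29 0 3 = 29232 from by decide +kernel, show cfn 29 1 3 = 1458 from by decide +kernel, show cfn 29 2 3 = 52 from by decide +kernel, show cfn 29 3 3 = 1 from by decide +kernel, show cfn 29 4 3 = 0 from by decide +kernel, show cfn 29 5 3 = 0 from by decide +kernel, show cfn 29 6 3 = 0 from by decide +kernel, show cfn 29 7 3 = 0 from by decide +kernel, show cfn 29 8 3 = 0 from by decide +kernel, show cfn 29 9 3 = 0 from by decide +kernel, show cfn 29 10 3 = 0 from by decide +kernel, show cfn 29 11 3 = 0 from by decide +kernel, show cfn 29 12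 3 = 0 from by decide +kernel, show cfn 29 13 3 = 0 from by decide +kernel, show cfn 29 14 3 = 0 from by decide +kernel, Nat.cast_ofNat, Nat.cast_one, Nat.cast_zero]
  ring

theorem c29_4 (γ : ℕ → ℝ) : ∑ i ∈ range (29 / 2 + 1), γ i * (cfn 29 i 4 : ℝ) =
    (380016) * γ 0 + (24804) * γ 1 + (1301) * γ 2 + (49) * γ 3 + (1) * γ 4 + (0) * γ 5
       + (0) * γ 6 + (0) * γ 7 + (0) * γ 8 + (0) * γ 9 + (0) * γ 10 + (0) * γ 11 + (0) * γ 12
       + (0) * γ 13 + (0) * γ 14 := by
  have h : ((29 / 2 + 1 : ℕ)) = 15 := rfl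
  rw [h]
  simp only [sum_range_succ, sum_range_zero, show cfn 29 0 4 = 380016 from by decide +kernel, show cfn 29 1 4 = 24804 from by decide +kernel, show cfn 29 2 4 = 1301 from by decide +kernel, show cfn 29 3 4 = 49 from by decide +kernel, show cfn 29 4 4 = 1 from by decide +kernel, show cfn 29 5 4 = 0 from by decide +kernel, show cfn 29 6 4 = 0 from by decide +kernel, show cfn 29 7 4 = 0 from by decide +kernel, show cfn 29 8 4 = 0 from by decide +kernel, show cfn 29 9 4 = 0 from by decide +kernel, show cfn 29 10 4 = 0 from by decide +kernel, show cfn 29 11 4 = 0 from by decide +kernel, show cfn 29 12 4 = 0 from by decide +kernel, show cfn 29 13 4 = 0 from by decide +kernel, show cfn 29 14 4 = 0 from by decide +kernel, Nat.cast_ofNat, Nat.cast_one, Nat.cast_zero]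
  ring

theorem c29_5 (γ : ℕ → ℝ) : ∑ i ∈ range (29 / 2 + 1), γ i * (cfn 29 i 5 : ℝ) =
    (3800160) * γ 0 + (304200) * γ 1 + (20850) * γ 2 + (1153) * γ 3 + (46) * γ 4 + (1) * γ 5
       + (0) * γ 6 + (0) * γ 7 + (0) * γ 8 + (0) * γ 9 + (0) * γ 10 + (0) * γ 11 + (0) * γ 12
       + (0) * γ 13 + (0) * γ 14 := by
  have h : ((29 / 2 + 1 : ℕ)) = 15 := rfl
  rw [h]
  simp only [sum_range_succ, sum_range_zero, show cfn 29 0 5 = 3800160 from by decide +kernel, show cfn 29 1 5 = 304200 from by decide +kernel, show cfn 29 2 5 = 20850 from by decide +kernel, show cfn 29 3 5 = 1153 from by decide +kernel, show cfn 29 4 5 = 46 from by decide +kernel, show cfn 29 5 5 = 1 from by decide +kernel, show cfn 29 6 5 = 0 from by decide +kernel, show cfn 29 7 5 = 0 from by decide +kernel, show cfn 29 8 5 = 0 from by decide +kernel, show cfn 29 9 5 = 0 from by decide +kernel, show cfn 29 10 5 = 0 from by decide +kernel, show cfn 29 11 5 = 0 from by decide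 +kernel, show cfn 29 12 5 = 0 from by decide +kernel, show cfn 29 13 5 = 0 from by decide +kernel, show cfn 29 14 5 = 0 from by decide +kernel, Nat.cast_ofNat, Nat.cast_one, Nat.cast_zero]
  ring

theorem c29_6 (γ : ℕ → ℝ) : ∑ i ∈ range (29 / 2 + 1), γ i * (cfn 29 i 6 : ℝ) =
    (30401280) * γ 0 + (2864160) * γ 1 + (240400) * γ 2 + (17343) * γ 3 + (1014) * γ 4
       + (43) * γ 5 + (1) * γ 6 + (0) * γ 7 + (0) * γ 8 + (0) * γ 9 + (0) * γ 10 + (0) * γ 11
       + (0) * γ 12 + (0) * γ 13 + (0) * γ 14 := by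
  have h : ((29 / 2 + 1 : ℕ)) = 15 := rfl
  rw [h]
  simp only [sum_range_succ, sum_range_zero, show cfn 29 0 6 = 30401280 from by decide +kernel, show cfn 29 1 6 = 2864160 from by decide +kernel, show cfn 29 2 6 = 240400 from by decide +kernel, show cfn 29 3 6 = 17343 from by decide +kernel, show cfn 29 4 6 = 1014 from by decide +kernel, show cfn 29 5 6 = 43 from by decide +kernel, show cfn 29 6 6 = 1 from by decide +kernel, show cfn 29 7 6 = 0 from by decide +kernel, show cfn 29 8 6 = 0 from by decide +kernel, show cfn 29 9 6 = 0 from by decide +kernel, show cfn 29 10 6 = 0 from by decide +kernel, show cfn 29 11 6 = 0 from by decide +kernel, show cfn 29 12 6 = 0 from by decide +kernel, show cfn 29 13 6 = 0 from by decide +kernel, show cfn 29 14 6 = 0 from by decide +kernel, Nat.cast_ofNat, Nat.cast_one, Nat.cast_zero]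
  ring

theorem c29_7 (γ : ℕ → ℝ) : ∑ i ∈ range (29 / 2 + 1), γ i * (cfn 29 i 7 : ℝ) =
    (199779840) * γ 0 + (21528000) * γ 1 + (2123360) * γ 2 + (187266) * γ 3 + (14256) * γ 4
       + (884) * γ 5 + (40) * γ 6 + (1) * γ 7 + (0) * γ 8 + (0) * γ 9 + (0) * γ 10 + (0) * γ 11
       + (0) * γ 12 + (0) * γ 13 + (0) * γ 14 := by
  have h : ((29 / 2 + 1 : ℕ)) = 15 := rfl
  rw [h]
  simp only [sum_range_succ, sum_range_zero, show cfn 29 0 7 = 199779840 from by decide +kernel, show cfn 29 1 7 = 21528000 from by decide +kernel, show cfn 29 2 7 = 2123360 from by decide +kernel, show cfn 29 3 7 = 187266 from by decide +kernel, show cfn 29 4 7 = 14256 from by decide +kernel, show cfn 29 5 7 = 884 from by decide +kernel, show cfn 29 6 7 = 40 from by decide +kernel, show cfn 29 7 7 = 1 from by decide +kernel, show cfn 29 8 7 = 0 from by decide +kernel, show cfn 29 9 7 = 0 from by decide +kernel, show cfn 29 10 7 = 0 from by decide +kernel, show cfn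 29 11 7 = 0 from by decide +kernel, show cfn 29 12 7 = 0 from by decide +kernel, show cfn 29 13 7 = 0 from by decide +kernel, show cfn 29 14 7 = 0 from by decide +kernel, Nat.cast_ofNat, Nat.cast_one, Nat.cast_zero]
  ring

theorem c29_8 (γ : ℕ → ℝ) : ∑ i ∈ range (29 / 2 + 1), γ i * (cfn 29 i 8 : ℝ) =
    (1098789120) * γ 0 + (132612480) * γ 1 + (14937120) * γ 2 + (1545324) * γ 3 + (143529) * γ 4
       + (11562) * γ 5 + (763) * γ 6 + (37) * γ 7 + (1) * γ 8 + (0) * γ 9 + (0) * γ 10 + (0) * γ 11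
       + (0) * γ 12 + (0) * γ 13 + (0) * γ 14 := by
  have h : ((29 / 2 + 1 : ℕ)) = 15 := rfl
  rw [h]
  simp only [sum_range_succ, sum_range_zero, show cfn 29 0 8 = 1098789120 from by decide +kernel, show cfn 29 1 8 = 132612480 from by decide +kernel, show cfn 29 2 8 = 14937120 from by decide +kernel, show cfn 29 3 8 = 1545324 from by decide +kernel, show cfn 29 4 8 = 143529 from by decide +kernel, show cfn 29 5 8 = 11562 from by decide +kernel, show cfn 29 6 8 = 763 from by decide +kernel, show cfn 29 7 8 = 37 from by decide +kernel, show cfn 29 8 8 = 1 from by decide +kernel, show cfn 29 9 8 = 0 from by decide +kernel, show cfn 29 10 8 = 0 from by decide +kernel, show cfn 29 11 8 = 0 from by decide +kernel, show cfn 29 12 8 = 0 from by decide +kernel, show cfn 29 13 8 = 0 from by decide +kernel, show cfn 29 14 8 = 0 from by decide +kernel, Nat.cast_ofNat, Nat.cast_one, Nat.cast_zero]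
  ring

theorem c29_9 (γ : ℕ → ℝ) : ∑ i ∈ range (29 / 2 + 1), γ i * (cfn 29 i 9 : ℝ) =
    (5127682560) * γ 0 + (682007040) * γ 1 + (85898560) * γ 2 + (10130120) * γ 3
       + (1101450) * γ 4 + (108001) * γ 5 + (9234) * γ 6 + (651) * γ 7 + (34) * γ 8 + (1) * γ 9
       + (0) * γ 10 + (0) * γ 11 + (0) * γ 12 + (0) * γ 13 + (0) * γ 14 := by
  have h : ((29 / 2 + 1 : ℕ)) = 15 := rfl
  rw [h]
  simp only [sum_range_succ, sum_range_zero, show cfn 29 0 9 = 5127682560 from by decide +kernel, show cfn 29 1 9 = 682007040 from by decide +kernel, show cfn 29 2 9 = 85898560 from by decide +kernel, show cfn 29 3 9 = 10130120 from by decide +kernel, show cfn 29 4 9 = 1101450 from by decide +kernel, show cfn 29 5 9 = 108001 from by decide +kernel, show cfn 29 6 9 = 9234 from by decide +kernel, show cfn 29 7 9 = 651 from by decide +kernel, show cfn 29 8 9 = 34 from by decide +kernel, show cfn 29 9 9 = 1 from by decide +kernel, show cfn 29 10 9 = 0 from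 by decide +kernel, show cfn 29 11 9 = 0 from by decide +kernel, show cfn 29 12 9 = 0 from by decide +kernel, show cfn 29 13 9 = 0 from by decide +kernel, show cfn 29 14 9 = 0 from by decide +kernel, Nat.cast_ofNat, Nat.cast_one, Nat.cast_zero]
  ring

theorem c29_10 (γ : ℕ → ℝ) : ∑ i ∈ range (29 / 2 + 1), γ i * (cfn 29 i 10 : ℝ) =
    (20510730240) * γ 0 + (2967993600) * γ 1 + (411276800) * γ 2 + (54133904) * γ 3
       + (6695528) * γ 4 + (766727) * γ 5 + (79575) * γ 6 + (7245) * γ 7 + (548) * γ 8 + (31) * γ 9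
       + (1) * γ 10 + (0) * γ 11 + (0) * γ 12 + (0) * γ 13 + (0) * γ 14 := by
  have h : ((29 / 2 + 1 : ℕ)) = 15 := rfl
  rw [h]
  simp only [sum_range_succ, sum_range_zero, show cfn 29 0 10 = 20510730240 from by decide +kernel, show cfn 29 1 10 = 2967993600 from by decide +kernel, show cfn 29 2 10 = 411276800 from by decide +kernel, show cfn 29 3 10 = 54133904 from by decide +kernel, show cfn 29 4 10 = 6695528 from by decide +kernel, show cfn 29 5 10 = 766727 from by decide +kernel, show cfn 29 6 10 = 79575 from by decide +kernel, show cfn 29 7 10 = 7245 from by decide +kernel, show cfn 29 8 10 = 548 from by decide +kernel, show cfn 29 9 10 = 31 from by decide +kernel, show cfn 29 10 10 = 1 from by decide +kernel, show cfn 29 11 10 = 0 from by decide +kernel, show cfn 29 12 10 = 0 from by decide +kernel, show cfn 29 13 10 = 0 from by decide +kernel, show cfn 29 14 10 = 0 from by decide +kernel, Nat.cast_ofNat, Nat.cast_one, Nat.cast_zero]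
  ring

theorem c29_11 (γ : ℕ → ℝ) : ∑ i ∈ range (29 / 2 + 1), γ i * (cfn 29 i 11 : ℝ) =
    (70855249920) * γ 0 + (11038410240) * γ 1 + (1661299200) * γ 2 + (240119264) * γ 3
       + (33076112) * γ 4 + (4298066) * γ 5 + (519492) * γ 6 + (57225) * γ 7 + (5568) * γ 8
       + (454) * γ 9 + (28) * γ 10 + (1) * γ 11 + (0) * γ 12 + (0) * γ 13 + (0) * γ 14 := by
  have h : ((29 / 2 + 1 : ℕ)) = 15 := rfl
  rw [h]
  simp only [sum_range_succ, sum_range_zero, show cfn 29 0 11 = 70855249920 from by decide +kernel, show cfn 29 1 11 = 11038410240 from by decide +kernel, show cfn 29 2 11 = 1661299200 from by decide +kernel, show cfn 29 3 11 = 240119264 from by decide +kernel, show cfn 29 4 11 = 33076112 from by decide +kernel, show cfn 29 5 11 = 4298066 from by decide +kernel, show cfn 29 6 11 = 519492 from by decide +kernel, show cfn 29 7 11 = 57225 from by decide +kernel, show cfn 29 8 11 = 5568 from by decide +kernel, show cfn 29 9 11 = 454 from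 by decide +kernel, show cfn 29 10 11 = 28 from by decide +kernel, show cfn 29 11 11 = 1 from by decide +kernel, show cfn 29 12 11 = 0 from by decide +kernel, show cfn 29 13 11 = 0 from by decide +kernel, show cfn 29 14 11 = 0 from by decide +kernel, Nat.cast_ofNat, Nat.cast_one, Nat.cast_zero]
  ring

theorem c29_12 (γ : ℕ → ℝ) : ∑ i ∈ range (29 / 2 + 1), γ i * (cfn 29 i 12 : ℝ) =
    (212565749760) * γ 0 + (35340364800) * γ 1 + (5716099840) * γ 2 + (895563328) * γ 3
       + (135166608) * γ 4 + (19512468) * γ 5 + (2668525) * γ 6 + (341187) * γ 7 + (40006) * γ 8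
       + (4176) * γ 9 + (369) * γ 10 + (25) * γ 11 + (1) * γ 12 + (0) * γ 13 + (0) * γ 14 := by
  have h : ((29 / 2 + 1 : ℕ)) = 15 := rfl
  rw [h]
  simp only [sum_range_succ, sum_range_zero, show cfn 29 0 12 = 212565749760 from by decide +kernel, show cfn 29 1 12 = 35340364800 from by decide +kernel, show cfn 29 2 12 = 5716099840 from by decide +kernel, show cfn 29 3 12 = 895563328 from by decide +kernel, show cfn 29 4 12 = 135166608 from by decide +kernel, show cfn 29 5 12 = 19512468 from by decide +kernel, show cfn 29 6 12 = 2668525 from by decide +kernel, show cfn 29 7 12 = 341187 from by decide +kernel, show cfn 29 8 12 = 40006 from by decide +kernel, show cfn 29 9 12 = 4176 from by decide +kernel, show cfn 29 10 12 = 369 from by decide +kernel, show cfn 29 11 12 = 25 from by decide +kernel, show cfn 29 12 12 = 1 from by decide +kernel, show cfn 29 13 12 = 0 from by decide +kernel, show cfn 29 14 12 = 0 from by decide +kernel, Nat.cast_ofNat,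 Nat.cast_one, Nat.cast_zero]
  ring

theorem c29_13 (γ : ℕ → ℝ) : ∑ i ∈ range (29 / 2 + 1), γ i * (cfn 29 i 13 : ℝ) =
    (555941191680) * γ 0 + (97905899520) * γ 1 + (16869178880) * γ 2 + (2834668672) * γ 3
       + (462711712) * γ 4 + (73000584) * γ 5 + (11058466) * γ 6 + (1594369) * γ 7 + (216116) * γ 8
       + (27054) * γ 9 + (3042) * γ 10 + (293) * γ 11 + (22) * γ 12 + (1) * γ 13 + (0) * γ 14 := by
  have h : ((29 / 2 + 1 : ℕ)) = 15 := rfl
  rw [h]
  simp only [sum_range_succ, sum_range_zero, show cfn 29 0 13 = 555941191680 from by decide +kernel, show cfn 29 1 13 = 97905899520 from by decide +kernel, show cfn 29 2 13 = 16869178880 from by decide +kernel, show cfn 29 3 13 = 2834668672 from by decide +kernel, show cfn 29 4 13 = 462711712 from by decide +kernel, show cfn 29 5 13 = 73000584 from by decide +kernel, show cfn 29 6 13 = 11058466 from by decide +kernel, show cfn 29 7 13 = 1594369 from by decide +kernel, show cfn 29 8 13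 = 216116 from by decide +kernel, show cfn 29 9 13 = 27054 from by decide +kernel, show cfn 29 10 13 = 3042 from by decide +kernel, show cfn 29 11 13 = 293 from by decide +kernel, show cfn 29 12 13 = 22 from by decide +kernel, show cfn 29 13 13 = 1 from by decide +kernel, show cfn 29 14 13 = 0 from by decide +kernel, Nat.cast_ofNat, Nat.cast_one, Nat.cast_zero]
  ring

theorem c29_14 (γ : ℕ → ℝ) : ∑ i ∈ range (29 / 2 + 1), γ i * (cfn 29 i 14 : ℝ) =
    (1270722723840) * γ 0 + (235521884160) * γ 1 + (42905149440) * γ 2 + (7664350720) * γ 3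
       + (1338718720) * γ 4 + (227826112) * γ 5 + (37605088) * γ 6 + (5984767) * γ 7
       + (911068) * γ 8 + (131202) * γ 9 + (17586) * γ 10 + (2139) * γ 11 + (226) * γ 12
       + (19) * γ 13 + (1) * γ 14 := by
  have h : ((29 / 2 + 1 : ℕ)) = 15 := rfl
  rw [h]
  simp only [sum_range_succ, sum_range_zero, show cfn 29 0 14 = 1270722723840 from by decide +kernel, show cfn 29 1 14 = 235521884160 from by decide +kernel, show cfn 29 2 14 = 42905149440 from by decide +kernel, show cfn 29 3 14 = 7664350720 from by decide +kernel, show cfn 29 4 14 = 1338718720 from by decide +kernel, show cfn 29 5 14 = 227826112 from by decide +kernel, show cfn 29 6 14 = 37605088 from by decide +kernel, show cfn 29 7 14 = 5984767 from by decide +kernel, show cfn 29 8 14 = 911068 from by decide +kernel, show cfn 29 9 14 = 131202 from by decide +kernel, show cfn 29 10 14 = 17586 from by decide +kernel, show cfn 29 11 14 = 2139 from by decide +kernel, show cfn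 29 12 14 = 226 from by decide +kernel, show cfn 29 13 14 = 19 from by decide +kernel, show cfn 29 14 14 = 1 from by decide +kernel, Nat.cast_ofNat, Nat.cast_one, Nat.cast_zero]
  ring

theorem c29_15 (γ : ℕ → ℝ) : ∑ i ∈ range (29 / 2 + 1), γ i * (cfn 29 i 15 : ℝ) =
    (2541445447680) * γ 0 + (492952780800) * γ 1 + (94330470400) * γ 2 + (17778250752) * γ 3
       + (3293297664) * γ 4 + (598123648) * γ 5 + (106172480) * γ 6 + (18347010) * γ 7
       + (3070400) * γ 8 + (494160) * γ 9 + (75744) * γ 10 + (10900) * γ 11 + (1440) * γ 12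
       + (168) * γ 13 + (16) * γ 14 := by
  have h : ((29 / 2 + 1 : ℕ)) = 15 := rfl
  rw [h]
  simp only [sum_range_succ, sum_range_zero, show cfn 29 0 15 = 2541445447680 from by decide +kernel, show cfn 29 1 15 = 492952780800 from by decide +kernel, show cfn 29 2 15 = 94330470400 from by decide +kernel, show cfn 29 3 15 = 17778250752 from by decide +kernel, show cfn 29 4 15 = 3293297664 from by decide +kernel, show cfn 29 5 15 = 598123648 from by decide +kernel, show cfn 29 6 15 = 106172480 from by decide +kernel, show cfn 29 7 15 = 18347010 from by decide +kernel, show cfn 29 8 15 = 3070400 from by decide +kernel, show cfn 29 9 15 = 494160 from by decide +kernel, show cfn 29 10 15 = 75744 from by decide +kernel, show cfn 29 11 15 = 10900 from by decide +kernel, show cfn 29 12 15 = 1440 from by decide +kernel, show cfn 29 13 15 = 168 from by decide +kernel, show cfn 29 14 15 = 16 from by decide +kernel, Nat.cast_ofNat, Nat.cast_one, Nat.cast_zero]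
  ring

theorem c29_16 (γ : ℕ → ℝ) : ∑ i ∈ range (29 / 2 + 1), γ i * (cfn 29 i 16 : ℝ) =
    (4447529533440) * γ 0 + (898269511680) * γ 1 + (179532185600) * γ 2 + (35465213952) * γ 3
       + (6914535936) * γ 4 + (1328217344) * γ 5 + (250839488) * γ 6 + (46450460) * γ 7
       + (8405905) * γ 8 + (1480020) * γ 9 + (252042) * γ 10 + (41174) * γ 11 + (6375) * γ 12
       + (918) * γ 13 + (119) * γ 14 := by
  have h : ((29 / 2 + 1 : ℕ)) = 15 := rfl
  rw [h]
  simp only [sum_range_succ, sum_range_zero, show cfn 29 0 16 = 4447529533440 from by decide +kernel, show cfn 29 1 16 = 898269511680 from by decide +kernel, show cfn 29 2 16 = 179532185600 from by decide +kernel, show cfn 29 3 16 = 35465213952 from by decide +kernel, show cfn 29 4 16 = 6914535936 from by decide +kernel, show cfn 29 5 16 = 1328217344 from by decide +kernel, show cfn 29 6 16 = 250839488 from by decide +kernel, show cfn 29 7 16 = 46450460 from by decide +kernel, show cfn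 29 8 16 = 8405905 from by decide +kernel, show cfn 29 9 16 = 1480020 from by decide +kernel, show cfn 29 10 16 = 252042 from by decide +kernel, show cfn 29 11 16 = 41174 from by decide +kernel, show cfn 29 12 16 = 6375 from by decide +kernel, show cfn 29 13 16 = 918 from by decide +kernel, show cfn 29 14 16 = 119 from by decide +kernel, Nat.cast_ofNat, Nat.cast_one, Nat.cast_zero]
  ring

theorem c29_17 (γ : ℕ → ℝ) : ∑ i ∈ range (29 / 2 + 1), γ i * (cfn 29 i 17 : ℝ) =
    (6802103992320) * γ 0 + (1424085811200) * γ 1 + (295771668480) * γ 2 + (60888797184) * γ 3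
       + (12412130304) * γ 4 + (2502469632) * γ 5 + (498293120) * γ 6 + (97822088) * γ 7
       + (18892250) * γ 8 + (3579585) * γ 9 + (663036) * γ 10 + (119490) * γ 11 + (20814) * γ 12
       + (3471) * γ 13 + (546) * γ 14 := by
  have h : ((29 / 2 + 1 : ℕ)) = 15 := rfl
  rw [h]
  simp only [sum_range_succ, sum_range_zero, show cfn 29 0 17 = 6802103992320 from by decide +kernel, show cfn 29 1 17 = 1424085811200 from by decide +kernel, show cfn 29 2 17 = 295771668480 from by decide +kernel, show cfn 29 3 17 = 60888797184 from by decide +kernel, show cfn 29 4 17 = 12412130304 from by decide +kernel, show cfn 29 5 17 = 2502469632 from by decide +kernel, show cfn 29 6 17 = 498293120 from by decide +kernel, show cfn 29 7 17 = 97822088 from by decide +kernel, show cfn 29 8 17 = 18892250 from by decide +kernel, show cfn 29 9 17 = 3579585 from by decide +kernel, show cfn 29 10 17 = 663036 from by decide +kernel, show cfn 29 11 17 = 119490 from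 by decide +kernel, show cfn 29 12 17 = 20814 from by decide +kernel, show cfn 29 13 17 = 3471 from by decide +kernel, show cfn 29 14 17 = 546 from by decide +kernel, Nat.cast_ofNat, Nat.cast_one, Nat.cast_zero]
  ring

theorem c29_18 (γ : ℕ → ℝ) : ∑ i ∈ range (29 / 2 + 1), γ i * (cfn 29 i 18 : ℝ) =
    (9069471989760) * γ 0 + (1960212234240) * γ 1 + (421139906560) * γ 2 + (89887809536) * γ 3
       + (19047346176) * γ 4 + (4003918336) * γ 5 + (834156544) * γ 6 + (172042416) * γ 7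
       + (35079928) * γ 8 + (7059735) * γ 9 + (1399293) * γ 10 + (272422) * γ 11 + (51908) * γ 12
       + (9633) * γ 13 + (1729) * γ 14 := by
  have h : ((29 / 2 + 1 : ℕ)) = 15 := rfl
  rw [h]
  simp only [sum_range_succ, sum_range_zero, show cfn 29 0 18 = 9069471989760 from by decide +kernel, show cfn 29 1 18 = 1960212234240 from by decide +kernel, show cfn 29 2 18 = 421139906560 from by decide +kernel, show cfn 29 3 18 = 89887809536 from by decide +kernel, show cfn 29 4 18 = 19047346176 from by decide +kernel, show cfn 29 5 18 = 4003918336 from by decide +kernel, show cfn 29 6 18 = 834156544 from by decide +kernel, show cfn 29 7 18 = 172042416 from by decide +kernel, show cfn 29 8 18 = 35079928 from by decide +kernel, show cfn 29 9 18 = 7059735 from by decide +kernel, show cfn 29 10 18 = 1399293 from by decide +kernel, show cfn 29 11 18 = 272422 from by decide +kernel, show cfn 29 12 18 = 51908 from by decide +kernel, show cfn 29 13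 18 = 9633 from by decide +kernel, show cfn 29 14 18 = 1729 from by decide +kernel, Nat.cast_ofNat, Nat.cast_one, Nat.cast_zero]
  ring

theorem c29_19 (γ : ℕ → ℝ) : ∑ i ∈ range (29 / 2 + 1), γ i * (cfn 29 i 19 : ℝ) =
    (10501493882880) * γ 0 + (2334383800320) * γ 1 + (516651745280) * γ 2 + (113805148160) * γ 3
       + (24938700800) * γ 4 + (5433924608) * γ 5 + (1176589312) * γ 6 + (252991648) * γ 7
       + (53975792) * γ 8 + (11414898) * γ 9 + (2390004) * γ 10 + (494681) * γ 11 + (101024) * γ 12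
       + (20306) * γ 13 + (4004) * γ 14 := by
  have h : ((29 / 2 + 1 : ℕ)) = 15 := rfl
  rw [h]
  simp only [sum_range_succ, sum_range_zero, show cfn 29 0 19 = 10501493882880 from by decide +kernel, show cfn 29 1 19 = 2334383800320 from by decide +kernel, show cfn 29 2 19 = 516651745280 from by decide +kernel, show cfn 29 3 19 = 113805148160 from by decide +kernel, show cfn 29 4 19 = 24938700800 from by decide +kernel, show cfn 29 5 19 = 5433924608 from by decide +kernel, show cfn 29 6 19 = 1176589312 from by decide +kernel, show cfn 29 7 19 = 252991648 from by decide +kernel, show cfn 29 8 19 = 53975792 from by decide +kernel, show cfn 29 9 19 = 11414898 from by decide +kernel, show cfn 29 10 19 = 2390004 from by decide +kernel, show cfn 29 11 19 = 494681 from by decide +kernel, show cfn 29 12 19 = 101024 from by decide +kernel, show cfn 29 13 19 = 20306 from by decide +kernel, show cfn 29 14 19 = 4004 from by decide +kernel, Nat.cast_ofNat,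 Nat.cast_one, Nat.cast_zero]
  ring

theorem c29_20 (γ : ℕ → ℝ) : ∑ i ∈ range (29 / 2 + 1), γ i * (cfn 29 i 20 : ℝ) =
    (10501493882880) * γ 0 + (2392581734400) * γ 1 + (543429427200) * γ 2 + (123019821056) * γ 3
       + (27748769792) * γ 4 + (6234675200) * γ 5 + (1394859520) * γ 6 + (310609600) * γ 7
       + (68811184) * γ 8 + (15157188) * γ 9 + (3317445) * γ 10 + (720885) * γ 11 + (155375) * γ 12
       + (33176) * γ 13 + (7007) * γ 14 := by
  have h : ((29 / 2 + 1 : ℕ)) = 15 := rfl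
  rw [h]
  simp only [sum_range_succ, sum_range_zero, show cfn 29 0 20 = 10501493882880 from by decide +kernel, show cfn 29 1 20 = 2392581734400 from by decide +kernel, show cfn 29 2 20 = 543429427200 from by decide +kernel, show cfn 29 3 20 = 123019821056 from by decide +kernel, show cfn 29 4 20 = 27748769792 from by decide +kernel, show cfn 29 5 20 = 6234675200 from by decide +kernel, show cfn 29 6 20 = 1394859520 from by decide +kernel, show cfn 29 7 20 = 310609600 from by decide +kernel, show cfn 29 8 20 = 68811184 from by decide +kernel, show cfn 29 9 20 = 15157188 from by decide +kernel, show cfn 29 10 20 = 3317445 from by decide +kernel, show cfn 29 11 20 = 720885 from by decide +kernel, show cfn 29 12 20 = 155375 from by decide +kernel, show cfn 29 13 20 = 33176 from by decide +kernel, show cfn 29 14 20 = 7007 from by decide +kernel, Nat.cast_ofNat, Nat.cast_one, Nat.cast_zero]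
  ring

theorem c29_21 (γ : ℕ → ℝ) : ∑ i ∈ range (29 / 2 + 1), γ i * (cfn 29 i 21 : ℝ) =
    (9001280471040) * γ 0 + (2095125626880) * γ 1 + (486640844800) * γ 2 + (112781295616) * γ 3
       + (26075086848) * γ 4 + (6013071360) * γ 5 + (1382804480) * γ 6 + (317043840) * γ 7
       + (72453344) * γ 8 + (16498632) * γ 9 + (3742290) * γ 10 + (845185) * γ 11 + (189970) * γ 12
       + (42471) * γ 13 + (9438) * γ 14 := by
  have h : ((29 / 2 + 1 : ℕ)) = 15 := rfl
  rw [h]
  simp only [sum_range_succ, sum_range_zero, show cfn 29 0 21 = 9001280471040 from by decide +kernel, show cfn 29 1 21 = 2095125626880 from by decide +kernel, show cfn 29 2 21 = 486640844800 from by decide +kernel, show cfn 29 3 21 = 112781295616 from by decide +kernel, show cfn 29 4 21 = 26075086848 from by decide +kernel, show cfn 29 5 21 = 6013071360 from by decide +kernel, show cfn 29 6 21 = 1382804480 from by decide +kernel, show cfn 29 7 21 = 317043840 from by decide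 +kernel, show cfn 29 8 21 = 72453344 from by decide +kernel, show cfn 29 9 21 = 16498632 from by decide +kernel, show cfn 29 10 21 = 3742290 from by decide +kernel, show cfn 29 11 21 = 845185 from by decide +kernel, show cfn 29 12 21 = 189970 from by decide +kernel, show cfn 29 13 21 = 42471 from by decide +kernel, show cfn 29 14 21 = 9438 from by decide +kernel, Nat.cast_ofNat, Nat.cast_one, Nat.cast_zero]
  ring

theorem c29_22 (γ : ℕ → ℝ) : ∑ i ∈ range (29 / 2 + 1), γ i * (cfn 29 i 22 : ℝ) =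
    (6546385797120) * γ 0 + (1551944908800) * γ 1 + (367426273280) * γ 2 + (86865805312) * γ 3
       + (20505690112) * γ 4 + (4832870400) * γ 5 + (1137090560) * γ 6 + (267050240) * γ 7
       + (62595328) * γ 8 + (14641248) * γ 9 + (3416880) * γ 10 + (795455) * γ 11 + (184690) * γ 12
       + (42757) * γ 13 + (9867) * γ 14 := by
  have h : ((29 / 2 + 1 : ℕ)) = 15 := rfl
  rw [h]
  simp only [sum_range_succ, sum_range_zero, show cfn 29 0 22 = 6546385797120 from by decide +kernel, show cfn 29 1 22 = 1551944908800 from by decide +kernel, show cfn 29 2 22 = 367426273280 from by decide +kernel, show cfn 29 3 22 = 86865805312 from by decide +kernel, show cfn 29 4 22 = 20505690112 from by decide +kernel, show cfn 29 5 22 = 4832870400 from by decide +kernel, show cfn 29 6 22 = 1137090560 from by decide +kernel, show cfn 29 7 22 = 267050240 from by decide +kernel, show cfn 29 8 22 = 62595328 from by decide +kernel, show cfn 29 9 22 = 14641248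 from by decide +kernel, show cfn 29 10 22 = 3416880 from by decide +kernel, show cfn 29 11 22 = 795455 from by decide +kernel, show cfn 29 12 22 = 184690 from by decide +kernel, show cfn 29 13 22 = 42757 from by decide +kernel, show cfn 29 14 22 = 9867 from by decide +kernel, Nat.cast_ofNat, Nat.cast_one, Nat.cast_zero]
  ring

theorem c29_23 (γ : ℕ → ℝ) : ∑ i ∈ range (29 / 2 + 1), γ i * (cfn 29 i 23 : ℝ) =
    (3984756572160) * γ 0 + (959384125440) * γ 1 + (230802063360) * γ 2 + (55478714368) * γ 3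
       + (13323993088) * γ 4 + (3197009920) * γ 5 + (766361600) * γ 6 + (183518720) * γ 7
       + (43899392) * γ 8 + (10489152) * γ 9 + (2503200) * γ 10 + (596610) * γ 11 + (142000) * γ 12
       + (33748) * γ 13 + (8008) * γ 14 := by
  have h : ((29 / 2 + 1 : ℕ)) = 15 := rfl
  rw [h]
  simp only [sum_range_succ, sum_range_zero, show cfn 29 0 23 = 3984756572160 from by decide +kernel, show cfn 29 1 23 = 959384125440 from by decide +kernel, show cfn 29 2 23 = 230802063360 from by decide +kernel, show cfn 29 3 23 = 55478714368 from by decide +kernel, show cfn 29 4 23 = 13323993088 from by decide +kernel, show cfn 29 5 23 = 3197009920 from by decide +kernel, show cfn 29 6 23 = 766361600 from by decide +kernel, show cfn 29 7 23 = 183518720 from by decide +kernel, show cfn 29 8 23 = 43899392 from by decide +kernel, show cfn 29 9 23 = 10489152 from by decide +kernel, show cfn 29 10 23 = 2503200 from by decide +kernel, show cfn 29 11 23 = 596610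 from by decide +kernel, show cfn 29 12 23 = 142000 from by decide +kernel, show cfn 29 13 23 = 33748 from by decide +kernel, show cfn 29 14 23 = 8008 from by decide +kernel, Nat.cast_ofNat, Nat.cast_one, Nat.cast_zero]
  ring

theorem c29_24 (γ : ℕ → ℝ) : ∑ i ∈ range (29 / 2 + 1), γ i * (cfn 29 i 24 : ℝ) =
    (1992378286080) * γ 0 + (485826232320) * γ 1 + (118415687680) * γ 2 + (28850257920) * γ 3
       + (7025786880) * γ 4 + (1710161920) * γ 5 + (416071680) * γ 6 + (101176320) * γ 7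
       + (24590080) * γ 8 + (5973120) * γ 9 + (1450080) * γ 10 + (351820) * γ 11 + (85305) * γ 12
       + (20670) * γ 13 + (5005) * γ 14 := by
  have h : ((29 / 2 + 1 : ℕ)) = 15 := rfl
  rw [h]
  simp only [sum_range_succ, sum_range_zero, show cfn 29 0 24 = 1992378286080 from by decide +kernel, show cfn 29 1 24 = 485826232320 from by decide +kernel, show cfn 29 2 24 = 118415687680 from by decide +kernel, show cfn 29 3 24 = 28850257920 from by decide +kernel, show cfn 29 4 24 = 7025786880 from by decide +kernel, show cfn 29 5 24 = 1710161920 from by decide +kernel, show cfn 29 6 24 = 416071680 from by decide +kernel, show cfn 29 7 24 = 101176320 from by decide +kernel, show cfn 29 8 24 = 24590080 from by decide +kernel, show cfn 29 9 24 = 5973120 from by decide +kernel, show cfn 29 10 24 = 1450080 from by decide +kernel, show cfn 29 11 24 = 351820 from by decide +kernel, show cfn 29 12 24 = 85305 from by decide +kernel, show cfn 29 13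 24 = 20670 from by decide +kernel, show cfn 29 14 24 = 5005 from by decide +kernel, Nat.cast_ofNat, Nat.cast_one, Nat.cast_zero]
  ring

theorem c29_25 (γ : ℕ → ℝ) : ∑ i ∈ range (29 / 2 + 1), γ i * (cfn 29 i 25 : ℝ) =
    (796951314432) * γ 0 + (196293427200) * γ 1 + (48339353600) * γ 2 + (11901861888) * γ 3
       + (2929852416) * γ 4 + (721092608) * γ 5 + (177438720) * γ 6 + (43653120) * γ 7
       + (10737152) * γ 8 + (2640384) * γ 9 + (649152) * γ 10 + (159560) * γ 11 + (39210) * γ 12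
       + (9633) * γ 13 + (2366) * γ 14 := by
  have h : ((29 / 2 + 1 : ℕ)) = 15 := rfl
  rw [h]
  simp only [sum_range_succ, sum_range_zero, show cfn 29 0 25 = 796951314432 from by decide +kernel, show cfn 29 1 25 = 196293427200 from by decide +kernel, show cfn 29 2 25 = 48339353600 from by decide +kernel, show cfn 29 3 25 = 11901861888 from by decide +kernel, show cfn 29 4 25 = 2929852416 from by decide +kernel, show cfn 29 5 25 = 721092608 from by decide +kernel, show cfn 29 6 25 = 177438720 from by decide +kernel, show cfn 29 7 25 = 43653120 from by decide +kernel, show cfn 29 8 25 = 10737152 from by decide +kernel, show cfn 29 9 25 = 2640384 from by decide +kernel, show cfn 29 10 25 = 649152 from by decide +kernel, show cfn 29 11 25 = 159560 from by decide +kernel, show cfn 29 12 25 = 39210 from by decide +kernel, show cfn 29 13 25 = 9633 from by decide +kernel, show cfn 29 14 25 = 2366 from by decide +kernel, Nat.cast_ofNat, Nat.cast_one,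 Nat.cast_zero]
  ring

theorem q29_0 (γ : ℕ → ℝ) (h0 : γ 0 = 1)
    (h : ∀ n < 29, 2 * (((29 : ℕ) : ℝ) - ((n : ℕ) : ℝ)) * ∑ i ∈ range (29 / 2 + 1), γ i * (cfn 29 i n : ℝ) ≤
      ((n : ℝ) + 1) * ∑ i ∈ range (29 / 2 + 1), γ i * (cfn 29 i (n + 1) : ℝ)) :
    0 ≤ (0) * γ 0 + (1) * γ 1 + (0) * γ 2 + (0) * γ 3 + (0) * γ 4 + (0) * γ 5 + (0) * γ 6 + (0) * γ 7
       + (0) * γ 8 + (0) * γ 9 + (0) * γ 10 + (0) * γ 11 + (0) * γ 12 + (0) * γ 13 + (0) * γ 14 := by
  have h1 := h 0 (by norm_num)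
  rw [show 0 + 1 = 1 from rfl, c29_0, c29_1] at h1
  norm_num [h0] at h1 ⊢
  linarith

theorem q29_1 (γ : ℕ → ℝ) (h0 : γ 0 = 1)
    (h : ∀ n < 29, 2 * (((29 : ℕ) : ℝ) - ((n : ℕ) : ℝ)) * ∑ i ∈ range (29 / 2 + 1), γ i * (cfn 29 i n : ℝ) ≤
      ((n : ℝ) + 1) * ∑ i ∈ range (29 / 2 + 1), γ i * (cfn 29 i (n + 1) : ℝ)) :
    0 ≤ (0) * γ 0 + (54) * γ 1 + (2) * γ 2 + (0) * γ 3 + (0) * γ 4 + (0) * γ 5 + (0) * γ 6
       + (0) * γ 7 + (0) * γ 8 + (0) * γ 9 + (0) * γ 10 + (0) * γ 11 + (0) * γ 12 + (0) * γ 13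
       + (0) * γ 14 := by
  have h1 := h 1 (by norm_num)
  rw [show 1 + 1 = 2 from rfl, c29_1, c29_2] at h1
  norm_num [h0] at h1 ⊢
  linarith

theorem q29_2 (γ : ℕ → ℝ) (h0 : γ 0 = 1)
    (h : ∀ n < 29, 2 * (((29 : ℕ) : ℝ) - ((n : ℕ) : ℝ)) * ∑ i ∈ range (29 / 2 + 1), γ i * (cfn 29 i n : ℝ) ≤
      ((n : ℝ) + 1) * ∑ i ∈ range (29 / 2 + 1), γ i * (cfn 29 i (n + 1) : ℝ)) :
    0 ≤ (0) * γ 0 + (1404) * γ 1 + (102) * γ 2 + (3) * γ 3 + (0) * γ 4 + (0) * γ 5 + (0) * γ 6
       + (0) * γ 7 + (0) * γ 8 + (0) * γ 9 + (0) * γ 10 + (0) * γ 11 + (0) * γ 12 + (0) * γ 13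
       + (0) * γ 14 := by
  have h1 := h 2 (by norm_num)
  rw [show 2 + 1 = 3 from rfl, c29_2, c29_3] at h1
  norm_num [h0] at h1 ⊢
  linarith

theorem q29_3 (γ : ℕ → ℝ) (h0 : γ 0 = 1)
    (h : ∀ n < 29, 2 * (((29 : ℕ) : ℝ) - ((n : ℕ) : ℝ)) * ∑ i ∈ range (29 / 2 + 1), γ i * (cfn 29 i n : ℝ) ≤
      ((n : ℝ) + 1) * ∑ i ∈ range (29 / 2 + 1), γ i * (cfn 29 i (n + 1) : ℝ)) :
    0 ≤ (0) * γ 0 + (23400) * γ 1 + (2500) * γ 2 + (144) * γ 3 + (4) * γ 4 + (0) * γ 5 + (0) * γ 6
       + (0) * γ 7 + (0) * γ 8 + (0) * γ 9 + (0) * γ 10 + (0) * γ 11 + (0) * γ 12 + (0) * γ 13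
       + (0) * γ 14 := by
  have h1 := h 3 (by norm_num)
  rw [show 3 + 1 = 4 from rfl, c29_3, c29_4] at h1
  norm_num [h0] at h1 ⊢
  linarith

theorem q29_4 (γ : ℕ → ℝ) (h0 : γ 0 = 1)
    (h : ∀ n < 29, 2 * (((29 : ℕ) : ℝ) - ((n : ℕ) : ℝ)) * ∑ i ∈ range (29 / 2 + 1), γ i * (cfn 29 i n : ℝ) ≤
      ((n : ℝ) + 1) * ∑ i ∈ range (29 / 2 + 1), γ i * (cfn 29 i (n + 1) : ℝ)) :
    0 ≤ (0) * γ 0 + (280800) * γ 1 + (39200) * γ 2 + (3315) * γ 3 + (180) * γ 4 + (5) * γ 5
       + (0) * γ 6 + (0) * γ 7 + (0) * γ 8 + (0) * γ 9 + (0) * γ 10 + (0) * γ 11 + (0) * γ 12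
       + (0) * γ 13 + (0) * γ 14 := by
  have h1 := h 4 (by norm_num)
  rw [show 4 + 1 = 5 from rfl, c29_4, c29_5] at h1
  norm_num [h0] at h1 ⊢
  linarith

theorem q29_5 (γ : ℕ → ℝ) (h0 : γ 0 = 1)
    (h : ∀ n < 29, 2 * (((29 : ℕ) : ℝ) - ((n : ℕ) : ℝ)) * ∑ i ∈ range (29 / 2 + 1), γ i * (cfn 29 i n : ℝ) ≤
      ((n : ℝ) + 1) * ∑ i ∈ range (29 / 2 + 1), γ i * (cfn 29 i (n + 1) : ℝ)) :
    0 ≤ (0) * γ 0 + (2583360) * γ 1 + (441600) * γ 2 + (48714) * γ 3 + (3876) * γ 4 + (210) * γ 5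
       + (6) * γ 6 + (0) * γ 7 + (0) * γ 8 + (0) * γ 9 + (0) * γ 10 + (0) * γ 11 + (0) * γ 12
       + (0) * γ 13 + (0) * γ 14 := by
  have h1 := h 5 (by norm_num)
  rw [show 5 + 1 = 6 from rfl, c29_5, c29_6] at h1
  norm_num [h0] at h1 ⊢
  linarith

theorem q29_6 (γ : ℕ → ℝ) (h0 : γ 0 = 1)
    (h : ∀ n < 29, 2 * (((29 : ℕ) : ℝ) - ((n : ℕ) : ℝ)) * ∑ i ∈ range (29 / 2 + 1), γ i * (cfn 29 i n : ℝ) ≤
      ((n : ℝ) + 1) * ∑ i ∈ range (29 / 2 + 1), γ i * (cfn 29 i (n + 1) : ℝ)) :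
    0 ≤ (0) * γ 0 + (18944640) * γ 1 + (3805120) * γ 2 + (513084) * γ 3 + (53148) * γ 4
       + (4210) * γ 5 + (234) * γ 6 + (7) * γ 7 + (0) * γ 8 + (0) * γ 9 + (0) * γ 10 + (0) * γ 11
       + (0) * γ 12 + (0) * γ 13 + (0) * γ 14 := by
  have h1 := h 6 (by norm_num)
  rw [show 6 + 1 = 7 from rfl, c29_6, c29_7] at h1
  norm_num [h0] at h1 ⊢
  linarith

theorem q29_7 (γ : ℕ → ℝ) (h0 : γ 0 = 1)
    (h : ∀ n < 29, 2 * (((29 : ℕ) : ℝ) - ((n : ℕ) : ℝ)) * ∑ i ∈ range (29 / 2 + 1), γ i * (cfn 29 i n : ℝ) ≤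
      ((n : ℝ) + 1) * ∑ i ∈ range (29 / 2 + 1), γ i * (cfn 29 i (n + 1) : ℝ)) :
    0 ≤ (0) * γ 0 + (113667840) * γ 1 + (26069120) * γ 2 + (4122888) * γ 3 + (520968) * γ 4
       + (53600) * γ 5 + (4344) * γ 6 + (252) * γ 7 + (8) * γ 8 + (0) * γ 9 + (0) * γ 10
       + (0) * γ 11 + (0) * γ 12 + (0) * γ 13 + (0) * γ 14 := by
  have h1 := h 7 (by norm_num)
  rw [show 7 + 1 = 8 from rfl, c29_7, c29_8] at h1
  norm_num [h0] at h1 ⊢
  linarith

theorem q29_8 (γ : ℕ → ℝ) (h0 : γ 0 = 1)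
    (h : ∀ n < 29, 2 * (((29 : ℕ) : ℝ) - ((n : ℕ) : ℝ)) * ∑ i ∈ range (29 / 2 + 1), γ i * (cfn 29 i n : ℝ) ≤
      ((n : ℝ) + 1) * ∑ i ∈ range (29 / 2 + 1), γ i * (cfn 29 i (n + 1) : ℝ)) :
    0 ≤ (0) * γ 0 + (568339200) * γ 1 + (145728000) * γ 2 + (26267472) * γ 3 + (3884832) * γ 4
       + (486405) * γ 5 + (51060) * γ 6 + (4305) * γ 7 + (264) * γ 8 + (9) * γ 9 + (0) * γ 10
       + (0) * γ 11 + (0) * γ 12 + (0) * γ 13 + (0) * γ 14 := by
  have h1 := h 8 (by norm_num)
  rw [show 8 + 1 = 9 from rfl, c29_8, c29_9] at h1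
  norm_num [h0] at h1 ⊢
  linarith

theorem q29_9 (γ : ℕ → ℝ) (h0 : γ 0 = 1)
    (h : ∀ n < 29, 2 * (((29 : ℕ) : ℝ) - ((n : ℕ) : ℝ)) * ∑ i ∈ range (29 / 2 + 1), γ i * (cfn 29 i n : ℝ) ≤
      ((n : ℝ) + 1) * ∑ i ∈ range (29 / 2 + 1), γ i * (cfn 29 i (n + 1) : ℝ)) :
    0 ≤ (0) * γ 0 + (2399654400) * γ 1 + (676825600) * γ 2 + (136134240) * γ 3 + (22897280) * γ 4
       + (3347230) * γ 5 + (426390) * γ 6 + (46410) * γ 7 + (4120) * γ 8 + (270) * γ 9
       + (10) * γ 10 + (0) * γ 11 + (0) * γ 12 + (0) * γ 13 + (0) * γ 14 := by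
  have h1 := h 9 (by norm_num)
  rw [show 9 + 1 = 10 from rfl, c29_9, c29_10] at h1
  norm_num [h0] at h1 ⊢
  linarith

theorem q29_10 (γ : ℕ → ℝ) (h0 : γ 0 = 1)
    (h : ∀ n < 29, 2 * (((29 : ℕ) : ℝ) - ((n : ℕ) : ℝ)) * ∑ i ∈ range (29 / 2 + 1), γ i * (cfn 29 i n : ℝ) ≤
      ((n : ℝ) + 1) * ∑ i ∈ range (29 / 2 + 1), γ i * (cfn 29 i (n + 1) : ℝ)) :
    0 ≤ (0) * γ 0 + (8638755840) * γ 1 + (2645772800) * γ 2 + (584223552) * γ 3 + (109407168) * γ 4
       + (18143100) * γ 5 + (2690562) * γ 6 + (354165) * γ 7 + (40424) * γ 8 + (3816) * γ 9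
       + (270) * γ 10 + (11) * γ 11 + (0) * γ 12 + (0) * γ 13 + (0) * γ 14 := by
  have h1 := h 10 (by norm_num)
  rw [show 10 + 1 = 11 from rfl, c29_10, c29_11] at h1
  norm_num [h0] at h1 ⊢
  linarith

theorem q29_11 (γ : ℕ → ℝ) (h0 : γ 0 = 1)
    (h : ∀ n < 29, 2 * (((29 : ℕ) : ℝ) - ((n : ℕ) : ℝ)) * ∑ i ∈ range (29 / 2 + 1), γ i * (cfn 29 i n : ℝ) ≤
      ((n : ℝ) + 1) * ∑ i ∈ range (29 / 2 + 1), γ i * (cfn 29 i (n + 1) : ℝ)) :
    0 ≤ (0) * γ 0 + (26701608960) * γ 1 + (8786426880) * γ 2 + (2102466432) * γ 3 + (431259264) * γ 4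
       + (79419240) * γ 5 + (13320588) * γ 6 + (2034144) * γ 7 + (279624) * γ 8 + (33768) * γ 9
       + (3420) * γ 10 + (264) * γ 11 + (12) * γ 12 + (0) * γ 13 + (0) * γ 14 := by
  have h1 := h 11 (by norm_num)
  rw [show 11 + 1 = 12 from rfl, c29_11, c29_12] at h1
  norm_num [h0] at h1 ⊢
  linarith

theorem q29_12 (γ : ℕ → ℝ) (h0 : γ 0 = 1)
    (h : ∀ n < 29, 2 * (((29 : ℕ) : ℝ) - ((n : ℕ) : ℝ)) * ∑ i ∈ range (29 / 2 + 1), γ i * (cfn 29 i n : ℝ) ≤
      ((n : ℝ) + 1) * ∑ i ∈ range (29 / 2 + 1), γ i * (cfn 29 i (n + 1) : ℝ)) :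
    0 ≤ (0) * γ 0 + (71204290560) * γ 1 + (24951930880) * γ 2 + (6401539584) * γ 3
       + (1419587584) * γ 4 + (285583680) * γ 5 + (53030208) * γ 6 + (9126439) * γ 7
       + (1449304) * γ 8 + (209718) * γ 9 + (27000) * γ 10 + (2959) * γ 11 + (252) * γ 12
       + (13) * γ 13 + (0) * γ 14 := by
  have h1 := h 12 (by norm_num)
  rw [show 12 + 1 = 13 from rfl, c29_12, c29_13] at h1
  norm_num [h0] at h1 ⊢
  linarith

theorem q29_13 (γ : ℕ → ℝ) (h0 : γ 0 = 1)
    (h : ∀ n < 29, 2 * (((29 : ℕ) : ℝ) - ((n : ℕ) : ℝ)) * ∑ i ∈ range (29 / 2 + 1), γ i * (cfn 29 i n : ℝ) ≤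
      ((n : ℝ) + 1) * ∑ i ∈ range (29 / 2 + 1), γ i * (cfn 29 i (n + 1) : ℝ)) :
    0 ≤ (0) * γ 0 + (164317593600) * γ 1 + (60858368000) * γ 2 + (16591512576) * γ 3
       + (3935287296) * γ 4 + (853546880) * γ 5 + (172600320) * γ 6 + (32766930) * γ 7
       + (5839240) * γ 8 + (971100) * γ 9 + (148860) * γ 10 + (20570) * γ 11 + (2460) * γ 12
       + (234) * γ 13 + (14) * γ 14 := by
  have h1 := h 13 (by norm_num)
  rw [show 13 + 1 = 14 from rfl, c29_13, c29_14] at h1
  norm_num [h0] at h1 ⊢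
  linarith

theorem q29_14 (γ : ℕ → ℝ) (h0 : γ 0 = 1)
    (h : ∀ n < 29, 2 * (((29 : ℕ) : ℝ) - ((n : ℕ) : ℝ)) * ∑ i ∈ range (29 / 2 + 1), γ i * (cfn 29 i n : ℝ) ≤
      ((n : ℝ) + 1) * ∑ i ∈ range (29 / 2 + 1), γ i * (cfn 29 i (n + 1) : ℝ)) :
    0 ≤ (0) * γ 0 + (328635187200) * γ 1 + (127802572800) * γ 2 + (36743239680) * γ 3
       + (9237903360) * γ 4 + (2137071360) * γ 5 + (464434560) * γ 6 + (95662140) * γ 7
       + (18723960) * γ 8 + (3476340) * γ 9 + (608580) * γ 10 + (99330) * γ 11 + (14820) * γ 12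
       + (1950) * γ 13 + (210) * γ 14 := by
  have h1 := h 14 (by norm_num)
  rw [show 14 + 1 = 15 from rfl, c29_14, c29_15] at h1
  norm_num [h0] at h1 ⊢
  linarith

theorem q29_15 (γ : ℕ → ℝ) (h0 : γ 0 = 1)
    (h : ∀ n < 29, 2 * (((29 : ℕ) : ℝ) - ((n : ℕ) : ℝ)) * ∑ i ∈ range (29 / 2 + 1), γ i * (cfn 29 i n : ℝ) ≤
      ((n : ℝ) + 1) * ∑ i ∈ range (29 / 2 + 1), γ i * (cfn 29 i (n + 1) : ℝ)) :
    0 ≤ (0) * γ 0 + (569634324480) * γ 1 + (231261798400) * γ 2 + (69652402176) * γ 3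
       + (18420240384) * γ 4 + (4504015360) * γ 5 + (1040602368) * γ 6 + (229491080) * γ 7
       + (48523280) * γ 8 + (9843840) * γ 9 + (1911840) * γ 10 + (353584) * γ 11 + (61680) * γ 12
       + (9984) * γ 13 + (1456) * γ 14 := by
  have h1 := h 15 (by norm_num)
  rw [show 15 + 1 = 16 from rfl, c29_15, c29_16] at h1
  norm_num [h0] at h1 ⊢
  linarith

theorem q29_16 (γ : ℕ → ℝ) (h0 : γ 0 = 1)
    (h : ∀ n < 29, 2 * (((29 : ℕ) : ℝ) - ((n : ℕ) : ℝ)) * ∑ i ∈ range (29 / 2 + 1), γ i * (cfn 29 i n : ℝ) ≤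
      ((n : ℝ) + 1) * ∑ i ∈ range (29 / 2 + 1), γ i * (cfn 29 i (n + 1) : ℝ)) :
    0 ≤ (0) * γ 0 + (854451486720) * γ 1 + (360281538560) * γ 2 + (113013989376) * γ 3
       + (31228280832) * γ 4 + (8008332800) * γ 5 + (1949156352) * γ 6 + (455263536) * γ 7
       + (102614720) * γ 8 + (22372425) * γ 9 + (4718520) * γ 10 + (960806) * γ 11
       + (188088) * γ 12 + (35139) * γ 13 + (6188) * γ 14 := by
  have h1 := h 16 (by norm_num)
  rw [show 16 + 1 = 17 from rfl, c29_16, c29_17] at h1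
  norm_num [h0] at h1 ⊢
  linarith

theorem q29_17 (γ : ℕ → ℝ) (h0 : γ 0 = 1)
    (h : ∀ n < 29, 2 * (((29 : ℕ) : ℝ) - ((n : ℕ) : ℝ)) * ∑ i ∈ range (29 / 2 + 1), γ i * (cfn 29 i n : ℝ) ≤
      ((n : ℝ) + 1) * ∑ i ∈ range (29 / 2 + 1), γ i * (cfn 29 i (n + 1) : ℝ)) :
    0 ≤ (0) * γ 0 + (1105760747520) * γ 1 + (481998274560) * γ 2 + (156649439232) * γ 3
       + (44961103872) * γ 4 + (12011258880) * γ 5 + (3055782912) * γ 6 + (749033376) * γ 7
       + (178024704) * γ 8 + (41165190) * γ 9 + (9274410) * γ 10 + (2035836) * γ 11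
       + (434808) * γ 12 + (90090) * γ 13 + (18018) * γ 14 := by
  have h1 := h 17 (by norm_num)
  rw [show 17 + 1 = 18 from rfl, c29_17, c29_18] at h1
  norm_num [h0] at h1 ⊢
  linarith

theorem q29_18 (γ : ℕ → ℝ) (h0 : γ 0 = 1)
    (h : ∀ n < 29, 2 * (((29 : ℕ) : ℝ) - ((n : ℕ) : ℝ)) * ∑ i ∈ range (29 / 2 + 1), γ i * (cfn 29 i n : ℝ) ≤
      ((n : ℝ) + 1) * ∑ i ∈ range (29 / 2 + 1), γ i * (cfn 29 i (n + 1) : ℝ)) :
    0 ≤ (0) * γ 0 + (1228623052800) * γ 1 + (551305216000) * γ 2 + (184766005248) * γ 3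
       + (54793699328) * γ 4 + (15158364160) * γ 5 + (4003752960) * γ 6 + (1021908160) * γ 7
       + (253781632) * γ 8 + (61568892) * γ 9 + (14625630) * γ 10 + (3405655) * γ 11
       + (777480) * γ 12 + (173888) * γ 13 + (38038) * γ 14 := by
  have h1 := h 18 (by norm_num)
  rw [show 18 + 1 = 19 from rfl, c29_18, c29_19] at h1
  norm_num [h0] at h1 ⊢
  linarith

theorem q29_19 (γ : ℕ → ℝ) (h0 : γ 0 = 1)
    (h : ∀ n < 29, 2 * (((29 : ℕ) : ℝ) - ((n : ℕ) : ℝ)) * ∑ i ∈ range (29 / 2 + 1), γ i * (cfn 29 i n : ℝ) ≤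
      ((n : ℝ) + 1) * ∑ i ∈ range (29 / 2 + 1), γ i * (cfn 29 i (n + 1) : ℝ)) :
    0 ≤ (0) * γ 0 + (1163958681600) * γ 1 + (535553638400) * γ 2 + (184293457920) * γ 3
       + (56201379840) * γ 4 + (16015011840) * γ 5 + (4365404160) * γ 6 + (1152359040) * γ 7
       + (296707840) * γ 8 + (74845800) * γ 9 + (18548820) * γ 10 + (4524080) * γ 11
       + (1087020) * γ 12 + (257400) * γ 13 + (60060) * γ 14 := by
  have h1 := h 19 (by norm_num)
  rw [show 19 + 1 = 20 from rfl, c29_19, c29_20] at h1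
  norm_num [h0] at h1 ⊢
  linarith

theorem q29_20 (γ : ℕ → ℝ) (h0 : γ 0 = 1)
    (h : ∀ n < 29, 2 * (((29 : ℕ) : ℝ) - ((n : ℕ) : ℝ)) * ∑ i ∈ range (29 / 2 + 1), γ i * (cfn 29 i n : ℝ) ≤
      ((n : ℝ) + 1) * ∑ i ∈ range (29 / 2 + 1), γ i * (cfn 29 i (n + 1) : ℝ)) :
    0 ≤ (0) * γ 0 + (931166945280) * γ 1 + (437728051200) * γ 2 + (154050428928) * γ 3
       + (48098967552) * γ 4 + (14050344960) * γ 5 + (3931422720) * γ 6 + (1066947840) * γ 7
       + (282918912) * γ 8 + (73641888) * γ 9 + (18874080) * γ 10 + (4772955) * γ 11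
       + (1192620) * γ 12 + (294723) * γ 13 + (72072) * γ 14 := by
  have h1 := h 20 (by norm_num)
  rw [show 20 + 1 = 21 from rfl, c29_20, c29_21] at h1
  norm_num [h0] at h1 ⊢
  linarith

theorem q29_21 (γ : ℕ → ℝ) (h0 : γ 0 = 1)
    (h : ∀ n < 29, 2 * (((29 : ℕ) : ℝ) - ((n : ℕ) : ℝ)) * ∑ i ∈ range (29 / 2 + 1), γ i * (cfn 29 i n : ℝ) ≤
      ((n : ℝ) + 1) * ∑ i ∈ range (29 / 2 + 1), γ i * (cfn 29 i (n + 1) : ℝ)) :
    0 ≤ (0) * γ 0 + (620777963520) * γ 1 + (297124495360) * γ 2 + (106546987008) * γ 3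
       + (33923792896) * γ 4 + (10114007040) * γ 5 + (2891120640) * γ 6 + (802403840) * γ 7
       + (217843712) * γ 8 + (58129344) * γ 9 + (15294720) * γ 10 + (3977050) * γ 11
       + (1023660) * γ 12 + (261118) * γ 13 + (66066) * γ 14 := by
  have h1 := h 21 (by norm_num)
  rw [show 21 + 1 = 22 from rfl, c29_21, c29_22] at h1
  norm_num [h0] at h1 ⊢
  linarith

theorem q29_22 (γ : ℕ → ℝ) (h0 : γ 0 = 1)
    (h : ∀ n < 29, 2 * (((29 : ℕ) : ℝ) - ((n : ℕ) : ℝ)) * ∑ i ∈ range (29 / 2 + 1), γ i * (cfn 29 i n : ℝ) ≤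
      ((n : ℝ) + 1) * ∑ i ∈ range (29 / 2 + 1), γ i * (cfn 29 i (n + 1) : ℝ)) :
    0 ≤ (0) * γ 0 + (338606161920) * γ 1 + (164479631360) * γ 2 + (59889156096) * γ 3
       + (19372179456) * γ 4 + (5871042560) * γ 5 + (1707048960) * γ 6 + (482227200) * γ 7
       + (133351424) * γ 8 + (36273024) * γ 9 + (9737280) * γ 10 + (2585660) * γ 11
       + (680340) * γ 12 + (177606) * γ 13 + (46046) * γ 14 := by
  have h1 := h 22 (by norm_num)
  rw [show 22 + 1 = 23 from rfl, c29_22, c29_23] at h1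
  norm_num [h0] at h1 ⊢
  linarith

theorem q29_23 (γ : ℕ → ℝ) (h0 : γ 0 = 1)
    (h : ∀ n < 29, 2 * (((29 : ℕ) : ℝ) - ((n : ℕ) : ℝ)) * ∑ i ∈ range (29 / 2 + 1), γ i * (cfn 29 i n : ℝ) ≤
      ((n : ℝ) + 1) * ∑ i ∈ range (29 / 2 + 1), γ i * (cfn 29 i (n + 1) : ℝ)) :
    0 ≤ (0) * γ 0 + (147220070400) * γ 1 + (72351744000) * γ 2 + (26661617664) * γ 3
       + (8730968064) * γ 4 + (2679767040) * γ 5 + (789381120) * γ 6 + (226007040) * γ 7
       + (63369216) * γ 8 + (17485056) * γ 9 + (4763520) * γ 10 + (1284360) * γ 11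
       + (343320) * γ 12 + (91104) * γ 13 + (24024) * γ 14 := by
  have h1 := h 23 (by norm_num)
  rw [show 23 + 1 = 24 from rfl, c29_23, c29_24] at h1
  norm_num [h0] at h1 ⊢
  linarith

theorem q29_24 (γ : ℕ → ℝ) (h0 : γ 0 = 1)
    (h : ∀ n < 29, 2 * (((29 : ℕ) : ℝ) - ((n : ℕ) : ℝ)) * ∑ i ∈ range (29 / 2 + 1), γ i * (cfn 29 i n : ℝ) ≤
      ((n : ℝ) + 1) * ∑ i ∈ range (29 / 2 + 1), γ i * (cfn 29 i (n + 1) : ℝ)) :
    0 ≤ (0) * γ 0 + (49073356800) * γ 1 + (24326963200) * γ 2 + (9043968000) * γ 3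
       + (2988441600) * γ 4 + (925696000) * γ 5 + (275251200) * γ 6 + (79564800) * γ 7
       + (22528000) * γ 8 + (6278400) * γ 9 + (1728000) * γ 10 + (470800) * γ 11 + (127200) * γ 12
       + (34125) * γ 13 + (9100) * γ 14 := by
  have h1 := h 24 (by norm_num)
  rw [show 24 + 1 = 25 from rfl, c29_24, c29_25] at h1
  norm_num [h0] at h1 ⊢
  linarith

theorem m29_0 (γ : ℕ → ℝ) : Mat 29 γ 0 = (1) * γ 0 + (0) * γ 1 + (0) * γ 2 + (0) * γ 3 + (0) * γ 4 + (0) * γ 5 + (0) * γ 6 + (0) * γ 7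
       + (0) * γ 8 + (0) * γ 9 + (0) * γ 10 + (0) * γ 11 + (0) * γ 12 + (0) * γ 13 + (0) * γ 14 := by
  unfold Mat
  rw [show (29 / 2 + 1 : ℕ) = 15 from rfl]
  simp [sum_range_succ, Nat.choose]
  try ring

theorem m29_1 (γ : ℕ → ℝ) : Mat 29 γ 1 = (1624) * γ 0 + (56) * γ 1 + (1) * γ 2 + (0) * γ 3 + (0) * γ 4 + (0) * γ 5 + (0) * γ 6
       + (0) * γ 7 + (0) * γ 8 + (0) * γ 9 + (0) * γ 10 + (0) * γ 11 + (0) * γ 12 + (0) * γ 13
       + (0) * γ 14 := by
  unfold Mat
  rw [show (29 / 2 + 1 : ℕ) = 15 from rfl]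
  simp [sum_range_succ, Nat.choose]
  try ring

theorem m29_2 (γ : ℕ → ℝ) : Mat 29 γ 2 = (380016) * γ 0 + (26208) * γ 1 + (1404) * γ 2 + (52) * γ 3 + (1) * γ 4 + (0) * γ 5
       + (0) * γ 6 + (0) * γ 7 + (0) * γ 8 + (0) * γ 9 + (0) * γ 10 + (0) * γ 11 + (0) * γ 12
       + (0) * γ 13 + (0) * γ 14 := by
  unfold Mat
  rw [show (29 / 2 + 1 : ℕ) = 15 from rfl]
  simp [sum_range_succ, Nat.choose]
  try ring

theorem m29_3 (γ : ℕ → ℝ) : Mat 29 γ 3 = (30401280) * γ 0 + (3144960) * γ 1 + (280800) * γ 2 + (20800) * γ 3 + (1200) * γ 4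
       + (48) * γ 5 + (1) * γ 6 + (0) * γ 7 + (0) * γ 8 + (0) * γ 9 + (0) * γ 10 + (0) * γ 11
       + (0) * γ 12 + (0) * γ 13 + (0) * γ 14 := by
  unfold Mat
  rw [show (29 / 2 + 1 : ℕ) = 15 from rfl]
  simp [sum_range_succ, Nat.choose]
  try ring

theorem m29_4 (γ : ℕ → ℝ) : Mat 29 γ 4 = (1098789120) * γ 0 + (151557120) * γ 1 + (18944640) * γ 2 + (2104960) * γ 3 + (202400) * γ 4
       + (16192) * γ 5 + (1012) * γ 6 + (44) * γ 7 + (1) * γ 8 + (0) * γ 9 + (0) * γ 10
       + (0) * γ 11 + (0) * γ 12 + (0) * γ 13 + (0) * γ 14 := by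
  unfold Mat
  rw [show (29 / 2 + 1 : ℕ) = 15 from rfl]
  simp [sum_range_succ, Nat.choose]
  try ring

theorem m29_5 (γ : ℕ → ℝ) : Mat 29 γ 5 = (20510730240) * γ 0 + (3536332800) * γ 1 + (568339200) * γ 2 + (84198400) * γ 3
       + (11334400) * γ 4 + (1360128) * γ 5 + (141680) * γ 6 + (12320) * γ 7 + (840) * γ 8
       + (40) * γ 9 + (1) * γ 10 + (0) * γ 11 + (0) * γ 12 + (0) * γ 13 + (0) * γ 14 := by
  unfold Mat
  rw [show (29 / 2 + 1 : ℕ) = 15 from rfl]
  simp [sum_range_succ, Nat.choose]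
  try ring

theorem m29_6 (γ : ℕ → ℝ) : Mat 29 γ 6 = (212565749760) * γ 0 + (43979120640) * γ 1 + (8638755840) * γ 2 + (1599769600) * γ 3
       + (276883200) * γ 4 + (44301312) * γ 5 + (6460608) * γ 6 + (842688) * γ 7 + (95760) * γ 8
       + (9120) * γ 9 + (684) * γ 10 + (36) * γ 11 + (1) * γ 12 + (0) * γ 13 + (0) * γ 14 := by
  unfold Mat
  rw [show (29 / 2 + 1 : ℕ) = 15 from rfl]
  simp [sum_range_succ, Nat.choose]
  try ring

theorem m29_7 (γ : ℕ → ℝ) : Mat 29 γ 7 = (1270722723840) * γ 0 + (306726174720) * γ 1 + (71204290560) * γ 2 + (15823175680) * γ 3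
       + (3347210240) * γ 4 + (669442048) * γ 5 + (125520384) * γ 6 + (21829632) * γ 7
       + (3472896) * γ 8 + (496128) * γ 9 + (62016) * γ 10 + (6528) * γ 11 + (544) * γ 12
       + (32) * γ 13 + (1) * γ 14 := by
  unfold Mat
  rw [show (29 / 2 + 1 : ℕ) = 15 from rfl]
  simp [sum_range_succ, Nat.choose]
  try ring

theorem m29_8 (γ : ℕ → ℝ) : Mat 29 γ 8 = (4447529533440) * γ 0 + (1226904698880) * γ 1 + (328635187200) * γ 2 + (85201715200) * γ 3
       + (21300428800) * γ 4 + (5112102912) * γ 5 + (1171523584) * γ 6 + (254679040) * γ 7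
       + (52093440) * γ 8 + (9922560) * γ 9 + (1736448) * γ 10 + (274176) * γ 11 + (38080) * γ 12
       + (4480) * γ 13 + (420) * γ 14 := by
  unfold Mat
  rw [show (29 / 2 + 1 : ℕ) = 15 from rfl]
  simp [sum_range_succ, Nat.choose]
  try ring

theorem m29_9 (γ : ℕ → ℝ) : Mat 29 γ 9 = (9069471989760) * γ 0 + (2814663720960) * γ 1 + (854451486720) * γ 2 + (253170810880) * γ 3
       + (73030041600) * γ 4 + (20448411648) * γ 5 + (5538111488) * γ 6 + (1444724736) * γ 7
       + (361181184) * γ 8 + (85995520) * γ 9 + (19348992) * γ 10 + (4073472) * γ 11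
       + (792064) * γ 12 + (139776) * γ 13 + (21840) * γ 14 := by
  unfold Mat
  rw [show (29 / 2 + 1 : ℕ) = 15 from rfl]
  simp [sum_range_succ, Nat.choose]
  try ring

theorem m29_10 (γ : ℕ → ℝ) : Mat 29 γ 10 = (10501493882880) * γ 0 + (3621204787200) * γ 1 + (1228623052800) * γ 2 + (409541017600) * γ 3
       + (133888409600) * γ 4 + (42844291072) * γ 5 + (13388840960) * γ 6 + (4074864640) * γ 7
       + (1203937280) * γ 8 + (343982080) * γ 9 + (94595072) * γ 10 + (24893440) * γ 11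
       + (6223360) * γ 12 + (1464320) * γ 13 + (320320) * γ 14 := by
  unfold Mat
  rw [show (29 / 2 + 1 : ℕ) = 15 from rfl]
  simp [sum_range_succ, Nat.choose]
  try ring

theorem m29_11 (γ : ℕ → ℝ) : Mat 29 γ 11 = (6546385797120) * γ 0 + (2483111854080) * γ 1 + (931166945280) * γ 2 + (344876646400) * γ 3
       + (126012620800) * γ 4 + (45364543488) * γ 5 + (16066609152) * γ 6 + (5588385792) * γ 7
       + (1905131520) * γ 8 + (635043840) * γ 9 + (206389248) * γ 10 + (65175552) * γ 11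
       + (19914752) * γ 12 + (5857280) * γ 13 + (1647360) * γ 14 := by
  unfold Mat
  rw [show (29 / 2 + 1 : ℕ) = 15 from rfl]
  simp [sum_range_succ, Nat.choose]
  try ring

theorem m29_12 (γ : ℕ → ℝ) : Mat 29 γ 12 = (1992378286080) * γ 0 + (824432394240) * γ 1 + (338606161920) * γ 2 + (137950658560) * γ 3
       + (55710842880) * γ 4 + (22284337152) * γ 5 + (8820883456) * γ 6 + (3451650048) * γ 7
       + (1333592064) * γ 8 + (508035072) * γ 9 + (190513152) * γ 10 + (70189056) * γ 11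
       + (25346048) * γ 12 + (8945664) * γ 13 + (3075072) * γ 14 := by
  unfold Mat
  rw [show (29 / 2 + 1 : ℕ) = 15 from rfl]
  simp [sum_range_succ, Nat.choose]
  try ring

theorem m29_13 (γ : ℕ → ℝ) : Mat 29 γ 13 = (245215789056) * γ 0 + (109924319232) * γ 1 + (49073356800) * γ 2 + (21810380800) * γ 3
       + (9646899200) * γ 4 + (4244635648) * γ 5 + (1857028096) * γ 6 + (807403520) * γ 7
       + (348651520) * γ 8 + (149422080) * γ 9 + (63504384) * γ 10 + (26738688) * γ 11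
       + (11141120) * γ 12 + (4587520) * γ 13 + (1863680) * γ 14 := by
  unfold Mat
  rw [show (29 / 2 + 1 : ℕ) = 15 from rfl]
  simp [sum_range_succ, Nat.choose]
  try ring

theorem m29_14 (γ : ℕ → ℝ) : Mat 29 γ 14 = (7784628224) * γ 0 + (3758096384) * γ 1 + (1811939328) * γ 2 + (872415232) * γ 3
       + (419430400) * γ 4 + (201326592) * γ 5 + (96468992) * γ 6 + (46137344) * γ 7
       + (22020096) * γ 8 + (10485760) * γ 9 + (4980736) * γ 10 + (2359296) * γ 11
       + (1114112) * γ 12 + (524288) * γ 13 + (245760) * γ 14 := by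
  unfold Mat
  rw [show (29 / 2 + 1 : ℕ) = 15 from rfl]
  simp [sum_range_succ, Nat.choose]
  try ring

theorem mm29_0 (γ : ℕ → ℝ) : Mat 29 (Mat 29 γ) 0 =
      (1) * γ 0 + (0) * γ 1 + (0) * γ 2 + (0) * γ 3 + (0) * γ 4 + (0) * γ 5 + (0) * γ 6 + (0) * γ 7
       + (0) * γ 8 + (0) * γ 9 + (0) * γ 10 + (0) * γ 11 + (0) * γ 12 + (0) * γ 13 + (0) * γ 14 := by
  rw [m29_0]
  simp only [m29_0, m29_1, m29_2, m29_3, m29_4, m29_5, m29_6, m29_7, m29_8, m29_9, m29_10, m29_11, m29_12, m29_13, m29_14]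
  ring

theorem mm29_1 (γ : ℕ → ℝ) : Mat 29 (Mat 29 γ) 1 =
      (472584) * γ 0 + (29344) * γ 1 + (1460) * γ 2 + (52) * γ 3 + (1) * γ 4 + (0) * γ 5
       + (0) * γ 6 + (0) * γ 7 + (0) * γ 8 + (0) * γ 9 + (0) * γ 10 + (0) * γ 11 + (0) * γ 12
       + (0) * γ 13 + (0) * γ 14 := by
  rw [m29_1]
  simp only [m29_0, m29_1, m29_2, m29_3, m29_4, m29_5, m29_6, m29_7, m29_8, m29_9, m29_10, m29_11, m29_12, m29_13, m29_14]
  ring

theorem mm29_2 (γ : ℕ → ℝ) : Mat 29 (Mat 29 γ) 2 =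
      (3256139952) * γ 0 + (353358720) * γ 1 + (35543664) * γ 2 + (3259568) * γ 3 + (266204) * γ 4
       + (18688) * γ 5 + (1064) * γ 6 + (44) * γ 7 + (1) * γ 8 + (0) * γ 9 + (0) * γ 10
       + (0) * γ 11 + (0) * γ 12 + (0) * γ 13 + (0) * γ 14 := by
  rw [m29_2]
  simp only [m29_0, m29_1, m29_2, m29_3, m29_4, m29_5, m29_6, m29_7, m29_8, m29_9, m29_10, m29_11, m29_12, m29_13, m29_14]
  ring

theorem mm29_3 (γ : ℕ → ℝ) : Mat 29 (Mat 29 γ) 3 =
      (3259820678400) * γ 0 + (468542131200) * γ 1 + (64890633600) * γ 2 + (8614486400) * γ 3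
       + (1089055200) * γ 4 + (130016256) * γ 5 + (14496448) * γ 6 + (1486848) * γ 7
       + (137280) * γ 8 + (11040) * γ 9 + (732) * γ 10 + (36) * γ 11 + (1) * γ 12 + (0) * γ 13
       + (0) * γ 14 := by
  rw [m29_3]
  simp only [m29_0, m29_1, m29_2, m29_3, m29_4, m29_5, m29_6, m29_7, m29_8, m29_9, m29_10, m29_11, m29_12, m29_13, m29_14]
  ring

theorem mm29_4 (γ : ℕ → ℝ) : Mat 29 (Mat 29 γ) 4 =
      (901420502288640) * γ 0 + (154290191585280) * γ 1 + (25858810944000) * γ 2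
       + (4234540966400) * γ 3 + (675820739200) * γ 4 + (104801972224) * γ 5 + (15733572096) * γ 6
       + (2276374144) * γ 7 + (315613664) * γ 8 + (41629312) * γ 9 + (5173552) * γ 10
       + (597840) * γ 11 + (63028) * γ 12 + (5888) * γ 13 + (464) * γ 14 := by
  rw [m29_4]
  simp only [m29_0, m29_1, m29_2, m29_3, m29_4, m29_5, m29_6, m29_7, m29_8, m29_9, m29_10, m29_11, m29_12, m29_13, m29_14]
  ring

theorem mm29_5 (γ : ℕ → ℝ) : Mat 29 (Mat 29 γ) 5 =
      (93013639105443840) * γ 0 + (17964203933491200) * γ 1 + (3424820609203200) * γ 2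
       + (643862635904000) * γ 3 + (119225815980800) * γ 4 + (21716599422976) * γ 5
       + (3885000729600) * γ 6 + (681382840320) * γ 7 + (116916871680) * γ 8 + (19577576960) * γ 9
       + (3189477440) * γ 10 + (503665600) * γ 11 + (76736880) * γ 12 + (11212800) * γ 13
       + (1559040) * γ 14 := by
  rw [m29_5]
  simp only [m29_0, m29_1, m29_2, m29_3, m29_4, m29_5, m29_6, m29_7, m29_8, m29_9, m29_10, m29_11, m29_12, m29_13, m29_14]
  ring

theorem mm29_6 (γ : ℕ → ℝ) : Mat 29 (Mat 29 γ) 6 =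
      (4225034521907343360) * γ 0 + (892219454817730560) * γ 1 + (186836571025920000) * γ 2
       + (38776650224046080) * γ 3 + (7971520911037440) * γ 4 + (1622145119944704) * γ 5
       + (326510253737984) * γ 6 + (64953616204800) * γ 7 + (12758577230592) * γ 8
       + (2471890753536) * γ 9 + (471792119040) * γ 10 + (88582429440) * γ 11
       + (16334102720) * γ 12 + (2952130560) * γ 13 + (521721600) * γ 14 := by
  rw [m29_6]
  simp only [m29_0, m29_1, m29_2, m29_3, m29_4, m29_5, m29_6, m29_7, m29_8, m29_9, m29_10, m29_11, m29_12, m29_13, m29_14]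
  ring

theorem mm29_7 (γ : ℕ → ℝ) : Mat 29 (Mat 29 γ) 7 =
      (92978484066045526016) * γ 0 + (21040885905469472768) * γ 1 + (4734820539616002048) * γ 2
       + (1059189332777172992) * γ 3 + (235469983943311360) * γ 4 + (52004136994471936) * γ 5
       + (11405506550136832) * γ 6 + (2483035739652096) * γ 7 + (536341475885056) * γ 8
       + (114885741461504) * γ 9 + (24389785131008) * γ 10 + (5128469243904) * γ 11
       + (1067311122944) * γ 12 + (219665268736) * γ 13 + (44667535360) * γ 14 := by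
  rw [m29_7]
  simp only [m29_0, m29_1, m29_2, m29_3, m29_4, m29_5, m29_6, m29_7, m29_8, m29_9, m29_10, m29_11, m29_12, m29_13, m29_14]
  ring

theorem mm29_8 (γ : ℕ → ℝ) : Mat 29 (Mat 29 γ) 8 =
      (1045413624791359488000) * γ 0 + (250065359044985487360) * γ 1 + (59588013227637473280) * γ 2
       + (14142663546643415040) * γ 3 + (3342658225948262400) * γ 4 + (786605048969822208) * γ 5
       + (184261390553841664) * γ 6 + (42956239276539904) * γ 7 + (9963813059379200) * γ 8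
       + (2298878738104320) * γ 9 + (527437427761152) * γ 10 + (120296076681216) * γ 11
       + (27264983402496) * γ 12 + (6138528399360) * γ 13 + (1372279480320) * γ 14 := by
  rw [m29_8]
  simp only [m29_0, m29_1, m29_2, m29_3, m29_4, m29_5, m29_6, m29_7, m29_8, m29_9, m29_10, m29_11, m29_12, m29_13, m29_14]
  ring

theorem mm29_9 (γ : ℕ → ℝ) : Mat 29 (Mat 29 γ) 9 =
      (6138510164185415417856) * γ 0 + (1536928901053852680192) * γ 1
       + (383807090065826119680) * γ 2 + (95586791463645347840) * γ 3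
       + (23739033141723463680) * γ 4 + (5878412737461092352) * γ 5 + (1451234152153612288) * γ 6
       + (357141426698452992) * γ 7 + (87601069079396352) * γ 8 + (21413216072237056) * γ 9
       + (5215427430481920) * γ 10 + (1265495026139136) * γ 11 + (305854416478208) * γ 12
       + (73615228796928) * γ 13 + (17641145892864) * γ 14 := by
  rw [m29_9]
  simp only [m29_0, m29_1, m29_2, m29_3, m29_4, m29_5, m29_6, m29_7, m29_8, m29_9, m29_10, m29_11, m29_12, m29_13, m29_14]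
  ring

theorem mm29_10 (γ : ℕ → ℝ) : Mat 29 (Mat 29 γ) 10 =
      (18706233230919619051520) * γ 0 + (4866785320076281118720) * γ 1
       + (1263967554627211100160) * γ 2 + (327674397625328599040) * γ 3
       + (84788226219684659200) * γ 4 + (21897130482419630080) * γ 5 + (5643754000369582080) * γ 6
       + (1451600351415500800) * γ 7 + (372555734249308160) * γ 8 + (95403813219860480) * γ 9
       + (24374372720050176) * γ 10 + (6212336724869120) * γ 11 + (1579386358824960) * γ 12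
       + (400487402700800) * γ 13 + (101276473753600) * γ 14 := by
  rw [m29_10]
  simp only [m29_0, m29_1, m29_2, m29_3, m29_4, m29_5, m29_6, m29_7, m29_8, m29_9, m29_10, m29_11, m29_12, m29_13, m29_14]
  ring

theorem mm29_11 (γ : ℕ → ℝ) : Mat 29 (Mat 29 γ) 11 =
      (28464091029399247257600) * γ 0 + (7652464943649867694080) * γ 1
       + (2054985416220270919680) * γ 2 + (551194843804556328960) * γ 3
       + (147664305727073157120) * γ 4 + (39509737979888271360) * γ 5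
       + (10557826301039738880) * γ 6 + (2817534915992616960) * γ 7 + (750879682068480000) * γ 8
       + (199829012663500800) * γ 9 + (53102353394171904) * γ 10 + (14090125196918784) * γ 11
       + (3732840728821760) * γ 12 + (987333826445312) * γ 13 + (260713549398016) * γ 14 := by
  rw [m29_11]
  simp only [m29_0, m29_1, m29_2, m29_3, m29_4, m29_5, m29_6, m29_7, m29_8, m29_9, m29_10, m29_11, m29_12, m29_13, m29_14]
  ring

theorem mm29_12 (γ : ℕ → ℝ) : Mat 29 (Mat 29 γ) 12 =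
      (19835388002449156472832) * γ 0 + (5486540766667169857536) * γ 1
       + (1516543521475144974336) * γ 2 + (418891701742389428224) * γ 3
       + (115619526641115463680) * γ 4 + (31888550265209487360) * γ 5 + (8788277851230044160) * γ 6
       + (2420076433071144960) * γ 7 + (665887981153812480) * γ 8 + (183067028981022720) * γ 9
       + (50285825429078016) * γ 10 + (13800559195717632) * γ 11 + (3784008408498176) * γ 12
       + (1036573093134336) * γ 13 + (283679369723904) * γ 14 := by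
  rw [m29_12]
  simp only [m29_0, m29_1, m29_2, m29_3, m29_4, m29_5, m29_6, m29_7, m29_8, m29_9, m29_10, m29_11, m29_12, m29_13, m29_14]
  ring

theorem mm29_13 (γ : ℕ → ℝ) : Mat 29 (Mat 29 γ) 13 =
      (5290155679989077377024) * γ 0 + (1500253653850686226432) * γ 1
       + (425309512644534730752) * γ 2 + (120527480972860456960) * γ 3
       + (34143177300928102400) * γ 4 + (9668404516789157888) * γ 5 + (2736747519907201024) * γ 6
       + (774354030259339264) * γ 7 + (219010539517378560) * γ 8 + (61916534255124480) * γ 9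
       + (17496847757082624) * γ 10 + (4942193378721792) * γ 11 + (1395344389701632) * γ 12
       + (393767299317760) * γ 13 + (111068022046720) * γ 14 := by
  rw [m29_13]
  simp only [m29_0, m29_1, m29_2, m29_3, m29_4, m29_5, m29_6, m29_7, m29_8, m29_9, m29_10, m29_11, m29_12, m29_13, m29_14]
  ring

theorem mm29_14 (γ : ℕ → ℝ) : Mat 29 (Mat 29 γ) 14 =
      (346886787012153573376) * γ 0 + (100574643414687023104) * γ 1 + (29157080363870191616) * γ 2
       + (8451881863810646016) * γ 3 + (2449715712227278848) * γ 4 + (709953403924512768) * γ 5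
       + (205728691215400960) * γ 6 + (59608703740936192) * γ 7 + (17269238678945792) * γ 8
       + (5002467460775936) * γ 9 + (1448911126396928) * γ 10 + (419608624365568) * γ 11
       + (121504117293056) * γ 12 + (35178734944256) * γ 13 + (10183820443648) * γ 14 := by
  rw [m29_14]
  simp only [m29_0, m29_1, m29_2, m29_3, m29_4, m29_5, m29_6, m29_7, m29_8, m29_9, m29_10, m29_11, m29_12, m29_13, m29_14]
  ring

theorem p29_0 (γ : ℕ → ℝ) (h0 : γ 0 = 1)
    (h : ∀ n < 29, 2 * (((29 : ℕ) : ℝ) - ((n : ℕ) : ℝ)) * ∑ i ∈ range (29 / 2 + 1), γ i * (cfn 29 i n : ℝ) ≤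
      ((n : ℝ) + 1) * ∑ i ∈ range (29 / 2 + 1), γ i * (cfn 29 i (n + 1) : ℝ)) :
    0 < Mat 29 (Mat 29 (Mat 29 γ)) 0 := by

  rw [m29_0]
  simp only [mm29_0, mm29_1, mm29_2, mm29_3, mm29_4, mm29_5, mm29_6, mm29_7, mm29_8, mm29_9, mm29_10, mm29_11, mm29_12, mm29_13, mm29_14]
  linarith only [h0]

theorem p29_1 (γ : ℕ → ℝ) (h0 : γ 0 = 1)
    (h : ∀ n < 29, 2 * (((29 : ℕ) : ℝ) - ((n : ℕ) : ℝ)) * ∑ i ∈ range (29 / 2 + 1), γ i * (cfn 29 i n : ℝ) ≤
      ((n : ℝ) + 1) * ∑ i ∈ range (29 / 2 + 1), γ i * (cfn 29 i (n + 1) : ℝ)) :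
    0 < Mat 29 (Mat 29 (Mat 29 γ)) 1 := by
  have k0 := q29_0 γ h0 h
  have k1 := q29_1 γ h0 h
  have k4 := q29_4 γ h0 h
  have k6 := q29_6 γ h0 h
  have k2 := q29_2 γ h0 h
  have k7 := q29_7 γ h0 h
  have k5 := q29_5 γ h0 h
  have k3 := q29_3 γ h0 h
  rw [m29_1]
  simp only [mm29_0, mm29_1, mm29_2, mm29_3, mm29_4, mm29_5, mm29_6, mm29_7, mm29_8, mm29_9, mm29_10, mm29_11, mm29_12, mm29_13, mm29_14]
  linarith only [h0, k0, k1, k4, k6, k2, k7, k5, k3]

theorem p29_2 (γ : ℕ → ℝ) (h0 : γ 0 = 1)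
    (h : ∀ n < 29, 2 * (((29 : ℕ) : ℝ) - ((n : ℕ) : ℝ)) * ∑ i ∈ range (29 / 2 + 1), γ i * (cfn 29 i n : ℝ) ≤
      ((n : ℝ) + 1) * ∑ i ∈ range (29 / 2 + 1), γ i * (cfn 29 i (n + 1) : ℝ)) :
    0 < Mat 29 (Mat 29 (Mat 29 γ)) 2 := by
  have k0 := q29_0 γ h0 h
  have k2 := q29_2 γ h0 h
  have k4 := q29_4 γ h0 h
  have k1 := q29_1 γ h0 h
  have k8 := q29_8 γ h0 h
  have k3 := q29_3 γ h0 h
  have k11 := q29_11 γ h0 h
  have k5 := q29_5 γ h0 h
  have k13 := q29_13 γ h0 h
  have k7 := q29_7 γ h0 h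
  have k6 := q29_6 γ h0 h
  have k14 := q29_14 γ h0 h
  have k9 := q29_9 γ h0 h
  have k12 := q29_12 γ h0 h
  rw [m29_2]
  simp only [mm29_0, mm29_1, mm29_2, mm29_3, mm29_4, mm29_5, mm29_6, mm29_7, mm29_8, mm29_9, mm29_10, mm29_11, mm29_12, mm29_13, mm29_14]
  linarith only [h0, k0, k2, k4, k1, k8, k3, k11, k5, k13, k7, k6, k14, k9, k12]

theorem p29_3 (γ : ℕ → ℝ) (h0 : γ 0 = 1)
    (h : ∀ n < 29, 2 * (((29 : ℕ) : ℝ) - ((n : ℕ) : ℝ)) * ∑ i ∈ range (29 / 2 + 1), γ i * (cfn 29 i n : ℝ) ≤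
      ((n : ℝ) + 1) * ∑ i ∈ range (29 / 2 + 1), γ i * (cfn 29 i (n + 1) : ℝ)) :
    0 < Mat 29 (Mat 29 (Mat 29 γ)) 3 := by
  have k0 := q29_0 γ h0 h
  have k2 := q29_2 γ h0 h
  have k1 := q29_1 γ h0 h
  have k7 := q29_7 γ h0 h
  have k5 := q29_5 γ h0 h
  have k13 := q29_13 γ h0 h
  have k16 := q29_16 γ h0 h
  have k4 := q29_4 γ h0 h
  have k9 := q29_9 γ h0 h
  have k3 := q29_3 γ h0 h
  have k17 := q29_17 γ h0 h
  have k6 := q29_6 γ h0 h
  have k10 := q29_10 γ h0 h
  have k14 := q29_14 γ h0 h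
  rw [m29_3]
  simp only [mm29_0, mm29_1, mm29_2, mm29_3, mm29_4, mm29_5, mm29_6, mm29_7, mm29_8, mm29_9, mm29_10, mm29_11, mm29_12, mm29_13, mm29_14]
  linarith only [h0, k0, k2, k1, k7, k5, k13, k16, k4, k9, k3, k17, k6, k10, k14]

theorem p29_4 (γ : ℕ → ℝ) (h0 : γ 0 = 1)
    (h : ∀ n < 29, 2 * (((29 : ℕ) : ℝ) - ((n : ℕ) : ℝ)) * ∑ i ∈ range (29 / 2 + 1), γ i * (cfn 29 i n : ℝ) ≤
      ((n : ℝ) + 1) * ∑ i ∈ range (29 / 2 + 1), γ i * (cfn 29 i (n + 1) : ℝ)) :
    0 < Mat 29 (Mat 29 (Mat 29 γ)) 4 := by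
  have k0 := q29_0 γ h0 h
  have k11 := q29_11 γ h0 h
  have k1 := q29_1 γ h0 h
  have k4 := q29_4 γ h0 h
  have k3 := q29_3 γ h0 h
  have k8 := q29_8 γ h0 h
  have k17 := q29_17 γ h0 h
  have k18 := q29_18 γ h0 h
  have k2 := q29_2 γ h0 h
  have k5 := q29_5 γ h0 h
  have k10 := q29_10 γ h0 h
  have k14 := q29_14 γ h0 h
  have k7 := q29_7 γ h0 h
  have k15 := q29_15 γ h0 h
  rw [m29_4]
  simp only [mm29_0, mm29_1, mm29_2, mm29_3, mm29_4, mm29_5, mm29_6, mm29_7, mm29_8, mm29_9, mm29_10, mm29_11, mm29_12, mm29_13, mm29_14]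
  linarith only [h0, k0, k11, k1, k4, k3, k8, k17, k18, k2, k5, k10, k14, k7, k15]

theorem p29_5 (γ : ℕ → ℝ) (h0 : γ 0 = 1)
    (h : ∀ n < 29, 2 * (((29 : ℕ) : ℝ) - ((n : ℕ) : ℝ)) * ∑ i ∈ range (29 / 2 + 1), γ i * (cfn 29 i n : ℝ) ≤
      ((n : ℝ) + 1) * ∑ i ∈ range (29 / 2 + 1), γ i * (cfn 29 i (n + 1) : ℝ)) :
    0 < Mat 29 (Mat 29 (Mat 29 γ)) 5 := by
  have k0 := q29_0 γ h0 h
  have k1 := q29_1 γ h0 h
  have k2 := q29_2 γ h0 h
  have k4 := q29_4 γ h0 h
  have k19 := q29_19 γ h0 h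
  have k14 := q29_14 γ h0 h
  have k11 := q29_11 γ h0 h
  have k8 := q29_8 γ h0 h
  have k3 := q29_3 γ h0 h
  have k7 := q29_7 γ h0 h
  have k5 := q29_5 γ h0 h
  have k10 := q29_10 γ h0 h
  have k15 := q29_15 γ h0 h
  have k20 := q29_20 γ h0 h
  rw [m29_5]
  simp only [mm29_0, mm29_1, mm29_2, mm29_3, mm29_4, mm29_5, mm29_6, mm29_7, mm29_8, mm29_9, mm29_10, mm29_11, mm29_12, mm29_13, mm29_14]
  linarith only [h0, k0, k1, k2, k4, k19, k14, k11, k8, k3, k7, k5, k10, k15, k20]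

theorem p29_6 (γ : ℕ → ℝ) (h0 : γ 0 = 1)
    (h : ∀ n < 29, 2 * (((29 : ℕ) : ℝ) - ((n : ℕ) : ℝ)) * ∑ i ∈ range (29 / 2 + 1), γ i * (cfn 29 i n : ℝ) ≤
      ((n : ℝ) + 1) * ∑ i ∈ range (29 / 2 + 1), γ i * (cfn 29 i (n + 1) : ℝ)) :
    0 < Mat 29 (Mat 29 (Mat 29 γ)) 6 := by
  have k19 := q29_19 γ h0 h
  have k4 := q29_4 γ h0 h
  have k3 := q29_3 γ h0 h
  have k0 := q29_0 γ h0 h
  have k2 := q29_2 γ h0 h
  have k1 := q29_1 γ h0 h
  have k5 := q29_5 γ h0 h
  have k14 := q29_14 γ h0 h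
  have k15 := q29_15 γ h0 h
  have k11 := q29_11 γ h0 h
  have k20 := q29_20 γ h0 h
  have k10 := q29_10 γ h0 h
  have k7 := q29_7 γ h0 h
  have k8 := q29_8 γ h0 h
  rw [m29_6]
  simp only [mm29_0, mm29_1, mm29_2, mm29_3, mm29_4, mm29_5, mm29_6, mm29_7, mm29_8, mm29_9, mm29_10, mm29_11, mm29_12, mm29_13, mm29_14]
  linarith only [h0, k19, k4, k3, k0, k2, k1, k5, k14, k15, k11, k20, k10, k7, k8]

theorem p29_7 (γ : ℕ → ℝ) (h0 : γ 0 = 1)
    (h : ∀ n < 29, 2 * (((29 : ℕ) : ℝ) - ((n : ℕ) : ℝ)) * ∑ i ∈ range (29 / 2 + 1), γ i * (cfn 29 i n : ℝ) ≤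
      ((n : ℝ) + 1) * ∑ i ∈ range (29 / 2 + 1), γ i * (cfn 29 i (n + 1) : ℝ)) :
    0 < Mat 29 (Mat 29 (Mat 29 γ)) 7 := by
  have k21 := q29_21 γ h0 h
  have k4 := q29_4 γ h0 h
  have k10 := q29_10 γ h0 h
  have k0 := q29_0 γ h0 h
  have k1 := q29_1 γ h0 h
  have k14 := q29_14 γ h0 h
  have k3 := q29_3 γ h0 h
  have k20 := q29_20 γ h0 h
  have k2 := q29_2 γ h0 h
  have k11 := q29_11 γ h0 h
  have k5 := q29_5 γ h0 h
  have k15 := q29_15 γ h0 h
  have k7 := q29_7 γ h0 h
  have k8 := q29_8 γ h0 h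
  rw [m29_7]
  simp only [mm29_0, mm29_1, mm29_2, mm29_3, mm29_4, mm29_5, mm29_6, mm29_7, mm29_8, mm29_9, mm29_10, mm29_11, mm29_12, mm29_13, mm29_14]
  linarith only [h0, k21, k4, k10, k0, k1, k14, k3, k20, k2, k11, k5, k15, k7, k8]

theorem p29_8 (γ : ℕ → ℝ) (h0 : γ 0 = 1)
    (h : ∀ n < 29, 2 * (((29 : ℕ) : ℝ) - ((n : ℕ) : ℝ)) * ∑ i ∈ range (29 / 2 + 1), γ i * (cfn 29 i n : ℝ) ≤
      ((n : ℝ) + 1) * ∑ i ∈ range (29 / 2 + 1), γ i * (cfn 29 i (n + 1) : ℝ)) :
    0 < Mat 29 (Mat 29 (Mat 29 γ)) 8 := by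
  have k4 := q29_4 γ h0 h
  have k8 := q29_8 γ h0 h
  have k3 := q29_3 γ h0 h
  have k0 := q29_0 γ h0 h
  have k10 := q29_10 γ h0 h
  have k1 := q29_1 γ h0 h
  have k20 := q29_20 γ h0 h
  have k21 := q29_21 γ h0 h
  have k2 := q29_2 γ h0 h
  have k11 := q29_11 γ h0 h
  have k5 := q29_5 γ h0 h
  have k15 := q29_15 γ h0 h
  have k7 := q29_7 γ h0 h
  have k16 := q29_16 γ h0 h
  rw [m29_8]
  simp only [mm29_0, mm29_1, mm29_2, mm29_3, mm29_4, mm29_5, mm29_6, mm29_7, mm29_8, mm29_9, mm29_10, mm29_11, mm29_12, mm29_13, mm29_14]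
  linarith only [h0, k4, k8, k3, k0, k10, k1, k20, k21, k2, k11, k5, k15, k7, k16]

theorem p29_9 (γ : ℕ → ℝ) (h0 : γ 0 = 1)
    (h : ∀ n < 29, 2 * (((29 : ℕ) : ℝ) - ((n : ℕ) : ℝ)) * ∑ i ∈ range (29 / 2 + 1), γ i * (cfn 29 i n : ℝ) ≤
      ((n : ℝ) + 1) * ∑ i ∈ range (29 / 2 + 1), γ i * (cfn 29 i (n + 1) : ℝ)) :
    0 < Mat 29 (Mat 29 (Mat 29 γ)) 9 := by
  have k4 := q29_4 γ h0 h
  have k21 := q29_21 γ h0 h
  have k16 := q29_16 γ h0 h
  have k0 := q29_0 γ h0 h
  have k5 := q29_5 γ h0 h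
  have k1 := q29_1 γ h0 h
  have k3 := q29_3 γ h0 h
  have k7 := q29_7 γ h0 h
  have k2 := q29_2 γ h0 h
  have k15 := q29_15 γ h0 h
  have k22 := q29_22 γ h0 h
  have k10 := q29_10 γ h0 h
  have k11 := q29_11 γ h0 h
  have k8 := q29_8 γ h0 h
  rw [m29_9]
  simp only [mm29_0, mm29_1, mm29_2, mm29_3, mm29_4, mm29_5, mm29_6, mm29_7, mm29_8, mm29_9, mm29_10, mm29_11, mm29_12, mm29_13, mm29_14]
  linarith only [h0, k4, k21, k16, k0, k5, k1, k3, k7, k2, k15, k22, k10, k11, k8]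

theorem p29_10 (γ : ℕ → ℝ) (h0 : γ 0 = 1)
    (h : ∀ n < 29, 2 * (((29 : ℕ) : ℝ) - ((n : ℕ) : ℝ)) * ∑ i ∈ range (29 / 2 + 1), γ i * (cfn 29 i n : ℝ) ≤
      ((n : ℝ) + 1) * ∑ i ∈ range (29 / 2 + 1), γ i * (cfn 29 i (n + 1) : ℝ)) :
    0 < Mat 29 (Mat 29 (Mat 29 γ)) 10 := by
  have k3 := q29_3 γ h0 h
  have k0 := q29_0 γ h0 h
  have k4 := q29_4 γ h0 h
  have k7 := q29_7 γ h0 h
  have k2 := q29_2 γ h0 h
  have k1 := q29_1 γ h0 h
  have k16 := q29_16 γ h0 h
  have k5 := q29_5 γ h0 h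
  have k21 := q29_21 γ h0 h
  have k15 := q29_15 γ h0 h
  have k22 := q29_22 γ h0 h
  have k10 := q29_10 γ h0 h
  have k11 := q29_11 γ h0 h
  have k8 := q29_8 γ h0 h
  rw [m29_10]
  simp only [mm29_0, mm29_1, mm29_2, mm29_3, mm29_4, mm29_5, mm29_6, mm29_7, mm29_8, mm29_9, mm29_10, mm29_11, mm29_12, mm29_13, mm29_14]
  linarith only [h0, k3, k0, k4, k7, k2, k1, k16, k5, k21, k15, k22, k10, k11, k8]

theorem p29_11 (γ : ℕ → ℝ) (h0 : γ 0 = 1)
    (h : ∀ n < 29, 2 * (((29 : ℕ) : ℝ) - ((n : ℕ) : ℝ)) * ∑ i ∈ range (29 / 2 + 1), γ i * (cfn 29 i n : ℝ) ≤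
      ((n : ℝ) + 1) * ∑ i ∈ range (29 / 2 + 1), γ i * (cfn 29 i (n + 1) : ℝ)) :
    0 < Mat 29 (Mat 29 (Mat 29 γ)) 11 := by
  have k8 := q29_8 γ h0 h
  have k1 := q29_1 γ h0 h
  have k22 := q29_22 γ h0 h
  have k4 := q29_4 γ h0 h
  have k0 := q29_0 γ h0 h
  have k16 := q29_16 γ h0 h
  have k2 := q29_2 γ h0 h
  have k3 := q29_3 γ h0 h
  have k15 := q29_15 γ h0 h
  have k5 := q29_5 γ h0 h
  have k7 := q29_7 γ h0 h
  have k10 := q29_10 γ h0 h
  have k11 := q29_11 γ h0 h
  have k23 := q29_23 γ h0 h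
  rw [m29_11]
  simp only [mm29_0, mm29_1, mm29_2, mm29_3, mm29_4, mm29_5, mm29_6, mm29_7, mm29_8, mm29_9, mm29_10, mm29_11, mm29_12, mm29_13, mm29_14]
  linarith only [h0, k8, k1, k22, k4, k0, k16, k2, k3, k15, k5, k7, k10, k11, k23]

theorem p29_12 (γ : ℕ → ℝ) (h0 : γ 0 = 1)
    (h : ∀ n < 29, 2 * (((29 : ℕ) : ℝ) - ((n : ℕ) : ℝ)) * ∑ i ∈ range (29 / 2 + 1), γ i * (cfn 29 i n : ℝ) ≤
      ((n : ℝ) + 1) * ∑ i ∈ range (29 / 2 + 1), γ i * (cfn 29 i (n + 1) : ℝ)) :
    0 < Mat 29 (Mat 29 (Mat 29 γ)) 12 := by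
  have k4 := q29_4 γ h0 h
  have k15 := q29_15 γ h0 h
  have k2 := q29_2 γ h0 h
  have k16 := q29_16 γ h0 h
  have k0 := q29_0 γ h0 h
  have k1 := q29_1 γ h0 h
  have k22 := q29_22 γ h0 h
  have k10 := q29_10 γ h0 h
  have k3 := q29_3 γ h0 h
  have k5 := q29_5 γ h0 h
  have k7 := q29_7 γ h0 h
  have k23 := q29_23 γ h0 h
  have k11 := q29_11 γ h0 h
  have k8 := q29_8 γ h0 h
  rw [m29_12]
  simp only [mm29_0, mm29_1, mm29_2, mm29_3, mm29_4, mm29_5, mm29_6, mm29_7, mm29_8, mm29_9, mm29_10, mm29_11, mm29_12, mm29_13, mm29_14]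
  linarith only [h0, k4, k15, k2, k16, k0, k1, k22, k10, k3, k5, k7, k23, k11, k8]

theorem p29_13 (γ : ℕ → ℝ) (h0 : γ 0 = 1)
    (h : ∀ n < 29, 2 * (((29 : ℕ) : ℝ) - ((n : ℕ) : ℝ)) * ∑ i ∈ range (29 / 2 + 1), γ i * (cfn 29 i n : ℝ) ≤
      ((n : ℝ) + 1) * ∑ i ∈ range (29 / 2 + 1), γ i * (cfn 29 i (n + 1) : ℝ)) :
    0 < Mat 29 (Mat 29 (Mat 29 γ)) 13 := by
  have k5 := q29_5 γ h0 h
  have k3 := q29_3 γ h0 h
  have k0 := q29_0 γ h0 h
  have k15 := q29_15 γ h0 h
  have k7 := q29_7 γ h0 h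
  have k1 := q29_1 γ h0 h
  have k4 := q29_4 γ h0 h
  have k2 := q29_2 γ h0 h
  have k22 := q29_22 γ h0 h
  have k11 := q29_11 γ h0 h
  have k23 := q29_23 γ h0 h
  have k10 := q29_10 γ h0 h
  have k16 := q29_16 γ h0 h
  have k8 := q29_8 γ h0 h
  rw [m29_13]
  simp only [mm29_0, mm29_1, mm29_2, mm29_3, mm29_4, mm29_5, mm29_6, mm29_7, mm29_8, mm29_9, mm29_10, mm29_11, mm29_12, mm29_13, mm29_14]
  linarith only [h0, k5, k3, k0, k15, k7, k1, k4, k2, k22, k11, k23, k10, k16, k8]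

theorem p29_14 (γ : ℕ → ℝ) (h0 : γ 0 = 1)
    (h : ∀ n < 29, 2 * (((29 : ℕ) : ℝ) - ((n : ℕ) : ℝ)) * ∑ i ∈ range (29 / 2 + 1), γ i * (cfn 29 i n : ℝ) ≤
      ((n : ℝ) + 1) * ∑ i ∈ range (29 / 2 + 1), γ i * (cfn 29 i (n + 1) : ℝ)) :
    0 < Mat 29 (Mat 29 (Mat 29 γ)) 14 := by
  have k3 := q29_3 γ h0 h
  have k5 := q29_5 γ h0 h
  have k0 := q29_0 γ h0 h
  have k4 := q29_4 γ h0 h
  have k2 := q29_2 γ h0 h
  have k1 := q29_1 γ h0 h
  have k23 := q29_23 γ h0 h
  have k24 := q29_24 γ h0 h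
  have k7 := q29_7 γ h0 h
  have k11 := q29_11 γ h0 h
  have k15 := q29_15 γ h0 h
  have k10 := q29_10 γ h0 h
  have k16 := q29_16 γ h0 h
  have k8 := q29_8 γ h0 h
  rw [m29_14]
  simp only [mm29_0, mm29_1, mm29_2, mm29_3, mm29_4, mm29_5, mm29_6, mm29_7, mm29_8, mm29_9, mm29_10, mm29_11, mm29_12, mm29_13, mm29_14]
  linarith only [h0, k3, k5, k0, k4, k2, k1, k23, k24, k7, k11, k15, k10, k16, k8]

theorem main29 (γ : ℕ → ℝ) (h0 : γ 0 = 1)
    (h : ∀ n < 29, 2 * (((29 : ℕ) : ℝ) - ((n : ℕ) : ℝ)) * ∑ i ∈ range (29 / 2 + 1), γ i * (cfn 29 i n : ℝ) ≤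
      ((n : ℝ) + 1) * ∑ i ∈ range (29 / 2 + 1), γ i * (cfn 29 i (n + 1) : ℝ)) :
    ∀ j ≤ 29 / 2, 0 < Mat 29 (Mat 29 (Mat 29 γ)) j := by
  intro j hj
  have hj' : j ≤ 14 := hj
  clear hj
  interval_cases j
  · exact p29_0 γ h0 h
  · exact p29_1 γ h0 h
  · exact p29_2 γ h0 h
  · exact p29_3 γ h0 h
  · exact p29_4 γ h0 h
  · exact p29_5 γ h0 h
  · exact p29_6 γ h0 h
  · exact p29_7 γ h0 h
  · exact p29_8 γ h0 h
  · exact p29_9 γ h0 h
  · exact p29_10 γ h0 h
  · exact p29_11 γ h0 h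
  · exact p29_12 γ h0 h
  · exact p29_13 γ h0 h
  · exact p29_14 γ h0 h

theorem c30_0 (γ : ℕ → ℝ) : ∑ i ∈ range (30 / 2 + 1), γ i * (cfn 30 i 0 : ℝ) =
    (1) * γ 0 + (0) * γ 1 + (0) * γ 2 + (0) * γ 3 + (0) * γ 4 + (0) * γ 5 + (0) * γ 6 + (0) * γ 7
       + (0) * γ 8 + (0) * γ 9 + (0) * γ 10 + (0) * γ 11 + (0) * γ 12 + (0) * γ 13 + (0) * γ 14
       + (0) * γ 15 := by
  have h : ((30 / 2 + 1 : ℕ)) = 16 := rfl
  rw [h]
  simp only [sum_range_succ, sum_range_zero, show cfn 30 0 0 = 1 from by decide +kernel, show cfn 30 1 0 = 0 from by decide +kernel, show cfn 30 2 0 = 0 from by decide +kernel, show cfn 30 3 0 = 0 from by decide +kernel, show cfn 30 4 0 = 0 from by decide +kernel, show cfn 30 5 0 = 0 from by decide +kernel, show cfn 30 6 0 = 0 from by decide +kernel, show cfn 30 7 0 = 0 from by decide +kernel, show cfn 30 8 0 = 0 from by decide +kernel, show cfn 30 9 0 = 0 from by decide +kernel, show cfn 30 10 0 = 0 from by decide +kernel,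 show cfn 30 11 0 = 0 from by decide +kernel, show cfn 30 12 0 = 0 from by decide +kernel, show cfn 30 13 0 = 0 from by decide +kernel, show cfn 30 14 0 = 0 from by decide +kernel, show cfn 30 15 0 = 0 from by decide +kernel, Nat.cast_ofNat, Nat.cast_one, Nat.cast_zero]
  ring

theorem c30_1 (γ : ℕ → ℝ) : ∑ i ∈ range (30 / 2 + 1), γ i * (cfn 30 i 1 : ℝ) =
    (60) * γ 0 + (1) * γ 1 + (0) * γ 2 + (0) * γ 3 + (0) * γ 4 + (0) * γ 5 + (0) * γ 6
       + (0) * γ 7 + (0) * γ 8 + (0) * γ 9 + (0) * γ 10 + (0) * γ 11 + (0) * γ 12 + (0) * γ 13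
       + (0) * γ 14 + (0) * γ 15 := by
  have h : ((30 / 2 + 1 : ℕ)) = 16 := rfl
  rw [h]
  simp only [sum_range_succ, sum_range_zero, show cfn 30 0 1 = 60 from by decide +kernel, show cfn 30 1 1 = 1 from by decide +kernel, show cfn 30 2 1 = 0 from by decide +kernel, show cfn 30 3 1 = 0 from by decide +kernel, show cfn 30 4 1 = 0 from by decide +kernel, show cfn 30 5 1 = 0 from by decide +kernel, show cfn 30 6 1 = 0 from by decide +kernel, show cfn 30 7 1 = 0 from by decide +kernel, show cfn 30 8 1 = 0 from by decide +kernel, show cfn 30 9 1 = 0 from by decide +kernel, show cfn 30 10 1 = 0 from by decide +kernel, show cfn 30 11 1 = 0 from by decide +kernel, show cfn 30 12 1 = 0 from by decide +kernel, show cfn 30 13 1 = 0 from by decide +kernel, show cfn 30 14 1 = 0 from by decide +kernel, show cfn 30 15 1 = 0 from by decide +kernel, Nat.cast_ofNat, Nat.cast_one, Nat.cast_zero]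
  ring

theorem c30_2 (γ : ℕ → ℝ) : ∑ i ∈ range (30 / 2 + 1), γ i * (cfn 30 i 2 : ℝ) =
    (1740) * γ 0 + (57) * γ 1 + (1) * γ 2 + (0) * γ 3 + (0) * γ 4 + (0) * γ 5 + (0) * γ 6
       + (0) * γ 7 + (0) * γ 8 + (0) * γ 9 + (0) * γ 10 + (0) * γ 11 + (0) * γ 12 + (0) * γ 13
       + (0) * γ 14 + (0) * γ 15 := by
  have h : ((30 / 2 + 1 : ℕ)) = 16 := rfl
  rw [h]
  simp only [sum_range_succ, sum_range_zero, show cfn 30 0 2 = 1740 from by decide +kernel, show cfn 30 1 2 = 57 from by decide +kernel, show cfn 30 2 2 = 1 from by decide +kernel, show cfn 30 3 2 = 0 from by decide +kernel, show cfn 30 4 2 = 0 from by decide +kernel, show cfn 30 5 2 = 0 from by decide +kernel, show cfn 30 6 2 = 0 from by decide +kernel, show cfn 30 7 2 = 0 from by decide +kernel, show cfn 30 8 2 = 0 from by decide +kernel, show cfn 30 9 2 = 0 from by decide +kernel, show cfn 30 10 2 = 0 from by decide +kernel, show cfn 30 11 2 = 0 from by decide +kernel, show cfn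 30 12 2 = 0 from by decide +kernel, show cfn 30 13 2 = 0 from by decide +kernel, show cfn 30 14 2 = 0 from by decide +kernel, show cfn 30 15 2 = 0 from by decide +kernel, Nat.cast_ofNat, Nat.cast_one, Nat.cast_zero]
  ring

theorem c30_3 (γ : ℕ → ℝ) : ∑ i ∈ range (30 / 2 + 1), γ i * (cfn 30 i 3 : ℝ) =
    (32480) * γ 0 + (1568) * γ 1 + (54) * γ 2 + (1) * γ 3 + (0) * γ 4 + (0) * γ 5 + (0) * γ 6
       + (0) * γ 7 + (0) * γ 8 + (0) * γ 9 + (0) * γ 10 + (0) * γ 11 + (0) * γ 12 + (0) * γ 13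
       + (0) * γ 14 + (0) * γ 15 := by
  have h : ((30 / 2 + 1 : ℕ)) = 16 := rfl
  rw [h]
  simp only [sum_range_succ, sum_range_zero, show cfn 30 0 3 = 32480 from by decide +kernel, show cfn 30 1 3 = 1568 from by decide +kernel, show cfn 30 2 3 = 54 from by decide +kernel, show cfn 30 3 3 = 1 from by decide +kernel, show cfn 30 4 3 = 0 from by decide +kernel, show cfn 30 5 3 = 0 from by decide +kernel, show cfn 30 6 3 = 0 from by decide +kernel, show cfn 30 7 3 = 0 from by decide +kernel, show cfn 30 8 3 = 0 from by decide +kernel, show cfn 30 9 3 = 0 from by decide +kernel, show cfn 30 10 3 = 0 from by decide +kernel, show cfn 30 11 3 = 0 from by decide +kernel, show cfn 30 12 3 = 0 from by decide +kernel, show cfn 30 13 3 = 0 from by decide +kernel, show cfn 30 14 3 = 0 from by decide +kernel, show cfn 30 15 3 = 0 from by decide +kernel, Nat.cast_ofNat, Nat.cast_one, Nat.cast_zero]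
  ring

theorem c30_4 (γ : ℕ → ℝ) : ∑ i ∈ range (30 / 2 + 1), γ i * (cfn 30 i 4 : ℝ) =
    (438480) * γ 0 + (27720) * γ 1 + (1405) * γ 2 + (51) * γ 3 + (1) * γ 4 + (0) * γ 5
       + (0) * γ 6 + (0) * γ 7 + (0) * γ 8 + (0) * γ 9 + (0) * γ 10 + (0) * γ 11 + (0) * γ 12
       + (0) * γ 13 + (0) * γ 14 + (0) * γ 15 := by
  have h : ((30 / 2 + 1 : ℕ)) = 16 := rfl
  rw [h]
  simp only [sum_range_succ, sum_range_zero, show cfn 30 0 4 = 438480 from by decide +kernel, show cfn 30 1 4 = 27720 from by decide +kernel, show cfn 30 2 4 = 1405 from by decide +kernel, show cfn 30 3 4 = 51 from by decide +kernel, show cfn 30 4 4 = 1 from by decide +kernel, show cfn 30 5 4 = 0 from by decide +kernel, show cfn 30 6 4 = 0 from by decide +kernel, show cfn 30 7 4 = 0 from by decide +kernel, show cfn 30 8 4 = 0 from by decide +kernel, show cfn 30 9 4 = 0 from by decide +kernel, show cfn 30 10 4 = 0 from by decide +kernel, show cfn 30 11 4 = 0 from by decide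 +kernel, show cfn 30 12 4 = 0 from by decide +kernel, show cfn 30 13 4 = 0 from by decide +kernel, show cfn 30 14 4 = 0 from by decide +kernel, show cfn 30 15 4 = 0 from by decide +kernel, Nat.cast_ofNat, Nat.cast_one, Nat.cast_zero]
  ring

theorem c30_5 (γ : ℕ → ℝ) : ∑ i ∈ range (30 / 2 + 1), γ i * (cfn 30 i 5 : ℝ) =
    (4560192) * γ 0 + (353808) * γ 1 + (23452) * γ 2 + (1251) * γ 3 + (48) * γ 4 + (1) * γ 5
       + (0) * γ 6 + (0) * γ 7 + (0) * γ 8 + (0) * γ 9 + (0) * γ 10 + (0) * γ 11 + (0) * γ 12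
       + (0) * γ 13 + (0) * γ 14 + (0) * γ 15 := by
  have h : ((30 / 2 + 1 : ℕ)) = 16 := rfl
  rw [h]
  simp only [sum_range_succ, sum_range_zero, show cfn 30 0 5 = 4560192 from by decide +kernel, show cfn 30 1 5 = 353808 from by decide +kernel, show cfn 30 2 5 = 23452 from by decide +kernel, show cfn 30 3 5 = 1251 from by decide +kernel, show cfn 30 4 5 = 48 from by decide +kernel, show cfn 30 5 5 = 1 from by decide +kernel, show cfn 30 6 5 = 0 from by decide +kernel, show cfn 30 7 5 = 0 from by decide +kernel, show cfn 30 8 5 = 0 from by decide +kernel, show cfn 30 9 5 = 0 from by decide +kernel, show cfn 30 10 5 = 0 from by decide +kernel, show cfn 30 11 5 = 0 from by decide +kernel, show cfn 30 12 5 = 0 from by decide +kernel, show cfn 30 13 5 = 0 from by decide +kernel, show cfn 30 14 5 = 0 from by decide +kernel, show cfn 30 15 5 = 0 from by decide +kernel, Nat.cast_ofNat, Nat.cast_one, Nat.cast_zero]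
  ring

theorem c30_6 (γ : ℕ → ℝ) : ∑ i ∈ range (30 / 2 + 1), γ i * (cfn 30 i 6 : ℝ) =
    (38001600) * γ 0 + (3472560) * γ 1 + (282100) * γ 2 + (19649) * γ 3 + (1106) * γ 4
       + (45) * γ 5 + (1) * γ 6 + (0) * γ 7 + (0) * γ 8 + (0) * γ 9 + (0) * γ 10 + (0) * γ 11
       + (0) * γ 12 + (0) * γ 13 + (0) * γ 14 + (0) * γ 15 := by
  have h : ((30 / 2 + 1 : ℕ)) = 16 := rfl
  rw [h]
  simp only [sum_range_succ, sum_range_zero, show cfn 30 0 6 = 38001600 from by decide +kernel, show cfn 30 1 6 = 3472560 from by decide +kernel, show cfn 30 2 6 = 282100 from by decide +kernel, show cfn 30 3 6 = 19649 from by decide +kernel, show cfn 30 4 6 = 1106 from by decide +kernel, show cfn 30 5 6 = 45 from by decide +kernel, show cfn 30 6 6 = 1 from by decide +kernel, show cfn 30 7 6 = 0 from by decide +kernel, show cfn 30 8 6 = 0 from by decide +kernel, show cfn 30 9 6 = 0 from by decide +kernel, show cfn 30 10 6 = 0 from by decide +kernel, show cfn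 30 11 6 = 0 from by decide +kernel, show cfn 30 12 6 = 0 from by decide +kernel, show cfn 30 13 6 = 0 from by decide +kernel, show cfn 30 14 6 = 0 from by decide +kernel, show cfn 30 15 6 = 0 from by decide +kernel, Nat.cast_ofNat, Nat.cast_one, Nat.cast_zero]
  ring

theorem c30_7 (γ : ℕ → ℝ) : ∑ i ∈ range (30 / 2 + 1), γ i * (cfn 30 i 7 : ℝ) =
    (260582400) * γ 0 + (27256320) * γ 1 + (2604160) * γ 2 + (221952) * γ 3 + (16284) * γ 4
       + (970) * γ 5 + (42) * γ 6 + (1) * γ 7 + (0) * γ 8 + (0) * γ 9 + (0) * γ 10 + (0) * γ 11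
       + (0) * γ 12 + (0) * γ 13 + (0) * γ 14 + (0) * γ 15 := by
  have h : ((30 / 2 + 1 : ℕ)) = 16 := rfl
  rw [h]
  simp only [sum_range_succ, sum_range_zero, show cfn 30 0 7 = 260582400 from by decide +kernel, show cfn 30 1 7 = 27256320 from by decide +kernel, show cfn 30 2 7 = 2604160 from by decide +kernel, show cfn 30 3 7 = 221952 from by decide +kernel, show cfn 30 4 7 = 16284 from by decide +kernel, show cfn 30 5 7 = 970 from by decide +kernel, show cfn 30 6 7 = 42 from by decide +kernel, show cfn 30 7 7 = 1 from by decide +kernel, show cfn 30 8 7 = 0 from by decide +kernel, show cfn 30 9 7 = 0 from by decide +kernel, show cfn 30 10 7 = 0 from by decide +kernel, show cfn 30 11 7 = 0 from by decide +kernel, show cfn 30 12 7 = 0 from by decide +kernel, show cfn 30 13 7 = 0 from by decide +kernel, show cfn 30 14 7 = 0 from by decide +kernel, show cfn 30 15 7 = 0 from by decide +kernel, Nat.cast_ofNat, Nat.cast_one, Nat.cast_zero]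
  ring

theorem c30_8 (γ : ℕ → ℝ) : ∑ i ∈ range (30 / 2 + 1), γ i * (cfn 30 i 8 : ℝ) =
    (1498348800) * γ 0 + (175668480) * γ 1 + (19183840) * γ 2 + (1919856) * γ 3 + (172041) * γ 4
       + (13330) * γ 5 + (843) * γ 6 + (39) * γ 7 + (1) * γ 8 + (0) * γ 9 + (0) * γ 10 + (0) * γ 11
       + (0) * γ 12 + (0) * γ 13 + (0) * γ 14 + (0) * γ 15 := by
  have h : ((30 / 2 + 1 : ℕ)) = 16 := rfl
  rw [h]
  simp only [sum_range_succ, sum_range_zero, show cfn 30 0 8 = 1498348800 from by decide +kernel, show cfn 30 1 8 = 175668480 from by decide +kernel, show cfn 30 2 8 = 19183840 from by decide +kernel, show cfn 30 3 8 = 1919856 from by decide +kernel, show cfn 30 4 8 = 172041 from by decide +kernel, show cfn 30 5 8 = 13330 from by decide +kernel, show cfn 30 6 8 = 843 from by decide +kernel, show cfn 30 7 8 = 39 from by decide +kernel, show cfn 30 8 8 = 1 from by decide +kernel, show cfn 30 9 8 = 0 from by decide +kernel, show cfn 30 10 8 = 0 from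 by decide +kernel, show cfn 30 11 8 = 0 from by decide +kernel, show cfn 30 12 8 = 0 from by decide +kernel, show cfn 30 13 8 = 0 from by decide +kernel, show cfn 30 14 8 = 0 from by decide +kernel, show cfn 30 15 8 = 0 from by decide +kernel, Nat.cast_ofNat, Nat.cast_one, Nat.cast_zero]
  ring

theorem c30_9 (γ : ℕ → ℝ) : ∑ i ∈ range (30 / 2 + 1), γ i * (cfn 30 i 9 : ℝ) =
    (7325260800) * γ 0 + (947232000) * γ 1 + (115772800) * γ 2 + (13220768) * γ 3
       + (1388508) * γ 4 + (131125) * γ 5 + (10760) * γ 6 + (725) * γ 7 + (36) * γ 8 + (1) * γ 9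
       + (0) * γ 10 + (0) * γ 11 + (0) * γ 12 + (0) * γ 13 + (0) * γ 14 + (0) * γ 15 := by
  have h : ((30 / 2 + 1 : ℕ)) = 16 := rfl
  rw [h]
  simp only [sum_range_succ, sum_range_zero, show cfn 30 0 9 = 7325260800 from by decide +kernel, show cfn 30 1 9 = 947232000 from by decide +kernel, show cfn 30 2 9 = 115772800 from by decide +kernel, show cfn 30 3 9 = 13220768 from by decide +kernel, show cfn 30 4 9 = 1388508 from by decide +kernel, show cfn 30 5 9 = 131125 from by decide +kernel, show cfn 30 6 9 = 10760 from by decide +kernel, show cfn 30 7 9 = 725 from by decide +kernel, show cfn 30 8 9 = 36 from by decide +kernel, show cfn 30 9 9 = 1 from by decide +kernel, show cfn 30 10 9 = 0 from by decide +kernel, show cfn 30 11 9 = 0 from by decide +kernel, show cfn 30 12 9 = 0 from by decide +kernel, show cfn 30 13 9 = 0 from by decide +kernel, show cfn 30 14 9 = 0 from by decide +kernel, show cfn 30 15 9 = 0 from by decide +kernel, Nat.cast_ofNat,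 Nat.cast_one, Nat.cast_zero]
  ring

theorem c30_10 (γ : ℕ → ℝ) : ∑ i ∈ range (30 / 2 + 1), γ i * (cfn 30 i 10 : ℝ) =
    (30766095360) * γ 0 + (4332007680) * γ 1 + (583073920) * γ 2 + (74394144) * γ 3
       + (8898428) * γ 4 + (982729) * γ 5 + (98043) * γ 6 + (8547) * γ 7 + (616) * γ 8 + (33) * γ 9
       + (1) * γ 10 + (0) * γ 11 + (0) * γ 12 + (0) * γ 13 + (0) * γ 14 + (0) * γ 15 := by
  have h : ((30 / 2 + 1 : ℕ)) = 16 := rfl
  rw [h]
  simp only [sum_range_succ, sum_range_zero, show cfn 30 0 10 = 30766095360 from by decide +kernel, show cfn 30 1 10 = 4332007680 from by decide +kernel, show cfn 30 2 10 = 583073920 from by decide +kernel, show cfn 30 3 10 = 74394144 from by decide +kernel, show cfn 30 4 10 = 8898428 from by decide +kernel, show cfn 30 5 10 = 982729 from by decide +kernel, show cfn 30 6 10 = 98043 from by decide +kernel, show cfn 30 7 10 = 8547 from by decide +kernel, show cfn 30 8 10 = 616 from by decide +kernel, show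 cfn 30 9 10 = 33 from by decide +kernel, show cfn 30 10 10 = 1 from by decide +kernel, show cfn 30 11 10 = 0 from by decide +kernel, show cfn 30 12 10 = 0 from by decide +kernel, show cfn 30 13 10 = 0 from by decide +kernel, show cfn 30 14 10 = 0 from by decide +kernel, show cfn 30 15 10 = 0 from by decide +kernel, Nat.cast_ofNat, Nat.cast_one, Nat.cast_zero]
  ring

theorem c30_11 (γ : ℕ → ℝ) : ∑ i ∈ range (30 / 2 + 1), γ i * (cfn 30 i 11 : ℝ) =
    (111876710400) * γ 0 + (16974397440) * γ 1 + (2483852800) * γ 2 + (348387072) * γ 3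
       + (46467168) * γ 4 + (5831520) * γ 5 + (678642) * γ 6 + (71715) * γ 7 + (6664) * γ 8
       + (516) * γ 9 + (30) * γ 10 + (1) * γ 11 + (0) * γ 12 + (0) * γ 13 + (0) * γ 14 + (0) * γ 15 := by
  have h : ((30 / 2 + 1 : ℕ)) = 16 := rfl
  rw [h]
  simp only [sum_range_succ, sum_range_zero, show cfn 30 0 11 = 111876710400 from by decide +kernel, show cfn 30 1 11 = 16974397440 from by decide +kernel, show cfn 30 2 11 = 2483852800 from by decide +kernel, show cfn 30 3 11 = 348387072 from by decide +kernel, show cfn 30 4 11 = 46467168 from by decide +kernel, show cfn 30 5 11 = 5831520 from by decide +kernel, show cfn 30 6 11 = 678642 from by decide +kernel, show cfn 30 7 11 = 71715 from by decide +kernel, show cfn 30 8 11 = 6664 from by decide +kernel, show cfn 30 9 11 = 516 from by decide +kernel, show cfn 30 10 11 = 30 from by decide +kernel, show cfn 30 11 11 = 1 from by decide +kernel, show cfn 30 12 11 = 0 from by decide +kernel, show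 cfn 30 13 11 = 0 from by decide +kernel, show cfn 30 14 11 = 0 from by decide +kernel, show cfn 30 15 11 = 0 from by decide +kernel, Nat.cast_ofNat, Nat.cast_one, Nat.cast_zero]
  ring

theorem c30_12 (γ : ℕ → ℝ) : ∑ i ∈ range (30 / 2 + 1), γ i * (cfn 30 i 12 : ℝ) =
    (354276249600) * γ 0 + (57417185280) * γ 1 + (9038698240) * γ 2 + (1375801856) * γ 3
       + (201318832) * γ 4 + (28108600) * γ 5 + (3707509) * γ 6 + (455637) * γ 7 + (51142) * γ 8
       + (5084) * γ 9 + (425) * γ 10 + (27) * γ 11 + (1) * γ 12 + (0) * γ 13 + (0) * γ 14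
       + (0) * γ 15 := by
  have h : ((30 / 2 + 1 : ℕ)) = 16 := rfl
  rw [h]
  simp only [sum_range_succ, sum_range_zero, show cfn 30 0 12 = 354276249600 from by decide +kernel, show cfn 30 1 12 = 57417185280 from by decide +kernel, show cfn 30 2 12 = 9038698240 from by decide +kernel, show cfn 30 3 12 = 1375801856 from by decide +kernel, show cfn 30 4 12 = 201318832 from by decide +kernel, show cfn 30 5 12 = 28108600 from by decide +kernel, show cfn 30 6 12 = 3707509 from by decide +kernel, show cfn 30 7 12 = 455637 from by decide +kernel, show cfn 30 8 12 = 51142 from by decide +kernel, show cfn 30 9 12 = 5084 from by decide +kernel, show cfn 30 10 12 = 425 from by decide +kernel, show cfn 30 11 12 = 27 from by decide +kernel, show cfn 30 12 12 = 1 from by decide +kernel, show cfn 30 13 12 = 0 from by decide +kernel, show cfn 30 14 12 = 0 from by decide +kernel, show cfn 30 15 12 = 0 from by decide +kernel, Nat.cast_ofNat, Nat.cast_one,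 Nat.cast_zero]
  ring

theorem c30_13 (γ : ℕ → ℝ) : ∑ i ∈ range (30 / 2 + 1), γ i * (cfn 30 i 13 : ℝ) =
    (981072691200) * γ 0 + (168586629120) * γ 1 + (28301378560) * γ 2 + (4625795328) * γ 3
       + (733044928) * γ 4 + (112025520) * γ 5 + (16395516) * γ 6 + (2276743) * γ 7
       + (296128) * γ 8 + (35406) * γ 9 + (3780) * γ 10 + (343) * γ 11 + (24) * γ 12 + (1) * γ 13
       + (0) * γ 14 + (0) * γ 15 := by
  have h : ((30 / 2 + 1 : ℕ)) = 16 := rfl
  rw [h]
  simp only [sum_range_succ, sum_range_zero, show cfn 30 0 13 = 981072691200 from by decide +kernel, show cfn 30 1 13 = 168586629120 from by decide +kernel, show cfn 30 2 13 = 28301378560 from by decide +kernel, show cfn 30 3 13 = 4625795328 from by decide +kernel, show cfn 30 4 13 = 733044928 from by decide +kernel, show cfn 30 5 13 = 112025520 from by decide +kernel, show cfn 30 6 13 = 16395516 from by decide +kernel, show cfn 30 7 13 = 2276743 from by decide +kernel, show cfn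 30 8 13 = 296128 from by decide +kernel, show cfn 30 9 13 = 35406 from by decide +kernel, show cfn 30 10 13 = 3780 from by decide +kernel, show cfn 30 11 13 = 343 from by decide +kernel, show cfn 30 12 13 = 24 from by decide +kernel, show cfn 30 13 13 = 1 from by decide +kernel, show cfn 30 14 13 = 0 from by decide +kernel, show cfn 30 15 13 = 0 from by decide +kernel, Nat.cast_ofNat, Nat.cast_one, Nat.cast_zero]
  ring

theorem c30_14 (γ : ℕ → ℝ) : ∑ i ∈ range (30 / 2 + 1), γ i * (cfn 30 i 14 : ℝ) =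
    (2382605107200) * γ 0 + (431333683200) * γ 1 + (76643507200) * γ 2 + (13333688064) * γ 3
       + (2264142144) * γ 4 + (373827280) * γ 5 + (59722020) * γ 6 + (9173505) * γ 7
       + (1343300) * γ 8 + (185310) * γ 9 + (23670) * γ 10 + (2725) * γ 11 + (270) * γ 12
       + (21) * γ 13 + (1) * γ 14 + (0) * γ 15 := by
  have h : ((30 / 2 + 1 : ℕ)) = 16 := rfl
  rw [h]
  simp only [sum_range_succ, sum_range_zero, show cfn 30 0 14 = 2382605107200 from by decide +kernel, show cfn 30 1 14 = 431333683200 from by decide +kernel, show cfn 30 2 14 = 76643507200 from by decide +kernel, show cfn 30 3 14 = 13333688064 from by decide +kernel, show cfn 30 4 14 = 2264142144 from by decide +kernel, show cfn 30 5 14 = 373827280 from by decide +kernel, show cfn 30 6 14 = 59722020 from by decide +kernel, show cfn 30 7 14 = 9173505 from by decide +kernel, show cfn 30 8 14 = 1343300 from by decide +kernel, show cfn 30 9 14 = 185310 from by decide +kernel,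 show cfn 30 10 14 = 23670 from by decide +kernel, show cfn 30 11 14 = 2725 from by decide +kernel, show cfn 30 12 14 = 270 from by decide +kernel, show cfn 30 13 14 = 21 from by decide +kernel, show cfn 30 14 14 = 1 from by decide +kernel, show cfn 30 15 14 = 0 from by decide +kernel, Nat.cast_ofNat, Nat.cast_one, Nat.cast_zero]
  ring

theorem c30_15 (γ : ℕ → ℝ) : ∑ i ∈ range (30 / 2 + 1), γ i * (cfn 30 i 15 : ℝ) =
    (5082890895360) * γ 0 + (963996549120) * γ 1 + (180140769280) * γ 2 + (33106952192) * γ 3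
       + (5970735104) * γ 4 + (1053775872) * γ 5 + (181382656) * γ 6 + (30316544) * γ 7
       + (4892536) * γ 8 + (756564) * γ 9 + (110916) * γ 10 + (15178) * γ 11 + (1892) * γ 12
       + (206) * γ 13 + (18) * γ 14 + (1) * γ 15 := by
  have h : ((30 / 2 + 1 : ℕ)) = 16 := rfl
  rw [h]
  simp only [sum_range_succ, sum_range_zero, show cfn 30 0 15 = 5082890895360 from by decide +kernel, show cfn 30 1 15 = 963996549120 from by decide +kernel, show cfn 30 2 15 = 180140769280 from by decide +kernel, show cfn 30 3 15 = 33106952192 from by decide +kernel, show cfn 30 4 15 = 5970735104 from by decide +kernel, show cfn 30 5 15 = 1053775872 from by decide +kernel, show cfn 30 6 15 = 181382656 from by decide +kernel, show cfn 30 7 15 = 30316544 from by decide +kernel, show cfn 30 8 15 = 4892536 from by decide +kernel, show cfn 30 9 15 = 756564 from by decide +kernel, show cfn 30 10 15 = 110916 from by decide +kernel, show cfn 30 11 15 = 15178 from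 by decide +kernel, show cfn 30 12 15 = 1892 from by decide +kernel, show cfn 30 13 15 = 206 from by decide +kernel, show cfn 30 14 15 = 18 from by decide +kernel, show cfn 30 15 15 = 1 from by decide +kernel, Nat.cast_ofNat, Nat.cast_one, Nat.cast_zero]
  ring

theorem c30_16 (γ : ℕ → ℝ) : ∑ i ∈ range (30 / 2 + 1), γ i * (cfn 30 i 16 : ℝ) =
    (9530420428800) * γ 0 + (1884175073280) * γ 1 + (368193126400) * γ 2 + (71021715456) * γ 3
       + (13501131264) * γ 4 + (2524464640) * γ 5 + (463184448) * γ 6 + (83144480) * γ 7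
       + (14546705) * γ 8 + (2468340) * γ 9 + (403530) * γ 10 + (62974) * γ 11 + (9255) * γ 12
       + (1254) * γ 13 + (151) * γ 14 + (15) * γ 15 := by
  have h : ((30 / 2 + 1 : ℕ)) = 16 := rfl
  rw [h]
  simp only [sum_range_succ, sum_range_zero, show cfn 30 0 16 = 9530420428800 from by decide +kernel, show cfn 30 1 16 = 1884175073280 from by decide +kernel, show cfn 30 2 16 = 368193126400 from by decide +kernel, show cfn 30 3 16 = 71021715456 from by decide +kernel, show cfn 30 4 16 = 13501131264 from by decide +kernel, show cfn 30 5 16 = 2524464640 from by decide +kernel, show cfn 30 6 16 = 463184448 from by decide +kernel, show cfn 30 7 16 = 83144480 from by decide +kernel, show cfn 30 8 16 = 14546705 from by decide +kernel, show cfn 30 9 16 = 2468340 from by decide +kernel, show cfn 30 10 16 = 403530 from by decide +kernel, show cfn 30 11 16 = 62974 from by decide +kernel, show cfn 30 12 16 = 9255 from by decide +kernel, show cfn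 30 13 16 = 1254 from by decide +kernel, show cfn 30 14 16 = 151 from by decide +kernel, show cfn 30 15 16 = 15 from by decide +kernel, Nat.cast_ofNat, Nat.cast_one, Nat.cast_zero]
  ring

theorem c30_17 (γ : ℕ → ℝ) : ∑ i ∈ range (30 / 2 + 1), γ i * (cfn 30 i 17 : ℝ) =
    (15697163059200) * γ 0 + (3220624834560) * γ 1 + (654836039680) * γ 2 + (131819225088) * γ 3
       + (26241202176) * γ 4 + (5158904320) * γ 5 + (999972096) * γ 6 + (190723008) * γ 7
       + (35704060) * γ 8 + (6539625) * γ 9 + (1167120) * γ 10 + (201838) * γ 11 + (33564) * γ 12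
       + (5307) * γ 13 + (784) * γ 14 + (105) * γ 15 := by
  have h : ((30 / 2 + 1 : ℕ)) = 16 := rfl
  rw [h]
  simp only [sum_range_succ, sum_range_zero, show cfn 30 0 17 = 15697163059200 from by decide +kernel, show cfn 30 1 17 = 3220624834560 from by decide +kernel, show cfn 30 2 17 = 654836039680 from by decide +kernel, show cfn 30 3 17 = 131819225088 from by decide +kernel, show cfn 30 4 17 = 26241202176 from by decide +kernel, show cfn 30 5 17 = 5158904320 from by decide +kernel, show cfn 30 6 17 = 999972096 from by decide +kernel, show cfn 30 7 17 = 190723008 from by decide +kernel, show cfn 30 8 17 = 35704060 from by decide +kernel, show cfn 30 9 17 = 6539625 from by decide +kernel, show cfn 30 10 17 = 1167120 from by decide +kernel, show cfn 30 11 17 = 201838 from by decide +kernel, show cfn 30 12 17 = 33564 from by decide +kernel, show cfn 30 13 17 = 5307 from by decide +kernel, show cfn 30 14 17 = 784 from by decide +kernel,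 show cfn 30 15 17 = 105 from by decide +kernel, Nat.cast_ofNat, Nat.cast_one, Nat.cast_zero]
  ring

theorem c30_18 (γ : ℕ → ℝ) : ∑ i ∈ range (30 / 2 + 1), γ i * (cfn 30 i 18 : ℝ) =
    (22673679974400) * γ 0 + (4808383856640) * γ 1 + (1012683243520) * γ 2 + (211665403904) * γ 3
       + (43871606784) * γ 4 + (9008857600) * γ 5 + (1830742784) * γ 6 + (367686592) * γ 7
       + (72864428) * γ 8 + (14218905) * γ 9 + (2725365) * γ 10 + (511402) * γ 11 + (93536) * γ 12
       + (16575) * γ 13 + (2821) * γ 14 + (455) * γ 15 := by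
  have h : ((30 / 2 + 1 : ℕ)) = 16 := rfl
  rw [h]
  simp only [sum_range_succ, sum_range_zero, show cfn 30 0 18 = 22673679974400 from by decide +kernel, show cfn 30 1 18 = 4808383856640 from by decide +kernel, show cfn 30 2 18 = 1012683243520 from by decide +kernel, show cfn 30 3 18 = 211665403904 from by decide +kernel, show cfn 30 4 18 = 43871606784 from by decide +kernel, show cfn 30 5 18 = 9008857600 from by decide +kernel, show cfn 30 6 18 = 1830742784 from by decide +kernel, show cfn 30 7 18 = 367686592 from by decide +kernel, show cfn 30 8 18 = 72864428 from by decide +kernel, show cfn 30 9 18 = 14218905 from by decide +kernel, show cfn 30 10 18 = 2725365 from by decide +kernel, show cfn 30 11 18 = 511402 from by decide +kernel, show cfn 30 12 18 = 93536 from by decide +kernel, show cfn 30 13 18 = 16575 from by decide +kernel, show cfn 30 14 18 = 2821 from by decide +kernel, show cfn 30 15 18 = 455 from by decide +kernel, Nat.cast_ofNat,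 Nat.cast_one, Nat.cast_zero]
  ring

theorem c30_19 (γ : ℕ → ℝ) : ∑ i ∈ range (30 / 2 + 1), γ i * (cfn 30 i 19 : ℝ) =
    (28640437862400) * γ 0 + (6254808268800) * γ 1 + (1358931558400) * γ 2 + (293580767232) * γ 3
       + (63033393152) * γ 4 + (13441761280) * γ 5 + (2844902400) * γ 6 + (597076480) * γ 7
       + (124135648) * γ 8 + (25534368) * γ 9 + (5188590) * γ 10 + (1039525) * γ 11
       + (204840) * γ 12 + (39572) * γ 13 + (7462) * γ 14 + (1365) * γ 15 := by
  have h : ((30 / 2 + 1 : ℕ)) = 16 := rfl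
  rw [h]
  simp only [sum_range_succ, sum_range_zero, show cfn 30 0 19 = 28640437862400 from by decide +kernel, show cfn 30 1 19 = 6254808268800 from by decide +kernel, show cfn 30 2 19 = 1358931558400 from by decide +kernel, show cfn 30 3 19 = 293580767232 from by decide +kernel, show cfn 30 4 19 = 63033393152 from by decide +kernel, show cfn 30 5 19 = 13441761280 from by decide +kernel, show cfn 30 6 19 = 2844902400 from by decide +kernel, show cfn 30 7 19 = 597076480 from by decide +kernel, show cfn 30 8 19 = 124135648 from by decide +kernel, show cfn 30 9 19 = 25534368 from by decide +kernel, show cfn 30 10 19 = 5188590 from by decide +kernel, show cfn 30 11 19 = 1039525 from by decide +kernel, show cfn 30 12 19 = 204840 from by decide +kernel, show cfn 30 13 19 = 39572 from by decide +kernel, show cfn 30 14 19 = 7462 from by decide +kernel, show cfn 30 15 19 = 1365 from by decide +kernel, Nat.cast_ofNat, Nat.cast_one, Nat.cast_zero]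
  ring

theorem c30_20 (γ : ℕ → ℝ) : ∑ i ∈ range (30 / 2 + 1), γ i * (cfn 30 i 20 : ℝ) =
    (31504481648640) * γ 0 + (7061349335040) * γ 1 + (1576732917760) * γ 2 + (350630117376) * γ 3
       + (77626171392) * γ 4 + (17102524416) * γ 5 + (3748038144) * γ 6 + (816592896) * γ 7
       + (176762768) * γ 8 + (37986984) * γ 9 + (8097453) * γ 10 + (1710247) * γ 11
       + (357423) * γ 12 + (73788) * γ 13 + (15015) * γ 14 + (3003) * γ 15 := by
  have h : ((30 / 2 + 1 : ℕ)) = 16 := rfl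
  rw [h]
  simp only [sum_range_succ, sum_range_zero, show cfn 30 0 20 = 31504481648640 from by decide +kernel, show cfn 30 1 20 = 7061349335040 from by decide +kernel, show cfn 30 2 20 = 1576732917760 from by decide +kernel, show cfn 30 3 20 = 350630117376 from by decide +kernel, show cfn 30 4 20 = 77626171392 from by decide +kernel, show cfn 30 5 20 = 17102524416 from by decide +kernel, show cfn 30 6 20 = 3748038144 from by decide +kernel, show cfn 30 7 20 = 816592896 from by decide +kernel, show cfn 30 8 20 = 176762768 from by decide +kernel, show cfn 30 9 20 = 37986984 from by decide +kernel, show cfn 30 10 20 = 8097453 from by decide +kernel, show cfn 30 11 20 = 1710247 from by decide +kernel, show cfn 30 12 20 = 357423 from by decide +kernel, show cfn 30 13 20 = 73788 from by decide +kernel, show cfn 30 14 20 = 15015 from by decide +kernel, show cfn 30 15 20 = 3003 from by decide +kernel, Nat.cast_ofNat, Nat.cast_one, Nat.cast_zero]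
  ring

theorem c30_21 (γ : ℕ → ℝ) : ∑ i ∈ range (30 / 2 + 1), γ i * (cfn 30 i 21 : ℝ) =
    (30004268236800) * γ 0 + (6880289095680) * γ 1 + (1573499699200) * γ 2 + (358820937728) * γ 3
       + (81572626432) * γ 4 + (18482421760) * γ 5 + (4172523520) * γ 6 + (938263040) * γ 7
       + (210075712) * γ 8 + (46813008) * γ 9 + (10377180) * γ 10 + (2286955) * γ 11
       + (500720) * γ 12 + (108823) * γ 13 + (23452) * γ 14 + (5005) * γ 15 := by
  have h : ((30 / 2 + 1 : ℕ)) = 16 := rfl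
  rw [h]
  simp only [sum_range_succ, sum_range_zero, show cfn 30 0 21 = 30004268236800 from by decide +kernel, show cfn 30 1 21 = 6880289095680 from by decide +kernel, show cfn 30 2 21 = 1573499699200 from by decide +kernel, show cfn 30 3 21 = 358820937728 from by decide +kernel, show cfn 30 4 21 = 81572626432 from by decide +kernel, show cfn 30 5 21 = 18482421760 from by decide +kernel, show cfn 30 6 21 = 4172523520 from by decide +kernel, show cfn 30 7 21 = 938263040 from by decide +kernel, show cfn 30 8 21 = 210075712 from by decide +kernel, show cfn 30 9 21 = 46813008 from by decide +kernel, show cfn 30 10 21 = 10377180 from by decide +kernel, show cfn 30 11 21 = 2286955 from by decide +kernel, show cfn 30 12 21 = 500720 from by decide +kernel, show cfn 30 13 21 = 108823 from by decide +kernel, show cfn 30 14 21 = 23452 from by decide +kernel, show cfn 30 15 21 = 5005 from by decide +kernel, Nat.cast_ofNat, Nat.cast_one, Nat.cast_zero]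
  ring

theorem c30_22 (γ : ℕ → ℝ) : ∑ i ∈ range (30 / 2 + 1), γ i * (cfn 30 i 22 : ℝ) =
    (24548946739200) * γ 0 + (5742196162560) * γ 1 + (1340707962880) * γ 2 + (312428396544) * γ 3
       + (72655863808) * γ 4 + (16859013120) * γ 5 + (3902699520) * γ 6 + (901137920) * γ 7
       + (207502016) * γ 8 + (47638512) * γ 9 + (10901460) * γ 10 + (2485825) * γ 11
       + (564630) * γ 12 + (127699) * γ 13 + (28743) * γ 14 + (6435) * γ 15 := by
  have h : ((30 / 2 + 1 : ℕ)) = 16 := rfl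
  rw [h]
  simp only [sum_range_succ, sum_range_zero, show cfn 30 0 22 = 24548946739200 from by decide +kernel, show cfn 30 1 22 = 5742196162560 from by decide +kernel, show cfn 30 2 22 = 1340707962880 from by decide +kernel, show cfn 30 3 22 = 312428396544 from by decide +kernel, show cfn 30 4 22 = 72655863808 from by decide +kernel, show cfn 30 5 22 = 16859013120 from by decide +kernel, show cfn 30 6 22 = 3902699520 from by decide +kernel, show cfn 30 7 22 = 901137920 from by decide +kernel, show cfn 30 8 22 = 207502016 from by decide +kernel, show cfn 30 9 22 = 47638512 from by decide +kernel, show cfn 30 10 22 = 10901460 from by decide +kernel, show cfn 30 11 22 = 2485825 from by decide +kernel, show cfn 30 12 22 = 564630 from by decide +kernel, show cfn 30 13 22 = 127699 from by decide +kernel, show cfn 30 14 22 = 28743 from by decide +kernel, show cfn 30 15 22 = 6435 from by decide +kernel, Nat.cast_ofNat, Nat.cast_one, Nat.cast_zero]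
  ring

theorem c30_23 (γ : ℕ → ℝ) : ∑ i ∈ range (30 / 2 + 1), γ i * (cfn 30 i 23 : ℝ) =
    (17077528166400) * γ 0 + (4063273943040) * γ 1 + (965654609920) * γ 2 + (229210324992) * γ 3
       + (54335373312) * γ 4 + (12862750720) * γ 5 + (3040542720) * γ 6 + (717619200) * γ 7
       + (169090048) * γ 8 + (39771648) * γ 9 + (9336960) * γ 10 + (2187520) * γ 11
       + (511380) * γ 12 + (119262) * γ 13 + (27742) * γ 14 + (6435) * γ 15 := by
  have h : ((30 / 2 + 1 : ℕ)) = 16 := rfl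
  rw [h]
  simp only [sum_range_succ, sum_range_zero, show cfn 30 0 23 = 17077528166400 from by decide +kernel, show cfn 30 1 23 = 4063273943040 from by decide +kernel, show cfn 30 2 23 = 965654609920 from by decide +kernel, show cfn 30 3 23 = 229210324992 from by decide +kernel, show cfn 30 4 23 = 54335373312 from by decide +kernel, show cfn 30 5 23 = 12862750720 from by decide +kernel, show cfn 30 6 23 = 3040542720 from by decide +kernel, show cfn 30 7 23 = 717619200 from by decide +kernel, show cfn 30 8 23 = 169090048 from by decide +kernel, show cfn 30 9 23 = 39771648 from by decide +kernel, show cfn 30 10 23 = 9336960 from by decide +kernel, show cfn 30 11 23 = 2187520 from by decide +kernel, show cfn 30 12 23 = 511380 from by decide +kernel, show cfn 30 13 23 = 119262 from by decide +kernel, show cfn 30 14 23 = 27742 from by decide +kernel, show cfn 30 15 23 = 6435 from by decide +kernel, Nat.cast_ofNat, Nat.cast_one, Nat.cast_zero]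
  ring

theorem c30_24 (γ : ℕ → ℝ) : ∑ i ∈ range (30 / 2 + 1), γ i * (cfn 30 i 24 : ℝ) =
    (9961891430400) * γ 0 + (2404594483200) * γ 1 + (580019814400) * γ 2 + (139807686656) * γ 3
       + (33673773056) * γ 4 + (8104181760) * γ 5 + (1948794880) * γ 6 + (468213760) * γ 7
       + (112388864) * γ 8 + (26951424) * γ 9 + (6456480) * γ 10 + (1545040) * γ 11
       + (369305) * γ 12 + (88166) * γ 13 + (21021) * γ 14 + (5005) * γ 15 := by
  have h : ((30 / 2 + 1 : ℕ)) = 16 := rfl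
  rw [h]
  simp only [sum_range_succ, sum_range_zero, show cfn 30 0 24 = 9961891430400 from by decide +kernel, show cfn 30 1 24 = 2404594483200 from by decide +kernel, show cfn 30 2 24 = 580019814400 from by decide +kernel, show cfn 30 3 24 = 139807686656 from by decide +kernel, show cfn 30 4 24 = 33673773056 from by decide +kernel, show cfn 30 5 24 = 8104181760 from by decide +kernel, show cfn 30 6 24 = 1948794880 from by decide +kernel, show cfn 30 7 24 = 468213760 from by decide +kernel, show cfn 30 8 24 = 112388864 from by decide +kernel, show cfn 30 9 24 = 26951424 from by decide +kernel, show cfn 30 10 24 = 6456480 from by decide +kernel, show cfn 30 11 24 = 1545040 from by decide +kernel, show cfn 30 12 24 = 369305 from by decide +kernel, show cfn 30 13 24 = 88166 from by decide +kernel, show cfn 30 14 24 = 21021 from by decide +kernel, show cfn 30 15 24 = 5005 from by decide +kernel, Nat.cast_ofNat, Nat.cast_one, Nat.cast_zero]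
  ring

theorem c30_25 (γ : ℕ → ℝ) : ∑ i ∈ range (30 / 2 + 1), γ i * (cfn 30 i 25 : ℝ) =
    (4781707886592) * γ 0 + (1167945891840) * γ 1 + (285170728960) * γ 2 + (69602377728) * γ 3
       + (16981426176) * γ 4 + (4141416448) * γ 5 + (1009582080) * γ 6 + (246005760) * γ 7
       + (59917312) * γ 8 + (14586624) * γ 9 + (3549312) * γ 10 + (863200) * γ 11 + (209820) * γ 12
       + (50973) * γ 13 + (12376) * γ 14 + (3003) * γ 15 := by
  have h : ((30 / 2 + 1 : ℕ)) = 16 := rfl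
  rw [h]
  simp only [sum_range_succ, sum_range_zero, show cfn 30 0 25 = 4781707886592 from by decide +kernel, show cfn 30 1 25 = 1167945891840 from by decide +kernel, show cfn 30 2 25 = 285170728960 from by decide +kernel, show cfn 30 3 25 = 69602377728 from by decide +kernel, show cfn 30 4 25 = 16981426176 from by decide +kernel, show cfn 30 5 25 = 4141416448 from by decide +kernel, show cfn 30 6 25 = 1009582080 from by decide +kernel, show cfn 30 7 25 = 246005760 from by decide +kernel, show cfn 30 8 25 = 59917312 from by decide +kernel, show cfn 30 9 25 = 14586624 from by decide +kernel, show cfn 30 10 25 = 3549312 from by decide +kernel, show cfn 30 11 25 = 863200 from by decide +kernel, show cfn 30 12 25 = 209820 from by decide +kernel, show cfn 30 13 25 = 50973 from by decide +kernel, show cfn 30 14 25 = 12376 from by decide +kernel, show cfn 30 15 25 = 3003 from by decide +kernel, Nat.cast_ofNat, Nat.cast_one, Nat.cast_zero]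
  ring

theorem c30_26 (γ : ℕ → ℝ) : ∑ i ∈ range (30 / 2 + 1), γ i * (cfn 30 i 26 : ℝ) =
    (1839118417920) * γ 0 + (453437816832) * γ 1 + (111778201600) * γ 2 + (27550285824) * γ 3
       + (6789267456) * γ 4 + (1672806400) * γ 5 + (412090368) * γ 6 + (101498880) * γ 7
       + (24994816) * γ 8 + (6153984) * γ 9 + (1514880) * γ 10 + (372832) * γ 11 + (91740) * γ 12
       + (22569) * γ 13 + (5551) * γ 14 + (1365) * γ 15 := by
  have h : ((30 / 2 + 1 : ℕ)) = 16 := rfl
  rw [h]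
  simp only [sum_range_succ, sum_range_zero, show cfn 30 0 26 = 1839118417920 from by decide +kernel, show cfn 30 1 26 = 453437816832 from by decide +kernel, show cfn 30 2 26 = 111778201600 from by decide +kernel, show cfn 30 3 26 = 27550285824 from by decide +kernel, show cfn 30 4 26 = 6789267456 from by decide +kernel, show cfn 30 5 26 = 1672806400 from by decide +kernel, show cfn 30 6 26 = 412090368 from by decide +kernel, show cfn 30 7 26 = 101498880 from by decide +kernel, show cfn 30 8 26 = 24994816 from by decide +kernel, show cfn 30 9 26 = 6153984 from by decide +kernel, show cfn 30 10 26 = 1514880 from by decide +kernel, show cfn 30 11 26 = 372832 from by decide +kernel, show cfn 30 12 26 = 91740 from by decide +kernel, show cfn 30 13 26 = 22569 from by decide +kernel, show cfn 30 14 26 = 5551 from by decide +kernel, show cfn 30 15 26 = 1365 from by decide +kernel, Nat.cast_ofNat, Nat.cast_one, Nat.cast_zero]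
  ring

theorem q30_0 (γ : ℕ → ℝ) (h0 : γ 0 = 1)
    (h : ∀ n < 30, 2 * (((30 : ℕ) : ℝ) - ((n : ℕ) : ℝ)) * ∑ i ∈ range (30 / 2 + 1), γ i * (cfn 30 i n : ℝ) ≤
      ((n : ℝ) + 1) * ∑ i ∈ range (30 / 2 + 1), γ i * (cfn 30 i (n + 1) : ℝ)) :
    0 ≤ (0) * γ 0 + (1) * γ 1 + (0) * γ 2 + (0) * γ 3 + (0) * γ 4 + (0) * γ 5 + (0) * γ 6 + (0) * γ 7
       + (0) * γ 8 + (0) * γ 9 + (0) * γ 10 + (0) * γ 11 + (0) * γ 12 + (0) * γ 13 + (0) * γ 14
       + (0) * γ 15 := by
  have h1 := h 0 (by norm_num)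
  rw [show 0 + 1 = 1 from rfl, c30_0, c30_1] at h1
  norm_num [h0] at h1 ⊢
  linarith

theorem q30_1 (γ : ℕ → ℝ) (h0 : γ 0 = 1)
    (h : ∀ n < 30, 2 * (((30 : ℕ) : ℝ) - ((n : ℕ) : ℝ)) * ∑ i ∈ range (30 / 2 + 1), γ i * (cfn 30 i n : ℝ) ≤
      ((n : ℝ) + 1) * ∑ i ∈ range (30 / 2 + 1), γ i * (cfn 30 i (n + 1) : ℝ)) :
    0 ≤ (0) * γ 0 + (56) * γ 1 + (2) * γ 2 + (0) * γ 3 + (0) * γ 4 + (0) * γ 5 + (0) * γ 6
       + (0) * γ 7 + (0) * γ 8 + (0) * γ 9 + (0) * γ 10 + (0) * γ 11 + (0) * γ 12 + (0) * γ 13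
       + (0) * γ 14 + (0) * γ 15 := by
  have h1 := h 1 (by norm_num)
  rw [show 1 + 1 = 2 from rfl, c30_1, c30_2] at h1
  norm_num [h0] at h1 ⊢
  linarith

theorem q30_2 (γ : ℕ → ℝ) (h0 : γ 0 = 1)
    (h : ∀ n < 30, 2 * (((30 : ℕ) : ℝ) - ((n : ℕ) : ℝ)) * ∑ i ∈ range (30 / 2 + 1), γ i * (cfn 30 i n : ℝ) ≤
      ((n : ℝ) + 1) * ∑ i ∈ range (30 / 2 + 1), γ i * (cfn 30 i (n + 1) : ℝ)) :
    0 ≤ (0) * γ 0 + (1512) * γ 1 + (106) * γ 2 + (3) * γ 3 + (0) * γ 4 + (0) * γ 5 + (0) * γ 6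
       + (0) * γ 7 + (0) * γ 8 + (0) * γ 9 + (0) * γ 10 + (0) * γ 11 + (0) * γ 12 + (0) * γ 13
       + (0) * γ 14 + (0) * γ 15 := by
  have h1 := h 2 (by norm_num)
  rw [show 2 + 1 = 3 from rfl, c30_2, c30_3] at h1
  norm_num [h0] at h1 ⊢
  linarith

theorem q30_3 (γ : ℕ → ℝ) (h0 : γ 0 = 1)
    (h : ∀ n < 30, 2 * (((30 : ℕ) : ℝ) - ((n : ℕ) : ℝ)) * ∑ i ∈ range (30 / 2 + 1), γ i * (cfn 30 i n : ℝ) ≤
      ((n : ℝ) + 1) * ∑ i ∈ range (30 / 2 + 1), γ i * (cfn 30 i (n + 1) : ℝ)) :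
    0 ≤ (0) * γ 0 + (26208) * γ 1 + (2704) * γ 2 + (150) * γ 3 + (4) * γ 4 + (0) * γ 5 + (0) * γ 6
       + (0) * γ 7 + (0) * γ 8 + (0) * γ 9 + (0) * γ 10 + (0) * γ 11 + (0) * γ 12 + (0) * γ 13
       + (0) * γ 14 + (0) * γ 15 := by
  have h1 := h 3 (by norm_num)
  rw [show 3 + 1 = 4 from rfl, c30_3, c30_4] at h1
  norm_num [h0] at h1 ⊢
  linarith

theorem q30_4 (γ : ℕ → ℝ) (h0 : γ 0 = 1)
    (h : ∀ n < 30, 2 * (((30 : ℕ) : ℝ) - ((n : ℕ) : ℝ)) * ∑ i ∈ range (30 / 2 + 1), γ i * (cfn 30 i n : ℝ) ≤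
      ((n : ℝ) + 1) * ∑ i ∈ range (30 / 2 + 1), γ i * (cfn 30 i (n + 1) : ℝ)) :
    0 ≤ (0) * γ 0 + (327600) * γ 1 + (44200) * γ 2 + (3603) * γ 3 + (188) * γ 4 + (5) * γ 5
       + (0) * γ 6 + (0) * γ 7 + (0) * γ 8 + (0) * γ 9 + (0) * γ 10 + (0) * γ 11 + (0) * γ 12
       + (0) * γ 13 + (0) * γ 14 + (0) * γ 15 := by
  have h1 := h 4 (by norm_num)
  rw [show 4 + 1 = 5 from rfl, c30_4, c30_5] at h1
  norm_num [h0] at h1 ⊢
  linarith

theorem q30_5 (γ : ℕ → ℝ) (h0 : γ 0 = 1)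
    (h : ∀ n < 30, 2 * (((30 : ℕ) : ℝ) - ((n : ℕ) : ℝ)) * ∑ i ∈ range (30 / 2 + 1), γ i * (cfn 30 i n : ℝ) ≤
      ((n : ℝ) + 1) * ∑ i ∈ range (30 / 2 + 1), γ i * (cfn 30 i (n + 1) : ℝ)) :
    0 ≤ (0) * γ 0 + (3144960) * γ 1 + (520000) * γ 2 + (55344) * γ 3 + (4236) * γ 4 + (220) * γ 5
       + (6) * γ 6 + (0) * γ 7 + (0) * γ 8 + (0) * γ 9 + (0) * γ 10 + (0) * γ 11 + (0) * γ 12
       + (0) * γ 13 + (0) * γ 14 + (0) * γ 15 := by
  have h1 := h 5 (by norm_num)
  rw [show 5 + 1 = 6 from rfl, c30_5, c30_6] at h1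
  norm_num [h0] at h1 ⊢
  linarith

theorem q30_6 (γ : ℕ → ℝ) (h0 : γ 0 = 1)
    (h : ∀ n < 30, 2 * (((30 : ℕ) : ℝ) - ((n : ℕ) : ℝ)) * ∑ i ∈ range (30 / 2 + 1), γ i * (cfn 30 i n : ℝ) ≤
      ((n : ℝ) + 1) * ∑ i ∈ range (30 / 2 + 1), γ i * (cfn 30 i (n + 1) : ℝ)) :
    0 ≤ (0) * γ 0 + (24111360) * γ 1 + (4688320) * γ 2 + (610512) * γ 3 + (60900) * γ 4
       + (4630) * γ 5 + (246) * γ 6 + (7) * γ 7 + (0) * γ 8 + (0) * γ 9 + (0) * γ 10 + (0) * γ 11
       + (0) * γ 12 + (0) * γ 13 + (0) * γ 14 + (0) * γ 15 := by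
  have h1 := h 6 (by norm_num)
  rw [show 6 + 1 = 7 from rfl, c30_6, c30_7] at h1
  norm_num [h0] at h1 ⊢
  linarith

theorem q30_7 (γ : ℕ → ℝ) (h0 : γ 0 = 1)
    (h : ∀ n < 30, 2 * (((30 : ℕ) : ℝ) - ((n : ℕ) : ℝ)) * ∑ i ∈ range (30 / 2 + 1), γ i * (cfn 30 i n : ℝ) ≤
      ((n : ℝ) + 1) * ∑ i ∈ range (30 / 2 + 1), γ i * (cfn 30 i (n + 1) : ℝ)) :
    0 ≤ (0) * γ 0 + (151557120) * γ 1 + (33679360) * γ 2 + (5149056) * γ 3 + (627264) * γ 4
       + (62020) * γ 5 + (4812) * γ 6 + (266) * γ 7 + (8) * γ 8 + (0) * γ 9 + (0) * γ 10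
       + (0) * γ 11 + (0) * γ 12 + (0) * γ 13 + (0) * γ 14 + (0) * γ 15 := by
  have h1 := h 7 (by norm_num)
  rw [show 7 + 1 = 8 from rfl, c30_7, c30_8] at h1
  norm_num [h0] at h1 ⊢
  linarith

theorem q30_8 (γ : ℕ → ℝ) (h0 : γ 0 = 1)
    (h : ∀ n < 30, 2 * (((30 : ℕ) : ℝ) - ((n : ℕ) : ℝ)) * ∑ i ∈ range (30 / 2 + 1), γ i * (cfn 30 i n : ℝ) ≤
      ((n : ℝ) + 1) * ∑ i ∈ range (30 / 2 + 1), γ i * (cfn 30 i (n + 1) : ℝ)) :
    0 ≤ (0) * γ 0 + (795674880) * γ 1 + (197866240) * γ 2 + (34513248) * γ 3 + (4926768) * γ 4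
       + (593605) * γ 5 + (59748) * γ 6 + (4809) * γ 7 + (280) * γ 8 + (9) * γ 9 + (0) * γ 10
       + (0) * γ 11 + (0) * γ 12 + (0) * γ 13 + (0) * γ 14 + (0) * γ 15 := by
  have h1 := h 8 (by norm_num)
  rw [show 8 + 1 = 9 from rfl, c30_8, c30_9] at h1
  norm_num [h0] at h1 ⊢
  linarith

theorem q30_9 (γ : ℕ → ℝ) (h0 : γ 0 = 1)
    (h : ∀ n < 30, 2 * (((30 : ℕ) : ℝ) - ((n : ℕ) : ℝ)) * ∑ i ∈ range (30 / 2 + 1), γ i * (cfn 30 i n : ℝ) ≤
      ((n : ℝ) + 1) * ∑ i ∈ range (30 / 2 + 1), γ i * (cfn 30 i (n + 1) : ℝ)) :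
    0 ≤ (0) * γ 0 + (3536332800) * γ 1 + (968281600) * γ 2 + (188669184) * γ 3 + (30666944) * γ 4
       + (4320040) * γ 5 + (528510) * γ 6 + (55020) * γ 7 + (4648) * γ 8 + (288) * γ 9
       + (10) * γ 10 + (0) * γ 11 + (0) * γ 12 + (0) * γ 13 + (0) * γ 14 + (0) * γ 15 := by
  have h1 := h 9 (by norm_num)
  rw [show 9 + 1 = 10 from rfl, c30_9, c30_10] at h1
  norm_num [h0] at h1 ⊢
  linarith

theorem q30_10 (γ : ℕ → ℝ) (h0 : γ 0 = 1)
    (h : ∀ n < 30, 2 * (((30 : ℕ) : ℝ) - ((n : ℕ) : ℝ)) * ∑ i ∈ range (30 / 2 + 1), γ i * (cfn 30 i n : ℝ) ≤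
      ((n : ℝ) + 1) * ∑ i ∈ range (30 / 2 + 1), γ i * (cfn 30 i (n + 1) : ℝ)) :
    0 ≤ (0) * γ 0 + (13438064640) * γ 1 + (3999424000) * γ 2 + (856492032) * γ 3 + (155201728) * γ 4
       + (24837560) * γ 5 + (3543342) * γ 6 + (446985) * γ 7 + (48664) * γ 8 + (4356) * γ 9
       + (290) * γ 10 + (11) * γ 11 + (0) * γ 12 + (0) * γ 13 + (0) * γ 14 + (0) * γ 15 := by
  have h1 := h 10 (by norm_num)
  rw [show 10 + 1 = 11 from rfl, c30_10, c30_11] at h1
  norm_num [h0] at h1 ⊢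
  linarith

theorem q30_11 (γ : ℕ → ℝ) (h0 : γ 0 = 1)
    (h : ∀ n < 30, 2 * (((30 : ℕ) : ℝ) - ((n : ℕ) : ℝ)) * ∑ i ∈ range (30 / 2 + 1), γ i * (cfn 30 i n : ℝ) ≤
      ((n : ℝ) + 1) * ∑ i ∈ range (30 / 2 + 1), γ i * (cfn 30 i (n + 1) : ℝ)) :
    0 ≤ (0) * γ 0 + (43979120640) * γ 1 + (14077972480) * γ 2 + (3270913536) * γ 3
       + (650073600) * γ 4 + (115705440) * γ 5 + (18701712) * γ 6 + (2742474) * γ 7
       + (360472) * γ 8 + (41400) * γ 9 + (3960) * γ 10 + (286) * γ 11 + (12) * γ 12 + (0) * γ 13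
       + (0) * γ 14 + (0) * γ 15 := by
  have h1 := h 11 (by norm_num)
  rw [show 11 + 1 = 12 from rfl, c30_11, c30_12] at h1
  norm_num [h0] at h1 ⊢
  linarith

theorem q30_12 (γ : ℕ → ℝ) (h0 : γ 0 = 1)
    (h : ∀ n < 30, 2 * (((30 : ℕ) : ℝ) - ((n : ℕ) : ℝ)) * ∑ i ∈ range (30 / 2 + 1), γ i * (cfn 30 i n : ℝ) ≤
      ((n : ℝ) + 1) * ∑ i ∈ range (30 / 2 + 1), γ i * (cfn 30 i (n + 1) : ℝ)) :
    0 ≤ (0) * γ 0 + (124607508480) * γ 1 + (42524784640) * γ 2 + (10606472448) * γ 3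
       + (2282106112) * γ 4 + (444422160) * γ 5 + (79671384) * γ 6 + (13194727) * γ 7
       + (2008552) * γ 8 + (277254) * γ 9 + (33840) * γ 10 + (3487) * γ 11 + (276) * γ 12
       + (13) * γ 13 + (0) * γ 14 + (0) * γ 15 := by
  have h1 := h 12 (by norm_num)
  rw [show 12 + 1 = 13 from rfl, c30_12, c30_13] at h1
  norm_num [h0] at h1 ⊢
  linarith

theorem q30_13 (γ : ℕ → ℝ) (h0 : γ 0 = 1)
    (h : ∀ n < 30, 2 * (((30 : ℕ) : ℝ) - ((n : ℕ) : ℝ)) * ∑ i ∈ range (30 / 2 + 1), γ i * (cfn 30 i n : ℝ) ≤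
      ((n : ℝ) + 1) * ∑ i ∈ range (30 / 2 + 1), γ i * (cfn 30 i (n + 1) : ℝ)) :
    0 ≤ (0) * γ 0 + (306726174720) * γ 1 + (110762229760) * γ 2 + (29394591744) * γ 3
       + (6774462464) * γ 4 + (1424714240) * γ 5 + (278660736) * γ 6 + (51019808) * γ 7
       + (8737848) * γ 8 + (1390536) * γ 9 + (202860) * γ 10 + (26488) * γ 11 + (2964) * γ 12
       + (260) * γ 13 + (14) * γ 14 + (0) * γ 15 := by
  have h1 := h 13 (by norm_num)
  rw [show 13 + 1 = 14 from rfl, c30_13, c30_14] at h1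
  norm_num [h0] at h1 ⊢
  linarith

theorem q30_14 (γ : ℕ → ℝ) (h0 : γ 0 = 1)
    (h : ∀ n < 30, 2 * (((30 : ℕ) : ℝ) - ((n : ℕ) : ℝ)) * ∑ i ∈ range (30 / 2 + 1), γ i * (cfn 30 i n : ℝ) ≤
      ((n : ℝ) + 1) * ∑ i ∈ range (30 / 2 + 1), γ i * (cfn 30 i (n + 1) : ℝ)) :
    0 ≤ (0) * γ 0 + (657270374400) * γ 1 + (249519308800) * γ 2 + (69926264832) * γ 3
       + (17108477952) * γ 4 + (3844165120) * γ 5 + (809635200) * γ 6 + (161196000) * γ 7
       + (30402440) * γ 8 + (5418540) * γ 9 + (906300) * γ 10 + (140470) * γ 11 + (19740) * γ 12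
       + (2418) * γ 13 + (238) * γ 14 + (15) * γ 15 := by
  have h1 := h 14 (by norm_num)
  rw [show 14 + 1 = 15 from rfl, c30_14, c30_15] at h1
  norm_num [h0] at h1 ⊢
  linarith

theorem q30_15 (γ : ℕ → ℝ) (h0 : γ 0 = 1)
    (h : ∀ n < 30, 2 * (((30 : ℕ) : ℝ) - ((n : ℕ) : ℝ)) * ∑ i ∈ range (30 / 2 + 1), γ i * (cfn 30 i n : ℝ) ≤
      ((n : ℝ) + 1) * ∑ i ∈ range (30 / 2 + 1), γ i * (cfn 30 i (n + 1) : ℝ)) :
    0 ≤ (0) * γ 0 + (1226904698880) * γ 1 + (486866944000) * γ 2 + (143138881536) * γ 3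
       + (36896047104) * γ 4 + (8778158080) * γ 5 + (1969471488) * γ 6 + (420815360) * γ 7
       + (85971200) * γ 8 + (16796520) * γ 9 + (3129000) * γ 10 + (552244) * γ 11 + (91320) * γ 12
       + (13884) * γ 13 + (1876) * γ 14 + (210) * γ 15 := by
  have h1 := h 15 (by norm_num)
  rw [show 15 + 1 = 16 from rfl, c30_15, c30_16] at h1
  norm_num [h0] at h1 ⊢
  linarith

theorem q30_16 (γ : ℕ → ℝ) (h0 : γ 0 = 1)
    (h : ∀ n < 30, 2 * (((30 : ℕ) : ℝ) - ((n : ℕ) : ℝ)) * ∑ i ∈ range (30 / 2 + 1), γ i * (cfn 30 i n : ℝ) ≤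
      ((n : ℝ) + 1) * ∑ i ∈ range (30 / 2 + 1), γ i * (cfn 30 i (n + 1) : ℝ)) :
    0 ≤ (0) * γ 0 + (1993720135680) * γ 1 + (822805135360) * γ 2 + (252318793728) * γ 3
       + (68068761600) * γ 4 + (17016363520) * γ 5 + (4030361088) * γ 6 + (914245696) * γ 7
       + (199661280) * γ 8 + (42060105) * γ 9 + (8542200) * γ 10 + (1667974) * γ 11
       + (311448) * γ 12 + (55107) * γ 13 + (9100) * γ 14 + (1365) * γ 15 := by
  have h1 := h 16 (by norm_num)
  rw [show 16 + 1 = 17 from rfl, c30_16, c30_17] at h1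
  norm_num [h0] at h1 ⊢
  linarith

theorem q30_17 (γ : ℕ → ℝ) (h0 : γ 0 = 1)
    (h : ∀ n < 30, 2 * (((30 : ℕ) : ℝ) - ((n : ℕ) : ℝ)) * ∑ i ∈ range (30 / 2 + 1), γ i * (cfn 30 i n : ℝ) ≤
      ((n : ℝ) + 1) * ∑ i ∈ range (30 / 2 + 1), γ i * (cfn 30 i (n + 1) : ℝ)) :
    0 ≤ (0) * γ 0 + (2814663720960) * γ 1 + (1202561351680) * γ 2 + (382677417984) * γ 3
       + (107417665536) * γ 4 + (28027924480) * γ 5 + (6954095616) * γ 6 + (1659560448) * γ 7
       + (383254144) * γ 8 + (85910040) * γ 9 + (18711450) * γ 10 + (3957448) * γ 11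
       + (810984) * γ 12 + (160368) * γ 13 + (30394) * γ 14 + (5460) * γ 15 := by
  have h1 := h 17 (by norm_num)
  rw [show 17 + 1 = 18 from rfl, c30_17, c30_18] at h1
  norm_num [h0] at h1 ⊢
  linarith

theorem q30_18 (γ : ℕ → ℝ) (h0 : γ 0 = 1)
    (h : ∀ n < 30, 2 * (((30 : ℕ) : ℝ) - ((n : ℕ) : ℝ)) * ∑ i ∈ range (30 / 2 + 1), γ i * (cfn 30 i n : ℝ) ≤
      ((n : ℝ) + 1) * ∑ i ∈ range (30 / 2 + 1), γ i * (cfn 30 i (n + 1) : ℝ)) :
    0 ≤ (0) * γ 0 + (3440144547840) * γ 1 + (1515301765120) * γ 2 + (498064883712) * γ 3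
       + (144715907072) * γ 4 + (39180881920) * γ 5 + (10115318784) * γ 6 + (2519974912) * γ 7
       + (609831040) * γ 8 + (143899272) * γ 9 + (33174450) * γ 10 + (7477327) * γ 11
       + (1647096) * γ 12 + (354068) * γ 13 + (74074) * γ 14 + (15015) * γ 15 := by
  have h1 := h 18 (by norm_num)
  rw [show 18 + 1 = 19 from rfl, c30_18, c30_19] at h1
  norm_num [h0] at h1 ⊢
  linarith

theorem q30_19 (γ : ℕ → ℝ) (h0 : γ 0 = 1)
    (h : ∀ n < 30, 2 * (((30 : ℕ) : ℝ) - ((n : ℕ) : ℝ)) * ∑ i ∈ range (30 / 2 + 1), γ i * (cfn 30 i n : ℝ) ≤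
      ((n : ℝ) + 1) * ∑ i ∈ range (30 / 2 + 1), γ i * (cfn 30 i (n + 1) : ℝ)) :
    0 ≤ (0) * γ 0 + (3621204787200) * γ 1 + (1638164070400) * γ 2 + (553825468416) * γ 3
       + (165788778496) * γ 4 + (46331740160) * γ 5 + (12372910080) * γ 6 + (3196175360) * γ 7
       + (804271104) * γ 8 + (197983584) * γ 9 + (47800080) * γ 10 + (11335390) * γ 11
       + (2641980) * γ 12 + (605176) * γ 13 + (136136) * γ 14 + (30030) * γ 15 := by
  have h1 := h 19 (by norm_num)
  rw [show 19 + 1 = 20 from rfl, c30_19, c30_20] at h1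
  norm_num [h0] at h1 ⊢
  linarith

theorem q30_20 (γ : ℕ → ℝ) (h0 : γ 0 = 1)
    (h : ∀ n < 30, 2 * (((30 : ℕ) : ℝ) - ((n : ℕ) : ℝ)) * ∑ i ∈ range (30 / 2 + 1), γ i * (cfn 30 i n : ℝ) ≤
      ((n : ℝ) + 1) * ∑ i ∈ range (30 / 2 + 1), γ i * (cfn 30 i (n + 1) : ℝ)) :
    0 ≤ (0) * γ 0 + (3259084308480) * γ 1 + (1508835328000) * γ 2 + (522637344768) * γ 3
       + (160501727232) * γ 4 + (46080368640) * γ 5 + (12662231040) * γ 6 + (3371665920) * γ 7
       + (876334592) * γ 8 + (223333488) * γ 9 + (55971720) * γ 10 + (13821115) * γ 11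
       + (3366660) * γ 12 + (809523) * γ 13 + (192192) * γ 14 + (45045) * γ 15 := by
  have h1 := h 20 (by norm_num)
  rw [show 20 + 1 = 21 from rfl, c30_20, c30_21] at h1
  norm_num [h0] at h1 ⊢
  linarith

theorem q30_21 (γ : ℕ → ℝ) (h0 : γ 0 = 1)
    (h : ∀ n < 30, 2 * (((30 : ℕ) : ℝ) - ((n : ℕ) : ℝ)) * ∑ i ∈ range (30 / 2 + 1), γ i * (cfn 30 i n : ℝ) ≤
      ((n : ℝ) + 1) * ∑ i ∈ range (30 / 2 + 1), γ i * (cfn 30 i (n + 1) : ℝ)) :
    0 ≤ (0) * γ 0 + (2483111854080) * γ 1 + (1172580597760) * γ 2 + (414647844864) * γ 3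
       + (130121728000) * γ 4 + (38214696960) * γ 5 + (10753966080) * γ 6 + (2936299520) * γ 7
       + (783681536) * γ 8 + (205413120) * γ 9 + (53042880) * γ 10 + (13522960) * γ 11
       + (3408900) * γ 12 + (850564) * γ 13 + (210210) * γ 14 + (51480) * γ 15 := by
  have h1 := h 21 (by norm_num)
  rw [show 21 + 1 = 22 from rfl, c30_21, c30_22] at h1
  norm_num [h0] at h1 ⊢
  linarith

theorem q30_22 (γ : ℕ → ℝ) (h0 : γ 0 = 1)
    (h : ∀ n < 30, 2 * (((30 : ℕ) : ℝ) - ((n : ℕ) : ℝ)) * ∑ i ∈ range (30 / 2 + 1), γ i * (cfn 30 i n : ℝ) ≤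
      ((n : ℝ) + 1) * ∑ i ∈ range (30 / 2 + 1), γ i * (cfn 30 i (n + 1) : ℝ)) :
    0 ≤ (0) * γ 0 + (1580162088960) * γ 1 + (758728622080) * γ 2 + (272983130112) * γ 3
       + (87219765248) * γ 4 + (26099056640) * γ 5 + (7489290240) * γ 6 + (2087034880) * γ 7
       + (569038848) * γ 8 + (152531712) * γ 9 + (40326720) * γ 10 + (10539760) * γ 11
       + (2727660) * γ 12 + (699842) * γ 13 + (178178) * γ 14 + (45045) * γ 15 := by
  have h1 := h 22 (by norm_num)
  rw [show 22 + 1 = 23 from rfl, c30_22, c30_23] at h1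
  norm_num [h0] at h1 ⊢
  linarith

theorem q30_23 (γ : ℕ → ℝ) (h0 : γ 0 = 1)
    (h : ∀ n < 30, 2 * (((30 : ℕ) : ℝ) - ((n : ℕ) : ℝ)) * ∑ i ∈ range (30 / 2 + 1), γ i * (cfn 30 i n : ℝ) ≤
      ((n : ℝ) + 1) * ∑ i ∈ range (30 / 2 + 1), γ i * (cfn 30 i (n + 1) : ℝ)) :
    0 ≤ (0) * γ 0 + (824432394240) * γ 1 + (401311006720) * γ 2 + (146439929856) * γ 3
       + (47475326976) * γ 4 + (14421852160) * γ 5 + (4203479040) * γ 6 + (1190461440) * γ 7
       + (330072064) * γ 8 + (90031104) * γ 9 + (24238080) * γ 10 + (6455680) * γ 11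
       + (1704000) * γ 12 + (446316) * γ 13 + (116116) * γ 14 + (30030) * γ 15 := by
  have h1 := h 23 (by norm_num)
  rw [show 23 + 1 = 24 from rfl, c30_23, c30_24] at h1
  norm_num [h0] at h1 ⊢
  linarith

theorem q30_24 (γ : ℕ → ℝ) (h0 : γ 0 = 1)
    (h : ∀ n < 30, 2 * (((30 : ℕ) : ℝ) - ((n : ℕ) : ℝ)) * ∑ i ∈ range (30 / 2 + 1), γ i * (cfn 30 i n : ℝ) ≤
      ((n : ℝ) + 1) * ∑ i ∈ range (30 / 2 + 1), γ i * (cfn 30 i (n + 1) : ℝ)) :
    0 ≤ (0) * γ 0 + (343513497600) * γ 1 + (169030451200) * γ 2 + (62367203328) * γ 3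
       + (20450377728) * γ 4 + (6285230080) * γ 5 + (1854013440) * γ 6 + (531578880) * γ 7
       + (149266432) * γ 8 + (41248512) * γ 9 + (11255040) * γ 10 + (3039520) * γ 11
       + (813840) * γ 12 + (216333) * γ 13 + (57148) * γ 14 + (15015) * γ 15 := by
  have h1 := h 24 (by norm_num)
  rw [show 24 + 1 = 25 from rfl, c30_24, c30_25] at h1
  norm_num [h0] at h1 ⊢
  linarith

theorem q30_25 (γ : ℕ → ℝ) (h0 : γ 0 = 1)
    (h : ∀ n < 30, 2 * (((30 : ℕ) : ℝ) - ((n : ℕ) : ℝ)) * ∑ i ∈ range (30 / 2 + 1), γ i * (cfn 30 i n : ℝ) ≤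
      ((n : ℝ) + 1) * ∑ i ∈ range (30 / 2 + 1), γ i * (cfn 30 i (n + 1) : ℝ)) :
    0 ≤ (0) * γ 0 + (109924319232) * γ 1 + (54525952000) * γ 2 + (20283654144) * γ 3
       + (6706692096) * γ 4 + (2078801920) * γ 5 + (618528768) * γ 6 + (178913280) * γ 7
       + (50692096) * γ 8 + (14137344) * γ 9 + (3893760) * γ 10 + (1061632) * γ 11
       + (287040) * γ 12 + (77064) * γ 13 + (20566) * γ 14 + (5460) * γ 15 := by
  have h1 := h 25 (by norm_num)
  rw [show 25 + 1 = 26 from rfl, c30_25, c30_26] at h1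
  norm_num [h0] at h1 ⊢
  linarith

theorem m30_0 (γ : ℕ → ℝ) : Mat 30 γ 0 = (1) * γ 0 + (0) * γ 1 + (0) * γ 2 + (0) * γ 3 + (0) * γ 4 + (0) * γ 5 + (0) * γ 6 + (0) * γ 7
       + (0) * γ 8 + (0) * γ 9 + (0) * γ 10 + (0) * γ 11 + (0) * γ 12 + (0) * γ 13 + (0) * γ 14
       + (0) * γ 15 := by
  unfold Mat
  rw [show (30 / 2 + 1 : ℕ) = 16 from rfl]
  simp [sum_range_succ, Nat.choose]
  try ring

theorem m30_1 (γ : ℕ → ℝ) : Mat 30 γ 1 = (1740) * γ 0 + (58) * γ 1 + (1) * γ 2 + (0) * γ 3 + (0) * γ 4 + (0) * γ 5 + (0) * γ 6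
       + (0) * γ 7 + (0) * γ 8 + (0) * γ 9 + (0) * γ 10 + (0) * γ 11 + (0) * γ 12 + (0) * γ 13
       + (0) * γ 14 + (0) * γ 15 := by
  unfold Mat
  rw [show (30 / 2 + 1 : ℕ) = 16 from rfl]
  simp [sum_range_succ, Nat.choose]
  try ring

theorem m30_2 (γ : ℕ → ℝ) : Mat 30 γ 2 = (438480) * γ 0 + (29232) * γ 1 + (1512) * γ 2 + (54) * γ 3 + (1) * γ 4 + (0) * γ 5
       + (0) * γ 6 + (0) * γ 7 + (0) * γ 8 + (0) * γ 9 + (0) * γ 10 + (0) * γ 11 + (0) * γ 12
       + (0) * γ 13 + (0) * γ 14 + (0) * γ 15 := by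
  unfold Mat
  rw [show (30 / 2 + 1 : ℕ) = 16 from rfl]
  simp [sum_range_succ, Nat.choose]
  try ring

theorem m30_3 (γ : ℕ → ℝ) : Mat 30 γ 3 = (38001600) * γ 0 + (3800160) * γ 1 + (327600) * γ 2 + (23400) * γ 3 + (1300) * γ 4
       + (50) * γ 5 + (1) * γ 6 + (0) * γ 7 + (0) * γ 8 + (0) * γ 9 + (0) * γ 10 + (0) * γ 11
       + (0) * γ 12 + (0) * γ 13 + (0) * γ 14 + (0) * γ 15 := by
  unfold Mat
  rw [show (30 / 2 + 1 : ℕ) = 16 from rfl]
  simp [sum_range_succ, Nat.choose]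
  try ring

theorem m30_4 (γ : ℕ → ℝ) : Mat 30 γ 4 = (1498348800) * γ 0 + (199779840) * γ 1 + (24111360) * γ 2 + (2583360) * γ 3 + (239200) * γ 4
       + (18400) * γ 5 + (1104) * γ 6 + (46) * γ 7 + (1) * γ 8 + (0) * γ 9 + (0) * γ 10
       + (0) * γ 11 + (0) * γ 12 + (0) * γ 13 + (0) * γ 14 + (0) * γ 15 := by
  unfold Mat
  rw [show (30 / 2 + 1 : ℕ) = 16 from rfl]
  simp [sum_range_succ, Nat.choose]
  try ring

theorem m30_5 (γ : ℕ → ℝ) : Mat 30 γ 5 = (30766095360) * γ 0 + (5127682560) * γ 1 + (795674880) * γ 2 + (113667840) * γ 3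
       + (14734720) * γ 4 + (1700160) * γ 5 + (170016) * γ 6 + (14168) * γ 7 + (924) * γ 8
       + (42) * γ 9 + (1) * γ 10 + (0) * γ 11 + (0) * γ 12 + (0) * γ 13 + (0) * γ 14 + (0) * γ 15 := by
  unfold Mat
  rw [show (30 / 2 + 1 : ℕ) = 16 from rfl]
  simp [sum_range_succ, Nat.choose]
  try ring

theorem m30_6 (γ : ℕ → ℝ) : Mat 30 γ 6 = (354276249600) * γ 0 + (70855249920) * γ 1 + (13438064640) * γ 2 + (2399654400) * γ 3
       + (399942400) * γ 4 + (61529600) * γ 5 + (8614144) * γ 6 + (1076768) * γ 7 + (117040) * γ 8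
       + (10640) * γ 9 + (760) * γ 10 + (38) * γ 11 + (1) * γ 12 + (0) * γ 13 + (0) * γ 14
       + (0) * γ 15 := by
  unfold Mat
  rw [show (30 / 2 + 1 : ℕ) = 16 from rfl]
  simp [sum_range_succ, Nat.choose]
  try ring

theorem m30_7 (γ : ℕ → ℝ) : Mat 30 γ 7 = (2382605107200) * γ 0 + (555941191680) * γ 1 + (124607508480) * γ 2 + (26701608960) * γ 3
       + (5439216640) * γ 4 + (1046003200) * γ 5 + (188280576) * γ 6 + (31380096) * γ 7
       + (4775232) * γ 8 + (651168) * γ 9 + (77520) * γ 10 + (7752) * γ 11 + (612) * γ 12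
       + (34) * γ 13 + (1) * γ 14 + (0) * γ 15 := by
  unfold Mat
  rw [show (30 / 2 + 1 : ℕ) = 16 from rfl]
  simp [sum_range_succ, Nat.choose]
  try ring

theorem m30_8 (γ : ℕ → ℝ) : Mat 30 γ 8 = (9530420428800) * γ 0 + (2541445447680) * γ 1 + (657270374400) * γ 2 + (164317593600) * γ 3
       + (39557939200) * γ 4 + (9128755200) * γ 5 + (2008326144) * γ 6 + (418401280) * γ 7
       + (81861120) * γ 8 + (14883840) * γ 9 + (2480640) * γ 10 + (372096) * γ 11 + (48960) * γ 12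
       + (5440) * γ 13 + (480) * γ 14 + (30) * γ 15 := by
  unfold Mat
  rw [show (30 / 2 + 1 : ℕ) = 16 from rfl]
  simp [sum_range_succ, Nat.choose]
  try ring

theorem m30_9 (γ : ℕ → ℝ) : Mat 30 γ 9 = (22673679974400) * γ 0 + (6802103992320) * γ 1 + (1993720135680) * γ 2 + (569634324480) * γ 3
       + (158231756800) * γ 4 + (42600857600) * γ 5 + (11076222976) * γ 6 + (2769055744) * γ 7
       + (662165504) * γ 8 + (150492160) * γ 9 + (32248320) * γ 10 + (6449664) * γ 11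
       + (1188096) * γ 12 + (198016) * γ 13 + (29120) * γ 14 + (3640) * γ 15 := by
  unfold Mat
  rw [show (30 / 2 + 1 : ℕ) = 16 from rfl]
  simp [sum_range_succ, Nat.choose]
  try ring

theorem m30_10 (γ : ℕ → ℝ) : Mat 30 γ 10 = (31504481648640) * γ 0 + (10501493882880) * γ 1 + (3440144547840) * γ 2
       + (1105760747520) * γ 3 + (348109864960) * γ 4 + (107110727680) * γ 5 + (32133218304) * γ 6
       + (9372188672) * γ 7 + (2648662016) * γ 8 + (722362368) * γ 9 + (189190144) * γ 10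
       + (47297536) * γ 11 + (11202048) * γ 12 + (2489344) * γ 13 + (512512) * γ 14
       + (96096) * γ 15 := by
  unfold Mat
  rw [show (30 / 2 + 1 : ℕ) = 16 from rfl]
  simp [sum_range_succ, Nat.choose]
  try ring

theorem m30_11 (γ : ℕ → ℝ) : Mat 30 γ 11 = (24548946739200) * γ 0 + (9001280471040) * γ 1 + (3259084308480) * γ 2
       + (1163958681600) * γ 3 + (409541017600) * γ 4 + (141764198400) * γ 5 + (48199827456) * γ 6
       + (16066609152) * γ 7 + (5239111680) * γ 8 + (1666990080) * γ 9 + (515973120) * γ 10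
       + (154791936) * γ 11 + (44808192) * γ 12 + (12446720) * γ 13 + (3294720) * γ 14
       + (823680) * γ 15 := by
  unfold Mat
  rw [show (30 / 2 + 1 : ℕ) = 16 from rfl]
  simp [sum_range_succ, Nat.choose]
  try ring

theorem m30_12 (γ : ℕ → ℝ) : Mat 30 γ 12 = (9961891430400) * γ 0 + (3984756572160) * γ 1 + (1580162088960) * γ 2 + (620777963520) * γ 3
       + (241413652480) * γ 4 + (92851404800) * γ 5 + (35283533824) * γ 6 + (13231325184) * γ 7
       + (4889837568) * γ 8 + (1778122752) * γ 9 + (635043840) * γ 10 + (222265344) * γ 11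
       + (76038144) * γ 12 + (25346048) * γ 13 + (8200192) * γ 14 + (2562560) * γ 15 := by
  unfold Mat
  rw [show (30 / 2 + 1 : ℕ) = 16 from rfl]
  simp [sum_range_succ, Nat.choose]
  try ring

theorem m30_13 (γ : ℕ → ℝ) : Mat 30 γ 13 = (1839118417920) * γ 0 + (796951314432) * γ 1 + (343513497600) * γ 2 + (147220070400) * γ 3
       + (62704844800) * γ 4 + (26528972800) * γ 5 + (11142168576) * γ 6 + (4642570240) * γ 7
       + (1917583360) * γ 8 + (784465920) * γ 9 + (317521920) * γ 10 + (127008768) * γ 11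
       + (50135040) * γ 12 + (19496960) * γ 13 + (7454720) * γ 14 + (2795520) * γ 15 := by
  unfold Mat
  rw [show (30 / 2 + 1 : ℕ) = 16 from rfl]
  simp [sum_range_succ, Nat.choose]
  try ring

theorem m30_14 (γ : ℕ → ℝ) : Mat 30 γ 14 = (116769423360) * γ 0 + (54492397568) * γ 1 + (25367150592) * γ 2 + (11777605632) * γ 3
       + (5452595200) * γ 4 + (2516582400) * γ 5 + (1157627904) * γ 6 + (530579456) * γ 7
       + (242221056) * γ 8 + (110100480) * γ 9 + (49807360) * γ 10 + (22413312) * γ 11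
       + (10027008) * γ 12 + (4456448) * γ 13 + (1966080) * γ 14 + (860160) * γ 15 := by
  unfold Mat
  rw [show (30 / 2 + 1 : ℕ) = 16 from rfl]
  simp [sum_range_succ, Nat.choose]
  try ring

theorem m30_15 (γ : ℕ → ℝ) : Mat 30 γ 15 = (1073741824) * γ 0 + (536870912) * γ 1 + (268435456) * γ 2 + (134217728) * γ 3
       + (67108864) * γ 4 + (33554432) * γ 5 + (16777216) * γ 6 + (8388608) * γ 7 + (4194304) * γ 8
       + (2097152) * γ 9 + (1048576) * γ 10 + (524288) * γ 11 + (262144) * γ 12 + (131072) * γ 13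
       + (65536) * γ 14 + (32768) * γ 15 := by
  unfold Mat
  rw [show (30 / 2 + 1 : ℕ) = 16 from rfl]
  simp [sum_range_succ, Nat.choose]
  try ring

theorem mm30_0 (γ : ℕ → ℝ) : Mat 30 (Mat 30 γ) 0 =
      (1) * γ 0 + (0) * γ 1 + (0) * γ 2 + (0) * γ 3 + (0) * γ 4 + (0) * γ 5 + (0) * γ 6 + (0) * γ 7
       + (0) * γ 8 + (0) * γ 9 + (0) * γ 10 + (0) * γ 11 + (0) * γ 12 + (0) * γ 13 + (0) * γ 14
       + (0) * γ 15 := by
  rw [m30_0]
  simp only [m30_0, m30_1, m30_2, m30_3, m30_4, m30_5, m30_6, m30_7, m30_8, m30_9, m30_10, m30_11, m30_12, m30_13, m30_14, m30_15]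
  ring

theorem mm30_1 (γ : ℕ → ℝ) : Mat 30 (Mat 30 γ) 1 =
      (541140) * γ 0 + (32596) * γ 1 + (1570) * γ 2 + (54) * γ 3 + (1) * γ 4 + (0) * γ 5
       + (0) * γ 6 + (0) * γ 7 + (0) * γ 8 + (0) * γ 9 + (0) * γ 10 + (0) * γ 11 + (0) * γ 12
       + (0) * γ 13 + (0) * γ 14 + (0) * γ 15 := by
  rw [m30_1]
  simp only [m30_0, m30_1, m30_2, m30_3, m30_4, m30_5, m30_6, m30_7, m30_8, m30_9, m30_10, m30_11, m30_12, m30_13, m30_14, m30_15]
  ring

theorem mm30_2 (γ : ℕ → ℝ) : Mat 30 (Mat 30 γ) 2 =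
      (4264719120) * γ 0 + (450882720) * γ 1 + (44117136) * γ 2 + (3928608) * γ 3 + (310912) * γ 4
       + (21100) * γ 5 + (1158) * γ 6 + (46) * γ 7 + (1) * γ 8 + (0) * γ 9 + (0) * γ 10
       + (0) * γ 11 + (0) * γ 12 + (0) * γ 13 + (0) * γ 14 + (0) * γ 15 := by
  rw [m30_2]
  simp only [m30_0, m30_1, m30_2, m30_3, m30_4, m30_5, m30_6, m30_7, m30_8, m30_9, m30_10, m30_11, m30_12, m30_13, m30_14, m30_15]
  ring

theorem mm30_3 (γ : ℕ → ℝ) : Mat 30 (Mat 30 γ) 3 =
      (4879968225600) * γ 0 + (685673726400) * γ 1 + (92731548000) * γ 2 + (12006664800) * γ 3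
       + (1478386000) * γ 4 + (171627600) * γ 5 + (18573544) * γ 6 + (1844968) * γ 7
       + (164540) * γ 8 + (12740) * γ 9 + (810) * γ 10 + (38) * γ 11 + (1) * γ 12 + (0) * γ 13
       + (0) * γ 14 + (0) * γ 15 := by
  rw [m30_3]
  simp only [m30_0, m30_1, m30_2, m30_3, m30_4, m30_5, m30_6, m30_7, m30_8, m30_9, m30_10, m30_11, m30_12, m30_13, m30_14, m30_15]
  ring

theorem mm30_4 (γ : ℕ → ℝ) : Mat 30 (Mat 30 γ) 4 =
      (1543845700281600) * γ 0 + (259009224852480) * γ 1 + (42515659123200) * γ 2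
       + (6812990668800) * γ 3 + (1063016281600) * γ 4 + (160986972800) * γ 5 + (23574202176) * γ 6
       + (3322331968) * γ 7 + (447974752) * γ 8 + (57356928) * γ 9 + (6904000) * γ 10
       + (770640) * γ 11 + (78216) * γ 12 + (7004) * γ 13 + (526) * γ 14 + (30) * γ 15 := by
  rw [m30_4]
  simp only [m30_0, m30_1, m30_2, m30_3, m30_4, m30_5, m30_6, m30_7, m30_8, m30_9, m30_10, m30_11, m30_12, m30_13, m30_14, m30_15]
  ring

theorem mm30_5 (γ : ℕ → ℝ) : Mat 30 (Mat 30 γ) 5 =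
      (182841722488857600) * γ 0 + (34684679767127040) * γ 1 + (6491113909056000) * γ 2
       + (1197169292090880) * γ 3 + (217329298351360) * γ 4 + (38779452628480) * γ 5
       + (6790564648704) * γ 6 + (1164701965056) * γ 7 + (195239130240) * γ 8 + (31901826432) * γ 9
       + (5064946624) * γ 10 + (778291072) * γ 11 + (115181952) * γ 12 + (16314288) * γ 13
       + (2193240) * γ 14 + (276696) * γ 15 := by
  rw [m30_5]
  simp only [m30_0, m30_1, m30_2, m30_3, m30_4, m30_5, m30_6, m30_7, m30_8, m30_9, m30_10, m30_11, m30_12, m30_13, m30_14, m30_15]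
  ring

theorem mm30_6 (γ : ℕ → ℝ) : Mat 30 (Mat 30 γ) 6 =
      (9588359583552000000) * γ 0 + (1992050028789719040) * γ 1 + (410218071939379200) * γ 2
       + (83684285866844160) * γ 3 + (16901171052912640) * γ 4 + (3377003373388800) * γ 5
       + (667036555895296) * γ 6 + (130133731330560) * γ 7 + (25050695377664) * γ 8
       + (4752755961856) * γ 9 + (887562096640) * γ 10 + (162899470080) * γ 11
       + (29331521920) * γ 12 + (5170420800) * γ 13 + (890001440) * γ 14 + (149136160) * γ 15 := by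
  rw [m30_6]
  simp only [m30_0, m30_1, m30_2, m30_3, m30_4, m30_5, m30_6, m30_7, m30_8, m30_9, m30_10, m30_11, m30_12, m30_13, m30_14, m30_15]
  ring

theorem mm30_7 (γ : ℕ → ℝ) : Mat 30 (Mat 30 γ) 7 =
      (245784336362539991040) * γ 0 + (54793142221184024576) * γ 1 + (12142472388651343872) * γ 2
       + (2673996079829409792) * γ 3 + (584976902363975680) * γ 4 + (127080447258521600) * γ 5
       + (27403298312239104) * γ 6 + (5862934942316544) * γ 7 + (1243938263929856) * γ 8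
       + (261585450642432) * γ 9 + (54486765800960) * γ 10 + (11233891880448) * γ 11
       + (2290824182016) * γ 12 + (461625922816) * γ 13 + (91830047360) * γ 14
       + (18012232320) * γ 15 := by
  rw [m30_7]
  simp only [m30_0, m30_1, m30_2, m30_3, m30_4, m30_5, m30_6, m30_7, m30_8, m30_9, m30_10, m30_11, m30_12, m30_13, m30_14, m30_15]
  ring

theorem mm30_8 (γ : ℕ → ℝ) : Mat 30 (Mat 30 γ) 8 =
      (3260477940268806635520) * γ 0 + (769149208297395978240) * γ 1
       + (180700899811082895360) * γ 2 + (42271861768323072000) * γ 3 + (9844616698280017920) * γ 4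
       + (2281976059771944960) * γ 5 + (526367834408189952) * γ 6 + (120788772861476864) * γ 7
       + (27568084519239680) * γ 8 + (6256089186631680) * γ 9 + (1411163905228800) * γ 10
       + (316285158432768) * γ 11 + (70411001450496) * γ 12 + (15562478622720) * γ 13
       + (3413419822080) * γ 14 + (742585052160) * γ 15 := by
  rw [m30_8]
  simp only [m30_0, m30_1, m30_2, m30_3, m30_4, m30_5, m30_6, m30_7, m30_8, m30_9, m30_10, m30_11, m30_12, m30_13, m30_14, m30_15]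
  ring

theorem mm30_9 (γ : ℕ → ℝ) : Mat 30 (Mat 30 γ) 9 =
      (23001319631387176468480) * γ 0 + (5684644532568557617152) * γ 1
       + (1400955430482382028800) * γ 2 + (344245955141585469440) * γ 3
       + (84330948611247636480) * γ 4 + (20593282241801748480) * γ 5 + (5012194011380318208) * γ 6
       + (1215719118436696064) * γ 7 + (293816880561586176) * γ 8 + (70743846174654464) * γ 9
       + (16966570535976960) * γ 10 + (4052398590263296) * γ 11 + (963730601639936) * γ 12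
       + (228155004739584) * γ 13 + (53756688101376) * γ 14 + (12602342338560) * γ 15 := by
  rw [m30_9]
  simp only [m30_0, m30_1, m30_2, m30_3, m30_4, m30_5, m30_6, m30_7, m30_8, m30_9, m30_10, m30_11, m30_12, m30_13, m30_14, m30_15]
  ring

theorem mm30_10 (γ : ℕ → ℝ) : Mat 30 (Mat 30 γ) 10 =
      (86433926529541135663104) * γ 0 + (22214452132501746876416) * γ 1
       + (5698272295616454328320) * γ 2 + (1458743630392964677632) * γ 3
       + (372660492665979142144) * γ 4 + (94998142728455585792) * γ 5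
       + (24163021751344300032) * γ 6 + (6131783379301040128) * γ 7 + (1552332531699220480) * γ 8
       + (392017815206363136) * γ 9 + (98743418467909632) * γ 10 + (24805463222517760) * γ 11
       + (6214066846236672) * γ 12 + (1552184084824064) * γ 13 + (386540523241472) * γ 14
       + (95956231667712) * γ 15 := by
  rw [m30_10]
  simp only [m30_0, m30_1, m30_2, m30_3, m30_4, m30_5, m30_6, m30_7, m30_8, m30_9, m30_10, m30_11, m30_12, m30_13, m30_14, m30_15]
  ring

theorem mm30_11 (γ : ℕ → ℝ) : Mat 30 (Mat 30 γ) 11 =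
      (168630114488474318929920) * γ 0 + (44814979274478956052480) * γ 1
       + (11894481875770508574720) * γ 2 + (3152721169906202050560) * γ 3
       + (834499266232728944640) * γ 4 + (220571063687561871360) * γ 5
       + (58214909142407577600) * γ 6 + (15341329129938616320) * γ 7 + (4036581923200696320) * γ 8
       + (1060387057359912960) * γ 9 + (278093981490216960) * γ 10 + (72806587238055936) * γ 11
       + (19027235231170560) * γ 12 + (4963398712950784) * γ 13 + (1292266348281856) * γ 14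
       + (335786703912960) * γ 15 := by
  rw [m30_11]
  simp only [m30_0, m30_1, m30_2, m30_3, m30_4, m30_5, m30_6, m30_7, m30_8, m30_9, m30_10, m30_11, m30_12, m30_13, m30_14, m30_15]
  ring

theorem mm30_12 (γ : ℕ → ℝ) : Mat 30 (Mat 30 γ) 12 =
      (160454787976707933470720) * γ 0 + (43898064168343402708992) * γ 1
       + (11999887582890247061504) * γ 2 + (3277469943467232722944) * γ 3
       + (894376154484524974080) * γ 4 + (243843661465512837120) * γ 5
       + (66420458744111431680) * γ 6 + (18075084036841144320) * γ 7 + (4914001194170449920) * γ 8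
       + (1334610605302087680) * γ 9 + (362097575114833920) * γ 10 + (98137536640057344) * γ 11
       + (26568639241519104) * γ 12 + (7184781352370176) * γ 13 + (1940674195095552) * γ 14
       + (523564890849280) * γ 15 := by
  rw [m30_12]
  simp only [m30_0, m30_1, m30_2, m30_3, m30_4, m30_5, m30_6, m30_7, m30_8, m30_9, m30_10, m30_11, m30_12, m30_13, m30_14, m30_15]
  ring

theorem mm30_13 (γ : ℕ → ℝ) : Mat 30 (Mat 30 γ) 13 =
      (65644280866652270100480) * γ 0 + (18422476128575832457216) * γ 1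
       + (5167636009969382326272) * γ 2 + (1448851269931656806400) * γ 3
       + (406011810228029358080) * γ 4 + (113718548675732439040) * γ 5
       + (31834376371125092352) * γ 6 + (8906933142871343104) * γ 7 + (2490697829874401280) * γ 8
       + (696095563925422080) * γ 9 + (194430948417208320) * γ 10 + (54275534242185216) * γ 11
       + (15141824775585792) * γ 12 + (4221634729738240) * γ 13 + (1176261967216640) * γ 14
       + (327522197176320) * γ 15 := by
  rw [m30_13]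
  simp only [m30_0, m30_1, m30_2, m30_3, m30_4, m30_5, m30_6, m30_7, m30_8, m30_9, m30_10, m30_11, m30_12, m30_13, m30_14, m30_15]
  ring

theorem mm30_14 (γ : ℕ → ℝ) : Mat 30 (Mat 30 γ) 14 =
      (8792879696097564426240) * γ 0 + (2523955110214111330304) * γ 1
       + (724339122470830211072) * γ 2 + (207830931178078076928) * γ 3
       + (59618959438865498112) * γ 4 + (17098678508370001920) * γ 5 + (4902781749496381440) * γ 6
       + (1405472255554617344) * γ 7 + (402809278227808256) * γ 8 + (115417541869830144) * γ 9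
       + (33062596504453120) * γ 10 + (9468744677982208) * γ 11 + (2711038042570752) * γ 12
       + (776003941040128) * γ 13 + (222062184497152) * γ 14 + (63527945502720) * γ 15 := by
  rw [m30_14]
  simp only [m30_0, m30_1, m30_2, m30_3, m30_4, m30_5, m30_6, m30_7, m30_8, m30_9, m30_10, m30_11, m30_12, m30_13, m30_14, m30_15]
  ring

theorem mm30_15 (γ : ℕ → ℝ) : Mat 30 (Mat 30 γ) 15 =
      (163358010044816818176) * γ 0 + (47846453380986699776) * γ 1 + (14013901739564990464) * γ 2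
       + (4104576788636631040) * γ 3 + (1202202707490766848) * γ 4 + (352117020663218176) * γ 5
       + (103132687581052928) * γ 6 + (30206864830496768) * γ 7 + (8847385870467072) * γ 8
       + (2591339325685760) * γ 9 + (758985716137984) * γ 10 + (222301769433088) * γ 11
       + (65110680797184) * γ 12 + (19070476877824) * γ 13 + (5585613357056) * γ 14
       + (1635988275200) * γ 15 := by
  rw [m30_15]
  simp only [m30_0, m30_1, m30_2, m30_3, m30_4, m30_5, m30_6, m30_7, m30_8, m30_9, m30_10, m30_11, m30_12, m30_13, m30_14, m30_15]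
  ring

theorem p30_0 (γ : ℕ → ℝ) (h0 : γ 0 = 1)
    (h : ∀ n < 30, 2 * (((30 : ℕ) : ℝ) - ((n : ℕ) : ℝ)) * ∑ i ∈ range (30 / 2 + 1), γ i * (cfn 30 i n : ℝ) ≤
      ((n : ℝ) + 1) * ∑ i ∈ range (30 / 2 + 1), γ i * (cfn 30 i (n + 1) : ℝ)) :
    0 < Mat 30 (Mat 30 (Mat 30 γ)) 0 := by

  rw [m30_0]
  simp only [mm30_0, mm30_1, mm30_2, mm30_3, mm30_4, mm30_5, mm30_6, mm30_7, mm30_8, mm30_9, mm30_10, mm30_11, mm30_12, mm30_13, mm30_14, mm30_15]
  linarith only [h0]

theorem p30_1 (γ : ℕ → ℝ) (h0 : γ 0 = 1)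
    (h : ∀ n < 30, 2 * (((30 : ℕ) : ℝ) - ((n : ℕ) : ℝ)) * ∑ i ∈ range (30 / 2 + 1), γ i * (cfn 30 i n : ℝ) ≤
      ((n : ℝ) + 1) * ∑ i ∈ range (30 / 2 + 1), γ i * (cfn 30 i (n + 1) : ℝ)) :
    0 < Mat 30 (Mat 30 (Mat 30 γ)) 1 := by
  have k0 := q30_0 γ h0 h
  have k1 := q30_1 γ h0 h
  have k4 := q30_4 γ h0 h
  have k6 := q30_6 γ h0 h
  have k2 := q30_2 γ h0 h
  have k7 := q30_7 γ h0 h
  have k5 := q30_5 γ h0 h
  have k3 := q30_3 γ h0 h
  rw [m30_1]
  simp only [mm30_0, mm30_1, mm30_2, mm30_3, mm30_4, mm30_5, mm30_6, mm30_7, mm30_8, mm30_9, mm30_10, mm30_11, mm30_12, mm30_13, mm30_14, mm30_15]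
  linarith only [h0, k0, k1, k4, k6, k2, k7, k5, k3]

theorem p30_2 (γ : ℕ → ℝ) (h0 : γ 0 = 1)
    (h : ∀ n < 30, 2 * (((30 : ℕ) : ℝ) - ((n : ℕ) : ℝ)) * ∑ i ∈ range (30 / 2 + 1), γ i * (cfn 30 i n : ℝ) ≤
      ((n : ℝ) + 1) * ∑ i ∈ range (30 / 2 + 1), γ i * (cfn 30 i (n + 1) : ℝ)) :
    0 < Mat 30 (Mat 30 (Mat 30 γ)) 2 := by
  have k0 := q30_0 γ h0 h
  have k2 := q30_2 γ h0 h
  have k4 := q30_4 γ h0 h
  have k1 := q30_1 γ h0 h
  have k8 := q30_8 γ h0 h
  have k3 := q30_3 γ h0 h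
  have k11 := q30_11 γ h0 h
  have k5 := q30_5 γ h0 h
  have k13 := q30_13 γ h0 h
  have k7 := q30_7 γ h0 h
  have k6 := q30_6 γ h0 h
  have k14 := q30_14 γ h0 h
  have k9 := q30_9 γ h0 h
  have k12 := q30_12 γ h0 h
  have k10 := q30_10 γ h0 h
  rw [m30_2]
  simp only [mm30_0, mm30_1, mm30_2, mm30_3, mm30_4, mm30_5, mm30_6, mm30_7, mm30_8, mm30_9, mm30_10, mm30_11, mm30_12, mm30_13, mm30_14, mm30_15]
  linarith only [h0, k0, k2, k4, k1, k8, k3, k11, k5, k13, k7, k6, k14, k9, k12, k10]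

theorem p30_3 (γ : ℕ → ℝ) (h0 : γ 0 = 1)
    (h : ∀ n < 30, 2 * (((30 : ℕ) : ℝ) - ((n : ℕ) : ℝ)) * ∑ i ∈ range (30 / 2 + 1), γ i * (cfn 30 i n : ℝ) ≤
      ((n : ℝ) + 1) * ∑ i ∈ range (30 / 2 + 1), γ i * (cfn 30 i (n + 1) : ℝ)) :
    0 < Mat 30 (Mat 30 (Mat 30 γ)) 3 := by
  have k0 := q30_0 γ h0 h
  have k3 := q30_3 γ h0 h
  have k13 := q30_13 γ h0 h
  have k8 := q30_8 γ h0 h
  have k17 := q30_17 γ h0 h
  have k1 := q30_1 γ h0 h
  have k2 := q30_2 γ h0 h
  have k4 := q30_4 γ h0 h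
  have k16 := q30_16 γ h0 h
  have k7 := q30_7 γ h0 h
  have k10 := q30_10 γ h0 h
  have k5 := q30_5 γ h0 h
  have k14 := q30_14 γ h0 h
  have k11 := q30_11 γ h0 h
  have k6 := q30_6 γ h0 h
  rw [m30_3]
  simp only [mm30_0, mm30_1, mm30_2, mm30_3, mm30_4, mm30_5, mm30_6, mm30_7, mm30_8, mm30_9, mm30_10, mm30_11, mm30_12, mm30_13, mm30_14, mm30_15]
  linarith only [h0, k0, k3, k13, k8, k17, k1, k2, k4, k16, k7, k10, k5, k14, k11, k6]

theorem p30_4 (γ : ℕ → ℝ) (h0 : γ 0 = 1)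
    (h : ∀ n < 30, 2 * (((30 : ℕ) : ℝ) - ((n : ℕ) : ℝ)) * ∑ i ∈ range (30 / 2 + 1), γ i * (cfn 30 i n : ℝ) ≤
      ((n : ℝ) + 1) * ∑ i ∈ range (30 / 2 + 1), γ i * (cfn 30 i (n + 1) : ℝ)) :
    0 < Mat 30 (Mat 30 (Mat 30 γ)) 4 := by
  have k14 := q30_14 γ h0 h
  have k4 := q30_4 γ h0 h
  have k0 := q30_0 γ h0 h
  have k1 := q30_1 γ h0 h
  have k6 := q30_6 γ h0 h
  have k9 := q30_9 γ h0 h
  have k18 := q30_18 γ h0 h
  have k2 := q30_2 γ h0 h
  have k3 := q30_3 γ h0 h
  have k11 := q30_11 γ h0 h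
  have k5 := q30_5 γ h0 h
  have k19 := q30_19 γ h0 h
  have k15 := q30_15 γ h0 h
  have k8 := q30_8 γ h0 h
  have k12 := q30_12 γ h0 h
  rw [m30_4]
  simp only [mm30_0, mm30_1, mm30_2, mm30_3, mm30_4, mm30_5, mm30_6, mm30_7, mm30_8, mm30_9, mm30_10, mm30_11, mm30_12, mm30_13, mm30_14, mm30_15]
  linarith only [h0, k14, k4, k0, k1, k6, k9, k18, k2, k3, k11, k5, k19, k15, k8, k12]

theorem p30_5 (γ : ℕ → ℝ) (h0 : γ 0 = 1)
    (h : ∀ n < 30, 2 * (((30 : ℕ) : ℝ) - ((n : ℕ) : ℝ)) * ∑ i ∈ range (30 / 2 + 1), γ i * (cfn 30 i n : ℝ) ≤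
      ((n : ℝ) + 1) * ∑ i ∈ range (30 / 2 + 1), γ i * (cfn 30 i (n + 1) : ℝ)) :
    0 < Mat 30 (Mat 30 (Mat 30 γ)) 5 := by
  have k2 := q30_2 γ h0 h
  have k3 := q30_3 γ h0 h
  have k6 := q30_6 γ h0 h
  have k0 := q30_0 γ h0 h
  have k20 := q30_20 γ h0 h
  have k1 := q30_1 γ h0 h
  have k19 := q30_19 γ h0 h
  have k8 := q30_8 γ h0 h
  have k4 := q30_4 γ h0 h
  have k5 := q30_5 γ h0 h
  have k12 := q30_12 γ h0 h
  have k15 := q30_15 γ h0 h
  have k11 := q30_11 γ h0 h
  have k16 := q30_16 γ h0 h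
  have k9 := q30_9 γ h0 h
  rw [m30_5]
  simp only [mm30_0, mm30_1, mm30_2, mm30_3, mm30_4, mm30_5, mm30_6, mm30_7, mm30_8, mm30_9, mm30_10, mm30_11, mm30_12, mm30_13, mm30_14, mm30_15]
  linarith only [h0, k2, k3, k6, k0, k20, k1, k19, k8, k4, k5, k12, k15, k11, k16, k9]

theorem p30_6 (γ : ℕ → ℝ) (h0 : γ 0 = 1)
    (h : ∀ n < 30, 2 * (((30 : ℕ) : ℝ) - ((n : ℕ) : ℝ)) * ∑ i ∈ range (30 / 2 + 1), γ i * (cfn 30 i n : ℝ) ≤
      ((n : ℝ) + 1) * ∑ i ∈ range (30 / 2 + 1), γ i * (cfn 30 i (n + 1) : ℝ)) :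
    0 < Mat 30 (Mat 30 (Mat 30 γ)) 6 := by
  have k5 := q30_5 γ h0 h
  have k4 := q30_4 γ h0 h
  have k20 := q30_20 γ h0 h
  have k0 := q30_0 γ h0 h
  have k1 := q30_1 γ h0 h
  have k6 := q30_6 γ h0 h
  have k3 := q30_3 γ h0 h
  have k12 := q30_12 γ h0 h
  have k2 := q30_2 γ h0 h
  have k16 := q30_16 γ h0 h
  have k21 := q30_21 γ h0 h
  have k15 := q30_15 γ h0 h
  have k11 := q30_11 γ h0 h
  have k8 := q30_8 γ h0 h
  have k9 := q30_9 γ h0 h
  rw [m30_6]
  simp only [mm30_0, mm30_1, mm30_2, mm30_3, mm30_4, mm30_5, mm30_6, mm30_7, mm30_8, mm30_9, mm30_10, mm30_11, mm30_12, mm30_13, mm30_14, mm30_15]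
  linarith only [h0, k5, k4, k20, k0, k1, k6, k3, k12, k2, k16, k21, k15, k11, k8, k9]

theorem p30_7 (γ : ℕ → ℝ) (h0 : γ 0 = 1)
    (h : ∀ n < 30, 2 * (((30 : ℕ) : ℝ) - ((n : ℕ) : ℝ)) * ∑ i ∈ range (30 / 2 + 1), γ i * (cfn 30 i n : ℝ) ≤
      ((n : ℝ) + 1) * ∑ i ∈ range (30 / 2 + 1), γ i * (cfn 30 i (n + 1) : ℝ)) :
    0 < Mat 30 (Mat 30 (Mat 30 γ)) 7 := by
  have k6 := q30_6 γ h0 h
  have k0 := q30_0 γ h0 h
  have k5 := q30_5 γ h0 h
  have k4 := q30_4 γ h0 h
  have k3 := q30_3 γ h0 h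
  have k1 := q30_1 γ h0 h
  have k2 := q30_2 γ h0 h
  have k21 := q30_21 γ h0 h
  have k15 := q30_15 γ h0 h
  have k11 := q30_11 γ h0 h
  have k22 := q30_22 γ h0 h
  have k8 := q30_8 γ h0 h
  have k16 := q30_16 γ h0 h
  have k12 := q30_12 γ h0 h
  have k9 := q30_9 γ h0 h
  rw [m30_7]
  simp only [mm30_0, mm30_1, mm30_2, mm30_3, mm30_4, mm30_5, mm30_6, mm30_7, mm30_8, mm30_9, mm30_10, mm30_11, mm30_12, mm30_13, mm30_14, mm30_15]
  linarith only [h0, k6, k0, k5, k4, k3, k1, k2, k21, k15, k11, k22, k8, k16, k12, k9]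

theorem p30_8 (γ : ℕ → ℝ) (h0 : γ 0 = 1)
    (h : ∀ n < 30, 2 * (((30 : ℕ) : ℝ) - ((n : ℕ) : ℝ)) * ∑ i ∈ range (30 / 2 + 1), γ i * (cfn 30 i n : ℝ) ≤
      ((n : ℝ) + 1) * ∑ i ∈ range (30 / 2 + 1), γ i * (cfn 30 i (n + 1) : ℝ)) :
    0 < Mat 30 (Mat 30 (Mat 30 γ)) 8 := by
  have k0 := q30_0 γ h0 h
  have k8 := q30_8 γ h0 h
  have k2 := q30_2 γ h0 h
  have k21 := q30_21 γ h0 h
  have k3 := q30_3 γ h0 h
  have k1 := q30_1 γ h0 h
  have k6 := q30_6 γ h0 h
  have k5 := q30_5 γ h0 h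
  have k4 := q30_4 γ h0 h
  have k11 := q30_11 γ h0 h
  have k9 := q30_9 γ h0 h
  have k22 := q30_22 γ h0 h
  have k16 := q30_16 γ h0 h
  have k12 := q30_12 γ h0 h
  have k17 := q30_17 γ h0 h
  rw [m30_8]
  simp only [mm30_0, mm30_1, mm30_2, mm30_3, mm30_4, mm30_5, mm30_6, mm30_7, mm30_8, mm30_9, mm30_10, mm30_11, mm30_12, mm30_13, mm30_14, mm30_15]
  linarith only [h0, k0, k8, k2, k21, k3, k1, k6, k5, k4, k11, k9, k22, k16, k12, k17]

theorem p30_9 (γ : ℕ → ℝ) (h0 : γ 0 = 1)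
    (h : ∀ n < 30, 2 * (((30 : ℕ) : ℝ) - ((n : ℕ) : ℝ)) * ∑ i ∈ range (30 / 2 + 1), γ i * (cfn 30 i n : ℝ) ≤
      ((n : ℝ) + 1) * ∑ i ∈ range (30 / 2 + 1), γ i * (cfn 30 i (n + 1) : ℝ)) :
    0 < Mat 30 (Mat 30 (Mat 30 γ)) 9 := by
  have k22 := q30_22 γ h0 h
  have k1 := q30_1 γ h0 h
  have k9 := q30_9 γ h0 h
  have k16 := q30_16 γ h0 h
  have k0 := q30_0 γ h0 h
  have k3 := q30_3 γ h0 h
  have k2 := q30_2 γ h0 h
  have k5 := q30_5 γ h0 h
  have k4 := q30_4 γ h0 h
  have k17 := q30_17 γ h0 h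
  have k6 := q30_6 γ h0 h
  have k8 := q30_8 γ h0 h
  have k11 := q30_11 γ h0 h
  have k12 := q30_12 γ h0 h
  have k23 := q30_23 γ h0 h
  rw [m30_9]
  simp only [mm30_0, mm30_1, mm30_2, mm30_3, mm30_4, mm30_5, mm30_6, mm30_7, mm30_8, mm30_9, mm30_10, mm30_11, mm30_12, mm30_13, mm30_14, mm30_15]
  linarith only [h0, k22, k1, k9, k16, k0, k3, k2, k5, k4, k17, k6, k8, k11, k12, k23]

theorem p30_10 (γ : ℕ → ℝ) (h0 : γ 0 = 1)
    (h : ∀ n < 30, 2 * (((30 : ℕ) : ℝ) - ((n : ℕ) : ℝ)) * ∑ i ∈ range (30 / 2 + 1), γ i * (cfn 30 i n : ℝ) ≤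
      ((n : ℝ) + 1) * ∑ i ∈ range (30 / 2 + 1), γ i * (cfn 30 i (n + 1) : ℝ)) :
    0 < Mat 30 (Mat 30 (Mat 30 γ)) 10 := by
  have k1 := q30_1 γ h0 h
  have k23 := q30_23 γ h0 h
  have k2 := q30_2 γ h0 h
  have k0 := q30_0 γ h0 h
  have k3 := q30_3 γ h0 h
  have k17 := q30_17 γ h0 h
  have k22 := q30_22 γ h0 h
  have k5 := q30_5 γ h0 h
  have k16 := q30_16 γ h0 h
  have k4 := q30_4 γ h0 h
  have k6 := q30_6 γ h0 h
  have k8 := q30_8 γ h0 h
  have k11 := q30_11 γ h0 h
  have k12 := q30_12 γ h0 h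
  have k9 := q30_9 γ h0 h
  rw [m30_10]
  simp only [mm30_0, mm30_1, mm30_2, mm30_3, mm30_4, mm30_5, mm30_6, mm30_7, mm30_8, mm30_9, mm30_10, mm30_11, mm30_12, mm30_13, mm30_14, mm30_15]
  linarith only [h0, k1, k23, k2, k0, k3, k17, k22, k5, k16, k4, k6, k8, k11, k12, k9]

theorem p30_11 (γ : ℕ → ℝ) (h0 : γ 0 = 1)
    (h : ∀ n < 30, 2 * (((30 : ℕ) : ℝ) - ((n : ℕ) : ℝ)) * ∑ i ∈ range (30 / 2 + 1), γ i * (cfn 30 i n : ℝ) ≤
      ((n : ℝ) + 1) * ∑ i ∈ range (30 / 2 + 1), γ i * (cfn 30 i (n + 1) : ℝ)) :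
    0 < Mat 30 (Mat 30 (Mat 30 γ)) 11 := by
  have k0 := q30_0 γ h0 h
  have k1 := q30_1 γ h0 h
  have k17 := q30_17 γ h0 h
  have k3 := q30_3 γ h0 h
  have k6 := q30_6 γ h0 h
  have k22 := q30_22 γ h0 h
  have k8 := q30_8 γ h0 h
  have k2 := q30_2 γ h0 h
  have k4 := q30_4 γ h0 h
  have k5 := q30_5 γ h0 h
  have k23 := q30_23 γ h0 h
  have k16 := q30_16 γ h0 h
  have k11 := q30_11 γ h0 h
  have k12 := q30_12 γ h0 h
  have k9 := q30_9 γ h0 h
  rw [m30_11]
  simp only [mm30_0, mm30_1, mm30_2, mm30_3, mm30_4, mm30_5, mm30_6, mm30_7, mm30_8, mm30_9, mm30_10, mm30_11, mm30_12, mm30_13, mm30_14, mm30_15]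
  linarith only [h0, k0, k1, k17, k3, k6, k22, k8, k2, k4, k5, k23, k16, k11, k12, k9]

theorem p30_12 (γ : ℕ → ℝ) (h0 : γ 0 = 1)
    (h : ∀ n < 30, 2 * (((30 : ℕ) : ℝ) - ((n : ℕ) : ℝ)) * ∑ i ∈ range (30 / 2 + 1), γ i * (cfn 30 i n : ℝ) ≤
      ((n : ℝ) + 1) * ∑ i ∈ range (30 / 2 + 1), γ i * (cfn 30 i (n + 1) : ℝ)) :
    0 < Mat 30 (Mat 30 (Mat 30 γ)) 12 := by
  have k3 := q30_3 γ h0 h
  have k1 := q30_1 γ h0 h
  have k5 := q30_5 γ h0 h
  have k8 := q30_8 γ h0 h
  have k0 := q30_0 γ h0 h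
  have k6 := q30_6 γ h0 h
  have k24 := q30_24 γ h0 h
  have k2 := q30_2 γ h0 h
  have k4 := q30_4 γ h0 h
  have k23 := q30_23 γ h0 h
  have k12 := q30_12 γ h0 h
  have k16 := q30_16 γ h0 h
  have k11 := q30_11 γ h0 h
  have k17 := q30_17 γ h0 h
  have k9 := q30_9 γ h0 h
  rw [m30_12]
  simp only [mm30_0, mm30_1, mm30_2, mm30_3, mm30_4, mm30_5, mm30_6, mm30_7, mm30_8, mm30_9, mm30_10, mm30_11, mm30_12, mm30_13, mm30_14, mm30_15]
  linarith only [h0, k3, k1, k5, k8, k0, k6, k24, k2, k4, k23, k12, k16, k11, k17, k9]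

theorem p30_13 (γ : ℕ → ℝ) (h0 : γ 0 = 1)
    (h : ∀ n < 30, 2 * (((30 : ℕ) : ℝ) - ((n : ℕ) : ℝ)) * ∑ i ∈ range (30 / 2 + 1), γ i * (cfn 30 i n : ℝ) ≤
      ((n : ℝ) + 1) * ∑ i ∈ range (30 / 2 + 1), γ i * (cfn 30 i (n + 1) : ℝ)) :
    0 < Mat 30 (Mat 30 (Mat 30 γ)) 13 := by
  have k0 := q30_0 γ h0 h
  have k8 := q30_8 γ h0 h
  have k23 := q30_23 γ h0 h
  have k1 := q30_1 γ h0 h
  have k6 := q30_6 γ h0 h
  have k2 := q30_2 γ h0 h
  have k5 := q30_5 γ h0 h
  have k16 := q30_16 γ h0 h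
  have k4 := q30_4 γ h0 h
  have k3 := q30_3 γ h0 h
  have k12 := q30_12 γ h0 h
  have k24 := q30_24 γ h0 h
  have k11 := q30_11 γ h0 h
  have k17 := q30_17 γ h0 h
  have k9 := q30_9 γ h0 h
  rw [m30_13]
  simp only [mm30_0, mm30_1, mm30_2, mm30_3, mm30_4, mm30_5, mm30_6, mm30_7, mm30_8, mm30_9, mm30_10, mm30_11, mm30_12, mm30_13, mm30_14, mm30_15]
  linarith only [h0, k0, k8, k23, k1, k6, k2, k5, k16, k4, k3, k12, k24, k11, k17, k9]

theorem p30_14 (γ : ℕ → ℝ) (h0 : γ 0 = 1)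
    (h : ∀ n < 30, 2 * (((30 : ℕ) : ℝ) - ((n : ℕ) : ℝ)) * ∑ i ∈ range (30 / 2 + 1), γ i * (cfn 30 i n : ℝ) ≤
      ((n : ℝ) + 1) * ∑ i ∈ range (30 / 2 + 1), γ i * (cfn 30 i (n + 1) : ℝ)) :
    0 < Mat 30 (Mat 30 (Mat 30 γ)) 14 := by
  have k1 := q30_1 γ h0 h
  have k2 := q30_2 γ h0 h
  have k8 := q30_8 γ h0 h
  have k12 := q30_12 γ h0 h
  have k0 := q30_0 γ h0 h
  have k4 := q30_4 γ h0 h
  have k5 := q30_5 γ h0 h
  have k25 := q30_25 γ h0 h
  have k6 := q30_6 γ h0 h
  have k3 := q30_3 γ h0 h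
  have k24 := q30_24 γ h0 h
  have k16 := q30_16 γ h0 h
  have k11 := q30_11 γ h0 h
  have k17 := q30_17 γ h0 h
  have k9 := q30_9 γ h0 h
  rw [m30_14]
  simp only [mm30_0, mm30_1, mm30_2, mm30_3, mm30_4, mm30_5, mm30_6, mm30_7, mm30_8, mm30_9, mm30_10, mm30_11, mm30_12, mm30_13, mm30_14, mm30_15]
  linarith only [h0, k1, k2, k8, k12, k0, k4, k5, k25, k6, k3, k24, k16, k11, k17, k9]

theorem p30_15 (γ : ℕ → ℝ) (h0 : γ 0 = 1)
    (h : ∀ n < 30, 2 * (((30 : ℕ) : ℝ) - ((n : ℕ) : ℝ)) * ∑ i ∈ range (30 / 2 + 1), γ i * (cfn 30 i n : ℝ) ≤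
      ((n : ℝ) + 1) * ∑ i ∈ range (30 / 2 + 1), γ i * (cfn 30 i (n + 1) : ℝ)) :
    0 < Mat 30 (Mat 30 (Mat 30 γ)) 15 := by
  have k0 := q30_0 γ h0 h
  have k6 := q30_6 γ h0 h
  have k17 := q30_17 γ h0 h
  have k1 := q30_1 γ h0 h
  have k2 := q30_2 γ h0 h
  have k11 := q30_11 γ h0 h
  have k5 := q30_5 γ h0 h
  have k8 := q30_8 γ h0 h
  have k24 := q30_24 γ h0 h
  have k3 := q30_3 γ h0 h
  have k4 := q30_4 γ h0 h
  have k16 := q30_16 γ h0 h
  have k25 := q30_25 γ h0 h
  have k12 := q30_12 γ h0 h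
  have k9 := q30_9 γ h0 h
  rw [m30_15]
  simp only [mm30_0, mm30_1, mm30_2, mm30_3, mm30_4, mm30_5, mm30_6, mm30_7, mm30_8, mm30_9, mm30_10, mm30_11, mm30_12, mm30_13, mm30_14, mm30_15]
  linarith only [h0, k0, k6, k17, k1, k2, k11, k5, k8, k24, k3, k4, k16, k25, k12, k9]

theorem main30 (γ : ℕ → ℝ) (h0 : γ 0 = 1)
    (h : ∀ n < 30, 2 * (((30 : ℕ) : ℝ) - ((n : ℕ) : ℝ)) * ∑ i ∈ range (30 / 2 + 1), γ i * (cfn 30 i n : ℝ) ≤
      ((n : ℝ) + 1) * ∑ i ∈ range (30 / 2 + 1), γ i * (cfn 30 i (n + 1) : ℝ)) :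
    ∀ j ≤ 30 / 2, 0 < Mat 30 (Mat 30 (Mat 30 γ)) j := by
  intro j hj
  have hj' : j ≤ 15 := hj
  clear hj
  interval_cases j
  · exact p30_0 γ h0 h
  · exact p30_1 γ h0 h
  · exact p30_2 γ h0 h
  · exact p30_3 γ h0 h
  · exact p30_4 γ h0 h
  · exact p30_5 γ h0 h
  · exact p30_6 γ h0 h
  · exact p30_7 γ h0 h
  · exact p30_8 γ h0 h
  · exact p30_9 γ h0 h
  · exact p30_10 γ h0 h
  · exact p30_11 γ h0 h
  · exact p30_12 γ h0 h
  · exact p30_13 γ h0 h
  · exact p30_14 γ h0 h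
  · exact p30_15 γ h0 h

theorem c31_0 (γ : ℕ → ℝ) : ∑ i ∈ range (31 / 2 + 1), γ i * (cfn 31 i 0 : ℝ) =
    (1) * γ 0 + (0) * γ 1 + (0) * γ 2 + (0) * γ 3 + (0) * γ 4 + (0) * γ 5 + (0) * γ 6 + (0) * γ 7
       + (0) * γ 8 + (0) * γ 9 + (0) * γ 10 + (0) * γ 11 + (0) * γ 12 + (0) * γ 13 + (0) * γ 14
       + (0) * γ 15 := by
  have h : ((31 / 2 + 1 : ℕ)) = 16 := rfl
  rw [h]
  simp only [sum_range_succ, sum_range_zero, show cfn 31 0 0 = 1 from by decide +kernel, show cfn 31 1 0 = 0 from by decide +kernel, show cfn 31 2 0 = 0 from by decide +kernel, show cfn 31 3 0 = 0 from by decide +kernel, show cfn 31 4 0 = 0 from by decide +kernel, show cfn 31 5 0 = 0 from by decide +kernel, show cfn 31 6 0 = 0 from by decide +kernel, show cfn 31 7 0 = 0 from by decide +kernel, show cfn 31 8 0 = 0 from by decide +kernel, show cfn 31 9 0 = 0 from by decide +kernel, show cfn 31 10 0 = 0 from by decide +kernel, show cfn 31 11 0 = 0 from by decide +kernel,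 show cfn 31 12 0 = 0 from by decide +kernel, show cfn 31 13 0 = 0 from by decide +kernel, show cfn 31 14 0 = 0 from by decide +kernel, show cfn 31 15 0 = 0 from by decide +kernel, Nat.cast_ofNat, Nat.cast_one, Nat.cast_zero]
  ring

theorem c31_1 (γ : ℕ → ℝ) : ∑ i ∈ range (31 / 2 + 1), γ i * (cfn 31 i 1 : ℝ) =
    (62) * γ 0 + (1) * γ 1 + (0) * γ 2 + (0) * γ 3 + (0) * γ 4 + (0) * γ 5 + (0) * γ 6
       + (0) * γ 7 + (0) * γ 8 + (0) * γ 9 + (0) * γ 10 + (0) * γ 11 + (0) * γ 12 + (0) * γ 13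
       + (0) * γ 14 + (0) * γ 15 := by
  have h : ((31 / 2 + 1 : ℕ)) = 16 := rfl
  rw [h]
  simp only [sum_range_succ, sum_range_zero, show cfn 31 0 1 = 62 from by decide +kernel, show cfn 31 1 1 = 1 from by decide +kernel, show cfn 31 2 1 = 0 from by decide +kernel, show cfn 31 3 1 = 0 from by decide +kernel, show cfn 31 4 1 = 0 from by decide +kernel, show cfn 31 5 1 = 0 from by decide +kernel, show cfn 31 6 1 = 0 from by decide +kernel, show cfn 31 7 1 = 0 from by decide +kernel, show cfn 31 8 1 = 0 from by decide +kernel, show cfn 31 9 1 = 0 from by decide +kernel, show cfn 31 10 1 = 0 from by decide +kernel, show cfn 31 11 1 = 0 from by decide +kernel, show cfn 31 12 1 = 0 from by decide +kernel, show cfn 31 13 1 = 0 from by decide +kernel, show cfn 31 14 1 = 0 from by decide +kernel, show cfn 31 15 1 = 0 from by decide +kernel, Nat.cast_ofNat, Nat.cast_one, Nat.cast_zero]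
  ring

theorem c31_2 (γ : ℕ → ℝ) : ∑ i ∈ range (31 / 2 + 1), γ i * (cfn 31 i 2 : ℝ) =
    (1860) * γ 0 + (59) * γ 1 + (1) * γ 2 + (0) * γ 3 + (0) * γ 4 + (0) * γ 5 + (0) * γ 6
       + (0) * γ 7 + (0) * γ 8 + (0) * γ 9 + (0) * γ 10 + (0) * γ 11 + (0) * γ 12 + (0) * γ 13
       + (0) * γ 14 + (0) * γ 15 := by
  have h : ((31 / 2 + 1 : ℕ)) = 16 := rfl
  rw [h]
  simp only [sum_range_succ, sum_range_zero, show cfn 31 0 2 = 1860 from by decide +kernel, show cfn 31 1 2 = 59 from by decide +kernel, show cfn 31 2 2 = 1 from by decide +kernel, show cfn 31 3 2 = 0 from by decide +kernel, show cfn 31 4 2 = 0 from by decide +kernel, show cfn 31 5 2 = 0 from by decide +kernel, show cfn 31 6 2 = 0 from by decide +kernel, show cfn 31 7 2 = 0 from by decide +kernel, show cfn 31 8 2 = 0 from by decide +kernel, show cfn 31 9 2 = 0 from by decide +kernel, show cfn 31 10 2 = 0 from by decide +kernel, show cfn 31 11 2 = 0 from by decide +kernel, show cfn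 31 12 2 = 0 from by decide +kernel, show cfn 31 13 2 = 0 from by decide +kernel, show cfn 31 14 2 = 0 from by decide +kernel, show cfn 31 15 2 = 0 from by decide +kernel, Nat.cast_ofNat, Nat.cast_one, Nat.cast_zero]
  ring

theorem c31_3 (γ : ℕ → ℝ) : ∑ i ∈ range (31 / 2 + 1), γ i * (cfn 31 i 3 : ℝ) =
    (35960) * γ 0 + (1682) * γ 1 + (56) * γ 2 + (1) * γ 3 + (0) * γ 4 + (0) * γ 5 + (0) * γ 6
       + (0) * γ 7 + (0) * γ 8 + (0) * γ 9 + (0) * γ 10 + (0) * γ 11 + (0) * γ 12 + (0) * γ 13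
       + (0) * γ 14 + (0) * γ 15 := by
  have h : ((31 / 2 + 1 : ℕ)) = 16 := rfl
  rw [h]
  simp only [sum_range_succ, sum_range_zero, show cfn 31 0 3 = 35960 from by decide +kernel, show cfn 31 1 3 = 1682 from by decide +kernel, show cfn 31 2 3 = 56 from by decide +kernel, show cfn 31 3 3 = 1 from by decide +kernel, show cfn 31 4 3 = 0 from by decide +kernel, show cfn 31 5 3 = 0 from by decide +kernel, show cfn 31 6 3 = 0 from by decide +kernel, show cfn 31 7 3 = 0 from by decide +kernel, show cfn 31 8 3 = 0 from by decide +kernel, show cfn 31 9 3 = 0 from by decide +kernel, show cfn 31 10 3 = 0 from by decide +kernel, show cfn 31 11 3 = 0 from by decide +kernel, show cfn 31 12 3 = 0 from by decide +kernel, show cfn 31 13 3 = 0 from by decide +kernel, show cfn 31 14 3 = 0 from by decide +kernel, show cfn 31 15 3 = 0 from by decide +kernel, Nat.cast_ofNat, Nat.cast_one, Nat.cast_zero]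
  ring

theorem c31_4 (γ : ℕ → ℝ) : ∑ i ∈ range (31 / 2 + 1), γ i * (cfn 31 i 4 : ℝ) =
    (503440) * γ 0 + (30856) * γ 1 + (1513) * γ 2 + (53) * γ 3 + (1) * γ 4 + (0) * γ 5
       + (0) * γ 6 + (0) * γ 7 + (0) * γ 8 + (0) * γ 9 + (0) * γ 10 + (0) * γ 11 + (0) * γ 12
       + (0) * γ 13 + (0) * γ 14 + (0) * γ 15 := by
  have h : ((31 / 2 + 1 : ℕ)) = 16 := rfl
  rw [h]
  simp only [sum_range_succ, sum_range_zero, show cfn 31 0 4 = 503440 from by decide +kernel, show cfn 31 1 4 = 30856 from by decide +kernel, show cfn 31 2 4 = 1513 from by decide +kernel, show cfn 31 3 4 = 53 from by decide +kernel, show cfn 31 4 4 = 1 from by decide +kernel, show cfn 31 5 4 = 0 from by decide +kernel, show cfn 31 6 4 = 0 from by decide +kernel, show cfn 31 7 4 = 0 from by decide +kernel, show cfn 31 8 4 = 0 from by decide +kernel, show cfn 31 9 4 = 0 from by decide +kernel, show cfn 31 10 4 = 0 from by decide +kernel, show cfn 31 11 4 = 0 from by decide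 +kernel, show cfn 31 12 4 = 0 from by decide +kernel, show cfn 31 13 4 = 0 from by decide +kernel, show cfn 31 14 4 = 0 from by decide +kernel, show cfn 31 15 4 = 0 from by decide +kernel, Nat.cast_ofNat, Nat.cast_one, Nat.cast_zero]
  ring

theorem c31_5 (γ : ℕ → ℝ) : ∑ i ∈ range (31 / 2 + 1), γ i * (cfn 31 i 5 : ℝ) =
    (5437152) * γ 0 + (409248) * γ 1 + (26262) * γ 2 + (1353) * γ 3 + (50) * γ 4 + (1) * γ 5
       + (0) * γ 6 + (0) * γ 7 + (0) * γ 8 + (0) * γ 9 + (0) * γ 10 + (0) * γ 11 + (0) * γ 12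
       + (0) * γ 13 + (0) * γ 14 + (0) * γ 15 := by
  have h : ((31 / 2 + 1 : ℕ)) = 16 := rfl
  rw [h]
  simp only [sum_range_succ, sum_range_zero, show cfn 31 0 5 = 5437152 from by decide +kernel, show cfn 31 1 5 = 409248 from by decide +kernel, show cfn 31 2 5 = 26262 from by decide +kernel, show cfn 31 3 5 = 1353 from by decide +kernel, show cfn 31 4 5 = 50 from by decide +kernel, show cfn 31 5 5 = 1 from by decide +kernel, show cfn 31 6 5 = 0 from by decide +kernel, show cfn 31 7 5 = 0 from by decide +kernel, show cfn 31 8 5 = 0 from by decide +kernel, show cfn 31 9 5 = 0 from by decide +kernel, show cfn 31 10 5 = 0 from by decide +kernel, show cfn 31 11 5 = 0 from by decide +kernel, show cfn 31 12 5 = 0 from by decide +kernel, show cfn 31 13 5 = 0 from by decide +kernel, show cfn 31 14 5 = 0 from by decide +kernel, show cfn 31 15 5 = 0 from by decide +kernel, Nat.cast_ofNat, Nat.cast_one, Nat.cast_zero]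
  ring

theorem c31_6 (γ : ℕ → ℝ) : ∑ i ∈ range (31 / 2 + 1), γ i * (cfn 31 i 6 : ℝ) =
    (47121984) * γ 0 + (4180176) * γ 1 + (329004) * γ 2 + (22151) * γ 3 + (1202) * γ 4
       + (47) * γ 5 + (1) * γ 6 + (0) * γ 7 + (0) * γ 8 + (0) * γ 9 + (0) * γ 10 + (0) * γ 11
       + (0) * γ 12 + (0) * γ 13 + (0) * γ 14 + (0) * γ 15 := by
  have h : ((31 / 2 + 1 : ℕ)) = 16 := rfl
  rw [h]
  simp only [sum_range_succ, sum_range_zero, show cfn 31 0 6 = 47121984 from by decide +kernel, show cfn 31 1 6 = 4180176 from by decide +kernel, show cfn 31 2 6 = 329004 from by decide +kernel, show cfn 31 3 6 = 22151 from by decide +kernel, show cfn 31 4 6 = 1202 from by decide +kernel, show cfn 31 5 6 = 47 from by decide +kernel, show cfn 31 6 6 = 1 from by decide +kernel, show cfn 31 7 6 = 0 from by decide +kernel, show cfn 31 8 6 = 0 from by decide +kernel, show cfn 31 9 6 = 0 from by decide +kernel, show cfn 31 10 6 = 0 from by decide +kernel, show cfn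 31 11 6 = 0 from by decide +kernel, show cfn 31 12 6 = 0 from by decide +kernel, show cfn 31 13 6 = 0 from by decide +kernel, show cfn 31 14 6 = 0 from by decide +kernel, show cfn 31 15 6 = 0 from by decide +kernel, Nat.cast_ofNat, Nat.cast_one, Nat.cast_zero]
  ring

theorem c31_7 (γ : ℕ → ℝ) : ∑ i ∈ range (31 / 2 + 1), γ i * (cfn 31 i 7 : ℝ) =
    (336585600) * γ 0 + (34201440) * γ 1 + (3168360) * γ 2 + (261250) * γ 3 + (18496) * γ 4
       + (1060) * γ 5 + (44) * γ 6 + (1) * γ 7 + (0) * γ 8 + (0) * γ 9 + (0) * γ 10 + (0) * γ 11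
       + (0) * γ 12 + (0) * γ 13 + (0) * γ 14 + (0) * γ 15 := by
  have h : ((31 / 2 + 1 : ℕ)) = 16 := rfl
  rw [h]
  simp only [sum_range_succ, sum_range_zero, show cfn 31 0 7 = 336585600 from by decide +kernel, show cfn 31 1 7 = 34201440 from by decide +kernel, show cfn 31 2 7 = 3168360 from by decide +kernel, show cfn 31 3 7 = 261250 from by decide +kernel, show cfn 31 4 7 = 18496 from by decide +kernel, show cfn 31 5 7 = 1060 from by decide +kernel, show cfn 31 6 7 = 44 from by decide +kernel, show cfn 31 7 7 = 1 from by decide +kernel, show cfn 31 8 7 = 0 from by decide +kernel, show cfn 31 9 7 = 0 from by decide +kernel, show cfn 31 10 7 = 0 from by decide +kernel, show cfn 31 11 7 = 0 from by decide +kernel, show cfn 31 12 7 = 0 from by decide +kernel, show cfn 31 13 7 = 0 from by decide +kernel, show cfn 31 14 7 = 0 from by decide +kernel, show cfn 31 15 7 = 0 from by decide +kernel, Nat.cast_ofNat, Nat.cast_one, Nat.cast_zero]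
  ring

theorem c31_8 (γ : ℕ → ℝ) : ∑ i ∈ range (31 / 2 + 1), γ i * (cfn 31 i 8 : ℝ) =
    (2019513600) * γ 0 + (230181120) * γ 1 + (24392160) * γ 2 + (2363760) * γ 3 + (204609) * γ 4
       + (15270) * γ 5 + (927) * γ 6 + (41) * γ 7 + (1) * γ 8 + (0) * γ 9 + (0) * γ 10 + (0) * γ 11
       + (0) * γ 12 + (0) * γ 13 + (0) * γ 14 + (0) * γ 15 := by
  have h : ((31 / 2 + 1 : ℕ)) = 16 := rfl
  rw [h]
  simp only [sum_range_succ, sum_range_zero, show cfn 31 0 8 = 2019513600 from by decide +kernel, show cfn 31 1 8 = 230181120 from by decide +kernel, show cfn 31 2 8 = 24392160 from by decide +kernel, show cfn 31 3 8 = 2363760 from by decide +kernel, show cfn 31 4 8 = 204609 from by decide +kernel, show cfn 31 5 8 = 15270 from by decide +kernel, show cfn 31 6 8 = 927 from by decide +kernel, show cfn 31 7 8 = 41 from by decide +kernel, show cfn 31 8 8 = 1 from by decide +kernel, show cfn 31 9 8 = 0 from by decide +kernel, show cfn 31 10 8 = 0 from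 by decide +kernel, show cfn 31 11 8 = 0 from by decide +kernel, show cfn 31 12 8 = 0 from by decide +kernel, show cfn 31 13 8 = 0 from by decide +kernel, show cfn 31 14 8 = 0 from by decide +kernel, show cfn 31 15 8 = 0 from by decide +kernel, Nat.cast_ofNat, Nat.cast_one, Nat.cast_zero]
  ring

theorem c31_9 (γ : ℕ → ℝ) : ∑ i ∈ range (31 / 2 + 1), γ i * (cfn 31 i 9 : ℝ) =
    (10321958400) * γ 0 + (1298568960) * γ 1 + (154140480) * γ 2 + (17060480) * γ 3
       + (1732590) * γ 4 + (157785) * γ 5 + (12446) * γ 6 + (803) * γ 7 + (38) * γ 8 + (1) * γ 9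
       + (0) * γ 10 + (0) * γ 11 + (0) * γ 12 + (0) * γ 13 + (0) * γ 14 + (0) * γ 15 := by
  have h : ((31 / 2 + 1 : ℕ)) = 16 := rfl
  rw [h]
  simp only [sum_range_succ, sum_range_zero, show cfn 31 0 9 = 10321958400 from by decide +kernel, show cfn 31 1 9 = 1298568960 from by decide +kernel, show cfn 31 2 9 = 154140480 from by decide +kernel, show cfn 31 3 9 = 17060480 from by decide +kernel, show cfn 31 4 9 = 1732590 from by decide +kernel, show cfn 31 5 9 = 157785 from by decide +kernel, show cfn 31 6 9 = 12446 from by decide +kernel, show cfn 31 7 9 = 803 from by decide +kernel, show cfn 31 8 9 = 38 from by decide +kernel, show cfn 31 9 9 = 1 from by decide +kernel, show cfn 31 10 9 = 0 from by decide +kernel, show cfn 31 11 9 = 0 from by decide +kernel, show cfn 31 12 9 = 0 from by decide +kernel, show cfn 31 13 9 = 0 from by decide +kernel, show cfn 31 14 9 = 0 from by decide +kernel, show cfn 31 15 9 = 0 from by decide +kernel,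 Nat.cast_ofNat, Nat.cast_one, Nat.cast_zero]
  ring

theorem c31_10 (γ : ℕ → ℝ) : ∑ i ∈ range (31 / 2 + 1), γ i * (cfn 31 i 10 : ℝ) =
    (45416616960) * γ 0 + (6226471680) * γ 1 + (814619520) * γ 2 + (100835680) * γ 3
       + (11675444) * γ 4 + (1244979) * γ 5 + (119563) * γ 6 + (9997) * γ 7 + (688) * γ 8
       + (35) * γ 9 + (1) * γ 10 + (0) * γ 11 + (0) * γ 12 + (0) * γ 13 + (0) * γ 14 + (0) * γ 15 := by
  have h : ((31 / 2 + 1 : ℕ)) = 16 := rfl
  rw [h]
  simp only [sum_range_succ, sum_range_zero, show cfn 31 0 10 = 45416616960 from by decide +kernel, show cfn 31 1 10 = 6226471680 from by decide +kernel, show cfn 31 2 10 = 814619520 from by decide +kernel, show cfn 31 3 10 = 100835680 from by decide +kernel, show cfn 31 4 10 = 11675444 from by decide +kernel, show cfn 31 5 10 = 1244979 from by decide +kernel, show cfn 31 6 10 = 119563 from by decide +kernel, show cfn 31 7 10 = 9997 from by decide +kernel, show cfn 31 8 10 = 688 from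 by decide +kernel, show cfn 31 9 10 = 35 from by decide +kernel, show cfn 31 10 10 = 1 from by decide +kernel, show cfn 31 11 10 = 0 from by decide +kernel, show cfn 31 12 10 = 0 from by decide +kernel, show cfn 31 13 10 = 0 from by decide +kernel, show cfn 31 14 10 = 0 from by decide +kernel, show cfn 31 15 10 = 0 from by decide +kernel, Nat.cast_ofNat, Nat.cast_one, Nat.cast_zero]
  ring

theorem c31_11 (γ : ℕ → ℝ) : ∑ i ∈ range (31 / 2 + 1), γ i * (cfn 31 i 11 : ℝ) =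
    (173408901120) * γ 0 + (25638412800) * γ 1 + (3650000640) * γ 2 + (497175360) * γ 3
       + (64264024) * γ 4 + (7796978) * γ 5 + (874728) * γ 6 + (88809) * γ 7 + (7896) * γ 8
       + (582) * γ 9 + (32) * γ 10 + (1) * γ 11 + (0) * γ 12 + (0) * γ 13 + (0) * γ 14 + (0) * γ 15 := by
  have h : ((31 / 2 + 1 : ℕ)) = 16 := rfl
  rw [h]
  simp only [sum_range_succ, sum_range_zero, show cfn 31 0 11 = 173408901120 from by decide +kernel, show cfn 31 1 11 = 25638412800 from by decide +kernel, show cfn 31 2 11 = 3650000640 from by decide +kernel, show cfn 31 3 11 = 497175360 from by decide +kernel, show cfn 31 4 11 = 64264024 from by decide +kernel, show cfn 31 5 11 = 7796978 from by decide +kernel, show cfn 31 6 11 = 874728 from by decide +kernel, show cfn 31 7 11 = 88809 from by decide +kernel, show cfn 31 8 11 = 7896 from by decide +kernel, show cfn 31 9 11 = 582 from by decide +kernel, show cfn 31 10 11 = 32 from by decide +kernel, show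 cfn 31 11 11 = 1 from by decide +kernel, show cfn 31 12 11 = 0 from by decide +kernel, show cfn 31 13 11 = 0 from by decide +kernel, show cfn 31 14 11 = 0 from by decide +kernel, show cfn 31 15 11 = 0 from by decide +kernel, Nat.cast_ofNat, Nat.cast_one, Nat.cast_zero]
  ring

theorem c31_12 (γ : ℕ → ℝ) : ∑ i ∈ range (31 / 2 + 1), γ i * (cfn 31 i 12 : ℝ) =
    (578029670400) * γ 0 + (91365980160) * γ 1 + (14006403840) * γ 2 + (2072576000) * γ 3
       + (294253168) * γ 4 + (39771640) * γ 5 + (5064793) * γ 6 + (599067) * γ 7 + (64470) * γ 8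
       + (6116) * γ 9 + (485) * γ 10 + (29) * γ 11 + (1) * γ 12 + (0) * γ 13 + (0) * γ 14
       + (0) * γ 15 := by
  have h : ((31 / 2 + 1 : ℕ)) = 16 := rfl
  rw [h]
  simp only [sum_range_succ, sum_range_zero, show cfn 31 0 12 = 578029670400 from by decide +kernel, show cfn 31 1 12 = 91365980160 from by decide +kernel, show cfn 31 2 12 = 14006403840 from by decide +kernel, show cfn 31 3 12 = 2072576000 from by decide +kernel, show cfn 31 4 12 = 294253168 from by decide +kernel, show cfn 31 5 12 = 39771640 from by decide +kernel, show cfn 31 6 12 = 5064793 from by decide +kernel, show cfn 31 7 12 = 599067 from by decide +kernel, show cfn 31 8 12 = 64470 from by decide +kernel, show cfn 31 9 12 = 6116 from by decide +kernel, show cfn 31 10 12 = 485 from by decide +kernel, show cfn 31 11 12 = 29 from by decide +kernel, show cfn 31 12 12 = 1 from by decide +kernel, show cfn 31 13 12 = 0 from by decide +kernel, show cfn 31 14 12 = 0 from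 by decide +kernel, show cfn 31 15 12 = 0 from by decide +kernel, Nat.cast_ofNat, Nat.cast_one, Nat.cast_zero]
  ring

theorem c31_13 (γ : ℕ → ℝ) : ∑ i ∈ range (31 / 2 + 1), γ i * (cfn 31 i 13 : ℝ) =
    (1689625190400) * γ 0 + (283420999680) * γ 1 + (46378775040) * γ 2 + (7377399040) * γ 3
       + (1135682592) * γ 4 + (168242720) * γ 5 + (23810534) * γ 6 + (3188017) * γ 7
       + (398412) * γ 8 + (45574) * γ 9 + (4630) * γ 10 + (397) * γ 11 + (26) * γ 12 + (1) * γ 13
       + (0) * γ 14 + (0) * γ 15 := by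
  have h : ((31 / 2 + 1 : ℕ)) = 16 := rfl
  rw [h]
  simp only [sum_range_succ, sum_range_zero, show cfn 31 0 13 = 1689625190400 from by decide +kernel, show cfn 31 1 13 = 283420999680 from by decide +kernel, show cfn 31 2 13 = 46378775040 from by decide +kernel, show cfn 31 3 13 = 7377399040 from by decide +kernel, show cfn 31 4 13 = 1135682592 from by decide +kernel, show cfn 31 5 13 = 168242720 from by decide +kernel, show cfn 31 6 13 = 23810534 from by decide +kernel, show cfn 31 7 13 = 3188017 from by decide +kernel, show cfn 31 8 13 = 398412 from by decide +kernel, show cfn 31 9 13 = 45574 from by decide +kernel, show cfn 31 10 13 = 4630 from by decide +kernel, show cfn 31 11 13 = 397 from by decide +kernel, show cfn 31 12 13 = 26 from by decide +kernel, show cfn 31 13 13 = 1 from by decide +kernel, show cfn 31 14 13 = 0 from by decide +kernel, show cfn 31 15 13 = 0 from by decide +kernel, Nat.cast_ofNat, Nat.cast_one, Nat.cast_zero]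
  ring

theorem c31_14 (γ : ℕ → ℝ) : ∑ i ∈ range (31 / 2 + 1), γ i * (cfn 31 i 14 : ℝ) =
    (4344750489600) * γ 0 + (768506941440) * γ 1 + (133246264320) * γ 2 + (22585278720) * γ 3
       + (3730232000) * γ 4 + (597878320) * γ 5 + (92513052) * γ 6 + (13726991) * γ 7
       + (1935556) * γ 8 + (256122) * γ 9 + (31230) * γ 10 + (3411) * γ 11 + (318) * γ 12
       + (23) * γ 13 + (1) * γ 14 + (0) * γ 15 := by
  have h : ((31 / 2 + 1 : ℕ)) = 16 := rfl
  rw [h]
  simp only [sum_range_succ, sum_range_zero, show cfn 31 0 14 = 4344750489600 from by decide +kernel, show cfn 31 1 14 = 768506941440 from by decide +kernel, show cfn 31 2 14 = 133246264320 from by decide +kernel, show cfn 31 3 14 = 22585278720 from by decide +kernel, show cfn 31 4 14 = 3730232000 from by decide +kernel, show cfn 31 5 14 = 597878320 from by decide +kernel, show cfn 31 6 14 = 92513052 from by decide +kernel, show cfn 31 7 14 = 13726991 from by decide +kernel, show cfn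 31 8 14 = 1935556 from by decide +kernel, show cfn 31 9 14 = 256122 from by decide +kernel, show cfn 31 10 14 = 31230 from by decide +kernel, show cfn 31 11 14 = 3411 from by decide +kernel, show cfn 31 12 14 = 318 from by decide +kernel, show cfn 31 13 14 = 23 from by decide +kernel, show cfn 31 14 14 = 1 from by decide +kernel, show cfn 31 15 14 = 0 from by decide +kernel, Nat.cast_ofNat, Nat.cast_one, Nat.cast_zero]
  ring

theorem c31_15 (γ : ℕ → ℝ) : ∑ i ∈ range (31 / 2 + 1), γ i * (cfn 31 i 15 : ℝ) =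
    (9848101109760) * γ 0 + (1826663915520) * γ 1 + (333427783680) * γ 2 + (59774328320) * γ 3
       + (10499019392) * γ 4 + (1801430432) * γ 5 + (300826696) * γ 6 + (48663554) * γ 7
       + (7579136) * γ 8 + (1127184) * γ 9 + (158256) * γ 10 + (20628) * γ 11 + (2432) * γ 12
       + (248) * γ 13 + (20) * γ 14 + (1) * γ 15 := by
  have h : ((31 / 2 + 1 : ℕ)) = 16 := rfl
  rw [h]
  simp only [sum_range_succ, sum_range_zero, show cfn 31 0 15 = 9848101109760 from by decide +kernel, show cfn 31 1 15 = 1826663915520 from by decide +kernel, show cfn 31 2 15 = 333427783680 from by decide +kernel, show cfn 31 3 15 = 59774328320 from by decide +kernel, show cfn 31 4 15 = 10499019392 from by decide +kernel, show cfn 31 5 15 = 1801430432 from by decide +kernel, show cfn 31 6 15 = 300826696 from by decide +kernel, show cfn 31 7 15 = 48663554 from by decide +kernel, show cfn 31 8 15 = 7579136 from by decide +kernel, show cfn 31 9 15 = 1127184 from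 by decide +kernel, show cfn 31 10 15 = 158256 from by decide +kernel, show cfn 31 11 15 = 20628 from by decide +kernel, show cfn 31 12 15 = 2432 from by decide +kernel, show cfn 31 13 15 = 248 from by decide +kernel, show cfn 31 14 15 = 20 from by decide +kernel, show cfn 31 15 15 = 1 from by decide +kernel, Nat.cast_ofNat, Nat.cast_one, Nat.cast_zero]
  ring

theorem c31_16 (γ : ℕ → ℝ) : ∑ i ∈ range (31 / 2 + 1), γ i * (cfn 31 i 16 : ℝ) =
    (19696202219520) * γ 0 + (3812168171520) * γ 1 + (728474664960) * γ 2 + (137235619840) * γ 3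
       + (25442601472) * γ 4 + (4632016384) * γ 5 + (825949760) * γ 6 + (143777568) * γ 7
       + (24331777) * γ 8 + (3981468) * γ 9 + (625362) * γ 10 + (93330) * γ 11 + (13039) * γ 12
       + (1666) * γ 13 + (187) * γ 14 + (17) * γ 15 := by
  have h : ((31 / 2 + 1 : ℕ)) = 16 := rfl
  rw [h]
  simp only [sum_range_succ, sum_range_zero, show cfn 31 0 16 = 19696202219520 from by decide +kernel, show cfn 31 1 16 = 3812168171520 from by decide +kernel, show cfn 31 2 16 = 728474664960 from by decide +kernel, show cfn 31 3 16 = 137235619840 from by decide +kernel, show cfn 31 4 16 = 25442601472 from by decide +kernel, show cfn 31 5 16 = 4632016384 from by decide +kernel, show cfn 31 6 16 = 825949760 from by decide +kernel, show cfn 31 7 16 = 143777568 from by decide +kernel, show cfn 31 8 16 = 24331777 from by decide +kernel, show cfn 31 9 16 = 3981468 from by decide +kernel, show cfn 31 10 16 = 625362 from by decide +kernel, show cfn 31 11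 16 = 93330 from by decide +kernel, show cfn 31 12 16 = 13039 from by decide +kernel, show cfn 31 13 16 = 1666 from by decide +kernel, show cfn 31 14 16 = 187 from by decide +kernel, show cfn 31 15 16 = 17 from by decide +kernel, Nat.cast_ofNat, Nat.cast_one, Nat.cast_zero]
  ring

theorem c31_17 (γ : ℕ → ℝ) : ∑ i ∈ range (31 / 2 + 1), γ i * (cfn 31 i 17 : ℝ) =
    (34758003916800) * γ 0 + (6988974981120) * γ 1 + (1391222292480) * γ 2 + (273862656000) * γ 3
       + (53243464704) * γ 4 + (10207833600) * γ 5 + (1926340992) * γ 6 + (357011968) * γ 7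
       + (64797470) * γ 8 + (11476305) * γ 9 + (1974180) * γ 10 + (327786) * γ 11 + (52074) * γ 12
       + (7815) * γ 13 + (1086) * γ 14 + (135) * γ 15 := by
  have h : ((31 / 2 + 1 : ℕ)) = 16 := rfl
  rw [h]
  simp only [sum_range_succ, sum_range_zero, show cfn 31 0 17 = 34758003916800 from by decide +kernel, show cfn 31 1 17 = 6988974981120 from by decide +kernel, show cfn 31 2 17 = 1391222292480 from by decide +kernel, show cfn 31 3 17 = 273862656000 from by decide +kernel, show cfn 31 4 17 = 53243464704 from by decide +kernel, show cfn 31 5 17 = 10207833600 from by decide +kernel, show cfn 31 6 17 = 1926340992 from by decide +kernel, show cfn 31 7 17 = 357011968 from by decide +kernel, show cfn 31 8 17 = 64797470 from by decide +kernel, show cfn 31 9 17 = 11476305 from by decide +kernel, show cfn 31 10 17 = 1974180 from by decide +kernel, show cfn 31 11 17 = 327786 from by decide +kernel, show cfn 31 12 17 = 52074 from by decide +kernel,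 show cfn 31 13 17 = 7815 from by decide +kernel, show cfn 31 14 17 = 1086 from by decide +kernel, show cfn 31 15 17 = 135 from by decide +kernel, Nat.cast_ofNat, Nat.cast_one, Nat.cast_zero]
  ring

theorem c31_18 (γ : ℕ → ℝ) : ∑ i ∈ range (31 / 2 + 1), γ i * (cfn 31 i 18 : ℝ) =
    (54068006092800) * γ 0 + (11249633525760) * γ 1 + (2322355322880) * γ 2
       + (475303854080) * γ 3 + (96354011136) * γ 4 + (19326666240) * γ 5 + (3830686976) * γ 6
       + (749132608) * γ 7 + (144272548) * γ 8 + (27298155) * γ 9 + (5059605) * γ 10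
       + (915078) * γ 11 + (160664) * γ 12 + (27189) * γ 13 + (4389) * γ 14 + (665) * γ 15 := by
  have h : ((31 / 2 + 1 : ℕ)) = 16 := rfl
  rw [h]
  simp only [sum_range_succ, sum_range_zero, show cfn 31 0 18 = 54068006092800 from by decide +kernel, show cfn 31 1 18 = 11249633525760 from by decide +kernel, show cfn 31 2 18 = 2322355322880 from by decide +kernel, show cfn 31 3 18 = 475303854080 from by decide +kernel, show cfn 31 4 18 = 96354011136 from by decide +kernel, show cfn 31 5 18 = 19326666240 from by decide +kernel, show cfn 31 6 18 = 3830686976 from by decide +kernel, show cfn 31 7 18 = 749132608 from by decide +kernel, show cfn 31 8 18 = 144272548 from by decide +kernel, show cfn 31 9 18 = 27298155 from by decide +kernel, show cfn 31 10 18 = 5059605 from by decide +kernel, show cfn 31 11 18 = 915078 from by decide +kernel, show cfn 31 12 18 = 160664 from by decide +kernel, show cfn 31 13 18 = 27189 from by decide +kernel, show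 cfn 31 14 18 = 4389 from by decide +kernel, show cfn 31 15 18 = 665 from by decide +kernel, Nat.cast_ofNat, Nat.cast_one, Nat.cast_zero]
  ring

theorem c31_19 (γ : ℕ → ℝ) : ∑ i ∈ range (31 / 2 + 1), γ i * (cfn 31 i 19 : ℝ) =
    (73987797811200) * γ 0 + (15871575982080) * γ 1 + (3384298045440) * γ 2
       + (716911575040) * γ 3 + (150776606720) * γ 4 + (31459476480) * γ 5 + (6506387968) * γ 6
       + (1332449664) * γ 7 + (269864504) * γ 8 + (53972178) * γ 9 + (10639320) * γ 10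
       + (2062329) * γ 11 + (391912) * γ 12 + (72722) * γ 13 + (13104) * γ 14 + (2275) * γ 15 := by
  have h : ((31 / 2 + 1 : ℕ)) = 16 := rfl
  rw [h]
  simp only [sum_range_succ, sum_range_zero, show cfn 31 0 19 = 73987797811200 from by decide +kernel, show cfn 31 1 19 = 15871575982080 from by decide +kernel, show cfn 31 2 19 = 3384298045440 from by decide +kernel, show cfn 31 3 19 = 716911575040 from by decide +kernel, show cfn 31 4 19 = 150776606720 from by decide +kernel, show cfn 31 5 19 = 31459476480 from by decide +kernel, show cfn 31 6 19 = 6506387968 from by decide +kernel, show cfn 31 7 19 = 1332449664 from by decide +kernel, show cfn 31 8 19 = 269864504 from by decide +kernel, show cfn 31 9 19 = 53972178 from by decide +kernel, show cfn 31 10 19 = 10639320 from by decide +kernel, show cfn 31 11 19 = 2062329 from by decide +kernel, show cfn 31 12 19 = 391912 from by decide +kernel, show cfn 31 13 19 = 72722 from by decide +kernel,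 show cfn 31 14 19 = 13104 from by decide +kernel, show cfn 31 15 19 = 2275 from by decide +kernel, Nat.cast_ofNat, Nat.cast_one, Nat.cast_zero]
  ring

theorem c31_20 (γ : ℕ → ℝ) : ∑ i ∈ range (31 / 2 + 1), γ i * (cfn 31 i 20 : ℝ) =
    (88785357373440) * γ 0 + (19570965872640) * γ 1 + (4294596034560) * γ 2
       + (937791651840) * γ 3 + (203692957696) * γ 4 + (43986046976) * γ 5 + (9437842944) * γ 6
       + (2010745856) * γ 7 + (425034064) * γ 8 + (89055720) * γ 9 + (18474633) * γ 10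
       + (3789297) * γ 11 + (767103) * γ 12 + (152932) * γ 13 + (29939) * γ 14 + (5733) * γ 15 := by
  have h : ((31 / 2 + 1 : ℕ)) = 16 := rfl
  rw [h]
  simp only [sum_range_succ, sum_range_zero, show cfn 31 0 20 = 88785357373440 from by decide +kernel, show cfn 31 1 20 = 19570965872640 from by decide +kernel, show cfn 31 2 20 = 4294596034560 from by decide +kernel, show cfn 31 3 20 = 937791651840 from by decide +kernel, show cfn 31 4 20 = 203692957696 from by decide +kernel, show cfn 31 5 20 = 43986046976 from by decide +kernel, show cfn 31 6 20 = 9437842944 from by decide +kernel, show cfn 31 7 20 = 2010745856 from by decide +kernel, show cfn 31 8 20 = 425034064 from by decide +kernel, show cfn 31 9 20 = 89055720 from by decide +kernel, show cfn 31 10 20 = 18474633 from by decide +kernel, show cfn 31 11 20 = 3789297 from by decide +kernel, show cfn 31 12 20 = 767103 from by decide +kernel, show cfn 31 13 20 = 152932 from by decide +kernel,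 show cfn 31 14 20 = 29939 from by decide +kernel, show cfn 31 15 20 = 5733 from by decide +kernel, Nat.cast_ofNat, Nat.cast_one, Nat.cast_zero]
  ring

theorem c31_21 (γ : ℕ → ℝ) : ∑ i ∈ range (31 / 2 + 1), γ i * (cfn 31 i 21 : ℝ) =
    (93013231534080) * γ 0 + (21002987765760) * γ 1 + (4726965534720) * γ 2
       + (1060081172480) * γ 3 + (236824969216) * γ 4 + (52687470592) * γ 5 + (11668599808) * γ 6
       + (2571448832) * γ 7 + (563601248) * γ 8 + (122786976) * γ 9 + (26572086) * γ 10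
       + (5707449) * γ 11 + (1215566) * γ 12 + (256399) * γ 13 + (53482) * γ 14 + (11011) * γ 15 := by
  have h : ((31 / 2 + 1 : ℕ)) = 16 := rfl
  rw [h]
  simp only [sum_range_succ, sum_range_zero, show cfn 31 0 21 = 93013231534080 from by decide +kernel, show cfn 31 1 21 = 21002987765760 from by decide +kernel, show cfn 31 2 21 = 4726965534720 from by decide +kernel, show cfn 31 3 21 = 1060081172480 from by decide +kernel, show cfn 31 4 21 = 236824969216 from by decide +kernel, show cfn 31 5 21 = 52687470592 from by decide +kernel, show cfn 31 6 21 = 11668599808 from by decide +kernel, show cfn 31 7 21 = 2571448832 from by decide +kernel, show cfn 31 8 21 = 563601248 from by decide +kernel, show cfn 31 9 21 = 122786976 from by decide +kernel, show cfn 31 10 21 = 26572086 from by decide +kernel, show cfn 31 11 21 = 5707449 from by decide +kernel, show cfn 31 12 21 = 1215566 from by decide +kernel, show cfn 31 13 21 = 256399 from by decide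 +kernel, show cfn 31 14 21 = 53482 from by decide +kernel, show cfn 31 15 21 = 11011 from by decide +kernel, Nat.cast_ofNat, Nat.cast_one, Nat.cast_zero]
  ring

theorem c31_22 (γ : ℕ → ℝ) : ∑ i ∈ range (31 / 2 + 1), γ i * (cfn 31 i 22 : ℝ) =
    (84557483212800) * γ 0 + (19502774353920) * γ 1 + (4487707361280) * γ 2
       + (1030070272000) * γ 3 + (235801116672) * γ 4 + (53823856640) * γ 5 + (12247746560) * γ 6
       + (2777664000) * γ 7 + (627653440) * γ 8 + (141264528) * γ 9 + (31655820) * γ 10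
       + (7059735) * γ 11 + (1566070) * γ 12 + (345345) * γ 13 + (75647) * γ 14 + (16445) * γ 15 := by
  have h : ((31 / 2 + 1 : ℕ)) = 16 := rfl
  rw [h]
  simp only [sum_range_succ, sum_range_zero, show cfn 31 0 22 = 84557483212800 from by decide +kernel, show cfn 31 1 22 = 19502774353920 from by decide +kernel, show cfn 31 2 22 = 4487707361280 from by decide +kernel, show cfn 31 3 22 = 1030070272000 from by decide +kernel, show cfn 31 4 22 = 235801116672 from by decide +kernel, show cfn 31 5 22 = 53823856640 from by decide +kernel, show cfn 31 6 22 = 12247746560 from by decide +kernel, show cfn 31 7 22 = 2777664000 from by decide +kernel, show cfn 31 8 22 = 627653440 from by decide +kernel, show cfn 31 9 22 = 141264528 from by decide +kernel, show cfn 31 10 22 = 31655820 from by decide +kernel, show cfn 31 11 22 = 7059735 from by decide +kernel, show cfn 31 12 22 = 1566070 from by decide +kernel, show cfn 31 13 22 = 345345 from by decide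 +kernel, show cfn 31 14 22 = 75647 from by decide +kernel, show cfn 31 15 22 = 16445 from by decide +kernel, Nat.cast_ofNat, Nat.cast_one, Nat.cast_zero]
  ring

theorem c31_23 (γ : ℕ → ℝ) : ∑ i ∈ range (31 / 2 + 1), γ i * (cfn 31 i 23 : ℝ) =
    (66175421644800) * γ 0 + (15547666268160) * γ 1 + (3647070535680) * γ 2
       + (854067118080) * γ 3 + (199647100928) * γ 4 + (46580776960) * γ 5 + (10845941760) * γ 6
       + (2519895040) * γ 7 + (584094080) * γ 8 + (135048672) * γ 9 + (31139880) * γ 10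
       + (7159170) * γ 11 + (1640640) * γ 12 + (374660) * γ 13 + (85228) * γ 14 + (19305) * γ 15 := by
  have h : ((31 / 2 + 1 : ℕ)) = 16 := rfl
  rw [h]
  simp only [sum_range_succ, sum_range_zero, show cfn 31 0 23 = 66175421644800 from by decide +kernel, show cfn 31 1 23 = 15547666268160 from by decide +kernel, show cfn 31 2 23 = 3647070535680 from by decide +kernel, show cfn 31 3 23 = 854067118080 from by decide +kernel, show cfn 31 4 23 = 199647100928 from by decide +kernel, show cfn 31 5 23 = 46580776960 from by decide +kernel, show cfn 31 6 23 = 10845941760 from by decide +kernel, show cfn 31 7 23 = 2519895040 from by decide +kernel, show cfn 31 8 23 = 584094080 from by decide +kernel, show cfn 31 9 23 = 135048672 from by decide +kernel, show cfn 31 10 23 = 31139880 from by decide +kernel, show cfn 31 11 23 = 7159170 from by decide +kernel, show cfn 31 12 23 = 1640640 from by decide +kernel, show cfn 31 13 23 = 374660 from by decide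 +kernel, show cfn 31 14 23 = 85228 from by decide +kernel, show cfn 31 15 23 = 19305 from by decide +kernel, Nat.cast_ofNat, Nat.cast_one, Nat.cast_zero]
  ring

theorem c31_24 (γ : ℕ → ℝ) : ∑ i ∈ range (31 / 2 + 1), γ i * (cfn 31 i 24 : ℝ) =
    (44116947763200) * γ 0 + (10531142369280) * γ 1 + (2511329034240) * γ 2
       + (598228336640) * γ 3 + (142344519680) * γ 4 + (33829683200) * γ 5 + (8029880320) * γ 6
       + (1903452160) * γ 7 + (450568960) * γ 8 + (106494720) * γ 9 + (25130400) * γ 10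
       + (5920080) * γ 11 + (1392065) * γ 12 + (326690) * γ 13 + (76505) * γ 14 + (17875) * γ 15 := by
  have h : ((31 / 2 + 1 : ℕ)) = 16 := rfl
  rw [h]
  simp only [sum_range_succ, sum_range_zero, show cfn 31 0 24 = 44116947763200 from by decide +kernel, show cfn 31 1 24 = 10531142369280 from by decide +kernel, show cfn 31 2 24 = 2511329034240 from by decide +kernel, show cfn 31 3 24 = 598228336640 from by decide +kernel, show cfn 31 4 24 = 142344519680 from by decide +kernel, show cfn 31 5 24 = 33829683200 from by decide +kernel, show cfn 31 6 24 = 8029880320 from by decide +kernel, show cfn 31 7 24 = 1903452160 from by decide +kernel, show cfn 31 8 24 = 450568960 from by decide +kernel, show cfn 31 9 24 = 106494720 from by decide +kernel, show cfn 31 10 24 = 25130400 from by decide +kernel, show cfn 31 11 24 = 5920080 from by decide +kernel, show cfn 31 12 24 = 1392065 from by decide +kernel, show cfn 31 13 24 = 326690 from by decide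 +kernel, show cfn 31 14 24 = 76505 from by decide +kernel, show cfn 31 15 24 = 17875 from by decide +kernel, Nat.cast_ofNat, Nat.cast_one, Nat.cast_zero]
  ring

theorem c31_25 (γ : ℕ → ℝ) : ∑ i ∈ range (31 / 2 + 1), γ i * (cfn 31 i 25 : ℝ) =
    (24705490747392) * γ 0 + (5977134858240) * γ 1 + (1445210357760) * γ 2 + (349217751040) * γ 3
       + (84328972288) * γ 4 + (20349779968) * γ 5 + (4907171840) * γ 6 + (1182433280) * γ 7
       + (284695040) * γ 8 + (68489472) * γ 9 + (16462272) * γ 10 + (3953280) * γ 11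
       + (948430) * γ 12 + (227305) * γ 13 + (54418) * γ 14 + (13013) * γ 15 := by
  have h : ((31 / 2 + 1 : ℕ)) = 16 := rfl
  rw [h]
  simp only [sum_range_succ, sum_range_zero, show cfn 31 0 25 = 24705490747392 from by decide +kernel, show cfn 31 1 25 = 5977134858240 from by decide +kernel, show cfn 31 2 25 = 1445210357760 from by decide +kernel, show cfn 31 3 25 = 349217751040 from by decide +kernel, show cfn 31 4 25 = 84328972288 from by decide +kernel, show cfn 31 5 25 = 20349779968 from by decide +kernel, show cfn 31 6 25 = 4907171840 from by decide +kernel, show cfn 31 7 25 = 1182433280 from by decide +kernel, show cfn 31 8 25 = 284695040 from by decide +kernel, show cfn 31 9 25 = 68489472 from by decide +kernel, show cfn 31 10 25 = 16462272 from by decide +kernel, show cfn 31 11 25 = 3953280 from by decide +kernel, show cfn 31 12 25 = 948430 from by decide +kernel, show cfn 31 13 25 = 227305 from by decide +kernel, show cfn 31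 14 25 = 54418 from by decide +kernel, show cfn 31 15 25 = 13013 from by decide +kernel, Nat.cast_ofNat, Nat.cast_one, Nat.cast_zero]
  ring

theorem c31_26 (γ : ℕ → ℝ) : ∑ i ∈ range (31 / 2 + 1), γ i * (cfn 31 i 26 : ℝ) =
    (11402534191104) * γ 0 + (2789329600512) * γ 1 + (682119659520) * γ 2 + (166755041280) * γ 3
       + (40752119808) * γ 4 + (9955639296) * γ 5 + (2431254528) * γ 6 + (593510400) * γ 7
       + (144829440) * γ 8 + (35327232) * γ 9 + (8613504) * γ 10 + (2099232) * γ 11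
       + (511380) * γ 12 + (124515) * γ 13 + (30303) * γ 14 + (7371) * γ 15 := by
  have h : ((31 / 2 + 1 : ℕ)) = 16 := rfl
  rw [h]
  simp only [sum_range_succ, sum_range_zero, show cfn 31 0 26 = 11402534191104 from by decide +kernel, show cfn 31 1 26 = 2789329600512 from by decide +kernel, show cfn 31 2 26 = 682119659520 from by decide +kernel, show cfn 31 3 26 = 166755041280 from by decide +kernel, show cfn 31 4 26 = 40752119808 from by decide +kernel, show cfn 31 5 26 = 9955639296 from by decide +kernel, show cfn 31 6 26 = 2431254528 from by decide +kernel, show cfn 31 7 26 = 593510400 from by decide +kernel, show cfn 31 8 26 = 144829440 from by decide +kernel, show cfn 31 9 26 = 35327232 from by decide +kernel, show cfn 31 10 26 = 8613504 from by decide +kernel, show cfn 31 11 26 = 2099232 from by decide +kernel, show cfn 31 12 26 = 511380 from by decide +kernel, show cfn 31 13 26 = 124515 from by decide +kernel, show cfn 31 14 26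 = 30303 from by decide +kernel, show cfn 31 15 26 = 7371 from by decide +kernel, Nat.cast_ofNat, Nat.cast_one, Nat.cast_zero]
  ring

theorem c31_27 (γ : ℕ → ℝ) : ∑ i ∈ range (31 / 2 + 1), γ i * (cfn 31 i 27 : ℝ) =
    (4223160811520) * γ 0 + (1042167103488) * γ 1 + (257144389632) * γ 2 + (63438848000) * γ 3
       + (15648423936) * γ 4 + (3859415040) * γ 5 + (951713792) * γ 6 + (234651648) * γ 7
       + (57845760) * γ 8 + (14257664) * γ 9 + (3513600) * γ 10 + (865728) * γ 11 + (213272) * γ 12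
       + (52530) * γ 13 + (12936) * γ 14 + (3185) * γ 15 := by
  have h : ((31 / 2 + 1 : ℕ)) = 16 := rfl
  rw [h]
  simp only [sum_range_succ, sum_range_zero, show cfn 31 0 27 = 4223160811520 from by decide +kernel, show cfn 31 1 27 = 1042167103488 from by decide +kernel, show cfn 31 2 27 = 257144389632 from by decide +kernel, show cfn 31 3 27 = 63438848000 from by decide +kernel, show cfn 31 4 27 = 15648423936 from by decide +kernel, show cfn 31 5 27 = 3859415040 from by decide +kernel, show cfn 31 6 27 = 951713792 from by decide +kernel, show cfn 31 7 27 = 234651648 from by decide +kernel, show cfn 31 8 27 = 57845760 from by decide +kernel, show cfn 31 9 27 = 14257664 from by decide +kernel, show cfn 31 10 27 = 3513600 from by decide +kernel, show cfn 31 11 27 = 865728 from by decide +kernel, show cfn 31 12 27 = 213272 from by decide +kernel, show cfn 31 13 27 = 52530 from by decide +kernel, show cfn 31 14 27 = 12936 from by decide +kernel,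 show cfn 31 15 27 = 3185 from by decide +kernel, Nat.cast_ofNat, Nat.cast_one, Nat.cast_zero]
  ring

theorem q31_0 (γ : ℕ → ℝ) (h0 : γ 0 = 1)
    (h : ∀ n < 31, 2 * (((31 : ℕ) : ℝ) - ((n : ℕ) : ℝ)) * ∑ i ∈ range (31 / 2 + 1), γ i * (cfn 31 i n : ℝ) ≤
      ((n : ℝ) + 1) * ∑ i ∈ range (31 / 2 + 1), γ i * (cfn 31 i (n + 1) : ℝ)) :
    0 ≤ (0) * γ 0 + (1) * γ 1 + (0) * γ 2 + (0) * γ 3 + (0) * γ 4 + (0) * γ 5 + (0) * γ 6 + (0) * γ 7
       + (0) * γ 8 + (0) * γ 9 + (0) * γ 10 + (0) * γ 11 + (0) * γ 12 + (0) * γ 13 + (0) * γ 14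
       + (0) * γ 15 := by
  have h1 := h 0 (by norm_num)
  rw [show 0 + 1 = 1 from rfl, c31_0, c31_1] at h1
  norm_num [h0] at h1 ⊢
  linarith

theorem q31_1 (γ : ℕ → ℝ) (h0 : γ 0 = 1)
    (h : ∀ n < 31, 2 * (((31 : ℕ) : ℝ) - ((n : ℕ) : ℝ)) * ∑ i ∈ range (31 / 2 + 1), γ i * (cfn 31 i n : ℝ) ≤
      ((n : ℝ) + 1) * ∑ i ∈ range (31 / 2 + 1), γ i * (cfn 31 i (n + 1) : ℝ)) :
    0 ≤ (0) * γ 0 + (58) * γ 1 + (2) * γ 2 + (0) * γ 3 + (0) * γ 4 + (0) * γ 5 + (0) * γ 6
       + (0) * γ 7 + (0) * γ 8 + (0) * γ 9 + (0) * γ 10 + (0) * γ 11 + (0) * γ 12 + (0) * γ 13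
       + (0) * γ 14 + (0) * γ 15 := by
  have h1 := h 1 (by norm_num)
  rw [show 1 + 1 = 2 from rfl, c31_1, c31_2] at h1
  norm_num [h0] at h1 ⊢
  linarith

theorem q31_2 (γ : ℕ → ℝ) (h0 : γ 0 = 1)
    (h : ∀ n < 31, 2 * (((31 : ℕ) : ℝ) - ((n : ℕ) : ℝ)) * ∑ i ∈ range (31 / 2 + 1), γ i * (cfn 31 i n : ℝ) ≤
      ((n : ℝ) + 1) * ∑ i ∈ range (31 / 2 + 1), γ i * (cfn 31 i (n + 1) : ℝ)) :
    0 ≤ (0) * γ 0 + (1624) * γ 1 + (110) * γ 2 + (3) * γ 3 + (0) * γ 4 + (0) * γ 5 + (0) * γ 6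
       + (0) * γ 7 + (0) * γ 8 + (0) * γ 9 + (0) * γ 10 + (0) * γ 11 + (0) * γ 12 + (0) * γ 13
       + (0) * γ 14 + (0) * γ 15 := by
  have h1 := h 2 (by norm_num)
  rw [show 2 + 1 = 3 from rfl, c31_2, c31_3] at h1
  norm_num [h0] at h1 ⊢
  linarith

theorem q31_3 (γ : ℕ → ℝ) (h0 : γ 0 = 1)
    (h : ∀ n < 31, 2 * (((31 : ℕ) : ℝ) - ((n : ℕ) : ℝ)) * ∑ i ∈ range (31 / 2 + 1), γ i * (cfn 31 i n : ℝ) ≤
      ((n : ℝ) + 1) * ∑ i ∈ range (31 / 2 + 1), γ i * (cfn 31 i (n + 1) : ℝ)) :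
    0 ≤ (0) * γ 0 + (29232) * γ 1 + (2916) * γ 2 + (156) * γ 3 + (4) * γ 4 + (0) * γ 5 + (0) * γ 6
       + (0) * γ 7 + (0) * γ 8 + (0) * γ 9 + (0) * γ 10 + (0) * γ 11 + (0) * γ 12 + (0) * γ 13
       + (0) * γ 14 + (0) * γ 15 := by
  have h1 := h 3 (by norm_num)
  rw [show 3 + 1 = 4 from rfl, c31_3, c31_4] at h1
  norm_num [h0] at h1 ⊢
  linarith

theorem q31_4 (γ : ℕ → ℝ) (h0 : γ 0 = 1)
    (h : ∀ n < 31, 2 * (((31 : ℕ) : ℝ) - ((n : ℕ) : ℝ)) * ∑ i ∈ range (31 / 2 + 1), γ i * (cfn 31 i n : ℝ) ≤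
      ((n : ℝ) + 1) * ∑ i ∈ range (31 / 2 + 1), γ i * (cfn 31 i (n + 1) : ℝ)) :
    0 ≤ (0) * γ 0 + (380016) * γ 1 + (49608) * γ 2 + (3903) * γ 3 + (196) * γ 4 + (5) * γ 5
       + (0) * γ 6 + (0) * γ 7 + (0) * γ 8 + (0) * γ 9 + (0) * γ 10 + (0) * γ 11 + (0) * γ 12
       + (0) * γ 13 + (0) * γ 14 + (0) * γ 15 := by
  have h1 := h 4 (by norm_num)
  rw [show 4 + 1 = 5 from rfl, c31_4, c31_5] at h1
  norm_num [h0] at h1 ⊢
  linarith

theorem q31_5 (γ : ℕ → ℝ) (h0 : γ 0 = 1)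
    (h : ∀ n < 31, 2 * (((31 : ℕ) : ℝ) - ((n : ℕ) : ℝ)) * ∑ i ∈ range (31 / 2 + 1), γ i * (cfn 31 i n : ℝ) ≤
      ((n : ℝ) + 1) * ∑ i ∈ range (31 / 2 + 1), γ i * (cfn 31 i (n + 1) : ℝ)) :
    0 ≤ (0) * γ 0 + (3800160) * γ 1 + (608400) * γ 2 + (62550) * γ 3 + (4612) * γ 4 + (230) * γ 5
       + (6) * γ 6 + (0) * γ 7 + (0) * γ 8 + (0) * γ 9 + (0) * γ 10 + (0) * γ 11 + (0) * γ 12
       + (0) * γ 13 + (0) * γ 14 + (0) * γ 15 := by
  have h1 := h 5 (by norm_num)
  rw [show 5 + 1 = 6 from rfl, c31_5, c31_6] at h1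
  norm_num [h0] at h1 ⊢
  linarith

theorem q31_6 (γ : ℕ → ℝ) (h0 : γ 0 = 1)
    (h : ∀ n < 31, 2 * (((31 : ℕ) : ℝ) - ((n : ℕ) : ℝ)) * ∑ i ∈ range (31 / 2 + 1), γ i * (cfn 31 i n : ℝ) ≤
      ((n : ℝ) + 1) * ∑ i ∈ range (31 / 2 + 1), γ i * (cfn 31 i (n + 1) : ℝ)) :
    0 ≤ (0) * γ 0 + (30401280) * γ 1 + (5728320) * γ 2 + (721200) * γ 3 + (69372) * γ 4
       + (5070) * γ 5 + (258) * γ 6 + (7) * γ 7 + (0) * γ 8 + (0) * γ 9 + (0) * γ 10 + (0) * γ 11
       + (0) * γ 12 + (0) * γ 13 + (0) * γ 14 + (0) * γ 15 := by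
  have h1 := h 6 (by norm_num)
  rw [show 6 + 1 = 7 from rfl, c31_6, c31_7] at h1
  norm_num [h0] at h1 ⊢
  linarith

theorem q31_7 (γ : ℕ → ℝ) (h0 : γ 0 = 1)
    (h : ∀ n < 31, 2 * (((31 : ℕ) : ℝ) - ((n : ℕ) : ℝ)) * ∑ i ∈ range (31 / 2 + 1), γ i * (cfn 31 i n : ℝ) ≤
      ((n : ℝ) + 1) * ∑ i ∈ range (31 / 2 + 1), γ i * (cfn 31 i (n + 1) : ℝ)) :
    0 ≤ (0) * γ 0 + (199779840) * γ 1 + (43056000) * γ 2 + (6370080) * γ 3 + (749064) * γ 4
       + (71280) * γ 5 + (5304) * γ 6 + (280) * γ 7 + (8) * γ 8 + (0) * γ 9 + (0) * γ 10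
       + (0) * γ 11 + (0) * γ 12 + (0) * γ 13 + (0) * γ 14 + (0) * γ 15 := by
  have h1 := h 7 (by norm_num)
  rw [show 7 + 1 = 8 from rfl, c31_7, c31_8] at h1
  norm_num [h0] at h1 ⊢
  linarith

theorem q31_8 (γ : ℕ → ℝ) (h0 : γ 0 = 1)
    (h : ∀ n < 31, 2 * (((31 : ℕ) : ℝ) - ((n : ℕ) : ℝ)) * ∑ i ∈ range (31 / 2 + 1), γ i * (cfn 31 i n : ℝ) ≤
      ((n : ℝ) + 1) * ∑ i ∈ range (31 / 2 + 1), γ i * (cfn 31 i (n + 1) : ℝ)) :
    0 ≤ (0) * γ 0 + (1098789120) * γ 1 + (265224960) * γ 2 + (44811360) * γ 3 + (6181296) * γ 4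
       + (717645) * γ 5 + (69372) * γ 6 + (5341) * γ 7 + (296) * γ 8 + (9) * γ 9 + (0) * γ 10
       + (0) * γ 11 + (0) * γ 12 + (0) * γ 13 + (0) * γ 14 + (0) * γ 15 := by
  have h1 := h 8 (by norm_num)
  rw [show 8 + 1 = 9 from rfl, c31_8, c31_9] at h1
  norm_num [h0] at h1 ⊢
  linarith

theorem q31_9 (γ : ℕ → ℝ) (h0 : γ 0 = 1)
    (h : ∀ n < 31, 2 * (((31 : ℕ) : ℝ) - ((n : ℕ) : ℝ)) * ∑ i ∈ range (31 / 2 + 1), γ i * (cfn 31 i n : ℝ) ≤
      ((n : ℝ) + 1) * ∑ i ∈ range (31 / 2 + 1), γ i * (cfn 31 i (n + 1) : ℝ)) :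
    0 ≤ (0) * γ 0 + (5127682560) * γ 1 + (1364014080) * γ 2 + (257695680) * γ 3 + (40520480) * γ 4
       + (5507250) * γ 5 + (648006) * γ 6 + (64638) * γ 7 + (5208) * γ 8 + (306) * γ 9
       + (10) * γ 10 + (0) * γ 11 + (0) * γ 12 + (0) * γ 13 + (0) * γ 14 + (0) * γ 15 := by
  have h1 := h 9 (by norm_num)
  rw [show 9 + 1 = 10 from rfl, c31_9, c31_10] at h1
  norm_num [h0] at h1 ⊢
  linarith

theorem q31_10 (γ : ℕ → ℝ) (h0 : γ 0 = 1)
    (h : ∀ n < 31, 2 * (((31 : ℕ) : ℝ) - ((n : ℕ) : ℝ)) * ∑ i ∈ range (31 / 2 + 1), γ i * (cfn 31 i n : ℝ) ≤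
      ((n : ℝ) + 1) * ∑ i ∈ range (31 / 2 + 1), γ i * (cfn 31 i (n + 1) : ℝ)) :
    0 ≤ (0) * γ 0 + (20510730240) * γ 1 + (5935987200) * γ 2 + (1233830400) * γ 3 + (216535616) * γ 4
       + (33477640) * γ 5 + (4600362) * γ 6 + (557025) * γ 7 + (57960) * γ 8 + (4932) * γ 9
       + (310) * γ 10 + (11) * γ 11 + (0) * γ 12 + (0) * γ 13 + (0) * γ 14 + (0) * γ 15 := by
  have h1 := h 10 (by norm_num)
  rw [show 10 + 1 = 11 from rfl, c31_10, c31_11] at h1
  norm_num [h0] at h1 ⊢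
  linarith

theorem q31_11 (γ : ℕ → ℝ) (h0 : γ 0 = 1)
    (h : ∀ n < 31, 2 * (((31 : ℕ) : ℝ) - ((n : ℕ) : ℝ)) * ∑ i ∈ range (31 / 2 + 1), γ i * (cfn 31 i n : ℝ) ≤
      ((n : ℝ) + 1) * ∑ i ∈ range (31 / 2 + 1), γ i * (cfn 31 i (n + 1) : ℝ)) :
    0 ≤ (0) * γ 0 + (70855249920) * γ 1 + (22076820480) * γ 2 + (4983897600) * γ 3
       + (960477056) * γ 4 + (165380560) * γ 5 + (25788396) * γ 6 + (3636444) * γ 7
       + (457800) * γ 8 + (50112) * γ 9 + (4540) * γ 10 + (308) * γ 11 + (12) * γ 12 + (0) * γ 13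
       + (0) * γ 14 + (0) * γ 15 := by
  have h1 := h 11 (by norm_num)
  rw [show 11 + 1 = 12 from rfl, c31_11, c31_12] at h1
  norm_num [h0] at h1 ⊢
  linarith

theorem q31_12 (γ : ℕ → ℝ) (h0 : γ 0 = 1)
    (h : ∀ n < 31, 2 * (((31 : ℕ) : ℝ) - ((n : ℕ) : ℝ)) * ∑ i ∈ range (31 / 2 + 1), γ i * (cfn 31 i n : ℝ) ≤
      ((n : ℝ) + 1) * ∑ i ∈ range (31 / 2 + 1), γ i * (cfn 31 i (n + 1) : ℝ)) :
    0 ≤ (0) * γ 0 + (212565749760) * γ 1 + (70680729600) * γ 2 + (17148299520) * γ 3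
       + (3582253312) * γ 4 + (675833040) * γ 5 + (117074808) * γ 6 + (18679675) * γ 7
       + (2729496) * γ 8 + (360054) * γ 9 + (41760) * γ 10 + (4059) * γ 11 + (300) * γ 12
       + (13) * γ 13 + (0) * γ 14 + (0) * γ 15 := by
  have h1 := h 12 (by norm_num)
  rw [show 12 + 1 = 13 from rfl, c31_12, c31_13] at h1
  norm_num [h0] at h1 ⊢
  linarith

theorem q31_13 (γ : ℕ → ℝ) (h0 : γ 0 = 1)
    (h : ∀ n < 31, 2 * (((31 : ℕ) : ℝ) - ((n : ℕ) : ℝ)) * ∑ i ∈ range (31 / 2 + 1), γ i * (cfn 31 i n : ℝ) ≤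
      ((n : ℝ) + 1) * ∑ i ∈ range (31 / 2 + 1), γ i * (cfn 31 i (n + 1) : ℝ)) :
    0 ≤ (0) * γ 0 + (555941191680) * γ 1 + (195811799040) * γ 2 + (50607536640) * γ 3
       + (11338674688) * γ 4 + (2313558560) * γ 5 + (438003504) * γ 6 + (77409262) * γ 7
       + (12754952) * γ 8 + (1945044) * γ 9 + (270540) * γ 10 + (33462) * γ 11 + (3516) * γ 12
       + (286) * γ 13 + (14) * γ 14 + (0) * γ 15 := by
  have h1 := h 13 (by norm_num)
  rw [show 13 + 1 = 14 from rfl, c31_13, c31_14] at h1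
  norm_num [h0] at h1 ⊢
  linarith

theorem q31_14 (γ : ℕ → ℝ) (h0 : γ 0 = 1)
    (h : ∀ n < 31, 2 * (((31 : ℕ) : ℝ) - ((n : ℕ) : ℝ)) * ∑ i ∈ range (31 / 2 + 1), γ i * (cfn 31 i n : ℝ) ≤
      ((n : ℝ) + 1) * ∑ i ∈ range (31 / 2 + 1), γ i * (cfn 31 i (n + 1) : ℝ)) :
    0 ≤ (0) * γ 0 + (1270722723840) * γ 1 + (471043768320) * γ 2 + (128715448320) * γ 3
       + (30657402880) * γ 4 + (6693593600) * γ 5 + (1366956672) * γ 6 + (263235616) * γ 7
       + (47878136) * γ 8 + (8199612) * γ 9 + (1312020) * γ 10 + (193446) * γ 11 + (25668) * γ 12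
       + (2938) * γ 13 + (266) * γ 14 + (15) * γ 15 := by
  have h1 := h 14 (by norm_num)
  rw [show 14 + 1 = 15 from rfl, c31_14, c31_15] at h1
  norm_num [h0] at h1 ⊢
  linarith

theorem q31_15 (γ : ℕ → ℝ) (h0 : γ 0 = 1)
    (h : ∀ n < 31, 2 * (((31 : ℕ) : ℝ) - ((n : ℕ) : ℝ)) * ∑ i ∈ range (31 / 2 + 1), γ i * (cfn 31 i n : ℝ) ≤
      ((n : ℝ) + 1) * ∑ i ∈ range (31 / 2 + 1), γ i * (cfn 31 i (n + 1) : ℝ)) :
    0 ≤ (0) * γ 0 + (2541445447680) * γ 1 + (985905561600) * γ 2 + (282991411200) * γ 3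
       + (71113003008) * γ 4 + (16466488320) * γ 5 + (3588741888) * γ 6 + (743207360) * γ 7
       + (146776080) * γ 8 + (27633600) * γ 9 + (4941600) * γ 10 + (833184) * γ 11
       + (130800) * γ 12 + (18720) * γ 13 + (2352) * γ 14 + (240) * γ 15 := by
  have h1 := h 15 (by norm_num)
  rw [show 15 + 1 = 16 from rfl, c31_15, c31_16] at h1
  norm_num [h0] at h1 ⊢
  linarith

theorem q31_16 (γ : ℕ → ℝ) (h0 : γ 0 = 1)
    (h : ∀ n < 31, 2 * (((31 : ℕ) : ℝ) - ((n : ℕ) : ℝ)) * ∑ i ∈ range (31 / 2 + 1), γ i * (cfn 31 i n : ℝ) ≤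
      ((n : ℝ) + 1) * ∑ i ∈ range (31 / 2 + 1), γ i * (cfn 31 i (n + 1) : ℝ)) :
    0 ≤ (0) * γ 0 + (4447529533440) * γ 1 + (1796539023360) * γ 2 + (538596556800) * γ 3
       + (141860855808) * γ 4 + (34572679680) * γ 5 + (7969304064) * γ 6 + (1755876416) * γ 7
       + (371603680) * γ 8 + (75653145) * γ 9 + (14800200) * γ 10 + (2772462) * γ 11
       + (494088) * γ 12 + (82875) * γ 13 + (12852) * γ 14 + (1785) * γ 15 := by
  have h1 := h 16 (by norm_num)
  rw [show 16 + 1 = 17 from rfl, c31_16, c31_17] at h1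
  norm_num [h0] at h1 ⊢
  linarith

theorem q31_17 (γ : ℕ → ℝ) (h0 : γ 0 = 1)
    (h : ∀ n < 31, 2 * (((31 : ℕ) : ℝ) - ((n : ℕ) : ℝ)) * ∑ i ∈ range (31 / 2 + 1), γ i * (cfn 31 i n : ℝ) ≤
      ((n : ℝ) + 1) * ∑ i ∈ range (31 / 2 + 1), γ i * (cfn 31 i (n + 1) : ℝ)) :
    0 ≤ (0) * γ 0 + (6802103992320) * γ 1 + (2848171622400) * γ 2 + (887315005440) * γ 3
       + (243555188736) * γ 4 + (62060651520) * γ 5 + (15014817792) * γ 6 + (3488051840) * γ 7
       + (782576704) * γ 8 + (170030250) * γ 9 + (35795850) * γ 10 + (7293396) * γ 11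
       + (1433880) * γ 12 + (270582) * γ 13 + (48594) * γ 14 + (8190) * γ 15 := by
  have h1 := h 17 (by norm_num)
  rw [show 17 + 1 = 18 from rfl, c31_17, c31_18] at h1
  norm_num [h0] at h1 ⊢
  linarith

theorem q31_18 (γ : ℕ → ℝ) (h0 : γ 0 = 1)
    (h : ∀ n < 31, 2 * (((31 : ℕ) : ℝ) - ((n : ℕ) : ℝ)) * ∑ i ∈ range (31 / 2 + 1), γ i * (cfn 31 i n : ℝ) ≤
      ((n : ℝ) + 1) * ∑ i ∈ range (31 / 2 + 1), γ i * (cfn 31 i (n + 1) : ℝ)) :
    0 ≤ (0) * γ 0 + (9069471989760) * γ 1 + (3920424468480) * γ 2 + (1263419719680) * γ 3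
       + (359551238144) * γ 4 + (95236730880) * γ 5 + (24023510016) * γ 6 + (5839095808) * γ 7
       + (1376339328) * γ 8 + (315719352) * γ 9 + (70597350) * γ 10 + (15392223) * γ 11
       + (3269064) * γ 12 + (674804) * γ 13 + (134862) * γ 14 + (25935) * γ 15 := by
  have h1 := h 18 (by norm_num)
  rw [show 18 + 1 = 19 from rfl, c31_18, c31_19] at h1
  norm_num [h0] at h1 ⊢
  linarith

theorem q31_19 (γ : ℕ → ℝ) (h0 : γ 0 = 1)
    (h : ∀ n < 31, 2 * (((31 : ℕ) : ℝ) - ((n : ℕ) : ℝ)) * ∑ i ∈ range (31 / 2 + 1), γ i * (cfn 31 i n : ℝ) ≤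
      ((n : ℝ) + 1) * ∑ i ∈ range (31 / 2 + 1), γ i * (cfn 31 i (n + 1) : ℝ)) :
    0 ≤ (0) * γ 0 + (10501493882880) * γ 1 + (4668767600640) * γ 2 + (1549955235840) * γ 3
       + (455220592640) * γ 4 + (124693504000) * γ 5 + (32603547648) * γ 6 + (8236125184) * γ 7
       + (2023933184) * γ 8 + (485782128) * γ 9 + (114148980) * γ 10 + (26290044) * γ 11
       + (5936172) * γ 12 + (1313312) * γ 13 + (284284) * γ 14 + (60060) * γ 15 := by
  have h1 := h 19 (by norm_num)
  rw [show 19 + 1 = 20 from rfl, c31_19, c31_20] at h1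
  norm_num [h0] at h1 ⊢
  linarith

theorem q31_20 (γ : ℕ → ℝ) (h0 : γ 0 = 1)
    (h : ∀ n < 31, 2 * (((31 : ℕ) : ℝ) - ((n : ℕ) : ℝ)) * ∑ i ∈ range (31 / 2 + 1), γ i * (cfn 31 i n : ℝ) ≤
      ((n : ℝ) + 1) * ∑ i ∈ range (31 / 2 + 1), γ i * (cfn 31 i (n + 1) : ℝ)) :
    0 ≤ (0) * γ 0 + (10501493882880) * γ 1 + (4785163468800) * γ 2 + (1630288281600) * γ 3
       + (492079284224) * γ 4 + (138743848960) * γ 5 + (37408051200) * γ 6 + (9764016640) * γ 7
       + (2484876800) * γ 8 + (619300656) * γ 9 + (151571880) * γ 10 + (36491895) * γ 11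
       + (8650620) * γ 12 + (2019875) * γ 13 + (464464) * γ 14 + (105105) * γ 15 := by
  have h1 := h 20 (by norm_num)
  rw [show 20 + 1 = 21 from rfl, c31_20, c31_21] at h1
  norm_num [h0] at h1 ⊢
  linarith

theorem q31_21 (γ : ℕ → ℝ) (h0 : γ 0 = 1)
    (h : ∀ n < 31, 2 * (((31 : ℕ) : ℝ) - ((n : ℕ) : ℝ)) * ∑ i ∈ range (31 / 2 + 1), γ i * (cfn 31 i n : ℝ) ≤
      ((n : ℝ) + 1) * ∑ i ∈ range (31 / 2 + 1), γ i * (cfn 31 i (n + 1) : ℝ)) :
    0 ≤ (0) * γ 0 + (9001280471040) * γ 1 + (4190251253760) * γ 2 + (1459922534400) * γ 3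
       + (451125182464) * γ 4 + (130375434240) * γ 5 + (36078428160) * γ 6 + (9679631360) * γ 7
       + (2536350720) * γ 8 + (652080096) * γ 9 + (164986320) * γ 10 + (41165190) * γ 11
       + (10142220) * γ 12 + (2469610) * γ 13 + (594594) * γ 14 + (141570) * γ 15 := by
  have h1 := h 21 (by norm_num)
  rw [show 21 + 1 = 22 from rfl, c31_21, c31_22] at h1
  norm_num [h0] at h1 ⊢
  linarith

theorem q31_22 (γ : ℕ → ℝ) (h0 : γ 0 = 1)
    (h : ∀ n < 31, 2 * (((31 : ℕ) : ℝ) - ((n : ℕ) : ℝ)) * ∑ i ∈ range (31 / 2 + 1), γ i * (cfn 31 i n : ℝ) ≤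
      ((n : ℝ) + 1) * ∑ i ∈ range (31 / 2 + 1), γ i * (cfn 31 i (n + 1) : ℝ)) :
    0 ≤ (0) * γ 0 + (6546385797120) * γ 1 + (3103889817600) * γ 2 + (1102278819840) * γ 3
       + (347463221248) * γ 4 + (102528450560) * γ 5 + (28997222400) * γ 6 + (7959633920) * γ 7
       + (2136401920) * γ 8 + (563357952) * γ 9 + (146412480) * γ 10 + (37585680) * γ 11
       + (9545460) * γ 12 + (2400970) * γ 13 + (598598) * γ 14 + (148005) * γ 15 := by
  have h1 := h 22 (by norm_num)
  rw [show 22 + 1 = 23 from rfl, c31_22, c31_23] at h1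
  norm_num [h0] at h1 ⊢
  linarith

theorem q31_23 (γ : ℕ → ℝ) (h0 : γ 0 = 1)
    (h : ∀ n < 31, 2 * (((31 : ℕ) : ℝ) - ((n : ℕ) : ℝ)) * ∑ i ∈ range (31 / 2 + 1), γ i * (cfn 31 i n : ℝ) ≤
      ((n : ℝ) + 1) * ∑ i ∈ range (31 / 2 + 1), γ i * (cfn 31 i (n + 1) : ℝ)) :
    0 ≤ (0) * γ 0 + (3984756572160) * γ 1 + (1918768250880) * γ 2 + (692406190080) * γ 3
       + (221914857472) * γ 4 + (66619965440) * γ 5 + (19182059520) * γ 6 + (5364531200) * γ 7
       + (1468149760) * γ 8 + (395094528) * γ 9 + (104891520) * γ 10 + (27535200) * γ 11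
       + (7159320) * γ 12 + (1846000) * γ 13 + (472472) * γ 14 + (120120) * γ 15 := by
  have h1 := h 23 (by norm_num)
  rw [show 23 + 1 = 24 from rfl, c31_23, c31_24] at h1
  norm_num [h0] at h1 ⊢
  linarith

theorem q31_24 (γ : ℕ → ℝ) (h0 : γ 0 = 1)
    (h : ∀ n < 31, 2 * (((31 : ℕ) : ℝ) - ((n : ℕ) : ℝ)) * ∑ i ∈ range (31 / 2 + 1), γ i * (cfn 31 i n : ℝ) ≤
      ((n : ℝ) + 1) * ∑ i ∈ range (31 / 2 + 1), γ i * (cfn 31 i (n + 1) : ℝ)) :
    0 ≤ (0) * γ 0 + (1992378286080) * γ 1 + (971652464640) * γ 2 + (355247063040) * γ 3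
       + (115401031680) * γ 4 + (35128934400) * γ 5 + (10260971520) * γ 6 + (2912501760) * γ 7
       + (809410560) * γ 8 + (221310720) * γ 9 + (59731200) * γ 10 + (15950880) * γ 11
       + (4221840) * γ 12 + (1108965) * γ 13 + (289380) * γ 14 + (75075) * γ 15 := by
  have h1 := h 24 (by norm_num)
  rw [show 24 + 1 = 25 from rfl, c31_24, c31_25] at h1
  norm_num [h0] at h1 ⊢
  linarith

theorem q31_25 (γ : ℕ → ℝ) (h0 : γ 0 = 1)
    (h : ∀ n < 31, 2 * (((31 : ℕ) : ℝ) - ((n : ℕ) : ℝ)) * ∑ i ∈ range (31 / 2 + 1), γ i * (cfn 31 i n : ℝ) ≤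
      ((n : ℝ) + 1) * ∑ i ∈ range (31 / 2 + 1), γ i * (cfn 31 i (n + 1) : ℝ)) :
    0 ≤ (0) * γ 0 + (796951314432) * γ 1 + (392586854400) * γ 2 + (145018060800) * γ 3
       + (47607447552) * γ 4 + (14649262080) * γ 5 + (4326555648) * γ 6 + (1242071040) * γ 7
       + (349224960) * γ 8 + (96634368) * γ 9 + (26403840) * γ 10 + (7140672) * γ 11
       + (1914720) * γ 12 + (509730) * γ 13 + (134862) * γ 14 + (35490) * γ 15 := by
  have h1 := h 25 (by norm_num)
  rw [show 25 + 1 = 26 from rfl, c31_25, c31_26] at h1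
  norm_num [h0] at h1 ⊢
  linarith

theorem q31_26 (γ : ℕ → ℝ) (h0 : γ 0 = 1)
    (h : ∀ n < 31, 2 * (((31 : ℕ) : ℝ) - ((n : ℕ) : ℝ)) * ∑ i ∈ range (31 / 2 + 1), γ i * (cfn 31 i n : ℝ) ≤
      ((n : ℝ) + 1) * ∑ i ∈ range (31 / 2 + 1), γ i * (cfn 31 i (n + 1) : ℝ)) :
    0 ≤ (0) * γ 0 + (245215789056) * γ 1 + (121701924864) * γ 2 + (45298483200) * γ 3
       + (14986248192) * γ 4 + (4647813120) * γ 5 + (1383727104) * γ 6 + (400490496) * γ 7
       + (113541120) * γ 8 + (31684608) * γ 9 + (8732160) * γ 10 + (2382336) * γ 11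
       + (644544) * γ 12 + (173160) * γ 13 + (46242) * γ 14 + (12285) * γ 15 := by
  have h1 := h 26 (by norm_num)
  rw [show 26 + 1 = 27 from rfl, c31_26, c31_27] at h1
  norm_num [h0] at h1 ⊢
  linarith

theorem m31_0 (γ : ℕ → ℝ) : Mat 31 γ 0 = (1) * γ 0 + (0) * γ 1 + (0) * γ 2 + (0) * γ 3 + (0) * γ 4 + (0) * γ 5 + (0) * γ 6 + (0) * γ 7
       + (0) * γ 8 + (0) * γ 9 + (0) * γ 10 + (0) * γ 11 + (0) * γ 12 + (0) * γ 13 + (0) * γ 14
       + (0) * γ 15 := by
  unfold Mat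
  rw [show (31 / 2 + 1 : ℕ) = 16 from rfl]
  simp [sum_range_succ, Nat.choose]
  try ring

theorem m31_1 (γ : ℕ → ℝ) : Mat 31 γ 1 = (1860) * γ 0 + (60) * γ 1 + (1) * γ 2 + (0) * γ 3 + (0) * γ 4 + (0) * γ 5 + (0) * γ 6
       + (0) * γ 7 + (0) * γ 8 + (0) * γ 9 + (0) * γ 10 + (0) * γ 11 + (0) * γ 12 + (0) * γ 13
       + (0) * γ 14 + (0) * γ 15 := by
  unfold Mat
  rw [show (31 / 2 + 1 : ℕ) = 16 from rfl]
  simp [sum_range_succ, Nat.choose]
  try ring

theorem m31_2 (γ : ℕ → ℝ) : Mat 31 γ 2 = (503440) * γ 0 + (32480) * γ 1 + (1624) * γ 2 + (56) * γ 3 + (1) * γ 4 + (0) * γ 5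
       + (0) * γ 6 + (0) * γ 7 + (0) * γ 8 + (0) * γ 9 + (0) * γ 10 + (0) * γ 11 + (0) * γ 12
       + (0) * γ 13 + (0) * γ 14 + (0) * γ 15 := by
  unfold Mat
  rw [show (31 / 2 + 1 : ℕ) = 16 from rfl]
  simp [sum_range_succ, Nat.choose]
  try ring

theorem m31_3 (γ : ℕ → ℝ) : Mat 31 γ 3 = (47121984) * γ 0 + (4560192) * γ 1 + (380016) * γ 2 + (26208) * γ 3 + (1404) * γ 4
       + (52) * γ 5 + (1) * γ 6 + (0) * γ 7 + (0) * γ 8 + (0) * γ 9 + (0) * γ 10 + (0) * γ 11
       + (0) * γ 12 + (0) * γ 13 + (0) * γ 14 + (0) * γ 15 := by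
  unfold Mat
  rw [show (31 / 2 + 1 : ℕ) = 16 from rfl]
  simp [sum_range_succ, Nat.choose]
  try ring

theorem m31_4 (γ : ℕ → ℝ) : Mat 31 γ 4 = (2019513600) * γ 0 + (260582400) * γ 1 + (30401280) * γ 2 + (3144960) * γ 3 + (280800) * γ 4
       + (20800) * γ 5 + (1200) * γ 6 + (48) * γ 7 + (1) * γ 8 + (0) * γ 9 + (0) * γ 10
       + (0) * γ 11 + (0) * γ 12 + (0) * γ 13 + (0) * γ 14 + (0) * γ 15 := by
  unfold Mat
  rw [show (31 / 2 + 1 : ℕ) = 16 from rfl]
  simp [sum_range_succ, Nat.choose]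
  try ring

theorem m31_5 (γ : ℕ → ℝ) : Mat 31 γ 5 = (45416616960) * γ 0 + (7325260800) * γ 1 + (1098789120) * γ 2 + (151557120) * γ 3
       + (18944640) * γ 4 + (2104960) * γ 5 + (202400) * γ 6 + (16192) * γ 7 + (1012) * γ 8
       + (44) * γ 9 + (1) * γ 10 + (0) * γ 11 + (0) * γ 12 + (0) * γ 13 + (0) * γ 14 + (0) * γ 15 := by
  unfold Mat
  rw [show (31 / 2 + 1 : ℕ) = 16 from rfl]
  simp [sum_range_succ, Nat.choose]
  try ring

theorem m31_6 (γ : ℕ → ℝ) : Mat 31 γ 6 = (578029670400) * γ 0 + (111876710400) * γ 1 + (20510730240) * γ 2 + (3536332800) * γ 3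
       + (568339200) * γ 4 + (84198400) * γ 5 + (11334400) * γ 6 + (1360128) * γ 7 + (141680) * γ 8
       + (12320) * γ 9 + (840) * γ 10 + (40) * γ 11 + (1) * γ 12 + (0) * γ 13 + (0) * γ 14
       + (0) * γ 15 := by
  unfold Mat
  rw [show (31 / 2 + 1 : ℕ) = 16 from rfl]
  simp [sum_range_succ, Nat.choose]
  try ring

theorem m31_7 (γ : ℕ → ℝ) : Mat 31 γ 7 = (4344750489600) * γ 0 + (981072691200) * γ 1 + (212565749760) * γ 2 + (43979120640) * γ 3
       + (8638755840) * γ 4 + (1599769600) * γ 5 + (276883200) * γ 6 + (44301312) * γ 7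
       + (6460608) * γ 8 + (842688) * γ 9 + (95760) * γ 10 + (9120) * γ 11 + (684) * γ 12
       + (36) * γ 13 + (1) * γ 14 + (0) * γ 15 := by
  unfold Mat
  rw [show (31 / 2 + 1 : ℕ) = 16 from rfl]
  simp [sum_range_succ, Nat.choose]
  try ring

theorem m31_8 (γ : ℕ → ℝ) : Mat 31 γ 8 = (19696202219520) * γ 0 + (5082890895360) * γ 1 + (1270722723840) * γ 2 + (306726174720) * γ 3
       + (71204290560) * γ 4 + (15823175680) * γ 5 + (3347210240) * γ 6 + (669442048) * γ 7
       + (125520384) * γ 8 + (21829632) * γ 9 + (3472896) * γ 10 + (496128) * γ 11 + (62016) * γ 12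
       + (6528) * γ 13 + (544) * γ 14 + (32) * γ 15 := by
  unfold Mat
  rw [show (31 / 2 + 1 : ℕ) = 16 from rfl]
  simp [sum_range_succ, Nat.choose]
  try ring

theorem m31_9 (γ : ℕ → ℝ) : Mat 31 γ 9 = (54068006092800) * γ 0 + (15697163059200) * γ 1 + (4447529533440) * γ 2
       + (1226904698880) * γ 3 + (328635187200) * γ 4 + (85201715200) * γ 5 + (21300428800) * γ 6
       + (5112102912) * γ 7 + (1171523584) * γ 8 + (254679040) * γ 9 + (52093440) * γ 10
       + (9922560) * γ 11 + (1736448) * γ 12 + (274176) * γ 13 + (38080) * γ 14 + (4480) * γ 15 := by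
  unfold Mat
  rw [show (31 / 2 + 1 : ℕ) = 16 from rfl]
  simp [sum_range_succ, Nat.choose]
  try ring

theorem m31_10 (γ : ℕ → ℝ) : Mat 31 γ 10 = (88785357373440) * γ 0 + (28640437862400) * γ 1 + (9069471989760) * γ 2
       + (2814663720960) * γ 3 + (854451486720) * γ 4 + (253170810880) * γ 5 + (73030041600) * γ 6
       + (20448411648) * γ 7 + (5538111488) * γ 8 + (1444724736) * γ 9 + (361181184) * γ 10
       + (85995520) * γ 11 + (19348992) * γ 12 + (4073472) * γ 13 + (792064) * γ 14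
       + (139776) * γ 15 := by
  unfold Mat
  rw [show (31 / 2 + 1 : ℕ) = 16 from rfl]
  simp [sum_range_succ, Nat.choose]
  try ring

theorem m31_11 (γ : ℕ → ℝ) : Mat 31 γ 11 = (84557483212800) * γ 0 + (30004268236800) * γ 1 + (10501493882880) * γ 2
       + (3621204787200) * γ 3 + (1228623052800) * γ 4 + (409541017600) * γ 5
       + (133888409600) * γ 6 + (42844291072) * γ 7 + (13388840960) * γ 8 + (4074864640) * γ 9
       + (1203937280) * γ 10 + (343982080) * γ 11 + (94595072) * γ 12 + (24893440) * γ 13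
       + (6223360) * γ 14 + (1464320) * γ 15 := by
  unfold Mat
  rw [show (31 / 2 + 1 : ℕ) = 16 from rfl]
  simp [sum_range_succ, Nat.choose]
  try ring

theorem m31_12 (γ : ℕ → ℝ) : Mat 31 γ 12 = (44116947763200) * γ 0 + (17077528166400) * γ 1 + (6546385797120) * γ 2
       + (2483111854080) * γ 3 + (931166945280) * γ 4 + (344876646400) * γ 5 + (126012620800) * γ 6
       + (45364543488) * γ 7 + (16066609152) * γ 8 + (5588385792) * γ 9 + (1905131520) * γ 10
       + (635043840) * γ 11 + (206389248) * γ 12 + (65175552) * γ 13 + (19914752) * γ 14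
       + (5857280) * γ 15 := by
  unfold Mat
  rw [show (31 / 2 + 1 : ℕ) = 16 from rfl]
  simp [sum_range_succ, Nat.choose]
  try ring

theorem m31_13 (γ : ℕ → ℝ) : Mat 31 γ 13 = (11402534191104) * γ 0 + (4781707886592) * γ 1 + (1992378286080) * γ 2 + (824432394240) * γ 3
       + (338606161920) * γ 4 + (137950658560) * γ 5 + (55710842880) * γ 6 + (22284337152) * γ 7
       + (8820883456) * γ 8 + (3451650048) * γ 9 + (1333592064) * γ 10 + (508035072) * γ 11
       + (190513152) * γ 12 + (70189056) * γ 13 + (25346048) * γ 14 + (8945664) * γ 15 := by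
  unfold Mat
  rw [show (31 / 2 + 1 : ℕ) = 16 from rfl]
  simp [sum_range_succ, Nat.choose]
  try ring

theorem m31_14 (γ : ℕ → ℝ) : Mat 31 γ 14 = (1206617374720) * γ 0 + (544923975680) * γ 1 + (245215789056) * γ 2 + (109924319232) * γ 3
       + (49073356800) * γ 4 + (21810380800) * γ 5 + (9646899200) * γ 6 + (4244635648) * γ 7
       + (1857028096) * γ 8 + (807403520) * γ 9 + (348651520) * γ 10 + (149422080) * γ 11
       + (63504384) * γ 12 + (26738688) * γ 13 + (11141120) * γ 14 + (4587520) * γ 15 := by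
  unfold Mat
  rw [show (31 / 2 + 1 : ℕ) = 16 from rfl]
  simp [sum_range_succ, Nat.choose]
  try ring

theorem m31_15 (γ : ℕ → ℝ) : Mat 31 γ 15 = (33285996544) * γ 0 + (16106127360) * γ 1 + (7784628224) * γ 2 + (3758096384) * γ 3
       + (1811939328) * γ 4 + (872415232) * γ 5 + (419430400) * γ 6 + (201326592) * γ 7
       + (96468992) * γ 8 + (46137344) * γ 9 + (22020096) * γ 10 + (10485760) * γ 11
       + (4980736) * γ 12 + (2359296) * γ 13 + (1114112) * γ 14 + (524288) * γ 15 := by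
  unfold Mat
  rw [show (31 / 2 + 1 : ℕ) = 16 from rfl]
  simp [sum_range_succ, Nat.choose]
  try ring

theorem mm31_0 (γ : ℕ → ℝ) : Mat 31 (Mat 31 γ) 0 =
      (1) * γ 0 + (0) * γ 1 + (0) * γ 2 + (0) * γ 3 + (0) * γ 4 + (0) * γ 5 + (0) * γ 6 + (0) * γ 7
       + (0) * γ 8 + (0) * γ 9 + (0) * γ 10 + (0) * γ 11 + (0) * γ 12 + (0) * γ 13 + (0) * γ 14
       + (0) * γ 15 := by
  rw [m31_0]
  simp only [m31_0, m31_1, m31_2, m31_3, m31_4, m31_5, m31_6, m31_7, m31_8, m31_9, m31_10, m31_11, m31_12, m31_13, m31_14, m31_15]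
  ring

theorem mm31_1 (γ : ℕ → ℝ) : Mat 31 (Mat 31 γ) 1 =
      (616900) * γ 0 + (36080) * γ 1 + (1684) * γ 2 + (56) * γ 3 + (1) * γ 4 + (0) * γ 5
       + (0) * γ 6 + (0) * γ 7 + (0) * γ 8 + (0) * γ 9 + (0) * γ 10 + (0) * γ 11 + (0) * γ 12
       + (0) * γ 13 + (0) * γ 14 + (0) * γ 15 := by
  rw [m31_1]
  simp only [m31_0, m31_1, m31_2, m31_3, m31_4, m31_5, m31_6, m31_7, m31_8, m31_9, m31_10, m31_11, m31_12, m31_13, m31_14, m31_15]
  ring

theorem mm31_2 (γ : ℕ → ℝ) : Mat 31 (Mat 31 γ) 2 =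
      (5536847504) * γ 0 + (570649472) * γ 1 + (54352032) * γ 2 + (4703552) * γ 3 + (361048) * γ 4
       + (23712) * γ 5 + (1256) * γ 6 + (48) * γ 7 + (1) * γ 8 + (0) * γ 9 + (0) * γ 10
       + (0) * γ 11 + (0) * γ 12 + (0) * γ 13 + (0) * γ 14 + (0) * γ 15 := by
  rw [m31_2]
  simp only [m31_0, m31_1, m31_2, m31_3, m31_4, m31_5, m31_6, m31_7, m31_8, m31_9, m31_10, m31_11, m31_12, m31_13, m31_14, m31_15]
  ring

theorem mm31_3 (γ : ℕ → ℝ) : Mat 31 (Mat 31 γ) 3 =
      (7209908137536) * γ 0 + (990778004736) * γ 1 + (130912327104) * γ 2 + (16540967040) * γ 3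
       + (1984879728) * γ 4 + (224222336) * γ 5 + (23570208) * γ 6 + (2269504) * γ 7
       + (195708) * γ 8 + (14608) * γ 9 + (892) * γ 10 + (40) * γ 11 + (1) * γ 12 + (0) * γ 13
       + (0) * γ 14 + (0) * γ 15 := by
  rw [m31_3]
  simp only [m31_0, m31_1, m31_2, m31_3, m31_4, m31_5, m31_6, m31_7, m31_8, m31_9, m31_10, m31_11, m31_12, m31_13, m31_14, m31_15]
  ring

theorem mm31_4 (γ : ℕ → ℝ) : Mat 31 (Mat 31 γ) 4 =
      (2597613559829760) * γ 0 + (427308085063680) * γ 1 + (68723015500800) * γ 2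
       + (10780941772800) * γ 3 + (1645214688000) * γ 4 + (243437542400) * γ 5
       + (34788908800) * γ 6 + (4778330624) * γ 7 + (626975968) * γ 8 + (77977856) * γ 9
       + (9098176) * γ 10 + (981888) * γ 11 + (96048) * γ 12 + (8256) * γ 13 + (592) * γ 14
       + (32) * γ 15 := by
  rw [m31_4]
  simp only [m31_0, m31_1, m31_2, m31_3, m31_4, m31_5, m31_6, m31_7, m31_8, m31_9, m31_10, m31_11, m31_12, m31_13, m31_14, m31_15]
  ring

theorem mm31_5 (γ : ℕ → ℝ) : Mat 31 (Mat 31 γ) 5 =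
      (351311376631403520) * γ 0 + (65475854883778560) * γ 1 + (12032202929157120) * γ 2
       + (2177704390932480) * γ 3 + (387694979723520) * γ 4 + (67793111674880) * γ 5
       + (11623930035200) * γ 6 + (1950465898496) * γ 7 + (319547138688) * γ 8
       + (50973180416) * γ 9 + (7890530176) * γ 10 + (1180436736) * γ 11 + (169790624) * γ 12
       + (23326464) * γ 13 + (3034304) * γ 14 + (369280) * γ 15 := by
  rw [m31_5]
  simp only [m31_0, m31_1, m31_2, m31_3, m31_4, m31_5, m31_6, m31_7, m31_8, m31_9, m31_10, m31_11, m31_12, m31_13, m31_14, m31_15]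
  ring

theorem mm31_6 (γ : ℕ → ℝ) : Mat 31 (Mat 31 γ) 6 =
      (21144667005716582400) * γ 0 + (4322921760057753600) * γ 1 + (875639780243496960) * γ 2
       + (175625622913597440) * γ 3 + (34856105808291840) * γ 4 + (6840372040294400) * γ 5
       + (1326273329510400) * γ 6 + (253825769672704) * γ 7 + (47899421207296) * γ 8
       + (8902127865856) * γ 9 + (1627136855040) * γ 10 + (292025661440) * γ 11
       + (51364473600) * γ 12 + (8834329600) * γ 13 + (1481762560) * γ 14 + (241569280) * γ 15 := by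
  rw [m31_6]
  simp only [m31_0, m31_1, m31_2, m31_3, m31_4, m31_5, m31_6, m31_7, m31_8, m31_9, m31_10, m31_11, m31_12, m31_13, m31_14, m31_15]
  ring

theorem mm31_7 (γ : ℕ → ℝ) : Mat 31 (Mat 31 γ) 7 =
      (626924025857256669184) * γ 0 + (137711419969710129152) * γ 1 + (30059852970877894656) * γ 2
       + (6518094678841393152) * γ 3 + (1403502986740101120) * γ 4 + (299979771610234880) * γ 5
       + (63616053773885440) * γ 6 + (13379147059675136) * γ 7 + (2788981446210560) * γ 8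
       + (575918569811968) * γ 9 + (117730097841152) * γ 10 + (23806870296576) * γ 11
       + (4758182692608) * γ 12 + (939051995136) * γ 13 + (182798812160) * γ 14
       + (35054540800) * γ 15 := by
  rw [m31_7]
  simp only [m31_0, m31_1, m31_2, m31_3, m31_4, m31_5, m31_6, m31_7, m31_8, m31_9, m31_10, m31_11, m31_12, m31_13, m31_14, m31_15]
  ring

theorem mm31_8 (γ : ℕ → ℝ) : Mat 31 (Mat 31 γ) 8 =
      (9726545631394306129920) * γ 0 + (2263261485716782186496) * γ 1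
       + (524339917573418647552) * γ 2 + (120922796626061295616) * γ 3
       + (27754222602631643136) * γ 4 + (6338361078114156544) * γ 5 + (1439943144280555520) * γ 6
       + (325325944981815296) * γ 7 + (73075462165970944) * γ 8 + (16314253752532992) * γ 9
       + (3618729495068672) * γ 10 + (797212801957888) * γ 11 + (174357650563072) * γ 12
       + (37840477913088) * γ 13 + (8145152647168) * γ 14 + (1737885827072) * γ 15 := by
  rw [m31_8]
  simp only [m31_0, m31_1, m31_2, m31_3, m31_4, m31_5, m31_6, m31_7, m31_8, m31_9, m31_10, m31_11, m31_12, m31_13, m31_14, m31_15]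
  ring

theorem mm31_9 (γ : ℕ → ℝ) : Mat 31 (Mat 31 γ) 9 =
      (81504924734356290535424) * γ 0 + (19887017267334078267392) * γ 1
       + (4837587450615041884160) * γ 2 + (1173033103364941414400) * γ 3
       + (283504241521967431680) * γ 4 + (68283960321009254400) * γ 5
       + (16387991944856862720) * γ 6 + (3918450838729654272) * γ 7 + (933283592284340224) * γ 8
       + (221384443860615168) * γ 9 + (52291685685198848) * γ 10 + (12296501991440384) * γ 11
       + (2878047818006528) * γ 12 + (670313333784576) * γ 13 + (155313054646272) * γ 14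
       + (35790256668672) * γ 15 := by
  rw [m31_9]
  simp only [m31_0, m31_1, m31_2, m31_3, m31_4, m31_5, m31_6, m31_7, m31_8, m31_9, m31_10, m31_11, m31_12, m31_13, m31_14, m31_15]
  ring

theorem mm31_10 (γ : ℕ → ℝ) : Mat 31 (Mat 31 γ) 10 =
      (371851108960498915213312) * γ 0 + (94424729096580239458304) * γ 1
       + (23926414845179842265088) * γ 2 + (6049418912703983910912) * γ 3
       + (1526022920233309175808) * γ 4 + (384047706645129592832) * γ 5
       + (96416056778138583040) * γ 6 + (24144309846595862528) * γ 7 + (6030318800493543424) * γ 8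
       + (1502041835640455168) * γ 9 + (373072721677385728) * γ 10 + (92390014669815808) * γ 11
       + (22809914512375808) * γ 12 + (5613486454865920) * γ 13 + (1376864991838208) * γ 14
       + (336538275414016) * γ 15 := by
  rw [m31_10]
  simp only [m31_0, m31_1, m31_2, m31_3, m31_4, m31_5, m31_6, m31_7, m31_8, m31_9, m31_10, m31_11, m31_12, m31_13, m31_14, m31_15]
  ring

theorem mm31_11 (γ : ℕ → ℝ) : Mat 31 (Mat 31 γ) 11 =
      (909268435429464830115840) * γ 0 + (238907319330936014766080) * γ 1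
       + (62680498916897817886720) * γ 2 + (16420345929796597841920) * γ 3
       + (4294962169123338977280) * γ 4 + (1121612692068751114240) * γ 5
       + (292422869004635340800) * γ 6 + (76110014676268482560) * γ 7
       + (19774720291484467200) * γ 8 + (5128515886603304960) * γ 9 + (1327575531704811520) * γ 10
       + (342992667297710080) * γ 11 + (88437972250066944) * γ 12 + (22755669239136256) * γ 13
       + (5842571255873536) * γ 14 + (1496740900372480) * γ 15 := by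
  rw [m31_11]
  simp only [m31_0, m31_1, m31_2, m31_3, m31_4, m31_5, m31_6, m31_7, m31_8, m31_9, m31_10, m31_11, m31_12, m31_13, m31_14, m31_15]
  ring

theorem mm31_12 (γ : ℕ → ℝ) : Mat 31 (Mat 31 γ) 12 =
      (1138922833894474648649728) * γ 0 + (308235952502405620301824) * γ 1
       + (83339817877584480305152) * γ 2 + (22510804005247604752384) * γ 3
       + (6074172919680860160000) * γ 4 + (1637302653987009331200) * γ 5
       + (440863263910338232320) * γ 6 + (118576572815816785920) * γ 7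
       + (31856659011679027200) * γ 8 + (8548572439699783680) * γ 9 + (2291205365343191040) * γ 10
       + (613332238372700160) * γ 11 + (163973044991164416) * γ 12 + (43780099874488320) * γ 13
       + (11673215521783808) * γ 14 + (3108097587412992) * γ 15 := by
  rw [m31_12]
  simp only [m31_0, m31_1, m31_2, m31_3, m31_4, m31_5, m31_6, m31_7, m31_8, m31_9, m31_10, m31_11, m31_12, m31_13, m31_14, m31_15]
  ring

theorem mm31_13 (γ : ℕ → ℝ) : Mat 31 (Mat 31 γ) 13 =
      (666970765533385708273664) * γ 0 + (185255540465798314196992) * γ 1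
       + (51425362469654076850176) * γ 2 + (14266556760727530504192) * γ 3
       + (3955399021681056940032) * γ 4 + (1095933487736147673088) * γ 5
       + (303454821070049116160) * γ 6 + (83967796238765522944) * γ 7
       + (23218436985197690880) * γ 8 + (6415744592573890560) * γ 9 + (1771524043560714240) * γ 10
       + (488792624379985920) * γ 11 + (134763166946033664) * γ 12 + (37125964047581184) * γ 13
       + (10219622280200192) * γ 14 + (2810817934262272) * γ 15 := by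
  rw [m31_13]
  simp only [m31_0, m31_1, m31_2, m31_3, m31_4, m31_5, m31_6, m31_7, m31_8, m31_9, m31_10, m31_11, m31_12, m31_13, m31_14, m31_15]
  ring

theorem mm31_14 (γ : ℕ → ℝ) : Mat 31 (Mat 31 γ) 14 =
      (152054147448011594137600) * γ 0 + (43216970845238937518080) * γ 1
       + (12279352704306748850176) * γ 2 + (3487858418630254395392) * γ 3
       + (990379115164471394304) * γ 4 + (281125527163989131264) * γ 5
       + (79772297956805312512) * γ 6 + (22628389836304678912) * γ 7 + (6416549313400274944) * γ 8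
       + (1818830558197710848) * γ 9 + (515373556939358208) * γ 10 + (145978009210322944) * γ 11
       + (41331793525211136) * γ 12 + (11697916741681152) * γ 13 + (3309451801001984) * γ 14
       + (935885017186304) * γ 15 := by
  rw [m31_14]
  simp only [m31_0, m31_1, m31_2, m31_3, m31_4, m31_5, m31_6, m31_7, m31_8, m31_9, m31_10, m31_11, m31_12, m31_13, m31_14, m31_15]
  ring

theorem mm31_15 (γ : ℕ → ℝ) : Mat 31 (Mat 31 γ) 15 =
      (8644956567968055033856) * γ 0 + (2508125929004167331840) * γ 1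
       + (727606125665728856064) * γ 2 + (211058611780302405632) * γ 3
       + (61216534808886247424) * γ 4 + (17753849414448840704) * γ 5 + (5148415757536722944) * γ 6
       + (1492832630599581696) * γ 7 + (432816861390831616) * γ 8 + (125473454026653696) * γ 9
       + (36370830967439360) * γ 10 + (10541618868256768) * γ 11 + (3055013341429760) * γ 12
       + (885257452650496) * γ 13 + (256493098106880) * γ 14 + (74307094970368) * γ 15 := by
  rw [m31_15]
  simp only [m31_0, m31_1, m31_2, m31_3, m31_4, m31_5, m31_6, m31_7, m31_8, m31_9, m31_10, m31_11, m31_12, m31_13, m31_14, m31_15]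
  ring

theorem p31_0 (γ : ℕ → ℝ) (h0 : γ 0 = 1)
    (h : ∀ n < 31, 2 * (((31 : ℕ) : ℝ) - ((n : ℕ) : ℝ)) * ∑ i ∈ range (31 / 2 + 1), γ i * (cfn 31 i n : ℝ) ≤
      ((n : ℝ) + 1) * ∑ i ∈ range (31 / 2 + 1), γ i * (cfn 31 i (n + 1) : ℝ)) :
    0 < Mat 31 (Mat 31 (Mat 31 γ)) 0 := by

  rw [m31_0]
  simp only [mm31_0, mm31_1, mm31_2, mm31_3, mm31_4, mm31_5, mm31_6, mm31_7, mm31_8, mm31_9, mm31_10, mm31_11, mm31_12, mm31_13, mm31_14, mm31_15]
  linarith only [h0]

theorem p31_1 (γ : ℕ → ℝ) (h0 : γ 0 = 1)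
    (h : ∀ n < 31, 2 * (((31 : ℕ) : ℝ) - ((n : ℕ) : ℝ)) * ∑ i ∈ range (31 / 2 + 1), γ i * (cfn 31 i n : ℝ) ≤
      ((n : ℝ) + 1) * ∑ i ∈ range (31 / 2 + 1), γ i * (cfn 31 i (n + 1) : ℝ)) :
    0 < Mat 31 (Mat 31 (Mat 31 γ)) 1 := by
  have k0 := q31_0 γ h0 h
  have k1 := q31_1 γ h0 h
  have k4 := q31_4 γ h0 h
  have k6 := q31_6 γ h0 h
  have k2 := q31_2 γ h0 h
  have k7 := q31_7 γ h0 h
  have k5 := q31_5 γ h0 h
  have k3 := q31_3 γ h0 h
  rw [m31_1]
  simp only [mm31_0, mm31_1, mm31_2, mm31_3, mm31_4, mm31_5, mm31_6, mm31_7, mm31_8, mm31_9, mm31_10, mm31_11, mm31_12, mm31_13, mm31_14, mm31_15]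
  linarith only [h0, k0, k1, k4, k6, k2, k7, k5, k3]

theorem p31_2 (γ : ℕ → ℝ) (h0 : γ 0 = 1)
    (h : ∀ n < 31, 2 * (((31 : ℕ) : ℝ) - ((n : ℕ) : ℝ)) * ∑ i ∈ range (31 / 2 + 1), γ i * (cfn 31 i n : ℝ) ≤
      ((n : ℝ) + 1) * ∑ i ∈ range (31 / 2 + 1), γ i * (cfn 31 i (n + 1) : ℝ)) :
    0 < Mat 31 (Mat 31 (Mat 31 γ)) 2 := by
  have k0 := q31_0 γ h0 h
  have k4 := q31_4 γ h0 h
  have k7 := q31_7 γ h0 h
  have k5 := q31_5 γ h0 h
  have k6 := q31_6 γ h0 h
  have k1 := q31_1 γ h0 h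
  have k2 := q31_2 γ h0 h
  have k3 := q31_3 γ h0 h
  have k13 := q31_13 γ h0 h
  have k9 := q31_9 γ h0 h
  have k11 := q31_11 γ h0 h
  have k14 := q31_14 γ h0 h
  have k12 := q31_12 γ h0 h
  have k10 := q31_10 γ h0 h
  have k8 := q31_8 γ h0 h
  rw [m31_2]
  simp only [mm31_0, mm31_1, mm31_2, mm31_3, mm31_4, mm31_5, mm31_6, mm31_7, mm31_8, mm31_9, mm31_10, mm31_11, mm31_12, mm31_13, mm31_14, mm31_15]
  linarith only [h0, k0, k4, k7, k5, k6, k1, k2, k3, k13, k9, k11, k14, k12, k10, k8]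

theorem p31_3 (γ : ℕ → ℝ) (h0 : γ 0 = 1)
    (h : ∀ n < 31, 2 * (((31 : ℕ) : ℝ) - ((n : ℕ) : ℝ)) * ∑ i ∈ range (31 / 2 + 1), γ i * (cfn 31 i n : ℝ) ≤
      ((n : ℝ) + 1) * ∑ i ∈ range (31 / 2 + 1), γ i * (cfn 31 i (n + 1) : ℝ)) :
    0 < Mat 31 (Mat 31 (Mat 31 γ)) 3 := by
  have k8 := q31_8 γ h0 h
  have k0 := q31_0 γ h0 h
  have k3 := q31_3 γ h0 h
  have k1 := q31_1 γ h0 h
  have k15 := q31_15 γ h0 h
  have k4 := q31_4 γ h0 h
  have k2 := q31_2 γ h0 h
  have k17 := q31_17 γ h0 h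
  have k10 := q31_10 γ h0 h
  have k5 := q31_5 γ h0 h
  have k6 := q31_6 γ h0 h
  have k11 := q31_11 γ h0 h
  have k14 := q31_14 γ h0 h
  have k18 := q31_18 γ h0 h
  have k9 := q31_9 γ h0 h
  rw [m31_3]
  simp only [mm31_0, mm31_1, mm31_2, mm31_3, mm31_4, mm31_5, mm31_6, mm31_7, mm31_8, mm31_9, mm31_10, mm31_11, mm31_12, mm31_13, mm31_14, mm31_15]
  linarith only [h0, k8, k0, k3, k1, k15, k4, k2, k17, k10, k5, k6, k11, k14, k18, k9]

theorem p31_4 (γ : ℕ → ℝ) (h0 : γ 0 = 1)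
    (h : ∀ n < 31, 2 * (((31 : ℕ) : ℝ) - ((n : ℕ) : ℝ)) * ∑ i ∈ range (31 / 2 + 1), γ i * (cfn 31 i n : ℝ) ≤
      ((n : ℝ) + 1) * ∑ i ∈ range (31 / 2 + 1), γ i * (cfn 31 i (n + 1) : ℝ)) :
    0 < Mat 31 (Mat 31 (Mat 31 γ)) 4 := by
  have k4 := q31_4 γ h0 h
  have k20 := q31_20 γ h0 h
  have k3 := q31_3 γ h0 h
  have k0 := q31_0 γ h0 h
  have k2 := q31_2 γ h0 h
  have k1 := q31_1 γ h0 h
  have k12 := q31_12 γ h0 h
  have k15 := q31_15 γ h0 h
  have k16 := q31_16 γ h0 h
  have k5 := q31_5 γ h0 h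
  have k19 := q31_19 γ h0 h
  have k6 := q31_6 γ h0 h
  have k11 := q31_11 γ h0 h
  have k8 := q31_8 γ h0 h
  have k9 := q31_9 γ h0 h
  rw [m31_4]
  simp only [mm31_0, mm31_1, mm31_2, mm31_3, mm31_4, mm31_5, mm31_6, mm31_7, mm31_8, mm31_9, mm31_10, mm31_11, mm31_12, mm31_13, mm31_14, mm31_15]
  linarith only [h0, k4, k20, k3, k0, k2, k1, k12, k15, k16, k5, k19, k6, k11, k8, k9]

theorem p31_5 (γ : ℕ → ℝ) (h0 : γ 0 = 1)
    (h : ∀ n < 31, 2 * (((31 : ℕ) : ℝ) - ((n : ℕ) : ℝ)) * ∑ i ∈ range (31 / 2 + 1), γ i * (cfn 31 i n : ℝ) ≤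
      ((n : ℝ) + 1) * ∑ i ∈ range (31 / 2 + 1), γ i * (cfn 31 i (n + 1) : ℝ)) :
    0 < Mat 31 (Mat 31 (Mat 31 γ)) 5 := by
  have k5 := q31_5 γ h0 h
  have k0 := q31_0 γ h0 h
  have k15 := q31_15 γ h0 h
  have k1 := q31_1 γ h0 h
  have k20 := q31_20 γ h0 h
  have k2 := q31_2 γ h0 h
  have k3 := q31_3 γ h0 h
  have k4 := q31_4 γ h0 h
  have k8 := q31_8 γ h0 h
  have k11 := q31_11 γ h0 h
  have k6 := q31_6 γ h0 h
  have k21 := q31_21 γ h0 h
  have k16 := q31_16 γ h0 h
  have k12 := q31_12 γ h0 h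
  have k9 := q31_9 γ h0 h
  rw [m31_5]
  simp only [mm31_0, mm31_1, mm31_2, mm31_3, mm31_4, mm31_5, mm31_6, mm31_7, mm31_8, mm31_9, mm31_10, mm31_11, mm31_12, mm31_13, mm31_14, mm31_15]
  linarith only [h0, k5, k0, k15, k1, k20, k2, k3, k4, k8, k11, k6, k21, k16, k12, k9]

theorem p31_6 (γ : ℕ → ℝ) (h0 : γ 0 = 1)
    (h : ∀ n < 31, 2 * (((31 : ℕ) : ℝ) - ((n : ℕ) : ℝ)) * ∑ i ∈ range (31 / 2 + 1), γ i * (cfn 31 i n : ℝ) ≤
      ((n : ℝ) + 1) * ∑ i ∈ range (31 / 2 + 1), γ i * (cfn 31 i (n + 1) : ℝ)) :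
    0 < Mat 31 (Mat 31 (Mat 31 γ)) 6 := by
  have k1 := q31_1 γ h0 h
  have k21 := q31_21 γ h0 h
  have k9 := q31_9 γ h0 h
  have k2 := q31_2 γ h0 h
  have k0 := q31_0 γ h0 h
  have k3 := q31_3 γ h0 h
  have k17 := q31_17 γ h0 h
  have k5 := q31_5 γ h0 h
  have k4 := q31_4 γ h0 h
  have k11 := q31_11 γ h0 h
  have k6 := q31_6 γ h0 h
  have k8 := q31_8 γ h0 h
  have k16 := q31_16 γ h0 h
  have k12 := q31_12 γ h0 h
  have k22 := q31_22 γ h0 h
  rw [m31_6]
  simp only [mm31_0, mm31_1, mm31_2, mm31_3, mm31_4, mm31_5, mm31_6, mm31_7, mm31_8, mm31_9, mm31_10, mm31_11, mm31_12, mm31_13, mm31_14, mm31_15]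
  linarith only [h0, k1, k21, k9, k2, k0, k3, k17, k5, k4, k11, k6, k8, k16, k12, k22]

theorem p31_7 (γ : ℕ → ℝ) (h0 : γ 0 = 1)
    (h : ∀ n < 31, 2 * (((31 : ℕ) : ℝ) - ((n : ℕ) : ℝ)) * ∑ i ∈ range (31 / 2 + 1), γ i * (cfn 31 i n : ℝ) ≤
      ((n : ℝ) + 1) * ∑ i ∈ range (31 / 2 + 1), γ i * (cfn 31 i (n + 1) : ℝ)) :
    0 < Mat 31 (Mat 31 (Mat 31 γ)) 7 := by
  have k0 := q31_0 γ h0 h
  have k5 := q31_5 γ h0 h
  have k2 := q31_2 γ h0 h
  have k1 := q31_1 γ h0 h
  have k6 := q31_6 γ h0 h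
  have k4 := q31_4 γ h0 h
  have k3 := q31_3 γ h0 h
  have k8 := q31_8 γ h0 h
  have k21 := q31_21 γ h0 h
  have k22 := q31_22 γ h0 h
  have k12 := q31_12 γ h0 h
  have k16 := q31_16 γ h0 h
  have k9 := q31_9 γ h0 h
  have k17 := q31_17 γ h0 h
  have k13 := q31_13 γ h0 h
  rw [m31_7]
  simp only [mm31_0, mm31_1, mm31_2, mm31_3, mm31_4, mm31_5, mm31_6, mm31_7, mm31_8, mm31_9, mm31_10, mm31_11, mm31_12, mm31_13, mm31_14, mm31_15]
  linarith only [h0, k0, k5, k2, k1, k6, k4, k3, k8, k21, k22, k12, k16, k9, k17, k13]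

theorem p31_8 (γ : ℕ → ℝ) (h0 : γ 0 = 1)
    (h : ∀ n < 31, 2 * (((31 : ℕ) : ℝ) - ((n : ℕ) : ℝ)) * ∑ i ∈ range (31 / 2 + 1), γ i * (cfn 31 i n : ℝ) ≤
      ((n : ℝ) + 1) * ∑ i ∈ range (31 / 2 + 1), γ i * (cfn 31 i (n + 1) : ℝ)) :
    0 < Mat 31 (Mat 31 (Mat 31 γ)) 8 := by
  have k4 := q31_4 γ h0 h
  have k5 := q31_5 γ h0 h
  have k8 := q31_8 γ h0 h
  have k1 := q31_1 γ h0 h
  have k0 := q31_0 γ h0 h
  have k6 := q31_6 γ h0 h
  have k3 := q31_3 γ h0 h
  have k17 := q31_17 γ h0 h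
  have k2 := q31_2 γ h0 h
  have k22 := q31_22 γ h0 h
  have k12 := q31_12 γ h0 h
  have k16 := q31_16 γ h0 h
  have k9 := q31_9 γ h0 h
  have k23 := q31_23 γ h0 h
  have k13 := q31_13 γ h0 h
  rw [m31_8]
  simp only [mm31_0, mm31_1, mm31_2, mm31_3, mm31_4, mm31_5, mm31_6, mm31_7, mm31_8, mm31_9, mm31_10, mm31_11, mm31_12, mm31_13, mm31_14, mm31_15]
  linarith only [h0, k4, k5, k8, k1, k0, k6, k3, k17, k2, k22, k12, k16, k9, k23, k13]

theorem p31_9 (γ : ℕ → ℝ) (h0 : γ 0 = 1)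
    (h : ∀ n < 31, 2 * (((31 : ℕ) : ℝ) - ((n : ℕ) : ℝ)) * ∑ i ∈ range (31 / 2 + 1), γ i * (cfn 31 i n : ℝ) ≤
      ((n : ℝ) + 1) * ∑ i ∈ range (31 / 2 + 1), γ i * (cfn 31 i (n + 1) : ℝ)) :
    0 < Mat 31 (Mat 31 (Mat 31 γ)) 9 := by
  have k0 := q31_0 γ h0 h
  have k1 := q31_1 γ h0 h
  have k2 := q31_2 γ h0 h
  have k6 := q31_6 γ h0 h
  have k23 := q31_23 γ h0 h
  have k5 := q31_5 γ h0 h
  have k3 := q31_3 γ h0 h
  have k8 := q31_8 γ h0 h
  have k22 := q31_22 γ h0 h
  have k17 := q31_17 γ h0 h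
  have k4 := q31_4 γ h0 h
  have k16 := q31_16 γ h0 h
  have k9 := q31_9 γ h0 h
  have k12 := q31_12 γ h0 h
  have k13 := q31_13 γ h0 h
  rw [m31_9]
  simp only [mm31_0, mm31_1, mm31_2, mm31_3, mm31_4, mm31_5, mm31_6, mm31_7, mm31_8, mm31_9, mm31_10, mm31_11, mm31_12, mm31_13, mm31_14, mm31_15]
  linarith only [h0, k0, k1, k2, k6, k23, k5, k3, k8, k22, k17, k4, k16, k9, k12, k13]

theorem p31_10 (γ : ℕ → ℝ) (h0 : γ 0 = 1)
    (h : ∀ n < 31, 2 * (((31 : ℕ) : ℝ) - ((n : ℕ) : ℝ)) * ∑ i ∈ range (31 / 2 + 1), γ i * (cfn 31 i n : ℝ) ≤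
      ((n : ℝ) + 1) * ∑ i ∈ range (31 / 2 + 1), γ i * (cfn 31 i (n + 1) : ℝ)) :
    0 < Mat 31 (Mat 31 (Mat 31 γ)) 10 := by
  have k0 := q31_0 γ h0 h
  have k5 := q31_5 γ h0 h
  have k6 := q31_6 γ h0 h
  have k3 := q31_3 γ h0 h
  have k4 := q31_4 γ h0 h
  have k2 := q31_2 γ h0 h
  have k12 := q31_12 γ h0 h
  have k1 := q31_1 γ h0 h
  have k23 := q31_23 γ h0 h
  have k8 := q31_8 γ h0 h
  have k9 := q31_9 γ h0 h
  have k16 := q31_16 γ h0 h
  have k17 := q31_17 γ h0 h
  have k24 := q31_24 γ h0 h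
  have k13 := q31_13 γ h0 h
  rw [m31_10]
  simp only [mm31_0, mm31_1, mm31_2, mm31_3, mm31_4, mm31_5, mm31_6, mm31_7, mm31_8, mm31_9, mm31_10, mm31_11, mm31_12, mm31_13, mm31_14, mm31_15]
  linarith only [h0, k0, k5, k6, k3, k4, k2, k12, k1, k23, k8, k9, k16, k17, k24, k13]

theorem p31_11 (γ : ℕ → ℝ) (h0 : γ 0 = 1)
    (h : ∀ n < 31, 2 * (((31 : ℕ) : ℝ) - ((n : ℕ) : ℝ)) * ∑ i ∈ range (31 / 2 + 1), γ i * (cfn 31 i n : ℝ) ≤
      ((n : ℝ) + 1) * ∑ i ∈ range (31 / 2 + 1), γ i * (cfn 31 i (n + 1) : ℝ)) :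
    0 < Mat 31 (Mat 31 (Mat 31 γ)) 11 := by
  have k1 := q31_1 γ h0 h
  have k5 := q31_5 γ h0 h
  have k2 := q31_2 γ h0 h
  have k0 := q31_0 γ h0 h
  have k3 := q31_3 γ h0 h
  have k9 := q31_9 γ h0 h
  have k23 := q31_23 γ h0 h
  have k16 := q31_16 γ h0 h
  have k4 := q31_4 γ h0 h
  have k6 := q31_6 γ h0 h
  have k8 := q31_8 γ h0 h
  have k24 := q31_24 γ h0 h
  have k17 := q31_17 γ h0 h
  have k12 := q31_12 γ h0 h
  have k13 := q31_13 γ h0 h
  rw [m31_11]
  simp only [mm31_0, mm31_1, mm31_2, mm31_3, mm31_4, mm31_5, mm31_6, mm31_7, mm31_8, mm31_9, mm31_10, mm31_11, mm31_12, mm31_13, mm31_14, mm31_15]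
  linarith only [h0, k1, k5, k2, k0, k3, k9, k23, k16, k4, k6, k8, k24, k17, k12, k13]

theorem p31_12 (γ : ℕ → ℝ) (h0 : γ 0 = 1)
    (h : ∀ n < 31, 2 * (((31 : ℕ) : ℝ) - ((n : ℕ) : ℝ)) * ∑ i ∈ range (31 / 2 + 1), γ i * (cfn 31 i n : ℝ) ≤
      ((n : ℝ) + 1) * ∑ i ∈ range (31 / 2 + 1), γ i * (cfn 31 i (n + 1) : ℝ)) :
    0 < Mat 31 (Mat 31 (Mat 31 γ)) 12 := by
  have k13 := q31_13 γ h0 h
  have k25 := q31_25 γ h0 h
  have k2 := q31_2 γ h0 h
  have k0 := q31_0 γ h0 h
  have k4 := q31_4 γ h0 h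
  have k24 := q31_24 γ h0 h
  have k3 := q31_3 γ h0 h
  have k1 := q31_1 γ h0 h
  have k5 := q31_5 γ h0 h
  have k6 := q31_6 γ h0 h
  have k8 := q31_8 γ h0 h
  have k9 := q31_9 γ h0 h
  have k17 := q31_17 γ h0 h
  have k12 := q31_12 γ h0 h
  have k18 := q31_18 γ h0 h
  rw [m31_12]
  simp only [mm31_0, mm31_1, mm31_2, mm31_3, mm31_4, mm31_5, mm31_6, mm31_7, mm31_8, mm31_9, mm31_10, mm31_11, mm31_12, mm31_13, mm31_14, mm31_15]
  linarith only [h0, k13, k25, k2, k0, k4, k24, k3, k1, k5, k6, k8, k9, k17, k12, k18]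

theorem p31_13 (γ : ℕ → ℝ) (h0 : γ 0 = 1)
    (h : ∀ n < 31, 2 * (((31 : ℕ) : ℝ) - ((n : ℕ) : ℝ)) * ∑ i ∈ range (31 / 2 + 1), γ i * (cfn 31 i n : ℝ) ≤
      ((n : ℝ) + 1) * ∑ i ∈ range (31 / 2 + 1), γ i * (cfn 31 i (n + 1) : ℝ)) :
    0 < Mat 31 (Mat 31 (Mat 31 γ)) 13 := by
  have k6 := q31_6 γ h0 h
  have k3 := q31_3 γ h0 h
  have k2 := q31_2 γ h0 h
  have k17 := q31_17 γ h0 h
  have k0 := q31_0 γ h0 h
  have k4 := q31_4 γ h0 h
  have k1 := q31_1 γ h0 h
  have k5 := q31_5 γ h0 h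
  have k8 := q31_8 γ h0 h
  have k24 := q31_24 γ h0 h
  have k13 := q31_13 γ h0 h
  have k9 := q31_9 γ h0 h
  have k25 := q31_25 γ h0 h
  have k12 := q31_12 γ h0 h
  have k18 := q31_18 γ h0 h
  rw [m31_13]
  simp only [mm31_0, mm31_1, mm31_2, mm31_3, mm31_4, mm31_5, mm31_6, mm31_7, mm31_8, mm31_9, mm31_10, mm31_11, mm31_12, mm31_13, mm31_14, mm31_15]
  linarith only [h0, k6, k3, k2, k17, k0, k4, k1, k5, k8, k24, k13, k9, k25, k12, k18]

theorem p31_14 (γ : ℕ → ℝ) (h0 : γ 0 = 1)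
    (h : ∀ n < 31, 2 * (((31 : ℕ) : ℝ) - ((n : ℕ) : ℝ)) * ∑ i ∈ range (31 / 2 + 1), γ i * (cfn 31 i n : ℝ) ≤
      ((n : ℝ) + 1) * ∑ i ∈ range (31 / 2 + 1), γ i * (cfn 31 i (n + 1) : ℝ)) :
    0 < Mat 31 (Mat 31 (Mat 31 γ)) 14 := by
  have k3 := q31_3 γ h0 h
  have k2 := q31_2 γ h0 h
  have k8 := q31_8 γ h0 h
  have k24 := q31_24 γ h0 h
  have k0 := q31_0 γ h0 h
  have k4 := q31_4 γ h0 h
  have k1 := q31_1 γ h0 h
  have k5 := q31_5 γ h0 h
  have k25 := q31_25 γ h0 h
  have k6 := q31_6 γ h0 h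
  have k13 := q31_13 γ h0 h
  have k9 := q31_9 γ h0 h
  have k17 := q31_17 γ h0 h
  have k12 := q31_12 γ h0 h
  have k18 := q31_18 γ h0 h
  rw [m31_14]
  simp only [mm31_0, mm31_1, mm31_2, mm31_3, mm31_4, mm31_5, mm31_6, mm31_7, mm31_8, mm31_9, mm31_10, mm31_11, mm31_12, mm31_13, mm31_14, mm31_15]
  linarith only [h0, k3, k2, k8, k24, k0, k4, k1, k5, k25, k6, k13, k9, k17, k12, k18]

theorem p31_15 (γ : ℕ → ℝ) (h0 : γ 0 = 1)
    (h : ∀ n < 31, 2 * (((31 : ℕ) : ℝ) - ((n : ℕ) : ℝ)) * ∑ i ∈ range (31 / 2 + 1), γ i * (cfn 31 i n : ℝ) ≤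
      ((n : ℝ) + 1) * ∑ i ∈ range (31 / 2 + 1), γ i * (cfn 31 i (n + 1) : ℝ)) :
    0 < Mat 31 (Mat 31 (Mat 31 γ)) 15 := by
  have k0 := q31_0 γ h0 h
  have k25 := q31_25 γ h0 h
  have k5 := q31_5 γ h0 h
  have k3 := q31_3 γ h0 h
  have k9 := q31_9 γ h0 h
  have k2 := q31_2 γ h0 h
  have k1 := q31_1 γ h0 h
  have k4 := q31_4 γ h0 h
  have k12 := q31_12 γ h0 h
  have k6 := q31_6 γ h0 h
  have k8 := q31_8 γ h0 h
  have k18 := q31_18 γ h0 h
  have k17 := q31_17 γ h0 h
  have k26 := q31_26 γ h0 h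
  have k13 := q31_13 γ h0 h
  rw [m31_15]
  simp only [mm31_0, mm31_1, mm31_2, mm31_3, mm31_4, mm31_5, mm31_6, mm31_7, mm31_8, mm31_9, mm31_10, mm31_11, mm31_12, mm31_13, mm31_14, mm31_15]
  linarith only [h0, k0, k25, k5, k3, k9, k2, k1, k4, k12, k6, k8, k18, k17, k26, k13]

theorem main31 (γ : ℕ → ℝ) (h0 : γ 0 = 1)
    (h : ∀ n < 31, 2 * (((31 : ℕ) : ℝ) - ((n : ℕ) : ℝ)) * ∑ i ∈ range (31 / 2 + 1), γ i * (cfn 31 i n : ℝ) ≤
      ((n : ℝ) + 1) * ∑ i ∈ range (31 / 2 + 1), γ i * (cfn 31 i (n + 1) : ℝ)) :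
    ∀ j ≤ 31 / 2, 0 < Mat 31 (Mat 31 (Mat 31 γ)) j := by
  intro j hj
  have hj' : j ≤ 15 := hj
  clear hj
  interval_cases j
  · exact p31_0 γ h0 h
  · exact p31_1 γ h0 h
  · exact p31_2 γ h0 h
  · exact p31_3 γ h0 h
  · exact p31_4 γ h0 h
  · exact p31_5 γ h0 h
  · exact p31_6 γ h0 h
  · exact p31_7 γ h0 h
  · exact p31_8 γ h0 h
  · exact p31_9 γ h0 h
  · exact p31_10 γ h0 h
  · exact p31_11 γ h0 h
  · exact p31_12 γ h0 h
  · exact p31_13 γ h0 h
  · exact p31_14 γ h0 h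
  · exact p31_15 γ h0 h

end PkgNT29

end Pool.Agent.T2H83.GR
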