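import Pool.Agent.T2H83.GR.Stm

set_option autoImplicit false
set_option linter.unusedSimpArgs false
set_option linter.unusedVariables false

/-!
# Numerical inequalities for three rounds (generated by a computer program)
-/

namespace Pool.Agent.T2H83.GR

open Finset

namespace PkgNT32

theorem c32_0 (γ : ℕ → ℝ) : ∑ i ∈ range (32 / 2 + 1), γ i * (cfn 32 i 0 : ℝ) =
    (1) * γ 0 + (0) * γ 1 + (0) * γ 2 + (0) * γ 3 + (0) * γ 4 + (0) * γ 5 + (0) * γ 6 + (0) * γ 7
       + (0) * γ 8 + (0) * γ 9 + (0) * γ 10 + (0) * γ 11 + (0) * γ 12 + (0) * γ 13 + (0) * γ 14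
       + (0) * γ 15 + (0) * γ 16 := by
  have h : ((32 / 2 + 1 : ℕ)) = 17 := rfl
  rw [h]
  simp only [sum_range_succ, sum_range_zero, show cfn 32 0 0 = 1 from by decide +kernel, show cfn 32 1 0 = 0 from by decide +kernel, show cfn 32 2 0 = 0 from by decide +kernel, show cfn 32 3 0 = 0 from by decide +kernel, show cfn 32 4 0 = 0 from by decide +kernel, show cfn 32 5 0 = 0 from by decide +kernel, show cfn 32 6 0 = 0 from by decide +kernel, show cfn 32 7 0 = 0 from by decide +kernel, show cfn 32 8 0 = 0 from by decide +kernel, show cfn 32 9 0 = 0 from by decide +kernel, show cfn 32 10 0 = 0 from by decide +kernel, show cfn 32 11 0 = 0 from by decide +kernel, show cfn 32 12 0 = 0 from by decide +kernel, show cfn 32 13 0 = 0 from by decide +kernel, show cfn 32 14 0 = 0 from by decide +kernel, show cfn 32 15 0 = 0 from by decide +kernel, show cfn 32 16 0 = 0 from by decide +kernel, Nat.cast_ofNat, Nat.cast_one, Nat.cast_zero]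
  ring

theorem c32_1 (γ : ℕ → ℝ) : ∑ i ∈ range (32 / 2 + 1), γ i * (cfn 32 i 1 : ℝ) =
    (64) * γ 0 + (1) * γ 1 + (0) * γ 2 + (0) * γ 3 + (0) * γ 4 + (0) * γ 5 + (0) * γ 6
       + (0) * γ 7 + (0) * γ 8 + (0) * γ 9 + (0) * γ 10 + (0) * γ 11 + (0) * γ 12 + (0) * γ 13
       + (0) * γ 14 + (0) * γ 15 + (0) * γ 16 := by
  have h : ((32 / 2 + 1 : ℕ)) = 17 := rfl
  rw [h]
  simp only [sum_range_succ, sum_range_zero, show cfn 32 0 1 = 64 from by decide +kernel, show cfn 32 1 1 = 1 from by decide +kernel, show cfn 32 2 1 = 0 from by decide +kernel, show cfn 32 3 1 = 0 from by decide +kernel, show cfn 32 4 1 = 0 from by decide +kernel, show cfn 32 5 1 = 0 from by decide +kernel, show cfn 32 6 1 = 0 from by decide +kernel, show cfn 32 7 1 = 0 from by decide +kernel, show cfn 32 8 1 = 0 from by decide +kernel, show cfn 32 9 1 = 0 from by decide +kernel, show cfn 32 10 1 = 0 from by decide +kernel, show cfn 32 11 1 = 0 from by decide +kernel, show cfn 32 12 1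 = 0 from by decide +kernel, show cfn 32 13 1 = 0 from by decide +kernel, show cfn 32 14 1 = 0 from by decide +kernel, show cfn 32 15 1 = 0 from by decide +kernel, show cfn 32 16 1 = 0 from by decide +kernel, Nat.cast_ofNat, Nat.cast_one, Nat.cast_zero]
  ring

theorem c32_2 (γ : ℕ → ℝ) : ∑ i ∈ range (32 / 2 + 1), γ i * (cfn 32 i 2 : ℝ) =
    (1984) * γ 0 + (61) * γ 1 + (1) * γ 2 + (0) * γ 3 + (0) * γ 4 + (0) * γ 5 + (0) * γ 6
       + (0) * γ 7 + (0) * γ 8 + (0) * γ 9 + (0) * γ 10 + (0) * γ 11 + (0) * γ 12 + (0) * γ 13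
       + (0) * γ 14 + (0) * γ 15 + (0) * γ 16 := by
  have h : ((32 / 2 + 1 : ℕ)) = 17 := rfl
  rw [h]
  simp only [sum_range_succ, sum_range_zero, show cfn 32 0 2 = 1984 from by decide +kernel, show cfn 32 1 2 = 61 from by decide +kernel, show cfn 32 2 2 = 1 from by decide +kernel, show cfn 32 3 2 = 0 from by decide +kernel, show cfn 32 4 2 = 0 from by decide +kernel, show cfn 32 5 2 = 0 from by decide +kernel, show cfn 32 6 2 = 0 from by decide +kernel, show cfn 32 7 2 = 0 from by decide +kernel, show cfn 32 8 2 = 0 from by decide +kernel, show cfn 32 9 2 = 0 from by decide +kernel, show cfn 32 10 2 = 0 from by decide +kernel, show cfn 32 11 2 = 0 from by decide +kernel, show cfn 32 12 2 = 0 from by decide +kernel, show cfn 32 13 2 = 0 from by decide +kernel, show cfn 32 14 2 = 0 from by decide +kernel, show cfn 32 15 2 = 0 from by decide +kernel, show cfn 32 16 2 = 0 from by decide +kernel, Nat.cast_ofNat, Nat.cast_one, Nat.cast_zero]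
  ring

theorem c32_3 (γ : ℕ → ℝ) : ∑ i ∈ range (32 / 2 + 1), γ i * (cfn 32 i 3 : ℝ) =
    (39680) * γ 0 + (1800) * γ 1 + (58) * γ 2 + (1) * γ 3 + (0) * γ 4 + (0) * γ 5 + (0) * γ 6
       + (0) * γ 7 + (0) * γ 8 + (0) * γ 9 + (0) * γ 10 + (0) * γ 11 + (0) * γ 12 + (0) * γ 13
       + (0) * γ 14 + (0) * γ 15 + (0) * γ 16 := by
  have h : ((32 / 2 + 1 : ℕ)) = 17 := rfl
  rw [h]
  simp only [sum_range_succ, sum_range_zero, show cfn 32 0 3 = 39680 from by decide +kernel, show cfn 32 1 3 = 1800 from by decide +kernel, show cfn 32 2 3 = 58 from by decide +kernel, show cfn 32 3 3 = 1 from by decide +kernel, show cfn 32 4 3 = 0 from by decide +kernel, show cfn 32 5 3 = 0 from by decide +kernel, show cfn 32 6 3 = 0 from by decide +kernel, show cfn 32 7 3 = 0 from by decide +kernel, show cfn 32 8 3 = 0 from by decide +kernel, show cfn 32 9 3 = 0 from by decide +kernel, show cfn 32 10 3 = 0 from by decide +kernel, show cfn 32 11 3 = 0 from by decide +kernel, show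 cfn 32 12 3 = 0 from by decide +kernel, show cfn 32 13 3 = 0 from by decide +kernel, show cfn 32 14 3 = 0 from by decide +kernel, show cfn 32 15 3 = 0 from by decide +kernel, show cfn 32 16 3 = 0 from by decide +kernel, Nat.cast_ofNat, Nat.cast_one, Nat.cast_zero]
  ring

theorem c32_4 (γ : ℕ → ℝ) : ∑ i ∈ range (32 / 2 + 1), γ i * (cfn 32 i 4 : ℝ) =
    (575360) * γ 0 + (34220) * γ 1 + (1625) * γ 2 + (55) * γ 3 + (1) * γ 4 + (0) * γ 5
       + (0) * γ 6 + (0) * γ 7 + (0) * γ 8 + (0) * γ 9 + (0) * γ 10 + (0) * γ 11 + (0) * γ 12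
       + (0) * γ 13 + (0) * γ 14 + (0) * γ 15 + (0) * γ 16 := by
  have h : ((32 / 2 + 1 : ℕ)) = 17 := rfl
  rw [h]
  simp only [sum_range_succ, sum_range_zero, show cfn 32 0 4 = 575360 from by decide +kernel, show cfn 32 1 4 = 34220 from by decide +kernel, show cfn 32 2 4 = 1625 from by decide +kernel, show cfn 32 3 4 = 55 from by decide +kernel, show cfn 32 4 4 = 1 from by decide +kernel, show cfn 32 5 4 = 0 from by decide +kernel, show cfn 32 6 4 = 0 from by decide +kernel, show cfn 32 7 4 = 0 from by decide +kernel, show cfn 32 8 4 = 0 from by decide +kernel, show cfn 32 9 4 = 0 from by decide +kernel, show cfn 32 10 4 = 0 from by decide +kernel, show cfn 32 11 4 = 0 from by decide +kernel, show cfn 32 12 4 = 0 from by decide +kernel, show cfn 32 13 4 = 0 from by decide +kernel, show cfn 32 14 4 = 0 from by decide +kernel, show cfn 32 15 4 = 0 from by decide +kernel, show cfn 32 16 4 = 0 from by decide +kernel, Nat.cast_ofNat, Nat.cast_one, Nat.cast_zero]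
  ring

theorem c32_5 (γ : ℕ → ℝ) : ∑ i ∈ range (32 / 2 + 1), γ i * (cfn 32 i 5 : ℝ) =
    (6444032) * γ 0 + (470960) * γ 1 + (29288) * γ 2 + (1459) * γ 3 + (52) * γ 4 + (1) * γ 5
       + (0) * γ 6 + (0) * γ 7 + (0) * γ 8 + (0) * γ 9 + (0) * γ 10 + (0) * γ 11 + (0) * γ 12
       + (0) * γ 13 + (0) * γ 14 + (0) * γ 15 + (0) * γ 16 := by
  have h : ((32 / 2 + 1 : ℕ)) = 17 := rfl
  rw [h]
  simp only [sum_range_succ, sum_range_zero, show cfn 32 0 5 = 6444032 from by decide +kernel, show cfn 32 1 5 = 470960 from by decide +kernel, show cfn 32 2 5 = 29288 from by decide +kernel, show cfn 32 3 5 = 1459 from by decide +kernel, show cfn 32 4 5 = 52 from by decide +kernel, show cfn 32 5 5 = 1 from by decide +kernel, show cfn 32 6 5 = 0 from by decide +kernel, show cfn 32 7 5 = 0 from by decide +kernel, show cfn 32 8 5 = 0 from by decide +kernel, show cfn 32 9 5 = 0 from by decide +kernel, show cfn 32 10 5 = 0 from by decide +kernel, show cfn 32 11 5 = 0 from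 by decide +kernel, show cfn 32 12 5 = 0 from by decide +kernel, show cfn 32 13 5 = 0 from by decide +kernel, show cfn 32 14 5 = 0 from by decide +kernel, show cfn 32 15 5 = 0 from by decide +kernel, show cfn 32 16 5 = 0 from by decide +kernel, Nat.cast_ofNat, Nat.cast_one, Nat.cast_zero]
  ring

theorem c32_6 (γ : ℕ → ℝ) : ∑ i ∈ range (32 / 2 + 1), γ i * (cfn 32 i 6 : ℝ) =
    (57996288) * γ 0 + (4998672) * γ 1 + (381528) * γ 2 + (24857) * γ 3 + (1302) * γ 4
       + (49) * γ 5 + (1) * γ 6 + (0) * γ 7 + (0) * γ 8 + (0) * γ 9 + (0) * γ 10 + (0) * γ 11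
       + (0) * γ 12 + (0) * γ 13 + (0) * γ 14 + (0) * γ 15 + (0) * γ 16 := by
  have h : ((32 / 2 + 1 : ℕ)) = 17 := rfl
  rw [h]
  simp only [sum_range_succ, sum_range_zero, show cfn 32 0 6 = 57996288 from by decide +kernel, show cfn 32 1 6 = 4998672 from by decide +kernel, show cfn 32 2 6 = 381528 from by decide +kernel, show cfn 32 3 6 = 24857 from by decide +kernel, show cfn 32 4 6 = 1302 from by decide +kernel, show cfn 32 5 6 = 49 from by decide +kernel, show cfn 32 6 6 = 1 from by decide +kernel, show cfn 32 7 6 = 0 from by decide +kernel, show cfn 32 8 6 = 0 from by decide +kernel, show cfn 32 9 6 = 0 from by decide +kernel, show cfn 32 10 6 = 0 from by decide +kernel, show cfn 32 11 6 = 0 from by decide +kernel, show cfn 32 12 6 = 0 from by decide +kernel, show cfn 32 13 6 = 0 from by decide +kernel, show cfn 32 14 6 = 0 from by decide +kernel, show cfn 32 15 6 = 0 from by decide +kernel, show cfn 32 16 6 = 0 from by decide +kernel, Nat.cast_ofNat,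 Nat.cast_one, Nat.cast_zero]
  ring

theorem c32_7 (γ : ℕ → ℝ) : ∑ i ∈ range (32 / 2 + 1), γ i * (cfn 32 i 7 : ℝ) =
    (430829568) * γ 0 + (42561792) * γ 1 + (3826368) * γ 2 + (305552) * γ 3 + (20900) * γ 4
       + (1154) * γ 5 + (46) * γ 6 + (1) * γ 7 + (0) * γ 8 + (0) * γ 9 + (0) * γ 10 + (0) * γ 11
       + (0) * γ 12 + (0) * γ 13 + (0) * γ 14 + (0) * γ 15 + (0) * γ 16 := by
  have h : ((32 / 2 + 1 : ℕ)) = 17 := rfl
  rw [h]
  simp only [sum_range_succ, sum_range_zero, show cfn 32 0 7 = 430829568 from by decide +kernel, show cfn 32 1 7 = 42561792 from by decide +kernel, show cfn 32 2 7 = 3826368 from by decide +kernel, show cfn 32 3 7 = 305552 from by decide +kernel, show cfn 32 4 7 = 20900 from by decide +kernel, show cfn 32 5 7 = 1154 from by decide +kernel, show cfn 32 6 7 = 46 from by decide +kernel, show cfn 32 7 7 = 1 from by decide +kernel, show cfn 32 8 7 = 0 from by decide +kernel, show cfn 32 9 7 = 0 from by decide +kernel, show cfn 32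 10 7 = 0 from by decide +kernel, show cfn 32 11 7 = 0 from by decide +kernel, show cfn 32 12 7 = 0 from by decide +kernel, show cfn 32 13 7 = 0 from by decide +kernel, show cfn 32 14 7 = 0 from by decide +kernel, show cfn 32 15 7 = 0 from by decide +kernel, show cfn 32 16 7 = 0 from by decide +kernel, Nat.cast_ofNat, Nat.cast_one, Nat.cast_zero]
  ring

theorem c32_8 (γ : ℕ → ℝ) : ∑ i ∈ range (32 / 2 + 1), γ i * (cfn 32 i 8 : ℝ) =
    (2692684800) * γ 0 + (298584000) * γ 1 + (30728880) * γ 2 + (2886260) * γ 3 + (241601) * γ 4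
       + (17390) * γ 5 + (1015) * γ 6 + (43) * γ 7 + (1) * γ 8 + (0) * γ 9 + (0) * γ 10
       + (0) * γ 11 + (0) * γ 12 + (0) * γ 13 + (0) * γ 14 + (0) * γ 15 + (0) * γ 16 := by
  have h : ((32 / 2 + 1 : ℕ)) = 17 := rfl
  rw [h]
  simp only [sum_range_succ, sum_range_zero, show cfn 32 0 8 = 2692684800 from by decide +kernel, show cfn 32 1 8 = 298584000 from by decide +kernel, show cfn 32 2 8 = 30728880 from by decide +kernel, show cfn 32 3 8 = 2886260 from by decide +kernel, show cfn 32 4 8 = 241601 from by decide +kernel, show cfn 32 5 8 = 17390 from by decide +kernel, show cfn 32 6 8 = 1015 from by decide +kernel, show cfn 32 7 8 = 43 from by decide +kernel, show cfn 32 8 8 = 1 from by decide +kernel, show cfn 32 9 8 = 0 from by decide +kernel, show cfn 32 10 8 = 0 from by decide +kernel, show cfn 32 11 8 = 0 from by decide +kernel, show cfn 32 12 8 = 0 from by decide +kernel, show cfn 32 13 8 = 0 from by decide +kernel, show cfn 32 14 8 = 0 from by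 decide +kernel, show cfn 32 15 8 = 0 from by decide +kernel, show cfn 32 16 8 = 0 from by decide +kernel, Nat.cast_ofNat, Nat.cast_one, Nat.cast_zero]
  ring

theorem c32_9 (γ : ℕ → ℝ) : ∑ i ∈ range (32 / 2 + 1), γ i * (cfn 32 i 9 : ℝ) =
    (14360985600) * γ 0 + (1758931200) * γ 1 + (202924800) * γ 2 + (21788000) * γ 3
       + (2141808) * γ 4 + (188325) * γ 5 + (14300) * γ 6 + (885) * γ 7 + (40) * γ 8 + (1) * γ 9
       + (0) * γ 10 + (0) * γ 11 + (0) * γ 12 + (0) * γ 13 + (0) * γ 14 + (0) * γ 15 + (0) * γ 16 := by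
  have h : ((32 / 2 + 1 : ℕ)) = 17 := rfl
  rw [h]
  simp only [sum_range_succ, sum_range_zero, show cfn 32 0 9 = 14360985600 from by decide +kernel, show cfn 32 1 9 = 1758931200 from by decide +kernel, show cfn 32 2 9 = 202924800 from by decide +kernel, show cfn 32 3 9 = 21788000 from by decide +kernel, show cfn 32 4 9 = 2141808 from by decide +kernel, show cfn 32 5 9 = 188325 from by decide +kernel, show cfn 32 6 9 = 14300 from by decide +kernel, show cfn 32 7 9 = 885 from by decide +kernel, show cfn 32 8 9 = 40 from by decide +kernel, show cfn 32 9 9 = 1 from by decide +kernel, show cfn 32 10 9 = 0 from by decide +kernel, show cfn 32 11 9 = 0 from by decide +kernel, show cfn 32 12 9 = 0 from by decide +kernel, show cfn 32 13 9 = 0 from by decide +kernel, show cfn 32 14 9 = 0 from by decide +kernel, show cfn 32 15 9 = 0 from by decide +kernel, show cfn 32 16 9 = 0 from by decide +kernel, Nat.cast_ofNat, Nat.cast_one, Nat.cast_zero]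
  ring

theorem c32_10 (γ : ℕ → ℝ) : ∑ i ∈ range (32 / 2 + 1), γ i * (cfn 32 i 10 : ℝ) =
    (66060533760) * γ 0 + (8823609600) * γ 1 + (1122900480) * γ 2 + (134956640) * γ 3
       + (15140624) * γ 4 + (1560549) * γ 5 + (144455) * γ 6 + (11603) * γ 7 + (764) * γ 8
       + (37) * γ 9 + (1) * γ 10 + (0) * γ 11 + (0) * γ 12 + (0) * γ 13 + (0) * γ 14 + (0) * γ 15
       + (0) * γ 16 := by
  have h : ((32 / 2 + 1 : ℕ)) = 17 := rfl
  rw [h]
  simp only [sum_range_succ, sum_range_zero, show cfn 32 0 10 = 66060533760 from by decide +kernel, show cfn 32 1 10 = 8823609600 from by decide +kernel, show cfn 32 2 10 = 1122900480 from by decide +kernel, show cfn 32 3 10 = 134956640 from by decide +kernel, show cfn 32 4 10 = 15140624 from by decide +kernel, show cfn 32 5 10 = 1560549 from by decide +kernel, show cfn 32 6 10 = 144455 from by decide +kernel, show cfn 32 7 10 = 11603 from by decide +kernel, show cfn 32 8 10 = 764 from by decide +kernel, show cfn 32 9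 10 = 37 from by decide +kernel, show cfn 32 10 10 = 1 from by decide +kernel, show cfn 32 11 10 = 0 from by decide +kernel, show cfn 32 12 10 = 0 from by decide +kernel, show cfn 32 13 10 = 0 from by decide +kernel, show cfn 32 14 10 = 0 from by decide +kernel, show cfn 32 15 10 = 0 from by decide +kernel, show cfn 32 16 10 = 0 from by decide +kernel, Nat.cast_ofNat, Nat.cast_one, Nat.cast_zero]
  ring

theorem c32_11 (γ : ℕ → ℝ) : ∑ i ∈ range (32 / 2 + 1), γ i * (cfn 32 i 11 : ℝ) =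
    (264242135040) * γ 0 + (38091356160) * γ 1 + (5279239680) * γ 2 + (698846720) * γ 3
       + (87614912) * γ 4 + (10286936) * γ 5 + (1113854) * γ 6 + (108803) * γ 7 + (9272) * γ 8
       + (652) * γ 9 + (34) * γ 10 + (1) * γ 11 + (0) * γ 12 + (0) * γ 13 + (0) * γ 14 + (0) * γ 15
       + (0) * γ 16 := by
  have h : ((32 / 2 + 1 : ℕ)) = 17 := rfl
  rw [h]
  simp only [sum_range_succ, sum_range_zero, show cfn 32 0 11 = 264242135040 from by decide +kernel, show cfn 32 1 11 = 38091356160 from by decide +kernel, show cfn 32 2 11 = 5279239680 from by decide +kernel, show cfn 32 3 11 = 698846720 from by decide +kernel, show cfn 32 4 11 = 87614912 from by decide +kernel, show cfn 32 5 11 = 10286936 from by decide +kernel, show cfn 32 6 11 = 1113854 from by decide +kernel, show cfn 32 7 11 = 108803 from by decide +kernel, show cfn 32 8 11 = 9272 from by decide +kernel, show cfn 32 9 11 = 652 from by decide +kernel, show cfn 32 10 11 = 34 from by decide +kernel,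 show cfn 32 11 11 = 1 from by decide +kernel, show cfn 32 12 11 = 0 from by decide +kernel, show cfn 32 13 11 = 0 from by decide +kernel, show cfn 32 14 11 = 0 from by decide +kernel, show cfn 32 15 11 = 0 from by decide +kernel, show cfn 32 16 11 = 0 from by decide +kernel, Nat.cast_ofNat, Nat.cast_one, Nat.cast_zero]
  ring

theorem c32_12 (γ : ℕ → ℝ) : ∑ i ∈ range (32 / 2 + 1), γ i * (cfn 32 i 12 : ℝ) =
    (924847472640) * γ 0 + (142642805760) * γ 1 + (21306405120) * γ 2 + (3066926720) * γ 3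
       + (422781216) * γ 4 + (55365596) * γ 5 + (6814249) * γ 6 + (776685) * γ 7 + (80262) * γ 8
       + (7280) * γ 9 + (549) * γ 10 + (31) * γ 11 + (1) * γ 12 + (0) * γ 13 + (0) * γ 14
       + (0) * γ 15 + (0) * γ 16 := by
  have h : ((32 / 2 + 1 : ℕ)) = 17 := rfl
  rw [h]
  simp only [sum_range_succ, sum_range_zero, show cfn 32 0 12 = 924847472640 from by decide +kernel, show cfn 32 1 12 = 142642805760 from by decide +kernel, show cfn 32 2 12 = 21306405120 from by decide +kernel, show cfn 32 3 12 = 3066926720 from by decide +kernel, show cfn 32 4 12 = 422781216 from by decide +kernel, show cfn 32 5 12 = 55365596 from by decide +kernel, show cfn 32 6 12 = 6814249 from by decide +kernel, show cfn 32 7 12 = 776685 from by decide +kernel, show cfn 32 8 12 = 80262 from by decide +kernel, show cfn 32 9 12 = 7280 from by decide +kernel, show cfn 32 10 12 = 549 from by decide +kernel, show cfn 32 11 12 = 31 from by decide +kernel, show cfn 32 12 12 = 1 from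 by decide +kernel, show cfn 32 13 12 = 0 from by decide +kernel, show cfn 32 14 12 = 0 from by decide +kernel, show cfn 32 15 12 = 0 from by decide +kernel, show cfn 32 16 12 = 0 from by decide +kernel, Nat.cast_ofNat, Nat.cast_one, Nat.cast_zero]
  ring

theorem c32_13 (γ : ℕ → ℝ) : ∑ i ∈ range (32 / 2 + 1), γ i * (cfn 32 i 13 : ℝ) =
    (2845684531200) * γ 0 + (466152960000) * γ 1 + (74391582720) * γ 2 + (11522551040) * γ 3
       + (1724188928) * γ 4 + (247786000) * γ 5 + (33940120) * γ 6 + (4386151) * γ 7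
       + (527352) * γ 8 + (57806) * γ 9 + (5600) * γ 10 + (455) * γ 11 + (28) * γ 12 + (1) * γ 13
       + (0) * γ 14 + (0) * γ 15 + (0) * γ 16 := by
  have h : ((32 / 2 + 1 : ℕ)) = 17 := rfl
  rw [h]
  simp only [sum_range_succ, sum_range_zero, show cfn 32 0 13 = 2845684531200 from by decide +kernel, show cfn 32 1 13 = 466152960000 from by decide +kernel, show cfn 32 2 13 = 74391582720 from by decide +kernel, show cfn 32 3 13 = 11522551040 from by decide +kernel, show cfn 32 4 13 = 1724188928 from by decide +kernel, show cfn 32 5 13 = 247786000 from by decide +kernel, show cfn 32 6 13 = 33940120 from by decide +kernel, show cfn 32 7 13 = 4386151 from by decide +kernel, show cfn 32 8 13 = 527352 from by decide +kernel, show cfn 32 9 13 = 57806 from by decide +kernel, show cfn 32 10 13 = 5600 from by decide +kernel, show cfn 32 11 13 = 455 from by decide +kernel, show cfn 32 12 13 = 28 from by decide +kernel, show cfn 32 13 13 = 1 from by decide +kernel,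 show cfn 32 14 13 = 0 from by decide +kernel, show cfn 32 15 13 = 0 from by decide +kernel, show cfn 32 16 13 = 0 from by decide +kernel, Nat.cast_ofNat, Nat.cast_one, Nat.cast_zero]
  ring

theorem c32_14 (γ : ℕ → ℝ) : ∑ i ∈ range (32 / 2 + 1), γ i * (cfn 32 i 14 : ℝ) =
    (7724000870400) * γ 0 + (1335348940800) * γ 1 + (226003814400) * γ 2 + (37340076800) * γ 3
       + (6001597184) * γ 4 + (934363760) * γ 5 + (140134120) * γ 6 + (20103025) * γ 7
       + (2732380) * γ 8 + (347270) * γ 9 + (40490) * γ 10 + (4205) * γ 11 + (370) * γ 12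
       + (25) * γ 13 + (1) * γ 14 + (0) * γ 15 + (0) * γ 16 := by
  have h : ((32 / 2 + 1 : ℕ)) = 17 := rfl
  rw [h]
  simp only [sum_range_succ, sum_range_zero, show cfn 32 0 14 = 7724000870400 from by decide +kernel, show cfn 32 1 14 = 1335348940800 from by decide +kernel, show cfn 32 2 14 = 226003814400 from by decide +kernel, show cfn 32 3 14 = 37340076800 from by decide +kernel, show cfn 32 4 14 = 6001597184 from by decide +kernel, show cfn 32 5 14 = 934363760 from by decide +kernel, show cfn 32 6 14 = 140134120 from by decide +kernel, show cfn 32 7 14 = 20103025 from by decide +kernel, show cfn 32 8 14 = 2732380 from by decide +kernel, show cfn 32 9 14 = 347270 from by decide +kernel, show cfn 32 10 14 = 40490 from by decide +kernel, show cfn 32 11 14 = 4205 from by decide +kernel, show cfn 32 12 14 = 370 from by decide +kernel, show cfn 32 13 14 = 25 from by decide +kernel, show cfn 32 14 14 = 1 from by decide +kernel, show cfn 32 15 14 = 0 from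 by decide +kernel, show cfn 32 16 14 = 0 from by decide +kernel, Nat.cast_ofNat, Nat.cast_one, Nat.cast_zero]
  ring

theorem c32_15 (γ : ℕ → ℝ) : ∑ i ∈ range (32 / 2 + 1), γ i * (cfn 32 i 15 : ℝ) =
    (18537602088960) * γ 0 + (3363677798400) * γ 1 + (599920312320) * γ 2 + (104944885760) * γ 3
       + (17959483392) * γ 4 + (2997187072) * γ 5 + (485852800) * γ 6 + (76117536) * γ 7
       + (11450248) * γ 8 + (1639428) * γ 9 + (220716) * γ 10 + (27450) * γ 11 + (3068) * γ 12
       + (294) * γ 13 + (22) * γ 14 + (1) * γ 15 + (0) * γ 16 := by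
  have h : ((32 / 2 + 1 : ℕ)) = 17 := rfl
  rw [h]
  simp only [sum_range_succ, sum_range_zero, show cfn 32 0 15 = 18537602088960 from by decide +kernel, show cfn 32 1 15 = 3363677798400 from by decide +kernel, show cfn 32 2 15 = 599920312320 from by decide +kernel, show cfn 32 3 15 = 104944885760 from by decide +kernel, show cfn 32 4 15 = 17959483392 from by decide +kernel, show cfn 32 5 15 = 2997187072 from by decide +kernel, show cfn 32 6 15 = 485852800 from by decide +kernel, show cfn 32 7 15 = 76117536 from by decide +kernel, show cfn 32 8 15 = 11450248 from by decide +kernel, show cfn 32 9 15 = 1639428 from by decide +kernel, show cfn 32 10 15 = 220716 from by decide +kernel, show cfn 32 11 15 = 27450 from by decide +kernel, show cfn 32 12 15 = 3068 from by decide +kernel, show cfn 32 13 15 = 294 from by decide +kernel, show cfn 32 14 15 = 22 from by decide +kernel, show cfn 32 15 15 = 1 from by decide +kernel, show cfn 32 16 15 = 0 from by decide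 +kernel, Nat.cast_ofNat, Nat.cast_one, Nat.cast_zero]
  ring

theorem c32_16 (γ : ℕ → ℝ) : ∑ i ∈ range (32 / 2 + 1), γ i * (cfn 32 i 16 : ℝ) =
    (39392404439040) * γ 0 + (7465496002560) * γ 1 + (1395330232320) * γ 2 + (256784276480) * γ 3
       + (46440640256) * γ 4 + (8234877248) * γ 5 + (1427603152) * γ 6 + (241104676) * γ 7
       + (39490049) * γ 8 + (6235836) * γ 9 + (941874) * γ 10 + (134586) * γ 11 + (17903) * γ 12
       + (2162) * γ 13 + (227) * γ 14 + (19) * γ 15 + (1) * γ 16 := by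
  have h : ((32 / 2 + 1 : ℕ)) = 17 := rfl
  rw [h]
  simp only [sum_range_succ, sum_range_zero, show cfn 32 0 16 = 39392404439040 from by decide +kernel, show cfn 32 1 16 = 7465496002560 from by decide +kernel, show cfn 32 2 16 = 1395330232320 from by decide +kernel, show cfn 32 3 16 = 256784276480 from by decide +kernel, show cfn 32 4 16 = 46440640256 from by decide +kernel, show cfn 32 5 16 = 8234877248 from by decide +kernel, show cfn 32 6 16 = 1427603152 from by decide +kernel, show cfn 32 7 16 = 241104676 from by decide +kernel, show cfn 32 8 16 = 39490049 from by decide +kernel, show cfn 32 9 16 = 6235836 from by decide +kernel, show cfn 32 10 16 = 941874 from by decide +kernel, show cfn 32 11 16 = 134586 from by decide +kernel, show cfn 32 12 16 = 17903 from by decide +kernel, show cfn 32 13 16 = 2162 from by decide +kernel, show cfn 32 14 16 = 227 from by decide +kernel, show cfn 32 15 16 = 19 from by decide +kernel, show cfn 32 16 16 = 1 from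 by decide +kernel, Nat.cast_ofNat, Nat.cast_one, Nat.cast_zero]
  ring

theorem c32_17 (γ : ℕ → ℝ) : ∑ i ∈ range (32 / 2 + 1), γ i * (cfn 32 i 17 : ℝ) =
    (74150408355840) * γ 0 + (14613311324160) * γ 1 + (2848171622400) * γ 2
       + (548333895680) * γ 3 + (104128667648) * γ 4 + (19471866368) * γ 5 + (3578240512) * γ 6
       + (644567104) * γ 7 + (113461024) * γ 8 + (19439241) * γ 9 + (3224904) * γ 10
       + (514446) * γ 11 + (78152) * γ 12 + (11147) * γ 13 + (1460) * γ 14 + (169) * γ 15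
       + (16) * γ 16 := by
  have h : ((32 / 2 + 1 : ℕ)) = 17 := rfl
  rw [h]
  simp only [sum_range_succ, sum_range_zero, show cfn 32 0 17 = 74150408355840 from by decide +kernel, show cfn 32 1 17 = 14613311324160 from by decide +kernel, show cfn 32 2 17 = 2848171622400 from by decide +kernel, show cfn 32 3 17 = 548333895680 from by decide +kernel, show cfn 32 4 17 = 104128667648 from by decide +kernel, show cfn 32 5 17 = 19471866368 from by decide +kernel, show cfn 32 6 17 = 3578240512 from by decide +kernel, show cfn 32 7 17 = 644567104 from by decide +kernel, show cfn 32 8 17 = 113461024 from by decide +kernel, show cfn 32 9 17 = 19439241 from by decide +kernel, show cfn 32 10 17 = 3224904 from by decide +kernel, show cfn 32 11 17 = 514446 from by decide +kernel, show cfn 32 12 17 = 78152 from by decide +kernel, show cfn 32 13 17 = 11147 from by decide +kernel, show cfn 32 14 17 = 1460 from by decide +kernel, show cfn 32 15 17 = 169 from by decide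 +kernel, show cfn 32 16 17 = 16 from by decide +kernel, Nat.cast_ofNat, Nat.cast_one, Nat.cast_zero]
  ring

theorem c32_18 (γ : ℕ → ℝ) : ∑ i ∈ range (32 / 2 + 1), γ i * (cfn 32 i 18 : ℝ) =
    (123584013926400) * γ 0 + (25227583488000) * γ 1 + (5104799907840) * γ 2
       + (1023029166080) * γ 3 + (202840940544) * γ 4 + (39742333440) * γ 5 + (7683368960) * γ 6
       + (1463156544) * γ 7 + (273867488) * γ 8 + (50250765) * γ 9 + (9007965) * γ 10
       + (1570650) * γ 11 + (264812) * γ 12 + (42819) * γ 13 + (6561) * γ 14 + (935) * γ 15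
       + (120) * γ 16 := by
  have h : ((32 / 2 + 1 : ℕ)) = 17 := rfl
  rw [h]
  simp only [sum_range_succ, sum_range_zero, show cfn 32 0 18 = 123584013926400 from by decide +kernel, show cfn 32 1 18 = 25227583488000 from by decide +kernel, show cfn 32 2 18 = 5104799907840 from by decide +kernel, show cfn 32 3 18 = 1023029166080 from by decide +kernel, show cfn 32 4 18 = 202840940544 from by decide +kernel, show cfn 32 5 18 = 39742333440 from by decide +kernel, show cfn 32 6 18 = 7683368960 from by decide +kernel, show cfn 32 7 18 = 1463156544 from by decide +kernel, show cfn 32 8 18 = 273867488 from by decide +kernel, show cfn 32 9 18 = 50250765 from by decide +kernel, show cfn 32 10 18 = 9007965 from by decide +kernel, show cfn 32 11 18 = 1570650 from by decide +kernel, show cfn 32 12 18 = 264812 from by decide +kernel, show cfn 32 13 18 = 42819 from by decide +kernel, show cfn 32 14 18 = 6561 from by decide +kernel, show cfn 32 15 18 = 935 from by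 decide +kernel, show cfn 32 16 18 = 120 from by decide +kernel, Nat.cast_ofNat, Nat.cast_one, Nat.cast_zero]
  ring

theorem c32_19 (γ : ℕ → ℝ) : ∑ i ∈ range (32 / 2 + 1), γ i * (cfn 32 i 19 : ℝ) =
    (182123809996800) * γ 0 + (38370843033600) * γ 1 + (8029008691200) * γ 2
       + (1667519283200) * γ 3 + (343484628992) * γ 4 + (70112808960) * γ 5 + (14167761920) * γ 6
       + (2830714880) * γ 7 + (558409600) * γ 8 + (108568488) * γ 9 + (20758530) * γ 10
       + (3892485) * γ 11 + (713240) * γ 12 + (127100) * γ 13 + (21882) * γ 14 + (3605) * γ 15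
       + (560) * γ 16 := by
  have h : ((32 / 2 + 1 : ℕ)) = 17 := rfl
  rw [h]
  simp only [sum_range_succ, sum_range_zero, show cfn 32 0 19 = 182123809996800 from by decide +kernel, show cfn 32 1 19 = 38370843033600 from by decide +kernel, show cfn 32 2 19 = 8029008691200 from by decide +kernel, show cfn 32 3 19 = 1667519283200 from by decide +kernel, show cfn 32 4 19 = 343484628992 from by decide +kernel, show cfn 32 5 19 = 70112808960 from by decide +kernel, show cfn 32 6 19 = 14167761920 from by decide +kernel, show cfn 32 7 19 = 2830714880 from by decide +kernel, show cfn 32 8 19 = 558409600 from by decide +kernel, show cfn 32 9 19 = 108568488 from by decide +kernel, show cfn 32 10 19 = 20758530 from by decide +kernel, show cfn 32 11 19 = 3892485 from by decide +kernel, show cfn 32 12 19 = 713240 from by decide +kernel, show cfn 32 13 19 = 127100 from by decide +kernel, show cfn 32 14 19 = 21882 from by decide +kernel, show cfn 32 15 19 = 3605 from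 by decide +kernel, show cfn 32 16 19 = 560 from by decide +kernel, Nat.cast_ofNat, Nat.cast_one, Nat.cast_zero]
  ring

theorem c32_20 (γ : ℕ → ℝ) : ∑ i ∈ range (32 / 2 + 1), γ i * (cfn 32 i 20 : ℝ) =
    (236760952995840) * γ 0 + (51314117836800) * γ 1 + (11063192125440) * γ 2
       + (2371614801920) * γ 3 + (505246171136) * γ 4 + (106904999936) * γ 5 + (22450618880) * γ 6
       + (4675645184) * γ 7 + (964763072) * γ 8 + (197000076) * γ 9 + (39753273) * γ 10
       + (7913955) * γ 11 + (1550927) * γ 12 + (298376) * γ 13 + (56147) * γ 14 + (10283) * γ 15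
       + (1820) * γ 16 := by
  have h : ((32 / 2 + 1 : ℕ)) = 17 := rfl
  rw [h]
  simp only [sum_range_succ, sum_range_zero, show cfn 32 0 20 = 236760952995840 from by decide +kernel, show cfn 32 1 20 = 51314117836800 from by decide +kernel, show cfn 32 2 20 = 11063192125440 from by decide +kernel, show cfn 32 3 20 = 2371614801920 from by decide +kernel, show cfn 32 4 20 = 505246171136 from by decide +kernel, show cfn 32 5 20 = 106904999936 from by decide +kernel, show cfn 32 6 20 = 22450618880 from by decide +kernel, show cfn 32 7 20 = 4675645184 from by decide +kernel, show cfn 32 8 20 = 964763072 from by decide +kernel, show cfn 32 9 20 = 197000076 from by decide +kernel, show cfn 32 10 20 = 39753273 from by decide +kernel, show cfn 32 11 20 = 7913955 from by decide +kernel, show cfn 32 12 20 = 1550927 from by decide +kernel, show cfn 32 13 20 = 298376 from by decide +kernel, show cfn 32 14 20 = 56147 from by decide +kernel, show cfn 32 15 20 = 10283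 from by decide +kernel, show cfn 32 16 20 = 1820 from by decide +kernel, Nat.cast_ofNat, Nat.cast_one, Nat.cast_zero]
  ring

theorem c32_21 (γ : ℕ → ℝ) : ∑ i ∈ range (32 / 2 + 1), γ i * (cfn 32 i 21 : ℝ) =
    (270583946280960) * γ 0 + (60144919511040) * γ 1 + (13316157603840) * γ 2
       + (2935664476160) * γ 3 + (644210884608) * γ 4 + (140659564544) * γ 5 + (30544285696) * γ 6
       + (6592940544) * γ 7 + (1413669376) * γ 8 + (300898416) * γ 9 + (63521352) * γ 10
       + (13286043) * γ 11 + (2749772) * γ 12 + (562263) * γ 13 + (113360) * γ 14 + (22477) * γ 15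
       + (4368) * γ 16 := by
  have h : ((32 / 2 + 1 : ℕ)) = 17 := rfl
  rw [h]
  simp only [sum_range_succ, sum_range_zero, show cfn 32 0 21 = 270583946280960 from by decide +kernel, show cfn 32 1 21 = 60144919511040 from by decide +kernel, show cfn 32 2 21 = 13316157603840 from by decide +kernel, show cfn 32 3 21 = 2935664476160 from by decide +kernel, show cfn 32 4 21 = 644210884608 from by decide +kernel, show cfn 32 5 21 = 140659564544 from by decide +kernel, show cfn 32 6 21 = 30544285696 from by decide +kernel, show cfn 32 7 21 = 6592940544 from by decide +kernel, show cfn 32 8 21 = 1413669376 from by decide +kernel, show cfn 32 9 21 = 300898416 from by decide +kernel, show cfn 32 10 21 = 63521352 from by decide +kernel, show cfn 32 11 21 = 13286043 from by decide +kernel, show cfn 32 12 21 = 2749772 from by decide +kernel, show cfn 32 13 21 = 562263 from by decide +kernel, show cfn 32 14 21 = 113360 from by decide +kernel, show cfn 32 15 21 =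 22477 from by decide +kernel, show cfn 32 16 21 = 4368 from by decide +kernel, Nat.cast_ofNat, Nat.cast_one, Nat.cast_zero]
  ring

theorem c32_22 (γ : ℕ → ℝ) : ∑ i ∈ range (32 / 2 + 1), γ i * (cfn 32 i 22 : ℝ) =
    (270583946280960) * γ 0 + (61508749885440) * γ 1 + (13941638430720) * γ 2
       + (3150232616960) * γ 3 + (709451055104) * γ 4 + (159198797824) * γ 5 + (35584946176) * γ 6
       + (7920561664) * γ 7 + (1754855936) * γ 8 + (386838480) * γ 9 + (84799992) * γ 10
       + (18474633) * γ 11 + (3997202) * γ 12 + (858143) * γ 13 + (182611) * γ 14 + (38467) * γ 15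
       + (8008) * γ 16 := by
  have h : ((32 / 2 + 1 : ℕ)) = 17 := rfl
  rw [h]
  simp only [sum_range_succ, sum_range_zero, show cfn 32 0 22 = 270583946280960 from by decide +kernel, show cfn 32 1 22 = 61508749885440 from by decide +kernel, show cfn 32 2 22 = 13941638430720 from by decide +kernel, show cfn 32 3 22 = 3150232616960 from by decide +kernel, show cfn 32 4 22 = 709451055104 from by decide +kernel, show cfn 32 5 22 = 159198797824 from by decide +kernel, show cfn 32 6 22 = 35584946176 from by decide +kernel, show cfn 32 7 22 = 7920561664 from by decide +kernel, show cfn 32 8 22 = 1754855936 from by decide +kernel, show cfn 32 9 22 = 386838480 from by decide +kernel, show cfn 32 10 22 = 84799992 from by decide +kernel, show cfn 32 11 22 = 18474633 from by decide +kernel, show cfn 32 12 22 = 3997202 from by decide +kernel, show cfn 32 13 22 = 858143 from by decide +kernel, show cfn 32 14 22 = 182611 from by decide +kernel, show cfn 32 15 22 =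 38467 from by decide +kernel, show cfn 32 16 22 = 8008 from by decide +kernel, Nat.cast_ofNat, Nat.cast_one, Nat.cast_zero]
  ring

theorem c32_23 (γ : ℕ → ℝ) : ∑ i ∈ range (32 / 2 + 1), γ i * (cfn 32 i 23 : ℝ) =
    (235290388070400) * γ 0 + (54553214976000) * γ 1 + (12622485258240) * γ 2
       + (2914207662080) * γ 3 + (671249334272) * γ 4 + (154228490240) * γ 5 + (35341434880) * γ 6
       + (8075223040) * γ 7 + (1839400960) * γ 8 + (417577728) * γ 9 + (94451520) * γ 10
       + (21278640) * γ 11 + (4772780) * γ 12 + (1065350) * γ 13 + (236522) * γ 14 + (52195) * γ 15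
       + (11440) * γ 16 := by
  have h : ((32 / 2 + 1 : ℕ)) = 17 := rfl
  rw [h]
  simp only [sum_range_succ, sum_range_zero, show cfn 32 0 23 = 235290388070400 from by decide +kernel, show cfn 32 1 23 = 54553214976000 from by decide +kernel, show cfn 32 2 23 = 12622485258240 from by decide +kernel, show cfn 32 3 23 = 2914207662080 from by decide +kernel, show cfn 32 4 23 = 671249334272 from by decide +kernel, show cfn 32 5 23 = 154228490240 from by decide +kernel, show cfn 32 6 23 = 35341434880 from by decide +kernel, show cfn 32 7 23 = 8075223040 from by decide +kernel, show cfn 32 8 23 = 1839400960 from by decide +kernel, show cfn 32 9 23 = 417577728 from by decide +kernel, show cfn 32 10 23 = 94451520 from by decide +kernel, show cfn 32 11 23 = 21278640 from by decide +kernel, show cfn 32 12 23 = 4772780 from by decide +kernel, show cfn 32 13 23 = 1065350 from by decide +kernel, show cfn 32 14 23 = 236522 from by decide +kernel, show cfn 32 15 23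 = 52195 from by decide +kernel, show cfn 32 16 23 = 11440 from by decide +kernel, Nat.cast_ofNat, Nat.cast_one, Nat.cast_zero]
  ring

theorem c32_24 (γ : ℕ → ℝ) : ∑ i ∈ range (32 / 2 + 1), γ i * (cfn 32 i 24 : ℝ) =
    (176467791052800) * γ 0 + (41626474905600) * γ 1 + (9805470105600) * γ 2
       + (2306362572800) * γ 3 + (541638721536) * γ 4 + (126991237120) * γ 5 + (29721763840) * γ 6
       + (6943242240) * γ 7 + (1618757120) * γ 8 + (376592064) * γ 9 + (87410160) * γ 10
       + (20238420) * γ 11 + (4673345) * γ 12 + (1076010) * γ 13 + (246961) * γ 14 + (56485) * γ 15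
       + (12870) * γ 16 := by
  have h : ((32 / 2 + 1 : ℕ)) = 17 := rfl
  rw [h]
  simp only [sum_range_succ, sum_range_zero, show cfn 32 0 24 = 176467791052800 from by decide +kernel, show cfn 32 1 24 = 41626474905600 from by decide +kernel, show cfn 32 2 24 = 9805470105600 from by decide +kernel, show cfn 32 3 24 = 2306362572800 from by decide +kernel, show cfn 32 4 24 = 541638721536 from by decide +kernel, show cfn 32 5 24 = 126991237120 from by decide +kernel, show cfn 32 6 24 = 29721763840 from by decide +kernel, show cfn 32 7 24 = 6943242240 from by decide +kernel, show cfn 32 8 24 = 1618757120 from by decide +kernel, show cfn 32 9 24 = 376592064 from by decide +kernel, show cfn 32 10 24 = 87410160 from by decide +kernel, show cfn 32 11 24 = 20238420 from by decide +kernel, show cfn 32 12 24 = 4673345 from by decide +kernel, show cfn 32 13 24 = 1076010 from by decide +kernel, show cfn 32 14 24 = 246961 from by decide +kernel, show cfn 32 15 24 =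 56485 from by decide +kernel, show cfn 32 16 24 = 12870 from by decide +kernel, Nat.cast_ofNat, Nat.cast_one, Nat.cast_zero]
  ring

theorem c32_25 (γ : ℕ → ℝ) : ∑ i ∈ range (32 / 2 + 1), γ i * (cfn 32 i 25 : ℝ) =
    (112939386273792) * γ 0 + (27039419596800) * γ 1 + (6467868426240) * γ 2
       + (1545674424320) * γ 3 + (369018011648) * γ 4 + (88009146368) * γ 5 + (20966932480) * γ 6
       + (4989337600) * γ 7 + (1185832960) * γ 8 + (281478912) * γ 9 + (66723072) * γ 10
       + (15793440) * γ 11 + (3732560) * γ 12 + (880685) * γ 13 + (207428) * γ 14 + (48763) * γ 15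
       + (11440) * γ 16 := by
  have h : ((32 / 2 + 1 : ℕ)) = 17 := rfl
  rw [h]
  simp only [sum_range_succ, sum_range_zero, show cfn 32 0 25 = 112939386273792 from by decide +kernel, show cfn 32 1 25 = 27039419596800 from by decide +kernel, show cfn 32 2 25 = 6467868426240 from by decide +kernel, show cfn 32 3 25 = 1545674424320 from by decide +kernel, show cfn 32 4 25 = 369018011648 from by decide +kernel, show cfn 32 5 25 = 88009146368 from by decide +kernel, show cfn 32 6 25 = 20966932480 from by decide +kernel, show cfn 32 7 25 = 4989337600 from by decide +kernel, show cfn 32 8 25 = 1185832960 from by decide +kernel, show cfn 32 9 25 = 281478912 from by decide +kernel, show cfn 32 10 25 = 66723072 from by decide +kernel, show cfn 32 11 25 = 15793440 from by decide +kernel, show cfn 32 12 25 = 3732560 from by decide +kernel, show cfn 32 13 25 = 880685 from by decide +kernel, show cfn 32 14 25 = 207428 from by decide +kernel, show cfn 32 15 25 = 48763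 from by decide +kernel, show cfn 32 16 25 = 11440 from by decide +kernel, Nat.cast_ofNat, Nat.cast_one, Nat.cast_zero]
  ring

theorem c32_26 (γ : ℕ → ℝ) : ∑ i ∈ range (32 / 2 + 1), γ i * (cfn 32 i 26 : ℝ) =
    (60813515685888) * γ 0 + (14743599316992) * γ 1 + (3572540375040) * γ 2
       + (865190543360) * γ 3 + (209410064384) * γ 4 + (50655199232) * γ 5 + (12245598208) * γ 6
       + (2958376960) * γ 7 + (714219520) * γ 8 + (172306176) * γ 9 + (41538048) * γ 10
       + (10005792) * γ 11 + (2408240) * γ 12 + (579125) * γ 13 + (139139) * γ 14 + (33397) * γ 15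
       + (8008) * γ 16 := by
  have h : ((32 / 2 + 1 : ℕ)) = 17 := rfl
  rw [h]
  simp only [sum_range_succ, sum_range_zero, show cfn 32 0 26 = 60813515685888 from by decide +kernel, show cfn 32 1 26 = 14743599316992 from by decide +kernel, show cfn 32 2 26 = 3572540375040 from by decide +kernel, show cfn 32 3 26 = 865190543360 from by decide +kernel, show cfn 32 4 26 = 209410064384 from by decide +kernel, show cfn 32 5 26 = 50655199232 from by decide +kernel, show cfn 32 6 26 = 12245598208 from by decide +kernel, show cfn 32 7 26 = 2958376960 from by decide +kernel, show cfn 32 8 26 = 714219520 from by decide +kernel, show cfn 32 9 26 = 172306176 from by decide +kernel, show cfn 32 10 26 = 41538048 from by decide +kernel, show cfn 32 11 26 = 10005792 from by decide +kernel, show cfn 32 12 26 = 2408240 from by decide +kernel, show cfn 32 13 26 = 579125 from by decide +kernel, show cfn 32 14 26 = 139139 from by decide +kernel, show cfn 32 15 26 = 33397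 from by decide +kernel, show cfn 32 16 26 = 8008 from by decide +kernel, Nat.cast_ofNat, Nat.cast_one, Nat.cast_zero]
  ring

theorem c32_27 (γ : ℕ → ℝ) : ∑ i ∈ range (32 / 2 + 1), γ i * (cfn 32 i 27 : ℝ) =
    (27028229193728) * γ 0 + (6620826304512) * γ 1 + (1621383708672) * γ 2 + (396948930560) * γ 3
       + (97152663552) * γ 4 + (23770693632) * γ 5 + (5814222848) * γ 6 + (1421672448) * γ 7
       + (347504640) * γ 8 + (84912128) * γ 9 + (20740608) * γ 10 + (5064192) * γ 11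
       + (1236032) * γ 12 + (301560) * γ 13 + (73542) * γ 14 + (17927) * γ 15 + (4368) * γ 16 := by
  have h : ((32 / 2 + 1 : ℕ)) = 17 := rfl
  rw [h]
  simp only [sum_range_succ, sum_range_zero, show cfn 32 0 27 = 27028229193728 from by decide +kernel, show cfn 32 1 27 = 6620826304512 from by decide +kernel, show cfn 32 2 27 = 1621383708672 from by decide +kernel, show cfn 32 3 27 = 396948930560 from by decide +kernel, show cfn 32 4 27 = 97152663552 from by decide +kernel, show cfn 32 5 27 = 23770693632 from by decide +kernel, show cfn 32 6 27 = 5814222848 from by decide +kernel, show cfn 32 7 27 = 1421672448 from by decide +kernel, show cfn 32 8 27 = 347504640 from by decide +kernel, show cfn 32 9 27 = 84912128 from by decide +kernel, show cfn 32 10 27 = 20740608 from by decide +kernel, show cfn 32 11 27 = 5064192 from by decide +kernel, show cfn 32 12 27 = 1236032 from by decide +kernel, show cfn 32 13 27 = 301560 from by decide +kernel, show cfn 32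 14 27 = 73542 from by decide +kernel, show cfn 32 15 27 = 17927 from by decide +kernel, show cfn 32 16 27 = 4368 from by decide +kernel, Nat.cast_ofNat, Nat.cast_one, Nat.cast_zero]
  ring

theorem c32_28 (γ : ℕ → ℝ) : ∑ i ∈ range (32 / 2 + 1), γ i * (cfn 32 i 28 : ℝ) =
    (9652938997760) * γ 0 + (2384042393600) * γ 1 + (588729286656) * γ 2 + (145366188032) * γ 3
       + (35888562176) * γ 4 + (8859156480) * γ 5 + (2186608640) * γ 6 + (539623424) * γ 7
       + (133152768) * γ 8 + (32850944) * γ 9 + (8103680) * γ 10 + (1998720) * γ 11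
       + (492896) * γ 12 + (121532) * γ 13 + (29961) * γ 14 + (7385) * γ 15 + (1820) * γ 16 := by
  have h : ((32 / 2 + 1 : ℕ)) = 17 := rfl
  rw [h]
  simp only [sum_range_succ, sum_range_zero, show cfn 32 0 28 = 9652938997760 from by decide +kernel, show cfn 32 1 28 = 2384042393600 from by decide +kernel, show cfn 32 2 28 = 588729286656 from by decide +kernel, show cfn 32 3 28 = 145366188032 from by decide +kernel, show cfn 32 4 28 = 35888562176 from by decide +kernel, show cfn 32 5 28 = 8859156480 from by decide +kernel, show cfn 32 6 28 = 2186608640 from by decide +kernel, show cfn 32 7 28 = 539623424 from by decide +kernel, show cfn 32 8 28 = 133152768 from by decide +kernel, show cfn 32 9 28 = 32850944 from by decide +kernel, show cfn 32 10 28 = 8103680 from by decide +kernel, show cfn 32 11 28 = 1998720 from by decide +kernel, show cfn 32 12 28 = 492896 from by decide +kernel, show cfn 32 13 28 = 121532 from by decide +kernel, show cfn 32 14 28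 = 29961 from by decide +kernel, show cfn 32 15 28 = 7385 from by decide +kernel, show cfn 32 16 28 = 1820 from by decide +kernel, Nat.cast_ofNat, Nat.cast_one, Nat.cast_zero]
  ring

theorem c32_29 (γ : ℕ → ℝ) : ∑ i ∈ range (32 / 2 + 1), γ i * (cfn 32 i 29 : ℝ) =
    (2662879723520) * γ 0 + (661693399040) * γ 1 + (164416716800) * γ 2 + (40852520960) * γ 3
       + (10150215680) * γ 4 + (2521825280) * γ 5 + (626524160) * γ 6 + (155648000) * γ 7
       + (38666240) * γ 8 + (9605120) * γ 9 + (2385920) * γ 10 + (592640) * γ 11 + (147200) * γ 12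
       + (36560) * γ 13 + (9080) * γ 14 + (2255) * γ 15 + (560) * γ 16 := by
  have h : ((32 / 2 + 1 : ℕ)) = 17 := rfl
  rw [h]
  simp only [sum_range_succ, sum_range_zero, show cfn 32 0 29 = 2662879723520 from by decide +kernel, show cfn 32 1 29 = 661693399040 from by decide +kernel, show cfn 32 2 29 = 164416716800 from by decide +kernel, show cfn 32 3 29 = 40852520960 from by decide +kernel, show cfn 32 4 29 = 10150215680 from by decide +kernel, show cfn 32 5 29 = 2521825280 from by decide +kernel, show cfn 32 6 29 = 626524160 from by decide +kernel, show cfn 32 7 29 = 155648000 from by decide +kernel, show cfn 32 8 29 = 38666240 from by decide +kernel, show cfn 32 9 29 = 9605120 from by decide +kernel, show cfn 32 10 29 = 2385920 from by decide +kernel, show cfn 32 11 29 = 592640 from by decide +kernel, show cfn 32 12 29 = 147200 from by decide +kernel, show cfn 32 13 29 = 36560 from by decide +kernel, show cfn 32 14 29 = 9080 from by decide +kernel,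 show cfn 32 15 29 = 2255 from by decide +kernel, show cfn 32 16 29 = 560 from by decide +kernel, Nat.cast_ofNat, Nat.cast_one, Nat.cast_zero]
  ring

theorem q32_0 (γ : ℕ → ℝ) (h0 : γ 0 = 1)
    (h : ∀ n < 32, 2 * (((32 : ℕ) : ℝ) - ((n : ℕ) : ℝ)) * ∑ i ∈ range (32 / 2 + 1), γ i * (cfn 32 i n : ℝ) ≤
      ((n : ℝ) + 1) * ∑ i ∈ range (32 / 2 + 1), γ i * (cfn 32 i (n + 1) : ℝ)) :
    0 ≤ (0) * γ 0 + (1) * γ 1 + (0) * γ 2 + (0) * γ 3 + (0) * γ 4 + (0) * γ 5 + (0) * γ 6 + (0) * γ 7
       + (0) * γ 8 + (0) * γ 9 + (0) * γ 10 + (0) * γ 11 + (0) * γ 12 + (0) * γ 13 + (0) * γ 14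
       + (0) * γ 15 + (0) * γ 16 := by
  have h1 := h 0 (by norm_num)
  rw [show 0 + 1 = 1 from rfl, c32_0, c32_1] at h1
  norm_num [h0] at h1 ⊢
  linarith

theorem q32_1 (γ : ℕ → ℝ) (h0 : γ 0 = 1)
    (h : ∀ n < 32, 2 * (((32 : ℕ) : ℝ) - ((n : ℕ) : ℝ)) * ∑ i ∈ range (32 / 2 + 1), γ i * (cfn 32 i n : ℝ) ≤
      ((n : ℝ) + 1) * ∑ i ∈ range (32 / 2 + 1), γ i * (cfn 32 i (n + 1) : ℝ)) :
    0 ≤ (0) * γ 0 + (60) * γ 1 + (2) * γ 2 + (0) * γ 3 + (0) * γ 4 + (0) * γ 5 + (0) * γ 6
       + (0) * γ 7 + (0) * γ 8 + (0) * γ 9 + (0) * γ 10 + (0) * γ 11 + (0) * γ 12 + (0) * γ 13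
       + (0) * γ 14 + (0) * γ 15 + (0) * γ 16 := by
  have h1 := h 1 (by norm_num)
  rw [show 1 + 1 = 2 from rfl, c32_1, c32_2] at h1
  norm_num [h0] at h1 ⊢
  linarith

theorem q32_2 (γ : ℕ → ℝ) (h0 : γ 0 = 1)
    (h : ∀ n < 32, 2 * (((32 : ℕ) : ℝ) - ((n : ℕ) : ℝ)) * ∑ i ∈ range (32 / 2 + 1), γ i * (cfn 32 i n : ℝ) ≤
      ((n : ℝ) + 1) * ∑ i ∈ range (32 / 2 + 1), γ i * (cfn 32 i (n + 1) : ℝ)) :
    0 ≤ (0) * γ 0 + (1740) * γ 1 + (114) * γ 2 + (3) * γ 3 + (0) * γ 4 + (0) * γ 5 + (0) * γ 6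
       + (0) * γ 7 + (0) * γ 8 + (0) * γ 9 + (0) * γ 10 + (0) * γ 11 + (0) * γ 12 + (0) * γ 13
       + (0) * γ 14 + (0) * γ 15 + (0) * γ 16 := by
  have h1 := h 2 (by norm_num)
  rw [show 2 + 1 = 3 from rfl, c32_2, c32_3] at h1
  norm_num [h0] at h1 ⊢
  linarith

theorem q32_3 (γ : ℕ → ℝ) (h0 : γ 0 = 1)
    (h : ∀ n < 32, 2 * (((32 : ℕ) : ℝ) - ((n : ℕ) : ℝ)) * ∑ i ∈ range (32 / 2 + 1), γ i * (cfn 32 i n : ℝ) ≤
      ((n : ℝ) + 1) * ∑ i ∈ range (32 / 2 + 1), γ i * (cfn 32 i (n + 1) : ℝ)) :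
    0 ≤ (0) * γ 0 + (32480) * γ 1 + (3136) * γ 2 + (162) * γ 3 + (4) * γ 4 + (0) * γ 5 + (0) * γ 6
       + (0) * γ 7 + (0) * γ 8 + (0) * γ 9 + (0) * γ 10 + (0) * γ 11 + (0) * γ 12 + (0) * γ 13
       + (0) * γ 14 + (0) * γ 15 + (0) * γ 16 := by
  have h1 := h 3 (by norm_num)
  rw [show 3 + 1 = 4 from rfl, c32_3, c32_4] at h1
  norm_num [h0] at h1 ⊢
  linarith

theorem q32_4 (γ : ℕ → ℝ) (h0 : γ 0 = 1)
    (h : ∀ n < 32, 2 * (((32 : ℕ) : ℝ) - ((n : ℕ) : ℝ)) * ∑ i ∈ range (32 / 2 + 1), γ i * (cfn 32 i n : ℝ) ≤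
      ((n : ℝ) + 1) * ∑ i ∈ range (32 / 2 + 1), γ i * (cfn 32 i (n + 1) : ℝ)) :
    0 ≤ (0) * γ 0 + (438480) * γ 1 + (55440) * γ 2 + (4215) * γ 3 + (204) * γ 4 + (5) * γ 5
       + (0) * γ 6 + (0) * γ 7 + (0) * γ 8 + (0) * γ 9 + (0) * γ 10 + (0) * γ 11 + (0) * γ 12
       + (0) * γ 13 + (0) * γ 14 + (0) * γ 15 + (0) * γ 16 := by
  have h1 := h 4 (by norm_num)
  rw [show 4 + 1 = 5 from rfl, c32_4, c32_5] at h1
  norm_num [h0] at h1 ⊢
  linarith

theorem q32_5 (γ : ℕ → ℝ) (h0 : γ 0 = 1)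
    (h : ∀ n < 32, 2 * (((32 : ℕ) : ℝ) - ((n : ℕ) : ℝ)) * ∑ i ∈ range (32 / 2 + 1), γ i * (cfn 32 i n : ℝ) ≤
      ((n : ℝ) + 1) * ∑ i ∈ range (32 / 2 + 1), γ i * (cfn 32 i (n + 1) : ℝ)) :
    0 ≤ (0) * γ 0 + (4560192) * γ 1 + (707616) * γ 2 + (70356) * γ 3 + (5004) * γ 4 + (240) * γ 5
       + (6) * γ 6 + (0) * γ 7 + (0) * γ 8 + (0) * γ 9 + (0) * γ 10 + (0) * γ 11 + (0) * γ 12
       + (0) * γ 13 + (0) * γ 14 + (0) * γ 15 + (0) * γ 16 := by
  have h1 := h 5 (by norm_num)
  rw [show 5 + 1 = 6 from rfl, c32_5, c32_6] at h1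
  norm_num [h0] at h1 ⊢
  linarith

theorem q32_6 (γ : ℕ → ℝ) (h0 : γ 0 = 1)
    (h : ∀ n < 32, 2 * (((32 : ℕ) : ℝ) - ((n : ℕ) : ℝ)) * ∑ i ∈ range (32 / 2 + 1), γ i * (cfn 32 i n : ℝ) ≤
      ((n : ℝ) + 1) * ∑ i ∈ range (32 / 2 + 1), γ i * (cfn 32 i (n + 1) : ℝ)) :
    0 ≤ (0) * γ 0 + (38001600) * γ 1 + (6945120) * γ 2 + (846300) * γ 3 + (78596) * γ 4
       + (5530) * γ 5 + (270) * γ 6 + (7) * γ 7 + (0) * γ 8 + (0) * γ 9 + (0) * γ 10 + (0) * γ 11
       + (0) * γ 12 + (0) * γ 13 + (0) * γ 14 + (0) * γ 15 + (0) * γ 16 := by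
  have h1 := h 6 (by norm_num)
  rw [show 6 + 1 = 7 from rfl, c32_6, c32_7] at h1
  norm_num [h0] at h1 ⊢
  linarith

theorem q32_7 (γ : ℕ → ℝ) (h0 : γ 0 = 1)
    (h : ∀ n < 32, 2 * (((32 : ℕ) : ℝ) - ((n : ℕ) : ℝ)) * ∑ i ∈ range (32 / 2 + 1), γ i * (cfn 32 i n : ℝ) ≤
      ((n : ℝ) + 1) * ∑ i ∈ range (32 / 2 + 1), γ i * (cfn 32 i (n + 1) : ℝ)) :
    0 ≤ (0) * γ 0 + (260582400) * γ 1 + (54512640) * γ 2 + (7812480) * γ 3 + (887808) * γ 4
       + (81420) * γ 5 + (5820) * γ 6 + (294) * γ 7 + (8) * γ 8 + (0) * γ 9 + (0) * γ 10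
       + (0) * γ 11 + (0) * γ 12 + (0) * γ 13 + (0) * γ 14 + (0) * γ 15 + (0) * γ 16 := by
  have h1 := h 7 (by norm_num)
  rw [show 7 + 1 = 8 from rfl, c32_7, c32_8] at h1
  norm_num [h0] at h1 ⊢
  linarith

theorem q32_8 (γ : ℕ → ℝ) (h0 : γ 0 = 1)
    (h : ∀ n < 32, 2 * (((32 : ℕ) : ℝ) - ((n : ℕ) : ℝ)) * ∑ i ∈ range (32 / 2 + 1), γ i * (cfn 32 i n : ℝ) ≤
      ((n : ℝ) + 1) * ∑ i ∈ range (32 / 2 + 1), γ i * (cfn 32 i (n + 1) : ℝ)) :
    0 ≤ (0) * γ 0 + (1498348800) * γ 1 + (351336960) * γ 2 + (57551520) * γ 3 + (7679424) * γ 4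
       + (860205) * γ 5 + (79980) * γ 6 + (5901) * γ 7 + (312) * γ 8 + (9) * γ 9 + (0) * γ 10
       + (0) * γ 11 + (0) * γ 12 + (0) * γ 13 + (0) * γ 14 + (0) * γ 15 + (0) * γ 16 := by
  have h1 := h 8 (by norm_num)
  rw [show 8 + 1 = 9 from rfl, c32_8, c32_9] at h1
  norm_num [h0] at h1 ⊢
  linarith

theorem q32_9 (γ : ℕ → ℝ) (h0 : γ 0 = 1)
    (h : ∀ n < 32, 2 * (((32 : ℕ) : ℝ) - ((n : ℕ) : ℝ)) * ∑ i ∈ range (32 / 2 + 1), γ i * (cfn 32 i n : ℝ) ≤
      ((n : ℝ) + 1) * ∑ i ∈ range (32 / 2 + 1), γ i * (cfn 32 i (n + 1) : ℝ)) :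
    0 ≤ (0) * γ 0 + (7325260800) * γ 1 + (1894464000) * γ 2 + (347318400) * γ 3 + (52883072) * γ 4
       + (6942540) * γ 5 + (786750) * γ 6 + (75320) * γ 7 + (5800) * γ 8 + (324) * γ 9
       + (10) * γ 10 + (0) * γ 11 + (0) * γ 12 + (0) * γ 13 + (0) * γ 14 + (0) * γ 15 + (0) * γ 16 := by
  have h1 := h 9 (by norm_num)
  rw [show 9 + 1 = 10 from rfl, c32_9, c32_10] at h1
  norm_num [h0] at h1 ⊢
  linarith

theorem q32_10 (γ : ℕ → ℝ) (h0 : γ 0 = 1)
    (h : ∀ n < 32, 2 * (((32 : ℕ) : ℝ) - ((n : ℕ) : ℝ)) * ∑ i ∈ range (32 / 2 + 1), γ i * (cfn 32 i n : ℝ) ≤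
      ((n : ℝ) + 1) * ∑ i ∈ range (32 / 2 + 1), γ i * (cfn 32 i (n + 1) : ℝ)) :
    0 ≤ (0) * γ 0 + (30766095360) * γ 1 + (8664015360) * γ 2 + (1749221760) * γ 3 + (297576576) * γ 4
       + (44492140) * γ 5 + (5896374) * γ 6 + (686301) * γ 7 + (68376) * γ 8 + (5544) * γ 9
       + (330) * γ 10 + (11) * γ 11 + (0) * γ 12 + (0) * γ 13 + (0) * γ 14 + (0) * γ 15
       + (0) * γ 16 := by
  have h1 := h 10 (by norm_num)
  rw [show 10 + 1 = 11 from rfl, c32_10, c32_11] at h1
  norm_num [h0] at h1 ⊢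
  linarith

theorem q32_11 (γ : ℕ → ℝ) (h0 : γ 0 = 1)
    (h : ∀ n < 32, 2 * (((32 : ℕ) : ℝ) - ((n : ℕ) : ℝ)) * ∑ i ∈ range (32 / 2 + 1), γ i * (cfn 32 i n : ℝ) ≤
      ((n : ℝ) + 1) * ∑ i ∈ range (32 / 2 + 1), γ i * (cfn 32 i (n + 1) : ℝ)) :
    0 ≤ (0) * γ 0 + (111876710400) * γ 1 + (33948794880) * γ 2 + (7451558400) * γ 3
       + (1393548288) * γ 4 + (232335840) * γ 5 + (34989120) * γ 6 + (4750494) * γ 7
       + (573720) * γ 8 + (59976) * γ 9 + (5160) * γ 10 + (330) * γ 11 + (12) * γ 12 + (0) * γ 13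
       + (0) * γ 14 + (0) * γ 15 + (0) * γ 16 := by
  have h1 := h 11 (by norm_num)
  rw [show 11 + 1 = 12 from rfl, c32_11, c32_12] at h1
  norm_num [h0] at h1 ⊢
  linarith

theorem q32_12 (γ : ℕ → ℝ) (h0 : γ 0 = 1)
    (h : ∀ n < 32, 2 * (((32 : ℕ) : ℝ) - ((n : ℕ) : ℝ)) * ∑ i ∈ range (32 / 2 + 1), γ i * (cfn 32 i n : ℝ) ≤
      ((n : ℝ) + 1) * ∑ i ∈ range (32 / 2 + 1), γ i * (cfn 32 i (n + 1) : ℝ)) :
    0 ≤ (0) * γ 0 + (354276249600) * γ 1 + (114834370560) * γ 2 + (27116094720) * γ 3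
       + (5503207424) * γ 4 + (1006594160) * γ 5 + (168651600) * γ 6 + (25952563) * γ 7
       + (3645096) * γ 8 + (460278) * γ 9 + (50840) * γ 10 + (4675) * γ 11 + (324) * γ 12
       + (13) * γ 13 + (0) * γ 14 + (0) * γ 15 + (0) * γ 16 := by
  have h1 := h 12 (by norm_num)
  rw [show 12 + 1 = 13 from rfl, c32_12, c32_13] at h1
  norm_num [h0] at h1 ⊢
  linarith

theorem q32_13 (γ : ℕ → ℝ) (h0 : γ 0 = 1)
    (h : ∀ n < 32, 2 * (((32 : ℕ) : ℝ) - ((n : ℕ) : ℝ)) * ∑ i ∈ range (32 / 2 + 1), γ i * (cfn 32 i n : ℝ) ≤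
      ((n : ℝ) + 1) * ∑ i ∈ range (32 / 2 + 1), γ i * (cfn 32 i (n + 1) : ℝ)) :
    0 ≤ (0) * γ 0 + (981072691200) * γ 1 + (337173258240) * γ 2 + (84904135680) * γ 3
       + (18503181312) * γ 4 + (3665224640) * γ 5 + (672153120) * γ 6 + (114768612) * γ 7
       + (18213944) * γ 8 + (2665152) * γ 9 + (354060) * γ 10 + (41580) * γ 11 + (4116) * γ 12
       + (312) * γ 13 + (14) * γ 14 + (0) * γ 15 + (0) * γ 16 := by
  have h1 := h 13 (by norm_num)
  rw [show 13 + 1 = 14 from rfl, c32_13, c32_14] at h1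
  norm_num [h0] at h1 ⊢
  linarith

theorem q32_14 (γ : ℕ → ℝ) (h0 : γ 0 = 1)
    (h : ∀ n < 32, 2 * (((32 : ℕ) : ℝ) - ((n : ℕ) : ℝ)) * ∑ i ∈ range (32 / 2 + 1), γ i * (cfn 32 i n : ℝ) ≤
      ((n : ℝ) + 1) * ∑ i ∈ range (32 / 2 + 1), γ i * (cfn 32 i (n + 1) : ℝ)) :
    0 ≤ (0) * γ 0 + (2382605107200) * γ 1 + (862667366400) * γ 2 + (229930521600) * γ 3
       + (53334752256) * γ 4 + (11320710720) * γ 5 + (2242963680) * γ 6 + (418054140) * γ 7
       + (73388040) * γ 8 + (12089700) * γ 9 + (1853100) * γ 10 + (260370) * γ 11 + (32700) * γ 12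
       + (3510) * γ 13 + (294) * γ 14 + (15) * γ 15 + (0) * γ 16 := by
  have h1 := h 14 (by norm_num)
  rw [show 14 + 1 = 15 from rfl, c32_14, c32_15] at h1
  norm_num [h0] at h1 ⊢
  linarith

theorem q32_15 (γ : ℕ → ℝ) (h0 : γ 0 = 1)
    (h : ∀ n < 32, 2 * (((32 : ℕ) : ℝ) - ((n : ℕ) : ℝ)) * ∑ i ∈ range (32 / 2 + 1), γ i * (cfn 32 i n : ℝ) ≤
      ((n : ℝ) + 1) * ∑ i ∈ range (32 / 2 + 1), γ i * (cfn 32 i (n + 1) : ℝ)) :
    0 ≤ (0) * γ 0 + (5082890895360) * γ 1 + (1927993098240) * γ 2 + (540422307840) * γ 3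
       + (132427808768) * γ 4 + (29853675520) * γ 5 + (6322655232) * γ 6 + (1269678592) * γ 7
       + (242532352) * γ 8 + (44032824) * γ 9 + (7565640) * γ 10 + (1220076) * γ 11
       + (182136) * γ 12 + (24596) * γ 13 + (2884) * γ 14 + (270) * γ 15 + (16) * γ 16 := by
  have h1 := h 15 (by norm_num)
  rw [show 15 + 1 = 16 from rfl, c32_15, c32_16] at h1
  norm_num [h0] at h1 ⊢
  linarith

theorem q32_16 (γ : ℕ → ℝ) (h0 : γ 0 = 1)
    (h : ∀ n < 32, 2 * (((32 : ℕ) : ℝ) - ((n : ℕ) : ℝ)) * ∑ i ∈ range (32 / 2 + 1), γ i * (cfn 32 i n : ℝ) ≤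
      ((n : ℝ) + 1) * ∑ i ∈ range (32 / 2 + 1), γ i * (cfn 32 i (n + 1) : ℝ)) :
    0 ≤ (0) * γ 0 + (9530420428800) * γ 1 + (3768350146560) * γ 2 + (1104579379200) * γ 3
       + (284086861824) * γ 4 + (67505656320) * γ 5 + (15146787840) * γ 6 + (3242291136) * γ 7
       + (665155840) * γ 8 + (130920345) * γ 9 + (24683400) * γ 10 + (4438830) * γ 11
       + (755688) * γ 12 + (120315) * γ 13 + (17556) * γ 14 + (2265) * γ 15 + (240) * γ 16 := by
  have h1 := h 16 (by norm_num)
  rw [show 16 + 1 = 17 from rfl, c32_16, c32_17] at h1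
  norm_num [h0] at h1 ⊢
  linarith

theorem q32_17 (γ : ℕ → ℝ) (h0 : γ 0 = 1)
    (h : ∀ n < 32, 2 * (((32 : ℕ) : ℝ) - ((n : ℕ) : ℝ)) * ∑ i ∈ range (32 / 2 + 1), γ i * (cfn 32 i n : ℝ) ≤
      ((n : ℝ) + 1) * ∑ i ∈ range (32 / 2 + 1), γ i * (cfn 32 i (n + 1) : ℝ)) :
    0 ≤ (0) * γ 0 + (15697163059200) * γ 1 + (6441249669120) * γ 2 + (1964508119040) * γ 3
       + (527276900352) * γ 4 + (131206010880) * γ 5 + (30953425920) * γ 6 + (6999804672) * γ 7
       + (1525784064) * γ 8 + (321336540) * γ 9 + (65396250) * γ 10 + (12838320) * γ 11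
       + (2422056) * γ 12 + (436332) * γ 13 + (74298) * γ 14 + (11760) * γ 15 + (1680) * γ 16 := by
  have h1 := h 17 (by norm_num)
  rw [show 17 + 1 = 18 from rfl, c32_17, c32_18] at h1
  norm_num [h0] at h1 ⊢
  linarith

theorem q32_18 (γ : ℕ → ℝ) (h0 : γ 0 = 1)
    (h : ∀ n < 32, 2 * (((32 : ℕ) : ℝ) - ((n : ℕ) : ℝ)) * ∑ i ∈ range (32 / 2 + 1), γ i * (cfn 32 i n : ℝ) ≤
      ((n : ℝ) + 1) * ∑ i ∈ range (32 / 2 + 1), γ i * (cfn 32 i (n + 1) : ℝ)) :
    0 ≤ (0) * γ 0 + (22673679974400) * γ 1 + (9616767713280) * γ 2 + (3038049730560) * γ 3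
       + (846661615616) * γ 4 + (219358033920) * γ 5 + (54053145600) * γ 6 + (12815199488) * γ 7
       + (2941492736) * γ 8 + (655779852) * γ 9 + (142189050) * γ 10 + (29979015) * γ 11
       + (6136824) * γ 12 + (1215968) * γ 13 + (232050) * γ 14 + (42315) * γ 15 + (7280) * γ 16 := by
  have h1 := h 18 (by norm_num)
  rw [show 18 + 1 = 19 from rfl, c32_18, c32_19] at h1
  norm_num [h0] at h1 ⊢
  linarith

theorem q32_19 (γ : ℕ → ℝ) (h0 : γ 0 = 1)
    (h : ∀ n < 32, 2 * (((32 : ℕ) : ℝ) - ((n : ℕ) : ℝ)) * ∑ i ∈ range (32 / 2 + 1), γ i * (cfn 32 i n : ℝ) ≤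
      ((n : ℝ) + 1) * ∑ i ∈ range (32 / 2 + 1), γ i * (cfn 32 i (n + 1) : ℝ)) :
    0 ≤ (0) * γ 0 + (28640437862400) * γ 1 + (12509616537600) * γ 2 + (4076794675200) * γ 3
       + (1174323068928) * γ 4 + (315166965760) * γ 5 + (80650567680) * γ 6 + (19914316800) * γ 7
       + (4776611840) * γ 8 + (1117220832) * γ 9 + (255343680) * γ 10 + (57074490) * γ 11
       + (12474300) * γ 12 + (2662920) * γ 13 + (554008) * γ 14 + (111930) * γ 15 + (21840) * γ 16 := by
  have h1 := h 19 (by norm_num)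
  rw [show 19 + 1 = 20 from rfl, c32_19, c32_20] at h1
  norm_num [h0] at h1 ⊢
  linarith

theorem q32_20 (γ : ℕ → ℝ) (h0 : γ 0 = 1)
    (h : ∀ n < 32, 2 * (((32 : ℕ) : ℝ) - ((n : ℕ) : ℝ)) * ∑ i ∈ range (32 / 2 + 1), γ i * (cfn 32 i n : ℝ) ≤
      ((n : ℝ) + 1) * ∑ i ∈ range (32 / 2 + 1), γ i * (cfn 32 i (n + 1) : ℝ)) :
    0 ≤ (0) * γ 0 + (31504481648640) * γ 1 + (14122698670080) * γ 2 + (4730198753280) * γ 3
       + (1402520469504) * γ 4 + (388130856960) * γ 5 + (102615146496) * γ 6 + (26236267008) * γ 7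
       + (6532743168) * γ 8 + (1590864912) * γ 9 + (379869840) * γ 10 + (89071983) * γ 11
       + (20522964) * γ 12 + (4646499) * γ 13 + (1033032) * γ 14 + (225225) * γ 15 + (48048) * γ 16 := by
  have h1 := h 20 (by norm_num)
  rw [show 20 + 1 = 21 from rfl, c32_20, c32_21] at h1
  norm_num [h0] at h1 ⊢
  linarith

theorem q32_21 (γ : ℕ → ℝ) (h0 : γ 0 = 1)
    (h : ∀ n < 32, 2 * (((32 : ℕ) : ℝ) - ((n : ℕ) : ℝ)) * ∑ i ∈ range (32 / 2 + 1), γ i * (cfn 32 i n : ℝ) ≤
      ((n : ℝ) + 1) * ∑ i ∈ range (32 / 2 + 1), γ i * (cfn 32 i (n + 1) : ℝ)) :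
    0 ≤ (0) * γ 0 + (30004268236800) * γ 1 + (13760578191360) * γ 2 + (4720499097600) * γ 3
       + (1435283750912) * γ 4 + (407863132160) * γ 5 + (110894530560) * γ 6 + (29207664640) * γ 7
       + (7506104320) * γ 8 + (1890681408) * γ 9 + (468130080) * γ 10 + (114148980) * γ 11
       + (27443460) * γ 12 + (6509360) * γ 13 + (1523522) * γ 14 + (351780) * γ 15 + (80080) * γ 16 := by
  have h1 := h 21 (by norm_num)
  rw [show 21 + 1 = 22 from rfl, c32_21, c32_22] at h1
  norm_num [h0] at h1 ⊢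
  linarith

theorem q32_22 (γ : ℕ → ℝ) (h0 : γ 0 = 1)
    (h : ∀ n < 32, 2 * (((32 : ℕ) : ℝ) - ((n : ℕ) : ℝ)) * ∑ i ∈ range (32 / 2 + 1), γ i * (cfn 32 i n : ℝ) ≤
      ((n : ℝ) + 1) * ∑ i ∈ range (32 / 2 + 1), γ i * (cfn 32 i (n + 1) : ℝ)) :
    0 ≤ (0) * γ 0 + (24548946739200) * γ 1 + (11484392325120) * γ 2 + (4022123888640) * γ 3
       + (1249713586176) * γ 4 + (363279319040) * γ 5 + (101154078720) * γ 6 + (27318896640) * γ 7
       + (7209103360) * γ 8 + (1867518144) * γ 9 + (476385120) * γ 10 + (119916060) * γ 11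
       + (29829900) * γ 12 + (7340190) * γ 13 + (1787786) * γ 14 + (431145) * γ 15
       + (102960) * γ 16 := by
  have h1 := h 22 (by norm_num)
  rw [show 22 + 1 = 23 from rfl, c32_22, c32_23] at h1
  norm_num [h0] at h1 ⊢
  linarith

theorem q32_23 (γ : ℕ → ℝ) (h0 : γ 0 = 1)
    (h : ∀ n < 32, 2 * (((32 : ℕ) : ℝ) - ((n : ℕ) : ℝ)) * ∑ i ∈ range (32 / 2 + 1), γ i * (cfn 32 i n : ℝ) ≤
      ((n : ℝ) + 1) * ∑ i ∈ range (32 / 2 + 1), γ i * (cfn 32 i (n + 1) : ℝ)) :
    0 ≤ (0) * γ 0 + (17077528166400) * γ 1 + (8126547886080) * γ 2 + (2896963829760) * γ 3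
       + (916841299968) * γ 4 + (271676866560) * γ 5 + (77176504320) * γ 6 + (21283799040) * γ 7
       + (5740953600) * γ 8 + (1521810432) * γ 9 + (397716480) * γ 10 + (102706560) * γ 11
       + (26250240) * γ 12 + (6647940) * γ 13 + (1669668) * γ 14 + (416130) * γ 15
       + (102960) * γ 16 := by
  have h1 := h 23 (by norm_num)
  rw [show 23 + 1 = 24 from rfl, c32_23, c32_24] at h1
  norm_num [h0] at h1 ⊢
  linarith

theorem q32_24 (γ : ℕ → ℝ) (h0 : γ 0 = 1)
    (h : ∀ n < 32, 2 * (((32 : ℕ) : ℝ) - ((n : ℕ) : ℝ)) * ∑ i ∈ range (32 / 2 + 1), γ i * (cfn 32 i n : ℝ) ≤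
      ((n : ℝ) + 1) * ∑ i ∈ range (32 / 2 + 1), γ i * (cfn 32 i (n + 1) : ℝ)) :
    0 ≤ (0) * γ 0 + (9961891430400) * γ 1 + (4809188966400) * γ 2 + (1740059443200) * γ 3
       + (559230746624) * γ 4 + (168368865280) * γ 5 + (48625090560) * γ 6 + (13641564160) * γ 7
       + (3745710080) * γ 8 + (1011499776) * γ 9 + (269514240) * γ 10 + (71021280) * γ 11
       + (18540480) * γ 12 + (4800965) * γ 13 + (1234324) * γ 14 + (315315) * γ 15 + (80080) * γ 16 := by
  have h1 := h 24 (by norm_num)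
  rw [show 24 + 1 = 25 from rfl, c32_24, c32_25] at h1
  norm_num [h0] at h1 ⊢
  linarith

theorem q32_25 (γ : ℕ → ℝ) (h0 : γ 0 = 1)
    (h : ∀ n < 32, 2 * (((32 : ℕ) : ℝ) - ((n : ℕ) : ℝ)) * ∑ i ∈ range (32 / 2 + 1), γ i * (cfn 32 i n : ℝ) ≤
      ((n : ℝ) + 1) * ∑ i ∈ range (32 / 2 + 1), γ i * (cfn 32 i (n + 1) : ℝ)) :
    0 ≤ (0) * γ 0 + (4781707886592) * γ 1 + (2335891783680) * γ 2 + (855512186880) * γ 3
       + (278409510912) * γ 4 + (84907130880) * γ 5 + (24848498688) * γ 6 + (7067074560) * γ 7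
       + (1968046080) * γ 8 + (539255808) * γ 9 + (145866240) * γ 10 + (39042432) * γ 11
       + (10358400) * γ 12 + (2727660) * γ 13 + (713622) * γ 14 + (185640) * γ 15 + (48048) * γ 16 := by
  have h1 := h 25 (by norm_num)
  rw [show 25 + 1 = 26 from rfl, c32_25, c32_26] at h1
  norm_num [h0] at h1 ⊢
  linarith

theorem q32_26 (γ : ℕ → ℝ) (h0 : γ 0 = 1)
    (h : ∀ n < 32, 2 * (((32 : ℕ) : ℝ) - ((n : ℕ) : ℝ)) * ∑ i ∈ range (32 / 2 + 1), γ i * (cfn 32 i n : ℝ) ≤
      ((n : ℝ) + 1) * ∑ i ∈ range (32 / 2 + 1), γ i * (cfn 32 i (n + 1) : ℝ)) :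
    0 ≤ (0) * γ 0 + (1839118417920) * γ 1 + (906875633664) * γ 2 + (335334604800) * γ 3
       + (110201143296) * γ 4 + (33946337280) * γ 5 + (10036838400) * γ 6 + (2884632576) * γ 7
       + (811991040) * γ 8 + (224953344) * γ 9 + (61539840) * γ 10 + (16663680) * γ 11
       + (4473984) * γ 12 + (1192620) * γ 13 + (315966) * γ 14 + (83265) * γ 15 + (21840) * γ 16 := by
  have h1 := h 26 (by norm_num)
  rw [show 26 + 1 = 27 from rfl, c32_26, c32_27] at h1
  norm_num [h0] at h1 ⊢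
  linarith

theorem q32_27 (γ : ℕ → ℝ) (h0 : γ 0 = 1)
    (h : ∀ n < 32, 2 * (((32 : ℕ) : ℝ) - ((n : ℕ) : ℝ)) * ∑ i ∈ range (32 / 2 + 1), γ i * (cfn 32 i n : ℝ) ≤
      ((n : ℝ) + 1) * ∑ i ∈ range (32 / 2 + 1), γ i * (cfn 32 i (n + 1) : ℝ)) :
    0 ≤ (0) * γ 0 + (544923975680) * γ 1 + (270582939648) * γ 2 + (100763959296) * γ 3
       + (33353105408) * γ 4 + (10349445120) * γ 5 + (3082813440) * γ 6 + (892731392) * γ 7
       + (253231104) * γ 8 + (70705152) * γ 9 + (19496960) * γ 10 + (5322240) * γ 11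
       + (1440768) * γ 12 + (387296) * γ 13 + (103488) * γ 14 + (27510) * γ 15 + (7280) * γ 16 := by
  have h1 := h 27 (by norm_num)
  rw [show 27 + 1 = 28 from rfl, c32_27, c32_28] at h1
  norm_num [h0] at h1 ⊢
  linarith

theorem q32_28 (γ : ℕ → ℝ) (h0 : γ 0 = 1)
    (h : ∀ n < 32, 2 * (((32 : ℕ) : ℝ) - ((n : ℕ) : ℝ)) * ∑ i ∈ range (32 / 2 + 1), γ i * (cfn 32 i n : ℝ) ≤
      ((n : ℝ) + 1) * ∑ i ∈ range (32 / 2 + 1), γ i * (cfn 32 i (n + 1) : ℝ)) :
    0 ≤ (0) * γ 0 + (116769423360) * γ 1 + (58250493952) * γ 2 + (21793603584) * γ 3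
       + (7247757312) * γ 4 + (2259681280) * γ 5 + (676331520) * γ 6 + (196804608) * γ 7
       + (56098816) * γ 8 + (15740928) * γ 9 + (4362240) * γ 10 + (1196800) * γ 11
       + (325632) * γ 12 + (87984) * γ 13 + (23632) * γ 14 + (6315) * γ 15 + (1680) * γ 16 := by
  have h1 := h 28 (by norm_num)
  rw [show 28 + 1 = 29 from rfl, c32_28, c32_29] at h1
  norm_num [h0] at h1 ⊢
  linarith

theorem m32_0 (γ : ℕ → ℝ) : Mat 32 γ 0 = (1) * γ 0 + (0) * γ 1 + (0) * γ 2 + (0) * γ 3 + (0) * γ 4 + (0) * γ 5 + (0) * γ 6 + (0) * γ 7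
       + (0) * γ 8 + (0) * γ 9 + (0) * γ 10 + (0) * γ 11 + (0) * γ 12 + (0) * γ 13 + (0) * γ 14
       + (0) * γ 15 + (0) * γ 16 := by
  unfold Mat
  rw [show (32 / 2 + 1 : ℕ) = 17 from rfl]
  simp [sum_range_succ, Nat.choose]
  try ring

theorem m32_1 (γ : ℕ → ℝ) : Mat 32 γ 1 = (1984) * γ 0 + (62) * γ 1 + (1) * γ 2 + (0) * γ 3 + (0) * γ 4 + (0) * γ 5 + (0) * γ 6
       + (0) * γ 7 + (0) * γ 8 + (0) * γ 9 + (0) * γ 10 + (0) * γ 11 + (0) * γ 12 + (0) * γ 13
       + (0) * γ 14 + (0) * γ 15 + (0) * γ 16 := by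
  unfold Mat
  rw [show (32 / 2 + 1 : ℕ) = 17 from rfl]
  simp [sum_range_succ, Nat.choose]
  try ring

theorem m32_2 (γ : ℕ → ℝ) : Mat 32 γ 2 = (575360) * γ 0 + (35960) * γ 1 + (1740) * γ 2 + (58) * γ 3 + (1) * γ 4 + (0) * γ 5
       + (0) * γ 6 + (0) * γ 7 + (0) * γ 8 + (0) * γ 9 + (0) * γ 10 + (0) * γ 11 + (0) * γ 12
       + (0) * γ 13 + (0) * γ 14 + (0) * γ 15 + (0) * γ 16 := by
  unfold Mat
  rw [show (32 / 2 + 1 : ℕ) = 17 from rfl]
  simp [sum_range_succ, Nat.choose]
  try ring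

theorem m32_3 (γ : ℕ → ℝ) : Mat 32 γ 3 = (57996288) * γ 0 + (5437152) * γ 1 + (438480) * γ 2 + (29232) * γ 3 + (1512) * γ 4
       + (54) * γ 5 + (1) * γ 6 + (0) * γ 7 + (0) * γ 8 + (0) * γ 9 + (0) * γ 10 + (0) * γ 11
       + (0) * γ 12 + (0) * γ 13 + (0) * γ 14 + (0) * γ 15 + (0) * γ 16 := by
  unfold Mat
  rw [show (32 / 2 + 1 : ℕ) = 17 from rfl]
  simp [sum_range_succ, Nat.choose]
  try ring

theorem m32_4 (γ : ℕ → ℝ) : Mat 32 γ 4 = (2692684800) * γ 0 + (336585600) * γ 1 + (38001600) * γ 2 + (3800160) * γ 3 + (327600) * γ 4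
       + (23400) * γ 5 + (1300) * γ 6 + (50) * γ 7 + (1) * γ 8 + (0) * γ 9 + (0) * γ 10
       + (0) * γ 11 + (0) * γ 12 + (0) * γ 13 + (0) * γ 14 + (0) * γ 15 + (0) * γ 16 := by
  unfold Mat
  rw [show (32 / 2 + 1 : ℕ) = 17 from rfl]
  simp [sum_range_succ, Nat.choose]
  try ring

theorem m32_5 (γ : ℕ → ℝ) : Mat 32 γ 5 = (66060533760) * γ 0 + (10321958400) * γ 1 + (1498348800) * γ 2 + (199779840) * γ 3
       + (24111360) * γ 4 + (2583360) * γ 5 + (239200) * γ 6 + (18400) * γ 7 + (1104) * γ 8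
       + (46) * γ 9 + (1) * γ 10 + (0) * γ 11 + (0) * γ 12 + (0) * γ 13 + (0) * γ 14 + (0) * γ 15
       + (0) * γ 16 := by
  unfold Mat
  rw [show (32 / 2 + 1 : ℕ) = 17 from rfl]
  simp [sum_range_succ, Nat.choose]
  try ring

theorem m32_6 (γ : ℕ → ℝ) : Mat 32 γ 6 = (924847472640) * γ 0 + (173408901120) * γ 1 + (30766095360) * γ 2 + (5127682560) * γ 3
       + (795674880) * γ 4 + (113667840) * γ 5 + (14734720) * γ 6 + (1700160) * γ 7
       + (170016) * γ 8 + (14168) * γ 9 + (924) * γ 10 + (42) * γ 11 + (1) * γ 12 + (0) * γ 13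
       + (0) * γ 14 + (0) * γ 15 + (0) * γ 16 := by
  unfold Mat
  rw [show (32 / 2 + 1 : ℕ) = 17 from rfl]
  simp [sum_range_succ, Nat.choose]
  try ring

theorem m32_7 (γ : ℕ → ℝ) : Mat 32 γ 7 = (7724000870400) * γ 0 + (1689625190400) * γ 1 + (354276249600) * γ 2 + (70855249920) * γ 3
       + (13438064640) * γ 4 + (2399654400) * γ 5 + (399942400) * γ 6 + (61529600) * γ 7
       + (8614144) * γ 8 + (1076768) * γ 9 + (117040) * γ 10 + (10640) * γ 11 + (760) * γ 12
       + (38) * γ 13 + (1) * γ 14 + (0) * γ 15 + (0) * γ 16 := by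
  unfold Mat
  rw [show (32 / 2 + 1 : ℕ) = 17 from rfl]
  simp [sum_range_succ, Nat.choose]
  try ring

theorem m32_8 (γ : ℕ → ℝ) : Mat 32 γ 8 = (39392404439040) * γ 0 + (9848101109760) * γ 1 + (2382605107200) * γ 2 + (555941191680) * γ 3
       + (124607508480) * γ 4 + (26701608960) * γ 5 + (5439216640) * γ 6 + (1046003200) * γ 7
       + (188280576) * γ 8 + (31380096) * γ 9 + (4775232) * γ 10 + (651168) * γ 11 + (77520) * γ 12
       + (7752) * γ 13 + (612) * γ 14 + (34) * γ 15 + (1) * γ 16 := by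
  unfold Mat
  rw [show (32 / 2 + 1 : ℕ) = 17 from rfl]
  simp [sum_range_succ, Nat.choose]
  try ring

theorem m32_9 (γ : ℕ → ℝ) : Mat 32 γ 9 = (123584013926400) * γ 0 + (34758003916800) * γ 1 + (9530420428800) * γ 2
       + (2541445447680) * γ 3 + (657270374400) * γ 4 + (164317593600) * γ 5 + (39557939200) * γ 6
       + (9128755200) * γ 7 + (2008326144) * γ 8 + (418401280) * γ 9 + (81861120) * γ 10
       + (14883840) * γ 11 + (2480640) * γ 12 + (372096) * γ 13 + (48960) * γ 14 + (5440) * γ 15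
       + (480) * γ 16 := by
  unfold Mat
  rw [show (32 / 2 + 1 : ℕ) = 17 from rfl]
  simp [sum_range_succ, Nat.choose]
  try ring

theorem m32_10 (γ : ℕ → ℝ) : Mat 32 γ 10 = (236760952995840) * γ 0 + (73987797811200) * γ 1 + (22673679974400) * γ 2
       + (6802103992320) * γ 3 + (1993720135680) * γ 4 + (569634324480) * γ 5
       + (158231756800) * γ 6 + (42600857600) * γ 7 + (11076222976) * γ 8 + (2769055744) * γ 9
       + (662165504) * γ 10 + (150492160) * γ 11 + (32248320) * γ 12 + (6449664) * γ 13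
       + (1188096) * γ 14 + (198016) * γ 15 + (29120) * γ 16 := by
  unfold Mat
  rw [show (32 / 2 + 1 : ℕ) = 17 from rfl]
  simp [sum_range_succ, Nat.choose]
  try ring

theorem m32_11 (γ : ℕ → ℝ) : Mat 32 γ 11 = (270583946280960) * γ 0 + (93013231534080) * γ 1 + (31504481648640) * γ 2
       + (10501493882880) * γ 3 + (3440144547840) * γ 4 + (1105760747520) * γ 5
       + (348109864960) * γ 6 + (107110727680) * γ 7 + (32133218304) * γ 8 + (9372188672) * γ 9
       + (2648662016) * γ 10 + (722362368) * γ 11 + (189190144) * γ 12 + (47297536) * γ 13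
       + (11202048) * γ 14 + (2489344) * γ 15 + (512512) * γ 16 := by
  unfold Mat
  rw [show (32 / 2 + 1 : ℕ) = 17 from rfl]
  simp [sum_range_succ, Nat.choose]
  try ring

theorem m32_12 (γ : ℕ → ℝ) : Mat 32 γ 12 = (176467791052800) * γ 0 + (66175421644800) * γ 1 + (24548946739200) * γ 2
       + (9001280471040) * γ 3 + (3259084308480) * γ 4 + (1163958681600) * γ 5
       + (409541017600) * γ 6 + (141764198400) * γ 7 + (48199827456) * γ 8 + (16066609152) * γ 9
       + (5239111680) * γ 10 + (1666990080) * γ 11 + (515973120) * γ 12 + (154791936) * γ 13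
       + (44808192) * γ 14 + (12446720) * γ 15 + (3294720) * γ 16 := by
  unfold Mat
  rw [show (32 / 2 + 1 : ℕ) = 17 from rfl]
  simp [sum_range_succ, Nat.choose]
  try ring

theorem m32_13 (γ : ℕ → ℝ) : Mat 32 γ 13 = (60813515685888) * γ 0 + (24705490747392) * γ 1 + (9961891430400) * γ 2
       + (3984756572160) * γ 3 + (1580162088960) * γ 4 + (620777963520) * γ 5
       + (241413652480) * γ 6 + (92851404800) * γ 7 + (35283533824) * γ 8 + (13231325184) * γ 9
       + (4889837568) * γ 10 + (1778122752) * γ 11 + (635043840) * γ 12 + (222265344) * γ 13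
       + (76038144) * γ 14 + (25346048) * γ 15 + (8200192) * γ 16 := by
  unfold Mat
  rw [show (32 / 2 + 1 : ℕ) = 17 from rfl]
  simp [sum_range_succ, Nat.choose]
  try ring

theorem m32_14 (γ : ℕ → ℝ) : Mat 32 γ 14 = (9652938997760) * γ 0 + (4223160811520) * γ 1 + (1839118417920) * γ 2 + (796951314432) * γ 3
       + (343513497600) * γ 4 + (147220070400) * γ 5 + (62704844800) * γ 6 + (26528972800) * γ 7
       + (11142168576) * γ 8 + (4642570240) * γ 9 + (1917583360) * γ 10 + (784465920) * γ 11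
       + (317521920) * γ 12 + (127008768) * γ 13 + (50135040) * γ 14 + (19496960) * γ 15
       + (7454720) * γ 16 := by
  unfold Mat
  rw [show (32 / 2 + 1 : ℕ) = 17 from rfl]
  simp [sum_range_succ, Nat.choose]
  try ring

theorem m32_15 (γ : ℕ → ℝ) : Mat 32 γ 15 = (532575944704) * γ 0 + (249644974080) * γ 1 + (116769423360) * γ 2 + (54492397568) * γ 3
       + (25367150592) * γ 4 + (11777605632) * γ 5 + (5452595200) * γ 6 + (2516582400) * γ 7
       + (1157627904) * γ 8 + (530579456) * γ 9 + (242221056) * γ 10 + (110100480) * γ 11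
       + (49807360) * γ 12 + (22413312) * γ 13 + (10027008) * γ 14 + (4456448) * γ 15
       + (1966080) * γ 16 := by
  unfold Mat
  rw [show (32 / 2 + 1 : ℕ) = 17 from rfl]
  simp [sum_range_succ, Nat.choose]
  try ring

theorem m32_16 (γ : ℕ → ℝ) : Mat 32 γ 16 = (4294967296) * γ 0 + (2147483648) * γ 1 + (1073741824) * γ 2 + (536870912) * γ 3
       + (268435456) * γ 4 + (134217728) * γ 5 + (67108864) * γ 6 + (33554432) * γ 7
       + (16777216) * γ 8 + (8388608) * γ 9 + (4194304) * γ 10 + (2097152) * γ 11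
       + (1048576) * γ 12 + (524288) * γ 13 + (262144) * γ 14 + (131072) * γ 15 + (65536) * γ 16 := by
  unfold Mat
  rw [show (32 / 2 + 1 : ℕ) = 17 from rfl]
  simp [sum_range_succ, Nat.choose]
  try ring

theorem mm32_0 (γ : ℕ → ℝ) : Mat 32 (Mat 32 γ) 0 =
      (1) * γ 0 + (0) * γ 1 + (0) * γ 2 + (0) * γ 3 + (0) * γ 4 + (0) * γ 5 + (0) * γ 6 + (0) * γ 7
       + (0) * γ 8 + (0) * γ 9 + (0) * γ 10 + (0) * γ 11 + (0) * γ 12 + (0) * γ 13 + (0) * γ 14
       + (0) * γ 15 + (0) * γ 16 := by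
  rw [m32_0]
  simp only [m32_0, m32_1, m32_2, m32_3, m32_4, m32_5, m32_6, m32_7, m32_8, m32_9, m32_10, m32_11, m32_12, m32_13, m32_14, m32_15, m32_16]
  ring

theorem mm32_1 (γ : ℕ → ℝ) : Mat 32 (Mat 32 γ) 1 =
      (700352) * γ 0 + (39804) * γ 1 + (1802) * γ 2 + (58) * γ 3 + (1) * γ 4 + (0) * γ 5
       + (0) * γ 6 + (0) * γ 7 + (0) * γ 8 + (0) * γ 9 + (0) * γ 10 + (0) * γ 11 + (0) * γ 12
       + (0) * γ 13 + (0) * γ 14 + (0) * γ 15 + (0) * γ 16 := by
  rw [m32_1]
  simp only [m32_0, m32_1, m32_2, m32_3, m32_4, m32_5, m32_6, m32_7, m32_8, m32_9, m32_10, m32_11, m32_12, m32_13, m32_14, m32_15, m32_16]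
  ring

theorem mm32_2 (γ : ℕ → ℝ) : Mat 32 (Mat 32 γ) 2 =
      (7129515904) * γ 0 + (716740336) * γ 1 + (66497000) * γ 2 + (5596536) * γ 3 + (417036) * γ 4
       + (26532) * γ 5 + (1358) * γ 6 + (50) * γ 7 + (1) * γ 8 + (0) * γ 9 + (0) * γ 10
       + (0) * γ 11 + (0) * γ 12 + (0) * γ 13 + (0) * γ 14 + (0) * γ 15 + (0) * γ 16 := by
  rw [m32_2]
  simp only [m32_0, m32_1, m32_2, m32_3, m32_4, m32_5, m32_6, m32_7, m32_8, m32_9, m32_10, m32_11, m32_12, m32_13, m32_14, m32_15, m32_16]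
  ring

theorem mm32_3 (γ : ℕ → ℝ) : Mat 32 (Mat 32 γ) 3 =
      (10521932362752) * γ 0 + (1414755753408) * γ 1 + (182721389472) * γ 2 + (22541577504) * γ 3
       + (2637656784) * γ 4 + (290128608) * γ 5 + (29646352) * γ 6 + (2769360) * γ 7
       + (231144) * γ 8 + (16652) * γ 9 + (978) * γ 10 + (42) * γ 11 + (1) * γ 12 + (0) * γ 13
       + (0) * γ 14 + (0) * γ 15 + (0) * γ 16 := by
  rw [m32_3]
  simp only [m32_0, m32_1, m32_2, m32_3, m32_4, m32_5, m32_6, m32_7, m32_8, m32_9, m32_10, m32_11, m32_12, m32_13, m32_14, m32_15, m32_16]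
  ring

theorem mm32_4 (γ : ℕ → ℝ) : Mat 32 (Mat 32 γ) 4 =
      (4298764445752320) * γ 0 + (693609654593280) * γ 1 + (109335781161600) * γ 2
       + (16797762057600) * γ 3 + (2508199512000) * γ 4 + (362774193600) * γ 5
       + (50618432800) * γ 6 + (6779631200) * γ 7 + (866169776) * γ 8 + (104713296) * γ 9
       + (11851832) * γ 10 + (1237768) * γ 11 + (116820) * γ 12 + (9652) * γ 13 + (662) * γ 14
       + (34) * γ 15 + (1) * γ 16 := by
  rw [m32_4]
  simp only [m32_0, m32_1, m32_2, m32_3, m32_4, m32_5, m32_6, m32_7, m32_8, m32_9, m32_10, m32_11, m32_12, m32_13, m32_14, m32_15, m32_16]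
  ring

theorem mm32_5 (γ : ℕ → ℝ) : Mat 32 (Mat 32 γ) 5 =
      (660807528567521280) * γ 0 + (121035297219947520) * γ 1 + (21846663588057600) * γ 2
       + (3881403078873600) * γ 3 + (677871437364480) * γ 4 + (116198551034880) * γ 5
       + (19515761574400) * γ 6 + (3204873433600) * γ 7 + (513365199104) * γ 8
       + (79979491968) * γ 9 + (12076773312) * γ 10 + (1759860672) * γ 11 + (246163040) * γ 12
       + (32823488) * γ 13 + (4134304) * γ 14 + (485792) * γ 15 + (52304) * γ 16 := by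
  rw [m32_5]
  simp only [m32_0, m32_1, m32_2, m32_3, m32_4, m32_5, m32_6, m32_7, m32_8, m32_9, m32_10, m32_11, m32_12, m32_13, m32_14, m32_15, m32_16]
  ring

theorem mm32_6 (γ : ℕ → ℝ) : Mat 32 (Mat 32 γ) 6 =
      (45404884268517457920) * γ 0 + (9136972893730222080) * γ 1 + (1820915396002252800) * γ 2
       + (359165444924774400) * γ 3 + (70067459056573440) * γ 4 + (13508901299266560) * γ 5
       + (2571753934097920) * γ 6 + (482969909199360) * γ 7 + (89373746432256) * γ 8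
       + (16276001893888) * γ 9 + (2912713309440) * γ 10 + (511352749824) * γ 11
       + (87891611008) * γ 12 + (14755204224) * γ 13 + (2412510144) * γ 14 + (382820416) * γ 15
       + (58697760) * γ 16 := by
  rw [m32_6]
  simp only [m32_0, m32_1, m32_2, m32_3, m32_4, m32_5, m32_6, m32_7, m32_8, m32_9, m32_10, m32_11, m32_12, m32_13, m32_14, m32_15, m32_16]
  ring

theorem mm32_7 (γ : ℕ → ℝ) : Mat 32 (Mat 32 γ) 7 =
      (1547292969568467943424) * γ 0 + (334965517885033988096) * γ 1 + (72035143944752209920) * γ 2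
       + (15383385960964595712) * γ 3 + (3261031756150640640) * γ 4 + (685914884499578880) * γ 5
       + (143085612683653120) * γ 6 + (29587615148748800) * γ 7 + (6061303782938624) * γ 8
       + (1229392075129856) * γ 9 + (246704412083712) * γ 10 + (48941973667328) * γ 11
       + (9589919916800) * γ 12 + (1854105455616) * γ 13 + (353290304000) * γ 14
       + (66255065600) * γ 15 + (12209844480) * γ 16 := by
  rw [m32_7]
  simp only [m32_0, m32_1, m32_2, m32_3, m32_4, m32_5, m32_6, m32_7, m32_8, m32_9, m32_10, m32_11, m32_12, m32_13, m32_14, m32_15, m32_16]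
  ring

theorem mm32_8 (γ : ℕ → ℝ) : Mat 32 (Mat 32 γ) 8 =
      (27858703673606046875648) * γ 0 + (6395340769696850051072) * γ 1
       + (1461341032571047542784) * γ 2 + (332302505578642505728) * γ 3
       + (75181657032409268224) * γ 4 + (16919236985896288256) * γ 5 + (3786395678789607424) * γ 6
       + (842410259407593472) * γ 7 + (186268306578845696) * γ 8 + (40918993778831360) * γ 9
       + (8927311598692352) * γ 10 + (1933523689166848) * γ 11 + (415543524563968) * γ 12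
       + (88573954960384) * γ 13 + (18714495007232) * γ 14 + (3917098843648) * γ 15
       + (811640680192) * γ 16 := by
  rw [m32_8]
  simp only [m32_0, m32_1, m32_2, m32_3, m32_4, m32_5, m32_6, m32_7, m32_8, m32_9, m32_10, m32_11, m32_12, m32_13, m32_14, m32_15, m32_16]
  ring

theorem mm32_9 (γ : ℕ → ℝ) : Mat 32 (Mat 32 γ) 9 =
      (274563457302837317337088) * γ 0 + (66151012358131341852672) * γ 1
       + (15885741164688092037120) * γ 2 + (3801897333362510397440) * γ 3
       + (906684706323554304000) * γ 4 + (215433056126356684800) * γ 5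
       + (50991919530910679040) * γ 6 + (12021299214290780160) * γ 7 + (2822183796824997888) * γ 8
       + (659659813585092608) * γ 9 + (153485081039241216) * γ 10 + (35540791531044864) * γ 11
       + (8188383393628160) * γ 12 + (1876574199447552) * γ 13 + (427667277299712) * γ 14
       + (96891067121664) * γ 15 + (21814766247936) * γ 16 := by
  rw [m32_9]
  simp only [m32_0, m32_1, m32_2, m32_3, m32_4, m32_5, m32_6, m32_7, m32_8, m32_9, m32_10, m32_11, m32_12, m32_13, m32_14, m32_15, m32_16]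
  ring

theorem mm32_10 (γ : ℕ → ℝ) : Mat 32 (Mat 32 γ) 10 =
      (1500916166119670547480576) * γ 0 + (376621879528919529422848) * γ 1
       + (94286501381673003253760) * γ 2 + (23548012701996519260160) * γ 3
       + (5866563223042474115072) * γ 4 + (1457806631205371379712) * γ 5
       + (361295404361030696960) * γ 6 + (89295289663801917440) * γ 7
       + (22006595689561915392) * γ 8 + (5407382670027259904) * γ 9 + (1324585059879878656) * γ 10
       + (323426980888969216) * γ 11 + (78707778006876160) * γ 12 + (19087158391799808) * γ 13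
       + (4611898581483520) * γ 14 + (1110096202661888) * γ 15 + (266137335087104) * γ 16 := by
  rw [m32_10]
  simp only [m32_0, m32_1, m32_2, m32_3, m32_4, m32_5, m32_6, m32_7, m32_8, m32_9, m32_10, m32_11, m32_12, m32_13, m32_14, m32_15, m32_16]
  ring

theorem mm32_11 (γ : ℕ → ℝ) : Mat 32 (Mat 32 γ) 11 =
      (4515198198526461844914176) * γ 0 + (1173075947539038017159168) * γ 1
       + (304279694198641512153088) * γ 2 + (78794575376334205222912) * γ 3
       + (20369207181999965470720) * γ 4 + (5256337471607788273664) * γ 5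
       + (1353939744708512186368) * γ 6 + (348094230642870452224) * γ 7
       + (89320008757533999104) * γ 8 + (22873189240282546176) * γ 9 + (5845218360937021440) * γ 10
       + (1490524513329610752) * γ 11 + (379234944745406464) * γ 12 + (96265994224795648) * γ 13
       + (24377832962785280) * γ 14 + (6157932176867328) * γ 15 + (1551492599906304) * γ 16 := by
  rw [m32_11]
  simp only [m32_0, m32_1, m32_2, m32_3, m32_4, m32_5, m32_6, m32_7, m32_8, m32_9, m32_10, m32_11, m32_12, m32_13, m32_14, m32_15, m32_16]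
  ring

theorem mm32_12 (γ : ℕ → ℝ) : Mat 32 (Mat 32 γ) 12 =
      (7236619709239342974107648) * γ 0 + (1937671344804133079089152) * γ 1
       + (518258299433426375147520) * γ 2 + (138459084838404540596224) * γ 3
       + (36948124893640529018880) * γ 4 + (9847936451021729955840) * γ 5
       + (2621594261076616151040) * γ 6 + (697008359725533757440) * γ 7
       + (185074648052111769600) * γ 8 + (49076743637686026240) * γ 9
       + (12995920315455897600) * γ 10 + (3436549666575482880) * γ 11 + (907409619721912320) * γ 12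
       + (239237480351268864) * γ 13 + (62976573462675456) * γ 14 + (16551241165176832) * γ 15
       + (4342705772494848) * γ 16 := by
  rw [m32_12]
  simp only [m32_0, m32_1, m32_2, m32_3, m32_4, m32_5, m32_6, m32_7, m32_8, m32_9, m32_10, m32_11, m32_12, m32_13, m32_14, m32_15, m32_16]
  ring

theorem mm32_13 (γ : ℕ → ℝ) : Mat 32 (Mat 32 γ) 13 =
      (5776222451916377771999232) * γ 0 + (1588099330739139308945408) * γ 1
       + (436317277820984271831040) * γ 2 + (119787298035643969437696) * γ 3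
       + (32862081634895310880768) * γ 4 + (9008393610651345354752) * γ 5
       + (2467512426959416066048) * γ 6 + (675339971391184175104) * γ 7
       + (184683343598919352320) * γ 8 + (50462162636431687680) * γ 9
       + (13776127373428654080) * γ 10 + (3757521681367695360) * γ 11
       + (1023949073421434880) * γ 12 + (278770451402981376) * γ 13 + (75821985520680960) * γ 14
       + (20602105083461632) * γ 15 + (5592210612420608) * γ 16 := by
  rw [m32_13]
  simp only [m32_0, m32_1, m32_2, m32_3, m32_4, m32_5, m32_6, m32_7, m32_8, m32_9, m32_10, m32_11, m32_12, m32_13, m32_14, m32_15, m32_16]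
  ring

theorem mm32_14 (γ : ℕ → ℝ) : Mat 32 (Mat 32 γ) 14 =
      (2016787554837493490647040) * γ 0 + (567642949652001251655680) * γ 1
       + (159702224764022617538560) * γ 2 + (44912107420357329158144) * γ 3
       + (12624920392226469576704) * γ 4 + (3547337168424930377728) * γ 5
       + (996278171154872532992) * γ 6 + (279678223722469130240) * γ 7
       + (78475121009599971328) * γ 8 + (22008775762717442048) * γ 9 + (6169435119137325056) * γ 10
       + (1728524079075426304) * γ 11 + (484039367841546240) * γ 12 + (135473907225329664) * γ 13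
       + (37896110550810624) * γ 14 + (10594774058795008) * γ 15 + (2960333725499392) * γ 16 := by
  rw [m32_14]
  simp only [m32_0, m32_1, m32_2, m32_3, m32_4, m32_5, m32_6, m32_7, m32_8, m32_9, m32_10, m32_11, m32_12, m32_13, m32_14, m32_15, m32_16]
  ring

theorem mm32_15 (γ : ℕ → ℝ) : Mat 32 (Mat 32 γ) 15 =
      (233894867150194014683136) * γ 0 + (67225756981134863892480) * γ 1
       + (19318432742152580628480) * γ 2 + (5550443832574084120576) * γ 3
       + (1594415745124439949312) * γ 4 + (457922345043102793728) * γ 5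
       + (131491235513979895808) * γ 6 + (37749807456096092160) * γ 7
       + (10835372403371016192) * γ 8 + (3109440532602945536) * γ 9 + (892129840189145088) * γ 10
       + (255905310122704896) * γ 11 + (73389496766300160) * γ 12 + (21042134563946496) * γ 13
       + (6031769962807296) * γ 14 + (1728608271859712) * γ 15 + (495271016398848) * γ 16 := by
  rw [m32_15]
  simp only [m32_0, m32_1, m32_2, m32_3, m32_4, m32_5, m32_6, m32_7, m32_8, m32_9, m32_10, m32_11, m32_12, m32_13, m32_14, m32_15, m32_16]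
  ring

theorem mm32_16 (γ : ℕ → ℝ) : Mat 32 (Mat 32 γ) 16 =
      (3808481027159083712512) * γ 0 + (1115478266834587746304) * γ 1
       + (326716020089633636352) * γ 2 + (95692906761973399552) * γ 3
       + (28027803479129980928) * γ 4 + (8209153577273262080) * γ 5 + (2404405414981533696) * γ 6
       + (704234041326436352) * γ 7 + (206265375162105856) * γ 8 + (60413729660993536) * γ 9
       + (17694771740934144) * γ 10 + (5182678651371520) * γ 11 + (1517971432275968) * γ 12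
       + (444603538866176) * γ 13 + (130221361594368) * γ 14 + (38140953755648) * γ 15
       + (11171226714112) * γ 16 := by
  rw [m32_16]
  simp only [m32_0, m32_1, m32_2, m32_3, m32_4, m32_5, m32_6, m32_7, m32_8, m32_9, m32_10, m32_11, m32_12, m32_13, m32_14, m32_15, m32_16]
  ring

theorem p32_0 (γ : ℕ → ℝ) (h0 : γ 0 = 1)
    (h : ∀ n < 32, 2 * (((32 : ℕ) : ℝ) - ((n : ℕ) : ℝ)) * ∑ i ∈ range (32 / 2 + 1), γ i * (cfn 32 i n : ℝ) ≤
      ((n : ℝ) + 1) * ∑ i ∈ range (32 / 2 + 1), γ i * (cfn 32 i (n + 1) : ℝ)) :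
    0 < Mat 32 (Mat 32 (Mat 32 γ)) 0 := by

  rw [m32_0]
  simp only [mm32_0, mm32_1, mm32_2, mm32_3, mm32_4, mm32_5, mm32_6, mm32_7, mm32_8, mm32_9, mm32_10, mm32_11, mm32_12, mm32_13, mm32_14, mm32_15, mm32_16]
  linarith only [h0]

theorem p32_1 (γ : ℕ → ℝ) (h0 : γ 0 = 1)
    (h : ∀ n < 32, 2 * (((32 : ℕ) : ℝ) - ((n : ℕ) : ℝ)) * ∑ i ∈ range (32 / 2 + 1), γ i * (cfn 32 i n : ℝ) ≤
      ((n : ℝ) + 1) * ∑ i ∈ range (32 / 2 + 1), γ i * (cfn 32 i (n + 1) : ℝ)) :
    0 < Mat 32 (Mat 32 (Mat 32 γ)) 1 := by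
  have k0 := q32_0 γ h0 h
  have k1 := q32_1 γ h0 h
  have k4 := q32_4 γ h0 h
  have k6 := q32_6 γ h0 h
  have k2 := q32_2 γ h0 h
  have k7 := q32_7 γ h0 h
  have k5 := q32_5 γ h0 h
  have k3 := q32_3 γ h0 h
  rw [m32_1]
  simp only [mm32_0, mm32_1, mm32_2, mm32_3, mm32_4, mm32_5, mm32_6, mm32_7, mm32_8, mm32_9, mm32_10, mm32_11, mm32_12, mm32_13, mm32_14, mm32_15, mm32_16]
  linarith only [h0, k0, k1, k4, k6, k2, k7, k5, k3]

theorem p32_2 (γ : ℕ → ℝ) (h0 : γ 0 = 1)
    (h : ∀ n < 32, 2 * (((32 : ℕ) : ℝ) - ((n : ℕ) : ℝ)) * ∑ i ∈ range (32 / 2 + 1), γ i * (cfn 32 i n : ℝ) ≤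
      ((n : ℝ) + 1) * ∑ i ∈ range (32 / 2 + 1), γ i * (cfn 32 i (n + 1) : ℝ)) :
    0 < Mat 32 (Mat 32 (Mat 32 γ)) 2 := by
  have k5 := q32_5 γ h0 h
  have k2 := q32_2 γ h0 h
  have k0 := q32_0 γ h0 h
  have k8 := q32_8 γ h0 h
  have k4 := q32_4 γ h0 h
  have k1 := q32_1 γ h0 h
  have k6 := q32_6 γ h0 h
  have k3 := q32_3 γ h0 h
  have k13 := q32_13 γ h0 h
  have k9 := q32_9 γ h0 h
  have k14 := q32_14 γ h0 h
  have k7 := q32_7 γ h0 h
  have k12 := q32_12 γ h0 h
  have k10 := q32_10 γ h0 h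
  have k15 := q32_15 γ h0 h
  have k11 := q32_11 γ h0 h
  rw [m32_2]
  simp only [mm32_0, mm32_1, mm32_2, mm32_3, mm32_4, mm32_5, mm32_6, mm32_7, mm32_8, mm32_9, mm32_10, mm32_11, mm32_12, mm32_13, mm32_14, mm32_15, mm32_16]
  linarith only [h0, k5, k2, k0, k8, k4, k1, k6, k3, k13, k9, k14, k7, k12, k10, k15, k11]

theorem p32_3 (γ : ℕ → ℝ) (h0 : γ 0 = 1)
    (h : ∀ n < 32, 2 * (((32 : ℕ) : ℝ) - ((n : ℕ) : ℝ)) * ∑ i ∈ range (32 / 2 + 1), γ i * (cfn 32 i n : ℝ) ≤
      ((n : ℝ) + 1) * ∑ i ∈ range (32 / 2 + 1), γ i * (cfn 32 i (n + 1) : ℝ)) :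
    0 < Mat 32 (Mat 32 (Mat 32 γ)) 3 := by
  have k1 := q32_1 γ h0 h
  have k0 := q32_0 γ h0 h
  have k11 := q32_11 γ h0 h
  have k4 := q32_4 γ h0 h
  have k8 := q32_8 γ h0 h
  have k3 := q32_3 γ h0 h
  have k9 := q32_9 γ h0 h
  have k6 := q32_6 γ h0 h
  have k2 := q32_2 γ h0 h
  have k17 := q32_17 γ h0 h
  have k5 := q32_5 γ h0 h
  have k14 := q32_14 γ h0 h
  have k18 := q32_18 γ h0 h
  have k15 := q32_15 γ h0 h
  have k12 := q32_12 γ h0 h
  have k7 := q32_7 γ h0 h
  rw [m32_3]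
  simp only [mm32_0, mm32_1, mm32_2, mm32_3, mm32_4, mm32_5, mm32_6, mm32_7, mm32_8, mm32_9, mm32_10, mm32_11, mm32_12, mm32_13, mm32_14, mm32_15, mm32_16]
  linarith only [h0, k1, k0, k11, k4, k8, k3, k9, k6, k2, k17, k5, k14, k18, k15, k12, k7]

theorem p32_4 (γ : ℕ → ℝ) (h0 : γ 0 = 1)
    (h : ∀ n < 32, 2 * (((32 : ℕ) : ℝ) - ((n : ℕ) : ℝ)) * ∑ i ∈ range (32 / 2 + 1), γ i * (cfn 32 i n : ℝ) ≤
      ((n : ℝ) + 1) * ∑ i ∈ range (32 / 2 + 1), γ i * (cfn 32 i (n + 1) : ℝ)) :
    0 < Mat 32 (Mat 32 (Mat 32 γ)) 4 := by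
  have k4 := q32_4 γ h0 h
  have k3 := q32_3 γ h0 h
  have k16 := q32_16 γ h0 h
  have k0 := q32_0 γ h0 h
  have k13 := q32_13 γ h0 h
  have k1 := q32_1 γ h0 h
  have k5 := q32_5 γ h0 h
  have k7 := q32_7 γ h0 h
  have k2 := q32_2 γ h0 h
  have k19 := q32_19 γ h0 h
  have k6 := q32_6 γ h0 h
  have k10 := q32_10 γ h0 h
  have k20 := q32_20 γ h0 h
  have k12 := q32_12 γ h0 h
  have k9 := q32_9 γ h0 h
  have k17 := q32_17 γ h0 h
  rw [m32_4]
  simp only [mm32_0, mm32_1, mm32_2, mm32_3, mm32_4, mm32_5, mm32_6, mm32_7, mm32_8, mm32_9, mm32_10, mm32_11, mm32_12, mm32_13, mm32_14, mm32_15, mm32_16]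
  linarith only [h0, k4, k3, k16, k0, k13, k1, k5, k7, k2, k19, k6, k10, k20, k12, k9, k17]

theorem p32_5 (γ : ℕ → ℝ) (h0 : γ 0 = 1)
    (h : ∀ n < 32, 2 * (((32 : ℕ) : ℝ) - ((n : ℕ) : ℝ)) * ∑ i ∈ range (32 / 2 + 1), γ i * (cfn 32 i n : ℝ) ≤
      ((n : ℝ) + 1) * ∑ i ∈ range (32 / 2 + 1), γ i * (cfn 32 i (n + 1) : ℝ)) :
    0 < Mat 32 (Mat 32 (Mat 32 γ)) 5 := by
  have k2 := q32_2 γ h0 h
  have k6 := q32_6 γ h0 h
  have k0 := q32_0 γ h0 h
  have k1 := q32_1 γ h0 h
  have k7 := q32_7 γ h0 h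
  have k5 := q32_5 γ h0 h
  have k20 := q32_20 γ h0 h
  have k3 := q32_3 γ h0 h
  have k4 := q32_4 γ h0 h
  have k9 := q32_9 γ h0 h
  have k12 := q32_12 γ h0 h
  have k21 := q32_21 γ h0 h
  have k16 := q32_16 γ h0 h
  have k17 := q32_17 γ h0 h
  have k13 := q32_13 γ h0 h
  have k10 := q32_10 γ h0 h
  rw [m32_5]
  simp only [mm32_0, mm32_1, mm32_2, mm32_3, mm32_4, mm32_5, mm32_6, mm32_7, mm32_8, mm32_9, mm32_10, mm32_11, mm32_12, mm32_13, mm32_14, mm32_15, mm32_16]
  linarith only [h0, k2, k6, k0, k1, k7, k5, k20, k3, k4, k9, k12, k21, k16, k17, k13, k10]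

theorem p32_6 (γ : ℕ → ℝ) (h0 : γ 0 = 1)
    (h : ∀ n < 32, 2 * (((32 : ℕ) : ℝ) - ((n : ℕ) : ℝ)) * ∑ i ∈ range (32 / 2 + 1), γ i * (cfn 32 i n : ℝ) ≤
      ((n : ℝ) + 1) * ∑ i ∈ range (32 / 2 + 1), γ i * (cfn 32 i (n + 1) : ℝ)) :
    0 < Mat 32 (Mat 32 (Mat 32 γ)) 6 := by
  have k0 := q32_0 γ h0 h
  have k2 := q32_2 γ h0 h
  have k12 := q32_12 γ h0 h
  have k4 := q32_4 γ h0 h
  have k5 := q32_5 γ h0 h
  have k9 := q32_9 γ h0 h
  have k21 := q32_21 γ h0 h
  have k1 := q32_1 γ h0 h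
  have k10 := q32_10 γ h0 h
  have k3 := q32_3 γ h0 h
  have k7 := q32_7 γ h0 h
  have k22 := q32_22 γ h0 h
  have k6 := q32_6 γ h0 h
  have k17 := q32_17 γ h0 h
  have k13 := q32_13 γ h0 h
  have k18 := q32_18 γ h0 h
  rw [m32_6]
  simp only [mm32_0, mm32_1, mm32_2, mm32_3, mm32_4, mm32_5, mm32_6, mm32_7, mm32_8, mm32_9, mm32_10, mm32_11, mm32_12, mm32_13, mm32_14, mm32_15, mm32_16]
  linarith only [h0, k0, k2, k12, k4, k5, k9, k21, k1, k10, k3, k7, k22, k6, k17, k13, k18]

theorem p32_7 (γ : ℕ → ℝ) (h0 : γ 0 = 1)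
    (h : ∀ n < 32, 2 * (((32 : ℕ) : ℝ) - ((n : ℕ) : ℝ)) * ∑ i ∈ range (32 / 2 + 1), γ i * (cfn 32 i n : ℝ) ≤
      ((n : ℝ) + 1) * ∑ i ∈ range (32 / 2 + 1), γ i * (cfn 32 i (n + 1) : ℝ)) :
    0 < Mat 32 (Mat 32 (Mat 32 γ)) 7 := by
  have k22 := q32_22 γ h0 h
  have k5 := q32_5 γ h0 h
  have k3 := q32_3 γ h0 h
  have k2 := q32_2 γ h0 h
  have k0 := q32_0 γ h0 h
  have k4 := q32_4 γ h0 h
  have k7 := q32_7 γ h0 h
  have k1 := q32_1 γ h0 h
  have k13 := q32_13 γ h0 h
  have k6 := q32_6 γ h0 h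
  have k17 := q32_17 γ h0 h
  have k9 := q32_9 γ h0 h
  have k12 := q32_12 γ h0 h
  have k23 := q32_23 γ h0 h
  have k18 := q32_18 γ h0 h
  have k10 := q32_10 γ h0 h
  rw [m32_7]
  simp only [mm32_0, mm32_1, mm32_2, mm32_3, mm32_4, mm32_5, mm32_6, mm32_7, mm32_8, mm32_9, mm32_10, mm32_11, mm32_12, mm32_13, mm32_14, mm32_15, mm32_16]
  linarith only [h0, k22, k5, k3, k2, k0, k4, k7, k1, k13, k6, k17, k9, k12, k23, k18, k10]

theorem p32_8 (γ : ℕ → ℝ) (h0 : γ 0 = 1)
    (h : ∀ n < 32, 2 * (((32 : ℕ) : ℝ) - ((n : ℕ) : ℝ)) * ∑ i ∈ range (32 / 2 + 1), γ i * (cfn 32 i n : ℝ) ≤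
      ((n : ℝ) + 1) * ∑ i ∈ range (32 / 2 + 1), γ i * (cfn 32 i (n + 1) : ℝ)) :
    0 < Mat 32 (Mat 32 (Mat 32 γ)) 8 := by
  have k3 := q32_3 γ h0 h
  have k0 := q32_0 γ h0 h
  have k6 := q32_6 γ h0 h
  have k10 := q32_10 γ h0 h
  have k13 := q32_13 γ h0 h
  have k4 := q32_4 γ h0 h
  have k1 := q32_1 γ h0 h
  have k2 := q32_2 γ h0 h
  have k17 := q32_17 γ h0 h
  have k5 := q32_5 γ h0 h
  have k23 := q32_23 γ h0 h
  have k9 := q32_9 γ h0 h
  have k24 := q32_24 γ h0 h
  have k7 := q32_7 γ h0 h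
  have k18 := q32_18 γ h0 h
  have k14 := q32_14 γ h0 h
  rw [m32_8]
  simp only [mm32_0, mm32_1, mm32_2, mm32_3, mm32_4, mm32_5, mm32_6, mm32_7, mm32_8, mm32_9, mm32_10, mm32_11, mm32_12, mm32_13, mm32_14, mm32_15, mm32_16]
  linarith only [h0, k3, k0, k6, k10, k13, k4, k1, k2, k17, k5, k23, k9, k24, k7, k18, k14]

theorem p32_9 (γ : ℕ → ℝ) (h0 : γ 0 = 1)
    (h : ∀ n < 32, 2 * (((32 : ℕ) : ℝ) - ((n : ℕ) : ℝ)) * ∑ i ∈ range (32 / 2 + 1), γ i * (cfn 32 i n : ℝ) ≤
      ((n : ℝ) + 1) * ∑ i ∈ range (32 / 2 + 1), γ i * (cfn 32 i (n + 1) : ℝ)) :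
    0 < Mat 32 (Mat 32 (Mat 32 γ)) 9 := by
  have k2 := q32_2 γ h0 h
  have k6 := q32_6 γ h0 h
  have k23 := q32_23 γ h0 h
  have k0 := q32_0 γ h0 h
  have k3 := q32_3 γ h0 h
  have k4 := q32_4 γ h0 h
  have k1 := q32_1 γ h0 h
  have k17 := q32_17 γ h0 h
  have k24 := q32_24 γ h0 h
  have k5 := q32_5 γ h0 h
  have k9 := q32_9 γ h0 h
  have k18 := q32_18 γ h0 h
  have k10 := q32_10 γ h0 h
  have k7 := q32_7 γ h0 h
  have k13 := q32_13 γ h0 h
  have k14 := q32_14 γ h0 h
  rw [m32_9]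
  simp only [mm32_0, mm32_1, mm32_2, mm32_3, mm32_4, mm32_5, mm32_6, mm32_7, mm32_8, mm32_9, mm32_10, mm32_11, mm32_12, mm32_13, mm32_14, mm32_15, mm32_16]
  linarith only [h0, k2, k6, k23, k0, k3, k4, k1, k17, k24, k5, k9, k18, k10, k7, k13, k14]

theorem p32_10 (γ : ℕ → ℝ) (h0 : γ 0 = 1)
    (h : ∀ n < 32, 2 * (((32 : ℕ) : ℝ) - ((n : ℕ) : ℝ)) * ∑ i ∈ range (32 / 2 + 1), γ i * (cfn 32 i n : ℝ) ≤
      ((n : ℝ) + 1) * ∑ i ∈ range (32 / 2 + 1), γ i * (cfn 32 i (n + 1) : ℝ)) :
    0 < Mat 32 (Mat 32 (Mat 32 γ)) 10 := by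
  have k4 := q32_4 γ h0 h
  have k0 := q32_0 γ h0 h
  have k9 := q32_9 γ h0 h
  have k2 := q32_2 γ h0 h
  have k3 := q32_3 γ h0 h
  have k7 := q32_7 γ h0 h
  have k1 := q32_1 γ h0 h
  have k6 := q32_6 γ h0 h
  have k10 := q32_10 γ h0 h
  have k5 := q32_5 γ h0 h
  have k24 := q32_24 γ h0 h
  have k17 := q32_17 γ h0 h
  have k25 := q32_25 γ h0 h
  have k18 := q32_18 γ h0 h
  have k13 := q32_13 γ h0 h
  have k14 := q32_14 γ h0 h
  rw [m32_10]
  simp only [mm32_0, mm32_1, mm32_2, mm32_3, mm32_4, mm32_5, mm32_6, mm32_7, mm32_8, mm32_9, mm32_10, mm32_11, mm32_12, mm32_13, mm32_14, mm32_15, mm32_16]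
  linarith only [h0, k4, k0, k9, k2, k3, k7, k1, k6, k10, k5, k24, k17, k25, k18, k13, k14]

theorem p32_11 (γ : ℕ → ℝ) (h0 : γ 0 = 1)
    (h : ∀ n < 32, 2 * (((32 : ℕ) : ℝ) - ((n : ℕ) : ℝ)) * ∑ i ∈ range (32 / 2 + 1), γ i * (cfn 32 i n : ℝ) ≤
      ((n : ℝ) + 1) * ∑ i ∈ range (32 / 2 + 1), γ i * (cfn 32 i (n + 1) : ℝ)) :
    0 < Mat 32 (Mat 32 (Mat 32 γ)) 11 := by
  have k4 := q32_4 γ h0 h
  have k25 := q32_25 γ h0 h
  have k9 := q32_9 γ h0 h
  have k7 := q32_7 γ h0 h
  have k0 := q32_0 γ h0 h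
  have k3 := q32_3 γ h0 h
  have k5 := q32_5 γ h0 h
  have k1 := q32_1 γ h0 h
  have k2 := q32_2 γ h0 h
  have k24 := q32_24 γ h0 h
  have k6 := q32_6 γ h0 h
  have k17 := q32_17 γ h0 h
  have k10 := q32_10 γ h0 h
  have k18 := q32_18 γ h0 h
  have k13 := q32_13 γ h0 h
  have k14 := q32_14 γ h0 h
  rw [m32_11]
  simp only [mm32_0, mm32_1, mm32_2, mm32_3, mm32_4, mm32_5, mm32_6, mm32_7, mm32_8, mm32_9, mm32_10, mm32_11, mm32_12, mm32_13, mm32_14, mm32_15, mm32_16]
  linarith only [h0, k4, k25, k9, k7, k0, k3, k5, k1, k2, k24, k6, k17, k10, k18, k13, k14]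

theorem p32_12 (γ : ℕ → ℝ) (h0 : γ 0 = 1)
    (h : ∀ n < 32, 2 * (((32 : ℕ) : ℝ) - ((n : ℕ) : ℝ)) * ∑ i ∈ range (32 / 2 + 1), γ i * (cfn 32 i n : ℝ) ≤
      ((n : ℝ) + 1) * ∑ i ∈ range (32 / 2 + 1), γ i * (cfn 32 i (n + 1) : ℝ)) :
    0 < Mat 32 (Mat 32 (Mat 32 γ)) 12 := by
  have k0 := q32_0 γ h0 h
  have k4 := q32_4 γ h0 h
  have k24 := q32_24 γ h0 h
  have k9 := q32_9 γ h0 h
  have k3 := q32_3 γ h0 h
  have k25 := q32_25 γ h0 h
  have k7 := q32_7 γ h0 h
  have k1 := q32_1 γ h0 h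
  have k2 := q32_2 γ h0 h
  have k5 := q32_5 γ h0 h
  have k6 := q32_6 γ h0 h
  have k14 := q32_14 γ h0 h
  have k10 := q32_10 γ h0 h
  have k18 := q32_18 γ h0 h
  have k13 := q32_13 γ h0 h
  have k19 := q32_19 γ h0 h
  rw [m32_12]
  simp only [mm32_0, mm32_1, mm32_2, mm32_3, mm32_4, mm32_5, mm32_6, mm32_7, mm32_8, mm32_9, mm32_10, mm32_11, mm32_12, mm32_13, mm32_14, mm32_15, mm32_16]
  linarith only [h0, k0, k4, k24, k9, k3, k25, k7, k1, k2, k5, k6, k14, k10, k18, k13, k19]

theorem p32_13 (γ : ℕ → ℝ) (h0 : γ 0 = 1)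
    (h : ∀ n < 32, 2 * (((32 : ℕ) : ℝ) - ((n : ℕ) : ℝ)) * ∑ i ∈ range (32 / 2 + 1), γ i * (cfn 32 i n : ℝ) ≤
      ((n : ℝ) + 1) * ∑ i ∈ range (32 / 2 + 1), γ i * (cfn 32 i (n + 1) : ℝ)) :
    0 < Mat 32 (Mat 32 (Mat 32 γ)) 13 := by
  have k3 := q32_3 γ h0 h
  have k0 := q32_0 γ h0 h
  have k18 := q32_18 γ h0 h
  have k9 := q32_9 γ h0 h
  have k4 := q32_4 γ h0 h
  have k25 := q32_25 γ h0 h
  have k7 := q32_7 γ h0 h
  have k1 := q32_1 γ h0 h
  have k2 := q32_2 γ h0 h
  have k5 := q32_5 γ h0 h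
  have k6 := q32_6 γ h0 h
  have k14 := q32_14 γ h0 h
  have k10 := q32_10 γ h0 h
  have k26 := q32_26 γ h0 h
  have k13 := q32_13 γ h0 h
  have k19 := q32_19 γ h0 h
  rw [m32_13]
  simp only [mm32_0, mm32_1, mm32_2, mm32_3, mm32_4, mm32_5, mm32_6, mm32_7, mm32_8, mm32_9, mm32_10, mm32_11, mm32_12, mm32_13, mm32_14, mm32_15, mm32_16]
  linarith only [h0, k3, k0, k18, k9, k4, k25, k7, k1, k2, k5, k6, k14, k10, k26, k13, k19]

theorem p32_14 (γ : ℕ → ℝ) (h0 : γ 0 = 1)
    (h : ∀ n < 32, 2 * (((32 : ℕ) : ℝ) - ((n : ℕ) : ℝ)) * ∑ i ∈ range (32 / 2 + 1), γ i * (cfn 32 i n : ℝ) ≤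
      ((n : ℝ) + 1) * ∑ i ∈ range (32 / 2 + 1), γ i * (cfn 32 i (n + 1) : ℝ)) :
    0 < Mat 32 (Mat 32 (Mat 32 γ)) 14 := by
  have k0 := q32_0 γ h0 h
  have k3 := q32_3 γ h0 h
  have k4 := q32_4 γ h0 h
  have k5 := q32_5 γ h0 h
  have k6 := q32_6 γ h0 h
  have k9 := q32_9 γ h0 h
  have k7 := q32_7 γ h0 h
  have k1 := q32_1 γ h0 h
  have k2 := q32_2 γ h0 h
  have k25 := q32_25 γ h0 h
  have k26 := q32_26 γ h0 h
  have k14 := q32_14 γ h0 h
  have k10 := q32_10 γ h0 h
  have k18 := q32_18 γ h0 h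
  have k13 := q32_13 γ h0 h
  have k19 := q32_19 γ h0 h
  rw [m32_14]
  simp only [mm32_0, mm32_1, mm32_2, mm32_3, mm32_4, mm32_5, mm32_6, mm32_7, mm32_8, mm32_9, mm32_10, mm32_11, mm32_12, mm32_13, mm32_14, mm32_15, mm32_16]
  linarith only [h0, k0, k3, k4, k5, k6, k9, k7, k1, k2, k25, k26, k14, k10, k18, k13, k19]

theorem p32_15 (γ : ℕ → ℝ) (h0 : γ 0 = 1)
    (h : ∀ n < 32, 2 * (((32 : ℕ) : ℝ) - ((n : ℕ) : ℝ)) * ∑ i ∈ range (32 / 2 + 1), γ i * (cfn 32 i n : ℝ) ≤
      ((n : ℝ) + 1) * ∑ i ∈ range (32 / 2 + 1), γ i * (cfn 32 i (n + 1) : ℝ)) :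
    0 < Mat 32 (Mat 32 (Mat 32 γ)) 15 := by
  have k9 := q32_9 γ h0 h
  have k3 := q32_3 γ h0 h
  have k7 := q32_7 γ h0 h
  have k1 := q32_1 γ h0 h
  have k0 := q32_0 γ h0 h
  have k4 := q32_4 γ h0 h
  have k26 := q32_26 γ h0 h
  have k5 := q32_5 γ h0 h
  have k2 := q32_2 γ h0 h
  have k10 := q32_10 γ h0 h
  have k13 := q32_13 γ h0 h
  have k6 := q32_6 γ h0 h
  have k19 := q32_19 γ h0 h
  have k18 := q32_18 γ h0 h
  have k27 := q32_27 γ h0 h
  have k14 := q32_14 γ h0 h
  rw [m32_15]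
  simp only [mm32_0, mm32_1, mm32_2, mm32_3, mm32_4, mm32_5, mm32_6, mm32_7, mm32_8, mm32_9, mm32_10, mm32_11, mm32_12, mm32_13, mm32_14, mm32_15, mm32_16]
  linarith only [h0, k9, k3, k7, k1, k0, k4, k26, k5, k2, k10, k13, k6, k19, k18, k27, k14]

theorem p32_16 (γ : ℕ → ℝ) (h0 : γ 0 = 1)
    (h : ∀ n < 32, 2 * (((32 : ℕ) : ℝ) - ((n : ℕ) : ℝ)) * ∑ i ∈ range (32 / 2 + 1), γ i * (cfn 32 i n : ℝ) ≤
      ((n : ℝ) + 1) * ∑ i ∈ range (32 / 2 + 1), γ i * (cfn 32 i (n + 1) : ℝ)) :
    0 < Mat 32 (Mat 32 (Mat 32 γ)) 16 := by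
  have k6 := q32_6 γ h0 h
  have k4 := q32_4 γ h0 h
  have k5 := q32_5 γ h0 h
  have k3 := q32_3 γ h0 h
  have k0 := q32_0 γ h0 h
  have k2 := q32_2 γ h0 h
  have k10 := q32_10 γ h0 h
  have k1 := q32_1 γ h0 h
  have k18 := q32_18 γ h0 h
  have k7 := q32_7 γ h0 h
  have k14 := q32_14 γ h0 h
  have k19 := q32_19 γ h0 h
  have k27 := q32_27 γ h0 h
  have k13 := q32_13 γ h0 h
  have k9 := q32_9 γ h0 h
  have k28 := q32_28 γ h0 h
  rw [m32_16]
  simp only [mm32_0, mm32_1, mm32_2, mm32_3, mm32_4, mm32_5, mm32_6, mm32_7, mm32_8, mm32_9, mm32_10, mm32_11, mm32_12, mm32_13, mm32_14, mm32_15, mm32_16]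
  linarith only [h0, k6, k4, k5, k3, k0, k2, k10, k1, k18, k7, k14, k19, k27, k13, k9, k28]

theorem main32 (γ : ℕ → ℝ) (h0 : γ 0 = 1)
    (h : ∀ n < 32, 2 * (((32 : ℕ) : ℝ) - ((n : ℕ) : ℝ)) * ∑ i ∈ range (32 / 2 + 1), γ i * (cfn 32 i n : ℝ) ≤
      ((n : ℝ) + 1) * ∑ i ∈ range (32 / 2 + 1), γ i * (cfn 32 i (n + 1) : ℝ)) :
    ∀ j ≤ 32 / 2, 0 < Mat 32 (Mat 32 (Mat 32 γ)) j := by
  intro j hj
  have hj' : j ≤ 16 := hj
  clear hj
  interval_cases j
  · exact p32_0 γ h0 h
  · exact p32_1 γ h0 h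
  · exact p32_2 γ h0 h
  · exact p32_3 γ h0 h
  · exact p32_4 γ h0 h
  · exact p32_5 γ h0 h
  · exact p32_6 γ h0 h
  · exact p32_7 γ h0 h
  · exact p32_8 γ h0 h
  · exact p32_9 γ h0 h
  · exact p32_10 γ h0 h
  · exact p32_11 γ h0 h
  · exact p32_12 γ h0 h
  · exact p32_13 γ h0 h
  · exact p32_14 γ h0 h
  · exact p32_15 γ h0 h
  · exact p32_16 γ h0 h

theorem c33_0 (γ : ℕ → ℝ) : ∑ i ∈ range (33 / 2 + 1), γ i * (cfn 33 i 0 : ℝ) =
    (1) * γ 0 + (0) * γ 1 + (0) * γ 2 + (0) * γ 3 + (0) * γ 4 + (0) * γ 5 + (0) * γ 6 + (0) * γ 7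
       + (0) * γ 8 + (0) * γ 9 + (0) * γ 10 + (0) * γ 11 + (0) * γ 12 + (0) * γ 13 + (0) * γ 14
       + (0) * γ 15 + (0) * γ 16 := by
  have h : ((33 / 2 + 1 : ℕ)) = 17 := rfl
  rw [h]
  simp only [sum_range_succ, sum_range_zero, show cfn 33 0 0 = 1 from by decide +kernel, show cfn 33 1 0 = 0 from by decide +kernel, show cfn 33 2 0 = 0 from by decide +kernel, show cfn 33 3 0 = 0 from by decide +kernel, show cfn 33 4 0 = 0 from by decide +kernel, show cfn 33 5 0 = 0 from by decide +kernel, show cfn 33 6 0 = 0 from by decide +kernel, show cfn 33 7 0 = 0 from by decide +kernel, show cfn 33 8 0 = 0 from by decide +kernel, show cfn 33 9 0 = 0 from by decide +kernel, show cfn 33 10 0 = 0 from by decide +kernel, show cfn 33 11 0 = 0 from by decide +kernel, show cfn 33 12 0 = 0 from by decide +kernel, show cfn 33 13 0 = 0 from by decide +kernel, show cfn 33 14 0 = 0 from by decide +kernel, show cfn 33 15 0 = 0 from by decide +kernel, show cfn 33 16 0 = 0 from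 by decide +kernel, Nat.cast_ofNat, Nat.cast_one, Nat.cast_zero]
  ring

theorem c33_1 (γ : ℕ → ℝ) : ∑ i ∈ range (33 / 2 + 1), γ i * (cfn 33 i 1 : ℝ) =
    (66) * γ 0 + (1) * γ 1 + (0) * γ 2 + (0) * γ 3 + (0) * γ 4 + (0) * γ 5 + (0) * γ 6
       + (0) * γ 7 + (0) * γ 8 + (0) * γ 9 + (0) * γ 10 + (0) * γ 11 + (0) * γ 12 + (0) * γ 13
       + (0) * γ 14 + (0) * γ 15 + (0) * γ 16 := by
  have h : ((33 / 2 + 1 : ℕ)) = 17 := rfl
  rw [h]
  simp only [sum_range_succ, sum_range_zero, show cfn 33 0 1 = 66 from by decide +kernel, show cfn 33 1 1 = 1 from by decide +kernel, show cfn 33 2 1 = 0 from by decide +kernel, show cfn 33 3 1 = 0 from by decide +kernel, show cfn 33 4 1 = 0 from by decide +kernel, show cfn 33 5 1 = 0 from by decide +kernel, show cfn 33 6 1 = 0 from by decide +kernel, show cfn 33 7 1 = 0 from by decide +kernel, show cfn 33 8 1 = 0 from by decide +kernel, show cfn 33 9 1 = 0 from by decide +kernel, show cfn 33 10 1 = 0 from by decide +kernel,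 show cfn 33 11 1 = 0 from by decide +kernel, show cfn 33 12 1 = 0 from by decide +kernel, show cfn 33 13 1 = 0 from by decide +kernel, show cfn 33 14 1 = 0 from by decide +kernel, show cfn 33 15 1 = 0 from by decide +kernel, show cfn 33 16 1 = 0 from by decide +kernel, Nat.cast_ofNat, Nat.cast_one, Nat.cast_zero]
  ring

theorem c33_2 (γ : ℕ → ℝ) : ∑ i ∈ range (33 / 2 + 1), γ i * (cfn 33 i 2 : ℝ) =
    (2112) * γ 0 + (63) * γ 1 + (1) * γ 2 + (0) * γ 3 + (0) * γ 4 + (0) * γ 5 + (0) * γ 6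
       + (0) * γ 7 + (0) * γ 8 + (0) * γ 9 + (0) * γ 10 + (0) * γ 11 + (0) * γ 12 + (0) * γ 13
       + (0) * γ 14 + (0) * γ 15 + (0) * γ 16 := by
  have h : ((33 / 2 + 1 : ℕ)) = 17 := rfl
  rw [h]
  simp only [sum_range_succ, sum_range_zero, show cfn 33 0 2 = 2112 from by decide +kernel, show cfn 33 1 2 = 63 from by decide +kernel, show cfn 33 2 2 = 1 from by decide +kernel, show cfn 33 3 2 = 0 from by decide +kernel, show cfn 33 4 2 = 0 from by decide +kernel, show cfn 33 5 2 = 0 from by decide +kernel, show cfn 33 6 2 = 0 from by decide +kernel, show cfn 33 7 2 = 0 from by decide +kernel, show cfn 33 8 2 = 0 from by decide +kernel, show cfn 33 9 2 = 0 from by decide +kernel, show cfn 33 10 2 = 0 from by decide +kernel, show cfn 33 11 2 = 0 from by decide +kernel, show cfn 33 12 2 = 0 from by decide +kernel, show cfn 33 13 2 = 0 from by decide +kernel, show cfn 33 14 2 = 0 from by decide +kernel, show cfn 33 15 2 = 0 from by decide +kernel, show cfn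 33 16 2 = 0 from by decide +kernel, Nat.cast_ofNat, Nat.cast_one, Nat.cast_zero]
  ring

theorem c33_3 (γ : ℕ → ℝ) : ∑ i ∈ range (33 / 2 + 1), γ i * (cfn 33 i 3 : ℝ) =
    (43648) * γ 0 + (1922) * γ 1 + (60) * γ 2 + (1) * γ 3 + (0) * γ 4 + (0) * γ 5 + (0) * γ 6
       + (0) * γ 7 + (0) * γ 8 + (0) * γ 9 + (0) * γ 10 + (0) * γ 11 + (0) * γ 12 + (0) * γ 13
       + (0) * γ 14 + (0) * γ 15 + (0) * γ 16 := by
  have h : ((33 / 2 + 1 : ℕ)) = 17 := rfl
  rw [h]
  simp only [sum_range_succ, sum_range_zero, show cfn 33 0 3 = 43648 from by decide +kernel, show cfn 33 1 3 = 1922 from by decide +kernel, show cfn 33 2 3 = 60 from by decide +kernel, show cfn 33 3 3 = 1 from by decide +kernel, show cfn 33 4 3 = 0 from by decide +kernel, show cfn 33 5 3 = 0 from by decide +kernel, show cfn 33 6 3 = 0 from by decide +kernel, show cfn 33 7 3 = 0 from by decide +kernel, show cfn 33 8 3 = 0 from by decide +kernel, show cfn 33 9 3 = 0 from by decide +kernel, show cfn 33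 10 3 = 0 from by decide +kernel, show cfn 33 11 3 = 0 from by decide +kernel, show cfn 33 12 3 = 0 from by decide +kernel, show cfn 33 13 3 = 0 from by decide +kernel, show cfn 33 14 3 = 0 from by decide +kernel, show cfn 33 15 3 = 0 from by decide +kernel, show cfn 33 16 3 = 0 from by decide +kernel, Nat.cast_ofNat, Nat.cast_one, Nat.cast_zero]
  ring

theorem c33_4 (γ : ℕ → ℝ) : ∑ i ∈ range (33 / 2 + 1), γ i * (cfn 33 i 4 : ℝ) =
    (654720) * γ 0 + (37820) * γ 1 + (1741) * γ 2 + (57) * γ 3 + (1) * γ 4 + (0) * γ 5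
       + (0) * γ 6 + (0) * γ 7 + (0) * γ 8 + (0) * γ 9 + (0) * γ 10 + (0) * γ 11 + (0) * γ 12
       + (0) * γ 13 + (0) * γ 14 + (0) * γ 15 + (0) * γ 16 := by
  have h : ((33 / 2 + 1 : ℕ)) = 17 := rfl
  rw [h]
  simp only [sum_range_succ, sum_range_zero, show cfn 33 0 4 = 654720 from by decide +kernel, show cfn 33 1 4 = 37820 from by decide +kernel, show cfn 33 2 4 = 1741 from by decide +kernel, show cfn 33 3 4 = 57 from by decide +kernel, show cfn 33 4 4 = 1 from by decide +kernel, show cfn 33 5 4 = 0 from by decide +kernel, show cfn 33 6 4 = 0 from by decide +kernel, show cfn 33 7 4 = 0 from by decide +kernel, show cfn 33 8 4 = 0 from by decide +kernel, show cfn 33 9 4 = 0 from by decide +kernel, show cfn 33 10 4 = 0 from by decide +kernel, show cfn 33 11 4 = 0 from by decide +kernel, show cfn 33 12 4 = 0 from by decide +kernel, show cfn 33 13 4 = 0 from by decide +kernel, show cfn 33 14 4 = 0 from by decide +kernel, show cfn 33 15 4 = 0 from by decide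 +kernel, show cfn 33 16 4 = 0 from by decide +kernel, Nat.cast_ofNat, Nat.cast_one, Nat.cast_zero]
  ring

theorem c33_5 (γ : ℕ → ℝ) : ∑ i ∈ range (33 / 2 + 1), γ i * (cfn 33 i 5 : ℝ) =
    (7594752) * γ 0 + (539400) * γ 1 + (32538) * γ 2 + (1569) * γ 3 + (54) * γ 4 + (1) * γ 5
       + (0) * γ 6 + (0) * γ 7 + (0) * γ 8 + (0) * γ 9 + (0) * γ 10 + (0) * γ 11 + (0) * γ 12
       + (0) * γ 13 + (0) * γ 14 + (0) * γ 15 + (0) * γ 16 := by
  have h : ((33 / 2 + 1 : ℕ)) = 17 := rfl
  rw [h]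
  simp only [sum_range_succ, sum_range_zero, show cfn 33 0 5 = 7594752 from by decide +kernel, show cfn 33 1 5 = 539400 from by decide +kernel, show cfn 33 2 5 = 32538 from by decide +kernel, show cfn 33 3 5 = 1569 from by decide +kernel, show cfn 33 4 5 = 54 from by decide +kernel, show cfn 33 5 5 = 1 from by decide +kernel, show cfn 33 6 5 = 0 from by decide +kernel, show cfn 33 7 5 = 0 from by decide +kernel, show cfn 33 8 5 = 0 from by decide +kernel, show cfn 33 9 5 = 0 from by decide +kernel, show cfn 33 10 5 = 0 from by decide +kernel, show cfn 33 11 5 = 0 from by decide +kernel, show cfn 33 12 5 = 0 from by decide +kernel, show cfn 33 13 5 = 0 from by decide +kernel, show cfn 33 14 5 = 0 from by decide +kernel, show cfn 33 15 5 = 0 from by decide +kernel, show cfn 33 16 5 = 0 from by decide +kernel, Nat.cast_ofNat, Nat.cast_one, Nat.cast_zero]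
  ring

theorem c33_6 (γ : ℕ → ℝ) : ∑ i ∈ range (33 / 2 + 1), γ i * (cfn 33 i 6 : ℝ) =
    (70884352) * γ 0 + (5940592) * γ 1 + (440104) * γ 2 + (27775) * γ 3 + (1406) * γ 4
       + (51) * γ 5 + (1) * γ 6 + (0) * γ 7 + (0) * γ 8 + (0) * γ 9 + (0) * γ 10 + (0) * γ 11
       + (0) * γ 12 + (0) * γ 13 + (0) * γ 14 + (0) * γ 15 + (0) * γ 16 := by
  have h : ((33 / 2 + 1 : ℕ)) = 17 := rfl
  rw [h]
  simp only [sum_range_succ, sum_range_zero, show cfn 33 0 6 = 70884352 from by decide +kernel, show cfn 33 1 6 = 5940592 from by decide +kernel, show cfn 33 2 6 = 440104 from by decide +kernel, show cfn 33 3 6 = 27775 from by decide +kernel, show cfn 33 4 6 = 1406 from by decide +kernel, show cfn 33 5 6 = 51 from by decide +kernel, show cfn 33 6 6 = 1 from by decide +kernel, show cfn 33 7 6 = 0 from by decide +kernel, show cfn 33 8 6 = 0 from by decide +kernel, show cfn 33 9 6 = 0 from by decide +kernel, show cfn 33 10 6 = 0 from by decide +kernel, show cfn 33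 11 6 = 0 from by decide +kernel, show cfn 33 12 6 = 0 from by decide +kernel, show cfn 33 13 6 = 0 from by decide +kernel, show cfn 33 14 6 = 0 from by decide +kernel, show cfn 33 15 6 = 0 from by decide +kernel, show cfn 33 16 6 = 0 from by decide +kernel, Nat.cast_ofNat, Nat.cast_one, Nat.cast_zero]
  ring

theorem c33_7 (γ : ℕ → ℝ) : ∑ i ∈ range (33 / 2 + 1), γ i * (cfn 33 i 7 : ℝ) =
    (546822144) * γ 0 + (52559136) * γ 1 + (4589424) * γ 2 + (355266) * γ 3 + (23504) * γ 4
       + (1252) * γ 5 + (48) * γ 6 + (1) * γ 7 + (0) * γ 8 + (0) * γ 9 + (0) * γ 10 + (0) * γ 11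
       + (0) * γ 12 + (0) * γ 13 + (0) * γ 14 + (0) * γ 15 + (0) * γ 16 := by
  have h : ((33 / 2 + 1 : ℕ)) = 17 := rfl
  rw [h]
  simp only [sum_range_succ, sum_range_zero, show cfn 33 0 7 = 546822144 from by decide +kernel, show cfn 33 1 7 = 52559136 from by decide +kernel, show cfn 33 2 7 = 4589424 from by decide +kernel, show cfn 33 3 7 = 355266 from by decide +kernel, show cfn 33 4 7 = 23504 from by decide +kernel, show cfn 33 5 7 = 1252 from by decide +kernel, show cfn 33 6 7 = 48 from by decide +kernel, show cfn 33 7 7 = 1 from by decide +kernel, show cfn 33 8 7 = 0 from by decide +kernel, show cfn 33 9 7 = 0 from by decide +kernel, show cfn 33 10 7 = 0 from by decide +kernel, show cfn 33 11 7 = 0 from by decide +kernel, show cfn 33 12 7 = 0 from by decide +kernel, show cfn 33 13 7 = 0 from by decide +kernel, show cfn 33 14 7 = 0 from by decide +kernel, show cfn 33 15 7 = 0 from by decide +kernel, show cfn 33 16 7 = 0 from by decide +kernel, Nat.cast_ofNat,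 Nat.cast_one, Nat.cast_zero]
  ring

theorem c33_8 (γ : ℕ → ℝ) : ∑ i ∈ range (33 / 2 + 1), γ i * (cfn 33 i 8 : ℝ) =
    (3554343936) * γ 0 + (383707584) * γ 1 + (38381616) * γ 2 + (3497364) * γ 3 + (283401) * γ 4
       + (19698) * γ 5 + (1107) * γ 6 + (45) * γ 7 + (1) * γ 8 + (0) * γ 9 + (0) * γ 10
       + (0) * γ 11 + (0) * γ 12 + (0) * γ 13 + (0) * γ 14 + (0) * γ 15 + (0) * γ 16 := by
  have h : ((33 / 2 + 1 : ℕ)) = 17 := rfl
  rw [h]
  simp only [sum_range_succ, sum_range_zero, show cfn 33 0 8 = 3554343936 from by decide +kernel, show cfn 33 1 8 = 383707584 from by decide +kernel, show cfn 33 2 8 = 38381616 from by decide +kernel, show cfn 33 3 8 = 3497364 from by decide +kernel, show cfn 33 4 8 = 283401 from by decide +kernel, show cfn 33 5 8 = 19698 from by decide +kernel, show cfn 33 6 8 = 1107 from by decide +kernel, show cfn 33 7 8 = 45 from by decide +kernel, show cfn 33 8 8 = 1 from by decide +kernel, show cfn 33 9 8 = 0 from by decide +kernel,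 show cfn 33 10 8 = 0 from by decide +kernel, show cfn 33 11 8 = 0 from by decide +kernel, show cfn 33 12 8 = 0 from by decide +kernel, show cfn 33 13 8 = 0 from by decide +kernel, show cfn 33 14 8 = 0 from by decide +kernel, show cfn 33 15 8 = 0 from by decide +kernel, show cfn 33 16 8 = 0 from by decide +kernel, Nat.cast_ofNat, Nat.cast_one, Nat.cast_zero]
  ring

theorem c33_9 (γ : ℕ → ℝ) : ∑ i ∈ range (33 / 2 + 1), γ i * (cfn 33 i 9 : ℝ) =
    (19746355200) * γ 0 + (2356099200) * γ 1 + (264382560) * γ 2 + (27560520) * γ 3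
       + (2625010) * γ 4 + (223105) * γ 5 + (16330) * γ 6 + (971) * γ 7 + (42) * γ 8 + (1) * γ 9
       + (0) * γ 10 + (0) * γ 11 + (0) * γ 12 + (0) * γ 13 + (0) * γ 14 + (0) * γ 15 + (0) * γ 16 := by
  have h : ((33 / 2 + 1 : ℕ)) = 17 := rfl
  rw [h]
  simp only [sum_range_succ, sum_range_zero, show cfn 33 0 9 = 19746355200 from by decide +kernel, show cfn 33 1 9 = 2356099200 from by decide +kernel, show cfn 33 2 9 = 264382560 from by decide +kernel, show cfn 33 3 9 = 27560520 from by decide +kernel, show cfn 33 4 9 = 2625010 from by decide +kernel, show cfn 33 5 9 = 223105 from by decide +kernel, show cfn 33 6 9 = 16330 from by decide +kernel, show cfn 33 7 9 = 971 from by decide +kernel, show cfn 33 8 9 = 42 from by decide +kernel, show cfn 33 9 9 = 1 from by decide +kernel, show cfn 33 10 9 = 0 from by decide +kernel, show cfn 33 11 9 = 0 from by decide +kernel, show cfn 33 12 9 = 0 from by decide +kernel, show cfn 33 13 9 = 0 from by decide +kernel,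 show cfn 33 14 9 = 0 from by decide +kernel, show cfn 33 15 9 = 0 from by decide +kernel, show cfn 33 16 9 = 0 from by decide +kernel, Nat.cast_ofNat, Nat.cast_one, Nat.cast_zero]
  ring

theorem c33_10 (γ : ℕ → ℝ) : ∑ i ∈ range (33 / 2 + 1), γ i * (cfn 33 i 10 : ℝ) =
    (94782504960) * γ 0 + (12341472000) * γ 1 + (1528750080) * γ 2 + (178532640) * γ 3
       + (19424240) * γ 4 + (1937199) * γ 5 + (173055) * γ 6 + (13373) * γ 7 + (844) * γ 8
       + (39) * γ 9 + (1) * γ 10 + (0) * γ 11 + (0) * γ 12 + (0) * γ 13 + (0) * γ 14 + (0) * γ 15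
       + (0) * γ 16 := by
  have h : ((33 / 2 + 1 : ℕ)) = 17 := rfl
  rw [h]
  simp only [sum_range_succ, sum_range_zero, show cfn 33 0 10 = 94782504960 from by decide +kernel, show cfn 33 1 10 = 12341472000 from by decide +kernel, show cfn 33 2 10 = 1528750080 from by decide +kernel, show cfn 33 3 10 = 178532640 from by decide +kernel, show cfn 33 4 10 = 19424240 from by decide +kernel, show cfn 33 5 10 = 1937199 from by decide +kernel, show cfn 33 6 10 = 173055 from by decide +kernel, show cfn 33 7 10 = 13373 from by decide +kernel, show cfn 33 8 10 = 844 from by decide +kernel, show cfn 33 9 10 = 39 from by decide +kernel, show cfn 33 10 10 = 1 from by decide +kernel, show cfn 33 11 10 = 0 from by decide +kernel, show cfn 33 12 10 = 0 from by decide +kernel, show cfn 33 13 10 = 0 from by decide +kernel, show cfn 33 14 10 = 0 from by decide +kernel, show cfn 33 15 10 = 0 from by decide +kernel, show cfn 33 16 10 = 0 from by decide +kernel, Nat.cast_ofNat,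 Nat.cast_one, Nat.cast_zero]
  ring

theorem c33_11 (γ : ℕ → ℝ) : ∑ i ∈ range (33 / 2 + 1), γ i * (cfn 33 i 11 : ℝ) =
    (396363202560) * γ 0 + (55738575360) * γ 1 + (7525040640) * γ 2 + (968760000) * γ 3
       + (117896160) * γ 4 + (13408034) * γ 5 + (1402764) * γ 6 + (132009) * γ 7 + (10800) * γ 8
       + (726) * γ 9 + (36) * γ 10 + (1) * γ 11 + (0) * γ 12 + (0) * γ 13 + (0) * γ 14 + (0) * γ 15
       + (0) * γ 16 := by
  have h : ((33 / 2 + 1 : ℕ)) = 17 := rfl
  rw [h]
  simp only [sum_range_succ, sum_range_zero, show cfn 33 0 11 = 396363202560 from by decide +kernel, show cfn 33 1 11 = 55738575360 from by decide +kernel, show cfn 33 2 11 = 7525040640 from by decide +kernel, show cfn 33 3 11 = 968760000 from by decide +kernel, show cfn 33 4 11 = 117896160 from by decide +kernel, show cfn 33 5 11 = 13408034 from by decide +kernel, show cfn 33 6 11 = 1402764 from by decide +kernel, show cfn 33 7 11 = 132009 from by decide +kernel, show cfn 33 8 11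 = 10800 from by decide +kernel, show cfn 33 9 11 = 726 from by decide +kernel, show cfn 33 10 11 = 36 from by decide +kernel, show cfn 33 11 11 = 1 from by decide +kernel, show cfn 33 12 11 = 0 from by decide +kernel, show cfn 33 13 11 = 0 from by decide +kernel, show cfn 33 14 11 = 0 from by decide +kernel, show cfn 33 15 11 = 0 from by decide +kernel, show cfn 33 16 11 = 0 from by decide +kernel, Nat.cast_ofNat, Nat.cast_one, Nat.cast_zero]
  ring

theorem c33_12 (γ : ℕ → ℝ) : ∑ i ∈ range (33 / 2 + 1), γ i * (cfn 33 i 12 : ℝ) =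
    (1453331742720) * γ 0 + (218825518080) * γ 1 + (31864884480) * γ 2 + (4464620160) * γ 3
       + (598011040) * γ 4 + (75939468) * γ 5 + (9041957) * γ 6 + (994291) * γ 7 + (98806) * γ 8
       + (8584) * γ 9 + (617) * γ 10 + (33) * γ 11 + (1) * γ 12 + (0) * γ 13 + (0) * γ 14
       + (0) * γ 15 + (0) * γ 16 := by
  have h : ((33 / 2 + 1 : ℕ)) = 17 := rfl
  rw [h]
  simp only [sum_range_succ, sum_range_zero, show cfn 33 0 12 = 1453331742720 from by decide +kernel, show cfn 33 1 12 = 218825518080 from by decide +kernel, show cfn 33 2 12 = 31864884480 from by decide +kernel, show cfn 33 3 12 = 4464620160 from by decide +kernel, show cfn 33 4 12 = 598011040 from by decide +kernel, show cfn 33 5 12 = 75939468 from by decide +kernel, show cfn 33 6 12 = 9041957 from by decide +kernel, show cfn 33 7 12 = 994291 from by decide +kernel, show cfn 33 8 12 = 98806 from by decide +kernel, show cfn 33 9 12 = 8584 from by decide +kernel, show cfn 33 10 12 = 617 from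 by decide +kernel, show cfn 33 11 12 = 33 from by decide +kernel, show cfn 33 12 12 = 1 from by decide +kernel, show cfn 33 13 12 = 0 from by decide +kernel, show cfn 33 14 12 = 0 from by decide +kernel, show cfn 33 15 12 = 0 from by decide +kernel, show cfn 33 16 12 = 0 from by decide +kernel, Nat.cast_ofNat, Nat.cast_one, Nat.cast_zero]
  ring

theorem c33_13 (γ : ℕ → ℝ) : ∑ i ∈ range (33 / 2 + 1), γ i * (cfn 33 i 13 : ℝ) =
    (4695379476480) * γ 0 + (751438571520) * γ 1 + (117004392960) * γ 2 + (17656404480) * γ 3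
       + (2569751360) * γ 4 + (358517192) * γ 5 + (47568618) * γ 6 + (5939521) * γ 7
       + (687876) * γ 8 + (72366) * γ 9 + (6698) * γ 10 + (517) * γ 11 + (30) * γ 12 + (1) * γ 13
       + (0) * γ 14 + (0) * γ 15 + (0) * γ 16 := by
  have h : ((33 / 2 + 1 : ℕ)) = 17 := rfl
  rw [h]
  simp only [sum_range_succ, sum_range_zero, show cfn 33 0 13 = 4695379476480 from by decide +kernel, show cfn 33 1 13 = 751438571520 from by decide +kernel, show cfn 33 2 13 = 117004392960 from by decide +kernel, show cfn 33 3 13 = 17656404480 from by decide +kernel, show cfn 33 4 13 = 2569751360 from by decide +kernel, show cfn 33 5 13 = 358517192 from by decide +kernel, show cfn 33 6 13 = 47568618 from by decide +kernel, show cfn 33 7 13 = 5939521 from by decide +kernel, show cfn 33 8 13 = 687876 from by decide +kernel, show cfn 33 9 13 = 72366 from by decide +kernel, show cfn 33 10 13 = 6698 from by decide +kernel, show cfn 33 11 13 = 517 from by decide +kernel, show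 cfn 33 12 13 = 30 from by decide +kernel, show cfn 33 13 13 = 1 from by decide +kernel, show cfn 33 14 13 = 0 from by decide +kernel, show cfn 33 15 13 = 0 from by decide +kernel, show cfn 33 16 13 = 0 from by decide +kernel, Nat.cast_ofNat, Nat.cast_one, Nat.cast_zero]
  ring

theorem c33_14 (γ : ℕ → ℝ) : ∑ i ∈ range (33 / 2 + 1), γ i * (cfn 33 i 14 : ℝ) =
    (13415369932800) * γ 0 + (2267654860800) * γ 1 + (374786979840) * γ 2 + (60385178880) * γ 3
       + (9449975040) * γ 4 + (1429935760) * γ 5 + (208014360) * γ 6 + (28875327) * γ 7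
       + (3787084) * γ 8 + (462882) * γ 9 + (51690) * γ 10 + (5115) * γ 11 + (426) * γ 12
       + (27) * γ 13 + (1) * γ 14 + (0) * γ 15 + (0) * γ 16 := by
  have h : ((33 / 2 + 1 : ℕ)) = 17 := rfl
  rw [h]
  simp only [sum_range_succ, sum_range_zero, show cfn 33 0 14 = 13415369932800 from by decide +kernel, show cfn 33 1 14 = 2267654860800 from by decide +kernel, show cfn 33 2 14 = 374786979840 from by decide +kernel, show cfn 33 3 14 = 60385178880 from by decide +kernel, show cfn 33 4 14 = 9449975040 from by decide +kernel, show cfn 33 5 14 = 1429935760 from by decide +kernel, show cfn 33 6 14 = 208014360 from by decide +kernel, show cfn 33 7 14 = 28875327 from by decide +kernel, show cfn 33 8 14 = 3787084 from by decide +kernel, show cfn 33 9 14 = 462882 from by decide +kernel, show cfn 33 10 14 = 51690 from by decide +kernel, show cfn 33 11 14 = 5115 from by decide +kernel, show cfn 33 12 14 = 426 from by decide +kernel, show cfn 33 13 14 = 27 from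 by decide +kernel, show cfn 33 14 14 = 1 from by decide +kernel, show cfn 33 15 14 = 0 from by decide +kernel, show cfn 33 16 14 = 0 from by decide +kernel, Nat.cast_ofNat, Nat.cast_one, Nat.cast_zero]
  ring

theorem c33_15 (γ : ℕ → ℝ) : ∑ i ∈ range (33 / 2 + 1), γ i * (cfn 33 i 15 : ℝ) =
    (33985603829760) * γ 0 + (6034375680000) * γ 1 + (1051927941120) * γ 2 + (179625039360) * γ 3
       + (29962677760) * γ 4 + (4865914592) * γ 5 + (766121040) * γ 6 + (116323586) * γ 7
       + (16915008) * γ 8 + (2333968) * γ 9 + (301696) * γ 10 + (35860) * γ 11 + (3808) * γ 12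
       + (344) * γ 13 + (24) * γ 14 + (1) * γ 15 + (0) * γ 16 := by
  have h : ((33 / 2 + 1 : ℕ)) = 17 := rfl
  rw [h]
  simp only [sum_range_succ, sum_range_zero, show cfn 33 0 15 = 33985603829760 from by decide +kernel, show cfn 33 1 15 = 6034375680000 from by decide +kernel, show cfn 33 2 15 = 1051927941120 from by decide +kernel, show cfn 33 3 15 = 179625039360 from by decide +kernel, show cfn 33 4 15 = 29962677760 from by decide +kernel, show cfn 33 5 15 = 4865914592 from by decide +kernel, show cfn 33 6 15 = 766121040 from by decide +kernel, show cfn 33 7 15 = 116323586 from by decide +kernel, show cfn 33 8 15 = 16915008 from by decide +kernel, show cfn 33 9 15 = 2333968 from by decide +kernel, show cfn 33 10 15 = 301696 from by decide +kernel, show cfn 33 11 15 = 35860 from by decide +kernel, show cfn 33 12 15 = 3808 from by decide +kernel, show cfn 33 13 15 = 344 from by decide +kernel, show cfn 33 14 15 = 24 from by decide +kernel, show cfn 33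 15 15 = 1 from by decide +kernel, show cfn 33 16 15 = 0 from by decide +kernel, Nat.cast_ofNat, Nat.cast_one, Nat.cast_zero]
  ring

theorem c33_16 (γ : ℕ → ℝ) : ∑ i ∈ range (33 / 2 + 1), γ i * (cfn 33 i 16 : ℝ) =
    (76467608616960) * γ 0 + (14192851599360) * γ 1 + (2595170856960) * γ 2
       + (466674048000) * γ 3 + (82359607040) * γ 4 + (14229251392) * γ 5 + (2399308752) * γ 6
       + (393339748) * γ 7 + (62390545) * γ 8 + (9514692) * γ 9 + (1383306) * γ 10
       + (189486) * γ 11 + (24039) * γ 12 + (2750) * γ 13 + (271) * γ 14 + (21) * γ 15 + (1) * γ 16 := by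
  have h : ((33 / 2 + 1 : ℕ)) = 17 := rfl
  rw [h]
  simp only [sum_range_succ, sum_range_zero, show cfn 33 0 16 = 76467608616960 from by decide +kernel, show cfn 33 1 16 = 14192851599360 from by decide +kernel, show cfn 33 2 16 = 2595170856960 from by decide +kernel, show cfn 33 3 16 = 466674048000 from by decide +kernel, show cfn 33 4 16 = 82359607040 from by decide +kernel, show cfn 33 5 16 = 14229251392 from by decide +kernel, show cfn 33 6 16 = 2399308752 from by decide +kernel, show cfn 33 7 16 = 393339748 from by decide +kernel, show cfn 33 8 16 = 62390545 from by decide +kernel, show cfn 33 9 16 = 9514692 from by decide +kernel, show cfn 33 10 16 = 1383306 from by decide +kernel, show cfn 33 11 16 = 189486 from by decide +kernel, show cfn 33 12 16 = 24039 from by decide +kernel, show cfn 33 13 16 = 2750 from by decide +kernel, show cfn 33 14 16 = 271 from by decide +kernel, show cfn 33 15 16 = 21 from by decide +kernel, show cfn 33 16 16 = 1 from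 by decide +kernel, Nat.cast_ofNat, Nat.cast_one, Nat.cast_zero]
  ring

theorem c33_17 (γ : ℕ → ℝ) : ∑ i ∈ range (33 / 2 + 1), γ i * (cfn 33 i 17 : ℝ) =
    (152935217233920) * γ 0 + (29544303329280) * γ 1 + (5638832087040) * γ 2
       + (1061902448640) * γ 3 + (197009948160) * γ 4 + (35941620864) * γ 5 + (6433446816) * γ 6
       + (1126776456) * γ 7 + (192441122) * γ 8 + (31910913) * γ 9 + (5108652) * γ 10
       + (783618) * γ 11 + (113958) * γ 12 + (15471) * γ 13 + (1914) * γ 14 + (207) * γ 15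
       + (18) * γ 16 := by
  have h : ((33 / 2 + 1 : ℕ)) = 17 := rfl
  rw [h]
  simp only [sum_range_succ, sum_range_zero, show cfn 33 0 17 = 152935217233920 from by decide +kernel, show cfn 33 1 17 = 29544303329280 from by decide +kernel, show cfn 33 2 17 = 5638832087040 from by decide +kernel, show cfn 33 3 17 = 1061902448640 from by decide +kernel, show cfn 33 4 17 = 197009948160 from by decide +kernel, show cfn 33 5 17 = 35941620864 from by decide +kernel, show cfn 33 6 17 = 6433446816 from by decide +kernel, show cfn 33 7 17 = 1126776456 from by decide +kernel, show cfn 33 8 17 = 192441122 from by decide +kernel, show cfn 33 9 17 = 31910913 from by decide +kernel, show cfn 33 10 17 = 5108652 from by decide +kernel, show cfn 33 11 17 = 783618 from by decide +kernel, show cfn 33 12 17 = 113958 from by decide +kernel, show cfn 33 13 17 = 15471 from by decide +kernel, show cfn 33 14 17 = 1914 from by decide +kernel, show cfn 33 15 17 = 207 from by decide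 +kernel, show cfn 33 16 17 = 18 from by decide +kernel, Nat.cast_ofNat, Nat.cast_one, Nat.cast_zero]
  ring

theorem c33_18 (γ : ℕ → ℝ) : ∑ i ∈ range (33 / 2 + 1), γ i * (cfn 33 i 18 : ℝ) =
    (271884830638080) * γ 0 + (54454206136320) * γ 1 + (10801143152640) * γ 2
       + (2119696957440) * γ 3 + (411098275840) * γ 4 + (78686066176) * γ 5 + (14839849984) * γ 6
       + (2752290752) * γ 7 + (500789536) * γ 8 + (89129247) * γ 9 + (15457773) * γ 10
       + (2599542) * γ 11 + (421116) * γ 12 + (65113) * γ 13 + (9481) * γ 14 + (1273) * γ 15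
       + (152) * γ 16 := by
  have h : ((33 / 2 + 1 : ℕ)) = 17 := rfl
  rw [h]
  simp only [sum_range_succ, sum_range_zero, show cfn 33 0 18 = 271884830638080 from by decide +kernel, show cfn 33 1 18 = 54454206136320 from by decide +kernel, show cfn 33 2 18 = 10801143152640 from by decide +kernel, show cfn 33 3 18 = 2119696957440 from by decide +kernel, show cfn 33 4 18 = 411098275840 from by decide +kernel, show cfn 33 5 18 = 78686066176 from by decide +kernel, show cfn 33 6 18 = 14839849984 from by decide +kernel, show cfn 33 7 18 = 2752290752 from by decide +kernel, show cfn 33 8 18 = 500789536 from by decide +kernel, show cfn 33 9 18 = 89129247 from by decide +kernel, show cfn 33 10 18 = 15457773 from by decide +kernel, show cfn 33 11 18 = 2599542 from by decide +kernel, show cfn 33 12 18 = 421116 from by decide +kernel, show cfn 33 13 18 = 65113 from by decide +kernel, show cfn 33 14 18 = 9481 from by decide +kernel, show cfn 33 15 18 = 1273 from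 by decide +kernel, show cfn 33 16 18 = 152 from by decide +kernel, Nat.cast_ofNat, Nat.cast_one, Nat.cast_zero]
  ring

theorem c33_19 (γ : ℕ → ℝ) : ∑ i ∈ range (33 / 2 + 1), γ i * (cfn 33 i 19 : ℝ) =
    (429291837849600) * γ 0 + (88826010009600) * γ 1 + (18238608506880) * γ 2
       + (3713577615360) * γ 3 + (749166510080) * γ 4 + (149597475840) * γ 5 + (29534499840) * γ 6
       + (5757027968) * γ 7 + (1106144576) * γ 8 + (209070018) * γ 9 + (38774460) * γ 10
       + (7033785) * γ 11 + (1242864) * γ 12 + (212738) * γ 13 + (35004) * γ 14 + (5475) * γ 15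
       + (800) * γ 16 := by
  have h : ((33 / 2 + 1 : ℕ)) = 17 := rfl
  rw [h]
  simp only [sum_range_succ, sum_range_zero, show cfn 33 0 19 = 429291837849600 from by decide +kernel, show cfn 33 1 19 = 88826010009600 from by decide +kernel, show cfn 33 2 19 = 18238608506880 from by decide +kernel, show cfn 33 3 19 = 3713577615360 from by decide +kernel, show cfn 33 4 19 = 749166510080 from by decide +kernel, show cfn 33 5 19 = 149597475840 from by decide +kernel, show cfn 33 6 19 = 29534499840 from by decide +kernel, show cfn 33 7 19 = 5757027968 from by decide +kernel, show cfn 33 8 19 = 1106144576 from by decide +kernel, show cfn 33 9 19 = 209070018 from by decide +kernel, show cfn 33 10 19 = 38774460 from by decide +kernel, show cfn 33 11 19 = 7033785 from by decide +kernel, show cfn 33 12 19 = 1242864 from by decide +kernel, show cfn 33 13 19 = 212738 from by decide +kernel, show cfn 33 14 19 = 35004 from by decide +kernel, show cfn 33 15 19 = 5475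 from by decide +kernel, show cfn 33 16 19 = 800 from by decide +kernel, Nat.cast_ofNat, Nat.cast_one, Nat.cast_zero]
  ring

theorem c33_20 (γ : ℕ → ℝ) : ∑ i ∈ range (33 / 2 + 1), γ i * (cfn 33 i 20 : ℝ) =
    (601008572989440) * γ 0 + (128055803904000) * γ 1 + (27121209507840) * γ 2
       + (5706653368320) * γ 3 + (1192215429120) * γ 4 + (247130617856) * γ 5 + (50786142720) * γ 6
       + (10337074944) * γ 7 + (2081582272) * γ 8 + (414137052) * γ 9 + (81270333) * γ 10
       + (15698925) * γ 11 + (2977407) * γ 12 + (552576) * γ 13 + (99911) * γ 14 + (17493) * γ 15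
       + (2940) * γ 16 := by
  have h : ((33 / 2 + 1 : ℕ)) = 17 := rfl
  rw [h]
  simp only [sum_range_succ, sum_range_zero, show cfn 33 0 20 = 601008572989440 from by decide +kernel, show cfn 33 1 20 = 128055803904000 from by decide +kernel, show cfn 33 2 20 = 27121209507840 from by decide +kernel, show cfn 33 3 20 = 5706653368320 from by decide +kernel, show cfn 33 4 20 = 1192215429120 from by decide +kernel, show cfn 33 5 20 = 247130617856 from by decide +kernel, show cfn 33 6 20 = 50786142720 from by decide +kernel, show cfn 33 7 20 = 10337074944 from by decide +kernel, show cfn 33 8 20 = 2081582272 from by decide +kernel, show cfn 33 9 20 = 414137052 from by decide +kernel, show cfn 33 10 20 = 81270333 from by decide +kernel, show cfn 33 11 20 = 15698925 from by decide +kernel, show cfn 33 12 20 = 2977407 from by decide +kernel, show cfn 33 13 20 = 552576 from by decide +kernel, show cfn 33 14 20 = 99911 from by decide +kernel, show cfn 33 15 20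 = 17493 from by decide +kernel, show cfn 33 16 20 = 2940 from by decide +kernel, Nat.cast_ofNat, Nat.cast_one, Nat.cast_zero]
  ring

theorem c33_21 (γ : ℕ → ℝ) : ∑ i ∈ range (33 / 2 + 1), γ i * (cfn 33 i 21 : ℝ) =
    (744105852272640) * γ 0 + (162773155184640) * γ 1 + (35442541854720) * γ 2
       + (7678894080000) * γ 3 + (1654703226880) * γ 4 + (354469564416) * γ 5 + (75445523456) * γ 6
       + (15944230912) * γ 7 + (3343195520) * γ 8 + (694898568) * γ 9 + (143027898) * γ 10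
       + (29113953) * γ 11 + (5851626) * γ 12 + (1159015) * γ 13 + (225654) * γ 14 + (43043) * γ 15
       + (8008) * γ 16 := by
  have h : ((33 / 2 + 1 : ℕ)) = 17 := rfl
  rw [h]
  simp only [sum_range_succ, sum_range_zero, show cfn 33 0 21 = 744105852272640 from by decide +kernel, show cfn 33 1 21 = 162773155184640 from by decide +kernel, show cfn 33 2 21 = 35442541854720 from by decide +kernel, show cfn 33 3 21 = 7678894080000 from by decide +kernel, show cfn 33 4 21 = 1654703226880 from by decide +kernel, show cfn 33 5 21 = 354469564416 from by decide +kernel, show cfn 33 6 21 = 75445523456 from by decide +kernel, show cfn 33 7 21 = 15944230912 from by decide +kernel, show cfn 33 8 21 = 3343195520 from by decide +kernel, show cfn 33 9 21 = 694898568 from by decide +kernel, show cfn 33 10 21 = 143027898 from by decide +kernel, show cfn 33 11 21 = 29113953 from by decide +kernel, show cfn 33 12 21 = 5851626 from by decide +kernel, show cfn 33 13 21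 = 1159015 from by decide +kernel, show cfn 33 14 21 = 225654 from by decide +kernel, show cfn 33 15 21 = 43043 from by decide +kernel, show cfn 33 16 21 = 8008 from by decide +kernel, Nat.cast_ofNat, Nat.cast_one, Nat.cast_zero]
  ring

theorem c33_22 (γ : ℕ → ℝ) : ∑ i ∈ range (33 / 2 + 1), γ i * (cfn 33 i 22 : ℝ) =
    (811751838842880) * γ 0 + (181798588907520) * γ 1 + (40573953638400) * γ 2
       + (9021561569280) * γ 3 + (1997872824320) * γ 4 + (440517926912) * γ 5 + (96673517568) * γ 6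
       + (21106442752) * γ 7 + (4582194688) * γ 8 + (988635312) * γ 9 + (211842696) * γ 10
       + (45046719) * γ 11 + (9496746) * γ 12 + (1982669) * γ 13 + (409331) * γ 14 + (83421) * γ 15
       + (16744) * γ 16 := by
  have h : ((33 / 2 + 1 : ℕ)) = 17 := rfl
  rw [h]
  simp only [sum_range_succ, sum_range_zero, show cfn 33 0 22 = 811751838842880 from by decide +kernel, show cfn 33 1 22 = 181798588907520 from by decide +kernel, show cfn 33 2 22 = 40573953638400 from by decide +kernel, show cfn 33 3 22 = 9021561569280 from by decide +kernel, show cfn 33 4 22 = 1997872824320 from by decide +kernel, show cfn 33 5 22 = 440517926912 from by decide +kernel, show cfn 33 6 22 = 96673517568 from by decide +kernel, show cfn 33 7 22 = 21106442752 from by decide +kernel, show cfn 33 8 22 = 4582194688 from by decide +kernel, show cfn 33 9 22 = 988635312 from by decide +kernel, show cfn 33 10 22 = 211842696 from by decide +kernel, show cfn 33 11 22 = 45046719 from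 by decide +kernel, show cfn 33 12 22 = 9496746 from by decide +kernel, show cfn 33 13 22 = 1982669 from by decide +kernel, show cfn 33 14 22 = 409331 from by decide +kernel, show cfn 33 15 22 = 83421 from by decide +kernel, show cfn 33 16 22 = 16744 from by decide +kernel, Nat.cast_ofNat, Nat.cast_one, Nat.cast_zero]
  ring

theorem c33_23 (γ : ℕ → ℝ) : ∑ i ∈ range (33 / 2 + 1), γ i * (cfn 33 i 23 : ℝ) =
    (776458280632320) * γ 0 + (177570714746880) * γ 1 + (40505762119680) * γ 2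
       + (9214672896000) * γ 3 + (2090151444480) * γ 4 + (472626085888) * γ 5
       + (106511327232) * γ 6 + (23916346368) * γ 7 + (5349112832) * γ 8 + (1191254688) * γ 9
       + (264051504) * γ 10 + (58227906) * γ 11 + (12767184) * γ 12 + (2781636) * γ 13
       + (601744) * γ 14 + (129129) * γ 15 + (27456) * γ 16 := by
  have h : ((33 / 2 + 1 : ℕ)) = 17 := rfl
  rw [h]
  simp only [sum_range_succ, sum_range_zero, show cfn 33 0 23 = 776458280632320 from by decide +kernel, show cfn 33 1 23 = 177570714746880 from by decide +kernel, show cfn 33 2 23 = 40505762119680 from by decide +kernel, show cfn 33 3 23 = 9214672896000 from by decide +kernel, show cfn 33 4 23 = 2090151444480 from by decide +kernel, show cfn 33 5 23 = 472626085888 from by decide +kernel, show cfn 33 6 23 = 106511327232 from by decide +kernel, show cfn 33 7 23 = 23916346368 from by decide +kernel, show cfn 33 8 23 = 5349112832 from by decide +kernel, show cfn 33 9 23 = 1191254688 from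 by decide +kernel, show cfn 33 10 23 = 264051504 from by decide +kernel, show cfn 33 11 23 = 58227906 from by decide +kernel, show cfn 33 12 23 = 12767184 from by decide +kernel, show cfn 33 13 23 = 2781636 from by decide +kernel, show cfn 33 14 23 = 601744 from by decide +kernel, show cfn 33 15 23 = 129129 from by decide +kernel, show cfn 33 16 23 = 27456 from by decide +kernel, Nat.cast_ofNat, Nat.cast_one, Nat.cast_zero]
  ring

theorem c33_24 (γ : ℕ → ℝ) : ∑ i ∈ range (33 / 2 + 1), γ i * (cfn 33 i 24 : ℝ) =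
    (647048567193600) * γ 0 + (150732904857600) * γ 1 + (35050440622080) * γ 2
       + (8134777896960) * γ 3 + (1884137390080) * γ 4 + (435448217600) * γ 5
       + (100404633600) * γ 6 + (23093688320) * γ 7 + (5297559040) * γ 8 + (1211747520) * γ 9
       + (276313200) * γ 10 + (62795700) * γ 11 + (14218905) * γ 12 + (3206710) * γ 13
       + (720005) * γ 14 + (160875) * γ 15 + (35750) * γ 16 := by
  have h : ((33 / 2 + 1 : ℕ)) = 17 := rfl
  rw [h]
  simp only [sum_range_succ, sum_range_zero, show cfn 33 0 24 = 647048567193600 from by decide +kernel, show cfn 33 1 24 = 150732904857600 from by decide +kernel, show cfn 33 2 24 = 35050440622080 from by decide +kernel, show cfn 33 3 24 = 8134777896960 from by decide +kernel, show cfn 33 4 24 = 1884137390080 from by decide +kernel, show cfn 33 5 24 = 435448217600 from by decide +kernel, show cfn 33 6 24 = 100404633600 from by decide +kernel, show cfn 33 7 24 = 23093688320 from by decide +kernel, show cfn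 33 8 24 = 5297559040 from by decide +kernel, show cfn 33 9 24 = 1211747520 from by decide +kernel, show cfn 33 10 24 = 276313200 from by decide +kernel, show cfn 33 11 24 = 62795700 from by decide +kernel, show cfn 33 12 24 = 14218905 from by decide +kernel, show cfn 33 13 24 = 3206710 from by decide +kernel, show cfn 33 14 24 = 720005 from by decide +kernel, show cfn 33 15 24 = 160875 from by decide +kernel, show cfn 33 16 24 = 35750 from by decide +kernel, Nat.cast_ofNat, Nat.cast_one, Nat.cast_zero]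
  ring

theorem c33_25 (γ : ℕ → ℝ) : ∑ i ∈ range (33 / 2 + 1), γ i * (cfn 33 i 25 : ℝ) =
    (465874968379392) * γ 0 + (110292369408000) * γ 1 + (26078808637440) * γ 2
       + (6158399569920) * γ 3 + (1452295454720) * γ 4 + (341991620608) * γ 5 + (80410460160) * γ 6
       + (18875822080) * γ 7 + (4423347200) * γ 8 + (1034663040) * γ 9 + (241543392) * γ 10
       + (56270280) * γ 11 + (13079250) * γ 12 + (3032705) * γ 13 + (701350) * γ 14
       + (161733) * γ 15 + (37180) * γ 16 := by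
  have h : ((33 / 2 + 1 : ℕ)) = 17 := rfl
  rw [h]
  simp only [sum_range_succ, sum_range_zero, show cfn 33 0 25 = 465874968379392 from by decide +kernel, show cfn 33 1 25 = 110292369408000 from by decide +kernel, show cfn 33 2 25 = 26078808637440 from by decide +kernel, show cfn 33 3 25 = 6158399569920 from by decide +kernel, show cfn 33 4 25 = 1452295454720 from by decide +kernel, show cfn 33 5 25 = 341991620608 from by decide +kernel, show cfn 33 6 25 = 80410460160 from by decide +kernel, show cfn 33 7 25 = 18875822080 from by decide +kernel, show cfn 33 8 25 = 4423347200 from by decide +kernel, show cfn 33 9 25 = 1034663040 from by decide +kernel, show cfn 33 10 25 = 241543392 from by decide +kernel, show cfn 33 11 25 = 56270280 from by decide +kernel, show cfn 33 12 25 = 13079250 from by decide +kernel, show cfn 33 13 25 = 3032705 from by decide +kernel, show cfn 33 14 25 = 701350 from by decide +kernel, show cfn 33 15 25 = 161733 from by decide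 +kernel, show cfn 33 16 25 = 37180 from by decide +kernel, Nat.cast_ofNat, Nat.cast_one, Nat.cast_zero]
  ring

theorem c33_26 (γ : ℕ → ℝ) : ∑ i ∈ range (33 / 2 + 1), γ i * (cfn 33 i 26 : ℝ) =
    (286692288233472) * γ 0 + (68822438510592) * γ 1 + (16508277227520) * γ 2
       + (3956539392000) * γ 3 + (947446087680) * γ 4 + (226673491968) * γ 5 + (54179463168) * γ 6
       + (12937052160) * γ 7 + (3085885440) * γ 8 + (735264000) * γ 9 + (174984192) * γ 10
       + (41592672) * γ 11 + (9873360) * γ 12 + (2340495) * γ 13 + (553995) * γ 14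
       + (130923) * γ 15 + (30888) * γ 16 := by
  have h : ((33 / 2 + 1 : ℕ)) = 17 := rfl
  rw [h]
  simp only [sum_range_succ, sum_range_zero, show cfn 33 0 26 = 286692288233472 from by decide +kernel, show cfn 33 1 26 = 68822438510592 from by decide +kernel, show cfn 33 2 26 = 16508277227520 from by decide +kernel, show cfn 33 3 26 = 3956539392000 from by decide +kernel, show cfn 33 4 26 = 947446087680 from by decide +kernel, show cfn 33 5 26 = 226673491968 from by decide +kernel, show cfn 33 6 26 = 54179463168 from by decide +kernel, show cfn 33 7 26 = 12937052160 from by decide +kernel, show cfn 33 8 26 = 3085885440 from by decide +kernel, show cfn 33 9 26 = 735264000 from by decide +kernel, show cfn 33 10 26 = 174984192 from by decide +kernel, show cfn 33 11 26 = 41592672 from by decide +kernel, show cfn 33 12 26 = 9873360 from by decide +kernel, show cfn 33 13 26 = 2340495 from by decide +kernel, show cfn 33 14 26 = 553995 from by decide +kernel,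 show cfn 33 15 26 = 130923 from by decide +kernel, show cfn 33 16 26 = 30888 from by decide +kernel, Nat.cast_ofNat, Nat.cast_one, Nat.cast_zero]
  ring

theorem c33_27 (γ : ℕ → ℝ) : ∑ i ∈ range (33 / 2 + 1), γ i * (cfn 33 i 27 : ℝ) =
    (148655260565504) * γ 0 + (36108024938496) * γ 1 + (8766464458752) * γ 2
       + (2127330017280) * γ 3 + (515972792320) * γ 4 + (125081092096) * γ 5 + (30305419264) * γ 6
       + (7338426368) * γ 7 + (1775943680) * γ 8 + (429524480) * γ 9 + (103816704) * γ 10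
       + (25075776) * γ 11 + (6052512) * γ 12 + (1459810) * γ 13 + (351820) * γ 14 + (84721) * γ 15
       + (20384) * γ 16 := by
  have h : ((33 / 2 + 1 : ℕ)) = 17 := rfl
  rw [h]
  simp only [sum_range_succ, sum_range_zero, show cfn 33 0 27 = 148655260565504 from by decide +kernel, show cfn 33 1 27 = 36108024938496 from by decide +kernel, show cfn 33 2 27 = 8766464458752 from by decide +kernel, show cfn 33 3 27 = 2127330017280 from by decide +kernel, show cfn 33 4 27 = 515972792320 from by decide +kernel, show cfn 33 5 27 = 125081092096 from by decide +kernel, show cfn 33 6 27 = 30305419264 from by decide +kernel, show cfn 33 7 27 = 7338426368 from by decide +kernel, show cfn 33 8 27 = 1775943680 from by decide +kernel, show cfn 33 9 27 = 429524480 from by decide +kernel, show cfn 33 10 27 = 103816704 from by decide +kernel, show cfn 33 11 27 = 25075776 from by decide +kernel, show cfn 33 12 27 = 6052512 from by decide +kernel, show cfn 33 13 27 = 1459810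 from by decide +kernel, show cfn 33 14 27 = 351820 from by decide +kernel, show cfn 33 15 27 = 84721 from by decide +kernel, show cfn 33 16 27 = 20384 from by decide +kernel, Nat.cast_ofNat, Nat.cast_one, Nat.cast_zero]
  ring

theorem c33_28 (γ : ℕ → ℝ) : ∑ i ∈ range (33 / 2 + 1), γ i * (cfn 33 i 28 : ℝ) =
    (63709397385216) * γ 0 + (15625695002624) * γ 1 + (3831496704000) * γ 2
       + (939264049152) * γ 3 + (230193889280) * γ 4 + (56400543744) * γ 5 + (13815054336) * γ 6
       + (3382968320) * γ 7 + (828162048) * γ 8 + (202675200) * γ 9 + (49584896) * γ 10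
       + (12127104) * γ 11 + (2964960) * γ 12 + (724652) * γ 13 + (177045) * γ 14 + (43239) * γ 15
       + (10556) * γ 16 := by
  have h : ((33 / 2 + 1 : ℕ)) = 17 := rfl
  rw [h]
  simp only [sum_range_succ, sum_range_zero, show cfn 33 0 28 = 63709397385216 from by decide +kernel, show cfn 33 1 28 = 15625695002624 from by decide +kernel, show cfn 33 2 28 = 3831496704000 from by decide +kernel, show cfn 33 3 28 = 939264049152 from by decide +kernel, show cfn 33 4 28 = 230193889280 from by decide +kernel, show cfn 33 5 28 = 56400543744 from by decide +kernel, show cfn 33 6 28 = 13815054336 from by decide +kernel, show cfn 33 7 28 = 3382968320 from by decide +kernel, show cfn 33 8 28 = 828162048 from by decide +kernel, show cfn 33 9 28 = 202675200 from by decide +kernel, show cfn 33 10 28 = 49584896 from by decide +kernel, show cfn 33 11 28 = 12127104 from by decide +kernel, show cfn 33 12 28 = 2964960 from by decide +kernel, show cfn 33 13 28 = 724652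 from by decide +kernel, show cfn 33 14 28 = 177045 from by decide +kernel, show cfn 33 15 28 = 43239 from by decide +kernel, show cfn 33 16 28 = 10556 from by decide +kernel, Nat.cast_ofNat, Nat.cast_one, Nat.cast_zero]
  ring

theorem c33_29 (γ : ℕ → ℝ) : ∑ i ∈ range (33 / 2 + 1), γ i * (cfn 33 i 29 : ℝ) =
    (21968757719040) * γ 0 + (5429778186240) * γ 1 + (1341875290112) * γ 2 + (331584897024) * γ 3
       + (81927340032) * γ 4 + (20240138240) * γ 5 + (4999741440) * γ 6 + (1234894848) * γ 7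
       + (304971776) * γ 8 + (75307008) * γ 9 + (18593280) * γ 10 + (4590080) * γ 11
       + (1132992) * γ 12 + (279624) * γ 13 + (69002) * γ 14 + (17025) * γ 15 + (4200) * γ 16 := by
  have h : ((33 / 2 + 1 : ℕ)) = 17 := rfl
  rw [h]
  simp only [sum_range_succ, sum_range_zero, show cfn 33 0 29 = 21968757719040 from by decide +kernel, show cfn 33 1 29 = 5429778186240 from by decide +kernel, show cfn 33 2 29 = 1341875290112 from by decide +kernel, show cfn 33 3 29 = 331584897024 from by decide +kernel, show cfn 33 4 29 = 81927340032 from by decide +kernel, show cfn 33 5 29 = 20240138240 from by decide +kernel, show cfn 33 6 29 = 4999741440 from by decide +kernel, show cfn 33 7 29 = 1234894848 from by decide +kernel, show cfn 33 8 29 = 304971776 from by decide +kernel, show cfn 33 9 29 = 75307008 from by decide +kernel, show cfn 33 10 29 = 18593280 from by decide +kernel, show cfn 33 11 29 = 4590080 from by decide +kernel, show cfn 33 12 29 = 1132992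 from by decide +kernel, show cfn 33 13 29 = 279624 from by decide +kernel, show cfn 33 14 29 = 69002 from by decide +kernel, show cfn 33 15 29 = 17025 from by decide +kernel, show cfn 33 16 29 = 4200 from by decide +kernel, Nat.cast_ofNat, Nat.cast_one, Nat.cast_zero]
  ring

theorem q33_0 (γ : ℕ → ℝ) (h0 : γ 0 = 1)
    (h : ∀ n < 33, 2 * (((33 : ℕ) : ℝ) - ((n : ℕ) : ℝ)) * ∑ i ∈ range (33 / 2 + 1), γ i * (cfn 33 i n : ℝ) ≤
      ((n : ℝ) + 1) * ∑ i ∈ range (33 / 2 + 1), γ i * (cfn 33 i (n + 1) : ℝ)) :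
    0 ≤ (0) * γ 0 + (1) * γ 1 + (0) * γ 2 + (0) * γ 3 + (0) * γ 4 + (0) * γ 5 + (0) * γ 6 + (0) * γ 7
       + (0) * γ 8 + (0) * γ 9 + (0) * γ 10 + (0) * γ 11 + (0) * γ 12 + (0) * γ 13 + (0) * γ 14
       + (0) * γ 15 + (0) * γ 16 := by
  have h1 := h 0 (by norm_num)
  rw [show 0 + 1 = 1 from rfl, c33_0, c33_1] at h1
  norm_num [h0] at h1 ⊢
  linarith

theorem q33_1 (γ : ℕ → ℝ) (h0 : γ 0 = 1)
    (h : ∀ n < 33, 2 * (((33 : ℕ) : ℝ) - ((n : ℕ) : ℝ)) * ∑ i ∈ range (33 / 2 + 1), γ i * (cfn 33 i n : ℝ) ≤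
      ((n : ℝ) + 1) * ∑ i ∈ range (33 / 2 + 1), γ i * (cfn 33 i (n + 1) : ℝ)) :
    0 ≤ (0) * γ 0 + (62) * γ 1 + (2) * γ 2 + (0) * γ 3 + (0) * γ 4 + (0) * γ 5 + (0) * γ 6
       + (0) * γ 7 + (0) * γ 8 + (0) * γ 9 + (0) * γ 10 + (0) * γ 11 + (0) * γ 12 + (0) * γ 13
       + (0) * γ 14 + (0) * γ 15 + (0) * γ 16 := by
  have h1 := h 1 (by norm_num)
  rw [show 1 + 1 = 2 from rfl, c33_1, c33_2] at h1
  norm_num [h0] at h1 ⊢
  linarith

theorem q33_2 (γ : ℕ → ℝ) (h0 : γ 0 = 1)
    (h : ∀ n < 33, 2 * (((33 : ℕ) : ℝ) - ((n : ℕ) : ℝ)) * ∑ i ∈ range (33 / 2 + 1), γ i * (cfn 33 i n : ℝ) ≤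
      ((n : ℝ) + 1) * ∑ i ∈ range (33 / 2 + 1), γ i * (cfn 33 i (n + 1) : ℝ)) :
    0 ≤ (0) * γ 0 + (1860) * γ 1 + (118) * γ 2 + (3) * γ 3 + (0) * γ 4 + (0) * γ 5 + (0) * γ 6
       + (0) * γ 7 + (0) * γ 8 + (0) * γ 9 + (0) * γ 10 + (0) * γ 11 + (0) * γ 12 + (0) * γ 13
       + (0) * γ 14 + (0) * γ 15 + (0) * γ 16 := by
  have h1 := h 2 (by norm_num)
  rw [show 2 + 1 = 3 from rfl, c33_2, c33_3] at h1
  norm_num [h0] at h1 ⊢
  linarith

theorem q33_3 (γ : ℕ → ℝ) (h0 : γ 0 = 1)
    (h : ∀ n < 33, 2 * (((33 : ℕ) : ℝ) - ((n : ℕ) : ℝ)) * ∑ i ∈ range (33 / 2 + 1), γ i * (cfn 33 i n : ℝ) ≤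
      ((n : ℝ) + 1) * ∑ i ∈ range (33 / 2 + 1), γ i * (cfn 33 i (n + 1) : ℝ)) :
    0 ≤ (0) * γ 0 + (35960) * γ 1 + (3364) * γ 2 + (168) * γ 3 + (4) * γ 4 + (0) * γ 5 + (0) * γ 6
       + (0) * γ 7 + (0) * γ 8 + (0) * γ 9 + (0) * γ 10 + (0) * γ 11 + (0) * γ 12 + (0) * γ 13
       + (0) * γ 14 + (0) * γ 15 + (0) * γ 16 := by
  have h1 := h 3 (by norm_num)
  rw [show 3 + 1 = 4 from rfl, c33_3, c33_4] at h1
  norm_num [h0] at h1 ⊢
  linarith

theorem q33_4 (γ : ℕ → ℝ) (h0 : γ 0 = 1)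
    (h : ∀ n < 33, 2 * (((33 : ℕ) : ℝ) - ((n : ℕ) : ℝ)) * ∑ i ∈ range (33 / 2 + 1), γ i * (cfn 33 i n : ℝ) ≤
      ((n : ℝ) + 1) * ∑ i ∈ range (33 / 2 + 1), γ i * (cfn 33 i (n + 1) : ℝ)) :
    0 ≤ (0) * γ 0 + (503440) * γ 1 + (61712) * γ 2 + (4539) * γ 3 + (212) * γ 4 + (5) * γ 5
       + (0) * γ 6 + (0) * γ 7 + (0) * γ 8 + (0) * γ 9 + (0) * γ 10 + (0) * γ 11 + (0) * γ 12
       + (0) * γ 13 + (0) * γ 14 + (0) * γ 15 + (0) * γ 16 := by
  have h1 := h 4 (by norm_num)
  rw [show 4 + 1 = 5 from rfl, c33_4, c33_5] at h1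
  norm_num [h0] at h1 ⊢
  linarith

theorem q33_5 (γ : ℕ → ℝ) (h0 : γ 0 = 1)
    (h : ∀ n < 33, 2 * (((33 : ℕ) : ℝ) - ((n : ℕ) : ℝ)) * ∑ i ∈ range (33 / 2 + 1), γ i * (cfn 33 i n : ℝ) ≤
      ((n : ℝ) + 1) * ∑ i ∈ range (33 / 2 + 1), γ i * (cfn 33 i (n + 1) : ℝ)) :
    0 ≤ (0) * γ 0 + (5437152) * γ 1 + (818496) * γ 2 + (78786) * γ 3 + (5412) * γ 4 + (250) * γ 5
       + (6) * γ 6 + (0) * γ 7 + (0) * γ 8 + (0) * γ 9 + (0) * γ 10 + (0) * γ 11 + (0) * γ 12
       + (0) * γ 13 + (0) * γ 14 + (0) * γ 15 + (0) * γ 16 := by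
  have h1 := h 5 (by norm_num)
  rw [show 5 + 1 = 6 from rfl, c33_5, c33_6] at h1
  norm_num [h0] at h1 ⊢
  linarith

theorem q33_6 (γ : ℕ → ℝ) (h0 : γ 0 = 1)
    (h : ∀ n < 33, 2 * (((33 : ℕ) : ℝ) - ((n : ℕ) : ℝ)) * ∑ i ∈ range (33 / 2 + 1), γ i * (cfn 33 i n : ℝ) ≤
      ((n : ℝ) + 1) * ∑ i ∈ range (33 / 2 + 1), γ i * (cfn 33 i (n + 1) : ℝ)) :
    0 ≤ (0) * γ 0 + (47121984) * γ 1 + (8360352) * γ 2 + (987012) * γ 3 + (88604) * γ 4
       + (6010) * γ 5 + (282) * γ 6 + (7) * γ 7 + (0) * γ 8 + (0) * γ 9 + (0) * γ 10 + (0) * γ 11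
       + (0) * γ 12 + (0) * γ 13 + (0) * γ 14 + (0) * γ 15 + (0) * γ 16 := by
  have h1 := h 6 (by norm_num)
  rw [show 6 + 1 = 7 from rfl, c33_6, c33_7] at h1
  norm_num [h0] at h1 ⊢
  linarith

theorem q33_7 (γ : ℕ → ℝ) (h0 : γ 0 = 1)
    (h : ∀ n < 33, 2 * (((33 : ℕ) : ℝ) - ((n : ℕ) : ℝ)) * ∑ i ∈ range (33 / 2 + 1), γ i * (cfn 33 i n : ℝ) ≤
      ((n : ℝ) + 1) * ∑ i ∈ range (33 / 2 + 1), γ i * (cfn 33 i (n + 1) : ℝ)) :
    0 ≤ (0) * γ 0 + (336585600) * γ 1 + (68402880) * γ 2 + (9505080) * γ 3 + (1045000) * γ 4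
       + (92480) * γ 5 + (6360) * γ 6 + (308) * γ 7 + (8) * γ 8 + (0) * γ 9 + (0) * γ 10
       + (0) * γ 11 + (0) * γ 12 + (0) * γ 13 + (0) * γ 14 + (0) * γ 15 + (0) * γ 16 := by
  have h1 := h 7 (by norm_num)
  rw [show 7 + 1 = 8 from rfl, c33_7, c33_8] at h1
  norm_num [h0] at h1 ⊢
  linarith

theorem q33_8 (γ : ℕ → ℝ) (h0 : γ 0 = 1)
    (h : ∀ n < 33, 2 * (((33 : ℕ) : ℝ) - ((n : ℕ) : ℝ)) * ∑ i ∈ range (33 / 2 + 1), γ i * (cfn 33 i n : ℝ) ≤
      ((n : ℝ) + 1) * ∑ i ∈ range (33 / 2 + 1), γ i * (cfn 33 i (n + 1) : ℝ)) :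
    0 ≤ (0) * γ 0 + (2019513600) * γ 1 + (460362240) * γ 2 + (73176480) * γ 3 + (9455040) * γ 4
       + (1023045) * γ 5 + (91620) * γ 6 + (6489) * γ 7 + (328) * γ 8 + (9) * γ 9 + (0) * γ 10
       + (0) * γ 11 + (0) * γ 12 + (0) * γ 13 + (0) * γ 14 + (0) * γ 15 + (0) * γ 16 := by
  have h1 := h 8 (by norm_num)
  rw [show 8 + 1 = 9 from rfl, c33_8, c33_9] at h1
  norm_num [h0] at h1 ⊢
  linarith

theorem q33_9 (γ : ℕ → ℝ) (h0 : γ 0 = 1)
    (h : ∀ n < 33, 2 * (((33 : ℕ) : ℝ) - ((n : ℕ) : ℝ)) * ∑ i ∈ range (33 / 2 + 1), γ i * (cfn 33 i n : ℝ) ≤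
      ((n : ℝ) + 1) * ∑ i ∈ range (33 / 2 + 1), γ i * (cfn 33 i (n + 1) : ℝ)) :
    0 ≤ (0) * γ 0 + (10321958400) * γ 1 + (2597137920) * γ 2 + (462421440) * γ 3 + (68241920) * γ 4
       + (8662950) * γ 5 + (946710) * γ 6 + (87122) * γ 7 + (6424) * γ 8 + (342) * γ 9
       + (10) * γ 10 + (0) * γ 11 + (0) * γ 12 + (0) * γ 13 + (0) * γ 14 + (0) * γ 15 + (0) * γ 16 := by
  have h1 := h 9 (by norm_num)
  rw [show 9 + 1 = 10 from rfl, c33_9, c33_10] at h1
  norm_num [h0] at h1 ⊢
  linarith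

theorem q33_10 (γ : ℕ → ℝ) (h0 : γ 0 = 1)
    (h : ∀ n < 33, 2 * (((33 : ℕ) : ℝ) - ((n : ℕ) : ℝ)) * ∑ i ∈ range (33 / 2 + 1), γ i * (cfn 33 i n : ℝ) ≤
      ((n : ℝ) + 1) * ∑ i ∈ range (33 / 2 + 1), γ i * (cfn 33 i (n + 1) : ℝ)) :
    0 ≤ (0) * γ 0 + (45416616960) * γ 1 + (12452943360) * γ 2 + (2443858560) * γ 3
       + (403342720) * γ 4 + (58377220) * γ 5 + (7469874) * γ 6 + (836941) * γ 7 + (79976) * γ 8
       + (6192) * γ 9 + (350) * γ 10 + (11) * γ 11 + (0) * γ 12 + (0) * γ 13 + (0) * γ 14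
       + (0) * γ 15 + (0) * γ 16 := by
  have h1 := h 10 (by norm_num)
  rw [show 10 + 1 = 11 from rfl, c33_10, c33_11] at h1
  norm_num [h0] at h1 ⊢
  linarith

theorem q33_11 (γ : ℕ → ℝ) (h0 : γ 0 = 1)
    (h : ∀ n < 33, 2 * (((33 : ℕ) : ℝ) - ((n : ℕ) : ℝ)) * ∑ i ∈ range (33 / 2 + 1), γ i * (cfn 33 i n : ℝ) ≤
      ((n : ℝ) + 1) * ∑ i ∈ range (33 / 2 + 1), γ i * (cfn 33 i (n + 1) : ℝ)) :
    0 ≤ (0) * γ 0 + (173408901120) * γ 1 + (51276825600) * γ 2 + (10950001920) * γ 3
       + (1988701440) * γ 4 + (321320120) * γ 5 + (46781868) * γ 6 + (6123096) * γ 7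
       + (710472) * γ 8 + (71064) * γ 9 + (5820) * γ 10 + (352) * γ 11 + (12) * γ 12 + (0) * γ 13
       + (0) * γ 14 + (0) * γ 15 + (0) * γ 16 := by
  have h1 := h 11 (by norm_num)
  rw [show 11 + 1 = 12 from rfl, c33_11, c33_12] at h1
  norm_num [h0] at h1 ⊢
  linarith

theorem q33_12 (γ : ℕ → ℝ) (h0 : γ 0 = 1)
    (h : ∀ n < 33, 2 * (((33 : ℕ) : ℝ) - ((n : ℕ) : ℝ)) * ∑ i ∈ range (33 / 2 + 1), γ i * (cfn 33 i n : ℝ) ≤
      ((n : ℝ) + 1) * ∑ i ∈ range (33 / 2 + 1), γ i * (cfn 33 i (n + 1) : ℝ)) :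
    0 ≤ (0) * γ 0 + (578029670400) * γ 1 + (182731960320) * γ 2 + (42019211520) * γ 3
       + (8290304000) * γ 4 + (1471265840) * γ 5 + (238629840) * γ 6 + (35453551) * γ 7
       + (4792536) * γ 8 + (580230) * γ 9 + (61160) * γ 10 + (5335) * γ 11 + (348) * γ 12
       + (13) * γ 13 + (0) * γ 14 + (0) * γ 15 + (0) * γ 16 := by
  have h1 := h 12 (by norm_num)
  rw [show 12 + 1 = 13 from rfl, c33_12, c33_13] at h1
  norm_num [h0] at h1 ⊢
  linarith

theorem q33_13 (γ : ℕ → ℝ) (h0 : γ 0 = 1)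
    (h : ∀ n < 33, 2 * (((33 : ℕ) : ℝ) - ((n : ℕ) : ℝ)) * ∑ i ∈ range (33 / 2 + 1), γ i * (cfn 33 i n : ℝ) ≤
      ((n : ℝ) + 1) * ∑ i ∈ range (33 / 2 + 1), γ i * (cfn 33 i (n + 1) : ℝ)) :
    0 ≤ (0) * γ 0 + (1689625190400) * γ 1 + (566841999360) * γ 2 + (139136325120) * γ 3
       + (29509596160) * γ 4 + (5678412960) * γ 5 + (1009456320) * γ 6 + (166673738) * γ 7
       + (25504136) * γ 8 + (3585708) * γ 9 + (455740) * γ 10 + (50930) * γ 11 + (4764) * γ 12
       + (338) * γ 13 + (14) * γ 14 + (0) * γ 15 + (0) * γ 16 := by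
  have h1 := h 13 (by norm_num)
  rw [show 13 + 1 = 14 from rfl, c33_13, c33_14] at h1
  norm_num [h0] at h1 ⊢
  linarith

theorem q33_14 (γ : ℕ → ℝ) (h0 : γ 0 = 1)
    (h : ∀ n < 33, 2 * (((33 : ℕ) : ℝ) - ((n : ℕ) : ℝ)) * ∑ i ∈ range (33 / 2 + 1), γ i * (cfn 33 i n : ℝ) ≤
      ((n : ℝ) + 1) * ∑ i ∈ range (33 / 2 + 1), γ i * (cfn 33 i (n + 1) : ℝ)) :
    0 ≤ (0) * γ 0 + (4344750489600) * γ 1 + (1537013882880) * γ 2 + (399738792960) * γ 3
       + (90341114880) * γ 4 + (18651160000) * γ 5 + (3587269920) * γ 6 + (647591364) * γ 7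
       + (109815928) * γ 8 + (17420004) * γ 9 + (2561220) * γ 10 + (343530) * γ 11 + (40932) * γ 12
       + (4134) * γ 13 + (322) * γ 14 + (15) * γ 15 + (0) * γ 16 := by
  have h1 := h 14 (by norm_num)
  rw [show 14 + 1 = 15 from rfl, c33_14, c33_15] at h1
  norm_num [h0] at h1 ⊢
  linarith

theorem q33_15 (γ : ℕ → ℝ) (h0 : γ 0 = 1)
    (h : ∀ n < 33, 2 * (((33 : ℕ) : ℝ) - ((n : ℕ) : ℝ)) * ∑ i ∈ range (33 / 2 + 1), γ i * (cfn 33 i n : ℝ) ≤
      ((n : ℝ) + 1) * ∑ i ∈ range (33 / 2 + 1), γ i * (cfn 33 i (n + 1) : ℝ)) :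
    0 ≤ (0) * γ 0 + (9848101109760) * γ 1 + (3653327831040) * γ 2 + (1000283351040) * γ 3
       + (239097313280) * γ 4 + (52495096960) * γ 5 + (10808582592) * γ 6 + (2105786872) * γ 7
       + (389308432) * γ 8 + (68212224) * γ 9 + (11271840) * γ 10 + (1740816) * γ 11
       + (247536) * γ 12 + (31616) * γ 13 + (3472) * γ 14 + (300) * γ 15 + (16) * γ 16 := by
  have h1 := h 15 (by norm_num)
  rw [show 15 + 1 = 16 from rfl, c33_15, c33_16] at h1
  norm_num [h0] at h1 ⊢
  linarith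

theorem q33_16 (γ : ℕ → ℝ) (h0 : γ 0 = 1)
    (h : ∀ n < 33, 2 * (((33 : ℕ) : ℝ) - ((n : ℕ) : ℝ)) * ∑ i ∈ range (33 / 2 + 1), γ i * (cfn 33 i n : ℝ) ≤
      ((n : ℝ) + 1) * ∑ i ∈ range (33 / 2 + 1), γ i * (cfn 33 i (n + 1) : ℝ)) :
    0 ≤ (0) * γ 0 + (19696202219520) * γ 1 + (7624336343040) * γ 2 + (2185423994880) * γ 3
       + (548942479360) * γ 4 + (127213007360) * γ 5 + (27792098304) * γ 6 + (5781648320) * γ 7
       + (1150220544) * γ 8 + (218985993) * γ 9 + (39814680) * γ 10 + (6878982) * γ 11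
       + (1119960) * γ 12 + (169507) * γ 13 + (23324) * γ 14 + (2805) * γ 15 + (272) * γ 16 := by
  have h1 := h 16 (by norm_num)
  rw [show 16 + 1 = 17 from rfl, c33_16, c33_17] at h1
  norm_num [h0] at h1 ⊢
  linarith

theorem q33_17 (γ : ℕ → ℝ) (h0 : γ 0 = 1)
    (h : ∀ n < 33, 2 * (((33 : ℕ) : ℝ) - ((n : ℕ) : ℝ)) * ∑ i ∈ range (33 / 2 + 1), γ i * (cfn 33 i n : ℝ) ≤
      ((n : ℝ) + 1) * ∑ i ∈ range (33 / 2 + 1), γ i * (cfn 33 i (n + 1) : ℝ)) :
    0 ≤ (0) * γ 0 + (34758003916800) * γ 1 + (13977949962240) * γ 2 + (4173666877440) * γ 3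
       + (1095450624000) * γ 4 + (266217323520) * γ 5 + (61247001600) * γ 6 + (13484386944) * γ 7
       + (2856095744) * γ 8 + (583177230) * γ 9 + (114763050) * γ 10 + (21715980) * γ 11
       + (3933432) * γ 12 + (676962) * γ 13 + (109410) * γ 14 + (16290) * γ 15 + (2160) * γ 16 := by
  have h1 := h 17 (by norm_num)
  rw [show 17 + 1 = 18 from rfl, c33_17, c33_18] at h1
  norm_num [h0] at h1 ⊢
  linarith

theorem q33_18 (γ : ℕ → ℝ) (h0 : γ 0 = 1)
    (h : ∀ n < 33, 2 * (((33 : ℕ) : ℝ) - ((n : ℕ) : ℝ)) * ∑ i ∈ range (33 / 2 + 1), γ i * (cfn 33 i n : ℝ) ≤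
      ((n : ℝ) + 1) * ∑ i ∈ range (33 / 2 + 1), γ i * (cfn 33 i (n + 1) : ℝ)) :
    0 ≤ (0) * γ 0 + (54068006092800) * γ 1 + (22499267051520) * γ 2 + (6967065968640) * γ 3
       + (1901215416320) * γ 4 + (481770055680) * γ 5 + (115959997440) * γ 6 + (26814808832) * γ 7
       + (5993060864) * γ 8 + (1298452932) * γ 9 + (272981550) * γ 10 + (55655655) * γ 11
       + (10980936) * γ 12 + (2088632) * γ 13 + (380646) * γ 14 + (65835) * γ 15 + (10640) * γ 16 := by
  have h1 := h 18 (by norm_num)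
  rw [show 18 + 1 = 19 from rfl, c33_18, c33_19] at h1
  norm_num [h0] at h1 ⊢
  linarith

theorem q33_19 (γ : ℕ → ℝ) (h0 : γ 0 = 1)
    (h : ∀ n < 33, 2 * (((33 : ℕ) : ℝ) - ((n : ℕ) : ℝ)) * ∑ i ∈ range (33 / 2 + 1), γ i * (cfn 33 i n : ℝ) ≤
      ((n : ℝ) + 1) * ∑ i ∈ range (33 / 2 + 1), γ i * (cfn 33 i (n + 1) : ℝ)) :
    0 ≤ (0) * γ 0 + (73987797811200) * γ 1 + (31743151964160) * γ 2 + (10152894136320) * γ 3
       + (2867646300160) * γ 4 + (753883033600) * γ 5 + (188756858880) * γ 6 + (45544715776) * γ 7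
       + (10659597312) * γ 8 + (2428780536) * γ 9 + (539721780) * γ 10 + (117032520) * γ 11
       + (24747948) * γ 12 + (5094856) * γ 13 + (1018108) * γ 14 + (196560) * γ 15 + (36400) * γ 16 := by
  have h1 := h 19 (by norm_num)
  rw [show 19 + 1 = 20 from rfl, c33_19, c33_20] at h1
  norm_num [h0] at h1 ⊢
  linarith

theorem q33_20 (γ : ℕ → ℝ) (h0 : γ 0 = 1)
    (h : ∀ n < 33, 2 * (((33 : ℕ) : ℝ) - ((n : ℕ) : ℝ)) * ∑ i ∈ range (33 / 2 + 1), γ i * (cfn 33 i n : ℝ) ≤
      ((n : ℝ) + 1) * ∑ i ∈ range (33 / 2 + 1), γ i * (cfn 33 i (n + 1) : ℝ)) :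
    0 ≤ (0) * γ 0 + (88785357373440) * γ 1 + (39141931745280) * γ 2 + (12883788103680) * γ 3
       + (3751166607360) * γ 4 + (1018464788480) * γ 5 + (263916281856) * γ 6 + (66064900608) * γ 7
       + (16085966848) * γ 8 + (3825306576) * γ 9 + (890557200) * γ 10 + (203220963) * γ 11
       + (45471564) * γ 12 + (9972339) * γ 13 + (2141048) * γ 14 + (449085) * γ 15 + (91728) * γ 16 := by
  have h1 := h 20 (by norm_num)
  rw [show 20 + 1 = 21 from rfl, c33_20, c33_21] at h1
  norm_num [h0] at h1 ⊢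
  linarith

theorem q33_21 (γ : ℕ → ℝ) (h0 : γ 0 = 1)
    (h : ∀ n < 33, 2 * (((33 : ℕ) : ℝ) - ((n : ℕ) : ℝ)) * ∑ i ∈ range (33 / 2 + 1), γ i * (cfn 33 i n : ℝ) ≤
      ((n : ℝ) + 1) * ∑ i ∈ range (33 / 2 + 1), γ i * (cfn 33 i (n + 1) : ℝ)) :
    0 ≤ (0) * γ 0 + (93013231534080) * γ 1 + (42005975531520) * γ 2 + (14180896604160) * γ 3
       + (4240324689920) * γ 4 + (1184124846080) * γ 5 + (316124823552) * γ 6 + (81680198656) * γ 7
       + (20571590656) * γ 8 + (5072411232) * γ 9 + (1227869760) * γ 10 + (292292946) * γ 11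
       + (68489388) * γ 12 + (15802358) * γ 13 + (3589586) * γ 14 + (802230) * γ 15
       + (176176) * γ 16 := by
  have h1 := h 21 (by norm_num)
  rw [show 21 + 1 = 22 from rfl, c33_21, c33_22] at h1
  norm_num [h0] at h1 ⊢
  linarith

theorem q33_22 (γ : ℕ → ℝ) (h0 : γ 0 = 1)
    (h : ∀ n < 33, 2 * (((33 : ℕ) : ℝ) - ((n : ℕ) : ℝ)) * ∑ i ∈ range (33 / 2 + 1), γ i * (cfn 33 i n : ℝ) ≤
      ((n : ℝ) + 1) * ∑ i ∈ range (33 / 2 + 1), γ i * (cfn 33 i (n + 1) : ℝ)) :
    0 ≤ (0) * γ 0 + (84557483212800) * γ 1 + (39005548707840) * γ 2 + (13463122083840) * γ 3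
       + (4120281088000) * γ 4 + (1179005583360) * γ 5 + (322943139840) * γ 6 + (85734225920) * γ 7
       + (22221312000) * γ 8 + (5648880960) * γ 9 + (1412645280) * γ 10 + (348214020) * γ 11
       + (84716820) * γ 12 + (20358910) * γ 13 + (4834830) * γ 14 + (1134705) * γ 15
       + (263120) * γ 16 := by
  have h1 := h 22 (by norm_num)
  rw [show 22 + 1 = 23 from rfl, c33_22, c33_23] at h1
  norm_num [h0] at h1 ⊢
  linarith

theorem q33_23 (γ : ℕ → ℝ) (h0 : γ 0 = 1)
    (h : ∀ n < 33, 2 * (((33 : ℕ) : ℝ) - ((n : ℕ) : ℝ)) * ∑ i ∈ range (33 / 2 + 1), γ i * (cfn 33 i n : ℝ) ≤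
      ((n : ℝ) + 1) * ∑ i ∈ range (33 / 2 + 1), γ i * (cfn 33 i (n + 1) : ℝ)) :
    0 ≤ (0) * γ 0 + (66175421644800) * γ 1 + (31095332536320) * γ 2 + (10941211607040) * γ 3
       + (3416268472320) * γ 4 + (998235504640) * γ 5 + (279484661760) * γ 6 + (75921592320) * γ 7
       + (20159160320) * γ 8 + (5256846720) * γ 9 + (1350486720) * γ 10 + (342538680) * γ 11
       + (85910040) * γ 12 + (21328320) * γ 13 + (5245240) * γ 14 + (1278420) * γ 15
       + (308880) * γ 16 := by
  have h1 := h 23 (by norm_num)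
  rw [show 23 + 1 = 24 from rfl, c33_23, c33_24] at h1
  norm_num [h0] at h1 ⊢
  linarith

theorem q33_24 (γ : ℕ → ℝ) (h0 : γ 0 = 1)
    (h : ∀ n < 33, 2 * (((33 : ℕ) : ℝ) - ((n : ℕ) : ℝ)) * ∑ i ∈ range (33 / 2 + 1), γ i * (cfn 33 i n : ℝ) ≤
      ((n : ℝ) + 1) * ∑ i ∈ range (33 / 2 + 1), γ i * (cfn 33 i (n + 1) : ℝ)) :
    0 ≤ (0) * γ 0 + (44116947763200) * γ 1 + (21062284738560) * γ 2 + (7533987102720) * γ 3
       + (2392913346560) * γ 4 + (711722598400) * γ 5 + (202978099200) * γ 6 + (56209162240) * γ 7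
       + (15227617280) * γ 8 + (4055120640) * γ 9 + (1064947200) * γ 10 + (276434400) * γ 11
       + (71040960) * γ 12 + (18096845) * γ 13 + (4573660) * γ 14 + (1147575) * γ 15
       + (286000) * γ 16 := by
  have h1 := h 24 (by norm_num)
  rw [show 24 + 1 = 25 from rfl, c33_24, c33_25] at h1
  norm_num [h0] at h1 ⊢
  linarith

theorem q33_25 (γ : ℕ → ℝ) (h0 : γ 0 = 1)
    (h : ∀ n < 33, 2 * (((33 : ℕ) : ℝ) - ((n : ℕ) : ℝ)) * ∑ i ∈ range (33 / 2 + 1), γ i * (cfn 33 i n : ℝ) ≤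
      ((n : ℝ) + 1) * ∑ i ∈ range (33 / 2 + 1), γ i * (cfn 33 i (n + 1) : ℝ)) :
    0 ≤ (0) * γ 0 + (24705490747392) * γ 1 + (11954269716480) * γ 2 + (4335631073280) * γ 3
       + (1396871004160) * γ 4 + (421644861440) * γ 5 + (122098679808) * γ 6 + (34350202880) * γ 7
       + (9459466240) * γ 8 + (2562255360) * γ 9 + (684894720) * γ 10 + (181084992) * γ 11
       + (47439360) * γ 12 + (12329590) * γ 13 + (3182270) * γ 14 + (816270) * γ 15
       + (208208) * γ 16 := by
  have h1 := h 25 (by norm_num)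
  rw [show 25 + 1 = 26 from rfl, c33_25, c33_26] at h1
  norm_num [h0] at h1 ⊢
  linarith

theorem q33_26 (γ : ℕ → ℝ) (h0 : γ 0 = 1)
    (h : ∀ n < 33, 2 * (((33 : ℕ) : ℝ) - ((n : ℕ) : ℝ)) * ∑ i ∈ range (33 / 2 + 1), γ i * (cfn 33 i n : ℝ) ≤
      ((n : ℝ) + 1) * ∑ i ∈ range (33 / 2 + 1), γ i * (cfn 33 i (n + 1) : ℝ)) :
    0 ≤ (0) * γ 0 + (11402534191104) * γ 1 + (5578659201024) * γ 2 + (2046358978560) * γ 3
       + (667020165120) * γ 4 + (203760599040) * γ 5 + (59733835776) * γ 6 + (17018781696) * γ 7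
       + (4748083200) * γ 8 + (1303464960) * γ 9 + (353272320) * γ 10 + (94748544) * γ 11
       + (25190784) * γ 12 + (6647940) * γ 13 + (1743210) * γ 14 + (454545) * γ 15
       + (117936) * γ 16 := by
  have h1 := h 26 (by norm_num)
  rw [show 26 + 1 = 27 from rfl, c33_26, c33_27] at h1
  norm_num [h0] at h1 ⊢
  linarith

theorem q33_27 (γ : ℕ → ℝ) (h0 : γ 0 = 1)
    (h : ∀ n < 33, 2 * (((33 : ℕ) : ℝ) - ((n : ℕ) : ℝ)) * ∑ i ∈ range (33 / 2 + 1), γ i * (cfn 33 i n : ℝ) ≤
      ((n : ℝ) + 1) * ∑ i ∈ range (33 / 2 + 1), γ i * (cfn 33 i (n + 1) : ℝ)) :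
    0 ≤ (0) * γ 0 + (4223160811520) * γ 1 + (2084334206976) * γ 2 + (771433168896) * γ 3
       + (253755392000) * γ 4 + (78242119680) * γ 5 + (23156490240) * γ 6 + (6661996544) * γ 7
       + (1877213184) * γ 8 + (520611840) * γ 9 + (142576640) * γ 10 + (38649600) * γ 11
       + (10388736) * γ 12 + (2772536) * γ 13 + (735420) * γ 14 + (194040) * γ 15 + (50960) * γ 16 := by
  have h1 := h 27 (by norm_num)
  rw [show 27 + 1 = 28 from rfl, c33_27, c33_28] at h1
  norm_num [h0] at h1 ⊢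
  linarith

theorem q33_28 (γ : ℕ → ℝ) (h0 : γ 0 = 1)
    (h : ∀ n < 33, 2 * (((33 : ℕ) : ℝ) - ((n : ℕ) : ℝ)) * ∑ i ∈ range (33 / 2 + 1), γ i * (cfn 33 i n : ℝ) ≤
      ((n : ℝ) + 1) * ∑ i ∈ range (33 / 2 + 1), γ i * (cfn 33 i (n + 1) : ℝ)) :
    0 ≤ (0) * γ 0 + (1206617374720) * γ 1 + (599416373248) * γ 2 + (223321522176) * γ 3
       + (73953968128) * γ 4 + (22958571520) * γ 5 + (6841958400) * γ 6 + (1982267392) * γ 7
       + (562561024) * γ 8 + (157151232) * γ 9 + (43356160) * γ 10 + (11841280) * γ 11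
       + (3207168) * γ 12 + (862576) * γ 13 + (230608) * γ 14 + (61335) * γ 15 + (16240) * γ 16 := by
  have h1 := h 28 (by norm_num)
  rw [show 28 + 1 = 29 from rfl, c33_28, c33_29] at h1
  norm_num [h0] at h1 ⊢
  linarith

theorem m33_0 (γ : ℕ → ℝ) : Mat 33 γ 0 = (1) * γ 0 + (0) * γ 1 + (0) * γ 2 + (0) * γ 3 + (0) * γ 4 + (0) * γ 5 + (0) * γ 6 + (0) * γ 7
       + (0) * γ 8 + (0) * γ 9 + (0) * γ 10 + (0) * γ 11 + (0) * γ 12 + (0) * γ 13 + (0) * γ 14
       + (0) * γ 15 + (0) * γ 16 := by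
  unfold Mat
  rw [show (33 / 2 + 1 : ℕ) = 17 from rfl]
  simp [sum_range_succ, Nat.choose]
  try ring

theorem m33_1 (γ : ℕ → ℝ) : Mat 33 γ 1 = (2112) * γ 0 + (64) * γ 1 + (1) * γ 2 + (0) * γ 3 + (0) * γ 4 + (0) * γ 5 + (0) * γ 6
       + (0) * γ 7 + (0) * γ 8 + (0) * γ 9 + (0) * γ 10 + (0) * γ 11 + (0) * γ 12 + (0) * γ 13
       + (0) * γ 14 + (0) * γ 15 + (0) * γ 16 := by
  unfold Mat
  rw [show (33 / 2 + 1 : ℕ) = 17 from rfl]
  simp [sum_range_succ, Nat.choose]
  try ring

theorem m33_2 (γ : ℕ → ℝ) : Mat 33 γ 2 = (654720) * γ 0 + (39680) * γ 1 + (1860) * γ 2 + (60) * γ 3 + (1) * γ 4 + (0) * γ 5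
       + (0) * γ 6 + (0) * γ 7 + (0) * γ 8 + (0) * γ 9 + (0) * γ 10 + (0) * γ 11 + (0) * γ 12
       + (0) * γ 13 + (0) * γ 14 + (0) * γ 15 + (0) * γ 16 := by
  unfold Mat
  rw [show (33 / 2 + 1 : ℕ) = 17 from rfl]
  simp [sum_range_succ, Nat.choose]
  try ring

theorem m33_3 (γ : ℕ → ℝ) : Mat 33 γ 3 = (70884352) * γ 0 + (6444032) * γ 1 + (503440) * γ 2 + (32480) * γ 3 + (1624) * γ 4
       + (56) * γ 5 + (1) * γ 6 + (0) * γ 7 + (0) * γ 8 + (0) * γ 9 + (0) * γ 10 + (0) * γ 11
       + (0) * γ 12 + (0) * γ 13 + (0) * γ 14 + (0) * γ 15 + (0) * γ 16 := by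
  unfold Mat
  rw [show (33 / 2 + 1 : ℕ) = 17 from rfl]
  simp [sum_range_succ, Nat.choose]
  try ring

theorem m33_4 (γ : ℕ → ℝ) : Mat 33 γ 4 = (3554343936) * γ 0 + (430829568) * γ 1 + (47121984) * γ 2 + (4560192) * γ 3 + (380016) * γ 4
       + (26208) * γ 5 + (1404) * γ 6 + (52) * γ 7 + (1) * γ 8 + (0) * γ 9 + (0) * γ 10
       + (0) * γ 11 + (0) * γ 12 + (0) * γ 13 + (0) * γ 14 + (0) * γ 15 + (0) * γ 16 := by
  unfold Mat
  rw [show (33 / 2 + 1 : ℕ) = 17 from rfl]
  simp [sum_range_succ, Nat.choose]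
  try ring

theorem m33_5 (γ : ℕ → ℝ) : Mat 33 γ 5 = (94782504960) * γ 0 + (14360985600) * γ 1 + (2019513600) * γ 2 + (260582400) * γ 3
       + (30401280) * γ 4 + (3144960) * γ 5 + (280800) * γ 6 + (20800) * γ 7 + (1200) * γ 8
       + (48) * γ 9 + (1) * γ 10 + (0) * γ 11 + (0) * γ 12 + (0) * γ 13 + (0) * γ 14 + (0) * γ 15
       + (0) * γ 16 := by
  unfold Mat
  rw [show (33 / 2 + 1 : ℕ) = 17 from rfl]
  simp [sum_range_succ, Nat.choose]
  try ring

theorem m33_6 (γ : ℕ → ℝ) : Mat 33 γ 6 = (1453331742720) * γ 0 + (264242135040) * γ 1 + (45416616960) * γ 2 + (7325260800) * γ 3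
       + (1098789120) * γ 4 + (151557120) * γ 5 + (18944640) * γ 6 + (2104960) * γ 7
       + (202400) * γ 8 + (16192) * γ 9 + (1012) * γ 10 + (44) * γ 11 + (1) * γ 12 + (0) * γ 13
       + (0) * γ 14 + (0) * γ 15 + (0) * γ 16 := by
  unfold Mat
  rw [show (33 / 2 + 1 : ℕ) = 17 from rfl]
  simp [sum_range_succ, Nat.choose]
  try ring

theorem m33_7 (γ : ℕ → ℝ) : Mat 33 γ 7 = (13415369932800) * γ 0 + (2845684531200) * γ 1 + (578029670400) * γ 2 + (111876710400) * γ 3
       + (20510730240) * γ 4 + (3536332800) * γ 5 + (568339200) * γ 6 + (84198400) * γ 7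
       + (11334400) * γ 8 + (1360128) * γ 9 + (141680) * γ 10 + (12320) * γ 11 + (840) * γ 12
       + (40) * γ 13 + (1) * γ 14 + (0) * γ 15 + (0) * γ 16 := by
  unfold Mat
  rw [show (33 / 2 + 1 : ℕ) = 17 from rfl]
  simp [sum_range_succ, Nat.choose]
  try ring

theorem m33_8 (γ : ℕ → ℝ) : Mat 33 γ 8 = (76467608616960) * γ 0 + (18537602088960) * γ 1 + (4344750489600) * γ 2
       + (981072691200) * γ 3 + (212565749760) * γ 4 + (43979120640) * γ 5 + (8638755840) * γ 6
       + (1599769600) * γ 7 + (276883200) * γ 8 + (44301312) * γ 9 + (6460608) * γ 10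
       + (842688) * γ 11 + (95760) * γ 12 + (9120) * γ 13 + (684) * γ 14 + (36) * γ 15 + (1) * γ 16 := by
  unfold Mat
  rw [show (33 / 2 + 1 : ℕ) = 17 from rfl]
  simp [sum_range_succ, Nat.choose]
  try ring

theorem m33_9 (γ : ℕ → ℝ) : Mat 33 γ 9 = (271884830638080) * γ 0 + (74150408355840) * γ 1 + (19696202219520) * γ 2
       + (5082890895360) * γ 3 + (1270722723840) * γ 4 + (306726174720) * γ 5 + (71204290560) * γ 6
       + (15823175680) * γ 7 + (3347210240) * γ 8 + (669442048) * γ 9 + (125520384) * γ 10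
       + (21829632) * γ 11 + (3472896) * γ 12 + (496128) * γ 13 + (62016) * γ 14 + (6528) * γ 15
       + (544) * γ 16 := by
  unfold Mat
  rw [show (33 / 2 + 1 : ℕ) = 17 from rfl]
  simp [sum_range_succ, Nat.choose]
  try ring

theorem m33_10 (γ : ℕ → ℝ) : Mat 33 γ 10 = (601008572989440) * γ 0 + (182123809996800) * γ 1 + (54068006092800) * γ 2
       + (15697163059200) * γ 3 + (4447529533440) * γ 4 + (1226904698880) * γ 5
       + (328635187200) * γ 6 + (85201715200) * γ 7 + (21300428800) * γ 8 + (5112102912) * γ 9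
       + (1171523584) * γ 10 + (254679040) * γ 11 + (52093440) * γ 12 + (9922560) * γ 13
       + (1736448) * γ 14 + (274176) * γ 15 + (38080) * γ 16 := by
  unfold Mat
  rw [show (33 / 2 + 1 : ℕ) = 17 from rfl]
  simp [sum_range_succ, Nat.choose]
  try ring

theorem m33_11 (γ : ℕ → ℝ) : Mat 33 γ 11 = (811751838842880) * γ 0 + (270583946280960) * γ 1 + (88785357373440) * γ 2
       + (28640437862400) * γ 3 + (9069471989760) * γ 4 + (2814663720960) * γ 5
       + (854451486720) * γ 6 + (253170810880) * γ 7 + (73030041600) * γ 8 + (20448411648) * γ 9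
       + (5538111488) * γ 10 + (1444724736) * γ 11 + (361181184) * γ 12 + (85995520) * γ 13
       + (19348992) * γ 14 + (4073472) * γ 15 + (792064) * γ 16 := by
  unfold Mat
  rw [show (33 / 2 + 1 : ℕ) = 17 from rfl]
  simp [sum_range_succ, Nat.choose]
  try ring

theorem m33_12 (γ : ℕ → ℝ) : Mat 33 γ 12 = (647048567193600) * γ 0 + (235290388070400) * γ 1 + (84557483212800) * γ 2
       + (30004268236800) * γ 3 + (10501493882880) * γ 4 + (3621204787200) * γ 5
       + (1228623052800) * γ 6 + (409541017600) * γ 7 + (133888409600) * γ 8 + (42844291072) * γ 9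
       + (13388840960) * γ 10 + (4074864640) * γ 11 + (1203937280) * γ 12 + (343982080) * γ 13
       + (94595072) * γ 14 + (24893440) * γ 15 + (6223360) * γ 16 := by
  unfold Mat
  rw [show (33 / 2 + 1 : ℕ) = 17 from rfl]
  simp [sum_range_succ, Nat.choose]
  try ring

theorem m33_13 (γ : ℕ → ℝ) : Mat 33 γ 13 = (286692288233472) * γ 0 + (112939386273792) * γ 1 + (44116947763200) * γ 2
       + (17077528166400) * γ 3 + (6546385797120) * γ 4 + (2483111854080) * γ 5
       + (931166945280) * γ 6 + (344876646400) * γ 7 + (126012620800) * γ 8 + (45364543488) * γ 9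
       + (16066609152) * γ 10 + (5588385792) * γ 11 + (1905131520) * γ 12 + (635043840) * γ 13
       + (206389248) * γ 14 + (65175552) * γ 15 + (19914752) * γ 16 := by
  unfold Mat
  rw [show (33 / 2 + 1 : ℕ) = 17 from rfl]
  simp [sum_range_succ, Nat.choose]
  try ring

theorem m33_14 (γ : ℕ → ℝ) : Mat 33 γ 14 = (63709397385216) * γ 0 + (27028229193728) * γ 1 + (11402534191104) * γ 2
       + (4781707886592) * γ 3 + (1992378286080) * γ 4 + (824432394240) * γ 5
       + (338606161920) * γ 6 + (137950658560) * γ 7 + (55710842880) * γ 8 + (22284337152) * γ 9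
       + (8820883456) * γ 10 + (3451650048) * γ 11 + (1333592064) * γ 12 + (508035072) * γ 13
       + (190513152) * γ 14 + (70189056) * γ 15 + (25346048) * γ 16 := by
  unfold Mat
  rw [show (33 / 2 + 1 : ℕ) = 17 from rfl]
  simp [sum_range_succ, Nat.choose]
  try ring

theorem m33_15 (γ : ℕ → ℝ) : Mat 33 γ 15 = (5858335391744) * γ 0 + (2662879723520) * γ 1 + (1206617374720) * γ 2 + (544923975680) * γ 3
       + (245215789056) * γ 4 + (109924319232) * γ 5 + (49073356800) * γ 6 + (21810380800) * γ 7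
       + (9646899200) * γ 8 + (4244635648) * γ 9 + (1857028096) * γ 10 + (807403520) * γ 11
       + (348651520) * γ 12 + (149422080) * γ 13 + (63504384) * γ 14 + (26738688) * γ 15
       + (11141120) * γ 16 := by
  unfold Mat
  rw [show (33 / 2 + 1 : ℕ) = 17 from rfl]
  simp [sum_range_succ, Nat.choose]
  try ring

theorem m33_16 (γ : ℕ → ℝ) : Mat 33 γ 16 = (141733920768) * γ 0 + (68719476736) * γ 1 + (33285996544) * γ 2 + (16106127360) * γ 3
       + (7784628224) * γ 4 + (3758096384) * γ 5 + (1811939328) * γ 6 + (872415232) * γ 7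
       + (419430400) * γ 8 + (201326592) * γ 9 + (96468992) * γ 10 + (46137344) * γ 11
       + (22020096) * γ 12 + (10485760) * γ 13 + (4980736) * γ 14 + (2359296) * γ 15
       + (1114112) * γ 16 := by
  unfold Mat
  rw [show (33 / 2 + 1 : ℕ) = 17 from rfl]
  simp [sum_range_succ, Nat.choose]
  try ring

theorem mm33_0 (γ : ℕ → ℝ) : Mat 33 (Mat 33 γ) 0 =
      (1) * γ 0 + (0) * γ 1 + (0) * γ 2 + (0) * γ 3 + (0) * γ 4 + (0) * γ 5 + (0) * γ 6 + (0) * γ 7
       + (0) * γ 8 + (0) * γ 9 + (0) * γ 10 + (0) * γ 11 + (0) * γ 12 + (0) * γ 13 + (0) * γ 14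
       + (0) * γ 15 + (0) * γ 16 := by
  rw [m33_0]
  simp only [m33_0, m33_1, m33_2, m33_3, m33_4, m33_5, m33_6, m33_7, m33_8, m33_9, m33_10, m33_11, m33_12, m33_13, m33_14, m33_15, m33_16]
  ring

theorem mm33_1 (γ : ℕ → ℝ) : Mat 33 (Mat 33 γ) 1 =
      (792000) * γ 0 + (43776) * γ 1 + (1924) * γ 2 + (60) * γ 3 + (1) * γ 4 + (0) * γ 5
       + (0) * γ 6 + (0) * γ 7 + (0) * γ 8 + (0) * γ 9 + (0) * γ 10 + (0) * γ 11 + (0) * γ 12
       + (0) * γ 13 + (0) * γ 14 + (0) * γ 15 + (0) * γ 16 := by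
  rw [m33_1]
  simp only [m33_0, m33_1, m33_2, m33_3, m33_4, m33_5, m33_6, m33_7, m33_8, m33_9, m33_10, m33_11, m33_12, m33_13, m33_14, m33_15, m33_16]
  ring

theorem mm33_2 (γ : ℕ → ℝ) : Mat 33 (Mat 33 γ) 2 =
      (9109643136) * γ 0 + (893815808) * γ 1 + (80827664) * γ 2 + (6620592) * γ 3 + (479316) * γ 4
       + (29568) * γ 5 + (1464) * γ 6 + (52) * γ 7 + (1) * γ 8 + (0) * γ 9 + (0) * γ 10
       + (0) * γ 11 + (0) * γ 12 + (0) * γ 13 + (0) * γ 14 + (0) * γ 15 + (0) * γ 16 := by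
  rw [m33_2]
  simp only [m33_0, m33_1, m33_2, m33_3, m33_4, m33_5, m33_6, m33_7, m33_8, m33_9, m33_10, m33_11, m33_12, m33_13, m33_14, m33_15, m33_16]
  ring

theorem mm33_3 (γ : ℕ → ℝ) : Mat 33 (Mat 33 γ) 3 =
      (15179023242240) * γ 0 + (1997815623680) * γ 1 + (252330054208) * γ 2 + (30408783808) * γ 3
       + (3471657744) * γ 4 + (372055552) * γ 5 + (36982016) * γ 6 + (3354208) * γ 7
       + (271224) * γ 8 + (18880) * γ 9 + (1068) * γ 10 + (44) * γ 11 + (1) * γ 12 + (0) * γ 13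
       + (0) * γ 14 + (0) * γ 15 + (0) * γ 16 := by
  rw [m33_3]
  simp only [m33_0, m33_1, m33_2, m33_3, m33_4, m33_5, m33_6, m33_7, m33_8, m33_9, m33_10, m33_11, m33_12, m33_13, m33_14, m33_15, m33_16]
  ring

theorem mm33_4 (γ : ℕ → ℝ) : Mat 33 (Mat 33 γ) 4 =
      (7004323493747712) * γ 0 + (1108887391617024) * γ 1 + (171385604643072) * γ 2
       + (25796559612672) * γ 3 + (3770445427008) * γ 4 + (533292564480) * γ 5
       + (72687977856) * γ 6 + (9498337472) * γ 7 + (1182271216) * γ 8 + (139019520) * γ 9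
       + (15275024) * γ 10 + (1545104) * γ 11 + (140844) * γ 12 + (11200) * γ 13 + (736) * γ 14
       + (36) * γ 15 + (1) * γ 16 := by
  rw [m33_4]
  simp only [m33_0, m33_1, m33_2, m33_3, m33_4, m33_5, m33_6, m33_7, m33_8, m33_9, m33_10, m33_11, m33_12, m33_13, m33_14, m33_15, m33_16]
  ring

theorem mm33_5 (γ : ℕ → ℝ) : Mat 33 (Mat 33 γ) 5 =
      (1218515506450513920) * γ 0 + (219398646014607360) * γ 1 + (38908005867770880) * γ 2
       + (6787673750154240) * γ 3 + (1163273281578240) * γ 4 + (195539790151680) * γ 5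
       + (32180107161600) * γ 6 + (5173833190400) * γ 7 + (810620153600) * γ 8
       + (123395229696) * γ 9 + (18183490176) * γ 10 + (2582338176) * γ 11 + (351457248) * γ 12
       + (45512704) * γ 13 + (5554816) * γ 14 + (630720) * γ 15 + (65392) * γ 16 := by
  rw [m33_5]
  simp only [m33_0, m33_1, m33_2, m33_3, m33_4, m33_5, m33_6, m33_7, m33_8, m33_9, m33_10, m33_11, m33_12, m33_13, m33_14, m33_15, m33_16]
  ring

theorem mm33_6 (γ : ℕ → ℝ) : Mat 33 (Mat 33 γ) 6 =
      (95115630716209889280) * γ 0 + (18844052304254730240) * γ 1 + (3695758490933022720) * γ 2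
       + (717061880601538560) * γ 3 + (137536768812917760) * γ 4 + (26057860730880000) * γ 5
       + (4872165284321280) * γ 6 + (898096918737920) * γ 7 + (163018253164800) * γ 8
       + (29099255128064) * γ 9 + (5100254995968) * γ 10 + (876170065408) * γ 11
       + (147216537728) * γ 12 + (24132806656) * γ 13 + (3847945728) * γ 14 + (594580096) * γ 15
       + (88621984) * γ 16 := by
  rw [m33_6]
  simp only [m33_0, m33_1, m33_2, m33_3, m33_4, m33_5, m33_6, m33_7, m33_8, m33_9, m33_10, m33_11, m33_12, m33_13, m33_14, m33_15, m33_16]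
  ring

theorem mm33_7 (γ : ℕ → ℝ) : Mat 33 (Mat 33 γ) 7 =
      (3704156897264383819776) * γ 0 + (790452884857498370048) * γ 1
       + (167508287982004813824) * γ 2 + (35237748533025226752) * γ 3 + (7355539086459555840) * γ 4
       + (1522865130738155520) * γ 5 + (312561711822274560) * γ 6 + (63562687841607680) * γ 7
       + (12799710965155840) * γ 8 + (2550581800943616) * γ 9 + (502567935648768) * γ 10
       + (97836596306944) * γ 11 + (18799457164032) * γ 12 + (3561683091456) * γ 13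
       + (664492103680) * γ 14 + (121905085440) * γ 15 + (21954205440) * γ 16 := by
  rw [m33_7]
  simp only [m33_0, m33_1, m33_2, m33_3, m33_4, m33_5, m33_6, m33_7, m33_8, m33_9, m33_10, m33_11, m33_12, m33_13, m33_14, m33_15, m33_16]
  ring

theorem mm33_8 (γ : ℕ → ℝ) : Mat 33 (Mat 33 γ) 8 =
      (76861893601293584695296) * γ 0 + (17410761018332076310528) * γ 1
       + (3924586303123533660160) * γ 2 + (880121449358406647808) * γ 3
       + (196317757861927731200) * γ 4 + (43544386801564123136) * γ 5 + (9601486202472726528) * γ 6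
       + (2104001818321928192) * γ 7 + (458048115394703360) * γ 8 + (99032144753393664) * γ 9
       + (21255391320027136) * γ 10 + (4526895554080768) * γ 11 + (956227558327296) * γ 12
       + (200225659633664) * γ 13 + (41535347425280) * γ 14 + (8530347506688) * γ 15
       + (1733169960704) * γ 16 := by
  rw [m33_8]
  simp only [m33_0, m33_1, m33_2, m33_3, m33_4, m33_5, m33_6, m33_7, m33_8, m33_9, m33_10, m33_11, m33_12, m33_13, m33_14, m33_15, m33_16]
  ring

theorem mm33_9 (γ : ℕ → ℝ) : Mat 33 (Mat 33 γ) 9 =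
      (883236150529011405029376) * γ 0 + (210159352080058084753408) * γ 1
       + (49831345188897783808000) * γ 2 + (11772779352144104128512) * γ 3
       + (2770859358820851974144) * γ 4 + (649593001927352778752) * γ 5
       + (151665621479700037632) * γ 6 + (35259350527991349248) * γ 7 + (8160550867297239040) * γ 8
       + (1879892280919195648) * γ 9 + (430941213017178112) * γ 10 + (98281111328063488) * γ 11
       + (22293365136113664) * γ 12 + (5028186980089856) * γ 13 + (1127308889489408) * γ 14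
       + (251144111357952) * γ 15 + (55576349499392) * γ 16 := by
  rw [m33_9]
  simp only [m33_0, m33_1, m33_2, m33_3, m33_4, m33_5, m33_6, m33_7, m33_8, m33_9, m33_10, m33_11, m33_12, m33_13, m33_14, m33_15, m33_16]
  ring

theorem mm33_10 (γ : ℕ → ℝ) : Mat 33 (Mat 33 γ) 10 =
      (5720066026442111343132672) * γ 0 + (1418558654104759397515264) * γ 1
       + (350920498519378867781632) * γ 2 + (86586108369164798263296) * γ 3
       + (21307205467480145002496) * γ 4 + (5228799878333676388352) * γ 5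
       + (1279472003243145953280) * γ 6 + (312151978561108705280) * γ 7
       + (75920368017357864960) * γ 8 + (18405795896500420608) * γ 9 + (4447322959075606528) * γ 10
       + (1070854245034754048) * γ 11 + (256912559582674944) * γ 12 + (61403709085581312) * γ 13
       + (14617868991463424) * γ 14 + (3465564054552576) * γ 15 + (818046701453312) * γ 16 := by
  rw [m33_10]
  simp only [m33_0, m33_1, m33_2, m33_3, m33_4, m33_5, m33_6, m33_7, m33_8, m33_9, m33_10, m33_11, m33_12, m33_13, m33_14, m33_15, m33_16]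
  ring

theorem mm33_11 (γ : ℕ → ℝ) : Mat 33 (Mat 33 γ) 11 =
      (20844156042253262527660032) * γ 0 + (5355573010666448339599360) * γ 1
       + (1373591151930458320666624) * γ 2 + (351654078098569967960064) * γ 3
       + (89857851954897326440448) * γ 4 + (22916745366676806041600) * γ 5
       + (5832830875297143324672) * γ 6 + (1481518058351265579008) * γ 7
       + (375496320765345136640) * γ 8 + (94960718918958710784) * γ 9
       + (23960092593729306624) * γ 10 + (6031201987183509504) * γ 11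
       + (1514442344641265664) * γ 12 + (379311007610175488) * γ 13 + (94752321047625728) * γ 14
       + (23604302439776256) * γ 15 + (5863428660264960) * γ 16 := by
  rw [m33_11]
  simp only [m33_0, m33_1, m33_2, m33_3, m33_4, m33_5, m33_6, m33_7, m33_8, m33_9, m33_10, m33_11, m33_12, m33_13, m33_14, m33_15, m33_16]
  ring

theorem mm33_12 (γ : ℕ → ℝ) : Mat 33 (Mat 33 γ) 12 =
      (41787699212526953475080192) * γ 0 + (11071462530087584536723456) * γ 1
       + (2929713963727230743871488) * γ 2 + (774274035379309383778304) * γ 3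
       + (204361153773312042598400) * γ 4 + (53866707382531134586880) * γ 5
       + (14178963874204782428160) * γ 6 + (3726948021578246389760) * γ 7
       + (978202876866875883520) * γ 8 + (256361274755283681280) * γ 9
       + (67081691465499279360) * γ 10 + (17525197056743833600) * γ 11
       + (4570958871890493440) * γ 12 + (1190184428974899200) * γ 13 + (309356751514238976) * γ 14
       + (80263455253987328) * γ 15 + (20785580317016064) * γ 16 := by
  rw [m33_12]
  simp only [m33_0, m33_1, m33_2, m33_3, m33_4, m33_5, m33_6, m33_7, m33_8, m33_9, m33_10, m33_11, m33_12, m33_13, m33_14, m33_15, m33_16]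
  ring

theorem mm33_13 (γ : ℕ → ℝ) : Mat 33 (Mat 33 γ) 13 =
      (43830481235641086769102848) * γ 0 + (11929800451421399913857024) * γ 1
       + (3244372180241306020216832) * γ 2 + (881576522320497466146816) * γ 3
       + (239338295395190088663040) * γ 4 + (64919897013058118090752) * γ 5
       + (17593293535317501935616) * γ 6 + (4763322942472201437184) * γ 7
       + (1288415359374175764480) * γ 8 + (348155889608923545600) * γ 9
       + (93983608693787197440) * γ 10 + (25344226527899811840) * γ 11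
       + (6827190714252656640) * γ 12 + (1837079931817820160) * γ 13 + (493768591817048064) * γ 14
       + (132560457905995776) * γ 15 + (35545507580346368) * γ 16 := by
  rw [m33_13]
  simp only [m33_0, m33_1, m33_2, m33_3, m33_4, m33_5, m33_6, m33_7, m33_8, m33_9, m33_10, m33_11, m33_12, m33_13, m33_14, m33_15, m33_16]
  ring

theorem mm33_14 (γ : ℕ → ℝ) : Mat 33 (Mat 33 γ) 14 =
      (21871594882994829294305280) * γ 0 + (6096855949420090133315584) * γ 1
       + (1698665285109511113146368) * γ 2 + (473021845570955167924224) * γ 3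
       + (131650053548808758886400) * γ 4 + (36620317630092128813056) * γ 5
       + (10180731513468182593536) * γ 6 + (2828694624947893436416) * γ 7
       + (785484355016662712320) * γ 8 + (217985388411013300224) * γ 9
       + (60457384055777787904) * γ 10 + (16757026668270321664) * γ 11
       + (4641554789144985600) * γ 12 + (1284818915850977280) * γ 13 + (355406213824905216) * γ 14
       + (98243812786176000) * γ 15 + (27137799876509696) * γ 16 := by
  rw [m33_14]
  simp only [m33_0, m33_1, m33_2, m33_3, m33_4, m33_5, m33_6, m33_7, m33_8, m33_9, m33_10, m33_11, m33_12, m33_13, m33_14, m33_15, m33_16]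
  ring

theorem mm33_15 (γ : ℕ → ℝ) : Mat 33 (Mat 33 γ) 15 =
      (4311109228264136214839296) * γ 0 + (1227670215372053634088960) * γ 1
       + (349507493206001304207360) * γ 2 + (99474324474390642688000) * γ 3
       + (28303674884282839465984) * γ 4 + (8050993702532959698944) * γ 5
       + (2289435490443616845824) * γ 6 + (650844066628325343232) * γ 7
       + (184966198335736119296) * γ 8 + (52549894681986596864) * γ 9
       + (14924935865187696640) * γ 10 + (4237514815494422528) * γ 11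
       + (1202721308366864384) * γ 12 + (341248367281569792) * γ 13 + (96788694198910976) * γ 14
       + (27442502076203008) * γ 15 + (7777933762494464) * γ 16 := by
  rw [m33_15]
  simp only [m33_0, m33_1, m33_2, m33_3, m33_4, m33_5, m33_6, m33_7, m33_8, m33_9, m33_10, m33_11, m33_12, m33_13, m33_14, m33_15, m33_16]
  ring

theorem mm33_16 (γ : ℕ → ℝ) : Mat 33 (Mat 33 γ) 16 =
      (214548964986958129397760) * γ 0 + (62282197814707587383296) * γ 1
       + (18078675382681064177664) * γ 2 + (5247274971335994900480) * γ 3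
       + (1522877354614301130752) * γ 4 + (441935873462461530112) * γ 5
       + (128237817780064223232) * γ 6 + (37207870202552778752) * γ 7
       + (10794800181237776384) * γ 8 + (3131516906700275712) * γ 9 + (908352680701722624) * γ 10
       + (263459001142870016) * γ 11 + (76406369153974272) * γ 12 + (22156605629923328) * γ 13
       + (6424408860131328) * γ 14 + (1862595313139712) * γ 15 + (539955923255296) * γ 16 := by
  rw [m33_16]
  simp only [m33_0, m33_1, m33_2, m33_3, m33_4, m33_5, m33_6, m33_7, m33_8, m33_9, m33_10, m33_11, m33_12, m33_13, m33_14, m33_15, m33_16]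
  ring

theorem p33_0 (γ : ℕ → ℝ) (h0 : γ 0 = 1)
    (h : ∀ n < 33, 2 * (((33 : ℕ) : ℝ) - ((n : ℕ) : ℝ)) * ∑ i ∈ range (33 / 2 + 1), γ i * (cfn 33 i n : ℝ) ≤
      ((n : ℝ) + 1) * ∑ i ∈ range (33 / 2 + 1), γ i * (cfn 33 i (n + 1) : ℝ)) :
    0 < Mat 33 (Mat 33 (Mat 33 γ)) 0 := by

  rw [m33_0]
  simp only [mm33_0, mm33_1, mm33_2, mm33_3, mm33_4, mm33_5, mm33_6, mm33_7, mm33_8, mm33_9, mm33_10, mm33_11, mm33_12, mm33_13, mm33_14, mm33_15, mm33_16]
  linarith only [h0]

theorem p33_1 (γ : ℕ → ℝ) (h0 : γ 0 = 1)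
    (h : ∀ n < 33, 2 * (((33 : ℕ) : ℝ) - ((n : ℕ) : ℝ)) * ∑ i ∈ range (33 / 2 + 1), γ i * (cfn 33 i n : ℝ) ≤
      ((n : ℝ) + 1) * ∑ i ∈ range (33 / 2 + 1), γ i * (cfn 33 i (n + 1) : ℝ)) :
    0 < Mat 33 (Mat 33 (Mat 33 γ)) 1 := by
  have k0 := q33_0 γ h0 h
  have k1 := q33_1 γ h0 h
  have k4 := q33_4 γ h0 h
  have k6 := q33_6 γ h0 h
  have k2 := q33_2 γ h0 h
  have k7 := q33_7 γ h0 h
  have k5 := q33_5 γ h0 h
  have k3 := q33_3 γ h0 h
  rw [m33_1]
  simp only [mm33_0, mm33_1, mm33_2, mm33_3, mm33_4, mm33_5, mm33_6, mm33_7, mm33_8, mm33_9, mm33_10, mm33_11, mm33_12, mm33_13, mm33_14, mm33_15, mm33_16]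
  linarith only [h0, k0, k1, k4, k6, k2, k7, k5, k3]

theorem p33_2 (γ : ℕ → ℝ) (h0 : γ 0 = 1)
    (h : ∀ n < 33, 2 * (((33 : ℕ) : ℝ) - ((n : ℕ) : ℝ)) * ∑ i ∈ range (33 / 2 + 1), γ i * (cfn 33 i n : ℝ) ≤
      ((n : ℝ) + 1) * ∑ i ∈ range (33 / 2 + 1), γ i * (cfn 33 i (n + 1) : ℝ)) :
    0 < Mat 33 (Mat 33 (Mat 33 γ)) 2 := by
  have k15 := q33_15 γ h0 h
  have k0 := q33_0 γ h0 h
  have k3 := q33_3 γ h0 h
  have k5 := q33_5 γ h0 h
  have k6 := q33_6 γ h0 h
  have k1 := q33_1 γ h0 h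
  have k2 := q33_2 γ h0 h
  have k8 := q33_8 γ h0 h
  have k4 := q33_4 γ h0 h
  have k9 := q33_9 γ h0 h
  have k14 := q33_14 γ h0 h
  have k7 := q33_7 γ h0 h
  have k12 := q33_12 γ h0 h
  have k10 := q33_10 γ h0 h
  have k13 := q33_13 γ h0 h
  have k11 := q33_11 γ h0 h
  rw [m33_2]
  simp only [mm33_0, mm33_1, mm33_2, mm33_3, mm33_4, mm33_5, mm33_6, mm33_7, mm33_8, mm33_9, mm33_10, mm33_11, mm33_12, mm33_13, mm33_14, mm33_15, mm33_16]
  linarith only [h0, k15, k0, k3, k5, k6, k1, k2, k8, k4, k9, k14, k7, k12, k10, k13, k11]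

theorem p33_3 (γ : ℕ → ℝ) (h0 : γ 0 = 1)
    (h : ∀ n < 33, 2 * (((33 : ℕ) : ℝ) - ((n : ℕ) : ℝ)) * ∑ i ∈ range (33 / 2 + 1), γ i * (cfn 33 i n : ℝ) ≤
      ((n : ℝ) + 1) * ∑ i ∈ range (33 / 2 + 1), γ i * (cfn 33 i (n + 1) : ℝ)) :
    0 < Mat 33 (Mat 33 (Mat 33 γ)) 3 := by
  have k5 := q33_5 γ h0 h
  have k1 := q33_1 γ h0 h
  have k0 := q33_0 γ h0 h
  have k2 := q33_2 γ h0 h
  have k4 := q33_4 γ h0 h
  have k6 := q33_6 γ h0 h
  have k7 := q33_7 γ h0 h
  have k19 := q33_19 γ h0 h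
  have k3 := q33_3 γ h0 h
  have k13 := q33_13 γ h0 h
  have k12 := q33_12 γ h0 h
  have k18 := q33_18 γ h0 h
  have k10 := q33_10 γ h0 h
  have k15 := q33_15 γ h0 h
  have k9 := q33_9 γ h0 h
  have k16 := q33_16 γ h0 h
  rw [m33_3]
  simp only [mm33_0, mm33_1, mm33_2, mm33_3, mm33_4, mm33_5, mm33_6, mm33_7, mm33_8, mm33_9, mm33_10, mm33_11, mm33_12, mm33_13, mm33_14, mm33_15, mm33_16]
  linarith only [h0, k5, k1, k0, k2, k4, k6, k7, k19, k3, k13, k12, k18, k10, k15, k9, k16]

theorem p33_4 (γ : ℕ → ℝ) (h0 : γ 0 = 1)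
    (h : ∀ n < 33, 2 * (((33 : ℕ) : ℝ) - ((n : ℕ) : ℝ)) * ∑ i ∈ range (33 / 2 + 1), γ i * (cfn 33 i n : ℝ) ≤
      ((n : ℝ) + 1) * ∑ i ∈ range (33 / 2 + 1), γ i * (cfn 33 i (n + 1) : ℝ)) :
    0 < Mat 33 (Mat 33 (Mat 33 γ)) 4 := by
  have k17 := q33_17 γ h0 h
  have k2 := q33_2 γ h0 h
  have k7 := q33_7 γ h0 h
  have k0 := q33_0 γ h0 h
  have k1 := q33_1 γ h0 h
  have k5 := q33_5 γ h0 h
  have k3 := q33_3 γ h0 h
  have k13 := q33_13 γ h0 h
  have k4 := q33_4 γ h0 h
  have k9 := q33_9 γ h0 h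
  have k6 := q33_6 γ h0 h
  have k20 := q33_20 γ h0 h
  have k16 := q33_16 γ h0 h
  have k12 := q33_12 γ h0 h
  have k21 := q33_21 γ h0 h
  have k10 := q33_10 γ h0 h
  rw [m33_4]
  simp only [mm33_0, mm33_1, mm33_2, mm33_3, mm33_4, mm33_5, mm33_6, mm33_7, mm33_8, mm33_9, mm33_10, mm33_11, mm33_12, mm33_13, mm33_14, mm33_15, mm33_16]
  linarith only [h0, k17, k2, k7, k0, k1, k5, k3, k13, k4, k9, k6, k20, k16, k12, k21, k10]

theorem p33_5 (γ : ℕ → ℝ) (h0 : γ 0 = 1)
    (h : ∀ n < 33, 2 * (((33 : ℕ) : ℝ) - ((n : ℕ) : ℝ)) * ∑ i ∈ range (33 / 2 + 1), γ i * (cfn 33 i n : ℝ) ≤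
      ((n : ℝ) + 1) * ∑ i ∈ range (33 / 2 + 1), γ i * (cfn 33 i (n + 1) : ℝ)) :
    0 < Mat 33 (Mat 33 (Mat 33 γ)) 5 := by
  have k17 := q33_17 γ h0 h
  have k5 := q33_5 γ h0 h
  have k1 := q33_1 γ h0 h
  have k2 := q33_2 γ h0 h
  have k0 := q33_0 γ h0 h
  have k4 := q33_4 γ h0 h
  have k7 := q33_7 γ h0 h
  have k21 := q33_21 γ h0 h
  have k10 := q33_10 γ h0 h
  have k3 := q33_3 γ h0 h
  have k6 := q33_6 γ h0 h
  have k9 := q33_9 γ h0 h
  have k18 := q33_18 γ h0 h
  have k22 := q33_22 γ h0 h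
  have k13 := q33_13 γ h0 h
  have k14 := q33_14 γ h0 h
  rw [m33_5]
  simp only [mm33_0, mm33_1, mm33_2, mm33_3, mm33_4, mm33_5, mm33_6, mm33_7, mm33_8, mm33_9, mm33_10, mm33_11, mm33_12, mm33_13, mm33_14, mm33_15, mm33_16]
  linarith only [h0, k17, k5, k1, k2, k0, k4, k7, k21, k10, k3, k6, k9, k18, k22, k13, k14]

theorem p33_6 (γ : ℕ → ℝ) (h0 : γ 0 = 1)
    (h : ∀ n < 33, 2 * (((33 : ℕ) : ℝ) - ((n : ℕ) : ℝ)) * ∑ i ∈ range (33 / 2 + 1), γ i * (cfn 33 i n : ℝ) ≤
      ((n : ℝ) + 1) * ∑ i ∈ range (33 / 2 + 1), γ i * (cfn 33 i (n + 1) : ℝ)) :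
    0 < Mat 33 (Mat 33 (Mat 33 γ)) 6 := by
  have k0 := q33_0 γ h0 h
  have k22 := q33_22 γ h0 h
  have k4 := q33_4 γ h0 h
  have k3 := q33_3 γ h0 h
  have k23 := q33_23 γ h0 h
  have k5 := q33_5 γ h0 h
  have k17 := q33_17 γ h0 h
  have k1 := q33_1 γ h0 h
  have k2 := q33_2 γ h0 h
  have k10 := q33_10 γ h0 h
  have k6 := q33_6 γ h0 h
  have k9 := q33_9 γ h0 h
  have k7 := q33_7 γ h0 h
  have k13 := q33_13 γ h0 h
  have k18 := q33_18 γ h0 h
  have k14 := q33_14 γ h0 h
  rw [m33_6]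
  simp only [mm33_0, mm33_1, mm33_2, mm33_3, mm33_4, mm33_5, mm33_6, mm33_7, mm33_8, mm33_9, mm33_10, mm33_11, mm33_12, mm33_13, mm33_14, mm33_15, mm33_16]
  linarith only [h0, k0, k22, k4, k3, k23, k5, k17, k1, k2, k10, k6, k9, k7, k13, k18, k14]

theorem p33_7 (γ : ℕ → ℝ) (h0 : γ 0 = 1)
    (h : ∀ n < 33, 2 * (((33 : ℕ) : ℝ) - ((n : ℕ) : ℝ)) * ∑ i ∈ range (33 / 2 + 1), γ i * (cfn 33 i n : ℝ) ≤
      ((n : ℝ) + 1) * ∑ i ∈ range (33 / 2 + 1), γ i * (cfn 33 i (n + 1) : ℝ)) :
    0 < Mat 33 (Mat 33 (Mat 33 γ)) 7 := by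
  have k2 := q33_2 γ h0 h
  have k0 := q33_0 γ h0 h
  have k3 := q33_3 γ h0 h
  have k5 := q33_5 γ h0 h
  have k13 := q33_13 γ h0 h
  have k4 := q33_4 γ h0 h
  have k1 := q33_1 γ h0 h
  have k18 := q33_18 γ h0 h
  have k10 := q33_10 γ h0 h
  have k24 := q33_24 γ h0 h
  have k23 := q33_23 γ h0 h
  have k14 := q33_14 γ h0 h
  have k7 := q33_7 γ h0 h
  have k9 := q33_9 γ h0 h
  have k6 := q33_6 γ h0 h
  have k19 := q33_19 γ h0 h
  rw [m33_7]
  simp only [mm33_0, mm33_1, mm33_2, mm33_3, mm33_4, mm33_5, mm33_6, mm33_7, mm33_8, mm33_9, mm33_10, mm33_11, mm33_12, mm33_13, mm33_14, mm33_15, mm33_16]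
  linarith only [h0, k2, k0, k3, k5, k13, k4, k1, k18, k10, k24, k23, k14, k7, k9, k6, k19]

theorem p33_8 (γ : ℕ → ℝ) (h0 : γ 0 = 1)
    (h : ∀ n < 33, 2 * (((33 : ℕ) : ℝ) - ((n : ℕ) : ℝ)) * ∑ i ∈ range (33 / 2 + 1), γ i * (cfn 33 i n : ℝ) ≤
      ((n : ℝ) + 1) * ∑ i ∈ range (33 / 2 + 1), γ i * (cfn 33 i (n + 1) : ℝ)) :
    0 < Mat 33 (Mat 33 (Mat 33 γ)) 8 := by
  have k23 := q33_23 γ h0 h
  have k18 := q33_18 γ h0 h
  have k14 := q33_14 γ h0 h
  have k0 := q33_0 γ h0 h
  have k5 := q33_5 γ h0 h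
  have k4 := q33_4 γ h0 h
  have k1 := q33_1 γ h0 h
  have k3 := q33_3 γ h0 h
  have k2 := q33_2 γ h0 h
  have k10 := q33_10 γ h0 h
  have k24 := q33_24 γ h0 h
  have k13 := q33_13 γ h0 h
  have k7 := q33_7 γ h0 h
  have k9 := q33_9 γ h0 h
  have k6 := q33_6 γ h0 h
  have k19 := q33_19 γ h0 h
  rw [m33_8]
  simp only [mm33_0, mm33_1, mm33_2, mm33_3, mm33_4, mm33_5, mm33_6, mm33_7, mm33_8, mm33_9, mm33_10, mm33_11, mm33_12, mm33_13, mm33_14, mm33_15, mm33_16]
  linarith only [h0, k23, k18, k14, k0, k5, k4, k1, k3, k2, k10, k24, k13, k7, k9, k6, k19]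

theorem p33_9 (γ : ℕ → ℝ) (h0 : γ 0 = 1)
    (h : ∀ n < 33, 2 * (((33 : ℕ) : ℝ) - ((n : ℕ) : ℝ)) * ∑ i ∈ range (33 / 2 + 1), γ i * (cfn 33 i n : ℝ) ≤
      ((n : ℝ) + 1) * ∑ i ∈ range (33 / 2 + 1), γ i * (cfn 33 i (n + 1) : ℝ)) :
    0 < Mat 33 (Mat 33 (Mat 33 γ)) 9 := by
  have k4 := q33_4 γ h0 h
  have k0 := q33_0 γ h0 h
  have k6 := q33_6 γ h0 h
  have k10 := q33_10 γ h0 h
  have k5 := q33_5 γ h0 h
  have k7 := q33_7 γ h0 h
  have k3 := q33_3 γ h0 h
  have k1 := q33_1 γ h0 h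
  have k2 := q33_2 γ h0 h
  have k19 := q33_19 γ h0 h
  have k24 := q33_24 γ h0 h
  have k13 := q33_13 γ h0 h
  have k18 := q33_18 γ h0 h
  have k9 := q33_9 γ h0 h
  have k25 := q33_25 γ h0 h
  have k14 := q33_14 γ h0 h
  rw [m33_9]
  simp only [mm33_0, mm33_1, mm33_2, mm33_3, mm33_4, mm33_5, mm33_6, mm33_7, mm33_8, mm33_9, mm33_10, mm33_11, mm33_12, mm33_13, mm33_14, mm33_15, mm33_16]
  linarith only [h0, k4, k0, k6, k10, k5, k7, k3, k1, k2, k19, k24, k13, k18, k9, k25, k14]

theorem p33_10 (γ : ℕ → ℝ) (h0 : γ 0 = 1)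
    (h : ∀ n < 33, 2 * (((33 : ℕ) : ℝ) - ((n : ℕ) : ℝ)) * ∑ i ∈ range (33 / 2 + 1), γ i * (cfn 33 i n : ℝ) ≤
      ((n : ℝ) + 1) * ∑ i ∈ range (33 / 2 + 1), γ i * (cfn 33 i (n + 1) : ℝ)) :
    0 < Mat 33 (Mat 33 (Mat 33 γ)) 10 := by
  have k0 := q33_0 γ h0 h
  have k24 := q33_24 γ h0 h
  have k18 := q33_18 γ h0 h
  have k5 := q33_5 γ h0 h
  have k2 := q33_2 γ h0 h
  have k1 := q33_1 γ h0 h
  have k3 := q33_3 γ h0 h
  have k4 := q33_4 γ h0 h
  have k10 := q33_10 γ h0 h
  have k6 := q33_6 γ h0 h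
  have k25 := q33_25 γ h0 h
  have k13 := q33_13 γ h0 h
  have k7 := q33_7 γ h0 h
  have k9 := q33_9 γ h0 h
  have k19 := q33_19 γ h0 h
  have k14 := q33_14 γ h0 h
  rw [m33_10]
  simp only [mm33_0, mm33_1, mm33_2, mm33_3, mm33_4, mm33_5, mm33_6, mm33_7, mm33_8, mm33_9, mm33_10, mm33_11, mm33_12, mm33_13, mm33_14, mm33_15, mm33_16]
  linarith only [h0, k0, k24, k18, k5, k2, k1, k3, k4, k10, k6, k25, k13, k7, k9, k19, k14]

theorem p33_11 (γ : ℕ → ℝ) (h0 : γ 0 = 1)
    (h : ∀ n < 33, 2 * (((33 : ℕ) : ℝ) - ((n : ℕ) : ℝ)) * ∑ i ∈ range (33 / 2 + 1), γ i * (cfn 33 i n : ℝ) ≤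
      ((n : ℝ) + 1) * ∑ i ∈ range (33 / 2 + 1), γ i * (cfn 33 i (n + 1) : ℝ)) :
    0 < Mat 33 (Mat 33 (Mat 33 γ)) 11 := by
  have k0 := q33_0 γ h0 h
  have k3 := q33_3 γ h0 h
  have k6 := q33_6 γ h0 h
  have k2 := q33_2 γ h0 h
  have k4 := q33_4 γ h0 h
  have k18 := q33_18 γ h0 h
  have k5 := q33_5 γ h0 h
  have k1 := q33_1 γ h0 h
  have k19 := q33_19 γ h0 h
  have k10 := q33_10 γ h0 h
  have k25 := q33_25 γ h0 h
  have k13 := q33_13 γ h0 h
  have k7 := q33_7 γ h0 h
  have k9 := q33_9 γ h0 h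
  have k26 := q33_26 γ h0 h
  have k14 := q33_14 γ h0 h
  rw [m33_11]
  simp only [mm33_0, mm33_1, mm33_2, mm33_3, mm33_4, mm33_5, mm33_6, mm33_7, mm33_8, mm33_9, mm33_10, mm33_11, mm33_12, mm33_13, mm33_14, mm33_15, mm33_16]
  linarith only [h0, k0, k3, k6, k2, k4, k18, k5, k1, k19, k10, k25, k13, k7, k9, k26, k14]

theorem p33_12 (γ : ℕ → ℝ) (h0 : γ 0 = 1)
    (h : ∀ n < 33, 2 * (((33 : ℕ) : ℝ) - ((n : ℕ) : ℝ)) * ∑ i ∈ range (33 / 2 + 1), γ i * (cfn 33 i n : ℝ) ≤
      ((n : ℝ) + 1) * ∑ i ∈ range (33 / 2 + 1), γ i * (cfn 33 i (n + 1) : ℝ)) :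
    0 < Mat 33 (Mat 33 (Mat 33 γ)) 12 := by
  have k3 := q33_3 γ h0 h
  have k18 := q33_18 γ h0 h
  have k7 := q33_7 γ h0 h
  have k0 := q33_0 γ h0 h
  have k26 := q33_26 γ h0 h
  have k4 := q33_4 γ h0 h
  have k5 := q33_5 γ h0 h
  have k1 := q33_1 γ h0 h
  have k2 := q33_2 γ h0 h
  have k25 := q33_25 γ h0 h
  have k6 := q33_6 γ h0 h
  have k13 := q33_13 γ h0 h
  have k14 := q33_14 γ h0 h
  have k9 := q33_9 γ h0 h
  have k19 := q33_19 γ h0 h
  have k10 := q33_10 γ h0 h
  rw [m33_12]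
  simp only [mm33_0, mm33_1, mm33_2, mm33_3, mm33_4, mm33_5, mm33_6, mm33_7, mm33_8, mm33_9, mm33_10, mm33_11, mm33_12, mm33_13, mm33_14, mm33_15, mm33_16]
  linarith only [h0, k3, k18, k7, k0, k26, k4, k5, k1, k2, k25, k6, k13, k14, k9, k19, k10]

theorem p33_13 (γ : ℕ → ℝ) (h0 : γ 0 = 1)
    (h : ∀ n < 33, 2 * (((33 : ℕ) : ℝ) - ((n : ℕ) : ℝ)) * ∑ i ∈ range (33 / 2 + 1), γ i * (cfn 33 i n : ℝ) ≤
      ((n : ℝ) + 1) * ∑ i ∈ range (33 / 2 + 1), γ i * (cfn 33 i (n + 1) : ℝ)) :
    0 < Mat 33 (Mat 33 (Mat 33 γ)) 13 := by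
  have k1 := q33_1 γ h0 h
  have k4 := q33_4 γ h0 h
  have k0 := q33_0 γ h0 h
  have k3 := q33_3 γ h0 h
  have k18 := q33_18 γ h0 h
  have k7 := q33_7 γ h0 h
  have k26 := q33_26 γ h0 h
  have k5 := q33_5 γ h0 h
  have k2 := q33_2 γ h0 h
  have k19 := q33_19 γ h0 h
  have k6 := q33_6 γ h0 h
  have k13 := q33_13 γ h0 h
  have k14 := q33_14 γ h0 h
  have k9 := q33_9 γ h0 h
  have k10 := q33_10 γ h0 h
  have k27 := q33_27 γ h0 h
  rw [m33_13]
  simp only [mm33_0, mm33_1, mm33_2, mm33_3, mm33_4, mm33_5, mm33_6, mm33_7, mm33_8, mm33_9, mm33_10, mm33_11, mm33_12, mm33_13, mm33_14, mm33_15, mm33_16]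
  linarith only [h0, k1, k4, k0, k3, k18, k7, k26, k5, k2, k19, k6, k13, k14, k9, k10, k27]

theorem p33_14 (γ : ℕ → ℝ) (h0 : γ 0 = 1)
    (h : ∀ n < 33, 2 * (((33 : ℕ) : ℝ) - ((n : ℕ) : ℝ)) * ∑ i ∈ range (33 / 2 + 1), γ i * (cfn 33 i n : ℝ) ≤
      ((n : ℝ) + 1) * ∑ i ∈ range (33 / 2 + 1), γ i * (cfn 33 i (n + 1) : ℝ)) :
    0 < Mat 33 (Mat 33 (Mat 33 γ)) 14 := by
  have k18 := q33_18 γ h0 h
  have k27 := q33_27 γ h0 h
  have k3 := q33_3 γ h0 h
  have k0 := q33_0 γ h0 h
  have k2 := q33_2 γ h0 h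
  have k6 := q33_6 γ h0 h
  have k5 := q33_5 γ h0 h
  have k1 := q33_1 γ h0 h
  have k26 := q33_26 γ h0 h
  have k4 := q33_4 γ h0 h
  have k9 := q33_9 γ h0 h
  have k13 := q33_13 γ h0 h
  have k14 := q33_14 γ h0 h
  have k19 := q33_19 γ h0 h
  have k10 := q33_10 γ h0 h
  have k7 := q33_7 γ h0 h
  rw [m33_14]
  simp only [mm33_0, mm33_1, mm33_2, mm33_3, mm33_4, mm33_5, mm33_6, mm33_7, mm33_8, mm33_9, mm33_10, mm33_11, mm33_12, mm33_13, mm33_14, mm33_15, mm33_16]
  linarith only [h0, k18, k27, k3, k0, k2, k6, k5, k1, k26, k4, k9, k13, k14, k19, k10, k7]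

theorem p33_15 (γ : ℕ → ℝ) (h0 : γ 0 = 1)
    (h : ∀ n < 33, 2 * (((33 : ℕ) : ℝ) - ((n : ℕ) : ℝ)) * ∑ i ∈ range (33 / 2 + 1), γ i * (cfn 33 i n : ℝ) ≤
      ((n : ℝ) + 1) * ∑ i ∈ range (33 / 2 + 1), γ i * (cfn 33 i (n + 1) : ℝ)) :
    0 < Mat 33 (Mat 33 (Mat 33 γ)) 15 := by
  have k0 := q33_0 γ h0 h
  have k3 := q33_3 γ h0 h
  have k13 := q33_13 γ h0 h
  have k2 := q33_2 γ h0 h
  have k4 := q33_4 γ h0 h
  have k6 := q33_6 γ h0 h
  have k5 := q33_5 γ h0 h
  have k1 := q33_1 γ h0 h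
  have k18 := q33_18 γ h0 h
  have k7 := q33_7 γ h0 h
  have k9 := q33_9 γ h0 h
  have k27 := q33_27 γ h0 h
  have k14 := q33_14 γ h0 h
  have k19 := q33_19 γ h0 h
  have k10 := q33_10 γ h0 h
  have k28 := q33_28 γ h0 h
  rw [m33_15]
  simp only [mm33_0, mm33_1, mm33_2, mm33_3, mm33_4, mm33_5, mm33_6, mm33_7, mm33_8, mm33_9, mm33_10, mm33_11, mm33_12, mm33_13, mm33_14, mm33_15, mm33_16]
  linarith only [h0, k0, k3, k13, k2, k4, k6, k5, k1, k18, k7, k9, k27, k14, k19, k10, k28]

theorem p33_16 (γ : ℕ → ℝ) (h0 : γ 0 = 1)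
    (h : ∀ n < 33, 2 * (((33 : ℕ) : ℝ) - ((n : ℕ) : ℝ)) * ∑ i ∈ range (33 / 2 + 1), γ i * (cfn 33 i n : ℝ) ≤
      ((n : ℝ) + 1) * ∑ i ∈ range (33 / 2 + 1), γ i * (cfn 33 i (n + 1) : ℝ)) :
    0 < Mat 33 (Mat 33 (Mat 33 γ)) 16 := by
  have k2 := q33_2 γ h0 h
  have k0 := q33_0 γ h0 h
  have k3 := q33_3 γ h0 h
  have k5 := q33_5 γ h0 h
  have k27 := q33_27 γ h0 h
  have k19 := q33_19 γ h0 h
  have k6 := q33_6 γ h0 h
  have k1 := q33_1 γ h0 h
  have k4 := q33_4 γ h0 h
  have k28 := q33_28 γ h0 h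
  have k13 := q33_13 γ h0 h
  have k7 := q33_7 γ h0 h
  have k14 := q33_14 γ h0 h
  have k9 := q33_9 γ h0 h
  have k10 := q33_10 γ h0 h
  have k20 := q33_20 γ h0 h
  rw [m33_16]
  simp only [mm33_0, mm33_1, mm33_2, mm33_3, mm33_4, mm33_5, mm33_6, mm33_7, mm33_8, mm33_9, mm33_10, mm33_11, mm33_12, mm33_13, mm33_14, mm33_15, mm33_16]
  linarith only [h0, k2, k0, k3, k5, k27, k19, k6, k1, k4, k28, k13, k7, k14, k9, k10, k20]

theorem main33 (γ : ℕ → ℝ) (h0 : γ 0 = 1)
    (h : ∀ n < 33, 2 * (((33 : ℕ) : ℝ) - ((n : ℕ) : ℝ)) * ∑ i ∈ range (33 / 2 + 1), γ i * (cfn 33 i n : ℝ) ≤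
      ((n : ℝ) + 1) * ∑ i ∈ range (33 / 2 + 1), γ i * (cfn 33 i (n + 1) : ℝ)) :
    ∀ j ≤ 33 / 2, 0 < Mat 33 (Mat 33 (Mat 33 γ)) j := by
  intro j hj
  have hj' : j ≤ 16 := hj
  clear hj
  interval_cases j
  · exact p33_0 γ h0 h
  · exact p33_1 γ h0 h
  · exact p33_2 γ h0 h
  · exact p33_3 γ h0 h
  · exact p33_4 γ h0 h
  · exact p33_5 γ h0 h
  · exact p33_6 γ h0 h
  · exact p33_7 γ h0 h
  · exact p33_8 γ h0 h
  · exact p33_9 γ h0 h
  · exact p33_10 γ h0 h
  · exact p33_11 γ h0 h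
  · exact p33_12 γ h0 h
  · exact p33_13 γ h0 h
  · exact p33_14 γ h0 h
  · exact p33_15 γ h0 h
  · exact p33_16 γ h0 h

theorem c34_0 (γ : ℕ → ℝ) : ∑ i ∈ range (34 / 2 + 1), γ i * (cfn 34 i 0 : ℝ) =
    (1) * γ 0 + (0) * γ 1 + (0) * γ 2 + (0) * γ 3 + (0) * γ 4 + (0) * γ 5 + (0) * γ 6 + (0) * γ 7
       + (0) * γ 8 + (0) * γ 9 + (0) * γ 10 + (0) * γ 11 + (0) * γ 12 + (0) * γ 13 + (0) * γ 14
       + (0) * γ 15 + (0) * γ 16 + (0) * γ 17 := by
  have h : ((34 / 2 + 1 : ℕ)) = 18 := rfl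
  rw [h]
  simp only [sum_range_succ, sum_range_zero, show cfn 34 0 0 = 1 from by decide +kernel, show cfn 34 1 0 = 0 from by decide +kernel, show cfn 34 2 0 = 0 from by decide +kernel, show cfn 34 3 0 = 0 from by decide +kernel, show cfn 34 4 0 = 0 from by decide +kernel, show cfn 34 5 0 = 0 from by decide +kernel, show cfn 34 6 0 = 0 from by decide +kernel, show cfn 34 7 0 = 0 from by decide +kernel, show cfn 34 8 0 = 0 from by decide +kernel, show cfn 34 9 0 = 0 from by decide +kernel, show cfn 34 10 0 = 0 from by decide +kernel, show cfn 34 11 0 = 0 from by decide +kernel, show cfn 34 12 0 = 0 from by decide +kernel, show cfn 34 13 0 = 0 from by decide +kernel, show cfn 34 14 0 = 0 from by decide +kernel, show cfn 34 15 0 = 0 from by decide +kernel, show cfn 34 16 0 = 0 from by decide +kernel, show cfn 34 17 0 = 0 from by decide +kernel, Nat.cast_ofNat, Nat.cast_one, Nat.cast_zero]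
  ring

theorem c34_1 (γ : ℕ → ℝ) : ∑ i ∈ range (34 / 2 + 1), γ i * (cfn 34 i 1 : ℝ) =
    (68) * γ 0 + (1) * γ 1 + (0) * γ 2 + (0) * γ 3 + (0) * γ 4 + (0) * γ 5 + (0) * γ 6
       + (0) * γ 7 + (0) * γ 8 + (0) * γ 9 + (0) * γ 10 + (0) * γ 11 + (0) * γ 12 + (0) * γ 13
       + (0) * γ 14 + (0) * γ 15 + (0) * γ 16 + (0) * γ 17 := by
  have h : ((34 / 2 + 1 : ℕ)) = 18 := rfl
  rw [h]
  simp only [sum_range_succ, sum_range_zero, show cfn 34 0 1 = 68 from by decide +kernel, show cfn 34 1 1 = 1 from by decide +kernel, show cfn 34 2 1 = 0 from by decide +kernel, show cfn 34 3 1 = 0 from by decide +kernel, show cfn 34 4 1 = 0 from by decide +kernel, show cfn 34 5 1 = 0 from by decide +kernel, show cfn 34 6 1 = 0 from by decide +kernel, show cfn 34 7 1 = 0 from by decide +kernel, show cfn 34 8 1 = 0 from by decide +kernel, show cfn 34 9 1 = 0 from by decide +kernel, show cfn 34 10 1 = 0 from by decide +kernel, show cfn 34 11 1 = 0 from by decide +kernel, show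 cfn 34 12 1 = 0 from by decide +kernel, show cfn 34 13 1 = 0 from by decide +kernel, show cfn 34 14 1 = 0 from by decide +kernel, show cfn 34 15 1 = 0 from by decide +kernel, show cfn 34 16 1 = 0 from by decide +kernel, show cfn 34 17 1 = 0 from by decide +kernel, Nat.cast_ofNat, Nat.cast_one, Nat.cast_zero]
  ring

theorem c34_2 (γ : ℕ → ℝ) : ∑ i ∈ range (34 / 2 + 1), γ i * (cfn 34 i 2 : ℝ) =
    (2244) * γ 0 + (65) * γ 1 + (1) * γ 2 + (0) * γ 3 + (0) * γ 4 + (0) * γ 5 + (0) * γ 6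
       + (0) * γ 7 + (0) * γ 8 + (0) * γ 9 + (0) * γ 10 + (0) * γ 11 + (0) * γ 12 + (0) * γ 13
       + (0) * γ 14 + (0) * γ 15 + (0) * γ 16 + (0) * γ 17 := by
  have h : ((34 / 2 + 1 : ℕ)) = 18 := rfl
  rw [h]
  simp only [sum_range_succ, sum_range_zero, show cfn 34 0 2 = 2244 from by decide +kernel, show cfn 34 1 2 = 65 from by decide +kernel, show cfn 34 2 2 = 1 from by decide +kernel, show cfn 34 3 2 = 0 from by decide +kernel, show cfn 34 4 2 = 0 from by decide +kernel, show cfn 34 5 2 = 0 from by decide +kernel, show cfn 34 6 2 = 0 from by decide +kernel, show cfn 34 7 2 = 0 from by decide +kernel, show cfn 34 8 2 = 0 from by decide +kernel, show cfn 34 9 2 = 0 from by decide +kernel, show cfn 34 10 2 = 0 from by decide +kernel, show cfn 34 11 2 = 0 from by decide +kernel, show cfn 34 12 2 = 0 from by decide +kernel, show cfn 34 13 2 = 0 from by decide +kernel, show cfn 34 14 2 = 0 from by decide +kernel, show cfn 34 15 2 = 0 from by decide +kernel,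 show cfn 34 16 2 = 0 from by decide +kernel, show cfn 34 17 2 = 0 from by decide +kernel, Nat.cast_ofNat, Nat.cast_one, Nat.cast_zero]
  ring

theorem c34_3 (γ : ℕ → ℝ) : ∑ i ∈ range (34 / 2 + 1), γ i * (cfn 34 i 3 : ℝ) =
    (47872) * γ 0 + (2048) * γ 1 + (62) * γ 2 + (1) * γ 3 + (0) * γ 4 + (0) * γ 5 + (0) * γ 6
       + (0) * γ 7 + (0) * γ 8 + (0) * γ 9 + (0) * γ 10 + (0) * γ 11 + (0) * γ 12 + (0) * γ 13
       + (0) * γ 14 + (0) * γ 15 + (0) * γ 16 + (0) * γ 17 := by
  have h : ((34 / 2 + 1 : ℕ)) = 18 := rfl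
  rw [h]
  simp only [sum_range_succ, sum_range_zero, show cfn 34 0 3 = 47872 from by decide +kernel, show cfn 34 1 3 = 2048 from by decide +kernel, show cfn 34 2 3 = 62 from by decide +kernel, show cfn 34 3 3 = 1 from by decide +kernel, show cfn 34 4 3 = 0 from by decide +kernel, show cfn 34 5 3 = 0 from by decide +kernel, show cfn 34 6 3 = 0 from by decide +kernel, show cfn 34 7 3 = 0 from by decide +kernel, show cfn 34 8 3 = 0 from by decide +kernel, show cfn 34 9 3 = 0 from by decide +kernel, show cfn 34 10 3 = 0 from by decide +kernel, show cfn 34 11 3 = 0 from by decide +kernel, show cfn 34 12 3 = 0 from by decide +kernel, show cfn 34 13 3 = 0 from by decide +kernel, show cfn 34 14 3 = 0 from by decide +kernel, show cfn 34 15 3 = 0 from by decide +kernel, show cfn 34 16 3 = 0 from by decide +kernel, show cfn 34 17 3 = 0 from by decide +kernel, Nat.cast_ofNat, Nat.cast_one, Nat.cast_zero]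
  ring

theorem c34_4 (γ : ℕ → ℝ) : ∑ i ∈ range (34 / 2 + 1), γ i * (cfn 34 i 4 : ℝ) =
    (742016) * γ 0 + (41664) * γ 1 + (1861) * γ 2 + (59) * γ 3 + (1) * γ 4 + (0) * γ 5
       + (0) * γ 6 + (0) * γ 7 + (0) * γ 8 + (0) * γ 9 + (0) * γ 10 + (0) * γ 11 + (0) * γ 12
       + (0) * γ 13 + (0) * γ 14 + (0) * γ 15 + (0) * γ 16 + (0) * γ 17 := by
  have h : ((34 / 2 + 1 : ℕ)) = 18 := rfl
  rw [h]
  simp only [sum_range_succ, sum_range_zero, show cfn 34 0 4 = 742016 from by decide +kernel, show cfn 34 1 4 = 41664 from by decide +kernel, show cfn 34 2 4 = 1861 from by decide +kernel, show cfn 34 3 4 = 59 from by decide +kernel, show cfn 34 4 4 = 1 from by decide +kernel, show cfn 34 5 4 = 0 from by decide +kernel, show cfn 34 6 4 = 0 from by decide +kernel, show cfn 34 7 4 = 0 from by decide +kernel, show cfn 34 8 4 = 0 from by decide +kernel, show cfn 34 9 4 = 0 from by decide +kernel, show cfn 34 10 4 = 0 from by decide +kernel, show cfn 34 11 4 = 0 from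 by decide +kernel, show cfn 34 12 4 = 0 from by decide +kernel, show cfn 34 13 4 = 0 from by decide +kernel, show cfn 34 14 4 = 0 from by decide +kernel, show cfn 34 15 4 = 0 from by decide +kernel, show cfn 34 16 4 = 0 from by decide +kernel, show cfn 34 17 4 = 0 from by decide +kernel, Nat.cast_ofNat, Nat.cast_one, Nat.cast_zero]
  ring

theorem c34_5 (γ : ℕ → ℝ) : ∑ i ∈ range (34 / 2 + 1), γ i * (cfn 34 i 5 : ℝ) =
    (8904192) * γ 0 + (615040) * γ 1 + (36020) * γ 2 + (1683) * γ 3 + (56) * γ 4 + (1) * γ 5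
       + (0) * γ 6 + (0) * γ 7 + (0) * γ 8 + (0) * γ 9 + (0) * γ 10 + (0) * γ 11 + (0) * γ 12
       + (0) * γ 13 + (0) * γ 14 + (0) * γ 15 + (0) * γ 16 + (0) * γ 17 := by
  have h : ((34 / 2 + 1 : ℕ)) = 18 := rfl
  rw [h]
  simp only [sum_range_succ, sum_range_zero, show cfn 34 0 5 = 8904192 from by decide +kernel, show cfn 34 1 5 = 615040 from by decide +kernel, show cfn 34 2 5 = 36020 from by decide +kernel, show cfn 34 3 5 = 1683 from by decide +kernel, show cfn 34 4 5 = 56 from by decide +kernel, show cfn 34 5 5 = 1 from by decide +kernel, show cfn 34 6 5 = 0 from by decide +kernel, show cfn 34 7 5 = 0 from by decide +kernel, show cfn 34 8 5 = 0 from by decide +kernel, show cfn 34 9 5 = 0 from by decide +kernel, show cfn 34 10 5 = 0 from by decide +kernel, show cfn 34 11 5 = 0 from by decide +kernel, show cfn 34 12 5 = 0 from by decide +kernel, show cfn 34 13 5 = 0 from by decide +kernel, show cfn 34 14 5 = 0 from by decide +kernel, show cfn 34 15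 5 = 0 from by decide +kernel, show cfn 34 16 5 = 0 from by decide +kernel, show cfn 34 17 5 = 0 from by decide +kernel, Nat.cast_ofNat, Nat.cast_one, Nat.cast_zero]
  ring

theorem c34_6 (γ : ℕ → ℝ) : ∑ i ∈ range (34 / 2 + 1), γ i * (cfn 34 i 6 : ℝ) =
    (86073856) * γ 0 + (7019392) * γ 1 + (505180) * γ 2 + (30913) * γ 3 + (1514) * γ 4
       + (53) * γ 5 + (1) * γ 6 + (0) * γ 7 + (0) * γ 8 + (0) * γ 9 + (0) * γ 10 + (0) * γ 11
       + (0) * γ 12 + (0) * γ 13 + (0) * γ 14 + (0) * γ 15 + (0) * γ 16 + (0) * γ 17 := by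
  have h : ((34 / 2 + 1 : ℕ)) = 18 := rfl
  rw [h]
  simp only [sum_range_succ, sum_range_zero, show cfn 34 0 6 = 86073856 from by decide +kernel, show cfn 34 1 6 = 7019392 from by decide +kernel, show cfn 34 2 6 = 505180 from by decide +kernel, show cfn 34 3 6 = 30913 from by decide +kernel, show cfn 34 4 6 = 1514 from by decide +kernel, show cfn 34 5 6 = 53 from by decide +kernel, show cfn 34 6 6 = 1 from by decide +kernel, show cfn 34 7 6 = 0 from by decide +kernel, show cfn 34 8 6 = 0 from by decide +kernel, show cfn 34 9 6 = 0 from by decide +kernel, show cfn 34 10 6 = 0 from by decide +kernel, show cfn 34 11 6 = 0 from by decide +kernel, show cfn 34 12 6 = 0 from by decide +kernel, show cfn 34 13 6 = 0 from by decide +kernel, show cfn 34 14 6 = 0 from by decide +kernel, show cfn 34 15 6 = 0 from by decide +kernel, show cfn 34 16 6 = 0 from by decide +kernel, show cfn 34 17 6 = 0 from by decide +kernel, Nat.cast_ofNat, Nat.cast_one, Nat.cast_zero]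
  ring

theorem c34_7 (γ : ℕ → ℝ) : ∑ i ∈ range (34 / 2 + 1), γ i * (cfn 34 i 7 : ℝ) =
    (688590848) * γ 0 + (64440320) * γ 1 + (5469632) * γ 2 + (410816) * γ 3 + (26316) * γ 4
       + (1354) * γ 5 + (50) * γ 6 + (1) * γ 7 + (0) * γ 8 + (0) * γ 9 + (0) * γ 10 + (0) * γ 11
       + (0) * γ 12 + (0) * γ 13 + (0) * γ 14 + (0) * γ 15 + (0) * γ 16 + (0) * γ 17 := by
  have h : ((34 / 2 + 1 : ℕ)) = 18 := rfl
  rw [h]
  simp only [sum_range_succ, sum_range_zero, show cfn 34 0 7 = 688590848 from by decide +kernel, show cfn 34 1 7 = 64440320 from by decide +kernel, show cfn 34 2 7 = 5469632 from by decide +kernel, show cfn 34 3 7 = 410816 from by decide +kernel, show cfn 34 4 7 = 26316 from by decide +kernel, show cfn 34 5 7 = 1354 from by decide +kernel, show cfn 34 6 7 = 50 from by decide +kernel, show cfn 34 7 7 = 1 from by decide +kernel, show cfn 34 8 7 = 0 from by decide +kernel, show cfn 34 9 7 = 0 from by decide +kernel, show cfn 34 10 7 = 0 from by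 decide +kernel, show cfn 34 11 7 = 0 from by decide +kernel, show cfn 34 12 7 = 0 from by decide +kernel, show cfn 34 13 7 = 0 from by decide +kernel, show cfn 34 14 7 = 0 from by decide +kernel, show cfn 34 15 7 = 0 from by decide +kernel, show cfn 34 16 7 = 0 from by decide +kernel, show cfn 34 17 7 = 0 from by decide +kernel, Nat.cast_ofNat, Nat.cast_one, Nat.cast_zero]
  ring

theorem c34_8 (γ : ℕ → ℝ) : ∑ i ∈ range (34 / 2 + 1), γ i * (cfn 34 i 8 : ℝ) =
    (4647988224) * γ 0 + (488825856) * γ 1 + (47560464) * γ 2 + (4207896) * γ 3 + (330409) * γ 4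
       + (22202) * γ 5 + (1203) * γ 6 + (47) * γ 7 + (1) * γ 8 + (0) * γ 9 + (0) * γ 10
       + (0) * γ 11 + (0) * γ 12 + (0) * γ 13 + (0) * γ 14 + (0) * γ 15 + (0) * γ 16 + (0) * γ 17 := by
  have h : ((34 / 2 + 1 : ℕ)) = 18 := rfl
  rw [h]
  simp only [sum_range_succ, sum_range_zero, show cfn 34 0 8 = 4647988224 from by decide +kernel, show cfn 34 1 8 = 488825856 from by decide +kernel, show cfn 34 2 8 = 47560464 from by decide +kernel, show cfn 34 3 8 = 4207896 from by decide +kernel, show cfn 34 4 8 = 330409 from by decide +kernel, show cfn 34 5 8 = 22202 from by decide +kernel, show cfn 34 6 8 = 1203 from by decide +kernel, show cfn 34 7 8 = 47 from by decide +kernel, show cfn 34 8 8 = 1 from by decide +kernel, show cfn 34 9 8 = 0 from by decide +kernel, show cfn 34 10 8 = 0 from by decide +kernel, show cfn 34 11 8 = 0 from by decide +kernel, show cfn 34 12 8 = 0 from by decide +kernel, show cfn 34 13 8 = 0 from by decide +kernel, show cfn 34 14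 8 = 0 from by decide +kernel, show cfn 34 15 8 = 0 from by decide +kernel, show cfn 34 16 8 = 0 from by decide +kernel, show cfn 34 17 8 = 0 from by decide +kernel, Nat.cast_ofNat, Nat.cast_one, Nat.cast_zero]
  ring

theorem c34_9 (γ : ℕ → ℝ) : ∑ i ∈ range (34 / 2 + 1), γ i * (cfn 34 i 9 : ℝ) =
    (26855043072) * γ 0 + (3123514368) * γ 1 + (341145792) * γ 2 + (34555248) * γ 3
       + (3191812) * γ 4 + (262501) * γ 5 + (18544) * γ 6 + (1061) * γ 7 + (44) * γ 8 + (1) * γ 9
       + (0) * γ 10 + (0) * γ 11 + (0) * γ 12 + (0) * γ 13 + (0) * γ 14 + (0) * γ 15 + (0) * γ 16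
       + (0) * γ 17 := by
  have h : ((34 / 2 + 1 : ℕ)) = 18 := rfl
  rw [h]
  simp only [sum_range_succ, sum_range_zero, show cfn 34 0 9 = 26855043072 from by decide +kernel, show cfn 34 1 9 = 3123514368 from by decide +kernel, show cfn 34 2 9 = 341145792 from by decide +kernel, show cfn 34 3 9 = 34555248 from by decide +kernel, show cfn 34 4 9 = 3191812 from by decide +kernel, show cfn 34 5 9 = 262501 from by decide +kernel, show cfn 34 6 9 = 18544 from by decide +kernel, show cfn 34 7 9 = 1061 from by decide +kernel, show cfn 34 8 9 = 44 from by decide +kernel, show cfn 34 9 9 = 1 from by decide +kernel, show cfn 34 10 9 = 0 from by decide +kernel, show cfn 34 11 9 = 0 from by decide +kernel, show cfn 34 12 9 = 0 from by decide +kernel, show cfn 34 13 9 = 0 from by decide +kernel, show cfn 34 14 9 = 0 from by decide +kernel, show cfn 34 15 9 = 0 from by decide +kernel, show cfn 34 16 9 = 0 from by decide +kernel, show cfn 34 17 9 = 0 from by decide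 +kernel, Nat.cast_ofNat, Nat.cast_one, Nat.cast_zero]
  ring

theorem c34_10 (γ : ℕ → ℝ) : ∑ i ∈ range (34 / 2 + 1), γ i * (cfn 34 i 10 : ℝ) =
    (134275215360) * γ 0 + (17053670400) * γ 1 + (2057515200) * γ 2 + (233653680) * γ 3
       + (24674260) * γ 4 + (2383409) * γ 5 + (205715) * γ 6 + (15315) * γ 7 + (928) * γ 8
       + (41) * γ 9 + (1) * γ 10 + (0) * γ 11 + (0) * γ 12 + (0) * γ 13 + (0) * γ 14 + (0) * γ 15
       + (0) * γ 16 + (0) * γ 17 := by
  have h : ((34 / 2 + 1 : ℕ)) = 18 := rfl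
  rw [h]
  simp only [sum_range_succ, sum_range_zero, show cfn 34 0 10 = 134275215360 from by decide +kernel, show cfn 34 1 10 = 17053670400 from by decide +kernel, show cfn 34 2 10 = 2057515200 from by decide +kernel, show cfn 34 3 10 = 233653680 from by decide +kernel, show cfn 34 4 10 = 24674260 from by decide +kernel, show cfn 34 5 10 = 2383409 from by decide +kernel, show cfn 34 6 10 = 205715 from by decide +kernel, show cfn 34 7 10 = 15315 from by decide +kernel, show cfn 34 8 10 = 928 from by decide +kernel, show cfn 34 9 10 = 41 from by decide +kernel, show cfn 34 10 10 = 1 from by decide +kernel, show cfn 34 11 10 = 0 from by decide +kernel, show cfn 34 12 10 = 0 from by decide +kernel, show cfn 34 13 10 = 0 from by decide +kernel, show cfn 34 14 10 = 0 from by decide +kernel, show cfn 34 15 10 = 0 from by decide +kernel, show cfn 34 16 10 = 0 from by decide +kernel, show cfn 34 17 10 = 0 from by decide +kernel, Nat.cast_ofNat, Nat.cast_one,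 Nat.cast_zero]
  ring

theorem c34_11 (γ : ℕ → ℝ) : ∑ i ∈ range (34 / 2 + 1), γ i * (cfn 34 i 11 : ℝ) =
    (585928212480) * γ 0 + (80421519360) * γ 1 + (10582540800) * γ 2 + (1325825280) * γ 3
       + (156744640) * γ 4 + (17282432) * γ 5 + (1748874) * γ 6 + (158755) * γ 7 + (12488) * γ 8
       + (804) * γ 9 + (38) * γ 10 + (1) * γ 11 + (0) * γ 12 + (0) * γ 13 + (0) * γ 14 + (0) * γ 15
       + (0) * γ 16 + (0) * γ 17 := by
  have h : ((34 / 2 + 1 : ℕ)) = 18 := rfl
  rw [h]
  simp only [sum_range_succ, sum_range_zero, show cfn 34 0 11 = 585928212480 from by decide +kernel, show cfn 34 1 11 = 80421519360 from by decide +kernel, show cfn 34 2 11 = 10582540800 from by decide +kernel, show cfn 34 3 11 = 1325825280 from by decide +kernel, show cfn 34 4 11 = 156744640 from by decide +kernel, show cfn 34 5 11 = 17282432 from by decide +kernel, show cfn 34 6 11 = 1748874 from by decide +kernel, show cfn 34 7 11 = 158755 from by decide +kernel, show cfn 34 8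 11 = 12488 from by decide +kernel, show cfn 34 9 11 = 804 from by decide +kernel, show cfn 34 10 11 = 38 from by decide +kernel, show cfn 34 11 11 = 1 from by decide +kernel, show cfn 34 12 11 = 0 from by decide +kernel, show cfn 34 13 11 = 0 from by decide +kernel, show cfn 34 14 11 = 0 from by decide +kernel, show cfn 34 15 11 = 0 from by decide +kernel, show cfn 34 16 11 = 0 from by decide +kernel, show cfn 34 17 11 = 0 from by decide +kernel, Nat.cast_ofNat, Nat.cast_one, Nat.cast_zero]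
  ring

theorem c34_12 (γ : ℕ → ℝ) : ∑ i ∈ range (34 / 2 + 1), γ i * (cfn 34 i 12 : ℝ) =
    (2246058147840) * γ 0 + (330302668800) * γ 1 + (46914965760) * γ 2 + (6402140160) * γ 3
       + (833803360) * γ 4 + (102755536) * γ 5 + (11847485) * γ 6 + (1258309) * γ 7
       + (120406) * γ 8 + (10036) * γ 9 + (689) * γ 10 + (35) * γ 11 + (1) * γ 12 + (0) * γ 13
       + (0) * γ 14 + (0) * γ 15 + (0) * γ 16 + (0) * γ 17 := by
  have h : ((34 / 2 + 1 : ℕ)) = 18 := rfl
  rw [h]
  simp only [sum_range_succ, sum_range_zero, show cfn 34 0 12 = 2246058147840 from by decide +kernel, show cfn 34 1 12 = 330302668800 from by decide +kernel, show cfn 34 2 12 = 46914965760 from by decide +kernel, show cfn 34 3 12 = 6402140160 from by decide +kernel, show cfn 34 4 12 = 833803360 from by decide +kernel, show cfn 34 5 12 = 102755536 from by decide +kernel, show cfn 34 6 12 = 11847485 from by decide +kernel, show cfn 34 7 12 = 1258309 from by decide +kernel, show cfn 34 8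 12 = 120406 from by decide +kernel, show cfn 34 9 12 = 10036 from by decide +kernel, show cfn 34 10 12 = 689 from by decide +kernel, show cfn 34 11 12 = 35 from by decide +kernel, show cfn 34 12 12 = 1 from by decide +kernel, show cfn 34 13 12 = 0 from by decide +kernel, show cfn 34 14 12 = 0 from by decide +kernel, show cfn 34 15 12 = 0 from by decide +kernel, show cfn 34 16 12 = 0 from by decide +kernel, show cfn 34 17 12 = 0 from by decide +kernel, Nat.cast_ofNat, Nat.cast_one, Nat.cast_zero]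
  ring

theorem c34_13 (γ : ℕ → ℝ) : ∑ i ∈ range (34 / 2 + 1), γ i * (cfn 34 i 13 : ℝ) =
    (7602042961920) * γ 0 + (1189089607680) * γ 1 + (180734161920) * γ 2 + (26585644800) * γ 3
       + (3765773440) * γ 4 + (510396128) * γ 5 + (65652532) * γ 6 + (7928103) * γ 7
       + (885488) * γ 8 + (89534) * γ 9 + (7932) * γ 10 + (583) * γ 11 + (32) * γ 12 + (1) * γ 13
       + (0) * γ 14 + (0) * γ 15 + (0) * γ 16 + (0) * γ 17 := by
  have h : ((34 / 2 + 1 : ℕ)) = 18 := rfl
  rw [h]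
  simp only [sum_range_succ, sum_range_zero, show cfn 34 0 13 = 7602042961920 from by decide +kernel, show cfn 34 1 13 = 1189089607680 from by decide +kernel, show cfn 34 2 13 = 180734161920 from by decide +kernel, show cfn 34 3 13 = 26585644800 from by decide +kernel, show cfn 34 4 13 = 3765773440 from by decide +kernel, show cfn 34 5 13 = 510396128 from by decide +kernel, show cfn 34 6 13 = 65652532 from by decide +kernel, show cfn 34 7 13 = 7928103 from by decide +kernel, show cfn 34 8 13 = 885488 from by decide +kernel, show cfn 34 9 13 = 89534 from by decide +kernel, show cfn 34 10 13 = 7932 from by decide +kernel, show cfn 34 11 13 = 583 from by decide +kernel, show cfn 34 12 13 = 32 from by decide +kernel, show cfn 34 13 13 = 1 from by decide +kernel, show cfn 34 14 13 = 0 from by decide +kernel, show cfn 34 15 13 = 0 from by decide +kernel, show cfn 34 16 13 = 0 from by decide +kernel, show cfn 34 17 13 = 0 from by decide +kernel, Nat.cast_ofNat,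 Nat.cast_one, Nat.cast_zero]
  ring

theorem c34_14 (γ : ℕ → ℝ) : ∑ i ∈ range (34 / 2 + 1), γ i * (cfn 34 i 14 : ℝ) =
    (22806128885760) * γ 0 + (3770532003840) * γ 1 + (608795765760) * γ 2 + (95697987840) * γ 3
       + (14589477760) * γ 4 + (2146970144) * γ 5 + (303151596) * γ 6 + (40754369) * γ 7
       + (5162836) * γ 8 + (607614) * γ 9 + (65086) * γ 10 + (6149) * γ 11 + (486) * γ 12
       + (29) * γ 13 + (1) * γ 14 + (0) * γ 15 + (0) * γ 16 + (0) * γ 17 := by
  have h : ((34 / 2 + 1 : ℕ)) = 18 := rfl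
  rw [h]
  simp only [sum_range_succ, sum_range_zero, show cfn 34 0 14 = 22806128885760 from by decide +kernel, show cfn 34 1 14 = 3770532003840 from by decide +kernel, show cfn 34 2 14 = 608795765760 from by decide +kernel, show cfn 34 3 14 = 95697987840 from by decide +kernel, show cfn 34 4 14 = 14589477760 from by decide +kernel, show cfn 34 5 14 = 2146970144 from by decide +kernel, show cfn 34 6 14 = 303151596 from by decide +kernel, show cfn 34 7 14 = 40754369 from by decide +kernel, show cfn 34 8 14 = 5162836 from by decide +kernel, show cfn 34 9 14 = 607614 from by decide +kernel, show cfn 34 10 14 = 65086 from by decide +kernel, show cfn 34 11 14 = 6149 from by decide +kernel, show cfn 34 12 14 = 486 from by decide +kernel, show cfn 34 13 14 = 29 from by decide +kernel, show cfn 34 14 14 = 1 from by decide +kernel, show cfn 34 15 14 = 0 from by decide +kernel, show cfn 34 16 14 = 0 from by decide +kernel, show cfn 34 17 14 = 0 from by decide +kernel,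 Nat.cast_ofNat, Nat.cast_one, Nat.cast_zero]
  ring

theorem c34_15 (γ : ℕ → ℝ) : ∑ i ∈ range (34 / 2 + 1), γ i * (cfn 34 i 15 : ℝ) =
    (60816343695360) * γ 0 + (10569685401600) * γ 1 + (1801501900800) * γ 2
       + (300395397120) * γ 3 + (48862627840) * γ 4 + (7725786112) * γ 5 + (1182149760) * γ 6
       + (174074240) * γ 7 + (24489176) * γ 8 + (3259732) * γ 9 + (405076) * γ 10 + (46090) * γ 11
       + (4660) * γ 12 + (398) * γ 13 + (26) * γ 14 + (1) * γ 15 + (0) * γ 16 + (0) * γ 17 := by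
  have h : ((34 / 2 + 1 : ℕ)) = 18 := rfl
  rw [h]
  simp only [sum_range_succ, sum_range_zero, show cfn 34 0 15 = 60816343695360 from by decide +kernel, show cfn 34 1 15 = 10569685401600 from by decide +kernel, show cfn 34 2 15 = 1801501900800 from by decide +kernel, show cfn 34 3 15 = 300395397120 from by decide +kernel, show cfn 34 4 15 = 48862627840 from by decide +kernel, show cfn 34 5 15 = 7725786112 from by decide +kernel, show cfn 34 6 15 = 1182149760 from by decide +kernel, show cfn 34 7 15 = 174074240 from by decide +kernel, show cfn 34 8 15 = 24489176 from by decide +kernel, show cfn 34 9 15 = 3259732 from by decide +kernel, show cfn 34 10 15 = 405076 from by decide +kernel, show cfn 34 11 15 = 46090 from by decide +kernel, show cfn 34 12 15 = 4660 from by decide +kernel, show cfn 34 13 15 = 398 from by decide +kernel, show cfn 34 14 15 = 26 from by decide +kernel, show cfn 34 15 15 = 1 from by decide +kernel, show cfn 34 16 15 = 0 from by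 decide +kernel, show cfn 34 17 15 = 0 from by decide +kernel, Nat.cast_ofNat, Nat.cast_one, Nat.cast_zero]
  ring

theorem c34_16 (γ : ℕ → ℝ) : ∑ i ∈ range (34 / 2 + 1), γ i * (cfn 34 i 16 : ℝ) =
    (144438816276480) * γ 0 + (26261602959360) * γ 1 + (4699026739200) * γ 2
       + (825924126720) * γ 3 + (142284962560) * γ 4 + (23961080576) * γ 5 + (3931550832) * γ 6
       + (625986920) * γ 7 + (96220561) * γ 8 + (14182628) * γ 9 + (1986698) * γ 10
       + (261206) * γ 11 + (31655) * γ 12 + (3438) * γ 13 + (319) * γ 14 + (23) * γ 15 + (1) * γ 16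
       + (0) * γ 17 := by
  have h : ((34 / 2 + 1 : ℕ)) = 18 := rfl
  rw [h]
  simp only [sum_range_succ, sum_range_zero, show cfn 34 0 16 = 144438816276480 from by decide +kernel, show cfn 34 1 16 = 26261602959360 from by decide +kernel, show cfn 34 2 16 = 4699026739200 from by decide +kernel, show cfn 34 3 16 = 825924126720 from by decide +kernel, show cfn 34 4 16 = 142284962560 from by decide +kernel, show cfn 34 5 16 = 23961080576 from by decide +kernel, show cfn 34 6 16 = 3931550832 from by decide +kernel, show cfn 34 7 16 = 625986920 from by decide +kernel, show cfn 34 8 16 = 96220561 from by decide +kernel, show cfn 34 9 16 = 14182628 from by decide +kernel, show cfn 34 10 16 = 1986698 from by decide +kernel, show cfn 34 11 16 = 261206 from by decide +kernel, show cfn 34 12 16 = 31655 from by decide +kernel, show cfn 34 13 16 = 3438 from by decide +kernel, show cfn 34 14 16 = 319 from by decide +kernel, show cfn 34 15 16 = 23 from by decide +kernel,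 show cfn 34 16 16 = 1 from by decide +kernel, show cfn 34 17 16 = 0 from by decide +kernel, Nat.cast_ofNat, Nat.cast_one, Nat.cast_zero]
  ring

theorem c34_17 (γ : ℕ → ℝ) : ∑ i ∈ range (34 / 2 + 1), γ i * (cfn 34 i 17 : ℝ) =
    (305870434467840) * γ 0 + (57930006528000) * γ 1 + (10829173800960) * γ 2
       + (1995250544640) * γ 3 + (361729162240) * γ 4 + (64400123648) * γ 5 + (11232064320) * γ 6
       + (1913455952) * γ 7 + (317222212) * γ 8 + (50940297) * γ 9 + (7875264) * γ 10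
       + (1162590) * γ 11 + (162036) * γ 12 + (20971) * γ 13 + (2456) * γ 14 + (249) * γ 15
       + (20) * γ 16 + (1) * γ 17 := by
  have h : ((34 / 2 + 1 : ℕ)) = 18 := rfl
  rw [h]
  simp only [sum_range_succ, sum_range_zero, show cfn 34 0 17 = 305870434467840 from by decide +kernel, show cfn 34 1 17 = 57930006528000 from by decide +kernel, show cfn 34 2 17 = 10829173800960 from by decide +kernel, show cfn 34 3 17 = 1995250544640 from by decide +kernel, show cfn 34 4 17 = 361729162240 from by decide +kernel, show cfn 34 5 17 = 64400123648 from by decide +kernel, show cfn 34 6 17 = 11232064320 from by decide +kernel, show cfn 34 7 17 = 1913455952 from by decide +kernel, show cfn 34 8 17 = 317222212 from by decide +kernel, show cfn 34 9 17 = 50940297 from by decide +kernel, show cfn 34 10 17 = 7875264 from by decide +kernel, show cfn 34 11 17 = 1162590 from by decide +kernel, show cfn 34 12 17 = 162036 from by decide +kernel, show cfn 34 13 17 = 20971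 from by decide +kernel, show cfn 34 14 17 = 2456 from by decide +kernel, show cfn 34 15 17 = 249 from by decide +kernel, show cfn 34 16 17 = 20 from by decide +kernel, show cfn 34 17 17 = 1 from by decide +kernel, Nat.cast_ofNat, Nat.cast_one, Nat.cast_zero]
  ring

theorem c34_18 (γ : ℕ → ℝ) : ∑ i ∈ range (34 / 2 + 1), γ i * (cfn 34 i 18 : ℝ) =
    (577755265105920) * γ 0 + (113542812794880) * γ 1 + (22078807326720) * γ 2
       + (4243501854720) * γ 3 + (805118172160) * γ 4 + (150569307904) * γ 5 + (27706743616) * γ 6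
       + (5005843664) * γ 7 + (885671780) * γ 8 + (152951073) * γ 9 + (25675077) * γ 10
       + (4166778) * γ 11 + (649032) * γ 12 + (96055) * γ 13 + (13309) * γ 14 + (1687) * γ 15
       + (188) * γ 16 + (17) * γ 17 := by
  have h : ((34 / 2 + 1 : ℕ)) = 18 := rfl
  rw [h]
  simp only [sum_range_succ, sum_range_zero, show cfn 34 0 18 = 577755265105920 from by decide +kernel, show cfn 34 1 18 = 113542812794880 from by decide +kernel, show cfn 34 2 18 = 22078807326720 from by decide +kernel, show cfn 34 3 18 = 4243501854720 from by decide +kernel, show cfn 34 4 18 = 805118172160 from by decide +kernel, show cfn 34 5 18 = 150569307904 from by decide +kernel, show cfn 34 6 18 = 27706743616 from by decide +kernel, show cfn 34 7 18 = 5005843664 from by decide +kernel, show cfn 34 8 18 = 885671780 from by decide +kernel, show cfn 34 9 18 = 152951073 from by decide +kernel, show cfn 34 10 18 = 25675077 from by decide +kernel, show cfn 34 11 18 = 4166778 from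 by decide +kernel, show cfn 34 12 18 = 649032 from by decide +kernel, show cfn 34 13 18 = 96055 from by decide +kernel, show cfn 34 14 18 = 13309 from by decide +kernel, show cfn 34 15 18 = 1687 from by decide +kernel, show cfn 34 16 18 = 188 from by decide +kernel, show cfn 34 17 18 = 17 from by decide +kernel, Nat.cast_ofNat, Nat.cast_one, Nat.cast_zero]
  ring

theorem c34_19 (γ : ℕ → ℝ) : ∑ i ∈ range (34 / 2 + 1), γ i * (cfn 34 i 19 : ℝ) =
    (973061499125760) * γ 0 + (197734422282240) * γ 1 + (39840894812160) * γ 2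
       + (7952971530240) * γ 3 + (1571363061760) * γ 4 + (306969608192) * γ 5 + (59214199808) * γ 6
       + (11261609472) * γ 7 + (2107723648) * γ 8 + (387328512) * γ 9 + (69690006) * γ 10
       + (12232869) * γ 11 + (2085096) * γ 12 + (342964) * γ 13 + (53966) * γ 14 + (8021) * γ 15
       + (1104) * γ 16 + (136) * γ 17 := by
  have h : ((34 / 2 + 1 : ℕ)) = 18 := rfl
  rw [h]
  simp only [sum_range_succ, sum_range_zero, show cfn 34 0 19 = 973061499125760 from by decide +kernel, show cfn 34 1 19 = 197734422282240 from by decide +kernel, show cfn 34 2 19 = 39840894812160 from by decide +kernel, show cfn 34 3 19 = 7952971530240 from by decide +kernel, show cfn 34 4 19 = 1571363061760 from by decide +kernel, show cfn 34 5 19 = 306969608192 from by decide +kernel, show cfn 34 6 19 = 59214199808 from by decide +kernel, show cfn 34 7 19 = 11261609472 from by decide +kernel, show cfn 34 8 19 = 2107723648 from by decide +kernel, show cfn 34 9 19 = 387328512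 from by decide +kernel, show cfn 34 10 19 = 69690006 from by decide +kernel, show cfn 34 11 19 = 12232869 from by decide +kernel, show cfn 34 12 19 = 2085096 from by decide +kernel, show cfn 34 13 19 = 342964 from by decide +kernel, show cfn 34 14 19 = 53966 from by decide +kernel, show cfn 34 15 19 = 8021 from by decide +kernel, show cfn 34 16 19 = 1104 from by decide +kernel, show cfn 34 17 19 = 136 from by decide +kernel, Nat.cast_ofNat, Nat.cast_one, Nat.cast_zero]
  ring

theorem c34_20 (γ : ℕ → ℝ) : ∑ i ∈ range (34 / 2 + 1), γ i * (cfn 34 i 20 : ℝ) =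
    (1459592248688640) * γ 0 + (305707823923200) * γ 1 + (63598426521600) * γ 2
       + (13133808599040) * γ 3 + (2690548449280) * γ 4 + (546325569536) * γ 5
       + (109855142400) * γ 6 + (21851130880) * γ 7 + (4293871424) * γ 8 + (832277088) * γ 9
       + (158819253) * γ 10 + (29766495) * γ 11 + (5463135) * γ 12 + (978052) * γ 13
       + (169919) * γ 14 + (28443) * γ 15 + (4540) * γ 16 + (680) * γ 17 := by
  have h : ((34 / 2 + 1 : ℕ)) = 18 := rfl
  rw [h]
  simp only [sum_range_succ, sum_range_zero, show cfn 34 0 20 = 1459592248688640 from by decide +kernel, show cfn 34 1 20 = 305707823923200 from by decide +kernel, show cfn 34 2 20 = 63598426521600 from by decide +kernel, show cfn 34 3 20 = 13133808599040 from by decide +kernel, show cfn 34 4 20 = 2690548449280 from by decide +kernel, show cfn 34 5 20 = 546325569536 from by decide +kernel, show cfn 34 6 20 = 109855142400 from by decide +kernel, show cfn 34 7 20 = 21851130880 from by decide +kernel,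 show cfn 34 8 20 = 4293871424 from by decide +kernel, show cfn 34 9 20 = 832277088 from by decide +kernel, show cfn 34 10 20 = 158819253 from by decide +kernel, show cfn 34 11 20 = 29766495 from by decide +kernel, show cfn 34 12 20 = 5463135 from by decide +kernel, show cfn 34 13 20 = 978052 from by decide +kernel, show cfn 34 14 20 = 169919 from by decide +kernel, show cfn 34 15 20 = 28443 from by decide +kernel, show cfn 34 16 20 = 4540 from by decide +kernel, show cfn 34 17 20 = 680 from by decide +kernel, Nat.cast_ofNat, Nat.cast_one, Nat.cast_zero]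
  ring

theorem c34_21 (γ : ℕ → ℝ) : ∑ i ∈ range (34 / 2 + 1), γ i * (cfn 34 i 21 : ℝ) =
    (1946122998251520) * γ 0 + (418884762992640) * γ 1 + (89684960870400) * γ 2
       + (19092200816640) * γ 3 + (4039134085120) * γ 4 + (848730800128) * γ 5
       + (177017808896) * γ 6 + (36618380800) * γ 7 + (7506360064) * γ 8 + (1523172672) * γ 9
       + (305568564) * γ 10 + (60511803) * γ 11 + (11806440) * γ 12 + (2264167) * γ 13
       + (425476) * γ 14 + (78029) * γ 15 + (13888) * γ 16 + (2380) * γ 17 := by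
  have h : ((34 / 2 + 1 : ℕ)) = 18 := rfl
  rw [h]
  simp only [sum_range_succ, sum_range_zero, show cfn 34 0 21 = 1946122998251520 from by decide +kernel, show cfn 34 1 21 = 418884762992640 from by decide +kernel, show cfn 34 2 21 = 89684960870400 from by decide +kernel, show cfn 34 3 21 = 19092200816640 from by decide +kernel, show cfn 34 4 21 = 4039134085120 from by decide +kernel, show cfn 34 5 21 = 848730800128 from by decide +kernel, show cfn 34 6 21 = 177017808896 from by decide +kernel, show cfn 34 7 21 = 36618380800 from by decide +kernel, show cfn 34 8 21 = 7506360064 from by decide +kernel, show cfn 34 9 21 = 1523172672 from by decide +kernel, show cfn 34 10 21 = 305568564 from by decide +kernel, show cfn 34 11 21 = 60511803 from by decide +kernel, show cfn 34 12 21 = 11806440 from by decide +kernel, show cfn 34 13 21 = 2264167 from by decide +kernel, show cfn 34 14 21 = 425476 from by decide +kernel, show cfn 34 15 21 = 78029 from by decide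 +kernel, show cfn 34 16 21 = 13888 from by decide +kernel, show cfn 34 17 21 = 2380 from by decide +kernel, Nat.cast_ofNat, Nat.cast_one, Nat.cast_zero]
  ring

theorem c34_22 (γ : ℕ → ℝ) : ∑ i ∈ range (34 / 2 + 1), γ i * (cfn 34 i 22 : ℝ) =
    (2299963543388160) * γ 0 + (507344899276800) * γ 1 + (111459037347840) * γ 2
       + (24379349729280) * γ 3 + (5307279278080) * γ 4 + (1149457055744) * γ 5
       + (247564564480) * γ 6 + (52994904576) * γ 7 + (11268585728) * γ 8 + (2378432448) * γ 9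
       + (497898492) * γ 10 + (103274625) * γ 11 + (21199998) * γ 12 + (4300699) * γ 13
       + (860639) * γ 14 + (169507) * γ 15 + (32760) * γ 16 + (6188) * γ 17 := by
  have h : ((34 / 2 + 1 : ℕ)) = 18 := rfl
  rw [h]
  simp only [sum_range_succ, sum_range_zero, show cfn 34 0 22 = 2299963543388160 from by decide +kernel, show cfn 34 1 22 = 507344899276800 from by decide +kernel, show cfn 34 2 22 = 111459037347840 from by decide +kernel, show cfn 34 3 22 = 24379349729280 from by decide +kernel, show cfn 34 4 22 = 5307279278080 from by decide +kernel, show cfn 34 5 22 = 1149457055744 from by decide +kernel, show cfn 34 6 22 = 247564564480 from by decide +kernel, show cfn 34 7 22 = 52994904576 from by decide +kernel, show cfn 34 8 22 = 11268585728 from by decide +kernel, show cfn 34 9 22 = 2378432448 from by decide +kernel, show cfn 34 10 22 = 497898492 from by decide +kernel, show cfn 34 11 22 = 103274625 from by decide +kernel, show cfn 34 12 22 = 21199998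 from by decide +kernel, show cfn 34 13 22 = 4300699 from by decide +kernel, show cfn 34 14 22 = 860639 from by decide +kernel, show cfn 34 15 22 = 169507 from by decide +kernel, show cfn 34 16 22 = 32760 from by decide +kernel, show cfn 34 17 22 = 6188 from by decide +kernel, Nat.cast_ofNat, Nat.cast_one, Nat.cast_zero]
  ring

theorem c34_23 (γ : ℕ → ℝ) : ∑ i ∈ range (34 / 2 + 1), γ i * (cfn 34 i 23 : ℝ) =
    (2399961958318080) * γ 0 + (541167892561920) * γ 1 + (121653669396480) * γ 2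
       + (27257796034560) * γ 3 + (6085897093120) * γ 4 + (1353661939712) * γ 5
       + (299858362368) * γ 6 + (66129231872) * γ 7 + (14513502208) * γ 8 + (3168525312) * γ 9
       + (687736896) * γ 10 + (148321344) * γ 11 + (31760676) * γ 12 + (6746974) * γ 13
       + (1420406) * γ 14 + (295971) * γ 15 + (60944) * γ 16 + (12376) * γ 17 := by
  have h : ((34 / 2 + 1 : ℕ)) = 18 := rfl
  rw [h]
  simp only [sum_range_succ, sum_range_zero, show cfn 34 0 23 = 2399961958318080 from by decide +kernel, show cfn 34 1 23 = 541167892561920 from by decide +kernel, show cfn 34 2 23 = 121653669396480 from by decide +kernel, show cfn 34 3 23 = 27257796034560 from by decide +kernel, show cfn 34 4 23 = 6085897093120 from by decide +kernel, show cfn 34 5 23 = 1353661939712 from by decide +kernel, show cfn 34 6 23 = 299858362368 from by decide +kernel, show cfn 34 7 23 = 66129231872 from by decide +kernel, show cfn 34 8 23 = 14513502208 from by decide +kernel, show cfn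 34 9 23 = 3168525312 from by decide +kernel, show cfn 34 10 23 = 687736896 from by decide +kernel, show cfn 34 11 23 = 148321344 from by decide +kernel, show cfn 34 12 23 = 31760676 from by decide +kernel, show cfn 34 13 23 = 6746974 from by decide +kernel, show cfn 34 14 23 = 1420406 from by decide +kernel, show cfn 34 15 23 = 295971 from by decide +kernel, show cfn 34 16 23 = 60944 from by decide +kernel, show cfn 34 17 23 = 12376 from by decide +kernel, Nat.cast_ofNat, Nat.cast_one, Nat.cast_zero]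
  ring

theorem c34_24 (γ : ℕ → ℝ) : ∑ i ∈ range (34 / 2 + 1), γ i * (cfn 34 i 24 : ℝ) =
    (2199965128458240) * γ 0 + (505874334351360) * γ 1 + (116061964861440) * γ 2
       + (26564123688960) * γ 3 + (6064440279040) * γ 4 + (1380700389376) * γ 5
       + (313427288064) * γ 6 + (70926381056) * γ 7 + (15995784704) * γ 8 + (3594256896) * γ 9
       + (804416208) * γ 10 + (179251512) * γ 11 + (39753273) * γ 12 + (8769982) * γ 13
       + (1923493) * γ 14 + (419133) * γ 15 + (90662) * γ 16 + (19448) * γ 17 := by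
  have h : ((34 / 2 + 1 : ℕ)) = 18 := rfl
  rw [h]
  simp only [sum_range_succ, sum_range_zero, show cfn 34 0 24 = 2199965128458240 from by decide +kernel, show cfn 34 1 24 = 505874334351360 from by decide +kernel, show cfn 34 2 24 = 116061964861440 from by decide +kernel, show cfn 34 3 24 = 26564123688960 from by decide +kernel, show cfn 34 4 24 = 6064440279040 from by decide +kernel, show cfn 34 5 24 = 1380700389376 from by decide +kernel, show cfn 34 6 24 = 313427288064 from by decide +kernel, show cfn 34 7 24 = 70926381056 from by decide +kernel, show cfn 34 8 24 = 15995784704 from by decide +kernel, show cfn 34 9 24 = 3594256896 from by decide +kernel, show cfn 34 10 24 = 804416208 from by decide +kernel, show cfn 34 11 24 = 179251512 from by decide +kernel, show cfn 34 12 24 = 39753273 from by decide +kernel, show cfn 34 13 24 = 8769982 from by decide +kernel, show cfn 34 14 24 = 1923493 from by decide +kernel, show cfn 34 15 24 = 419133 from by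 decide +kernel, show cfn 34 16 24 = 90662 from by decide +kernel, show cfn 34 17 24 = 19448 from by decide +kernel, Nat.cast_ofNat, Nat.cast_one, Nat.cast_zero]
  ring

theorem c34_25 (γ : ℕ → ℝ) : ∑ i ∈ range (34 / 2 + 1), γ i * (cfn 34 i 25 : ℝ) =
    (1759972102766592) * γ 0 + (411758179123200) * γ 1 + (96179689881600) * γ 2
       + (22427955363840) * γ 3 + (5220570234880) * γ 4 + (1212888055808) * γ 5
       + (281219727360) * γ 6 + (65063198720) * γ 7 + (15018465280) * γ 8 + (3458158080) * γ 9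
       + (794169792) * γ 10 + (181861680) * γ 11 + (41517060) * γ 12 + (9446125) * γ 13
       + (2141360) * γ 14 + (483483) * γ 15 + (108680) * γ 16 + (24310) * γ 17 := by
  have h : ((34 / 2 + 1 : ℕ)) = 18 := rfl
  rw [h]
  simp only [sum_range_succ, sum_range_zero, show cfn 34 0 25 = 1759972102766592 from by decide +kernel, show cfn 34 1 25 = 411758179123200 from by decide +kernel, show cfn 34 2 25 = 96179689881600 from by decide +kernel, show cfn 34 3 25 = 22427955363840 from by decide +kernel, show cfn 34 4 25 = 5220570234880 from by decide +kernel, show cfn 34 5 25 = 1212888055808 from by decide +kernel, show cfn 34 6 25 = 281219727360 from by decide +kernel, show cfn 34 7 25 = 65063198720 from by decide +kernel, show cfn 34 8 25 = 15018465280 from by decide +kernel, show cfn 34 9 25 = 3458158080 from by decide +kernel, show cfn 34 10 25 = 794169792 from by decide +kernel, show cfn 34 11 25 = 181861680 from by decide +kernel, show cfn 34 12 25 =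 41517060 from by decide +kernel, show cfn 34 13 25 = 9446125 from by decide +kernel, show cfn 34 14 25 = 2141360 from by decide +kernel, show cfn 34 15 25 = 483483 from by decide +kernel, show cfn 34 16 25 = 108680 from by decide +kernel, show cfn 34 17 25 = 24310 from by decide +kernel, Nat.cast_ofNat, Nat.cast_one, Nat.cast_zero]
  ring

theorem c34_26 (γ : ℕ → ℝ) : ∑ i ∈ range (34 / 2 + 1), γ i * (cfn 34 i 26 : ℝ) =
    (1218442224992256) * γ 0 + (289407177326592) * γ 1 + (68665894502400) * γ 2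
       + (16273338531840) * γ 3 + (3852036997120) * γ 4 + (910656733184) * γ 5
       + (215000383488) * γ 6 + (50688696320) * γ 7 + (11932579840) * γ 8 + (2804590080) * γ 9
       + (658070976) * γ 10 + (154133232) * γ 11 + (36031860) * γ 12 + (8405905) * γ 13
       + (1956695) * γ 14 + (454389) * γ 15 + (105248) * γ 16 + (24310) * γ 17 := by
  have h : ((34 / 2 + 1 : ℕ)) = 18 := rfl
  rw [h]
  simp only [sum_range_succ, sum_range_zero, show cfn 34 0 26 = 1218442224992256 from by decide +kernel, show cfn 34 1 26 = 289407177326592 from by decide +kernel, show cfn 34 2 26 = 68665894502400 from by decide +kernel, show cfn 34 3 26 = 16273338531840 from by decide +kernel, show cfn 34 4 26 = 3852036997120 from by decide +kernel, show cfn 34 5 26 = 910656733184 from by decide +kernel, show cfn 34 6 26 = 215000383488 from by decide +kernel, show cfn 34 7 26 = 50688696320 from by decide +kernel, show cfn 34 8 26 = 11932579840 from by decide +kernel, show cfn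 34 9 26 = 2804590080 from by decide +kernel, show cfn 34 10 26 = 658070976 from by decide +kernel, show cfn 34 11 26 = 154133232 from by decide +kernel, show cfn 34 12 26 = 36031860 from by decide +kernel, show cfn 34 13 26 = 8405905 from by decide +kernel, show cfn 34 14 26 = 1956695 from by decide +kernel, show cfn 34 15 26 = 454389 from by decide +kernel, show cfn 34 16 26 = 105248 from by decide +kernel, show cfn 34 17 26 = 24310 from by decide +kernel, Nat.cast_ofNat, Nat.cast_one, Nat.cast_zero]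
  ring

theorem c34_27 (γ : ℕ → ℝ) : ∑ i ∈ range (34 / 2 + 1), γ i * (cfn 34 i 27 : ℝ) =
    (722039837032448) * γ 0 + (173752901959680) * γ 1 + (41783018913792) * γ 2
       + (10040408801280) * γ 3 + (2410864967680) * γ 4 + (578428076032) * γ 5
       + (138664345600) * γ 6 + (33212530688) * γ 7 + (7947714560) * γ 8 + (1900052480) * γ 9
       + (453785088) * γ 10 + (108261120) * γ 11 + (25799232) * γ 12 + (6140800) * γ 13
       + (1459810) * γ 14 + (346567) * γ 15 + (82160) * γ 16 + (19448) * γ 17 := by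
  have h : ((34 / 2 + 1 : ℕ)) = 18 := rfl
  rw [h]
  simp only [sum_range_succ, sum_range_zero, show cfn 34 0 27 = 722039837032448 from by decide +kernel, show cfn 34 1 27 = 173752901959680 from by decide +kernel, show cfn 34 2 27 = 41783018913792 from by decide +kernel, show cfn 34 3 27 = 10040408801280 from by decide +kernel, show cfn 34 4 27 = 2410864967680 from by decide +kernel, show cfn 34 5 27 = 578428076032 from by decide +kernel, show cfn 34 6 27 = 138664345600 from by decide +kernel, show cfn 34 7 27 = 33212530688 from by decide +kernel, show cfn 34 8 27 = 7947714560 from by decide +kernel, show cfn 34 9 27 = 1900052480 from by decide +kernel, show cfn 34 10 27 = 453785088 from by decide +kernel, show cfn 34 11 27 = 108261120 from by decide +kernel, show cfn 34 12 27 = 25799232 from by decide +kernel, show cfn 34 13 27 = 6140800 from by decide +kernel, show cfn 34 14 27 = 1459810 from by decide +kernel, show cfn 34 15 27 = 346567 from by decide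 +kernel, show cfn 34 16 27 = 82160 from by decide +kernel, show cfn 34 17 27 = 19448 from by decide +kernel, Nat.cast_ofNat, Nat.cast_one, Nat.cast_zero]
  ring

theorem c34_28 (γ : ℕ → ℝ) : ∑ i ∈ range (34 / 2 + 1), γ i * (cfn 34 i 28 : ℝ) =
    (361019918516224) * γ 0 + (87841744879616) * γ 1 + (21364425621504) * γ 2
       + (5193924083712) * γ 3 + (1262139473920) * γ 4 + (306562727936) * γ 5 + (74425892864) * γ 6
       + (18059821056) * γ 7 + (4380049408) * γ 8 + (1061724160) * γ 9 + (257218304) * γ 10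
       + (62278656) * γ 11 + (15069984) * γ 12 + (3644272) * γ 13 + (880685) * γ 14
       + (212681) * γ 15 + (51324) * γ 16 + (12376) * γ 17 := by
  have h : ((34 / 2 + 1 : ℕ)) = 18 := rfl
  rw [h]
  simp only [sum_range_succ, sum_range_zero, show cfn 34 0 28 = 361019918516224 from by decide +kernel, show cfn 34 1 28 = 87841744879616 from by decide +kernel, show cfn 34 2 28 = 21364425621504 from by decide +kernel, show cfn 34 3 28 = 5193924083712 from by decide +kernel, show cfn 34 4 28 = 1262139473920 from by decide +kernel, show cfn 34 5 28 = 306562727936 from by decide +kernel, show cfn 34 6 28 = 74425892864 from by decide +kernel, show cfn 34 7 28 = 18059821056 from by decide +kernel, show cfn 34 8 28 = 4380049408 from by decide +kernel, show cfn 34 9 28 = 1061724160 from by decide +kernel, show cfn 34 10 28 = 257218304 from by decide +kernel, show cfn 34 11 28 = 62278656 from by decide +kernel, show cfn 34 12 28 = 15069984 from by decide +kernel,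 show cfn 34 13 28 = 3644272 from by decide +kernel, show cfn 34 14 28 = 880685 from by decide +kernel, show cfn 34 15 28 = 212681 from by decide +kernel, show cfn 34 16 28 = 51324 from by decide +kernel, show cfn 34 17 28 = 12376 from by decide +kernel, Nat.cast_ofNat, Nat.cast_one, Nat.cast_zero]
  ring

theorem c34_29 (γ : ℕ → ℝ) : ∑ i ∈ range (34 / 2 + 1), γ i * (cfn 34 i 29 : ℝ) =
    (149387552489472) * γ 0 + (36681168191488) * γ 1 + (9004868698112) * γ 2
       + (2210112995328) * γ 3 + (542315118592) * γ 4 + (133041225728) * γ 5 + (32629850112) * γ 6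
       + (8000831488) * γ 7 + (1961295872) * γ 8 + (480657408) * γ 9 + (117763072) * γ 10
       + (28844288) * γ 11 + (7062912) * γ 12 + (1728928) * γ 13 + (423092) * γ 14
       + (103503) * γ 15 + (25312) * γ 16 + (6188) * γ 17 := by
  have h : ((34 / 2 + 1 : ℕ)) = 18 := rfl
  rw [h]
  simp only [sum_range_succ, sum_range_zero, show cfn 34 0 29 = 149387552489472 from by decide +kernel, show cfn 34 1 29 = 36681168191488 from by decide +kernel, show cfn 34 2 29 = 9004868698112 from by decide +kernel, show cfn 34 3 29 = 2210112995328 from by decide +kernel, show cfn 34 4 29 = 542315118592 from by decide +kernel, show cfn 34 5 29 = 133041225728 from by decide +kernel, show cfn 34 6 29 = 32629850112 from by decide +kernel, show cfn 34 7 29 = 8000831488 from by decide +kernel, show cfn 34 8 29 = 1961295872 from by decide +kernel, show cfn 34 9 29 = 480657408 from by decide +kernel, show cfn 34 10 29 = 117763072 from by decide +kernel, show cfn 34 11 29 =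 28844288 from by decide +kernel, show cfn 34 12 29 = 7062912 from by decide +kernel, show cfn 34 13 29 = 1728928 from by decide +kernel, show cfn 34 14 29 = 423092 from by decide +kernel, show cfn 34 15 29 = 103503 from by decide +kernel, show cfn 34 16 29 = 25312 from by decide +kernel, show cfn 34 17 29 = 6188 from by decide +kernel, Nat.cast_ofNat, Nat.cast_one, Nat.cast_zero]
  ring

theorem c34_30 (γ : ℕ → ℝ) : ∑ i ∈ range (34 / 2 + 1), γ i * (cfn 34 i 30 : ℝ) =
    (49795850829824) * γ 0 + (12315818721280) * γ 1 + (3045735792640) * γ 2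
       + (753146003456) * γ 3 + (186218708992) * γ 4 + (46038777856) * γ 5 + (11380981760) * γ 6
       + (2813132800) * γ 7 + (695271424) * γ 8 + (171819008) * γ 9 + (42456064) * γ 10
       + (10489600) * γ 11 + (2591360) * γ 12 + (640096) * γ 13 + (158092) * γ 14 + (39041) * γ 15
       + (9640) * γ 16 + (2380) * γ 17 := by
  have h : ((34 / 2 + 1 : ℕ)) = 18 := rfl
  rw [h]
  simp only [sum_range_succ, sum_range_zero, show cfn 34 0 30 = 49795850829824 from by decide +kernel, show cfn 34 1 30 = 12315818721280 from by decide +kernel, show cfn 34 2 30 = 3045735792640 from by decide +kernel, show cfn 34 3 30 = 753146003456 from by decide +kernel, show cfn 34 4 30 = 186218708992 from by decide +kernel, show cfn 34 5 30 = 46038777856 from by decide +kernel, show cfn 34 6 30 = 11380981760 from by decide +kernel, show cfn 34 7 30 = 2813132800 from by decide +kernel, show cfn 34 8 30 = 695271424 from by decide +kernel, show cfn 34 9 30 = 171819008 from by decide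 +kernel, show cfn 34 10 30 = 42456064 from by decide +kernel, show cfn 34 11 30 = 10489600 from by decide +kernel, show cfn 34 12 30 = 2591360 from by decide +kernel, show cfn 34 13 30 = 640096 from by decide +kernel, show cfn 34 14 30 = 158092 from by decide +kernel, show cfn 34 15 30 = 39041 from by decide +kernel, show cfn 34 16 30 = 9640 from by decide +kernel, show cfn 34 17 30 = 2380 from by decide +kernel, Nat.cast_ofNat, Nat.cast_one, Nat.cast_zero]
  ring

theorem c34_31 (γ : ℕ → ℝ) : ∑ i ∈ range (34 / 2 + 1), γ i * (cfn 34 i 31 : ℝ) =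
    (12850542149632) * γ 0 + (3195455668224) * γ 1 + (794568949760) * γ 2 + (197568495616) * γ 3
       + (49123688448) * γ 4 + (12213813248) * γ 5 + (3036676096) * γ 6 + (754974720) * γ 7
       + (187695104) * γ 8 + (46661632) * γ 9 + (11599872) * γ 10 + (2883584) * γ 11
       + (716800) * γ 12 + (178176) * γ 13 + (44288) * γ 14 + (11008) * γ 15 + (2736) * γ 16
       + (680) * γ 17 := by
  have h : ((34 / 2 + 1 : ℕ)) = 18 := rfl
  rw [h]
  simp only [sum_range_succ, sum_range_zero, show cfn 34 0 31 = 12850542149632 from by decide +kernel, show cfn 34 1 31 = 3195455668224 from by decide +kernel, show cfn 34 2 31 = 794568949760 from by decide +kernel, show cfn 34 3 31 = 197568495616 from by decide +kernel, show cfn 34 4 31 = 49123688448 from by decide +kernel, show cfn 34 5 31 = 12213813248 from by decide +kernel, show cfn 34 6 31 = 3036676096 from by decide +kernel, show cfn 34 7 31 = 754974720 from by decide +kernel, show cfn 34 8 31 = 187695104 from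 by decide +kernel, show cfn 34 9 31 = 46661632 from by decide +kernel, show cfn 34 10 31 = 11599872 from by decide +kernel, show cfn 34 11 31 = 2883584 from by decide +kernel, show cfn 34 12 31 = 716800 from by decide +kernel, show cfn 34 13 31 = 178176 from by decide +kernel, show cfn 34 14 31 = 44288 from by decide +kernel, show cfn 34 15 31 = 11008 from by decide +kernel, show cfn 34 16 31 = 2736 from by decide +kernel, show cfn 34 17 31 = 680 from by decide +kernel, Nat.cast_ofNat, Nat.cast_one, Nat.cast_zero]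
  ring

theorem q34_0 (γ : ℕ → ℝ) (h0 : γ 0 = 1)
    (h : ∀ n < 34, 2 * (((34 : ℕ) : ℝ) - ((n : ℕ) : ℝ)) * ∑ i ∈ range (34 / 2 + 1), γ i * (cfn 34 i n : ℝ) ≤
      ((n : ℝ) + 1) * ∑ i ∈ range (34 / 2 + 1), γ i * (cfn 34 i (n + 1) : ℝ)) :
    0 ≤ (0) * γ 0 + (1) * γ 1 + (0) * γ 2 + (0) * γ 3 + (0) * γ 4 + (0) * γ 5 + (0) * γ 6 + (0) * γ 7
       + (0) * γ 8 + (0) * γ 9 + (0) * γ 10 + (0) * γ 11 + (0) * γ 12 + (0) * γ 13 + (0) * γ 14
       + (0) * γ 15 + (0) * γ 16 + (0) * γ 17 := by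
  have h1 := h 0 (by norm_num)
  rw [show 0 + 1 = 1 from rfl, c34_0, c34_1] at h1
  norm_num [h0] at h1 ⊢
  linarith

theorem q34_1 (γ : ℕ → ℝ) (h0 : γ 0 = 1)
    (h : ∀ n < 34, 2 * (((34 : ℕ) : ℝ) - ((n : ℕ) : ℝ)) * ∑ i ∈ range (34 / 2 + 1), γ i * (cfn 34 i n : ℝ) ≤
      ((n : ℝ) + 1) * ∑ i ∈ range (34 / 2 + 1), γ i * (cfn 34 i (n + 1) : ℝ)) :
    0 ≤ (0) * γ 0 + (64) * γ 1 + (2) * γ 2 + (0) * γ 3 + (0) * γ 4 + (0) * γ 5 + (0) * γ 6
       + (0) * γ 7 + (0) * γ 8 + (0) * γ 9 + (0) * γ 10 + (0) * γ 11 + (0) * γ 12 + (0) * γ 13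
       + (0) * γ 14 + (0) * γ 15 + (0) * γ 16 + (0) * γ 17 := by
  have h1 := h 1 (by norm_num)
  rw [show 1 + 1 = 2 from rfl, c34_1, c34_2] at h1
  norm_num [h0] at h1 ⊢
  linarith

theorem q34_2 (γ : ℕ → ℝ) (h0 : γ 0 = 1)
    (h : ∀ n < 34, 2 * (((34 : ℕ) : ℝ) - ((n : ℕ) : ℝ)) * ∑ i ∈ range (34 / 2 + 1), γ i * (cfn 34 i n : ℝ) ≤
      ((n : ℝ) + 1) * ∑ i ∈ range (34 / 2 + 1), γ i * (cfn 34 i (n + 1) : ℝ)) :
    0 ≤ (0) * γ 0 + (1984) * γ 1 + (122) * γ 2 + (3) * γ 3 + (0) * γ 4 + (0) * γ 5 + (0) * γ 6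
       + (0) * γ 7 + (0) * γ 8 + (0) * γ 9 + (0) * γ 10 + (0) * γ 11 + (0) * γ 12 + (0) * γ 13
       + (0) * γ 14 + (0) * γ 15 + (0) * γ 16 + (0) * γ 17 := by
  have h1 := h 2 (by norm_num)
  rw [show 2 + 1 = 3 from rfl, c34_2, c34_3] at h1
  norm_num [h0] at h1 ⊢
  linarith

theorem q34_3 (γ : ℕ → ℝ) (h0 : γ 0 = 1)
    (h : ∀ n < 34, 2 * (((34 : ℕ) : ℝ) - ((n : ℕ) : ℝ)) * ∑ i ∈ range (34 / 2 + 1), γ i * (cfn 34 i n : ℝ) ≤
      ((n : ℝ) + 1) * ∑ i ∈ range (34 / 2 + 1), γ i * (cfn 34 i (n + 1) : ℝ)) :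
    0 ≤ (0) * γ 0 + (39680) * γ 1 + (3600) * γ 2 + (174) * γ 3 + (4) * γ 4 + (0) * γ 5 + (0) * γ 6
       + (0) * γ 7 + (0) * γ 8 + (0) * γ 9 + (0) * γ 10 + (0) * γ 11 + (0) * γ 12 + (0) * γ 13
       + (0) * γ 14 + (0) * γ 15 + (0) * γ 16 + (0) * γ 17 := by
  have h1 := h 3 (by norm_num)
  rw [show 3 + 1 = 4 from rfl, c34_3, c34_4] at h1
  norm_num [h0] at h1 ⊢
  linarith

theorem q34_4 (γ : ℕ → ℝ) (h0 : γ 0 = 1)
    (h : ∀ n < 34, 2 * (((34 : ℕ) : ℝ) - ((n : ℕ) : ℝ)) * ∑ i ∈ range (34 / 2 + 1), γ i * (cfn 34 i n : ℝ) ≤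
      ((n : ℝ) + 1) * ∑ i ∈ range (34 / 2 + 1), γ i * (cfn 34 i (n + 1) : ℝ)) :
    0 ≤ (0) * γ 0 + (575360) * γ 1 + (68440) * γ 2 + (4875) * γ 3 + (220) * γ 4 + (5) * γ 5
       + (0) * γ 6 + (0) * γ 7 + (0) * γ 8 + (0) * γ 9 + (0) * γ 10 + (0) * γ 11 + (0) * γ 12
       + (0) * γ 13 + (0) * γ 14 + (0) * γ 15 + (0) * γ 16 + (0) * γ 17 := by
  have h1 := h 4 (by norm_num)
  rw [show 4 + 1 = 5 from rfl, c34_4, c34_5] at h1
  norm_num [h0] at h1 ⊢
  linarith

theorem q34_5 (γ : ℕ → ℝ) (h0 : γ 0 = 1)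
    (h : ∀ n < 34, 2 * (((34 : ℕ) : ℝ) - ((n : ℕ) : ℝ)) * ∑ i ∈ range (34 / 2 + 1), γ i * (cfn 34 i n : ℝ) ≤
      ((n : ℝ) + 1) * ∑ i ∈ range (34 / 2 + 1), γ i * (cfn 34 i (n + 1) : ℝ)) :
    0 ≤ (0) * γ 0 + (6444032) * γ 1 + (941920) * γ 2 + (87864) * γ 3 + (5836) * γ 4 + (260) * γ 5
       + (6) * γ 6 + (0) * γ 7 + (0) * γ 8 + (0) * γ 9 + (0) * γ 10 + (0) * γ 11 + (0) * γ 12
       + (0) * γ 13 + (0) * γ 14 + (0) * γ 15 + (0) * γ 16 + (0) * γ 17 := by
  have h1 := h 5 (by norm_num)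
  rw [show 5 + 1 = 6 from rfl, c34_5, c34_6] at h1
  norm_num [h0] at h1 ⊢
  linarith

theorem q34_6 (γ : ℕ → ℝ) (h0 : γ 0 = 1)
    (h : ∀ n < 34, 2 * (((34 : ℕ) : ℝ) - ((n : ℕ) : ℝ)) * ∑ i ∈ range (34 / 2 + 1), γ i * (cfn 34 i n : ℝ) ≤
      ((n : ℝ) + 1) * ∑ i ∈ range (34 / 2 + 1), γ i * (cfn 34 i (n + 1) : ℝ)) :
    0 ≤ (0) * γ 0 + (57996288) * γ 1 + (9997344) * γ 2 + (1144584) * γ 3 + (99428) * γ 4
       + (6510) * γ 5 + (294) * γ 6 + (7) * γ 7 + (0) * γ 8 + (0) * γ 9 + (0) * γ 10 + (0) * γ 11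
       + (0) * γ 12 + (0) * γ 13 + (0) * γ 14 + (0) * γ 15 + (0) * γ 16 + (0) * γ 17 := by
  have h1 := h 6 (by norm_num)
  rw [show 6 + 1 = 7 from rfl, c34_6, c34_7] at h1
  norm_num [h0] at h1 ⊢
  linarith

theorem q34_7 (γ : ℕ → ℝ) (h0 : γ 0 = 1)
    (h : ∀ n < 34, 2 * (((34 : ℕ) : ℝ) - ((n : ℕ) : ℝ)) * ∑ i ∈ range (34 / 2 + 1), γ i * (cfn 34 i n : ℝ) ≤
      ((n : ℝ) + 1) * ∑ i ∈ range (34 / 2 + 1), γ i * (cfn 34 i (n + 1) : ℝ)) :
    0 ≤ (0) * γ 0 + (430829568) * γ 1 + (85123584) * γ 2 + (11479104) * γ 3 + (1222208) * γ 4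
       + (104500) * γ 5 + (6924) * γ 6 + (322) * γ 7 + (8) * γ 8 + (0) * γ 9 + (0) * γ 10
       + (0) * γ 11 + (0) * γ 12 + (0) * γ 13 + (0) * γ 14 + (0) * γ 15 + (0) * γ 16 + (0) * γ 17 := by
  have h1 := h 7 (by norm_num)
  rw [show 7 + 1 = 8 from rfl, c34_7, c34_8] at h1
  norm_num [h0] at h1 ⊢
  linarith

theorem q34_8 (γ : ℕ → ℝ) (h0 : γ 0 = 1)
    (h : ∀ n < 34, 2 * (((34 : ℕ) : ℝ) - ((n : ℕ) : ℝ)) * ∑ i ∈ range (34 / 2 + 1), γ i * (cfn 34 i n : ℝ) ≤
      ((n : ℝ) + 1) * ∑ i ∈ range (34 / 2 + 1), γ i * (cfn 34 i (n + 1) : ℝ)) :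
    0 ≤ (0) * γ 0 + (2692684800) * γ 1 + (597168000) * γ 2 + (92186640) * γ 3 + (11545040) * γ 4
       + (1208005) * γ 5 + (104340) * γ 6 + (7105) * γ 7 + (344) * γ 8 + (9) * γ 9 + (0) * γ 10
       + (0) * γ 11 + (0) * γ 12 + (0) * γ 13 + (0) * γ 14 + (0) * γ 15 + (0) * γ 16 + (0) * γ 17 := by
  have h1 := h 8 (by norm_num)
  rw [show 8 + 1 = 9 from rfl, c34_8, c34_9] at h1
  norm_num [h0] at h1 ⊢
  linarith

theorem q34_9 (γ : ℕ → ℝ) (h0 : γ 0 = 1)
    (h : ∀ n < 34, 2 * (((34 : ℕ) : ℝ) - ((n : ℕ) : ℝ)) * ∑ i ∈ range (34 / 2 + 1), γ i * (cfn 34 i n : ℝ) ≤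
      ((n : ℝ) + 1) * ∑ i ∈ range (34 / 2 + 1), γ i * (cfn 34 i (n + 1) : ℝ)) :
    0 ≤ (0) * γ 0 + (14360985600) * γ 1 + (3517862400) * γ 2 + (608774400) * γ 3 + (87152000) * γ 4
       + (10709040) * γ 5 + (1129950) * γ 6 + (100100) * γ 7 + (7080) * γ 8 + (360) * γ 9
       + (10) * γ 10 + (0) * γ 11 + (0) * γ 12 + (0) * γ 13 + (0) * γ 14 + (0) * γ 15 + (0) * γ 16
       + (0) * γ 17 := by
  have h1 := h 9 (by norm_num)
  rw [show 9 + 1 = 10 from rfl, c34_9, c34_10] at h1
  norm_num [h0] at h1 ⊢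
  linarith

theorem q34_10 (γ : ℕ → ℝ) (h0 : γ 0 = 1)
    (h : ∀ n < 34, 2 * (((34 : ℕ) : ℝ) - ((n : ℕ) : ℝ)) * ∑ i ∈ range (34 / 2 + 1), γ i * (cfn 34 i n : ℝ) ≤
      ((n : ℝ) + 1) * ∑ i ∈ range (34 / 2 + 1), γ i * (cfn 34 i (n + 1) : ℝ)) :
    0 ≤ (0) * γ 0 + (66060533760) * γ 1 + (17647219200) * γ 2 + (3368701440) * γ 3
       + (539826560) * γ 4 + (75703120) * γ 5 + (9363294) * γ 6 + (1011185) * γ 7 + (92824) * γ 8
       + (6876) * γ 9 + (370) * γ 10 + (11) * γ 11 + (0) * γ 12 + (0) * γ 13 + (0) * γ 14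
       + (0) * γ 15 + (0) * γ 16 + (0) * γ 17 := by
  have h1 := h 10 (by norm_num)
  rw [show 10 + 1 = 11 from rfl, c34_10, c34_11] at h1
  norm_num [h0] at h1 ⊢
  linarith

theorem q34_11 (γ : ℕ → ℝ) (h0 : γ 0 = 1)
    (h : ∀ n < 34, 2 * (((34 : ℕ) : ℝ) - ((n : ℕ) : ℝ)) * ∑ i ∈ range (34 / 2 + 1), γ i * (cfn 34 i n : ℝ) ≤
      ((n : ℝ) + 1) * ∑ i ∈ range (34 / 2 + 1), γ i * (cfn 34 i (n + 1) : ℝ)) :
    0 ≤ (0) * γ 0 + (264242135040) * γ 1 + (76182712320) * γ 2 + (15837719040) * γ 3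
       + (2795386880) * γ 4 + (438074560) * γ 5 + (61721616) * γ 6 + (7796978) * γ 7
       + (870424) * γ 8 + (83448) * γ 9 + (6520) * γ 10 + (374) * γ 11 + (12) * γ 12 + (0) * γ 13
       + (0) * γ 14 + (0) * γ 15 + (0) * γ 16 + (0) * γ 17 := by
  have h1 := h 11 (by norm_num)
  rw [show 11 + 1 = 12 from rfl, c34_11, c34_12] at h1
  norm_num [h0] at h1 ⊢
  linarith

theorem q34_12 (γ : ℕ → ℝ) (h0 : γ 0 = 1)
    (h : ∀ n < 34, 2 * (((34 : ℕ) : ℝ) - ((n : ℕ) : ℝ)) * ∑ i ∈ range (34 / 2 + 1), γ i * (cfn 34 i n : ℝ) ≤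
      ((n : ℝ) + 1) * ∑ i ∈ range (34 / 2 + 1), γ i * (cfn 34 i (n + 1) : ℝ)) :
    0 ≤ (0) * γ 0 + (924847472640) * γ 1 + (285285611520) * γ 2 + (63919215360) * γ 3
       + (12267706880) * γ 4 + (2113906080) * γ 5 + (332193576) * γ 6 + (47699743) * γ 7
       + (6213480) * γ 8 + (722358) * γ 9 + (72800) * γ 10 + (6039) * γ 11 + (372) * γ 12
       + (13) * γ 13 + (0) * γ 14 + (0) * γ 15 + (0) * γ 16 + (0) * γ 17 := by
  have h1 := h 12 (by norm_num)
  rw [show 12 + 1 = 13 from rfl, c34_12, c34_13] at h1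
  norm_num [h0] at h1 ⊢
  linarith

theorem q34_13 (γ : ℕ → ℝ) (h0 : γ 0 = 1)
    (h : ∀ n < 34, 2 * (((34 : ℕ) : ℝ) - ((n : ℕ) : ℝ)) * ∑ i ∈ range (34 / 2 + 1), γ i * (cfn 34 i n : ℝ) ≤
      ((n : ℝ) + 1) * ∑ i ∈ range (34 / 2 + 1), γ i * (cfn 34 i (n + 1) : ℝ)) :
    0 ≤ (0) * γ 0 + (2845684531200) * γ 1 + (932305920000) * γ 2 + (223174748160) * γ 3
       + (46090204160) * γ 4 + (8620944640) * γ 5 + (1486716000) * γ 6 + (237580840) * γ 7
       + (35089208) * γ 8 + (4746168) * γ 9 + (578060) * γ 10 + (61600) * γ 11 + (5460) * γ 12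
       + (364) * γ 13 + (14) * γ 14 + (0) * γ 15 + (0) * γ 16 + (0) * γ 17 := by
  have h1 := h 13 (by norm_num)
  rw [show 13 + 1 = 14 from rfl, c34_13, c34_14] at h1
  norm_num [h0] at h1 ⊢
  linarith

theorem q34_14 (γ : ℕ → ℝ) (h0 : γ 0 = 1)
    (h : ∀ n < 34, 2 * (((34 : ℕ) : ℝ) - ((n : ℕ) : ℝ)) * ∑ i ∈ range (34 / 2 + 1), γ i * (cfn 34 i n : ℝ) ≤
      ((n : ℝ) + 1) * ∑ i ∈ range (34 / 2 + 1), γ i * (cfn 34 i (n + 1) : ℝ)) :
    0 ≤ (0) * γ 0 + (7724000870400) * γ 1 + (2670697881600) * γ 2 + (678011443200) * γ 3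
       + (149360307200) * γ 4 + (30007985920) * γ 5 + (5606182560) * γ 6 + (980938840) * γ 7
       + (160824200) * γ 8 + (24591420) * γ 9 + (3472700) * γ 10 + (445390) * γ 11 + (50460) * γ 12
       + (4810) * γ 13 + (350) * γ 14 + (15) * γ 15 + (0) * γ 16 + (0) * γ 17 := by
  have h1 := h 14 (by norm_num)
  rw [show 14 + 1 = 15 from rfl, c34_14, c34_15] at h1
  norm_num [h0] at h1 ⊢
  linarith

theorem q34_15 (γ : ℕ → ℝ) (h0 : γ 0 = 1)
    (h : ∀ n < 34, 2 * (((34 : ℕ) : ℝ) - ((n : ℕ) : ℝ)) * ∑ i ∈ range (34 / 2 + 1), γ i * (cfn 34 i n : ℝ) ≤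
      ((n : ℝ) + 1) * ∑ i ∈ range (34 / 2 + 1), γ i * (cfn 34 i (n + 1) : ℝ)) :
    0 ≤ (0) * γ 0 + (18537602088960) * γ 1 + (6727355596800) * γ 2 + (1799760936960) * γ 3
       + (419779543040) * γ 4 + (89797416960) * γ 5 + (17983122432) * γ 6 + (3400969600) * γ 7
       + (608940288) * γ 8 + (103052232) * γ 9 + (16394280) * γ 10 + (2427876) * γ 11
       + (329400) * γ 12 + (39884) * γ 13 + (4116) * γ 14 + (330) * γ 15 + (16) * γ 16 + (0) * γ 17 := by
  have h1 := h 15 (by norm_num)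
  rw [show 15 + 1 = 16 from rfl, c34_15, c34_16] at h1
  norm_num [h0] at h1 ⊢
  linarith

theorem q34_16 (γ : ℕ → ℝ) (h0 : γ 0 = 1)
    (h : ∀ n < 34, 2 * (((34 : ℕ) : ℝ) - ((n : ℕ) : ℝ)) * ∑ i ∈ range (34 / 2 + 1), γ i * (cfn 34 i n : ℝ) ≤
      ((n : ℝ) + 1) * ∑ i ∈ range (34 / 2 + 1), γ i * (cfn 34 i (n + 1) : ℝ)) :
    0 ≤ (0) * γ 0 + (39392404439040) * γ 1 + (14930992005120) * γ 2 + (4185990696960) * γ 3
       + (1027137105920) * γ 4 + (232203201280) * γ 5 + (49409263488) * γ 6 + (9993222064) * γ 7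
       + (1928837408) * γ 8 + (355410441) * γ 9 + (62358360) * γ 10 + (10360614) * γ 11
       + (1615032) * γ 12 + (232739) * γ 13 + (30268) * γ 14 + (3405) * γ 15 + (304) * γ 16
       + (17) * γ 17 := by
  have h1 := h 16 (by norm_num)
  rw [show 16 + 1 = 17 from rfl, c34_16, c34_17] at h1
  norm_num [h0] at h1 ⊢
  linarith

theorem q34_17 (γ : ℕ → ℝ) (h0 : γ 0 = 1)
    (h : ∀ n < 34, 2 * (((34 : ℕ) : ℝ) - ((n : ℕ) : ℝ)) * ∑ i ∈ range (34 / 2 + 1), γ i * (cfn 34 i n : ℝ) ≤
      ((n : ℝ) + 1) * ∑ i ∈ range (34 / 2 + 1), γ i * (cfn 34 i (n + 1) : ℝ)) :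
    0 ≤ (0) * γ 0 + (74150408355840) * γ 1 + (29226622648320) * γ 2 + (8544514867200) * γ 3
       + (2193335582720) * γ 4 + (520643338240) * γ 5 + (116831198208) * γ 6 + (25047683584) * γ 7
       + (5156536832) * γ 8 + (1021149216) * γ 9 + (194392410) * γ 10 + (35473944) * γ 11
       + (6173352) * γ 12 + (1015976) * γ 13 + (156058) * γ 14 + (21900) * γ 15 + (2704) * γ 16
       + (272) * γ 17 := by
  have h1 := h 17 (by norm_num)
  rw [show 17 + 1 = 18 from rfl, c34_17, c34_18] at h1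
  norm_num [h0] at h1 ⊢
  linarith

theorem q34_18 (γ : ℕ → ℝ) (h0 : γ 0 = 1)
    (h : ∀ n < 34, 2 * (((34 : ℕ) : ℝ) - ((n : ℕ) : ℝ)) * ∑ i ∈ range (34 / 2 + 1), γ i * (cfn 34 i n : ℝ) ≤
      ((n : ℝ) + 1) * ∑ i ∈ range (34 / 2 + 1), γ i * (cfn 34 i (n + 1) : ℝ)) :
    0 ≤ (0) * γ 0 + (123584013926400) * γ 1 + (50455166976000) * γ 2 + (15314399723520) * γ 3
       + (4092116664320) * γ 4 + (1014204702720) * γ 5 + (238454000640) * γ 6 + (53783582720) * γ 7
       + (11705252352) * γ 8 + (2464807392) * γ 9 + (502507650) * γ 10 + (99087615) * γ 11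
       + (18847800) * γ 12 + (3442556) * γ 13 + (599466) * γ 14 + (98415) * γ 15 + (14960) * γ 16
       + (2040) * γ 17 := by
  have h1 := h 18 (by norm_num)
  rw [show 18 + 1 = 19 from rfl, c34_18, c34_19] at h1
  norm_num [h0] at h1 ⊢
  linarith

theorem q34_19 (γ : ℕ → ℝ) (h0 : γ 0 = 1)
    (h : ∀ n < 34, 2 * (((34 : ℕ) : ℝ) - ((n : ℕ) : ℝ)) * ∑ i ∈ range (34 / 2 + 1), γ i * (cfn 34 i n : ℝ) ≤
      ((n : ℝ) + 1) * ∑ i ∈ range (34 / 2 + 1), γ i * (cfn 34 i (n + 1) : ℝ)) :
    0 ≤ (0) * γ 0 + (182123809996800) * γ 1 + (76741686067200) * γ 2 + (24087026073600) * γ 3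
       + (6670077132800) * γ 4 + (1717423144960) * γ 5 + (420676853760) * γ 6 + (99174333440) * γ 7
       + (22645719040) * γ 8 + (5025686400) * γ 9 + (1085684880) * γ 10 + (228343830) * γ 11
       + (46709820) * γ 12 + (9272120) * γ 13 + (1779400) * γ 14 + (328230) * γ 15 + (57680) * γ 16
       + (9520) * γ 17 := by
  have h1 := h 19 (by norm_num)
  rw [show 19 + 1 = 20 from rfl, c34_19, c34_20] at h1
  norm_num [h0] at h1 ⊢
  linarith

theorem q34_20 (γ : ℕ → ℝ) (h0 : γ 0 = 1)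
    (h : ∀ n < 34, 2 * (((34 : ℕ) : ℝ) - ((n : ℕ) : ℝ)) * ∑ i ∈ range (34 / 2 + 1), γ i * (cfn 34 i n : ℝ) ≤
      ((n : ℝ) + 1) * ∑ i ∈ range (34 / 2 + 1), γ i * (cfn 34 i (n + 1) : ℝ)) :
    0 ≤ (0) * γ 0 + (236760952995840) * γ 1 + (102628235673600) * γ 2 + (33189576376320) * γ 3
       + (9486459207680) * γ 4 + (2526230855680) * γ 5 + (641429999616) * γ 6
       + (157154332160) * γ 7 + (37405161472) * γ 8 + (8682867648) * γ 9 + (1970000760) * γ 10
       + (437286003) * γ 11 + (94967460) * γ 12 + (20162051) * γ 13 + (4177264) * γ 14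
       + (842205) * γ 15 + (164528) * γ 16 + (30940) * γ 17 := by
  have h1 := h 20 (by norm_num)
  rw [show 20 + 1 = 21 from rfl, c34_20, c34_21] at h1
  norm_num [h0] at h1 ⊢
  linarith

theorem q34_21 (γ : ℕ → ℝ) (h0 : γ 0 = 1)
    (h : ∀ n < 34, 2 * (((34 : ℕ) : ℝ) - ((n : ℕ) : ℝ)) * ∑ i ∈ range (34 / 2 + 1), γ i * (cfn 34 i n : ℝ) ≤
      ((n : ℝ) + 1) * ∑ i ∈ range (34 / 2 + 1), γ i * (cfn 34 i (n + 1) : ℝ)) :
    0 ≤ (0) * γ 0 + (270583946280960) * γ 1 + (120289839022080) * γ 2 + (39948472811520) * γ 3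
       + (11742657904640) * γ 4 + (3221054423040) * γ 5 + (843957387264) * γ 6
       + (213809999872) * γ 7 + (52743524352) * γ 8 + (12723024384) * γ 9 + (3008984160) * γ 10
       + (698734872) * γ 11 + (159432516) * γ 12 + (35747036) * γ 13 + (7871682) * γ 14
       + (1700400) * γ 15 + (359632) * γ 16 + (74256) * γ 17 := by
  have h1 := h 21 (by norm_num)
  rw [show 21 + 1 = 22 from rfl, c34_21, c34_22] at h1
  norm_num [h0] at h1 ⊢
  linarith

theorem q34_22 (γ : ℕ → ℝ) (h0 : γ 0 = 1)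
    (h : ∀ n < 34, 2 * (((34 : ℕ) : ℝ) - ((n : ℕ) : ℝ)) * ∑ i ∈ range (34 / 2 + 1), γ i * (cfn 34 i n : ℝ) ≤
      ((n : ℝ) + 1) * ∑ i ∈ range (34 / 2 + 1), γ i * (cfn 34 i (n + 1) : ℝ)) :
    0 ≤ (0) * γ 0 + (270583946280960) * γ 1 + (123017499770880) * γ 2 + (41824915292160) * γ 3
       + (12600930467840) * γ 4 + (3547255275520) * γ 5 + (955192786944) * γ 6
       + (249094623232) * γ 7 + (63364493312) * γ 8 + (15793703424) * γ 9 + (3868384800) * γ 10
       + (932799912) * γ 11 + (221695596) * γ 12 + (51963626) * γ 13 + (12014002) * γ 14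
       + (2739165) * γ 15 + (615472) * γ 16 + (136136) * γ 17 := by
  have h1 := h 22 (by norm_num)
  rw [show 22 + 1 = 23 from rfl, c34_22, c34_23] at h1
  norm_num [h0] at h1 ⊢
  linarith

theorem q34_23 (γ : ℕ → ℝ) (h0 : γ 0 = 1)
    (h : ∀ n < 34, 2 * (((34 : ℕ) : ℝ) - ((n : ℕ) : ℝ)) * ∑ i ∈ range (34 / 2 + 1), γ i * (cfn 34 i n : ℝ) ≤
      ((n : ℝ) + 1) * ∑ i ∈ range (34 / 2 + 1), γ i * (cfn 34 i (n + 1) : ℝ)) :
    0 ≤ (0) * γ 0 + (235290388070400) * γ 1 + (109106429952000) * γ 2 + (37867455774720) * γ 3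
       + (11656830648320) * γ 4 + (3356246671360) * γ 5 + (925370941440) * γ 6
       + (247390044160) * γ 7 + (64601784320) * γ 8 + (16554608640) * γ 9 + (4175777280) * γ 10
       + (1038966720) * γ 11 + (255343680) * γ 12 + (62046140) * γ 13 + (14914900) * γ 14
       + (3547830) * γ 15 + (835120) * γ 16 + (194480) * γ 17 := by
  have h1 := h 23 (by norm_num)
  rw [show 23 + 1 = 24 from rfl, c34_23, c34_24] at h1
  norm_num [h0] at h1 ⊢
  linarith

theorem q34_24 (γ : ℕ → ℝ) (h0 : γ 0 = 1)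
    (h : ∀ n < 34, 2 * (((34 : ℕ) : ℝ) - ((n : ℕ) : ℝ)) * ∑ i ∈ range (34 / 2 + 1), γ i * (cfn 34 i n : ℝ) ≤
      ((n : ℝ) + 1) * ∑ i ∈ range (34 / 2 + 1), γ i * (cfn 34 i (n + 1) : ℝ)) :
    0 ≤ (0) * γ 0 + (176467791052800) * γ 1 + (83252949811200) * γ 2 + (29416410316800) * γ 3
       + (9225450291200) * γ 4 + (2708193607680) * γ 5 + (761947422720) * γ 6
       + (208052346880) * γ 7 + (55545937920) * γ 8 + (14568814080) * γ 9 + (3765920640) * γ 10
       + (961511760) * γ 11 + (242861040) * γ 12 + (60753485) * γ 13 + (15064140) * γ 14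
       + (3704415) * γ 15 + (903760) * γ 16 + (218790) * γ 17 := by
  have h1 := h 24 (by norm_num)
  rw [show 24 + 1 = 25 from rfl, c34_24, c34_25] at h1
  norm_num [h0] at h1 ⊢
  linarith

theorem q34_25 (γ : ℕ → ℝ) (h0 : γ 0 = 1)
    (h : ∀ n < 34, 2 * (((34 : ℕ) : ℝ) - ((n : ℕ) : ℝ)) * ∑ i ∈ range (34 / 2 + 1), γ i * (cfn 34 i n : ℝ) ≤
      ((n : ℝ) + 1) * ∑ i ∈ range (34 / 2 + 1), γ i * (cfn 34 i (n + 1) : ℝ)) :
    0 ≤ (0) * γ 0 + (112939386273792) * γ 1 + (54078839193600) * γ 2 + (19403605278720) * γ 3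
       + (6182697697280) * γ 4 + (1845090058240) * γ 5 + (528054878208) * γ 6
       + (146768527360) * γ 7 + (39914700800) * γ 8 + (10672496640) * γ 9 + (2814789120) * γ 10
       + (733953792) * γ 11 + (189521280) * γ 12 + (48523280) * γ 13 + (12329590) * γ 14
       + (3111420) * γ 15 + (780208) * γ 16 + (194480) * γ 17 := by
  have h1 := h 25 (by norm_num)
  rw [show 25 + 1 = 26 from rfl, c34_25, c34_26] at h1
  norm_num [h0] at h1 ⊢
  linarith

theorem q34_26 (γ : ℕ → ℝ) (h0 : γ 0 = 1)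
    (h : ∀ n < 34, 2 * (((34 : ℕ) : ℝ) - ((n : ℕ) : ℝ)) * ∑ i ∈ range (34 / 2 + 1), γ i * (cfn 34 i n : ℝ) ≤
      ((n : ℝ) + 1) * ∑ i ∈ range (34 / 2 + 1), γ i * (cfn 34 i (n + 1) : ℝ)) :
    0 ≤ (0) * γ 0 + (60813515685888) * γ 1 + (29487198633984) * γ 2 + (10717621125120) * γ 3
       + (3460762173440) * γ 4 + (1047050321920) * γ 5 + (303931195392) * γ 6 + (85719187456) * γ 7
       + (23667015680) * γ 8 + (6427975680) * γ 9 + (1723061760) * γ 10 + (456918528) * γ 11
       + (120069504) * γ 12 + (31307120) * γ 13 + (8107750) * γ 14 + (2087085) * γ 15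
       + (534352) * γ 16 + (136136) * γ 17 := by
  have h1 := h 26 (by norm_num)
  rw [show 26 + 1 = 27 from rfl, c34_26, c34_27] at h1
  norm_num [h0] at h1 ⊢
  linarith

theorem q34_27 (γ : ℕ → ℝ) (h0 : γ 0 = 1)
    (h : ∀ n < 34, 2 * (((34 : ℕ) : ℝ) - ((n : ℕ) : ℝ)) * ∑ i ∈ range (34 / 2 + 1), γ i * (cfn 34 i n : ℝ) ≤
      ((n : ℝ) + 1) * ∑ i ∈ range (34 / 2 + 1), γ i * (cfn 34 i (n + 1) : ℝ)) :
    0 ≤ (0) * γ 0 + (27028229193728) * γ 1 + (13241652609024) * γ 2 + (4864151126016) * γ 3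
       + (1587795722240) * γ 4 + (485763317760) * γ 5 + (142624161792) * γ 6 + (40699559936) * γ 7
       + (11373379584) * γ 8 + (3127541760) * γ 9 + (849121280) * γ 10 + (228146688) * γ 11
       + (60770304) * γ 12 + (16068416) * γ 13 + (4221840) * γ 14 + (1103130) * γ 15
       + (286832) * γ 16 + (74256) * γ 17 := by
  have h1 := h 27 (by norm_num)
  rw [show 27 + 1 = 28 from rfl, c34_27, c34_28] at h1
  norm_num [h0] at h1 ⊢
  linarith

theorem q34_28 (γ : ℕ → ℝ) (h0 : γ 0 = 1)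
    (h : ∀ n < 34, 2 * (((34 : ℕ) : ℝ) - ((n : ℕ) : ℝ)) * ∑ i ∈ range (34 / 2 + 1), γ i * (cfn 34 i n : ℝ) ≤
      ((n : ℝ) + 1) * ∑ i ∈ range (34 / 2 + 1), γ i * (cfn 34 i (n + 1) : ℝ)) :
    0 ≤ (0) * γ 0 + (9652938997760) * γ 1 + (4768084787200) * γ 2 + (1766187859968) * γ 3
       + (581464752128) * γ 4 + (179442810880) * γ 5 + (53154938880) * γ 6 + (15306260480) * γ 7
       + (4316987392) * γ 8 + (1198374912) * γ 9 + (328509440) * γ 10 + (89140480) * γ 11
       + (23984640) * γ 12 + (6407648) * γ 13 + (1701448) * γ 14 + (449415) * γ 15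
       + (118160) * γ 16 + (30940) * γ 17 := by
  have h1 := h 28 (by norm_num)
  rw [show 28 + 1 = 29 from rfl, c34_28, c34_29] at h1
  norm_num [h0] at h1 ⊢
  linarith

theorem q34_29 (γ : ℕ → ℝ) (h0 : γ 0 = 1)
    (h : ∀ n < 34, 2 * (((34 : ℕ) : ℝ) - ((n : ℕ) : ℝ)) * ∑ i ∈ range (34 / 2 + 1), γ i * (cfn 34 i n : ℝ) ≤
      ((n : ℝ) + 1) * ∑ i ∈ range (34 / 2 + 1), γ i * (cfn 34 i (n + 1) : ℝ)) :
    0 ≤ (0) * γ 0 + (2662879723520) * γ 1 + (1323386798080) * γ 2 + (493250150400) * γ 3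
       + (163410083840) * γ 4 + (50751078400) * γ 5 + (15130951680) * γ 6 + (4385669120) * γ 7
       + (1245184000) * γ 8 + (347996160) * γ 9 + (96051200) * γ 10 + (26245120) * γ 11
       + (7111680) * γ 12 + (1913600) * γ 13 + (511840) * γ 14 + (136200) * γ 15 + (36080) * γ 16
       + (9520) * γ 17 := by
  have h1 := h 29 (by norm_num)
  rw [show 29 + 1 = 30 from rfl, c34_29, c34_30] at h1
  norm_num [h0] at h1 ⊢
  linarith

theorem q34_30 (γ : ℕ → ℝ) (h0 : γ 0 = 1)
    (h : ∀ n < 34, 2 * (((34 : ℕ) : ℝ) - ((n : ℕ) : ℝ)) * ∑ i ∈ range (34 / 2 + 1), γ i * (cfn 34 i n : ℝ) ≤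
      ((n : ℝ) + 1) * ∑ i ∈ range (34 / 2 + 1), γ i * (cfn 34 i (n + 1) : ℝ)) :
    0 ≤ (0) * γ 0 + (532575944704) * γ 1 + (265751101440) * γ 2 + (99455336448) * γ 3
       + (33084669952) * γ 4 + (10317987840) * γ 5 + (3089104896) * γ 6 + (899153920) * γ 7
       + (256376832) * γ 8 + (71958528) * γ 9 + (19947520) * γ 10 + (5474304) * γ 11
       + (1489920) * γ 12 + (402688) * γ 13 + (108192) * γ 14 + (28920) * γ 15 + (7696) * γ 16
       + (2040) * γ 17 := by
  have h1 := h 30 (by norm_num)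
  rw [show 30 + 1 = 31 from rfl, c34_30, c34_31] at h1
  norm_num [h0] at h1 ⊢
  linarith

theorem m34_0 (γ : ℕ → ℝ) : Mat 34 γ 0 = (1) * γ 0 + (0) * γ 1 + (0) * γ 2 + (0) * γ 3 + (0) * γ 4 + (0) * γ 5 + (0) * γ 6 + (0) * γ 7
       + (0) * γ 8 + (0) * γ 9 + (0) * γ 10 + (0) * γ 11 + (0) * γ 12 + (0) * γ 13 + (0) * γ 14
       + (0) * γ 15 + (0) * γ 16 + (0) * γ 17 := by
  unfold Mat
  rw [show (34 / 2 + 1 : ℕ) = 18 from rfl]
  simp [sum_range_succ, Nat.choose]
  try ring

theorem m34_1 (γ : ℕ → ℝ) : Mat 34 γ 1 = (2244) * γ 0 + (66) * γ 1 + (1) * γ 2 + (0) * γ 3 + (0) * γ 4 + (0) * γ 5 + (0) * γ 6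
       + (0) * γ 7 + (0) * γ 8 + (0) * γ 9 + (0) * γ 10 + (0) * γ 11 + (0) * γ 12 + (0) * γ 13
       + (0) * γ 14 + (0) * γ 15 + (0) * γ 16 + (0) * γ 17 := by
  unfold Mat
  rw [show (34 / 2 + 1 : ℕ) = 18 from rfl]
  simp [sum_range_succ, Nat.choose]
  try ring

theorem m34_2 (γ : ℕ → ℝ) : Mat 34 γ 2 = (742016) * γ 0 + (43648) * γ 1 + (1984) * γ 2 + (62) * γ 3 + (1) * γ 4 + (0) * γ 5
       + (0) * γ 6 + (0) * γ 7 + (0) * γ 8 + (0) * γ 9 + (0) * γ 10 + (0) * γ 11 + (0) * γ 12
       + (0) * γ 13 + (0) * γ 14 + (0) * γ 15 + (0) * γ 16 + (0) * γ 17 := by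
  unfold Mat
  rw [show (34 / 2 + 1 : ℕ) = 18 from rfl]
  simp [sum_range_succ, Nat.choose]
  try ring

theorem m34_3 (γ : ℕ → ℝ) : Mat 34 γ 3 = (86073856) * γ 0 + (7594752) * γ 1 + (575360) * γ 2 + (35960) * γ 3 + (1740) * γ 4
       + (58) * γ 5 + (1) * γ 6 + (0) * γ 7 + (0) * γ 8 + (0) * γ 9 + (0) * γ 10 + (0) * γ 11
       + (0) * γ 12 + (0) * γ 13 + (0) * γ 14 + (0) * γ 15 + (0) * γ 16 + (0) * γ 17 := by
  unfold Mat
  rw [show (34 / 2 + 1 : ℕ) = 18 from rfl]
  simp [sum_range_succ, Nat.choose]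
  try ring

theorem m34_4 (γ : ℕ → ℝ) : Mat 34 γ 4 = (4647988224) * γ 0 + (546822144) * γ 1 + (57996288) * γ 2 + (5437152) * γ 3 + (438480) * γ 4
       + (29232) * γ 5 + (1512) * γ 6 + (54) * γ 7 + (1) * γ 8 + (0) * γ 9 + (0) * γ 10
       + (0) * γ 11 + (0) * γ 12 + (0) * γ 13 + (0) * γ 14 + (0) * γ 15 + (0) * γ 16 + (0) * γ 17 := by
  unfold Mat
  rw [show (34 / 2 + 1 : ℕ) = 18 from rfl]
  simp [sum_range_succ, Nat.choose]
  try ring

theorem m34_5 (γ : ℕ → ℝ) : Mat 34 γ 5 = (134275215360) * γ 0 + (19746355200) * γ 1 + (2692684800) * γ 2 + (336585600) * γ 3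
       + (38001600) * γ 4 + (3800160) * γ 5 + (327600) * γ 6 + (23400) * γ 7 + (1300) * γ 8
       + (50) * γ 9 + (1) * γ 10 + (0) * γ 11 + (0) * γ 12 + (0) * γ 13 + (0) * γ 14 + (0) * γ 15
       + (0) * γ 16 + (0) * γ 17 := by
  unfold Mat
  rw [show (34 / 2 + 1 : ℕ) = 18 from rfl]
  simp [sum_range_succ, Nat.choose]
  try ring

theorem m34_6 (γ : ℕ → ℝ) : Mat 34 γ 6 = (2246058147840) * γ 0 + (396363202560) * γ 1 + (66060533760) * γ 2 + (10321958400) * γ 3
       + (1498348800) * γ 4 + (199779840) * γ 5 + (24111360) * γ 6 + (2583360) * γ 7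
       + (239200) * γ 8 + (18400) * γ 9 + (1104) * γ 10 + (46) * γ 11 + (1) * γ 12 + (0) * γ 13
       + (0) * γ 14 + (0) * γ 15 + (0) * γ 16 + (0) * γ 17 := by
  unfold Mat
  rw [show (34 / 2 + 1 : ℕ) = 18 from rfl]
  simp [sum_range_succ, Nat.choose]
  try ring

theorem m34_7 (γ : ℕ → ℝ) : Mat 34 γ 7 = (22806128885760) * γ 0 + (4695379476480) * γ 1 + (924847472640) * γ 2 + (173408901120) * γ 3
       + (30766095360) * γ 4 + (5127682560) * γ 5 + (795674880) * γ 6 + (113667840) * γ 7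
       + (14734720) * γ 8 + (1700160) * γ 9 + (170016) * γ 10 + (14168) * γ 11 + (924) * γ 12
       + (42) * γ 13 + (1) * γ 14 + (0) * γ 15 + (0) * γ 16 + (0) * γ 17 := by
  unfold Mat
  rw [show (34 / 2 + 1 : ℕ) = 18 from rfl]
  simp [sum_range_succ, Nat.choose]
  try ring

theorem m34_8 (γ : ℕ → ℝ) : Mat 34 γ 8 = (144438816276480) * γ 0 + (33985603829760) * γ 1 + (7724000870400) * γ 2
       + (1689625190400) * γ 3 + (354276249600) * γ 4 + (70855249920) * γ 5 + (13438064640) * γ 6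
       + (2399654400) * γ 7 + (399942400) * γ 8 + (61529600) * γ 9 + (8614144) * γ 10
       + (1076768) * γ 11 + (117040) * γ 12 + (10640) * γ 13 + (760) * γ 14 + (38) * γ 15
       + (1) * γ 16 + (0) * γ 17 := by
  unfold Mat
  rw [show (34 / 2 + 1 : ℕ) = 18 from rfl]
  simp [sum_range_succ, Nat.choose]
  try ring

theorem m34_9 (γ : ℕ → ℝ) : Mat 34 γ 9 = (577755265105920) * γ 0 + (152935217233920) * γ 1 + (39392404439040) * γ 2
       + (9848101109760) * γ 3 + (2382605107200) * γ 4 + (555941191680) * γ 5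
       + (124607508480) * γ 6 + (26701608960) * γ 7 + (5439216640) * γ 8 + (1046003200) * γ 9
       + (188280576) * γ 10 + (31380096) * γ 11 + (4775232) * γ 12 + (651168) * γ 13
       + (77520) * γ 14 + (7752) * γ 15 + (612) * γ 16 + (34) * γ 17 := by
  unfold Mat
  rw [show (34 / 2 + 1 : ℕ) = 18 from rfl]
  simp [sum_range_succ, Nat.choose]
  try ring

theorem m34_10 (γ : ℕ → ℝ) : Mat 34 γ 10 = (1459592248688640) * γ 0 + (429291837849600) * γ 1 + (123584013926400) * γ 2
       + (34758003916800) * γ 3 + (9530420428800) * γ 4 + (2541445447680) * γ 5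
       + (657270374400) * γ 6 + (164317593600) * γ 7 + (39557939200) * γ 8 + (9128755200) * γ 9
       + (2008326144) * γ 10 + (418401280) * γ 11 + (81861120) * γ 12 + (14883840) * γ 13
       + (2480640) * γ 14 + (372096) * γ 15 + (48960) * γ 16 + (5440) * γ 17 := by
  unfold Mat
  rw [show (34 / 2 + 1 : ℕ) = 18 from rfl]
  simp [sum_range_succ, Nat.choose]
  try ring

theorem m34_11 (γ : ℕ → ℝ) : Mat 34 γ 11 = (2299963543388160) * γ 0 + (744105852272640) * γ 1 + (236760952995840) * γ 2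
       + (73987797811200) * γ 3 + (22673679974400) * γ 4 + (6802103992320) * γ 5
       + (1993720135680) * γ 6 + (569634324480) * γ 7 + (158231756800) * γ 8 + (42600857600) * γ 9
       + (11076222976) * γ 10 + (2769055744) * γ 11 + (662165504) * γ 12 + (150492160) * γ 13
       + (32248320) * γ 14 + (6449664) * γ 15 + (1188096) * γ 16 + (198016) * γ 17 := by
  unfold Mat
  rw [show (34 / 2 + 1 : ℕ) = 18 from rfl]
  simp [sum_range_succ, Nat.choose]
  try ring

theorem m34_12 (γ : ℕ → ℝ) : Mat 34 γ 12 = (2199965128458240) * γ 0 + (776458280632320) * γ 1 + (270583946280960) * γ 2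
       + (93013231534080) * γ 3 + (31504481648640) * γ 4 + (10501493882880) * γ 5
       + (3440144547840) * γ 6 + (1105760747520) * γ 7 + (348109864960) * γ 8
       + (107110727680) * γ 9 + (32133218304) * γ 10 + (9372188672) * γ 11 + (2648662016) * γ 12
       + (722362368) * γ 13 + (189190144) * γ 14 + (47297536) * γ 15 + (11202048) * γ 16
       + (2489344) * γ 17 := by
  unfold Mat
  rw [show (34 / 2 + 1 : ℕ) = 18 from rfl]
  simp [sum_range_succ, Nat.choose]
  try ring

theorem m34_13 (γ : ℕ → ℝ) : Mat 34 γ 13 = (1218442224992256) * γ 0 + (465874968379392) * γ 1 + (176467791052800) * γ 2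
       + (66175421644800) * γ 3 + (24548946739200) * γ 4 + (9001280471040) * γ 5
       + (3259084308480) * γ 6 + (1163958681600) * γ 7 + (409541017600) * γ 8
       + (141764198400) * γ 9 + (48199827456) * γ 10 + (16066609152) * γ 11 + (5239111680) * γ 12
       + (1666990080) * γ 13 + (515973120) * γ 14 + (154791936) * γ 15 + (44808192) * γ 16
       + (12446720) * γ 17 := by
  unfold Mat
  rw [show (34 / 2 + 1 : ℕ) = 18 from rfl]
  simp [sum_range_succ, Nat.choose]
  try ring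

theorem m34_14 (γ : ℕ → ℝ) : Mat 34 γ 14 = (361019918516224) * γ 0 + (148655260565504) * γ 1 + (60813515685888) * γ 2
       + (24705490747392) * γ 3 + (9961891430400) * γ 4 + (3984756572160) * γ 5
       + (1580162088960) * γ 6 + (620777963520) * γ 7 + (241413652480) * γ 8 + (92851404800) * γ 9
       + (35283533824) * γ 10 + (13231325184) * γ 11 + (4889837568) * γ 12 + (1778122752) * γ 13
       + (635043840) * γ 14 + (222265344) * γ 15 + (76038144) * γ 16 + (25346048) * γ 17 := by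
  unfold Mat
  rw [show (34 / 2 + 1 : ℕ) = 18 from rfl]
  simp [sum_range_succ, Nat.choose]
  try ring

theorem m34_15 (γ : ℕ → ℝ) : Mat 34 γ 15 = (49795850829824) * γ 0 + (21968757719040) * γ 1 + (9652938997760) * γ 2
       + (4223160811520) * γ 3 + (1839118417920) * γ 4 + (796951314432) * γ 5
       + (343513497600) * γ 6 + (147220070400) * γ 7 + (62704844800) * γ 8 + (26528972800) * γ 9
       + (11142168576) * γ 10 + (4642570240) * γ 11 + (1917583360) * γ 12 + (784465920) * γ 13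
       + (317521920) * γ 14 + (127008768) * γ 15 + (50135040) * γ 16 + (19496960) * γ 17 := by
  unfold Mat
  rw [show (34 / 2 + 1 : ℕ) = 18 from rfl]
  simp [sum_range_succ, Nat.choose]
  try ring

theorem m34_16 (γ : ℕ → ℝ) : Mat 34 γ 16 = (2409476653056) * γ 0 + (1133871366144) * γ 1 + (532575944704) * γ 2 + (249644974080) * γ 3
       + (116769423360) * γ 4 + (54492397568) * γ 5 + (25367150592) * γ 6 + (11777605632) * γ 7
       + (5452595200) * γ 8 + (2516582400) * γ 9 + (1157627904) * γ 10 + (530579456) * γ 11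
       + (242221056) * γ 12 + (110100480) * γ 13 + (49807360) * γ 14 + (22413312) * γ 15
       + (10027008) * γ 16 + (4456448) * γ 17 := by
  unfold Mat
  rw [show (34 / 2 + 1 : ℕ) = 18 from rfl]
  simp [sum_range_succ, Nat.choose]
  try ring

theorem m34_17 (γ : ℕ → ℝ) : Mat 34 γ 17 = (17179869184) * γ 0 + (8589934592) * γ 1 + (4294967296) * γ 2 + (2147483648) * γ 3
       + (1073741824) * γ 4 + (536870912) * γ 5 + (268435456) * γ 6 + (134217728) * γ 7
       + (67108864) * γ 8 + (33554432) * γ 9 + (16777216) * γ 10 + (8388608) * γ 11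
       + (4194304) * γ 12 + (2097152) * γ 13 + (1048576) * γ 14 + (524288) * γ 15 + (262144) * γ 16
       + (131072) * γ 17 := by
  unfold Mat
  rw [show (34 / 2 + 1 : ℕ) = 18 from rfl]
  simp [sum_range_succ, Nat.choose]
  try ring

theorem mm34_0 (γ : ℕ → ℝ) : Mat 34 (Mat 34 γ) 0 =
      (1) * γ 0 + (0) * γ 1 + (0) * γ 2 + (0) * γ 3 + (0) * γ 4 + (0) * γ 5 + (0) * γ 6 + (0) * γ 7
       + (0) * γ 8 + (0) * γ 9 + (0) * γ 10 + (0) * γ 11 + (0) * γ 12 + (0) * γ 13 + (0) * γ 14
       + (0) * γ 15 + (0) * γ 16 + (0) * γ 17 := by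
  rw [m34_0]
  simp only [m34_0, m34_1, m34_2, m34_3, m34_4, m34_5, m34_6, m34_7, m34_8, m34_9, m34_10, m34_11, m34_12, m34_13, m34_14, m34_15, m34_16, m34_17]
  ring

theorem mm34_1 (γ : ℕ → ℝ) : Mat 34 (Mat 34 γ) 1 =
      (892364) * γ 0 + (48004) * γ 1 + (2050) * γ 2 + (62) * γ 3 + (1) * γ 4 + (0) * γ 5
       + (0) * γ 6 + (0) * γ 7 + (0) * γ 8 + (0) * γ 9 + (0) * γ 10 + (0) * γ 11 + (0) * γ 12
       + (0) * γ 13 + (0) * γ 14 + (0) * γ 15 + (0) * γ 16 + (0) * γ 17 := by
  rw [m34_1]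
  simp only [m34_0, m34_1, m34_2, m34_3, m34_4, m34_5, m34_6, m34_7, m34_8, m34_9, m34_10, m34_11, m34_12, m34_13, m34_14, m34_15, m34_16, m34_17]
  ring

theorem mm34_2 (γ : ℕ → ℝ) : Mat 34 (Mat 34 γ) 2 =
      (11555415168) * γ 0 + (1107175168) * γ 1 + (97648512) * γ 2 + (7789680) * γ 3
       + (548344) * γ 4 + (32828) * γ 5 + (1574) * γ 6 + (54) * γ 7 + (1) * γ 8 + (0) * γ 9
       + (0) * γ 10 + (0) * γ 11 + (0) * γ 12 + (0) * γ 13 + (0) * γ 14 + (0) * γ 15 + (0) * γ 16
       + (0) * γ 17 := by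
  rw [m34_2]
  simp only [m34_0, m34_1, m34_2, m34_3, m34_4, m34_5, m34_6, m34_7, m34_8, m34_9, m34_10, m34_11, m34_12, m34_13, m34_14, m34_15, m34_16, m34_17]
  ring

theorem mm34_3 (γ : ℕ → ℝ) : Mat 34 (Mat 34 γ) 3 =
      (21660791033344) * γ 0 + (2791844183552) * γ 1 + (344988847872) * γ 2 + (40633361600) * γ 3
       + (4528542560) * γ 4 + (473138480) * γ 5 + (45779000) * γ 6 + (4034520) * γ 7
       + (316340) * γ 8 + (21300) * γ 9 + (1162) * γ 10 + (46) * γ 11 + (1) * γ 12 + (0) * γ 13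
       + (0) * γ 14 + (0) * γ 15 + (0) * γ 16 + (0) * γ 17 := by
  rw [m34_3]
  simp only [m34_0, m34_1, m34_2, m34_3, m34_4, m34_5, m34_6, m34_7, m34_8, m34_9, m34_10, m34_11, m34_12, m34_13, m34_14, m34_15, m34_16, m34_17]
  ring

theorem mm34_4 (γ : ℕ → ℝ) : Mat 34 (Mat 34 γ) 4 =
      (11247455196318720) * γ 0 + (1747694620004352) * γ 1 + (264935997106176) * γ 2
       + (39082775375616) * γ 3 + (5593794907008) * γ 4 + (774036505536) * γ 5
       + (103105706592) * γ 6 + (13151464800) * γ 7 + (1595727760) * γ 8 + (182620640) * γ 9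
       + (19493488) * γ 10 + (1911392) * γ 11 + (168448) * γ 12 + (12908) * γ 13 + (814) * γ 14
       + (38) * γ 15 + (1) * γ 16 + (0) * γ 17 := by
  rw [m34_4]
  simp only [m34_0, m34_1, m34_2, m34_3, m34_4, m34_5, m34_6, m34_7, m34_8, m34_9, m34_10, m34_11, m34_12, m34_13, m34_14, m34_15, m34_16, m34_17]
  ring

theorem mm34_5 (γ : ℕ → ℝ) : Mat 34 (Mat 34 γ) 5 =
      (2205501854285107200) * γ 0 + (390472345875148800) * γ 1 + (68052871818393600) * γ 2
       + (11660887838745600) * γ 3 + (1961668952025600) * γ 4 + (323457578177280) * γ 5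
       + (52177530979200) * γ 6 + (8216060784000) * γ 7 + (1259576468800) * γ 8
       + (187418987200) * γ 9 + (26964587104) * γ 10 + (3733805280) * γ 11 + (494723920) * γ 12
       + (62257040) * γ 13 + (7368040) * γ 14 + (809096) * γ 15 + (80860) * γ 16 + (7140) * γ 17 := by
  rw [m34_5]
  simp only [m34_0, m34_1, m34_2, m34_3, m34_4, m34_5, m34_6, m34_7, m34_8, m34_9, m34_10, m34_11, m34_12, m34_13, m34_14, m34_15, m34_16, m34_17]
  ring

theorem mm34_6 (γ : ℕ → ℝ) : Mat 34 (Mat 34 γ) 6 =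
      (194699956601273548800) * γ 0 + (37984575611756544000) * γ 1 + (7332935976726528000) * γ 2
       + (1399851808769126400) * γ 3 + (264052994039961600) * γ 4 + (49174255183211520) * γ 5
       + (9032537022021120) * γ 6 + (1634711533555200) * γ 7 + (291140279522560) * γ 8
       + (50954998471680) * γ 9 + (8749728636416) * γ 10 + (1471330605056) * γ 11
       + (241754324480) * γ 12 + (38711841408) * γ 13 + (6021982784) * γ 14 + (906502464) * γ 15
       + (131406304) * γ 16 + (18229440) * γ 17 := by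
  rw [m34_6]
  simp only [m34_0, m34_1, m34_2, m34_3, m34_4, m34_5, m34_6, m34_7, m34_8, m34_9, m34_10, m34_11, m34_12, m34_13, m34_14, m34_15, m34_16, m34_17]
  ring

theorem mm34_7 (γ : ℕ → ℝ) : Mat 34 (Mat 34 γ) 7 =
      (8619965498174762254336) * γ 0 + (1813573016420091035648) * γ 1
       + (378788847527494483968) * γ 2 + (78509341291687821312) * γ 3
       + (16140654277605580800) * γ 4 + (3289973089420308480) * γ 5 + (664523452529448960) * γ 6
       + (132931213895546880) * γ 7 + (26318869595898880) * γ 8 + (5153765199672320) * γ 9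
       + (997369283029504) * γ 10 + (190578931045888) * γ 11 + (35920592094464) * γ 12
       + (6670559655424) * γ 13 + (1218868754176) * γ 14 + (218807122688) * γ 15
       + (38520834688) * γ 16 + (6636445312) * γ 17 := by
  rw [m34_7]
  simp only [m34_0, m34_1, m34_2, m34_3, m34_4, m34_5, m34_6, m34_7, m34_8, m34_9, m34_10, m34_11, m34_12, m34_13, m34_14, m34_15, m34_16, m34_17]
  ring

theorem mm34_8 (γ : ℕ → ℝ) : Mat 34 (Mat 34 γ) 8 =
      (204858164742337087275008) * γ 0 + (45797158236751228043264) * γ 1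
       + (10185419884648628486144) * γ 2 + (2253054856964147445760) * γ 3
       + (495571473807340830720) * γ 4 + (108358485949883531264) * γ 5
       + (23545727125496389632) * γ 6 + (5082918474360348672) * γ 7 + (1089714668886937600) * γ 8
       + (231922894359961600) * γ 9 + (48980367220412416) * γ 10 + (10259968317513728) * γ 11
       + (2130553130754048) * γ 12 + (438342321464320) * γ 13 + (89296197081600) * γ 14
       + (17998715822592) * γ 15 + (3586659310336) * γ 16 + (705964502016) * γ 17 := by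
  rw [m34_8]
  simp only [m34_0, m34_1, m34_2, m34_3, m34_4, m34_5, m34_6, m34_7, m34_8, m34_9, m34_10, m34_11, m34_12, m34_13, m34_14, m34_15, m34_16, m34_17]
  ring

theorem mm34_9 (γ : ℕ → ℝ) : Mat 34 (Mat 34 γ) 9 =
      (2723717669809645741932544) * γ 0 + (640147256800308153024512) * γ 1
       + (149894401880241052844032) * γ 2 + (34963506211459287744512) * γ 3
       + (8122704725102836842496) * γ 4 + (1879186661727229902848) * γ 5
       + (432857638386114592768) * γ 6 + (99252825392590585856) * γ 7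
       + (22650291803982544896) * γ 8 + (5143295308368232448) * γ 9 + (1161827867474616320) * γ 10
       + (261013008207536128) * γ 11 + (58301577858289664) * γ 12 + (12943842140729344) * γ 13
       + (2855390940280832) * γ 14 + (625645410752512) * γ 15 + (136105684751360) * γ 16
       + (29384370306048) * γ 17 := by
  rw [m34_9]
  simp only [m34_0, m34_1, m34_2, m34_3, m34_4, m34_5, m34_6, m34_7, m34_8, m34_9, m34_10, m34_11, m34_12, m34_13, m34_14, m34_15, m34_16, m34_17]
  ring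

theorem mm34_10 (γ : ℕ → ℝ) : Mat 34 (Mat 34 γ) 10 =
      (20693024707888068085940224) * γ 0 + (5072590592744936701952000) * γ 1
       + (1240143190662135634984960) * γ 2 + (302349913484803749969920) * γ 3
       + (73502372529064318074880) * γ 4 + (17815637032829015293952) * γ 5
       + (4304890656532267663360) * γ 6 + (1036890732573719920640) * γ 7
       + (248920159941770280960) * γ 8 + (59550574859877089280) * γ 9
       + (14195457861047549952) * γ 10 + (3371203281331159040) * γ 11 + (797484866641592320) * γ 12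
       + (187882655552307200) * γ 13 + (44075448489574400) * γ 14 + (10293554754322432) * γ 15
       + (2392755705036800) * γ 16 + (553469358735360) * γ 17 := by
  rw [m34_10]
  simp only [m34_0, m34_1, m34_2, m34_3, m34_4, m34_5, m34_6, m34_7, m34_8, m34_9, m34_10, m34_11, m34_12, m34_13, m34_14, m34_15, m34_16, m34_17]
  ring

theorem mm34_11 (γ : ℕ → ℝ) : Mat 34 (Mat 34 γ) 11 =
      (90149699146721908800618496) * γ 0 + (22909541403168532286406656) * γ 1
       + (5810738243436293096734720) * γ 2 + (1470901138691085899399168) * γ 3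
       + (371574653530684442804224) * γ 4 + (93667924810213593448448) * γ 5
       + (23560703465856822673408) * γ 6 + (5912986334648108318720) * γ 7
       + (1480518315665111384064) * γ 8 + (369806172416456261632) * γ 9
       + (92140628464070688768) * γ 10 + (22898437585663295488) * γ 11
       + (5675405248972390400) * γ 12 + (1402750354063622144) * γ 13 + (345708248351506432) * γ 14
       + (84944502428663808) * γ 15 + (20806738765611008) * γ 16 + (5079948876513280) * γ 17 := by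
  rw [m34_11]
  simp only [m34_0, m34_1, m34_2, m34_3, m34_4, m34_5, m34_6, m34_7, m34_8, m34_9, m34_10, m34_11, m34_12, m34_13, m34_14, m34_15, m34_16, m34_17]
  ring

theorem mm34_12 (γ : ℕ → ℝ) : Mat 34 (Mat 34 γ) 12 =
      (221908875031471730093719552) * γ 0 + (58183262029084558624817152) * γ 1
       + (15234473618609144403591168) * γ 2 + (3983333523992571019264000) * γ 3
       + (1040013185164875824889856) * γ 4 + (271135472249808789438464) * γ 5
       + (70578221421304553144320) * γ 6 + (18343096534765496434688) * γ 7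
       + (4759616274402861121536) * γ 8 + (1232955415345221337088) * γ 9
       + (318842857167166373888) * γ 10 + (82306952573864640512) * γ 11
       + (21208125240151900160) * γ 12 + (5454413849852903424) * γ 13
       + (1400060086600204288) * γ 14 + (358648711247167488) * γ 15 + (91682299697364992) * γ 16
       + (23386391081123840) * γ 17 := by
  rw [m34_12]
  simp only [m34_0, m34_1, m34_2, m34_3, m34_4, m34_5, m34_6, m34_7, m34_8, m34_9, m34_10, m34_11, m34_12, m34_13, m34_14, m34_15, m34_16, m34_17]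
  ring

theorem mm34_13 (γ : ℕ → ℝ) : Mat 34 (Mat 34 γ) 13 =
      (297308493163763682372485120) * γ 0 + (80119687387201169124229120) * γ 1
       + (21570568358919640532910080) * γ 2 + (5801821069708090440417280) * γ 3
       + (1558967527756516158341120) * γ 4 + (418474486424045740883968) * γ 5
       + (112214459654370328838144) * γ 6 + (30058331067929344344064) * γ 7
       + (8042756133860073799680) * γ 8 + (2149592845617400381440) * γ 9
       + (573859414382928199680) * γ 10 + (153016742067830784000) * γ 11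
       + (40751354763191255040) * γ 12 + (10839261042164367360) * γ 13
       + (2879360128041615360) * γ 14 + (763861109092909056) * γ 15 + (202365992167538688) * γ 16
       + (53536151161274368) * γ 17 := by
  rw [m34_13]
  simp only [m34_0, m34_1, m34_2, m34_3, m34_4, m34_5, m34_6, m34_7, m34_8, m34_9, m34_10, m34_11, m34_12, m34_13, m34_14, m34_15, m34_16, m34_17]
  ring

theorem mm34_14 (γ : ℕ → ℝ) : Mat 34 (Mat 34 γ) 14 =
      (201900762149815091466338304) * γ 0 + (55747216100660777265922048) * γ 1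
       + (15382992618491333312512000) * γ 2 + (4242139876252811945574400) * γ 3
       + (1169094240243757623541760) * γ 4 + (321979411597778099372032) * γ 5
       + (88616412217989637603328) * γ 6 + (24372545938668107333632) * γ 7
       + (6698556900127593725952) * γ 8 + (1839703788378417790976) * γ 9
       + (504885915790356774912) * γ 10 + (138455247541233516544) * γ 11
       + (37939202546907217920) * γ 12 + (10387739868187852800) * γ 13
       + (2841836941643612160) * γ 14 + (776807193293881344) * γ 15 + (212155209892233216) * γ 16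
       + (57890929654104064) * γ 17 := by
  rw [m34_14]
  simp only [m34_0, m34_1, m34_2, m34_3, m34_4, m34_5, m34_6, m34_7, m34_8, m34_9, m34_10, m34_11, m34_12, m34_13, m34_14, m34_15, m34_16, m34_17]
  ring

theorem mm34_15 (γ : ℕ → ℝ) : Mat 34 (Mat 34 γ) 15 =
      (60865553679051210637705216) * γ 0 + (17174702257812747646402560) * γ 1
       + (4844512074859904447283200) * γ 2 + (1366000635293460584202240) * γ 3
       + (385024655285578954178560) * γ 4 + (108482480277340098134016) * γ 5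
       + (30553476651499179212800) * γ 6 + (8601774525151172362240) * γ 7
       + (2420684403146238197760) * γ 8 + (680937378695316766720) * γ 9
       + (191465760303395897344) * γ 10 + (53812842734939013120) * γ 11
       + (15117758435279503360) * γ 12 + (4245131602469847040) * γ 13
       + (1191496274201804800) * γ 14 + (334262236610560000) * γ 15 + (93728181143470080) * γ 16
       + (26268561257267200) * γ 17 := by
  rw [m34_15]
  simp only [m34_0, m34_1, m34_2, m34_3, m34_4, m34_5, m34_6, m34_7, m34_8, m34_9, m34_10, m34_11, m34_12, m34_13, m34_14, m34_15, m34_16, m34_17]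
  ring

theorem mm34_16 (γ : ℕ → ℝ) : Mat 34 (Mat 34 γ) 16 =
      (6171123269244842990895104) * γ 0 + (1775723564204614991478784) * γ 1
       + (510877778465579964825600) * γ 2 + (146956198353525163425792) * γ 3
       + (42265570194264881627136) * γ 4 + (12153801342820877860864) * γ 5
       + (3494320392354003943424) * γ 6 + (1004470232248735498240) * γ 7
       + (288691307007948357632) * γ 8 + (82956632811567579136) * γ 9
       + (23833495303079591936) * γ 10 + (6846079973023809536) * γ 11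
       + (1966129633715814400) * γ 12 + (564542412337184768) * γ 13 + (162066586763526144) * γ 14
       + (46515861313290240) * γ 15 + (13348038361743360) * γ 16 + (3829487800156160) * γ 17 := by
  rw [m34_16]
  simp only [m34_0, m34_1, m34_2, m34_3, m34_4, m34_5, m34_6, m34_7, m34_8, m34_9, m34_10, m34_11, m34_12, m34_13, m34_14, m34_15, m34_16, m34_17]
  ring

theorem mm34_17 (γ : ℕ → ℝ) : Mat 34 (Mat 34 γ) 17 =
      (88789816491100940009472) * γ 0 + (26005935149934318714880) * γ 1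
       + (7616962054318167425024) * γ 2 + (2230956533669175492608) * γ 3
       + (653432040179267272704) * γ 4 + (191385813523946799104) * γ 5
       + (56055606958259961856) * γ 6 + (16418307154546524160) * γ 7 + (4808810829963067392) * γ 8
       + (1408468082652872704) * γ 9 + (412530750324211712) * γ 10 + (120827459321987072) * γ 11
       + (35389543481868288) * γ 12 + (10365357302743040) * γ 13 + (3035942864551936) * γ 14
       + (889207077732352) * γ 15 + (260442723188736) * γ 16 + (76281907511296) * γ 17 := by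
  rw [m34_17]
  simp only [m34_0, m34_1, m34_2, m34_3, m34_4, m34_5, m34_6, m34_7, m34_8, m34_9, m34_10, m34_11, m34_12, m34_13, m34_14, m34_15, m34_16, m34_17]
  ring

theorem p34_0 (γ : ℕ → ℝ) (h0 : γ 0 = 1)
    (h : ∀ n < 34, 2 * (((34 : ℕ) : ℝ) - ((n : ℕ) : ℝ)) * ∑ i ∈ range (34 / 2 + 1), γ i * (cfn 34 i n : ℝ) ≤
      ((n : ℝ) + 1) * ∑ i ∈ range (34 / 2 + 1), γ i * (cfn 34 i (n + 1) : ℝ)) :
    0 < Mat 34 (Mat 34 (Mat 34 γ)) 0 := by

  rw [m34_0]
  simp only [mm34_0, mm34_1, mm34_2, mm34_3, mm34_4, mm34_5, mm34_6, mm34_7, mm34_8, mm34_9, mm34_10, mm34_11, mm34_12, mm34_13, mm34_14, mm34_15, mm34_16, mm34_17]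
  linarith only [h0]

theorem p34_1 (γ : ℕ → ℝ) (h0 : γ 0 = 1)
    (h : ∀ n < 34, 2 * (((34 : ℕ) : ℝ) - ((n : ℕ) : ℝ)) * ∑ i ∈ range (34 / 2 + 1), γ i * (cfn 34 i n : ℝ) ≤
      ((n : ℝ) + 1) * ∑ i ∈ range (34 / 2 + 1), γ i * (cfn 34 i (n + 1) : ℝ)) :
    0 < Mat 34 (Mat 34 (Mat 34 γ)) 1 := by
  have k0 := q34_0 γ h0 h
  have k1 := q34_1 γ h0 h
  have k4 := q34_4 γ h0 h
  have k6 := q34_6 γ h0 h
  have k2 := q34_2 γ h0 h
  have k7 := q34_7 γ h0 h
  have k5 := q34_5 γ h0 h
  have k3 := q34_3 γ h0 h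
  rw [m34_1]
  simp only [mm34_0, mm34_1, mm34_2, mm34_3, mm34_4, mm34_5, mm34_6, mm34_7, mm34_8, mm34_9, mm34_10, mm34_11, mm34_12, mm34_13, mm34_14, mm34_15, mm34_16, mm34_17]
  linarith only [h0, k0, k1, k4, k6, k2, k7, k5, k3]

theorem p34_2 (γ : ℕ → ℝ) (h0 : γ 0 = 1)
    (h : ∀ n < 34, 2 * (((34 : ℕ) : ℝ) - ((n : ℕ) : ℝ)) * ∑ i ∈ range (34 / 2 + 1), γ i * (cfn 34 i n : ℝ) ≤
      ((n : ℝ) + 1) * ∑ i ∈ range (34 / 2 + 1), γ i * (cfn 34 i (n + 1) : ℝ)) :
    0 < Mat 34 (Mat 34 (Mat 34 γ)) 2 := by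
  have k8 := q34_8 γ h0 h
  have k0 := q34_0 γ h0 h
  have k10 := q34_10 γ h0 h
  have k5 := q34_5 γ h0 h
  have k3 := q34_3 γ h0 h
  have k1 := q34_1 γ h0 h
  have k2 := q34_2 γ h0 h
  have k6 := q34_6 γ h0 h
  have k4 := q34_4 γ h0 h
  have k13 := q34_13 γ h0 h
  have k14 := q34_14 γ h0 h
  have k7 := q34_7 γ h0 h
  have k12 := q34_12 γ h0 h
  have k15 := q34_15 γ h0 h
  have k11 := q34_11 γ h0 h
  have k9 := q34_9 γ h0 h
  rw [m34_2]
  simp only [mm34_0, mm34_1, mm34_2, mm34_3, mm34_4, mm34_5, mm34_6, mm34_7, mm34_8, mm34_9, mm34_10, mm34_11, mm34_12, mm34_13, mm34_14, mm34_15, mm34_16, mm34_17]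
  linarith only [h0, k8, k0, k10, k5, k3, k1, k2, k6, k4, k13, k14, k7, k12, k15, k11, k9]

theorem p34_3 (γ : ℕ → ℝ) (h0 : γ 0 = 1)
    (h : ∀ n < 34, 2 * (((34 : ℕ) : ℝ) - ((n : ℕ) : ℝ)) * ∑ i ∈ range (34 / 2 + 1), γ i * (cfn 34 i n : ℝ) ≤
      ((n : ℝ) + 1) * ∑ i ∈ range (34 / 2 + 1), γ i * (cfn 34 i (n + 1) : ℝ)) :
    0 < Mat 34 (Mat 34 (Mat 34 γ)) 3 := by
  have k19 := q34_19 γ h0 h
  have k1 := q34_1 γ h0 h
  have k0 := q34_0 γ h0 h
  have k18 := q34_18 γ h0 h
  have k5 := q34_5 γ h0 h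
  have k3 := q34_3 γ h0 h
  have k4 := q34_4 γ h0 h
  have k2 := q34_2 γ h0 h
  have k8 := q34_8 γ h0 h
  have k10 := q34_10 γ h0 h
  have k6 := q34_6 γ h0 h
  have k7 := q34_7 γ h0 h
  have k15 := q34_15 γ h0 h
  have k12 := q34_12 γ h0 h
  have k16 := q34_16 γ h0 h
  have k13 := q34_13 γ h0 h
  have k11 := q34_11 γ h0 h
  rw [m34_3]
  simp only [mm34_0, mm34_1, mm34_2, mm34_3, mm34_4, mm34_5, mm34_6, mm34_7, mm34_8, mm34_9, mm34_10, mm34_11, mm34_12, mm34_13, mm34_14, mm34_15, mm34_16, mm34_17]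
  linarith only [h0, k19, k1, k0, k18, k5, k3, k4, k2, k8, k10, k6, k7, k15, k12, k16, k13, k11]

theorem p34_4 (γ : ℕ → ℝ) (h0 : γ 0 = 1)
    (h : ∀ n < 34, 2 * (((34 : ℕ) : ℝ) - ((n : ℕ) : ℝ)) * ∑ i ∈ range (34 / 2 + 1), γ i * (cfn 34 i n : ℝ) ≤
      ((n : ℝ) + 1) * ∑ i ∈ range (34 / 2 + 1), γ i * (cfn 34 i (n + 1) : ℝ)) :
    0 < Mat 34 (Mat 34 (Mat 34 γ)) 4 := by
  have k4 := q34_4 γ h0 h
  have k20 := q34_20 γ h0 h
  have k2 := q34_2 γ h0 h
  have k0 := q34_0 γ h0 h
  have k21 := q34_21 γ h0 h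
  have k1 := q34_1 γ h0 h
  have k3 := q34_3 γ h0 h
  have k10 := q34_10 γ h0 h
  have k5 := q34_5 γ h0 h
  have k6 := q34_6 γ h0 h
  have k7 := q34_7 γ h0 h
  have k8 := q34_8 γ h0 h
  have k11 := q34_11 γ h0 h
  have k17 := q34_17 γ h0 h
  have k13 := q34_13 γ h0 h
  have k14 := q34_14 γ h0 h
  have k18 := q34_18 γ h0 h
  rw [m34_4]
  simp only [mm34_0, mm34_1, mm34_2, mm34_3, mm34_4, mm34_5, mm34_6, mm34_7, mm34_8, mm34_9, mm34_10, mm34_11, mm34_12, mm34_13, mm34_14, mm34_15, mm34_16, mm34_17]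
  linarith only [h0, k4, k20, k2, k0, k21, k1, k3, k10, k5, k6, k7, k8, k11, k17, k13, k14, k18]

theorem p34_5 (γ : ℕ → ℝ) (h0 : γ 0 = 1)
    (h : ∀ n < 34, 2 * (((34 : ℕ) : ℝ) - ((n : ℕ) : ℝ)) * ∑ i ∈ range (34 / 2 + 1), γ i * (cfn 34 i n : ℝ) ≤
      ((n : ℝ) + 1) * ∑ i ∈ range (34 / 2 + 1), γ i * (cfn 34 i (n + 1) : ℝ)) :
    0 < Mat 34 (Mat 34 (Mat 34 γ)) 5 := by
  have k15 := q34_15 γ h0 h
  have k14 := q34_14 γ h0 h
  have k1 := q34_1 γ h0 h
  have k0 := q34_0 γ h0 h
  have k5 := q34_5 γ h0 h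
  have k3 := q34_3 γ h0 h
  have k22 := q34_22 γ h0 h
  have k8 := q34_8 γ h0 h
  have k2 := q34_2 γ h0 h
  have k11 := q34_11 γ h0 h
  have k4 := q34_4 γ h0 h
  have k18 := q34_18 γ h0 h
  have k7 := q34_7 γ h0 h
  have k6 := q34_6 γ h0 h
  have k10 := q34_10 γ h0 h
  have k23 := q34_23 γ h0 h
  have k19 := q34_19 γ h0 h
  rw [m34_5]
  simp only [mm34_0, mm34_1, mm34_2, mm34_3, mm34_4, mm34_5, mm34_6, mm34_7, mm34_8, mm34_9, mm34_10, mm34_11, mm34_12, mm34_13, mm34_14, mm34_15, mm34_16, mm34_17]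
  linarith only [h0, k15, k14, k1, k0, k5, k3, k22, k8, k2, k11, k4, k18, k7, k6, k10, k23, k19]

theorem p34_6 (γ : ℕ → ℝ) (h0 : γ 0 = 1)
    (h : ∀ n < 34, 2 * (((34 : ℕ) : ℝ) - ((n : ℕ) : ℝ)) * ∑ i ∈ range (34 / 2 + 1), γ i * (cfn 34 i n : ℝ) ≤
      ((n : ℝ) + 1) * ∑ i ∈ range (34 / 2 + 1), γ i * (cfn 34 i (n + 1) : ℝ)) :
    0 < Mat 34 (Mat 34 (Mat 34 γ)) 6 := by
  have k0 := q34_0 γ h0 h
  have k8 := q34_8 γ h0 h
  have k3 := q34_3 γ h0 h
  have k18 := q34_18 γ h0 h
  have k19 := q34_19 γ h0 h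
  have k5 := q34_5 γ h0 h
  have k23 := q34_23 γ h0 h
  have k1 := q34_1 γ h0 h
  have k2 := q34_2 γ h0 h
  have k10 := q34_10 γ h0 h
  have k14 := q34_14 γ h0 h
  have k11 := q34_11 γ h0 h
  have k4 := q34_4 γ h0 h
  have k6 := q34_6 γ h0 h
  have k7 := q34_7 γ h0 h
  have k24 := q34_24 γ h0 h
  have k15 := q34_15 γ h0 h
  rw [m34_6]
  simp only [mm34_0, mm34_1, mm34_2, mm34_3, mm34_4, mm34_5, mm34_6, mm34_7, mm34_8, mm34_9, mm34_10, mm34_11, mm34_12, mm34_13, mm34_14, mm34_15, mm34_16, mm34_17]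
  linarith only [h0, k0, k8, k3, k18, k19, k5, k23, k1, k2, k10, k14, k11, k4, k6, k7, k24, k15]

theorem p34_7 (γ : ℕ → ℝ) (h0 : γ 0 = 1)
    (h : ∀ n < 34, 2 * (((34 : ℕ) : ℝ) - ((n : ℕ) : ℝ)) * ∑ i ∈ range (34 / 2 + 1), γ i * (cfn 34 i n : ℝ) ≤
      ((n : ℝ) + 1) * ∑ i ∈ range (34 / 2 + 1), γ i * (cfn 34 i (n + 1) : ℝ)) :
    0 < Mat 34 (Mat 34 (Mat 34 γ)) 7 := by
  have k10 := q34_10 γ h0 h
  have k0 := q34_0 γ h0 h
  have k2 := q34_2 γ h0 h
  have k3 := q34_3 γ h0 h
  have k4 := q34_4 γ h0 h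
  have k1 := q34_1 γ h0 h
  have k18 := q34_18 γ h0 h
  have k19 := q34_19 γ h0 h
  have k24 := q34_24 γ h0 h
  have k23 := q34_23 γ h0 h
  have k8 := q34_8 γ h0 h
  have k11 := q34_11 γ h0 h
  have k14 := q34_14 γ h0 h
  have k6 := q34_6 γ h0 h
  have k7 := q34_7 γ h0 h
  have k5 := q34_5 γ h0 h
  have k15 := q34_15 γ h0 h
  rw [m34_7]
  simp only [mm34_0, mm34_1, mm34_2, mm34_3, mm34_4, mm34_5, mm34_6, mm34_7, mm34_8, mm34_9, mm34_10, mm34_11, mm34_12, mm34_13, mm34_14, mm34_15, mm34_16, mm34_17]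
  linarith only [h0, k10, k0, k2, k3, k4, k1, k18, k19, k24, k23, k8, k11, k14, k6, k7, k5, k15]

theorem p34_8 (γ : ℕ → ℝ) (h0 : γ 0 = 1)
    (h : ∀ n < 34, 2 * (((34 : ℕ) : ℝ) - ((n : ℕ) : ℝ)) * ∑ i ∈ range (34 / 2 + 1), γ i * (cfn 34 i n : ℝ) ≤
      ((n : ℝ) + 1) * ∑ i ∈ range (34 / 2 + 1), γ i * (cfn 34 i (n + 1) : ℝ)) :
    0 < Mat 34 (Mat 34 (Mat 34 γ)) 8 := by
  have k0 := q34_0 γ h0 h
  have k3 := q34_3 γ h0 h
  have k6 := q34_6 γ h0 h
  have k24 := q34_24 γ h0 h
  have k19 := q34_19 γ h0 h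
  have k15 := q34_15 γ h0 h
  have k10 := q34_10 γ h0 h
  have k1 := q34_1 γ h0 h
  have k2 := q34_2 γ h0 h
  have k4 := q34_4 γ h0 h
  have k5 := q34_5 γ h0 h
  have k11 := q34_11 γ h0 h
  have k14 := q34_14 γ h0 h
  have k25 := q34_25 γ h0 h
  have k7 := q34_7 γ h0 h
  have k8 := q34_8 γ h0 h
  have k20 := q34_20 γ h0 h
  rw [m34_8]
  simp only [mm34_0, mm34_1, mm34_2, mm34_3, mm34_4, mm34_5, mm34_6, mm34_7, mm34_8, mm34_9, mm34_10, mm34_11, mm34_12, mm34_13, mm34_14, mm34_15, mm34_16, mm34_17]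
  linarith only [h0, k0, k3, k6, k24, k19, k15, k10, k1, k2, k4, k5, k11, k14, k25, k7, k8, k20]

theorem p34_9 (γ : ℕ → ℝ) (h0 : γ 0 = 1)
    (h : ∀ n < 34, 2 * (((34 : ℕ) : ℝ) - ((n : ℕ) : ℝ)) * ∑ i ∈ range (34 / 2 + 1), γ i * (cfn 34 i n : ℝ) ≤
      ((n : ℝ) + 1) * ∑ i ∈ range (34 / 2 + 1), γ i * (cfn 34 i (n + 1) : ℝ)) :
    0 < Mat 34 (Mat 34 (Mat 34 γ)) 9 := by
  have k3 := q34_3 γ h0 h
  have k0 := q34_0 γ h0 h
  have k10 := q34_10 γ h0 h
  have k20 := q34_20 γ h0 h
  have k6 := q34_6 γ h0 h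
  have k25 := q34_25 γ h0 h
  have k1 := q34_1 γ h0 h
  have k2 := q34_2 γ h0 h
  have k19 := q34_19 γ h0 h
  have k4 := q34_4 γ h0 h
  have k8 := q34_8 γ h0 h
  have k11 := q34_11 γ h0 h
  have k14 := q34_14 γ h0 h
  have k5 := q34_5 γ h0 h
  have k7 := q34_7 γ h0 h
  have k15 := q34_15 γ h0 h
  have k26 := q34_26 γ h0 h
  rw [m34_9]
  simp only [mm34_0, mm34_1, mm34_2, mm34_3, mm34_4, mm34_5, mm34_6, mm34_7, mm34_8, mm34_9, mm34_10, mm34_11, mm34_12, mm34_13, mm34_14, mm34_15, mm34_16, mm34_17]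
  linarith only [h0, k3, k0, k10, k20, k6, k25, k1, k2, k19, k4, k8, k11, k14, k5, k7, k15, k26]

theorem p34_10 (γ : ℕ → ℝ) (h0 : γ 0 = 1)
    (h : ∀ n < 34, 2 * (((34 : ℕ) : ℝ) - ((n : ℕ) : ℝ)) * ∑ i ∈ range (34 / 2 + 1), γ i * (cfn 34 i n : ℝ) ≤
      ((n : ℝ) + 1) * ∑ i ∈ range (34 / 2 + 1), γ i * (cfn 34 i (n + 1) : ℝ)) :
    0 < Mat 34 (Mat 34 (Mat 34 γ)) 10 := by
  have k3 := q34_3 γ h0 h
  have k0 := q34_0 γ h0 h
  have k2 := q34_2 γ h0 h
  have k5 := q34_5 γ h0 h
  have k19 := q34_19 γ h0 h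
  have k8 := q34_8 γ h0 h
  have k1 := q34_1 γ h0 h
  have k25 := q34_25 γ h0 h
  have k10 := q34_10 γ h0 h
  have k26 := q34_26 γ h0 h
  have k20 := q34_20 γ h0 h
  have k4 := q34_4 γ h0 h
  have k14 := q34_14 γ h0 h
  have k11 := q34_11 γ h0 h
  have k7 := q34_7 γ h0 h
  have k15 := q34_15 γ h0 h
  have k6 := q34_6 γ h0 h
  rw [m34_10]
  simp only [mm34_0, mm34_1, mm34_2, mm34_3, mm34_4, mm34_5, mm34_6, mm34_7, mm34_8, mm34_9, mm34_10, mm34_11, mm34_12, mm34_13, mm34_14, mm34_15, mm34_16, mm34_17]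
  linarith only [h0, k3, k0, k2, k5, k19, k8, k1, k25, k10, k26, k20, k4, k14, k11, k7, k15, k6]

theorem p34_11 (γ : ℕ → ℝ) (h0 : γ 0 = 1)
    (h : ∀ n < 34, 2 * (((34 : ℕ) : ℝ) - ((n : ℕ) : ℝ)) * ∑ i ∈ range (34 / 2 + 1), γ i * (cfn 34 i n : ℝ) ≤
      ((n : ℝ) + 1) * ∑ i ∈ range (34 / 2 + 1), γ i * (cfn 34 i (n + 1) : ℝ)) :
    0 < Mat 34 (Mat 34 (Mat 34 γ)) 11 := by
  have k2 := q34_2 γ h0 h
  have k0 := q34_0 γ h0 h
  have k6 := q34_6 γ h0 h
  have k10 := q34_10 γ h0 h
  have k3 := q34_3 γ h0 h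
  have k26 := q34_26 γ h0 h
  have k1 := q34_1 γ h0 h
  have k5 := q34_5 γ h0 h
  have k14 := q34_14 γ h0 h
  have k19 := q34_19 γ h0 h
  have k20 := q34_20 γ h0 h
  have k4 := q34_4 γ h0 h
  have k11 := q34_11 γ h0 h
  have k15 := q34_15 γ h0 h
  have k7 := q34_7 γ h0 h
  have k8 := q34_8 γ h0 h
  have k27 := q34_27 γ h0 h
  rw [m34_11]
  simp only [mm34_0, mm34_1, mm34_2, mm34_3, mm34_4, mm34_5, mm34_6, mm34_7, mm34_8, mm34_9, mm34_10, mm34_11, mm34_12, mm34_13, mm34_14, mm34_15, mm34_16, mm34_17]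
  linarith only [h0, k2, k0, k6, k10, k3, k26, k1, k5, k14, k19, k20, k4, k11, k15, k7, k8, k27]

theorem p34_12 (γ : ℕ → ℝ) (h0 : γ 0 = 1)
    (h : ∀ n < 34, 2 * (((34 : ℕ) : ℝ) - ((n : ℕ) : ℝ)) * ∑ i ∈ range (34 / 2 + 1), γ i * (cfn 34 i n : ℝ) ≤
      ((n : ℝ) + 1) * ∑ i ∈ range (34 / 2 + 1), γ i * (cfn 34 i (n + 1) : ℝ)) :
    0 < Mat 34 (Mat 34 (Mat 34 γ)) 12 := by
  have k0 := q34_0 γ h0 h
  have k26 := q34_26 γ h0 h
  have k3 := q34_3 γ h0 h
  have k10 := q34_10 γ h0 h
  have k19 := q34_19 γ h0 h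
  have k2 := q34_2 γ h0 h
  have k1 := q34_1 γ h0 h
  have k5 := q34_5 γ h0 h
  have k7 := q34_7 γ h0 h
  have k14 := q34_14 γ h0 h
  have k27 := q34_27 γ h0 h
  have k4 := q34_4 γ h0 h
  have k11 := q34_11 γ h0 h
  have k15 := q34_15 γ h0 h
  have k20 := q34_20 γ h0 h
  have k8 := q34_8 γ h0 h
  have k6 := q34_6 γ h0 h
  rw [m34_12]
  simp only [mm34_0, mm34_1, mm34_2, mm34_3, mm34_4, mm34_5, mm34_6, mm34_7, mm34_8, mm34_9, mm34_10, mm34_11, mm34_12, mm34_13, mm34_14, mm34_15, mm34_16, mm34_17]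
  linarith only [h0, k0, k26, k3, k10, k19, k2, k1, k5, k7, k14, k27, k4, k11, k15, k20, k8, k6]

theorem p34_13 (γ : ℕ → ℝ) (h0 : γ 0 = 1)
    (h : ∀ n < 34, 2 * (((34 : ℕ) : ℝ) - ((n : ℕ) : ℝ)) * ∑ i ∈ range (34 / 2 + 1), γ i * (cfn 34 i n : ℝ) ≤
      ((n : ℝ) + 1) * ∑ i ∈ range (34 / 2 + 1), γ i * (cfn 34 i (n + 1) : ℝ)) :
    0 < Mat 34 (Mat 34 (Mat 34 γ)) 13 := by
  have k0 := q34_0 γ h0 h
  have k19 := q34_19 γ h0 h
  have k2 := q34_2 γ h0 h
  have k14 := q34_14 γ h0 h
  have k1 := q34_1 γ h0 h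
  have k15 := q34_15 γ h0 h
  have k3 := q34_3 γ h0 h
  have k5 := q34_5 γ h0 h
  have k7 := q34_7 γ h0 h
  have k6 := q34_6 γ h0 h
  have k27 := q34_27 γ h0 h
  have k4 := q34_4 γ h0 h
  have k10 := q34_10 γ h0 h
  have k11 := q34_11 γ h0 h
  have k20 := q34_20 γ h0 h
  have k8 := q34_8 γ h0 h
  have k28 := q34_28 γ h0 h
  rw [m34_13]
  simp only [mm34_0, mm34_1, mm34_2, mm34_3, mm34_4, mm34_5, mm34_6, mm34_7, mm34_8, mm34_9, mm34_10, mm34_11, mm34_12, mm34_13, mm34_14, mm34_15, mm34_16, mm34_17]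
  linarith only [h0, k0, k19, k2, k14, k1, k15, k3, k5, k7, k6, k27, k4, k10, k11, k20, k8, k28]

theorem p34_14 (γ : ℕ → ℝ) (h0 : γ 0 = 1)
    (h : ∀ n < 34, 2 * (((34 : ℕ) : ℝ) - ((n : ℕ) : ℝ)) * ∑ i ∈ range (34 / 2 + 1), γ i * (cfn 34 i n : ℝ) ≤
      ((n : ℝ) + 1) * ∑ i ∈ range (34 / 2 + 1), γ i * (cfn 34 i (n + 1) : ℝ)) :
    0 < Mat 34 (Mat 34 (Mat 34 γ)) 14 := by
  have k5 := q34_5 γ h0 h
  have k3 := q34_3 γ h0 h
  have k14 := q34_14 γ h0 h
  have k27 := q34_27 γ h0 h
  have k0 := q34_0 γ h0 h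
  have k2 := q34_2 γ h0 h
  have k1 := q34_1 γ h0 h
  have k28 := q34_28 γ h0 h
  have k10 := q34_10 γ h0 h
  have k15 := q34_15 γ h0 h
  have k19 := q34_19 γ h0 h
  have k4 := q34_4 γ h0 h
  have k20 := q34_20 γ h0 h
  have k11 := q34_11 γ h0 h
  have k7 := q34_7 γ h0 h
  have k8 := q34_8 γ h0 h
  have k6 := q34_6 γ h0 h
  rw [m34_14]
  simp only [mm34_0, mm34_1, mm34_2, mm34_3, mm34_4, mm34_5, mm34_6, mm34_7, mm34_8, mm34_9, mm34_10, mm34_11, mm34_12, mm34_13, mm34_14, mm34_15, mm34_16, mm34_17]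
  linarith only [h0, k5, k3, k14, k27, k0, k2, k1, k28, k10, k15, k19, k4, k20, k11, k7, k8, k6]

theorem p34_15 (γ : ℕ → ℝ) (h0 : γ 0 = 1)
    (h : ∀ n < 34, 2 * (((34 : ℕ) : ℝ) - ((n : ℕ) : ℝ)) * ∑ i ∈ range (34 / 2 + 1), γ i * (cfn 34 i n : ℝ) ≤
      ((n : ℝ) + 1) * ∑ i ∈ range (34 / 2 + 1), γ i * (cfn 34 i (n + 1) : ℝ)) :
    0 < Mat 34 (Mat 34 (Mat 34 γ)) 15 := by
  have k1 := q34_1 γ h0 h
  have k20 := q34_20 γ h0 h
  have k0 := q34_0 γ h0 h
  have k3 := q34_3 γ h0 h
  have k2 := q34_2 γ h0 h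
  have k5 := q34_5 γ h0 h
  have k19 := q34_19 γ h0 h
  have k6 := q34_6 γ h0 h
  have k4 := q34_4 γ h0 h
  have k15 := q34_15 γ h0 h
  have k28 := q34_28 γ h0 h
  have k11 := q34_11 γ h0 h
  have k10 := q34_10 γ h0 h
  have k14 := q34_14 γ h0 h
  have k7 := q34_7 γ h0 h
  have k8 := q34_8 γ h0 h
  have k29 := q34_29 γ h0 h
  rw [m34_15]
  simp only [mm34_0, mm34_1, mm34_2, mm34_3, mm34_4, mm34_5, mm34_6, mm34_7, mm34_8, mm34_9, mm34_10, mm34_11, mm34_12, mm34_13, mm34_14, mm34_15, mm34_16, mm34_17]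
  linarith only [h0, k1, k20, k0, k3, k2, k5, k19, k6, k4, k15, k28, k11, k10, k14, k7, k8, k29]

theorem p34_16 (γ : ℕ → ℝ) (h0 : γ 0 = 1)
    (h : ∀ n < 34, 2 * (((34 : ℕ) : ℝ) - ((n : ℕ) : ℝ)) * ∑ i ∈ range (34 / 2 + 1), γ i * (cfn 34 i n : ℝ) ≤
      ((n : ℝ) + 1) * ∑ i ∈ range (34 / 2 + 1), γ i * (cfn 34 i (n + 1) : ℝ)) :
    0 < Mat 34 (Mat 34 (Mat 34 γ)) 16 := by
  have k5 := q34_5 γ h0 h
  have k3 := q34_3 γ h0 h
  have k28 := q34_28 γ h0 h
  have k0 := q34_0 γ h0 h
  have k29 := q34_29 γ h0 h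
  have k15 := q34_15 γ h0 h
  have k2 := q34_2 γ h0 h
  have k1 := q34_1 γ h0 h
  have k4 := q34_4 γ h0 h
  have k20 := q34_20 γ h0 h
  have k19 := q34_19 γ h0 h
  have k11 := q34_11 γ h0 h
  have k10 := q34_10 γ h0 h
  have k14 := q34_14 γ h0 h
  have k7 := q34_7 γ h0 h
  have k8 := q34_8 γ h0 h
  have k6 := q34_6 γ h0 h
  rw [m34_16]
  simp only [mm34_0, mm34_1, mm34_2, mm34_3, mm34_4, mm34_5, mm34_6, mm34_7, mm34_8, mm34_9, mm34_10, mm34_11, mm34_12, mm34_13, mm34_14, mm34_15, mm34_16, mm34_17]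
  linarith only [h0, k5, k3, k28, k0, k29, k15, k2, k1, k4, k20, k19, k11, k10, k14, k7, k8, k6]

theorem p34_17 (γ : ℕ → ℝ) (h0 : γ 0 = 1)
    (h : ∀ n < 34, 2 * (((34 : ℕ) : ℝ) - ((n : ℕ) : ℝ)) * ∑ i ∈ range (34 / 2 + 1), γ i * (cfn 34 i n : ℝ) ≤
      ((n : ℝ) + 1) * ∑ i ∈ range (34 / 2 + 1), γ i * (cfn 34 i (n + 1) : ℝ)) :
    0 < Mat 34 (Mat 34 (Mat 34 γ)) 17 := by
  have k3 := q34_3 γ h0 h
  have k20 := q34_20 γ h0 h
  have k2 := q34_2 γ h0 h
  have k0 := q34_0 γ h0 h
  have k29 := q34_29 γ h0 h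
  have k30 := q34_30 γ h0 h
  have k15 := q34_15 γ h0 h
  have k1 := q34_1 γ h0 h
  have k4 := q34_4 γ h0 h
  have k6 := q34_6 γ h0 h
  have k5 := q34_5 γ h0 h
  have k11 := q34_11 γ h0 h
  have k10 := q34_10 γ h0 h
  have k14 := q34_14 γ h0 h
  have k7 := q34_7 γ h0 h
  have k8 := q34_8 γ h0 h
  have k21 := q34_21 γ h0 h
  rw [m34_17]
  simp only [mm34_0, mm34_1, mm34_2, mm34_3, mm34_4, mm34_5, mm34_6, mm34_7, mm34_8, mm34_9, mm34_10, mm34_11, mm34_12, mm34_13, mm34_14, mm34_15, mm34_16, mm34_17]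
  linarith only [h0, k3, k20, k2, k0, k29, k30, k15, k1, k4, k6, k5, k11, k10, k14, k7, k8, k21]

theorem main34 (γ : ℕ → ℝ) (h0 : γ 0 = 1)
    (h : ∀ n < 34, 2 * (((34 : ℕ) : ℝ) - ((n : ℕ) : ℝ)) * ∑ i ∈ range (34 / 2 + 1), γ i * (cfn 34 i n : ℝ) ≤
      ((n : ℝ) + 1) * ∑ i ∈ range (34 / 2 + 1), γ i * (cfn 34 i (n + 1) : ℝ)) :
    ∀ j ≤ 34 / 2, 0 < Mat 34 (Mat 34 (Mat 34 γ)) j := by
  intro j hj
  have hj' : j ≤ 17 := hj
  clear hj
  interval_cases j
  · exact p34_0 γ h0 h
  · exact p34_1 γ h0 h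
  · exact p34_2 γ h0 h
  · exact p34_3 γ h0 h
  · exact p34_4 γ h0 h
  · exact p34_5 γ h0 h
  · exact p34_6 γ h0 h
  · exact p34_7 γ h0 h
  · exact p34_8 γ h0 h
  · exact p34_9 γ h0 h
  · exact p34_10 γ h0 h
  · exact p34_11 γ h0 h
  · exact p34_12 γ h0 h
  · exact p34_13 γ h0 h
  · exact p34_14 γ h0 h
  · exact p34_15 γ h0 h
  · exact p34_16 γ h0 h
  · exact p34_17 γ h0 h

end PkgNT32

end Pool.Agent.T2H83.GR
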