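import Pool.Agent.T2H83.GR.Stm

set_option autoImplicit false
set_option linter.unusedSimpArgs false
set_option linter.unusedVariables false

/-!
# Numerical inequalities for three rounds (generated by a computer program)
-/

namespace Pool.Agent.T2H83.GR

open Finset

namespace PkgNT37

theorem c37_0 (γ : ℕ → ℝ) : ∑ i ∈ range (37 / 2 + 1), γ i * (cfn 37 i 0 : ℝ) =
    (1) * γ 0 + (0) * γ 1 + (0) * γ 2 + (0) * γ 3 + (0) * γ 4 + (0) * γ 5 + (0) * γ 6 + (0) * γ 7
       + (0) * γ 8 + (0) * γ 9 + (0) * γ 10 + (0) * γ 11 + (0) * γ 12 + (0) * γ 13 + (0) * γ 14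
       + (0) * γ 15 + (0) * γ 16 + (0) * γ 17 + (0) * γ 18 := by
  have h : ((37 / 2 + 1 : ℕ)) = 19 := rfl
  rw [h]
  simp only [sum_range_succ, sum_range_zero, show cfn 37 0 0 = 1 from by decide +kernel, show cfn 37 1 0 = 0 from by decide +kernel, show cfn 37 2 0 = 0 from by decide +kernel, show cfn 37 3 0 = 0 from by decide +kernel, show cfn 37 4 0 = 0 from by decide +kernel, show cfn 37 5 0 = 0 from by decide +kernel, show cfn 37 6 0 = 0 from by decide +kernel, show cfn 37 7 0 = 0 from by decide +kernel, show cfn 37 8 0 = 0 from by decide +kernel, show cfn 37 9 0 = 0 from by decide +kernel, show cfn 37 10 0 = 0 from by decide +kernel, show cfn 37 11 0 = 0 from by decide +kernel, show cfn 37 12 0 = 0 from by decide +kernel, show cfn 37 13 0 = 0 from by decide +kernel, show cfn 37 14 0 = 0 from by decide +kernel, show cfn 37 15 0 = 0 from by decide +kernel, show cfn 37 16 0 = 0 from by decide +kernel, show cfn 37 17 0 = 0 from by decide +kernel, show cfn 37 18 0 = 0 from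 by decide +kernel, Nat.cast_ofNat, Nat.cast_one, Nat.cast_zero]
  ring

theorem c37_1 (γ : ℕ → ℝ) : ∑ i ∈ range (37 / 2 + 1), γ i * (cfn 37 i 1 : ℝ) =
    (74) * γ 0 + (1) * γ 1 + (0) * γ 2 + (0) * γ 3 + (0) * γ 4 + (0) * γ 5 + (0) * γ 6
       + (0) * γ 7 + (0) * γ 8 + (0) * γ 9 + (0) * γ 10 + (0) * γ 11 + (0) * γ 12 + (0) * γ 13
       + (0) * γ 14 + (0) * γ 15 + (0) * γ 16 + (0) * γ 17 + (0) * γ 18 := by
  have h : ((37 / 2 + 1 : ℕ)) = 19 := rfl
  rw [h]
  simp only [sum_range_succ, sum_range_zero, show cfn 37 0 1 = 74 from by decide +kernel, show cfn 37 1 1 = 1 from by decide +kernel, show cfn 37 2 1 = 0 from by decide +kernel, show cfn 37 3 1 = 0 from by decide +kernel, show cfn 37 4 1 = 0 from by decide +kernel, show cfn 37 5 1 = 0 from by decide +kernel, show cfn 37 6 1 = 0 from by decide +kernel, show cfn 37 7 1 = 0 from by decide +kernel, show cfn 37 8 1 = 0 from by decide +kernel, show cfn 37 9 1 = 0 from by decide +kernel, show cfn 37 10 1 = 0 from by decide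 +kernel, show cfn 37 11 1 = 0 from by decide +kernel, show cfn 37 12 1 = 0 from by decide +kernel, show cfn 37 13 1 = 0 from by decide +kernel, show cfn 37 14 1 = 0 from by decide +kernel, show cfn 37 15 1 = 0 from by decide +kernel, show cfn 37 16 1 = 0 from by decide +kernel, show cfn 37 17 1 = 0 from by decide +kernel, show cfn 37 18 1 = 0 from by decide +kernel, Nat.cast_ofNat, Nat.cast_one, Nat.cast_zero]
  ring

theorem c37_2 (γ : ℕ → ℝ) : ∑ i ∈ range (37 / 2 + 1), γ i * (cfn 37 i 2 : ℝ) =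
    (2664) * γ 0 + (71) * γ 1 + (1) * γ 2 + (0) * γ 3 + (0) * γ 4 + (0) * γ 5 + (0) * γ 6
       + (0) * γ 7 + (0) * γ 8 + (0) * γ 9 + (0) * γ 10 + (0) * γ 11 + (0) * γ 12 + (0) * γ 13
       + (0) * γ 14 + (0) * γ 15 + (0) * γ 16 + (0) * γ 17 + (0) * γ 18 := by
  have h : ((37 / 2 + 1 : ℕ)) = 19 := rfl
  rw [h]
  simp only [sum_range_succ, sum_range_zero, show cfn 37 0 2 = 2664 from by decide +kernel, show cfn 37 1 2 = 71 from by decide +kernel, show cfn 37 2 2 = 1 from by decide +kernel, show cfn 37 3 2 = 0 from by decide +kernel, show cfn 37 4 2 = 0 from by decide +kernel, show cfn 37 5 2 = 0 from by decide +kernel, show cfn 37 6 2 = 0 from by decide +kernel, show cfn 37 7 2 = 0 from by decide +kernel, show cfn 37 8 2 = 0 from by decide +kernel, show cfn 37 9 2 = 0 from by decide +kernel, show cfn 37 10 2 = 0 from by decide +kernel, show cfn 37 11 2 = 0 from by decide +kernel, show cfn 37 12 2 = 0 from by decide +kernel, show cfn 37 13 2 = 0 from by decide +kernel, show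 cfn 37 14 2 = 0 from by decide +kernel, show cfn 37 15 2 = 0 from by decide +kernel, show cfn 37 16 2 = 0 from by decide +kernel, show cfn 37 17 2 = 0 from by decide +kernel, show cfn 37 18 2 = 0 from by decide +kernel, Nat.cast_ofNat, Nat.cast_one, Nat.cast_zero]
  ring

theorem c37_3 (γ : ℕ → ℝ) : ∑ i ∈ range (37 / 2 + 1), γ i * (cfn 37 i 3 : ℝ) =
    (62160) * γ 0 + (2450) * γ 1 + (68) * γ 2 + (1) * γ 3 + (0) * γ 4 + (0) * γ 5 + (0) * γ 6
       + (0) * γ 7 + (0) * γ 8 + (0) * γ 9 + (0) * γ 10 + (0) * γ 11 + (0) * γ 12 + (0) * γ 13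
       + (0) * γ 14 + (0) * γ 15 + (0) * γ 16 + (0) * γ 17 + (0) * γ 18 := by
  have h : ((37 / 2 + 1 : ℕ)) = 19 := rfl
  rw [h]
  simp only [sum_range_succ, sum_range_zero, show cfn 37 0 3 = 62160 from by decide +kernel, show cfn 37 1 3 = 2450 from by decide +kernel, show cfn 37 2 3 = 68 from by decide +kernel, show cfn 37 3 3 = 1 from by decide +kernel, show cfn 37 4 3 = 0 from by decide +kernel, show cfn 37 5 3 = 0 from by decide +kernel, show cfn 37 6 3 = 0 from by decide +kernel, show cfn 37 7 3 = 0 from by decide +kernel, show cfn 37 8 3 = 0 from by decide +kernel, show cfn 37 9 3 = 0 from by decide +kernel, show cfn 37 10 3 = 0 from by decide +kernel, show cfn 37 11 3 = 0 from by decide +kernel, show cfn 37 12 3 = 0 from by decide +kernel, show cfn 37 13 3 = 0 from by decide +kernel, show cfn 37 14 3 = 0 from by decide +kernel, show cfn 37 15 3 = 0 from by decide +kernel, show cfn 37 16 3 = 0 from by decide +kernel, show cfn 37 17 3 = 0 from by decide +kernel, show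 cfn 37 18 3 = 0 from by decide +kernel, Nat.cast_ofNat, Nat.cast_one, Nat.cast_zero]
  ring

theorem c37_4 (γ : ℕ → ℝ) : ∑ i ∈ range (37 / 2 + 1), γ i * (cfn 37 i 4 : ℝ) =
    (1056720) * γ 0 + (54740) * γ 1 + (2245) * γ 2 + (65) * γ 3 + (1) * γ 4 + (0) * γ 5
       + (0) * γ 6 + (0) * γ 7 + (0) * γ 8 + (0) * γ 9 + (0) * γ 10 + (0) * γ 11 + (0) * γ 12
       + (0) * γ 13 + (0) * γ 14 + (0) * γ 15 + (0) * γ 16 + (0) * γ 17 + (0) * γ 18 := by
  have h : ((37 / 2 + 1 : ℕ)) = 19 := rfl
  rw [h]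
  simp only [sum_range_succ, sum_range_zero, show cfn 37 0 4 = 1056720 from by decide +kernel, show cfn 37 1 4 = 54740 from by decide +kernel, show cfn 37 2 4 = 2245 from by decide +kernel, show cfn 37 3 4 = 65 from by decide +kernel, show cfn 37 4 4 = 1 from by decide +kernel, show cfn 37 5 4 = 0 from by decide +kernel, show cfn 37 6 4 = 0 from by decide +kernel, show cfn 37 7 4 = 0 from by decide +kernel, show cfn 37 8 4 = 0 from by decide +kernel, show cfn 37 9 4 = 0 from by decide +kernel, show cfn 37 10 4 = 0 from by decide +kernel, show cfn 37 11 4 = 0 from by decide +kernel, show cfn 37 12 4 = 0 from by decide +kernel, show cfn 37 13 4 = 0 from by decide +kernel, show cfn 37 14 4 = 0 from by decide +kernel, show cfn 37 15 4 = 0 from by decide +kernel, show cfn 37 16 4 = 0 from by decide +kernel, show cfn 37 17 4 = 0 from by decide +kernel, show cfn 37 18 4 = 0 from by decide +kernel, Nat.cast_ofNat, Nat.cast_one, Nat.cast_zero]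
  ring

theorem c37_5 (γ : ℕ → ℝ) : ∑ i ∈ range (37 / 2 + 1), γ i * (cfn 37 i 5 : ℝ) =
    (13948704) * γ 0 + (890120) * γ 1 + (47938) * γ 2 + (2049) * γ 3 + (62) * γ 4 + (1) * γ 5
       + (0) * γ 6 + (0) * γ 7 + (0) * γ 8 + (0) * γ 9 + (0) * γ 10 + (0) * γ 11 + (0) * γ 12
       + (0) * γ 13 + (0) * γ 14 + (0) * γ 15 + (0) * γ 16 + (0) * γ 17 + (0) * γ 18 := by
  have h : ((37 / 2 + 1 : ℕ)) = 19 := rfl
  rw [h]
  simp only [sum_range_succ, sum_range_zero, show cfn 37 0 5 = 13948704 from by decide +kernel, show cfn 37 1 5 = 890120 from by decide +kernel, show cfn 37 2 5 = 47938 from by decide +kernel, show cfn 37 3 5 = 2049 from by decide +kernel, show cfn 37 4 5 = 62 from by decide +kernel, show cfn 37 5 5 = 1 from by decide +kernel, show cfn 37 6 5 = 0 from by decide +kernel, show cfn 37 7 5 = 0 from by decide +kernel, show cfn 37 8 5 = 0 from by decide +kernel, show cfn 37 9 5 = 0 from by decide +kernel, show cfn 37 10 5 = 0 from by decide +kernel, show cfn 37 11 5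 = 0 from by decide +kernel, show cfn 37 12 5 = 0 from by decide +kernel, show cfn 37 13 5 = 0 from by decide +kernel, show cfn 37 14 5 = 0 from by decide +kernel, show cfn 37 15 5 = 0 from by decide +kernel, show cfn 37 16 5 = 0 from by decide +kernel, show cfn 37 17 5 = 0 from by decide +kernel, show cfn 37 18 5 = 0 from by decide +kernel, Nat.cast_ofNat, Nat.cast_one, Nat.cast_zero]
  ring

theorem c37_6 (γ : ℕ → ℝ) : ∑ i ∈ range (37 / 2 + 1), γ i * (cfn 37 i 6 : ℝ) =
    (148786176) * γ 0 + (11225984) * γ 1 + (744128) * γ 2 + (41727) * γ 3 + (1862) * γ 4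
       + (59) * γ 5 + (1) * γ 6 + (0) * γ 7 + (0) * γ 8 + (0) * γ 9 + (0) * γ 10 + (0) * γ 11
       + (0) * γ 12 + (0) * γ 13 + (0) * γ 14 + (0) * γ 15 + (0) * γ 16 + (0) * γ 17 + (0) * γ 18 := by
  have h : ((37 / 2 + 1 : ℕ)) = 19 := rfl
  rw [h]
  simp only [sum_range_succ, sum_range_zero, show cfn 37 0 6 = 148786176 from by decide +kernel, show cfn 37 1 6 = 11225984 from by decide +kernel, show cfn 37 2 6 = 744128 from by decide +kernel, show cfn 37 3 6 = 41727 from by decide +kernel, show cfn 37 4 6 = 1862 from by decide +kernel, show cfn 37 5 6 = 59 from by decide +kernel, show cfn 37 6 6 = 1 from by decide +kernel, show cfn 37 7 6 = 0 from by decide +kernel, show cfn 37 8 6 = 0 from by decide +kernel, show cfn 37 9 6 = 0 from by decide +kernel, show cfn 37 10 6 = 0 from by decide +kernel, show cfn 37 11 6 = 0 from by decide +kernel, show cfn 37 12 6 = 0 from by decide +kernel, show cfn 37 13 6 = 0 from by decide +kernel, show cfn 37 14 6 = 0 from by decide +kernel,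 show cfn 37 15 6 = 0 from by decide +kernel, show cfn 37 16 6 = 0 from by decide +kernel, show cfn 37 17 6 = 0 from by decide +kernel, show cfn 37 18 6 = 0 from by decide +kernel, Nat.cast_ofNat, Nat.cast_one, Nat.cast_zero]
  ring

theorem c37_7 (γ : ℕ → ℝ) : ∑ i ∈ range (37 / 2 + 1), γ i * (cfn 37 i 7 : ℝ) =
    (1317820416) * γ 0 + (114270464) * γ 1 + (8947840) * γ 2 + (616962) * γ 3 + (36080) * γ 4
       + (1684) * γ 5 + (56) * γ 6 + (1) * γ 7 + (0) * γ 8 + (0) * γ 9 + (0) * γ 10 + (0) * γ 11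
       + (0) * γ 12 + (0) * γ 13 + (0) * γ 14 + (0) * γ 15 + (0) * γ 16 + (0) * γ 17 + (0) * γ 18 := by
  have h : ((37 / 2 + 1 : ℕ)) = 19 := rfl
  rw [h]
  simp only [sum_range_succ, sum_range_zero, show cfn 37 0 7 = 1317820416 from by decide +kernel, show cfn 37 1 7 = 114270464 from by decide +kernel, show cfn 37 2 7 = 8947840 from by decide +kernel, show cfn 37 3 7 = 616962 from by decide +kernel, show cfn 37 4 7 = 36080 from by decide +kernel, show cfn 37 5 7 = 1684 from by decide +kernel, show cfn 37 6 7 = 56 from by decide +kernel, show cfn 37 7 7 = 1 from by decide +kernel, show cfn 37 8 7 = 0 from by decide +kernel, show cfn 37 9 7 = 0 from by decide +kernel, show cfn 37 10 7 = 0 from by decide +kernel, show cfn 37 11 7 = 0 from by decide +kernel, show cfn 37 12 7 = 0 from by decide +kernel, show cfn 37 13 7 = 0 from by decide +kernel, show cfn 37 14 7 = 0 from by decide +kernel, show cfn 37 15 7 = 0 from by decide +kernel, show cfn 37 16 7 = 0 from by decide +kernel,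 show cfn 37 17 7 = 0 from by decide +kernel, show cfn 37 18 7 = 0 from by decide +kernel, Nat.cast_ofNat, Nat.cast_one, Nat.cast_zero]
  ring

theorem c37_8 (γ : ℕ → ℝ) : ∑ i ∈ range (37 / 2 + 1), γ i * (cfn 37 i 8 : ℝ) =
    (9883653120) * γ 0 + (964620800) * γ 1 + (86728576) * γ 2 + (7057212) * γ 3 + (506921) * γ 4
       + (30970) * γ 5 + (1515) * γ 6 + (53) * γ 7 + (1) * γ 8 + (0) * γ 9 + (0) * γ 10
       + (0) * γ 11 + (0) * γ 12 + (0) * γ 13 + (0) * γ 14 + (0) * γ 15 + (0) * γ 16 + (0) * γ 17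
       + (0) * γ 18 := by
  have h : ((37 / 2 + 1 : ℕ)) = 19 := rfl
  rw [h]
  simp only [sum_range_succ, sum_range_zero, show cfn 37 0 8 = 9883653120 from by decide +kernel, show cfn 37 1 8 = 964620800 from by decide +kernel, show cfn 37 2 8 = 86728576 from by decide +kernel, show cfn 37 3 8 = 7057212 from by decide +kernel, show cfn 37 4 8 = 506921 from by decide +kernel, show cfn 37 5 8 = 30970 from by decide +kernel, show cfn 37 6 8 = 1515 from by decide +kernel, show cfn 37 7 8 = 53 from by decide +kernel, show cfn 37 8 8 = 1 from by decide +kernel, show cfn 37 9 8 = 0 from by decide +kernel, show cfn 37 10 8 = 0 from by decide +kernel, show cfn 37 11 8 = 0 from by decide +kernel, show cfn 37 12 8 = 0 from by decide +kernel, show cfn 37 13 8 = 0 from by decide +kernel, show cfn 37 14 8 = 0 from by decide +kernel, show cfn 37 15 8 = 0 from by decide +kernel, show cfn 37 16 8 = 0 from by decide +kernel, show cfn 37 17 8 = 0 from by decide +kernel, show cfn 37 18 8 =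 0 from by decide +kernel, Nat.cast_ofNat, Nat.cast_one, Nat.cast_zero]
  ring

theorem c37_9 (γ : ℕ → ℝ) : ∑ i ∈ range (37 / 2 + 1), γ i * (cfn 37 i 9 : ℝ) =
    (63694653440) * γ 0 + (6885908480) * γ 1 + (696185600) * γ 2 + (64979720) * γ 3
       + (5502170) * γ 4 + (412385) * γ 5 + (26370) * γ 6 + (1355) * γ 7 + (50) * γ 8 + (1) * γ 9
       + (0) * γ 10 + (0) * γ 11 + (0) * γ 12 + (0) * γ 13 + (0) * γ 14 + (0) * γ 15 + (0) * γ 16
       + (0) * γ 17 + (0) * γ 18 := by
  have h : ((37 / 2 + 1 : ℕ)) = 19 := rfl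
  rw [h]
  simp only [sum_range_succ, sum_range_zero, show cfn 37 0 9 = 63694653440 from by decide +kernel, show cfn 37 1 9 = 6885908480 from by decide +kernel, show cfn 37 2 9 = 696185600 from by decide +kernel, show cfn 37 3 9 = 64979720 from by decide +kernel, show cfn 37 4 9 = 5502170 from by decide +kernel, show cfn 37 5 9 = 412385 from by decide +kernel, show cfn 37 6 9 = 26370 from by decide +kernel, show cfn 37 7 9 = 1355 from by decide +kernel, show cfn 37 8 9 = 50 from by decide +kernel, show cfn 37 9 9 = 1 from by decide +kernel, show cfn 37 10 9 = 0 from by decide +kernel, show cfn 37 11 9 = 0 from by decide +kernel, show cfn 37 12 9 = 0 from by decide +kernel, show cfn 37 13 9 = 0 from by decide +kernel, show cfn 37 14 9 = 0 from by decide +kernel, show cfn 37 15 9 = 0 from by decide +kernel, show cfn 37 16 9 = 0 from by decide +kernel, show cfn 37 17 9 = 0 from by decide +kernel, show cfn 37 18 9 = 0 from by decide +kernel, Nat.cast_ofNat, Nat.cast_one, Nat.cast_zero]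
  ring

theorem c37_10 (γ : ℕ → ℝ) : ∑ i ∈ range (37 / 2 + 1), γ i * (cfn 37 i 10 : ℝ) =
    (356690059264) * γ 0 + (42176189440) * γ 1 + (4718872576) * γ 2 + (494766448) * γ 3
       + (48000568) * γ 4 + (4235671) * γ 5 + (331815) * γ 6 + (22253) * γ 7 + (1204) * γ 8
       + (47) * γ 9 + (1) * γ 10 + (0) * γ 11 + (0) * γ 12 + (0) * γ 13 + (0) * γ 14 + (0) * γ 15
       + (0) * γ 16 + (0) * γ 17 + (0) * γ 18 := by
  have h : ((37 / 2 + 1 : ℕ)) = 19 := rfl
  rw [h]
  simp only [sum_range_succ, sum_range_zero, show cfn 37 0 10 = 356690059264 from by decide +kernel, show cfn 37 1 10 = 42176189440 from by decide +kernel, show cfn 37 2 10 = 4718872576 from by decide +kernel, show cfn 37 3 10 = 494766448 from by decide +kernel, show cfn 37 4 10 = 48000568 from by decide +kernel, show cfn 37 5 10 = 4235671 from by decide +kernel, show cfn 37 6 10 = 331815 from by decide +kernel, show cfn 37 7 10 = 22253 from by decide +kernel, show cfn 37 8 10 = 1204 from by decide +kernel, show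 cfn 37 9 10 = 47 from by decide +kernel, show cfn 37 10 10 = 1 from by decide +kernel, show cfn 37 11 10 = 0 from by decide +kernel, show cfn 37 12 10 = 0 from by decide +kernel, show cfn 37 13 10 = 0 from by decide +kernel, show cfn 37 14 10 = 0 from by decide +kernel, show cfn 37 15 10 = 0 from by decide +kernel, show cfn 37 16 10 = 0 from by decide +kernel, show cfn 37 17 10 = 0 from by decide +kernel, show cfn 37 18 10 = 0 from by decide +kernel, Nat.cast_ofNat, Nat.cast_one, Nat.cast_zero]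
  ring

theorem c37_11 (γ : ℕ → ℝ) : ∑ i ∈ range (37 / 2 + 1), γ i * (cfn 37 i 11 : ℝ) =
    (1751023927296) * γ 0 + (224136321024) * γ 1 + (27401865216) * γ 2 + (3176073504) * γ 3
       + (345735216) * γ 4 + (34910514) * γ 5 + (3215316) * γ 6 + (263753) * γ 7 + (18592) * γ 8
       + (1062) * γ 9 + (44) * γ 10 + (1) * γ 11 + (0) * γ 12 + (0) * γ 13 + (0) * γ 14
       + (0) * γ 15 + (0) * γ 16 + (0) * γ 17 + (0) * γ 18 := by
  have h : ((37 / 2 + 1 : ℕ)) = 19 := rfl
  rw [h]
  simp only [sum_range_succ, sum_range_zero, show cfn 37 0 11 = 1751023927296 from by decide +kernel, show cfn 37 1 11 = 224136321024 from by decide +kernel, show cfn 37 2 11 = 27401865216 from by decide +kernel, show cfn 37 3 11 = 3176073504 from by decide +kernel, show cfn 37 4 11 = 345735216 from by decide +kernel, show cfn 37 5 11 = 34910514 from by decide +kernel, show cfn 37 6 11 = 3215316 from by decide +kernel, show cfn 37 7 11 = 263753 from by decide +kernel, show cfn 37 8 11 = 18592 from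 by decide +kernel, show cfn 37 9 11 = 1062 from by decide +kernel, show cfn 37 10 11 = 44 from by decide +kernel, show cfn 37 11 11 = 1 from by decide +kernel, show cfn 37 12 11 = 0 from by decide +kernel, show cfn 37 13 11 = 0 from by decide +kernel, show cfn 37 14 11 = 0 from by decide +kernel, show cfn 37 15 11 = 0 from by decide +kernel, show cfn 37 16 11 = 0 from by decide +kernel, show cfn 37 17 11 = 0 from by decide +kernel, show cfn 37 18 11 = 0 from by decide +kernel, Nat.cast_ofNat, Nat.cast_one, Nat.cast_zero]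
  ring

theorem c37_12 (γ : ℕ → ℝ) : ∑ i ∈ range (37 / 2 + 1), γ i * (cfn 37 i 12 : ℝ) =
    (7587770351616) * γ 0 + (1042463944704) * γ 1 + (137829559296) * γ 2 + (17437377984) * γ 3
       + (2095896816) * γ 4 + (237151044) * γ 5 + (24957661) * γ 6 + (2403107) * γ 7
       + (206822) * γ 8 + (15360) * γ 9 + (929) * γ 10 + (41) * γ 11 + (1) * γ 12 + (0) * γ 13
       + (0) * γ 14 + (0) * γ 15 + (0) * γ 16 + (0) * γ 17 + (0) * γ 18 := by
  have h : ((37 / 2 + 1 : ℕ)) = 19 := rfl
  rw [h]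
  simp only [sum_range_succ, sum_range_zero, show cfn 37 0 12 = 7587770351616 from by decide +kernel, show cfn 37 1 12 = 1042463944704 from by decide +kernel, show cfn 37 2 12 = 137829559296 from by decide +kernel, show cfn 37 3 12 = 17437377984 from by decide +kernel, show cfn 37 4 12 = 2095896816 from by decide +kernel, show cfn 37 5 12 = 237151044 from by decide +kernel, show cfn 37 6 12 = 24957661 from by decide +kernel, show cfn 37 7 12 = 2403107 from by decide +kernel, show cfn 37 8 12 = 206822 from by decide +kernel, show cfn 37 9 12 = 15360 from by decide +kernel, show cfn 37 10 12 = 929 from by decide +kernel, show cfn 37 11 12 = 41 from by decide +kernel, show cfn 37 12 12 = 1 from by decide +kernel, show cfn 37 13 12 = 0 from by decide +kernel, show cfn 37 14 12 = 0 from by decide +kernel, show cfn 37 15 12 = 0 from by decide +kernel, show cfn 37 16 12 = 0 from by decide +kernel, show cfn 37 17 12 = 0 from by decide +kernel, show cfn 37 18 12 = 0 from by decide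 +kernel, Nat.cast_ofNat, Nat.cast_one, Nat.cast_zero]
  ring

theorem c37_13 (γ : ℕ → ℝ) : ∑ i ∈ range (37 / 2 + 1), γ i * (cfn 37 i 13 : ℝ) =
    (29183732121600) * γ 0 + (4272393216000) * γ 1 + (605674567680) * γ 2 + (82777618560) * γ 3
       + (10846923360) * γ 4 + (1353385800) * γ 5 + (159369650) * γ 6 + (17505537) * γ 7
       + (1765204) * γ 8 + (159726) * γ 9 + (12530) * γ 10 + (805) * γ 11 + (38) * γ 12
       + (1) * γ 13 + (0) * γ 14 + (0) * γ 15 + (0) * γ 16 + (0) * γ 17 + (0) * γ 18 := by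
  have h : ((37 / 2 + 1 : ℕ)) = 19 := rfl
  rw [h]
  simp only [sum_range_succ, sum_range_zero, show cfn 37 0 13 = 29183732121600 from by decide +kernel, show cfn 37 1 13 = 4272393216000 from by decide +kernel, show cfn 37 2 13 = 605674567680 from by decide +kernel, show cfn 37 3 13 = 82777618560 from by decide +kernel, show cfn 37 4 13 = 10846923360 from by decide +kernel, show cfn 37 5 13 = 1353385800 from by decide +kernel, show cfn 37 6 13 = 159369650 from by decide +kernel, show cfn 37 7 13 = 17505537 from by decide +kernel, show cfn 37 8 13 = 1765204 from by decide +kernel, show cfn 37 9 13 = 159726 from by decide +kernel, show cfn 37 10 13 = 12530 from by decide +kernel, show cfn 37 11 13 = 805 from by decide +kernel, show cfn 37 12 13 = 38 from by decide +kernel, show cfn 37 13 13 = 1 from by decide +kernel, show cfn 37 14 13 = 0 from by decide +kernel, show cfn 37 15 13 = 0 from by decide +kernel, show cfn 37 16 13 = 0 from by decide +kernel, show cfn 37 17 13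 = 0 from by decide +kernel, show cfn 37 18 13 = 0 from by decide +kernel, Nat.cast_ofNat, Nat.cast_one, Nat.cast_zero]
  ring

theorem c37_14 (γ : ℕ → ℝ) : ∑ i ∈ range (37 / 2 + 1), γ i * (cfn 37 i 14 : ℝ) =
    (100058510131200) * γ 0 + (15512073830400) * γ 1 + (2340840652800) * γ 2
       + (342644140800) * γ 3 + (48443715840) * γ 4 + (6580672800) * γ 5 + (853227600) * γ 6
       + (104692735) * γ 7 + (12020540) * γ 8 + (1271682) * γ 9 + (121250) * γ 10 + (10075) * γ 11
       + (690) * γ 12 + (35) * γ 13 + (1) * γ 14 + (0) * γ 15 + (0) * γ 16 + (0) * γ 17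
       + (0) * γ 18 := by
  have h : ((37 / 2 + 1 : ℕ)) = 19 := rfl
  rw [h]
  simp only [sum_range_succ, sum_range_zero, show cfn 37 0 14 = 100058510131200 from by decide +kernel, show cfn 37 1 14 = 15512073830400 from by decide +kernel, show cfn 37 2 14 = 2340840652800 from by decide +kernel, show cfn 37 3 14 = 342644140800 from by decide +kernel, show cfn 37 4 14 = 48443715840 from by decide +kernel, show cfn 37 5 14 = 6580672800 from by decide +kernel, show cfn 37 6 14 = 853227600 from by decide +kernel, show cfn 37 7 14 = 104692735 from by decide +kernel, show cfn 37 8 14 = 12020540 from by decide +kernel, show cfn 37 9 14 = 1271682 from by decide +kernel, show cfn 37 10 14 = 121250 from by decide +kernel, show cfn 37 11 14 = 10075 from by decide +kernel, show cfn 37 12 14 = 690 from by decide +kernel, show cfn 37 13 14 = 35 from by decide +kernel, show cfn 37 14 14 = 1 from by decide +kernel, show cfn 37 15 14 = 0 from by decide +kernel, show cfn 37 16 14 = 0 from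 by decide +kernel, show cfn 37 17 14 = 0 from by decide +kernel, show cfn 37 18 14 = 0 from by decide +kernel, Nat.cast_ofNat, Nat.cast_one, Nat.cast_zero]
  ring

theorem c37_15 (γ : ℕ → ℝ) : ∑ i ∈ range (37 / 2 + 1), γ i * (cfn 37 i 15 : ℝ) =
    (306846097735680) * γ 0 + (50104374067200) * γ 1 + (7998406164480) * γ 2
       + (1244828183040) * γ 3 + (188259202560) * γ 4 + (27554404800) * γ 5 + (3883669600) * γ 6
       + (523804162) * γ 7 + (67055296) * γ 8 + (8060112) * γ 9 + (896288) * γ 10 + (90260) * γ 11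
       + (7968) * γ 12 + (584) * γ 13 + (32) * γ 14 + (1) * γ 15 + (0) * γ 16 + (0) * γ 17
       + (0) * γ 18 := by
  have h : ((37 / 2 + 1 : ℕ)) = 19 := rfl
  rw [h]
  simp only [sum_range_succ, sum_range_zero, show cfn 37 0 15 = 306846097735680 from by decide +kernel, show cfn 37 1 15 = 50104374067200 from by decide +kernel, show cfn 37 2 15 = 7998406164480 from by decide +kernel, show cfn 37 3 15 = 1244828183040 from by decide +kernel, show cfn 37 4 15 = 188259202560 from by decide +kernel, show cfn 37 5 15 = 27554404800 from by decide +kernel, show cfn 37 6 15 = 3883669600 from by decide +kernel, show cfn 37 7 15 = 523804162 from by decide +kernel, show cfn 37 8 15 = 67055296 from by decide +kernel, show cfn 37 9 15 = 8060112 from by decide +kernel, show cfn 37 10 15 = 896288 from by decide +kernel, show cfn 37 11 15 = 90260 from by decide +kernel, show cfn 37 12 15 = 7968 from by decide +kernel, show cfn 37 13 15 = 584 from by decide +kernel, show cfn 37 14 15 = 32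 from by decide +kernel, show cfn 37 15 15 = 1 from by decide +kernel, show cfn 37 16 15 = 0 from by decide +kernel, show cfn 37 17 15 = 0 from by decide +kernel, show cfn 37 18 15 = 0 from by decide +kernel, Nat.cast_ofNat, Nat.cast_one, Nat.cast_zero]
  ring

theorem c37_16 (γ : ℕ → ℝ) : ∑ i ∈ range (37 / 2 + 1), γ i * (cfn 37 i 16 : ℝ) =
    (843826768773120) * γ 0 + (144438816276480) * γ 1 + (24259460628480) * γ 2
       + (3989357521920) * γ 3 + (640660650240) * γ 4 + (100162608000) * γ 5 + (15187488800) * γ 6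
       + (2222909612) * γ 7 + (312193553) * γ 8 + (41748660) * γ 9 + (5261642) * γ 10
       + (616198) * γ 11 + (65703) * γ 12 + (6182) * γ 13 + (487) * γ 14 + (29) * γ 15 + (1) * γ 16
       + (0) * γ 17 + (0) * γ 18 := by
  have h : ((37 / 2 + 1 : ℕ)) = 19 := rfl
  rw [h]
  simp only [sum_range_succ, sum_range_zero, show cfn 37 0 16 = 843826768773120 from by decide +kernel, show cfn 37 1 16 = 144438816276480 from by decide +kernel, show cfn 37 2 16 = 24259460628480 from by decide +kernel, show cfn 37 3 16 = 3989357521920 from by decide +kernel, show cfn 37 4 16 = 640660650240 from by decide +kernel, show cfn 37 5 16 = 100162608000 from by decide +kernel, show cfn 37 6 16 = 15187488800 from by decide +kernel, show cfn 37 7 16 = 2222909612 from by decide +kernel, show cfn 37 8 16 = 312193553 from by decide +kernel, show cfn 37 9 16 = 41748660 from by decide +kernel, show cfn 37 10 16 = 5261642 from by decide +kernel, show cfn 37 11 16 = 616198 from by decide +kernel, show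 cfn 37 12 16 = 65703 from by decide +kernel, show cfn 37 13 16 = 6182 from by decide +kernel, show cfn 37 14 16 = 487 from by decide +kernel, show cfn 37 15 16 = 29 from by decide +kernel, show cfn 37 16 16 = 1 from by decide +kernel, show cfn 37 17 16 = 0 from by decide +kernel, show cfn 37 18 16 = 0 from by decide +kernel, Nat.cast_ofNat, Nat.cast_one, Nat.cast_zero]
  ring

theorem c37_17 (γ : ℕ → ℝ) : ∑ i ∈ range (37 / 2 + 1), γ i * (cfn 37 i 17 : ℝ) =
    (2084748487557120) * γ 0 + (372500105134080) * γ 1 + (65511723171840) * γ 2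
       + (11321123973120) * γ 3 + (1918506293760) * γ 4 + (318051801600) * γ 5
       + (51432379200) * γ 6 + (8084303304) * γ 7 + (1229718378) * γ 8 + (180013761) * γ 9
       + (25177052) * γ 10 + (3332098) * γ 11 + (411774) * γ 12 + (46607) * γ 13 + (4690) * γ 14
       + (399) * γ 15 + (26) * γ 16 + (1) * γ 17 + (0) * γ 18 := by
  have h : ((37 / 2 + 1 : ℕ)) = 19 := rfl
  rw [h]
  simp only [sum_range_succ, sum_range_zero, show cfn 37 0 17 = 2084748487557120 from by decide +kernel, show cfn 37 1 17 = 372500105134080 from by decide +kernel, show cfn 37 2 17 = 65511723171840 from by decide +kernel, show cfn 37 3 17 = 11321123973120 from by decide +kernel, show cfn 37 4 17 = 1918506293760 from by decide +kernel, show cfn 37 5 17 = 318051801600 from by decide +kernel, show cfn 37 6 17 = 51432379200 from by decide +kernel, show cfn 37 7 17 = 8084303304 from by decide +kernel, show cfn 37 8 17 = 1229718378 from by decide +kernel, show cfn 37 9 17 = 180013761 from by decide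 +kernel, show cfn 37 10 17 = 25177052 from by decide +kernel, show cfn 37 11 17 = 3332098 from by decide +kernel, show cfn 37 12 17 = 411774 from by decide +kernel, show cfn 37 13 17 = 46607 from by decide +kernel, show cfn 37 14 17 = 4690 from by decide +kernel, show cfn 37 15 17 = 399 from by decide +kernel, show cfn 37 16 17 = 26 from by decide +kernel, show cfn 37 17 17 = 1 from by decide +kernel, show cfn 37 18 17 = 0 from by decide +kernel, Nat.cast_ofNat, Nat.cast_one, Nat.cast_zero]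
  ring

theorem c37_18 (γ : ℕ → ℝ) : ∑ i ∈ range (37 / 2 + 1), γ i * (cfn 37 i 18 : ℝ) =
    (4632774416793600) * γ 0 + (860819570688000) * γ 1 + (157854186209280) * γ 2
       + (28529257820160) * γ 3 + (5073813719040) * γ 4 + (886309305600) * γ 5
       + (151734937600) * γ 6 + (25391016336) * γ 7 + (4139565192) * γ 8 + (654862247) * γ 9
       + (100007645) * γ 10 + (14645510) * γ 11 + (2038388) * γ 12 + (266321) * γ 13
       + (32081) * γ 14 + (3465) * γ 15 + (320) * γ 16 + (23) * γ 17 + (1) * γ 18 := by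
  have h : ((37 / 2 + 1 : ℕ)) = 19 := rfl
  rw [h]
  simp only [sum_range_succ, sum_range_zero, show cfn 37 0 18 = 4632774416793600 from by decide +kernel, show cfn 37 1 18 = 860819570688000 from by decide +kernel, show cfn 37 2 18 = 157854186209280 from by decide +kernel, show cfn 37 3 18 = 28529257820160 from by decide +kernel, show cfn 37 4 18 = 5073813719040 from by decide +kernel, show cfn 37 5 18 = 886309305600 from by decide +kernel, show cfn 37 6 18 = 151734937600 from by decide +kernel, show cfn 37 7 18 = 25391016336 from by decide +kernel, show cfn 37 8 18 = 4139565192 from by decide +kernel, show cfn 37 9 18 = 654862247 from by decide +kernel, show cfn 37 10 18 = 100007645 from by decide +kernel, show cfn 37 11 18 = 14645510 from by decide +kernel, show cfn 37 12 18 = 2038388 from by decide +kernel, show cfn 37 13 18 = 266321 from by decide +kernel, show cfn 37 14 18 = 32081 from by decide +kernel, show cfn 37 15 18 = 3465 from by decide +kernel, show cfn 37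 16 18 = 320 from by decide +kernel, show cfn 37 17 18 = 23 from by decide +kernel, show cfn 37 18 18 = 1 from by decide +kernel, Nat.cast_ofNat, Nat.cast_one, Nat.cast_zero]
  ring

theorem c37_19 (γ : ℕ → ℝ) : ∑ i ∈ range (37 / 2 + 1), γ i * (cfn 37 i 19 : ℝ) =
    (9265548833587200) * γ 0 + (1784244201062400) * γ 1 + (339856038297600) * γ 2
       + (63964382208000) * γ 3 + (11881101742080) * γ 4 + (2174875584000) * γ 5
       + (391691840000) * γ 6 + (69266038240) * γ 7 + (11998185360) * γ 8 + (2029779538) * γ 9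
       + (334137220) * γ 10 + (53274265) * γ 11 + (8176960) * γ 12 + (1198450) * γ 13
       + (165844) * γ 14 + (21315) * γ 15 + (2480) * γ 16 + (250) * γ 17 + (20) * γ 18 := by
  have h : ((37 / 2 + 1 : ℕ)) = 19 := rfl
  rw [h]
  simp only [sum_range_succ, sum_range_zero, show cfn 37 0 19 = 9265548833587200 from by decide +kernel, show cfn 37 1 19 = 1784244201062400 from by decide +kernel, show cfn 37 2 19 = 339856038297600 from by decide +kernel, show cfn 37 3 19 = 63964382208000 from by decide +kernel, show cfn 37 4 19 = 11881101742080 from by decide +kernel, show cfn 37 5 19 = 2174875584000 from by decide +kernel, show cfn 37 6 19 = 391691840000 from by decide +kernel, show cfn 37 7 19 = 69266038240 from by decide +kernel, show cfn 37 8 19 = 11998185360 from by decide +kernel, show cfn 37 9 19 = 2029779538 from by decide +kernel, show cfn 37 10 19 = 334137220 from by decide +kernel, show cfn 37 11 19 = 53274265 from by decide +kernel, show cfn 37 12 19 = 8176960 from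 by decide +kernel, show cfn 37 13 19 = 1198450 from by decide +kernel, show cfn 37 14 19 = 165844 from by decide +kernel, show cfn 37 15 19 = 21315 from by decide +kernel, show cfn 37 16 19 = 2480 from by decide +kernel, show cfn 37 17 19 = 250 from by decide +kernel, show cfn 37 18 19 = 20 from by decide +kernel, Nat.cast_ofNat, Nat.cast_one, Nat.cast_zero]
  ring

theorem c37_20 (γ : ℕ → ℝ) : ∑ i ∈ range (37 / 2 + 1), γ i * (cfn 37 i 20 : ℝ) =
    (16677987900456960) * γ 0 + (3318068163379200) * γ 1 + (654222873722880) * γ 2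
       + (127735664394240) * γ 3 + (24673978183680) * γ 4 + (4710175902720) * γ 5
       + (887477779200) * γ 6 + (164798559296) * γ 7 + (30106052368) * γ 8 + (5399183412) * γ 9
       + (948062325) * γ 10 + (162465765) * γ 11 + (27058383) * γ 12 + (4356264) * γ 13
       + (673071) * γ 14 + (98805) * γ 15 + (13580) * γ 16 + (1708) * γ 17 + (189) * γ 18 := by
  have h : ((37 / 2 + 1 : ℕ)) = 19 := rfl
  rw [h]
  simp only [sum_range_succ, sum_range_zero, show cfn 37 0 20 = 16677987900456960 from by decide +kernel, show cfn 37 1 20 = 3318068163379200 from by decide +kernel, show cfn 37 2 20 = 654222873722880 from by decide +kernel, show cfn 37 3 20 = 127735664394240 from by decide +kernel, show cfn 37 4 20 = 24673978183680 from by decide +kernel, show cfn 37 5 20 = 4710175902720 from by decide +kernel, show cfn 37 6 20 = 887477779200 from by decide +kernel, show cfn 37 7 20 = 164798559296 from by decide +kernel, show cfn 37 8 20 = 30106052368 from by decide +kernel, show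 cfn 37 9 20 = 5399183412 from by decide +kernel, show cfn 37 10 20 = 948062325 from by decide +kernel, show cfn 37 11 20 = 162465765 from by decide +kernel, show cfn 37 12 20 = 27058383 from by decide +kernel, show cfn 37 13 20 = 4356264 from by decide +kernel, show cfn 37 14 20 = 673071 from by decide +kernel, show cfn 37 15 20 = 98805 from by decide +kernel, show cfn 37 16 20 = 13580 from by decide +kernel, show cfn 37 17 20 = 1708 from by decide +kernel, show cfn 37 18 20 = 189 from by decide +kernel, Nat.cast_ofNat, Nat.cast_one, Nat.cast_zero]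
  ring

theorem c37_21 (γ : ℕ → ℝ) : ∑ i ∈ range (37 / 2 + 1), γ i * (cfn 37 i 21 : ℝ) =
    (27002456600739840) * γ 0 + (5534287276277760) * γ 1 + (1125996716359680) * γ 2
       + (227278725611520) * γ 3 + (45479726899200) * γ 4 + (9014873978880) * γ 5
       + (1768373009920) * γ 6 + (342911229056) * γ 7 + (65647646624) * γ 8 + (12388385928) * γ 9
       + (2300164770) * γ 10 + (419239425) * γ 11 + (74798658) * γ 12 + (13016487) * γ 13
       + (2199054) * γ 14 + (358435) * γ 15 + (55880) * γ 16 + (8228) * γ 17 + (1122) * γ 18 := by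
  have h : ((37 / 2 + 1 : ℕ)) = 19 := rfl
  rw [h]
  simp only [sum_range_succ, sum_range_zero, show cfn 37 0 21 = 27002456600739840 from by decide +kernel, show cfn 37 1 21 = 5534287276277760 from by decide +kernel, show cfn 37 2 21 = 1125996716359680 from by decide +kernel, show cfn 37 3 21 = 227278725611520 from by decide +kernel, show cfn 37 4 21 = 45479726899200 from by decide +kernel, show cfn 37 5 21 = 9014873978880 from by decide +kernel, show cfn 37 6 21 = 1768373009920 from by decide +kernel, show cfn 37 7 21 = 342911229056 from by decide +kernel, show cfn 37 8 21 = 65647646624 from by decide +kernel, show cfn 37 9 21 = 12388385928 from by decide +kernel, show cfn 37 10 21 = 2300164770 from by decide +kernel, show cfn 37 11 21 = 419239425 from by decide +kernel, show cfn 37 12 21 = 74798658 from by decide +kernel, show cfn 37 13 21 = 13016487 from by decide +kernel, show cfn 37 14 21 = 2199054 from by decide +kernel, show cfn 37 15 21 = 358435 from by decide +kernel,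 show cfn 37 16 21 = 55880 from by decide +kernel, show cfn 37 17 21 = 8228 from by decide +kernel, show cfn 37 18 21 = 1122 from by decide +kernel, Nat.cast_ofNat, Nat.cast_one, Nat.cast_zero]
  ring

theorem c37_22 (γ : ℕ → ℝ) : ∑ i ∈ range (37 / 2 + 1), γ i * (cfn 37 i 22 : ℝ) =
    (39276300510167040) * γ 0 + (8271022742568960) * γ 1 + (1731477079326720) * γ 2
       + (360162030059520) * γ 3 + (74399569674240) * γ 4 + (15253505556480) * γ 5
       + (3101646725120) * γ 6 + (625011635712) * γ 7 + (124694992384) * γ 8 + (24603421632) * γ 9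
       + (4794660960) * γ 10 + (921406335) * γ 11 + (174277026) * γ 12 + (32366037) * γ 13
       + (5884251) * γ 14 + (1043165) * γ 15 + (179400) * γ 16 + (29716) * γ 17 + (4692) * γ 18 := by
  have h : ((37 / 2 + 1 : ℕ)) = 19 := rfl
  rw [h]
  simp only [sum_range_succ, sum_range_zero, show cfn 37 0 22 = 39276300510167040 from by decide +kernel, show cfn 37 1 22 = 8271022742568960 from by decide +kernel, show cfn 37 2 22 = 1731477079326720 from by decide +kernel, show cfn 37 3 22 = 360162030059520 from by decide +kernel, show cfn 37 4 22 = 74399569674240 from by decide +kernel, show cfn 37 5 22 = 15253505556480 from by decide +kernel, show cfn 37 6 22 = 3101646725120 from by decide +kernel, show cfn 37 7 22 = 625011635712 from by decide +kernel, show cfn 37 8 22 = 124694992384 from by decide +kernel, show cfn 37 9 22 = 24603421632 from by decide +kernel, show cfn 37 10 22 = 4794660960 from by decide +kernel, show cfn 37 11 22 = 921406335 from by decide +kernel, show cfn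 37 12 22 = 174277026 from by decide +kernel, show cfn 37 13 22 = 32366037 from by decide +kernel, show cfn 37 14 22 = 5884251 from by decide +kernel, show cfn 37 15 22 = 1043165 from by decide +kernel, show cfn 37 16 22 = 179400 from by decide +kernel, show cfn 37 17 22 = 29716 from by decide +kernel, show cfn 37 18 22 = 4692 from by decide +kernel, Nat.cast_ofNat, Nat.cast_one, Nat.cast_zero]
  ring

theorem c37_23 (γ : ℕ → ℝ) : ∑ i ∈ range (37 / 2 + 1), γ i * (cfn 37 i 23 : ℝ) =
    (51229957187174400) * γ 0 + (11057517035520000) * γ 1 + (2375414836101120) * γ 2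
       + (507710773002240) * γ 3 + (107923569377280) * γ 4 + (22805778432000) * γ 5
       + (4788300595200) * γ 6 + (998328275968) * γ 7 + (206552308736) * γ 8 + (42375408768) * γ 9
       + (8612504640) * γ 10 + (1732242690) * γ 11 + (344343024) * γ 12 + (67545588) * γ 13
       + (13049304) * γ 14 + (2476905) * γ 15 + (460480) * γ 16 + (83504) * γ 17 + (14688) * γ 18 := by
  have h : ((37 / 2 + 1 : ℕ)) = 19 := rfl
  rw [h]
  simp only [sum_range_succ, sum_range_zero, show cfn 37 0 23 = 51229957187174400 from by decide +kernel, show cfn 37 1 23 = 11057517035520000 from by decide +kernel, show cfn 37 2 23 = 2375414836101120 from by decide +kernel, show cfn 37 3 23 = 507710773002240 from by decide +kernel, show cfn 37 4 23 = 107923569377280 from by decide +kernel, show cfn 37 5 23 = 22805778432000 from by decide +kernel, show cfn 37 6 23 = 4788300595200 from by decide +kernel, show cfn 37 7 23 = 998328275968 from by decide +kernel, show cfn 37 8 23 = 206552308736 from by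 decide +kernel, show cfn 37 9 23 = 42375408768 from by decide +kernel, show cfn 37 10 23 = 8612504640 from by decide +kernel, show cfn 37 11 23 = 1732242690 from by decide +kernel, show cfn 37 12 23 = 344343024 from by decide +kernel, show cfn 37 13 23 = 67545588 from by decide +kernel, show cfn 37 14 23 = 13049304 from by decide +kernel, show cfn 37 15 23 = 2476905 from by decide +kernel, show cfn 37 16 23 = 460480 from by decide +kernel, show cfn 37 17 23 = 83504 from by decide +kernel, show cfn 37 18 23 = 14688 from by decide +kernel, Nat.cast_ofNat, Nat.cast_one, Nat.cast_zero]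
  ring

theorem c37_24 (γ : ℕ → ℝ) : ∑ i ∈ range (37 / 2 + 1), γ i * (cfn 37 i 24 : ℝ) =
    (59768283385036800) * γ 0 + (13192098584985600) * γ 1 + (2900972116377600) * γ 2
       + (635400703180800) * γ 3 + (138580246855680) * γ 4 + (30086003097600) * γ 5
       + (6499494707200) * γ 6 + (1396587673600) * γ 7 + (298350707200) * γ 8 + (63331979520) * γ 9
       + (13350168000) * γ 10 + (2792569500) * γ 11 + (579168825) * γ 12 + (118973550) * γ 13
       + (24177405) * γ 14 + (4853275) * γ 15 + (960550) * γ 16 + (187000) * γ 17 + (35700) * γ 18 := by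
  have h : ((37 / 2 + 1 : ℕ)) = 19 := rfl
  rw [h]
  simp only [sum_range_succ, sum_range_zero, show cfn 37 0 24 = 59768283385036800 from by decide +kernel, show cfn 37 1 24 = 13192098584985600 from by decide +kernel, show cfn 37 2 24 = 2900972116377600 from by decide +kernel, show cfn 37 3 24 = 635400703180800 from by decide +kernel, show cfn 37 4 24 = 138580246855680 from by decide +kernel, show cfn 37 5 24 = 30086003097600 from by decide +kernel, show cfn 37 6 24 = 6499494707200 from by decide +kernel, show cfn 37 7 24 = 1396587673600 from by decide +kernel, show cfn 37 8 24 = 298350707200 from by decide +kernel, show cfn 37 9 24 = 63331979520 from by decide +kernel, show cfn 37 10 24 = 13350168000 from by decide +kernel, show cfn 37 11 24 = 2792569500 from by decide +kernel, show cfn 37 12 24 = 579168825 from by decide +kernel, show cfn 37 13 24 = 118973550 from by decide +kernel, show cfn 37 14 24 = 24177405 from by decide +kernel, show cfn 37 15 24 = 4853275 from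 by decide +kernel, show cfn 37 16 24 = 960550 from by decide +kernel, show cfn 37 17 24 = 187000 from by decide +kernel, show cfn 37 18 24 = 35700 from by decide +kernel, Nat.cast_ofNat, Nat.cast_one, Nat.cast_zero]
  ring

theorem c37_25 (γ : ℕ → ℝ) : ∑ i ∈ range (37 / 2 + 1), γ i * (cfn 37 i 25 : ℝ) =
    (62159014720438272) * γ 0 + (13999778090188800) * γ 1 + (3144067810590720) * γ 2
       + (703941047746560) * γ 3 + (157096211251200) * γ 4 + (34936690114560) * γ 5
       + (7740600320000) * γ 6 + (1708131504128) * γ 7 + (375303885824) * γ 8 + (82073462784) * γ 9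
       + (17856697728) * γ 10 + (3863423880) * γ 11 + (830764794) * γ 12 + (177435297) * γ 13
       + (37612302) * γ 14 + (7905989) * γ 15 + (1646060) * γ 16 + (339014) * γ 17 + (68952) * γ 18 := by
  have h : ((37 / 2 + 1 : ℕ)) = 19 := rfl
  rw [h]
  simp only [sum_range_succ, sum_range_zero, show cfn 37 0 25 = 62159014720438272 from by decide +kernel, show cfn 37 1 25 = 13999778090188800 from by decide +kernel, show cfn 37 2 25 = 3144067810590720 from by decide +kernel, show cfn 37 3 25 = 703941047746560 from by decide +kernel, show cfn 37 4 25 = 157096211251200 from by decide +kernel, show cfn 37 5 25 = 34936690114560 from by decide +kernel, show cfn 37 6 25 = 7740600320000 from by decide +kernel, show cfn 37 7 25 = 1708131504128 from by decide +kernel, show cfn 37 8 25 = 375303885824 from by decide +kernel, show cfn 37 9 25 = 82073462784 from by decide +kernel, show cfn 37 10 25 = 17856697728 from by decide +kernel, show cfn 37 11 25 = 3863423880 from by decide +kernel,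 show cfn 37 12 25 = 830764794 from by decide +kernel, show cfn 37 13 25 = 177435297 from by decide +kernel, show cfn 37 14 25 = 37612302 from by decide +kernel, show cfn 37 15 25 = 7905989 from by decide +kernel, show cfn 37 16 25 = 1646060 from by decide +kernel, show cfn 37 17 25 = 339014 from by decide +kernel, show cfn 37 18 25 = 68952 from by decide +kernel, Nat.cast_ofNat, Nat.cast_one, Nat.cast_zero]
  ring

theorem c37_26 (γ : ℕ → ℝ) : ∑ i ∈ range (37 / 2 + 1), γ i * (cfn 37 i 26 : ℝ) =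
    (57377552049635328) * γ 0 + (13159791404777472) * γ 1 + (3011716967301120) * γ 2
       + (687672923258880) * γ 3 + (156635918499840) * γ 4 + (35585685258240) * γ 5
       + (8062313103360) * γ 6 + (1821218316288) * γ 7 + (410100805632) * γ 8 + (92032823808) * γ 9
       + (20577979392) * γ 10 + (4582892208) * γ 11 + (1016258904) * γ 12 + (224298231) * γ 13
       + (49250019) * γ 14 + (10752651) * γ 15 + (2332824) * γ 16 + (502554) * γ 17
       + (107406) * γ 18 := by
  have h : ((37 / 2 + 1 : ℕ)) = 19 := rfl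
  rw [h]
  simp only [sum_range_succ, sum_range_zero, show cfn 37 0 26 = 57377552049635328 from by decide +kernel, show cfn 37 1 26 = 13159791404777472 from by decide +kernel, show cfn 37 2 26 = 3011716967301120 from by decide +kernel, show cfn 37 3 26 = 687672923258880 from by decide +kernel, show cfn 37 4 26 = 156635918499840 from by decide +kernel, show cfn 37 5 26 = 35585685258240 from by decide +kernel, show cfn 37 6 26 = 8062313103360 from by decide +kernel, show cfn 37 7 26 = 1821218316288 from by decide +kernel, show cfn 37 8 26 = 410100805632 from by decide +kernel, show cfn 37 9 26 = 92032823808 from by decide +kernel, show cfn 37 10 26 = 20577979392 from by decide +kernel, show cfn 37 11 26 = 4582892208 from by decide +kernel, show cfn 37 12 26 = 1016258904 from by decide +kernel, show cfn 37 13 26 = 224298231 from by decide +kernel, show cfn 37 14 26 = 49250019 from by decide +kernel, show cfn 37 15 26 = 10752651 from by decide +kernel, show cfn 37 16 26 = 2332824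 from by decide +kernel, show cfn 37 17 26 = 502554 from by decide +kernel, show cfn 37 18 26 = 107406 from by decide +kernel, Nat.cast_ofNat, Nat.cast_one, Nat.cast_zero]
  ring

theorem c37_27 (γ : ℕ → ℝ) : ∑ i ∈ range (37 / 2 + 1), γ i * (cfn 37 i 27 : ℝ) =
    (46752079447851008) * γ 0 + (10898288790208512) * γ 1 + (2536430383398912) * γ 2
       + (589328893870080) * γ 3 + (136685452001280) * γ 4 + (31642628259840) * γ 5
       + (7310721679360) * γ 6 + (1685514141696) * γ 7 + (387731054592) * γ 8 + (88979545088) * γ 9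
       + (20367578112) * γ 10 + (4649412768) * γ 11 + (1058221296) * γ 12 + (240089586) * γ 13
       + (54284244) * γ 14 + (12227761) * γ 15 + (2743104) * γ 16 + (612612) * γ 17
       + (136136) * γ 18 := by
  have h : ((37 / 2 + 1 : ℕ)) = 19 := rfl
  rw [h]
  simp only [sum_range_succ, sum_range_zero, show cfn 37 0 27 = 46752079447851008 from by decide +kernel, show cfn 37 1 27 = 10898288790208512 from by decide +kernel, show cfn 37 2 27 = 2536430383398912 from by decide +kernel, show cfn 37 3 27 = 589328893870080 from by decide +kernel, show cfn 37 4 27 = 136685452001280 from by decide +kernel, show cfn 37 5 27 = 31642628259840 from by decide +kernel, show cfn 37 6 27 = 7310721679360 from by decide +kernel, show cfn 37 7 27 = 1685514141696 from by decide +kernel, show cfn 37 8 27 = 387731054592 from by decide +kernel, show cfn 37 9 27 = 88979545088 from by decide +kernel, show cfn 37 10 27 = 20367578112 from by decide +kernel, show cfn 37 11 27 = 4649412768 from by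 decide +kernel, show cfn 37 12 27 = 1058221296 from by decide +kernel, show cfn 37 13 27 = 240089586 from by decide +kernel, show cfn 37 14 27 = 54284244 from by decide +kernel, show cfn 37 15 27 = 12227761 from by decide +kernel, show cfn 37 16 27 = 2743104 from by decide +kernel, show cfn 37 17 27 = 612612 from by decide +kernel, show cfn 37 18 27 = 136136 from by decide +kernel, Nat.cast_ofNat, Nat.cast_one, Nat.cast_zero]
  ring

theorem c37_28 (γ : ℕ → ℝ) : ∑ i ∈ range (37 / 2 + 1), γ i * (cfn 37 i 28 : ℝ) =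
    (33394342462750720) * γ 0 + (7897310717542400) * γ 1 + (1865490792185856) * γ 2
       + (440140082184192) * γ 3 + (103716335124480) * γ 4 + (24408116428800) * γ 5
       + (5736174387200) * γ 6 + (1346104950784) * γ 7 + (315405017088) * γ 8 + (73782384640) * γ 9
       + (17230138880) * γ 10 + (4016337600) * γ 11 + (934384176) * γ 12 + (216928932) * γ 13
       + (50250765) * γ 14 + (11612615) * γ 15 + (2676700) * γ 16 + (615264) * γ 17
       + (140998) * γ 18 := by
  have h : ((37 / 2 + 1 : ℕ)) = 19 := rfl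
  rw [h]
  simp only [sum_range_succ, sum_range_zero, show cfn 37 0 28 = 33394342462750720 from by decide +kernel, show cfn 37 1 28 = 7897310717542400 from by decide +kernel, show cfn 37 2 28 = 1865490792185856 from by decide +kernel, show cfn 37 3 28 = 440140082184192 from by decide +kernel, show cfn 37 4 28 = 103716335124480 from by decide +kernel, show cfn 37 5 28 = 24408116428800 from by decide +kernel, show cfn 37 6 28 = 5736174387200 from by decide +kernel, show cfn 37 7 28 = 1346104950784 from by decide +kernel, show cfn 37 8 28 = 315405017088 from by decide +kernel, show cfn 37 9 28 = 73782384640 from by decide +kernel, show cfn 37 10 28 = 17230138880 from by decide +kernel, show cfn 37 11 28 = 4016337600 from by decide +kernel, show cfn 37 12 28 = 934384176 from by decide +kernel, show cfn 37 13 28 = 216928932 from by decide +kernel, show cfn 37 14 28 = 50250765 from by decide +kernel, show cfn 37 15 28 = 11612615 from by decide +kernel, show cfn 37 16 28 = 2676700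 from by decide +kernel, show cfn 37 17 28 = 615264 from by decide +kernel, show cfn 37 18 28 = 140998 from by decide +kernel, Nat.cast_ofNat, Nat.cast_one, Nat.cast_zero]
  ring

theorem c37_29 (γ : ℕ → ℝ) : ∑ i ∈ range (37 / 2 + 1), γ i * (cfn 37 i 29 : ℝ) =
    (20727522907914240) * γ 0 + (4964023879598080) * γ 1 + (1187914805411840) * γ 2
       + (284045271367680) * γ 3 + (67861827551232) * γ 4 + (16198808371200) * γ 5
       + (3863160422400) * γ 6 + (920419696640) * γ 7 + (219074805760) * γ 8 + (52088352768) * γ 9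
       + (12371061760) * γ 10 + (2934715520) * γ 11 + (695328480) * γ 12 + (164531400) * γ 13
       + (38878482) * γ 14 + (9173505) * γ 15 + (2161160) * γ 16 + (508300) * γ 17
       + (119340) * γ 18 := by
  have h : ((37 / 2 + 1 : ℕ)) = 19 := rfl
  rw [h]
  simp only [sum_range_succ, sum_range_zero, show cfn 37 0 29 = 20727522907914240 from by decide +kernel, show cfn 37 1 29 = 4964023879598080 from by decide +kernel, show cfn 37 2 29 = 1187914805411840 from by decide +kernel, show cfn 37 3 29 = 284045271367680 from by decide +kernel, show cfn 37 4 29 = 67861827551232 from by decide +kernel, show cfn 37 5 29 = 16198808371200 from by decide +kernel, show cfn 37 6 29 = 3863160422400 from by decide +kernel, show cfn 37 7 29 = 920419696640 from by decide +kernel, show cfn 37 8 29 = 219074805760 from by decide +kernel, show cfn 37 9 29 = 52088352768 from by decide +kernel, show cfn 37 10 29 = 12371061760 from by decide +kernel, show cfn 37 11 29 = 2934715520 from by decide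 +kernel, show cfn 37 12 29 = 695328480 from by decide +kernel, show cfn 37 13 29 = 164531400 from by decide +kernel, show cfn 37 14 29 = 38878482 from by decide +kernel, show cfn 37 15 29 = 9173505 from by decide +kernel, show cfn 37 16 29 = 2161160 from by decide +kernel, show cfn 37 17 29 = 508300 from by decide +kernel, show cfn 37 18 29 = 119340 from by decide +kernel, Nat.cast_ofNat, Nat.cast_one, Nat.cast_zero]
  ring

theorem c37_30 (γ : ℕ → ℝ) : ∑ i ∈ range (37 / 2 + 1), γ i * (cfn 37 i 30 : ℝ) =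
    (11054678884220928) * γ 0 + (2676526982103040) * γ 1 + (647712206749696) * γ 2
       + (156664183390208) * γ 3 + (37872702849024) * γ 4 + (9150463475712) * γ 5
       + (2209585561600) * γ 6 + (533236219904) * γ 7 + (128605356032) * γ 8 + (30996873216) * γ 9
       + (7465934848) * γ 10 + (1796988160) * γ 11 + (432202496) * γ 12 + (103871328) * γ 13
       + (24943344) * γ 14 + (5984767) * γ 15 + (1434680) * γ 16 + (343604) * γ 17 + (82212) * γ 18 := by
  have h : ((37 / 2 + 1 : ℕ)) = 19 := rfl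
  rw [h]
  simp only [sum_range_succ, sum_range_zero, show cfn 37 0 30 = 11054678884220928 from by decide +kernel, show cfn 37 1 30 = 2676526982103040 from by decide +kernel, show cfn 37 2 30 = 647712206749696 from by decide +kernel, show cfn 37 3 30 = 156664183390208 from by decide +kernel, show cfn 37 4 30 = 37872702849024 from by decide +kernel, show cfn 37 5 30 = 9150463475712 from by decide +kernel, show cfn 37 6 30 = 2209585561600 from by decide +kernel, show cfn 37 7 30 = 533236219904 from by decide +kernel, show cfn 37 8 30 = 128605356032 from by decide +kernel, show cfn 37 9 30 = 30996873216 from by decide +kernel, show cfn 37 10 30 = 7465934848 from by decide +kernel, show cfn 37 11 30 = 1796988160 from by decide +kernel, show cfn 37 12 30 = 432202496 from by decide +kernel, show cfn 37 13 30 = 103871328 from by decide +kernel, show cfn 37 14 30 = 24943344 from by decide +kernel, show cfn 37 15 30 = 5984767 from by decide +kernel, show cfn 37 16 30 = 1434680 from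 by decide +kernel, show cfn 37 17 30 = 343604 from by decide +kernel, show cfn 37 18 30 = 82212 from by decide +kernel, Nat.cast_ofNat, Nat.cast_one, Nat.cast_zero]
  ring

theorem c37_31 (γ : ℕ → ℝ) : ∑ i ∈ range (37 / 2 + 1), γ i * (cfn 37 i 31 : ℝ) =
    (4992435625132032) * γ 0 + (1219998345330688) * γ 1 + (298042813054976) * γ 2
       + (72789193129984) * γ 3 + (17771333156864) * γ 4 + (4337443012608) * γ 5
       + (1058287910912) * γ 6 + (258122317824) * γ 7 + (62935269376) * γ 8 + (15339257856) * γ 9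
       + (3737239552) * γ 10 + (910181888) * γ 11 + (221579776) * γ 12 + (53920064) * γ 13
       + (13115424) * γ 14 + (3188738) * γ 15 + (774912) * γ 16 + (188224) * γ 17 + (45696) * γ 18 := by
  have h : ((37 / 2 + 1 : ℕ)) = 19 := rfl
  rw [h]
  simp only [sum_range_succ, sum_range_zero, show cfn 37 0 31 = 4992435625132032 from by decide +kernel, show cfn 37 1 31 = 1219998345330688 from by decide +kernel, show cfn 37 2 31 = 298042813054976 from by decide +kernel, show cfn 37 3 31 = 72789193129984 from by decide +kernel, show cfn 37 4 31 = 17771333156864 from by decide +kernel, show cfn 37 5 31 = 4337443012608 from by decide +kernel, show cfn 37 6 31 = 1058287910912 from by decide +kernel, show cfn 37 7 31 = 258122317824 from by decide +kernel, show cfn 37 8 31 = 62935269376 from by decide +kernel, show cfn 37 9 31 = 15339257856 from by decide +kernel, show cfn 37 10 31 = 3737239552 from by decide +kernel, show cfn 37 11 31 = 910181888 from by decide +kernel, show cfn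 37 12 31 = 221579776 from by decide +kernel, show cfn 37 13 31 = 53920064 from by decide +kernel, show cfn 37 14 31 = 13115424 from by decide +kernel, show cfn 37 15 31 = 3188738 from by decide +kernel, show cfn 37 16 31 = 774912 from by decide +kernel, show cfn 37 17 31 = 188224 from by decide +kernel, show cfn 37 18 31 = 45696 from by decide +kernel, Nat.cast_ofNat, Nat.cast_one, Nat.cast_zero]
  ring

theorem c37_32 (γ : ℕ → ℝ) : ∑ i ∈ range (37 / 2 + 1), γ i * (cfn 37 i 32 : ℝ) =
    (1872163359424512) * γ 0 + (461013199618048) * γ 1 + (113505248215040) * γ 2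
       + (27941513723904) * γ 3 + (6877232496640) * γ 4 + (1692410052608) * γ 5
       + (416412598272) * γ 6 + (102439321600) * γ 7 + (25196036096) * γ 8 + (6196101120) * γ 9
       + (1523433472) * γ 10 + (374494208) * γ 11 + (92040960) * γ 12 + (22616704) * γ 13
       + (5556320) * γ 14 + (1364748) * γ 15 + (335137) * γ 16 + (82280) * γ 17 + (20196) * γ 18 := by
  have h : ((37 / 2 + 1 : ℕ)) = 19 := rfl
  rw [h]
  simp only [sum_range_succ, sum_range_zero, show cfn 37 0 32 = 1872163359424512 from by decide +kernel, show cfn 37 1 32 = 461013199618048 from by decide +kernel, show cfn 37 2 32 = 113505248215040 from by decide +kernel, show cfn 37 3 32 = 27941513723904 from by decide +kernel, show cfn 37 4 32 = 6877232496640 from by decide +kernel, show cfn 37 5 32 = 1692410052608 from by decide +kernel, show cfn 37 6 32 = 416412598272 from by decide +kernel, show cfn 37 7 32 = 102439321600 from by decide +kernel, show cfn 37 8 32 = 25196036096 from by decide +kernel, show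 cfn 37 9 32 = 6196101120 from by decide +kernel, show cfn 37 10 32 = 1523433472 from by decide +kernel, show cfn 37 11 32 = 374494208 from by decide +kernel, show cfn 37 12 32 = 92040960 from by decide +kernel, show cfn 37 13 32 = 22616704 from by decide +kernel, show cfn 37 14 32 = 5556320 from by decide +kernel, show cfn 37 15 32 = 1364748 from by decide +kernel, show cfn 37 16 32 = 335137 from by decide +kernel, show cfn 37 17 32 = 82280 from by decide +kernel, show cfn 37 18 32 = 20196 from by decide +kernel, Nat.cast_ofNat, Nat.cast_one, Nat.cast_zero]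
  ring

theorem c37_33 (γ : ℕ → ℝ) : ∑ i ∈ range (37 / 2 + 1), γ i * (cfn 37 i 33 : ℝ) =
    (567322230128640) * γ 0 + (140552804761600) * γ 1 + (34819299868672) * γ 2
       + (8625233854464) * γ 3 + (2136444239872) * γ 4 + (529153392640) * γ 5
       + (131051028480) * γ 6 + (32453951488) * γ 7 + (8036417536) * γ 8 + (1989869568) * γ 9
       + (492666880) * γ 10 + (121968640) * γ 11 + (30193152) * γ 12 + (7473664) * γ 13
       + (1849792) * γ 14 + (457800) * γ 15 + (113290) * γ 16 + (28033) * γ 17 + (6936) * γ 18 := by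
  have h : ((37 / 2 + 1 : ℕ)) = 19 := rfl
  rw [h]
  simp only [sum_range_succ, sum_range_zero, show cfn 37 0 33 = 567322230128640 from by decide +kernel, show cfn 37 1 33 = 140552804761600 from by decide +kernel, show cfn 37 2 33 = 34819299868672 from by decide +kernel, show cfn 37 3 33 = 8625233854464 from by decide +kernel, show cfn 37 4 33 = 2136444239872 from by decide +kernel, show cfn 37 5 33 = 529153392640 from by decide +kernel, show cfn 37 6 33 = 131051028480 from by decide +kernel, show cfn 37 7 33 = 32453951488 from by decide +kernel, show cfn 37 8 33 = 8036417536 from by decide +kernel, show cfn 37 9 33 = 1989869568 from by decide +kernel, show cfn 37 10 33 = 492666880 from by decide +kernel, show cfn 37 11 33 = 121968640 from by decide +kernel, show cfn 37 12 33 = 30193152 from by decide +kernel, show cfn 37 13 33 = 7473664 from by decide +kernel, show cfn 37 14 33 = 1849792 from by decide +kernel, show cfn 37 15 33 = 457800 from by decide +kernel, show cfn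 37 16 33 = 113290 from by decide +kernel, show cfn 37 17 33 = 28033 from by decide +kernel, show cfn 37 18 33 = 6936 from by decide +kernel, Nat.cast_ofNat, Nat.cast_one, Nat.cast_zero]
  ring

theorem c37_34 (γ : ℕ → ℝ) : ∑ i ∈ range (37 / 2 + 1), γ i * (cfn 37 i 34 : ℝ) =
    (133487583559680) * γ 0 + (33221572034560) * γ 1 + (8267812044800) * γ 2
       + (2057557770240) * γ 3 + (512040632320) * γ 4 + (127422955520) * γ 5 + (31708938240) * γ 6
       + (7890534400) * γ 7 + (1963458560) * γ 8 + (488570880) * γ 9 + (121569280) * γ 10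
       + (30248960) * γ 11 + (7526400) * γ 12 + (1872640) * γ 13 + (465920) * γ 14
       + (115920) * γ 15 + (28840) * γ 16 + (7175) * γ 17 + (1785) * γ 18 := by
  have h : ((37 / 2 + 1 : ℕ)) = 19 := rfl
  rw [h]
  simp only [sum_range_succ, sum_range_zero, show cfn 37 0 34 = 133487583559680 from by decide +kernel, show cfn 37 1 34 = 33221572034560 from by decide +kernel, show cfn 37 2 34 = 8267812044800 from by decide +kernel, show cfn 37 3 34 = 2057557770240 from by decide +kernel, show cfn 37 4 34 = 512040632320 from by decide +kernel, show cfn 37 5 34 = 127422955520 from by decide +kernel, show cfn 37 6 34 = 31708938240 from by decide +kernel, show cfn 37 7 34 = 7890534400 from by decide +kernel, show cfn 37 8 34 = 1963458560 from by decide +kernel, show cfn 37 9 34 = 488570880 from by decide +kernel, show cfn 37 10 34 = 121569280 from by decide +kernel, show cfn 37 11 34 = 30248960 from by decide +kernel, show cfn 37 12 34 = 7526400 from by decide +kernel, show cfn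 37 13 34 = 1872640 from by decide +kernel, show cfn 37 14 34 = 465920 from by decide +kernel, show cfn 37 15 34 = 115920 from by decide +kernel, show cfn 37 16 34 = 28840 from by decide +kernel, show cfn 37 17 34 = 7175 from by decide +kernel, show cfn 37 18 34 = 1785 from by decide +kernel, Nat.cast_ofNat, Nat.cast_one, Nat.cast_zero]
  ring

theorem c37_35 (γ : ℕ → ℝ) : ∑ i ∈ range (37 / 2 + 1), γ i * (cfn 37 i 35 : ℝ) =
    (22883585753088) * γ 0 + (5712306503680) * γ 1 + (1425929142272) * γ 2 + (355945414656) * γ 3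
       + (88852135936) * γ 4 + (22179479552) * γ 5 + (5536481280) * γ 6 + (1382023168) * γ 7
       + (344981504) * γ 8 + (86114304) * γ 9 + (21495808) * γ 10 + (5365760) * γ 11
       + (1339392) * γ 12 + (334336) * γ 13 + (83456) * γ 14 + (20832) * γ 15 + (5200) * γ 16
       + (1298) * γ 17 + (324) * γ 18 := by
  have h : ((37 / 2 + 1 : ℕ)) = 19 := rfl
  rw [h]
  simp only [sum_range_succ, sum_range_zero, show cfn 37 0 35 = 22883585753088 from by decide +kernel, show cfn 37 1 35 = 5712306503680 from by decide +kernel, show cfn 37 2 35 = 1425929142272 from by decide +kernel, show cfn 37 3 35 = 355945414656 from by decide +kernel, show cfn 37 4 35 = 88852135936 from by decide +kernel, show cfn 37 5 35 = 22179479552 from by decide +kernel, show cfn 37 6 35 = 5536481280 from by decide +kernel, show cfn 37 7 35 = 1382023168 from by decide +kernel, show cfn 37 8 35 = 344981504 from by decide +kernel, show cfn 37 9 35 = 86114304 from by decide +kernel, show cfn 37 10 35 = 21495808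 from by decide +kernel, show cfn 37 11 35 = 5365760 from by decide +kernel, show cfn 37 12 35 = 1339392 from by decide +kernel, show cfn 37 13 35 = 334336 from by decide +kernel, show cfn 37 14 35 = 83456 from by decide +kernel, show cfn 37 15 35 = 20832 from by decide +kernel, show cfn 37 16 35 = 5200 from by decide +kernel, show cfn 37 17 35 = 1298 from by decide +kernel, show cfn 37 18 35 = 324 from by decide +kernel, Nat.cast_ofNat, Nat.cast_one, Nat.cast_zero]
  ring

theorem q37_0 (γ : ℕ → ℝ) (h0 : γ 0 = 1)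
    (h : ∀ n < 37, 2 * (((37 : ℕ) : ℝ) - ((n : ℕ) : ℝ)) * ∑ i ∈ range (37 / 2 + 1), γ i * (cfn 37 i n : ℝ) ≤
      ((n : ℝ) + 1) * ∑ i ∈ range (37 / 2 + 1), γ i * (cfn 37 i (n + 1) : ℝ)) :
    0 ≤ (0) * γ 0 + (1) * γ 1 + (0) * γ 2 + (0) * γ 3 + (0) * γ 4 + (0) * γ 5 + (0) * γ 6 + (0) * γ 7
       + (0) * γ 8 + (0) * γ 9 + (0) * γ 10 + (0) * γ 11 + (0) * γ 12 + (0) * γ 13 + (0) * γ 14
       + (0) * γ 15 + (0) * γ 16 + (0) * γ 17 + (0) * γ 18 := by
  have h1 := h 0 (by norm_num)
  rw [show 0 + 1 = 1 from rfl, c37_0, c37_1] at h1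
  norm_num [h0] at h1 ⊢
  linarith

theorem q37_1 (γ : ℕ → ℝ) (h0 : γ 0 = 1)
    (h : ∀ n < 37, 2 * (((37 : ℕ) : ℝ) - ((n : ℕ) : ℝ)) * ∑ i ∈ range (37 / 2 + 1), γ i * (cfn 37 i n : ℝ) ≤
      ((n : ℝ) + 1) * ∑ i ∈ range (37 / 2 + 1), γ i * (cfn 37 i (n + 1) : ℝ)) :
    0 ≤ (0) * γ 0 + (70) * γ 1 + (2) * γ 2 + (0) * γ 3 + (0) * γ 4 + (0) * γ 5 + (0) * γ 6
       + (0) * γ 7 + (0) * γ 8 + (0) * γ 9 + (0) * γ 10 + (0) * γ 11 + (0) * γ 12 + (0) * γ 13
       + (0) * γ 14 + (0) * γ 15 + (0) * γ 16 + (0) * γ 17 + (0) * γ 18 := by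
  have h1 := h 1 (by norm_num)
  rw [show 1 + 1 = 2 from rfl, c37_1, c37_2] at h1
  norm_num [h0] at h1 ⊢
  linarith

theorem q37_2 (γ : ℕ → ℝ) (h0 : γ 0 = 1)
    (h : ∀ n < 37, 2 * (((37 : ℕ) : ℝ) - ((n : ℕ) : ℝ)) * ∑ i ∈ range (37 / 2 + 1), γ i * (cfn 37 i n : ℝ) ≤
      ((n : ℝ) + 1) * ∑ i ∈ range (37 / 2 + 1), γ i * (cfn 37 i (n + 1) : ℝ)) :
    0 ≤ (0) * γ 0 + (2380) * γ 1 + (134) * γ 2 + (3) * γ 3 + (0) * γ 4 + (0) * γ 5 + (0) * γ 6
       + (0) * γ 7 + (0) * γ 8 + (0) * γ 9 + (0) * γ 10 + (0) * γ 11 + (0) * γ 12 + (0) * γ 13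
       + (0) * γ 14 + (0) * γ 15 + (0) * γ 16 + (0) * γ 17 + (0) * γ 18 := by
  have h1 := h 2 (by norm_num)
  rw [show 2 + 1 = 3 from rfl, c37_2, c37_3] at h1
  norm_num [h0] at h1 ⊢
  linarith

theorem q37_3 (γ : ℕ → ℝ) (h0 : γ 0 = 1)
    (h : ∀ n < 37, 2 * (((37 : ℕ) : ℝ) - ((n : ℕ) : ℝ)) * ∑ i ∈ range (37 / 2 + 1), γ i * (cfn 37 i n : ℝ) ≤
      ((n : ℝ) + 1) * ∑ i ∈ range (37 / 2 + 1), γ i * (cfn 37 i (n + 1) : ℝ)) :
    0 ≤ (0) * γ 0 + (52360) * γ 1 + (4356) * γ 2 + (192) * γ 3 + (4) * γ 4 + (0) * γ 5 + (0) * γ 6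
       + (0) * γ 7 + (0) * γ 8 + (0) * γ 9 + (0) * γ 10 + (0) * γ 11 + (0) * γ 12 + (0) * γ 13
       + (0) * γ 14 + (0) * γ 15 + (0) * γ 16 + (0) * γ 17 + (0) * γ 18 := by
  have h1 := h 3 (by norm_num)
  rw [show 3 + 1 = 4 from rfl, c37_3, c37_4] at h1
  norm_num [h0] at h1 ⊢
  linarith

theorem q37_4 (γ : ℕ → ℝ) (h0 : γ 0 = 1)
    (h : ∀ n < 37, 2 * (((37 : ℕ) : ℝ) - ((n : ℕ) : ℝ)) * ∑ i ∈ range (37 / 2 + 1), γ i * (cfn 37 i n : ℝ) ≤
      ((n : ℝ) + 1) * ∑ i ∈ range (37 / 2 + 1), γ i * (cfn 37 i (n + 1) : ℝ)) :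
    0 ≤ (0) * γ 0 + (837760) * γ 1 + (91520) * γ 2 + (5955) * γ 3 + (244) * γ 4 + (5) * γ 5
       + (0) * γ 6 + (0) * γ 7 + (0) * γ 8 + (0) * γ 9 + (0) * γ 10 + (0) * γ 11 + (0) * γ 12
       + (0) * γ 13 + (0) * γ 14 + (0) * γ 15 + (0) * γ 16 + (0) * γ 17 + (0) * γ 18 := by
  have h1 := h 4 (by norm_num)
  rw [show 4 + 1 = 5 from rfl, c37_4, c37_5] at h1
  norm_num [h0] at h1 ⊢
  linarith

theorem q37_5 (γ : ℕ → ℝ) (h0 : γ 0 = 1)
    (h : ∀ n < 37, 2 * (((37 : ℕ) : ℝ) - ((n : ℕ) : ℝ)) * ∑ i ∈ range (37 / 2 + 1), γ i * (cfn 37 i n : ℝ) ≤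
      ((n : ℝ) + 1) * ∑ i ∈ range (37 / 2 + 1), γ i * (cfn 37 i (n + 1) : ℝ)) :
    0 ≤ (0) * γ 0 + (10388224) * γ 1 + (1396736) * γ 2 + (119226) * γ 3 + (7204) * γ 4 + (290) * γ 5
       + (6) * γ 6 + (0) * γ 7 + (0) * γ 8 + (0) * γ 9 + (0) * γ 10 + (0) * γ 11 + (0) * γ 12
       + (0) * γ 13 + (0) * γ 14 + (0) * γ 15 + (0) * γ 16 + (0) * γ 17 + (0) * γ 18 := by
  have h1 := h 5 (by norm_num)
  rw [show 5 + 1 = 6 from rfl, c37_5, c37_6] at h1
  norm_num [h0] at h1 ⊢
  linarith

theorem q37_6 (γ : ℕ → ℝ) (h0 : γ 0 = 1)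
    (h : ∀ n < 37, 2 * (((37 : ℕ) : ℝ) - ((n : ℕ) : ℝ)) * ∑ i ∈ range (37 / 2 + 1), γ i * (cfn 37 i n : ℝ) ≤
      ((n : ℝ) + 1) * ∑ i ∈ range (37 / 2 + 1), γ i * (cfn 37 i (n + 1) : ℝ)) :
    0 ≤ (0) * γ 0 + (103882240) * γ 1 + (16498944) * γ 2 + (1731660) * γ 3 + (137116) * γ 4
       + (8130) * γ 5 + (330) * γ 6 + (7) * γ 7 + (0) * γ 8 + (0) * γ 9 + (0) * γ 10 + (0) * γ 11
       + (0) * γ 12 + (0) * γ 13 + (0) * γ 14 + (0) * γ 15 + (0) * γ 16 + (0) * γ 17 + (0) * γ 18 := by
  have h1 := h 6 (by norm_num)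
  rw [show 6 + 1 = 7 from rfl, c37_6, c37_7] at h1
  norm_num [h0] at h1 ⊢
  linarith

theorem q37_7 (γ : ℕ → ℝ) (h0 : γ 0 = 1)
    (h : ∀ n < 37, 2 * (((37 : ℕ) : ℝ) - ((n : ℕ) : ℝ)) * ∑ i ∈ range (37 / 2 + 1), γ i * (cfn 37 i n : ℝ) ≤
      ((n : ℝ) + 1) * ∑ i ∈ range (37 / 2 + 1), γ i * (cfn 37 i (n + 1) : ℝ)) :
    0 ≤ (0) * γ 0 + (860738560) * γ 1 + (156958208) * γ 2 + (19439976) * γ 3 + (1890568) * γ 4
       + (146720) * γ 5 + (8760) * γ 6 + (364) * γ 7 + (8) * γ 8 + (0) * γ 9 + (0) * γ 10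
       + (0) * γ 11 + (0) * γ 12 + (0) * γ 13 + (0) * γ 14 + (0) * γ 15 + (0) * γ 16 + (0) * γ 17
       + (0) * γ 18 := by
  have h1 := h 7 (by norm_num)
  rw [show 7 + 1 = 8 from rfl, c37_7, c37_8] at h1
  norm_num [h0] at h1 ⊢
  linarith

theorem q37_8 (γ : ℕ → ℝ) (h0 : γ 0 = 1)
    (h : ∀ n < 37, 2 * (((37 : ℕ) : ℝ) - ((n : ℕ) : ℝ)) * ∑ i ∈ range (37 / 2 + 1), γ i * (cfn 37 i n : ℝ) ≤
      ((n : ℝ) + 1) * ∑ i ∈ range (37 / 2 + 1), γ i * (cfn 37 i (n + 1) : ℝ)) :
    0 ≤ (0) * γ 0 + (6025169920) * γ 1 + (1235412992) * γ 2 + (175499184) * γ 3 + (20118112) * γ 4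
       + (1915205) * γ 5 + (149460) * γ 6 + (9121) * γ 7 + (392) * γ 8 + (9) * γ 9 + (0) * γ 10
       + (0) * γ 11 + (0) * γ 12 + (0) * γ 13 + (0) * γ 14 + (0) * γ 15 + (0) * γ 16 + (0) * γ 17
       + (0) * γ 18 := by
  have h1 := h 8 (by norm_num)
  rw [show 8 + 1 = 9 from rfl, c37_8, c37_9] at h1
  norm_num [h0] at h1 ⊢
  linarith

theorem q37_9 (γ : ℕ → ℝ) (h0 : γ 0 = 1)
    (h : ∀ n < 37, 2 * (((37 : ℕ) : ℝ) - ((n : ℕ) : ℝ)) * ∑ i ∈ range (37 / 2 + 1), γ i * (cfn 37 i n : ℝ) ≤
      ((n : ℝ) + 1) * ∑ i ∈ range (37 / 2 + 1), γ i * (cfn 37 i (n + 1) : ℝ)) :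
    0 ≤ (0) * γ 0 + (36151019520) * γ 1 + (8202332160) * γ 2 + (1308800160) * γ 3 + (171884160) * γ 4
       + (19263150) * γ 5 + (1841430) * γ 6 + (146650) * γ 7 + (9240) * γ 8 + (414) * γ 9
       + (10) * γ 10 + (0) * γ 11 + (0) * γ 12 + (0) * γ 13 + (0) * γ 14 + (0) * γ 15 + (0) * γ 16
       + (0) * γ 17 + (0) * γ 18 := by
  have h1 := h 9 (by norm_num)
  rw [show 9 + 1 = 10 from rfl, c37_9, c37_10] at h1
  norm_num [h0] at h1 ⊢
  linarith

theorem q37_10 (γ : ℕ → ℝ) (h0 : γ 0 = 1)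
    (h : ∀ n < 37, 2 * (((37 : ℕ) : ℝ) - ((n : ℕ) : ℝ)) * ∑ i ∈ range (37 / 2 + 1), γ i * (cfn 37 i n : ℝ) ≤
      ((n : ℝ) + 1) * ∑ i ∈ range (37 / 2 + 1), γ i * (cfn 37 i (n + 1) : ℝ)) :
    0 ≤ (0) * γ 0 + (187985301504) * γ 1 + (46601398272) * γ 2 + (8219420352) * γ 3
       + (1211056704) * γ 4 + (155289420) * γ 5 + (17450466) * γ 6 + (1699621) * γ 7
       + (139496) * γ 8 + (9144) * γ 9 + (430) * γ 10 + (11) * γ 11 + (0) * γ 12 + (0) * γ 13
       + (0) * γ 14 + (0) * γ 15 + (0) * γ 16 + (0) * γ 17 + (0) * γ 18 := by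
  have h1 := h 10 (by norm_num)
  rw [show 10 + 1 = 11 from rfl, c37_10, c37_11] at h1
  norm_num [h0] at h1 ⊢
  linarith

theorem q37_11 (γ : ℕ → ℝ) (h0 : γ 0 = 1)
    (h : ∀ n < 37, 2 * (((37 : ℕ) : ℝ) - ((n : ℕ) : ℝ)) * ∑ i ∈ range (37 / 2 + 1), γ i * (cfn 37 i n : ℝ) ≤
      ((n : ℝ) + 1) * ∑ i ∈ range (37 / 2 + 1), γ i * (cfn 37 i (n + 1) : ℝ)) :
    0 ≤ (0) * γ 0 + (854478643200) * γ 1 + (229057720320) * γ 2 + (44092713600) * γ 3
       + (7172530560) * γ 4 + (1030465800) * γ 5 + (132295500) * γ 6 + (15122128) * γ 7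
       + (1515080) * γ 8 + (129096) * γ 9 + (8860) * γ 10 + (440) * γ 11 + (12) * γ 12 + (0) * γ 13
       + (0) * γ 14 + (0) * γ 15 + (0) * γ 16 + (0) * γ 17 + (0) * γ 18 := by
  have h1 := h 11 (by norm_num)
  rw [show 11 + 1 = 12 from rfl, c37_11, c37_12] at h1
  norm_num [h0] at h1 ⊢
  linarith

theorem q37_12 (γ : ℕ → ℝ) (h0 : γ 0 = 1)
    (h : ∀ n < 37, 2 * (((37 : ℕ) : ℝ) - ((n : ℕ) : ℝ)) * ∑ i ∈ range (37 / 2 + 1), γ i * (cfn 37 i n : ℝ) ≤
      ((n : ℝ) + 1) * ∑ i ∈ range (37 / 2 + 1), γ i * (cfn 37 i (n + 1) : ℝ)) :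
    0 ≤ (0) * γ 0 + (3417914572800) * γ 1 + (982291415040) * γ 2 + (204240142080) * γ 3
       + (36215162880) * γ 4 + (5736463200) * γ 5 + (823922400) * γ 6 + (107416631) * γ 7
       + (12606552) * γ 8 + (1308438) * γ 9 + (116440) * γ 10 + (8415) * γ 11 + (444) * γ 12
       + (13) * γ 13 + (0) * γ 14 + (0) * γ 15 + (0) * γ 16 + (0) * γ 17 + (0) * γ 18 := by
  have h1 := h 12 (by norm_num)
  rw [show 12 + 1 = 13 from rfl, c37_12, c37_13] at h1
  norm_num [h0] at h1 ⊢
  linarith

theorem q37_13 (γ : ℕ → ℝ) (h0 : γ 0 = 1)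
    (h : ∀ n < 37, 2 * (((37 : ℕ) : ℝ) - ((n : ℕ) : ℝ)) * ∑ i ∈ range (37 / 2 + 1), γ i * (cfn 37 i n : ℝ) ≤
      ((n : ℝ) + 1) * ∑ i ∈ range (37 / 2 + 1), γ i * (cfn 37 i (n + 1) : ℝ)) :
    0 ≤ (0) * γ 0 + (12094159257600) * γ 1 + (3699389890560) * γ 2 + (823692280320) * γ 3
       + (157559700480) * γ 4 + (27166900800) * γ 5 + (4295443200) * γ 6 + (625432514) * γ 7
       + (83557768) * γ 8 + (10136700) * γ 9 + (1096060) * γ 10 + (102410) * γ 11 + (7836) * γ 12
       + (442) * γ 13 + (14) * γ 14 + (0) * γ 15 + (0) * γ 16 + (0) * γ 17 + (0) * γ 18 := by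
  have h1 := h 13 (by norm_num)
  rw [show 13 + 1 = 14 from rfl, c37_13, c37_14] at h1
  norm_num [h0] at h1 ⊢
  linarith

theorem q37_14 (γ : ℕ → ℝ) (h0 : γ 0 = 1)
    (h : ∀ n < 37, 2 * (((37 : ℕ) : ℝ) - ((n : ℕ) : ℝ)) * ∑ i ∈ range (37 / 2 + 1), γ i * (cfn 37 i n : ℝ) ≤
      ((n : ℝ) + 1) * ∑ i ∈ range (37 / 2 + 1), γ i * (cfn 37 i (n + 1) : ℝ)) :
    0 ≤ (0) * γ 0 + (38010214809600) * γ 1 + (12297422438400) * γ 2 + (2910792268800) * γ 3
       + (595477109760) * γ 4 + (110605123200) * γ 5 + (19006574400) * γ 6 + (3041196620) * γ 7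
       + (452884600) * γ 8 + (62404308) * γ 9 + (7866820) * γ 10 + (890450) * γ 11 + (87780) * γ 12
       + (7150) * γ 13 + (434) * γ 14 + (15) * γ 15 + (0) * γ 16 + (0) * γ 17 + (0) * γ 18 := by
  have h1 := h 14 (by norm_num)
  rw [show 14 + 1 = 15 from rfl, c37_14, c37_15] at h1
  norm_num [h0] at h1 ⊢
  linarith

theorem q37_15 (γ : ℕ → ℝ) (h0 : γ 0 = 1)
    (h : ∀ n < 37, 2 * (((37 : ℕ) : ℝ) - ((n : ℕ) : ℝ)) * ∑ i ∈ range (37 / 2 + 1), γ i * (cfn 37 i n : ℝ) ≤
      ((n : ℝ) + 1) * ∑ i ∈ range (37 / 2 + 1), γ i * (cfn 37 i (n + 1) : ℝ)) :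
    0 ≤ (0) * γ 0 + (106428601466880) * γ 1 + (36221498818560) * γ 2 + (9057280296960) * γ 3
       + (1967165491200) * γ 4 + (390207916800) * γ 5 + (72118358400) * γ 6 + (12519170664) * γ 7
       + (2044663824) * γ 8 + (313333632) * γ 9 + (44749600) * γ 10 + (5887728) * γ 11
       + (700656) * γ 12 + (73216) * γ 13 + (6384) * γ 14 + (420) * γ 15 + (16) * γ 16 + (0) * γ 17
       + (0) * γ 18 := by
  have h1 := h 15 (by norm_num)
  rw [show 15 + 1 = 16 from rfl, c37_15, c37_16] at h1
  norm_num [h0] at h1 ⊢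
  linarith

theorem q37_16 (γ : ℕ → ℝ) (h0 : γ 0 = 1)
    (h : ∀ n < 37, 2 * (((37 : ℕ) : ℝ) - ((n : ℕ) : ℝ)) * ∑ i ∈ range (37 / 2 + 1), γ i * (cfn 37 i n : ℝ) ≤
      ((n : ℝ) + 1) * ∑ i ∈ range (37 / 2 + 1), γ i * (cfn 37 i (n + 1) : ℝ)) :
    0 ≤ (0) * γ 0 + (266071503667200) * γ 1 + (94801947525120) * γ 2 + (24906091622400) * γ 3
       + (5706859683840) * γ 4 + (1200051091200) * γ 5 + (236475916800) * γ 6 + (44070952464) * γ 7
       + (7793083200) * γ 8 + (1306790217) * γ 9 + (207020920) * γ 10 + (30765350) * γ 11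
       + (4240632) * γ 12 + (532675) * γ 13 + (59276) * γ 14 + (5565) * γ 15 + (400) * γ 16
       + (17) * γ 17 + (0) * γ 18 := by
  have h1 := h 16 (by norm_num)
  rw [show 16 + 1 = 17 from rfl, c37_16, c37_17] at h1
  norm_num [h0] at h1 ⊢
  linarith

theorem q37_17 (γ : ℕ → ℝ) (h0 : γ 0 = 1)
    (h : ∀ n < 37, 2 * (((37 : ℕ) : ℝ) - ((n : ℕ) : ℝ)) * ∑ i ∈ range (37 / 2 + 1), γ i * (cfn 37 i n : ℝ) ≤
      ((n : ℝ) + 1) * ∑ i ∈ range (37 / 2 + 1), γ i * (cfn 37 i (n + 1) : ℝ)) :
    0 ≤ (0) * γ 0 + (594748067020800) * γ 1 + (220906424893440) * γ 2 + (60681681838080) * γ 3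
       + (14588395192320) * γ 4 + (3231495436800) * γ 5 + (673933708800) * γ 6
       + (133666161888) * γ 7 + (25323438336) * γ 8 + (4586970006) * γ 9 + (793055530) * γ 10
       + (130335260) * γ 11 + (20220024) * γ 12 + (2929498) * γ 13 + (389858) * γ 14
       + (46410) * γ 15 + (4720) * γ 16 + (374) * γ 17 + (18) * γ 18 := by
  have h1 := h 17 (by norm_num)
  rw [show 17 + 1 = 18 from rfl, c37_17, c37_18] at h1
  norm_num [h0] at h1 ⊢
  linarith

theorem q37_18 (γ : ℕ → ℝ) (h0 : γ 0 = 1)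
    (h : ∀ n < 37, 2 * (((37 : ℕ) : ℝ) - ((n : ℕ) : ℝ)) * ∑ i ∈ range (37 / 2 + 1), γ i * (cfn 37 i n : ℝ) ≤
      ((n : ℝ) + 1) * ∑ i ∈ range (37 / 2 + 1), γ i * (cfn 37 i (n + 1) : ℝ)) :
    0 ≤ (0) * γ 0 + (1189496134041600) * γ 1 + (458805651701760) * γ 2 + (131211464785920) * γ 3
       + (32936011776000) * γ 4 + (7642882483200) * γ 5 + (1676217331200) * γ 6
       + (351196105792) * γ 7 + (70662044544) * γ 8 + (13681045836) * γ 9 + (2548316670) * γ 10
       + (455681655) * γ 11 + (77903496) * γ 12 + (12650352) * γ 13 + (1931958) * γ 14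
       + (273315) * γ 15 + (34960) * γ 16 + (3876) * γ 17 + (342) * γ 18 := by
  have h1 := h 18 (by norm_num)
  rw [show 18 + 1 = 19 from rfl, c37_18, c37_19] at h1
  norm_num [h0] at h1 ⊢
  linarith

theorem q37_19 (γ : ℕ → ℝ) (h0 : γ 0 = 1)
    (h : ∀ n < 37, 2 * (((37 : ℕ) : ℝ) - ((n : ℕ) : ℝ)) * ∑ i ∈ range (37 / 2 + 1), γ i * (cfn 37 i n : ℝ) ≤
      ((n : ℝ) + 1) * ∑ i ∈ range (37 / 2 + 1), γ i * (cfn 37 i (n + 1) : ℝ)) :
    0 ≤ (0) * γ 0 + (2128572029337600) * γ 1 + (849640095744000) * γ 2 + (251995528396800) * γ 3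
       + (65759900958720) * γ 4 + (15907997030400) * γ 5 + (3648649344000) * γ 6
       + (802393809280) * γ 7 + (170186374400) * γ 8 + (34911604872) * γ 9 + (6932306580) * γ 10
       + (1331441760) * γ 11 + (246797100) * γ 12 + (43981080) * γ 13 + (7491036) * γ 14
       + (1208760) * γ 15 + (182320) * γ 16 + (25160) * γ 17 + (3060) * γ 18 := by
  have h1 := h 19 (by norm_num)
  rw [show 19 + 1 = 20 from rfl, c37_19, c37_20] at h1
  norm_num [h0] at h1 ⊢
  linarith

theorem q37_20 (γ : ℕ → ℝ) (h0 : γ 0 = 1)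
    (h : ∀ n < 37, 2 * (((37 : ℕ) : ℝ) - ((n : ℕ) : ℝ)) * ∑ i ∈ range (37 / 2 + 1), γ i * (cfn 37 i n : ℝ) ≤
      ((n : ℝ) + 1) * ∑ i ∈ range (37 / 2 + 1), γ i * (cfn 37 i (n + 1) : ℝ)) :
    0 ≤ (0) * γ 0 + (3405715246940160) * γ 1 + (1402353336975360) * γ 2 + (429840648437760) * γ 3
       + (116159006638080) * γ 4 + (29166372864000) * γ 5 + (6961588715520) * γ 6
       + (1597984794112) * γ 7 + (354994798592) * γ 8 + (76583868480) * γ 9 + (16069341120) * γ 10
       + (3280191915) * γ 11 + (650786796) * γ 12 + (125233251) * γ 13 + (23295720) * γ 14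
       + (4167765) * γ 15 + (711760) * γ 16 + (114716) * γ 17 + (17136) * γ 18 := by
  have h1 := h 20 (by norm_num)
  rw [show 20 + 1 = 21 from rfl, c37_20, c37_21] at h1
  norm_num [h0] at h1 ⊢
  linarith

theorem q37_21 (γ : ℕ → ℝ) (h0 : γ 0 = 1)
    (h : ∀ n < 37, 2 * (((37 : ℕ) : ℝ) - ((n : ℕ) : ℝ)) * ∑ i ∈ range (37 / 2 + 1), γ i * (cfn 37 i n : ℝ) ≤
      ((n : ℝ) + 1) * ∑ i ∈ range (37 / 2 + 1), γ i * (cfn 37 i (n + 1) : ℝ)) :
    0 ≤ (0) * γ 0 + (4865307495628800) * γ 1 + (2060600821678080) * γ 2 + (650645441740800) * γ 3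
       + (181439272058880) * γ 4 + (47101154918400) * γ 5 + (11648291635200) * γ 6
       + (2777096655872) * γ 7 + (642565140480) * γ 8 + (144846926208) * γ 9 + (31877268480) * γ 10
       + (6855277770) * γ 11 + (1440537516) * γ 12 + (295525230) * γ 13 + (59083794) * γ 14
       + (11479710) * γ 15 + (2158640) * γ 16 + (390456) * γ 17 + (67320) * γ 18 := by
  have h1 := h 21 (by norm_num)
  rw [show 21 + 1 = 22 from rfl, c37_21, c37_22] at h1
  norm_num [h0] at h1 ⊢
  linarith

theorem q37_22 (γ : ℕ → ℝ) (h0 : γ 0 = 1)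
    (h : ∀ n < 37, 2 * (((37 : ℕ) : ℝ) - ((n : ℕ) : ℝ)) * ∑ i ∈ range (37 / 2 + 1), γ i * (cfn 37 i n : ℝ) ≤
      ((n : ℝ) + 1) * ∑ i ∈ range (37 / 2 + 1), γ i * (cfn 37 i (n + 1) : ℝ)) :
    0 ≤ (0) * γ 0 + (6192209539891200) * γ 1 + (2690228850524160) * γ 2 + (872486877265920) * γ 3
       + (250255005450240) * γ 4 + (66927737241600) * γ 5 + (17081511936000) * γ 6
       + (4211201275904) * γ 7 + (1009853329408) * γ 8 + (236531752704) * γ 9
       + (54247777920) * γ 10 + (12199391820) * γ 11 + (2691578772) * γ 12 + (582567414) * γ 13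
       + (123606462) * γ 14 + (25673865) * γ 15 + (5209040) * γ 16 + (1029112) * γ 17
       + (197064) * γ 18 := by
  have h1 := h 22 (by norm_num)
  rw [show 22 + 1 = 23 from rfl, c37_22, c37_23] at h1
  norm_num [h0] at h1 ⊢
  linarith

theorem q37_23 (γ : ℕ → ℝ) (h0 : γ 0 = 1)
    (h : ∀ n < 37, 2 * (((37 : ℕ) : ℝ) - ((n : ℕ) : ℝ)) * ∑ i ∈ range (37 / 2 + 1), γ i * (cfn 37 i n : ℝ) ≤
      ((n : ℝ) + 1) * ∑ i ∈ range (37 / 2 + 1), γ i * (cfn 37 i (n + 1) : ℝ)) :
    0 ≤ (0) * γ 0 + (6999889045094400) * γ 1 + (3111715382231040) * γ 2 + (1033715232276480) * γ 3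
       + (304065981972480) * γ 4 + (83502278246400) * γ 5 + (21915456307200) * γ 6
       + (5564912439296) * γ 7 + (1376952328192) * γ 8 + (333456062976) * γ 9
       + (79253902080) * γ 10 + (18518872680) * γ 11 + (4258447128) * γ 12 + (964088736) * γ 13
       + (214877208) * γ 14 + (47125260) * γ 15 + (10159760) * γ 16 + (2149888) * γ 17
       + (445536) * γ 18 := by
  have h1 := h 23 (by norm_num)
  rw [show 23 + 1 = 24 from rfl, c37_23, c37_24] at h1
  norm_num [h0] at h1 ⊢
  linarith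

theorem q37_24 (γ : ℕ → ℝ) (h0 : γ 0 = 1)
    (h : ∀ n < 37, 2 * (((37 : ℕ) : ℝ) - ((n : ℕ) : ℝ)) * ∑ i ∈ range (37 / 2 + 1), γ i * (cfn 37 i n : ℝ) ≤
      ((n : ℝ) + 1) * ∑ i ∈ range (37 / 2 + 1), γ i * (cfn 37 i (n + 1) : ℝ)) :
    0 ≤ (0) * γ 0 + (6999889045094400) * γ 1 + (3176420238950400) * γ 2 + (1078107910963200) * γ 3
       + (324318863032320) * γ 4 + (91181172326400) * γ 5 + (24528145612800) * γ 6
       + (6392008089600) * γ 7 + (1625478758400) * γ 8 + (405205102080) * γ 9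
       + (99313075200) * γ 10 + (23978790000) * γ 11 + (5710730400) * γ 12 + (1342570125) * γ 13
       + (311695020) * γ 14 + (71464575) * γ 15 + (16177200) * γ 16 + (3613350) * γ 17
       + (795600) * γ 18 := by
  have h1 := h 24 (by norm_num)
  rw [show 24 + 1 = 25 from rfl, c37_24, c37_25] at h1
  norm_num [h0] at h1 ⊢
  linarith

theorem q37_25 (γ : ℕ → ℝ) (h0 : γ 0 = 1)
    (h : ∀ n < 37, 2 * (((37 : ℕ) : ℝ) - ((n : ℕ) : ℝ)) * ∑ i ∈ range (37 / 2 + 1), γ i * (cfn 37 i n : ℝ) ≤
      ((n : ℝ) + 1) * ∑ i ∈ range (37 / 2 + 1), γ i * (cfn 37 i (n + 1) : ℝ)) :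
    0 ≤ (0) * γ 0 + (6159902359683072) * γ 1 + (2847013695651840) * γ 2 + (984910858813440) * γ 3
       + (302224810967040) * γ 4 + (86747253964800) * γ 5 + (23845733007360) * γ 6
       + (6356520124416) * γ 7 + (1655327686656) * γ 8 + (423090312192) * γ 9
       + (106466718720) * γ 10 + (26433024288) * γ 11 + (6484376448) * γ 12 + (1573306878) * γ 13
       + (377805246) * γ 14 + (89825190) * γ 15 + (21147984) * γ 16 + (4930068) * γ 17
       + (1137708) * γ 18 := by
  have h1 := h 25 (by norm_num)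
  rw [show 25 + 1 = 26 from rfl, c37_25, c37_26] at h1
  norm_num [h0] at h1 ⊢
  linarith

theorem q37_26 (γ : ℕ → ℝ) (h0 : γ 0 = 1)
    (h : ∀ n < 37, 2 * (((37 : ℕ) : ℝ) - ((n : ℕ) : ℝ)) * ∑ i ∈ range (37 / 2 + 1), γ i * (cfn 37 i n : ℝ) ≤
      ((n : ℝ) + 1) * ∑ i ∈ range (37 / 2 + 1), γ i * (cfn 37 i (n + 1) : ℝ)) :
    0 ≤ (0) * γ 0 + (4738386430525440) * γ 1 + (2225847071145984) * γ 2 + (783075822796800) * γ 3
       + (244516997038080) * γ 4 + (71465887334400) * γ 5 + (20018597068800) * γ 6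
       + (5442078867456) * γ 7 + (1446520750080) * γ 8 + (377725593600) * γ 9
       + (97209062400) * γ 10 + (24710516160) * γ 11 + (6214279104) * γ 12 + (1547857740) * γ 13
       + (382174170) * γ 14 + (93591225) * γ 15 + (22741680) * γ 16 + (5484336) * γ 17
       + (1312740) * γ 18 := by
  have h1 := h 26 (by norm_num)
  rw [show 26 + 1 = 27 from rfl, c37_26, c37_27] at h1
  norm_num [h0] at h1 ⊢
  linarith

theorem q37_27 (γ : ℕ → ℝ) (h0 : γ 0 = 1)
    (h : ∀ n < 37, 2 * (((37 : ℕ) : ℝ) - ((n : ℕ) : ℝ)) * ∑ i ∈ range (37 / 2 + 1), γ i * (cfn 37 i n : ℝ) ≤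
      ((n : ℝ) + 1) * ∑ i ∈ range (37 / 2 + 1), γ i * (cfn 37 i (n + 1) : ℝ)) :
    0 ≤ (0) * γ 0 + (3158924287016960) * γ 1 + (1505134513225728) * γ 2 + (537344423755776) * γ 3
       + (170348343459840) * γ 4 + (50574694809600) * γ 5 + (14398449254400) * γ 6
       + (3980655788032) * γ 7 + (1076719386624) * γ 8 + (286315868160) * γ 9
       + (75092326400) * γ 10 + (19469197440) * γ 11 + (4998331008) * γ 12 + (1272218376) * γ 13
       + (321336540) * γ 14 + (80598000) * γ 15 + (20085520) * γ 16 + (4975152) * γ 17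
       + (1225224) * γ 18 := by
  have h1 := h 27 (by norm_num)
  rw [show 27 + 1 = 28 from rfl, c37_27, c37_28] at h1
  norm_num [h0] at h1 ⊢
  linarith

theorem q37_28 (γ : ℕ → ℝ) (h0 : γ 0 = 1)
    (h : ∀ n < 37, 2 * (((37 : ℕ) : ℝ) - ((n : ℕ) : ℝ)) * ∑ i ∈ range (37 / 2 + 1), γ i * (cfn 37 i n : ℝ) ≤
      ((n : ℝ) + 1) * ∑ i ∈ range (37 / 2 + 1), γ i * (cfn 37 i (n + 1) : ℝ)) :
    0 ≤ (0) * γ 0 + (1805099592581120) * γ 1 + (870695097597952) * γ 2 + (314791390347264) * γ 3
       + (101098966745088) * γ 4 + (30419347046400) * γ 5 + (8780513280000) * γ 6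
       + (2462282088448) * γ 7 + (675879059456) * γ 8 + (182479306752) * γ 9 + (48618291200) * γ 10
       + (12812673280) * γ 11 + (3345610752) * γ 12 + (866689824) * γ 13 + (222962208) * γ 14
       + (57004575) * γ 15 + (14493040) * γ 16 + (3665948) * γ 17 + (922896) * γ 18 := by
  have h1 := h 28 (by norm_num)
  rw [show 28 + 1 = 29 from rfl, c37_28, c37_29] at h1
  norm_num [h0] at h1 ⊢
  linarith

theorem q37_29 (γ : ℕ → ℝ) (h0 : γ 0 = 1)
    (h : ∀ n < 37, 2 * (((37 : ℕ) : ℝ) - ((n : ℕ) : ℝ)) * ∑ i ∈ range (37 / 2 + 1), γ i * (cfn 37 i n : ℝ) ≤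
      ((n : ℝ) + 1) * ∑ i ∈ range (37 / 2 + 1), γ i * (cfn 37 i (n + 1) : ℝ)) :
    0 ≤ (0) * γ 0 + (871427389521920) * γ 1 + (424729315901440) * γ 2 + (155201159823360) * γ 3
       + (50391844651008) * γ 4 + (15332970332160) * γ 5 + (4477000089600) * γ 6
       + (1270371450880) * γ 7 + (352963788800) * γ 8 + (96492552192) * γ 9 + (26041057280) * γ 10
       + (6954196480) * γ 11 + (1840819200) * γ 12 + (483637440) * γ 13 + (126244608) * γ 14
       + (32766930) * γ 15 + (8461840) * γ 16 + (2175320) * γ 17 + (556920) * γ 18 := by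
  have h1 := h 29 (by norm_num)
  rw [show 29 + 1 = 30 from rfl, c37_29, c37_30] at h1
  norm_num [h0] at h1 ⊢
  linarith

theorem q37_30 (γ : ℕ → ℝ) (h0 : γ 0 = 1)
    (h : ∀ n < 37, 2 * (((37 : ℕ) : ℝ) - ((n : ℕ) : ℝ)) * ∑ i ∈ range (37 / 2 + 1), γ i * (cfn 37 i n : ℝ) ≤
      ((n : ℝ) + 1) * ∑ i ∈ range (37 / 2 + 1), γ i * (cfn 37 i (n + 1) : ℝ)) :
    0 ≤ (0) * γ 0 + (348570955808768) * γ 1 + (171356310208512) * γ 2 + (63166419566592) * γ 3
       + (20693487976448) * γ 4 + (6354244730880) * γ 5 + (1872727375872) * γ 6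
       + (536484773888) * γ 7 + (150518366208) * γ 8 + (41560768512) * γ 9 + (11331338240) * γ 10
       + (3057804288) * γ 11 + (818138112) * γ 12 + (217323392) * γ 13 + (57371328) * γ 14
       + (15064140) * γ 15 + (3936752) * γ 16 + (1024488) * γ 17 + (265608) * γ 18 := by
  have h1 := h 30 (by norm_num)
  rw [show 30 + 1 = 31 from rfl, c37_30, c37_31] at h1
  norm_num [h0] at h1 ⊢
  linarith

theorem q37_31 (γ : ℕ → ℝ) (h0 : γ 0 = 1)
    (h : ∀ n < 37, 2 * (((37 : ℕ) : ℝ) - ((n : ℕ) : ℝ)) * ∑ i ∈ range (37 / 2 + 1), γ i * (cfn 37 i n : ℝ) ≤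
      ((n : ℝ) + 1) * ∑ i ∈ range (37 / 2 + 1), γ i * (cfn 37 i (n + 1) : ℝ)) :
    0 ≤ (0) * γ 0 + (112442243809280) * γ 1 + (55654186221568) * γ 2 + (20658121605120) * γ 3
       + (6815442010112) * γ 4 + (2107805532160) * γ 5 + (625748213760) * γ 6
       + (180590477312) * γ 7 + (51049922560) * γ 8 + (14204141568) * γ 9 + (3902996480) * γ 10
       + (1061632000) * γ 11 + (286353408) * γ 12 + (76693760) * γ 13 + (20417152) * γ 14
       + (5407080) * γ 15 + (1425440) * γ 16 + (374272) * γ 17 + (97920) * γ 18 := by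
  have h1 := h 31 (by norm_num)
  rw [show 31 + 1 = 32 from rfl, c37_31, c37_32] at h1
  norm_num [h0] at h1 ⊢
  linarith

theorem q37_32 (γ : ℕ → ℝ) (h0 : γ 0 = 1)
    (h : ∀ n < 37, 2 * (((37 : ℕ) : ℝ) - ((n : ℕ) : ℝ)) * ∑ i ∈ range (37 / 2 + 1), γ i * (cfn 37 i n : ℝ) ≤
      ((n : ℝ) + 1) * ∑ i ∈ range (37 / 2 + 1), γ i * (cfn 37 i (n + 1) : ℝ)) :
    0 ≤ (0) * γ 0 + (28110560952320) * γ 1 + (13984413515776) * γ 2 + (5217579958272) * γ 3
       + (1730334949376) * γ 4 + (537961431040) * γ 5 + (160557957120) * γ 6 + (46587183104) * γ 7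
       + (13241417728) * γ 8 + (3704684544) * γ 9 + (1023672320) * γ 10 + (280023040) * γ 11
       + (75964416) * γ 12 + (20463872) * γ 13 + (5479936) * γ 14 + (1459920) * γ 15
       + (387200) * γ 16 + (102289) * γ 17 + (26928) * γ 18 := by
  have h1 := h 32 (by norm_num)
  rw [show 32 + 1 = 33 from rfl, c37_32, c37_33] at h1
  norm_num [h0] at h1 ⊢
  linarith

theorem q37_33 (γ : ℕ → ℝ) (h0 : γ 0 = 1)
    (h : ∀ n < 37, 2 * (((37 : ℕ) : ℝ) - ((n : ℕ) : ℝ)) * ∑ i ∈ range (37 / 2 + 1), γ i * (cfn 37 i n : ℝ) ≤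
      ((n : ℝ) + 1) * ∑ i ∈ range (37 / 2 + 1), γ i * (cfn 37 i (n + 1) : ℝ)) :
    0 ≤ (0) * γ 0 + (5111011082240) * γ 1 + (2551210573824) * γ 2 + (955093352448) * γ 3
       + (317827579904) * γ 4 + (99153346560) * γ 5 + (29695672320) * γ 6 + (8646557696) * γ 7
       + (2466250752) * γ 8 + (692453376) * γ 9 + (192020480) * γ 10 + (52715520) * γ 11
       + (14352384) * γ 12 + (3880448) * γ 13 + (1042944) * γ 14 + (278880) * γ 15 + (74240) * γ 16
       + (19686) * γ 17 + (5202) * γ 18 := by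
  have h1 := h 33 (by norm_num)
  rw [show 33 + 1 = 34 from rfl, c37_33, c37_34] at h1
  norm_num [h0] at h1 ⊢
  linarith

theorem q37_34 (γ : ℕ → ℝ) (h0 : γ 0 = 1)
    (h : ∀ n < 37, 2 * (((37 : ℕ) : ℝ) - ((n : ℕ) : ℝ)) * ∑ i ∈ range (37 / 2 + 1), γ i * (cfn 37 i n : ℝ) ≤
      ((n : ℝ) + 1) * ∑ i ∈ range (37 / 2 + 1), γ i * (cfn 37 i (n + 1) : ℝ)) :
    0 ≤ (0) * γ 0 + (601295421440) * γ 1 + (300647710720) * γ 2 + (112742891520) * γ 3
       + (37580963840) * γ 4 + (11744051200) * γ 5 + (3523215360) * γ 6 + (1027604480) * γ 7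
       + (293601280) * γ 8 + (82575360) * γ 9 + (22937600) * γ 10 + (6307840) * γ 11
       + (1720320) * γ 12 + (465920) * γ 13 + (125440) * γ 14 + (33600) * γ 15 + (8960) * γ 16
       + (2380) * γ 17 + (630) * γ 18 := by
  have h1 := h 34 (by norm_num)
  rw [show 34 + 1 = 35 from rfl, c37_34, c37_35] at h1
  norm_num [h0] at h1 ⊢
  linarith

theorem m37_0 (γ : ℕ → ℝ) : Mat 37 γ 0 = (1) * γ 0 + (0) * γ 1 + (0) * γ 2 + (0) * γ 3 + (0) * γ 4 + (0) * γ 5 + (0) * γ 6 + (0) * γ 7
       + (0) * γ 8 + (0) * γ 9 + (0) * γ 10 + (0) * γ 11 + (0) * γ 12 + (0) * γ 13 + (0) * γ 14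
       + (0) * γ 15 + (0) * γ 16 + (0) * γ 17 + (0) * γ 18 := by
  unfold Mat
  rw [show (37 / 2 + 1 : ℕ) = 19 from rfl]
  simp [sum_range_succ, Nat.choose]
  try ring

theorem m37_1 (γ : ℕ → ℝ) : Mat 37 γ 1 = (2664) * γ 0 + (72) * γ 1 + (1) * γ 2 + (0) * γ 3 + (0) * γ 4 + (0) * γ 5 + (0) * γ 6
       + (0) * γ 7 + (0) * γ 8 + (0) * γ 9 + (0) * γ 10 + (0) * γ 11 + (0) * γ 12 + (0) * γ 13
       + (0) * γ 14 + (0) * γ 15 + (0) * γ 16 + (0) * γ 17 + (0) * γ 18 := by
  unfold Mat
  rw [show (37 / 2 + 1 : ℕ) = 19 from rfl]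
  simp [sum_range_succ, Nat.choose]
  try ring

theorem m37_2 (γ : ℕ → ℝ) : Mat 37 γ 2 = (1056720) * γ 0 + (57120) * γ 1 + (2380) * γ 2 + (68) * γ 3 + (1) * γ 4 + (0) * γ 5
       + (0) * γ 6 + (0) * γ 7 + (0) * γ 8 + (0) * γ 9 + (0) * γ 10 + (0) * γ 11 + (0) * γ 12
       + (0) * γ 13 + (0) * γ 14 + (0) * γ 15 + (0) * γ 16 + (0) * γ 17 + (0) * γ 18 := by
  unfold Mat
  rw [show (37 / 2 + 1 : ℕ) = 19 from rfl]
  simp [sum_range_succ, Nat.choose]
  try ring

theorem m37_3 (γ : ℕ → ℝ) : Mat 37 γ 3 = (148786176) * γ 0 + (12063744) * γ 1 + (837760) * γ 2 + (47872) * γ 3 + (2112) * γ 4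
       + (64) * γ 5 + (1) * γ 6 + (0) * γ 7 + (0) * γ 8 + (0) * γ 9 + (0) * γ 10 + (0) * γ 11
       + (0) * γ 12 + (0) * γ 13 + (0) * γ 14 + (0) * γ 15 + (0) * γ 16 + (0) * γ 17 + (0) * γ 18 := by
  unfold Mat
  rw [show (37 / 2 + 1 : ℕ) = 19 from rfl]
  simp [sum_range_succ, Nat.choose]
  try ring

theorem m37_4 (γ : ℕ → ℝ) : Mat 37 γ 4 = (9883653120) * γ 0 + (1068503040) * γ 1 + (103882240) * γ 2 + (8904192) * γ 3
       + (654720) * γ 4 + (39680) * γ 5 + (1860) * γ 6 + (60) * γ 7 + (1) * γ 8 + (0) * γ 9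
       + (0) * γ 10 + (0) * γ 11 + (0) * γ 12 + (0) * γ 13 + (0) * γ 14 + (0) * γ 15 + (0) * γ 16
       + (0) * γ 17 + (0) * γ 18 := by
  unfold Mat
  rw [show (37 / 2 + 1 : ℕ) = 19 from rfl]
  simp [sum_range_succ, Nat.choose]
  try ring

theorem m37_5 (γ : ℕ → ℝ) : Mat 37 γ 5 = (356690059264) * γ 0 + (48201359360) * γ 1 + (6025169920) * γ 2 + (688590848) * γ 3
       + (70884352) * γ 4 + (6444032) * γ 5 + (503440) * γ 6 + (32480) * γ 7 + (1624) * γ 8
       + (56) * γ 9 + (1) * γ 10 + (0) * γ 11 + (0) * γ 12 + (0) * γ 13 + (0) * γ 14 + (0) * γ 15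
       + (0) * γ 16 + (0) * γ 17 + (0) * γ 18 := by
  unfold Mat
  rw [show (37 / 2 + 1 : ℕ) = 19 from rfl]
  simp [sum_range_succ, Nat.choose]
  try ring

theorem m37_6 (γ : ℕ → ℝ) : Mat 37 γ 6 = (7587770351616) * γ 0 + (1230449246208) * γ 1 + (187985301504) * γ 2 + (26855043072) * γ 3
       + (3554343936) * γ 4 + (430829568) * γ 5 + (47121984) * γ 6 + (4560192) * γ 7
       + (380016) * γ 8 + (26208) * γ 9 + (1404) * γ 10 + (52) * γ 11 + (1) * γ 12 + (0) * γ 13
       + (0) * γ 14 + (0) * γ 15 + (0) * γ 16 + (0) * γ 17 + (0) * γ 18 := by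
  unfold Mat
  rw [show (37 / 2 + 1 : ℕ) = 19 from rfl]
  simp [sum_range_succ, Nat.choose]
  try ring

theorem m37_7 (γ : ℕ → ℝ) : Mat 37 γ 7 = (100058510131200) * γ 0 + (18929988403200) * γ 1 + (3417914572800) * γ 2
       + (585928212480) * γ 3 + (94782504960) * γ 4 + (14360985600) * γ 5 + (2019513600) * γ 6
       + (260582400) * γ 7 + (30401280) * γ 8 + (3144960) * γ 9 + (280800) * γ 10 + (20800) * γ 11
       + (1200) * γ 12 + (48) * γ 13 + (1) * γ 14 + (0) * γ 15 + (0) * γ 16 + (0) * γ 17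
       + (0) * γ 18 := by
  unfold Mat
  rw [show (37 / 2 + 1 : ℕ) = 19 from rfl]
  simp [sum_range_succ, Nat.choose]
  try ring

theorem m37_8 (γ : ℕ → ℝ) : Mat 37 γ 8 = (843826768773120) * γ 0 + (182449031086080) * γ 1 + (38010214809600) * γ 2
       + (7602042961920) * γ 3 + (1453331742720) * γ 4 + (264242135040) * γ 5 + (45416616960) * γ 6
       + (7325260800) * γ 7 + (1098789120) * γ 8 + (151557120) * γ 9 + (18944640) * γ 10
       + (2104960) * γ 11 + (202400) * γ 12 + (16192) * γ 13 + (1012) * γ 14 + (44) * γ 15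
       + (1) * γ 16 + (0) * γ 17 + (0) * γ 18 := by
  unfold Mat
  rw [show (37 / 2 + 1 : ℕ) = 19 from rfl]
  simp [sum_range_succ, Nat.choose]
  try ring

theorem m37_9 (γ : ℕ → ℝ) : Mat 37 γ 9 = (4632774416793600) * γ 0 + (1126891074355200) * γ 1 + (266071503667200) * γ 2
       + (60816343695360) * γ 3 + (13415369932800) * γ 4 + (2845684531200) * γ 5
       + (578029670400) * γ 6 + (111876710400) * γ 7 + (20510730240) * γ 8 + (3536332800) * γ 9
       + (568339200) * γ 10 + (84198400) * γ 11 + (11334400) * γ 12 + (1360128) * γ 13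
       + (141680) * γ 14 + (12320) * γ 15 + (840) * γ 16 + (40) * γ 17 + (1) * γ 18 := by
  unfold Mat
  rw [show (37 / 2 + 1 : ℕ) = 19 from rfl]
  simp [sum_range_succ, Nat.choose]
  try ring

theorem m37_10 (γ : ℕ → ℝ) : Mat 37 γ 10 = (16677987900456960) * γ 0 + (4507564297420800) * γ 1 + (1189496134041600) * γ 2
       + (305870434467840) * γ 3 + (76467608616960) * γ 4 + (18537602088960) * γ 5
       + (4344750489600) * γ 6 + (981072691200) * γ 7 + (212565749760) * γ 8 + (43979120640) * γ 9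
       + (8638755840) * γ 10 + (1599769600) * γ 11 + (276883200) * γ 12 + (44301312) * γ 13
       + (6460608) * γ 14 + (842688) * γ 15 + (95760) * γ 16 + (9120) * γ 17 + (684) * γ 18 := by
  unfold Mat
  rw [show (37 / 2 + 1 : ℕ) = 19 from rfl]
  simp [sum_range_succ, Nat.choose]
  try ring

theorem m37_11 (γ : ℕ → ℝ) : Mat 37 γ 11 = (39276300510167040) * γ 0 + (11676737989509120) * γ 1 + (3405715246940160) * γ 2
       + (973061499125760) * γ 3 + (271884830638080) * γ 4 + (74150408355840) * γ 5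
       + (19696202219520) * γ 6 + (5082890895360) * γ 7 + (1270722723840) * γ 8
       + (306726174720) * γ 9 + (71204290560) * γ 10 + (15823175680) * γ 11 + (3347210240) * γ 12
       + (669442048) * γ 13 + (125520384) * γ 14 + (21829632) * γ 15 + (3472896) * γ 16
       + (496128) * γ 17 + (62016) * γ 18 := by
  unfold Mat
  rw [show (37 / 2 + 1 : ℕ) = 19 from rfl]
  simp [sum_range_succ, Nat.choose]
  try ring

theorem m37_12 (γ : ℕ → ℝ) : Mat 37 γ 12 = (59768283385036800) * γ 0 + (19384308124876800) * γ 1 + (6192209539891200) * γ 2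
       + (1946122998251520) * γ 3 + (601008572989440) * γ 4 + (182123809996800) * γ 5
       + (54068006092800) * γ 6 + (15697163059200) * γ 7 + (4447529533440) * γ 8
       + (1226904698880) * γ 9 + (328635187200) * γ 10 + (85201715200) * γ 11
       + (21300428800) * γ 12 + (5112102912) * γ 13 + (1171523584) * γ 14 + (254679040) * γ 15
       + (52093440) * γ 16 + (9922560) * γ 17 + (1736448) * γ 18 := by
  unfold Mat
  rw [show (37 / 2 + 1 : ℕ) = 19 from rfl]
  simp [sum_range_succ, Nat.choose]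
  try ring

theorem m37_13 (γ : ℕ → ℝ) : Mat 37 γ 13 = (57377552049635328) * γ 0 + (20159680449871872) * γ 1 + (6999889045094400) * γ 2
       + (2399961958318080) * γ 3 + (811751838842880) * γ 4 + (270583946280960) * γ 5
       + (88785357373440) * γ 6 + (28640437862400) * γ 7 + (9069471989760) * γ 8
       + (2814663720960) * γ 9 + (854451486720) * γ 10 + (253170810880) * γ 11
       + (73030041600) * γ 12 + (20448411648) * γ 13 + (5538111488) * γ 14 + (1444724736) * γ 15
       + (361181184) * γ 16 + (85995520) * γ 17 + (19348992) * γ 18 := by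
  unfold Mat
  rw [show (37 / 2 + 1 : ℕ) = 19 from rfl]
  simp [sum_range_succ, Nat.choose]
  try ring

theorem m37_14 (γ : ℕ → ℝ) : Mat 37 γ 14 = (33394342462750720) * γ 0 + (12635697148067840) * γ 1 + (4738386430525440) * γ 2
       + (1759972102766592) * γ 3 + (647048567193600) * γ 4 + (235290388070400) * γ 5
       + (84557483212800) * γ 6 + (30004268236800) * γ 7 + (10501493882880) * γ 8
       + (3621204787200) * γ 9 + (1228623052800) * γ 10 + (409541017600) * γ 11
       + (133888409600) * γ 12 + (42844291072) * γ 13 + (13388840960) * γ 14 + (4074864640) * γ 15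
       + (1203937280) * γ 16 + (343982080) * γ 17 + (94595072) * γ 18 := by
  unfold Mat
  rw [show (37 / 2 + 1 : ℕ) = 19 from rfl]
  simp [sum_range_succ, Nat.choose]
  try ring

theorem m37_15 (γ : ℕ → ℝ) : Mat 37 γ 15 = (11054678884220928) * γ 0 + (4481626574684160) * γ 1 + (1805099592581120) * γ 2
       + (722039837032448) * γ 3 + (286692288233472) * γ 4 + (112939386273792) * γ 5
       + (44116947763200) * γ 6 + (17077528166400) * γ 7 + (6546385797120) * γ 8
       + (2483111854080) * γ 9 + (931166945280) * γ 10 + (344876646400) * γ 11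
       + (126012620800) * γ 12 + (45364543488) * γ 13 + (16066609152) * γ 14 + (5588385792) * γ 15
       + (1905131520) * γ 16 + (635043840) * γ 17 + (206389248) * γ 18 := by
  unfold Mat
  rw [show (37 / 2 + 1 : ℕ) = 19 from rfl]
  simp [sum_range_succ, Nat.choose]
  try ring

theorem m37_16 (γ : ℕ → ℝ) : Mat 37 γ 16 = (1872163359424512) * γ 0 + (809584155426816) * γ 1 + (348570955808768) * γ 2
       + (149387552489472) * γ 3 + (63709397385216) * γ 4 + (27028229193728) * γ 5
       + (11402534191104) * γ 6 + (4781707886592) * γ 7 + (1992378286080) * γ 8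
       + (824432394240) * γ 9 + (338606161920) * γ 10 + (137950658560) * γ 11
       + (55710842880) * γ 12 + (22284337152) * γ 13 + (8820883456) * γ 14 + (3451650048) * γ 15
       + (1333592064) * γ 16 + (508035072) * γ 17 + (190513152) * γ 18 := by
  unfold Mat
  rw [show (37 / 2 + 1 : ℕ) = 19 from rfl]
  simp [sum_range_succ, Nat.choose]
  try ring

theorem m37_17 (γ : ℕ → ℝ) : Mat 37 γ 17 = (133487583559680) * γ 0 + (61332132986880) * γ 1 + (28110560952320) * γ 2
       + (12850542149632) * γ 3 + (5858335391744) * γ 4 + (2662879723520) * γ 5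
       + (1206617374720) * γ 6 + (544923975680) * γ 7 + (245215789056) * γ 8 + (109924319232) * γ 9
       + (49073356800) * γ 10 + (21810380800) * γ 11 + (9646899200) * γ 12 + (4244635648) * γ 13
       + (1857028096) * γ 14 + (807403520) * γ 15 + (348651520) * γ 16 + (149422080) * γ 17
       + (63504384) * γ 18 := by
  unfold Mat
  rw [show (37 / 2 + 1 : ℕ) = 19 from rfl]
  simp [sum_range_succ, Nat.choose]
  try ring

theorem m37_18 (γ : ℕ → ℝ) : Mat 37 γ 18 = (2542620639232) * γ 0 + (1236950581248) * γ 1 + (601295421440) * γ 2 + (292057776128) * γ 3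
       + (141733920768) * γ 4 + (68719476736) * γ 5 + (33285996544) * γ 6 + (16106127360) * γ 7
       + (7784628224) * γ 8 + (3758096384) * γ 9 + (1811939328) * γ 10 + (872415232) * γ 11
       + (419430400) * γ 12 + (201326592) * γ 13 + (96468992) * γ 14 + (46137344) * γ 15
       + (22020096) * γ 16 + (10485760) * γ 17 + (4980736) * γ 18 := by
  unfold Mat
  rw [show (37 / 2 + 1 : ℕ) = 19 from rfl]
  simp [sum_range_succ, Nat.choose]
  try ring

theorem mm37_0 (γ : ℕ → ℝ) : Mat 37 (Mat 37 γ) 0 =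
      (1) * γ 0 + (0) * γ 1 + (0) * γ 2 + (0) * γ 3 + (0) * γ 4 + (0) * γ 5 + (0) * γ 6 + (0) * γ 7
       + (0) * γ 8 + (0) * γ 9 + (0) * γ 10 + (0) * γ 11 + (0) * γ 12 + (0) * γ 13 + (0) * γ 14
       + (0) * γ 15 + (0) * γ 16 + (0) * γ 17 + (0) * γ 18 := by
  rw [m37_0]
  simp only [m37_0, m37_1, m37_2, m37_3, m37_4, m37_5, m37_6, m37_7, m37_8, m37_9, m37_10, m37_11, m37_12, m37_13, m37_14, m37_15, m37_16, m37_17, m37_18]
  ring

theorem mm37_1 (γ : ℕ → ℝ) : Mat 37 (Mat 37 γ) 1 =
      (1251192) * γ 0 + (62304) * γ 1 + (2452) * γ 2 + (68) * γ 3 + (1) * γ 4 + (0) * γ 5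
       + (0) * γ 6 + (0) * γ 7 + (0) * γ 8 + (0) * γ 9 + (0) * γ 10 + (0) * γ 11 + (0) * γ 12
       + (0) * γ 13 + (0) * γ 14 + (0) * γ 15 + (0) * γ 16 + (0) * γ 17 + (0) * γ 18 := by
  rw [m37_1]
  simp only [m37_0, m37_1, m37_2, m37_3, m37_4, m37_5, m37_6, m37_7, m37_8, m37_9, m37_10, m37_11, m37_12, m37_13, m37_14, m37_15, m37_16, m37_17, m37_18]
  ring

theorem mm37_2 (γ : ℕ → ℝ) : Mat 37 (Mat 37 γ) 2 =
      (22669331088) * γ 0 + (2028895872) * γ 1 + (166571440) * γ 2 + (12321328) * γ 3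
       + (800716) * γ 4 + (44032) * γ 5 + (1928) * γ 6 + (60) * γ 7 + (1) * γ 8 + (0) * γ 9
       + (0) * γ 10 + (0) * γ 11 + (0) * γ 12 + (0) * γ 13 + (0) * γ 14 + (0) * γ 15 + (0) * γ 16
       + (0) * γ 17 + (0) * γ 18 := by
  rw [m37_2]
  simp only [m37_0, m37_1, m37_2, m37_3, m37_4, m37_5, m37_6, m37_7, m37_8, m37_9, m37_10, m37_11, m37_12, m37_13, m37_14, m37_15, m37_16, m37_17, m37_18]
  ring

theorem mm37_3 (γ : ℕ → ℝ) : Mat 37 (Mat 37 γ) 3 =
      (59330465698816) * γ 0 + (7198251659264) * γ 1 + (835106646528) * γ 2 + (92079206912) * γ 3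
       + (9575654528) * γ 4 + (930115584) * γ 5 + (83318336) * γ 6 + (6765632) * γ 7
       + (486064) * γ 8 + (29792) * γ 9 + (1468) * γ 10 + (52) * γ 11 + (1) * γ 12 + (0) * γ 13
       + (0) * γ 14 + (0) * γ 15 + (0) * γ 16 + (0) * γ 17 + (0) * γ 18 := by
  rw [m37_3]
  simp only [m37_0, m37_1, m37_2, m37_3, m37_4, m37_5, m37_6, m37_7, m37_8, m37_9, m37_10, m37_11, m37_12, m37_13, m37_14, m37_15, m37_16, m37_17, m37_18]
  ring

theorem mm37_4 (γ : ℕ → ℝ) : Mat 37 (Mat 37 γ) 4 =
      (43022528647427072) * γ 0 + (6332512761561088) * γ 1 + (907538156697600) * γ 2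
       + (126294478731264) * γ 3 + (17011620662784) * γ 4 + (2209492615168) * γ 5
       + (275437505792) * γ 6 + (32770251520) * γ 7 + (3694790720) * γ 8 + (391223680) * γ 9
       + (38443760) * γ 10 + (3449680) * γ 11 + (276260) * γ 12 + (19072) * γ 13 + (1072) * γ 14
       + (44) * γ 15 + (1) * γ 16 + (0) * γ 17 + (0) * γ 18 := by
  rw [m37_4]
  simp only [m37_0, m37_1, m37_2, m37_3, m37_4, m37_5, m37_6, m37_7, m37_8, m37_9, m37_10, m37_11, m37_12, m37_13, m37_14, m37_15, m37_16, m37_17, m37_18]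
  ring

theorem mm37_5 (γ : ℕ → ℝ) : Mat 37 (Mat 37 γ) 5 =
      (11824442527162245120) * γ 0 + (1993219942466486272) * γ 1 + (330252549715128320) * γ 2
       + (53709997949136896) * γ 3 + (8560524511841280) * γ 4 + (1334749122461696) * γ 5
       + (203164608283648) * γ 6 + (30115446645760) * γ 7 + (4334884995840) * γ 8
       + (603845842432) * γ 9 + (81065504192) * γ 10 + (10435097920) * γ 11 + (1279786640) * γ 12
       + (148323328) * γ 13 + (16070656) * γ 14 + (1604064) * γ 15 + (144424) * γ 16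
       + (11360) * γ 17 + (740) * γ 18 := by
  rw [m37_5]
  simp only [m37_0, m37_1, m37_2, m37_3, m37_4, m37_5, m37_6, m37_7, m37_8, m37_9, m37_10, m37_11, m37_12, m37_13, m37_14, m37_15, m37_16, m37_17, m37_18]
  ring

theorem mm37_6 (γ : ℕ → ℝ) : Mat 37 (Mat 37 γ) 6 =
      (1474438385908877377536) * γ 0 + (275027095408458203136) * γ 1 + (50703622074955874304) * γ 2
       + (9231780407849533440) * γ 3 + (1658616112594096128) * γ 4 + (293770108028583936) * γ 5
       + (51239728832606208) * γ 6 + (8790612357685248) * γ 7 + (1481316091471872) * γ 8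
       + (244798412544000) * γ 9 + (39601463572224) * γ 10 + (6257975852288) * γ 11
       + (963585920064) * γ 12 + (144140474368) * γ 13 + (20871563008) * γ 14 + (2912557120) * γ 15
       + (389525808) * γ 16 + (49574016) * γ 17 + (5947824) * γ 18 := by
  rw [m37_6]
  simp only [m37_0, m37_1, m37_2, m37_3, m37_4, m37_5, m37_6, m37_7, m37_8, m37_9, m37_10, m37_11, m37_12, m37_13, m37_14, m37_15, m37_16, m37_17, m37_18]
  ring

theorem mm37_7 (γ : ℕ → ℝ) : Mat 37 (Mat 37 γ) 7 =
      (93345090269949631135744) * γ 0 + (18842043409446984482816) * γ 1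
       + (3772124069079009853440) * γ 2 + (748634999246549286912) * γ 3
       + (147220042065113088000) * γ 4 + (28670949596410675200) * γ 5 + (5526338250914611200) * γ 6
       + (1053580455777484800) * γ 7 + (198525291660472320) * γ 8 + (36942660708065280) * γ 9
       + (6782783054146560) * γ 10 + (1227460363043840) * γ 11 + (218684792608000) * γ 12
       + (38305408188416) * γ 13 + (6586613817344) * γ 14 + (1109803199488) * γ 15
       + (182850574592) * γ 16 + (29384995840) * γ 17 + (4592229248) * γ 18 := by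
  rw [m37_7]
  simp only [m37_0, m37_1, m37_2, m37_3, m37_4, m37_5, m37_6, m37_7, m37_8, m37_9, m37_10, m37_11, m37_12, m37_13, m37_14, m37_15, m37_16, m37_17, m37_18]
  ring

theorem mm37_8 (γ : ℕ → ℝ) : Mat 37 (Mat 37 γ) 8 =
      (3228365623539892157808640) * γ 0 + (694430977194256530145280) * γ 1
       + (148489542658049872232448) * γ 2 + (31554625427905163296768) * γ 3
       + (6661944556269616103424) * γ 4 + (1396913967089724686336) * γ 5
       + (290815075869964959744) * γ 6 + (60086564462334246912) * γ 7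
       + (12316024186322042880) * γ 8 + (2503218680908185600) * γ 9 + (504248998791720960) * γ 10
       + (100616649240842240) * γ 11 + (19875040440611840) * γ 12 + (3883868486795264) * γ 13
       + (750255926210560) * γ 14 + (143143577668608) * γ 15 + (26948354554112) * γ 16
       + (5000492429312) * γ 17 + (913408696832) * γ 18 := by
  rw [m37_8]
  simp only [m37_0, m37_1, m37_2, m37_3, m37_4, m37_5, m37_6, m37_7, m37_8, m37_9, m37_10, m37_11, m37_12, m37_13, m37_14, m37_15, m37_16, m37_17, m37_18]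
  ring

theorem mm37_9 (γ : ℕ → ℝ) : Mat 37 (Mat 37 γ) 9 =
      (63973765243250358868770816) * γ 0 + (14502498420585148966764544) * γ 1
       + (3273364352094107858370560) * γ 2 + (735496056641177209274368) * γ 3
       + (164482430525433212960768) * γ 4 + (36603687456005859311616) * γ 5
       + (8104067190245152784384) * γ 6 + (1784653363472625827840) * γ 7
       + (390813402299058028544) * γ 8 + (85081137119170002944) * γ 9
       + (18408540998367756288) * γ 10 + (3957227206217449472) * γ 11 + (844888488799948800) * γ 12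
       + (179094502288654336) * γ 13 + (37675741593337856) * γ 14 + (7862174943158272) * γ 15
       + (1626707245979648) * γ 16 + (333520927334400) * γ 17 + (67720151862272) * γ 18 := by
  rw [m37_9]
  simp only [m37_0, m37_1, m37_2, m37_3, m37_4, m37_5, m37_6, m37_7, m37_8, m37_9, m37_10, m37_11, m37_12, m37_13, m37_14, m37_15, m37_16, m37_17, m37_18]
  ring

theorem mm37_10 (γ : ℕ → ℝ) : Mat 37 (Mat 37 γ) 10 =
      (747886466722885096395767808) * γ 0 + (177204401331543267833020416) * γ 1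
       + (41852044440580735232901120) * γ 2 + (9851738137928763873165312) * γ 3
       + (2311057736294221805518848) * γ 4 + (540200598072922315161600) * γ 5
       + (125801778938241305542656) * γ 6 + (29183899967796750581760) * γ 7
       + (6743074475923613024256) * γ 8 + (1551527315188905148416) * γ 9
       + (355444298532057710592) * γ 10 + (81061140314547355648) * γ 11
       + (18399043968773734400) * γ 12 + (4155515444932378624) * γ 13 + (933684054382018560) * γ 14
       + (208646175870173184) * γ 15 + (46359332250857472) * γ 16 + (10238836178780160) * γ 17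
       + (2247032737763328) * γ 18 := by
  rw [m37_10]
  simp only [m37_0, m37_1, m37_2, m37_3, m37_4, m37_5, m37_6, m37_7, m37_8, m37_9, m37_10, m37_11, m37_12, m37_13, m37_14, m37_15, m37_16, m37_17, m37_18]
  ring

theorem mm37_11 (γ : ℕ → ℝ) : Mat 37 (Mat 37 γ) 11 =
      (5232511725751261515359453184) * γ 0 + (1287606754443687915285381120) * γ 1
       + (316097357252338897574166528) * γ 2 + (77408859811633285488967680) * γ 3
       + (18908565620470323641057280) * γ 4 + (4606687177056803805462528) * γ 5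
       + (1119291609621268537540608) * γ 6 + (271195345892761845891072) * γ 7
       + (65518428894615837868032) * γ 8 + (15781283568904694661120) * γ 9
       + (3789408865445309841408) * γ 10 + (906986248931215409152) * γ 11
       + (216359855895863296000) * γ 12 + (51433091502740340736) * γ 13
       + (12182544489763569664) * γ 14 + (2874737296373448704) * γ 15 + (675700012035735552) * γ 16
       + (158172555981094912) * γ 17 + (36868044528353280) * γ 18 := by
  rw [m37_11]
  simp only [m37_0, m37_1, m37_2, m37_3, m37_4, m37_5, m37_6, m37_7, m37_8, m37_9, m37_10, m37_11, m37_12, m37_13, m37_14, m37_15, m37_16, m37_17, m37_18]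
  ring

theorem mm37_12 (γ : ℕ → ℝ) : Mat 37 (Mat 37 γ) 12 =
      (21924833975578496094145871872) * γ 0 + (5575317043531421014292430848) * γ 1
       + (1415266117498152915933593600) * γ 2 + (358608482085264653834780672) * γ 3
       + (90697340744284871300481024) * γ 4 + (22894791438344481436336128) * γ 5
       + (5767962774255299746332672) * γ 6 + (1450194018637523252674560) * γ 7
       + (363848577735537765384192) * γ 8 + (91091489903657795715072) * γ 9
       + (22754518730796652560384) * γ 10 + (5670989262528940343296) * γ 11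
       + (1409997092968484044800) * γ 12 + (349712295643672739840) * γ 13
       + (86516705828061315072) * γ 14 + (21347469168392536064) * γ 15
       + (5253016975379726336) * γ 16 + (1288971543453368320) * γ 17 + (315357641906585600) * γ 18 := by
  rw [m37_12]
  simp only [m37_0, m37_1, m37_2, m37_3, m37_4, m37_5, m37_6, m37_7, m37_8, m37_9, m37_10, m37_11, m37_12, m37_13, m37_14, m37_15, m37_16, m37_17, m37_18]
  ring

theorem mm37_13 (γ : ℕ → ℝ) : Mat 37 (Mat 37 γ) 13 =
      (54270974685142498126289960960) * γ 0 + (14204208896282024752992747520) * γ 1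
       + (3712858241832823597316440064) * γ 2 + (969231519172621745162027008) * γ 3
       + (252673626903091322323730432) * γ 4 + (65779459096310748456943616) * γ 5
       + (17100263785242607268921344) * γ 6 + (4438956584340609227030528) * γ 7
       + (1150554735376793755189248) * γ 8 + (297758332898575455879168) * γ 9
       + (76936416330530911420416) * γ 10 + (19846852183746364309504) * γ 11
       + (5111193293619341557760) * γ 12 + (1314021002942328340480) * γ 13
       + (337216582948292132864) * γ 14 + (86381015079111884800) * γ 15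
       + (22085405587566755840) * γ 16 + (5635646954770792448) * γ 17
       + (1435177860888002560) * γ 18 := by
  rw [m37_13]
  simp only [m37_0, m37_1, m37_2, m37_3, m37_4, m37_5, m37_6, m37_7, m37_8, m37_9, m37_10, m37_11, m37_12, m37_13, m37_14, m37_15, m37_16, m37_17, m37_18]
  ring

theorem mm37_14 (γ : ℕ → ℝ) : Mat 37 (Mat 37 γ) 14 =
      (76903294955173378227722780672) * γ 0 + (20648466304888818426443726848) * γ 1
       + (5539016651020966660910612480) * γ 2 + (1484466797256147819015700480) * γ 3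
       + (397458552393189415379271680) * γ 4 + (106313151007652714349854720) * γ 5
       + (28408336113674536259420160) * γ 6 + (7583291647586856316436480) * γ 7
       + (2022143429514907434876928) * γ 8 + (538638066747676586672128) * γ 9
       + (143318156998524908077056) * γ 10 + (38090106744259177611264) * γ 11
       + (10111537033343873843200) * γ 12 + (2681037243115299143680) * γ 13
       + (709995017662743183360) * γ 14 + (187784626781972070400) * γ 15
       + (49602310131034357760) * γ 16 + (13084739356244049920) * γ 17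
       + (3446934233951502336) * γ 18 := by
  rw [m37_14]
  simp only [m37_0, m37_1, m37_2, m37_3, m37_4, m37_5, m37_6, m37_7, m37_8, m37_9, m37_10, m37_11, m37_12, m37_13, m37_14, m37_15, m37_16, m37_17, m37_18]
  ring

theorem mm37_15 (γ : ℕ → ℝ) : Mat 37 (Mat 37 γ) 15 =
      (58926339217932464940908544000) * γ 0 + (16187069103286944426614587392) * γ 1
       + (4443802478643603335135887360) * γ 2 + (1219167522231539749103861760) * γ 3
       + (334262989956556591651094528) * γ 4 + (91584807583621730803908608) * γ 5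
       + (25076249167827131810447360) * γ 6 + (6861187035241628093644800) * γ 7
       + (1875973962128354445361152) * γ 8 + (512552444745737991880704) * γ 9
       + (139935083309108671021056) * γ 10 + (38175461421766752075776) * γ 11
       + (10406475729221556633600) * γ 12 + (2834502083620089364480) * γ 13
       + (771427892135150485504) * γ 14 + (209773564338167087104) * γ 15
       + (56994653688928665600) * γ 16 + (15471632781221560320) * γ 17
       + (4196113263554985984) * γ 18 := by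
  rw [m37_15]
  simp only [m37_0, m37_1, m37_2, m37_3, m37_4, m37_5, m37_6, m37_7, m37_8, m37_9, m37_10, m37_11, m37_12, m37_13, m37_14, m37_15, m37_16, m37_17, m37_18]
  ring

theorem mm37_16 (γ : ℕ → ℝ) : Mat 37 (Mat 37 γ) 16 =
      (22085007434403463574486777856) * γ 0 + (6192775672177925159676542976) * γ 1
       + (1735804321017920552502820864) * γ 2 + (486340594476937436312109056) * γ 3
       + (136207568630566611652182016) * γ 4 + (38131109798494184402845696) * γ 5
       + (10670175255778009706135552) * γ 6 + (2984515707254035380699136) * γ 7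
       + (834415928772749711900672) * γ 8 + (233181330766519034970112) * γ 9
       + (65133345765822782504960) * γ 10 + (18184745870880640335872) * γ 11
       + (5074590513242124058624) * γ 12 + (1415403375139116548096) * γ 13
       + (394584750024959197184) * γ 14 + (109945243586346876928) * γ 15
       + (30618488308892696576) * γ 16 + (8522305404254814208) * γ 17
       + (2370779763062079488) * γ 18 := by
  rw [m37_16]
  simp only [m37_0, m37_1, m37_2, m37_3, m37_4, m37_5, m37_6, m37_7, m37_8, m37_9, m37_10, m37_11, m37_12, m37_13, m37_14, m37_15, m37_16, m37_17, m37_18]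
  ring

theorem mm37_17 (γ : ℕ → ℝ) : Mat 37 (Mat 37 γ) 17 =
      (3347677692258291507039043584) * γ 0 + (956366183317018518975676416) * γ 1
       + (273157070638136697448038400) * γ 2 + (78002177978219391128436736) * γ 3
       + (22269240229740812745834496) * γ 4 + (6356334678220417072627712) * γ 5
       + (1813882060958383428599808) * γ 6 + (517500138856217376194560) * γ 7
       + (147607757199763308544000) * γ 8 + (42092360052895117213696) * γ 9
       + (12000263999707469053952) * γ 10 + (3420343632776426160128) * γ 11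
       + (974626075931333099520) * γ 12 + (277647346232062902272) * γ 13
       + (79074061494113009664) * γ 14 + (22514241672019181568) * γ 15
       + (6408568482396372992) * γ 16 + (1823655341116620800) * γ 17 + (518800096209403904) * γ 18 := by
  rw [m37_17]
  simp only [m37_0, m37_1, m37_2, m37_3, m37_4, m37_5, m37_6, m37_7, m37_8, m37_9, m37_10, m37_11, m37_12, m37_13, m37_14, m37_15, m37_16, m37_17, m37_18]
  ring

theorem mm37_18 (γ : ℕ → ℝ) : Mat 37 (Mat 37 γ) 18 =
      (130748565272863315268206592) * γ 0 + (37992220742345193462693888) * γ 1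
       + (11038874006605597656481792) * γ 2 + (3207205404720931824205824) * γ 3
       + (931751752330297122750464) * γ 4 + (270672813341426317262848) * γ 5
       + (78624799504683889590272) * γ 6 + (22837284791965261496320) * γ 7
       + (6632830244719951872000) * γ 8 + (1926292693064699871232) * γ 9
       + (559389256418590720000) * γ 10 + (162432851799451893760) * γ 11
       + (47162950054265749504) * γ 12 + (13692880790810001408) * γ 13
       + (3975162386167365632) * γ 14 + (1153932749287981056) * γ 15 + (334943134368661504) * γ 16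
       + (97213365666971648) * γ 17 + (28212692858699776) * γ 18 := by
  rw [m37_18]
  simp only [m37_0, m37_1, m37_2, m37_3, m37_4, m37_5, m37_6, m37_7, m37_8, m37_9, m37_10, m37_11, m37_12, m37_13, m37_14, m37_15, m37_16, m37_17, m37_18]
  ring

theorem p37_0 (γ : ℕ → ℝ) (h0 : γ 0 = 1)
    (h : ∀ n < 37, 2 * (((37 : ℕ) : ℝ) - ((n : ℕ) : ℝ)) * ∑ i ∈ range (37 / 2 + 1), γ i * (cfn 37 i n : ℝ) ≤
      ((n : ℝ) + 1) * ∑ i ∈ range (37 / 2 + 1), γ i * (cfn 37 i (n + 1) : ℝ)) :
    0 < Mat 37 (Mat 37 (Mat 37 γ)) 0 := by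

  rw [m37_0]
  simp only [mm37_0, mm37_1, mm37_2, mm37_3, mm37_4, mm37_5, mm37_6, mm37_7, mm37_8, mm37_9, mm37_10, mm37_11, mm37_12, mm37_13, mm37_14, mm37_15, mm37_16, mm37_17, mm37_18]
  linarith only [h0]

theorem p37_1 (γ : ℕ → ℝ) (h0 : γ 0 = 1)
    (h : ∀ n < 37, 2 * (((37 : ℕ) : ℝ) - ((n : ℕ) : ℝ)) * ∑ i ∈ range (37 / 2 + 1), γ i * (cfn 37 i n : ℝ) ≤
      ((n : ℝ) + 1) * ∑ i ∈ range (37 / 2 + 1), γ i * (cfn 37 i (n + 1) : ℝ)) :
    0 < Mat 37 (Mat 37 (Mat 37 γ)) 1 := by
  have k0 := q37_0 γ h0 h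
  have k7 := q37_7 γ h0 h
  have k1 := q37_1 γ h0 h
  have k6 := q37_6 γ h0 h
  have k2 := q37_2 γ h0 h
  have k4 := q37_4 γ h0 h
  have k5 := q37_5 γ h0 h
  have k3 := q37_3 γ h0 h
  rw [m37_1]
  simp only [mm37_0, mm37_1, mm37_2, mm37_3, mm37_4, mm37_5, mm37_6, mm37_7, mm37_8, mm37_9, mm37_10, mm37_11, mm37_12, mm37_13, mm37_14, mm37_15, mm37_16, mm37_17, mm37_18]
  linarith only [h0, k0, k7, k1, k6, k2, k4, k5, k3]

theorem p37_2 (γ : ℕ → ℝ) (h0 : γ 0 = 1)
    (h : ∀ n < 37, 2 * (((37 : ℕ) : ℝ) - ((n : ℕ) : ℝ)) * ∑ i ∈ range (37 / 2 + 1), γ i * (cfn 37 i n : ℝ) ≤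
      ((n : ℝ) + 1) * ∑ i ∈ range (37 / 2 + 1), γ i * (cfn 37 i (n + 1) : ℝ)) :
    0 < Mat 37 (Mat 37 (Mat 37 γ)) 2 := by
  have k1 := q37_1 γ h0 h
  have k0 := q37_0 γ h0 h
  have k10 := q37_10 γ h0 h
  have k2 := q37_2 γ h0 h
  have k15 := q37_15 γ h0 h
  have k6 := q37_6 γ h0 h
  have k4 := q37_4 γ h0 h
  have k3 := q37_3 γ h0 h
  have k8 := q37_8 γ h0 h
  have k14 := q37_14 γ h0 h
  have k5 := q37_5 γ h0 h
  have k12 := q37_12 γ h0 h
  have k7 := q37_7 γ h0 h
  have k13 := q37_13 γ h0 h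
  have k11 := q37_11 γ h0 h
  have k9 := q37_9 γ h0 h
  rw [m37_2]
  simp only [mm37_0, mm37_1, mm37_2, mm37_3, mm37_4, mm37_5, mm37_6, mm37_7, mm37_8, mm37_9, mm37_10, mm37_11, mm37_12, mm37_13, mm37_14, mm37_15, mm37_16, mm37_17, mm37_18]
  linarith only [h0, k1, k0, k10, k2, k15, k6, k4, k3, k8, k14, k5, k12, k7, k13, k11, k9]

theorem p37_3 (γ : ℕ → ℝ) (h0 : γ 0 = 1)
    (h : ∀ n < 37, 2 * (((37 : ℕ) : ℝ) - ((n : ℕ) : ℝ)) * ∑ i ∈ range (37 / 2 + 1), γ i * (cfn 37 i n : ℝ) ≤
      ((n : ℝ) + 1) * ∑ i ∈ range (37 / 2 + 1), γ i * (cfn 37 i (n + 1) : ℝ)) :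
    0 < Mat 37 (Mat 37 (Mat 37 γ)) 3 := by
  have k0 := q37_0 γ h0 h
  have k1 := q37_1 γ h0 h
  have k2 := q37_2 γ h0 h
  have k3 := q37_3 γ h0 h
  have k6 := q37_6 γ h0 h
  have k5 := q37_5 γ h0 h
  have k12 := q37_12 γ h0 h
  have k14 := q37_14 γ h0 h
  have k4 := q37_4 γ h0 h
  have k17 := q37_17 γ h0 h
  have k8 := q37_8 γ h0 h
  have k9 := q37_9 γ h0 h
  have k19 := q37_19 γ h0 h
  have k16 := q37_16 γ h0 h
  have k7 := q37_7 γ h0 h
  have k20 := q37_20 γ h0 h
  have k11 := q37_11 γ h0 h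
  have k15 := q37_15 γ h0 h
  rw [m37_3]
  simp only [mm37_0, mm37_1, mm37_2, mm37_3, mm37_4, mm37_5, mm37_6, mm37_7, mm37_8, mm37_9, mm37_10, mm37_11, mm37_12, mm37_13, mm37_14, mm37_15, mm37_16, mm37_17, mm37_18]
  linarith only [h0, k0, k1, k2, k3, k6, k5, k12, k14, k4, k17, k8, k9, k19, k16, k7, k20, k11, k15]

theorem p37_4 (γ : ℕ → ℝ) (h0 : γ 0 = 1)
    (h : ∀ n < 37, 2 * (((37 : ℕ) : ℝ) - ((n : ℕ) : ℝ)) * ∑ i ∈ range (37 / 2 + 1), γ i * (cfn 37 i n : ℝ) ≤
      ((n : ℝ) + 1) * ∑ i ∈ range (37 / 2 + 1), γ i * (cfn 37 i (n + 1) : ℝ)) :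
    0 < Mat 37 (Mat 37 (Mat 37 γ)) 4 := by
  have k2 := q37_2 γ h0 h
  have k5 := q37_5 γ h0 h
  have k8 := q37_8 γ h0 h
  have k0 := q37_0 γ h0 h
  have k4 := q37_4 γ h0 h
  have k15 := q37_15 γ h0 h
  have k3 := q37_3 γ h0 h
  have k1 := q37_1 γ h0 h
  have k12 := q37_12 γ h0 h
  have k9 := q37_9 γ h0 h
  have k11 := q37_11 γ h0 h
  have k22 := q37_22 γ h0 h
  have k7 := q37_7 γ h0 h
  have k18 := q37_18 γ h0 h
  have k6 := q37_6 γ h0 h
  have k19 := q37_19 γ h0 h
  have k23 := q37_23 γ h0 h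
  have k16 := q37_16 γ h0 h
  rw [m37_4]
  simp only [mm37_0, mm37_1, mm37_2, mm37_3, mm37_4, mm37_5, mm37_6, mm37_7, mm37_8, mm37_9, mm37_10, mm37_11, mm37_12, mm37_13, mm37_14, mm37_15, mm37_16, mm37_17, mm37_18]
  linarith only [h0, k2, k5, k8, k0, k4, k15, k3, k1, k12, k9, k11, k22, k7, k18, k6, k19, k23, k16]

theorem p37_5 (γ : ℕ → ℝ) (h0 : γ 0 = 1)
    (h : ∀ n < 37, 2 * (((37 : ℕ) : ℝ) - ((n : ℕ) : ℝ)) * ∑ i ∈ range (37 / 2 + 1), γ i * (cfn 37 i n : ℝ) ≤
      ((n : ℝ) + 1) * ∑ i ∈ range (37 / 2 + 1), γ i * (cfn 37 i (n + 1) : ℝ)) :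
    0 < Mat 37 (Mat 37 (Mat 37 γ)) 5 := by
  have k0 := q37_0 γ h0 h
  have k3 := q37_3 γ h0 h
  have k4 := q37_4 γ h0 h
  have k19 := q37_19 γ h0 h
  have k7 := q37_7 γ h0 h
  have k16 := q37_16 γ h0 h
  have k2 := q37_2 γ h0 h
  have k1 := q37_1 γ h0 h
  have k23 := q37_23 γ h0 h
  have k5 := q37_5 γ h0 h
  have k12 := q37_12 γ h0 h
  have k10 := q37_10 γ h0 h
  have k6 := q37_6 γ h0 h
  have k24 := q37_24 γ h0 h
  have k15 := q37_15 γ h0 h
  have k20 := q37_20 γ h0 h
  have k9 := q37_9 γ h0 h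
  have k13 := q37_13 γ h0 h
  rw [m37_5]
  simp only [mm37_0, mm37_1, mm37_2, mm37_3, mm37_4, mm37_5, mm37_6, mm37_7, mm37_8, mm37_9, mm37_10, mm37_11, mm37_12, mm37_13, mm37_14, mm37_15, mm37_16, mm37_17, mm37_18]
  linarith only [h0, k0, k3, k4, k19, k7, k16, k2, k1, k23, k5, k12, k10, k6, k24, k15, k20, k9, k13]

theorem p37_6 (γ : ℕ → ℝ) (h0 : γ 0 = 1)
    (h : ∀ n < 37, 2 * (((37 : ℕ) : ℝ) - ((n : ℕ) : ℝ)) * ∑ i ∈ range (37 / 2 + 1), γ i * (cfn 37 i n : ℝ) ≤
      ((n : ℝ) + 1) * ∑ i ∈ range (37 / 2 + 1), γ i * (cfn 37 i (n + 1) : ℝ)) :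
    0 < Mat 37 (Mat 37 (Mat 37 γ)) 6 := by
  have k17 := q37_17 γ h0 h
  have k2 := q37_2 γ h0 h
  have k0 := q37_0 γ h0 h
  have k21 := q37_21 γ h0 h
  have k25 := q37_25 γ h0 h
  have k4 := q37_4 γ h0 h
  have k1 := q37_1 γ h0 h
  have k3 := q37_3 γ h0 h
  have k13 := q37_13 γ h0 h
  have k12 := q37_12 γ h0 h
  have k5 := q37_5 γ h0 h
  have k10 := q37_10 γ h0 h
  have k20 := q37_20 γ h0 h
  have k6 := q37_6 γ h0 h
  have k7 := q37_7 γ h0 h
  have k16 := q37_16 γ h0 h
  have k9 := q37_9 γ h0 h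
  have k26 := q37_26 γ h0 h
  rw [m37_6]
  simp only [mm37_0, mm37_1, mm37_2, mm37_3, mm37_4, mm37_5, mm37_6, mm37_7, mm37_8, mm37_9, mm37_10, mm37_11, mm37_12, mm37_13, mm37_14, mm37_15, mm37_16, mm37_17, mm37_18]
  linarith only [h0, k17, k2, k0, k21, k25, k4, k1, k3, k13, k12, k5, k10, k20, k6, k7, k16, k9, k26]

theorem p37_7 (γ : ℕ → ℝ) (h0 : γ 0 = 1)
    (h : ∀ n < 37, 2 * (((37 : ℕ) : ℝ) - ((n : ℕ) : ℝ)) * ∑ i ∈ range (37 / 2 + 1), γ i * (cfn 37 i n : ℝ) ≤
      ((n : ℝ) + 1) * ∑ i ∈ range (37 / 2 + 1), γ i * (cfn 37 i (n + 1) : ℝ)) :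
    0 < Mat 37 (Mat 37 (Mat 37 γ)) 7 := by
  have k4 := q37_4 γ h0 h
  have k26 := q37_26 γ h0 h
  have k0 := q37_0 γ h0 h
  have k13 := q37_13 γ h0 h
  have k25 := q37_25 γ h0 h
  have k10 := q37_10 γ h0 h
  have k2 := q37_2 γ h0 h
  have k1 := q37_1 γ h0 h
  have k21 := q37_21 γ h0 h
  have k3 := q37_3 γ h0 h
  have k17 := q37_17 γ h0 h
  have k5 := q37_5 γ h0 h
  have k6 := q37_6 γ h0 h
  have k16 := q37_16 γ h0 h
  have k7 := q37_7 γ h0 h
  have k12 := q37_12 γ h0 h
  have k9 := q37_9 γ h0 h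
  have k22 := q37_22 γ h0 h
  rw [m37_7]
  simp only [mm37_0, mm37_1, mm37_2, mm37_3, mm37_4, mm37_5, mm37_6, mm37_7, mm37_8, mm37_9, mm37_10, mm37_11, mm37_12, mm37_13, mm37_14, mm37_15, mm37_16, mm37_17, mm37_18]
  linarith only [h0, k4, k26, k0, k13, k25, k10, k2, k1, k21, k3, k17, k5, k6, k16, k7, k12, k9, k22]

theorem p37_8 (γ : ℕ → ℝ) (h0 : γ 0 = 1)
    (h : ∀ n < 37, 2 * (((37 : ℕ) : ℝ) - ((n : ℕ) : ℝ)) * ∑ i ∈ range (37 / 2 + 1), γ i * (cfn 37 i n : ℝ) ≤
      ((n : ℝ) + 1) * ∑ i ∈ range (37 / 2 + 1), γ i * (cfn 37 i (n + 1) : ℝ)) :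
    0 < Mat 37 (Mat 37 (Mat 37 γ)) 8 := by
  have k2 := q37_2 γ h0 h
  have k17 := q37_17 γ h0 h
  have k3 := q37_3 γ h0 h
  have k0 := q37_0 γ h0 h
  have k21 := q37_21 γ h0 h
  have k4 := q37_4 γ h0 h
  have k1 := q37_1 γ h0 h
  have k5 := q37_5 γ h0 h
  have k16 := q37_16 γ h0 h
  have k26 := q37_26 γ h0 h
  have k27 := q37_27 γ h0 h
  have k6 := q37_6 γ h0 h
  have k13 := q37_13 γ h0 h
  have k9 := q37_9 γ h0 h
  have k7 := q37_7 γ h0 h
  have k12 := q37_12 γ h0 h
  have k22 := q37_22 γ h0 h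
  have k10 := q37_10 γ h0 h
  rw [m37_8]
  simp only [mm37_0, mm37_1, mm37_2, mm37_3, mm37_4, mm37_5, mm37_6, mm37_7, mm37_8, mm37_9, mm37_10, mm37_11, mm37_12, mm37_13, mm37_14, mm37_15, mm37_16, mm37_17, mm37_18]
  linarith only [h0, k2, k17, k3, k0, k21, k4, k1, k5, k16, k26, k27, k6, k13, k9, k7, k12, k22, k10]

theorem p37_9 (γ : ℕ → ℝ) (h0 : γ 0 = 1)
    (h : ∀ n < 37, 2 * (((37 : ℕ) : ℝ) - ((n : ℕ) : ℝ)) * ∑ i ∈ range (37 / 2 + 1), γ i * (cfn 37 i n : ℝ) ≤
      ((n : ℝ) + 1) * ∑ i ∈ range (37 / 2 + 1), γ i * (cfn 37 i (n + 1) : ℝ)) :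
    0 < Mat 37 (Mat 37 (Mat 37 γ)) 9 := by
  have k6 := q37_6 γ h0 h
  have k0 := q37_0 γ h0 h
  have k16 := q37_16 γ h0 h
  have k27 := q37_27 γ h0 h
  have k1 := q37_1 γ h0 h
  have k2 := q37_2 γ h0 h
  have k4 := q37_4 γ h0 h
  have k21 := q37_21 γ h0 h
  have k22 := q37_22 γ h0 h
  have k9 := q37_9 γ h0 h
  have k13 := q37_13 γ h0 h
  have k3 := q37_3 γ h0 h
  have k5 := q37_5 γ h0 h
  have k28 := q37_28 γ h0 h
  have k7 := q37_7 γ h0 h
  have k12 := q37_12 γ h0 h
  have k17 := q37_17 γ h0 h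
  have k10 := q37_10 γ h0 h
  rw [m37_9]
  simp only [mm37_0, mm37_1, mm37_2, mm37_3, mm37_4, mm37_5, mm37_6, mm37_7, mm37_8, mm37_9, mm37_10, mm37_11, mm37_12, mm37_13, mm37_14, mm37_15, mm37_16, mm37_17, mm37_18]
  linarith only [h0, k6, k0, k16, k27, k1, k2, k4, k21, k22, k9, k13, k3, k5, k28, k7, k12, k17, k10]

theorem p37_10 (γ : ℕ → ℝ) (h0 : γ 0 = 1)
    (h : ∀ n < 37, 2 * (((37 : ℕ) : ℝ) - ((n : ℕ) : ℝ)) * ∑ i ∈ range (37 / 2 + 1), γ i * (cfn 37 i n : ℝ) ≤
      ((n : ℝ) + 1) * ∑ i ∈ range (37 / 2 + 1), γ i * (cfn 37 i (n + 1) : ℝ)) :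
    0 < Mat 37 (Mat 37 (Mat 37 γ)) 10 := by
  have k1 := q37_1 γ h0 h
  have k3 := q37_3 γ h0 h
  have k0 := q37_0 γ h0 h
  have k4 := q37_4 γ h0 h
  have k28 := q37_28 γ h0 h
  have k6 := q37_6 γ h0 h
  have k22 := q37_22 γ h0 h
  have k2 := q37_2 γ h0 h
  have k16 := q37_16 γ h0 h
  have k13 := q37_13 γ h0 h
  have k27 := q37_27 γ h0 h
  have k21 := q37_21 γ h0 h
  have k5 := q37_5 γ h0 h
  have k9 := q37_9 γ h0 h
  have k7 := q37_7 γ h0 h
  have k12 := q37_12 γ h0 h
  have k17 := q37_17 γ h0 h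
  have k10 := q37_10 γ h0 h
  rw [m37_10]
  simp only [mm37_0, mm37_1, mm37_2, mm37_3, mm37_4, mm37_5, mm37_6, mm37_7, mm37_8, mm37_9, mm37_10, mm37_11, mm37_12, mm37_13, mm37_14, mm37_15, mm37_16, mm37_17, mm37_18]
  linarith only [h0, k1, k3, k0, k4, k28, k6, k22, k2, k16, k13, k27, k21, k5, k9, k7, k12, k17, k10]

theorem p37_11 (γ : ℕ → ℝ) (h0 : γ 0 = 1)
    (h : ∀ n < 37, 2 * (((37 : ℕ) : ℝ) - ((n : ℕ) : ℝ)) * ∑ i ∈ range (37 / 2 + 1), γ i * (cfn 37 i n : ℝ) ≤
      ((n : ℝ) + 1) * ∑ i ∈ range (37 / 2 + 1), γ i * (cfn 37 i (n + 1) : ℝ)) :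
    0 < Mat 37 (Mat 37 (Mat 37 γ)) 11 := by
  have k7 := q37_7 γ h0 h
  have k0 := q37_0 γ h0 h
  have k1 := q37_1 γ h0 h
  have k22 := q37_22 γ h0 h
  have k28 := q37_28 γ h0 h
  have k13 := q37_13 γ h0 h
  have k21 := q37_21 γ h0 h
  have k12 := q37_12 γ h0 h
  have k4 := q37_4 γ h0 h
  have k5 := q37_5 γ h0 h
  have k2 := q37_2 γ h0 h
  have k3 := q37_3 γ h0 h
  have k6 := q37_6 γ h0 h
  have k9 := q37_9 γ h0 h
  have k16 := q37_16 γ h0 h
  have k29 := q37_29 γ h0 h
  have k17 := q37_17 γ h0 h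
  have k10 := q37_10 γ h0 h
  rw [m37_11]
  simp only [mm37_0, mm37_1, mm37_2, mm37_3, mm37_4, mm37_5, mm37_6, mm37_7, mm37_8, mm37_9, mm37_10, mm37_11, mm37_12, mm37_13, mm37_14, mm37_15, mm37_16, mm37_17, mm37_18]
  linarith only [h0, k7, k0, k1, k22, k28, k13, k21, k12, k4, k5, k2, k3, k6, k9, k16, k29, k17, k10]

theorem p37_12 (γ : ℕ → ℝ) (h0 : γ 0 = 1)
    (h : ∀ n < 37, 2 * (((37 : ℕ) : ℝ) - ((n : ℕ) : ℝ)) * ∑ i ∈ range (37 / 2 + 1), γ i * (cfn 37 i n : ℝ) ≤
      ((n : ℝ) + 1) * ∑ i ∈ range (37 / 2 + 1), γ i * (cfn 37 i (n + 1) : ℝ)) :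
    0 < Mat 37 (Mat 37 (Mat 37 γ)) 12 := by
  have k29 := q37_29 γ h0 h
  have k13 := q37_13 γ h0 h
  have k0 := q37_0 γ h0 h
  have k1 := q37_1 γ h0 h
  have k28 := q37_28 γ h0 h
  have k2 := q37_2 γ h0 h
  have k5 := q37_5 γ h0 h
  have k7 := q37_7 γ h0 h
  have k22 := q37_22 γ h0 h
  have k4 := q37_4 γ h0 h
  have k3 := q37_3 γ h0 h
  have k10 := q37_10 γ h0 h
  have k6 := q37_6 γ h0 h
  have k9 := q37_9 γ h0 h
  have k16 := q37_16 γ h0 h
  have k12 := q37_12 γ h0 h
  have k17 := q37_17 γ h0 h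
  have k23 := q37_23 γ h0 h
  rw [m37_12]
  simp only [mm37_0, mm37_1, mm37_2, mm37_3, mm37_4, mm37_5, mm37_6, mm37_7, mm37_8, mm37_9, mm37_10, mm37_11, mm37_12, mm37_13, mm37_14, mm37_15, mm37_16, mm37_17, mm37_18]
  linarith only [h0, k29, k13, k0, k1, k28, k2, k5, k7, k22, k4, k3, k10, k6, k9, k16, k12, k17, k23]

theorem p37_13 (γ : ℕ → ℝ) (h0 : γ 0 = 1)
    (h : ∀ n < 37, 2 * (((37 : ℕ) : ℝ) - ((n : ℕ) : ℝ)) * ∑ i ∈ range (37 / 2 + 1), γ i * (cfn 37 i n : ℝ) ≤
      ((n : ℝ) + 1) * ∑ i ∈ range (37 / 2 + 1), γ i * (cfn 37 i (n + 1) : ℝ)) :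
    0 < Mat 37 (Mat 37 (Mat 37 γ)) 13 := by
  have k10 := q37_10 γ h0 h
  have k1 := q37_1 γ h0 h
  have k0 := q37_0 γ h0 h
  have k5 := q37_5 γ h0 h
  have k30 := q37_30 γ h0 h
  have k2 := q37_2 γ h0 h
  have k13 := q37_13 γ h0 h
  have k16 := q37_16 γ h0 h
  have k7 := q37_7 γ h0 h
  have k4 := q37_4 γ h0 h
  have k3 := q37_3 γ h0 h
  have k29 := q37_29 γ h0 h
  have k6 := q37_6 γ h0 h
  have k9 := q37_9 γ h0 h
  have k22 := q37_22 γ h0 h
  have k12 := q37_12 γ h0 h
  have k17 := q37_17 γ h0 h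
  have k23 := q37_23 γ h0 h
  rw [m37_13]
  simp only [mm37_0, mm37_1, mm37_2, mm37_3, mm37_4, mm37_5, mm37_6, mm37_7, mm37_8, mm37_9, mm37_10, mm37_11, mm37_12, mm37_13, mm37_14, mm37_15, mm37_16, mm37_17, mm37_18]
  linarith only [h0, k10, k1, k0, k5, k30, k2, k13, k16, k7, k4, k3, k29, k6, k9, k22, k12, k17, k23]

theorem p37_14 (γ : ℕ → ℝ) (h0 : γ 0 = 1)
    (h : ∀ n < 37, 2 * (((37 : ℕ) : ℝ) - ((n : ℕ) : ℝ)) * ∑ i ∈ range (37 / 2 + 1), γ i * (cfn 37 i n : ℝ) ≤
      ((n : ℝ) + 1) * ∑ i ∈ range (37 / 2 + 1), γ i * (cfn 37 i (n + 1) : ℝ)) :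
    0 < Mat 37 (Mat 37 (Mat 37 γ)) 14 := by
  have k0 := q37_0 γ h0 h
  have k2 := q37_2 γ h0 h
  have k1 := q37_1 γ h0 h
  have k29 := q37_29 γ h0 h
  have k7 := q37_7 γ h0 h
  have k23 := q37_23 γ h0 h
  have k22 := q37_22 γ h0 h
  have k6 := q37_6 γ h0 h
  have k5 := q37_5 γ h0 h
  have k30 := q37_30 γ h0 h
  have k4 := q37_4 γ h0 h
  have k3 := q37_3 γ h0 h
  have k13 := q37_13 γ h0 h
  have k9 := q37_9 γ h0 h
  have k16 := q37_16 γ h0 h
  have k12 := q37_12 γ h0 h
  have k17 := q37_17 γ h0 h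
  have k10 := q37_10 γ h0 h
  rw [m37_14]
  simp only [mm37_0, mm37_1, mm37_2, mm37_3, mm37_4, mm37_5, mm37_6, mm37_7, mm37_8, mm37_9, mm37_10, mm37_11, mm37_12, mm37_13, mm37_14, mm37_15, mm37_16, mm37_17, mm37_18]
  linarith only [h0, k0, k2, k1, k29, k7, k23, k22, k6, k5, k30, k4, k3, k13, k9, k16, k12, k17, k10]

theorem p37_15 (γ : ℕ → ℝ) (h0 : γ 0 = 1)
    (h : ∀ n < 37, 2 * (((37 : ℕ) : ℝ) - ((n : ℕ) : ℝ)) * ∑ i ∈ range (37 / 2 + 1), γ i * (cfn 37 i n : ℝ) ≤
      ((n : ℝ) + 1) * ∑ i ∈ range (37 / 2 + 1), γ i * (cfn 37 i (n + 1) : ℝ)) :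
    0 < Mat 37 (Mat 37 (Mat 37 γ)) 15 := by
  have k0 := q37_0 γ h0 h
  have k31 := q37_31 γ h0 h
  have k7 := q37_7 γ h0 h
  have k1 := q37_1 γ h0 h
  have k17 := q37_17 γ h0 h
  have k22 := q37_22 γ h0 h
  have k23 := q37_23 γ h0 h
  have k5 := q37_5 γ h0 h
  have k2 := q37_2 γ h0 h
  have k30 := q37_30 γ h0 h
  have k4 := q37_4 γ h0 h
  have k3 := q37_3 γ h0 h
  have k9 := q37_9 γ h0 h
  have k6 := q37_6 γ h0 h
  have k16 := q37_16 γ h0 h
  have k12 := q37_12 γ h0 h
  have k13 := q37_13 γ h0 h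
  have k10 := q37_10 γ h0 h
  rw [m37_15]
  simp only [mm37_0, mm37_1, mm37_2, mm37_3, mm37_4, mm37_5, mm37_6, mm37_7, mm37_8, mm37_9, mm37_10, mm37_11, mm37_12, mm37_13, mm37_14, mm37_15, mm37_16, mm37_17, mm37_18]
  linarith only [h0, k0, k31, k7, k1, k17, k22, k23, k5, k2, k30, k4, k3, k9, k6, k16, k12, k13, k10]

theorem p37_16 (γ : ℕ → ℝ) (h0 : γ 0 = 1)
    (h : ∀ n < 37, 2 * (((37 : ℕ) : ℝ) - ((n : ℕ) : ℝ)) * ∑ i ∈ range (37 / 2 + 1), γ i * (cfn 37 i n : ℝ) ≤
      ((n : ℝ) + 1) * ∑ i ∈ range (37 / 2 + 1), γ i * (cfn 37 i (n + 1) : ℝ)) :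
    0 < Mat 37 (Mat 37 (Mat 37 γ)) 16 := by
  have k1 := q37_1 γ h0 h
  have k32 := q37_32 γ h0 h
  have k0 := q37_0 γ h0 h
  have k6 := q37_6 γ h0 h
  have k23 := q37_23 γ h0 h
  have k7 := q37_7 γ h0 h
  have k22 := q37_22 γ h0 h
  have k17 := q37_17 γ h0 h
  have k2 := q37_2 γ h0 h
  have k5 := q37_5 γ h0 h
  have k4 := q37_4 γ h0 h
  have k3 := q37_3 γ h0 h
  have k9 := q37_9 γ h0 h
  have k31 := q37_31 γ h0 h
  have k16 := q37_16 γ h0 h
  have k12 := q37_12 γ h0 h
  have k13 := q37_13 γ h0 h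
  have k10 := q37_10 γ h0 h
  rw [m37_16]
  simp only [mm37_0, mm37_1, mm37_2, mm37_3, mm37_4, mm37_5, mm37_6, mm37_7, mm37_8, mm37_9, mm37_10, mm37_11, mm37_12, mm37_13, mm37_14, mm37_15, mm37_16, mm37_17, mm37_18]
  linarith only [h0, k1, k32, k0, k6, k23, k7, k22, k17, k2, k5, k4, k3, k9, k31, k16, k12, k13, k10]

theorem p37_17 (γ : ℕ → ℝ) (h0 : γ 0 = 1)
    (h : ∀ n < 37, 2 * (((37 : ℕ) : ℝ) - ((n : ℕ) : ℝ)) * ∑ i ∈ range (37 / 2 + 1), γ i * (cfn 37 i n : ℝ) ≤
      ((n : ℝ) + 1) * ∑ i ∈ range (37 / 2 + 1), γ i * (cfn 37 i (n + 1) : ℝ)) :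
    0 < Mat 37 (Mat 37 (Mat 37 γ)) 17 := by
  have k2 := q37_2 γ h0 h
  have k23 := q37_23 γ h0 h
  have k7 := q37_7 γ h0 h
  have k0 := q37_0 γ h0 h
  have k16 := q37_16 γ h0 h
  have k1 := q37_1 γ h0 h
  have k9 := q37_9 γ h0 h
  have k22 := q37_22 γ h0 h
  have k4 := q37_4 γ h0 h
  have k5 := q37_5 γ h0 h
  have k31 := q37_31 γ h0 h
  have k3 := q37_3 γ h0 h
  have k17 := q37_17 γ h0 h
  have k6 := q37_6 γ h0 h
  have k32 := q37_32 γ h0 h
  have k12 := q37_12 γ h0 h
  have k13 := q37_13 γ h0 h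
  have k10 := q37_10 γ h0 h
  rw [m37_17]
  simp only [mm37_0, mm37_1, mm37_2, mm37_3, mm37_4, mm37_5, mm37_6, mm37_7, mm37_8, mm37_9, mm37_10, mm37_11, mm37_12, mm37_13, mm37_14, mm37_15, mm37_16, mm37_17, mm37_18]
  linarith only [h0, k2, k23, k7, k0, k16, k1, k9, k22, k4, k5, k31, k3, k17, k6, k32, k12, k13, k10]

theorem p37_18 (γ : ℕ → ℝ) (h0 : γ 0 = 1)
    (h : ∀ n < 37, 2 * (((37 : ℕ) : ℝ) - ((n : ℕ) : ℝ)) * ∑ i ∈ range (37 / 2 + 1), γ i * (cfn 37 i n : ℝ) ≤
      ((n : ℝ) + 1) * ∑ i ∈ range (37 / 2 + 1), γ i * (cfn 37 i (n + 1) : ℝ)) :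
    0 < Mat 37 (Mat 37 (Mat 37 γ)) 18 := by
  have k1 := q37_1 γ h0 h
  have k0 := q37_0 γ h0 h
  have k17 := q37_17 γ h0 h
  have k2 := q37_2 γ h0 h
  have k7 := q37_7 γ h0 h
  have k12 := q37_12 γ h0 h
  have k9 := q37_9 γ h0 h
  have k10 := q37_10 γ h0 h
  have k5 := q37_5 γ h0 h
  have k6 := q37_6 γ h0 h
  have k4 := q37_4 γ h0 h
  have k3 := q37_3 γ h0 h
  have k23 := q37_23 γ h0 h
  have k22 := q37_22 γ h0 h
  have k34 := q37_34 γ h0 h
  have k33 := q37_33 γ h0 h
  have k13 := q37_13 γ h0 h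
  have k18 := q37_18 γ h0 h
  rw [m37_18]
  simp only [mm37_0, mm37_1, mm37_2, mm37_3, mm37_4, mm37_5, mm37_6, mm37_7, mm37_8, mm37_9, mm37_10, mm37_11, mm37_12, mm37_13, mm37_14, mm37_15, mm37_16, mm37_17, mm37_18]
  linarith only [h0, k1, k0, k17, k2, k7, k12, k9, k10, k5, k6, k4, k3, k23, k22, k34, k33, k13, k18]

theorem main37 (γ : ℕ → ℝ) (h0 : γ 0 = 1)
    (h : ∀ n < 37, 2 * (((37 : ℕ) : ℝ) - ((n : ℕ) : ℝ)) * ∑ i ∈ range (37 / 2 + 1), γ i * (cfn 37 i n : ℝ) ≤
      ((n : ℝ) + 1) * ∑ i ∈ range (37 / 2 + 1), γ i * (cfn 37 i (n + 1) : ℝ)) :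
    ∀ j ≤ 37 / 2, 0 < Mat 37 (Mat 37 (Mat 37 γ)) j := by
  intro j hj
  have hj' : j ≤ 18 := hj
  clear hj
  interval_cases j
  · exact p37_0 γ h0 h
  · exact p37_1 γ h0 h
  · exact p37_2 γ h0 h
  · exact p37_3 γ h0 h
  · exact p37_4 γ h0 h
  · exact p37_5 γ h0 h
  · exact p37_6 γ h0 h
  · exact p37_7 γ h0 h
  · exact p37_8 γ h0 h
  · exact p37_9 γ h0 h
  · exact p37_10 γ h0 h
  · exact p37_11 γ h0 h
  · exact p37_12 γ h0 h
  · exact p37_13 γ h0 h
  · exact p37_14 γ h0 h
  · exact p37_15 γ h0 h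
  · exact p37_16 γ h0 h
  · exact p37_17 γ h0 h
  · exact p37_18 γ h0 h

end PkgNT37

end Pool.Agent.T2H83.GR
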