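import Pool.Agent.T2H83.GR.Fin
import Pool.Agent.T2H83.GR.NT14
import Pool.Agent.T2H83.GR.NT20
import Pool.Agent.T2H83.GR.NT25
import Pool.Agent.T2H83.GR.NT29
import Pool.Agent.T2H83.GR.NT32
import Pool.Agent.T2H83.GR.NT35
import Pool.Agent.T2H83.GR.NT37

set_option autoImplicit false

/-!
# Project GR: three rounds
-/

namespace Pool.Agent.T2H83.GR

open Finset Polynomial Pool.Agent.T2H44.RS

/-- one, two or three rounds -/
theorem pos_three {d N : ℕ} {Δ Δ' : Cx} {γ' : ℕ → ℤ} (h : IsPure d Δ) (hE : IsEul d Δ)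
    (hF : IsFlag Δ) (hR : Rounds N Δ Δ') (hγ' : IsGamma d Δ' γ')
    (hN : (d ≤ 5 ∧ 1 ≤ N) ∨ (d ≤ 13 ∧ 2 ≤ N) ∨ (d ≤ 37 ∧ 3 ≤ N)) : ∀ i ≤ d / 2, 0 < γ' i := by
  rcases hN with hN | hN | ⟨hd37, hN⟩
  · exact pos_two h hE hF hR hγ' (Or.inl hN)
  · exact pos_two h hE hF hR hγ' (Or.inr hN)
  · rcases Nat.lt_or_ge d 14 with hd | hd
    · exact pos_two h hE hF hR hγ' (Or.inr ⟨by omega, by omega⟩)
    · refine pos_of_iter (m := 3) h hE hR hγ' hN fun γ hγ h0 => ?_
      have hL := flag_ineq h hE hF hγ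
      clear hγ hγ' hR hF hE h
      interval_cases d
      · exact PkgNT14.main14 _ h0 hL
      · exact PkgNT14.main15 _ h0 hL
      · exact PkgNT14.main16 _ h0 hL
      · exact PkgNT14.main17 _ h0 hL
      · exact PkgNT14.main18 _ h0 hL
      · exact PkgNT14.main19 _ h0 hL
      · exact PkgNT20.main20 _ h0 hL
      · exact PkgNT20.main21 _ h0 hL
      · exact PkgNT20.main22 _ h0 hL
      · exact PkgNT20.main23 _ h0 hL
      · exact PkgNT20.main24 _ h0 hL
      · exact PkgNT25.main25 _ h0 hL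
      · exact PkgNT25.main26 _ h0 hL
      · exact PkgNT25.main27 _ h0 hL
      · exact PkgNT25.main28 _ h0 hL
      · exact PkgNT29.main29 _ h0 hL
      · exact PkgNT29.main30 _ h0 hL
      · exact PkgNT29.main31 _ h0 hL
      · exact PkgNT32.main32 _ h0 hL
      · exact PkgNT32.main33 _ h0 hL
      · exact PkgNT32.main34 _ h0 hL
      · exact PkgNT35.main35 _ h0 hL
      · exact PkgNT35.main36 _ h0 hL
      · exact PkgNT37.main37 _ h0 hL

end Pool.Agent.T2H83.GR
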