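import Pool.Agent.T2H83.GR.Stm3
import Pool.Agent.T2H83.GR.Fin2

set_option autoImplicit false

/-!
# Project GR, third part: assembly
-/

namespace Pool.Agent.T2H83.GR

open Finset Pool.Agent.T2H44.RS

theorem rounds_split {Δ : Cx} (a b : ℕ) : ∀ {Δ' : Cx}, Rounds (a + b) Δ Δ' →
    ∃ Δ₁, Rounds a Δ Δ₁ ∧ Rounds b Δ₁ Δ' := by
  induction b with
  | zero => exact fun {Δ'} h => ⟨Δ', h, rfl⟩
  | succ b ih =>
    intro Δ' h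
    obtain ⟨Δ₂, h1, h2⟩ := h
    obtain ⟨Δ₁, h3, h4⟩ := ih h1
    exact ⟨Δ₁, h3, Δ₂, h4, h2⟩

theorem XX_pos {d t : ℕ} (h : t ≤ d) : 0 < XX d t := by
  unfold XX
  have h1 : (0 : ℝ) < (d.choose t : ℝ) := by exact_mod_cast Nat.choose_pos h
  positivity

theorem XX_succ {d n : ℕ} (hn : n < d) :
    XX d (n + 1) * ((n : ℝ) + 1) = XX d n * (2 * ((d : ℝ) - n)) := by
  unfold XX
  have h1 : ((d.choose (n + 1) * (n + 1) : ℕ) : ℝ) = ((d.choose n * (d - n) : ℕ) : ℝ) := by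
    rw [Nat.choose_succ_right_eq]
  rw [Nat.cast_mul, Nat.cast_mul, Nat.cast_sub hn.le] at h1
  push_cast at h1
  rw [pow_succ]
  linear_combination (2 * 2 ^ n : ℝ) * h1

/-- the ratios of the face numbers two steps apart -/
theorem ratio_two (hRTN : S_RTN) (hXLC : S_XLC) (hCRT : S_CRT) {d j K m : ℕ} {Δ₁ Δ₂ : Cx}
    (h : IsPure d Δ₁) (hE : IsEul d Δ₁) (hF : IsFlag Δ₁) (hR : Rounds K Δ₁ Δ₂) (hj1 : 1 ≤ j)
    (hm : 2 * d < m ^ 2 ^ (K + 1)) (hj : (m + 2) * (2 ^ (K + 1) * j) ≤ 2 * d + 2) (n : ℕ)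
    (hn : n + 2 ≤ 2 * j) : 2 * (d : ℝ) * (nf n Δ₂ : ℝ) < (nf (n + 2) Δ₂ : ℝ) := by
  obtain ⟨hrj, hc⟩ := hCRT d j (2 ^ (K + 1)) m hj1 Nat.one_le_two_pow hm hj
  have hP₂ : IsPure d Δ₂ := (pPRS.2.1 d Δ₁ Δ₂ K h hR).1
  obtain ⟨i, rfl⟩ := Nat.exists_eq_add_of_le hj1
  have e1 : 1 + i - 1 = i := by omega
  rw [e1] at hc
  have hK : 2 ^ (K + 1) = 2 * 2 ^ K := by rw [pow_succ]; ring
  have hr1 : 1 ≤ 2 ^ K := Nat.one_le_two_pow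
  set r : ℕ := 2 ^ K with hr
  rw [hK] at hrj hc
  -- the ratio inequality
  have hb : ∀ n < d, XX d (n + 1) * (fun k => (nf k Δ₁ : ℝ)) n ≤
      XX d n * (fun k => (nf k Δ₁ : ℝ)) (n + 1) := by
    intro n hn
    have h4 : ((2 * (d - n) * nf n Δ₁ : ℕ) : ℝ) ≤ (((n + 1) * nf (n + 1) Δ₁ : ℕ) : ℝ) :=
      Nat.cast_le.2 (pLNK d Δ₁ h hE hF n hn)
    rw [Nat.cast_mul, Nat.cast_mul, Nat.cast_sub hn.le, Nat.cast_mul, Nat.cast_add] at h4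
    have h5 := XX_succ hn
    have h6 := XX_pos hn.le
    have h7 : (0 : ℝ) < (n : ℝ) + 1 := by positivity
    have h8 : XX d n * (2 * ((d : ℝ) - n) * (nf n Δ₁ : ℝ)) ≤
        XX d n * (((n : ℝ) + 1) * (nf (n + 1) Δ₁ : ℝ)) := by
      refine mul_le_mul_of_nonneg_left ?_ h6.le
      simpa using h4
    refine le_of_mul_le_mul_left ?_ h7
    calc ((n : ℝ) + 1) * (XX d (n + 1) * (nf n Δ₁ : ℝ))
        = (XX d (n + 1) * ((n : ℝ) + 1)) * (nf n Δ₁ : ℝ) := by ring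
      _ = XX d n * (2 * ((d : ℝ) - n) * (nf n Δ₁ : ℝ)) := by rw [h5]; ring
      _ ≤ XX d n * (((n : ℝ) + 1) * (nf (n + 1) Δ₁ : ℝ)) := h8
      _ = ((n : ℝ) + 1) * (XX d n * (nf (n + 1) Δ₁ : ℝ)) := by ring
  have hT := (hRTN d (fun k => (nf k Δ₁ : ℝ)) (fun _ => Nat.cast_nonneg _) hb K).2
  have hfr : ∀ k ≤ d, (GG d)^[K] (fun k => (nf k Δ₁ : ℝ)) k = (nf k Δ₂ : ℝ) := fun k hk =>
    (hFRN d Δ₁ Δ₂ K h hR k hk).symm
  have hn2 : r * (n + 2) ≤ d := by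
    refine le_trans ?_ hrj
    calc r * (n + 2) ≤ r * (2 * (1 + i)) := Nat.mul_le_mul_left _ hn
      _ = 2 * r * (1 + i) := by ring
  have hn1 : r * (n + 1) ≤ d := le_trans (Nat.mul_le_mul_left _ (by omega)) hn2
  have hn0 : r * n ≤ d := le_trans (Nat.mul_le_mul_left _ (by omega)) hn2
  have hnd : n + 2 ≤ d := by
    refine le_trans ?_ hn2
    exact Nat.le_mul_of_pos_left _ (by omega)
  have hA := hT n hn1
  have hB := hT (n + 1) hn2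
  rw [hfr n (by omega), hfr (n + 1) (by omega)] at hA
  rw [hfr (n + 1) (by omega), hfr (n + 1 + 1) (by omega)] at hB
  have hL := hXLC d (r * n) (2 * r * i) (2 * r) (by
    calc r * n ≤ r * (2 * i) := Nat.mul_le_mul_left _ (by omega)
      _ = 2 * r * i := by ring)
  have e2 : 2 * r * i + 2 * r = 2 * r * (1 + i) := by ring
  have e3 : r * n + 2 * r = r * (n + 1 + 1) := by ring
  rw [e2, e3] at hL
  have hX1 := XX_pos hn1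
  have hX0 := XX_pos hn0
  have hXs : 0 < XX d (2 * r * i) := XX_pos (le_trans (Nat.mul_le_mul_left _ (by omega)) hrj)
  have hb0 : (0 : ℝ) < (nf n Δ₂ : ℝ) := by exact_mod_cast nf_pos hP₂ (by omega : n ≤ d)
  -- two steps
  have h2 : XX d (r * (n + 1 + 1)) * (nf n Δ₂ : ℝ) ≤ XX d (r * n) * (nf (n + 1 + 1) Δ₂ : ℝ) := by
    refine le_of_mul_le_mul_left ?_ hX1
    have hX2 : 0 ≤ XX d (r * (n + 1 + 1)) := (XX_pos hn2).le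
    calc XX d (r * (n + 1)) * (XX d (r * (n + 1 + 1)) * (nf n Δ₂ : ℝ))
        = XX d (r * (n + 1 + 1)) * (XX d (r * (n + 1)) * (nf n Δ₂ : ℝ)) := by ring
      _ ≤ XX d (r * (n + 1 + 1)) * (XX d (r * n) * (nf (n + 1) Δ₂ : ℝ)) :=
          mul_le_mul_of_nonneg_left hA hX2
      _ = XX d (r * n) * (XX d (r * (n + 1 + 1)) * (nf (n + 1) Δ₂ : ℝ)) := by ring
      _ ≤ XX d (r * n) * (XX d (r * (n + 1)) * (nf (n + 1 + 1) Δ₂ : ℝ)) :=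
          mul_le_mul_of_nonneg_left hB hX0.le
      _ = XX d (r * (n + 1)) * (XX d (r * n) * (nf (n + 1 + 1) Δ₂ : ℝ)) := by ring
  refine lt_of_mul_lt_mul_left ?_ (mul_pos hXs hX0).le
  calc XX d (2 * r * i) * XX d (r * n) * (2 * (d : ℝ) * (nf n Δ₂ : ℝ))
      = (2 * (d : ℝ) * XX d (2 * r * i)) * (XX d (r * n) * (nf n Δ₂ : ℝ)) := by ring
    _ < XX d (2 * r * (1 + i)) * (XX d (r * n) * (nf n Δ₂ : ℝ)) :=
        mul_lt_mul_of_pos_right hc (mul_pos hX0 hb0)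
    _ = (XX d (2 * r * (1 + i)) * XX d (r * n)) * (nf n Δ₂ : ℝ) := by ring
    _ ≤ (XX d (2 * r * i) * XX d (r * (n + 1 + 1))) * (nf n Δ₂ : ℝ) :=
        mul_le_mul_of_nonneg_right hL hb0.le
    _ = XX d (2 * r * i) * (XX d (r * (n + 1 + 1)) * (nf n Δ₂ : ℝ)) := by ring
    _ ≤ XX d (2 * r * i) * (XX d (r * n) * (nf (n + 1 + 1) Δ₂ : ℝ)) :=
        mul_le_mul_of_nonneg_left h2 hXs.le
    _ = XX d (2 * r * i) * XX d (r * n) * (nf (n + 2) Δ₂ : ℝ) := by ring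

/-- positivity after `M` rounds -/
theorem all_pos (hHOM : S_HOM) (hREO : S_REO) (hPSK : S_PSK) (hRTN : S_RTN) (hXLC : S_XLC)
    (hCRT : S_CRT) {d j N M m : ℕ} {Δ Δ' : Cx} {γ' : ℕ → ℤ} (h : IsPure d Δ) (hE : IsEul d Δ)
    (hF : IsFlag Δ) (hM : 1 ≤ M) (hN : M ≤ N) (hR : Rounds N Δ Δ') (hγ' : IsGamma d Δ' γ')
    (hm : 2 * d < m ^ 2 ^ M) (hj : (m + 2) * (2 ^ M * j) ≤ 2 * d + 2) : 0 < γ' j := by
  rcases Nat.eq_zero_or_pos j with rfl | hj1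
  · rw [PkgFIN.gamma_zero (pPRS.2.1 d Δ Δ' N h hR).1 hγ']
    exact one_pos
  obtain ⟨K, rfl⟩ := Nat.exists_eq_add_of_le hM
  obtain ⟨L, rfl⟩ := Nat.exists_eq_add_of_le hN
  rw [show 1 + K + L = L + (K + 1) by ring] at hR
  obtain ⟨Δ₁, hR1, hR2⟩ := rounds_split L (K + 1) hR
  obtain ⟨Δ₂, hR3, hR4⟩ := hR2
  obtain ⟨hP₁, hE₁, hF₁⟩ := pPRS.2.1 d Δ Δ₁ L h hR1
  obtain ⟨hP₂, hE₂, hF₂⟩ := pPRS.2.1 d Δ₁ Δ₂ K hP₁ hR3
  have hE₂' := hE₂ (hE₁ hE)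
  rw [show 1 + K = K + 1 by ring] at hm hj
  have hrat := ratio_two hRTN hXLC hCRT hP₁ (hE₁ hE) (hF₁ hF) hR3 hj1 hm hj
  obtain ⟨hrj, -⟩ := hCRT d j (2 ^ (K + 1)) m hj1 Nat.one_le_two_pow hm hj
  have h2j : 2 * j ≤ d := by
    refine le_trans ?_ hrj
    refine Nat.mul_le_mul_right _ ?_
    calc 2 = 2 ^ 1 := rfl
      _ ≤ 2 ^ (K + 1) := Nat.pow_le_pow_right (by norm_num) (by omega)
  obtain ⟨γ, hγ⟩ := exists_gamma hP₂ hE₂'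
  have h1 : ∑ n ∈ range (d + 1), Polynomial.C ((nf n Δ₂ : ℕ) : ℝ) * Polynomial.X ^ n =
      Phi d fun i => (γ i : ℝ) := gamma_real hγ
  have hR5 : Rounds 1 Δ₂ Δ' := ⟨Δ₂, rfl, hR4⟩
  have h3 := gamma_law hP₂ hR5 hγ hγ' j (by omega)
  rw [Function.iterate_one, hHOM d (fun n => (nf n Δ₂ : ℝ)) _ h1 j h2j, hREO d j h2j] at h3
  have h4 := hPSK d j (fun n => (nf n Δ₂ : ℝ)) hj1 h2j (fun n => Nat.cast_nonneg _) (by
    intro n hn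
    have h5 := hrat n hn
    have h6 : (0 : ℝ) ≤ (nf n Δ₂ : ℝ) := Nat.cast_nonneg _
    have h7 : (0 : ℝ) ≤ (n : ℝ) := Nat.cast_nonneg _
    have h8 : 2 * ((d : ℝ) - n) * (nf n Δ₂ : ℝ) ≤ 2 * (d : ℝ) * (nf n Δ₂ : ℝ) :=
      mul_le_mul_of_nonneg_right (by linarith) h6
    exact le_trans h8 h5.le)
  rw [← h3] at h4
  have h9 := hrat (2 * j - 2) (by omega)
  rw [show 2 * j - 2 + 2 = 2 * j by omega] at h9
  have h10 : (0 : ℝ) ≤ (nf (2 * j - 2) Δ₂ : ℝ) := Nat.cast_nonneg _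
  have h11 : (1 : ℝ) ≤ (j : ℝ) := by exact_mod_cast hj1
  have h12 : 2 * ((d : ℝ) - 2 * j + 2) * (nf (2 * j - 2) Δ₂ : ℝ) ≤
      2 * (d : ℝ) * (nf (2 * j - 2) Δ₂ : ℝ) :=
    mul_le_mul_of_nonneg_right (by linarith) h10
  have h13 : (0 : ℝ) < (γ' j : ℝ) := by
    have h14 : (nf (2 * j) Δ₂ : ℝ) - 2 * ((d : ℝ) - 2 * j + 2) * (nf (2 * j - 2) Δ₂ : ℝ) ≤
      (γ' j : ℝ) := h4
    linarith
  exact_mod_cast h13

end Pool.Agent.T2H83.GR
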