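import Pool.Agent.T2H83.GR.Stm4
import Pool.Agent.T2H83.GR.DLK
import Pool.Agent.T2H44.RS.DS

set_option autoImplicit false

/-!
# Project GR, fourth part: assembly
-/

namespace Pool.Agent.T2H83.GR

open Finset Pool.Agent.T2H44.RS

theorem gamma_zero' {d : ℕ} {Δ : Cx} (h : IsPure d Δ) {γ : ℕ → ℤ} (hγ : IsGamma d Δ γ) :
    γ 0 = 1 := by
  have h1 := congrArg (Polynomial.eval 0) hγ
  rw [Polynomial.eval_finsetSum, Polynomial.eval_finsetSum,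
    Finset.sum_eq_single_of_mem 0 (Finset.mem_range.2 (by omega)),
    Finset.sum_eq_single_of_mem 0 (Finset.mem_range.2 (by omega))] at h1
  · have h2 : nf 0 Δ = 1 := by
      unfold nf
      rw [Finset.card_eq_one]
      refine ⟨∅, ?_⟩
      ext σ
      rw [Finset.mem_filter, Finset.mem_singleton, Finset.card_eq_zero]
      exact ⟨fun h => h.2, fun h' => ⟨h' ▸ h.empty_mem, h'⟩⟩
    simp [h2] at h1
    exact h1.symm
  · intro i _ hi
    simp [hi]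
  · intro i _ hi
    simp [hi]

/-- the inequality in terms of the face numbers -/
theorem gamma_of_nf (hHM0 : S_HM0) (hRO0 : S_RO0) (hPS0 : S_PS0) {d j : ℕ} {Δ : Cx}
    {γ : ℕ → ℤ} (hγ : IsGamma d Δ γ) (hj1 : 1 ≤ j) (hj : 2 * j ≤ d)
    (hb : ∀ n < j, 2 * (d - n) * nf n Δ ≤ nf (n + 1) Δ) :
    (nf j Δ : ℤ) - 2 * ((d : ℤ) - j + 1) * (nf (j - 1) Δ : ℤ) ≤ γ j := by
  have h1 : ∑ n ∈ range (d + 1), Polynomial.C ((nf n Δ : ℕ) : ℝ) * Polynomial.X ^ n =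
      Phi d fun i => (γ i : ℝ) := gamma_real hγ
  have h2 := hHM0 d (fun n => (nf n Δ : ℝ)) _ h1 j hj
  rw [hRO0 d j hj] at h2
  have h3 := hPS0 d j (fun n => (nf n Δ : ℝ)) hj1 hj (fun _ => Nat.cast_nonneg _) (by
    intro n hn
    have h4 : ((2 * (d - n) * nf n Δ : ℕ) : ℝ) ≤ ((nf (n + 1) Δ : ℕ) : ℝ) :=
      Nat.cast_le.2 (hb n hn)
    rw [Nat.cast_mul, Nat.cast_mul, Nat.cast_sub (by omega : n ≤ d)] at h4
    simpa using h4)
  rw [← h2] at h3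
  have h5 : (nf j Δ : ℝ) - 2 * ((d : ℝ) - j + 1) * (nf (j - 1) Δ : ℝ) ≤ (γ j : ℝ) := h3
  exact_mod_cast h5

/-- large links -/
theorem nf_of_links {d n : ℕ} {Δ : Cx} (h : IsPure d Δ)
    (hl : ∀ σ ∈ Δ, σ.card = n → 2 * (n + 1) * (d - n) ≤ nf 1 (lk Δ σ)) :
    2 * (d - n) * nf n Δ ≤ nf (n + 1) Δ := by
  have h1 := sum_up_gen h.down n (n + 1)
  rw [Nat.choose_succ_self_right] at h1
  have h2 : ∑ σ ∈ Δ.filter (fun σ => σ.card = n), 2 * (n + 1) * (d - n) ≤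
      ∑ σ ∈ Δ.filter (fun σ => σ.card = n), up (n + 1) Δ σ := by
    refine Finset.sum_le_sum fun σ hσ => ?_
    rw [Finset.mem_filter] at hσ
    have h3 := hl σ hσ.1 hσ.2
    rw [nf_lk h.down, hσ.2] at h3
    exact h3
  rw [h1, Finset.sum_const, smul_eq_mul] at h2
  have h4 : (n + 1) * (2 * (d - n) * nf n Δ) ≤ (n + 1) * nf (n + 1) Δ := by
    refine le_trans (le_of_eq ?_) h2
    unfold nf
    ring
  exact Nat.le_of_mul_le_mul_left h4 (Nat.succ_pos n)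

end Pool.Agent.T2H83.GR
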