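import Pool.Agent.T2H83.GR.Stm
import Pool.Agent.T2H44.RS.C1

set_option autoImplicit false

/-!
# Package RND: the face polynomial after a round
-/

namespace Pool.Agent.T2H83.GR

open Finset Polynomial Pool.Agent.T2H44.RS

namespace PkgRND

/-- the faces that contain exactly the element `b` of the edge -/
theorem sum_one {Δ : Cx} (hd : ∀ σ ∈ Δ, ∀ τ : Finset ℕ, τ ⊆ σ → τ ∈ Δ) {a b : ℕ} (hab : a ≠ b)
    (F : Finset ℕ → ℝ[X]) :
    ∑ ρ ∈ Δ.filter (fun ρ => (a ∉ ρ ∧ b ∈ ρ) ∧ ρ ∪ {a, b} ∈ Δ), F ρ =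
      ∑ τ ∈ Δ.filter (fun τ => {a, b} ⊆ τ), F (τ.erase a) := by
  refine sum_nbij' (fun ρ => insert a ρ) (fun τ => τ.erase a) ?_ ?_ ?_ ?_ ?_
  · intro ρ hρ
    rw [mem_filter] at hρ
    obtain ⟨_, ⟨h2, h3⟩, h4⟩ := hρ
    have e : ρ ∪ {a, b} = insert a ρ := by
      ext x
      simp only [mem_union, mem_insert, mem_singleton]
      constructor
      · rintro (h | h | h)
        · exact Or.inr h
        · exact Or.inl h
        · exact Or.inr (h ▸ h3)
      · rintro (h | h)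
        · exact Or.inr (Or.inl h)
        · exact Or.inl h
    rw [e] at h4
    rw [mem_filter]
    refine ⟨h4, ?_⟩
    intro x hx
    rw [mem_insert, mem_singleton] at hx
    rcases hx with rfl | rfl
    · exact mem_insert_self _ _
    · exact mem_insert_of_mem h3
  · intro τ hτ
    rw [mem_filter] at hτ
    obtain ⟨h1, h2⟩ := hτ
    have ha : a ∈ τ := h2 (by simp)
    have hb : b ∈ τ := h2 (by simp)
    have e : τ.erase a ∪ {a, b} = τ := by
      ext x
      simp only [mem_union, mem_erase, mem_insert, mem_singleton]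
      constructor
      · rintro (⟨-, h⟩ | h | h)
        · exact h
        · exact h ▸ ha
        · exact h ▸ hb
      · intro h
        by_cases hx : x = a
        · exact Or.inr (Or.inl hx)
        · exact Or.inl ⟨hx, h⟩
    rw [mem_filter]
    exact ⟨hd τ h1 _ (erase_subset _ _), ⟨notMem_erase _ _, mem_erase.2 ⟨hab.symm, hb⟩⟩,
      by rw [e]; exact h1⟩
  · intro ρ hρ
    rw [mem_filter] at hρ
    exact erase_insert hρ.2.1.1
  · intro τ hτ
    rw [mem_filter] at hτ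
    exact insert_erase (hτ.2 (by simp))
  · intro ρ hρ
    rw [mem_filter] at hρ
    rw [erase_insert hρ.2.1.1]

theorem sum_two {Δ : Cx} (hd : ∀ σ ∈ Δ, ∀ τ : Finset ℕ, τ ⊆ σ → τ ∈ Δ) {a b : ℕ} (hab : a ≠ b)
    (F : Finset ℕ → ℝ[X]) :
    ∑ ρ ∈ Δ.filter (fun ρ => (a ∉ ρ ∧ b ∉ ρ) ∧ ρ ∪ {a, b} ∈ Δ), F ρ =
      ∑ τ ∈ Δ.filter (fun τ => {a, b} ⊆ τ), F ((τ.erase a).erase b) := by
  refine sum_nbij' (fun ρ => insert a (insert b ρ)) (fun τ => (τ.erase a).erase b) ?_ ?_ ?_ ?_ ?_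
  · intro ρ hρ
    rw [mem_filter] at hρ
    obtain ⟨_, ⟨h2, h3⟩, h4⟩ := hρ
    have e : ρ ∪ {a, b} = insert a (insert b ρ) := by
      ext x
      simp only [mem_union, mem_insert, mem_singleton]
      tauto
    rw [e] at h4
    rw [mem_filter]
    refine ⟨h4, ?_⟩
    intro x hx
    rw [mem_insert, mem_singleton] at hx
    rcases hx with rfl | rfl
    · exact mem_insert_self _ _
    · exact mem_insert_of_mem (mem_insert_self _ _)
  · intro τ hτ
    rw [mem_filter] at hτ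
    obtain ⟨h1, h2⟩ := hτ
    have ha : a ∈ τ := h2 (by simp)
    have hb : b ∈ τ := h2 (by simp)
    have e : (τ.erase a).erase b ∪ {a, b} = τ := by
      ext x
      simp only [mem_union, mem_erase, mem_insert, mem_singleton]
      constructor
      · rintro (⟨-, -, h⟩ | h | h)
        · exact h
        · exact h ▸ ha
        · exact h ▸ hb
      · intro h
        by_cases hx : x = a
        · exact Or.inr (Or.inl hx)
        · by_cases hy : x = b
          · exact Or.inr (Or.inr hy)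
          · exact Or.inl ⟨hy, hx, h⟩
    rw [mem_filter]
    refine ⟨hd τ h1 _ ((erase_subset _ _).trans (erase_subset _ _)), ⟨?_, notMem_erase _ _⟩,
      by rw [e]; exact h1⟩
    intro h
    exact notMem_erase a τ (mem_of_mem_erase h)
  · intro ρ hρ
    rw [mem_filter] at hρ
    rw [erase_insert, erase_insert hρ.2.1.2]
    rw [mem_insert]
    rintro (h | h)
    · exact hab h
    · exact hρ.2.1.1 h
  · intro τ hτ
    rw [mem_filter] at hτ
    have ha : a ∈ τ := hτ.2 (by simp)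
    have hb : b ∈ τ := hτ.2 (by simp)
    rw [insert_erase (mem_erase.2 ⟨hab.symm, hb⟩), insert_erase ha]
  · intro ρ hρ
    rw [mem_filter] at hρ
    rw [erase_insert, erase_insert hρ.2.1.2]
    rw [mem_insert]
    rintro (h | h)
    · exact hab h
    · exact hρ.2.1.1 h

/-- sums over a subdivision -/
theorem sum_sub {Δ : Cx} (hd : ∀ σ ∈ Δ, ∀ τ : Finset ℕ, τ ⊆ σ → τ ∈ Δ) {a b : ℕ} (hab : a ≠ b)
    (F : Finset ℕ → ℝ[X]) :
    ∑ σ ∈ sub Δ {a, b}, F σ = ∑ σ ∈ Δ.filter (fun σ => ¬ {a, b} ⊆ σ), F σ +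
      ∑ τ ∈ Δ.filter (fun τ => {a, b} ⊆ τ), (F (insert (fresh Δ) (τ.erase a)) +
        F (insert (fresh Δ) (τ.erase b)) + F (insert (fresh Δ) ((τ.erase a).erase b))) := by
  unfold sub
  rw [sum_union]
  swap
  · rw [Finset.disjoint_left]
    intro σ h1 h2
    rw [mem_filter] at h1
    rw [mem_image] at h2
    obtain ⟨ρ, _, rfl⟩ := h2
    exact fresh_notMem h1.1 (mem_insert_self _ _)
  congr 1
  rw [sum_image]
  swap
  · intro ρ hρ ρ' hρ' hh
    rw [mem_coe, mem_filter] at hρ hρ'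
    have := congrArg (fun s => s.erase (fresh Δ)) hh
    simp only [erase_insert (fresh_notMem hρ.1), erase_insert (fresh_notMem hρ'.1)] at this
    exact this
  rw [sum_add_distrib, sum_add_distrib]
  have h1 := sum_one hd hab (fun ρ => F (insert (fresh Δ) ρ))
  have h2 := sum_one hd hab.symm (fun ρ => F (insert (fresh Δ) ρ))
  have h3 := sum_two hd hab (fun ρ => F (insert (fresh Δ) ρ))
  rw [pair_comm b a] at h2
  rw [← h1, ← h2, ← h3]
  have e1 : Δ.filter (fun σ => ¬ {a, b} ⊆ σ ∧ σ ∪ {a, b} ∈ Δ) =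
      (Δ.filter (fun ρ => (a ∉ ρ ∧ b ∈ ρ) ∧ ρ ∪ {a, b} ∈ Δ) ∪
        Δ.filter (fun ρ => (b ∉ ρ ∧ a ∈ ρ) ∧ ρ ∪ {a, b} ∈ Δ)) ∪
        Δ.filter (fun ρ => (a ∉ ρ ∧ b ∉ ρ) ∧ ρ ∪ {a, b} ∈ Δ) := by
    ext ρ
    simp only [mem_union, mem_filter, insert_subset_iff, singleton_subset_iff]
    tauto
  rw [e1, sum_union, sum_union]
  · rw [Finset.disjoint_left]
    intro ρ h4 h5
    rw [mem_filter] at h4 h5
    exact h5.2.1.1 h4.2.1.2
  · rw [Finset.disjoint_left]
    intro ρ h4 h5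
    rw [mem_union, mem_filter, mem_filter] at h4
    rw [mem_filter] at h5
    rcases h4 with h4 | h4
    · exact h5.2.1.2 h4.2.1.2
    · exact h5.2.1.1 h4.2.1.2

/-- the potential -/
noncomputable def pot (V : Finset ℕ) (Δ : Cx) : ℝ[X] := ∑ τ ∈ Δ, X ^ (τ \ V).card * gp (τ ∩ V).card

theorem pot_sub {Δ : Cx} (hd : ∀ σ ∈ Δ, ∀ τ : Finset ℕ, τ ⊆ σ → τ ∈ Δ) {V : Finset ℕ} {a b : ℕ}
    (hab : a ≠ b) (ha : a ∈ V) (hb : b ∈ V) (hw : fresh Δ ∉ V) :
    pot V (sub Δ {a, b}) = pot V Δ := by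
  unfold pot
  rw [sum_sub hd hab]
  have h0 : ∑ τ ∈ Δ, (X : ℝ[X]) ^ (τ \ V).card * gp (τ ∩ V).card =
      ∑ σ ∈ Δ.filter (fun σ => ¬ {a, b} ⊆ σ), X ^ (σ \ V).card * gp (σ ∩ V).card +
      ∑ τ ∈ Δ.filter (fun τ => {a, b} ⊆ τ), X ^ (τ \ V).card * gp (τ ∩ V).card := by
    rw [add_comm, sum_filter_add_sum_filter_not]
  rw [h0]
  congr 1
  refine sum_congr rfl fun τ hτ => ?_
  rw [mem_filter] at hτ
  obtain ⟨hτ, hs⟩ := hτ
  have haτ : a ∈ τ := hs (by simp)
  have hbτ : b ∈ τ := hs (by simp)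
  have hwτ : fresh Δ ∉ τ := fresh_notMem hτ
  set w := fresh Δ with hwdef
  have hwV : w ∉ τ \ V := fun h => hwτ (mem_sdiff.1 h).1
  have hc : ∃ n, (τ ∩ V).card = n + 2 := by
    have h1 : ({a, b} : Finset ℕ) ⊆ τ ∩ V := by
      intro x hx
      rw [mem_insert, mem_singleton] at hx
      rcases hx with rfl | rfl
      · exact mem_inter.2 ⟨haτ, ha⟩
      · exact mem_inter.2 ⟨hbτ, hb⟩
    have h2 := card_le_card h1
    rw [card_pair hab] at h2
    exact ⟨(τ ∩ V).card - 2, by omega⟩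
  obtain ⟨n, hn⟩ := hc
  have d1 : insert w (τ.erase a) \ V = insert w (τ \ V) := by
    ext x
    simp only [mem_sdiff, mem_insert, mem_erase]
    constructor
    · rintro ⟨h1 | h1, h2⟩
      · exact Or.inl h1
      · exact Or.inr ⟨h1.2, h2⟩
    · rintro (h1 | h1)
      · exact ⟨Or.inl h1, h1 ▸ hw⟩
      · exact ⟨Or.inr ⟨fun h => h1.2 (h ▸ ha), h1.1⟩, h1.2⟩
  have d2 : insert w (τ.erase b) \ V = insert w (τ \ V) := by
    ext x
    simp only [mem_sdiff, mem_insert, mem_erase]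
    constructor
    · rintro ⟨h1 | h1, h2⟩
      · exact Or.inl h1
      · exact Or.inr ⟨h1.2, h2⟩
    · rintro (h1 | h1)
      · exact ⟨Or.inl h1, h1 ▸ hw⟩
      · exact ⟨Or.inr ⟨fun h => h1.2 (h ▸ hb), h1.1⟩, h1.2⟩
  have d3 : insert w ((τ.erase a).erase b) \ V = insert w (τ \ V) := by
    ext x
    simp only [mem_sdiff, mem_insert, mem_erase]
    constructor
    · rintro ⟨h1 | h1, h2⟩
      · exact Or.inl h1
      · exact Or.inr ⟨h1.2.2, h2⟩
    · rintro (h1 | h1)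
      · exact ⟨Or.inl h1, h1 ▸ hw⟩
      · exact ⟨Or.inr ⟨fun h => h1.2 (h ▸ hb), fun h => h1.2 (h ▸ ha), h1.1⟩, h1.2⟩
  have i1 : insert w (τ.erase a) ∩ V = (τ ∩ V).erase a := by
    ext x
    simp only [mem_inter, mem_insert, mem_erase]
    constructor
    · rintro ⟨h1 | h1, h2⟩
      · exact absurd (h1 ▸ h2) hw
      · exact ⟨h1.1, h1.2, h2⟩
    · rintro ⟨h1, h2, h3⟩
      exact ⟨Or.inr ⟨h1, h2⟩, h3⟩
  have i2 : insert w (τ.erase b) ∩ V = (τ ∩ V).erase b := by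
    ext x
    simp only [mem_inter, mem_insert, mem_erase]
    constructor
    · rintro ⟨h1 | h1, h2⟩
      · exact absurd (h1 ▸ h2) hw
      · exact ⟨h1.1, h1.2, h2⟩
    · rintro ⟨h1, h2, h3⟩
      exact ⟨Or.inr ⟨h1, h2⟩, h3⟩
  have i3 : insert w ((τ.erase a).erase b) ∩ V = ((τ ∩ V).erase a).erase b := by
    ext x
    simp only [mem_inter, mem_insert, mem_erase]
    constructor
    · rintro ⟨h1 | h1, h2⟩
      · exact absurd (h1 ▸ h2) hw
      · exact ⟨h1.1, h1.2.1, h1.2.2, h2⟩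
    · rintro ⟨h1, h2, h3, h4⟩
      exact ⟨Or.inr ⟨h1, h2, h3⟩, h4⟩
  have haI : a ∈ τ ∩ V := mem_inter.2 ⟨haτ, ha⟩
  have hbI : b ∈ τ ∩ V := mem_inter.2 ⟨hbτ, hb⟩
  rw [d1, d2, d3, i1, i2, i3, card_insert_of_notMem hwV, card_erase_of_mem haI,
    card_erase_of_mem hbI, card_erase_of_mem (mem_erase.2 ⟨hab.symm, hbI⟩), card_erase_of_mem haI, hn]
  have e1 : n + 2 - 1 = n + 1 := by omega
  have e2 : n + 1 - 1 = n := by omega
  rw [e1, e2]
  change _ = X ^ (τ \ V).card * (X * (2 * gp (n + 1) + gp n))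
  ring

theorem gp_small {n : ℕ} (h : n ≤ 1) : gp n = X ^ n := by
  interval_cases n
  · rw [pow_zero]; rfl
  · rw [pow_one]; rfl

theorem fold (V : Finset ℕ) : ∀ (l : List (Finset ℕ)) (d : ℕ) (Δ : Cx), IsPure d Δ → l.Nodup →
    (∀ e, e ∈ l ↔ e ∈ edges Δ ∧ e ⊆ V) → (∀ v ∈ V, {v} ∈ Δ) → fp (l.foldl sub Δ) = pot V Δ := by
  intro l
  induction l with
  | nil =>
    intro d Δ hΔ _ hl hV
    rw [List.foldl_nil]
    unfold fp pot
    refine sum_congr rfl fun τ hτ => ?_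
    have h1 : (τ ∩ V).card ≤ 1 := by
      by_contra hno
      push Not at hno
      obtain ⟨a, ha, b, hb, hab⟩ := one_lt_card.1 hno
      have h2 : ({a, b} : Finset ℕ) ∈ ([] : List (Finset ℕ)) := by
        rw [hl]
        refine ⟨?_, ?_⟩
        · unfold edges
          rw [mem_filter]
          refine ⟨hΔ.down τ hτ _ ?_, card_pair hab⟩
          intro x hx
          rw [mem_insert, mem_singleton] at hx
          rcases hx with rfl | rfl
          · exact (mem_inter.1 ha).1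
          · exact (mem_inter.1 hb).1
        · intro x hx
          rw [mem_insert, mem_singleton] at hx
          rcases hx with rfl | rfl
          · exact (mem_inter.1 ha).2
          · exact (mem_inter.1 hb).2
      exact absurd h2 List.not_mem_nil
    rw [gp_small h1, ← pow_add]
    congr 1
    have h2 := card_sdiff_add_card_inter τ V
    omega
  | cons e l ih =>
    intro d Δ hΔ hnd hl hV
    rw [List.foldl_cons]
    have he := (hl e).1 List.mem_cons_self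
    obtain ⟨heE, heV⟩ := he
    have hw : fresh Δ ∉ V := fun h => fresh_notMem (hV _ h) (mem_singleton_self _)
    have he2 : e.card = 2 := edge_card heE
    obtain ⟨a, b, hab, rfl⟩ := card_eq_two.1 he2
    rw [List.nodup_cons] at hnd
    rw [ih d (sub Δ {a, b}) (isPure_sub hΔ heE) hnd.2 ?_ ?_]
    · exact pot_sub hΔ.down hab (heV (by simp)) (heV (by simp)) hw
    · intro e'
      have h1 : e' ∈ edges (sub Δ {a, b}) ∧ e' ⊆ V ↔ (e' ∈ edges Δ ∧ e' ⊆ V) ∧ e' ≠ {a, b} := by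
        unfold edges
        rw [mem_filter, mem_filter, mem_sub]
        constructor
        · rintro ⟨⟨⟨h2, h3⟩ | ⟨ρ, h2, h3, rfl⟩, h4⟩, h5⟩
          · exact ⟨⟨⟨h2, h4⟩, h5⟩, fun h6 => h3 (by rw [h6])⟩
          · exact absurd (h5 (mem_insert_self _ _)) hw
        · rintro ⟨⟨⟨h2, h3⟩, h4⟩, h5⟩
          refine ⟨⟨Or.inl ⟨h2, fun h6 => h5 ?_⟩, h3⟩, h4⟩
          exact (eq_of_subset_of_card_le h6 (by rw [h3, he2])).symm
      rw [h1, ← hl e', List.mem_cons]
      constructor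
      · intro h2
        exact ⟨Or.inr h2, fun h3 => hnd.1 (h3 ▸ h2)⟩
      · rintro ⟨h2 | h2, h3⟩
        · exact absurd h2 h3
        · exact h2
    · intro v hv
      rw [mem_sub]
      refine Or.inl ⟨hV v hv, fun h2 => ?_⟩
      have h3 := card_le_card h2
      rw [he2, card_singleton] at h3
      omega

end PkgRND

theorem pRND : S_RND := by
  rintro d Δ Δ' hΔ ⟨l, hnd, hl, rfl⟩
  have hsub : ∀ σ ∈ Δ, σ ⊆ Δ.sup id := fun σ hσ => Finset.le_sup (f := id) hσ
  rw [PkgRND.fold (Δ.sup id) l d Δ hΔ hnd ?_ ?_]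
  · unfold PkgRND.pot
    refine sum_congr rfl fun σ hσ => ?_
    rw [sdiff_eq_empty_iff_subset.2 (hsub σ hσ), inter_eq_left.2 (hsub σ hσ), card_empty, pow_zero,
      one_mul]
  · intro e
    rw [hl e]
    exact ⟨fun h => ⟨h, hsub e (edge_mem h)⟩, fun h => h.1⟩
  · intro v hv
    rw [mem_sup] at hv
    obtain ⟨σ, hσ, hv⟩ := hv
    exact hΔ.down σ hσ _ (singleton_subset_iff.2 hv)

end Pool.Agent.T2H83.GR
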