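import Pool.Agent.T2H83.GR.Defs

set_option autoImplicit false

/-!
# Project GR (MP_19e880_co): rounds of edge subdivisions, packages

THEOREM. Let `Δ` be a pure complex of rank `d` (dimension `d - 1`) and let `Δ'` arise from `Δ` by one round: every edge
of `Δ` is subdivided once, in an arbitrary order. Then `f(Δ')` does not depend on the order:
`∑ f_(n-1)(Δ') x^n = (1/2) ∑_(±) f(Δ)(x ± √(x + x^2))`, and for Eulerian complexes
`γ_j(Δ') = ∑_i C(d - i, 2 j - i) 2^(2 j - i) γ_i(Δ)`. Consequences: for every flag homology sphere with `d ≤ 13` all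
`γ_i` are positive after two or more rounds (`d ≤ 5`: one round), and for every `d` there is `N_d` such that for EVERY
pure Eulerian complex all `γ_i` are positive after `N ≥ N_d` rounds.

Every package is a theorem `p<ID> : S_<ID>` (other packages enter as hypotheses as listed in the table `gr3_tasks`),
in the file `Pool/Agent/T2H83/GR/<ID>.lean`, namespace `Pool.Agent.T2H83.GR`, own lemmas in the namespace `Pkg<ID>`.
-/

namespace Pool.Agent.T2H83.GR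

open Finset Polynomial Pool.Agent.T2H44.RS Filter Topology

/-- RND (45 min). The face polynomial after a round.
Proof. For a finite set `V` of natural numbers put `pot V Δ = ∑_(τ ∈ Δ) X^|τ \ V| gp |τ ∩ V|`.
(a) Step: if `Δ` is pure (only: closed under subsets), `e = {a, b} ∈ edges Δ`, `e ⊆ V` and `fresh Δ ∉ V`, then
`pot V (sub Δ e) = pot V Δ`. Indeed by `mem_sub` (`T2H44/RS/C1.lean`) the faces of `sub Δ e` are the faces of `Δ` that do
not contain `e`, and the sets `σ ∪ {w}` (`w = fresh Δ`) with `e ⊄ σ`, `σ ∪ e ∈ Δ`. The latter are, for the faces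
`τ ⊇ e` of `Δ`, the three sets `τ \ {a} ∪ {w}`, `τ \ {b} ∪ {w}`, `τ \ e ∪ {w}` (each set `σ ∪ {w}` for exactly one of these
three and exactly one `τ = σ ∪ e`), and with `|τ ∩ V| = n + 2`, `|τ \ V| = m` they contribute
`X^(m+1) (2 gp (n+1) + gp n) = X^m gp (n + 2)`, the contribution of `τ` to `pot V Δ`. (Compare `nf_succ_sub` in
`T2H44/RS/C2.lean` with `card_one`, `card_two`, `card_three`.)
(b) Induction on the list `l`, for all `Δ`: if `Δ` is pure, `l` is nodup, `e ∈ l ↔ e ∈ edges Δ ∧ e ⊆ V` for all `e`, and every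
`v ∈ V` satisfies `{v} ∈ Δ`, then `fp (l.foldl sub Δ) = pot V Δ`. If `l = []`, then `|τ ∩ V| ≤ 1` for all `τ ∈ Δ` (two elements of
`τ ∩ V` form an edge inside `V`), and `gp n = X^n` for `n ≤ 1`. If `l = e :: l'`, use (a): the edges of `sub Δ e` inside `V`
are those of `Δ` other than `e` (`fresh Δ ∉ V` since `v < fresh Δ` for `{v} ∈ Δ`, `mem_lt_fresh`), and `{v} ∈ sub Δ e`;
`isPure_sub` is in `T2H44/RS/C1.lean`.
(c) Take for `V` the set of all `v` with `{v} ∈ Δ` (`Δ.sup id`); all faces are subsets of `V`, so `pot V Δ = ∑ gp |σ|`. -/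
def S_RND : Prop := ∀ (d : ℕ) (Δ Δ' : Cx), IsPure d Δ → Round Δ Δ' → fp Δ' = ∑ σ ∈ Δ, gp σ.card

/-- PRS (25 min). Rounds exist and preserve purity, the Eulerian property and flagness.
Proof. Induction on the list, for all complexes: if `Δ` is pure and all the members of the nodup list `l` are edges of `Δ`, then
`l.foldl sub Δ` is pure (Eulerian, flag if `Δ` is), by `isPure_sub`, `isEul_sub`, `isFlag_sub` in `T2H44/RS/C1.lean`, `C6.lean`.
The members of the tail of `e :: l` are edges of `sub Δ e`: an edge `e' ≠ e` of `Δ` does not contain `e` (both have two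
elements), so it is in `sub Δ e` by `mem_sub`. Existence: `l = (edges Δ).toList`. For `Rounds` induction on `N`. -/
def S_PRS : Prop :=
  (∀ (d : ℕ) (Δ Δ' : Cx), IsPure d Δ → Round Δ Δ' →
    IsPure d Δ' ∧ (IsEul d Δ → IsEul d Δ') ∧ (IsFlag Δ → IsFlag Δ')) ∧
  (∀ (d : ℕ) (Δ Δ' : Cx) (N : ℕ), IsPure d Δ → Rounds N Δ Δ' →
    IsPure d Δ' ∧ (IsEul d Δ → IsEul d Δ') ∧ (IsFlag Δ → IsFlag Δ')) ∧
  (∀ (Δ : Cx) (N : ℕ), ∃ Δ', Rounds N Δ Δ')

/-- GEV (15 min). Evaluation of `gp`: with `y = x + √(x + x^2)` and `z = x - √(x + x^2)` one has `gp n (x) = (y^n + z^n) / 2`, as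
`y` and `z` are the roots of `r^2 = 2 x r + x`. Induction on `n` (two steps). -/
def S_GEV : Prop := ∀ (x : ℝ), 0 ≤ x → ∀ n : ℕ,
  (gp n).eval x = ((x + √(x + x ^ 2)) ^ n + (x - √(x + x ^ 2)) ^ n) / 2

/-- GAM (45 min; GEV is a hypothesis). The change of the `γ`-vector.
Proof. Both sides of the conclusion are polynomials, so it is enough to compare the values at all real `x ≥ 0`
(`Polynomial.eq_of_infinite_eval_eq`). Put `s = √(x + x^2)`, `w = 1 + 2 x`, so `s^2 = x + x^2`, `w^2 = 1 + 4 s^2`. By GEV the left-hand side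
is `(P(x + s) + P(x - s)) / 2`, where `P = ∑ b_n X^n = Phi d γ`. Now `(x + s) + (x + s)^2 = s (w + 2 s)` and
`1 + 2 (x + s) = w + 2 s`, so `P(x + s) = ∑_i γ_i s^i (w + 2 s)^i (w + 2 s)^(d - 2 i) = ∑_i γ_i s^i (w + 2 s)^(d - i)`, and the same with `-s`
for `s`. Hence the left-hand side is `∑_i γ_i (s^i (w + 2 s)^(d - i) + (-s)^i (w - 2 s)^(d - i)) / 2`. Expand by the binomial theorem:
`s^i (w + 2 s)^(d - i) = ∑_l C(d - i, l) 2^l s^(i + l) w^(d - i - l)`, and only the terms with `i + l = 2 j` even survive: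
`C(d - i, 2 j - i) 2^(2 j - i) (s^2)^j w^(d - 2 j)`, `i ≤ 2 j ≤ d` (for `2 j > d` the binomial coefficient vanishes). -/
def S_GAM : Prop := ∀ (d : ℕ) (b γ : ℕ → ℝ),
  ∑ n ∈ range (d + 1), C (b n) * X ^ n = Phi d γ →
  ∑ n ∈ range (d + 1), C (b n) * gp n = Phi d (Mat d γ)

/-- LNK (40 min). In a pure flag Eulerian complex of rank `d` every face with `n < d` vertices is contained in at least
`2 (d - n)` faces with `n + 1` vertices; double counting of the pairs (face with `n` vertices) ⊂ (face with `n + 1` vertices).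
Proof. Let `σ` be a face with `n` vertices, `τ = σ ∪ {v_1, …, v_(d-n)}` a facet (`facet`, with `d` vertices). For every `i` the face
`ρ_i = τ \ {v_i}` (with `d - 1` vertices) is contained in exactly two facets: in `IsEul` for `ρ_i` the faces containing `ρ_i` are `ρ_i`
and the facets containing it, so `(-1)^(d-1) + k (-1)^d = (-1)^d`, `k = 2`. So there is `w_i ≠ v_i`, `w_i ∉ ρ_i`, with
`ρ_i ∪ {w_i} ∈ Δ`; `w_i ∉ τ`. The `w_i` are different: if `w_i = w_j = w`, `i ≠ j`, then `w` is joined by an edge to all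
the vertices of `τ`, so `τ ∪ {w}` is a face by flagness, with `d + 1` vertices, contradiction. The sets `σ ∪ {v_i}`, `σ ∪ {w_i}` are
`2 (d - n)` different faces. -/
def S_LNK : Prop := ∀ (d : ℕ) (Δ : Cx), IsPure d Δ → IsEul d Δ → IsFlag Δ → ∀ n < d,
  2 * (d - n) * nf n Δ ≤ (n + 1) * nf (n + 1) Δ

/-- CFN (20 min). The coefficients of `Phi`. (`(X + X^2)^i = X^i (1 + X)^i = ∑_a C(i, a) X^(i + a)`,
`(1 + 2 X)^e = ∑_b C(e, b) 2^b X^b`.) -/
def S_CFN : Prop := ∀ (d : ℕ) (γ : ℕ → ℝ) (n : ℕ),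
  (Phi d γ).coeff n = ∑ i ∈ range (d / 2 + 1), γ i * (cfn d i n : ℝ)

/-- NUM (30 min). Purely numerical: for `2 ≤ d ≤ 13` the inequalities
`(n + 1) ff (n + 1) ≥ 2 (d - n) ff n` (`n < d`, `ff n = ∑_i γ_i cfn d i n`) and `γ_0 = 1` imply
that the vector `Mat d γ` (for `d ≤ 5`) and the vector `Mat d (Mat d γ)` are positive.
Proof. For each `d` unfold everything (`simp [Finset.sum_range_succ, Mat, cfn, Nat.choose]` or `norm_num`, `decide` for the numbers) and use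
`linarith`: it was checked with an exact LP solver that these linear implications hold (they hold with the values of the
cross polytope as lower bounds: `Mat d (Mat d γ) j ≥ Mat d (Mat d e0) j`; only the inequalities with `n ≤ d / 2` or so are needed). There are
at most six unknowns `γ 1, …, γ 6`. Hint: give the coefficient tables by separate lemmas proved by `decide` or `rfl` (they are natural
numbers), e.g. for `d = 6` the rows of `cfn` are `n = 0: 1 0 0 0; n = 1: 12 1 0 0; n = 2: 60 9 1 0; …`. -/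
def S_NUM : Prop := ∀ (d : ℕ), 2 ≤ d → d ≤ 13 → ∀ γ : ℕ → ℝ, γ 0 = 1 →
  (∀ n < d, 2 * ((d : ℝ) - n) * ∑ i ∈ range (d / 2 + 1), γ i * (cfn d i n : ℝ) ≤
    (n + 1) * ∑ i ∈ range (d / 2 + 1), γ i * (cfn d i (n + 1) : ℝ)) →
  ∀ j ≤ d / 2, (d ≤ 5 → 0 < Mat d γ j) ∧ 0 < Mat d (Mat d γ) j

/-- INV (20 min). The `γ_i` are linear functions of the coefficients (fixed constants). Proof: strong induction on `i` with
`PkgGL.coeff_rec` of `T2H44/RS/GL.lean`: `γ_i = b_i - ∑_(l < i) γ_l cf d l i`. -/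
def S_INV : Prop := ∀ (d : ℕ), ∃ c : ℕ → ℕ → ℝ, ∀ (b γ : ℕ → ℝ),
  ∑ n ∈ range (d + 1), C (b n) * X ^ n = Phi d γ →
  ∀ i ≤ d / 2, γ i = ∑ n ∈ range (d + 1), c i n * b n

/-- UNI (60 min). Uniform convergence of the normalised face numbers.
Proof. `(gp k).coeff n` is nonnegative, `0` for `n > k`, `2^(k-1)` for `n = k ≥ 1` and `1` for `n = k = 0`, `(gp k).coeff 0 = 0` for `k ≥ 1`
(inductions from the recursion). So, with `a^N = (GG d)^[N] a` and `λ = 2^(d-1)`, `v^N_n = a^N_n / λ^N`: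
`v^(N+1)_n = θ_n v^N_n + ∑_(n < k ≤ d) (gp k).coeff n / λ v^N_k`, where `θ_n = (gp n).coeff n / λ`, `θ_d = 1` and `θ_n ≤ 1/2` for `n < d`. Downward
induction on `n`: `v^N_d = 1`; for `n < d` the second sum converges uniformly in `a` (to `s_n = ∑_(n < k) (gp k).coeff n / λ ρ_k`), and
`v^N_n` is bounded by a constant uniformly in `a` at `N = 0`, so `v^N_n → s_n / (1 - θ_n) =: ρ_n` uniformly. Elementary lemma: if
`x_(N+1) = θ x_N + s_N`, `0 ≤ θ ≤ 1/2`, `|x_0| ≤ B`, `|s_N| ≤ B` for all `N` and `|s_N - s| ≤ ε` for `N ≥ M`, then `|x_N - s / (1 - θ)| ≤ 4 ε` for all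
`N ≥ M'`, where `M'` depends only on `θ, B, M, ε`. -/
def S_UNI : Prop := ∀ (d : ℕ), 2 ≤ d → ∃ ρ : ℕ → ℝ, ∀ ε : ℝ, 0 < ε → ∃ N₀ : ℕ, ∀ a : ℕ → ℝ, a d = 1 →
  (∀ n ≤ d, 0 ≤ a n ∧ a n ≤ 2 ^ d) → ∀ N ≥ N₀, ∀ n ≤ d,
    |(GG d)^[N] a n / (2 ^ (d - 1)) ^ N - ρ n| < ε

/-- LOW (40 min). Growth of the `γ`-vectors of the cross polytope.
Proof. All entries of `Mat` are nonnegative, and `ℓ(γ) = ∑_(i ≤ d/2) γ_i 2^(d - 2 i)` satisfies `ℓ(Mat d γ) = 2^(d-1) ℓ(γ)`: for every `i ≤ d/2`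
`∑_(j ≤ d/2, 2 j ≥ i) C(d - i, 2 j - i) 2^(2 j - i) 2^(d - 2 j) = 2^(d-i) ∑_j C(d - i, 2 j - i) = 2^(d-i) 2^(d-i-1)` (a sum over the numbers
`l = 2 j - i` of one parity, and `d - i ≥ 1`), `= 2^(d-1) 2^(d-2i)`. [Or: compare the coefficients of `X^d` in GAM: the coefficient of `X^d` of
`Phi d γ` is `ℓ(γ)`, and that of `gp d` is `2^(d-1)`.] So with `g^N = (Mat d)^[N] e0` one has
`∑_i g^N_i 2^(d-2i) = 2^d λ^N`, `λ = 2^(d-1)`, and `g^N_0 = 1` (row `0` of `Mat`), so `∑_(1 ≤ i ≤ d/2) g^N_i ≥ λ^N - 1`. Furthermore `(Mat d γ)_j ≥ γ_i` for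
`γ ≥ 0` and `i ≤ 2 j`, `1 ≤ i, j ≤ d/2` (the entry `C(d - i, 2 j - i) 2^(2j-i)` is `≥ 1` since `2 j ≤ d`). Hence after `d` further
steps `g^(N+d)_j ≥ g^N_i` for all `1 ≤ i, j ≤ d/2` (from `i` one can go up to any larger index in one step, down from `i ≥ 2` to `i - 1`
(as `i ≤ 2 (i - 1)`), and stay put; so `j` is reached from `i` in at most `d/2 ≤ d` steps), so `(d/2) g^(N+d)_j ≥ λ^N - 1`. -/
def S_LOW : Prop := ∀ (d : ℕ), 2 ≤ d → ∀ (N : ℕ), ∀ j, 1 ≤ j → j ≤ d / 2 →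
  (2 : ℝ) ^ ((d - 1) * N) - 1 ≤ d * (Mat d)^[N + d] e0 j

/-- ITE (20 min; GAM is a hypothesis). Iteration of GAM: with `b^N = (GG d)^[N] b`.
Proof. Induction on `N`: `∑_n C (GG d a n) X^n = ∑_k C (a k) gp k` because `gp k` has degree `≤ k ≤ d`
(`Polynomial.as_sum_range'`). -/
def S_ITE : Prop := ∀ (d : ℕ) (b γ : ℕ → ℝ),
  ∑ n ∈ range (d + 1), C (b n) * X ^ n = Phi d γ →
  ∀ N : ℕ, ∑ n ∈ range (d + 1), C ((GG d)^[N] b n) * X ^ n = Phi d ((Mat d)^[N] γ)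

/-- FRN (20 min; RND and PRS are hypotheses). Face numbers after `N` rounds. Proof: induction on `N`;
`∑_(σ ∈ Δ) gp |σ| = ∑_(k ≤ d) nf k Δ gp k` (`face_poly` in `T2H44/RS/DS.lean` is similar) and comparison of the coefficients with RND. -/
def S_FRN : Prop := ∀ (d : ℕ) (Δ Δ' : Cx) (N : ℕ), IsPure d Δ → Rounds N Δ Δ' →
  ∀ n ≤ d, (nf n Δ' : ℝ) = (GG d)^[N] (fun k => (nf k Δ : ℝ)) n

/-- POS (45 min; INV, UNI, LOW, ITE are hypotheses). Positivity of the limit.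
Proof. Take `ρ` from UNI and `c` from INV. Apply UNI and ITE to `a_n = C(d, n) 2^n / 2^d` (`0 ≤ a_n ≤ 2^d`, `a_d = 1`;
`∑ a_n X^n = 2^(-d) (1 + 2 X)^d = Phi d (2^(-d) e0)`; `Mat` and `GG` are linear). By INV
`2^(-d) ((Mat d)^[N] e0)_i = ∑_n c i n (GG d)^[N] a n`, so, divided by `λ^N`, it tends to `∑_n c i n ρ n`. By LOW it is at least
`2^(-d) (λ^(N-d) - 1) / (d λ^N) ≥ 2^(-d) λ^(-d) / (2 d)` for large `N` (`λ = 2^(d-1) ≥ 2`). So the limit is positive. -/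
def S_POS : Prop := ∀ (d : ℕ), 2 ≤ d → ∃ (ρ : ℕ → ℝ) (c : ℕ → ℕ → ℝ),
  (∀ ε : ℝ, 0 < ε → ∃ N₀ : ℕ, ∀ a : ℕ → ℝ, a d = 1 →
    (∀ n ≤ d, 0 ≤ a n ∧ a n ≤ 2 ^ d) → ∀ N ≥ N₀, ∀ n ≤ d,
      |(GG d)^[N] a n / (2 ^ (d - 1)) ^ N - ρ n| < ε) ∧
  (∀ (b γ : ℕ → ℝ), ∑ n ∈ range (d + 1), C (b n) * X ^ n = Phi d γ →
    ∀ i ≤ d / 2, γ i = ∑ n ∈ range (d + 1), c i n * b n) ∧
  ∀ i, 1 ≤ i → i ≤ d / 2 → 0 < ∑ n ∈ range (d + 1), c i n * ρ n

/-- FIN (40 min; POS, FRN, PRS are hypotheses). All pure Eulerian complexes after many rounds.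
Proof. Take `ρ, c` from POS and `η = min_i ∑ c i n ρ n > 0`. Let `Δ'` arise from `Δ` by `N` rounds, `γ` its `γ`-vector. `gamma_real` in
`T2H44/RS/DS.lean` gives the polynomial identity `∑ nf n Δ' X^n = Phi d γ`, so `γ_i = ∑_n c i n nf n Δ'`. By FRN
`nf n Δ' = (GG d)^[N] (nf · Δ) n = nf d Δ · (GG d)^[N] a n` with `a_n = nf n Δ / nf d Δ` (`GG` is linear; `nf_le` in `T2H44/RS/C3.lean` gives
`a_n ≤ 2^d`, and `nf d Δ ≥ 1`). So `γ_i / (nf d Δ λ^N) = ∑_n c i n ((GG d)^[N] a n / λ^N)` differs from `∑ c i n ρ n ≥ η` by at most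
`ε ∑ |c i n| < η`, for `N ≥ N₀(ε)`. For `i = 0`: `gamma_zero` in `T2H44/RS/Fin.lean` (`γ_0 = 1`). -/
def S_FIN : Prop := ∀ (d : ℕ), 2 ≤ d → ∃ N₀ : ℕ, ∀ (Δ Δ' : Cx) (N : ℕ), N₀ ≤ N → IsPure d Δ → IsEul d Δ →
  Rounds N Δ Δ' → ∀ γ, IsGamma d Δ' γ → ∀ i ≤ d / 2, 0 < γ i

end Pool.Agent.T2H83.GR
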