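import Pool.Agent.T2H83.GR.Defs

set_option autoImplicit false

/-!
# Project GR2 (MP_19e880_co): the first Gal inequalities after one round, in all dimensions

THEOREM. Let `Δ` be a flag Eulerian complex of rank `d` (any `d`) and let `Δ'` arise from `Δ` by one round of edge subdivisions.
Then `(d - 2 j + 1) γ_j(Δ') ≥ (d + 1 - 2 j² - j) f_(2j-1)(Δ)` for all `j` with `2 j² + j ≤ d + 1`; so `γ_j(Δ') > 0` for all `j` with
`2 j² + j ≤ d`.

PROOF. Let `S` be the Catalan series (`S = 1 + X S²`), `K = S(X²)`, `q = 1 + X K`, `c = √(1 - 4 X²) = 1 - 2 X² K`. Then `A = X q` and `B = c`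
satisfy `B + 2 A = 1 + 2 X` and `A (A + B) = X (1 + 2 X)`, so with `∑ b_n X^n = Phi d γ`
`∑ b_n A^n B^(d-n) = ∑ γ_i (A (A + B))^i (B + 2 A)^(d - 2 i) = ∑ γ_i X^i (1 + 2 X)^(d - i)`. Compare the coefficients of `X^(2 j)` (HOM).
The coefficient of `X^a` in `√(1 - 4 X)^(e + 2 a)` is `(-1)^a ∏_(i < a) 2 (e + 2 i + 2) / (i + 1)` (SER). Sorting the
terms by `s = n + 2 a` one gets alternating sums (REO), and the inequalities `(n + 1) b_(n+1) ≥ 2 (d - n) b_n` show that their terms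
decrease in absolute value (PSJ).

Every package is a theorem `p<ID> : S_<ID>` (other packages enter as hypotheses), in the file
`Pool/Agent/T2H83/GR/<ID>.lean`, namespace `Pool.Agent.T2H83.GR`, own lemmas in the namespace `Pkg<ID>`.
-/

namespace Pool.Agent.T2H83.GR

open Finset PowerSeries

/-- the Catalan series -/
noncomputable def cS : ℝ⟦X⟧ := PowerSeries.mk fun n => (catalan n : ℝ)

/-- `√(1 - 4 X)` -/
noncomputable def c0 : ℝ⟦X⟧ := 1 - 2 * X * cS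

/-- `1 + X S(X²)` -/
noncomputable def qS : ℝ⟦X⟧ := 1 + X * expand 2 two_ne_zero cS

/-- `√(1 - 4 X²)` -/
noncomputable def cE : ℝ⟦X⟧ := expand 2 two_ne_zero c0

/-- `∏_(i < a) 2 (e + 2 i + 2) / (i + 1)` -/
noncomputable def TT (e : ℝ) (a : ℕ) : ℝ := ∏ i ∈ range a, 2 * (e + 2 * (i + 1)) / (i + 1)

/-- SER (25 min). Facts on the series. (1) from `PowerSeries.catalanSeries_sq_mul_X_add_one`
(`Mathlib/RingTheory/PowerSeries/Catalan.lean`, over `ℕ`; use `PowerSeries.map`, or repeat its proof with `catalan_succ'`): `S = 1 + X S²`.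
(2) `c0² = 1 - 4 X` by `ring`-like manipulation with (1). (3), (4): see the header, with `K = expand 2 S`, `K = 1 + X² K²`.
(5) Induction on `a`: with the derivative `D` (`PowerSeries.derivative`), `c0 * D c0 = -2` from (2), so
`D (c0^(m+2)) = (m + 2) c0^(m+1) D c0 = -2 (m + 2) c0^m`, hence `(a + 1) coeff (a+1) (c0^(m+2)) = -2 (m + 2) coeff a (c0^m)`,
`m = e + 2 a`; and `coeff 0 (c0^e) = 1`. -/
def S_SER : Prop :=
  (cS = 1 + X * cS ^ 2) ∧
  (c0 ^ 2 = 1 - 4 * X) ∧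
  (cE + 2 * (X * qS) = 1 + 2 * X) ∧
  ((X * qS) * (X * qS + cE) = X * (1 + 2 * X)) ∧
  (∀ e a : ℕ, coeff a (c0 ^ (e + 2 * a)) = (-1) ^ a * TT e a)

/-- QCO (15 min). The coefficients of the powers of `q` are nonnegative and increase with the exponent.
(`q^(n+2) = q^n q^2`, `q^2 = 1 + r` with `r` of nonnegative coefficients.) -/
def S_QCO : Prop :=
  (∀ n l : ℕ, 0 ≤ coeff l (qS ^ n)) ∧ (∀ n l : ℕ, coeff l (qS ^ n) ≤ coeff l (qS ^ (n + 2))) ∧
  (∀ n : ℕ, coeff 0 (qS ^ n) = 1)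

/-- HOM (30 min; SER is a hypothesis). See the header. `cE` has constant coefficient `1`, so it is invertible
(`PowerSeries.mul_inv_cancel`): evaluate the polynomial identity at `X qS cE⁻¹` (`Polynomial.aeval`, into `ℝ⟦X⟧`) and multiply
by `cE^d`. The coefficient of `X^(2j)` in `(X qS)^n cE^(d-n)` is that of `X^(2j-n)` in `qS^n cE^(d-n)` if `n ≤ 2 j`, else `0`
(`PowerSeries.coeff_X_pow_mul'`), that of `X^i (1 + 2 X)^(d-i)` is `C(d - i, 2 j - i) 2^(2 j - i)` for `i ≤ 2 j`, else `0`. -/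
def S_HOM : Prop := ∀ (d : ℕ) (b γ : ℕ → ℝ),
  ∑ n ∈ range (d + 1), Polynomial.C (b n) * Polynomial.X ^ n = Phi d γ →
  ∀ j : ℕ, 2 * j ≤ d →
    Mat d γ j = ∑ n ∈ range (2 * j + 1), b n * coeff (2 * j - n) (qS ^ n * cE ^ (d - n))

/-- REO (25 min; SER is a hypothesis). `coeff (2j-n) (qS^n cE^(d-n)) = ∑_(2 a ≤ 2j - n) coeff (2j-n-2a) (qS^n) coeff a (c0^(d-n))`
(`PowerSeries.coeff_mul`, `coeff_expand`, `cE^m = expand (c0^m)`). For `s = n + 2 a` one has `d - n = (d - s) + 2 a`, use SER (5), and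
exchange the sums: `(n, a) ↦ (s, a)`, `n = s - 2 a`. -/
def S_REO : Prop := ∀ (d j : ℕ), 2 * j ≤ d → ∀ b : ℕ → ℝ,
  ∑ n ∈ range (2 * j + 1), b n * coeff (2 * j - n) (qS ^ n * cE ^ (d - n)) =
  ∑ s ∈ range (2 * j + 1), ∑ a ∈ range (s / 2 + 1),
    (-1) ^ a * (b (s - 2 * a) * coeff (2 * j - s) (qS ^ (s - 2 * a)) * TT ((d - s : ℕ) : ℝ) a)

/-- PSJ (35 min; QCO is a hypothesis). The alternating sums.
Proof. Lemma: if `0 ≤ u a` and `u (a + 1) ≤ u a` for `a < M` (and `0 ≤ u M`) then `∑_(a ≤ M) (-1)^a u a ≥ 0`, and it is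
`≥ u 0 - u 1` if `M ≥ 1` (induction in steps of two, or on `M` for all `u`: the sum is `u 0 - ∑ (-1)^a u (a+1)`, and the last
sum is between `0` and `u 1`). Let `u a = b (s - 2 a) * coeff l (qS^(s - 2 a)) * TT (d - s) a`, `l = 2 j - s`, `s ≤ 2 j`. For `2 (a + 1) ≤ s`,
`n = s - 2 (a + 1)`: `TT e (a + 1) = TT e a * 2 (e + 2 (a + 1)) / (a + 1)`, `e = d - s`, the coefficient of `qS^n` is at most that of
`qS^(n+2)`, and the hypothesis for `n` and `n + 1` gives `(n + 1)(n + 2) b (n + 2) ≥ 4 (d - n)(d - n - 1) b n`. As `d - n = e + 2 (a + 1)`, `u (a + 1) ≤ u a`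
follows from `(n + 1)(n + 2) ≤ 2 (a + 1)(d - n - 1)`; this holds since `(n + 1)(n + 2) ≤ (2 j - 1)(2 j) ≤ 2 (d - 2 j + 1)` (that is
`2 j² + j ≤ d + 1`) and `d - n - 1 ≥ d - 2 j + 1`, `n + 2 ≤ 2 j`.
So all the inner sums are nonnegative, and the one for `s = 2 j` is at least `u 0 - u 1 = b (2 j) - 2 (d - 2 j + 2) b (2 j - 2)`
(`j ≥ 1`), where `4 (d - 2 j + 2)(d - 2 j + 1) b (2 j - 2) ≤ (2 j - 1)(2 j) b (2 j)`, so
`(d - 2 j + 1) (u 0 - u 1) ≥ (d - 2 j + 1 - j (2 j - 1)) b (2 j)`. For `j = 0` the sum is `b 0`. -/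
def S_PSJ : Prop := ∀ (d j : ℕ) (b : ℕ → ℝ), 2 * j ^ 2 + j ≤ d + 1 → 2 * j ≤ d → (∀ n ≤ d, 0 ≤ b n) →
  (∀ n < d, 2 * ((d : ℝ) - n) * b n ≤ (n + 1) * b (n + 1)) →
  ((d : ℝ) + 1 - 2 * j ^ 2 - j) * b (2 * j) ≤ ((d : ℝ) + 1 - 2 * j) *
    ∑ s ∈ range (2 * j + 1), ∑ a ∈ range (s / 2 + 1),
      (-1) ^ a * (b (s - 2 * a) * coeff (2 * j - s) (qS ^ (s - 2 * a)) * TT ((d - s : ℕ) : ℝ) a)

end Pool.Agent.T2H83.GR
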