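import Pool.Agent.T2H83.GR.Stm2

set_option autoImplicit false

/-!
# Project GR3: the Gal inequalities after `M` rounds, in all dimensions

THEOREM. Let `r = 2^M`, `M ≥ 1`, and let `m` be a natural number with `m^r > 2 d`. For every flag Eulerian complex of rank `d`, after
`M` or more rounds of edge subdivisions, `γ_j > 0` for all `j` with `(m + 2) r j ≤ 2 d + 2`. (With `m = 2`: about `log log d` rounds suffice for
the first `d / (4 log d)` inequalities.)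

PROOF. `X(t) = C(d, t) 2^t` are the face numbers of the cross polytope. Let `b^(M)_n` be the face numbers after `M` rounds. Then
`b^(M)_(n+1) / b^(M)_n ≥ X(2^M (n+1)) / X(2^M n)` (RTN). Hence, with `r = 2^M` and `b = b^(M-1)`,
`b_(n+2) / b_n ≥ X(2^(M-1) (n+2)) / X(2^(M-1) n) ≥ X(r j) / X(r (j-1)) ≥ m^r > 2 d` for `n + 2 ≤ 2 j` (XLC, CRT), so that the terms of the
alternating sums in the formula for `γ_j` after one more round decrease (PSK).
-/

namespace Pool.Agent.T2H83.GR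

open Finset PowerSeries

/-- the face numbers of the cross polytope -/
def XX (d t : ℕ) : ℝ := (d.choose t : ℝ) * 2 ^ t

/-- XLC (10 min). Log-concavity. Proof: for `s + 1 ≤ d` one has `XX (s+1) = XX s * 2 (d - s) / (s + 1)`, and `(d - s)/(s + 1)` decreases;
induction on `t`, and on `s - s'` (or only on `t`: `XX (s+t+1) XX s' ≤ XX s XX (s'+t+1)` from the statement for `t` and
`(d - s - t)(s' + t + 1) ≤ (d - s' - t)(s + t + 1)`, `Nat.choose_succ_right_eq`). -/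
def S_XLC : Prop := ∀ (d s' s t : ℕ), s' ≤ s → XX d (s + t) * XX d s' ≤ XX d s * XX d (s' + t)

/-- RTN (35 min; XLC is a hypothesis). The ratios of the face numbers after `M` rounds.
Proof. Nonnegativity: the coefficients of `gp k` are nonnegative. Induction on `M` (use `Function.iterate_succ_apply'`). One step: let `r ≥ 1`,
`b ≥ 0` and (H) `XX (r (n+1)) b n ≤ XX (r n) b (n+1)` for all `n` with `r (n+1) ≤ d`, and `b' = GG d b`. Claim: if `2 r (n+1) ≤ d` then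
`XX (2 r (n+1)) b' n ≤ XX (2 r n) b' (n+1)`. Put `g k n = (gp k).coeff n`; by the recursion of `gp`, `g k n = 0` for `k > 2 n`
(induction in steps of two; `gp k` is divisible by `X^((k+1)/2)`), and `g (k+2) (n+1) = 2 g (k+1) n + g k n ≥ g k n`. For `k ≤ 2 n`: (H) for `k` and
`k + 1` gives `XX (r (k+2)) b k ≤ XX (r k) b (k+2)` (cancel `XX (r (k+1)) > 0`, as `r (k+1) ≤ d`), and XLC with `s' = r k ≤ s = 2 r n`, `t = 2 r`
gives `XX (2 r (n+1)) XX (r k) ≤ XX (2 r n) XX (r (k+2))`. Hence `XX (2 r (n+1)) b k ≤ XX (2 r n) b (k+2)` (cancel `XX (r k) > 0`).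
Sum over `k ≤ 2 n` with the weights `g k n`:
`XX (2 r (n+1)) b' n ≤ XX (2 r n) ∑_(k ≤ 2 n) b (k+2) g (k+2) (n+1) ≤ XX (2 r n) b' (n+1)`, as `k + 2 ≤ 2 n + 2 ≤ d`. -/
def S_RTN : Prop := ∀ (d : ℕ) (b : ℕ → ℝ), (∀ n, 0 ≤ b n) →
  (∀ n < d, XX d (n + 1) * b n ≤ XX d n * b (n + 1)) → ∀ M : ℕ,
    (∀ n, 0 ≤ (GG d)^[M] b n) ∧
    ∀ n, 2 ^ M * (n + 1) ≤ d →
      XX d (2 ^ M * (n + 1)) * (GG d)^[M] b n ≤ XX d (2 ^ M * n) * (GG d)^[M] b (n + 1)

/-- PSK (25 min; QCO is a hypothesis). The alternating sums, second form: as PSJ in `Stm2.lean` (if `PSJ.lean` has landed, reuse its lemmas).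
With `u a = b (s - 2 a) * coeff l (qS^(s - 2 a)) * TT (d - s) a`, `l = 2 j - s`, `s ≤ 2 j`, `e = d - s`, `2 (a + 1) ≤ s`, `n = s - 2 (a + 1)`:
`TT e (a + 1) = TT e a * 2 (e + 2 (a + 1)) / (a + 1)`, `e + 2 (a + 1) = d - n`, and `2 (d - n) b n ≤ b (n + 2)` gives `u (a + 1) ≤ u a`. So all the
inner sums are nonnegative, and the one for `s = 2 j` is at least `u 0 - u 1 = b (2 j) - 2 (d - 2 j + 2) b (2 j - 2)`. -/
def S_PSK : Prop := ∀ (d j : ℕ) (b : ℕ → ℝ), 1 ≤ j → 2 * j ≤ d → (∀ n, 0 ≤ b n) →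
  (∀ n, n + 2 ≤ 2 * j → 2 * ((d : ℝ) - n) * b n ≤ b (n + 2)) →
  b (2 * j) - 2 * ((d : ℝ) - 2 * j + 2) * b (2 * j - 2) ≤
    ∑ s ∈ range (2 * j + 1), ∑ a ∈ range (s / 2 + 1),
      (-1) ^ a * (b (s - 2 * a) * coeff (2 * j - s) (qS ^ (s - 2 * a)) * TT ((d - s : ℕ) : ℝ) a)

/-- CRT (15 min). For `t + 1 ≤ r j`: `XX (t + 1) = XX t * 2 (d - t) / (t + 1)` and `2 (d - t) ≥ 2 (d - r j + 1) ≥ m (r j) ≥ m (t + 1)`, so
`XX (t + 1) ≥ m XX t`; hence `XX (r j) ≥ m^r XX (r (j - 1)) > 2 d XX (r (j - 1))`. (`r j ≤ d` follows from the hypotheses.) -/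
def S_CRT : Prop := ∀ (d j r m : ℕ), 1 ≤ j → 1 ≤ r → 2 * d < m ^ r → (m + 2) * (r * j) ≤ 2 * d + 2 →
  r * j ≤ d ∧ 2 * (d : ℝ) * XX d (r * (j - 1)) < XX d (r * j)

end Pool.Agent.T2H83.GR
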