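import Pool.Agent.T2H83.GR.Stm2

set_option autoImplicit false

/-!
# Project GR, fourth part (MP_19e880_co): the Gal inequalities for complexes with large links (no subdivisions)

THEOREM. Let `Δ` be a pure Eulerian complex of rank `d`, `J ≤ d / 2`, and let the link of every face with `n < J` vertices have at least
`2 (n + 1) (d - n)` vertices. Then `γ_j ≥ f_(j-1) - 2 (d - j + 1) f_(j-2) ≥ 0` for `1 ≤ j ≤ J`.

PROOF. Let `S` be the Catalan series, `c = √(1 - 4 X) = 1 - 2 X S`. `A = X S` and `B = c` satisfy `B + 2 A = 1` and `A (A + B) = X`. So with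
`∑ b_n X^n = Phi d γ` one has `∑ b_n A^n B^(d-n) = ∑ γ_i X^i` (HM0). The rest is as in `Stm2.lean`, with `t(e, a) = ∏_(i < a) 2 (e - 2 i) / (i + 1)`,
`coeff a (c^e) = (-1)^a t(e, a)`.

These are the analogues, with simpler series, of the packages SER, QCO, HOM, REO, PSJ of `Stm2.lean`, whose files (`SER.lean`, `QCO.lean`,
`HOM.lean`, `REO.lean`, `PSJ.lean`) can be copied and adapted.
-/

namespace Pool.Agent.T2H83.GR

open Finset PowerSeries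

/-- `∏_(i < a) 2 (e - 2 i) / (i + 1)` -/
noncomputable def T0 (e : ℝ) (a : ℕ) : ℝ := ∏ i ∈ range a, 2 * (e - 2 * i) / (i + 1)

/-- SR0 (15 min). `c0 = 1 - 2 X S` gives (1), (2) with `S = 1 + X S²`. (3): `c0 * D c0 = -2`, so `(1 - 4 X) * D (c0^e) = c0^2 * D (c0^e) = -2 e c0^e`,
and the coefficients satisfy `(a + 1) t_(a+1) - 4 a t_a = -2 e t_a`; induction on `a`. (4) `T0` for `a ≤ ...` and the coefficients of the powers
of `S`: nonnegative, increasing with the exponent (`S = 1 + r`, `r` with nonnegative coefficients), constant coefficient `1`.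
(`PkgSER` in `SER.lean`, `PkgQCO` in `QCO.lean` have the analogous lemmas.) -/
def S_SR0 : Prop :=
  (c0 + 2 * (X * cS) = 1) ∧ ((X * cS) * (X * cS + c0) = X) ∧
  (∀ e a : ℕ, coeff a (c0 ^ e) = (-1) ^ a * T0 e a) ∧
  (∀ n l : ℕ, 0 ≤ coeff l (cS ^ n)) ∧ (∀ n l : ℕ, coeff l (cS ^ n) ≤ coeff l (cS ^ (n + 1))) ∧
  (∀ n : ℕ, coeff 0 (cS ^ n) = 1)

/-- HM0 (15 min; SR0 is a hypothesis). As HOM: evaluate the polynomial identity at `X cS c0⁻¹` and multiply by `c0^d`; coefficient of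
`X^j`. -/
def S_HM0 : Prop := ∀ (d : ℕ) (b γ : ℕ → ℝ),
  ∑ n ∈ range (d + 1), Polynomial.C (b n) * Polynomial.X ^ n = Phi d γ →
  ∀ j : ℕ, 2 * j ≤ d → γ j = ∑ n ∈ range (j + 1), b n * coeff (j - n) (cS ^ n * c0 ^ (d - n))

/-- RO0 (15 min; SR0 is a hypothesis). As REO: `coeff (j-n) (cS^n c0^(d-n)) = ∑_(a ≤ j - n) coeff (j-n-a) (cS^n) coeff a (c0^(d-n))`, and the
substitution `s = n + a`. -/
def S_RO0 : Prop := ∀ (d j : ℕ), 2 * j ≤ d → ∀ b : ℕ → ℝ,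
  ∑ n ∈ range (j + 1), b n * coeff (j - n) (cS ^ n * c0 ^ (d - n)) =
  ∑ s ∈ range (j + 1), ∑ a ∈ range (s + 1),
    (-1) ^ a * (b (s - a) * coeff (j - s) (cS ^ (s - a)) * T0 ((d - s + a : ℕ) : ℝ) a)

/-- PS0 (20 min; SR0 is a hypothesis). The alternating sums, as in PSJ. With `u a = b (s - a) * coeff l (cS^(s - a)) * T0 (d - s + a) a`,
`l = j - s`, `s ≤ j`; for `a + 1 ≤ s`, `n = s - a - 1`, `E = d - n - 1 = d - s + a ≥ 2 a` (as `2 j ≤ d`): `T0 ≥ 0` here, and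
`T0 (E + 1) (a + 1) = 2 (E + 1) / (a + 1) * ∏_(1 ≤ i ≤ a) 2 (E + 1 - 2 i) / i ≤ 2 (E + 1) / (a + 1) * T0 E a ≤ 2 (d - n) T0 E a`, since
`E + 1 - 2 i ≤ E - 2 (i - 1)`. With `coeff l (cS^n) ≤ coeff l (cS^(n+1))` and `2 (d - n) b n ≤ b (n + 1)` this gives `u (a + 1) ≤ u a`.
So all the inner sums are nonnegative, and the one for `s = j` is at least `u 0 - u 1 = b j - 2 (d - j + 1) b (j - 1)`. -/
def S_PS0 : Prop := ∀ (d j : ℕ) (b : ℕ → ℝ), 1 ≤ j → 2 * j ≤ d → (∀ n, 0 ≤ b n) →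
  (∀ n < j, 2 * ((d : ℝ) - n) * b n ≤ b (n + 1)) →
  b j - 2 * ((d : ℝ) - j + 1) * b (j - 1) ≤
    ∑ s ∈ range (j + 1), ∑ a ∈ range (s + 1),
      (-1) ^ a * (b (s - a) * coeff (j - s) (cS ^ (s - a)) * T0 ((d - s + a : ℕ) : ℝ) a)

end Pool.Agent.T2H83.GR
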